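import Mathlib
import Pool.Agent.Lead.Sel.Spec

/-
Package A3, first half: the mass of the von Mangoldt function, Fourier inversion in angular form,
and the Fejer kernel.
-/

set_option autoImplicit false
open Complex MeasureTheory Set ArithmeticFunction
open scoped FourierTransform

namespace Pool.Agent.H61.SelA
open Pool.Agent.Lead.Sel

theorem block_le {σ : ℝ} (hσ : 0 ≤ σ) (k : ℕ) :
    ∑ n ∈ Finset.Ico (2 ^ k) (2 ^ (k + 1)), Λ n * (n : ℝ) ^ (-σ)
      ≤ 2 * (Real.log 4 + 4) * ((2 : ℝ) ^ (1 - σ)) ^ k := by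
  have h1 : ∀ n ∈ Finset.Ico (2 ^ k) (2 ^ (k + 1)),
      Λ n * (n : ℝ) ^ (-σ) ≤ Λ n * ((2 : ℝ) ^ k) ^ (-σ) := by
    intro n hn
    have hn' : (2 : ℝ) ^ k ≤ n := by exact_mod_cast (Finset.mem_Ico.1 hn).1
    exact mul_le_mul_of_nonneg_left
      (Real.rpow_le_rpow_of_nonpos (by positivity) hn' (by linarith)) vonMangoldt_nonneg
  have h2 : ∑ n ∈ Finset.Ico (2 ^ k) (2 ^ (k + 1)), Λ n ≤ (Real.log 4 + 4) * (2 : ℝ) ^ (k + 1) := by
    refine le_trans ?_ (Chebyshev.psi_le_const_mul_self (x := (2 : ℝ) ^ (k + 1)) (by positivity))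
    rw [Chebyshev.psi_eq_sum_Icc]
    have : ⌊(2 : ℝ) ^ (k + 1)⌋₊ = 2 ^ (k + 1) := by
      have : (2 : ℝ) ^ (k + 1) = ((2 ^ (k + 1) : ℕ) : ℝ) := by push_cast; ring
      rw [this, Nat.floor_natCast]
    rw [this]
    refine Finset.sum_le_sum_of_subset_of_nonneg ?_ (fun _ _ _ => vonMangoldt_nonneg)
    intro n hn
    rw [Finset.mem_Ico] at hn
    rw [Finset.mem_Icc]
    omega
  refine (Finset.sum_le_sum h1).trans ?_
  rw [← Finset.sum_mul]
  have h3 : ((2 : ℝ) ^ (1 - σ)) ^ k = (2 : ℝ) ^ k * ((2 : ℝ) ^ k) ^ (-σ) := by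
    rw [sub_eq_add_neg, Real.rpow_add two_pos, Real.rpow_one, mul_pow,
      ← Real.rpow_natCast ((2 : ℝ) ^ (-σ)), ← Real.rpow_mul two_pos.le, mul_comm (-σ),
      Real.rpow_mul two_pos.le, Real.rpow_natCast]
  rw [h3]
  have h4 : 0 ≤ ((2 : ℝ) ^ k) ^ (-σ) := by positivity
  calc _ ≤ (Real.log 4 + 4) * (2 : ℝ) ^ (k + 1) * ((2 : ℝ) ^ k) ^ (-σ) :=
        mul_le_mul_of_nonneg_right h2 h4
    _ = _ := by ring

theorem range_le {σ : ℝ} (hσ : 0 ≤ σ) (k : ℕ) :
    ∑ n ∈ Finset.range (2 ^ k), Λ n * (n : ℝ) ^ (-σ)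
      ≤ 2 * (Real.log 4 + 4) * ∑ j ∈ Finset.range k, ((2 : ℝ) ^ (1 - σ)) ^ j := by
  induction k with
  | zero => simp
  | succ k ih =>
    have hle : 2 ^ k ≤ 2 ^ (k + 1) := Nat.pow_le_pow_right two_pos (Nat.le_succ k)
    rw [← Finset.sum_range_add_sum_Ico _ hle, Finset.sum_range_succ, mul_add]
    exact add_le_add ih (block_le hσ k)

theorem two_rpow_le {u : ℝ} (h0 : 0 ≤ u) (h1 : u ≤ 1) : (2 : ℝ) ^ (-u) ≤ 1 - u / 4 := by
  have hl : (1 : ℝ) / 2 ≤ Real.log 2 := by have := Real.log_two_gt_d9; linarith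
  have h2 : 1 + u / 2 ≤ (2 : ℝ) ^ u := by
    rw [Real.rpow_def_of_pos two_pos]
    have := Real.add_one_le_exp (Real.log 2 * u)
    nlinarith
  rw [Real.rpow_neg two_pos.le]
  have h3 : ((2 : ℝ) ^ u)⁻¹ ≤ (1 + u / 2)⁻¹ := inv_anti₀ (by linarith) h2
  refine h3.trans ?_
  rw [inv_le_iff_one_le_mul₀ (by linarith)]
  nlinarith

theorem vm : VM := by
  have hC : 0 < Real.log 4 + 4 := by have := Real.log_pos (by norm_num : (1 : ℝ) < 4); linarith
  refine ⟨8 * (Real.log 4 + 4), by linarith, fun σ h1 h2 => ?_⟩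
  have hnn : ∀ n : ℕ, 0 ≤ Λ n * (n : ℝ) ^ (-σ) := fun n =>
    mul_nonneg vonMangoldt_nonneg (Real.rpow_nonneg (Nat.cast_nonneg n) _)
  have hr : (2 : ℝ) ^ (1 - σ) ≤ 1 - (σ - 1) / 4 := by
    have := two_rpow_le (u := σ - 1) (by linarith) (by linarith)
    rwa [neg_sub] at this
  have hr0 : 0 ≤ (2 : ℝ) ^ (1 - σ) := by positivity
  have hb : ∀ N : ℕ, ∑ n ∈ Finset.range N, Λ n * (n : ℝ) ^ (-σ)
      ≤ 8 * (Real.log 4 + 4) / (σ - 1) := by
    intro N
    have hN : N ≤ 2 ^ N := (Nat.lt_two_pow_self).le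
    refine (Finset.sum_le_sum_of_subset_of_nonneg (Finset.range_mono hN)
      (fun n _ _ => hnn n)).trans ((range_le (by linarith) N).trans ?_)
    have hg : ∑ j ∈ Finset.range N, ((2 : ℝ) ^ (1 - σ)) ^ j ≤ (1 - (2 : ℝ) ^ (1 - σ))⁻¹ := by
      have hlt : (2 : ℝ) ^ (1 - σ) < 1 := by linarith
      rw [← tsum_geometric_of_lt_one hr0 hlt]
      exact (summable_geometric_of_lt_one hr0 hlt).sum_le_tsum _ (fun j _ => pow_nonneg hr0 j)
    have hg2 : (1 - (2 : ℝ) ^ (1 - σ))⁻¹ ≤ ((σ - 1) / 4)⁻¹ := inv_anti₀ (by linarith) (by linarith)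
    calc _ ≤ 2 * (Real.log 4 + 4) * ((σ - 1) / 4)⁻¹ :=
          mul_le_mul_of_nonneg_left (hg.trans hg2) (by linarith)
      _ = _ := by field_simp; ring
  exact ⟨summable_of_sum_range_le hnn hb, Real.tsum_le_of_sum_range_le hnn hb⟩

/-- Fourier inversion in angular form -/
theorem inversion {f g : ℝ → ℂ} (hc : Continuous f) (hf : Integrable f) (hg : Integrable g)
    (hfg : ∀ τ : ℝ, ∫ y : ℝ, Complex.exp (-(τ * y * I)) * f y = g τ) (y : ℝ) :
    ∫ τ : ℝ, Complex.exp (τ * y * I) * g τ = 2 * Real.pi * f y := by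
  have hpi : (2 * Real.pi) ≠ 0 := by have := Real.pi_pos; positivity
  have hF : 𝓕 f = fun ξ : ℝ => g (2 * Real.pi * ξ) := by
    ext ξ
    rw [Real.fourier_real_eq_integral_exp_smul, ← hfg]
    refine integral_congr_ae (Filter.Eventually.of_forall fun v => ?_)
    simp only [smul_eq_mul]
    congr 2
    push_cast
    ring
  have hFi : Integrable (𝓕 f) := by rw [hF]; exact hg.comp_mul_left' hpi
  have h1 := congrFun (hc.fourierInv_fourier_eq hf hFi) y
  rw [Real.fourierInv_eq_fourier_neg, Real.fourier_real_eq_integral_exp_smul, hF] at h1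
  have h2 := Measure.integral_comp_mul_left (fun τ : ℝ => Complex.exp (τ * y * I) * g τ) (2 * Real.pi)
  have h3 : (∫ x : ℝ, Complex.exp (((2 * Real.pi * x : ℝ) : ℂ) * y * I) * g (2 * Real.pi * x)) = f y := by
    rw [← h1]
    refine integral_congr_ae (Filter.Eventually.of_forall fun v => ?_)
    simp only [smul_eq_mul]
    congr 2
    push_cast
    ring
  rw [h3, abs_of_pos (by have := Real.pi_pos; positivity), Complex.real_smul] at h2
  rw [h2]
  have : ((2 * Real.pi : ℝ) : ℂ) ≠ 0 := by exact_mod_cast hpi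
  push_cast at this ⊢
  rw [← mul_assoc, mul_inv_cancel₀ this, one_mul]

theorem tri_cont : Continuous tri := by unfold tri; fun_prop

theorem tri_neg (w : ℝ) : tri (-w) = tri w := by simp [tri]

theorem tri_zero {w : ℝ} (h : w ∉ Ioc (-1 : ℝ) 1) : tri w = 0 := by
  unfold tri
  rw [max_eq_right]
  rw [mem_Ioc, not_and_or, not_lt, not_le] at h
  rcases h with h | h
  · have := neg_le_abs w; linarith
  · have := le_abs_self w; linarith

theorem tri_integrable : Integrable (fun w : ℝ => (tri w : ℂ)) := by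
  have hc : Continuous (fun w : ℝ => (tri w : ℂ)) := Complex.continuous_ofReal.comp tri_cont
  refine (integrableOn_iff_integrable_of_support_subset (s := Ioc (-1 : ℝ) 1) ?_).1
    (hc.integrableOn_Icc.mono_set Ioc_subset_Icc_self)
  intro w hw
  by_contra h
  exact hw (by simp [tri_zero h])

theorem lin_exp (c : ℂ) (hc : c ≠ 0) (e : ℂ) (a b : ℝ) :
    ∫ y in a..b, Complex.exp (c * y) * (1 + e * y) =
      Complex.exp (c * b) * ((1 + e * b) / c - e / c ^ 2) -
        Complex.exp (c * a) * ((1 + e * a) / c - e / c ^ 2) := by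
  have hd : ∀ y : ℝ, HasDerivAt (fun y : ℝ => Complex.exp (c * y) * ((1 + e * y) / c - e / c ^ 2))
      (Complex.exp (c * y) * (1 + e * y)) y := by
    intro y
    have h1 : HasDerivAt (fun z : ℂ => Complex.exp (c * z) * ((1 + e * z) / c - e / c ^ 2))
        (Complex.exp (c * y) * (1 + e * y)) (y : ℂ) := by
      have a1 : HasDerivAt (fun z : ℂ => c * z) c (y : ℂ) := by
        simpa using (hasDerivAt_id (y : ℂ)).const_mul c
      have a2 : HasDerivAt (fun z : ℂ => e * z) e (y : ℂ) := by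
        simpa using (hasDerivAt_id (y : ℂ)).const_mul e
      have a3 := (a1.cexp).mul (((a2.const_add 1).div_const c).sub_const (e / c ^ 2))
      refine a3.congr_deriv ?_
      field_simp
      ring
    exact h1.comp_ofReal
  exact intervalIntegral.integral_eq_sub_of_hasDerivAt (fun y _ => hd y)
    (Continuous.intervalIntegrable (by fun_prop) _ _)

theorem tri_fourier (τ : ℝ) :
    ∫ y : ℝ, Complex.exp (-(τ * y * I)) * (tri y : ℂ) = ((Real.sinc (τ / 2) ^ 2 : ℝ) : ℂ) := by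
  have hc : Continuous (fun y : ℝ => Complex.exp (-(τ * y * I)) * (tri y : ℂ)) :=
    Continuous.mul (by fun_prop) (Complex.continuous_ofReal.comp tri_cont)
  have h1 : ∫ y : ℝ, Complex.exp (-(τ * y * I)) * (tri y : ℂ) =
      ∫ y in (-1 : ℝ)..1, Complex.exp (-(τ * y * I)) * (tri y : ℂ) := by
    rw [intervalIntegral.integral_of_le (by norm_num)]
    refine (setIntegral_eq_integral_of_forall_compl_eq_zero fun y hy => ?_).symm
    simp [tri_zero hy]
  have h2 : ∫ y in (-1 : ℝ)..0, Complex.exp (-(τ * y * I)) * (tri y : ℂ) =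
      ∫ y in (-1 : ℝ)..0, Complex.exp ((-(τ * I)) * y) * (1 + 1 * y) := by
    refine intervalIntegral.integral_congr fun y hy => ?_
    rw [uIcc_of_le (by norm_num)] at hy
    have : tri y = 1 + y := by
      unfold tri
      rw [abs_of_nonpos hy.2, max_eq_left (by linarith [hy.1])]; ring
    simp only [this]
    congr 1
    · congr 1; ring
    · push_cast; ring
  have h3 : ∫ y in (0 : ℝ)..1, Complex.exp (-(τ * y * I)) * (tri y : ℂ) =
      ∫ y in (0 : ℝ)..1, Complex.exp ((-(τ * I)) * y) * (1 + (-1) * y) := by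
    refine intervalIntegral.integral_congr fun y hy => ?_
    rw [uIcc_of_le (by norm_num)] at hy
    have : tri y = 1 - y := by
      unfold tri
      rw [abs_of_nonneg hy.1, max_eq_left (by linarith [hy.2])]
    simp only [this]
    congr 1
    · congr 1; ring
    · push_cast; ring
  rw [h1, ← intervalIntegral.integral_add_adjacent_intervals (b := 0)
    (hc.intervalIntegrable _ _) (hc.intervalIntegrable _ _), h2, h3]
  by_cases hτ : τ = 0
  · subst hτ
    simp only [Complex.ofReal_zero, zero_mul, neg_zero, Complex.exp_zero, one_mul, zero_div,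
      Real.sinc_zero, one_pow, Complex.ofReal_one]
    have e1 : ∫ y in (-1 : ℝ)..0, (1 + (y : ℂ)) = ((∫ y in (-1 : ℝ)..0, (1 + y) : ℝ) : ℂ) := by
      rw [← intervalIntegral.integral_ofReal]; push_cast; rfl
    have e2 : ∫ y in (0 : ℝ)..1, (1 + -1 * (y : ℂ)) = ((∫ y in (0 : ℝ)..1, (1 - y) : ℝ) : ℂ) := by
      rw [← intervalIntegral.integral_ofReal]
      refine intervalIntegral.integral_congr fun y _ => ?_
      push_cast; ring
    rw [e1, e2]
    rw [intervalIntegral.integral_add (by simp) (by simp),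
      intervalIntegral.integral_sub (by simp) (by simp)]
    simp
    norm_num
  · have hτ' : (τ : ℂ) ≠ 0 := by exact_mod_cast hτ
    have hc0 : -((τ : ℂ) * I) ≠ 0 := neg_ne_zero.2 (mul_ne_zero hτ' I_ne_zero)
    rw [lin_exp _ hc0, lin_exp _ hc0, Real.sinc_of_ne_zero (by positivity)]
    have hs : ((Real.sin (τ / 2) : ℝ) : ℂ) ^ 2 =
        (2 - Complex.exp (τ * I) - Complex.exp (-(τ * I))) / 4 := by
      have e1 : Real.sin (τ / 2) ^ 2 = 1 / 2 - Real.cos τ / 2 := by
        have := Real.sin_sq_eq_half_sub (τ / 2)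
        rwa [show 2 * (τ / 2) = τ by ring] at this
      have e2 : ((Real.cos τ : ℝ) : ℂ) = (Complex.exp (τ * I) + Complex.exp (-(τ * I))) / 2 := by
        rw [Complex.ofReal_cos, Complex.cos, neg_mul]
      rw [← Complex.ofReal_pow, e1]
      push_cast at e2 ⊢
      rw [e2]; ring
    rw [div_pow, Complex.ofReal_div, Complex.ofReal_pow, hs]
    simp only [Complex.ofReal_zero, mul_zero, Complex.exp_zero, Complex.ofReal_neg,
      Complex.ofReal_one, mul_neg, mul_one, neg_neg]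
    push_cast
    have hI : I ^ 2 = -1 := I_sq
    field_simp
    rw [hI]
    ring

theorem sinc_sq_mul (ξ : ℝ) : Real.sinc (ξ / 2) ^ 2 * ξ ^ 2 ≤ 4 := by
  by_cases h : ξ = 0
  · simp [h]
  · rw [Real.sinc_of_ne_zero (by positivity)]
    have := Real.sin_sq_le_one (ξ / 2)
    have e : (Real.sin (ξ / 2) / (ξ / 2)) ^ 2 * ξ ^ 2 = 4 * Real.sin (ξ / 2) ^ 2 := by
      field_simp; ring
    rw [e]; linarith

theorem sinc_sq_le (ξ : ℝ) : Real.sinc (ξ / 2) ^ 2 ≤ 1 := by
  have := Real.abs_sinc_le_one (ξ / 2)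
  rw [← sq_abs]
  nlinarith [abs_nonneg (Real.sinc (ξ / 2))]

theorem sinc_sq_ge (ξ : ℝ) : 1 - |ξ| ≤ Real.sinc (ξ / 2) ^ 2 := by
  have key : ∀ x : ℝ, 0 < x → 1 - x ≤ Real.sinc (x / 2) ^ 2 := by
    intro x hx
    by_cases h1 : 1 ≤ x
    · nlinarith [sq_nonneg (Real.sinc (x / 2))]
    push Not at h1
    have h2 := Real.sin_gt_sub_cube (x := x / 2) (by linarith)
    rw [Real.sinc_of_ne_zero (by positivity)]
    have h3 : 1 - x / 2 ≤ Real.sin (x / 2) / (x / 2) := by
      rw [le_div_iff₀ (by linarith)]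
      nlinarith [mul_pos hx hx]
    nlinarith
  rcases lt_trichotomy ξ 0 with h | h | h
  · have := key (-ξ) (by linarith)
    rwa [neg_div, Real.sinc_neg, ← abs_of_neg h] at this
  · simp [h]
  · rw [abs_of_pos h]; exact key ξ h

theorem sinc_sq_integrable : Integrable (fun ξ : ℝ => Real.sinc (ξ / 2) ^ 2) := by
  have hc : Continuous (fun ξ : ℝ => Real.sinc (ξ / 2) ^ 2) :=
    (Real.continuous_sinc.comp (by fun_prop)).pow 2
  refine (integrable_inv_one_add_sq.const_mul 5).mono' hc.aestronglyMeasurable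
    (Filter.Eventually.of_forall fun ξ => ?_)
  rw [Real.norm_eq_abs, abs_of_nonneg (sq_nonneg _), ← div_eq_mul_inv, le_div_iff₀ (by positivity)]
  have := sinc_sq_mul ξ
  have := sinc_sq_le ξ
  nlinarith

theorem fj : FJ := by
  refine ⟨fun ξ => Real.sinc (ξ / 2) ^ 2, (Real.continuous_sinc.comp (by fun_prop)).pow 2,
    sinc_sq_integrable, fun ξ => ⟨sq_nonneg _, sinc_sq_le ξ⟩, sinc_sq_mul, sinc_sq_ge, ?_⟩
  intro T hT w
  have h1 := inversion (f := fun y => (tri y : ℂ)) (g := fun τ => ((Real.sinc (τ / 2) ^ 2 : ℝ) : ℂ))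
    (Complex.continuous_ofReal.comp tri_cont) tri_integrable sinc_sq_integrable.ofReal
    tri_fourier (-(T * w))
  have h2 := Measure.integral_comp_inv_mul_left
    (fun τ : ℝ => Complex.exp (τ * ((-(T * w) : ℝ) : ℂ) * I) * ((Real.sinc (τ / 2) ^ 2 : ℝ) : ℂ)) T
  rw [h1, tri_neg, abs_of_pos hT, Complex.real_smul] at h2
  have hT' : (T : ℂ) ≠ 0 := by exact_mod_cast hT.ne'
  calc _ = ∫ x : ℝ, Complex.exp (((T⁻¹ * x : ℝ) : ℂ) * ((-(T * w) : ℝ) : ℂ) * I) *
        ((Real.sinc (T⁻¹ * x / 2) ^ 2 : ℝ) : ℂ) := by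
        refine integral_congr_ae (Filter.Eventually.of_forall fun t => ?_)
        simp only
        rw [mul_comm, div_eq_inv_mul t T]
        congr 2
        push_cast
        field_simp
    _ = _ := by rw [h2]; push_cast; ring

end Pool.Agent.H61.SelA
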