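import Mathlib

/-! A self-contained Selberg upper bound sieve for arbitrary residue classes. -/

namespace Pool.Agent.H61.Sieve

open Finset

lemma sum_Ico_periodic (f : ℕ → ℝ) (q : ℕ) (hf : Function.Periodic f q) (a : ℕ) :
    ∑ s ∈ Ico a (a + q), f s = ∑ s ∈ range q, f s := by
  induction a with
  | zero => simp
  | succ a ih =>
    rw [← ih]
    have h1 : ∑ s ∈ Ico a (a + 1 + q), f s = f a + ∑ s ∈ Ico (a + 1) (a + 1 + q), f s :=
      Finset.sum_eq_sum_Ico_succ_bot (by omega) f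
    have h2 : ∑ s ∈ Ico a (a + q + 1), f s = ∑ s ∈ Ico a (a + q), f s + f (a + q) :=
      Finset.sum_Ico_succ_top (by omega) f
    have h3 : a + 1 + q = a + q + 1 := by ring
    rw [h3] at h1 ⊢
    have h4 := hf a
    linarith

lemma window_le (f : ℕ → ℝ) (q : ℕ) (hq : 0 < q) (hf : Function.Periodic f q) (B : ℝ)
    (hB : ∀ s, |f s| ≤ B) (N : ℕ) : ∀ a : ℕ,
    ∑ s ∈ Ico a (a + N), f s ≤ N * ((∑ s ∈ range q, f s) / q) + 2 * q * B := by
  have hq' : (0 : ℝ) < q := by exact_mod_cast hq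
  have hB0 : 0 ≤ B := le_trans (abs_nonneg _) (hB 0)
  have hm : -B ≤ (∑ s ∈ range q, f s) / q := by
    rw [le_div_iff₀ hq']
    have : ∑ s ∈ range q, (-B) ≤ ∑ s ∈ range q, f s :=
      sum_le_sum fun s _ => (abs_le.mp (hB s)).1
    simp at this
    linarith
  induction N using Nat.strong_induction_on with
  | _ N ih =>
    intro a
    by_cases hN : N < q
    · have h1 : ∑ s ∈ Ico a (a + N), f s ≤ ∑ s ∈ Ico a (a + N), B :=
        sum_le_sum fun s _ => (abs_le.mp (hB s)).2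
      simp at h1
      have hN' : (N : ℝ) ≤ q := by exact_mod_cast hN.le
      have h2 : (N : ℝ) * (-B) ≤ N * ((∑ s ∈ range q, f s) / q) :=
        mul_le_mul_of_nonneg_left hm (Nat.cast_nonneg _)
      nlinarith
    · push Not at hN
      obtain ⟨k, rfl⟩ := Nat.exists_eq_add_of_le hN
      have h1 := ih k (by omega) (a + q)
      have h2 : ∑ s ∈ Ico a (a + q), f s + ∑ s ∈ Ico (a + q) (a + q + k), f s
          = ∑ s ∈ Ico a (a + q + k), f s :=
        Finset.sum_Ico_consecutive f (by omega) (by omega)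
      rw [sum_Ico_periodic f q hf] at h2
      rw [← add_assoc, ← h2]
      push_cast
      have h3 : (q : ℝ) * ((∑ s ∈ range q, f s) / q) = ∑ s ∈ range q, f s := by
        field_simp
      nlinarith

lemma crt_sum (a b : ℕ) (ha : 0 < a) (hb : 0 < b) (hab : Nat.Coprime a b) (f g : ℕ → ℝ)
    (hf : Function.Periodic f a) (hg : Function.Periodic g b) :
    ∑ s ∈ range (a * b), f s * g s = (∑ s ∈ range a, f s) * ∑ s ∈ range b, g s := by
  rw [Finset.sum_mul_sum, ← Finset.sum_product']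
  refine Finset.sum_bij (fun s _ => (s % a, s % b)) ?_ ?_ ?_ ?_
  · intro s _
    simp only [mem_product, mem_range]
    exact ⟨Nat.mod_lt _ ha, Nat.mod_lt _ hb⟩
  · intro s hs t ht h
    simp only [Prod.mk.injEq] at h
    have : s ≡ t [MOD a * b] := (Nat.modEq_and_modEq_iff_modEq_mul hab).mp ⟨h.1, h.2⟩
    exact Nat.ModEq.eq_of_lt_of_lt this (mem_range.mp hs) (mem_range.mp ht)
  · rintro ⟨u, v⟩ huv
    simp only [mem_product, mem_range] at huv
    refine ⟨(Nat.chineseRemainder hab u v : ℕ), ?_, ?_⟩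
    · exact mem_range.mpr (Nat.chineseRemainder_lt_mul hab u v ha.ne' hb.ne')
    · have h := (Nat.chineseRemainder hab u v).2
      simp only [Prod.mk.injEq]
      exact ⟨Eq.trans h.1 (Nat.mod_eq_of_lt huv.1), Eq.trans h.2 (Nat.mod_eq_of_lt huv.2)⟩
  · intro s _
    simp only
    rw [hf.map_mod_nat, hg.map_mod_nat]

lemma periodic_prod (A : Finset ℕ) (F : ℕ → ℕ → ℝ) (hF : ∀ p ∈ A, Function.Periodic (F p) p) :
    Function.Periodic (fun s => ∏ p ∈ A, F p s) (∏ p ∈ A, p) := by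
  intro s
  refine Finset.prod_congr rfl fun p hp => ?_
  obtain ⟨c, hc⟩ := Finset.dvd_prod_of_mem (fun p : ℕ => p) hp
  rw [hc, mul_comm]
  exact (hF p hp).nat_mul c s

lemma crt_prod (F : ℕ → ℕ → ℝ) (A : Finset ℕ) (hpos : ∀ p ∈ A, 0 < p)
    (hco : ∀ p ∈ A, ∀ q ∈ A, p ≠ q → Nat.Coprime p q)
    (hF : ∀ p ∈ A, Function.Periodic (F p) p) :
    ∑ s ∈ range (∏ p ∈ A, p), ∏ p ∈ A, F p s = ∏ p ∈ A, ∑ s ∈ range p, F p s := by
  induction A using Finset.induction_on with
  | empty => simp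
  | insert p A hp ih =>
    have ih' := ih (fun q hq => hpos q (mem_insert_of_mem hq))
      (fun q hq r hr => hco q (mem_insert_of_mem hq) r (mem_insert_of_mem hr))
      (fun q hq => hF q (mem_insert_of_mem hq))
    simp only [Finset.prod_insert hp]
    rw [← ih']
    apply crt_sum p (∏ q ∈ A, q) (hpos p (mem_insert_self _ _))
      (Finset.prod_pos fun q hq => hpos q (mem_insert_of_mem hq))
    · apply Nat.Coprime.prod_right
      intro q hq
      exact hco p (mem_insert_self _ _) q (mem_insert_of_mem hq) (by rintro rfl; exact hp hq)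
    · exact hF p (mem_insert_self _ _)
    · exact periodic_prod A F fun q hq => hF q (mem_insert_of_mem hq)

section main

variable (bad : ℕ → ℕ → Prop) [∀ p s, Decidable (bad p s)]

/-- number of removed classes modulo `p` -/
def rho (p : ℕ) : ℕ := ((range p).filter (bad p)).card

/-- the Selberg weight of a modulus -/
noncomputable def gw (p : ℕ) : ℝ := (rho bad p : ℝ) / (p - rho bad p)

/-- mean zero function equal to one on the survivors -/
noncomputable def Y (p s : ℕ) : ℝ := if bad p s then 1 - p / (rho bad p : ℝ) else 1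

lemma rho_le (p : ℕ) : rho bad p ≤ p := by
  unfold rho
  simpa using card_filter_le (range p) (bad p)

lemma sum_ite_bad (p : ℕ) (x y : ℝ) :
    ∑ s ∈ range p, (if bad p s then x else y) = rho bad p * x + (p - rho bad p) * y := by
  rw [Finset.sum_ite]
  simp only [sum_const, nsmul_eq_mul]
  have h := Finset.card_filter_add_card_filter_not (s := range p) (bad p)
  rw [card_range] at h
  have h' : (((range p).filter (fun s => ¬ bad p s)).card : ℝ) = p - rho bad p := by
    unfold rho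
    rw [eq_sub_iff_add_eq, add_comm]
    exact_mod_cast h
  rw [h']
  rfl

lemma sum_Y (p : ℕ) (h0 : 0 < rho bad p) : ∑ s ∈ range p, Y bad p s = 0 := by
  unfold Y
  rw [sum_ite_bad]
  have : (0 : ℝ) < rho bad p := by exact_mod_cast h0
  field_simp
  ring

lemma sum_Y_sq (p : ℕ) (h0 : 0 < rho bad p) (h1 : rho bad p < p) :
    ∑ s ∈ range p, Y bad p s * Y bad p s = p / gw bad p := by
  have : ∀ s, Y bad p s * Y bad p s
      = if bad p s then (1 - p / (rho bad p : ℝ)) ^ 2 else 1 := by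
    intro s
    unfold Y
    split_ifs <;> ring
  simp_rw [this]
  rw [sum_ite_bad]
  have h2 : (0 : ℝ) < rho bad p := by exact_mod_cast h0
  have h3 : (0 : ℝ) < p - rho bad p := by
    have : (rho bad p : ℝ) < p := by exact_mod_cast h1
    linarith
  unfold gw
  field_simp
  ring

lemma abs_Y_le (p s : ℕ) (h0 : 0 < rho bad p) : |Y bad p s| ≤ p := by
  have h1 : (1 : ℝ) ≤ rho bad p := by exact_mod_cast h0
  have h2 : (rho bad p : ℝ) ≤ p := by exact_mod_cast rho_le bad p
  unfold Y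
  split_ifs
  · have h3 : (p : ℝ) / rho bad p ≤ p := div_le_self (by linarith) h1
    have h4 : (0 : ℝ) ≤ (p : ℝ) / rho bad p := by positivity
    rw [abs_le]
    constructor <;> linarith
  · rw [abs_one]
    linarith

lemma gw_pos (p : ℕ) (h0 : 0 < rho bad p) (h1 : rho bad p < p) : 0 < gw bad p := by
  have h2 : (0 : ℝ) < rho bad p := by exact_mod_cast h0
  have h3 : (0 : ℝ) < p - rho bad p := by
    have : (rho bad p : ℝ) < p := by exact_mod_cast h1
    linarith
  unfold gw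
  positivity

lemma periodic_Y (p : ℕ) (h : ∀ s, bad p (s + p) ↔ bad p s) :
    Function.Periodic (Y bad p) p := by
  intro s
  unfold Y
  simp only [h s]

lemma pair_bound (P : Finset ℕ) (hco : ∀ p ∈ P, ∀ q ∈ P, p ≠ q → Nat.Coprime p q)
    (hper : ∀ p ∈ P, ∀ s, bad p (s + p) ↔ bad p s)
    (h0 : ∀ p ∈ P, 0 < rho bad p) (h1 : ∀ p ∈ P, rho bad p < p)
    (z : ℝ) (d e : Finset ℕ) (hd : d ⊆ P) (he : e ⊆ P)
    (hdz : ((∏ p ∈ d, p : ℕ) : ℝ) ≤ z) (hez : ((∏ p ∈ e, p : ℕ) : ℝ) ≤ z) (a N : ℕ) :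
    ∑ s ∈ Ico a (a + N), (∏ p ∈ d, Y bad p s) * ∏ p ∈ e, Y bad p s
      ≤ N * (if d = e then (∏ p ∈ d, gw bad p)⁻¹ else 0) + 2 * z ^ 4 := by
  classical
  set U := d ∪ e with hU
  have hUP : U ⊆ P := union_subset hd he
  have hpos : ∀ p ∈ P, 0 < p := fun p hp => lt_of_le_of_lt (Nat.zero_le _) (h1 p hp)
  let F : ℕ → ℕ → ℝ := fun p s =>
    (if p ∈ d then Y bad p s else 1) * (if p ∈ e then Y bad p s else 1)
  have hF : ∀ s, (∏ p ∈ d, Y bad p s) * ∏ p ∈ e, Y bad p s = ∏ p ∈ U, F p s := by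
    intro s
    simp only [F]
    rw [Finset.prod_mul_distrib, Finset.prod_ite_mem, Finset.prod_ite_mem,
      inter_eq_right.mpr subset_union_left, inter_eq_right.mpr subset_union_right]
  have hFper : ∀ p ∈ U, Function.Periodic (F p) p := by
    intro p hp s
    have := periodic_Y bad p (hper p (hUP hp)) s
    simp only [F, this]
  have hq : 0 < ∏ p ∈ U, p := Finset.prod_pos fun p hp => hpos p (hUP hp)
  have hd1 : (1 : ℝ) ≤ ((∏ p ∈ d, p : ℕ) : ℝ) := by
    exact_mod_cast Finset.prod_pos fun p hp => hpos p (hd hp)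
  have hz : 0 ≤ z := by linarith
  have hqz : ((∏ p ∈ U, p : ℕ) : ℝ) ≤ z ^ 2 := by
    have h2 : ∏ p ∈ U, p ≤ (∏ p ∈ d, p) * ∏ p ∈ e, p := by
      rw [← Finset.prod_union_inter]
      exact Nat.le_mul_of_pos_right _
        (Finset.prod_pos fun p hp => hpos p (hd (mem_inter.mp hp).1))
    have h3 : ((∏ p ∈ U, p : ℕ) : ℝ) ≤ ((∏ p ∈ d, p : ℕ) : ℝ) * ((∏ p ∈ e, p : ℕ) : ℝ) := by
      exact_mod_cast h2
    calc _ ≤ _ := h3
      _ ≤ z * z := mul_le_mul hdz hez (Nat.cast_nonneg _) hz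
      _ = z ^ 2 := by ring
  have habs : ∀ (c : Finset ℕ), c ⊆ P → ∀ s, |∏ p ∈ c, Y bad p s| ≤ ((∏ p ∈ c, p : ℕ) : ℝ) := by
    intro c hc s
    rw [Finset.abs_prod]
    push_cast
    exact Finset.prod_le_prod (fun p _ => abs_nonneg _) fun p hp => abs_Y_le bad p s (h0 p (hc hp))
  have hB : ∀ s, |∏ p ∈ U, F p s| ≤ z ^ 2 := by
    intro s
    rw [← hF, abs_mul]
    calc _ ≤ z * z := mul_le_mul ((habs d hd s).trans hdz) ((habs e he s).trans hez)
          (abs_nonneg _) hz
      _ = z ^ 2 := by ring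
  simp_rw [hF]
  have hw := window_le (fun s => ∏ p ∈ U, F p s) _ hq (periodic_prod U F hFper) (z ^ 2) hB N a
  rw [crt_prod F U (fun p hp => hpos p (hUP hp))
    (fun p hp q hq => hco p (hUP hp) q (hUP hq)) hFper] at hw
  have hmean : (∏ p ∈ U, ∑ s ∈ range p, F p s) / ((∏ p ∈ U, p : ℕ) : ℝ)
      = if d = e then (∏ p ∈ d, gw bad p)⁻¹ else 0 := by
    split_ifs with hde
    · subst hde
      have hUd : U = d := by simp [hU]
      rw [hUd]
      push_cast
      rw [← Finset.prod_div_distrib, ← Finset.prod_inv_distrib]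
      refine Finset.prod_congr rfl fun p hp => ?_
      simp only [F, hp, if_true]
      rw [sum_Y_sq bad p (h0 p (hd hp)) (h1 p (hd hp))]
      have : (0 : ℝ) < p := by exact_mod_cast hpos p (hd hp)
      field_simp
    · have : ∃ p ∈ U, ∑ s ∈ range p, F p s = 0 := by
        by_cases h : d ⊆ e
        · have h' : ¬ e ⊆ d := fun h' => hde (Subset.antisymm h h')
          obtain ⟨p, hp, hp'⟩ := not_subset.mp h'
          refine ⟨p, mem_union_right _ hp, ?_⟩
          simp only [F, hp, hp', if_true, if_false, one_mul]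
          exact sum_Y bad p (h0 p (he hp))
        · obtain ⟨p, hp, hp'⟩ := not_subset.mp h
          refine ⟨p, mem_union_left _ hp, ?_⟩
          simp only [F, hp, hp', if_true, if_false, mul_one]
          exact sum_Y bad p (h0 p (hd hp))
      obtain ⟨p, hp, hp'⟩ := this
      rw [Finset.prod_eq_zero hp hp', zero_div]
  rw [hmean] at hw
  have h4 : 2 * ((∏ p ∈ U, p : ℕ) : ℝ) * z ^ 2 ≤ 2 * z ^ 4 := by
    have : ((∏ p ∈ U, p : ℕ) : ℝ) * z ^ 2 ≤ z ^ 2 * z ^ 2 :=
      mul_le_mul_of_nonneg_right hqz (by positivity)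
    nlinarith
  linarith

/-- Selberg upper bound sieve. -/
theorem selberg (P : Finset ℕ) (hco : ∀ p ∈ P, ∀ q ∈ P, p ≠ q → Nat.Coprime p q)
    (hper : ∀ p ∈ P, ∀ s, bad p (s + p) ↔ bad p s)
    (h0 : ∀ p ∈ P, 0 < rho bad p) (h1 : ∀ p ∈ P, rho bad p < p)
    (z : ℝ) (D : Finset (Finset ℕ)) (hDP : ∀ d ∈ D, d ⊆ P)
    (hDz : ∀ d ∈ D, ((∏ p ∈ d, p : ℕ) : ℝ) ≤ z) (hne : D.Nonempty) (a N : ℕ)
    (S : Finset ℕ) (hS : S ⊆ Ico a (a + N)) (hSb : ∀ s ∈ S, ∀ p ∈ P, ¬ bad p s) :
    (S.card : ℝ) ≤ N / (∑ d ∈ D, ∏ p ∈ d, gw bad p) + 2 * z ^ 4 := by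
  classical
  set g : Finset ℕ → ℝ := fun d => ∏ p ∈ d, gw bad p with hg
  have hgpos : ∀ d ∈ D, 0 < g d := fun d hd =>
    Finset.prod_pos fun p hp => gw_pos bad p (h0 p (hDP d hd hp)) (h1 p (hDP d hd hp))
  set G := ∑ d ∈ D, g d with hG
  have hGpos : 0 < G := Finset.sum_pos hgpos hne
  let W : ℕ → ℝ := fun s => ∑ d ∈ D, g d * ∏ p ∈ d, Y bad p s
  have hW : ∀ s ∈ S, W s = G := by
    intro s hs
    refine Finset.sum_congr rfl fun d hd => ?_
    rw [Finset.prod_eq_one, mul_one]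
    intro p hp
    unfold Y
    rw [if_neg (hSb s hs p (hDP d hd hp))]
  have hlow : (S.card : ℝ) * G ^ 2 ≤ ∑ s ∈ Ico a (a + N), W s ^ 2 := by
    calc (S.card : ℝ) * G ^ 2 = ∑ s ∈ S, W s ^ 2 := by
          rw [Finset.sum_congr rfl (fun s hs => by rw [hW s hs])]
          simp
      _ ≤ _ := Finset.sum_le_sum_of_subset_of_nonneg hS fun s _ _ => sq_nonneg _
  have hup : ∑ s ∈ Ico a (a + N), W s ^ 2 ≤ N * G + 2 * z ^ 4 * G ^ 2 := by
    have e1 : ∑ s ∈ Ico a (a + N), W s ^ 2 = ∑ d ∈ D, ∑ e ∈ D, g d * g e *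
        ∑ s ∈ Ico a (a + N), (∏ p ∈ d, Y bad p s) * ∏ p ∈ e, Y bad p s := by
      have e0 : ∀ s, W s ^ 2 = ∑ d ∈ D, ∑ e ∈ D, g d * g e *
          ((∏ p ∈ d, Y bad p s) * ∏ p ∈ e, Y bad p s) := by
        intro s
        simp only [W]
        rw [sq, Finset.sum_mul_sum]
        refine Finset.sum_congr rfl fun d _ => Finset.sum_congr rfl fun e _ => ?_
        ring
      simp_rw [e0]
      rw [Finset.sum_comm]
      refine Finset.sum_congr rfl fun d _ => ?_
      rw [Finset.sum_comm]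
      refine Finset.sum_congr rfl fun e _ => ?_
      rw [Finset.mul_sum]
    have e2 : ∑ d ∈ D, ∑ e ∈ D, g d * g e * (N * (if d = e then (g d)⁻¹ else 0) + 2 * z ^ 4)
        = N * G + 2 * z ^ 4 * G ^ 2 := by
      simp only [mul_add, Finset.sum_add_distrib]
      congr 1
      · rw [hG, Finset.mul_sum]
        refine Finset.sum_congr rfl fun d hd => ?_
        rw [Finset.sum_eq_single d]
        · have := (hgpos d hd).ne'
          simp only [if_true]
          field_simp
        · intro e _ hed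
          rw [if_neg (Ne.symm hed)]
          ring
        · intro h
          exact absurd hd h
      · rw [hG, sq, Finset.sum_mul_sum, Finset.mul_sum]
        refine Finset.sum_congr rfl fun d _ => ?_
        rw [Finset.mul_sum]
        refine Finset.sum_congr rfl fun e _ => ?_
        ring
    rw [e1, ← e2]
    refine Finset.sum_le_sum fun d hd => Finset.sum_le_sum fun e he => ?_
    refine mul_le_mul_of_nonneg_left ?_ (mul_pos (hgpos d hd) (hgpos e he)).le
    exact pair_bound bad P hco hper h0 h1 z d e (hDP d hd) (hDP e he) (hDz d hd) (hDz e he) a N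
  have h5 : (S.card : ℝ) * G ^ 2 ≤ (N / G + 2 * z ^ 4) * G ^ 2 := by
    have : (N / G + 2 * z ^ 4) * G ^ 2 = N * G + 2 * z ^ 4 * G ^ 2 := by
      field_simp
    linarith
  exact le_of_mul_le_mul_right h5 (by positivity)

end main

end Pool.Agent.H61.Sieve
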