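import Mathlib
import Pool.Agent.H61.Sieve

/-! Lower bounds for the Selberg sum, and divergence of reciprocals of primes in a class. -/

namespace Pool.Agent.H61.Sieve

open Finset

/-- completely multiplicative extension of values at primes -/
noncomputable def cm (x : ℕ → ℝ) (m : ℕ) : ℝ := m.factorization.prod fun p k => x p ^ k

lemma cm_eq (x : ℕ → ℝ) (m : ℕ) : cm x m = ∏ p ∈ m.primeFactors, x p ^ m.factorization p := by
  unfold cm Finsupp.prod
  rw [Nat.support_factorization]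

lemma cm_one (x : ℕ → ℝ) : cm x 1 = 1 := by simp [cm]

lemma cm_mul (x : ℕ → ℝ) {m n : ℕ} (hm : m ≠ 0) (hn : n ≠ 0) :
    cm x (m * n) = cm x m * cm x n := by
  unfold cm
  rw [Nat.factorization_mul hm hn, Finsupp.prod_add_index']
  · intro p; simp
  · intro p k l; rw [pow_add]

lemma cm_prime_pow (x : ℕ → ℝ) {p : ℕ} (hp : p.Prime) (k : ℕ) : cm x (p ^ k) = x p ^ k := by
  unfold cm
  rw [hp.factorization_pow, Finsupp.prod_single_index]
  simp

lemma cm_prime (x : ℕ → ℝ) {p : ℕ} (hp : p.Prime) : cm x p = x p := by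
  simpa using cm_prime_pow x hp 1

lemma cm_nonneg (x : ℕ → ℝ) (hx : ∀ p, 0 ≤ x p) (m : ℕ) : 0 ≤ cm x m := by
  rw [cm_eq]
  exact Finset.prod_nonneg fun p _ => pow_nonneg (hx p) _

lemma cm_div (c : ℕ → ℝ) {m : ℕ} (hm : m ≠ 0) :
    cm (fun p => c p / p) m = cm c m / m := by
  rw [cm_eq, cm_eq]
  simp only [div_pow]
  rw [Finset.prod_div_distrib]
  congr 1
  conv_rhs => rw [← Nat.prod_factorization_pow_eq_self hm]
  unfold Finsupp.prod
  rw [Nat.support_factorization]
  push_cast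
  rfl

lemma cm_ne_zero_imp (x : ℕ → ℝ) {m : ℕ} (h : cm x m ≠ 0) {p : ℕ} (hp : p ∈ m.primeFactors) :
    x p ≠ 0 := by
  intro h0
  apply h
  rw [cm_eq]
  refine Finset.prod_eq_zero hp ?_
  rw [h0, zero_pow]
  rw [← Nat.support_factorization] at hp
  exact Finsupp.mem_support_iff.mp hp

lemma geom_le (x : ℝ) (h0 : 0 ≤ x) (h1 : x < 1) (z : ℕ) :
    ∑ k ∈ Icc 1 z, x ^ k ≤ x / (1 - x) := by
  have h2 : 0 < 1 - x := by linarith
  rw [le_div_iff₀ h2]
  have : (∑ k ∈ Icc 1 z, x ^ k) * (1 - x) = x - x ^ (z + 1) := by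
    induction z with
    | zero => simp
    | succ z ih =>
      rw [Finset.sum_Icc_succ_top (by omega), add_mul, ih]
      ring
  rw [this]
  have := pow_nonneg h0 (z + 1)
  linarith

lemma fiber_le (x : ℕ → ℝ) (hx0 : ∀ p, 0 ≤ x p) (z : ℕ) (d : Finset ℕ) (T : Finset ℕ)
    (hT : ∀ m ∈ T, 0 < m ∧ m ≤ z ∧ m.primeFactors = d) :
    ∑ m ∈ T, cm x m ≤ ∏ p ∈ d, ∑ k ∈ Icc 1 z, x p ^ k := by
  classical
  rw [Finset.prod_sum]
  let φ : ℕ → (∀ p ∈ d, ℕ) := fun m p _ => m.factorization p
  have hinj : Set.InjOn φ T := by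
    intro m hm n hn h
    obtain ⟨hm0, -, hmd⟩ := hT m hm
    obtain ⟨hn0, -, hnd⟩ := hT n hn
    apply Nat.factorization_inj (by simpa using hm0.ne') (by simpa using hn0.ne')
    ext p
    by_cases hp : p ∈ d
    · exact congrFun (congrFun h p) hp
    · have h1 : m.factorization p = 0 := by
        rw [← hmd, ← Nat.support_factorization] at hp
        exact Finsupp.notMem_support_iff.mp hp
      have h2 : n.factorization p = 0 := by
        rw [← hnd, ← Nat.support_factorization] at hp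
        exact Finsupp.notMem_support_iff.mp hp
      rw [h1, h2]
  have e : ∑ m ∈ T, cm x m
      = ∑ ψ ∈ T.image φ, ∏ p ∈ d.attach, x p.1 ^ ψ p.1 p.2 := by
    rw [Finset.sum_image hinj]
    refine Finset.sum_congr rfl fun m hm => ?_
    rw [cm_eq, (hT m hm).2.2]
    exact (Finset.prod_attach d fun p => x p ^ m.factorization p).symm
  rw [e]
  refine Finset.sum_le_sum_of_subset_of_nonneg ?_ fun ψ _ _ =>
    Finset.prod_nonneg fun p _ => pow_nonneg (hx0 _) _
  intro ψ hψ
  obtain ⟨m, hm, rfl⟩ := mem_image.mp hψ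
  obtain ⟨hm0, hmz, hmd⟩ := hT m hm
  rw [Finset.mem_pi]
  intro p hp
  rw [mem_Icc]
  constructor
  · rw [← hmd, ← Nat.support_factorization] at hp
    exact Nat.one_le_iff_ne_zero.mpr (Finsupp.mem_support_iff.mp hp)
  · exact (Nat.factorization_lt p hm0.ne').le.trans hmz

/-- the family of all sets of moduli with product at most `z` -/
def fam (P : Finset ℕ) (z : ℕ) : Finset (Finset ℕ) :=
  P.powerset.filter fun d => ∏ p ∈ d, p ≤ z

lemma G_ge (x g : ℕ → ℝ) (hx0 : ∀ p, 0 ≤ x p) (P : Finset ℕ) (hx1 : ∀ p ∈ P, x p < 1)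
    (hg : ∀ p ∈ P, x p / (1 - x p) ≤ g p) (z : ℕ) (T : Finset ℕ)
    (hT : ∀ m ∈ T, 0 < m ∧ m ≤ z ∧ m.primeFactors ⊆ P) :
    ∑ m ∈ T, cm x m ≤ ∑ d ∈ fam P z, ∏ p ∈ d, g p := by
  classical
  have hmaps : ∀ m ∈ T, m.primeFactors ∈ fam P z := by
    intro m hm
    obtain ⟨hm0, hmz, hmP⟩ := hT m hm
    unfold fam
    rw [mem_filter, mem_powerset]
    exact ⟨hmP, (Nat.le_of_dvd hm0 (Nat.prod_primeFactors_dvd m)).trans hmz⟩
  rw [← Finset.sum_fiberwise_of_maps_to hmaps]
  refine Finset.sum_le_sum fun d hd => ?_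
  have hdP : d ⊆ P := mem_powerset.mp (mem_filter.mp hd).1
  refine (fiber_le x hx0 z d _ ?_).trans ?_
  · intro m hm
    rw [mem_filter] at hm
    exact ⟨(hT m hm.1).1, (hT m hm.1).2.1, hm.2⟩
  · refine Finset.prod_le_prod (fun p _ => Finset.sum_nonneg fun k _ => pow_nonneg (hx0 p) _) ?_
    intro p hp
    exact (geom_le (x p) (hx0 p) (hx1 p (hdP hp)) z).trans (hg p (hdP hp))

/-- Selberg sieve, final form: primes `P`, and a lower bound for the densities. -/
theorem selberg' (bad : ℕ → ℕ → Prop) [∀ p s, Decidable (bad p s)] (P : Finset ℕ)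
    (hP : ∀ p ∈ P, p.Prime) (hper : ∀ p ∈ P, ∀ s, bad p (s + p) ↔ bad p s)
    (c : ℕ → ℝ) (hc0 : ∀ p, 0 ≤ c p) (hc : ∀ p ∈ P, c p ≤ rho bad p)
    (h0 : ∀ p ∈ P, 0 < rho bad p) (h1 : ∀ p ∈ P, rho bad p < p)
    (z : ℕ) (hz : 1 ≤ z) (T : Finset ℕ) (hT : ∀ m ∈ T, 0 < m ∧ m ≤ z ∧ m.primeFactors ⊆ P)
    (L : ℝ) (hL0 : 0 < L) (hL : L ≤ ∑ m ∈ T, cm c m / m) (a N : ℕ)
    (S : Finset ℕ) (hS : S ⊆ Ico a (a + N)) (hSb : ∀ s ∈ S, ∀ p ∈ P, ¬ bad p s) :
    (S.card : ℝ) ≤ N / L + 2 * (z : ℝ) ^ 4 := by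
  have hmain := selberg bad P
    (fun p hp q hq hpq => (Nat.coprime_primes (hP p hp) (hP q hq)).mpr hpq) hper h0 h1 z
    (fam P z) (fun d hd => mem_powerset.mp (mem_filter.mp hd).1)
    (fun d hd => by exact_mod_cast (mem_filter.mp hd).2)
    ⟨∅, by simp [fam, hz]⟩ a N S hS hSb
  have hG : ∑ m ∈ T, cm (fun p => c p / p) m ≤ ∑ d ∈ fam P z, ∏ p ∈ d, gw bad p := by
    have hlt : ∀ p ∈ P, (rho bad p : ℝ) < p := fun p hp => by exact_mod_cast h1 p hp
    have hpos : ∀ p ∈ P, (0 : ℝ) < p := fun p hp => by exact_mod_cast (hP p hp).pos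
    refine G_ge _ _ (fun p => div_nonneg (hc0 p) (Nat.cast_nonneg _)) P ?_ ?_ z T hT
    · intro p hp
      rw [div_lt_one (hpos p hp)]
      exact (hc p hp).trans_lt (hlt p hp)
    · intro p hp
      have e : c p / p / (1 - c p / p) = c p / (p - c p) := by
        have := (hpos p hp).ne'
        have : (p : ℝ) - c p ≠ 0 := by linarith [hc p hp, hlt p hp]
        field_simp
      rw [e]
      unfold gw
      exact div_le_div₀ (Nat.cast_nonneg _) (hc p hp) (by linarith [hlt p hp])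
        (by linarith [hc p hp])
  have hG' : L ≤ ∑ d ∈ fam P z, ∏ p ∈ d, gw bad p := by
    refine hL.trans (le_trans (le_of_eq ?_) hG)
    exact Finset.sum_congr rfl fun m hm => (cm_div c (hT m hm).1.ne').symm
  have : (N : ℝ) / (∑ d ∈ fam P z, ∏ p ∈ d, gw bad p) ≤ N / L :=
    div_le_div_of_nonneg_left (Nat.cast_nonneg _) hL0 hG'
  linarith

open ArithmeticFunction ArithmeticFunction.vonMangoldt Filter Topology in
theorem not_summable_recip_class {q : ℕ} [NeZero q] {a : ZMod q} (ha : IsUnit a) :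
    ¬ Summable fun n : ℕ => if n.Prime ∧ (n : ZMod q) = a then (1 : ℝ) / n else 0 := by
  intro H
  let b : ℕ → ℝ := fun n => (if n.Prime ∧ (n : ZMod q) = a then (1 : ℝ) / n else 0)
    + (if n.Prime then 0 else residueClass a n) / n
  have hb : Summable b := H.add (summable_residueClass_non_primes_div a)
  obtain ⟨C, hC⟩ := LSeries_residueClass_lower_bound ha
  let F : ℝ → ℕ → ℝ := fun x n => (x - 1) * (residueClass a n / (n : ℝ) ^ x)
  have hlim : Tendsto (fun x => ∑' n, F x n) (𝓝[>] 1) (𝓝 (∑' _ : ℕ, (0 : ℝ))) := by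
    refine tendsto_tsum_of_dominated_convergence hb ?_ ?_
    · intro n
      rcases n.eq_zero_or_pos with rfl | hn
      · simp [F]
      · have hc : ContinuousAt (fun x => F x n) 1 := by
          have hn' : (n : ℝ) ≠ 0 := by exact_mod_cast hn.ne'
          refine (continuousAt_id.sub continuousAt_const).mul (continuousAt_const.div ?_ ?_)
          · exact (Real.continuousAt_const_rpow hn')
          · simpa using hn.ne'
        have := hc.tendsto.mono_left (nhdsWithin_le_nhds (s := Set.Ioi 1))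
        simpa [F] using this
    · filter_upwards [Ioc_mem_nhdsGT (show (1 : ℝ) < 2 by norm_num)] with x hx n
      have hx0 : 0 < x - 1 := by linarith [hx.1]
      have hr := residueClass_nonneg a n
      rcases n.eq_zero_or_pos with rfl | hn
      · simp [F, b]
      have hn1 : (1 : ℝ) ≤ n := by exact_mod_cast hn
      have hpow : (n : ℝ) ^ x = n * (n : ℝ) ^ (x - 1) := by
        rw [Real.rpow_sub_one (by linarith)]
        field_simp
      have hp1 : (1 : ℝ) ≤ (n : ℝ) ^ (x - 1) := Real.one_le_rpow hn1 hx0.le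
      have hF0 : 0 ≤ F x n := by
        simp only [F]
        positivity
      rw [Real.norm_of_nonneg hF0]
      simp only [F, b]
      by_cases hp : n.Prime
      · by_cases hna : (n : ZMod q) = a
        · have e : residueClass a n = Real.log n := by
            simp [residueClass, Set.indicator, hna, vonMangoldt_apply_prime hp]
          simp only [hp, hna, and_self, if_true, zero_div, add_zero, e]
          have h2 : (x - 1) * Real.log n ≤ (n : ℝ) ^ (x - 1) := by
            rw [← Real.log_rpow (by linarith)]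
            linarith [Real.log_le_sub_one_of_pos (show 0 < (n : ℝ) ^ (x - 1) by linarith)]
          rw [hpow, ← mul_div_assoc, div_le_div_iff₀ (by positivity) (by positivity)]
          nlinarith
        · simp [hp, hna]
      · simp only [hp, false_and, if_false, zero_add]
        rw [hpow, ← mul_div_assoc, div_le_div_iff₀ (by positivity) (by positivity)]
        have h3 : (x - 1) ≤ (n : ℝ) ^ (x - 1) := by linarith [hx.2]
        have h4 : 0 ≤ residueClass a n * n := by positivity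
        nlinarith
  rw [tsum_zero] at hlim
  have hlim2 : Tendsto (fun x : ℝ => (q.totient : ℝ)⁻¹ - C * (x - 1)) (𝓝[>] 1)
      (𝓝 ((q.totient : ℝ)⁻¹ - C * (1 - 1))) := by
    refine Tendsto.mono_left ?_ nhdsWithin_le_nhds
    exact (continuous_const.sub (continuous_const.mul (continuous_id.sub continuous_const))).tendsto 1
  have hle : (q.totient : ℝ)⁻¹ - C * (1 - 1) ≤ 0 := by
    refine le_of_tendsto_of_tendsto hlim2 hlim ?_
    filter_upwards [Ioc_mem_nhdsGT (show (1 : ℝ) < 2 by norm_num)] with x hx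
    have hx0 : 0 < x - 1 := by linarith [hx.1]
    simp only [F]
    rw [tsum_mul_left]
    have := mul_le_mul_of_nonneg_left (hC hx) hx0.le
    have e : (x - 1) * ((q.totient : ℝ)⁻¹ / (x - 1) - C) = (q.totient : ℝ)⁻¹ - C * (x - 1) := by
      field_simp
    linarith
  have hq : 0 < (q.totient : ℝ)⁻¹ := inv_pos.mpr (mod_cast q.totient.pos_of_neZero)
  linarith

theorem exists_primes_recip_ge {q : ℕ} [NeZero q] {a : ZMod q} (ha : IsUnit a) (K : ℝ) :
    ∃ A : Finset ℕ, (∀ p ∈ A, p.Prime ∧ (p : ZMod q) = a) ∧ K ≤ ∑ p ∈ A, (1 : ℝ) / p := by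
  by_contra h
  push Not at h
  apply not_summable_recip_class ha
  refine summable_of_sum_le (c := K) (fun n => ?_) fun u => ?_
  · split_ifs <;> positivity
  · rw [← Finset.sum_filter]
    exact (h _ fun p hp => (mem_filter.mp hp).2).le

end Pool.Agent.H61.Sieve
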