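import Mathlib
import Pool.Agent.Lead.Sel.Spec
import Pool.Agent.H61.SelA

/-
Package A3, second half: a smoothed Perron formula and the shift of the contour.
-/

set_option autoImplicit false
open Complex MeasureTheory Set ArithmeticFunction Filter Topology

namespace Pool.Agent.H61.SelB
open Pool.Agent.Lead.Sel

theorem cauchy_eq {k : ℝ} (hk : 0 < k) (τ : ℝ) :
    (k ^ 2 + τ ^ 2)⁻¹ = (k ^ 2)⁻¹ * (1 + (k⁻¹ * τ) ^ 2)⁻¹ := by
  field_simp

theorem cauchy_integrable {k : ℝ} (hk : 0 < k) : Integrable (fun τ : ℝ => (k ^ 2 + τ ^ 2)⁻¹) := by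
  simp_rw [cauchy_eq hk]
  exact (integrable_inv_one_add_sq.comp_mul_left' (inv_ne_zero hk.ne')).const_mul _

theorem cauchy_integral {k : ℝ} (hk : 0 < k) : ∫ τ : ℝ, (k ^ 2 + τ ^ 2)⁻¹ = Real.pi / k := by
  simp_rw [cauchy_eq hk]
  rw [integral_const_mul, Measure.integral_comp_inv_mul_left (fun x : ℝ => (1 + x ^ 2)⁻¹) k,
    integral_univ_inv_one_add_sq, abs_of_pos hk, smul_eq_mul]
  field_simp

theorem norm_sq_line (k τ : ℝ) : ‖((k : ℂ) + τ * I) ^ 2‖ = k ^ 2 + τ ^ 2 := by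
  rw [norm_pow, Complex.sq_norm, Complex.normSq_add_mul_I]

theorem line_ne {k : ℝ} (hk : 0 < k) (τ : ℝ) : (k : ℂ) + τ * I ≠ 0 := by
  intro h
  have := congrArg Complex.re h
  simp at this
  exact hk.ne' this

theorem ramp_on {k : ℝ} (hk : 0 < k) :
    IntegrableOn (fun y : ℝ => y * Real.exp (-(k * y))) (Ioi 0) := by
  have := integrableOn_rpow_mul_exp_neg_mul_rpow (p := 1) (s := 1) (b := k) (by norm_num) one_pos hk
  simpa using this

theorem ramp_integrable {k : ℝ} (hk : 0 < k) :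
    Integrable (fun y : ℝ => max y 0 * Real.exp (-(k * y))) := by
  refine (integrableOn_iff_integrable_of_support_subset (s := Ioi (0 : ℝ)) ?_).1
    ((ramp_on hk).congr_fun (fun y hy => by simp only [max_eq_left (le_of_lt (mem_Ioi.1 hy))]) measurableSet_Ioi)
  intro y hy
  by_contra h
  rw [mem_Ioi, not_lt] at h
  exact hy (by simp [max_eq_right h])

theorem ramp_fourier {k : ℝ} (hk : 0 < k) (τ : ℝ) :
    ∫ y : ℝ, Complex.exp (-(τ * y * I)) * ((max y 0 * Real.exp (-(k * y)) : ℝ) : ℂ) =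
      1 / ((k : ℂ) + τ * I) ^ 2 := by
  set w : ℂ := (k : ℂ) + τ * I with hw
  have hw0 : w ≠ 0 := line_ne hk τ
  have hre : w.re = k := by simp [hw]
  have h1 : ∫ y : ℝ, Complex.exp (-(τ * y * I)) * ((max y 0 * Real.exp (-(k * y)) : ℝ) : ℂ) =
      ∫ y in Ioi (0 : ℝ), (y : ℂ) * Complex.exp (-(w * y)) := by
    rw [← setIntegral_eq_integral_of_forall_compl_eq_zero (s := Ioi (0 : ℝ))]
    · refine setIntegral_congr_fun measurableSet_Ioi fun y hy => ?_
      simp only [max_eq_left (le_of_lt (mem_Ioi.1 hy))]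
      push_cast
      rw [mul_left_comm, ← Complex.exp_add]
      congr 2
      rw [hw]; ring
    · intro y hy
      rw [mem_Ioi, not_lt] at hy
      simp [max_eq_right hy]
  have hn : ∀ y : ℝ, ‖Complex.exp (-(w * y))‖ = Real.exp (-(k * y)) := by
    intro y
    rw [Complex.norm_exp]
    simp [hre]
  have hd : ∀ y : ℝ, HasDerivAt (fun y : ℝ => -(((y : ℂ) / w + 1 / w ^ 2) * Complex.exp (-(w * y))))
      ((y : ℂ) * Complex.exp (-(w * y))) y := by
    intro y
    have h2 : HasDerivAt (fun z : ℂ => -((z / w + 1 / w ^ 2) * Complex.exp (-(w * z))))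
        ((y : ℂ) * Complex.exp (-(w * y))) (y : ℂ) := by
      have a1 : HasDerivAt (fun z : ℂ => -(w * z)) (-w) (y : ℂ) := by
        simpa using ((hasDerivAt_id (y : ℂ)).const_mul w).fun_neg
      have a2 : HasDerivAt (fun z : ℂ => z / w + 1 / w ^ 2) (1 / w) (y : ℂ) :=
        ((hasDerivAt_id (y : ℂ)).div_const w).add_const _
      refine ((a2.mul a1.cexp).neg).congr_deriv ?_
      field_simp
      ring
    exact h2.comp_ofReal
  have hi : IntegrableOn (fun y : ℝ => (y : ℂ) * Complex.exp (-(w * y))) (Ioi 0) := by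
    refine Integrable.mono' (ramp_on hk) (Continuous.aestronglyMeasurable (by fun_prop)) ?_
    refine (ae_restrict_iff' measurableSet_Ioi).2 (Eventually.of_forall fun y hy => ?_)
    rw [norm_mul, hn, Complex.norm_real, Real.norm_eq_abs, abs_of_pos hy]
  have ht : Tendsto (fun y : ℝ => -(((y : ℂ) / w + 1 / w ^ 2) * Complex.exp (-(w * y)))) atTop (𝓝 0) := by
    have b0 : Tendsto (fun y : ℝ => k * y) atTop atTop := tendsto_id.const_mul_atTop hk
    have b1 := (Real.tendsto_pow_mul_exp_neg_atTop_nhds_zero 1).comp b0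
    have b2 := Real.tendsto_exp_neg_atTop_nhds_zero.comp b0
    have b3 := (b1.const_mul (1 / (k * ‖w‖))).add (b2.const_mul (1 / ‖w‖ ^ 2))
    simp only [mul_zero, add_zero] at b3
    refine squeeze_zero_norm' ?_ b3
    filter_upwards [eventually_ge_atTop (0 : ℝ)] with y hy
    have hwn : 0 < ‖w‖ := norm_pos_iff.2 hw0
    rw [norm_neg, norm_mul, hn]
    have b4 : ‖(y : ℂ) / w + 1 / w ^ 2‖ ≤ y / ‖w‖ + 1 / ‖w‖ ^ 2 := by
      refine (norm_add_le _ _).trans ?_
      rw [norm_div, norm_div, norm_pow, norm_one, Complex.norm_real, Real.norm_eq_abs, abs_of_nonneg hy]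
    refine (mul_le_mul_of_nonneg_right b4 (Real.exp_pos _).le).trans (le_of_eq ?_)
    simp only [Function.comp]
    field_simp
  rw [h1, integral_Ioi_of_hasDerivAt_of_tendsto' (fun y _ => hd y) hi ht]
  simp

theorem kernel_integrable {k : ℝ} (hk : 0 < k) :
    Integrable (fun τ : ℝ => 1 / ((k : ℂ) + τ * I) ^ 2) := by
  refine (cauchy_integrable hk).mono' (Continuous.aestronglyMeasurable ?_)
    (Eventually.of_forall fun τ => ?_)
  · exact continuous_const.div (by fun_prop) fun τ => pow_ne_zero 2 (line_ne hk τ)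
  · rw [norm_div, norm_one, norm_sq_line, one_div]

/-- the ramp function as a contour integral -/
theorem ramp {k : ℝ} (hk : 0 < k) (y : ℝ) :
    ∫ τ : ℝ, Complex.exp (((k : ℂ) + τ * I) * y) / ((k : ℂ) + τ * I) ^ 2 =
      2 * Real.pi * ((max y 0 : ℝ) : ℂ) := by
  have h := SelA.inversion (f := fun y : ℝ => ((max y 0 * Real.exp (-(k * y)) : ℝ) : ℂ))
    (g := fun τ : ℝ => 1 / ((k : ℂ) + τ * I) ^ 2) (by fun_prop) (ramp_integrable hk).ofReal
    (kernel_integrable hk) (ramp_fourier hk) y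
  have h2 : ∀ τ : ℝ, Complex.exp (((k : ℂ) + τ * I) * y) / ((k : ℂ) + τ * I) ^ 2 =
      Complex.exp (k * y) * (Complex.exp (τ * y * I) * (1 / ((k : ℂ) + τ * I) ^ 2)) := by
    intro τ
    rw [← mul_assoc, ← Complex.exp_add, mul_one_div]
    congr 2
    ring
  simp_rw [h2]
  rw [integral_const_mul, h]
  push_cast
  rw [Complex.exp_neg]
  have := Complex.exp_ne_zero ((k : ℂ) * y)
  field_simp

/-- the integrand of the smoothed Perron formula -/
noncomputable def kern (F : ℂ → ℂ) (s : ℂ) (y0 : ℝ) (w : ℂ) : ℂ :=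
  F (s - w) * Complex.exp (-(w * y0)) / w ^ 2

theorem norm_kern (F : ℂ → ℂ) (s : ℂ) (y0 x y : ℝ) :
    ‖kern F s y0 (x + y * I)‖ =
      ‖F (s - (x + y * I))‖ * Real.exp (-(x * y0)) * (x ^ 2 + y ^ 2)⁻¹ := by
  unfold kern
  rw [norm_div, norm_mul, norm_sq_line, Complex.norm_exp, div_eq_mul_inv]
  simp

theorem norm_term_line (a : ℕ → ℂ) (s : ℂ) (k τ : ℝ) (n : ℕ) :
    ‖LSeries.term a (s - (k + τ * I)) n‖ = ‖LSeries.term a (s - k) n‖ := by
  rw [LSeries.norm_term_eq, LSeries.norm_term_eq]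
  simp

theorem term_cont (a : ℕ → ℂ) (s : ℂ) (k : ℝ) (n : ℕ) :
    Continuous (fun τ : ℝ => LSeries.term a (s - (k + τ * I)) n) := by
  rcases eq_or_ne n 0 with rfl | hn
  · simpa using continuous_const
  · simp only [LSeries.term_of_ne_zero hn]
    have hn' : (n : ℂ) ≠ 0 := by exact_mod_cast hn
    refine continuous_const.div (Continuous.const_cpow (by fun_prop) (Or.inl hn')) fun τ => ?_
    exact Complex.cpow_ne_zero_iff.2 (Or.inl hn')

theorem kern_cont (G : ℝ → ℂ) (hG : Continuous G) {k : ℝ} (hk : 0 < k) (y0 : ℝ) :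
    Continuous (fun τ : ℝ => G τ * Complex.exp (-(((k : ℂ) + τ * I) * y0)) / ((k : ℂ) + τ * I) ^ 2) :=
  (hG.mul (by fun_prop)).div (by fun_prop) fun τ => pow_ne_zero 2 (line_ne hk τ)

theorem perron (a : ℕ → ℝ) (s : ℂ) {k : ℝ} (hk : 0 < k) (y0 : ℝ)
    (hs : Summable fun n => ‖LSeries.term (fun n => (a n : ℂ)) (s - k) n‖) :
    Integrable (fun τ : ℝ => kern (LSeries fun n => (a n : ℂ)) s y0 (k + τ * I)) ∧
    2 * Real.pi * LSeries (fun n => ((a n * max (Real.log n - y0) 0 : ℝ) : ℂ)) s =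
      ∫ τ : ℝ, kern (LSeries fun n => (a n : ℂ)) s y0 (k + τ * I) := by
  set b : ℕ → ℂ := fun n => (a n : ℂ) with hb
  constructor
  · have hc : Continuous (fun τ : ℝ => LSeries b (s - (k + τ * I))) :=
      continuous_tsum (term_cont b s k) hs fun n τ => (norm_term_line b s k τ n).le
    refine ((cauchy_integrable hk).const_mul
      ((∑' n, ‖LSeries.term b (s - k) n‖) * Real.exp (-(k * y0)))).mono'
      (kern_cont _ hc hk y0).aestronglyMeasurable (Eventually.of_forall fun τ => ?_)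
    rw [norm_kern]
    have : ‖LSeries b (s - (k + τ * I))‖ ≤ ∑' n, ‖LSeries.term b (s - k) n‖ :=
      tsum_of_norm_bounded hs.hasSum fun n => (norm_term_line b s k τ n).le
    gcongr
  · let G : ℕ → ℝ → ℂ := fun n τ => kern (fun u => LSeries.term b u n) s y0 (k + τ * I)
    have hn : ∀ n τ, ‖G n τ‖ =
        ‖LSeries.term b (s - k) n‖ * Real.exp (-(k * y0)) * (k ^ 2 + τ ^ 2)⁻¹ := by
      intro n τ
      simp only [G]
      rw [norm_kern, norm_term_line]
    have hi : ∀ n, Integrable (G n) := fun n =>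
      ((cauchy_integrable hk).const_mul _).mono'
        (kern_cont _ (term_cont b s k n) hk y0).aestronglyMeasurable
        (Eventually.of_forall fun τ => (hn n τ).le)
    have hsum : Summable fun n => ∫ τ, ‖G n τ‖ := by
      simp_rw [hn, integral_const_mul]
      exact (hs.mul_right _).mul_right _
    have h1 := (hasSum_integral_of_summable_integral_norm hi hsum).tsum_eq
    have h2 : ∀ τ : ℝ, ∑' n, G n τ = kern (LSeries b) s y0 (k + τ * I) := by
      intro τ
      simp only [G, kern]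
      rw [tsum_div_const, tsum_mul_right]
      rfl
    have h3 : ∀ n, ∫ τ, G n τ = 2 * Real.pi *
        LSeries.term (fun n => ((a n * max (Real.log n - y0) 0 : ℝ) : ℂ)) s n := by
      intro n
      rcases eq_or_ne n 0 with rfl | hn0
      · simp [G, kern]
      · have hn' : (n : ℂ) ≠ 0 := by exact_mod_cast hn0
        have h4 : ∀ τ : ℝ, G n τ = (a n : ℂ) / (n : ℂ) ^ s *
            (Complex.exp (((k : ℂ) + τ * I) * ((Real.log n - y0 : ℝ) : ℂ)) / ((k : ℂ) + τ * I) ^ 2) := by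
          intro τ
          simp only [G, kern, LSeries.term_of_ne_zero hn0, hb]
          rw [Complex.cpow_sub _ _ hn', Complex.cpow_def_of_ne_zero hn' ((k : ℂ) + τ * I),
            Complex.ofReal_sub, mul_sub, sub_eq_add_neg, Complex.exp_add, Complex.natCast_log,
            mul_comm (Complex.log n)]
          have e1 := Complex.exp_ne_zero (((k : ℂ) + τ * I) * Complex.log n)
          have e2 : (n : ℂ) ^ s ≠ 0 := Complex.cpow_ne_zero_iff.2 (Or.inl hn')
          field_simp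
        simp_rw [h4]
        rw [integral_const_mul, ramp hk, LSeries.term_of_ne_zero hn0, Complex.ofReal_mul]
        ring
    simp_rw [h2, h3] at h1
    rw [← h1, tsum_mul_left]
    rfl

theorem tail (H : ℝ → ℂ) {M B : ℝ} (hB : 0 < B) (h : ∀ τ, B < τ → ‖H τ‖ ≤ M * (τ ^ 2)⁻¹) :
    ‖∫ τ in Ioi B, H τ‖ ≤ M / B := by
  have hi := (integrableOn_Ioi_rpow_of_lt (a := -2) (by norm_num) hB).const_mul M
  refine (norm_integral_le_of_norm_le hi ?_).trans (le_of_eq ?_)
  · refine (ae_restrict_iff' measurableSet_Ioi).2 (Eventually.of_forall fun τ hτ => ?_)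
    refine (h τ hτ).trans (le_of_eq ?_)
    rw [Real.rpow_neg (hB.trans hτ).le, Real.rpow_two]
  · rw [integral_const_mul, integral_Ioi_rpow_of_lt (by norm_num) hB]
    norm_num [Real.rpow_neg_one]
    rw [div_eq_mul_inv]

theorem split (H : ℝ → ℂ) (hH : Integrable H) {M B : ℝ} (hB : 0 < B)
    (h : ∀ τ, τ ≠ 0 → ‖H τ‖ ≤ M * (τ ^ 2)⁻¹) :
    ‖∫ τ, H τ‖ ≤ ‖∫ τ in (-B)..B, H τ‖ + 2 * (M / B) := by
  have h1 := intervalIntegral.integral_Iic_add_Ioi (b := B) hH.integrableOn hH.integrableOn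
  have h2 := intervalIntegral.integral_Iic_sub_Iic (a := -B) (b := B) hH.integrableOn hH.integrableOn
  have h3 := tail H hB fun τ hτ => h τ (hB.trans hτ).ne'
  have h4 := tail (fun τ => H (-τ)) (M := M) hB fun τ hτ => by
    have := h (-τ) (neg_ne_zero.2 (hB.trans hτ).ne')
    rwa [neg_sq] at this
  rw [integral_comp_neg_Ioi] at h4
  have h5 : ∫ τ, H τ = (∫ τ in (-B)..B, H τ) + (∫ τ in Iic (-B), H τ) + ∫ τ in Ioi B, H τ := by
    rw [← h1, ← h2]; ring
  rw [h5]
  have := norm_add₃_le (a := ∫ τ in (-B)..B, H τ) (b := ∫ τ in Iic (-B), H τ)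
    (c := ∫ τ in Ioi B, H τ)
  linarith

theorem shift (g : ℂ → ℂ) {k r B A y0 : ℝ} (hk : 0 < k) (hr : k ≤ r) (hB : 0 < B) (hA : 0 ≤ A)
    (hy : 0 ≤ y0)
    (hd : ∀ x y : ℝ, k ≤ x → x ≤ r → |y| ≤ B → DifferentiableAt ℂ g (x + y * I))
    (hb : ∀ x y : ℝ, k ≤ x → x ≤ r → |y| ≤ B →
      ‖g (x + y * I)‖ ≤ A * Real.exp (-(x * y0)) * (x ^ 2 + y ^ 2)⁻¹) :
    ‖∫ y in (-B)..B, g (k + y * I)‖ ≤
      A * Real.exp (-(r * y0)) * (Real.pi / r) + 2 * (A * (B ^ 2)⁻¹ * r) := by
  have hr0 : 0 < r := hk.trans_le hr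
  have hD : DifferentiableOn ℂ g
      (uIcc (⟨k, -B⟩ : ℂ).re (⟨r, B⟩ : ℂ).re ×ℂ uIcc (⟨k, -B⟩ : ℂ).im (⟨r, B⟩ : ℂ).im) := by
    intro w hw
    rw [Complex.mem_reProdIm] at hw
    simp only at hw
    rw [uIcc_of_le hr, uIcc_of_le (by linarith)] at hw
    have := hd w.re w.im hw.1.1 hw.1.2 (abs_le.2 hw.2)
    rw [Complex.re_add_im] at this
    exact this.differentiableWithinAt
  have h0 := Complex.integral_boundary_rect_eq_zero_of_differentiableOn g ⟨k, -B⟩ ⟨r, B⟩ hD
  simp only at h0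
  have side : ∀ y : ℝ, |y| = B → ‖∫ x in k..r, g (x + y * I)‖ ≤ A * (B ^ 2)⁻¹ * r := by
    intro y hyB
    refine (intervalIntegral.norm_integral_le_of_norm_le_const (C := A * (B ^ 2)⁻¹) ?_).trans ?_
    · intro x hx
      rw [uIoc_of_le hr] at hx
      refine (hb x y hx.1.le hx.2 hyB.le).trans ?_
      have e1 : Real.exp (-(x * y0)) ≤ 1 :=
        Real.exp_le_one_iff.2 (neg_nonpos.2 (mul_nonneg (hk.trans hx.1).le hy))
      have e2 : (x ^ 2 + y ^ 2)⁻¹ ≤ (B ^ 2)⁻¹ :=
        inv_anti₀ (by positivity) (by rw [← hyB, sq_abs]; nlinarith [sq_nonneg x])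
      calc _ ≤ A * 1 * (B ^ 2)⁻¹ := by gcongr
        _ = _ := by ring
    · rw [abs_of_nonneg (by linarith)]
      exact mul_le_mul_of_nonneg_left (by linarith) (by positivity)
  have right : ‖∫ y in (-B)..B, g (r + y * I)‖ ≤ A * Real.exp (-(r * y0)) * (Real.pi / r) := by
    have hi := (cauchy_integrable hr0).const_mul (A * Real.exp (-(r * y0)))
    rw [intervalIntegral.integral_of_le (by linarith), ← cauchy_integral hr0, ← integral_const_mul]
    refine (norm_integral_le_of_norm_le hi.integrableOn ?_).trans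
      (setIntegral_le_integral hi (Eventually.of_forall fun y => by positivity))
    refine (ae_restrict_iff' measurableSet_Ioc).2 (Eventually.of_forall fun y hy => ?_)
    exact hb r y hr le_rfl (abs_le.2 ⟨hy.1.le, hy.2⟩)
  have s1 := side (-B) (by rw [abs_neg, abs_of_pos hB])
  have s2 := side B (abs_of_pos hB)
  have h1 : I • ∫ y in (-B)..B, g (k + y * I) =
      (∫ x in k..r, g (x + ((-B : ℝ) : ℂ) * I)) - (∫ x in k..r, g (x + B * I)) +
        I • ∫ y in (-B)..B, g (r + y * I) := (sub_eq_zero.1 h0).symm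
  have h2 := congrArg norm h1
  rw [norm_smul, Complex.norm_I, one_mul] at h2
  rw [h2]
  refine (norm_add_le _ _).trans ?_
  rw [norm_smul, Complex.norm_I, one_mul]
  have := norm_sub_le (∫ x in k..r, g (x + ((-B : ℝ) : ℂ) * I)) (∫ x in k..r, g (x + B * I))
  linarith

end Pool.Agent.H61.SelB
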