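import Mathlib
import Pool.Agent.Lead.Sel.Spec
import Pool.Agent.H61.SelB

/-
Package A3: the pointwise bound for long prime polynomials.
-/

set_option autoImplicit false
open Complex MeasureTheory Set ArithmeticFunction Filter Topology

namespace Pool.Agent.H61.SelC
open Pool.Agent.Lead.Sel Pool.Agent.H61.SelB

theorem rough_mem (z m : ℕ) : 0 ≤ rough z m ∧ rough z m ≤ 1 := by
  unfold rough
  split_ifs <;> norm_num

theorem term_le (z : ℕ) (u : ℂ) (n : ℕ) :
    ‖LSeries.term (fun n => ((rough z n * Λ n : ℝ) : ℂ)) u n‖ ≤ Λ n * (n : ℝ) ^ (-u.re) := by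
  rw [LSeries.norm_term_eq]
  split_ifs with h
  · simp [h]
  · have hΛ : 0 ≤ Λ n := vonMangoldt_nonneg
    obtain ⟨h0, h1⟩ := rough_mem z n
    rw [Complex.norm_real, Real.norm_eq_abs, abs_of_nonneg (mul_nonneg h0 hΛ),
      Real.rpow_neg (Nat.cast_nonneg n), div_eq_mul_inv]
    refine mul_le_mul_of_nonneg_right (by nlinarith) (by positivity)

theorem pw (hLD : LD) (hVM : VM) : PW := by
  obtain ⟨c, hc, hc2, CL, hCL, z0, hF⟩ := hLD
  obtain ⟨CV, hCV, hV⟩ := hVM
  have hpi := Real.pi_pos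
  refine ⟨c, hc, hc2, 8 * CV + CL * Real.pi / c + CL, by positivity, max z0 2, ?_⟩
  intro z hz v y0 K1 t hv hy hK ht1 ht2
  obtain ⟨F, hF⟩ := hF z (le_trans (le_max_left _ _) hz)
  have hz2 : (2 : ℝ) ≤ z := by exact_mod_cast le_trans (le_max_right _ _) hz
  set l := Real.log z with hl
  have hl2 : 1 / 2 ≤ l := by
    have := Real.log_two_gt_d9
    have := Real.log_le_log two_pos hz2
    linarith
  have hl0 : 0 < l := by linarith
  have hcv : 2 * l ≤ c * v := by
    have := mul_le_mul_of_nonneg_left hv hc.le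
    rwa [← mul_assoc, mul_div_cancel₀ _ hc.ne'] at this
  have hv0 : 0 < v := by
    by_contra h
    push Not at h
    nlinarith
  have hv1 : 2 ≤ v := by nlinarith
  set s : ℂ := ((1 + 1 / v : ℝ) : ℂ) + t * I with hs
  set k : ℝ := 1 / (2 * v) with hk
  set r : ℝ := c / l with hr
  set B : ℝ := K1 / (2 * l) with hB
  have hk0 : 0 < k := by positivity
  have hK0 : 0 < K1 := by linarith
  have hB0 : 0 < B := by positivity
  have hr0 : 0 < r := by positivity
  have hvr : 1 / v ≤ r := by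
    rw [hr, div_le_div_iff₀ hv0 hl0]; linarith
  have hkv : 1 / v = 2 * k := by rw [hk]; field_simp
  have hkr : k ≤ r := by linarith
  have hk1 : k ≤ 1 := by rw [hk, div_le_one (by positivity)]; linarith
  have hre : ∀ x y : ℝ, (s - (x + y * I)).re = 1 + 1 / v - x := by intro x y; simp [hs]
  have him : ∀ x y : ℝ, (s - (x + y * I)).im = t - y := by intro x y; simp [hs]
  set b : ℕ → ℂ := fun n => ((rough z n * Λ n : ℝ) : ℂ) with hb
  obtain ⟨hS, hM⟩ := hV (1 + k) (by linarith) (by linarith)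
  have hM' : ∑' n : ℕ, Λ n * (n : ℝ) ^ (-(1 + k)) ≤ 2 * CV * v := by
    refine hM.trans (le_of_eq ?_)
    rw [add_sub_cancel_left, hk]; field_simp
  have hline : ∀ (τ : ℝ) (n : ℕ),
      ‖LSeries.term b (s - (k + τ * I)) n‖ ≤ Λ n * (n : ℝ) ^ (-(1 + k)) := by
    intro τ n
    have := term_le z (s - (k + τ * I)) n
    rwa [hre, show 1 + 1 / v - k = 1 + k by linarith] at this
  have hsum : Summable fun n => ‖LSeries.term b (s - k) n‖ :=
    Summable.of_nonneg_of_le (fun _ => norm_nonneg _)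
      (fun n => by rw [← norm_term_line b s k 0]; exact hline 0 n) hS
  obtain ⟨hint, hper⟩ := perron (fun n => rough z n * Λ n) s hk0 y0 hsum
  have hreg : ∀ x y : ℝ, k ≤ x → x ≤ r → |y| ≤ B →
      |(s - (x + y * I)).re - 1| ≤ c / l ∧ 2 / l ≤ |(s - (x + y * I)).im| ∧
        |(s - (x + y * I)).im| ≤ (z : ℝ) ^ (1 / 10 : ℝ) / 4 := by
    intro x y h1 h2 h3
    rw [hre, him]
    have e1 : K1 / l = 2 * B := by rw [hB]; field_simp
    have e2 : 2 / l ≤ B := by
      rw [hB, div_le_div_iff₀ hl0 (by positivity)]; nlinarith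
    have e3 := abs_sub_abs_le_abs_sub t y
    have e4 := abs_sub t y
    refine ⟨abs_le.2 ⟨by linarith, by linarith⟩, by linarith, by linarith⟩
  have hsh := shift (kern F s y0) (A := CL * l) hk0 hkr hB0 (by positivity) hy
    (fun x y h1 h2 h3 => by
      obtain ⟨a1, a2, a3⟩ := hreg x y h1 h2 h3
      have d1 : DifferentiableAt ℂ (fun w : ℂ => F (s - w)) (x + y * I) :=
        DifferentiableAt.comp (g := F) (f := fun w : ℂ => s - w) _ (hF _ a1 a2 a3).1 (by fun_prop)
      unfold kern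
      exact (d1.mul (by fun_prop)).div (by fun_prop) (pow_ne_zero 2 (line_ne (hk0.trans_le h1) y)))
    (fun x y h1 h2 h3 => by
      obtain ⟨a1, a2, a3⟩ := hreg x y h1 h2 h3
      rw [norm_kern]
      have := (hF _ a1 a2 a3).2.1
      gcongr)
  have hmid : ∫ y in (-B)..B, kern (LSeries b) s y0 (k + y * I) =
      ∫ y in (-B)..B, kern F s y0 (k + y * I) := by
    refine intervalIntegral.integral_congr fun y hy' => ?_
    rw [uIcc_of_le (by linarith)] at hy'
    obtain ⟨a1, a2, a3⟩ := hreg k y le_rfl hkr (abs_le.2 hy')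
    simp only [kern]
    rw [(hF _ a1 a2 a3).2.2 (by rw [hre]; linarith)]
  have hsp := split _ hint (M := 2 * CV * v) hB0 fun τ hτ => by
    rw [norm_kern]
    have e0 : ‖LSeries b (s - (k + τ * I))‖ ≤ 2 * CV * v :=
      (tsum_of_norm_bounded hS.hasSum (hline τ)).trans hM'
    have e1 : Real.exp (-(k * y0)) ≤ 1 :=
      Real.exp_le_one_iff.2 (neg_nonpos.2 (mul_nonneg hk0.le hy))
    have e2 : (k ^ 2 + τ ^ 2)⁻¹ ≤ (τ ^ 2)⁻¹ :=
      inv_anti₀ (by positivity) (by nlinarith [sq_nonneg k])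
    calc _ ≤ 2 * CV * v * 1 * (τ ^ 2)⁻¹ := by gcongr
      _ = _ := by ring
  rw [← hper, hmid, norm_mul] at hsp
  have hn2 : ‖(2 * Real.pi : ℂ)‖ = 2 * Real.pi := by
    rw [norm_mul, Complex.norm_real, Real.norm_eq_abs, abs_of_pos hpi]; simp
  rw [hn2] at hsp
  set L := ‖LSeries (fun n => ((rough z n * Λ n * max (Real.log n - y0) 0 : ℝ) : ℂ)) s‖ with hL
  have hL0 : 0 ≤ L := norm_nonneg _
  have hL1 : L ≤ 2 * Real.pi * L := by nlinarith [Real.pi_gt_three]
  set X := l ^ 2 * Real.exp (-c * y0 / l) with hX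
  set Y := l * v / K1 with hY
  have hX0 : 0 ≤ X := by positivity
  have hY0 : 0 ≤ Y := by positivity
  have f1 : CL * l * Real.exp (-(r * y0)) * (Real.pi / r) = CL * Real.pi / c * X := by
    rw [hX, hr, show -(c / l * y0) = -c * y0 / l by ring]
    field_simp
  have f2 : 2 * (2 * CV * v / B) = 8 * CV * Y := by
    rw [hB, hY]; field_simp; ring
  have f3 : 2 * (CL * l * (B ^ 2)⁻¹ * r) ≤ CL * Y := by
    have g1 : 2 * (CL * l * (B ^ 2)⁻¹ * r) = CL * (l * (8 * c * l / K1) / K1) := by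
      rw [hB, hr]; field_simp; ring
    have g2 : 8 * c * l / K1 ≤ v := by
      rw [div_le_iff₀ hK0]
      nlinarith [mul_le_mul_of_nonneg_left hcv hc.le, mul_le_mul_of_nonneg_left hK hv0.le,
        mul_le_mul hc2 hc2 hc.le (by norm_num : (0 : ℝ) ≤ 1 / 2)]
    rw [g1, hY]
    gcongr
  have f4 : 0 ≤ CL * Real.pi / c := by positivity
  rw [f1] at hsh
  rw [f2] at hsp
  nlinarith [mul_nonneg f4 hY0, mul_nonneg hCV.le hX0, mul_nonneg hCL.le hX0]

end Pool.Agent.H61.SelC
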