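import Mathlib
import Pool.Agent.H93.RecDefs
import Pool.Agent.H98.Emp

set_option autoImplicit false

namespace Pool.Agent.H61.Ban

open Filter Topology Set MeasureTheory Pool.Agent.H93.RecDefs
open scoped Classical

lemma card_eq (A : Set ℕ) (m N : ℕ) :
    card A m N = (((Finset.range (N + 1)).filter fun j => m + j ∈ A).card : ℝ) := by
  unfold card
  congr 1
  have : A ∩ Icc m (m + N) =
      (fun j => m + j) '' ((Finset.range (N + 1)).filter fun j => m + j ∈ A : Finset ℕ) := by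
    ext n
    simp only [mem_inter_iff, mem_Icc, mem_image, Finset.coe_filter, Finset.mem_range,
      mem_ofPred_eq]
    constructor
    · rintro ⟨h1, h2, h3⟩
      exact ⟨n - m, ⟨by omega, by rwa [show m + (n - m) = n by omega]⟩, by omega⟩
    · rintro ⟨j, ⟨h1, h2⟩, rfl⟩
      exact ⟨h2, by omega, by omega⟩
  rw [this, ncard_image_of_injective _ (add_right_injective m), ncard_coe_finset]

lemma card_sum (A : Set ℕ) (m N : ℕ) :
    card A m N = ∑ j ∈ Finset.range (N + 1), if m + j ∈ A then (1 : ℝ) else 0 := by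
  rw [card_eq, Finset.card_filter]
  push_cast
  rfl

lemma ban_shift {A B : Set ℕ} (a : ℕ) (h : ∀ n ∈ B, a + n ∈ A) (hB : BanPos B) : BanPos A := by
  obtain ⟨δ, hδ, h1⟩ := hB
  refine ⟨δ, hδ, fun N => ?_⟩
  obtain ⟨m, hm⟩ := h1 N
  refine ⟨a + m, hm.trans ?_⟩
  rw [card_eq, card_eq]
  refine Nat.cast_le.2 (Finset.card_le_card fun j hj => ?_)
  simp only [Finset.mem_filter] at hj ⊢
  exact ⟨hj.1, by rw [add_assoc]; exact h _ hj.2⟩

lemma ban_mono {A B : Set ℕ} (h : A ⊆ B) (hA : BanPos A) : BanPos B :=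
  ban_shift 0 (fun n hn => by rw [zero_add]; exact h hn) hA

lemma ban_inf {A : Set ℕ} (hA : BanPos A) (k : ℕ) : ∃ n ∈ A, k ≤ n := by
  obtain ⟨δ, hδ, h1⟩ := hA
  obtain ⟨N, hN⟩ := exists_nat_gt (k / δ)
  obtain ⟨m, hm⟩ := h1 N
  by_contra hn
  push Not at hn
  have h2 : card A m N ≤ k := by
    have := ncard_le_ncard (s := A ∩ Icc m (m + N)) (t := Iio k) (fun n h => hn n h.1)
      (finite_Iio k)
    rw [ncard_Iio_nat] at this
    exact Nat.cast_le.2 this
  rw [div_lt_iff₀ hδ] at hN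
  nlinarith

lemma ban_univ : BanPos univ :=
  ⟨1, one_pos, fun N => ⟨0, by rw [card_sum]; simp⟩⟩

lemma block (f : ℕ → ℝ) (L : ℕ) (c : ℝ) (h : ∀ m, ∑ j ∈ Finset.range L, f (m + j) ≤ c) (k m : ℕ) :
    ∑ j ∈ Finset.range (L * k), f (m + j) ≤ k * c := by
  induction k with
  | zero => simp
  | succ k ih =>
    rw [Nat.mul_succ, Finset.sum_range_add]
    have := h (m + L * k)
    simp only [add_assoc] at this
    push_cast
    linarith

lemma card_union (A B : Set ℕ) (m N : ℕ) : card (A ∪ B) m N ≤ card A m N + card B m N := by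
  rw [card_sum, card_sum, card_sum, ← Finset.sum_add_distrib]
  refine Finset.sum_le_sum fun j _ => ?_
  by_cases a : m + j ∈ A <;> by_cases b : m + j ∈ B <;> simp [a, b]

lemma ban_union {A B : Set ℕ} (h : BanPos (A ∪ B)) : BanPos A ∨ BanPos B := by
  by_contra hn
  rw [not_or] at hn
  obtain ⟨δ, hδ, h1⟩ := h
  obtain ⟨hA, hB⟩ := hn
  simp only [BanPos, not_exists, not_and, not_forall, not_le] at hA hB
  obtain ⟨N1, hA⟩ := hA (δ / 3) (by positivity)
  obtain ⟨N2, hB⟩ := hB (δ / 3) (by positivity)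
  obtain ⟨m, hm⟩ := h1 (N1 * N2 + N1 + N2)
  have e1 := block (fun n => if n ∈ A then (1 : ℝ) else 0) (N1 + 1) _
    (fun m => by rw [← card_sum]; exact (hA m).le) (N2 + 1) m
  have e2 := block (fun n => if n ∈ B then (1 : ℝ) else 0) (N2 + 1) _
    (fun m => by rw [← card_sum]; exact (hB m).le) (N1 + 1) m
  rw [show (N1 + 1) * (N2 + 1) = N1 * N2 + N1 + N2 + 1 by ring, ← card_sum] at e1
  rw [show (N2 + 1) * (N1 + 1) = N1 * N2 + N1 + N2 + 1 by ring, ← card_sum] at e2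
  have e3 := card_union A B m (N1 * N2 + N1 + N2)
  push_cast at e1 e2 hm
  have : (0 : ℝ) < δ * ((N1 + 1) * (N2 + 1)) := by positivity
  nlinarith

/-- correspondence principle -/
theorem corr {K : Type*} [MetricSpace K] [CompactSpace K] [MeasurableSpace K] [BorelSpace K]
    {σ : K → K} (hσ : Continuous σ) (ω : K) {C : Set K} (hC : IsClosed C)
    (h : BanPos {n | σ^[n] ω ∈ C}) :
    ∃ μ : Measure K, IsProbabilityMeasure μ ∧ MeasurePreserving σ μ μ ∧ μ C ≠ 0 ∧
      ∀ O, IsOpen O → μ O ≠ 0 → ∃ n, σ^[n] ω ∈ O := by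
  obtain ⟨δ, hδ, h1⟩ := h
  choose m hm using h1
  obtain ⟨μ, -, φ, hφ, hlim⟩ := (isCompact_univ (X := ProbabilityMeasure K)).tendsto_subseq
    (x := fun j => H98.Emp.emp σ (σ^[m j] ω) j) (fun _ => Set.mem_univ _)
  have key : ∀ D : Set K, IsClosed D → ∀ c : ℝ,
      (∀ j : ℕ, c * (j + 1) ≤ card {n | σ^[n] ω ∈ D} (m j) j) → ENNReal.ofReal c ≤ (μ : Measure K) D := by
    intro D hD c hc
    refine le_trans ?_ (ProbabilityMeasure.limsup_measure_closed_le_of_tendsto hlim hD)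
    refine le_limsup_of_frequently_le (Eventually.frequently (Eventually.of_forall fun j => ?_))
    refine ENNReal.ofReal_le_of_le_toReal ?_
    have := H98.Emp.emp_real σ (σ^[m (φ j)] ω) (φ j) hD.measurableSet
    rw [Measure.real] at this
    simp only [Function.comp]
    rw [this, le_div_iff₀ (by positivity)]
    refine (hc (φ j)).trans (le_of_eq ?_)
    rw [card_eq]
    congr 2
    ext i
    simp only [Finset.mem_filter, mem_ofPred_eq, ← Function.iterate_add_apply, add_comm]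
  refine ⟨μ, inferInstance, ⟨hσ.measurable, H98.Emp.inv_of_cluster hσ (fun j => σ^[m (φ j)] ω) φ
    hφ.tendsto_atTop hlim.mapClusterPt⟩, ?_, fun O hO h0 => ?_⟩
  · exact ((ENNReal.ofReal_pos.2 hδ).trans_le (key C hC δ hm)).ne'
  · by_contra hn
    push Not at hn
    have := key Oᶜ hO.isClosed_compl 1 fun j => by
      rw [card_sum]
      simp [hn]
    rw [ENNReal.ofReal_one, one_le_prob_iff, prob_compl_eq_one_iff hO.measurableSet] at this
    exact h0 this

/-- a system of return sets -/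
structure Sys (A : ℕ → Set ℕ) : Prop where
  ban : ∀ k, BanPos (A k)
  anti : Antitone A
  op : ∀ k, ∀ a ∈ A k, ∃ k', ∀ n ∈ A k', a + n ∈ A k

section grp

variable {G : Type*} [AddCommGroup G] [TopologicalSpace G] [IsTopologicalAddGroup G]
  [CompactSpace G] [T2Space G]

lemma zero_mem_of {Z : Set G} (h1 : Z.Nonempty) (h2 : IsClosed Z)
    (h3 : ∀ x ∈ Z, ∀ y ∈ Z, x + y ∈ Z) : (0 : G) ∈ Z := by
  obtain ⟨m, hm, h⟩ := exists_idempotent_in_compact_add_subsemigroup
    (fun r => continuous_add_const r) Z h1 h2.isCompact h3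
  rwa [add_eq_left.1 h] at hm

lemma neg_mem_of {Z : Set G} (h2 : IsClosed Z)
    (h3 : ∀ x ∈ Z, ∀ y ∈ Z, x + y ∈ Z) {h : G} (hh : h ∈ Z) : -h ∈ Z := by
  have := zero_mem_of (Z := {g | g - h ∈ Z}) ⟨h + h, by simpa using hh⟩
    (h2.preimage (continuous_sub_right h)) fun x hx y hy => by
      have := h3 _ (h3 _ hx _ hy) _ hh
      simp only [mem_ofPred_eq]
      convert this using 1
      abel
  simpa using this

theorem Sys.zero {A : ℕ → Set ℕ} (hA : Sys A) (ι : ℤ →+ G) (k : ℕ) {N : Set G} (hN : N ∈ 𝓝 0) :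
    BanPos {n | n ∈ A k ∧ ι n ∈ N} := by
  let Z : Set G := {g | ∀ k, ∀ N ∈ 𝓝 g, BanPos {n | n ∈ A k ∧ ι n ∈ N}}
  refine zero_mem_of (Z := Z) ?_ ?_ ?_ k N hN
  · by_contra hn
    rw [not_nonempty_iff_eq_empty] at hn
    obtain ⟨k, hk⟩ := (isCompact_univ (X := G)).induction_on
      (p := fun s => ∃ k, ¬ BanPos {n | n ∈ A k ∧ ι n ∈ s})
      ⟨0, fun h => by simpa using ban_inf h 0⟩
      (fun s t hst ⟨k, hk⟩ => ⟨k, fun h => hk (ban_mono (fun n hn => ⟨hn.1, hst hn.2⟩) h)⟩)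
      (fun s t ⟨k, hk⟩ ⟨l, hl⟩ => ⟨max k l, fun h => by
        refine (ban_union (ban_mono (fun n hn => ?_) h)).elim hk hl
        exact hn.2.imp (fun h => ⟨hA.anti (le_max_left _ _) hn.1, h⟩)
          (fun h => ⟨hA.anti (le_max_right _ _) hn.1, h⟩)⟩)
      (fun g _ => by
        have : g ∉ Z := by rw [hn]; exact notMem_empty _
        simp only [Z, mem_ofPred_eq, not_forall] at this
        obtain ⟨k, N, h1, h2⟩ := this
        exact ⟨N, by simpa using h1, k, h2⟩)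
    exact hk (by simpa using hA.ban k)
  · refine isClosed_of_closure_subset fun g hg k N hN => ?_
    obtain ⟨g', h1, h2⟩ := mem_closure_iff_nhds.1 hg _ (eventually_mem_nhds_iff.2 hN)
    exact h2 k N h1
  · intro g hg h hh k N hN
    obtain ⟨O, hO1, hO2, hO3⟩ := mem_nhds_iff.1 hN
    obtain ⟨N1, h1, N2, h2, h3⟩ := mem_nhds_prod_iff.1
      ((continuous_add.continuousAt (x := (g, h))).preimage_mem_nhds hN)
    obtain ⟨a, ⟨ha1, ha2⟩, -⟩ := ban_inf (hg k N1 h1) 0
    obtain ⟨k', hk'⟩ := hA.op k a ha1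
    refine ban_shift a (fun n hn => ⟨hk' n hn.1, ?_⟩) (hh k' N2 h2)
    push_cast
    rw [map_add]
    exact h3 (mk_mem_prod ha2 hn.2)

variable {Y : Type*} [PseudoMetricSpace Y] {S : Y → Y} {y : Y}

lemma sys_of_rec (hS : Continuous S) (hy : y ∈ Rec BanPos S) :
    Sys fun k => {n | dist (S^[n] y) y < 1 / ((k : ℝ) + 1)} := by
  refine ⟨fun k => ?_, fun k l hkl n hn => ?_, fun k a ha => ?_⟩
  · simpa only [Metric.mem_ball] using hy _ (Metric.ball_mem_nhds y (Nat.one_div_pos_of_nat (n := k)))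
  · simp only [mem_ofPred_eq] at hn ⊢
    exact lt_of_lt_of_le hn (Nat.one_div_le_one_div hkl)
  · have : S^[a] ⁻¹' Metric.ball y (1 / ((k : ℝ) + 1)) ∈ 𝓝 y :=
      (hS.iterate a).continuousAt.preimage_mem_nhds (Metric.isOpen_ball.mem_nhds ha)
    obtain ⟨ε, hε, h⟩ := Metric.mem_nhds_iff.1 this
    obtain ⟨k', hk'⟩ := exists_nat_one_div_lt hε
    refine ⟨k', fun n hn => ?_⟩
    have := h (Metric.mem_ball.2 (lt_trans hn hk'))
    rwa [mem_preimage, ← Function.iterate_add_apply] at this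

lemma visit (hS : Continuous S) (hy : y ∈ Rec BanPos S) (ι : ℤ →+ G) {V : Set Y} (hV : IsOpen V)
    {N : Set G} (hN : IsOpen N) {a : ℕ} (h1 : S^[a] y ∈ V) (h2 : ι a ∈ N) :
    BanPos {n | S^[n] y ∈ V ∧ ι n ∈ N} := by
  obtain ⟨ε, hε, h⟩ := Metric.mem_nhds_iff.1
    ((hS.iterate a).continuousAt.preimage_mem_nhds (hV.mem_nhds h1))
  obtain ⟨k, hk⟩ := exists_nat_one_div_lt hε
  have hN' : (fun g => ι a + g) ⁻¹' N ∈ 𝓝 (0 : G) :=
    (hN.preimage (continuous_const_add _)).mem_nhds (by simpa using h2)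
  refine ban_shift a (fun n hn => ⟨?_, ?_⟩) ((sys_of_rec hS hy).zero ι k hN')
  · have := h (Metric.mem_ball.2 (lt_trans hn.1 hk))
    rwa [mem_preimage, ← Function.iterate_add_apply] at this
  · push_cast
    rw [map_add]
    exact hn.2

theorem coset (hS : Continuous S) (hy : y ∈ Rec BanPos S) (ι : ℤ →+ G) (b₀ : ℕ) {N₀ : Set G}
    (hN₀ : IsOpen N₀) (hb : ι b₀ ∈ N₀) : ∃ l : ℕ, ∀ b : ℕ,
      dist (S^[b] y) (S^[b₀] y) < 1 / ((l : ℝ) + 1) → ∀ V, IsOpen V → S^[b] y ∈ V →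
      BanPos {n | S^[n] y ∈ V ∧ ι n ∈ N₀} := by
  let H : Set G := {h | ∀ V, IsOpen V → y ∈ V → ∀ N, IsOpen N → h ∈ N → ∃ n : ℕ, S^[n] y ∈ V ∧ ι n ∈ N}
  have hc : IsClosed H := by
    refine isClosed_of_closure_subset fun g hg V hV hy N hN hg' => ?_
    obtain ⟨g', h1, h2⟩ := mem_closure_iff.1 hg N hN hg'
    exact h2 V hV hy N hN h1
  have ha : ∀ g ∈ H, ∀ h ∈ H, g + h ∈ H := by
    intro g hg h hh V hV hyV N hN hgh
    obtain ⟨N1, N2, h1, h2, h3, h4, h5⟩ := isOpen_prod_iff.1 (hN.preimage continuous_add) g h hgh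
    obtain ⟨a, ha1, ha2⟩ := hg V hV hyV N1 h1 h3
    obtain ⟨n, hn1, hn2⟩ := hh _ (hV.preimage (hS.iterate a)) ha1 N2 h2 h4
    refine ⟨a + n, by rw [Function.iterate_add_apply]; exact hn1, ?_⟩
    push_cast
    rw [map_add]
    exact h5 (mk_mem_prod ha2 hn2)
  let W : Set G := {g | ∃ h ∈ H, g + h ∈ N₀}
  have hW : IsOpen W := by
    have : W = ⋃ h ∈ H, (fun g => g + h) ⁻¹' N₀ := by ext; simp [W]
    rw [this]
    exact isOpen_biUnion fun h _ => hN₀.preimage (continuous_add_const h)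
  have h1 : ∃ l : ℕ, ∀ b : ℕ, dist (S^[b] y) (S^[b₀] y) < 1 / ((l : ℝ) + 1) → ι b ∈ W := by
    by_contra hn
    push Not at hn
    choose b hb1 hb2 using hn
    obtain ⟨g, hg1, hg2⟩ := hW.isClosed_compl.isCompact.exists_mapClusterPt_of_frequently
      (l := atTop) (f := fun l => ι (b l)) (Frequently.of_forall hb2)
    have hb3 : Tendsto (fun l => S^[b l] y) atTop (𝓝 (S^[b₀] y)) :=
      tendsto_iff_dist_tendsto_zero.2 (squeeze_zero (fun _ => dist_nonneg) (fun l => (hb1 l).le)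
        tendsto_one_div_add_atTop_nhds_zero_nat)
    have h2 : g - ι b₀ ∈ H := by
      intro V hV hyV N hN hg
      obtain ⟨M, ⟨hM1, hM2⟩, hM3⟩ := ban_inf (visit hS hy ι hV
        (hN.preimage (continuous_const_add (g - ι b₀))) (a := 0) hyV (by simpa using hg)) b₀
      obtain ⟨M, rfl⟩ := Nat.exists_eq_add_of_le' hM3
      have e1 : ∀ᶠ l in atTop, S^[M] (S^[b l] y) ∈ V :=
        ((hS.iterate M).tendsto _).comp hb3
          (hV.mem_nhds (by rwa [← Function.iterate_add_apply]))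
      have e2 : ∃ᶠ l in atTop, ι (b l) ∈ (fun t => ι M + t) ⁻¹' N := by
        refine hg2.frequently ((hN.preimage (continuous_const_add _)).mem_nhds ?_)
        simp only [mem_preimage] at hM2 ⊢
        convert hM2 using 1
        push_cast
        rw [map_add]
        abel
      obtain ⟨l, hl1, hl2⟩ := (e2.and_eventually e1).exists
      refine ⟨M + b l, by rwa [Function.iterate_add_apply], ?_⟩
      push_cast
      rw [map_add]
      exact hl1
    exact hg1 ⟨_, neg_mem_of hc ha h2, by simpa using hb⟩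
  obtain ⟨l, hl⟩ := h1
  refine ⟨l, fun b hb V hV hbV => ?_⟩
  obtain ⟨h, hh1, hh2⟩ := hl b hb
  obtain ⟨n, hn1, hn2⟩ := hh1 _ (hV.preimage (hS.iterate b)) hbV _
    (hN₀.preimage (continuous_const_add (ι b))) hh2
  refine visit hS hy ι hV hN₀ (a := b + n) (by rw [Function.iterate_add_apply]; exact hn1) ?_
  push_cast
  rw [map_add]
  exact hn2

end grp

end Pool.Agent.H61.Ban
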