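import Mathlib
import Pool.Agent.H61.BanA

set_option autoImplicit false

namespace Pool.Agent.H61.Ban

open Filter Topology Set MeasureTheory Pool.Agent.H93.RecDefs
open scoped Classical RealInnerProductSpace

section hilb

variable {H : Type*} [NormedAddCommGroup H] [InnerProductSpace ℝ H]

/-- weak limit -/
def IsW {ι : Type*} (q : Filter ι) (F : ι → H) (w : H) : Prop :=
  ∀ v, Tendsto (fun i => ⟪F i, v⟫) q (𝓝 ⟪w, v⟫)

lemma exists_W [CompleteSpace H] {ι : Type*} (q : Ultrafilter ι) (F : ι → H) (M : ℝ)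
    (hF : ∀ i, ‖F i‖ ≤ M) : ∃ w, IsW (q : Filter ι) F w := by
  have h1 : ∀ v : H, ∃ L ∈ Metric.closedBall (0 : ℝ) (M * ‖v‖),
      Tendsto (fun i => ⟪F i, v⟫) q (𝓝 L) := fun v => by
    obtain ⟨L, h1, h2⟩ := (isCompact_closedBall (0 : ℝ) (M * ‖v‖)).ultrafilter_le_nhds
      (q.map fun i => ⟪F i, v⟫) (by
        simp only [Ultrafilter.coe_map, le_principal_iff, mem_map]
        refine Eventually.of_forall fun i => ?_
        simp only [mem_closedBall_zero_iff, Real.norm_eq_abs]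
        exact (abs_real_inner_le_norm _ _).trans (by gcongr; exact hF i))
    exact ⟨L, h1, h2⟩
  choose L hL1 hL2 using h1
  let φ : H →ₗ[ℝ] ℝ :=
    { toFun := L
      map_add' := fun v w => tendsto_nhds_unique (hL2 _) (by
        simpa only [inner_add_right] using (hL2 v).add (hL2 w))
      map_smul' := fun c v => tendsto_nhds_unique (hL2 _) (by
        simpa only [real_inner_smul_right, RingHom.id_apply, smul_eq_mul] using
          (hL2 v).const_mul c) }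
  refine ⟨(InnerProductSpace.toDual ℝ H).symm (φ.mkContinuous M fun v => mem_closedBall_zero_iff.1 (hL1 v)),
    fun v => ?_⟩
  rw [InnerProductSpace.toDual_symm_apply]
  exact hL2 v

lemma IsW.norm_le {ι : Type*} {q : Filter ι} [q.NeBot] {F : ι → H} {w : H} (h : IsW q F w) {M : ℝ}
    (hM : ∀ᶠ i in q, ‖F i‖ ≤ M) : ‖w‖ ≤ M := by
  have h0 : 0 ≤ M := by
    obtain ⟨i, hi⟩ := hM.exists
    exact (norm_nonneg _).trans hi
  have h1 : ⟪w, w⟫ ≤ M * ‖w‖ := le_of_tendsto (h w) (hM.mono fun i hi =>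
    (real_inner_le_norm _ _).trans (by gcongr))
  rw [real_inner_self_eq_norm_mul_norm] at h1
  by_contra hn
  nlinarith [norm_nonneg w]

lemma IsW.bind {ι κ : Type*} {r : Filter κ} {q : κ → Filter ι} {F : ι → H} {G : κ → H} {w : H}
    (h1 : ∀ k, IsW (q k) F (G k)) (h2 : IsW r G w) : IsW (r.bind q) F w := fun v =>
  tendsto_nhds.2 fun s hs hx => by
    refine eventually_bind.2 ?_
    filter_upwards [h2 v (hs.mem_nhds hx)] with k hk
    exact h1 k v (hs.mem_nhds hk)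

lemma dbl {q : Filter ℤ} {e e' : ℤ → H} {f f' : H} (h : IsW q e f) (h' : IsW q e' f')
    (h0 : 0 < ⟪f, f'⟫) : ∀ᶠ n in q, ∀ᶠ n' in q, 0 < ⟪e' n', e n⟫ := by
  filter_upwards [h f' (Ioi_mem_nhds h0)] with n hn
  refine h' (e n) (Ioi_mem_nhds ?_)
  rw [real_inner_comm]
  exact hn

lemma low {q : Filter ℤ} [q.NeBot] {e : ℤ → H} {f u : H} (h : IsW q e f) {a : ℝ} (hu : ‖u‖ ≤ 1)
    (ha : ∀ n, ⟪e n, u⟫ = a) : a ≤ ‖f‖ := by
  have h1 := h u
  simp only [ha] at h1
  rw [tendsto_nhds_unique tendsto_const_nhds h1]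
  refine (real_inner_le_norm _ _).trans ?_
  nlinarith [norm_nonneg f]

/-- total boundedness of an invariant pseudometric on the integers -/
def TB (ρ : ℤ → ℝ) : Prop :=
  ∀ r : Ultrafilter ℤ, ∀ ε > 0, ∃ S ∈ r, ∀ a ∈ S, ∀ b ∈ S, ρ (a - b) < ε

theorem hilb [CompleteSpace H] {e : ℤ → H} (he : ∀ n, ‖e n‖ ≤ 1) {u : H} (hu : ‖u‖ ≤ 1) {a : ℝ}
    (ha : ∀ n, ⟪e n, u⟫ = a) (hs : ∀ n m r, ⟪e (n + r), e (m + r)⟫ = ⟪e n, e m⟫) :
    ∃ q : Ultrafilter ℤ, (q : Filter ℤ) ≤ atTop ∧ ∃ ρ : AddGroupSeminorm ℤ, TB ρ ∧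
      ∀ t, ρ t < a → ∀ᶠ n in (q : Filter ℤ), ∀ᶠ n' in (q : Filter ℤ), 0 < ⟪e (t + n'), e n⟫ := by
  choose W hW using fun q : Ultrafilter ℤ => exists_W q e 1 he
  have huniq : ∀ (q : Ultrafilter ℤ) w, IsW (q : Filter ℤ) e w → ‖W q‖ = ‖w‖ := fun q w h => by
    congr 1
    exact ext_inner_right ℝ fun v => tendsto_nhds_unique (hW q v) (h v)
  obtain ⟨q, hq, hmin⟩ : ∃ q : Ultrafilter ℤ, (q : Filter ℤ) ≤ atTop ∧
      ∀ p : Ultrafilter ℤ, (p : Filter ℤ) ≤ atTop → ‖W q‖ ≤ ‖W p‖ := by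
    let P : Set ℝ := {c | ∃ p : Ultrafilter ℤ, (p : Filter ℤ) ≤ atTop ∧ ‖W p‖ = c}
    have hP : P.Nonempty := ⟨_, Ultrafilter.of atTop, Ultrafilter.of_le _, rfl⟩
    have hb : BddBelow P := ⟨0, by rintro _ ⟨p, -, rfl⟩; exact norm_nonneg _⟩
    obtain ⟨c, -, hc1, hc2⟩ := exists_seq_tendsto_sInf hP hb
    choose p hp1 hp2 using hc2
    let r : Ultrafilter ℕ := Ultrafilter.of atTop
    obtain ⟨w, hw⟩ := exists_W r (fun j => W (p j)) 1 fun j =>
      (hW (p j)).norm_le (Eventually.of_forall he)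
    refine ⟨r.bind p, fun s hs => ?_, fun p' hp' => ?_⟩
    · exact eventually_bind.2 (Eventually.of_forall fun j => hp1 j hs)
    · rw [huniq (r.bind p) w (IsW.bind (fun j => hW (p j)) hw)]
      refine le_trans (le_of_forall_pos_le_add fun ε hε => hw.norm_le ?_) (csInf_le hb ⟨p', hp', rfl⟩)
      refine Ultrafilter.of_le atTop ?_
      filter_upwards [hc1 (Iic_mem_nhds (lt_add_of_pos_right _ hε))] with j hj
      rw [hp2]
      exact hj
  let f : ℤ → H := fun t => W (q.map fun n => t + n)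
  have hf : ∀ t, IsW (q : Filter ℤ) (fun n => e (t + n)) (f t) := fun t v => hW (q.map fun n => t + n) v
  have h1 : ∀ t s r, ⟪f (t + r), f (s + r)⟫ = ⟪f t, f s⟫ := fun t s r => by
    have h2 : ∀ n, ⟪e (s + r + n), f (t + r)⟫ = ⟪e (s + n), f t⟫ := fun n => by
      rw [real_inner_comm, real_inner_comm (f t)]
      refine tendsto_nhds_unique (hf (t + r) _) ((hf t _).congr fun n' => ?_)
      rw [← hs _ _ r]
      congr 2 <;> ring
    rw [real_inner_comm, real_inner_comm (f s)]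
    refine tendsto_nhds_unique (hf (s + r) _) ((hf s _).congr fun n => (h2 n).symm)
  have h2 : ∀ t, ‖f t‖ = ‖f 0‖ := fun t => by
    have := h1 0 0 t
    rw [zero_add, real_inner_self_eq_norm_sq, real_inner_self_eq_norm_sq] at this
    exact (sq_eq_sq₀ (norm_nonneg _) (norm_nonneg _)).1 this
  have h3 : ∀ t s, ‖f (t - s) - f 0‖ = ‖f t - f s‖ := fun t s => by
    refine (sq_eq_sq₀ (norm_nonneg _) (norm_nonneg _)).1 ?_
    rw [norm_sub_sq_real, norm_sub_sq_real, h2 t, h2 s, h2 (t - s), ← h1 _ _ s]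
    simp
  have h4 : ‖W q‖ = ‖f 0‖ := huniq q _ (by simpa using hf 0)
  refine ⟨q, hq,
    { toFun := fun t => ‖f t - f 0‖
      map_zero' := by simp
      add_le' := fun t s => ?_
      neg' := fun t => ?_ }, fun r ε hε => ?_, fun t ht => ?_⟩
  · have := h3 (t + s) s
    rw [add_sub_cancel_right] at this
    rw [this]
    exact norm_sub_le_norm_sub_add_norm_sub _ _ _
  · have := h3 0 t
    rw [zero_sub] at this
    rw [this, norm_sub_rev]
  · obtain ⟨g, hg⟩ := exists_W r f ‖f 0‖ fun t => (h2 t).le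
    have h5 : ‖f 0‖ ≤ ‖g‖ := by
      rw [← h4, ← huniq (r.bind fun t => q.map fun n => t + n) g
        (IsW.bind (fun t => hW (q.map fun n => t + n)) hg)]
      refine hmin _ fun s hs => eventually_bind.2 (Eventually.of_forall fun t => ?_)
      exact hq (tendsto_atTop_add_const_left _ t tendsto_id hs)
    have h6 : ∀ᶠ t in (r : Filter ℤ), ‖f t - g‖ < ε / 2 := by
      have : ‖g‖ ^ 2 - ε ^ 2 / 8 < ⟪g, g⟫ := by
        rw [real_inner_self_eq_norm_sq]
        nlinarith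
      filter_upwards [hg g (Ioi_mem_nhds this)] with t ht
      simp only [mem_preimage, mem_Ioi] at ht
      refine lt_of_pow_lt_pow_left₀ 2 (by positivity) ?_
      rw [norm_sub_sq_real, h2 t]
      nlinarith [norm_nonneg (f 0)]
    refine ⟨_, h6, fun a ha b hb => ?_⟩
    change ‖f (a - b) - f 0‖ < ε
    rw [h3]
    have := norm_sub_le_norm_sub_add_norm_sub (f a) g (f b)
    rw [norm_sub_rev g] at this
    simp only [mem_ofPred_eq] at ha hb
    linarith
  · change ‖f t - f 0‖ < a at ht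
    have h5 := low (hW q) hu ha
    have h6 := norm_sub_sq_real (f t) (f 0)
    rw [h2 t] at h6
    refine dbl (f := f 0) (by simpa using hf 0) (hf t) ?_
    rw [real_inner_comm]
    nlinarith [norm_nonneg (f t - f 0)]

end hilb

theorem corr' {K : Type*} [TopologicalSpace K] [TopologicalSpace.MetrizableSpace K]
    [CompactSpace K] [MeasurableSpace K] [BorelSpace K]
    {σ : K → K} (hσ : Continuous σ) (ω : K) {C : Set K} (hC : IsClosed C)
    (h : BanPos {n | σ^[n] ω ∈ C}) :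
    ∃ μ : Measure K, IsProbabilityMeasure μ ∧ MeasurePreserving σ μ μ ∧ μ C ≠ 0 ∧
      ∀ O, IsOpen O → μ O ≠ 0 → ∃ n, σ^[n] ω ∈ O := by
  let _ := TopologicalSpace.metrizableSpaceMetric K
  exact corr hσ ω hC h

lemma pd {A : Set ℕ} (hA : BanPos A) : ∃ (μ : Measure (ℤ → Bool)) (e : ℤ → Lp ℝ 2 μ)
    (u : Lp ℝ 2 μ) (a : ℝ), 0 < a ∧ (∀ n, ‖e n‖ ≤ 1) ∧ ‖u‖ ≤ 1 ∧ (∀ n, ⟪e n, u⟫ = a) ∧
    (∀ n m r, ⟪e (n + r), e (m + r)⟫ = ⟪e n, e m⟫) ∧
    ∀ n m, 0 < ⟪e n, e m⟫ → ∃ r ∈ A, ∃ r' ∈ A, (r : ℤ) - r' = n - m := by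
  let σ : (ℤ → Bool) → (ℤ → Bool) := fun w z => w (z + 1)
  let ω : ℤ → Bool := fun z => decide (∃ r ∈ A, (r : ℤ) = z)
  let E : ℤ → Set (ℤ → Bool) := fun n => {w | w n = true}
  have hσ : Continuous σ := continuous_pi fun z => continuous_apply _
  have hE : ∀ n, IsClopen (E n) := fun n =>
    (isClopen_discrete {true}).preimage (continuous_apply n)
  have hit : ∀ (k : ℕ) (w : ℤ → Bool) z, σ^[k] w z = w (z + k) := fun k => by
    induction k with
    | zero => simp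
    | succ k ih =>
      intro w z
      rw [Function.iterate_succ_apply, ih]
      simp [σ, add_assoc]
  obtain ⟨μ, hμ, h1, h2, h3⟩ := corr' hσ ω (hE 0).isClosed (ban_mono (fun n hn => by
    simp only [mem_ofPred_eq, E, hit, ω, decide_eq_true_eq]
    exact ⟨n, hn, by simp⟩) hA)
  have hm : ∀ n, MeasurableSet (E n) := fun n => (hE n).isOpen.measurableSet
  have h4 : ∀ n m, μ (E (n + 1) ∩ E (m + 1)) = μ (E n ∩ E m) := fun n m =>
    h1.measure_preimage ((hm n).inter (hm m)).nullMeasurableSet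
  have h5 : ∀ r n m, μ (E (n + r) ∩ E (m + r)) = μ (E n ∩ E m) := fun r => by
    induction r using Int.induction_on with
    | zero => simp
    | succ r ih => intro n m; rw [← add_assoc, ← add_assoc, h4, ih]
    | pred r ih =>
      intro n m
      rw [← h4, ← ih n m]
      congr 3 <;> ring
  have hn : ∀ (s : Set (ℤ → Bool)) (hs : MeasurableSet s),
      ‖indicatorConstLp 2 hs (measure_ne_top μ s) (1 : ℝ)‖ ≤ 1 := fun s hs => by
    refine (sq_le_one_iff₀ (norm_nonneg _)).1 ?_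
    rw [← real_inner_self_eq_norm_sq, L2.real_inner_indicatorConstLp_one_indicatorConstLp_one]
    exact measureReal_le_one
  refine ⟨μ, fun n => indicatorConstLp 2 (hm n) (measure_ne_top _ _) 1,
    indicatorConstLp 2 MeasurableSet.univ (measure_ne_top _ _) 1, μ.real (E 0),
    ENNReal.toReal_pos h2 (measure_ne_top _ _), fun n => hn _ _, hn _ _, fun n => ?_,
    fun n m r => ?_, fun n m h => ?_⟩
  · rw [L2.real_inner_indicatorConstLp_one_indicatorConstLp_one, inter_univ]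
    have := h5 n 0 0
    simp only [zero_add, inter_self] at this
    rw [Measure.real, this, Measure.real]
  · simp only [L2.real_inner_indicatorConstLp_one_indicatorConstLp_one, Measure.real, h5]
  · rw [L2.real_inner_indicatorConstLp_one_indicatorConstLp_one] at h
    obtain ⟨k, hk1, hk2⟩ := h3 _ ((hE n).isOpen.inter (hE m).isOpen)
      (fun h0 => by simp [Measure.real, h0] at h)
    simp only [mem_ofPred_eq, E, hit, ω, decide_eq_true_eq] at hk1 hk2
    obtain ⟨r, hr, e1⟩ := hk1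
    obtain ⟨r', hr', e2⟩ := hk2
    exact ⟨r, hr, r', hr', by omega⟩

theorem L1 {A : Set ℕ} (hA : BanPos A) : ∃ ρ : AddGroupSeminorm ℤ, TB ρ ∧ ∃ ε > 0, ∀ t, ρ t < ε →
    ∀ B, BanPos B → ∀ K : ℤ, ∃ r ∈ A, ∃ r' ∈ A, ∃ s ∈ B, ∃ s' ∈ B,
      K ≤ (s : ℤ) - s' ∧ (r : ℤ) - r' = t + (s - s') := by
  obtain ⟨μ, e, u, a, ha, h1, h2, h3, h4, h5⟩ := pd hA
  obtain ⟨q, hq, ρ, hρ, h6⟩ := hilb h1 h2 h3 h4
  refine ⟨ρ, hρ, a, ha, fun t ht B hB K => ?_⟩
  obtain ⟨ν, e', u', b, hb, g1, g2, g3, -, g5⟩ := pd hB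
  obtain ⟨w, hw⟩ := exists_W q e' 1 g1
  have h7 := low hw g2 g3
  obtain ⟨n, hn1, hn2⟩ := ((h6 t ht).and (dbl hw hw (by
    rw [real_inner_self_eq_norm_sq]
    exact pow_pos (hb.trans_le h7) 2))).exists
  obtain ⟨n', ⟨e1, e2⟩, e3⟩ := ((hn1.and hn2).and (hq (eventually_ge_atTop (n + K)))).exists
  obtain ⟨r, hr, r', hr', e4⟩ := h5 _ _ e1
  obtain ⟨s, hs, s', hs', e5⟩ := g5 _ _ e2
  exact ⟨r, hr, r', hr', s, hs, s', hs', by omega, by omega⟩

end Pool.Agent.H61.Ban
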