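import Mathlib
import Pool.Agent.H61.BanB

set_option autoImplicit false

namespace Pool.Agent.H61.Ban

open Filter Topology Set MeasureTheory MeasureTheory.Measure
open scoped Classical ENNReal NNReal

/-- the integers with a seminorm -/
def ZR (_R : AddGroupSeminorm ℤ) : Type := ℤ

instance (R : AddGroupSeminorm ℤ) : AddCommGroup (ZR R) := inferInstanceAs (AddCommGroup ℤ)

noncomputable instance (R : AddGroupSeminorm ℤ) : SeminormedAddCommGroup (ZR R) :=
  AddGroupSeminorm.toSeminormedAddCommGroup (E := ZR R) R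

lemma grp_one (R : AddGroupSeminorm ℤ) (h : TB R) : ∃ (G : Type) (_ : NormedAddCommGroup G)
    (_ : CompactSpace G) (ι : ℤ →+ G), DenseRange ι ∧ ∀ t, ‖ι t‖ = R t := by
  have h1 : TotallyBounded (univ : Set (ZR R)) := by
    refine totallyBounded_iff_ultrafilter.2 fun r _ => ?_
    refine Metric.cauchy_iff.2 ⟨r.neBot, fun ε hε => ?_⟩
    obtain ⟨S, hS, h2⟩ := h r ε hε
    refine ⟨S, hS, fun a ha b hb => ?_⟩
    rw [dist_eq_norm]
    exact h2 a ha b hb
  refine ⟨UniformSpace.Completion (ZR R), inferInstance, ⟨?_⟩,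
    (UniformSpace.Completion.toCompl : ZR R →+ UniformSpace.Completion (ZR R)),
    UniformSpace.Completion.denseRange_coe (α := ZR R),
    fun t => UniformSpace.Completion.norm_coe (E := ZR R) t⟩
  have h2 := (h1.image (UniformSpace.Completion.uniformContinuous_coe (ZR R))).closure
  rw [image_univ, UniformSpace.Completion.denseRange_coe.closure_range] at h2
  exact isCompact_iff_totallyBounded_isComplete.2 ⟨h2, isComplete_univ⟩

theorem exists_grp (ρ : ℕ → AddGroupSeminorm ℤ) (h : ∀ k, TB (ρ k)) :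
    ∃ (G : Type) (_ : NormedAddCommGroup G) (_ : CompactSpace G) (ι : ℤ →+ G), DenseRange ι ∧
      ∀ k, ∀ ε > 0, ∃ N ∈ 𝓝 (0 : G), ∀ t, ι t ∈ N → ρ k t < ε := by
  have hb : ∀ t, BddAbove (range fun k : ℕ => min (ρ k t) (1 / ((k : ℝ) + 1))) := fun t =>
    ⟨1, by
      rintro _ ⟨k, rfl⟩
      refine (min_le_right _ _).trans ?_
      rw [div_le_one (by positivity)]
      linarith [Nat.cast_nonneg (α := ℝ) k]⟩
  let R : AddGroupSeminorm ℤ :=
    { toFun := fun t => ⨆ k : ℕ, min (ρ k t) (1 / ((k : ℝ) + 1))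
      map_zero' := by
        have : ∀ k : ℕ, min (ρ k 0) (1 / ((k : ℝ) + 1)) = 0 := fun k => by
          rw [map_zero]
          exact min_eq_left (by positivity)
        simp only [this, ciSup_const]
      add_le' := fun t s => ciSup_le fun k => by
        refine le_trans ?_ (add_le_add (le_ciSup (hb t) k) (le_ciSup (hb s) k))
        have h1 := map_add_le_add (ρ k) t s
        have h2 := apply_nonneg (ρ k) t
        have h3 := apply_nonneg (ρ k) s
        have h4 : (0 : ℝ) ≤ 1 / ((k : ℝ) + 1) := by positivity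
        simp only [min_def]
        split_ifs <;> linarith
      neg' := fun t => by simp only [map_neg_eq_map] }
  have hR : TB R := fun r ε hε => by
    obtain ⟨K, hK⟩ := exists_nat_one_div_lt (half_pos hε)
    choose S hS1 hS2 using fun k => h k r (ε / 2) (half_pos hε)
    refine ⟨⋂ k ∈ Finset.range K, S k, (biInter_finset_mem _).2 fun k _ => hS1 k,
      fun a ha b hb' => lt_of_le_of_lt (ciSup_le fun k => ?_) (half_lt_self hε)⟩
    by_cases hk : k < K
    · exact (min_le_left _ _).trans (hS2 k a (mem_iInter₂.1 ha k (Finset.mem_range.2 hk)) b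
        (mem_iInter₂.1 hb' k (Finset.mem_range.2 hk))).le
    · exact (min_le_right _ _).trans ((Nat.one_div_le_one_div (not_lt.1 hk)).trans hK.le)
  obtain ⟨G, i1, i2, ι, h1, h2⟩ := grp_one R hR
  refine ⟨G, i1, i2, ι, h1, fun k ε hε => ⟨Metric.ball 0 (min ε (1 / ((k : ℝ) + 1))),
    Metric.ball_mem_nhds _ (by positivity), fun t ht => ?_⟩⟩
  rw [mem_ball_zero_iff, h2] at ht
  have h3 := (le_ciSup (hb t) k).trans_lt ht
  by_contra hn
  exact absurd h3 (not_lt.2 (min_le_min (not_lt.1 hn) le_rfl))

section haar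

variable {G : Type*} [NormedAddCommGroup G] [CompactSpace G] [MeasurableSpace G] [BorelSpace G]
  (l : Measure G) [l.IsAddHaarMeasure] [IsProbabilityMeasure l]

lemma eq_haar {ι : ℤ →+ G} (hι : DenseRange ι) (m : Measure G) [IsProbabilityMeasure m]
    (h : m.map (fun g => ι 1 + g) = m) : m = l := by
  let D : AddSubgroup G :=
    { carrier := {g | m.map (fun x => g + x) = m}
      zero_mem' := by simp
      add_mem' := fun {a b} ha hb => by
        simp only [mem_ofPred_eq] at ha hb ⊢
        conv_rhs => rw [← ha, ← hb]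
        rw [map_map (measurable_const_add _) (measurable_const_add _)]
        simp only [Function.comp_def, add_assoc]
      neg_mem' := fun {a} ha => by
        simp only [mem_ofPred_eq] at ha ⊢
        conv_lhs => rw [← ha]
        rw [map_map (measurable_const_add _) (measurable_const_add _)]
        simp [Function.comp_def] }
  have h1 : ∀ g, m.map (fun x => g + x) = m := fun g => by
    have := isProbabilityMeasure_map (μ := m) (measurable_const_add g).aemeasurable
    refine ext_of_forall_integral_eq_of_IsFiniteMeasure fun φ => ?_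
    rw [integral_map (measurable_const_add g).aemeasurable φ.continuous.aestronglyMeasurable]
    have hc := continuous_parametric_integral_of_continuous (μ := m)
      (f := fun g x : G => φ (g + x)) (φ.continuous.comp continuous_add) isCompact_univ
    simp only [Measure.restrict_univ] at hc
    refine congrFun (hι.equalizer hc continuous_const (funext fun n => ?_)) g
    have h2 : ι n ∈ D := by
      have := D.zsmul_mem (x := ι 1) h n
      rwa [← map_zsmul, smul_eq_mul, mul_one] at this
    simp only [Function.comp]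
    rw [← integral_map (measurable_const_add _).aemeasurable φ.continuous.aestronglyMeasurable]
    congr 1
  have : m.IsAddLeftInvariant := ⟨h1⟩
  have h2 := isAddLeftInvariant_eq_smul m l
  have h3 := congrArg (fun μ : Measure G => μ univ) h2
  simp only [measure_univ, Measure.smul_apply, ENNReal.smul_def, smul_eq_mul, mul_one] at h3
  rw [h2, ENNReal.coe_eq_one.1 h3.symm, one_smul]

/-- correlation function -/
noncomputable def cw (Q P : Set G) (t : G) : ℝ≥0∞ := l {g | g ∈ Q ∧ g + t ∈ P}

lemma cw_open (Q : Set G) {P : Set G} (hP : MeasurableSet P) (c : ℝ≥0∞) :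
    IsOpen {t | c < cw l Q P t} := by
  refine isOpen_iff_mem_nhds.2 fun t ht => ?_
  let f : C(G, C(G, G)) := ContinuousMap.curry ⟨fun p : G × G => p.2 + p.1, by fun_prop⟩
  obtain ⟨ε, hε, h1⟩ := ENNReal.lt_iff_exists_add_pos_lt.1 ht
  filter_upwards [(tendsto_measure_symmDiff_preimage_nhds_zero (μ := l) (ν := l)
    (f.continuous.tendsto t) (.of_forall fun s => measurePreserving_add_right l s)
    (measurePreserving_add_right l t) hP.nullMeasurableSet (measure_ne_top _ _)).eventually
    (gt_mem_nhds (ENNReal.coe_pos.2 hε))] with s hs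
  by_contra hn
  simp only [not_lt] at hn
  refine absurd h1 (not_lt.2 ?_)
  refine le_trans (le_trans (measure_mono fun g hg => ?_) (measure_union_le _ _))
    (add_le_add hn hs.le)
  by_cases h : g + s ∈ P
  · exact Or.inl ⟨hg.1, h⟩
  · exact Or.inr (Or.inr ⟨hg.2, h⟩)

/-- pairs with difference in a set -/
def dd (Q P N : Set G) : Set (G × G) := {p | p.1 ∈ Q ∧ p.2 ∈ P ∧ p.2 - p.1 ∈ N}

omit [CompactSpace G] in
lemma dd_meas [SecondCountableTopology G] {Q P N : Set G} (hQ : MeasurableSet Q)
    (hP : MeasurableSet P) (hN : MeasurableSet N) : MeasurableSet (dd Q P N) :=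
  (measurable_fst hQ).inter ((measurable_snd hP).inter ((measurable_snd.sub measurable_fst) hN))

lemma dd_eq {Q P N : Set G} (hQ : MeasurableSet Q) (hP : MeasurableSet P) (hN : MeasurableSet N) :
    l.prod l (dd Q P N) = ∫⁻ t in N, cw l Q P t ∂l := by
  rw [← (measurePreserving_prod_add_swap l l).measure_preimage (dd_meas hQ hP hN).nullMeasurableSet,
    prod_apply ((measurePreserving_prod_add_swap l l).measurable (dd_meas hQ hP hN)),
    ← lintegral_indicator hN]
  refine lintegral_congr fun t => ?_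
  by_cases ht : t ∈ N
  · rw [indicator_of_mem ht]
    congr 1
    ext g
    simp [dd, ht]
  · rw [indicator_of_notMem ht]
    convert measure_empty (μ := l)
    ext g
    simp [dd, ht]

lemma dd_pos {Q P N : Set G} (hQ : MeasurableSet Q) (hP : MeasurableSet P) (hN : MeasurableSet N)
    (h : l.prod l (dd Q P N) ≠ 0) : ∃ t ∈ N, 0 < cw l Q P t := by
  by_contra hn
  push Not at hn
  apply h
  rw [dd_eq l hQ hP hN, setLIntegral_congr_fun hN (g := fun _ => 0)
    (fun t ht => le_antisymm (hn t ht) zero_le), lintegral_zero]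

lemma cw_pos {Q P : Set G} (hQ : MeasurableSet Q) (hP : MeasurableSet P) (h1 : l Q ≠ 0)
    (h2 : l P ≠ 0) : ∃ t, 0 < cw l Q P t := by
  obtain ⟨t, -, h⟩ := dd_pos l hQ hP MeasurableSet.univ (by
    rw [show dd Q P univ = Q ×ˢ P by ext; simp [dd], prod_prod]
    exact mul_ne_zero h1 h2)
  exact ⟨t, h⟩

omit [CompactSpace G] [BorelSpace G] [l.IsAddHaarMeasure] [IsProbabilityMeasure l] in
lemma cw_ex {Q P : Set G} {t : G} (h : 0 < cw l Q P t) : ∃ g ∈ Q, g + t ∈ P :=
  nonempty_of_measure_ne_zero h.ne'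

lemma four {QA QB PA PB : Set G} (h1 : MeasurableSet QA) (h2 : MeasurableSet QB)
    (h3 : MeasurableSet PA) (h4 : MeasurableSet PB) {u : G} (h5 : 0 < cw l QA QB u)
    (h6 : 0 < cw l PA PB u) : ∃ t, 0 < cw l QA PA t ∧ 0 < cw l QB PB t := by
  obtain ⟨t, ht⟩ := cw_pos l (h1.inter (measurable_add_const u h2))
    (h3.inter (measurable_add_const u h4)) h5.ne' h6.ne'
  refine ⟨t, ht.trans_le (measure_mono fun g hg => ⟨hg.1.1, hg.2.1⟩), ht.trans_le ?_⟩
  unfold cw
  rw [← measure_preimage_add_right l u {g | g ∈ QB ∧ g + t ∈ PB}]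
  refine measure_mono fun g hg => ⟨hg.1.2, ?_⟩
  rw [add_right_comm]
  exact hg.2.2

lemma align {EA EB : Set G} (h1 : MeasurableSet EA) (h2 : MeasurableSet EB) (h3 : l EA ≠ 0)
    (h4 : ∀ g ∈ EA, 0 < cw l EB EB g) : ∃ t ∈ EB, 0 < cw l EA EB t := by
  by_contra hn
  push Not at hn
  have hs : MeasurableSet {p : G × G | p.1 ∈ EA ∧ p.2 ∈ EB ∧ p.1 + p.2 ∈ EB} :=
    (measurable_fst h1).inter ((measurable_snd h2).inter (measurable_add h2))
  have h5 : l.prod l {p : G × G | p.1 ∈ EA ∧ p.2 ∈ EB ∧ p.1 + p.2 ∈ EB} = 0 := by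
    rw [prod_apply_symm hs, ← lintegral_zero (μ := l)]
    refine lintegral_congr fun t => ?_
    by_cases ht : t ∈ EB
    · refine le_antisymm (le_trans ?_ (hn t ht)) zero_le
      exact measure_mono fun g hg => ⟨hg.1, hg.2.2⟩
    · convert measure_empty (μ := l)
      ext g
      simp [ht]
  refine h3 (measure_eq_zero_iff_ae_notMem.2 ?_)
  filter_upwards [measure_ae_null_of_prod_null h5] with g h hg
  refine (h4 g hg).ne' (measure_mono_null (fun g' hg' => ?_) h)
  refine ⟨hg, hg'.1, ?_⟩
  rw [add_comm]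
  exact hg'.2

omit [CompactSpace G] [NormedAddCommGroup G] [BorelSpace G] [l.IsAddHaarMeasure] in
lemma dens (m : Measure G) (h1 : m ≤ l) (h2 : m univ ≠ 0) {P : Set G} (hP : MeasurableSet P)
    (h3 : m Pᶜ = 0) : ∃ η : ℝ≥0, 0 < η ∧ ∃ E, MeasurableSet E ∧ E ⊆ P ∧ l E ≠ 0 ∧
      η • l.restrict E ≤ m := by
  have := isFiniteMeasure_of_le l h1
  obtain ⟨η, hη, E, hE, h4, h5⟩ := exists_positive_of_not_mutuallySingular m l (by
    rintro ⟨s, -, hs1, hs2⟩
    apply h2
    rw [← union_compl_self s]
    exact measure_union_null hs1 (le_antisymm ((h1 _).trans hs2.le) zero_le))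
  refine ⟨η, hη, E ∩ P, hE.inter hP, inter_subset_right, fun h => h4.ne' ?_,
    Measure.le_iff.2 fun s hs => ?_⟩
  · have h6 := (h5 _ hP.compl).trans ((measure_mono inter_subset_left).trans h3.le)
    simp only [nonpos_iff_eq_zero, mul_eq_zero, ENNReal.coe_eq_zero, hη.ne', false_or] at h6
    refine measure_mono_null (fun g hg => ?_) (measure_union_null h h6)
    by_cases hg' : g ∈ P
    · exact Or.inl ⟨hg, hg'⟩
    · exact Or.inr ⟨hg', hg⟩
  · rw [Measure.smul_apply, restrict_apply hs, ENNReal.smul_def, smul_eq_mul]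
    refine le_trans ?_ ((h5 s hs).trans (measure_mono inter_subset_left))
    gcongr
    exact inter_subset_left

end haar

lemma avg {Ω : Type*} [MeasurableSpace Ω] (ν : Measure Ω) [IsFiniteMeasure ν] {S : Set Ω}
    (hS : MeasurableSet S) {D : ℕ → Set Ω} (hD : ∀ j, MeasurableSet (D j)) {δ : ℝ} (hδ : 0 < δ)
    (h : ∀ j, δ * ν.real S ≤ ν.real (S ∩ D j)) (h0 : 0 < ν.real S) (m : ℕ) :
    ∃ κ ⊆ Finset.range (m + 1), δ / 2 * (m + 1) ≤ κ.card ∧ ν {z | z ∈ S ∧ ∀ j ∈ κ, z ∈ D j} ≠ 0 := by
  by_contra hn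
  push Not at hn
  have h1 : ∀ᵐ z ∂ν, ∀ κ : Finset ℕ, κ ⊆ Finset.range (m + 1) → δ / 2 * (m + 1) ≤ κ.card →
      ¬ (z ∈ S ∧ ∀ j ∈ κ, z ∈ D j) := ae_all_iff.2 fun κ => by
    by_cases a : κ ⊆ Finset.range (m + 1)
    · by_cases b : δ / 2 * (m + 1) ≤ κ.card
      · filter_upwards [measure_eq_zero_iff_ae_notMem.1 (hn κ a b)] with z hz _ _ using hz
      · exact .of_forall fun z _ h => absurd h b
    · exact .of_forall fun z h => absurd h a
  have h2 : ∫ z, ∑ j ∈ Finset.range (m + 1), (S ∩ D j).indicator (1 : Ω → ℝ) z ∂ν ≤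
      ∫ z, S.indicator (fun _ => δ / 2 * (m + 1)) z ∂ν := by
    refine integral_mono_ae (integrable_finsetSum _ fun j _ =>
      (integrable_const 1).indicator (hS.inter (hD j))) ((integrable_const _).indicator hS) ?_
    filter_upwards [h1] with z hz
    by_cases hz' : z ∈ S
    · have := hz ((Finset.range (m + 1)).filter fun j => z ∈ D j) (Finset.filter_subset _ _)
      rw [indicator_of_mem hz']
      refine le_of_lt (lt_of_le_of_lt (le_of_eq ?_) (not_le.1 fun h => this h
        ⟨hz', fun j hj => (Finset.mem_filter.1 hj).2⟩))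
      rw [Finset.card_filter]
      push_cast
      refine Finset.sum_congr rfl fun j _ => ?_
      simp [indicator, hz']
    · simp [indicator, hz']
  rw [integral_finsetSum _ fun j _ => (integrable_const 1).indicator (hS.inter (hD j)),
    integral_indicator_const _ hS] at h2
  have h3 : ∑ j ∈ Finset.range (m + 1), δ * ν.real S ≤
      ∑ j ∈ Finset.range (m + 1), ∫ z, (S ∩ D j).indicator (1 : Ω → ℝ) z ∂ν :=
    Finset.sum_le_sum fun j _ => by
      rw [integral_indicator_one (hS.inter (hD j))]
      exact h j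
  simp only [Finset.sum_const, Finset.card_range, nsmul_eq_mul, smul_eq_mul] at h2 h3
  push_cast at h3
  have : 0 < δ * ν.real S * (m + 1) := by positivity
  nlinarith

end Pool.Agent.H61.Ban
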