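import Mathlib
import Pool.Agent.H61.BanC

set_option autoImplicit false

namespace Pool.Agent.H61.Ban

open Filter Topology Set MeasureTheory MeasureTheory.Measure Pool.Agent.H93.RecDefs
open scoped Classical ENNReal NNReal

section haar

variable {G : Type*} [NormedAddCommGroup G] [CompactSpace G] [MeasurableSpace G] [BorelSpace G]
  (l : Measure G) [l.IsAddHaarMeasure] [IsProbabilityMeasure l] (ι : ℤ →+ G)

/-- closure of the image of a set of integers -/
def cl (A : Set ℕ) : Set G := closure ((fun s : ℕ => ι s) '' A)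

/-- positions of a pattern -/
def pat (A : Set ℕ) (κ : Finset ℕ) : Set ℕ := {s | ∀ j ∈ κ, s + j ∈ A}

/-- the skew shift -/
def sh (p : G × (ℕ → Bool)) : G × (ℕ → Bool) := (ι 1 + p.1, fun j => p.2 (j + 1))

/-- data attached to a set of positive density -/
structure Side (A : Set ℕ) (μ : Measure (G × (ℕ → Bool))) (η : ℝ≥0) (E : Set G) : Prop where
  prob : IsProbabilityMeasure μ
  marg : μ.map Prod.fst = l
  mp : MeasurePreserving (sh ι) μ μ
  bad : ∀ κ : Finset ℕ, μ {p | (∀ j ∈ κ, p.2 j = true) ∧ p.1 ∉ cl ι (pat A κ)} = 0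
  pos : 0 < η
  meas : MeasurableSet E
  sub : E ⊆ cl ι A
  ne : l E ≠ 0
  le : η • l.restrict E ≤ (μ.restrict {p | p.2 0 = true}).map Prod.fst

omit [CompactSpace G] [MeasurableSpace G] [BorelSpace G] in
lemma cyl_open (κ : Finset ℕ) : IsOpen {p : G × (ℕ → Bool) | ∀ j ∈ κ, p.2 j = true} := by
  have : {p : G × (ℕ → Bool) | ∀ j ∈ κ, p.2 j = true} =
      ⋂ j ∈ κ, (fun p : G × (ℕ → Bool) => p.2 j) ⁻¹' {true} := by
    ext
    simp
  rw [this]
  exact isOpen_biInter_finset fun j _ => (isOpen_discrete _).preimage (by fun_prop)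

lemma exists_side (hι : DenseRange ι) {A : Set ℕ} (hA : BanPos A) : ∃ μ η E, Side l ι A μ η E := by
  let ω : G × (ℕ → Bool) := (0, fun j => decide (j ∈ A))
  have hσ : Continuous (sh ι) := by
    unfold sh
    fun_prop
  have hit : ∀ n : ℕ, (sh ι)^[n] ω = (ι n, fun j => decide (n + j ∈ A)) := fun n => by
    induction n with
    | zero => simp [ω]
    | succ n ih =>
      rw [Function.iterate_succ_apply', ih]
      simp only [sh, Nat.cast_add, Nat.cast_one, map_add, add_comm (ι 1), add_assoc, add_comm 1]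
  have hC : IsClopen {p : G × (ℕ → Bool) | p.2 0 = true} :=
    (isClopen_discrete {true}).preimage (f := fun p : G × (ℕ → Bool) => p.2 0) (by fun_prop)
  obtain ⟨μ, hμ, h1, h2, h3⟩ := corr' hσ ω hC.isClosed (ban_mono (fun n hn => by
    simpa [hit] using hn) hA)
  have := isProbabilityMeasure_map (μ := μ) (measurable_fst (α := G)).aemeasurable
  have h4 : μ.map Prod.fst = l := eq_haar l hι _ (by
    conv_rhs => rw [← h1.map_eq]
    rw [map_map (measurable_const_add _) measurable_fst, map_map measurable_fst h1.measurable]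
    rfl)
  have h5 : ∀ κ : Finset ℕ, μ {p | (∀ j ∈ κ, p.2 j = true) ∧ p.1 ∉ cl ι (pat A κ)} = 0 := fun κ => by
    by_contra hn
    obtain ⟨n, hn1, hn2⟩ := h3 _ ((cyl_open κ).inter
      (isClosed_closure.isOpen_compl.preimage continuous_fst)) hn
    rw [hit] at hn1 hn2
    exact hn2 (subset_closure ⟨n, fun j hj => by simpa using hn1 j hj, rfl⟩)
  have hm := hC.isOpen.measurableSet
  obtain ⟨η, hη, E, e1, e2, e3, e4⟩ := dens l ((μ.restrict {p | p.2 0 = true}).map Prod.fst)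
    (h4 ▸ Measure.map_mono restrict_le_self measurable_fst)
    (by rwa [map_apply measurable_fst .univ, preimage_univ, restrict_apply_univ])
    (P := cl ι A) isClosed_closure.measurableSet (by
      rw [map_apply (s := (cl ι A)ᶜ) measurable_fst isClosed_closure.measurableSet.compl,
        restrict_apply' hm]
      refine measure_mono_null (fun p hp => ?_) (h5 {0})
      refine ⟨by simpa using hp.2, ?_⟩
      rw [show pat A {0} = A by ext; simp [pat]]
      exact hp.1)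
  exact ⟨μ, η, E, hμ, h4, h1, h5, hη, e1, e2, e3, e4⟩

lemma cl_pos (hι : DenseRange ι) {A : Set ℕ} (hA : BanPos A) : l (cl ι A) ≠ 0 := by
  obtain ⟨μ, η, E, h⟩ := exists_side l ι hι hA
  exact fun h0 => h.ne (measure_mono_null h.sub h0)

lemma twoside {A B : Set ℕ} {μ ν : Measure (G × (ℕ → Bool))} {η θ : ℝ≥0} {E F : Set G}
    (hA : Side l ι A μ η E) (hB : Side l ι B ν θ F) {c : ℝ≥0} (hc : 0 < c) :
    ∃ δ : ℝ, 0 < δ ∧ ∀ N : Set G, IsOpen N → N.Nonempty → (∀ t ∈ N, c < cw l E F t) → ∀ m : ℕ,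
      ∃ κ ⊆ Finset.range (m + 1), δ * (m + 1) ≤ κ.card ∧
        ∃ u ∈ N, 0 < cw l (cl ι (pat A κ)) (cl ι (pat B κ)) u := by
  have := hA.prob
  have := hB.prob
  have hη := hA.pos
  have hθ := hB.pos
  refine ⟨(η * θ * c : ℝ≥0) / 2, by positivity, fun N hN hne hcN m => ?_⟩
  let π : (G × (ℕ → Bool)) × (G × (ℕ → Bool)) → G × G := Prod.map Prod.fst Prod.fst
  have hπ : Measurable π := measurable_fst.prodMap measurable_fst
  have hmap : (μ.prod ν).map π = l.prod l := by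
    rw [← map_prod_map _ _ measurable_fst measurable_fst, hA.marg, hB.marg]
  have hd := dd_meas (Q := univ) (P := univ) .univ .univ hN.measurableSet
  let D : ℕ → Set ((G × (ℕ → Bool)) × (G × (ℕ → Bool))) :=
    fun j => {p | p.2 j = true} ×ˢ {p | p.2 j = true}
  have hD0 : ∀ j, MeasurableSet {p : G × (ℕ → Bool) | p.2 j = true} := fun j => by
    simpa using (cyl_open (G := G) {j}).measurableSet
  have hD : ∀ j, MeasurableSet (D j) := fun j => (hD0 j).prod (hD0 j)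
  have h1 : μ.prod ν (π ⁻¹' dd univ univ N) = l N := by
    rw [← map_apply hπ hd, hmap, dd_eq l .univ .univ hN.measurableSet]
    simp [cw]
  have h2 : (η * θ * c : ℝ≥0) * l N ≤ μ.prod ν (π ⁻¹' dd univ univ N ∩ D 0) := by
    rw [← restrict_apply (hπ hd), ← prod_restrict, ← map_apply hπ hd,
      ← map_prod_map _ _ measurable_fst measurable_fst]
    refine le_trans ?_ (prod_mono hA.le hB.le _)
    rw [prod_smul_left, prod_smul_right, prod_restrict, Measure.smul_apply, Measure.smul_apply,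
      restrict_apply hd, show dd univ univ N ∩ E ×ˢ F = dd E F N by ext; simp [dd]; tauto,
      dd_eq l hA.meas hB.meas hN.measurableSet]
    simp only [ENNReal.smul_def, smul_eq_mul, ENNReal.coe_mul, mul_assoc]
    gcongr
    rw [← setLIntegral_const]
    exact setLIntegral_mono' hN.measurableSet fun t ht => (hcN t ht).le
  have h3 : ∀ j, μ.prod ν (π ⁻¹' dd univ univ N ∩ D j) = μ.prod ν (π ⁻¹' dd univ univ N ∩ D 0) :=
    fun j => by
    induction j with
    | zero => rfl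
    | succ j ih =>
      rw [← ih, ← (hA.mp.prod hB.mp).measure_preimage ((hπ hd).inter (hD j)).nullMeasurableSet]
      congr 1
      ext z
      simp [π, dd, D, sh]
  obtain ⟨κ, e1, e2, e3⟩ := avg (μ.prod ν) (hπ hd) hD (δ := (η * θ * c : ℝ≥0)) (by positivity)
    (fun j => by
      rw [Measure.real, Measure.real, h3, h1, ← ENNReal.coe_toReal, ← ENNReal.toReal_mul]
      exact ENNReal.toReal_mono (measure_ne_top _ _) h2)
    (by
      rw [Measure.real, h1]
      exact ENNReal.toReal_pos (hN.measure_ne_zero l hne) (measure_ne_top _ _)) m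
  have hcm : ∀ X : Set ℕ, MeasurableSet (cl ι X) := fun X => isClosed_closure.measurableSet
  refine ⟨κ, e1, e2, dd_pos l (hcm _) (hcm _) hN.measurableSet fun h0 => e3 ?_⟩
  rw [← hmap, map_apply hπ (dd_meas (hcm _) (hcm _) hN.measurableSet)] at h0
  have b1 : μ.prod ν ({p | (∀ j ∈ κ, p.2 j = true) ∧ p.1 ∉ cl ι (pat A κ)} ×ˢ univ) = 0 := by
    rw [prod_prod, hA.bad, zero_mul]
  have b2 : μ.prod ν (univ ×ˢ {p | (∀ j ∈ κ, p.2 j = true) ∧ p.1 ∉ cl ι (pat B κ)}) = 0 := by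
    rw [prod_prod, hB.bad, mul_zero]
  refine measure_mono_null (fun z hz => ?_) (measure_union_null h0 (measure_union_null b1 b2))
  by_cases a : z.1.1 ∈ cl ι (pat A κ)
  · by_cases b : z.2.1 ∈ cl ι (pat B κ)
    · exact Or.inl ⟨a, b, hz.1.2.2⟩
    · exact Or.inr (Or.inr ⟨trivial, fun j hj => (hz.2 j hj).2, b⟩)
  · exact Or.inr (Or.inl ⟨⟨fun j hj => (hz.2 j hj).1, a⟩, trivial⟩)

omit [CompactSpace G] [BorelSpace G] [l.IsAddHaarMeasure] [IsProbabilityMeasure l] in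
lemma diff_mem {X Y : Set ℕ} {t : G} (h : 0 < cw l (cl ι X) (cl ι Y) t) {O : Set G} (hO : IsOpen O)
    (ht : t ∈ O) : ∃ a ∈ X, ∃ b ∈ Y, ι b - ι a ∈ O := by
  obtain ⟨g, h1, h2⟩ := cw_ex l h
  have h3 := mk_mem_prod h1 h2
  rw [cl, cl, ← closure_prod_eq] at h3
  obtain ⟨⟨p, q⟩, h4, ⟨a, ha, h5⟩, ⟨b, hb, h6⟩⟩ := mem_closure_iff.1 h3 _
    (hO.preimage (continuous_snd.sub continuous_fst)) (by simpa using ht)
  simp only at h5 h6
  exact ⟨a, ha, b, hb, by rw [h5, h6]; exact h4⟩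

end haar

lemma Sys.ev {A : ℕ → Set ℕ} (hA : Sys A) {k a : ℕ} (ha : a ∈ A k) :
    ∀ᶠ k' in atTop, ∀ n ∈ A k', a + n ∈ A k := by
  obtain ⟨k', h⟩ := hA.op k a ha
  filter_upwards [eventually_ge_atTop k'] with j hj n hn using h n (hA.anti hj hn)

theorem star {A : ℕ → Set ℕ} (hA : Sys A) {Y : Type*} [PseudoMetricSpace Y] {S : Y → Y}
    (hS : Continuous S) {y : Y} (hy : y ∈ Rec BanPos S) (k : ℕ) {V : Set Y} (hV : IsOpen V)
    {b₁ : ℕ} (hb₁ : S^[b₁] y ∈ V) : ∃ (b₀ i : ℕ) (δ : ℝ), 0 < δ ∧ S^[b₀] y ∈ V ∧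
      ∀ (k' : ℕ) (V' : Set Y), IsOpen V' → ∀ b' : ℕ, S^[b'] y ∈ V' →
      dist (S^[b'] y) (S^[b₀] y) < 1 / ((i : ℝ) + 1) → ∀ m : ℕ, ∃ a ∈ A k', ∃ b : ℕ,
      S^[b] y ∈ V' ∧ ∃ s, δ * (m + 1) ≤ card {n | a + n ∈ A k ∧ S^[b + n] y ∈ V} s m := by
  choose ρ hρ ε hε hL using fun k => L1 (hA.ban k)
  obtain ⟨G, _, _, ι, hι, hG⟩ := exists_grp ρ hρ
  let _ : MeasurableSpace G := borel G
  have : BorelSpace G := ⟨rfl⟩
  let l : Measure G := addHaarMeasure ⊤
  have : IsProbabilityMeasure l := ⟨addHaarMeasure_self (K₀ := ⊤)⟩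
  have hcm : ∀ X : Set ℕ, MeasurableSet (cl ι X) := fun X => isClosed_closure.measurableSet
  have hcl : ∀ (X : Set ℕ) (N : Set G), IsClosed N → (∀ n ∈ X, ι n ∈ N) → cl ι X ⊆ N :=
    fun X N hN h => closure_minimal (by rintro _ ⟨n, hn, rfl⟩; exact h n hn) hN
  obtain ⟨ν, θ, F, hB⟩ := exists_side l ι hι (A := {n | S^[n] y ∈ V})
    (ban_mono (fun n hn => hn.1) (visit hS hy ι hV isOpen_univ hb₁ trivial))
  obtain ⟨N₀, n1, n2, n3⟩ := exists_mem_nhds_isClosed_subset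
    ((cw_open l F hB.meas 0).mem_nhds (x := 0) (by simpa [cw, pos_iff_ne_zero] using hB.ne))
  obtain ⟨μ, η, E, hE⟩ := exists_side l ι hι (hA.zero ι k n1)
  obtain ⟨t₀, t1, t2⟩ := align l hE.meas hB.meas hE.ne fun g hg =>
    n3 (hcl _ _ n2 (fun n hn => hn.2) (hE.sub hg))
  obtain ⟨c, c1, c2⟩ := ENNReal.lt_iff_exists_nnreal_btwn.1 t2
  obtain ⟨δ, hδ, h2⟩ := twoside l ι hE hB (ENNReal.coe_pos.1 c1)
  have hN := cw_open l E hB.meas c
  obtain ⟨_, h3, b₀, hb₀, rfl⟩ := mem_closure_iff.1 (hB.sub t1) _ hN c2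
  obtain ⟨N1, u1, N2, u2, u3⟩ := mem_nhds_prod_iff.1
    ((hN.preimage continuous_sub).mem_nhds (x := (ι b₀, 0)) (by simpa using h3))
  obtain ⟨N1', v1, v2, v3⟩ := exists_mem_nhds_isClosed_subset u1
  obtain ⟨N2', w1, w2, w3⟩ := exists_mem_nhds_isClosed_subset u2
  obtain ⟨i, hi⟩ := coset hS hy ι b₀ isOpen_interior (mem_interior_iff_mem_nhds.2 v1)
  refine ⟨b₀, i, δ, hδ, hb₀, fun k' V' hV' b' hb' hd m => ?_⟩
  obtain ⟨u₀, hu₀⟩ := cw_pos l (hcm _) (hcm _) (cl_pos l ι hι (hA.zero ι k' w1))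
    (cl_pos l ι hι (hi b' hd V' hV' hb'))
  obtain ⟨κ, k1, k2, u, k3, k4⟩ := h2 _ (cw_open l _ (hcm _) 0) ⟨u₀, hu₀⟩ (fun t ht => by
    obtain ⟨g, g1, g2⟩ := cw_ex l ht
    have := u3 (mk_mem_prod (v3 (hcl _ _ v2 (fun n hn => interior_subset hn.2) g2))
      (w3 (hcl _ _ w2 (fun n hn => hn.2) g1)))
    simpa using this) m
  obtain ⟨t, f1, f2⟩ := four l (hcm _) (hcm _) (hcm _) (hcm _) k3 k4
  obtain ⟨a, ha, α, hα, f3⟩ := diff_mem l ι f1 (cw_open l _ (hcm _) 0) f2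
  obtain ⟨j, j1, j2⟩ := ((hA.ev ha.1).and ((eventually_all_finset κ).2
    fun j hj => hA.ev (hα j hj).1)).exists
  obtain ⟨N, x1, x2⟩ := hG j _ (hε j)
  obtain ⟨b, hb, β, hβ, f4⟩ := diff_mem l ι f3
    (isOpen_interior.preimage (continuous_sub_right (ι α - ι a)))
    (by simpa using mem_interior_iff_mem_nhds.2 x1)
  have hO : S^[b] ⁻¹' V' ∩ ⋂ j ∈ κ, S^[β + j] ⁻¹' V ∈ 𝓝 y :=
    inter_mem ((hV'.preimage (hS.iterate _)).mem_nhds hb.1)
      ((biInter_finset_mem κ).2 fun j hj => (hV.preimage (hS.iterate _)).mem_nhds (hβ j hj))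
  obtain ⟨r, hr, r', hr', s, hs, s', hs', e1, e2⟩ := hL j (β - b - (α - a))
    (x2 _ (by simpa only [map_sub] using interior_subset f4)) _ (hy _ hO) b
  obtain ⟨σ, hσ⟩ : ∃ σ : ℕ, b + s' + σ = β + s := ⟨β + s - (b + s'), by omega⟩
  refine ⟨a + r', j1 _ hr', b + s', by rw [Function.iterate_add_apply]; exact hs'.1, σ,
    k2.trans ?_⟩
  rw [card_eq]
  refine Nat.cast_le.2 (Finset.card_le_card fun n hn => ?_)
  simp only [Finset.mem_filter, mem_ofPred_eq]
  refine ⟨k1 hn, ?_, ?_⟩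
  · rw [show a + r' + (σ + n) = α + n + r by omega]
    exact j2 n hn r hr
  · rw [show b + s' + (σ + n) = β + n + s by omega, Function.iterate_add_apply]
    exact mem_iInter₂.1 hs.2 n hn

end Pool.Agent.H61.Ban
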