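import Mathlib
import Pool.Agent.H61.BanD
import Pool.Agent.H93.RecCor

set_option autoImplicit false

namespace Pool.Agent.H61.Ban

open Filter Topology Set Pool.Agent.H93.RecDefs Function
open scoped Classical

lemma card_mono {A B : Set ℕ} (h : A ⊆ B) (m N : ℕ) : card A m N ≤ card B m N :=
  Nat.cast_le.2 (ncard_le_ncard (inter_subset_inter_left _ h) ((finite_Icc _ _).inter_of_right _))

lemma open_card {Z : Type*} [TopologicalSpace Z] {P : ℕ → Set Z} (hP : ∀ n, IsOpen (P n))
    (c : ℝ) (N : ℕ) : IsOpen {z | ∃ m, c ≤ card {n | z ∈ P n} m N} := by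
  refine isOpen_iff_mem_nhds.2 (fun y ⟨m, hm⟩ => ?_)
  filter_upwards [(eventually_all_finite ((finite_Icc m (m + N)).inter_of_right
    {n | y ∈ P n})).2 (fun n hn => (hP n).mem_nhds hn.1)] with z hz
  exact ⟨m, hm.trans (Nat.cast_le.2 (ncard_le_ncard (fun n hn => ⟨hz n hn, hn.2⟩)
    ((finite_Icc _ _).inter_of_right _)))⟩

lemma res_closed {Z : Type*} [TopologicalSpace Z] {C : Set Z} (hC : IsClosed C) :
    Cᶜ ∪ interior C ∈ residual Z := by
  refine residual_of_dense_open (hC.isOpen_compl.union isOpen_interior)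
    (dense_iff_inter_open.2 fun U hU ⟨z, hz⟩ => ?_)
  by_cases h : U ⊆ C
  · exact ⟨z, hz, Or.inr (interior_maximal h hU hz)⟩
  · obtain ⟨w, h1, h2⟩ := not_subset.1 h
    exact ⟨w, h1, Or.inl h2⟩

lemma BL {Z : Type*} [TopologicalSpace Z] {G : ℕ → ℕ → Set Z} (hG : ∀ k m, IsOpen (G k m))
    (h : ∀ O, IsOpen O → O.Nonempty → ∃ k O', IsOpen O' ∧ O'.Nonempty ∧ O' ⊆ O ∧
      ∀ m, O' ⊆ closure (G k m)) : {z | ∃ k, ∀ m, z ∈ G k m} ∈ residual Z := by
  let V : ℕ → Set Z := fun k => interior (⋂ m, closure (G k m))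
  have h1 : (⋃ k, V k) ∈ residual Z :=
    residual_of_dense_open (isOpen_iUnion fun k => isOpen_interior)
      (dense_iff_inter_open.2 fun O hO hne => by
        obtain ⟨k, O', a, ⟨z, hz⟩, b, c⟩ := h O hO hne
        exact ⟨z, b hz, mem_iUnion.2 ⟨k, interior_maximal (subset_iInter c) a hz⟩⟩)
  have h2 : ∀ k m, G k m ∪ (closure (V k))ᶜ ∈ residual Z := fun k m =>
    residual_of_dense_open ((hG k m).union isClosed_closure.isOpen_compl)
      (dense_iff_inter_open.2 fun U hU ⟨z, hz⟩ => by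
        by_cases a : z ∈ closure (V k)
        · obtain ⟨w, b, c⟩ := mem_closure_iff.1 a U hU hz
          obtain ⟨v, d, e⟩ := mem_closure_iff.1 (mem_iInter.1 (interior_subset c) m) U hU b
          exact ⟨v, d, Or.inl e⟩
        · exact ⟨z, hz, Or.inr a⟩)
  filter_upwards [h1, eventually_countable_forall.2 fun k => eventually_countable_forall.2 (h2 k)]
    with z hz hz'
  obtain ⟨k, hk⟩ := mem_iUnion.1 hz
  exact ⟨k, fun m => (hz' k m).resolve_right (not_not.2 (subset_closure hk))⟩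

section main

variable {ι X : Type*} [MetricSpace X] (T : X → X) (x : ι → X)

/-- orbit closure -/
def oc (i : ι) : Set X := closure (range fun n => T^[n] (x i))

/-- return times of finitely many coordinates -/
def ret (z : ∀ i, oc T x i) (F : Finset ι) (k : ℕ) : Set ℕ :=
  {n | ∀ i ∈ F, dist (T^[n] (z i)) (z i) < 1 / ((k : ℝ) + 1)}

variable {T x}

lemma oc_orb (i : ι) (n : ℕ) : T^[n] (x i) ∈ oc T x i := subset_closure ⟨n, rfl⟩

lemma oc_it (hT : Continuous T) {i : ι} (z : oc T x i) (n : ℕ) : T^[n] z ∈ oc T x i :=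
  MapsTo.closure (f := T^[n]) (by
    rintro _ ⟨a, rfl⟩
    exact ⟨n + a, iterate_add_apply _ _ _ _⟩) (hT.iterate n) z.2

lemma ret_sys (hT : Continuous T) {z : ∀ i, oc T x i} {F : Finset ι}
    (h : ∀ k, BanPos (ret T x z F k)) : Sys (ret T x z F) := by
  refine ⟨h, fun k l hkl n hn i hi => (hn i hi).trans_le (Nat.one_div_le_one_div hkl),
    fun k a ha => ?_⟩
  have : ∀ i ∈ F, ∀ᶠ k' : ℕ in atTop, ∀ w, dist w (z i : X) < 1 / ((k' : ℝ) + 1) →
      dist (T^[a] w) (z i) < 1 / ((k : ℝ) + 1) := fun i hi => by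
    obtain ⟨ε, hε, h1⟩ := Metric.mem_nhds_iff.1 ((hT.iterate a).continuousAt.preimage_mem_nhds
      (Metric.isOpen_ball.mem_nhds (Metric.mem_ball.2 (ha i hi))))
    filter_upwards [tendsto_one_div_add_atTop_nhds_zero_nat (𝕜 := ℝ) (Iio_mem_nhds hε)]
      with k' hk' w hw
    exact h1 (Metric.mem_ball.2 (hw.trans hk'))
  obtain ⟨k', hk'⟩ := ((eventually_all_finset F).2 this).exists
  exact ⟨k', fun n hn i hi => by rw [iterate_add_apply]; exact hk' i hi _ (hn i hi)⟩

lemma ret_open (hT : Continuous T) (F : Finset ι) (k n : ℕ) :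
    IsOpen {z : ∀ i, oc T x i | n ∈ ret T x z F k} := by
  have : {z : ∀ i, oc T x i | n ∈ ret T x z F k} =
      ⋂ i ∈ F, {z | dist (T^[n] (z i)) (z i) < 1 / ((k : ℝ) + 1)} := by
    ext
    simp [ret]
  rw [this]
  have hc : ∀ i, Continuous fun z : ∀ i, oc T x i => (z i : X) := fun i =>
    continuous_subtype_val.comp (continuous_apply i)
  exact isOpen_biInter_finset fun i _ =>
    isOpen_lt (((hT.iterate n).comp (hc i)).dist (hc i)) continuous_const

lemma good (hT : Continuous T) {j : ι} (hx : x j ∈ Rec BanPos T) {F : Finset ι}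
    {z : ∀ i, oc T x i} (hz : ∀ k, BanPos (ret T x z F k)) (k : ℕ) {V : Set X} (hV : IsOpen V)
    (hV' : ∀ a ∈ V, ∀ b ∈ V, dist a b < 1 / ((k : ℝ) + 1)) {b₁ : ℕ} (hb₁ : T^[b₁] (x j) ∈ V) :
    ∃ b₀ i q : ℕ, T^[b₀] (x j) ∈ V ∧ ∀ y : oc T x j, dist (y : X) (T^[b₀] (x j)) < 1 / ((i : ℝ) + 1) →
      (y : X) ∈ V → ∀ m : ℕ, update z j y ∈ closure {w : ∀ i, oc T x i | ∃ s,
        1 / ((q : ℝ) + 1) * (m + 1) ≤ card {n | n ∈ ret T x w (insert j F) k} s m} := by
  obtain ⟨b₀, i, δ, hδ, h1, h2⟩ := star (ret_sys hT hz) hT hx (2 * k + 1) hV hb₁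
  obtain ⟨q, hq⟩ := exists_nat_one_div_lt hδ
  refine ⟨b₀, i, q, h1, fun y y1 y2 m => ?_⟩
  have h3 : ∀ k' : ℕ, ∃ a ∈ ret T x z F (max k' (2 * k + 1)), ∃ b : ℕ,
      T^[b] (x j) ∈ Metric.ball (y : X) (1 / ((k' : ℝ) + 1)) ∩ V ∧ ∃ s, δ * (m + 1) ≤
        card {n | a + n ∈ ret T x z F (2 * k + 1) ∧ T^[b + n] (x j) ∈ V} s m := fun k' => by
    obtain ⟨_, ⟨e1, e2⟩, b', rfl⟩ := mem_closure_iff.1 y.2 _
      (((Metric.isOpen_ball (x := (y : X)) (ε := 1 / ((k' : ℝ) + 1))).inter hV).inter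
        Metric.isOpen_ball) ⟨⟨Metric.mem_ball_self Nat.one_div_pos_of_nat, y2⟩, Metric.mem_ball.2 y1⟩
    exact h2 _ _ (Metric.isOpen_ball.inter hV) b' e1 (Metric.mem_ball.1 e2) m
  choose a ha b hb s hs using h3
  have h0 := tendsto_one_div_add_atTop_nhds_zero_nat (𝕜 := ℝ)
  refine mem_closure_of_tendsto (b := atTop) (f := fun k' => update
    (fun i => if i ∈ F then (⟨T^[a k'] (z i), oc_it hT _ _⟩ : oc T x i) else z i) j
    ⟨T^[b k'] (x j), oc_orb _ _⟩) (tendsto_pi_nhds.2 fun i => ?_) (.of_forall fun k' => ?_)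
  · by_cases hi : i = j
    · subst hi
      simp only [update_self]
      exact tendsto_iff_dist_tendsto_zero.2 (squeeze_zero (fun _ => dist_nonneg)
        (fun k' => (Metric.mem_ball.1 (hb k').1).le) h0)
    · simp only [update_of_ne hi]
      by_cases hF : i ∈ F
      · simp only [if_pos hF]
        exact tendsto_iff_dist_tendsto_zero.2 (squeeze_zero (fun _ => dist_nonneg)
          (fun k' => (ha k' i hF).le.trans (Nat.one_div_le_one_div (le_max_left _ _))) h0)
      · simp only [if_neg hF]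
        exact tendsto_const_nhds
  · refine ⟨s k', le_trans (le_trans (by gcongr) (hs k')) (card_mono (fun n hn => ?_) _ _)⟩
    intro i hi
    by_cases hj : i = j
    · subst hj
      simp only [update_self, ← iterate_add_apply, add_comm n]
      exact hV' _ hn.2 _ (hb k').2
    · have hF : i ∈ F := (Finset.mem_insert.1 hi).resolve_left hj
      simp only [update_of_ne hj, if_pos hF, ← iterate_add_apply, add_comm n]
      have e1 := hn.1 i hF
      have e2 := (ha k' i hF).trans_le (Nat.one_div_le_one_div (le_max_right _ _))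
      have e3 := dist_triangle_right (T^[a k' + n] (z i)) (T^[a k'] (z i)) (z i)
      have e4 : 1 / (((2 * k + 1 : ℕ) : ℝ) + 1) = 1 / ((k : ℝ) + 1) / 2 := by
        push_cast
        field_simp
        ring
      linarith

lemma step [BaireSpace (∀ i, oc T x i)] (hT : Continuous T) {j : ι} (hx : x j ∈ Rec BanPos T)
    {F : Finset ι} (h : ∀ᶠ z in residual (∀ i, oc T x i), ∀ k, BanPos (ret T x z F k)) :
    ∀ᶠ z in residual (∀ i, oc T x i), ∀ k, BanPos (ret T x z (insert j F) k) := by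
  refine eventually_countable_forall.2 fun k => ?_
  let G : ℕ → ℕ → Set (∀ i, oc T x i) := fun q m => {w | ∃ s,
    1 / ((q : ℝ) + 1) * (m + 1) ≤ card {n | n ∈ ret T x w (insert j F) k} s m}
  refine mem_of_superset (BL (G := G) (fun q m => open_card (ret_open hT _ k) _ _)
    fun O hO ⟨z₀, hz₀⟩ => ?_) fun z ⟨q, hq⟩ => ⟨_, Nat.one_div_pos_of_nat, hq⟩
  have hu : Continuous fun p : (∀ i, oc T x i) × oc T x j => update p.1 j p.2 :=
    continuous_fst.update j continuous_snd
  obtain ⟨O₁, V₁, o1, o2, o3, o4, o5⟩ := isOpen_prod_iff.1 (hO.preimage hu) z₀ (z₀ j)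
    (by simpa using hz₀)
  obtain ⟨r, hr, o6⟩ := Metric.isOpen_iff.1 o2 _ o4
  have hk : (0 : ℝ) < 1 / ((k : ℝ) + 1) := Nat.one_div_pos_of_nat
  let V : Set X := Metric.ball (z₀ j : X) (min r (1 / ((k : ℝ) + 1) / 2))
  obtain ⟨_, hb₁, b₁, rfl⟩ := mem_closure_iff.1 (z₀ j).2 V Metric.isOpen_ball
    (Metric.mem_ball_self (by positivity))
  let C : ℕ → ℕ → ℕ → Set (∀ i, oc T x i) := fun b₀ i q => {z | ∀ y : oc T x j,
    dist (y : X) (T^[b₀] (x j)) < 1 / ((i : ℝ) + 1) → (y : X) ∈ V → ∀ m,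
      update z j y ∈ closure (G q m)}
  have hC : ∀ b₀ i q, IsClosed (C b₀ i q) := fun b₀ i q => by
    simp only [C, ofPred_forall]
    exact isClosed_iInter fun y => isClosed_iInter fun _ => isClosed_iInter fun _ =>
      isClosed_iInter fun m => isClosed_closure.preimage (continuous_id.update j continuous_const)
  obtain ⟨z, z1, z2, z3⟩ := (dense_of_mem_residual (h.and (eventually_countable_forall.2 fun b₀ =>
    eventually_countable_forall.2 fun i => eventually_countable_forall.2 fun q =>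
      res_closed (hC b₀ i q)))).inter_open_nonempty _ o1 ⟨z₀, o3⟩
  obtain ⟨b₀, i, q, g1, g2⟩ := good hT hx z2 k (V := V) Metric.isOpen_ball (fun a ha b hb => by
    have e1 := (Metric.mem_ball.1 ha).trans_le (min_le_right _ _)
    have e2 := (Metric.mem_ball.1 hb).trans_le (min_le_right _ _)
    linarith [dist_triangle_right a b (z₀ j)]) hb₁
  have g3 := (z3 b₀ i q).resolve_left (not_not.2 g2)
  have hc : Continuous fun z : ∀ i, oc T x i => (z j : X) :=
    continuous_subtype_val.comp (continuous_apply j)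
  refine ⟨q, (fun w => update w j (z j)) ⁻¹' (O₁ ∩ interior (C b₀ i q)) ∩
    (fun w => (w j : X)) ⁻¹' (Metric.ball (T^[b₀] (x j)) (1 / ((i : ℝ) + 1)) ∩ V),
    ((o1.inter isOpen_interior).preimage (continuous_id.update j continuous_const)).inter
      ((Metric.isOpen_ball.inter Metric.isOpen_ball).preimage hc),
    ⟨update z j ⟨_, oc_orb j b₀⟩, by simpa using ⟨z1, g3⟩, by
      simp only [mem_preimage, update_self]
      exact ⟨Metric.mem_ball_self Nat.one_div_pos_of_nat, g1⟩⟩, fun w hw => ?_, fun m w hw => ?_⟩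
  · have := o5 (mk_mem_prod hw.1.1 (o6 (show w j ∈ Metric.ball (z₀ j) r from
      (Metric.mem_ball.1 hw.2.2).trans_le (min_le_left _ _))))
    simpa using this
  · have := interior_subset hw.1.2 (w j) hw.2.1 hw.2.2 m
    simpa using this

end main

universe u

theorem joint_ban : H93.Joint.{u} BanPos := by
  intro ι _ X _ _ T hT x hx
  have : ∀ i, TopologicalSpace.IsCompletelyMetrizableSpace (oc T x i) := fun i =>
    isClosed_closure.isCompletelyMetrizableSpace
  have h1 : ∀ F : Finset ι, ∀ᶠ z in residual (∀ i, oc T x i), ∀ k, BanPos (ret T x z F k) :=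
    fun F => by
    induction F using Finset.induction_on with
    | empty => exact .of_forall fun z k => ban_mono (fun n _ i hi => by simp at hi) ban_univ
    | insert j F _ ih => exact step hT (hx j) ih
  have h2 : ∀ i (k : ℕ), ∀ᶠ z in residual (∀ i, oc T x i),
      ∃ n, dist (T^[n] (z i)) (x i) < 1 / ((k : ℝ) + 1) := fun i k => by
    refine residual_of_dense_open ?_ (dense_iff_inter_open.2 fun O hO ⟨z, hz⟩ => ?_)
    · simp only [ofPred_exists]
      exact isOpen_iUnion fun n => isOpen_lt (((hT.iterate n).comp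
        (continuous_subtype_val.comp (continuous_apply i))).dist continuous_const) continuous_const
    · obtain ⟨U, hU, e⟩ := isOpen_induced_iff.1
        (hO.preimage (continuous_const.update i continuous_id : Continuous (update z i)))
      have h3 : z i ∈ update z i ⁻¹' O := by simpa using hz
      rw [← e] at h3
      obtain ⟨_, h4, b, rfl⟩ := mem_closure_iff.1 (z i).2 U hU h3
      obtain ⟨n, n1, n2⟩ := ban_inf (hx i _ (Metric.ball_mem_nhds (x i)
        (Nat.one_div_pos_of_nat (n := k)))) b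
      obtain ⟨n, rfl⟩ := Nat.exists_eq_add_of_le' n2
      refine ⟨update z i ⟨_, oc_orb i b⟩, ?_, n, ?_⟩
      · change (⟨_, oc_orb i b⟩ : oc T x i) ∈ update z i ⁻¹' O
        rw [← e]
        exact h4
      · simp only [update_self, ← iterate_add_apply]
        exact n1
  have : Nonempty (∀ i, oc T x i) := ⟨fun i => ⟨_, oc_orb i 0⟩⟩
  obtain ⟨z, z1, z2⟩ := (dense_of_mem_residual ((eventually_countable_forall.2 h1).and
    (eventually_countable_forall.2 fun i => eventually_countable_forall.2 (h2 i)))).nonempty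
  refine ⟨fun i => z i, fun U hU => ?_, fun i => Metric.mem_closure_iff.2 fun ε hε => ?_⟩
  · rw [nhds_pi, Filter.mem_pi] at hU
    obtain ⟨I, hI, t, ht, hU⟩ := hU
    have : ∀ i ∈ hI.toFinset, ∀ᶠ k : ℕ in atTop, Metric.ball (z i : X) (1 / ((k : ℝ) + 1)) ⊆ t i :=
      fun i _ => by
      obtain ⟨ε, hε, h⟩ := Metric.mem_nhds_iff.1 (ht i)
      filter_upwards [tendsto_one_div_add_atTop_nhds_zero_nat (𝕜 := ℝ) (Iic_mem_nhds hε)]
        with k hk using (Metric.ball_subset_ball hk).trans h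
    obtain ⟨k, hk⟩ := ((eventually_all_finset _).2 this).exists
    refine ban_mono (fun n hn => hU fun i hi => ?_) (z1 hI.toFinset k)
    have e : ∀ (n : ℕ) (v : ι → X), (fun (v : ι → X) i => T (v i))^[n] v i = T^[n] (v i) :=
      fun n => by
      induction n with
      | zero => simp
      | succ n ih => intro v; rw [iterate_succ_apply, ih, iterate_succ_apply]
    rw [e]
    exact hk i (hI.mem_toFinset.2 hi) (hn i (hI.mem_toFinset.2 hi))
  · obtain ⟨k, hk⟩ := exists_nat_one_div_lt hε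
    obtain ⟨n, hn⟩ := z2 i k
    exact ⟨_, ⟨n, rfl⟩, by rw [dist_comm]; exact hn.trans hk⟩

end Pool.Agent.H61.Ban
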