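import Pool.Agent.H61.BigC
import Pool.Agent.H49.SelExs
import Pool.Agent.Lead.Sel.Exo
import Pool.Agent.Lead.Sel.Rs

/- The formal exponential: exponential law, twists, and the random background. -/

set_option autoImplicit false
open Filter Topology ArithmeticFunction

namespace Pool.Agent.H61.Big
open Pool.Agent.Lead.Sel

noncomputable def axp (c : ArithmeticFunction ℝ) : ArithmeticFunction ℝ := ⟨aexp c, aexp_zero c⟩

theorem axp_apply (c : ArithmeticFunction ℝ) (n : ℕ) : axp c n = aexp c n := rfl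

theorem ls_eq {f : ℕ → ℝ} (hf0 : f 0 = 0) (s : ℂ) :
    LSeries (fun n => (f n : ℂ)) s = ∑' n, (f n : ℂ) * (n : ℂ) ^ (-s) := by
  simpa using lseries_shift hf0 0 s

theorem ls_axp {σ M : ℝ} {c : ArithmeticFunction ℝ} (hc : Nle σ c M) {s : ℂ} (hs : σ ≤ s.re) :
    LSeriesSummable (fun n => (axp c n : ℂ)) s ∧ LSeriesSummable (fun n => (c n : ℂ)) s ∧
      LSeries (fun n => (axp c n : ℂ)) s = Complex.exp (LSeries (fun n => (c n : ℂ)) s) := by
  refine ⟨(Pool.Agent.H49.Sel.lseries_bdd (aexp_summable hc) hs).1,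
    (Pool.Agent.H49.Sel.lseries_bdd hc.1 hs).1, ?_⟩
  rw [ls_eq (axp c).map_zero, ls_eq c.map_zero]
  exact aexp_series hc s hs

theorem axp_add {σ M M' : ℝ} {c c' : ArithmeticFunction ℝ} (hc : Nle σ c M) (hc' : Nle σ c' M') :
    axp (c + c') = axp c * axp c' := by
  have hcc := hc.add hc'
  have hσ : σ ≤ ((σ : ℝ) : ℂ).re := by simp
  ext n
  rcases eq_or_ne n 0 with rfl | hn
  · simp
  have := LSeries.eq_of_LSeries_eventually_eq (f := fun n => (axp (c + c') n : ℂ))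
    (g := LSeries.convolution (fun n => (axp c n : ℂ)) (fun n => (axp c' n : ℂ)))
    ((ls_axp hcc hσ).1.abscissaOfAbsConv_le.trans_lt (EReal.coe_lt_top _))
    (((ls_axp hc hσ).1.convolution (ls_axp hc' hσ).1).abscissaOfAbsConv_le.trans_lt
      (EReal.coe_lt_top _))
    (by
      filter_upwards [eventually_ge_atTop σ] with x hx
      have hx' : σ ≤ (x : ℂ).re := by simpa using hx
      rw [LSeries_convolution' (ls_axp hc hx').1 (ls_axp hc' hx').1, (ls_axp hcc hx').2.2,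
        (ls_axp hc hx').2.2, (ls_axp hc' hx').2.2, ← Complex.exp_add,
        ← LSeries_add (ls_axp hc hx').2.1 (ls_axp hc' hx').2.1]
      congr 2
      funext n
      simp) hn
  rw [LSeries.convolution_def] at this
  rw [ArithmeticFunction.mul_apply]
  beta_reduce at this
  exact_mod_cast this

theorem axp_zero : axp 0 = 1 := by
  ext n
  rw [axp_apply, aexp, tsum_eq_single 0]
  · simp
  · intro k hk
    simp [zero_pow hk]

def tw (φ : ℕ → ℝ) (c : ArithmeticFunction ℝ) : ArithmeticFunction ℝ :=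
  ⟨fun n => φ n * c n, by simp⟩

theorem tw_apply (φ : ℕ → ℝ) (c : ArithmeticFunction ℝ) (n : ℕ) : tw φ c n = φ n * c n := rfl

theorem aexp_tw {φ : ℕ → ℝ} (h1 : φ 1 = 1) (hm : ∀ m n, m ≠ 0 → n ≠ 0 → φ (m * n) = φ m * φ n)
    (c : ArithmeticFunction ℝ) (n : ℕ) : aexp (tw φ c) n = φ n * aexp c n := by
  have hp : ∀ k n, (tw φ c ^ k) n = φ n * (c ^ k) n := by
    intro k
    induction k with
    | zero =>
      intro n
      rcases eq_or_ne n 1 with rfl | hn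
      · simp [h1]
      · simp [ArithmeticFunction.one_apply_ne hn]
    | succ k ih =>
      intro n
      rw [pow_succ, pow_succ, ArithmeticFunction.mul_apply, ArithmeticFunction.mul_apply,
        Finset.mul_sum]
      refine Finset.sum_congr rfl fun q hq => ?_
      rw [ih, tw_apply, ← (Nat.mem_divisorsAntidiagonal.1 hq).1,
        hm _ _ (Nat.left_ne_zero_of_mem_divisorsAntidiagonal hq)
          (Nat.right_ne_zero_of_mem_divisorsAntidiagonal hq)]
      ring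
  unfold aexp
  rw [← tsum_mul_left]
  congr 1; funext k
  rw [hp]; ring

theorem aexp_gap {c : ArithmeticFunction ℝ} {Y : ℕ} (h : ∀ n, n < Y → c n = 0) {n : ℕ} (hn : n < Y)
    (h1 : n ≠ 1) : aexp c n = 0 := by
  have hp : ∀ k, (c ^ k) n = 0 := by
    intro k
    cases k with
    | zero => simp [ArithmeticFunction.one_apply_ne h1]
    | succ k =>
      rw [pow_succ', ArithmeticFunction.mul_apply]
      refine Finset.sum_eq_zero fun q hq => ?_
      rw [h q.1 ((Nat.divisor_le (Nat.fst_mem_divisors_of_mem_antidiagonal hq)).trans_lt hn),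
        zero_mul]
  simp [aexp, hp]

theorem nle_of_bd {f : ArithmeticFunction ℝ} {C θ σ : ℝ}
    (h : ∀ n : ℕ, 1 ≤ n → |f n| ≤ C * (n : ℝ) ^ θ) (hσ : θ + 1 < σ) : ∃ M, Nle σ f M := by
  refine ⟨_, ?_, le_rfl⟩
  have hs := (Real.summable_nat_rpow.2 (by linarith : θ - σ < -1)).mul_left C
  refine Summable.of_norm_bounded hs fun n => ?_
  rw [Real.norm_eq_abs, abs_of_nonneg (wt_nonneg _ _ _), wt]
  rcases Nat.eq_zero_or_pos n with rfl | hn
  · have : θ - σ ≠ 0 := by linarith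
    simp [this]
  · have hn' : (0 : ℝ) < n := by exact_mod_cast hn
    rw [sub_eq_add_neg, Real.rpow_add hn', ← mul_assoc]
    exact mul_le_mul_of_nonneg_right (h n hn) (by positivity)

theorem log_small {ε : ℝ} (hε : 0 < ε) :
    ∃ Y : ℕ, ∀ n : ℕ, Y ≤ n → Real.log n + 1 ≤ (n : ℝ) ^ ε := by
  have h1 := (isLittleO_log_rpow_atTop hε).bound (by norm_num : (0 : ℝ) < 1 / 2)
  have h2 := (tendsto_rpow_atTop hε).eventually_ge_atTop 2
  obtain ⟨Y, hY⟩ := eventually_atTop.1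
    (tendsto_natCast_atTop_atTop.eventually (h1.and h2))
  refine ⟨Y, fun n hn => ?_⟩
  obtain ⟨a1, a2⟩ := hY n hn
  rw [Real.norm_eq_abs, Real.norm_eq_abs, abs_of_nonneg (by positivity : 0 ≤ (n : ℝ) ^ ε)] at a1
  linarith [le_abs_self (Real.log n)]

/-- the random background -/
def Bg (γ : ℝ) (w : ArithmeticFunction ℝ) : Prop :=
  ∃ (g : ArithmeticFunction ℝ) (y : ℕ), w = axp g ∧ (∀ n, ¬ n.Prime → g n = 0) ∧
    (∀ n : ℕ, |g n| ≤ Real.log n * (n : ℝ) ^ (-γ)) ∧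
    ∀ p : ℕ, p.Prime → y ≤ p → |g p| = Real.log p * (p : ℝ) ^ (-γ)

theorem provider {d : ℝ} (hd : 4 ≤ d) : ∃ k2 : ℕ, ∀ k0, k2 ≤ k0 →
    ∃ w v : ArithmeticFunction ℝ, Good ((2 : ℝ) ^ (1 / d)) k0 w ∧
      Good ((2 : ℝ) ^ (1 / d)) k0 v ∧ v * w = 1 ∧ Bg (1 / 2 - 1 / (2 * d)) w := by
  have hd0 : 0 < d := by linarith
  obtain ⟨Y, hY⟩ := log_small (ε := 1 / (2 * d)) (by positivity)
  refine ⟨Y + 1, fun k0 hk0 => ?_⟩
  set γ : ℝ := 1 / 2 - 1 / (2 * d) with hγ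
  set γ' : ℝ := 1 / 2 - 1 / d with hγ'
  have hγ0 : 0 < γ' := by
    have : 1 / d ≤ 1 / 4 := by gcongr
    linarith
  have hYk : Y ≤ 2 ^ k0 := le_trans (by omega) (Nat.lt_two_pow_self (n := k0)).le
  let A : ArithmeticFunction ℝ :=
    ⟨fun n => if n.Prime ∧ 2 ^ k0 ≤ n then Real.log n * (n : ℝ) ^ (-γ) else 0, by simp⟩
  have hA : ∀ n, A n = if n.Prime ∧ 2 ^ k0 ≤ n then Real.log n * (n : ℝ) ^ (-γ) else 0 :=
    fun n => rfl
  have hA0 : ∀ n, ¬ n.Prime → A n = 0 := fun n hn => by rw [hA, if_neg fun h => hn h.1]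
  have hA1 : ∀ n, n < 2 ^ k0 → A n = 0 := fun n hn => by rw [hA, if_neg fun h => by omega]
  have hlog : ∀ n : ℕ, 0 ≤ Real.log n * (n : ℝ) ^ (-γ) := fun n =>
    mul_nonneg (Real.log_natCast_nonneg n) (by positivity)
  have hA2 : ∀ n : ℕ, |A n| ≤ (n : ℝ) ^ (-γ') := by
    intro n
    rw [hA]
    split_ifs with h
    · have hn : (0 : ℝ) < n := by exact_mod_cast h.1.pos
      rw [abs_of_nonneg (hlog n), show -γ' = 1 / (2 * d) + -γ by rw [hγ, hγ']; field_simp; ring,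
        Real.rpow_add hn]
      exact mul_le_mul_of_nonneg_right (by linarith [hY n (hYk.trans h.2)]) (by positivity)
    · rw [abs_zero]; positivity
  have hB0 : ∀ n, ¬ n.Prime → (-A) n = 0 := fun n hn => by simp [hA0 n hn]
  have hB1 : ∀ n, n < 2 ^ k0 → (-A) n = 0 := fun n hn => by simp [hA1 n hn]
  have hB2 : ∀ n : ℕ, |(-A) n| ≤ (n : ℝ) ^ (-γ') := fun n => by simpa using hA2 n
  have hΘ : ∀ {c : ArithmeticFunction ℝ}, (∀ n, ¬ n.Prime → c n = 0) →
      (∀ n : ℕ, |c n| ≤ (n : ℝ) ^ (-γ')) → ∀ k n, n < 2 ^ k →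
      |aexp c (2 ^ k + n)| ≤ ((2 : ℝ) ^ k) ^ (-γ') := by
    intro c h0 h2 k n _
    refine (aexp_bound h0 h2 _).trans (Real.rpow_le_rpow_of_nonpos (by positivity) ?_ (by linarith))
    push_cast
    exact le_add_of_nonneg_right (Nat.cast_nonneg n)
  obtain ⟨s, hs⟩ := exists_signs (aexp A) (aexp (-A)) (fun k => ((2 : ℝ) ^ k) ^ (-γ'))
    (fun k => by positivity) (hΘ hA0 hA2) (hΘ hB0 hB2)
  have hζ : ∀ k : ℕ, ((2 : ℝ) ^ k) ^ (-γ') * √2 ^ k = ((2 : ℝ) ^ (1 / d)) ^ k := by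
    intro k
    rw [← Real.rpow_natCast 2 k, ← Real.rpow_mul two_pos.le, mul_comm (k : ℝ),
      Real.rpow_mul two_pos.le, Real.rpow_natCast, ← mul_pow, Real.sqrt_eq_rpow,
      ← Real.rpow_add two_pos]
    congr 2
    rw [hγ']; ring
  simp only [hζ] at hs
  have hG : ∀ {c : ArithmeticFunction ℝ}, (∀ n, ¬ n.Prime → c n = 0) → (∀ n, n < 2 ^ k0 → c n = 0) →
      (∀ n : ℕ, |c n| ≤ (n : ℝ) ^ (-γ')) →
      (∀ k, Lev (fun n => sg s n * aexp c n) k (3 * (k + 2) ^ 2 * ((2 : ℝ) ^ (1 / d)) ^ k)) →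
      Good ((2 : ℝ) ^ (1 / d)) k0 (axp (tw (sg s) c)) := by
    intro c h0 h1 h2 h3
    have e : (axp (tw (sg s) c) : ℕ → ℝ) = fun n => sg s n * aexp c n :=
      funext fun n => aexp_tw (sg_one s) (fun _ _ => sg_mul s) c n
    rw [e]
    refine ⟨by simp [aexp_zero], by simp [sg_one, aexp_one (h0 1 Nat.not_prime_one)],
      fun n a1 a2 => by simp [aexp_gap h1 a1 a2], fun n => ?_, h3⟩
    rw [abs_mul, abs_sg, one_mul]
    rcases Nat.eq_zero_or_pos n with rfl | hn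
    · simp [aexp_zero]
    · exact (aexp_bound h0 h2 n).trans
        (Real.rpow_le_one_of_one_le_of_nonpos (by exact_mod_cast hn) (by linarith))
  have hN : ∀ {c : ArithmeticFunction ℝ}, (∀ n : ℕ, |c n| ≤ (n : ℝ) ^ (-γ')) →
      ∃ M, Nle 1 (tw (sg s) c) M := fun {c} h2 =>
    nle_of_bd (C := 1) (θ := -γ') (fun n _ => by
      rw [tw_apply, abs_mul, abs_sg, one_mul, one_mul]; exact h2 n) (by linarith)
  obtain ⟨M1, h1⟩ := hN hA2
  obtain ⟨M2, h2⟩ := hN hB2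
  refine ⟨_, _, hG hA0 hA1 hA2 fun k => (hs k).1, hG hB0 hB1 hB2 fun k => (hs k).2, ?_,
    tw (sg s) A, 2 ^ k0, rfl, fun n hn => by rw [tw_apply, hA0 n hn, mul_zero], fun n => ?_,
    fun p hp hy => ?_⟩
  · rw [← axp_add h2 h1, ← axp_zero]
    congr 1
    ext n
    simp [tw_apply]
  · rw [tw_apply, abs_mul, abs_sg, one_mul, hA]
    split_ifs
    · exact (abs_of_nonneg (hlog n)).le
    · simpa using hlog n
  · rw [tw_apply, abs_mul, abs_sg, one_mul, hA, if_pos ⟨hp, hy⟩, abs_of_nonneg (hlog p)]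

theorem ram_aexp {c : ArithmeticFunction ℝ} {γ : ℝ} (h0 : ∀ n, ¬ n.Prime → c n = 0)
    (h1 : ∀ n : ℕ, |c n| ≤ (Real.log n + 1) * (n : ℝ) ^ (-γ)) {ε : ℝ} (hε : 0 < ε) :
    ∃ C : ℝ, ∀ n : ℕ, 1 ≤ n → |aexp c n * (n : ℝ) ^ γ| ≤ C * (n : ℝ) ^ ε := by
  obtain ⟨Y, hY⟩ := log_small hε
  let c1 : ArithmeticFunction ℝ := ⟨fun n => if n < Y then c n else 0, by simp⟩
  let c2 : ArithmeticFunction ℝ := ⟨fun n => if n < Y then 0 else c n, by simp⟩
  have e1 : ∀ n, c1 n = if n < Y then c n else 0 := fun n => rfl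
  have e2 : ∀ n, c2 n = if n < Y then 0 else c n := fun n => rfl
  have e : c = c1 + c2 := by
    ext n
    rw [ArithmeticFunction.add_apply, e1, e2]
    split_ifs <;> simp
  have hf : ∀ σ, ∃ M, Nle σ c1 M := fun σ =>
    ⟨_, summable_of_ne_finset_zero (s := Finset.range Y) fun n hn => by
      rw [wt, e1, if_neg (by simpa using hn)]; simp, le_rfl⟩
  have h2 : ∀ n : ℕ, |c2 n| ≤ (n : ℝ) ^ (-(γ - ε)) := by
    intro n
    rw [e2]
    split_ifs with h
    · rw [abs_zero]; positivity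
    · rcases Nat.eq_zero_or_pos n with rfl | hn
      · simp; positivity
      · have hn' : (0 : ℝ) < n := by exact_mod_cast hn
        rw [show -(γ - ε) = ε + -γ by ring, Real.rpow_add hn']
        exact (h1 n).trans (mul_le_mul_of_nonneg_right (hY n (not_lt.1 h)) (by positivity))
  have h3 := aexp_bound (c := c2) (fun n hn => by rw [e2, h0 n hn]; simp) h2
  obtain ⟨M2, n2⟩ := nle_of_bd (f := c2) (C := 1) (θ := -(γ - ε)) (σ := -(γ - ε) + 2)
    (fun n _ => by rw [one_mul]; exact h2 n) (by linarith)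
  obtain ⟨M1, n1⟩ := hf (-(γ - ε) + 2)
  obtain ⟨M0, n0⟩ := hf (-γ)
  have hs := aexp_summable n0
  refine ⟨∑' n, wt (-γ) (aexp c1) n, fun n hn => ?_⟩
  rw [← axp_apply, e, axp_add n1 n2, ArithmeticFunction.mul_apply, Finset.sum_mul]
  refine (Finset.abs_sum_le_sum_abs _ _).trans ?_
  have h4 : ∀ q ∈ n.divisorsAntidiagonal, |axp c1 q.1 * axp c2 q.2 * (n : ℝ) ^ γ| ≤
      wt (-γ) (aexp c1) q.1 * (n : ℝ) ^ ε := by
    intro q hq
    have a1 := (Nat.mem_divisorsAntidiagonal.1 hq).1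
    have a2 : (0 : ℝ) < q.2 := by
      exact_mod_cast Nat.pos_of_ne_zero (Nat.right_ne_zero_of_mem_divisorsAntidiagonal hq)
    have a3 : (q.2 : ℝ) ≤ n := by
      exact_mod_cast Nat.divisor_le (Nat.snd_mem_divisors_of_mem_antidiagonal hq)
    have a4 : |aexp c2 q.2| * (q.2 : ℝ) ^ γ ≤ (n : ℝ) ^ ε := by
      calc _ ≤ (q.2 : ℝ) ^ (-(γ - ε)) * (q.2 : ℝ) ^ γ := by gcongr; exact h3 _
        _ = (q.2 : ℝ) ^ ε := by rw [← Real.rpow_add a2]; congr 1; ring
        _ ≤ _ := by gcongr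
    have a5 : (n : ℝ) ^ γ = (q.1 : ℝ) ^ γ * (q.2 : ℝ) ^ γ := by
      rw [← a1, Nat.cast_mul, Real.mul_rpow (by positivity) (by positivity)]
    rw [abs_mul, abs_mul, abs_of_nonneg (by positivity : 0 ≤ (n : ℝ) ^ γ), a5, wt, neg_neg]
    calc _ = |aexp c1 q.1| * (q.1 : ℝ) ^ γ * (|aexp c2 q.2| * (q.2 : ℝ) ^ γ) := by
          rw [axp_apply, axp_apply]; ring
      _ ≤ _ := by gcongr
  refine (Finset.sum_le_sum h4).trans ?_
  rw [← Finset.sum_mul, Nat.sum_divisorsAntidiagonal (fun a _ => wt (-γ) (aexp c1) a)]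
  exact mul_le_mul_of_nonneg_right (hs.sum_le_tsum _ fun _ _ => wt_nonneg _ _ _) (by positivity)

theorem mertens_low {z : ℕ} (hz : 2 ≤ z) :
    Real.log (Real.log z) ≤ 2 * ∑ p ∈ (Finset.Iic z).filter Nat.Prime, 1 / (p : ℝ) := by
  obtain ⟨h1, h2⟩ := vb z hz
  have hl : 0 < Real.log z := Real.log_pos (by exact_mod_cast hz)
  rw [Real.log_le_iff_le_exp hl, Finset.mul_sum, Real.exp_sum]
  rw [le_div_iff₀ hl] at h2
  refine le_of_mul_le_mul_left (h2.trans ?_) h1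
  unfold V
  rw [← Nat.range_succ_eq_Iic, ← Finset.prod_mul_distrib]
  refine Finset.one_le_prod fun p hp => ?_
  have hp2 : (2 : ℝ) ≤ p := by exact_mod_cast (Finset.mem_filter.1 hp).2.two_le
  have a1 : (p : ℝ)⁻¹ ≤ 1 / 2 := by rw [← one_div]; gcongr
  have a2 : 0 ≤ (p : ℝ)⁻¹ := by positivity
  have a3 := Real.add_one_le_exp (2 * (1 / (p : ℝ)))
  rw [one_div] at a3 ⊢
  nlinarith

end Pool.Agent.H61.Big
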