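import Pool.Agent.H61.BigR

/- Dyadic chaining. -/

set_option autoImplicit false
open Finset Filter Topology

namespace Pool.Agent.H61.Big

theorem lip_range {φ : ℕ → ℝ} {N : ℕ} {Lp : ℝ} (hL : ∀ n, n + 1 < N → |φ (n + 1) - φ n| ≤ Lp)
    (a b : ℕ) (h : a + b < N) : |φ (a + b) - φ a| ≤ b * Lp := by
  induction b with
  | zero => simp
  | succ b ih =>
    have h1 := ih (by omega)
    have h2 := hL (a + b) (by omega)
    have h3 := abs_add_le (φ (a + b + 1) - φ (a + b)) (φ (a + b) - φ a)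
    rw [sub_add_sub_cancel] at h3
    rw [← add_assoc]
    push_cast
    linarith

theorem sqrt2_ge : (4 : ℝ) / 3 ≤ √2 := Real.le_sqrt_of_sq_le (by norm_num)

theorem sqrt2_le : √2 ≤ (2 : ℝ) := Real.sqrt_le_iff.2 (by norm_num)

theorem sqrt2_sq (j : ℕ) : √2 ^ j * √2 ^ j = (2 : ℝ) ^ j := by
  rw [← mul_pow, Real.mul_self_sqrt two_pos.le]

theorem chain_aux (z φ : ℕ → ℝ) (k : ℕ) {B Lp : ℝ} (hB : 0 ≤ B) (hLp : 0 ≤ Lp) (hz : Lev z k B)
    (hL : ∀ n, n + 1 < 2 ^ k → |φ (n + 1) - φ n| ≤ Lp) (j : ℕ) (hj : j ≤ k) :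
    ∑ i ∈ range (2 ^ (k - j)),
      |∑ r ∈ range (2 ^ j), z (2 ^ k + (i * 2 ^ j + r)) * (φ (i * 2 ^ j + r) - φ (i * 2 ^ j))|
      ≤ 3 * (Lp * B) * √2 ^ (k + j) := by
  induction j with
  | zero => simp; positivity
  | succ j ih =>
    have ih' := ih (by omega)
    have hz' := hz j (by omega)
    have e1 : 2 ^ (k - j) = 2 ^ (k - (j + 1)) * 2 := by rw [← pow_succ]; congr 1; omega
    set E : ℕ → ℝ := fun i =>
      ∑ r ∈ range (2 ^ j), z (2 ^ k + (i * 2 ^ j + r)) * (φ (i * 2 ^ j + r) - φ (i * 2 ^ j)) with hE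
    have h1 : ∀ i ∈ range (2 ^ (k - (j + 1))),
        |∑ r ∈ range (2 ^ (j + 1)), z (2 ^ k + (i * 2 ^ (j + 1) + r)) *
          (φ (i * 2 ^ (j + 1) + r) - φ (i * 2 ^ (j + 1)))| ≤
        ∑ r ∈ range 2, (|E (i * 2 + r)| + 2 ^ j * Lp * |bs z k j (i * 2 + r)|) := by
      intro i hi
      have a1 : i * 2 ^ (j + 1) = i * 2 * 2 ^ j := by ring
      have a2 : ∀ r, i * 2 * 2 ^ j + (2 ^ j + r) = (i * 2 + 1) * 2 ^ j + r := fun r => by ring
      have a3 : ∑ r ∈ range (2 ^ (j + 1)), z (2 ^ k + (i * 2 ^ (j + 1) + r)) *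
          (φ (i * 2 ^ (j + 1) + r) - φ (i * 2 ^ (j + 1))) = E (i * 2) + (E (i * 2 + 1) +
            bs z k j (i * 2 + 1) * (φ (i * 2 * 2 ^ j + 2 ^ j) - φ (i * 2 * 2 ^ j))) := by
        rw [a1, pow_succ, mul_two (2 ^ j), sum_range_add]
        simp only [hE, bs, a2]
        congr 1
        rw [sum_mul, ← sum_add_distrib]
        refine sum_congr rfl fun r _ => ?_
        rw [show i * 2 * 2 ^ j + 2 ^ j = (i * 2 + 1) * 2 ^ j by ring]
        ring
      have a4 := lip_range hL (i * 2 * 2 ^ j) (2 ^ j) (by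
        have := idx_lt (k := k) (j := j + 1) (i := i) (r := 2 ^ j) hj (mem_range.1 hi)
          (Nat.pow_lt_pow_right one_lt_two (Nat.lt_succ_self j))
        rwa [a1] at this)
      push_cast at a4
      rw [a3, sum_range_succ, sum_range_one, add_zero]
      have a5 := abs_add_le (E (i * 2)) (E (i * 2 + 1) +
            bs z k j (i * 2 + 1) * (φ (i * 2 * 2 ^ j + 2 ^ j) - φ (i * 2 * 2 ^ j)))
      have a6 := abs_add_le (E (i * 2 + 1))
            (bs z k j (i * 2 + 1) * (φ (i * 2 * 2 ^ j + 2 ^ j) - φ (i * 2 * 2 ^ j)))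
      rw [abs_mul] at a6
      have a7 := mul_le_mul_of_nonneg_left a4 (abs_nonneg (bs z k j (i * 2 + 1)))
      have a8 : 0 ≤ 2 ^ j * Lp * |bs z k j (i * 2)| := by positivity
      linarith
    refine (sum_le_sum h1).trans ?_
    rw [← sum_blocks (fun i => |E i| + 2 ^ j * Lp * |bs z k j i|), ← e1, sum_add_distrib, ← mul_sum]
    have h2 : 2 ^ j * Lp * (B * √2 ^ (k - j)) = Lp * B * √2 ^ (k + j) := by
      rw [← sqrt2_sq, show k + j = j + j + (k - j) by omega, pow_add, pow_add]; ring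
    have h3 := mul_le_mul_of_nonneg_left hz' (by positivity : 0 ≤ 2 ^ j * Lp)
    have h4 : 0 ≤ Lp * B * √2 ^ (k + j) := by positivity
    have h5 := mul_le_mul_of_nonneg_left sqrt2_ge h4
    rw [← add_assoc, pow_succ]
    simp only [hE]
    linarith

theorem chain (z φ : ℕ → ℝ) (k : ℕ) {B S Lp lam : ℝ} (hB : 0 ≤ B) (hLp : 0 ≤ Lp) (hlam : 1 ≤ lam)
    (hz : Lev z k B) (hS : ∀ n, n < 2 ^ k → |φ n| ≤ S)
    (hL : ∀ n, n + 1 < 2 ^ k → |φ (n + 1) - φ n| ≤ Lp) :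
    |∑ n ∈ range (2 ^ k), z (2 ^ k + n) * φ n| ≤ B * (3 * (2 ^ k * Lp) / lam + 2 * S * lam) := by
  have hS0 : 0 ≤ S := (abs_nonneg _).trans (hS 0 (by positivity))
  have hl0 : 0 < lam := by linarith
  have key : ∀ j, j ≤ k → |∑ n ∈ range (2 ^ k), z (2 ^ k + n) * φ n| ≤
      (∑ i ∈ range (2 ^ (k - j)),
      |∑ r ∈ range (2 ^ j), z (2 ^ k + (i * 2 ^ j + r)) * (φ (i * 2 ^ j + r) - φ (i * 2 ^ j))|) +
        S * (B * √2 ^ (k - j)) := by
    intro j hj
    have e : range (2 ^ k) = range (2 ^ (k - j) * 2 ^ j) := by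
      rw [← pow_add, Nat.sub_add_cancel hj]
    rw [e, sum_blocks (fun n => z (2 ^ k + n) * φ n)]
    refine (abs_sum_le_sum_abs _ _).trans
      (le_trans ?_ (add_le_add le_rfl (mul_le_mul_of_nonneg_left (hz j hj) hS0)))
    rw [mul_sum, ← sum_add_distrib]
    refine sum_le_sum fun i hi => ?_
    have a1 : ∑ r ∈ range (2 ^ j), z (2 ^ k + (i * 2 ^ j + r)) * φ (i * 2 ^ j + r) =
        (∑ r ∈ range (2 ^ j), z (2 ^ k + (i * 2 ^ j + r)) * (φ (i * 2 ^ j + r) - φ (i * 2 ^ j))) +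
          φ (i * 2 ^ j) * bs z k j i := by
      rw [bs, mul_sum, ← sum_add_distrib]
      exact sum_congr rfl fun r _ => by ring
    rw [a1]
    refine (abs_add_le _ _).trans (add_le_add le_rfl ?_)
    rw [abs_mul]
    exact mul_le_mul_of_nonneg_right
      (hS _ (by simpa using idx_lt (r := 0) hj (mem_range.1 hi) (by positivity))) (abs_nonneg _)
  by_cases h : lam ≤ √2 ^ k
  · classical
    have hex : ∃ u, lam ≤ √2 ^ u := ⟨k, h⟩
    set u := Nat.find hex with hu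
    have hu1 : lam ≤ √2 ^ u := Nat.find_spec hex
    have hu2 : u ≤ k := Nat.find_min' hex h
    have hu3 : √2 ^ u ≤ 2 * lam := by
      rcases Nat.eq_zero_or_pos u with h0 | h0
      · rw [h0, pow_zero]; linarith
      · have a1 := Nat.find_min hex (m := u - 1) (by omega)
        rw [not_le] at a1
        rw [show u = u - 1 + 1 by omega, pow_succ]
        have := sqrt2_le
        nlinarith [Real.sqrt_nonneg 2, pow_nonneg (Real.sqrt_nonneg 2) (u - 1)]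
    have h1 := key (k - u) (by omega)
    have h2 := chain_aux z φ k hB hLp hz hL (k - u) (by omega)
    rw [show k - (k - u) = u by omega] at h1 h2
    have h3 : √2 ^ (k + (k - u)) ≤ 2 ^ k / lam := by
      rw [le_div_iff₀ hl0, ← sqrt2_sq, ← pow_add, show k + k = k + (k - u) + u by omega,
        pow_add _ _ u]
      exact mul_le_mul_of_nonneg_left hu1 (by positivity)
    have h4 := mul_le_mul_of_nonneg_left h3 (by positivity : 0 ≤ 3 * (Lp * B))
    have h5 := mul_le_mul_of_nonneg_left hu3 (by positivity : 0 ≤ S * B)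
    calc _ ≤ 3 * (Lp * B) * (2 ^ k / lam) + S * B * (2 * lam) := by linarith
      _ = _ := by ring
  · have h1 := key 0 (Nat.zero_le k)
    simp only [pow_zero, mul_one, range_one, sum_singleton, add_zero, sub_self, mul_zero, abs_zero,
      sum_const_zero, zero_add, Nat.sub_zero] at h1
    rw [not_le] at h
    have h5 := mul_le_mul_of_nonneg_left h.le (by positivity : 0 ≤ S * B)
    have h6 : 0 ≤ B * (3 * (2 ^ k * Lp) / lam) := by positivity
    have h7 : 0 ≤ S * B * lam := by positivity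
    nlinarith

/-- coefficients with square root cancellation, supported on 1 and on large integers -/
structure Good (ζ : ℝ) (k0 : ℕ) (z : ℕ → ℝ) : Prop where
  z0 : z 0 = 0
  z1 : z 1 = 1
  gap : ∀ n, n < 2 ^ k0 → n ≠ 1 → z n = 0
  bd : ∀ n, |z n| ≤ 1
  lev : ∀ k, Lev z k (3 * (k + 2) ^ 2 * ζ ^ k)

theorem est {ζ : ℝ} {k0 : ℕ} {z : ℕ → ℝ} (hζ : 1 ≤ ζ) (hk0 : 1 ≤ k0) (hz : Good ζ k0 z) {τ C : ℝ}
    (hC : 0 ≤ C)
    (hτ : ∀ K, ∑ k ∈ range K, ((k0 + k : ℕ) + 2 : ℝ) ^ 2 / ζ ^ (k0 + k) ≤ τ)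
    (φ : ℕ → ℝ) (hs : Summable fun n => z n * φ n)
    (h : ∀ k, ∃ S Lp lam : ℝ, 0 ≤ Lp ∧ 1 ≤ lam ∧ (∀ n, n < 2 ^ k → |φ (2 ^ k + n)| ≤ S) ∧
      (∀ n, n + 1 < 2 ^ k → |φ (2 ^ k + (n + 1)) - φ (2 ^ k + n)| ≤ Lp) ∧
      (ζ ^ k) ^ 2 * (3 * (2 ^ k * Lp) / lam + 2 * S * lam) ≤ C) :
    |∑' n, z n * φ n - φ 1| ≤ 3 * C * τ := by
  have hζ0 : 0 < ζ := by linarith
  have hb : ∀ k : ℕ, |∑ n ∈ range (2 ^ k), z (2 ^ k + n) * φ (2 ^ k + n)| ≤
      3 * C * (((k : ℝ) + 2) ^ 2 / ζ ^ k) := by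
    intro k
    obtain ⟨S, Lp, lam, h1, h2, h3, h4, h5⟩ := h k
    refine (chain z (fun n => φ (2 ^ k + n)) k (by positivity) h1 h2 (hz.lev k) h3 h4).trans ?_
    have := mul_le_mul_of_nonneg_left h5 (by positivity : 0 ≤ 3 * (((k : ℝ) + 2) ^ 2 / ζ ^ k))
    refine le_trans (le_of_eq ?_) (this.trans (le_of_eq (by ring)))
    field_simp
  have hp : ∀ K, |∑ n ∈ range (2 ^ (k0 + K)), z n * φ n - φ 1| ≤
      3 * C * ∑ k ∈ range K, ((k0 + k : ℕ) + 2 : ℝ) ^ 2 / ζ ^ (k0 + k) := by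
    intro K
    induction K with
    | zero =>
      have : 1 < 2 ^ k0 := Nat.one_lt_two_pow (by omega)
      rw [add_zero, sum_eq_single 1 (fun n hn h1 => by rw [hz.gap n (mem_range.1 hn) h1, zero_mul])
        (fun h1 => absurd (mem_range.2 this) h1), hz.z1]
      simp
    | succ K ih =>
      rw [← add_assoc, pow_succ, mul_two, sum_range_add, sum_range_succ, mul_add, add_sub_right_comm]
      exact (abs_add_le _ _).trans (add_le_add ih (hb (k0 + K)))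
  have ht : Tendsto (fun K => 2 ^ (k0 + K)) atTop atTop :=
    (tendsto_pow_atTop_atTop_of_one_lt one_lt_two).comp (tendsto_add_atTop_nat k0 |>.congr
      fun K => add_comm K k0)
  have hl := ((hs.hasSum.tendsto_sum_nat.comp ht).sub_const (φ 1)).abs
  exact le_of_tendsto' hl fun K =>
    (hp K).trans (mul_le_mul_of_nonneg_left (hτ K) (by positivity))

theorem exists_k0 {ζ : ℝ} (hζ : 1 < ζ) {τ : ℝ} (hτ : 0 < τ) (k1 : ℕ) :
    ∃ k0, k1 ≤ k0 ∧ ∀ K, ∑ k ∈ range K, ((k0 + k : ℕ) + 2 : ℝ) ^ 2 / ζ ^ (k0 + k) ≤ τ := by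
  have hζ0 : 0 < ζ := by linarith
  have h1 : Summable fun k : ℕ => (k : ℝ) ^ 2 * ζ⁻¹ ^ k :=
    summable_pow_mul_geometric_of_norm_lt_one 2 (by
      rw [Real.norm_eq_abs, abs_of_pos (inv_pos.2 hζ0)]; exact inv_lt_one_of_one_lt₀ hζ)
  have h2 : Summable fun k : ℕ => ((k : ℝ) + 2) ^ 2 / ζ ^ k := by
    refine (((summable_nat_add_iff 2).2 h1).mul_left (ζ ^ 2)).congr fun k => ?_
    push_cast
    rw [inv_pow, pow_add]
    field_simp
  obtain ⟨k0, h3, h4⟩ := (((tendsto_sum_nat_add fun k : ℕ => ((k : ℝ) + 2) ^ 2 / ζ ^ k).eventually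
    (ge_mem_nhds hτ)).and (eventually_ge_atTop k1)).exists
  refine ⟨k0, h4, fun K => le_trans ?_ h3⟩
  have h5 := (summable_nat_add_iff k0).2 h2
  refine le_trans (le_of_eq ?_) (h5.sum_le_tsum (range K) fun k _ => by positivity)
  exact sum_congr rfl fun k _ => by rw [add_comm k0 k]

end Pool.Agent.H61.Big
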