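import Pool.Agent.H61.BigC
import Pool.Agent.Lead.Sel.Exo

/- The dilation operators attached to arithmetic functions. -/

set_option autoImplicit false
open Finset Filter Topology MeasureTheory

namespace Pool.Agent.H61.Big
open Pool.Agent.Lead.Sel

noncomputable def ee (d : ℝ) (n : ℕ) : ℝ := (n : ℝ) ^ (1 / d)

noncomputable def TT (d : ℝ) (z : ℕ → ℝ) (f : ℝ → ℝ) (x : ℝ) : ℝ := ∑' n, z n * f (x * ee d n)

def Rap (κ : ℝ) (f : ℝ → ℝ) : Prop := ∀ R : ℕ, ∃ M : ℝ, ∀ x, κ ≤ x → |f x| * (1 + x) ^ R ≤ M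

theorem ee_one (d : ℝ) : ee d 1 = 1 := by simp [ee]

theorem ee_mul (d : ℝ) (m n : ℕ) : ee d (m * n) = ee d m * ee d n := by
  unfold ee; rw [Nat.cast_mul, Real.mul_rpow (by positivity) (by positivity)]

theorem one_le_ee {d : ℝ} (hd : 1 ≤ d) {n : ℕ} (hn : 1 ≤ n) : 1 ≤ ee d n :=
  Real.one_le_rpow (by exact_mod_cast hn) (by positivity)

theorem ee_block {d : ℝ} (hd : 1 ≤ d) {k n : ℕ} (hn : n < 2 ^ k) :
    ((2 : ℝ) ^ (1 / d)) ^ k ≤ ee d (2 ^ k + n) ∧ ee d (2 ^ k + n) ≤ 2 * ((2 : ℝ) ^ (1 / d)) ^ k := by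
  have e : ((2 : ℝ) ^ (1 / d)) ^ k = ((2 : ℝ) ^ k) ^ (1 / d) := by
    rw [← Real.rpow_natCast, ← Real.rpow_mul two_pos.le, mul_comm, Real.rpow_mul two_pos.le,
      Real.rpow_natCast]
  have hn' : (n : ℝ) ≤ 2 ^ k := by exact_mod_cast hn.le
  have h0 : (0 : ℝ) ≤ n := Nat.cast_nonneg n
  have hd0 : 0 ≤ 1 / d := by positivity
  rw [e]
  unfold ee
  push_cast
  refine ⟨by gcongr; linarith, ?_⟩
  calc ((2 : ℝ) ^ k + n) ^ (1 / d) ≤ (2 * 2 ^ k) ^ (1 / d) := by gcongr; linarith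
    _ = 2 ^ (1 / d) * ((2 : ℝ) ^ k) ^ (1 / d) := Real.mul_rpow (by positivity) (by positivity)
    _ ≤ _ := by
      gcongr
      calc (2 : ℝ) ^ (1 / d) ≤ 2 ^ (1 : ℝ) :=
            Real.rpow_le_rpow_of_exponent_le one_le_two (by rw [div_le_one (by linarith)]; exact hd)
        _ = 2 := Real.rpow_one 2

theorem ee_succ {d : ℝ} (hd : 1 ≤ d) {n : ℕ} (hn : 1 ≤ n) :
    ∃ t : ℝ, 0 ≤ t ∧ t ≤ 1 / n ∧ ee d (n + 1) = ee d n * Real.exp t := by
  have hn' : (0 : ℝ) < n := by exact_mod_cast hn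
  have h1 : 0 < 1 / (n : ℝ) := by positivity
  have h2 : 0 ≤ Real.log (1 + 1 / n) := Real.log_nonneg (by linarith)
  have h3 : Real.log (1 + 1 / n) ≤ 1 / n := by
    have := Real.log_le_sub_one_of_pos (by linarith : 0 < 1 + 1 / (n : ℝ)); linarith
  refine ⟨Real.log (1 + 1 / n) * (1 / d), by positivity, ?_, ?_⟩
  · exact (mul_le_of_le_one_right h2 (by rw [div_le_one (by linarith)]; exact hd)).trans h3
  · unfold ee
    rw [← Real.rpow_def_of_pos (by linarith), ← Real.mul_rpow hn'.le (by linarith)]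
    congr 1
    push_cast
    field_simp

theorem term_bd {d κ : ℝ} (hd : 1 ≤ d) (hκ : 0 < κ) {f : ℝ → ℝ} (hf : Rap κ f) (R : ℕ) :
    ∃ M : ℝ, 0 ≤ M ∧ ∀ x, κ ≤ x → ∀ n : ℕ, 1 ≤ n →
      |f (x * ee d n)| ≤ M / (1 + x) ^ R * ((n : ℝ) ^ 2)⁻¹ := by
  set D := ⌈2 * d⌉₊ with hD
  obtain ⟨M, hM⟩ := hf (R + D)
  have hM0 : 0 ≤ M := le_trans (by positivity) (hM κ le_rfl)
  refine ⟨M / κ ^ D, by positivity, fun x hx n hn => ?_⟩
  have hx0 : 0 < x := hκ.trans_le hx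
  have hn' : (1 : ℝ) ≤ n := by exact_mod_cast hn
  have he := one_le_ee hd hn
  have h1 : x ≤ x * ee d n := le_mul_of_one_le_right hx0.le he
  have h2 := hM _ (hx.trans h1)
  have h3 : (n : ℝ) ^ 2 ≤ ee d n ^ D := by
    unfold ee
    rw [← Real.rpow_natCast _ D, ← Real.rpow_mul (by positivity), ← Real.rpow_natCast _ 2]
    refine Real.rpow_le_rpow_of_exponent_le hn' ?_
    have := Nat.le_ceil (2 * d)
    rw [one_div, le_inv_mul_iff₀ (by linarith)]
    push_cast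
    linarith
  have h4 : (1 + x) ^ R * (κ ^ D * (n : ℝ) ^ 2) ≤ (1 + x * ee d n) ^ (R + D) := by
    rw [pow_add]
    refine mul_le_mul (by gcongr) ?_ (by positivity) (by positivity)
    calc κ ^ D * (n : ℝ) ^ 2 ≤ κ ^ D * ee d n ^ D := by gcongr
      _ = (κ * ee d n) ^ D := (mul_pow _ _ _).symm
      _ ≤ _ := by gcongr; nlinarith
  have h5 := (mul_le_mul_of_nonneg_left h4 (abs_nonneg _)).trans h2
  rw [← div_eq_mul_inv, div_div, div_div, le_div_iff₀ (by positivity)]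
  linarith

theorem summable_sq : Summable fun n : ℕ => ((n : ℝ) ^ 2)⁻¹ :=
  Real.summable_nat_pow_inv.2 one_lt_two

theorem zterm_bd {d κ : ℝ} (hd : 1 ≤ d) (hκ : 0 < κ) {f : ℝ → ℝ} (hf : Rap κ f) (R : ℕ) :
    ∃ M : ℝ, 0 ≤ M ∧ ∀ z : ℕ → ℝ, z 0 = 0 → (∀ n, |z n| ≤ 1) → ∀ x, κ ≤ x → ∀ n : ℕ,
      ‖z n * f (x * ee d n)‖ ≤ M / (1 + x) ^ R * ((n : ℝ) ^ 2)⁻¹ := by
  obtain ⟨M, hM0, hM⟩ := term_bd hd hκ hf R
  refine ⟨M, hM0, fun z h0 h1 x hx n => ?_⟩
  rcases Nat.eq_zero_or_pos n with rfl | hn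
  · simp [h0]
  · rw [Real.norm_eq_abs, abs_mul]
    exact (mul_le_of_le_one_left (abs_nonneg _) (h1 n)).trans (hM x hx n hn)

theorem TT_summable {d κ : ℝ} (hd : 1 ≤ d) (hκ : 0 < κ) {f : ℝ → ℝ} (hf : Rap κ f) {z : ℕ → ℝ}
    (h0 : z 0 = 0) (h1 : ∀ n, |z n| ≤ 1) {x : ℝ} (hx : κ ≤ x) :
    Summable fun n => z n * f (x * ee d n) := by
  obtain ⟨M, -, hM⟩ := zterm_bd hd hκ hf 0
  exact Summable.of_norm_bounded (summable_sq.mul_left _) (hM z h0 h1 x hx)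

theorem TT_rap {d κ : ℝ} (hd : 1 ≤ d) (hκ : 0 < κ) {f : ℝ → ℝ} (hf : Rap κ f) {z : ℕ → ℝ}
    (h0 : z 0 = 0) (h1 : ∀ n, |z n| ≤ 1) : Rap κ (TT d z f) := by
  intro R
  obtain ⟨M, -, hM⟩ := zterm_bd hd hκ hf R
  refine ⟨M * ∑' n : ℕ, ((n : ℝ) ^ 2)⁻¹, fun x hx => ?_⟩
  have hx0 : 0 < x := hκ.trans_le hx
  have := tsum_of_norm_bounded (summable_sq.hasSum.mul_left (M / (1 + x) ^ R)) (hM z h0 h1 x hx)
  rw [← le_div_iff₀ (by positivity), ← Real.norm_eq_abs]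
  exact this.trans (le_of_eq (by ring))

theorem TT_cont {d κ : ℝ} (hd : 1 ≤ d) (hκ : 0 < κ) {f : ℝ → ℝ} (hf : Rap κ f)
    (hc : Continuous f) {z : ℕ → ℝ} (h0 : z 0 = 0) (h1 : ∀ n, |z n| ≤ 1) :
    ContinuousOn (TT d z f) (Set.Ici κ) := by
  obtain ⟨M, -, hM⟩ := zterm_bd hd hκ hf 0
  refine continuousOn_tsum (u := fun n : ℕ => M * ((n : ℝ) ^ 2)⁻¹)
    (fun n => Continuous.continuousOn (by fun_prop)) (summable_sq.mul_left M) fun n x hx => ?_
  simpa using hM z h0 h1 x hx n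

theorem TT_conv {d κ : ℝ} (hd : 1 ≤ d) (hκ : 0 < κ) {f : ℝ → ℝ} (hf : Rap κ f)
    (u z : ArithmeticFunction ℝ) (hu : ∀ n, |u n| ≤ 1) (hz : ∀ n, |z n| ≤ 1) {x : ℝ} (hx : κ ≤ x) :
    TT d u (TT d z f) x = TT d (u * z : ArithmeticFunction ℝ) f x := by
  obtain ⟨M, hM0, hM⟩ := term_bd hd hκ hf 0
  set H : ℕ × ℕ → ℝ := fun q => u q.1 * z q.2 * f (x * ee d (q.1 * q.2)) with hH
  have hs : Summable H := by
    have h1 := summable_mul_of_summable_norm (f := fun n : ℕ => ((n : ℝ) ^ 2)⁻¹)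
      (g := fun n : ℕ => ((n : ℝ) ^ 2)⁻¹) summable_sq.norm summable_sq.norm
    refine Summable.of_norm_bounded (h1.mul_left M) ?_
    rintro ⟨a, b⟩
    rcases Nat.eq_zero_or_pos a with rfl | ha
    · simp [hH]
    rcases Nat.eq_zero_or_pos b with rfl | hb
    · simp [hH]
    have h2 := hM x hx (a * b) (Nat.mul_pos ha hb)
    simp only [hH, Real.norm_eq_abs, abs_mul]
    have h3 : |u a| * |z b| ≤ 1 := mul_le_one₀ (hu a) (abs_nonneg _) (hz b)
    refine (mul_le_of_le_one_left (abs_nonneg _) h3).trans (h2.trans (le_of_eq ?_))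
    push_cast
    rw [mul_pow, mul_inv]
    simp
  have h1 : TT d u (TT d z f) x = ∑' q, H q := by
    rw [hs.tsum_prod]
    unfold TT
    congr 1; funext m
    rw [← tsum_mul_left]
    congr 1; funext n
    simp only [hH, ee_mul]
    ring_nf
  rw [h1, ← (hs.hasSum.tsum_fiberwise (fun q : ℕ × ℕ => q.1 * q.2)).tsum_eq]
  unfold TT
  congr 1; funext n
  rcases eq_or_ne n 0 with rfl | hn
  · have : ∀ b : ((fun q : ℕ × ℕ => q.1 * q.2) ⁻¹' {0}), H b.1 = 0 := by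
      rintro ⟨⟨a, b⟩, hab⟩
      have : a * b = 0 := hab
      rcases Nat.mul_eq_zero.1 this with rfl | rfl <;> simp [hH]
    simp [this]
  · have hset : ((fun q : ℕ × ℕ => q.1 * q.2) ⁻¹' {n}) = (n.divisorsAntidiagonal : Set (ℕ × ℕ)) := by
      ext q; simp [Nat.mem_divisorsAntidiagonal, hn]
    rw [hset, Finset.tsum_subtype' n.divisorsAntidiagonal H, ArithmeticFunction.mul_apply, sum_mul]
    refine sum_congr rfl fun q hq => ?_
    simp only [hH]
    rw [(Nat.mem_divisorsAntidiagonal.1 hq).1]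

theorem TT_one (d : ℝ) (f : ℝ → ℝ) (x : ℝ) : TT d (1 : ArithmeticFunction ℝ) f x = f x := by
  unfold TT
  rw [tsum_eq_single 1 fun n hn => by simp [ArithmeticFunction.one_apply_ne hn]]
  simp [ee_one]

/-- average over a short dilation range -/
noncomputable def av (h : ℝ) (F : ℝ → ℝ) (y : ℝ) : ℝ := ∫ t in (0 : ℝ)..h, F (y * Real.exp t)

theorem dil_cont {κ y : ℝ} (hκ : 0 < κ) (hy : κ ≤ y) {F : ℝ → ℝ} (hF : ContinuousOn F (Set.Ici κ)) :
    ContinuousOn (fun t => F (y * Real.exp t)) (Set.Ici 0) :=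
  hF.comp (Continuous.continuousOn (by fun_prop)) fun t ht =>
    hy.trans (le_mul_of_one_le_right (hκ.le.trans hy) (Real.one_le_exp ht))

theorem dil_int {κ y : ℝ} (hκ : 0 < κ) (hy : κ ≤ y) {F : ℝ → ℝ} (hF : ContinuousOn F (Set.Ici κ))
    {a b : ℝ} (ha : 0 ≤ a) (hb : 0 ≤ b) :
    IntervalIntegrable (fun t => F (y * Real.exp t)) volume a b :=
  ((dil_cont hκ hy hF).mono fun _ ht => le_trans (le_min ha hb) ht.1).intervalIntegrable

theorem dil_bd {y S : ℝ} (hy : 0 ≤ y) {F : ℝ → ℝ} (hS : ∀ v, y ≤ v → |F v| ≤ S)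
    {a b : ℝ} (ha : 0 ≤ a) (hb : 0 ≤ b) : |∫ t in a..b, F (y * Real.exp t)| ≤ S * |b - a| :=
  intervalIntegral.norm_integral_le_of_norm_le_const (f := fun t => F (y * Real.exp t)) fun _ ht =>
    hS _ (le_mul_of_one_le_right hy (Real.one_le_exp ((le_min ha hb).trans ht.1.le)))

theorem av_shift {κ y S h t : ℝ} (hκ : 0 < κ) (hy : κ ≤ y) {F : ℝ → ℝ}
    (hF : ContinuousOn F (Set.Ici κ)) (hS : ∀ v, y ≤ v → |F v| ≤ S) (hh : 0 ≤ h) (ht : 0 ≤ t) :
    |av h F (y * Real.exp t) - av h F y| ≤ 2 * t * S := by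
  have hy0 : 0 ≤ y := hκ.le.trans hy
  have h1 : av h F (y * Real.exp t) = ∫ s in t..(h + t), F (y * Real.exp s) := by
    have := intervalIntegral.integral_comp_add_right (a := 0) (b := h)
      (fun s => F (y * Real.exp s)) t
    rw [zero_add] at this
    rw [← this]
    unfold av
    congr 1; funext s
    rw [Real.exp_add]; ring_nf
  rw [h1, av, intervalIntegral.integral_interval_sub_interval_comm
    (dil_int hκ hy hF ht (by linarith)) (dil_int hκ hy hF le_rfl hh) (dil_int hκ hy hF ht le_rfl)]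
  have h2 := dil_bd hy0 hS ht le_rfl
  have h3 := dil_bd hy0 hS (by linarith : 0 ≤ h + t) hh
  rw [zero_sub, abs_neg, abs_of_nonneg ht] at h2
  rw [show h - (h + t) = -t by ring, abs_neg, abs_of_nonneg ht] at h3
  have := abs_sub (∫ s in t..0, F (y * Real.exp s)) (∫ s in (h + t)..h, F (y * Real.exp s))
  linarith

theorem av_hasSum {d κ h x : ℝ} (hd : 1 ≤ d) (hκ : 0 < κ) {F : ℝ → ℝ} (hF : Rap κ F)
    (hc : ContinuousOn F (Set.Ici κ)) {z : ℕ → ℝ} (h0 : z 0 = 0) (h1 : ∀ n, |z n| ≤ 1)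
    (hh : 0 ≤ h) (hx : κ ≤ x) :
    HasSum (fun n => z n * av h F (x * ee d n)) (av h (TT d z F) x) := by
  obtain ⟨M, -, hM⟩ := zterm_bd hd hκ hF 0
  have hx0 : 0 ≤ x := hκ.le.trans hx
  have hmem : ∀ t ∈ Set.uIoc (0 : ℝ) h, κ ≤ x * Real.exp t := fun t ht =>
    hx.trans (le_mul_of_one_le_right hx0 (Real.one_le_exp ((le_min le_rfl hh).trans ht.1.le)))
  have := intervalIntegral.hasSum_integral_of_dominated_convergence (μ := volume) (a := 0) (b := h)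
    (F := fun (n : ℕ) t => z n * F (x * Real.exp t * ee d n)) (f := fun t => TT d z F (x * Real.exp t))
    (fun n _ => M * ((n : ℝ) ^ 2)⁻¹)
    (fun n => by
      rcases Nat.eq_zero_or_pos n with rfl | hn
      · simp [h0, aestronglyMeasurable_const]
      · have a1 := (dil_int hκ (hx.trans (le_mul_of_one_le_right hx0 (one_le_ee hd hn))) hc
          le_rfl hh).const_mul (z n)
        refine (intervalIntegrable_iff.1 a1).aestronglyMeasurable.congr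
          (Eventually.of_forall fun t => ?_)
        simp only
        ring_nf)
    (fun n => Eventually.of_forall fun t ht => by simpa using hM z h0 h1 _ (hmem t ht) n)
    (Eventually.of_forall fun _ _ => summable_sq.mul_left M) (by simp)
    (Eventually.of_forall fun t ht => (TT_summable hd hκ hF h0 h1 (hmem t ht)).hasSum)
  refine this.congr_fun fun n => ?_
  unfold av
  rw [intervalIntegral.integral_const_mul]
  congr 2; funext t
  ring_nf

theorem boot {X : Type} (p : X → Prop) (g : X → ℝ) {c M1 : ℝ} (hc : 0 ≤ c) (h1 : ∀ x, p x → g x ≤ M1)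
    (h : ∀ M, 0 ≤ M → (∀ x, p x → g x ≤ M) → ∀ x, p x → g x ≤ c + M / 2) :
    ∀ x, p x → g x ≤ 2 * c := by
  have h2 : ∀ n : ℕ, ∀ x, p x → g x ≤ 2 * c + |M1| * (1 / 2) ^ n := by
    intro n
    induction n with
    | zero => intro x hx; have := h1 x hx; have := le_abs_self M1; simp only [pow_zero]; linarith
    | succ n ih =>
      intro x hx
      have := h _ (by positivity) ih x hx
      rw [pow_succ]; linarith
  intro x hx
  have h3 : Tendsto (fun n : ℕ => 2 * c + |M1| * (1 / 2 : ℝ) ^ n) atTop (𝓝 (2 * c + |M1| * 0)) :=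
    ((tendsto_pow_atTop_nhds_zero_of_lt_one (by norm_num) (by norm_num)).const_mul _).const_add _
  simpa using ge_of_tendsto' h3 fun n => h2 n x hx

end Pool.Agent.H61.Big
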