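import Pool.Agent.Lead.Sel.Core

/- Representation of functionals by absolutely convergent series, and the abstract core. -/

set_option autoImplicit false
open Filter Topology ArithmeticFunction

namespace Pool.Agent.H61.Big
open Pool.Agent.Lead.Sel

abbrev XI := lp (fun _ : ℕ => ℝ) ⊤

theorem trunc_apply (a : ℕ → ℝ) (n j : ℕ) :
    (∑ i ∈ Finset.range n, lp.single ⊤ i (a i) : XI) j = if j ∈ Finset.range n then a j else 0 := by
  simp only [lp.coeFn_sum, lp.coeFn_single, Finset.sum_apply, Finset.sum_pi_single]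

theorem dual_c0 (g : StrongDual ℝ XI) :
    ∃ β : X1, ‖β‖ ≤ ‖g‖ ∧ ∀ y : XI, Tendsto (fun i => y i) atTop (𝓝 0) → ∑' i, β i * y i = g y := by
  set b : ℕ → ℝ := fun i => g (lp.single ⊤ i 1) with hb
  have h1 : ∀ (a : ℕ → ℝ) (n : ℕ), g (∑ i ∈ Finset.range n, lp.single ⊤ i (a i)) =
      ∑ i ∈ Finset.range n, b i * a i := by
    intro a n
    rw [map_sum]
    refine Finset.sum_congr rfl fun i _ => ?_
    have : (lp.single ⊤ i (a i) : XI) = a i • lp.single ⊤ i 1 := by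
      rw [← lp.single_smul]; simp
    rw [this, map_smul, smul_eq_mul, mul_comm]
  have h2 : ∀ n, ∑ i ∈ Finset.range n, |b i| ≤ ‖g‖ := by
    intro n
    have a1 := h1 (fun i => if 0 ≤ b i then 1 else -1) n
    have a2 : ‖(∑ i ∈ Finset.range n, lp.single ⊤ i (if 0 ≤ b i then (1 : ℝ) else -1) : XI)‖ ≤ 1 := by
      refine lp.norm_le_of_forall_le zero_le_one fun j => ?_
      rw [trunc_apply]
      split_ifs <;> simp
    have a3 := (le_abs_self _).trans ((g.le_opNorm _).trans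
      (mul_le_of_le_one_right (norm_nonneg g) a2))
    rw [a1] at a3
    refine le_trans (le_of_eq (Finset.sum_congr rfl fun i _ => ?_)) a3
    split_ifs with h
    · rw [abs_of_nonneg h, mul_one]
    · rw [abs_of_neg (not_le.1 h)]; ring
  have hs : Summable fun i => |b i| := summable_of_sum_range_le (fun _ => abs_nonneg _) h2
  refine ⟨X1.mk b hs, ?_, fun y hy => ?_⟩
  · rw [X1.norm_eq]
    exact Real.tsum_le_of_sum_range_le (fun _ => abs_nonneg _) h2
  · have a1 : Tendsto (fun n => (∑ i ∈ Finset.range n, lp.single ⊤ i (y i) : XI)) atTop (𝓝 y) := by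
      rw [Metric.tendsto_atTop] at hy ⊢
      intro ε hε
      obtain ⟨N, hN⟩ := hy (ε / 2) (by linarith)
      refine ⟨N, fun n hn => ?_⟩
      rw [dist_eq_norm]
      refine lt_of_le_of_lt (lp.norm_le_of_forall_le (C := ε / 2) (by linarith) fun j => ?_)
        (by linarith)
      rw [lp.coeFn_sub, Pi.sub_apply, trunc_apply]
      split_ifs with h
      · simp; linarith
      · have := hN j (by rw [Finset.mem_range] at h; omega)
        rw [dist_zero_right] at this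
        rw [zero_sub, norm_neg]; exact this.le
    have a2 := (g.continuous.tendsto y).comp a1
    have a3 := (X1.summable_mul (X1.mk b hs) (fun i => y i) ‖y‖ fun i =>
      lp.norm_apply_le_norm (by simp) y i).hasSum.tendsto_sum_nat
    refine tendsto_nhds_unique a3 (a2.congr fun n => ?_)
    simp only [Function.comp, h1, X1.mk_apply]

theorem repr {E : Type} [AddCommGroup E] [Module ℝ E] (Ψ : ℕ → E →ₗ[ℝ] ℝ) (Lm : E →ₗ[ℝ] ℝ) {C : ℝ}
    (hC : 0 ≤ C) (h0 : ∀ f, Tendsto (fun i => Ψ i f) atTop (𝓝 0))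
    (hb : ∀ f M, (∀ i, |Ψ i f| ≤ M) → |Lm f| ≤ C * M) :
    ∃ β : X1, ‖β‖ ≤ C ∧ ∀ f, ∑' i, β i * Ψ i f = Lm f := by
  have hm : ∀ f, Memℓp (fun i => Ψ i f) ⊤ := fun f =>
    memℓp_infty (h0 f).norm.bddAbove_range
  let Φ : E →ₗ[ℝ] XI :=
    { toFun := fun f => ⟨fun i => Ψ i f, hm f⟩
      map_add' := fun f g => by ext i; exact map_add (Ψ i) f g
      map_smul' := fun c f => by ext i; simp }
  have hΦ : ∀ f i, Φ f i = Ψ i f := fun f i => rfl
  have hn : ∀ f, |Lm f| ≤ C * ‖Φ f‖ := fun f =>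
    hb f _ fun i => by rw [← hΦ]; exact lp.norm_apply_le_norm (by simp) (Φ f) i
  have : Module.Free ℝ (LinearMap.range Φ) := Module.Free.of_divisionRing ℝ _
  have : Module.Projective ℝ (LinearMap.range Φ) := Module.Projective.of_free
  obtain ⟨r, hr⟩ := Φ.rangeRestrict.exists_rightInverse_of_surjective Φ.range_rangeRestrict
  have hr' : ∀ y : LinearMap.range Φ, Φ (r y) = y := fun y =>
    congrArg Subtype.val (LinearMap.congr_fun hr y)
  let L : StrongDual ℝ (LinearMap.range Φ) := (Lm.comp r).mkContinuous C fun y => by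
    have := hn (r y)
    rwa [hr'] at this
  obtain ⟨g, hg, hgn⟩ := exists_extension_norm_eq (LinearMap.range Φ) L
  obtain ⟨β, h1, h2⟩ := dual_c0 g
  refine ⟨β, h1.trans (hgn.le.trans (LinearMap.mkContinuous_norm_le _ hC _)), fun f => ?_⟩
  have h3 := h2 (Φ f) (h0 f)
  simp only [hΦ] at h3
  rw [h3, hg ⟨Φ f, f, rfl⟩]
  have h4 := hn (r ⟨Φ f, f, rfl⟩ - f)
  rw [map_sub, map_sub, hr', sub_self, norm_zero, mul_zero, abs_nonpos_iff, sub_eq_zero] at h4
  exact h4

/-- disjoint windows with weights -/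
structure Win where
  N : ℕ → Finset ℕ
  ρ : ℕ → ℝ
  ne : ∀ i, (N i).Nonempty
  ρpos : ∀ i, 0 < ρ i
  disj : ∀ i j p, p ∈ N i → p ∈ N j → i = j

namespace Win
variable (D : Win)

theorem card_pos (i : ℕ) : (0 : ℝ) < (D.N i).card := by exact_mod_cast (D.ne i).card_pos

open Classical in
noncomputable def cmf (β : X1) (n : ℕ) : ℝ :=
  if h : ∃ i, n ∈ D.N i then β h.choose * D.ρ h.choose / (D.N h.choose).card else 0

theorem cmf_mem (β : X1) {i p : ℕ} (hp : p ∈ D.N i) :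
    D.cmf β p = β i * D.ρ i / (D.N i).card := by
  have h : ∃ i, p ∈ D.N i := ⟨i, hp⟩
  have : h.choose = i := D.disj _ _ p h.choose_spec hp
  unfold cmf
  rw [dif_pos h, this]

theorem cmf_not (β : X1) {n : ℕ} (h : ¬ ∃ i, n ∈ D.N i) : D.cmf β n = 0 := by
  unfold cmf; rw [dif_neg h]

theorem avg_bd (g : ℕ → ℝ) (M : ℝ) (hg : ∀ i, ∀ p ∈ D.N i, |g p| * D.ρ i ≤ M) (i : ℕ) :
    |D.ρ i * ((∑ p ∈ D.N i, g p) / (D.N i).card)| ≤ M := by
  have hc := D.card_pos i
  have hρ := D.ρpos i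
  rw [abs_mul, abs_div, abs_of_pos hρ, abs_of_pos hc, ← mul_div_assoc, div_le_iff₀ hc]
  refine (mul_le_mul_of_nonneg_left (Finset.abs_sum_le_sum_abs _ _) hρ.le).trans ?_
  rw [Finset.mul_sum]
  calc _ ≤ ∑ p ∈ D.N i, M := Finset.sum_le_sum fun p hp => by rw [mul_comm]; exact hg i p hp
    _ = _ := by simp [mul_comm]

theorem cmf_hasSum (β : X1) (g : ℕ → ℝ) (M : ℝ) (hg : ∀ i, ∀ p ∈ D.N i, |g p| * D.ρ i ≤ M) :
    HasSum (fun n => D.cmf β n * g n)
      (∑' i, β i * (D.ρ i * ((∑ p ∈ D.N i, g p) / (D.N i).card))) := by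
  set F : (Σ i : ℕ, D.N i) → ℝ := fun q => β q.1 * D.ρ q.1 / (D.N q.1).card * g q.2.1 with hF
  have hFs : Summable F := by
    refine Summable.of_norm ?_
    rw [summable_sigma_of_nonneg (fun q => norm_nonneg _)]
    refine ⟨fun i => (hasSum_fintype _).summable, ?_⟩
    refine Summable.of_nonneg_of_le (fun i => tsum_nonneg fun _ => norm_nonneg _) (fun i => ?_)
      ((X1.summable β).mul_right M)
    rw [tsum_fintype]
    have hc := D.card_pos i
    have hρ := D.ρpos i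
    have : ∀ p : D.N i, ‖F ⟨i, p⟩‖ ≤ |β i| * M / (D.N i).card := by
      intro p
      simp only [hF, Real.norm_eq_abs, abs_mul, abs_div, abs_of_pos hρ, abs_of_pos hc]
      have := hg i p.1 p.2
      calc |β i| * D.ρ i / (D.N i).card * |g p.1|
          = |β i| * (|g p.1| * D.ρ i) / (D.N i).card := by ring
        _ ≤ _ := by gcongr
    refine (Finset.sum_le_sum fun p _ => this p).trans (le_of_eq ?_)
    simp only [Finset.sum_const, Finset.card_univ, Fintype.card_coe, nsmul_eq_mul]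
    field_simp
  have hval : ∑' q, F q = ∑' i, β i * (D.ρ i * ((∑ p ∈ D.N i, g p) / (D.N i).card)) := by
    rw [hFs.tsum_sigma]
    congr 1; funext i
    rw [tsum_fintype]
    simp only [hF]
    rw [← Finset.mul_sum, Finset.sum_coe_sort (D.N i) g]; ring
  rw [← hval]
  have hinj : Function.Injective (fun q : (Σ i : ℕ, D.N i) => q.2.1) := by
    rintro ⟨i, p, hp⟩ ⟨j, q, hq⟩ h
    have h' : p = q := h
    subst h'
    have := D.disj i j p hp hq
    subst this; rfl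
  rw [← hinj.hasSum_iff (f := fun n => D.cmf β n * g n)]
  · refine hFs.hasSum.congr_fun ?_
    rintro ⟨i, p, hp⟩
    simp only [Function.comp, hF]
    rw [D.cmf_mem β hp]
  · intro n hn
    rw [D.cmf_not β, zero_mul]
    rintro ⟨i, hi⟩
    exact hn ⟨⟨i, n, hi⟩, rfl⟩

theorem core {E : Type} (Y : E → ℕ → ℝ) (σ A ε : ℝ)
    (h2 : ∀ i, ∀ p ∈ D.N i, 2 ≤ p) (hA : 0 ≤ A) (hε : 0 ≤ ε)
    (hw : ∀ i, ∀ p ∈ D.N i, (p : ℝ) ^ (-σ) * D.ρ i ≤ ε)
    (h64 : 64 * ε ≤ 1) (h128 : 128 * A * ε ^ 2 ≤ 1)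
    (hY : ∀ f, ∃ M, ∀ i, ∀ p ∈ D.N i, |Y f p| * D.ρ i ≤ M)
    (hR : ∀ n : ℕ, ∃ β : X1, 1 ≤ n → ‖β‖ ≤ 16 ∧ ‖β‖ ≤ A * (n : ℝ) ^ (-σ) ∧
      ∀ f, ∑' i, β i * (D.ρ i * ((∑ p ∈ D.N i, Y f p) / (D.N i).card)) = Y f n) :
    ∃ c : ArithmeticFunction ℝ, Nle σ c 1 ∧ c 1 = 0 ∧ (∀ n, (¬ ∃ i, n ∈ D.N i) → c n = 0) ∧
      (∀ i, ∀ p ∈ D.N i, |c p| ≤ 32 * D.ρ i / (D.N i).card) ∧
      ∀ f, HasSum (fun n => aexp c n * Y f n) 0 := by
  choose R hR using hR
  have h0 : ∀ β : X1, D.cmf β 0 = 0 := fun β => D.cmf_not β (by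
    rintro ⟨i, hi⟩; have := h2 i 0 hi; omega)
  set cm : X1 → ArithmeticFunction ℝ := fun β => ⟨D.cmf β, h0 β⟩ with hcm
  have hcm' : ∀ β n, cm β n = D.cmf β n := fun β n => rfl
  have hsub : ∀ β γ, cm β - cm γ = cm (β - γ) := by
    intro β γ; ext n
    rw [af_sub_apply, hcm', hcm', hcm']
    by_cases h : ∃ i, n ∈ D.N i
    · obtain ⟨i, hi⟩ := h
      rw [D.cmf_mem _ hi, D.cmf_mem _ hi, D.cmf_mem _ hi]
      simp only [lp.coeFn_sub, Pi.sub_apply]; ring
    · rw [D.cmf_not _ h, D.cmf_not _ h, D.cmf_not _ h, sub_zero]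
  have hN : ∀ β, Nle σ (cm β) (ε * ‖β‖) := by
    intro β
    set β' : X1 := X1.mk (fun i => |β i|) (by simpa using X1.summable β) with hβ'
    have hw' : ∀ i, ∀ p ∈ D.N i, |(p : ℝ) ^ (-σ)| * D.ρ i ≤ ε := by
      intro i p hp
      rw [abs_of_nonneg (by positivity)]; exact hw i p hp
    have hs := D.cmf_hasSum β' (fun n => (n : ℝ) ^ (-σ)) ε hw'
    have e : (fun n => D.cmf β' n * (n : ℝ) ^ (-σ)) = wt σ (cm β) := by
      funext n
      unfold wt
      rw [hcm']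
      by_cases h : ∃ i, n ∈ D.N i
      · obtain ⟨i, hi⟩ := h
        rw [D.cmf_mem _ hi, D.cmf_mem _ hi, abs_div, abs_mul, abs_of_pos (D.ρpos i),
          abs_of_pos (D.card_pos i)]
        simp [hβ']
      · rw [D.cmf_not _ h, D.cmf_not _ h]; simp
    rw [e] at hs
    refine ⟨hs.summable, ?_⟩
    rw [hs.tsum_eq, X1.norm_eq, mul_comm, ← tsum_mul_right]
    have hb := D.avg_bd (fun n => (n : ℝ) ^ (-σ)) ε hw'
    refine (X1.summable_mul β' _ ε hb).tsum_le_tsum (fun i => ?_) ((X1.summable β).mul_right ε)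
    simp only [hβ', X1.mk_apply]
    exact mul_le_mul_of_nonneg_left (le_trans (le_abs_self _) (hb i)) (abs_nonneg _)
  have hR' : ∀ n, 1 ≤ n → ‖R n‖ ≤ A * (n : ℝ) ^ (-σ) := fun n hn => (hR n hn).2.1
  obtain ⟨β, hβ, hfix⟩ := exists_fix σ A ε R hA hR' (hR 1 le_rfl).1 cm hsub hN hε h64 h128
  have hN1 : Nle σ (cm β) 1 := (hN β).mono (by nlinarith [norm_nonneg β])
  refine ⟨cm β, hN1, ?_, fun n hn => D.cmf_not β hn, ?_, ?_⟩
  · exact D.cmf_not β (by rintro ⟨i, hi⟩; have := h2 i 1 hi; omega)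
  · intro i p hp
    rw [hcm', D.cmf_mem _ hp, abs_div, abs_mul, abs_of_pos (D.ρpos i),
      abs_of_pos (D.card_pos i)]
    have h3 : |β i| ≤ 32 := by
      have := lp.norm_apply_le_norm (by norm_num) β i
      rw [Real.norm_eq_abs] at this; linarith
    exact div_le_div_of_nonneg_right (mul_le_mul_of_nonneg_right h3 (D.ρpos i).le)
      (D.card_pos i).le
  · intro f
    obtain ⟨M, hM⟩ := hY f
    set ev := pair _ M (D.avg_bd (Y f) M hM) with hev
    have hevR : ∀ n, 1 ≤ n → ev (R n) = Y f n := fun n hn => (hR n hn).2.2 f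
    have hg : ∀ n : ℕ, 1 ≤ n → ‖Y f n‖ ≤ ‖ev‖ * A * (n : ℝ) ^ (-σ) := by
      intro n hn
      rw [← hevR n hn, mul_assoc]
      exact (ev.le_opNorm _).trans (mul_le_mul_of_nonneg_left (hR' n hn) (norm_nonneg _))
    obtain ⟨hs, hh⟩ := hasSum_aexp (E := ℝ) hN1 (Y f) _ hg
    simp only [smul_eq_mul] at hs hh
    suffices hz : (∑' k : ℕ, ((k.factorial : ℝ)⁻¹) * ∑' n, (cm β ^ k) n * Y f n) = 0 by
      rw [hz] at hh; exact hh
    have hT : ∀ k : ℕ, ev (∑' n, (cm β ^ k) n • R n) = ∑' n, (cm β ^ k) n * Y f n := by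
      intro k
      rw [ev.map_tsum (T_bound hA hR' (hN1.pow k)).1]
      congr 1; funext n
      rcases Nat.eq_zero_or_pos n with rfl | hn
      · simp
      · rw [map_smul, hevR n hn, smul_eq_mul]
    have hsX := (hasSum_aexp (E := X1) hN1 R A hR').1
    have hsX2 := (summable_nat_add_iff 2).2 hsX
    have e1 := congrArg ev hfix
    rw [map_sub, map_neg, ev.map_tsum hsX2, hevR 1 le_rfl] at e1
    simp only [map_smul, hT, smul_eq_mul] at e1
    have e2 : ev β = ∑' n, (cm β ^ 1) n * Y f n := by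
      have := D.cmf_hasSum β (Y f) M hM
      rw [pow_one]
      simp only [hcm']
      rw [this.tsum_eq]; rfl
    have e3 : ∑' n, (cm β ^ 0) n * Y f n = Y f 1 := by
      rw [pow_zero, tsum_eq_single 1]
      · simp
      · intro n hn; simp [ArithmeticFunction.one_apply_ne hn]
    rw [← hs.sum_add_tsum_nat_add 2, Finset.sum_range_succ, Finset.sum_range_one, e3, ← e2, e1]
    simp only [Nat.factorial_zero, Nat.factorial_one, Nat.cast_one, inv_one, one_mul]
    ring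

end Win

end Pool.Agent.H61.Big
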