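import Pool.Agent.H61.BigN
import Pool.Agent.H61.BigH

/- The geometry of the windows and the existence of the correcting coefficients. -/

set_option autoImplicit false
open Filter Topology ArithmeticFunction MeasureTheory

namespace Pool.Agent.H61.Big
open Pool.Agent.Lead.Sel

theorem near2 {η δ β κ : ℝ} {J j : ℕ} (hκ : κ = δ / (J : ℝ) ^ β) (hδ : 0 < δ) (hδ1 : δ ≤ 1 / 2) (hδη : 2 ^ 105 * δ ≤ η ^ 4)
    (hβ0 : 0 < β) (hβ : β ≤ 1 / 256)
    (hJ : 25 ≤ J) (hj : J ≤ j) (hJδ : 3 ^ 104 ≤ η ^ 4 * (J : ℝ) ^ (1 / 2 : ℝ)) {x u : ℝ} (hx : 0 < x)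
    (hx1 : x ≤ κ * ((j : ℝ) + 1) ^ β)
    (hx2 : κ * (j : ℝ) ^ β < x ∨ (j = J ∧ x ≤ κ * (J : ℝ) ^ β))
    (hu1 : κ * (j : ℝ) ^ β < u) (hu2 : u ≤ κ * ((j : ℝ) + 1) ^ β) :
    |x - u| * (1 + x) ^ 104 ≤ η ^ 4 ∧ (1 + x) ^ 25 ≤ 8 * (1 + κ * (j : ℝ) ^ β) ^ 25 := by
  have hJ0 : (0 : ℝ) < J := by exact_mod_cast (by omega : 0 < J)
  have hj25 : (25 : ℝ) ≤ j := by exact_mod_cast hJ.trans hj
  have hj1 : (1 : ℝ) ≤ j := by linarith
  have hj0 : (0 : ℝ) < j := by linarith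
  have hη : 0 ≤ η ^ 4 := by positivity
  have hκ0 : 0 < κ := by rw [hκ]; positivity
  set U := κ * (j : ℝ) ^ β with hU
  have hU0 : 0 < U := by positivity
  have hs := succ_rpow_le (j := j) (by omega) hβ0.le (by linarith)
  have hU' : κ * ((j : ℝ) + 1) ^ β ≤ U * (1 + 1 / j) := by
    rw [hU, mul_assoc]; gcongr
  have hinv : 1 / (j : ℝ) ≤ 1 / 25 := by gcongr
  have h2U : κ * ((j : ℝ) + 1) ^ β ≤ 26 / 25 * U := by
    linarith [mul_le_mul_of_nonneg_left hinv hU0.le]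
  constructor
  · rcases hx2 with h | ⟨h, h'⟩
    · have h3 : |x - u| ≤ U / j := by
        have : U * (1 + 1 / j) = U + U / j := by ring
        rw [abs_le]; constructor <;> linarith
      have hκ1 : κ ≤ 1 := by
        rw [hκ, div_le_one (by positivity)]
        exact le_trans (by linarith) (Real.one_le_rpow (by exact_mod_cast (by omega : 1 ≤ J)) hβ0.le)
      set w := (j : ℝ) ^ (1 / 256 : ℝ) with hw
      have hw1 : 1 ≤ w := Real.one_le_rpow hj1 (by norm_num)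
      have hUw : U ≤ w := by
        calc U ≤ 1 * (j : ℝ) ^ β := by rw [hU]; gcongr
          _ ≤ w := by rw [one_mul]; exact Real.rpow_le_rpow_of_exponent_le hj1 hβ
      have h4 : 1 + x ≤ 3 * w := by linarith
      have h5 : w ^ 256 = j := by
        rw [hw, ← Real.rpow_natCast, ← Real.rpow_mul hj0.le]; norm_num
      have h6 : (J : ℝ) ^ (1 / 2 : ℝ) ≤ w ^ 128 := by
        rw [hw, ← Real.rpow_natCast, ← Real.rpow_mul hj0.le]
        have : (1 / 256 : ℝ) * ((128 : ℕ) : ℝ) = 1 / 2 := by norm_num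
        rw [this]; gcongr
      calc |x - u| * (1 + x) ^ 104 ≤ (w / j) * (3 * w) ^ 104 := by
            gcongr; exact h3.trans (by gcongr)
        _ = 3 ^ 104 / w ^ 151 := by rw [← h5]; field_simp
        _ ≤ η ^ 4 := by
            rw [div_le_iff₀ (by positivity)]
            refine hJδ.trans (mul_le_mul_of_nonneg_left (h6.trans ?_) hη)
            exact pow_le_pow_right₀ hw1 (by norm_num)
    · subst h
      have hUδ : U = δ := by rw [hU, hκ]; field_simp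
      have h3 : |x - u| ≤ 2 * δ := by rw [abs_le]; constructor <;> linarith
      have h4 : 1 + x ≤ 2 := by linarith
      calc |x - u| * (1 + x) ^ 104 ≤ (2 * δ) * 2 ^ 104 := by gcongr
        _ = 2 ^ 105 * δ := by ring
        _ ≤ _ := hδη
  · have h4 : 1 + x ≤ 26 / 25 * (1 + U) := by linarith
    calc (1 + x) ^ 25 ≤ (26 / 25 * (1 + U)) ^ 25 := by gcongr
      _ = (26 / 25) ^ 25 * (1 + U) ^ 25 := mul_pow _ _ _
      _ ≤ _ := by gcongr; norm_num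

/-- the test functions form a vector space -/
def TS (P : Par) : Submodule ℝ (ℝ → ℝ) where
  carrier := {f | Test P.K f}
  zero_mem' := ⟨continuous_const, fun _ => ⟨0, fun x _ => by simp⟩, fun x _ => by simp⟩
  add_mem' := by
    intro f g hf hg
    refine ⟨hf.cont.add hg.cont, fun R => ?_, fun x hx => ?_⟩
    · obtain ⟨M1, h1⟩ := hf.rap R
      obtain ⟨M2, h2⟩ := hg.rap R
      refine ⟨M1 + M2, fun x hx => ?_⟩
      have := mul_le_mul_of_nonneg_right (abs_add_le (f x) (g x)) (by positivity : 0 ≤ (1 + x) ^ R)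
      simp only [Pi.add_apply]
      linarith [h1 x hx, h2 x hx]
    · obtain ⟨M1, h1⟩ := hf.rap 3
      obtain ⟨M2, h2⟩ := hg.rap 3
      simp only [Pi.add_apply, mul_add]
      rw [integral_add (int_ker P.contK P.C0pos P.lip hf.cont h1 hx)
        (int_ker P.contK P.C0pos P.lip hg.cont h2 hx), ← hf.fix x hx, ← hg.fix x hx]
  smul_mem' := by
    intro c f hf
    refine ⟨hf.cont.const_smul c, fun R => ?_, fun x hx => ?_⟩
    · obtain ⟨M1, h1⟩ := hf.rap R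
      refine ⟨|c| * M1, fun x hx => ?_⟩
      simp only [Pi.smul_apply, smul_eq_mul, abs_mul, mul_assoc]
      exact mul_le_mul_of_nonneg_left (h1 x hx) (abs_nonneg c)
    · simp only [Pi.smul_apply, smul_eq_mul, mul_left_comm _ c]
      rw [integral_const_mul, ← hf.fix x hx]

/-- evaluation of the transform -/
noncomputable def evT (P : Par) (x : ℝ) (hx : P.κ ≤ x) : TS P →ₗ[ℝ] ℝ where
  toFun f := TT P.d P.w f.1 x
  map_add' f g := by
    unfold TT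
    rw [← (TT_summable P.hd P.κpos (P.rap f.2) P.gw.z0 P.gw.bd hx).tsum_add
      (TT_summable P.hd P.κpos (P.rap g.2) P.gw.z0 P.gw.bd hx)]
    congr 1; funext n
    simp [mul_add]
  map_smul' c f := by
    unfold TT
    simp only [RingHom.id_apply, smul_eq_mul]
    rw [← tsum_mul_left]
    congr 1; funext n
    simp [mul_left_comm]

theorem reprT (P : Par) (D : Win) (u U : ℕ → ℝ) {η : ℝ} (hη : 0 < η) (hη1 : η ≤ 1)
    (hη2 : 8 * (P.C0 + 1) * η ≤ 1) (hu : ∀ i, ∀ p ∈ D.N i, P.κ ≤ u p)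
    (hU0 : ∀ i, 0 ≤ U i) (hU : ∀ i, ∀ p ∈ D.N i, U i ≤ u p) (hρ : ∀ i, D.ρ i = (1 + U i) ^ 25)
    (hUt : Tendsto U atTop atTop)
    (hcell : ∀ x, P.κ ≤ x → ∃ i, (1 + x) ^ 25 ≤ 8 * D.ρ i ∧
      ∀ p ∈ D.N i, |x - u p| * (1 + x) ^ 104 ≤ η ^ 4) {x : ℝ} (hx : P.κ ≤ x) :
    ∃ β : X1, ‖β‖ ≤ 16 / (1 + x) ^ 25 ∧ ∀ f : TS P,
      ∑' i, β i * (D.ρ i * ((∑ p ∈ D.N i, TT P.d P.w f.1 (u p)) / (D.N i).card)) =
        TT P.d P.w f.1 x := by
  have hx0 : 0 < x := P.κpos.trans_le hx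
  let Ψ : ℕ → TS P →ₗ[ℝ] ℝ := fun i =>
    (D.ρ i / (D.N i).card) • ∑ p ∈ (D.N i).attach, evT P (u p.1) (hu i p.1 p.2)
  have hΨ : ∀ i f, Ψ i f = D.ρ i * ((∑ p ∈ D.N i, TT P.d P.w f.1 (u p)) / (D.N i).card) := by
    intro i f
    simp only [Ψ, LinearMap.smul_apply, LinearMap.sum_apply, smul_eq_mul, evT, LinearMap.coe_mk,
      AddHom.coe_mk]
    rw [Finset.sum_attach (D.N i) fun p => TT P.d P.w f.1 (u p)]
    ring
  obtain ⟨β, h1, h2⟩ := repr Ψ (evT P x hx) (C := 16 / (1 + x) ^ 25) (by positivity)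
    (fun f => by
      obtain ⟨M, hM⟩ := TT_rap P.hd P.κpos (P.rap f.2) P.gw.z0 P.gw.bd 26
      have ht : Tendsto (fun i => M * (1 + U i)⁻¹) atTop (𝓝 0) := by
        simpa using (tendsto_inv_atTop_zero.comp (tendsto_atTop_add_const_left _ 1 hUt)).const_mul M
      refine squeeze_zero_norm (fun i => ?_) ht
      rw [hΨ, Real.norm_eq_abs]
      have hc := D.card_pos i
      have h0 := hU0 i
      rw [abs_mul, abs_div, abs_of_pos (D.ρpos i), abs_of_pos hc, ← mul_div_assoc, div_le_iff₀ hc]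
      refine (mul_le_mul_of_nonneg_left (Finset.abs_sum_le_sum_abs _ _) (D.ρpos i).le).trans ?_
      rw [Finset.mul_sum]
      refine (Finset.sum_le_card_nsmul _ _ (M * (1 + U i)⁻¹) fun p hp => ?_).trans
        (by rw [nsmul_eq_mul, mul_comm])
      have a1 := hU i p hp
      rw [hρ, ← div_eq_mul_inv, le_div_iff₀ (by positivity)]
      refine le_trans ?_ (hM _ (hu i p hp))
      rw [mul_comm _ |_|, mul_assoc, ← pow_succ]
      gcongr)
    (fun f M hM => by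
      have := P.norming f.2 D.N u D.ρ hη hη1 hη2 D.ne hu hcell (B := M)
        (fun i => by rw [← hΨ]; exact hM i) x hx
      rw [div_mul_eq_mul_div, le_div_iff₀ (by positivity)]
      exact this)
  exact ⟨β, h1, fun f => by simp only [← hΨ]; exact h2 f⟩

theorem exo2 (K : ℝ → ℝ) (C0 : ℝ) (hK : Continuous K) (hC : 0 < C0)
    (hlip : ∀ r r' : ℝ, 0 ≤ r → 0 ≤ r' → |K r - K r'| ≤ C0 * |r - r'|)
    (L : ℕ) (hL : 1 ≤ L) (d : ℝ) (hd : 256 * (L : ℝ) ≤ d) (P : ℕ → Finset ℕ) (J0 : ℕ)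
    (hP : ∀ j, J0 ≤ j → (P j).Nonempty ∧ ∀ p ∈ P j, j ^ L < p ∧ p ≤ (j + 1) ^ L)
    (Q : ArithmeticFunction ℝ → Prop) (k2 : ℕ)
    (hW : ∀ k0, k2 ≤ k0 → ∃ w v : ArithmeticFunction ℝ, Good ((2 : ℝ) ^ (1 / d)) k0 w ∧
      Good ((2 : ℝ) ^ (1 / d)) k0 v ∧ v * w = 1 ∧ Q w) :
    ∃ κ : ℝ, 0 < κ ∧ ∃ w : ArithmeticFunction ℝ, Q w ∧ (∀ n, |w n| ≤ 1) ∧
      ∃ c : ArithmeticFunction ℝ, Nle (25 / d) c 1 ∧ c 1 = 0 ∧
      (∀ n, c n ≠ 0 → ∃ j, J0 ≤ j ∧ n ∈ P j ∧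
        |c n| ≤ 2 ^ 30 * (n : ℝ) ^ (25 / d) / (P j).card) ∧
      ∀ f : ℝ → ℝ, Test K f → HasSum (fun n : ℕ => aexp c n * TT d w f (κ * ee d n)) 0 := by
  have hL' : (1 : ℝ) ≤ L := by exact_mod_cast hL
  have hd0 : 0 < d := by linarith
  have hd1 : 1 ≤ d := by linarith
  obtain ⟨β, hβ⟩ : ∃ β : ℝ, β = L / d := ⟨_, rfl⟩
  have hβ0 : 0 < β := by rw [hβ]; positivity
  have hβ1 : β ≤ 1 / 256 := by rw [hβ, div_le_iff₀ hd0]; linarith
  obtain ⟨η, hη0, hη2⟩ : ∃ η : ℝ, 0 < η ∧ 8 * (C0 + 1) * η ≤ 1 :=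
    ⟨1 / (8 * (C0 + 1)), by positivity, by field_simp; exact le_rfl⟩
  have hCη : 0 < C0 * η := mul_pos hC hη0
  have hη1 : η ≤ 1 := by linarith
  obtain ⟨δ, hδ0, hδη⟩ : ∃ δ : ℝ, 0 < δ ∧ 2 ^ 105 * δ ≤ η ^ 4 :=
    ⟨η ^ 4 / 2 ^ 105, by positivity, by field_simp; exact le_rfl⟩
  have hδ3 : 2 ^ 105 * δ ≤ η := hδη.trans (pow_le_of_le_one hη0.le hη1 (by norm_num))
  have hδ1 : δ ≤ 1 / 2 := by linarith
  obtain ⟨q, hq⟩ : ∃ q : ℝ, q = (1 + 1 / δ) ^ 25 := ⟨_, rfl⟩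
  have hq1 : 1 ≤ q := hq ▸ one_le_pow₀ (le_add_of_nonneg_right (by positivity))
  have hT : ∀ γ : ℝ, 0 < γ → Tendsto (fun J : ℕ => (J : ℝ) ^ γ) atTop atTop := fun γ hγ =>
    (tendsto_rpow_atTop hγ).comp tendsto_natCast_atTop_atTop
  obtain ⟨J, hJ0, hJ1, hJ2, hJ3⟩ : ∃ J : ℕ, J0 ≤ J ∧ 25 ≤ J ∧
      3 ^ 104 / η ^ 4 ≤ (J : ℝ) ^ (1 / 2 : ℝ) ∧ 2048 * q ^ 2 ≤ (J : ℝ) ^ β :=
    ((eventually_ge_atTop J0).and ((eventually_ge_atTop 25).and
      (((hT _ (by norm_num)).eventually_ge_atTop _).and ((hT _ hβ0).eventually_ge_atTop _)))).exists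
  have hJr : (1 : ℝ) ≤ J := by exact_mod_cast (by omega : 1 ≤ J)
  obtain ⟨κ, hκ⟩ : ∃ κ : ℝ, κ = δ / (J : ℝ) ^ β := ⟨_, rfl⟩
  have hκ0 : 0 < κ := by rw [hκ]; positivity
  have hκδ : κ ≤ δ := hκ ▸ div_le_self hδ0.le (Real.one_le_rpow hJr hβ0.le)
  have hκs : κ ≤ 1 / (2048 * q ^ 2) := by
    rw [hκ]; exact div_le_div₀ zero_le_one (by linarith) (by positivity) hJ3
  have hκ1 : κ ≤ 1 := by linarith
  have hκ3 : κ ^ 25 * (2048 * q ^ 2) ≤ 1 := by
    rw [le_div_iff₀ (by positivity)] at hκs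
    have : κ ^ 24 ≤ 1 := pow_le_one₀ hκ0.le hκ1
    calc κ ^ 25 * (2048 * q ^ 2) = κ ^ 24 * (κ * (2048 * q ^ 2)) := by ring
      _ ≤ 1 * 1 := by gcongr
      _ = 1 := by ring
  have hJ2' : 3 ^ 104 ≤ η ^ 4 * (J : ℝ) ^ (1 / 2 : ℝ) := by
    rw [div_le_iff₀ (by positivity)] at hJ2; linarith
  obtain ⟨τ, hτ0, hτ1, hτ2⟩ : ∃ τ : ℝ, 0 < τ ∧ τ ≤ η * κ ^ 2 / 24 ∧
      τ ≤ 1 / (3 * (28 * C0 + 4 / κ ^ 11)) :=
    ⟨_, lt_min (by positivity) (by positivity), min_le_left _ _, min_le_right _ _⟩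
  rw [le_div_iff₀ (by positivity)] at hτ2
  obtain ⟨k0, hk0, hk1⟩ := exists_k0 (ζ := (2 : ℝ) ^ (1 / d))
    (Real.one_lt_rpow one_lt_two (by positivity)) hτ0 (k2 + 1)
  obtain ⟨w, v, gw, gv, hinv, hQ⟩ := hW k0 (by omega)
  let Pa : Par :=
    { K := K, C0 := C0, d := d, κ := κ, τ := τ, η := η, k0 := k0, w := w, v := v,
      contK := hK, C0pos := hC, lip := hlip, hd := hd1, κpos := hκ0, κ1 := hκ1,
      κ2 := by linarith [mul_le_mul_of_nonneg_left hκδ hC.le, mul_le_mul_of_nonneg_left hδ3 hC.le,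
        mul_pos hC hδ0],
      hk0 := by omega, hτ := hk1, gw := gw, gv := gv, inv := hinv, ηpos := hη0, η1 := hη1,
      η2 := by linarith, τ1 := by linarith, τ2 := by linarith }
  have hnode : ∀ i, ∀ p ∈ P (J + i), κ * ((J + i : ℕ) : ℝ) ^ β < κ * ee d p ∧
      κ * ee d p ≤ κ * (((J + i : ℕ) : ℝ) + 1) ^ β := by
    intro i p hp
    have h := (hP (J + i) (by omega)).2 p hp
    have h' := node_spec hd0 h.1 h.2
    rw [← hβ] at h'
    exact ⟨mul_lt_mul_of_pos_left h'.1 hκ0, mul_le_mul_of_nonneg_left h'.2 hκ0.le⟩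
  have hUδ : ∀ i : ℕ, δ ≤ κ * ((J + i : ℕ) : ℝ) ^ β := by
    intro i
    calc δ = κ * (J : ℝ) ^ β := by rw [hκ]; field_simp
      _ ≤ _ := by gcongr; omega
  let D : Win :=
    { N := fun i => P (J + i), ρ := fun i => (1 + κ * ((J + i : ℕ) : ℝ) ^ β) ^ 25,
      ne := fun i => (hP (J + i) (by omega)).1, ρpos := fun i => by positivity,
      disj := by
        intro i j p hi hj
        have h1 := (hP (J + i) (by omega)).2 p hi
        have h2 := (hP (J + j) (by omega)).2 p hj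
        have h3 : J + i < J + j + 1 := lt_of_pow_lt_pow_left₀ L (by omega) (h1.1.trans_le h2.2)
        have h4 : J + j < J + i + 1 := lt_of_pow_lt_pow_left₀ L (by omega) (h2.1.trans_le h1.2)
        omega }
  have hu : ∀ i, ∀ p ∈ D.N i, Pa.κ ≤ κ * ee d p := fun i p hp =>
    hκδ.trans ((hUδ i).trans (hnode i p hp).1.le)
  have hcell : ∀ x, Pa.κ ≤ x → ∃ i, (1 + x) ^ 25 ≤ 8 * D.ρ i ∧
      ∀ p ∈ D.N i, |x - κ * ee d p| * (1 + x) ^ 104 ≤ η ^ 4 := by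
    intro x hx
    have hx0 : 0 < x := hκ0.trans_le hx
    obtain ⟨h1, h2⟩ := widx_spec hκ0 hβ0 J hx0
    have hn := fun p (hp : p ∈ P (J + widx κ β J x)) =>
      near2 hκ hδ0 hδ1 hδη hβ0 hβ1 hJ1 (Nat.le_add_right _ _) hJ2' hx0 h1
        (h2.imp id fun h => ⟨by omega, h.2⟩) (hnode _ p hp).1 (hnode _ p hp).2
    obtain ⟨p, hp⟩ := D.ne (widx κ β J x)
    exact ⟨widx κ β J x, (hn p hp).2, fun p hp => (hn p hp).1⟩
  have hUt : Tendsto (fun i : ℕ => κ * ((J + i : ℕ) : ℝ) ^ β) atTop atTop :=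
    ((hT β hβ0).comp ((tendsto_add_atTop_nat J).congr fun i => add_comm i J)).const_mul_atTop hκ0
  have hpow : ∀ n : ℕ, ee d n ^ 25 = (n : ℝ) ^ (25 / d) := by
    intro n
    unfold ee
    rw [← Real.rpow_natCast, ← Real.rpow_mul (by positivity)]; congr 1; push_cast; ring
  have hp1 : ∀ i, ∀ p ∈ P (J + i), 2 ≤ p := by
    intro i p hp
    have h := ((hP (J + i) (by omega)).2 p hp).1
    have : 1 ≤ (J + i) ^ L := Nat.one_le_pow _ _ (by omega)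
    omega
  obtain ⟨c, hc1, hc2, hc3, hc4, hc5⟩ := D.core (E := TS Pa)
    (fun f n => TT d w f.1 (κ * ee d n)) (25 / d) (16 / κ ^ 25) (κ ^ 25 * q)
    hp1 (by positivity) (by positivity)
    (by
      intro i p hp
      have hp' : (0 : ℝ) < p := by have := hp1 i p hp; positivity
      have he := one_le_ee hd1 (n := p) (by have := hp1 i p hp; omega)
      show (p : ℝ) ^ (-(25 / d)) * (1 + κ * ((J + i : ℕ) : ℝ) ^ β) ^ 25 ≤ _
      rw [Real.rpow_neg hp'.le, ← hpow]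
      have h1 := (hnode i p hp).1
      have h2 := hUδ i
      set U := κ * ((J + i : ℕ) : ℝ) ^ β
      have h3 : 1 + U ≤ (1 + 1 / δ) * (κ * ee d p) := by
        have : 1 ≤ 1 / δ * U := by rw [one_div, le_inv_mul_iff₀ hδ0]; linarith
        have h4 : 0 < 1 / δ := by positivity
        linarith [mul_le_mul_of_nonneg_left h1.le h4.le]
      have hU0 : 0 < U := by linarith
      calc (ee d p ^ 25)⁻¹ * (1 + U) ^ 25
          ≤ (ee d p ^ 25)⁻¹ * ((1 + 1 / δ) * (κ * ee d p)) ^ 25 := by gcongr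
        _ = _ := by rw [hq, mul_pow, mul_pow]; field_simp)
    (by
      have a1 : q ≤ q ^ 2 := le_self_pow₀ hq1 two_ne_zero
      have a2 := mul_le_mul_of_nonneg_left a1 (by positivity : 0 ≤ κ ^ 25)
      have a3 : 0 ≤ κ ^ 25 * q ^ 2 := by positivity
      linarith)
    (by
      calc 128 * (16 / κ ^ 25) * (κ ^ 25 * q) ^ 2 = κ ^ 25 * (2048 * q ^ 2) := by field_simp; ring
        _ ≤ 1 := hκ3)
    (by
      intro f
      obtain ⟨M, hM⟩ := TT_rap hd1 hκ0 (Pa.rap f.2) gw.z0 gw.bd 25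
      refine ⟨M, fun i p hp => le_trans ?_ (hM _ (hu i p hp))⟩
      have := (hnode i p hp).1
      show _ * (1 + κ * ((J + i : ℕ) : ℝ) ^ β) ^ 25 ≤ _
      gcongr)
    (by
      intro n
      by_cases hn : 1 ≤ n
      swap
      · exact ⟨0, fun h => absurd h hn⟩
      have he := one_le_ee hd1 hn
      have hn' : (0 : ℝ) < n := by exact_mod_cast hn
      obtain ⟨b, h1, h2⟩ := reprT Pa D (fun n => κ * ee d n) _ hη0 hη1 hη2 hu
        (fun i => by positivity) (fun i p hp => (hnode i p hp).1.le) (fun i => rfl) hUt hcell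
        (x := κ * ee d n) (le_mul_of_one_le_right hκ0.le he)
      refine ⟨b, fun _ => ⟨h1.trans (div_le_self (by norm_num) (one_le_pow₀ ?_)), h1.trans ?_, h2⟩⟩
      · exact le_add_of_nonneg_right (by positivity)
      · rw [Real.rpow_neg hn'.le, ← hpow]
        calc 16 / (1 + κ * ee d n) ^ 25 ≤ 16 / (κ * ee d n) ^ 25 := by
              gcongr; linarith
          _ = _ := by rw [mul_pow]; field_simp)
  refine ⟨κ, hκ0, w, hQ, gw.bd, c, hc1, hc2, ?_, fun f hf => hc5 ⟨f, hf⟩⟩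
  intro n hn
  have : ∃ i, n ∈ D.N i := by by_contra h; exact hn (hc3 n h)
  obtain ⟨i, hi⟩ := this
  refine ⟨J + i, by omega, hi, (hc4 i n hi).trans ?_⟩
  show 32 * (1 + κ * ((J + i : ℕ) : ℝ) ^ β) ^ 25 / ((P (J + i)).card : ℝ) ≤ _
  refine div_le_div_of_nonneg_right ?_ (by positivity)
  have h1 := (hnode i n hi).1
  have h2 := one_le_ee hd1 (n := n) (by have := hp1 i n hi; omega)
  have h3 : 1 + κ * ((J + i : ℕ) : ℝ) ^ β ≤ 2 * ee d n := by
    linarith [mul_le_mul_of_nonneg_right hκ1 (zero_le_one.trans h2)]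
  rw [← hpow]
  calc 32 * (1 + κ * ((J + i : ℕ) : ℝ) ^ β) ^ 25 ≤ 32 * (2 * ee d n) ^ 25 := by gcongr
    _ = _ := by ring

end Pool.Agent.H61.Big
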