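import Pool.Agent.H61.BigF

/- Transformed fixed functions of the kernel: a priori bound and modulus of continuity. -/

set_option autoImplicit false
open Finset Filter Topology MeasureTheory

namespace Pool.Agent.H61.Big
open Pool.Agent.Lead.Sel

structure Par where
  K : ℝ → ℝ
  C0 : ℝ
  d : ℝ
  κ : ℝ
  τ : ℝ
  η : ℝ
  k0 : ℕ
  w : ArithmeticFunction ℝ
  v : ArithmeticFunction ℝ
  contK : Continuous K
  C0pos : 0 < C0
  lip : ∀ r r' : ℝ, 0 ≤ r → 0 ≤ r' → |K r - K r'| ≤ C0 * |r - r'|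
  hd : 1 ≤ d
  κpos : 0 < κ
  κ1 : κ ≤ 1
  κ2 : C0 * κ * 2 ^ 11 ≤ 1 / 4
  hk0 : 1 ≤ k0
  hτ : ∀ K, ∑ k ∈ range K, ((k0 + k : ℕ) + 2 : ℝ) ^ 2 / ((2 : ℝ) ^ (1 / d)) ^ (k0 + k) ≤ τ
  gw : Good ((2 : ℝ) ^ (1 / d)) k0 w
  gv : Good ((2 : ℝ) ^ (1 / d)) k0 v
  inv : v * w = 1
  ηpos : 0 < η
  η1 : η ≤ 1
  η2 : 8 * C0 * η ≤ 1
  τ1 : 24 * τ ≤ η * κ ^ 2
  τ2 : 3 * τ * (28 * C0 + 4 / κ ^ 11) ≤ 1

/-- rapidly decreasing fixed functions of the kernel -/
structure Test (K : ℝ → ℝ) (f : ℝ → ℝ) : Prop where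
  cont : Continuous f
  rap : ∀ R : ℕ, ∃ M : ℝ, ∀ x, 0 < x → |f x| * (1 + x) ^ R ≤ M
  fix : ∀ x, 0 < x → f x = ∫ ξ in Set.Ioi (0 : ℝ), K (x * ξ) * f ξ

namespace Par
variable (P : Par) {f : ℝ → ℝ}

theorem rap (hf : Test P.K f) : Rap P.κ f := fun R =>
  (hf.rap R).imp fun _ h x hx => h x (P.κpos.trans_le hx)

theorem ζ1 : 1 ≤ (2 : ℝ) ^ (1 / P.d) :=
  Real.one_le_rpow one_le_two (by have := P.hd; positivity)

theorem τ0 : 0 ≤ P.τ := by simpa using P.hτ 0

theorem lipf (hf : Test P.K f) {M : ℝ} (hM : ∀ x, 0 < x → |f x| * (1 + x) ^ 11 ≤ M)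
    {x y : ℝ} (hx : 0 < x) (hy : 0 < y) : |f x - f y| ≤ P.C0 * M * |x - y| := by
  have hM0 : 0 ≤ M := le_trans (by positivity) (hM 1 one_pos)
  have hC := P.C0pos
  have h3 : ∀ x, 0 < x → |f x| * (1 + x) ^ 3 ≤ M := fun x hx =>
    le_trans (mul_le_mul_of_nonneg_left (pow_le_pow_right₀ (by linarith) (by norm_num))
      (abs_nonneg _)) (hM x hx)
  rw [hf.fix x hx, hf.fix y hy, ← integral_sub (int_ker P.contK hC P.lip hf.cont h3 hx)
    (int_ker P.contK hC P.lip hf.cont h3 hy), ← Real.norm_eq_abs]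
  refine (norm_integral_le_of_norm_le (int_w.1.const_mul (P.C0 * M * |x - y|)) ?_).trans ?_
  · filter_upwards [ae_restrict_mem measurableSet_Ioi] with ξ hξ
    have hξ0 : (0 : ℝ) < ξ := hξ
    rw [← sub_mul, Real.norm_eq_abs, abs_mul]
    have h1 := P.lip (x * ξ) (y * ξ) (by positivity) (by positivity)
    rw [← sub_mul, abs_mul, abs_of_pos hξ0] at h1
    have h2 : |f ξ| ≤ M / (1 + ξ) ^ 3 := by rw [le_div_iff₀ (by positivity)]; exact h3 ξ hξ0
    calc _ ≤ P.C0 * (|x - y| * ξ) * (M / (1 + ξ) ^ 3) := by gcongr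
      _ = _ := by ring
  · rw [integral_const_mul]
    exact mul_le_of_le_one_right (by positivity) int_w.2

theorem step1 (hf : Test P.K f) {A M : ℝ}
    (hA : ∀ x, P.κ ≤ x → |TT P.d P.w f x| * (1 + x) ^ 25 ≤ A)
    (hM : ∀ x, 0 < x → |f x| * (1 + x) ^ 11 ≤ M) {x : ℝ} (hx : P.κ ≤ x) :
    |f x| * (1 + x) ^ 11 ≤ 2 * A + M / 4 := by
  have hκ := P.κpos
  have hC := P.C0pos
  have hη := P.ηpos
  have hτ0 := P.τ0
  have hx0 : 0 < x := hκ.trans_le hx
  have hM0 : 0 ≤ M := le_trans (by positivity) (hM 1 one_pos)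
  have hA0 : 0 ≤ A := le_trans (by positivity) (hA x hx)
  set F := TT P.d P.w f with hF
  have hFr : Rap P.κ F := TT_rap P.hd hκ (P.rap hf) P.gw.z0 P.gw.bd
  have hFc : ContinuousOn F (Set.Ici P.κ) := TT_cont P.hd hκ (P.rap hf) hf.cont P.gw.z0 P.gw.bd
  have hX : 1 ≤ 1 + x := by linarith
  set h := P.η / (1 + x) ^ 12 with hh
  have hh0 : 0 < h := by positivity
  have hh1 : h ≤ 1 := by
    rw [hh, div_le_one (by positivity)]; exact P.η1.trans (one_le_pow₀ hX)
  have hFb : ∀ y, P.κ ≤ y → ∀ v, y ≤ v → |F v| ≤ A / (1 + y) ^ 25 := by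
    intro y hy v hv
    have hy0 : 0 < y := hκ.trans_le hy
    rw [le_div_iff₀ (by positivity)]
    exact le_trans (by gcongr) (hA v (hy.trans hv))
  have hs := av_hasSum P.hd hκ hFr hFc P.gv.z0 P.gv.bd hh0.le hx
  have h1 := est P.ζ1 P.hk0 P.gv (C := 8 * A / (P.κ ^ 2 * (1 + x) ^ 23)) (by positivity) P.hτ
    (fun n => av h F (x * ee P.d n)) hs.summable (fun k => by
      set Z := ((2 : ℝ) ^ (1 / P.d)) ^ k with hZ
      have hZ1 : 1 ≤ Z := one_le_pow₀ P.ζ1
      have hxZ : x ≤ x * Z := le_mul_of_one_le_right hx0.le hZ1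
      have hb : ∀ n, n < 2 ^ k → ∀ v, x * ee P.d (2 ^ k + n) ≤ v → |F v| ≤ A / (1 + x * Z) ^ 25 :=
        fun n hn v hv => hFb _ (hx.trans hxZ) v
          (le_trans (mul_le_mul_of_nonneg_left (ee_block P.hd hn).1 hx0.le) hv)
      refine ⟨A / (1 + x * Z) ^ 25, 2 * (1 / 2 ^ k) * (A / (1 + x * Z) ^ 25), 1, by positivity,
        le_rfl, fun n hn => ?_, fun n hn => ?_, ?_⟩
      · have he : 0 ≤ ee P.d (2 ^ k + n) := le_trans (by positivity) (ee_block P.hd hn).1
        refine (dil_bd (by positivity) (hb n hn) le_rfl hh0.le).trans ?_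
        rw [sub_zero, abs_of_pos hh0]
        exact mul_le_of_le_one_right (by positivity) hh1
      · have hn1 : 1 ≤ 2 ^ k + n := le_add_right Nat.one_le_two_pow
        obtain ⟨t, t0, t1, t2⟩ := ee_succ P.hd hn1
        rw [← add_assoc, t2, ← mul_assoc]
        refine (av_shift hκ (hx.trans (le_mul_of_one_le_right hx0.le (one_le_ee P.hd hn1))) hFc
          (hb n (by omega)) hh0.le t0).trans ?_
        have t3 : t ≤ 1 / 2 ^ k := t1.trans (by
          push_cast
          gcongr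
          exact le_add_of_nonneg_right (Nat.cast_nonneg n))
        gcongr
      · have e : Z ^ 2 * (3 * (2 ^ k * (2 * (1 / 2 ^ k) * (A / (1 + x * Z) ^ 25))) / 1 +
            2 * (A / (1 + x * Z) ^ 25) * 1) = 8 * A * Z ^ 2 / (1 + x * Z) ^ 25 := by
          field_simp; ring
        rw [e, div_le_div_iff₀ (by positivity) (by positivity)]
        have a1 : (P.κ * Z) ^ 2 * (1 + x) ^ 23 ≤ (1 + x * Z) ^ 2 * (1 + x * Z) ^ 23 := by
          gcongr
          nlinarith
        calc _ = 8 * A * ((P.κ * Z) ^ 2 * (1 + x) ^ 23) := by ring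
          _ ≤ 8 * A * ((1 + x * Z) ^ 2 * (1 + x * Z) ^ 23) := by gcongr
          _ = _ := by ring)
  rw [hs.tsum_eq, ee_one, mul_one] at h1
  have h2 : av h (TT P.d P.v F) x = av h f x := by
    unfold av
    refine intervalIntegral.integral_congr fun t ht => ?_
    have ht0 : 0 ≤ t := (le_min le_rfl hh0.le).trans ht.1
    simp only [hF]
    rw [TT_conv P.hd hκ (P.rap hf) P.v P.w P.gv.bd P.gw.bd
      (hx.trans (le_mul_of_one_le_right hx0.le (Real.one_le_exp ht0))), P.inv, TT_one]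
  rw [h2] at h1
  have h3 : |av h F x| ≤ A / (1 + x) ^ 25 * h := by
    have := dil_bd hx0.le (hFb x hx) le_rfl hh0.le
    rwa [sub_zero, abs_of_pos hh0] at this
  have h4 : |av h f x - h * f x| ≤ P.C0 * M * (x * (2 * h)) * h := by
    have hc : Continuous fun t => f (x * Real.exp t) := hf.cont.comp (by fun_prop)
    have a1 : av h f x - h * f x = ∫ t in (0 : ℝ)..h, (f (x * Real.exp t) - f x) := by
      rw [intervalIntegral.integral_sub (hc.intervalIntegrable _ _) (by simp)]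
      simp [av]
    have a2 := intervalIntegral.norm_integral_le_of_norm_le_const (a := 0) (b := h)
      (f := fun t => f (x * Real.exp t) - f x) (C := P.C0 * M * (x * (2 * h))) fun t ht => by
        rw [Set.uIoc_of_le hh0.le] at ht
        refine (P.lipf hf hM (by positivity) hx0).trans ?_
        have a3 := Real.abs_exp_sub_one_le (x := t) (by rw [abs_of_pos ht.1]; linarith [ht.2])
        rw [abs_of_pos ht.1] at a3
        rw [← mul_sub_one, abs_mul, abs_of_pos hx0]
        gcongr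
        linarith [ht.2]
    rwa [sub_zero, abs_of_pos hh0, ← a1] at a2
  have h5 : h * |f x| ≤ A / (1 + x) ^ 25 * h + 3 * (8 * A / (P.κ ^ 2 * (1 + x) ^ 23)) * P.τ +
      P.C0 * M * (x * (2 * h)) * h := by
    have a1 := abs_sub_abs_le_abs_sub (av h f x) (av h F x)
    have a2 := abs_sub_abs_le_abs_sub (h * f x) (av h f x)
    rw [abs_sub_comm, abs_mul, abs_of_pos hh0] at a2
    linarith
  have h6 : 3 * (8 * A / (P.κ ^ 2 * (1 + x) ^ 23)) * P.τ ≤ A / (1 + x) ^ 11 * h := by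
    calc _ = A / (P.κ ^ 2 * (1 + x) ^ 23) * (24 * P.τ) := by ring
      _ ≤ A / (P.κ ^ 2 * (1 + x) ^ 23) * (P.η * P.κ ^ 2) :=
          mul_le_mul_of_nonneg_left P.τ1 (by positivity)
      _ = _ := by rw [hh]; field_simp
  have h7 : P.C0 * M * (x * (2 * h)) ≤ M / 4 / (1 + x) ^ 11 := by
    calc _ = M / 4 / (1 + x) ^ 11 * (8 * P.C0 * P.η * (x / (1 + x))) := by rw [hh]; field_simp; ring
      _ ≤ _ := mul_le_of_le_one_right (by positivity) (mul_le_one₀ P.η2 (by positivity)
          (by rw [div_le_one (by positivity)]; linarith))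
  have h8 : A / (1 + x) ^ 25 ≤ A / (1 + x) ^ 11 :=
    div_le_div_of_nonneg_left hA0 (by positivity) (pow_le_pow_right₀ hX (by norm_num))
  have h9 : |f x| ≤ (2 * A + M / 4) / (1 + x) ^ 11 := by
    refine le_of_mul_le_mul_left ?_ hh0
    have a1 := mul_le_mul_of_nonneg_right h7 hh0.le
    have a2 := mul_le_mul_of_nonneg_right h8 hh0.le
    calc _ ≤ A / (1 + x) ^ 11 * h + A / (1 + x) ^ 11 * h + M / 4 / (1 + x) ^ 11 * h := by linarith
      _ = _ := by ring
  exact (le_div_iff₀ (by positivity)).1 h9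

theorem apriori (hf : Test P.K f) {A : ℝ}
    (hA : ∀ x, P.κ ≤ x → |TT P.d P.w f x| * (1 + x) ^ 25 ≤ A) :
    ∀ x, 0 < x → |f x| * (1 + x) ^ 11 ≤ 4 * A := by
  have hκ := P.κpos
  have hC := P.C0pos
  have hA0 : 0 ≤ A := le_trans (by positivity) (hA _ le_rfl)
  obtain ⟨M1, hM1⟩ := hf.rap 11
  have := boot (fun x : ℝ => 0 < x) (fun x => |f x| * (1 + x) ^ 11) (c := 2 * A) (by positivity) hM1
    fun M hM0 hM x hx => by
      by_cases h : P.κ ≤ x
      · have := P.step1 hf hA hM h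
        linarith
      · rw [not_le] at h
        have h1 := P.step1 hf hA hM le_rfl
        have h2 := P.lipf hf hM hx hκ
        rw [abs_sub_comm x, abs_of_pos (by linarith : 0 < P.κ - x)] at h2
        have h3 := abs_sub_abs_le_abs_sub (f x) (f P.κ)
        have h4 : |f x| ≤ |f P.κ| + P.C0 * M * P.κ := by
          have : 0 ≤ P.C0 * M * x := by positivity
          nlinarith
        have h5 : (1 + P.κ) ^ 11 ≤ 2 ^ 11 := by gcongr; linarith [P.κ1]
        have h6 := mul_le_mul_of_nonneg_left P.κ2 hM0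
        calc |f x| * (1 + x) ^ 11 ≤ (|f P.κ| + P.C0 * M * P.κ) * (1 + P.κ) ^ 11 := by gcongr
          _ = |f P.κ| * (1 + P.κ) ^ 11 + P.C0 * M * P.κ * (1 + P.κ) ^ 11 := by ring
          _ ≤ (2 * A + M / 4) + P.C0 * M * P.κ * 2 ^ 11 := by gcongr
          _ ≤ _ := by linarith
  intro x hx
  have := this x hx
  linarith

theorem modulus (hf : Test P.K f) {M : ℝ} (hM : ∀ x, 0 < x → |f x| * (1 + x) ^ 11 ≤ M)
    {x y r : ℝ} (hx : P.κ ≤ x) (hy : P.κ ≤ y) (hr : 0 < r) (hr1 : r ≤ 1) (hxy : |x - y| ≤ r ^ 4) :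
    |TT P.d P.w f x - TT P.d P.w f y| ≤ (P.C0 + 1) * M * r * (1 + x) := by
  have hκ := P.κpos
  have hC := P.C0pos
  have hτ0 := P.τ0
  have hx0 : 0 < x := hκ.trans_le hx
  have hy0 : 0 < y := hκ.trans_le hy
  have hM0 : 0 ≤ M := le_trans (by positivity) (hM 1 one_pos)
  have hr4 : r ^ 4 ≤ r := pow_le_of_le_one hr.le hr1 (by norm_num)
  have hy1 : y ≤ x + 1 := by have := (abs_le.1 hxy).1; linarith
  have s1 := TT_summable P.hd hκ (P.rap hf) P.gw.z0 P.gw.bd hx
  have s2 := TT_summable P.hd hκ (P.rap hf) P.gw.z0 P.gw.bd hy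
  have s3 : Summable fun n => P.w n * (f (x * ee P.d n) - f (y * ee P.d n)) := by
    simpa only [mul_sub] using s1.sub s2
  have h0 : TT P.d P.w f x - TT P.d P.w f y =
      ∑' n, P.w n * (f (x * ee P.d n) - f (y * ee P.d n)) := by
    simp only [mul_sub]
    exact (s1.tsum_sub s2).symm
  have h1 := est P.ζ1 P.hk0 P.gw (C := r * M * (1 + x) * (28 * P.C0 + 4 / P.κ ^ 11)) (by positivity)
    P.hτ (fun n => f (x * ee P.d n) - f (y * ee P.d n)) s3 (fun k => by
      set Z := ((2 : ℝ) ^ (1 / P.d)) ^ k with hZ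
      have hZ1 : 1 ≤ Z := one_le_pow₀ P.ζ1
      have hZ0 : 0 < Z := by linarith
      refine ⟨(2 * P.C0 * M + 2 * M / P.κ ^ 11) * r ^ 2 / Z ^ 5,
        P.C0 * M * (x + y) * (4 * Z / 2 ^ k), Z ^ 3 / r, by positivity,
        by rw [le_div_iff₀ hr]; nlinarith [one_le_pow₀ (n := 3) hZ1], fun n hn => ?_,
        fun n hn => ?_, ?_⟩
      · obtain ⟨b1, b2⟩ := ee_block P.hd hn
        set E := ee P.d (2 ^ k + n)
        have hE : 0 < E := by linarith
        by_cases hc : r ^ 2 * Z ^ 6 ≤ 1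
        · refine (P.lipf hf hM (by positivity) (by positivity)).trans ?_
          rw [← sub_mul, abs_mul, abs_of_pos hE, le_div_iff₀ (by positivity)]
          calc _ ≤ P.C0 * M * (r ^ 4 * (2 * Z)) * Z ^ 5 := by gcongr
            _ = 2 * P.C0 * M * r ^ 2 * (r ^ 2 * Z ^ 6) := by ring
            _ ≤ 2 * P.C0 * M * r ^ 2 := mul_le_of_le_one_right (by positivity) hc
            _ ≤ _ := by gcongr; exact le_add_of_nonneg_right (by positivity)
        · rw [not_le] at hc
          have b3 : ∀ u, P.κ ≤ u → |f (u * E)| ≤ M / P.κ ^ 11 * r ^ 2 / Z ^ 5 := by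
            intro u hu
            have hu0 : 0 < u := hκ.trans_le hu
            have b4 : P.κ * Z ≤ 1 + u * E := by
              have : P.κ * Z ≤ u * E := by gcongr
              linarith
            have b5 : |f (u * E)| * (P.κ * Z) ^ 11 ≤ M :=
              le_trans (by gcongr) (hM _ (by positivity))
            rw [le_div_iff₀ (by positivity), div_mul_eq_mul_div, le_div_iff₀ (by positivity)]
            calc _ ≤ |f (u * E)| * Z ^ 5 * P.κ ^ 11 * (r ^ 2 * Z ^ 6) :=
                  le_mul_of_one_le_right (by positivity) hc.le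
              _ = |f (u * E)| * (P.κ * Z) ^ 11 * r ^ 2 := by ring
              _ ≤ _ := by gcongr
          refine (abs_sub _ _).trans ((add_le_add (b3 x hx) (b3 y hy)).trans ?_)
          have : 0 ≤ 2 * P.C0 * M * r ^ 2 / Z ^ 5 := by positivity
          calc _ = 2 * M / P.κ ^ 11 * r ^ 2 / Z ^ 5 := by ring
            _ ≤ 2 * P.C0 * M * r ^ 2 / Z ^ 5 + 2 * M / P.κ ^ 11 * r ^ 2 / Z ^ 5 := by linarith
            _ = _ := by ring
      · have hn1 : 1 ≤ 2 ^ k + n := le_add_right Nat.one_le_two_pow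
        obtain ⟨t, t0, t1, t2⟩ := ee_succ P.hd hn1
        obtain ⟨b1, b2⟩ := ee_block P.hd (k := k) (n := n) (by omega)
        rw [← add_assoc, t2]
        set E := ee P.d (2 ^ k + n)
        have hE : 0 < E := by linarith
        have t3 : t ≤ 1 / 2 ^ k := t1.trans (by
          push_cast
          gcongr
          exact le_add_of_nonneg_right (Nat.cast_nonneg n))
        have t4 : t ≤ 1 := t3.trans (by
          rw [div_le_one (by positivity)]; exact one_le_pow₀ one_le_two)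
        have a3 := Real.abs_exp_sub_one_le (x := t) (by rw [abs_of_nonneg t0]; exact t4)
        rw [abs_of_nonneg t0] at a3
        have b3 : ∀ u, 0 < u → |f (u * (E * Real.exp t)) - f (u * E)| ≤
            P.C0 * M * u * (4 * Z / 2 ^ k) := by
          intro u hu
          refine (P.lipf hf hM (by positivity) (by positivity)).trans ?_
          rw [← mul_sub, ← mul_sub_one, abs_mul, abs_mul, abs_of_pos hu, abs_of_pos hE]
          calc _ ≤ P.C0 * M * (u * (2 * Z * (2 * (1 / 2 ^ k)))) := by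
                gcongr; linarith
            _ = _ := by ring
        have b4 := abs_sub (f (x * (E * Real.exp t)) - f (x * E))
          (f (y * (E * Real.exp t)) - f (y * E))
        rw [sub_sub_sub_comm] at b4
        linarith [b3 x hx0, b3 y hy0]
      · have e : Z ^ 2 * (3 * (2 ^ k * (P.C0 * M * (x + y) * (4 * Z / 2 ^ k))) / (Z ^ 3 / r) +
            2 * ((2 * P.C0 * M + 2 * M / P.κ ^ 11) * r ^ 2 / Z ^ 5) * (Z ^ 3 / r)) =
            r * M * (12 * P.C0 * (x + y) + (4 * P.C0 + 4 / P.κ ^ 11)) := by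
          field_simp; ring
        rw [e, mul_assoc (r * M)]
        refine mul_le_mul_of_nonneg_left ?_ (by positivity)
        have b1 : 0 ≤ x * (4 / P.κ ^ 11) := by positivity
        have b2 := mul_le_mul_of_nonneg_left hy1 hC.le
        have b3 : 0 ≤ P.C0 * x := by positivity
        nlinarith)
  rw [← h0, ee_one, mul_one, mul_one] at h1
  have h2 := P.lipf hf hM hx0 hy0
  have h3 : P.C0 * M * |x - y| ≤ P.C0 * M * (r * (1 + x)) := by
    refine mul_le_mul_of_nonneg_left (hxy.trans (hr4.trans ?_)) (by positivity)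
    exact le_mul_of_one_le_right hr.le (by linarith)
  have h4 := mul_le_mul_of_nonneg_left P.τ2 (by positivity : 0 ≤ r * M * (1 + x))
  have h5 := abs_sub_abs_le_abs_sub (TT P.d P.w f x - TT P.d P.w f y) (f x - f y)
  nlinarith

/-- the window averages control the transformed function -/
theorem norming (hf : Test P.K f) (N : ℕ → Finset ℕ) (u ρ : ℕ → ℝ) {η : ℝ} (hη : 0 < η) (hη1 : η ≤ 1)
    (hη2 : 8 * (P.C0 + 1) * η ≤ 1) (hne : ∀ i, (N i).Nonempty) (hu : ∀ i, ∀ p ∈ N i, P.κ ≤ u p)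
    (hcell : ∀ x, P.κ ≤ x → ∃ i, (1 + x) ^ 25 ≤ 8 * ρ i ∧
      ∀ p ∈ N i, |x - u p| * (1 + x) ^ 104 ≤ η ^ 4)
    {B : ℝ} (hB : ∀ i, |ρ i * ((∑ p ∈ N i, TT P.d P.w f (u p)) / (N i).card)| ≤ B) :
    ∀ x, P.κ ≤ x → |TT P.d P.w f x| * (1 + x) ^ 25 ≤ 16 * B := by
  have hκ := P.κpos
  have hC := P.C0pos
  have hB0 : 0 ≤ B := (abs_nonneg _).trans (hB 0)
  obtain ⟨M1, hM1⟩ := TT_rap P.hd hκ (P.rap hf) P.gw.z0 P.gw.bd 25
  have := boot (fun x : ℝ => P.κ ≤ x) (fun x => |TT P.d P.w f x| * (1 + x) ^ 25) (c := 8 * B)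
    (by positivity) hM1 fun A hA0 hA x hx => by
      obtain ⟨i, h1, h2⟩ := hcell x hx
      have hx0 : 0 < x := hκ.trans_le hx
      have hX : 1 ≤ 1 + x := by linarith
      have hc : (0 : ℝ) < (N i).card := by exact_mod_cast (hne i).card_pos
      set F := TT P.d P.w f with hF
      have h3 : ∀ p ∈ N i, |F x - F (u p)| ≤ A / 2 / (1 + x) ^ 25 := by
        intro p hp
        refine (P.modulus hf (P.apriori hf hA) hx (hu i p hp) (r := η / (1 + x) ^ 26) (by positivity)
          (by rw [div_le_one (by positivity)]; exact hη1.trans (one_le_pow₀ hX))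
          (by rw [div_pow, ← pow_mul, le_div_iff₀ (by positivity)]; exact h2 p hp)).trans ?_
        calc _ = A / 2 / (1 + x) ^ 25 * (8 * (P.C0 + 1) * η) := by field_simp; ring
          _ ≤ _ := mul_le_of_le_one_right (by positivity) hη2
      set a := (∑ p ∈ N i, F (u p)) / (N i).card with ha
      have h4 : |F x - a| ≤ A / 2 / (1 + x) ^ 25 := by
        have e : F x - a = (∑ p ∈ N i, (F x - F (u p))) / (N i).card := by
          rw [ha, sum_sub_distrib, sum_const, nsmul_eq_mul]; field_simp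
        rw [e, abs_div, abs_of_pos hc, div_le_iff₀ hc]
        refine (abs_sum_le_sum_abs _ _).trans ((sum_le_sum h3).trans (le_of_eq ?_))
        rw [sum_const, nsmul_eq_mul, mul_comm]
      rw [le_div_iff₀ (by positivity)] at h4
      have h5 := hB i
      have hρ : 0 < ρ i := by have : 0 < (1 + x) ^ 25 := by positivity
                              linarith
      rw [abs_mul, abs_of_pos hρ] at h5
      have h6 := mul_le_mul_of_nonneg_left h1 (abs_nonneg a)
      have h7 := mul_le_mul_of_nonneg_right (abs_sub_abs_le_abs_sub (F x) a)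
        (by positivity : 0 ≤ (1 + x) ^ 25)
      show |F x| * (1 + x) ^ 25 ≤ _
      nlinarith
  intro x hx
  have := this x hx
  linarith

end Par

end Pool.Agent.H61.Big
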