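import Mathlib

/- Random completely multiplicative signs with square root cancellation on all dyadic blocks. -/

set_option autoImplicit false
open Finset

namespace Pool.Agent.H61.Big

/-- completely multiplicative signs -/
noncomputable def sg (s : ℕ → Bool) (n : ℕ) : ℝ :=
  ∏ p ∈ range (n + 1), if s p then (-1 : ℝ) ^ n.factorization p else 1

theorem sg_eq (s : ℕ → Bool) {n B : ℕ} (h : n < B) :
    sg s n = ∏ p ∈ range B, if s p then (-1 : ℝ) ^ n.factorization p else 1 := by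
  unfold sg
  refine prod_subset (range_mono h) fun p _ hp => ?_
  have : n.factorization p = 0 := Nat.factorization_eq_zero_of_lt (by simpa using hp)
  simp [this]

theorem sg_one (s : ℕ → Bool) : sg s 1 = 1 := by simp [sg]

theorem sg_mul (s : ℕ → Bool) {m n : ℕ} (hm : m ≠ 0) (hn : n ≠ 0) :
    sg s (m * n) = sg s m * sg s n := by
  have h1 : m < m * n + 1 := Nat.lt_succ_of_le (Nat.le_mul_of_pos_right m (Nat.pos_of_ne_zero hn))
  have h2 : n < m * n + 1 := Nat.lt_succ_of_le (Nat.le_mul_of_pos_left n (Nat.pos_of_ne_zero hm))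
  rw [sg_eq s h1, sg_eq s h2, sg, ← prod_mul_distrib]
  refine prod_congr rfl fun p _ => ?_
  rw [Nat.factorization_mul hm hn]
  split_ifs <;> simp [pow_add]

theorem abs_sg (s : ℕ → Bool) (n : ℕ) : |sg s n| = 1 := by
  unfold sg
  rw [abs_prod]
  refine prod_eq_one fun p _ => ?_
  split_ifs <;> simp

theorem sg_cont (n : ℕ) : Continuous fun s : ℕ → Bool => sg s n := by
  unfold sg
  refine continuous_finsetProd _ fun p _ => ?_
  exact (continuous_of_discreteTopology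
    (f := fun b : Bool => if b then (-1 : ℝ) ^ n.factorization p else 1)).comp (continuous_apply p)

/-- the product is a square -/
def Sq (n m : ℕ) : Prop := ∀ p, Even (n.factorization p + m.factorization p)

open Classical in
theorem avg_pair {B n m : ℕ} (hn : n < B) (hm : m < B) :
    |∑ t ∈ (range B).powerset, sg (fun p => decide (p ∈ t)) n * sg (fun p => decide (p ∈ t)) m|
      ≤ if Sq n m then 2 ^ B else 0 := by
  have h1 : ∀ t ∈ (range B).powerset,
      sg (fun p => decide (p ∈ t)) n * sg (fun p => decide (p ∈ t)) m =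
        ∏ p ∈ t, (-1 : ℝ) ^ (n.factorization p + m.factorization p) := by
    intro t ht
    rw [sg_eq _ hn, sg_eq _ hm, ← prod_mul_distrib,
      ← prod_subset (mem_powerset.1 ht) (fun p _ hp => by simp [hp])]
    exact prod_congr rfl fun p hp => by simp [hp, pow_add]
  rw [sum_congr rfl h1, ← prod_one_add]
  split_ifs with h
  · rw [prod_congr rfl fun p _ => by rw [(h p).neg_one_pow]]
    norm_num
  · unfold Sq at h
    push Not at h
    obtain ⟨p, hp⟩ := h
    have hpB : p ∈ range B := by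
      by_contra hc
      rw [mem_range, not_lt] at hc
      rw [Nat.factorization_eq_zero_of_lt (hn.trans_le hc),
        Nat.factorization_eq_zero_of_lt (hm.trans_le hc)] at hp
      simp at hp
    rw [prod_eq_zero hpB (by rw [(Nat.not_even_iff_odd.1 hp).neg_one_pow]; ring), abs_zero]

open Classical in
theorem cnt_le {N n : ℕ} (hN : 1 ≤ N) (hn : n ∈ Ico N (2 * N)) :
    (((Ico N (2 * N)).filter (Sq n)).card : ℝ) ≤
      ∑ r ∈ Icc 1 (2 * N), if r ^ 2 ∣ n then (2 * r : ℝ) else 0 := by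
  obtain ⟨q, r, hqr, hq⟩ := Nat.sq_mul_squarefree n
  rw [mem_Ico] at hn
  have hr0 : r ≠ 0 := by rintro rfl; simp at hqr; omega
  have hq0 : q ≠ 0 := hq.ne_zero
  have h1 : (Ico N (2 * N)).filter (Sq n) ⊆ (range (2 * r)).image fun s => s ^ 2 * q := by
    intro m hm
    rw [mem_filter, mem_Ico] at hm
    obtain ⟨q', s, hqs, hq'⟩ := Nat.sq_mul_squarefree m
    have hs0 : s ≠ 0 := by rintro rfl; simp at hqs; omega
    have e : q = q' := by
      refine Nat.eq_of_factorization_eq hq0 hq'.ne_zero fun p => ?_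
      have a1 := hm.2 p
      rw [← hqr, ← hqs, Nat.factorization_mul (pow_ne_zero 2 hr0) hq0,
        Nat.factorization_mul (pow_ne_zero 2 hs0) hq'.ne_zero, Nat.factorization_pow,
        Nat.factorization_pow] at a1
      simp only [Finsupp.add_apply, Finsupp.smul_apply, smul_eq_mul] at a1
      have a2 := hq.natFactorization_le_one p
      have a3 := hq'.natFactorization_le_one p
      obtain ⟨c, hc⟩ := a1
      omega
    subst e
    refine mem_image.2 ⟨s, mem_range.2 ?_, hqs⟩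
    have a4 : s ^ 2 * q < (2 * r) ^ 2 * q := by nlinarith [hm.1.2, hn.1]
    exact lt_of_pow_lt_pow_left₀ 2 (Nat.zero_le _) (lt_of_mul_lt_mul_right a4 (Nat.zero_le _))
  have h2 : (((Ico N (2 * N)).filter (Sq n)).card : ℝ) ≤ 2 * r := by
    have := (card_le_card h1).trans card_image_le
    rw [card_range] at this
    exact_mod_cast this
  have h3 : r ∈ Icc 1 (2 * N) := by
    rw [mem_Icc]
    refine ⟨Nat.one_le_iff_ne_zero.2 hr0, ?_⟩
    have : r ≤ r ^ 2 * q := le_trans (Nat.le_self_pow two_ne_zero r)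
      (Nat.le_mul_of_pos_right _ (Nat.pos_of_ne_zero hq0))
    omega
  refine h2.trans (le_trans (le_of_eq ?_) (single_le_sum
    (f := fun r : ℕ => if r ^ 2 ∣ n then (2 * r : ℝ) else 0)
    (fun i _ => by split_ifs <;> positivity) h3))
  rw [if_pos ⟨q, hqr.symm⟩]

open Classical in
theorem pairs_le (k : ℕ) :
    ∑ n ∈ Ico (2 ^ k) (2 * 2 ^ k), (((Ico (2 ^ k) (2 * 2 ^ k)).filter (Sq n)).card : ℝ)
      ≤ 4 * 2 ^ k * (k + 2) := by
  set N := 2 ^ k with hN
  have hN1 : 1 ≤ N := Nat.one_le_two_pow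
  refine (sum_le_sum fun n hn => cnt_le hN1 hn).trans ?_
  rw [sum_comm]
  have h1 : ∀ r ∈ Icc 1 (2 * N), ∑ n ∈ Ico N (2 * N), (if r ^ 2 ∣ n then (2 * r : ℝ) else 0)
      ≤ 4 * N * (r : ℝ)⁻¹ := by
    intro r hr
    have hr1 : (0 : ℝ) < r := by exact_mod_cast (mem_Icc.1 hr).1
    rw [← sum_filter, sum_const, nsmul_eq_mul]
    have a1 : ((Ico N (2 * N)).filter fun n => r ^ 2 ∣ n).card ≤ 2 * N / r ^ 2 := by
      rw [← Nat.Ioc_filter_dvd_card_eq_div]
      refine card_le_card (filter_subset_filter _ fun n hn => ?_)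
      rw [mem_Ico] at hn
      rw [mem_Ioc]
      omega
    have a2 : (((Ico N (2 * N)).filter fun n => r ^ 2 ∣ n).card : ℝ) ≤ 2 * N / (r : ℝ) ^ 2 := by
      refine le_trans (by exact_mod_cast a1) (Nat.cast_div_le.trans (le_of_eq ?_))
      push_cast; ring
    calc _ ≤ 2 * N / (r : ℝ) ^ 2 * (2 * r) := by gcongr
      _ = _ := by field_simp; ring
  refine (sum_le_sum h1).trans ?_
  rw [← mul_sum]
  have h2 : ∑ r ∈ Icc 1 (2 * N), (r : ℝ)⁻¹ ≤ k + 2 := by
    have a1 := harmonic_le_one_add_log (2 * N)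
    rw [harmonic_eq_sum_Icc] at a1
    push_cast at a1
    have a2 : Real.log (2 * (N : ℝ)) ≤ k + 1 := by
      rw [hN]; push_cast
      rw [← pow_succ', Real.log_pow]
      have := Real.log_two_lt_d9
      push_cast
      nlinarith
    linarith
  have : ((N : ℕ) : ℝ) = 2 ^ k := by rw [hN]; push_cast; ring
  rw [← this]
  gcongr

theorem sum_blocks (ψ : ℕ → ℝ) (c L : ℕ) :
    ∑ n ∈ range (c * L), ψ n = ∑ i ∈ range c, ∑ r ∈ range L, ψ (i * L + r) := by
  induction c with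
  | zero => simp
  | succ c ih => rw [Nat.succ_mul, sum_range_add, ih, sum_range_succ]

/-- block sum -/
noncomputable def bs (z : ℕ → ℝ) (k j i : ℕ) : ℝ := ∑ r ∈ range (2 ^ j), z (2 ^ k + (i * 2 ^ j + r))

/-- sum of squares of the block sums of one level -/
noncomputable def qq (z : ℕ → ℝ) (k j : ℕ) : ℝ := ∑ i ∈ range (2 ^ (k - j)), bs z k j i ^ 2

theorem qq_nonneg (z : ℕ → ℝ) (k j : ℕ) : 0 ≤ qq z k j := sum_nonneg fun _ _ => sq_nonneg _

theorem idx_lt {k j i r : ℕ} (hj : j ≤ k) (hi : i < 2 ^ (k - j)) (hr : r < 2 ^ j) :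
    i * 2 ^ j + r < 2 ^ k := by
  have : 2 ^ k = 2 ^ (k - j) * 2 ^ j := by rw [← pow_add]; congr 1; omega
  rw [this]
  nlinarith

open Classical in
theorem avg_qq (α : ℕ → ℝ) {k j B : ℕ} (hj : j ≤ k) (hB : 2 * 2 ^ k ≤ B) {Θ : ℝ}
    (hα : ∀ n, n < 2 ^ k → |α (2 ^ k + n)| ≤ Θ) :
    ∑ t ∈ (range B).powerset, qq (fun n => sg (fun p => decide (p ∈ t)) n * α n) k j
      ≤ 2 ^ B * (Θ ^ 2 * (4 * 2 ^ k * (k + 2))) := by
  have hΘ : 0 ≤ Θ := (abs_nonneg _).trans (hα 0 (by positivity))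
  set I := Ico (2 ^ k) (2 * 2 ^ k) with hI
  unfold qq bs
  rw [sum_comm]
  have h1 : ∀ i ∈ range (2 ^ (k - j)), ∑ t ∈ (range B).powerset,
      (∑ r ∈ range (2 ^ j), sg (fun p => decide (p ∈ t)) (2 ^ k + (i * 2 ^ j + r)) *
        α (2 ^ k + (i * 2 ^ j + r))) ^ 2 ≤
      ∑ r ∈ range (2 ^ j), 2 ^ B * Θ ^ 2 * ((I.filter (Sq (2 ^ k + (i * 2 ^ j + r)))).card : ℝ) := by
    intro i hi
    simp only [sq, sum_mul_sum]
    rw [sum_comm]
    refine sum_le_sum fun r hr => ?_
    rw [sum_comm]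
    have hr' := idx_lt hj (mem_range.1 hi) (mem_range.1 hr)
    have h2 : ∀ r' ∈ range (2 ^ j), ∑ t ∈ (range B).powerset,
        sg (fun p => decide (p ∈ t)) (2 ^ k + (i * 2 ^ j + r)) * α (2 ^ k + (i * 2 ^ j + r)) *
          (sg (fun p => decide (p ∈ t)) (2 ^ k + (i * 2 ^ j + r')) * α (2 ^ k + (i * 2 ^ j + r'))) ≤
        2 ^ B * (Θ * Θ) *
          if Sq (2 ^ k + (i * 2 ^ j + r)) (2 ^ k + (i * 2 ^ j + r')) then 1 else 0 := by
      intro r' hr2
      have hr3 := idx_lt hj (mem_range.1 hi) (mem_range.1 hr2)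
      have a1 := avg_pair (B := B) (n := 2 ^ k + (i * 2 ^ j + r)) (m := 2 ^ k + (i * 2 ^ j + r'))
        (by omega) (by omega)
      have a2 := mul_le_mul (hα _ hr') (hα _ hr3) (abs_nonneg _) hΘ
      rw [← abs_mul] at a2
      have a3 := mul_le_mul a1 a2 (abs_nonneg _) ((abs_nonneg _).trans a1)
      rw [← abs_mul, sum_mul] at a3
      refine le_trans (le_of_eq ?_) ((le_abs_self _).trans (a3.trans (le_of_eq ?_)))
      · exact sum_congr rfl fun t _ => by ring
      · split_ifs <;> ring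
    refine (sum_le_sum h2).trans ?_
    rw [← mul_sum, sum_boole]
    refine mul_le_mul_of_nonneg_left ?_ (by positivity)
    refine Nat.cast_le.2 (card_le_card_of_injOn (fun r' => 2 ^ k + (i * 2 ^ j + r')) ?_ ?_)
    · intro r' hr2
      simp only [coe_filter, Set.mem_ofPred_eq] at hr2 ⊢
      have hr3 := idx_lt hj (mem_range.1 hi) (mem_range.1 hr2.1)
      exact ⟨by rw [hI, mem_Ico]; omega, hr2.2⟩
    · intro a _ b _ hab
      simp only at hab
      omega
  refine (sum_le_sum h1).trans ?_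
  rw [← sum_blocks (fun n => 2 ^ B * Θ ^ 2 * ((I.filter (Sq (2 ^ k + n))).card : ℝ)), ← pow_add,
    Nat.sub_add_cancel hj, ← mul_sum, mul_assoc]
  have h3 := pairs_le k
  rw [sum_Ico_eq_sum_range, show 2 * 2 ^ k - 2 ^ k = 2 ^ k by omega] at h3
  gcongr

theorem tele (K : ℕ) : ∑ k ∈ range K, (1 : ℝ) / ((k + 1) * (k + 2)) ≤ 1 := by
  have : ∑ k ∈ range K, (1 : ℝ) / ((k + 1) * (k + 2)) = 1 - 1 / (K + 1) := by
    induction K with
    | zero => simp
    | succ K ih => rw [sum_range_succ, ih]; push_cast; field_simp; ring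
  rw [this]
  have : (0 : ℝ) ≤ 1 / (K + 1) := by positivity
  linarith

theorem exists_fin (α α' : ℕ → ℝ) (Θ : ℕ → ℝ) (hΘ : ∀ k, 0 < Θ k)
    (hα : ∀ k n, n < 2 ^ k → |α (2 ^ k + n)| ≤ Θ k) (hα' : ∀ k n, n < 2 ^ k → |α' (2 ^ k + n)| ≤ Θ k)
    (K : ℕ) : ∃ s : ℕ → Bool, ∀ k, k < K → ∀ j, j ≤ k →
      qq (fun n => sg s n * α n) k j + qq (fun n => sg s n * α' n) k j
        ≤ 8 * ((k + 1) * (k + 2)) ^ 2 * Θ k ^ 2 * 2 ^ k := by
  classical
  set B := 2 * 2 ^ K with hB
  set D : ℕ → ℝ := fun k => 8 * ((k + 1) * (k + 2)) ^ 2 * Θ k ^ 2 * 2 ^ k with hD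
  have hD0 : ∀ k, 0 < D k := fun k => by have := hΘ k; simp only [hD]; positivity
  set Ψ : Finset ℕ → ℕ → ℕ → ℝ := fun t k j =>
    (qq (fun n => sg (fun p => decide (p ∈ t)) n * α n) k j +
      qq (fun n => sg (fun p => decide (p ∈ t)) n * α' n) k j) / D k with hΨ
  have hΨ0 : ∀ t k j, 0 ≤ Ψ t k j := fun t k j =>
    div_nonneg (add_nonneg (qq_nonneg _ _ _) (qq_nonneg _ _ _)) (hD0 k).le
  have h1 : ∑ t ∈ (range B).powerset, ∑ k ∈ range K, ∑ j ∈ range (k + 1), Ψ t k j ≤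
      ∑ _t ∈ (range B).powerset, (1 : ℝ) := by
    rw [sum_comm, sum_const, card_powerset, card_range, nsmul_eq_mul, mul_one]
    have h2 : ∀ k ∈ range K, ∑ t ∈ (range B).powerset, ∑ j ∈ range (k + 1), Ψ t k j ≤
        2 ^ B * (1 / ((k + 1) * (k + 2))) := by
      intro k hk
      rw [sum_comm]
      have hkB : 2 * 2 ^ k ≤ B :=
        Nat.mul_le_mul_left 2 (Nat.pow_le_pow_right two_pos (mem_range.1 hk).le)
      have h3 : ∀ j ∈ range (k + 1), ∑ t ∈ (range B).powerset, Ψ t k j ≤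
          2 * (2 ^ B * (Θ k ^ 2 * (4 * 2 ^ k * (k + 2)))) / D k := by
        intro j hj
        have hj' : j ≤ k := Nat.lt_succ_iff.1 (mem_range.1 hj)
        simp only [hΨ]
        rw [← sum_div, sum_add_distrib]
        refine div_le_div_of_nonneg_right ?_ (hD0 k).le
        linarith [avg_qq α hj' hkB (hα k), avg_qq α' hj' hkB (hα' k)]
      refine (sum_le_sum h3).trans (le_of_eq ?_)
      rw [sum_const, card_range, nsmul_eq_mul]
      have := hΘ k
      simp only [hD]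
      push_cast
      field_simp
      ring
    refine (sum_le_sum h2).trans ?_
    rw [← mul_sum]
    push_cast
    exact mul_le_of_le_one_right (by positivity) (tele K)
  obtain ⟨t, -, ht⟩ := exists_le_of_sum_le ⟨∅, empty_mem_powerset _⟩ h1
  refine ⟨fun p => decide (p ∈ t), fun k hk j hj => ?_⟩
  have h4 : Ψ t k j ≤ 1 := by
    refine le_trans ?_ ht
    refine le_trans ?_ (single_le_sum (f := fun k => ∑ j ∈ range (k + 1), Ψ t k j)
      (fun k _ => sum_nonneg fun j _ => hΨ0 t k j) (mem_range.2 hk))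
    exact single_le_sum (f := fun j => Ψ t k j) (fun j _ => hΨ0 t k j)
      (mem_range.2 (Nat.lt_succ_of_le hj))
  exact (div_le_one (hD0 k)).1 h4

theorem qq_cont (α : ℕ → ℝ) (k j : ℕ) :
    Continuous fun s : ℕ → Bool => qq (fun n => sg s n * α n) k j := by
  unfold qq bs
  exact continuous_finsetSum _ fun i _ =>
    (continuous_finsetSum _ fun r _ => (sg_cont _).mul continuous_const).pow 2

/-- the level bound in l1 form -/
def Lev (z : ℕ → ℝ) (k : ℕ) (B : ℝ) : Prop :=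
  ∀ j, j ≤ k → ∑ i ∈ range (2 ^ (k - j)), |bs z k j i| ≤ B * √2 ^ (k - j)

theorem lev_of_qq {z : ℕ → ℝ} {k : ℕ} {B : ℝ} (hB : 0 ≤ B) (h : ∀ j, j ≤ k → qq z k j ≤ B ^ 2) :
    Lev z k B := by
  intro j hj
  have h1 := sq_sum_le_card_mul_sum_sq (s := range (2 ^ (k - j))) (f := fun i => |bs z k j i|)
  simp only [sq_abs, card_range] at h1
  refine abs_le_of_sq_le_sq' ?_ (by positivity) |>.2
  have h2 : (B * √2 ^ (k - j)) ^ 2 = 2 ^ (k - j) * B ^ 2 := by
    rw [mul_pow, ← pow_mul, mul_comm (k - j), pow_mul, Real.sq_sqrt two_pos.le, mul_comm]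
  rw [h2]
  refine h1.trans ?_
  push_cast
  exact mul_le_mul_of_nonneg_left (h j hj) (by positivity)

theorem exists_signs (α α' : ℕ → ℝ) (Θ : ℕ → ℝ) (hΘ : ∀ k, 0 < Θ k)
    (hα : ∀ k n, n < 2 ^ k → |α (2 ^ k + n)| ≤ Θ k) (hα' : ∀ k n, n < 2 ^ k → |α' (2 ^ k + n)| ≤ Θ k) :
    ∃ s : ℕ → Bool, ∀ k, Lev (fun n => sg s n * α n) k (3 * (k + 2) ^ 2 * (Θ k * √2 ^ k)) ∧
      Lev (fun n => sg s n * α' n) k (3 * (k + 2) ^ 2 * (Θ k * √2 ^ k)) := by
  set C : ℕ → Set (ℕ → Bool) := fun K => {s | ∀ k, k < K → ∀ j, j ≤ k →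
      qq (fun n => sg s n * α n) k j + qq (fun n => sg s n * α' n) k j
        ≤ 8 * ((k + 1) * (k + 2)) ^ 2 * Θ k ^ 2 * 2 ^ k} with hC
  have hcl : ∀ K, IsClosed (C K) := by
    intro K
    simp only [hC, Set.ofPred_forall]
    exact isClosed_iInter fun k => isClosed_iInter fun _ => isClosed_iInter fun j =>
      isClosed_iInter fun _ => isClosed_le ((qq_cont α k j).add (qq_cont α' k j)) continuous_const
  obtain ⟨s, hs⟩ := IsCompact.nonempty_iInter_of_sequence_nonempty_isCompact_isClosed C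
    (fun K s hs k hk => hs k (by omega)) (fun K => exists_fin α α' Θ hΘ hα hα' K)
    (hcl 0).isCompact hcl
  refine ⟨s, fun k => ?_⟩
  have h1 := fun j hj => Set.mem_iInter.1 hs (k + 1) k (Nat.lt_succ_self k) j hj
  have h0 := hΘ k
  have h2 : 8 * (((k : ℝ) + 1) * (k + 2)) ^ 2 * Θ k ^ 2 * 2 ^ k ≤
      (3 * (k + 2) ^ 2 * (Θ k * √2 ^ k)) ^ 2 := by
    have e : (3 * ((k : ℝ) + 2) ^ 2 * (Θ k * √2 ^ k)) ^ 2 =
        9 * ((k + 2) * (k + 2)) ^ 2 * Θ k ^ 2 * 2 ^ k := by
      rw [mul_pow, mul_pow (Θ k), ← pow_mul √2, mul_comm k, pow_mul, Real.sq_sqrt two_pos.le]; ring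
    rw [e]
    gcongr <;> norm_num
  constructor
  · exact lev_of_qq (by positivity) fun j hj => by
      linarith [h1 j hj, qq_nonneg (fun n => sg s n * α' n) k j]
  · exact lev_of_qq (by positivity) fun j hj => by
      linarith [h1 j hj, qq_nonneg (fun n => sg s n * α n) k j]

end Pool.Agent.H61.Big
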