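import Pool.Agent.H61.BigG
import Pool.Agent.H61.BigA
import Pool.Agent.H49.BigSpec

/- A member of the Selberg class whose prime coefficients have size log p. -/

set_option autoImplicit false
open Filter Topology ArithmeticFunction MeasureTheory Set

namespace Pool.Agent.H61.Big
open Pool.Agent.Lead.Sel

theorem psi_rap (e ν : ℝ) (m : ℕ) {t : ℝ} (ht : 0 < t) (R : ℕ) :
    ∃ M : ℝ, ∀ x, 0 < x → |psi e ν m t x| * (1 + x) ^ R ≤ M := by
  have ha : 0 < Real.pi * t := by positivity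
  refine ⟨(|e| * (Real.pi * t) + |ν|) * Real.exp ((m + (2 + R) : ℕ) ^ 2 / (4 * (Real.pi * t))),
    fun x hx => ?_⟩
  have h1 := gauss_bd (m + (2 + R)) ha x hx.le
  have h2 : |e * (Real.pi * t * x ^ 2) - ν| ≤ (|e| * (Real.pi * t) + |ν|) * (1 + x) ^ 2 := by
    refine (abs_sub _ _).trans ?_
    rw [abs_mul, abs_of_nonneg (by positivity : 0 ≤ Real.pi * t * x ^ 2), add_mul]
    have h3 : x ^ 2 ≤ (1 + x) ^ 2 := by gcongr; linarith
    have h4 : 1 ≤ (1 + x) ^ 2 := one_le_pow₀ (by linarith)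
    have h5 : |e| * (Real.pi * t * x ^ 2) ≤ |e| * (Real.pi * t) * (1 + x) ^ 2 := by
      rw [← mul_assoc]; gcongr
    have h6 : |ν| ≤ |ν| * (1 + x) ^ 2 := le_mul_of_one_le_right (abs_nonneg _) h4
    linarith
  have h7 : x ^ m ≤ (1 + x) ^ m := by gcongr; linarith
  unfold psi
  rw [abs_mul, abs_mul, abs_of_pos (Real.exp_pos _), abs_of_pos (pow_pos hx m)]
  calc _ ≤ ((|e| * (Real.pi * t) + |ν|) * (1 + x) ^ 2) * (1 + x) ^ m *
        Real.exp (-(Real.pi * t * x ^ 2)) * (1 + x) ^ R := by gcongr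
    _ = (|e| * (Real.pi * t) + |ν|) *
        ((1 + x) ^ (m + (2 + R)) * Real.exp (-(Real.pi * t * x ^ 2))) := by ring
    _ ≤ _ := by gcongr

theorem test_psi {e ν : ℝ} {m : ℕ} {K : ℝ → ℝ} {C0 : ℝ} (hK : Continuous K) (hC : 0 < C0)
    (hlip : ∀ r r' : ℝ, 0 ≤ r → 0 ≤ r' → |K r - K r'| ≤ C0 * |r - r'|)
    (hint : ∀ t x : ℝ, 0 < t → 0 < x →
      ∫ ξ in Ioi (0 : ℝ), K (x * ξ) * psi e ν m t ξ = t ^ (-((m : ℝ) + 1 / 2)) * psi e ν m t⁻¹ x)
    {t : ℝ} (ht : 0 < t) :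
    Test K fun x => psi e ν m t x + t ^ (-((m : ℝ) + 1 / 2)) * psi e ν m t⁻¹ x := by
  set α : ℝ := (m : ℝ) + 1 / 2 with hα
  have hta : 0 < t ^ (-α) := by positivity
  have hc1 := psi_cont e ν m t
  have hc2 := psi_cont e ν m t⁻¹
  refine ⟨by fun_prop, fun R => ?_, fun x hx => ?_⟩
  · obtain ⟨M1, hM1⟩ := psi_rap e ν m ht R
    obtain ⟨M2, hM2⟩ := psi_rap e ν m (inv_pos.2 ht) R
    refine ⟨M1 + t ^ (-α) * M2, fun x hx => ?_⟩
    have := hM1 x hx
    have h6 := mul_le_mul_of_nonneg_left (hM2 x hx) hta.le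
    calc _ ≤ (|psi e ν m t x| + t ^ (-α) * |psi e ν m t⁻¹ x|) * (1 + x) ^ R := by
          gcongr
          refine (abs_add_le _ _).trans ?_
          rw [abs_mul, abs_of_pos hta]
      _ ≤ _ := by nlinarith
  · obtain ⟨M1, hM1⟩ := psi_bd e ν m ht
    obtain ⟨M2, hM2⟩ := psi_bd e ν m (inv_pos.2 ht)
    have i1 := int_ker hK hC hlip hc1 hM1 hx
    have i2 := int_ker hK hC hlip hc2 hM2 hx
    have e1 : ∀ ξ, K (x * ξ) * (psi e ν m t ξ + t ^ (-α) * psi e ν m t⁻¹ ξ) =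
        K (x * ξ) * psi e ν m t ξ + t ^ (-α) * (K (x * ξ) * psi e ν m t⁻¹ ξ) := by
      intro ξ; ring
    simp_rw [e1]
    rw [integral_add i1 (i2.const_mul _), integral_const_mul, hint t x ht hx,
      hint t⁻¹ x (inv_pos.2 ht) hx, inv_inv, Real.inv_rpow ht.le, ← mul_assoc,
      mul_inv_cancel₀ hta.ne']
    ring

theorem coef_small {L j n : ℕ} {N x σ : ℝ} (hL : 1 ≤ L) (hj : 1 ≤ j) (h1 : j ^ L < n)
    (h2 : n ≤ (j + 1) ^ L) (hN : ((j : ℝ) ^ L) ^ (3 / 4 : ℝ) ≤ N) (hσ : σ ≤ 1 / 16)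
    (h7 : 2 ^ 30 * 2 ^ L ≤ (n : ℝ) ^ (1 / 16 : ℝ)) (hx : x ≤ 2 ^ 30 * (n : ℝ) ^ σ / N) :
    x ≤ (n : ℝ) ^ (-(5 / 8 : ℝ)) := by
  have hj1 : (1 : ℝ) ≤ j := by exact_mod_cast hj
  have hjn : j ≤ n := le_trans (Nat.le_self_pow (by omega) j) h1.le
  have hn0 : (1 : ℝ) ≤ n := by exact_mod_cast (by omega : 1 ≤ n)
  have hnpos : (0 : ℝ) < n := by linarith
  have hN0 : 0 < N := lt_of_lt_of_le (by positivity) hN
  have h5 : (n : ℝ) ≤ 2 ^ L * (j : ℝ) ^ L := by
    rw [← mul_pow]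
    have : (n : ℝ) ≤ ((j : ℝ) + 1) ^ L := by exact_mod_cast h2
    refine this.trans ?_
    gcongr; linarith
  have h6 : (n : ℝ) ^ (3 / 4 : ℝ) ≤ 2 ^ L * N := by
    calc (n : ℝ) ^ (3 / 4 : ℝ) ≤ (2 ^ L * (j : ℝ) ^ L) ^ (3 / 4 : ℝ) := by gcongr
      _ = ((2 : ℝ) ^ L) ^ (3 / 4 : ℝ) * ((j : ℝ) ^ L) ^ (3 / 4 : ℝ) :=
          Real.mul_rpow (by positivity) (by positivity)
      _ ≤ 2 ^ L * N := by
          refine mul_le_mul ?_ hN (by positivity) (by positivity)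
          calc ((2 : ℝ) ^ L) ^ (3 / 4 : ℝ) ≤ ((2 : ℝ) ^ L) ^ (1 : ℝ) :=
                Real.rpow_le_rpow_of_exponent_le (one_le_pow₀ (by norm_num)) (by norm_num)
            _ = _ := Real.rpow_one _
  refine hx.trans ?_
  rw [div_le_iff₀ hN0]
  have h8 : (n : ℝ) ^ σ ≤ (n : ℝ) ^ (1 / 16 : ℝ) := Real.rpow_le_rpow_of_exponent_le hn0 hσ
  have h9 : (n : ℝ) ^ (1 / 16 : ℝ) * (n : ℝ) ^ (1 / 16 : ℝ) =
      (n : ℝ) ^ (-(5 / 8 : ℝ)) * (n : ℝ) ^ (3 / 4 : ℝ) := by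
    rw [← Real.rpow_add hnpos, ← Real.rpow_add hnpos]; norm_num
  have h10 : (0 : ℝ) < 2 ^ L := by positivity
  refine le_of_mul_le_mul_left ?_ h10
  calc 2 ^ L * (2 ^ 30 * (n : ℝ) ^ σ) = (2 ^ 30 * 2 ^ L) * (n : ℝ) ^ σ := by ring
    _ ≤ (n : ℝ) ^ (1 / 16 : ℝ) * (n : ℝ) ^ (1 / 16 : ℝ) := by gcongr
    _ ≤ (n : ℝ) ^ (-(5 / 8 : ℝ)) * (2 ^ L * N) := by rw [h9]; gcongr
    _ = _ := by ring

theorem sel2 (hH : HOH) : ∃ d0 : ℝ, ∀ (e ν : ℝ) (m : ℕ) (d : ℝ), d0 ≤ d → HasKer e ν m →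
    ∃ κ : ℝ, 0 < κ ∧ ∃ (c : ArithmeticFunction ℝ) (y : ℕ), (∀ n, ¬ n.Prime → c n = 0) ∧
      (∀ n : ℕ, |c n| ≤ (Real.log n + 1) * (n : ℝ) ^ (-(1 / 2 - 1 / (2 * d)))) ∧
      (∀ p : ℕ, p.Prime → y ≤ p →
        (Real.log p - 1) * (p : ℝ) ^ (-(1 / 2 - 1 / (2 * d))) ≤ |c p|) ∧
      Theta e ν m d κ (fun n => aexp c n * (n : ℝ) ^ (1 / 2 - 1 / (2 * d))) := by
  obtain ⟨L0, hH⟩ := hH
  set L := L0 + 1 with hL
  obtain ⟨J, hJ⟩ := hH L (by omega)
  refine ⟨400 + 256 * L, fun e ν m d hd hk => ?_⟩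
  obtain ⟨K, C0, hK, hC, hlip, hint⟩ := hk
  have hL0 : (0 : ℝ) ≤ L := by positivity
  have hd0 : 0 < d := by linarith
  have hT : Tendsto (fun J : ℕ => (J : ℝ) ^ (1 / 16 : ℝ)) atTop atTop :=
    (tendsto_rpow_atTop (by norm_num)).comp tendsto_natCast_atTop_atTop
  obtain ⟨J1, hJ1⟩ := eventually_atTop.1 (hT.eventually_ge_atTop (2 ^ 30 * 2 ^ L))
  set P : ℕ → Finset ℕ := fun j => (Finset.Ioc (j ^ L) ((j + 1) ^ L)).filter Nat.Prime with hP
  have hcard : ∀ j, J + J1 + 1 ≤ j → (0 : ℝ) < (P j).card := by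
    intro j hj
    refine lt_of_lt_of_le ?_ (hJ j (by omega))
    have : (0 : ℝ) < j := by exact_mod_cast (by omega : 0 < j)
    positivity
  obtain ⟨k2, hW⟩ := provider (d := d) (by linarith)
  obtain ⟨κ, hκ, w, ⟨g, y, rfl, g0, g1, g2⟩, hw, c, h1, h2, h3, h4⟩ :=
    exo2 K C0 hK hC hlip L (by omega) d (by linarith) P (J + J1 + 1) (by
      intro j hj
      refine ⟨Finset.card_pos.1 (by exact_mod_cast hcard j hj), fun p hp => ?_⟩
      exact Finset.mem_Ioc.1 (Finset.mem_filter.1 hp).1) _ k2 hW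
  set γ : ℝ := 1 / 2 - 1 / (2 * d) with hγ
  have hγ1 : γ ≤ 1 / 2 := by have : 0 < 1 / (2 * d) := by positivity
                             linarith
  have hγ0 : 0 ≤ γ := by
    have : 1 / (2 * d) ≤ 1 / 2 := by gcongr; linarith
    linarith
  have h3d : 25 / d ≤ 1 / 16 := by rw [div_le_iff₀ hd0]; linarith
  have hc0 : ∀ n, ¬ n.Prime → c n = 0 := by
    intro n hn
    by_contra h
    obtain ⟨j, -, hj, -⟩ := h3 n h
    exact hn (Finset.mem_filter.1 hj).2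
  have hcγ : ∀ n : ℕ, |c n| ≤ (n : ℝ) ^ (-γ) := by
    intro n
    by_cases h : c n = 0
    · rw [h, abs_zero]; positivity
    obtain ⟨j, hj, hn, hb⟩ := h3 n h
    obtain ⟨hn1, hn2⟩ := Finset.mem_Ioc.1 (Finset.mem_filter.1 hn).1
    have hjn : j ≤ n := le_trans (Nat.le_self_pow (by omega) j) hn1.le
    exact (coef_small (by omega) (by omega) hn1 hn2 (hJ j (by omega)) h3d (hJ1 n (by omega)) hb).trans
      (Real.rpow_le_rpow_of_exponent_le (by exact_mod_cast (by omega : 1 ≤ n)) (by linarith))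
  refine ⟨κ, hκ, c + g, y, fun n hn => by simp [hc0 n hn, g0 n hn], fun n => ?_, fun p hp hy => ?_,
    fun t ht => ?_⟩
  · rw [ArithmeticFunction.add_apply]
    linarith [abs_add_le (c n) (g n), hcγ n, g1 n]
  · rw [ArithmeticFunction.add_apply]
    have := abs_sub_abs_le_abs_sub (g p) (-c p)
    rw [abs_neg, sub_neg_eq_add, add_comm (g p)] at this
    linarith [hcγ p, g2 p hp hy]
  · have hf := test_psi hK hC hlip hint ht
    have h5 := (h4 _ hf).tsum_eq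
    have hu : ∀ n, |axp c n| ≤ 1 := by
      intro n
      rcases Nat.eq_zero_or_pos n with rfl | hn
      · simp
      · exact (aexp_bound hc0 hcγ n).trans
          (Real.rpow_le_one_of_one_le_of_nonpos (by exact_mod_cast hn) (by linarith))
    have h6 := TT_conv (d := d) (by linarith) hκ
      (fun R => (hf.rap R).imp fun _ h x hx => h x (hκ.trans_le hx)) (axp c) (axp g) hu hw le_rfl
    obtain ⟨M1, n1⟩ := nle_of_bd (f := c) (C := 1) (θ := -γ) (σ := 3)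
      (fun n _ => by rw [one_mul]; exact hcγ n) (by linarith)
    obtain ⟨M2, n2⟩ := nle_of_bd (f := g) (C := 1) (θ := 1 + -γ) (σ := 3) (fun n hn => by
      have hn' : (0 : ℝ) < n := by exact_mod_cast hn
      rw [one_mul, Real.rpow_add hn', Real.rpow_one]
      exact (g1 n).trans (mul_le_mul_of_nonneg_right (Real.log_le_self hn'.le) (by positivity)))
      (by linarith)
    rw [← axp_add n1 n2] at h6
    refine Eq.trans ?_ (h6.symm.trans h5)
    unfold TT ee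
    congr 1; funext n
    rcases Nat.eq_zero_or_pos n with rfl | hn
    · simp [aexp_zero]
    · have hn' : (0 : ℝ) < n := by exact_mod_cast hn
      have : (n : ℝ) ^ γ ≠ 0 := by positivity
      rw [Real.rpow_neg hn'.le, axp_apply, ← hγ, mul_inv_cancel_right₀ this]

theorem big (hH : HOH) (hker : KER0) (hmel : MEL) : Pool.Agent.H49.Big.BIG := by
  obtain ⟨d0, hsel⟩ := sel2 hH
  obtain ⟨N, hN⟩ := exists_nat_ge (|d0| + 3)
  have hd0 := le_abs_self d0
  have hd1 := abs_nonneg d0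
  obtain ⟨κ, hκ, c, y, c0, c1, c2, hθ⟩ := hsel 0 (-1) N ((N : ℝ) + 1 / 2) (by linarith) (hker N)
  set γ : ℝ := 1 / 2 - 1 / (2 * ((N : ℝ) + 1 / 2)) with hγ
  have hpw : ∀ n : ℕ, 1 ≤ n → (n : ℝ) ^ (-γ) * (n : ℝ) ^ γ = 1 := fun n hn => by
    rw [← Real.rpow_add (by exact_mod_cast hn)]; simp
  have hb : ∀ ε : ℝ, 0 < ε → ∀ n : ℕ, 1 ≤ n → |c n| ≤ (1 / ε + 1) * (n : ℝ) ^ (ε + -γ) := by
    intro ε hε n hn
    have hn1 : (1 : ℝ) ≤ n := by exact_mod_cast hn
    rw [Real.rpow_add (by linarith), ← mul_assoc]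
    refine (c1 n).trans (mul_le_mul_of_nonneg_right ?_ (by positivity))
    have a1 := Real.log_le_rpow_div (by linarith : (0 : ℝ) ≤ n) hε
    have a2 := Real.one_le_rpow hn1 hε.le
    rw [add_mul, one_mul, one_div, ← div_eq_inv_mul]
    linarith
  have hN' : ∀ σ : ℝ, 1 < σ → ∃ M, Nle (σ - γ) c M := fun σ hσ =>
    nle_of_bd (hb ((σ - 1) / 2) (by linarith)) (by linarith)
  have sa : ∀ σ : ℝ, 1 < σ →
      Summable fun n : ℕ => |aexp c n * (n : ℝ) ^ γ| * (n : ℝ) ^ (-σ) := fun σ hσ =>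
    (hN' σ hσ).elim fun M h => summ_shift (aexp_zero c) (aexp_summable h) (by linarith)
  have sb : ∀ σ : ℝ, 1 < σ →
      Summable fun n : ℕ => |c n * (n : ℝ) ^ γ| * (n : ℝ) ^ (-σ) := fun σ hσ =>
    (hN' σ hσ).elim fun M h => summ_shift c.map_zero h.1 (by linarith)
  have la : ∀ s : ℂ, 1 < s.re →
      LSeriesSummable (fun n => ((aexp c n * (n : ℝ) ^ γ : ℝ) : ℂ)) s := fun s hs =>
    (Pool.Agent.H49.Sel.lseries_bdd (sa _ hs) le_rfl).1
  obtain ⟨Φ, G, Q, hQ, g1, g2, g3, f1, f2, f3⟩ := Pool.Agent.H49.Sel.pack hmel 0 (-1) N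
    ((N : ℝ) + 1 / 2) κ _ 2 _ _ rfl rfl (by linarith) (by linarith) hκ (by simp [aexp_zero])
    (by norm_num) le_rfl (sa 2 one_lt_two) hθ
  have hpr : ∀ p : ℕ, p.Prime → aexp c p = c p := by
    intro p hp
    refine aexp_prime (γ := γ - 1) c0 (fun n => ?_) hp
    rcases Nat.eq_zero_or_pos n with rfl | hn
    · simp; positivity
    · have hn' : (0 : ℝ) < n := by exact_mod_cast hn
      rw [show -(γ - 1) = 1 + -γ by ring, Real.rpow_add hn', Real.rpow_one]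
      exact (c1 n).trans (mul_le_mul_of_nonneg_right
        (by linarith [Real.log_le_sub_one_of_pos hn']) (by positivity))
  refine ⟨fun n => ((aexp c n * (n : ℝ) ^ γ : ℝ) : ℂ), fun n => ((c n * (n : ℝ) ^ γ : ℝ) : ℂ), G, Q,
    ((N : ℝ) + 1 / 2) / 2, (N : ℝ) / 2 + 1 / 4 - ((N : ℝ) + 1 / 2) / 4, by simp [aexp_zero],
    by simp [aexp_one (c0 1 Nat.not_prime_one)], fun ε hε => ?_, fun n hn => by simp [c0 n hn],
    fun ε hε => ⟨1 / ε + 1, fun n hn => ?_⟩, fun p hp => by simp only [hpr p hp],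
    fun s hs => ⟨la s hs, (Pool.Agent.H49.Sel.lseries_bdd (sb _ hs) le_rfl).1, ?_⟩, g1,
    g2.finite_order, fun s hs => ?_, hQ, by linarith, by linarith, fun s h1 h2 => ?_,
    fun D C => ?_⟩
  · obtain ⟨C, hC⟩ := ram_aexp c0 c1 hε
    exact ⟨C, fun n hn => by rw [Complex.norm_real, Real.norm_eq_abs]; exact hC n hn⟩
  · have hn' : (0 : ℝ) < n := by exact_mod_cast hn
    rw [Complex.norm_real, Real.norm_eq_abs, abs_mul, abs_of_pos (by positivity : 0 < (n : ℝ) ^ γ)]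
    refine (mul_le_mul_of_nonneg_right (hb ε hε n hn) (by positivity)).trans (le_of_eq ?_)
    rw [Real.rpow_add hn', mul_assoc, mul_assoc, hpw n hn, mul_one]
  · obtain ⟨M, h⟩ := hN' s.re hs
    rw [lseries_shift (aexp_zero c), lseries_shift c.map_zero]
    exact aexp_series h _ (by simp)
  · have hab : LSeries.abscissaOfAbsConv (fun n => ((aexp c n * (n : ℝ) ^ γ : ℝ) : ℂ)) ≤ (1 : ℝ) :=
      LSeries.abscissaOfAbsConv_le_of_forall_lt_LSeriesSummable fun y hy => la y (by simpa using hy)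
    have hU : IsOpen {s : ℂ | 1 < s.re} := isOpen_lt continuous_const Complex.continuous_re
    have a1 : AnalyticOnNhd ℂ (LSeries fun n => ((aexp c n * (n : ℝ) ^ γ : ℝ) : ℂ))
        {s : ℂ | 1 < s.re} := (LSeries_analyticOnNhd _).mono fun s hs =>
      lt_of_le_of_lt hab (by exact_mod_cast hs)
    refine (g1.differentiableOn.analyticOnNhd hU).eqOn_of_preconnected_of_eventuallyEq a1
      (convex_halfSpace_re_gt 1).isPreconnected (z₀ := 3) (by simp) ?_ hs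
    filter_upwards [(isOpen_lt continuous_const Complex.continuous_re).mem_nhds
      (show (3 : ℂ) ∈ {s : ℂ | 2 < s.re} by simp; norm_num)] with z hz
    rw [g3 z (le_of_lt hz)]; simp
  · rw [f3 s (Complex.Gamma_ne_zero h1), f3 _ (Complex.Gamma_ne_zero h2), f1, f2]
    simp
  · set T : ℝ := 2 * (|D| + 1) with hT
    have hT1 : 1 ≤ T := by linarith [abs_nonneg D]
    have hl : Tendsto (fun n : ℕ => Real.log n) atTop atTop :=
      Real.tendsto_log_atTop.comp tendsto_natCast_atTop_atTop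
    obtain ⟨y1, hy1⟩ := eventually_atTop.1
      ((hl.eventually_ge_atTop (T + 1)).and (eventually_ge_atTop y))
    obtain ⟨X, hX1, hX2, hX3⟩ := (((Real.tendsto_log_atTop.comp hl).eventually_ge_atTop
      (C + T * y1)).and (((Real.tendsto_log_atTop.comp hl).eventually_ge_atTop 0).and
        (eventually_ge_atTop 3))).exists
    simp only [Function.comp] at hX1 hX2
    refine ⟨X, hX3, ?_⟩
    have a1 := mertens_low (z := X) (by omega)
    have a2 : ∀ p ∈ (Finset.Iic X).filter Nat.Prime, T * (1 / (p : ℝ)) ≤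
        ‖((aexp c p * (p : ℝ) ^ γ : ℝ) : ℂ)‖ ^ 2 / (p : ℝ) + if p ∈ Finset.range y1 then T else 0 := by
      intro p hp
      have pp := (Finset.mem_filter.1 hp).2
      have p1 : (1 : ℝ) ≤ p := by exact_mod_cast pp.one_le
      split_ifs with h
      · have : T * (1 / (p : ℝ)) ≤ T := mul_le_of_le_one_right (by linarith)
          (by rw [div_le_one (by linarith)]; exact p1)
        exact this.trans (le_add_of_nonneg_left (by positivity))
      · obtain ⟨b1, b2⟩ := hy1 p (by simpa using h)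
        have b3 := mul_le_mul_of_nonneg_right (c2 p pp b2) (by positivity : 0 ≤ (p : ℝ) ^ γ)
        rw [mul_assoc, hpw p pp.one_le, mul_one] at b3
        rw [add_zero, Complex.norm_real, Real.norm_eq_abs, hpr p pp, abs_mul,
          abs_of_nonneg (by positivity : 0 ≤ (p : ℝ) ^ γ), mul_one_div]
        refine div_le_div_of_nonneg_right ?_ (by linarith)
        nlinarith
    have a3 := Finset.sum_le_sum a2
    rw [← Finset.mul_sum, Finset.sum_add_distrib, ← Finset.sum_filter] at a3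
    have a4 : ∑ p ∈ ((Finset.Iic X).filter Nat.Prime).filter (· ∈ Finset.range y1), T ≤ T * y1 := by
      rw [Finset.sum_const, nsmul_eq_mul, mul_comm]
      refine mul_le_mul_of_nonneg_left ?_ (by linarith)
      have := Finset.card_le_card (s := ((Finset.Iic X).filter Nat.Prime).filter
        (· ∈ Finset.range y1)) (t := Finset.range y1) fun p hp => (Finset.mem_filter.1 hp).2
      rw [Finset.card_range] at this
      exact_mod_cast this
    have a5 := mul_le_mul_of_nonneg_left a1 (by linarith [abs_nonneg D] : 0 ≤ |D| + 1)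
    have a6 := mul_le_mul_of_nonneg_right (le_abs_self D) hX2
    nlinarith

end Pool.Agent.H61.Big
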