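import Mathlib

/- Product measure on subsets, weighted Chernoff bound, and the geometry of the hypercube. -/

set_option autoImplicit false
open Finset

namespace Pool.Agent.H61.Boot

section prob
variable {V : Type} [Fintype V] [DecidableEq V]

noncomputable def wt (p : ℝ) (A : Finset V) : ℝ :=
  p ^ A.card * (1 - p) ^ (Fintype.card V - A.card)

omit [DecidableEq V] in
lemma wt_nonneg {p : ℝ} (h0 : 0 ≤ p) (h1 : p ≤ 1) (A : Finset V) : 0 ≤ wt p A :=
  mul_nonneg (pow_nonneg h0 _) (pow_nonneg (by linarith) _)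

lemma mgf (p : ℝ) (f : V → ℝ) :
    ∑ A : Finset V, wt p A * ∏ x ∈ A, f x = ∏ x, (p * f x + (1 - p)) := by
  rw [Finset.prod_add, Finset.powerset_univ]
  refine Finset.sum_congr rfl fun A _ => ?_
  rw [Finset.prod_mul_distrib, Finset.prod_const, Finset.prod_const, wt, card_univ_sdiff]
  ring

open Classical in
noncomputable def Pr (p : ℝ) (E : Finset V → Prop) : ℝ := ∑ A ∈ univ.filter E, wt p A

lemma Pr_mono {p : ℝ} (h0 : 0 ≤ p) (h1 : p ≤ 1) {E F : Finset V → Prop} (h : ∀ A, E A → F A) :
    Pr p E ≤ Pr p F := by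
  classical
  refine Finset.sum_le_sum_of_subset_of_nonneg (fun A hA => ?_) fun A _ _ => wt_nonneg h0 h1 A
  simp only [mem_filter, mem_univ, true_and] at hA ⊢
  exact h A hA

lemma Pr_compl (p : ℝ) (E : Finset V → Prop) : Pr p E + Pr p (fun A => ¬ E A) = 1 := by
  classical
  have := mgf p (fun _ : V => (1 : ℝ))
  simp only [Finset.prod_const_one, mul_one, add_sub_cancel] at this
  rw [← this, ← Finset.sum_filter_add_sum_filter_not univ E, Pr, Pr]
  congr!

lemma Pr_union {p : ℝ} (h0 : 0 ≤ p) (h1 : p ≤ 1) {ι : Type} (I : Finset ι)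
    (E : ι → Finset V → Prop) : Pr p (fun A => ∃ i ∈ I, E i A) ≤ ∑ i ∈ I, Pr p (E i) := by
  classical
  simp only [Pr, Finset.sum_filter]
  rw [Finset.sum_comm]
  refine Finset.sum_le_sum fun A _ => ?_
  have hn : ∀ i ∈ I, 0 ≤ (if E i A then wt p A else 0) := fun i _ => by
    split_ifs
    · exact wt_nonneg h0 h1 A
    · exact le_rfl
  split_ifs with h
  · obtain ⟨i, hi, h⟩ := h
    refine le_trans (le_of_eq ?_) (Finset.single_le_sum hn hi)
    rw [if_pos h]
  · exact Finset.sum_nonneg hn

lemma Pr_or {p : ℝ} (h0 : 0 ≤ p) (h1 : p ≤ 1) (E F : Finset V → Prop) :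
    Pr p (fun A => E A ∨ F A) ≤ Pr p E + Pr p F := by
  have := Pr_union h0 h1 (univ : Finset Bool) (fun b A => if b then E A else F A)
  simp only [Fintype.sum_bool, if_true, Bool.false_eq_true, if_false] at this
  refine le_trans (Pr_mono h0 h1 fun A hA => ?_) this
  rcases hA with h | h
  · exact ⟨true, mem_univ _, by simpa using h⟩
  · exact ⟨false, mem_univ _, by simpa using h⟩

lemma Pr_mem (p : ℝ) (v : V) : Pr p (fun A => v ∈ A) ≤ p := by
  classical
  have h := mgf p (fun x : V => if x = v then (0 : ℝ) else 1)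
  have h2 : ∏ x : V, (p * (if x = v then (0 : ℝ) else 1) + (1 - p)) = 1 - p := by
    rw [Finset.prod_eq_single v]
    · simp
    · intro b _ hb; simp [hb]
    · simp
  have h3 : Pr p (fun A : Finset V => ¬ v ∈ A) = 1 - p := by
    rw [← h2, ← h, Pr, Finset.sum_filter]
    refine Finset.sum_congr rfl fun A _ => ?_
    by_cases hv : v ∈ A
    · rw [Finset.prod_eq_zero hv (by simp)]; simp [hv]
    · rw [Finset.prod_eq_one fun x hx => by rw [if_neg]; rintro rfl; exact hv hx]; simp [hv]
  have := Pr_compl p (fun A : Finset V => v ∈ A)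
  linarith

lemma cher {p : ℝ} (h0 : 0 ≤ p) (h1 : p ≤ 1) (w : V → ℝ) (l J t : ℝ) (hw0 : ∀ x, 0 ≤ w x)
    (hw : ∀ x, w x ≤ J) (hl : |l| * J ≤ 1) (E : Finset V → Prop)
    (hE : ∀ A, E A → t ≤ l * ∑ x ∈ A, w x) :
    Pr p E ≤ Real.exp (-t + p * ((l + l ^ 2 * J) * ∑ x, w x)) := by
  classical
  have a1 : Pr p E ≤ ∑ A : Finset V, Real.exp (-t) * (wt p A * ∏ x ∈ A, Real.exp (l * w x)) := by
    rw [Pr, Finset.sum_filter]
    refine Finset.sum_le_sum fun A _ => ?_
    have := wt_nonneg h0 h1 A
    split_ifs with h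
    · rw [← Real.exp_sum, ← Finset.mul_sum, mul_left_comm, ← Real.exp_add]
      exact le_mul_of_one_le_right this (Real.one_le_exp (by linarith [hE A h]))
    · positivity
  rw [← Finset.mul_sum, mgf] at a1
  rw [Real.exp_add, Finset.mul_sum, Finset.mul_sum, Real.exp_sum]
  refine a1.trans (mul_le_mul_of_nonneg_left (Finset.prod_le_prod (fun x _ => ?_) fun x _ => ?_)
    (Real.exp_pos _).le)
  · have := Real.exp_pos (l * w x)
    have := mul_nonneg h0 this.le
    linarith
  · have b1 : |l * w x| ≤ 1 := by
      rw [abs_mul, abs_of_nonneg (hw0 x)]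
      exact (mul_le_mul_of_nonneg_left (hw x) (abs_nonneg l)).trans hl
    have b2 := (abs_le.1 (Real.abs_exp_sub_one_sub_id_le b1)).2
    have b3 : (l * w x) ^ 2 ≤ l ^ 2 * J * w x := by
      have := mul_le_mul_of_nonneg_left (mul_le_mul_of_nonneg_right (hw x) (hw0 x)) (sq_nonneg l)
      calc _ = l ^ 2 * (w x * w x) := by ring
        _ ≤ _ := by linarith
    have b4 := Real.add_one_le_exp (p * ((l + l ^ 2 * J) * w x))
    have b5 := mul_le_mul_of_nonneg_left
      (by linarith : Real.exp (l * w x) - 1 ≤ (l + l ^ 2 * J) * w x) h0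
    linarith

end prob

section cube
variable {n : ℕ}

abbrev V (n : ℕ) := Fin n → Bool

def flip (x : V n) (i : Fin n) : V n := Function.update x i (!x i)

lemma eq_flip {x y : V n} (h : hammingDist y x = 1) : ∃ i, y = flip x i := by
  obtain ⟨i, hi⟩ := Finset.card_eq_one.1 h
  refine ⟨i, funext fun j => ?_⟩
  have h1 : y j ≠ x j ↔ j = i := by
    have := Finset.ext_iff.1 hi j
    simpa using this
  by_cases hj : j = i
  · subst hj
    have := h1.2 rfl
    simp only [flip, Function.update_self]
    revert this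
    cases y j <;> cases x j <;> simp
  · rw [flip, Function.update_of_ne hj]
    by_contra h2
    exact hj (h1.1 h2)

lemma dist_flip {x v : V n} {i : Fin n} (h : x i = v i) :
    hammingDist (flip x i) v = hammingDist x v + 1 := by
  rw [hammingDist, hammingDist, ← Finset.card_insert_of_notMem (a := i) (by simp [h])]
  congr 1
  ext j
  by_cases hj : j = i
  · subst hj; simp [flip, h]
  · rw [mem_filter, mem_insert, mem_filter, flip, Function.update_of_ne hj]
    simp [hj]

lemma card_nb (x : V n) : (univ.filter fun y : V n => hammingDist y x = 1).card = n := by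
  have : (univ.filter fun y : V n => hammingDist y x = 1) = univ.image (flip x) := by
    ext y
    simp only [mem_filter, mem_univ, true_and, mem_image]
    exact ⟨fun h => (eq_flip h).imp fun i hi => hi.symm, by
      rintro ⟨i, rfl⟩; rw [dist_flip rfl, hammingDist_self]⟩
  rw [this, Finset.card_image_of_injective, card_univ, Fintype.card_fin]
  intro i j hij
  by_contra h
  have := congrFun hij i
  rw [flip, flip, Function.update_self, Function.update_of_ne h] at this
  simp at this

lemma card_in (x v : V n) (S : Finset (V n))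
    (h : ∀ y ∈ S, hammingDist y x = 1 ∧ hammingDist y v ≤ hammingDist x v) :
    S.card ≤ hammingDist x v := by
  have : S ⊆ (univ.filter fun i => x i ≠ v i).image (flip x) := by
    intro y hy
    obtain ⟨i, rfl⟩ := eq_flip (h y hy).1
    refine mem_image.2 ⟨i, mem_filter.2 ⟨mem_univ _, fun h2 => ?_⟩, rfl⟩
    have := (h _ hy).2
    rw [dist_flip h2] at this
    omega
  exact (Finset.card_le_card this).trans Finset.card_image_le

lemma card_sph (v : V n) (j : ℕ) :
    (univ.filter fun y : V n => hammingDist y v = j).card ≤ n ^ j := by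
  refine le_trans ?_ (Nat.choose_le_pow n j)
  have := Finset.card_powersetCard j (univ : Finset (Fin n))
  rw [card_univ, Fintype.card_fin] at this
  rw [← this]
  refine Finset.card_le_card_of_injOn (fun y => univ.filter fun i => y i ≠ v i) (fun y hy => ?_)
    fun y _ z _ hyz => funext fun i => ?_
  · simp only [coe_filter, mem_univ, true_and, Set.mem_ofPred_eq] at hy
    exact mem_coe.2 (mem_powersetCard.2 ⟨subset_univ _, hy⟩)
  · have := Finset.ext_iff.1 hyz i
    simp only [mem_filter, mem_univ, true_and] at this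
    revert this
    cases y i <;> cases z i <;> cases v i <;> simp

/-- number of neighbours inside `A` -/
def dg (A : Finset (V n)) (u : V n) : ℕ := (A.filter fun x => hammingDist x u = 1).card

/-- number of outward neighbours inside `A` -/
def og (v : V n) (A : Finset (V n)) (u : V n) : ℕ :=
  (A.filter fun x => hammingDist x u = 1 ∧ hammingDist u v < hammingDist x v).card

lemma og_le (v : V n) (A : Finset (V n)) (u : V n) : og v A u ≤ dg A u :=
  Finset.card_le_card fun x hx => by
    simp only [mem_filter] at hx ⊢; exact ⟨hx.1, hx.2.1⟩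

lemma dg_le (v : V n) (A : Finset (V n)) (u : V n) : dg A u ≤ og v A u + hammingDist u v := by
  have h := card_in u v (A.filter fun x => hammingDist x u = 1 ∧ hammingDist x v ≤ hammingDist u v)
    fun y hy => (mem_filter.1 hy).2
  refine le_trans ?_ (Nat.add_le_add_left h _)
  refine le_trans (Finset.card_le_card fun x hx => ?_) (Finset.card_union_le _ _)
  simp only [mem_filter, mem_union] at hx ⊢
  rcases le_or_gt (hammingDist x v) (hammingDist u v) with h | h
  · exact Or.inr ⟨hx.1, hx.2, h⟩
  · exact Or.inl ⟨hx.1, hx.2, h⟩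

/-- the weight of `x` with respect to `T` -/
def ww (v : V n) (T : Finset (V n)) (x : V n) : ℕ :=
  (T.filter fun u => hammingDist x u = 1 ∧ hammingDist u v < hammingDist x v).card

lemma ww_le {v : V n} {T : Finset (V n)} {j : ℕ} (hT : ∀ u ∈ T, hammingDist u v = j) (x : V n) :
    ww v T x ≤ j + 1 := by
  rcases (T.filter fun u => hammingDist x u = 1 ∧
    hammingDist u v < hammingDist x v).eq_empty_or_nonempty with h | ⟨u, hu⟩
  · rw [ww, h]; simp
  · rw [mem_filter] at hu
    have h1 := hammingDist_triangle x u v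
    rw [hu.2.1, hT u hu.1] at h1
    refine le_trans (card_in x v _ fun y hy => ?_) (by omega)
    rw [mem_filter] at hy
    exact ⟨by rw [hammingDist_comm]; exact hy.2.1, hy.2.2.le⟩

lemma sum_ww (v : V n) (T A : Finset (V n)) : ∑ x ∈ A, ww v T x = ∑ u ∈ T, og v A u := by
  simp only [ww, og, Finset.card_filter]
  exact Finset.sum_comm

lemma dg_univ (u : V n) : dg univ u = n := card_nb u

lemma dg_mono {A B : Finset (V n)} (h : A ⊆ B) (u : V n) : dg A u ≤ dg B u :=
  Finset.card_le_card (Finset.filter_subset_filter _ h)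

end cube

end Pool.Agent.H61.Boot
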