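import Pool.Agent.H61.Boot

/- Bootstrap percolation on the hypercube with a polynomially growing threshold. -/

set_option autoImplicit false
open Finset Filter Topology

namespace Pool.Agent.H61.Boot
variable {n : ℕ}

/-- percolation: every closed superset is everything -/
def Perc (R : ℝ) (A : Finset (V n)) : Prop :=
  ∀ S : Finset (V n), A ⊆ S → (∀ v, R ≤ (dg S v : ℝ) → v ∈ S) → S = univ

lemma sum_ww' (v : V n) (T A : Finset (V n)) :
    ∑ x ∈ A, (ww v T x : ℝ) = ∑ u ∈ T, (og v A u : ℝ) := by exact_mod_cast sum_ww v T A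

lemma up_one {p R ε : ℝ} (h0 : 0 ≤ p) (h1 : p ≤ 1) (hε : 0 < ε) (hε1 : ε ≤ 1) (hR : 0 ≤ R)
    (hp : p * n ≤ (1 - ε) * R) {k j : ℕ} (hj : j ≤ k) (hk : (k : ℝ) ≤ ε * R / 4) (v : V n)
    (T : Finset (V n)) (hT : ∀ u ∈ T, hammingDist u v = j) :
    Pr p (fun A => ∀ u ∈ T, R - ε * R / 4 ≤ (dg A u : ℝ)) ≤
      Real.exp (-(ε ^ 2 / (16 * (k + 1)) * R)) ^ T.card := by
  obtain ⟨l, hl⟩ : ∃ l : ℝ, l = ε / (4 * (k + 1)) := ⟨_, rfl⟩
  have hk0 : (0 : ℝ) < k + 1 := by positivity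
  have l0 : 0 < l := by rw [hl]; positivity
  have l1 : l * (k + 1) = ε / 4 := by rw [hl]; field_simp
  have hj' : (j : ℝ) ≤ k := by exact_mod_cast hj
  have := cher h0 h1 (fun x => (ww v T x : ℝ)) l (k + 1) (l * (T.card * (R - ε * R / 2)))
    (fun x => Nat.cast_nonneg _) (fun x => by
      have : (ww v T x : ℝ) ≤ j + 1 := by exact_mod_cast ww_le hT x
      linarith) (by rw [abs_of_pos l0]; linarith)
    (fun A => ∀ u ∈ T, R - ε * R / 4 ≤ (dg A u : ℝ)) fun A hA => by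
      refine mul_le_mul_of_nonneg_left ?_ l0.le
      rw [sum_ww', ← nsmul_eq_mul]
      refine Finset.card_nsmul_le_sum _ _ _ fun u hu => ?_
      have a1 : (dg A u : ℝ) ≤ og v A u + j := by rw [← hT u hu]; exact_mod_cast dg_le v A u
      linarith [hA u hu]
  refine this.trans ?_
  rw [← Real.exp_nat_mul, Real.exp_le_exp, sum_ww']
  have a2 : ∑ u ∈ T, (og v univ u : ℝ) ≤ T.card * n := by
    rw [← nsmul_eq_mul]
    refine Finset.sum_le_card_nsmul _ _ _ fun u _ => ?_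
    exact_mod_cast (og_le v univ u).trans (dg_univ u).le
  have a3 : l + l ^ 2 * (k + 1) = l * (1 + ε / 4) := by rw [← l1]; ring
  have a4 : ε ^ 2 / (16 * (k + 1)) = l * ε / 4 := by rw [hl]; field_simp; norm_num
  rw [a3, a4]
  have s0 : (0 : ℝ) ≤ T.card := Nat.cast_nonneg _
  have a5 : p * (l * (1 + ε / 4) * ∑ u ∈ T, (og v univ u : ℝ)) ≤
      l * (1 + ε / 4) * (T.card * ((1 - ε) * R)) := by
    calc _ ≤ p * (l * (1 + ε / 4) * (T.card * n)) := by gcongr
      _ = l * (1 + ε / 4) * (T.card * (p * n)) := by ring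
      _ ≤ _ := by gcongr
  have a6 : 0 ≤ l * T.card * R * ε ^ 2 := by positivity
  nlinarith

lemma up_all {p R ε : ℝ} (h0 : 0 ≤ p) (h1 : p ≤ 1) (hε : 0 < ε) (hε1 : ε ≤ 1) (hR : 0 ≤ R)
    (hp : p * n ≤ (1 - ε) * R) {k j : ℕ} (hn : 1 ≤ n) (hj : j ≤ k) (hk : (k : ℝ) ≤ ε * R / 4)
    (v : V n) (s : ℕ) :
    Pr p (fun A => ∃ T ∈ powersetCard s (univ.filter fun y : V n => hammingDist y v = j),
      ∀ u ∈ T, R - ε * R / 4 ≤ (dg A u : ℝ)) ≤
      ((n : ℝ) ^ k * Real.exp (-(ε ^ 2 / (16 * (k + 1)) * R))) ^ s := by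
  refine (Pr_union h0 h1 _ _).trans ?_
  refine (Finset.sum_le_card_nsmul _ _ (Real.exp (-(ε ^ 2 / (16 * (k + 1)) * R)) ^ s)
    fun T hT => ?_).trans ?_
  · rw [mem_powersetCard] at hT
    rw [← hT.2]
    exact up_one h0 h1 hε hε1 hR hp hj hk v T fun u hu => (mem_filter.1 (hT.1 hu)).2
  · rw [nsmul_eq_mul, mul_pow, card_powersetCard]
    refine mul_le_mul_of_nonneg_right ?_ (by positivity)
    have := (Nat.choose_le_pow _ s).trans (Nat.pow_le_pow_left
      ((card_sph v j).trans (Nat.pow_le_pow_right hn hj)) s)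
    exact_mod_cast this

open Classical in
/-- the accelerated process -/
noncomputable def BB (θ t : ℝ) (A : Finset (V n)) : ℕ → Finset (V n)
  | 0 => A
  | i + 1 => BB θ t A i ∪ univ.filter fun v => θ + i * t ≤ (dg (BB θ t A i) v : ℝ)

lemma BB_succ (θ t : ℝ) (A : Finset (V n)) (i : ℕ) (v : V n) :
    v ∈ BB θ t A (i + 1) ↔ v ∈ BB θ t A i ∨ θ + i * t ≤ (dg (BB θ t A i) v : ℝ) := by
  simp [BB]

lemma BB_sub (θ t : ℝ) (A : Finset (V n)) (i : ℕ) : A ⊆ BB θ t A i := by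
  induction i with
  | zero => exact Subset.rfl
  | succ i ih => exact fun v hv => (BB_succ θ t A i v).2 (Or.inl (ih hv))

open Classical in
lemma witness {θ t σ : ℝ} {k : ℕ} (hσ : 0 ≤ σ) (h : σ * (k + 1) ≤ t - k) (A : Finset (V n))
    (v : V n) (j : ℕ) : j ≤ k → ∀ m, v ∈ BB θ t A (m + j + 1) → v ∉ BB θ t A (m + j) →
      σ ^ j ≤ ((univ.filter fun u => hammingDist u v = j ∧ u ∈ BB θ t A (m + 1) ∧
        u ∉ BB θ t A m).card : ℝ) := by
  induction j with
  | zero =>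
    intro _ m h1 h2
    rw [pow_zero, Nat.one_le_cast]
    exact Finset.card_pos.2 ⟨v, mem_filter.2 ⟨mem_univ _, hammingDist_self v, h1, h2⟩⟩
  | succ j ih =>
    intro hj m h1 h2
    have a1 := ih (by omega) (m + 1) (by rwa [add_assoc m, add_comm 1 j])
      (by rwa [add_assoc m, add_comm 1 j])
    set T := univ.filter fun u => hammingDist u v = j ∧ u ∈ BB θ t A (m + 1 + 1) ∧
      u ∉ BB θ t A (m + 1) with hT
    set T' := univ.filter fun u => hammingDist u v = j + 1 ∧ u ∈ BB θ t A (m + 1) ∧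
      u ∉ BB θ t A m with hT'
    have hj' : (j : ℝ) + 1 ≤ k := by exact_mod_cast hj
    have a2 : ∀ u ∈ T, t - k ≤ (og v T' u : ℝ) := by
      intro u hu
      obtain ⟨-, b1, b2, b3⟩ := mem_filter.1 hu
      have b4 := ((BB_succ θ t A _ u).1 b2).resolve_left b3
      have b5 := not_le.1 fun h => b3 ((BB_succ θ t A m u).2 (Or.inr h))
      set D := BB θ t A (m + 1) \ BB θ t A m with hD
      have b6 : dg (BB θ t A (m + 1)) u ≤ dg D u + dg (BB θ t A m) u := by
        refine le_trans (Finset.card_le_card fun x hx => ?_) (Finset.card_union_le _ _)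
        simp only [mem_filter, mem_union, hD, Finset.mem_sdiff] at hx ⊢
        tauto
      have b7 := dg_le v D u
      have b8 : og v D u ≤ og v T' u := Finset.card_le_card fun x hx => by
        simp only [mem_filter, hD, hT', Finset.mem_sdiff, mem_univ, true_and] at hx ⊢
        have := hammingDist_triangle x u v
        exact ⟨⟨by omega, hx.1⟩, hx.2⟩
      have b9 : (dg (BB θ t A (m + 1)) u : ℝ) ≤ og v T' u + j + dg (BB θ t A m) u := by
        exact_mod_cast (by omega : dg (BB θ t A (m + 1)) u ≤ og v T' u + j + dg (BB θ t A m) u)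
      push_cast at b4
      linarith
    have a3 := Finset.card_nsmul_le_sum _ _ _ a2
    rw [← sum_ww'] at a3
    have a4 := Finset.sum_le_card_nsmul T' (fun x => (ww v T x : ℝ)) (k + 1) fun x _ => by
      have : ww v T x ≤ j + 1 := ww_le (fun u hu => (mem_filter.1 hu).2.1) x
      have : (ww v T x : ℝ) ≤ j + 1 := by exact_mod_cast this
      linarith
    rw [nsmul_eq_mul] at a3 a4
    have k0 : (0 : ℝ) < k + 1 := by positivity
    refine le_of_mul_le_mul_right ?_ k0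
    calc σ ^ (j + 1) * (k + 1) = σ ^ j * (σ * (k + 1)) := by ring
      _ ≤ T.card * (t - k) := by gcongr
      _ ≤ _ := a3.trans a4

lemma wit2 {θ t σ : ℝ} {k : ℕ} (hσ : 0 ≤ σ) (h : σ * (k + 1) ≤ t - k) (A : Finset (V n))
    (v : V n) {j s : ℕ} (hj : j ≤ k) (hs : (s : ℝ) ≤ σ ^ j) (h1 : v ∈ BB θ t A (j + 1))
    (h2 : v ∉ BB θ t A j) :
    ∃ T ∈ powersetCard s (univ.filter fun y : V n => hammingDist y v = j),
      ∀ u ∈ T, θ ≤ (dg A u : ℝ) := by
  classical
  have := hs.trans (witness hσ h A v j hj 0 (by rwa [zero_add]) (by rwa [zero_add]))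
  obtain ⟨T, t1, t2⟩ := Finset.exists_subset_card_eq (Nat.cast_le.1 this)
  refine ⟨T, mem_powersetCard.2 ⟨fun u hu => ?_, t2⟩, fun u hu => ?_⟩
  · exact mem_filter.2 ⟨mem_univ _, (mem_filter.1 (t1 hu)).2.1⟩
  · obtain ⟨-, -, b2, b3⟩ := mem_filter.1 (t1 hu)
    simpa [BB] using ((BB_succ θ t A 0 u).1 b2).resolve_left b3

lemma lower {p R ε σ : ℝ} (h0 : 0 ≤ p) (h1 : p ≤ 1 / 8) (hε : 0 < ε) (hε1 : ε ≤ 1) (hR : 0 ≤ R)
    (hp : p * n ≤ (1 - ε) * R) {k : ℕ} (hk0 : 1 ≤ k) (hn : 1 ≤ n) (hk : (k : ℝ) ≤ ε * R / 4)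
    (hσ : 1 ≤ σ) (h : σ * (k + 1) ≤ ε * R / (4 * k) - k) (hs : (n : ℝ) ≤ σ ^ k)
    (hq : (n : ℝ) ^ k * Real.exp (-(ε ^ 2 / (16 * (k + 1)) * R)) ≤ 1 / (16 * k)) :
    Pr p (Perc (n := n) R) < 1 / 2 := by
  classical
  have h1' : p ≤ 1 := by linarith
  have k1 : (1 : ℝ) ≤ k := by exact_mod_cast hk0
  obtain ⟨q, hq'⟩ : ∃ q, q = (n : ℝ) ^ k * Real.exp (-(ε ^ 2 / (16 * (k + 1)) * R)) := ⟨_, rfl⟩
  have q0 : 0 ≤ q := by rw [hq']; positivity
  rw [← hq'] at hq
  have q1 : k * q ≤ 1 / 16 := by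
    rw [le_div_iff₀ (by positivity)] at hq; linarith
  have q2 : q ≤ 1 / 16 := by nlinarith
  set v0 : V n := fun _ => false
  set E : V n → ℕ → ℕ → Finset (V n) → Prop := fun v j s A =>
    ∃ T ∈ powersetCard s (univ.filter fun y : V n => hammingDist y v = j),
      ∀ u ∈ T, R - ε * R / 4 ≤ (dg A u : ℝ) with hE
  have b1 : ∀ v j s, j ≤ k → Pr p (E v j s) ≤ q ^ s := fun v j s hj => by
    rw [hq']; exact up_all h0 h1' hε hε1 hR hp hn hj hk v s
  have b2 : ∀ A : Finset (V n), Perc R A →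
      (v0 ∈ A ∨ ∃ j ∈ range k, E v0 j 1 A) ∨ ∃ v ∈ univ, E v k n A := by
    intro A hA
    by_contra hc
    push Not at hc
    obtain ⟨⟨c1, c2⟩, c3⟩ := hc
    have d1 : ∀ j, j ≤ k → v0 ∉ BB (R - ε * R / 4) (ε * R / (4 * k)) A j := by
      intro j
      induction j with
      | zero => exact fun _ => c1
      | succ j ih =>
        intro hj hv
        exact c2 j (mem_range.2 (by omega)) (wit2 (by linarith) h A v0 (by omega)
          (by simpa using one_le_pow₀ hσ) hv (ih (by omega)))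
    refine d1 k le_rfl ?_
    rw [hA _ (BB_sub _ _ A k) fun v hv => ?_]
    · exact mem_univ _
    by_contra hv2
    refine c3 v (mem_univ _) (wit2 (by linarith) h A v le_rfl hs
      ((BB_succ _ _ A k v).2 (Or.inr ?_)) hv2)
    refine le_trans (le_of_eq ?_) hv
    field_simp; ring
  have b3 := (Pr_union h0 h1' (range k) fun j A => E v0 j 1 A).trans
    (Finset.sum_le_card_nsmul _ _ q fun j hj => by
      simpa using b1 v0 j 1 (mem_range.1 hj).le)
  have b4 := (Pr_union h0 h1' univ fun v A => E v k n A).trans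
    (Finset.sum_le_card_nsmul _ _ (q ^ n) fun v _ => b1 v k n le_rfl)
  rw [nsmul_eq_mul, card_range] at b3
  rw [nsmul_eq_mul, card_univ, Fintype.card_fun, Fintype.card_bool, Fintype.card_fin] at b4
  push_cast at b4
  rw [← mul_pow] at b4
  have b5 : (2 * q) ^ n ≤ 2 * q := pow_le_of_le_one (by linarith) (by linarith) (by omega)
  have b6 := (Pr_mono h0 h1' b2).trans (Pr_or h0 h1' _ _)
  have b7 := Pr_or h0 h1' (fun A : Finset (V n) => v0 ∈ A) fun A => ∃ j ∈ range k, E v0 j 1 A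
  have b8 := Pr_mem p v0
  linarith

lemma upper {p R ε : ℝ} (h0 : 0 ≤ p) (h1 : p ≤ 1) (hε : 0 < ε) (hε1 : ε ≤ 1) (hR : 0 ≤ R)
    (hp : (1 + ε / 2) * R ≤ p * (n - 1)) (hn : 1 ≤ n) (hR2 : R ≤ n / 2)
    (hq : Real.exp (-(ε ^ 2 / 128 * R)) ≤ 1 / 8) : 1 / 2 ≤ Pr p (Perc (n := n) R) := by
  classical
  have n1 : (1 : ℝ) ≤ n := by exact_mod_cast hn
  set q := Real.exp (-(ε ^ 2 / 128 * R)) with hq'
  have q0 : 0 ≤ q := (Real.exp_pos _).le
  set E : V n × Finset (Fin n) → Finset (V n) → Prop := fun z A =>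
    (n : ℝ) / 2 ≤ ((z.2.image (flip z.1)).card : ℝ) ∧ ∀ u ∈ z.2.image (flip z.1), (dg A u : ℝ) < R
    with hE
  have b1 : ∀ z, Pr p (E z) ≤ q ^ n := by
    rintro ⟨v, I⟩
    set T := I.image (flip v) with hT
    have t1 : ∀ u ∈ T, hammingDist u v = 1 := fun u hu => by
      obtain ⟨i, -, rfl⟩ := mem_image.1 hu
      rw [dist_flip rfl, hammingDist_self]
    by_cases hc : (n : ℝ) / 2 ≤ (T.card : ℝ)
    swap
    · have : Pr p (E (v, I)) = 0 := Finset.sum_eq_zero fun A hA => by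
        exact absurd (@mem_filter _ _ (_) _ _ |>.1 hA).2.1 hc
      rw [this]; positivity
    have := cher h0 h1 (fun x => (ww v T x : ℝ)) (-(ε / 8)) 2 (-(ε / 8) * (T.card * R))
      (fun x => Nat.cast_nonneg _) (fun x => by exact_mod_cast ww_le t1 x)
      (by rw [abs_neg, abs_of_pos (by positivity)]; linarith) (E (v, I)) fun A hA => by
        refine mul_le_mul_of_nonpos_left ?_ (by linarith)
        rw [sum_ww', ← nsmul_eq_mul]
        refine Finset.sum_le_card_nsmul _ _ _ fun u hu => ?_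
        have a1 : (og v A u : ℝ) ≤ dg A u := by exact_mod_cast og_le v A u
        linarith [hA.2 u hu]
    refine this.trans ?_
    rw [hq', ← Real.exp_nat_mul, Real.exp_le_exp, sum_ww']
    have a2 : T.card * ((n : ℝ) - 1) ≤ ∑ u ∈ T, (og v univ u : ℝ) := by
      rw [← nsmul_eq_mul]
      refine Finset.card_nsmul_le_sum _ _ _ fun u hu => ?_
      have := dg_le v univ u
      rw [dg_univ, t1 u hu] at this
      have : (n : ℝ) ≤ og v univ u + 1 := by exact_mod_cast this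
      linarith
    have a3 : -(ε / 8) + (-(ε / 8)) ^ 2 * 2 = -(ε / 8 * (1 - ε / 4)) := by ring
    rw [a3]
    have s0 : (0 : ℝ) ≤ T.card := Nat.cast_nonneg _
    have e4 : 0 ≤ 1 - ε / 4 := by linarith
    have a5 : ε / 8 * (1 - ε / 4) * (T.card * ((1 + ε / 2) * R)) ≤
        p * (ε / 8 * (1 - ε / 4) * ∑ u ∈ T, (og v univ u : ℝ)) := by
      calc _ ≤ ε / 8 * (1 - ε / 4) * (T.card * (p * (n - 1))) := by gcongr
        _ = p * (ε / 8 * (1 - ε / 4) * (T.card * (n - 1))) := by ring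
        _ ≤ _ := by gcongr
    have a6 : 0 ≤ ε ^ 2 * (T.card * R) * (1 - ε) := by
      have : 0 ≤ 1 - ε := by linarith
      positivity
    have a7 := mul_le_mul_of_nonneg_left hc (by positivity : 0 ≤ ε ^ 2 * R)
    nlinarith
  have b2 : ∀ A : Finset (V n), ¬ Perc R A → ∃ z ∈ univ, E z A := by
    intro A hA
    by_contra hc
    refine hA fun S hS hcl => Finset.eq_univ_iff_forall.2 fun v => hcl v ?_
    set I := univ.filter fun i => (dg A (flip v i) : ℝ) < R with hI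
    have c1 : ((I.image (flip v)).card : ℝ) < n / 2 := by
      by_contra h
      refine hc ⟨(v, I), mem_univ _, not_lt.1 h, fun u hu => ?_⟩
      obtain ⟨i, hi, rfl⟩ := mem_image.1 hu
      exact (mem_filter.1 hi).2
    have c2 : n ≤ dg S v + (I.image (flip v)).card := by
      refine le_trans (dg_univ v).ge
        (le_trans (Finset.card_le_card fun x hx => ?_) (Finset.card_union_le _ _))
      have hx1 := (mem_filter.1 hx).2
      obtain ⟨i, rfl⟩ := eq_flip hx1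
      by_cases hi : i ∈ I
      · exact mem_union_right _ (mem_image_of_mem _ hi)
      · refine mem_union_left _ (mem_filter.2 ⟨hcl _ ?_, hx1⟩)
        have d1 : R ≤ dg A (flip v i) := not_lt.1 fun h => hi (mem_filter.2 ⟨mem_univ _, h⟩)
        exact d1.trans (by exact_mod_cast dg_mono hS _)
    have c3 : (n : ℝ) ≤ dg S v + (I.image (flip v)).card := by exact_mod_cast c2
    linarith
  have b4 := (Pr_mono h0 h1 b2).trans ((Pr_union h0 h1 univ E).trans
    (Finset.sum_le_card_nsmul _ _ (q ^ n) fun z _ => b1 z))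
  rw [nsmul_eq_mul, card_univ, Fintype.card_prod, Fintype.card_fun, Fintype.card_finset,
    Fintype.card_bool, Fintype.card_fin] at b4
  push_cast at b4
  rw [← mul_pow, ← mul_pow] at b4
  have b5 : (2 * 2 * q) ^ n ≤ 2 * 2 * q := pow_le_of_le_one (by linarith) (by linarith) (by omega)
  have b6 := Pr_compl p (Perc (n := n) R)
  linarith

lemma main {a : ℝ} (a0 : 0 < a) (a1 : a < 1) :
    Tendsto (fun n : ℕ => sInf {p : ℝ | 0 ≤ p ∧ p ≤ 1 ∧
      (1 / 2 : ℝ) ≤ Pr p (Perc (n := n) ((n : ℝ) ^ a))} / (n : ℝ) ^ (a - 1)) atTop (𝓝 1) := by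
  rw [Metric.tendsto_nhds]
  intro e he
  obtain ⟨ε, hε, hε1, hεe⟩ : ∃ ε : ℝ, 0 < ε ∧ ε ≤ 1 ∧ ε < e :=
    ⟨min 1 (e / 2), by positivity, min_le_left _ _, (min_le_right _ _).trans_lt (by linarith)⟩
  obtain ⟨k, hk⟩ := exists_nat_ge (2 / a)
  have k1 : (1 : ℝ) ≤ k := le_trans (by rw [le_div_iff₀ a0]; linarith) hk
  have hk0 : 1 ≤ k := by exact_mod_cast k1
  have ak : 2 ≤ a * k := by rw [div_le_iff₀ a0] at hk; linarith
  have T0 : Tendsto (fun n : ℕ => (n : ℝ)) atTop atTop := tendsto_natCast_atTop_atTop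
  have T1 : Tendsto (fun n : ℕ => (n : ℝ) ^ a) atTop atTop := (tendsto_rpow_atTop a0).comp T0
  have T2 : Tendsto (fun n : ℕ => (n : ℝ) ^ (a - 1)) atTop (𝓝 0) := by
    have := (tendsto_rpow_neg_atTop (by linarith : 0 < 1 - a)).comp T0
    simpa [Function.comp_def] using this
  have T3 := (tendsto_rpow_mul_exp_neg_mul_atTop_nhds_zero (k / a) (ε ^ 2 / (16 * (k + 1)))
    (by positivity)).comp T1
  have T4 := (tendsto_rpow_mul_exp_neg_mul_atTop_nhds_zero 0 (ε ^ 2 / 128)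
    (by positivity)).comp T1
  obtain ⟨c, hc⟩ : ∃ c : ℝ, c = ε / (8 * k * (k + 1)) := ⟨_, rfl⟩
  have c0 : 0 < c := by rw [hc]; positivity
  filter_upwards [eventually_ge_atTop 1, T0.eventually_ge_atTop (4 / ε),
    T0.eventually_ge_atTop (1 / c ^ k), T1.eventually_ge_atTop (1 / c),
    T1.eventually_ge_atTop (8 * k ^ 2 / ε),
    T2.eventually (ge_mem_nhds (by norm_num : (0 : ℝ) < 1 / 8)),
    T3.eventually (ge_mem_nhds (by positivity : (0 : ℝ) < 1 / (16 * k))),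
    T4.eventually (ge_mem_nhds (by norm_num : (0 : ℝ) < 1 / 8))] with n h1 h2 h3 h4 h5 h6 h7 h8
  have n1 : (1 : ℝ) ≤ n := by exact_mod_cast h1
  have n0 : (0 : ℝ) < n := by linarith
  have e1 : (n : ℝ) ^ (a - 1) * n = (n : ℝ) ^ a := by rw [Real.rpow_sub_one n0.ne']; field_simp
  have e2 : ((n : ℝ) ^ a) ^ (k / a : ℝ) = (n : ℝ) ^ k := by
    rw [← Real.rpow_mul n0.le, mul_div_cancel₀ _ a0.ne', Real.rpow_natCast]
  have e3 : (n : ℝ) ^ 2 ≤ ((n : ℝ) ^ a) ^ k := by
    rw [← Real.rpow_natCast, ← Real.rpow_natCast, ← Real.rpow_mul n0.le]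
    exact Real.rpow_le_rpow_of_exponent_le n1 (by simpa using ak)
  simp only [Function.comp_apply, e2, Real.rpow_zero, one_mul, neg_mul] at h7 h8
  have y0 : 0 < (n : ℝ) ^ (a - 1) := by positivity
  have R0 : 0 < (n : ℝ) ^ a := by positivity
  generalize (n : ℝ) ^ (a - 1) = y at *
  generalize (n : ℝ) ^ a = R at *
  rw [div_le_iff₀ hε] at h2 h5
  rw [div_le_iff₀ c0] at h4
  rw [div_le_iff₀ (by positivity)] at h3
  have u1 : 1 / 2 ≤ Pr ((1 + ε) * y) (Perc (n := n) R) :=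
    upper (by positivity) (by nlinarith) hε hε1 R0.le (by
      have : 0 ≤ y * (n * ε - 4) := mul_nonneg y0.le (by linarith)
      have : 0 ≤ y * (1 - ε) := mul_nonneg y0.le (by linarith)
      rw [← e1]; nlinarith) h1 (by rw [← e1]; nlinarith) h8
  have m1 : (1 + ε) * y ∈ {p : ℝ | 0 ≤ p ∧ p ≤ 1 ∧ (1 / 2 : ℝ) ≤ Pr p (Perc (n := n) R)} :=
    ⟨by positivity, by nlinarith, u1⟩
  have u2 := csInf_le ⟨0, fun p hp => hp.1⟩ m1
  have u3 : (1 - ε) * y ≤ sInf {p : ℝ | 0 ≤ p ∧ p ≤ 1 ∧ (1 / 2 : ℝ) ≤ Pr p (Perc (n := n) R)} := by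
    refine le_csInf ⟨_, m1⟩ fun p hp => ?_
    by_contra hlt
    rw [not_le] at hlt
    refine absurd hp.2.2 (not_le.2 (lower (σ := c * R) hp.1 (by nlinarith) hε hε1 R0.le
      (by rw [← e1]; nlinarith) hk0 h1 (by nlinarith) (by linarith) ?_ ?_ h7))
    · have f1 : c * R * (k + 1) = ε * R / (8 * k) := by rw [hc]; field_simp
      have f2 : ε * R / (4 * k) = 2 * (ε * R / (8 * k)) := by field_simp; norm_num
      have f3 : (k : ℝ) ≤ ε * R / (8 * k) := by rw [le_div_iff₀ (by positivity)]; nlinarith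
      linarith
    · rw [mul_pow]
      have := mul_le_mul_of_nonneg_left e3 (by positivity : 0 ≤ c ^ k)
      nlinarith
  rw [Real.dist_eq, abs_lt, lt_sub_iff_add_lt, sub_lt_iff_lt_add, lt_div_iff₀ y0, div_lt_iff₀ y0]
  constructor <;> nlinarith

end Pool.Agent.H61.Boot
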