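import Mathlib

set_option autoImplicit false

namespace Pool.Agent.H61.CS

open Finset
open scoped Classical

section fin

variable {Q : Type*} [Fintype Q]

/-- functions missing every prescribed pattern -/
noncomputable def bad {ι : Type*} (I : Finset ι) (D : ι → Finset Q) (τ : ι → Q → Bool) :
    Finset (Q → Bool) := univ.filter fun β => ∀ j ∈ I, ¬ ∀ y ∈ D j, β y = τ j y

lemma bad_card {ι : Type*} (D : ι → Finset Q) (τ : ι → Q → Bool) (w : ℕ) (I : Finset ι)
    (hw : ∀ j ∈ I, (D j).card ≤ w) (hd : ∀ i ∈ I, ∀ j ∈ I, i ≠ j → Disjoint (D i) (D j)) :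
    ((bad I D τ).card : ℝ) ≤ (1 - (1 / 2) ^ w) ^ I.card * 2 ^ Fintype.card Q := by
  induction I using Finset.induction_on with
  | empty => simp [bad]
  | insert a I ha ih =>
    have ih := ih (fun j hj => hw j (mem_insert_of_mem hj))
      (fun i hi j hj => hd i (mem_insert_of_mem hi) j (mem_insert_of_mem hj))
    let T := (bad I D τ).filter fun β => ∀ y ∈ D a, β y = τ a y
    have h1 : (bad I D τ).card ≤ 2 ^ w * T.card := by
      refine card_le_mul_card_image_of_maps_to (f := fun β => (D a).piecewise (τ a) β)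
        (fun β hβ => ?_) _ (fun γ _ => ?_)
      · simp only [T, bad, mem_filter, mem_univ, true_and] at hβ ⊢
        refine ⟨fun j hj h => hβ j hj fun y hy => ?_, fun y hy => piecewise_eq_of_mem _ _ _ hy⟩
        rw [← h y hy, piecewise_eq_of_notMem]
        exact disjoint_left.1 (hd j (mem_insert_of_mem hj) a (mem_insert_self _ _)
          (fun e => ha (e ▸ hj))) hy
      · refine le_trans (card_le_card_of_injOn (t := (univ : Finset (D a → Bool)))
          (fun β y => β y) (fun _ _ => mem_coe.2 (mem_univ _)) fun β hβ β' hβ' h => ?_) ?_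
        · funext y
          by_cases hy : y ∈ D a
          · exact congrFun h ⟨y, hy⟩
          · have := congrFun ((mem_filter.1 hβ).2.trans (mem_filter.1 hβ').2.symm) y
            simpa [piecewise_eq_of_notMem _ _ _ hy] using this
        · simp only [card_univ, Fintype.card_fun, Fintype.card_bool, Fintype.card_coe]
          exact Nat.pow_le_pow_right (by norm_num) (hw a (mem_insert_self _ _))
    have h2 : T.card + (bad (insert a I) D τ).card = (bad I D τ).card := by
      rw [← card_filter_add_card_filter_not (s := bad I D τ) (fun β => ∀ y ∈ D a, β y = τ a y)]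
      congr 2
      ext β
      simp only [bad, mem_filter, mem_univ, true_and, forall_mem_insert]
      tauto
    have h3 : ((bad I D τ).card : ℝ) ≤ 2 ^ w * T.card := by exact_mod_cast h1
    have h4 : (T.card : ℝ) + (bad (insert a I) D τ).card = (bad I D τ).card := by exact_mod_cast h2
    have h5 : (1 / 2 : ℝ) ^ w * 2 ^ w = 1 := by rw [← mul_pow]; simp
    have h6 : (0 : ℝ) ≤ 1 - (1 / 2) ^ w := sub_nonneg.2 (pow_le_one₀ (by norm_num) (by norm_num))
    have h7 : (0 : ℝ) < (1 / 2) ^ w := by positivity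
    rw [card_insert_of_notMem ha, pow_succ', mul_assoc]
    refine le_trans ?_ (mul_le_mul_of_nonneg_left ih h6)
    have := mul_le_mul_of_nonneg_left h3 h7.le
    rw [← mul_assoc, h5] at this
    linarith

lemma greedy (A : Finset Q) (R : Q → Q → Prop) (hR : ∀ x y, R x y → R y x) (c : ℕ)
    (hc : ∀ x, (univ.filter (R x)).card ≤ c) (M : ℕ) (hM : M * (c + 1) ≤ A.card) :
    ∃ I ⊆ A, I.card = M ∧ ∀ x ∈ I, ∀ y ∈ I, x ≠ y → ¬ R x y := by
  induction M with
  | zero => exact ⟨∅, by simp⟩
  | succ M ih =>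
    obtain ⟨I, h1, h2, h3⟩ := ih (le_trans (by gcongr; omega) hM)
    have h4 : (I ∪ I.biUnion fun x => univ.filter (R x)).card < A.card := by
      refine lt_of_le_of_lt ((card_union_le _ _).trans (add_le_add le_rfl
        (card_biUnion_le_card_mul _ _ c fun x _ => hc x))) ?_
      rw [h2]
      nlinarith
    obtain ⟨a, ha, ha'⟩ := exists_mem_notMem_of_card_lt_card h4
    simp only [mem_union, mem_biUnion, mem_filter, mem_univ, true_and, not_or, not_exists,
      not_and] at ha'
    refine ⟨insert a I, insert_subset ha h1, by rw [card_insert_of_notMem ha'.1, h2],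
      fun x hx y hy hxy => ?_⟩
    rcases mem_insert.1 hx with rfl | hx' <;> rcases mem_insert.1 hy with rfl | hy'
    · exact absurd rfl hxy
    · exact fun h => ha'.2 y hy' (hR _ _ h)
    · exact ha'.2 x hx'
    · exact h3 x hx' y hy' hxy

theorem core_fin [Group Q] (E : Finset Q) (k M c : ℕ)
    (hc : ∀ d : Q, ∀ e ∈ E, (univ.filter fun f => f * d * f⁻¹ = e).card ≤ c)
    (h1 : k * k * E.card * c + M * ((k * (E.card + 1)) ^ 2 + 1) ≤ Fintype.card Q)
    (h2 : (Fintype.card Q : ℝ) ^ k * (1 - (1 / 2) ^ (k * (E.card + 1))) ^ M < 1) :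
    ∃ B : Set Q, (∀ y ∈ B, ∀ e ∈ E, e * y ∉ B) ∧ ∀ s : Fin k → Q, ∃ f, ∀ i, f * s i ∈ B := by
  let D : (Fin k → Q) → Q → Finset Q := fun s f =>
    (univ ×ˢ insert 1 E).image fun p : Fin k × Q => p.2 * (f * s p.1)
  let τ : (Fin k → Q) → Q → Q → Bool := fun s f y => decide (∃ i, y = f * s i)
  have hE : (univ ×ˢ insert 1 E : Finset (Fin k × Q)).card ≤ k * (E.card + 1) := by
    rw [card_product, card_univ, Fintype.card_fin]
    gcongr
    exact card_insert_le _ _
  have key : ∀ s : Fin k → Q, ∃ I : Finset Q, I.card = M ∧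
      (∀ f ∈ I, ∀ i j, ∀ e ∈ E, e * (f * s i) ≠ f * s j) ∧
      ∀ x ∈ I, ∀ y ∈ I, x ≠ y → Disjoint (D s x) (D s y) := fun s => by
    let A := univ.filter fun f => ∀ i j, ∀ e ∈ E, e * (f * s i) ≠ f * s j
    have hA : Fintype.card Q ≤ A.card + k * k * E.card * c := by
      rw [← card_univ, ← card_filter_add_card_filter_not (s := univ)
        (fun f => ∀ i j, ∀ e ∈ E, e * (f * s i) ≠ f * s j)]
      gcongr
      refine le_trans (card_le_card (t := ((univ ×ˢ univ) ×ˢ E).biUnion
        fun p : (Fin k × Fin k) × Q => univ.filter fun f => f * (s p.1.2 * (s p.1.1)⁻¹) * f⁻¹ = p.2)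
        fun f hf => ?_) ((card_biUnion_le_card_mul _ _ c fun p hp =>
          hc _ _ (mem_product.1 hp).2).trans (by simp))
      simp only [mem_filter, mem_univ, true_and, not_forall, not_not] at hf
      obtain ⟨i, j, e, he, h⟩ := hf
      refine mem_biUnion.2 ⟨((i, j), e), by simp [he], mem_filter.2 ⟨mem_univ _, ?_⟩⟩
      simp only [← mul_assoc] at h ⊢
      rw [← h]
      group
    obtain ⟨I, e1, e2, e3⟩ := greedy A (fun x y => ¬ Disjoint (D s x) (D s y))
      (fun x y h h' => h h'.symm) ((k * (E.card + 1)) ^ 2) (fun x => by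
        refine le_trans (card_le_card (t := ((univ ×ˢ insert 1 E) ×ˢ (univ ×ˢ insert 1 E)).image
          fun p : (Fin k × Q) × (Fin k × Q) => p.2.2⁻¹ * (p.1.2 * (x * s p.1.1)) * (s p.2.1)⁻¹)
          fun y hy => ?_) (card_image_le.trans ?_)
        · obtain ⟨z, z1, z2⟩ := not_disjoint_iff.1
            (by simpa only [mem_filter, mem_univ, true_and] using hy)
          obtain ⟨p, p1, p2⟩ := mem_image.1 z1
          obtain ⟨q, q1, q2⟩ := mem_image.1 z2
          refine mem_image.2 ⟨(p, q), mem_product.2 ⟨p1, q1⟩, ?_⟩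
          simp only
          rw [p2, ← q2]
          group
        · rw [card_product, sq]
          gcongr) M (by omega)
    exact ⟨I, e2, fun f hf => (mem_filter.1 (e1 hf)).2, fun x hx y hy h => not_not.1 (e3 x hx y hy h)⟩
  choose I i1 i2 i3 using key
  have h3 : (univ.biUnion fun s => bad (I s) (D s) (τ s)).card < (univ : Finset (Q → Bool)).card := by
    have h4 : ((univ.biUnion fun s => bad (I s) (D s) (τ s)).card : ℝ) ≤
        ∑ s : Fin k → Q, (1 - (1 / 2) ^ (k * (E.card + 1))) ^ M * 2 ^ Fintype.card Q := by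
      refine le_trans (Nat.cast_le.2 card_biUnion_le) ?_
      push_cast
      refine sum_le_sum fun s _ => ?_
      rw [← i1 s]
      exact bad_card _ _ _ _ (fun f _ => card_image_le.trans hE) (i3 s)
    rw [← Nat.cast_lt (α := ℝ)]
    refine h4.trans_lt ?_
    simp only [sum_const, card_univ, Fintype.card_fun, Fintype.card_fin, nsmul_eq_mul,
      Fintype.card_bool, Nat.cast_pow, Nat.cast_ofNat, ← mul_assoc]
    exact mul_lt_of_lt_one_left (by positivity) h2
  obtain ⟨β, -, hβ⟩ := exists_mem_notMem_of_card_lt_card h3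
  refine ⟨{y | β y = true ∧ ∀ e ∈ E, β (e * y) = false}, fun y hy e he h => ?_, fun s => ?_⟩
  · have := hy.2 e he
    rw [h.1] at this
    exact absurd this (by simp)
  · simp only [mem_biUnion, mem_univ, true_and, not_exists, bad, mem_filter, not_forall,
      not_not] at hβ
    obtain ⟨f, hf, h⟩ := hβ s
    refine ⟨f, fun i => ⟨?_, fun e he => ?_⟩⟩
    · rw [h _ (mem_image.2 ⟨(i, 1), by simp, by simp⟩)]
      exact decide_eq_true ⟨i, rfl⟩
    · rw [h _ (mem_image.2 ⟨(i, e), by simp [he], rfl⟩)]
      exact decide_eq_false fun ⟨j, hj⟩ => i2 s f hf i j e he hj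

end fin

end Pool.Agent.H61.CS
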