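import Mathlib

set_option autoImplicit false

namespace Pool.Agent.H61.CSDefs

/-- The Heisenberg group over R: the triple (x, y, z) is the upper unitriangular matrix with
x and y above the diagonal and z in the corner. -/
structure Heis (R : Type) where
  x : R
  y : R
  z : R

theorem Heis.ext' {R : Type} {a b : Heis R} (h1 : a.x = b.x) (h2 : a.y = b.y) (h3 : a.z = b.z) :
    a = b := by
  cases a
  cases b
  simp_all

instance {R : Type} [CommRing R] : Group (Heis R) where
  mul a b := ⟨a.x + b.x, a.y + b.y, a.z + b.z + a.x * b.y⟩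
  one := ⟨0, 0, 0⟩
  inv a := ⟨-a.x, -a.y, -a.z + a.x * a.y⟩
  mul_assoc a b c := Heis.ext' (add_assoc _ _ _) (add_assoc _ _ _) (by
    change a.z + b.z + a.x * b.y + c.z + (a.x + b.x) * c.y =
      a.z + (b.z + c.z + b.x * c.y) + a.x * (b.y + c.y)
    ring)
  one_mul a := Heis.ext' (zero_add _) (zero_add _) (by
    change 0 + a.z + 0 * a.y = a.z
    ring)
  mul_one a := Heis.ext' (add_zero _) (add_zero _) (by
    change a.z + 0 + a.x * 0 = a.z
    ring)
  inv_mul_cancel a := Heis.ext' (neg_add_cancel _) (neg_add_cancel _) (by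
    change -a.z + a.x * a.y + a.z + -a.x * a.y = 0
    ring)

/-- n-syndetic sets. -/
def NSynd {G : Type} [Group G] (n : ℕ) (A : Set G) : Prop :=
  ∃ F : Finset G, ∀ S : Finset G, S.card ≤ n → ∃ f ∈ F, ∀ s ∈ S, ∃ a ∈ A, s = f * a

/-- Completely syndetic sets. -/
def CS {G : Type} [Group G] (A : Set G) : Prop := ∀ n : ℕ, 1 ≤ n → NSynd n A

/-- Right ideals of the Stone-Cech compactification. -/
def RightIdeal {G : Type} [Group G] (R : Set (Ultrafilter G)) : Prop :=
  R.Nonempty ∧ ∀ p ∈ R, ∀ q : Ultrafilter G, (Ultrafilter.mul (M := G)).mul p q ∈ R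

/-- Minimal closed right ideals. -/
def MinClosedRightIdeal {G : Type} [Group G] (R : Set (Ultrafilter G)) : Prop :=
  IsClosed R ∧ RightIdeal R ∧ ∀ R' ⊆ R, IsClosed R' → RightIdeal R' → R' = R

end Pool.Agent.H61.CSDefs
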