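import Mathlib
import Pool.Agent.H61.CSA
import Pool.Agent.H61.CSDefs

set_option autoImplicit false

namespace Pool.Agent.H61.CS

open Filter Topology CSDefs
open scoped Classical Pointwise

section basic

variable {R : Type} [CommRing R]

@[simp] lemma mul_x (a b : Heis R) : (a * b).x = a.x + b.x := rfl
@[simp] lemma mul_y (a b : Heis R) : (a * b).y = a.y + b.y := rfl
@[simp] lemma mul_z (a b : Heis R) : (a * b).z = a.z + b.z + a.x * b.y := rfl
@[simp] lemma inv_x (a : Heis R) : a⁻¹.x = -a.x := rfl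
@[simp] lemma inv_y (a : Heis R) : a⁻¹.y = -a.y := rfl
@[simp] lemma inv_z (a : Heis R) : a⁻¹.z = -a.z + a.x * a.y := rfl
@[simp] lemma one_x : (1 : Heis R).x = 0 := rfl
@[simp] lemma one_y : (1 : Heis R).y = 0 := rfl
@[simp] lemma one_z : (1 : Heis R).z = 0 := rfl

/-- coordinates -/
def eqv (R : Type) : Heis R ≃ R × R × R where
  toFun a := (a.x, a.y, a.z)
  invFun p := ⟨p.1, p.2.1, p.2.2⟩
  left_inv _ := rfl
  right_inv _ := rfl

end basic

lemma conj_card (p : ℕ) [Fact p.Prime] [Fintype (Heis (ZMod p))] (d e : Heis (ZMod p))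
    (he : e.x ≠ 0 ∨ e.y ≠ 0) : (Finset.univ.filter fun f => f * d * f⁻¹ = e).card ≤ p * p := by
  have h0 : ∀ f : Heis (ZMod p), f * d * f⁻¹ = e →
      d.x = e.x ∧ d.y = e.y ∧ f.x * e.y - e.x * f.y = e.z - d.z := fun f h => by
    subst h
    simp only [mul_x, mul_y, mul_z, inv_x, inv_y, inv_z]
    refine ⟨by ring, by ring, by ring⟩
  have hc : (Finset.univ : Finset (ZMod p × ZMod p)).card = p * p := by simp
  rw [← hc]
  rcases he with he | he
  · refine Finset.card_le_card_of_injOn (fun f => (f.x, f.z)) (fun _ _ => by simp)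
      fun f hf g hg h => ?_
    obtain ⟨h1, h2⟩ := Prod.ext_iff.1 h
    have a := (h0 f (Finset.mem_filter.1 hf).2).2.2
    have b := (h0 g (Finset.mem_filter.1 hg).2).2.2
    simp only at h1 h2
    exact Heis.ext' h1 (mul_left_cancel₀ he (by rw [h1] at a; linear_combination b - a)) h2
  · refine Finset.card_le_card_of_injOn (fun f => (f.y, f.z)) (fun _ _ => by simp)
      fun f hf g hg h => ?_
    obtain ⟨h1, h2⟩ := Prod.ext_iff.1 h
    have a := (h0 f (Finset.mem_filter.1 hf).2).2.2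
    have b := (h0 g (Finset.mem_filter.1 hg).2).2.2
    simp only at h1 h2
    exact Heis.ext' (mul_right_cancel₀ he (by rw [h1] at a; linear_combination a - b)) h1 h2

/-- separation modulo the centre -/
def Sep (B : Set (Heis ℤ)) (E : Finset (Heis ℤ)) : Prop :=
  ∀ y ∈ B, ∀ e ∈ E, e * y ∈ B → e.x = 0 ∧ e.y = 0

lemma bound (E : Finset (Heis ℤ)) : ∃ L : ℕ, ∀ e ∈ E, |e.x| < L ∧ |e.y| < L := by
  refine ⟨E.sup (fun e => e.x.natAbs + e.y.natAbs) + 1, fun e he => ?_⟩
  have := Finset.le_sup (f := fun e : Heis ℤ => e.x.natAbs + e.y.natAbs) he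
  simp only [Int.abs_eq_natAbs] at this ⊢
  omega

theorem core (k : ℕ) (E : Finset (Heis ℤ)) : ∃ (B : Set (Heis ℤ)) (Φ : Finset (Heis ℤ)),
    Sep B E ∧ ∀ s : Fin k → Heis ℤ, ∃ f ∈ Φ, ∀ i, f * s i ∈ B := by
  obtain ⟨L, hL⟩ := bound E
  let w := k * (E.card + 1)
  have h1 := tendsto_pow_const_mul_const_pow_of_abs_lt_one (3 * k) (r := 1 - (1 / 2 : ℝ) ^ w) (by
    rw [abs_of_nonneg (sub_nonneg.2 (pow_le_one₀ (by norm_num) (by norm_num)))]
    exact sub_lt_self _ (by positivity))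
  obtain ⟨N, hN⟩ := eventually_atTop.1 (h1 (Iio_mem_nhds one_pos))
  obtain ⟨p, hp1, hp2⟩ := Nat.exists_infinite_primes (N + L + k * k * E.card + w ^ 2 + 1)
  have : Fact p.Prime := ⟨hp2⟩
  let _ : Fintype (Heis (ZMod p)) := Fintype.ofEquiv _ (eqv _).symm
  have hQ : Fintype.card (Heis (ZMod p)) = p ^ 3 := by
    rw [Fintype.card_congr (eqv _)]
    simp [pow_succ, mul_assoc]
  let π : Heis ℤ →* Heis (ZMod p) := MonoidHom.mk' (fun a => ⟨a.x, a.y, a.z⟩)
    fun a b => Heis.ext' (by simp) (by simp) (by simp)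
  let E' := (E.filter fun e => ¬ (e.x = 0 ∧ e.y = 0)).image π
  have hE' : E'.card ≤ E.card := Finset.card_image_le.trans (Finset.card_filter_le _ _)
  have hz : ∀ t : ℤ, |t| < L → (t : ZMod p) = 0 → t = 0 := fun t ht h =>
    Int.eq_zero_of_abs_lt_dvd ((ZMod.intCast_zmod_eq_zero_iff_dvd _ _).1 h) (by omega)
  have hw : k * (E'.card + 1) ≤ w := Nat.mul_le_mul_left _ (by omega)
  obtain ⟨B, b1, b2⟩ := core_fin E' k p (p * p) (fun d e he => conj_card p d e (by
      obtain ⟨e', he', rfl⟩ := Finset.mem_image.1 he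
      obtain ⟨e1, e2⟩ := Finset.mem_filter.1 he'
      by_contra hn
      push Not at hn
      exact e2 ⟨hz _ (hL e' e1).1 hn.1, hz _ (hL e' e1).2 hn.2⟩))
    (by
      rw [hQ]
      calc _ ≤ k * k * E.card * (p * p) + (p * p) * (w ^ 2 + 1) :=
            add_le_add (by gcongr) (Nat.mul_le_mul (Nat.le_mul_self p) (by gcongr))
        _ = (k * k * E.card + w ^ 2 + 1) * (p * p) := by ring
        _ ≤ p * (p * p) := by gcongr; omega
        _ = p ^ 3 := by ring)
    (by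
      refine lt_of_le_of_lt ?_ (hN p (by omega))
      rw [hQ, Nat.cast_pow, ← pow_mul]
      exact mul_le_mul_of_nonneg_left (pow_le_pow_left₀
        (sub_nonneg.2 (pow_le_one₀ (by norm_num) (by norm_num)))
        (sub_le_sub_left (pow_le_pow_of_le_one (by norm_num) (by norm_num) hw) _) _) (by positivity))
  have hs : ∀ f : Heis (ZMod p), ∃ g, π g = f := fun f =>
    ⟨⟨f.x.val, f.y.val, f.z.val⟩, Heis.ext' (by simp [π]) (by simp [π]) (by simp [π])⟩
  choose σ hσ using hs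
  refine ⟨π ⁻¹' B, Finset.univ.image σ, fun y hy e he h => ?_, fun s => ?_⟩
  · by_contra hn
    exact b1 _ hy (π e) (Finset.mem_image_of_mem _ (Finset.mem_filter.2 ⟨he, hn⟩))
      (by simpa using h)
  · obtain ⟨f, hf⟩ := b2 fun i => π (s i)
    exact ⟨σ f, by simp, fun i => by simpa [hσ] using hf i⟩

theorem level (k : ℕ) (E : Finset (Heis ℤ)) : ∃ (B : Set (Heis ℤ)) (F E' : Finset (Heis ℤ)),
    Sep B E ∧ E ⊆ E' ∧ E'⁻¹ = E' ∧ ∀ H : Set (Heis ℤ), Sep H E' → ∀ s : Fin k → Heis ℤ,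
      ∃ f ∈ F, ∀ i, f * s i ∈ B ∧ ∀ e ∈ E, e * (f * s i) ∉ H := by
  obtain ⟨B, Φ, h1, h2⟩ := core k E
  obtain ⟨L, hL⟩ := bound (E * Φ * (E * Φ)⁻¹)
  let g : Fin (k + 1) → Heis ℤ := fun j => ⟨(j : ℕ) * L, 0, 0⟩
  let F := Φ * Finset.univ.image g
  let W := E ∪ E * F * (E * F)⁻¹
  refine ⟨B, F, W ∪ W⁻¹, h1, Finset.subset_union_left.trans Finset.subset_union_left,
    by ext; simp only [Finset.mem_inv', Finset.mem_union (s := W), inv_inv, or_comm],
    fun H hH s => ?_⟩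
  choose φ φ1 φ2 using fun j => h2 fun i => g j * s i
  by_contra hn
  push Not at hn
  have h3 : ∀ j, ∃ i, ∃ e ∈ E, e * (φ j * g j * s i) ∈ H := fun j => by
    obtain ⟨i, hi⟩ := hn (φ j * g j) (Finset.mul_mem_mul (φ1 j) (by simp))
    exact ⟨i, hi (by rw [mul_assoc]; exact φ2 j i)⟩
  choose i e e1 e2 using h3
  obtain ⟨a, b, hab, h4⟩ := Fintype.exists_ne_map_eq_of_card_lt i (by simp)
  have hF : ∀ j, e j * (φ j * g j) ∈ E * F := fun j =>
    Finset.mul_mem_mul (e1 j) (Finset.mul_mem_mul (φ1 j) (by simp))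
  have h5 := (hH _ (e2 a) (e b * (φ b * g b) * (e a * (φ a * g a))⁻¹)
    (Finset.mem_union_left _ (Finset.mem_union_right _
      (Finset.mul_mem_mul (hF b) (Finset.inv_mem_inv (hF a))))) (by
      convert e2 b using 1
      rw [h4]
      group)).1
  have h6 := (hL (e b * φ b * (e a * φ a)⁻¹) (Finset.mul_mem_mul (Finset.mul_mem_mul (e1 b) (φ1 b))
    (Finset.inv_mem_inv (Finset.mul_mem_mul (e1 a) (φ1 a))))).1
  simp only [mul_x, inv_x, g] at h5 h6
  have h7 : (e b).x + (φ b).x + -((e a).x + (φ a).x) = (((a : ℕ) : ℤ) - (b : ℕ)) * L := by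
    linarith
  rw [h7, abs_mul, Nat.abs_cast] at h6
  have h8 : (1 : ℤ) ≤ |((a : ℕ) : ℤ) - (b : ℕ)| := Int.one_le_abs (by
    have : (a : ℕ) ≠ b := fun h => hab (Fin.ext h)
    omega)
  nlinarith [Int.natCast_nonneg L]

theorem exists_set : ∃ B : Set (Heis ℤ), (∀ y ∈ B, (⟨1, 0, 0⟩ : Heis ℤ) * y ∉ B) ∧
    ∀ k, ∃ F : Finset (Heis ℤ), ∀ s : Fin k → Heis ℤ, ∃ f ∈ F, ∀ i, f * s i ∈ B := by
  choose B F E' h1 h2 h3 h4 using level
  let a : Heis ℤ := ⟨1, 0, 0⟩
  let E : ℕ → Finset (Heis ℤ) := fun k => Nat.rec {a, a⁻¹} (fun k e => E' k e) k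
  have hE : ∀ k, (E k)⁻¹ = E k := fun k => by
    cases k with
    | zero => simp [E, Finset.pair_comm]
    | succ k => exact h3 _ _
  have key : ∀ d k, ∃ H, Sep H (E k) ∧ ∀ j, k ≤ j → j < k + d → ∀ s : Fin j → Heis ℤ,
      ∃ f ∈ F j (E j), ∀ i, f * s i ∈ H := fun d => by
    induction d with
    | zero => exact fun k => ⟨∅, fun y hy => hy.elim, fun j _ _ => by omega⟩
    | succ d ih =>
      intro k
      obtain ⟨H, g1, g2⟩ := ih (k + 1)
      refine ⟨H ∪ {y | y ∈ B k (E k) ∧ ∀ e ∈ E k, e * y ∉ H}, ?_, fun j j1 j2 s => ?_⟩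
      · rintro y (hy | hy) e he (h | h)
        · exact g1 y hy e (h2 k _ he) h
        · exact absurd (by simpa using hy) (h.2 e⁻¹ (hE k ▸ Finset.inv_mem_inv he))
        · exact absurd h (hy.2 e he)
        · exact h1 k _ y hy.1 e he h.1
      · rcases j1.eq_or_lt with rfl | j1
        · obtain ⟨f, f1, f2⟩ := h4 k _ H g1 s
          exact ⟨f, f1, fun i => Or.inr (f2 i)⟩
        · obtain ⟨f, f1, f2⟩ := g2 j j1 (by omega) s
          exact ⟨f, f1, fun i => Or.inl (f2 i)⟩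
  choose H g1 g2 using fun d => key d 0
  let u : Ultrafilter ℕ := Ultrafilter.of atTop
  refine ⟨{y | ∀ᶠ d in (u : Filter ℕ), y ∈ H d}, fun y hy h => ?_, fun k => ⟨F k (E k), fun s => ?_⟩⟩
  · obtain ⟨d, d1, d2⟩ := (Eventually.and hy h).exists
    simpa [a] using (g1 d y d1 a (by simp [E]) d2).1
  · have : ∀ᶠ d in (u : Filter ℕ), ∃ f ∈ (F k (E k) : Set (Heis ℤ)), ∀ i, f * s i ∈ H d :=
      Ultrafilter.of_le atTop ((eventually_gt_atTop k).mono fun d hd =>
        g2 d k (Nat.zero_le _) (by omega) s)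
    obtain ⟨f, f1, f2⟩ := (Ultrafilter.eventually_exists_mem_iff (Finset.finite_toSet _)).1 this
    exact ⟨f, f1, eventually_all.1 f2⟩

section gen

variable {G : Type} [Group G]

lemma cs_of {B : Set G} (h : ∀ k, ∃ F : Finset G, ∀ s : Fin k → G, ∃ f ∈ F, ∀ i, f * s i ∈ B) :
    CS B := fun n _ => by
  obtain ⟨F, hF⟩ := h n
  refine ⟨F⁻¹, fun S hS => ?_⟩
  obtain ⟨f, f1, f2⟩ := hF fun i => if h : (i : ℕ) < S.card then S.equivFin.symm ⟨i, h⟩ else 1
  refine ⟨f⁻¹, Finset.inv_mem_inv f1, fun s hs => ⟨f * s, ?_, by simp⟩⟩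
  have := f2 ⟨S.equivFin ⟨s, hs⟩, (S.equivFin ⟨s, hs⟩).2.trans_le hS⟩
  simpa using this

attribute [local instance] Ultrafilter.mul Ultrafilter.semigroup

lemma exists_min {A : Set G} (hA : CS A) :
    ∃ R, MinClosedRightIdeal R ∧ ∀ p ∈ R, A ∈ p := by
  let R₀ : Set (Ultrafilter G) := {p | ∀ q : Ultrafilter G, A ∈ p * q}
  have h1 : IsClosed R₀ := by
    simp only [R₀, Set.ofPred_forall]
    exact isClosed_iInter fun q =>
      (ultrafilter_isClosed_basic A).preimage (Ultrafilter.continuous_mul_left q)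
  have h2 : R₀.Nonempty := by
    obtain ⟨p, hp⟩ := Ultrafilter.exists_ultrafilter_of_finite_inter_nonempty
      (Set.range fun q : Ultrafilter G => {g | ∀ᶠ h in (q : Filter G), g * h ∈ A}) (fun T hT => by
      choose q hq using fun t : T => hT t.2
      obtain ⟨F, hF⟩ := hA (T.card + 1) (by omega)
      by_contra hn
      have h3 : ∀ t : T, ∃ s, ∀ f ∈ F, f⁻¹ ∉ (t : Set G) → f⁻¹ * s ∉ A := fun t => by
        refine Eventually.exists (f := (q t : Filter G)) ((eventually_all_finset F).2 fun f _ => ?_)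
        by_cases h : f⁻¹ ∈ (t : Set G)
        · exact .of_forall fun s h' => absurd h h'
        · rw [← hq t] at h
          exact (Ultrafilter.eventually_not.2 h).mono fun s hs _ => hs
      choose s hs using h3
      obtain ⟨f, f1, f2⟩ := hF (Finset.univ.image s) (Finset.card_image_le.trans (by simp))
      refine hn ⟨f⁻¹, Set.mem_sInter.2 fun t ht => ?_⟩
      by_contra h
      obtain ⟨a, ha, e⟩ := f2 (s ⟨t, ht⟩) (by simp)
      exact hs ⟨t, ht⟩ f f1 h (by simpa [e] using ha))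
    exact ⟨p, fun q => hp ⟨q, rfl⟩⟩
  obtain ⟨R, r1, r2⟩ := zorn_superset_nonempty {R : Set (Ultrafilter G) | IsClosed R ∧ RightIdeal R}
    (fun c hc hch hne => by
      refine ⟨⋂₀ c, ⟨isClosed_sInter fun t ht => (hc ht).1, ?_,
        fun p hp q => Set.mem_sInter.2 fun t ht => (hc ht).2.2 p (hp t ht) q⟩,
        fun t ht => Set.sInter_subset_of_mem ht⟩
      have := hne.coe_sort
      exact IsCompact.nonempty_sInter_of_directed_nonempty_isCompact_isClosed
        (IsChain.directedOn hch.symm) (fun t ht => (hc ht).2.1)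
        (fun t ht => (hc ht).1.isCompact) (fun t ht => (hc ht).1)) R₀
    ⟨h1, h2, fun p hp q r => by
      have := hp (q * r)
      rwa [← mul_assoc] at this⟩
  refine ⟨R, ⟨r2.prop.1, r2.prop.2, fun R' a b c => r2.eq_of_subset ⟨b, c⟩ a⟩, fun p hp => ?_⟩
  have := (Ultrafilter.eventually_mul p (pure 1) (· ∈ A)).1 (r1 hp (pure 1))
  simpa using this

end gen

end Pool.Agent.H61.CS
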