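import Mathlib
open MeasureTheory Set Finset

namespace Pool.Agent.H61.Ck

lemma cut1 (μ : Measure ℝ) [IsFiniteMeasure μ] [NullSingletonClass μ] (S : Set ℝ) (hS : MeasurableSet S)
    (hS1 : S ⊆ Set.Icc 0 1) (a : ℝ) (h0 : 0 ≤ a) (h1 : a ≤ μ.real S) :
    ∃ T : Set ℝ, MeasurableSet T ∧ T ⊆ S ∧ μ.real T = a := by
  have hint : Integrable (S.indicator (fun _ => (1:ℝ))) μ := (integrable_const (1:ℝ)).indicator hS
  have hc : Continuous fun t => ∫ x in (-1:ℝ)..t, S.indicator (fun _ => (1:ℝ)) x ∂μ :=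
    hint.continuous_primitive (-1)
  have key : ∀ t, -1 ≤ t → ∫ x in (-1:ℝ)..t, S.indicator (fun _ => (1:ℝ)) x ∂μ
      = μ.real (S ∩ Set.Ioc (-1) t) := by
    intro t ht
    rw [intervalIntegral.integral_of_le ht, integral_indicator hS]
    simp [Measure.restrict_restrict hS, Measure.real]
  have hiv := intermediate_value_Icc (show (-1:ℝ) ≤ 1 by norm_num) hc.continuousOn
  have hmem : a ∈ Set.Icc (∫ x in (-1:ℝ)..(-1), S.indicator (fun _ => (1:ℝ)) x ∂μ)
      (∫ x in (-1:ℝ)..1, S.indicator (fun _ => (1:ℝ)) x ∂μ) := by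
    refine ⟨by simpa using h0, ?_⟩
    rw [key 1 (by norm_num)]
    have : S ∩ Set.Ioc (-1) 1 = S := by
      apply Set.inter_eq_left.2
      intro x hx
      have := hS1 hx
      exact ⟨by linarith [this.1], this.2⟩
    rwa [this]
  obtain ⟨t, ht, hta⟩ := hiv hmem
  refine ⟨S ∩ Set.Ioc (-1) t, hS.inter measurableSet_Ioc, Set.inter_subset_left, ?_⟩
  rw [← key t ht.1]; exact hta

lemma cutN (μ : Measure ℝ) [IsFiniteMeasure μ] [NullSingletonClass μ] (r : ℕ) :
    ∀ (S : Set ℝ) (_ : MeasurableSet S) (_ : S ⊆ Set.Icc 0 1) (x : Fin (r+1) → ℝ)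
      (_ : ∀ c, 0 ≤ x c) (_ : ∑ c, x c = μ.real S),
      ∃ A : Fin (r+1) → Set ℝ, (∀ c, MeasurableSet (A c)) ∧ (∀ c d, c ≠ d → Disjoint (A c) (A d)) ∧
        (⋃ c, A c) = S ∧ ∀ c, μ.real (A c) = x c := by
  induction r with
  | zero =>
    intro S hS _ x _ hx
    refine ⟨fun _ => S, fun _ => hS, fun c d h => absurd (Fin.ext (by omega)) h, by simp [Set.iUnion_const], ?_⟩
    intro c
    have : c = 0 := Fin.ext (by omega)
    subst this
    simpa using hx.symm
  | succ r ih =>
    intro S hS hS1 x hx0 hx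
    rw [Fin.sum_univ_succ] at hx
    have hs : 0 ≤ ∑ i : Fin (r+1), x i.succ := Finset.sum_nonneg fun i _ => hx0 _
    obtain ⟨T, hT, hTS, hTm⟩ := cut1 μ S hS hS1 (x 0) (hx0 0) (by linarith)
    have hd : μ.real (S \ T) = μ.real S - μ.real T := measureReal_sdiff hTS hT
    obtain ⟨B, hB, hBd, hBu, hBm⟩ := ih (S \ T) (hS.diff hT) (Set.sdiff_subset.trans hS1)
      (fun i => x i.succ) (fun i => hx0 _) (by rw [hd, hTm]; linarith)
    have hBs : ∀ i, Disjoint T (B i) := by
      intro i
      have : B i ⊆ S \ T := hBu ▸ Set.subset_iUnion B i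
      exact Set.disjoint_of_subset_right this Set.disjoint_sdiff_right
    refine ⟨Fin.cons T B, ?_, ?_, ?_, ?_⟩
    · intro c; refine Fin.cases ?_ (fun i => ?_) c
      · simpa using hT
      · simpa using hB i
    · intro c d
      refine Fin.cases ?_ (fun i => ?_) c <;> refine Fin.cases ?_ (fun j => ?_) d
      · intro h; exact absurd rfl h
      · intro _; simpa using hBs j
      · intro _; simpa using (hBs i).symm
      · intro h; simpa using hBd i j (fun e => h (by rw [e]))
    · ext y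
      rw [Set.mem_iUnion, Fin.exists_fin_succ]
      simp only [Fin.cons_zero, Fin.cons_succ]
      have : (∃ i, y ∈ B i) ↔ y ∈ S \ T := by rw [← hBu]; simp
      rw [this]
      constructor
      · rintro (h | h)
        · exact hTS h
        · exact h.1
      · intro h
        by_cases hy : y ∈ T
        · exact Or.inl hy
        · exact Or.inr ⟨h, hy⟩
    · intro c; refine Fin.cases ?_ (fun i => ?_) c
      · simpa using hTm
      · simpa using hBm i

/-- window inequality -/
lemma window (s n : ℕ) (w : Fin n → ℝ) (h0 : ∀ i, 0 ≤ w i) (ha : Antitone w) (c : ℕ) :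
    ((s:ℝ)+1) * ∑ i ∈ univ.filter (fun i : Fin n => s ≤ i.1 ∧ (i.1 - s) % (s+1) = c), w i
      ≤ ∑ i, w i := by
  classical
  set F := univ.filter (fun i : Fin n => s ≤ i.1 ∧ (i.1 - s) % (s+1) = c) with hF
  let g : Fin n × Fin (s+1) → Fin n := fun p => ⟨p.1.1 - p.2.1, lt_of_le_of_lt (Nat.sub_le _ _) p.1.2⟩
  have hinj : Set.InjOn g (↑(F ×ˢ (univ : Finset (Fin (s+1))))) := by
    rintro ⟨i, t⟩ hi ⟨j, u⟩ hj h
    simp only [hF, Finset.coe_product, Set.mem_prod, Finset.mem_coe, Finset.mem_filter,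
      Finset.mem_univ, true_and, Finset.coe_univ, Set.mem_univ, and_true] at hi hj
    have h' : i.1 - t.1 = j.1 - u.1 := congrArg Fin.val h
    have ht := t.2
    have hu := u.2
    have e1 := Nat.div_add_mod (i.1 - s) (s+1)
    have e2 := Nat.div_add_mod (j.1 - s) (s+1)
    have hq : (i.1 - s) / (s+1) = (j.1 - s) / (s+1) := by
      rcases lt_trichotomy ((i.1 - s) / (s+1)) ((j.1 - s) / (s+1)) with hl | hl | hl
      · exfalso
        have := Nat.mul_le_mul_left (s+1) (Nat.succ_le_of_lt hl)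
        rw [Nat.mul_succ] at this
        omega
      · exact hl
      · exfalso
        have := Nat.mul_le_mul_left (s+1) (Nat.succ_le_of_lt hl)
        rw [Nat.mul_succ] at this
        omega
    rw [hq] at e1
    have hij : i = j := Fin.ext (by omega)
    subst hij
    have : t = u := Fin.ext (by omega)
    rw [this]
  calc ((s:ℝ)+1) * ∑ i ∈ F, w i = ∑ p ∈ F ×ˢ (univ : Finset (Fin (s+1))), w p.1 := by
        rw [Finset.sum_product]; simp [Finset.mul_sum]
    _ ≤ ∑ p ∈ F ×ˢ (univ : Finset (Fin (s+1))), w (g p) := by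
        apply Finset.sum_le_sum
        intro p _
        exact ha (show g p ≤ p.1 from Nat.sub_le _ _)
    _ = ∑ i ∈ (F ×ˢ (univ : Finset (Fin (s+1)))).image g, w i := (Finset.sum_image hinj).symm
    _ ≤ ∑ i, w i := Finset.sum_le_sum_of_subset_of_nonneg (Finset.subset_univ _) fun i _ _ => h0 i

lemma count (s n c : ℕ) (hc : c < s + 1) :
    (n - s) / (s+1) ≤ (univ.filter (fun i : Fin n => s ≤ i.1 ∧ (i.1 - s) % (s+1) = c)).card := by
  classical
  have hlt : ∀ j : Fin ((n - s) / (s+1)), s + (c + (s+1) * j.1) < n := by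
    intro j
    have h1 := Nat.mul_le_mul_left (s+1) (Nat.succ_le_of_lt j.2)
    rw [Nat.mul_succ] at h1
    have h2 := Nat.mul_div_le (n - s) (s+1)
    omega
  let f : Fin ((n - s) / (s+1)) → Fin n := fun j => ⟨s + (c + (s+1) * j.1), hlt j⟩
  have : (univ : Finset (Fin ((n - s) / (s+1)))).card ≤ _ :=
    Finset.card_le_card_of_injOn (t := univ.filter (fun i : Fin n => s ≤ i.1 ∧ (i.1 - s) % (s+1) = c)) f
      (by
        intro j _
        simp only [Finset.coe_filter, Finset.mem_univ, true_and, Set.mem_ofPred_eq, f]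
        refine ⟨by omega, ?_⟩
        rw [Nat.add_sub_cancel_left, Nat.add_mul_mod_self_left, Nat.mod_eq_of_lt hc])
      (by
        intro a _ b _ h
        have h' : s + (c + (s+1) * a.1) = s + (c + (s+1) * b.1) := congrArg Fin.val h
        have : (s+1) * a.1 = (s+1) * b.1 := by omega
        exact Fin.ext (Nat.eq_of_mul_eq_mul_left (Nat.succ_pos s) this))
  simpa using this

open Classical in
lemma sorted (s n : ℕ) (μ : Fin n → Measure ℝ) [∀ k, IsFiniteMeasure (μ k)]
    [∀ k, NullSingletonClass (μ k)] (ha : Antitone fun k => (μ k).real (Set.Icc 0 1)) :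
    ∃ A : Fin n → Fin (s+1) → Set ℝ, (∀ k c, MeasurableSet (A k c)) ∧
      (∀ k c d, c ≠ d → Disjoint (A k c) (A k d)) ∧ (∀ k, (⋃ c, A k c) = Set.Icc 0 1) ∧
      (∀ c, ∑ k, (μ k).real (A k c) = (∑ k, (μ k).real (Set.Icc 0 1)) / ((s:ℝ)+1)) ∧
      (univ.filter fun k => ∀ c, A k c ≠ Set.Icc 0 1).card ≤ s ∧
      ∀ c, (n - s) / (s+1) ≤ (univ.filter fun k => A k c = Set.Icc 0 1).card := by
  set w : Fin n → ℝ := fun k => (μ k).real (Set.Icc 0 1) with hw
  have h0 : ∀ k, 0 ≤ w k := fun k => measureReal_nonneg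
  have hs1 : (0:ℝ) < (s:ℝ) + 1 := by positivity
  let ch : Fin n → Fin (s+1) := fun i => ⟨(i.1 - s) % (s+1), Nat.mod_lt _ (Nat.succ_pos s)⟩
  let S : Fin (s+1) → ℝ := fun c => ∑ i, if s ≤ i.1 ∧ ch i = c then w i else 0
  let d : Fin (s+1) → ℝ := fun c => (∑ k, w k) / ((s:ℝ)+1) - S c
  have hd : ∀ c, 0 ≤ d c := by
    intro c
    have h := window s n w h0 ha c.1
    have e : S c = ∑ i ∈ univ.filter (fun i : Fin n => s ≤ i.1 ∧ (i.1 - s) % (s+1) = c.1), w i := by
      rw [Finset.sum_filter]
      refine Finset.sum_congr rfl fun i _ => ?_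
      simp [ch, Fin.ext_iff]
    show 0 ≤ (∑ k, w k) / ((s:ℝ)+1) - S c
    rw [sub_nonneg, le_div_iff₀ hs1, e]
    linarith
  let D : ℝ := ∑ i, if s ≤ i.1 then 0 else w i
  have hD : ∑ c, d c = D := by
    have e1 : ∑ c, S c = ∑ i, if s ≤ i.1 then w i else 0 := by
      simp only [S]
      rw [Finset.sum_comm]
      refine Finset.sum_congr rfl fun i _ => ?_
      by_cases h : s ≤ i.1 <;> simp [h]
    have e2 : ∑ k, w k = (∑ i, if s ≤ i.1 then w i else 0) + D := by
      simp only [D]
      rw [← Finset.sum_add_distrib]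
      refine Finset.sum_congr rfl fun i _ => ?_
      by_cases h : s ≤ i.1 <;> simp [h]
    simp only [d]
    rw [Finset.sum_sub_distrib, e1]
    simp only [Finset.sum_const, Finset.card_univ, Fintype.card_fin, nsmul_eq_mul]
    push_cast
    rw [mul_div_cancel₀ _ hs1.ne']
    linarith
  -- fractions
  obtain ⟨p, hp0, hp1, hpd⟩ : ∃ p : Fin (s+1) → ℝ, (∀ c, 0 ≤ p c) ∧ ∑ c, p c = 1 ∧ ∀ c, D * p c = d c := by
    by_cases hz : D = 0
    · refine ⟨fun _ => 1 / ((s:ℝ)+1), fun _ => by positivity, ?_, ?_⟩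
      · simp; field_simp
      · intro c
        have := (Finset.sum_eq_zero_iff_of_nonneg (fun c _ => hd c)).1 (hD.trans hz) c (Finset.mem_univ _)
        rw [hz, this]; simp
    · have hpos : 0 ≤ D := hD ▸ Finset.sum_nonneg fun c _ => hd c
      refine ⟨fun c => d c / D, fun c => div_nonneg (hd c) hpos, ?_, ?_⟩
      · rw [← Finset.sum_div, hD, div_self hz]
      · intro c; field_simp
  have hB : ∀ k, ∃ A : Fin (s+1) → Set ℝ, (∀ c, MeasurableSet (A c)) ∧
      (∀ c d, c ≠ d → Disjoint (A c) (A d)) ∧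
        (⋃ c, A c) = Set.Icc 0 1 ∧ ∀ c, (μ k).real (A c) = w k * p c := fun k =>
    cutN (μ k) s _ measurableSet_Icc subset_rfl _ (fun c => mul_nonneg (h0 k) (hp0 c))
      (by rw [← Finset.mul_sum, hp1, mul_one])
  choose B hB1 hB2 hB3 hB4 using hB
  refine ⟨fun k c => if s ≤ k.1 then (if ch k = c then Set.Icc 0 1 else ∅) else B k c,
    ?_, ?_, ?_, ?_, ?_, ?_⟩
  · intro k c
    dsimp only
    split_ifs
    · exact measurableSet_Icc
    · exact MeasurableSet.empty
    · exact hB1 k c
  · intro k c e hce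
    dsimp only
    by_cases h : s ≤ k.1
    · simp only [h, if_true]
      by_cases h1 : ch k = c
      · have : ch k ≠ e := fun h2 => hce (h1.symm.trans h2)
        simp [this]
      · simp [h1]
    · simp only [h, if_false]; exact hB2 k c e hce
  · intro k
    by_cases h : s ≤ k.1
    · simp only [h, if_true]
      apply Set.Subset.antisymm
      · apply Set.iUnion_subset
        intro c; split_ifs <;> simp
      · refine subset_trans ?_ (Set.subset_iUnion _ (ch k)); simp
    · simp only [h, if_false]; exact hB3 k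
  · intro c
    have : ∀ k, (μ k).real (if s ≤ k.1 then (if ch k = c then Set.Icc 0 1 else ∅) else B k c)
        = (if s ≤ k.1 ∧ ch k = c then w k else 0) + (if s ≤ k.1 then 0 else w k) * p c := by
      intro k
      by_cases h : s ≤ k.1
      · by_cases h1 : ch k = c <;> simp [h, h1, hw]
      · simp [h, hB4]
    simp only [this]
    rw [Finset.sum_add_distrib, ← Finset.sum_mul]
    have := hpd c
    simp only [d, D, S] at this
    linarith
  · calc _ ≤ (univ.filter fun k : Fin n => k.1 < s).card := by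
          apply Finset.card_le_card
          intro k hk
          simp only [Finset.mem_filter, Finset.mem_univ, true_and] at hk ⊢
          by_contra h
          have h' : s ≤ k.1 := by omega
          exact hk (ch k) (by simp [h'])
      _ ≤ (Finset.range s).card := by
          apply Finset.card_le_card_of_injOn (fun k => k.1)
          · intro k hk; simpa using hk
          · intro a _ b _ h; exact Fin.ext h
      _ = s := Finset.card_range s
  · intro c
    refine (count s n c.1 c.2).trans (Finset.card_le_card ?_)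
    intro k hk
    simp only [Finset.mem_filter, Finset.mem_univ, true_and] at hk ⊢
    have : ch k = c := Fin.ext hk.2
    simp [hk.1, this]

open Classical in
theorem main (s n : ℕ) (μ : Fin n → Measure ℝ) [∀ k, IsFiniteMeasure (μ k)]
    [∀ k, NullSingletonClass (μ k)] :
    ∃ A : Fin n → Fin (s+1) → Set ℝ, (∀ k c, MeasurableSet (A k c)) ∧
      (∀ k c d, c ≠ d → Disjoint (A k c) (A k d)) ∧ (∀ k, (⋃ c, A k c) = Set.Icc 0 1) ∧
      (∀ c, ∑ k, (μ k).real (A k c) = (∑ k, (μ k).real (Set.Icc 0 1)) / ((s:ℝ)+1)) ∧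
      (univ.filter fun k => ∀ c, A k c ≠ Set.Icc 0 1).card ≤ s ∧
      ∀ c, (n - s) / (s+1) ≤ (univ.filter fun k => A k c = Set.Icc 0 1).card := by
  let σ := Tuple.sort (fun k => - (μ k).real (Set.Icc 0 1))
  have hm := Tuple.monotone_sort (fun k => - (μ k).real (Set.Icc 0 1))
  obtain ⟨A, h1, h2, h3, h4, h5, h6⟩ := sorted s n (fun i => μ (σ i)) (by
    intro a b hab
    have := hm hab
    simp only [Function.comp] at this
    exact neg_le_neg_iff.1 this)
  have hc : ∀ (P : Fin n → Prop) (_ : DecidablePred P) (_ : DecidablePred fun k => P (σ.symm k)),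
      (univ.filter fun k => P (σ.symm k)).card = (univ.filter P).card := by
    intro P _ _
    apply Finset.card_bij (fun k _ => σ.symm k)
    · intro k hk; simpa using hk
    · intro a _ b _ h; exact σ.symm.injective h
    · intro b hb; exact ⟨σ b, by simpa using hb, by simp⟩
  refine ⟨fun k => A (σ.symm k), fun k => h1 _, fun k => h2 _, fun k => h3 _, ?_, ?_, ?_⟩
  · intro c
    rw [← Equiv.sum_comp σ, ← Equiv.sum_comp σ (fun k => (μ k).real (Set.Icc 0 1))]
    simpa using h4 c
  · exact (hc (fun k => ∀ c, A k c ≠ Set.Icc 0 1) _ _).trans_le h5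
  · intro c
    exact (h6 c).trans_eq (hc (fun k => A k c = Set.Icc 0 1) _ _).symm

end Pool.Agent.H61.Ck
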