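import Pool.Agent.H61.CkA
open MeasureTheory Set Finset

namespace Pool.Agent.H61.Ck

/-- one LP step -/
lemma lp_step {ι : Type} [Fintype ι] [DecidableEq ι] (m : ℕ) (v : ι → Fin m → ℝ) (x : ι → ℝ)
    (hx : ∀ i, 0 ≤ x i ∧ x i ≤ 1) (hc : m < (univ.filter fun i => x i ≠ 0 ∧ x i ≠ 1).card) :
    ∃ y : ι → ℝ, (∀ i, 0 ≤ y i ∧ y i ≤ 1) ∧ (∀ i, x i = 0 → y i = 0) ∧ (∀ i, x i = 1 → y i = 1) ∧
      (∀ j, ∑ i, y i * v i j = ∑ i, x i * v i j) ∧
      (univ.filter fun i => y i ≠ 0 ∧ y i ≠ 1).card < (univ.filter fun i => x i ≠ 0 ∧ x i ≠ 1).card := by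
  classical
  set F := univ.filter fun i => x i ≠ 0 ∧ x i ≠ 1 with hF
  have hdep : ¬ LinearIndependent ℝ (fun i : F => v i.1) := by
    intro h
    have := h.fintype_card_le_finrank
    simp only [Fintype.card_coe, Module.finrank_fin_fun] at this
    omega
  rw [Fintype.not_linearIndependent_iff] at hdep
  obtain ⟨g, hg, i0, hi0⟩ := hdep
  let G : ι → ℝ := fun i => if h : i ∈ F then g ⟨i, h⟩ else 0
  have hG : ∀ j, ∑ i, G i * v i j = 0 := by
    intro j
    have h1 := congrFun hg j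
    simp only [Finset.sum_apply, Pi.smul_apply, smul_eq_mul, Pi.zero_apply] at h1
    rw [← h1, ← Finset.sum_subset (Finset.subset_univ F) (fun i _ hi => by simp [G, hi]),
      ← Finset.sum_coe_sort F]
    refine Finset.sum_congr rfl fun i _ => ?_
    simp [G, i.2]
  have hG0 : ∀ i, i ∉ F → G i = 0 := fun i hi => by simp [G, hi]
  let H := univ.filter fun i => G i ≠ 0
  have hH : H.Nonempty := ⟨i0.1, by simp [H, G, i0.2, hi0]⟩
  let τ : ι → ℝ := fun i => if 0 < G i then (1 - x i) / G i else x i / (- G i)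
  obtain ⟨k, hk, hmin⟩ := Finset.exists_min_image H τ hH
  have hkG : G k ≠ 0 := by simpa [H] using hk
  have hτ0 : 0 ≤ τ k := by
    simp only [τ]
    split_ifs with h
    · exact div_nonneg (by linarith [(hx k).2]) h.le
    · exact div_nonneg (hx k).1 (by linarith [not_lt.1 h])
  refine ⟨fun i => x i + τ k * G i, ?_, ?_, ?_, ?_, ?_⟩
  · intro i
    rcases lt_trichotomy (G i) 0 with h | h | h
    · have h1 := hmin i (by simp [H, h.ne])
      have h2 : τ i = x i / (- G i) := by simp [τ, not_lt.2 h.le]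
      rw [h2, le_div_iff₀ (by linarith)] at h1
      have := mul_nonpos_of_nonneg_of_nonpos hτ0 h.le
      constructor <;> linarith [(hx i).2]
    · simpa [h] using hx i
    · have h1 := hmin i (by simp [H, h.ne'])
      have h2 : τ i = (1 - x i) / G i := by simp [τ, h]
      rw [h2, le_div_iff₀ h] at h1
      have := mul_nonneg hτ0 h.le
      constructor <;> linarith [(hx i).1]
  · intro i hi
    have := hG0 i (by simp [hF, hi])
    simp [this, hi]
  · intro i hi
    have := hG0 i (by simp [hF, hi])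
    simp [this, hi]
  · intro j
    simp only [add_mul, Finset.sum_add_distrib, mul_assoc, ← Finset.mul_sum, hG, mul_zero, add_zero]
  · apply Finset.card_lt_card
    refine ⟨?_, ?_⟩
    · intro i hi
      by_contra h
      have h0 := hG0 i h
      simp only [Finset.mem_filter, Finset.mem_univ, true_and, h0, mul_zero, add_zero] at hi
      exact h (by simpa [hF] using hi)
    · intro hsub
      have hkF : k ∈ F := by
        by_contra h; exact hkG (hG0 k h)
      have := hsub hkF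
      simp only [Finset.mem_filter, Finset.mem_univ, true_and] at this
      by_cases h : 0 < G k
      · apply this.2
        simp only [τ, h, if_true]
        field_simp
        ring
      · apply this.1
        simp only [τ, h, if_false]
        field_simp
        ring

lemma lp {ι : Type} [Fintype ι] [DecidableEq ι] (m : ℕ) (v : ι → Fin m → ℝ) (N : ℕ) :
    ∀ (x : ι → ℝ) (_ : ∀ i, 0 ≤ x i ∧ x i ≤ 1)
      (_ : (univ.filter fun i => x i ≠ 0 ∧ x i ≠ 1).card ≤ N),
    ∃ y : ι → ℝ, (∀ i, 0 ≤ y i ∧ y i ≤ 1) ∧ (∀ i, x i = 0 → y i = 0) ∧ (∀ i, x i = 1 → y i = 1) ∧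
      (∀ j, ∑ i, y i * v i j = ∑ i, x i * v i j) ∧
      (univ.filter fun i => y i ≠ 0 ∧ y i ≠ 1).card ≤ m := by
  induction N with
  | zero => intro x hx hc; exact ⟨x, hx, fun _ h => h, fun _ h => h, fun _ => rfl, by omega⟩
  | succ N ih =>
    intro x hx hc
    by_cases h : m < (univ.filter fun i => x i ≠ 0 ∧ x i ≠ 1).card
    · obtain ⟨y, h1, h2, h3, h4, h5⟩ := lp_step m v x hx h
      obtain ⟨z, g1, g2, g3, g4, g5⟩ := ih y h1 (by omega)
      exact ⟨z, g1, fun i hi => g2 i (h2 i hi), fun i hi => g3 i (h3 i hi),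
        fun j => (g4 j).trans (h4 j), g5⟩
    · exact ⟨x, hx, fun _ h => h, fun _ h => h, fun _ => rfl, by omega⟩

lemma lp' {ι : Type} [Fintype ι] [DecidableEq ι] (m : ℕ) (v : ι → Fin m → ℝ)
    (x : ι → ℝ) (hx : ∀ i, 0 ≤ x i ∧ x i ≤ 1) :
    ∃ y : ι → ℝ, (∀ i, 0 ≤ y i ∧ y i ≤ 1) ∧ (∀ i, x i = 0 → y i = 0) ∧ (∀ i, x i = 1 → y i = 1) ∧
      (∀ j, ∑ i, y i * v i j = ∑ i, x i * v i j) ∧
      (univ.filter fun i => y i ≠ 0 ∧ y i ≠ 1).card ≤ m := lp m v _ x hx le_rfl

end Pool.Agent.H61.Ck
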