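import Pool.Agent.H61.CkB
open MeasureTheory Set Finset Filter Topology

namespace Pool.Agent.H61.Ck

open Classical in
structure St (m : ℕ) (μ : Fin m → Measure ℝ) (ν : Measure ℝ) (S : Set ℝ) (a : Fin m → ℝ) (n : ℕ) where
  ι : Type
  fin : Fintype ι
  P : ι → Set ℝ
  x : ι → ℝ
  meas : ∀ i, MeasurableSet (P i)
  sub : ∀ i, P i ⊆ S
  disj : ∀ i k, i ≠ k → Disjoint (P i) (P k)
  size : ∀ i, ν.real (P i) ≤ ν.real S / 2 ^ n
  hx : ∀ i, 0 ≤ x i ∧ x i ≤ 1
  sum : ∀ j, ∑ i, x i * (μ j).real (P i) = a j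
  few : (univ.filter fun i => x i ≠ 0 ∧ x i ≠ 1).card ≤ m + 1

variable {m : ℕ} {μ : Fin m → Measure ℝ} {ν : Measure ℝ} {S : Set ℝ} {a : Fin m → ℝ}

def St.T {n : ℕ} (s : St m μ ν S a n) : Set ℝ := ⋃ i, ⋃ _ : s.x i = 1, s.P i

lemma St.measT {n : ℕ} (s : St m μ ν S a n) : MeasurableSet s.T := by
  haveI := s.fin
  exact MeasurableSet.iUnion fun i => MeasurableSet.iUnion fun _ => s.meas i

lemma St.subT {n : ℕ} (s : St m μ ν S a n) : s.T ⊆ S :=
  Set.iUnion_subset fun i => Set.iUnion_subset fun _ => s.sub i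

lemma St.approx [∀ j, IsFiniteMeasure (μ j)] (hν : ∀ j A, (μ j).real A ≤ ν.real A) {n : ℕ}
    (s : St m μ ν S a n) (j : Fin m) :
    (μ j).real s.T ≤ a j ∧ a j - ((m:ℝ) + 1) * (ν.real S / 2 ^ n) ≤ (μ j).real s.T := by
  classical
  letI := s.fin
  have e : s.T = ⋃ i ∈ univ.filter (fun i => s.x i = 1), s.P i := by
    simp [St.T]
  have h1 : (μ j).real s.T = ∑ i, if s.x i = 1 then (μ j).real (s.P i) else 0 := by
    rw [e, measureReal_biUnion_finset (fun i _ k _ h => s.disj i k h) (fun i _ => s.meas i),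
      Finset.sum_filter]
  have h2 := s.sum j
  have hc : (0:ℝ) ≤ ν.real S / 2 ^ n := div_nonneg measureReal_nonneg (by positivity)
  constructor
  · rw [h1, ← h2]
    apply Finset.sum_le_sum
    intro i _
    split_ifs with h
    · simp [h]
    · exact mul_nonneg (s.hx i).1 measureReal_nonneg
  · have h3 : ∑ i, s.x i * (μ j).real (s.P i) ≤ ∑ i, ((if s.x i = 1 then (μ j).real (s.P i) else 0)
        + if s.x i ≠ 0 ∧ s.x i ≠ 1 then ν.real S / 2 ^ n else 0) := by
      apply Finset.sum_le_sum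
      intro i _
      by_cases h : s.x i = 1
      · simp [h]
      · by_cases h0 : s.x i = 0
        · simp [h0]
        · simp only [h, h0, if_false, ne_eq, not_false_eq_true, and_self, if_true, zero_add]
          calc s.x i * (μ j).real (s.P i) ≤ 1 * (μ j).real (s.P i) :=
                mul_le_mul_of_nonneg_right (s.hx i).2 measureReal_nonneg
            _ ≤ _ := by rw [one_mul]; exact (hν j _).trans (s.size i)
    rw [Finset.sum_add_distrib, ← h1, ← Finset.sum_filter, Finset.sum_const, nsmul_eq_mul, h2] at h3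
    have h4 : (((univ.filter fun i => s.x i ≠ 0 ∧ s.x i ≠ 1).card : ℕ) : ℝ) ≤ (m:ℝ) + 1 := by
      have := s.few
      exact_mod_cast (by convert this)
    have := mul_le_mul_of_nonneg_right h4 hc
    linarith

lemma St.step [∀ j, IsFiniteMeasure (μ j)] [IsFiniteMeasure ν] [NullSingletonClass ν]
    (hS1 : S ⊆ Set.Icc 0 1) {n : ℕ} (s : St m μ ν S a n) :
    ∃ s' : St m μ ν S a (n+1), s.T ⊆ s'.T := by
  classical
  letI := s.fin
  have hh : ∀ i, ∃ H : Set ℝ, MeasurableSet H ∧ H ⊆ s.P i ∧ ν.real H = ν.real (s.P i) / 2 := fun i =>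
    cut1 ν _ (s.meas i) ((s.sub i).trans hS1) _ (div_nonneg measureReal_nonneg (by norm_num))
      (by linarith [measureReal_nonneg (μ := ν) (s := s.P i)])
  choose H hH1 hH2 hH3 using hh
  let Q : s.ι × Bool → Set ℝ := fun p => if p.2 = true then H p.1 else s.P p.1 \ H p.1
  have hQ : ∀ p, Q p ⊆ s.P p.1 := by
    intro p; simp only [Q]; split_ifs
    · exact hH2 _
    · exact Set.sdiff_subset
  obtain ⟨y, h1, -, h3, h4, h5⟩ := lp' m (fun p j => (μ j).real (Q p)) (fun p => s.x p.1)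
    (fun p => s.hx _)
  refine ⟨⟨s.ι × Bool, inferInstance, Q, y, ?_, fun p => (hQ p).trans (s.sub _), ?_, ?_, h1, ?_, ?_⟩, ?_⟩
  · intro p; simp only [Q]; split_ifs
    · exact hH1 _
    · exact (s.meas _).diff (hH1 _)
  · rintro ⟨i, b⟩ ⟨k, c⟩ h
    by_cases hik : i = k
    · subst hik
      cases b <;> cases c
      · exact absurd rfl h
      · simpa [Q] using Set.disjoint_sdiff_left
      · simpa [Q] using Set.disjoint_sdiff_right
      · exact absurd rfl h
    · exact Set.disjoint_of_subset (hQ _) (hQ _) (s.disj i k hik)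
  · rintro ⟨i, b⟩
    have := s.size i
    have e : ν.real S / 2 ^ (n+1) = ν.real S / 2 ^ n / 2 := by rw [pow_succ, div_div]
    rw [e]
    cases b
    · simp only [Q, Bool.false_eq_true, if_false]
      rw [measureReal_sdiff (hH2 i) (hH1 i), hH3]; linarith
    · simp only [Q, if_true]
      rw [hH3]; linarith
  · intro j
    rw [h4 j, ← s.sum j, Fintype.sum_prod_type]
    refine Finset.sum_congr rfl fun i _ => ?_
    simp only [Fintype.sum_bool, Q, Bool.false_eq_true, if_false, if_true]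
    rw [measureReal_sdiff (hH2 i) (hH1 i)]; ring
  · refine le_trans ?_ (h5.trans (Nat.le_succ m))
    exact le_of_eq (by congr)
  · intro z hz
    simp only [St.T, Set.mem_iUnion] at hz ⊢
    obtain ⟨i, hi, hz⟩ := hz
    by_cases h : z ∈ H i
    · exact ⟨(i, true), h3 _ hi, by simpa [Q] using h⟩
    · exact ⟨(i, false), h3 _ hi, by simpa [Q] using ⟨hz, h⟩⟩

lemma lyap (μ : Fin m → Measure ℝ) [∀ j, IsFiniteMeasure (μ j)] [∀ j, NullSingletonClass (μ j)]
    (S : Set ℝ) (hS : MeasurableSet S) (hS1 : S ⊆ Set.Icc 0 1) (t : ℝ) (h0 : 0 ≤ t) (h1 : t ≤ 1) :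
    ∃ T : Set ℝ, MeasurableSet T ∧ T ⊆ S ∧ ∀ j, (μ j).real T = t * (μ j).real S := by
  classical
  let ν : Measure ℝ := ∑ j, μ j
  haveI : IsFiniteMeasure ν := by
    constructor
    simp [ν, Measure.coe_finset_sum, ENNReal.sum_lt_top]
  haveI : NullSingletonClass ν := ⟨fun z => by simp [ν, Measure.coe_finset_sum]⟩
  have hν : ∀ j A, (μ j).real A ≤ ν.real A := by
    intro j A
    apply ENNReal.toReal_mono (measure_ne_top _ _)
    simp only [ν, Measure.coe_finset_sum, Finset.sum_apply]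
    exact Finset.single_le_sum (f := fun j => μ j A) (fun _ _ => zero_le) (Finset.mem_univ j)
  let s0 : St m μ ν S (fun j => t * (μ j).real S) 0 :=
    ⟨Unit, inferInstance, fun _ => S, fun _ => t, fun _ => hS, fun _ => subset_rfl,
      fun i k h => absurd rfl h, fun _ => by simp, fun _ => ⟨h0, h1⟩, fun j => by simp,
      (Finset.card_le_univ _).trans (by simp)⟩
  have hstep := fun n (s : St m μ ν S (fun j => t * (μ j).real S) n) => St.step hS1 s
  choose f hf using hstep
  let s : ∀ n, St m μ ν S (fun j => t * (μ j).real S) n := fun n => Nat.rec s0 (fun n s => f n s) n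
  have hmono : Monotone fun n => (s n).T := monotone_nat_of_le_succ fun n => hf n (s n)
  refine ⟨⋃ n, (s n).T, MeasurableSet.iUnion fun n => (s n).measT,
    Set.iUnion_subset fun n => (s n).subT, fun j => ?_⟩
  have l1 : Tendsto (fun n => (μ j).real (s n).T) atTop (𝓝 ((μ j).real (⋃ n, (s n).T))) :=
    (ENNReal.tendsto_toReal (measure_ne_top _ _)).comp (tendsto_measure_iUnion_atTop hmono)
  have l0 : Tendsto (fun n : ℕ => t * (μ j).real S - ((m:ℝ) + 1) * (ν.real S / 2 ^ n)) atTop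
      (𝓝 (t * (μ j).real S - ((m:ℝ) + 1) * 0)) :=
    tendsto_const_nhds.sub (Tendsto.const_mul _
      (tendsto_const_nhds.div_atTop (tendsto_pow_atTop_atTop_of_one_lt (by norm_num))))
  rw [mul_zero, sub_zero] at l0
  have l2 : Tendsto (fun n => (μ j).real (s n).T) atTop (𝓝 (t * (μ j).real S)) :=
    tendsto_of_tendsto_of_tendsto_of_le_of_le l0 tendsto_const_nhds
      (fun n => ((s n).approx hν j).2) (fun n => ((s n).approx hν j).1)
  exact tendsto_nhds_unique l1 l2

end Pool.Agent.H61.Ck
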