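import Pool.Agent.H61.CkC
open MeasureTheory Set Finset

namespace Pool.Agent.H61.Ck

lemma cutL {m : ℕ} (μ : Fin m → Measure ℝ) [∀ j, IsFiniteMeasure (μ j)]
    [∀ j, NullSingletonClass (μ j)] (b : Fin m → ℝ) (r : ℕ) :
    ∀ (S : Set ℝ) (_ : MeasurableSet S) (_ : S ⊆ Set.Icc 0 1) (x : Fin (r+1) → ℝ)
      (_ : ∀ c, 0 ≤ x c) (_ : ∀ j, (μ j).real S = (∑ c, x c) * b j),
      ∃ A : Fin (r+1) → Set ℝ, (∀ c, MeasurableSet (A c)) ∧ (∀ c d, c ≠ d → Disjoint (A c) (A d)) ∧
        (⋃ c, A c) = S ∧ ∀ c j, (μ j).real (A c) = x c * b j := by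
  induction r with
  | zero =>
    intro S hS _ x _ hx
    refine ⟨fun _ => S, fun _ => hS, fun c d h => absurd (Fin.ext (by omega)) h, by simp [Set.iUnion_const], ?_⟩
    intro c j
    have : c = 0 := Fin.ext (by omega)
    subst this
    simpa using hx j
  | succ r ih =>
    intro S hS hS1 x hx0 hx
    have hs : 0 ≤ ∑ i : Fin (r+1), x i.succ := Finset.sum_nonneg fun i _ => hx0 _
    have he : ∑ c, x c = x 0 + ∑ i : Fin (r+1), x i.succ := Fin.sum_univ_succ x
    have hx00 := hx0 0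
    obtain ⟨T, hT, hTS, hTm⟩ := lyap μ S hS hS1 (x 0 / ∑ c, x c) (div_nonneg hx00 (by linarith))
      (div_le_one_of_le₀ (by linarith) (by linarith))
    have hTm' : ∀ j, (μ j).real T = x 0 * b j := by
      intro j
      rw [hTm, hx]
      by_cases h : ∑ c, x c = 0
      · have : x 0 = 0 := by linarith
        simp [this]
      · field_simp
    obtain ⟨B, hB, hBd, hBu, hBm⟩ := ih (S \ T) (hS.diff hT) (Set.sdiff_subset.trans hS1)
      (fun i => x i.succ) (fun i => hx0 _)
      (fun j => by rw [measureReal_sdiff hTS hT, hTm', hx, he]; ring)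
    have hBs : ∀ i, Disjoint T (B i) := by
      intro i
      have : B i ⊆ S \ T := hBu ▸ Set.subset_iUnion B i
      exact Set.disjoint_of_subset_right this Set.disjoint_sdiff_right
    refine ⟨Fin.cons T B, ?_, ?_, ?_, ?_⟩
    · intro c; refine Fin.cases ?_ (fun i => ?_) c
      · simpa using hT
      · simpa using hB i
    · intro c d
      refine Fin.cases ?_ (fun i => ?_) c <;> refine Fin.cases ?_ (fun j => ?_) d
      · intro h; exact absurd rfl h
      · intro _; simpa using hBs j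
      · intro _; simpa using (hBs i).symm
      · intro h; simpa using hBd i j (fun e => h (by rw [e]))
    · ext y
      rw [Set.mem_iUnion, Fin.exists_fin_succ]
      simp only [Fin.cons_zero, Fin.cons_succ]
      have : (∃ i, y ∈ B i) ↔ y ∈ S \ T := by rw [← hBu]; simp
      rw [this]
      constructor
      · rintro (h | h)
        · exact hTS h
        · exact h.1
      · intro h
        by_cases hy : y ∈ T
        · exact Or.inl hy
        · exact Or.inr ⟨h, hy⟩
    · intro c; refine Fin.cases ?_ (fun i => ?_) c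
      · simpa using hTm'
      · simpa using hBm i

lemma cutF {m : ℕ} (μ : Fin m → Measure ℝ) [∀ j, IsFiniteMeasure (μ j)]
    [∀ j, NullSingletonClass (μ j)] (r : ℕ) (x : Fin (r+1) → ℝ)
    (h0 : ∀ c, 0 ≤ x c) (h1 : ∑ c, x c = 1) :
    ∃ A : Fin (r+1) → Set ℝ, (∀ c, MeasurableSet (A c)) ∧ (∀ c d, c ≠ d → Disjoint (A c) (A d)) ∧
      (⋃ c, A c) = Set.Icc 0 1 ∧ (∀ c j, (μ j).real (A c) = x c * (μ j).real (Set.Icc 0 1)) ∧
      ∀ c, x c = 1 → A c = Set.Icc 0 1 := by
  classical
  by_cases h : ∃ c, x c = 1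
  · obtain ⟨c0, hc0⟩ := h
    have hz : ∀ c, c ≠ c0 → x c = 0 := by
      intro c hc
      have e := Finset.add_sum_erase univ x (Finset.mem_univ c0)
      have : ∑ d ∈ univ.erase c0, x d = 0 := by linarith
      exact (Finset.sum_eq_zero_iff_of_nonneg (fun d _ => h0 d)).1 this c (by simp [hc])
    refine ⟨fun c => if c = c0 then Set.Icc 0 1 else ∅, ?_, ?_, ?_, ?_, ?_⟩
    · intro c; dsimp only; split_ifs
      · exact measurableSet_Icc
      · exact MeasurableSet.empty
    · intro c d hcd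
      by_cases h1 : c = c0
      · have : d ≠ c0 := fun h2 => hcd (h1.trans h2.symm)
        simp [this]
      · simp [h1]
    · apply Set.Subset.antisymm
      · apply Set.iUnion_subset
        intro c; split_ifs <;> simp
      · refine subset_trans ?_ (Set.subset_iUnion _ c0); simp
    · intro c j
      by_cases h1 : c = c0
      · simp [h1, hc0]
      · simp [h1, hz c h1]
    · intro c hc
      by_cases h1 : c = c0
      · simp [h1]
      · rw [hz c h1] at hc; norm_num at hc
  · obtain ⟨A, a1, a2, a3, a4⟩ := cutL μ (fun j => (μ j).real (Set.Icc 0 1)) r _ measurableSet_Icc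
      subset_rfl x h0 (fun j => by rw [h1, one_mul])
    exact ⟨A, a1, a2, a3, a4, fun c hc => absurd ⟨c, hc⟩ h⟩

noncomputable def φ (r : ℕ) : ℝ := if r = 1 then 0 else 7 / 3 - 4 / (2 * (r:ℝ) - 1)

lemma φ_step (r s : ℕ) (hr : 2 ≤ r) (hs : 1 ≤ s) (h : 2 * s ≤ r + 1) : 1 / (s:ℝ) + φ s ≤ φ r := by
  have hr' : (2:ℝ) ≤ r := by exact_mod_cast hr
  have h' : 2 * (s:ℝ) ≤ r + 1 := by exact_mod_cast h
  have e : φ r = 7 / 3 - 4 / (2 * (r:ℝ) - 1) := by simp [φ, show r ≠ 1 by omega]
  rw [e]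
  by_cases h1 : s = 1
  · subst h1
    have : 4 / (2 * (r:ℝ) - 1) ≤ 4 / 3 := div_le_div_of_nonneg_left (by norm_num) (by norm_num) (by linarith)
    simp [φ]; linarith
  · have hs' : (2:ℝ) ≤ s := by exact_mod_cast (show 2 ≤ s by omega)
    have e2 : φ s = 7 / 3 - 4 / (2 * (s:ℝ) - 1) := by simp [φ, h1]
    have a1 : 4 / (2 * (r:ℝ) - 1) ≤ 4 / (4 * (s:ℝ) - 3) :=
      div_le_div_of_nonneg_left (by norm_num) (by linarith) (by linarith)
    have a2 : 1 / (s:ℝ) + 4 / (4 * (s:ℝ) - 3) ≤ 4 / (2 * (s:ℝ) - 1) := by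
      rw [div_add_div _ _ (by linarith) (by linarith), div_le_div_iff₀ (by nlinarith) (by linarith)]
      nlinarith
    rw [e2]; linarith

lemma cnt {ι : Type} [DecidableEq ι] (F G H : Finset ι) (u : ι → ℝ) (hu : ∀ i, u i ≤ 1)
    (h : ∀ i ∈ F, i ∉ G → i ∉ H → u i = 0) : ∑ i ∈ F, u i ≤ (G.card : ℝ) + H.card := by
  calc ∑ i ∈ F, u i ≤ ∑ i ∈ F, (if i ∈ G ∪ H then (1:ℝ) else 0) := by
        apply Finset.sum_le_sum
        intro i hi
        split_ifs with h1
        · exact hu i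
        · rw [Finset.mem_union, not_or] at h1
          exact (h i hi h1.1 h1.2).le
    _ = ((F.filter fun i => i ∈ G ∪ H).card : ℝ) := by simp
    _ ≤ _ := by
        have : (F.filter fun i => i ∈ G ∪ H).card ≤ G.card + H.card :=
          (Finset.card_le_card (fun i hi => (Finset.mem_filter.1 hi).2)).trans (Finset.card_union_le _ _)
        exact_mod_cast this

lemma half {ι : Type} [DecidableEq ι] (F : Finset ι) (u w y : ι → ℝ) (s : ℝ)
    (G : Finset ι) (hG : G ⊆ F) (hu : ∀ i ∈ G, u i = 1)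
    (hy : ∑ k ∈ G, y k * w k = (∑ k ∈ G, w k) / s) :
    ∑ k ∈ F, (if k ∈ G then y k else u k / s) * w k = (∑ k ∈ F, u k * w k) / s := by
  rw [← Finset.sum_sdiff hG, ← Finset.sum_sdiff hG, add_div]
  congr 1
  · rw [Finset.sum_div]
    refine Finset.sum_congr rfl fun k hk => ?_
    rw [if_neg (Finset.mem_sdiff.1 hk).2]; ring
  · rw [Finset.sum_congr rfl (fun k hk => by rw [if_pos hk]), hy]
    congr 1
    exact Finset.sum_congr rfl fun k hk => by rw [hu k hk, one_mul]

end Pool.Agent.H61.Ck
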