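import Pool.Agent.H61.CkD
open MeasureTheory Set Finset

namespace Pool.Agent.H61.Ck

lemma split {ι : Type} [Fintype ι] [DecidableEq ι] (m : ℕ) (v : ι → Fin m → ℝ) (F : Finset ι)
    (θ : ℝ) (h0 : 0 ≤ θ) (h1 : θ ≤ 1) :
    ∃ x : ι → ℝ, (∀ i, 0 ≤ x i ∧ x i ≤ 1) ∧ (∀ j, ∑ i ∈ F, x i * v i j = θ * ∑ i ∈ F, v i j) ∧
      (univ.filter fun i => x i ≠ 0 ∧ x i ≠ 1).card ≤ m ∧
      θ * F.card ≤ (F.filter fun i => x i = 1).card + ((m:ℝ) + 1) ∧
      (1 - θ) * F.card ≤ (F.filter fun i => x i = 0).card + ((m:ℝ) + 1) := by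
  classical
  let x0 : ι → ℝ := fun i => if i ∈ F then θ else 0
  obtain ⟨y, a1, a2, -, a4, a5⟩ := lp' (m+1) (fun i => Fin.cons 1 (v i)) x0 (fun i => by
    simp only [x0]; split_ifs <;> simp [h0, h1])
  obtain ⟨x, b1, b2, b3, b4, b5⟩ := lp' m v y a1
  have hy : ∀ i, i ∉ F → y i = 0 := fun i hi => a2 i (by simp [x0, hi])
  have hres : ∀ (u w : ι → ℝ), (∀ i, i ∉ F → u i = 0) → ∑ i, u i * w i = ∑ i ∈ F, u i * w i :=
    fun u w hu => (Finset.sum_subset (Finset.subset_univ F) (fun i _ hi => by simp [hu i hi])).symm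
  have hx0 : ∀ w : ι → ℝ, ∑ i, x0 i * w i = θ * ∑ i ∈ F, w i := by
    intro w
    rw [hres x0 w (fun i hi => by simp [x0, hi]), Finset.mul_sum]
    exact Finset.sum_congr rfl fun i hi => by simp [x0, hi]
  have hc : ∑ i ∈ F, y i = θ * F.card := by
    have := a4 0
    simp only [Fin.cons_zero] at this
    rw [hx0, hres y _ hy] at this
    simpa using this
  have a5' : (((univ.filter fun i => y i ≠ 0 ∧ y i ≠ 1).card : ℕ) : ℝ) ≤ (m:ℝ) + 1 := by
    exact_mod_cast a5
  refine ⟨x, b1, ?_, b5, ?_, ?_⟩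
  · intro j
    have := a4 j.succ
    simp only [Fin.cons_succ] at this
    rw [← hres x _ (fun i hi => b2 i (hy i hi)), b4, this, hx0]
  · have := cnt F (F.filter fun i => x i = 1) (univ.filter fun i => y i ≠ 0 ∧ y i ≠ 1) y
      (fun i => (a1 i).2) (fun i hi g1 g2 => by
        by_contra h
        simp only [Finset.mem_filter, Finset.mem_univ, true_and, hi, not_and, not_not] at g1 g2
        exact g1 (b3 i (g2 h)))
    linarith
  · have := cnt F (F.filter fun i => x i = 0) (univ.filter fun i => y i ≠ 0 ∧ y i ≠ 1)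
      (fun i => 1 - y i) (fun i => by linarith [(a1 i).1]) (fun i hi g1 g2 => by
        simp only [Finset.mem_filter, Finset.mem_univ, true_and, hi, not_and, not_not] at g1 g2
        have : y i = 1 := g2 (fun h => g1 (b2 i h))
        simp [this])
    rw [Finset.sum_sub_distrib, hc] at this
    simp only [Finset.sum_const, nsmul_eq_mul, mul_one] at this
    linarith

open Classical in
lemma recur {ι κ : Type} [Fintype ι] (m : ℕ) (v : ι → Fin m → ℝ) (r : ℕ) :
    ∀ (_ : 1 ≤ r) (C : Finset κ) (_ : C.card = r) (F : Finset ι),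
    ∃ y : ι → κ → ℝ, (∀ k c, 0 ≤ y k c) ∧ (∀ k ∈ F, ∑ c ∈ C, y k c = 1) ∧
      (∀ c ∈ C, ∀ j, ∑ k ∈ F, y k c * v k j = (∑ k ∈ F, v k j) / r) ∧
      (F.filter fun k => ∀ c ∈ C, y k c ≠ 1).card ≤ m * (r - 1) ∧
      ∀ c ∈ C, (F.card : ℝ) / r - φ r * ((m:ℝ) + 1) ≤ (F.filter fun k => y k c = 1).card := by
  induction r using Nat.strong_induction_on with
  | _ r ih =>
  intro hr C hC F
  by_cases h1 : r = 1
  · subst h1
    obtain ⟨c0, rfl⟩ := Finset.card_eq_one.1 hC
    refine ⟨fun _ _ => 1, fun _ _ => zero_le_one, by simp, by simp, by simp, by simp [φ]⟩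
  have hr2 : 2 ≤ r := by omega
  obtain ⟨C1, hC1, hc1⟩ := Finset.exists_subset_card_eq (s := C) (n := r / 2) (by omega)
  obtain ⟨s, hs⟩ : ∃ s, s = r / 2 := ⟨_, rfl⟩
  obtain ⟨t, ht⟩ : ∃ t, t = r - r / 2 := ⟨_, rfl⟩
  rw [← hs] at hc1
  have hc2 : (C \ C1).card = t := by rw [Finset.card_sdiff_of_subset hC1]; omega
  have hst : (r:ℝ) = s + t := by exact_mod_cast (show r = s + t by omega)
  have hs0 : (0:ℝ) < s := by exact_mod_cast (show 0 < s by omega)
  have ht0 : (0:ℝ) < t := by exact_mod_cast (show 0 < t by omega)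
  have hr0 : (0:ℝ) < r := by linarith
  obtain ⟨x, x1, x2, x3, x4, x5⟩ := split m v F ((s:ℝ) / r) (by positivity)
    (div_le_one_of_le₀ (by linarith) hr0.le)
  set F1 := F.filter fun i => x i = 1 with hF1
  set F2 := F.filter fun i => x i = 0 with hF2
  obtain ⟨y1, a0, a1, a2, a3, a4⟩ := ih s (by omega) (by omega) C1 hc1 F1
  obtain ⟨y2, b0, b1, b2, b3, b4⟩ := ih t (by omega) (by omega) (C \ C1) hc2 F2
  have hm : (0:ℝ) ≤ (m:ℝ) + 1 := by positivity
  refine ⟨fun k c => if c ∈ C1 then (if k ∈ F1 then y1 k c else x k / s)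
    else (if k ∈ F2 then y2 k c else (1 - x k) / t), ?_, ?_, ?_, ?_, ?_⟩
  · intro k c
    dsimp only
    split_ifs
    · exact a0 _ _
    · exact div_nonneg (x1 k).1 hs0.le
    · exact b0 _ _
    · exact div_nonneg (by linarith [(x1 k).2]) ht0.le
  · intro k hk
    rw [← Finset.sum_sdiff hC1, Finset.sum_congr rfl (fun c hc => if_neg (Finset.mem_sdiff.1 hc).2),
      Finset.sum_congr rfl (fun c (hc : c ∈ C1) => if_pos hc)]
    have e1 : ∑ c ∈ C1, (if k ∈ F1 then y1 k c else x k / s) = x k := by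
      by_cases h : k ∈ F1
      · simp only [h, if_true]; rw [a1 k h, (Finset.mem_filter.1 h).2]
      · simp only [h, if_false, Finset.sum_const, hc1, nsmul_eq_mul]; field_simp
    have e2 : ∑ c ∈ C \ C1, (if k ∈ F2 then y2 k c else (1 - x k) / t) = 1 - x k := by
      by_cases h : k ∈ F2
      · simp only [h, if_true]; rw [b1 k h, (Finset.mem_filter.1 h).2, sub_zero]
      · simp only [h, if_false, Finset.sum_const, hc2, nsmul_eq_mul]; field_simp
    rw [e1, e2]; ring
  · intro c hc j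
    by_cases h : c ∈ C1
    · simp only [h, if_true]
      rw [half F x (fun k => v k j) (fun k => y1 k c) s F1 (Finset.filter_subset _ _)
        (fun i hi => (Finset.mem_filter.1 hi).2) (a2 c h j), x2]
      field_simp
    · simp only [h, if_false]
      rw [half F (fun k => 1 - x k) (fun k => v k j) (fun k => y2 k c) t F2 (Finset.filter_subset _ _)
        (fun i hi => by rw [(Finset.mem_filter.1 hi).2, sub_zero])
        (b2 c (Finset.mem_sdiff.2 ⟨hc, h⟩) j)]
      simp only [sub_mul, one_mul, Finset.sum_sub_distrib, x2]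
      field_simp
      rw [hst]; ring
  · refine le_trans (Finset.card_le_card (t := (univ.filter fun i => x i ≠ 0 ∧ x i ≠ 1) ∪
      ((F1.filter fun k => ∀ c ∈ C1, y1 k c ≠ 1) ∪ (F2.filter fun k => ∀ c ∈ C \ C1, y2 k c ≠ 1))) ?_) ?_
    · intro k hk
      obtain ⟨hkF, hk⟩ := Finset.mem_filter.1 hk
      rw [Finset.mem_union, Finset.mem_union]
      by_cases g1 : x k = 1
      · have g : k ∈ F1 := Finset.mem_filter.2 ⟨hkF, g1⟩
        refine Or.inr (Or.inl (Finset.mem_filter.2 ⟨g, fun c hc => ?_⟩))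
        simpa [hc, g] using hk c (hC1 hc)
      · by_cases g0 : x k = 0
        · have g : k ∈ F2 := Finset.mem_filter.2 ⟨hkF, g0⟩
          refine Or.inr (Or.inr (Finset.mem_filter.2 ⟨g, fun c hc => ?_⟩))
          have hc' := Finset.mem_sdiff.1 hc
          simpa [hc'.2, g] using hk c hc'.1
        · exact Or.inl (Finset.mem_filter.2 ⟨Finset.mem_univ _, g0, g1⟩)
    · refine (Finset.card_union_le _ _).trans ((Nat.add_le_add x3
        ((Finset.card_union_le _ _).trans (Nat.add_le_add a3 b3))).trans (le_of_eq ?_))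
      have : r - 1 = 1 + ((s - 1) + (t - 1)) := by omega
      rw [this]; ring
  · intro c hc
    by_cases h : c ∈ C1
    · have q := φ_step r s hr2 (by omega) (by omega)
      have q1 := a4 c h
      have q2 : ((F1.filter fun k => y1 k c = 1).card : ℝ) ≤ (F.filter fun k =>
          (if c ∈ C1 then (if k ∈ F1 then y1 k c else x k / s)
            else (if k ∈ F2 then y2 k c else (1 - x k) / t)) = 1).card := by
        norm_cast
        apply Finset.card_le_card
        intro k hk
        obtain ⟨g1, g2⟩ := Finset.mem_filter.1 hk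
        exact Finset.mem_filter.2 ⟨(Finset.mem_filter.1 g1).1, by simp [h, g1, g2]⟩
      have q3 : (F.card : ℝ) / r - 1 / s * ((m:ℝ) + 1) ≤ (F1.card : ℝ) / s := by
        rw [le_div_iff₀ hs0]
        have : ((F.card : ℝ) / r - 1 / s * ((m:ℝ) + 1)) * s = s / r * F.card - (m + 1) := by
          field_simp
        rw [this]; linarith
      have q4 := mul_le_mul_of_nonneg_right q hm
      refine le_trans ?_ q2
      linarith
    · have q := φ_step r t hr2 (by omega) (by omega)
      have q1 := b4 c (Finset.mem_sdiff.2 ⟨hc, h⟩)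
      have q2 : ((F2.filter fun k => y2 k c = 1).card : ℝ) ≤ (F.filter fun k =>
          (if c ∈ C1 then (if k ∈ F1 then y1 k c else x k / s)
            else (if k ∈ F2 then y2 k c else (1 - x k) / t)) = 1).card := by
        norm_cast
        apply Finset.card_le_card
        intro k hk
        obtain ⟨g1, g2⟩ := Finset.mem_filter.1 hk
        exact Finset.mem_filter.2 ⟨(Finset.mem_filter.1 g1).1, by simp [h, g1, g2]⟩
      have q3 : (F.card : ℝ) / r - 1 / t * ((m:ℝ) + 1) ≤ (F2.card : ℝ) / t := by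
        rw [le_div_iff₀ ht0]
        have : ((F.card : ℝ) / r - 1 / t * ((m:ℝ) + 1)) * t = (1 - s / r) * F.card - (m + 1) := by
          field_simp
          rw [hst]; ring
        rw [this]; linarith
      have q4 := mul_le_mul_of_nonneg_right q hm
      refine le_trans ?_ q2
      linarith

end Pool.Agent.H61.Ck
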