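import Pool.Agent.H61.CkE
open MeasureTheory Set Finset

namespace Pool.Agent.H61.Ck

section
variable {ι : Type} [Fintype ι] [DecidableEq ι] {m : ℕ} (v : ι → Fin m → ℝ) (b : Fin m → ℝ)
  (F : Finset ι) (q : ℕ)

def Feas (w : ι → ℝ) : Prop := (∀ i, 0 ≤ w i ∧ w i ≤ 1) ∧ ∀ j, ∑ i, w i * v i j = b j
def KK (β : ℝ) (w : ι → ℝ) : Prop := q ≤ (F.filter fun i => w i = β).card

omit [Fintype ι] in
lemma cover (hN : 2 * q + m ≤ F.card) (G : Finset ι) (hG : G.card ≤ m + 1) (w w' : ι → ℝ)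
    (h : ∀ i, i ∉ G → w i = w' i ∧ (w i = 0 ∨ w i = 1)) : KK F q 1 w' ∨ KK F q 0 w := by
  unfold KK
  have h1 : F.card ≤ (G ∪ ((F.filter fun i => w' i = 1) ∪ (F.filter fun i => w i = 0))).card := by
    apply Finset.card_le_card
    intro i hi
    simp only [Finset.mem_union, Finset.mem_filter, hi, true_and]
    by_cases g : i ∈ G
    · exact Or.inl g
    · rcases (h i g).2 with e | e
      · exact Or.inr (Or.inr e)
      · exact Or.inr (Or.inl ((h i g).1 ▸ e))
  have h2 := Finset.card_union_le G ((F.filter fun i => w' i = 1) ∪ (F.filter fun i => w i = 0))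
  have h3 := Finset.card_union_le (F.filter fun i => w' i = 1) (F.filter fun i => w i = 0)
  omega

lemma round (w : ι → ℝ) (hw : Feas v b w) : ∃ y, Feas v b y ∧ (∀ i, w i = 0 ∨ w i = 1 → y i = w i) ∧
    ∃ G : Finset ι, G.card ≤ m ∧ ∀ i, i ∉ G → y i = 0 ∨ y i = 1 := by
  obtain ⟨y, h1, h2, h3, h4, h5⟩ := lp' m v w hw.1
  refine ⟨y, ⟨h1, fun j => (h4 j).trans (hw.2 j)⟩, ?_, _, h5, ?_⟩
  · rintro i (h | h)
    · rw [h2 i h, h]
    · rw [h3 i h, h]
  · intro i hi
    simp only [Finset.mem_filter, Finset.mem_univ, true_and, not_and_or, not_not] at hi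
    exact hi

omit [Fintype ι] [DecidableEq ι] in
lemma KK.mono {β : ℝ} (hβ : β = 0 ∨ β = 1) {w y : ι → ℝ} (h : KK F q β w)
    (hy : ∀ i, w i = 0 ∨ w i = 1 → y i = w i) : KK F q β y := by
  refine le_trans h (Finset.card_le_card fun i hi => ?_)
  obtain ⟨g1, g2⟩ := Finset.mem_filter.1 hi
  exact Finset.mem_filter.2 ⟨g1, by rw [hy i (g2 ▸ hβ), g2]⟩

lemma both (hN : 2 * q + m ≤ F.card) (D : Finset ι) :
    ∀ (x y : ι → ℝ), Feas v b x → Feas v b y → (∀ i, i ∉ D → x i = y i ∧ (x i = 0 ∨ x i = 1)) →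
      KK F q 1 x → KK F q 0 y →
      ∃ w, Feas v b w ∧ (∀ i, i ∉ D → w i = x i) ∧ KK F q 1 w ∧ KK F q 0 w := by
  induction D using Finset.strongInduction with
  | H D ih =>
  intro x0 y0 hx0 hy0 hE0 kx0 ky0
  by_cases hD : D.card ≤ m + 1
  · rcases cover F q hN D hD x0 y0 hE0 with h | h
    · exact ⟨y0, hy0, fun i hi => (hE0 i hi).1.symm, h, ky0⟩
    · exact ⟨x0, hx0, fun _ _ => rfl, kx0, h⟩
  by_contra hcon
  let Fc : (ι → ℝ) → Prop := fun w => Feas v b w ∧ ∀ i, i ∉ D → w i = x0 i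
  have key : ∀ x y, Fc x → Fc y → KK F q 1 x → KK F q 0 y → ∀ i ∈ D, x i = y i →
      (x i = 0 ∨ x i = 1) → False := by
    intro x y hx hy kx ky i hi e1 e2
    obtain ⟨w, w1, w2, w3⟩ := ih (D.erase i) (Finset.erase_ssubset hi) x y hx.1 hy.1 (fun k hk => by
      by_cases hki : k = i
      · subst hki; exact ⟨e1, e2⟩
      · have : k ∉ D := fun h => hk (Finset.mem_erase.2 ⟨hki, h⟩)
        rw [hx.2 k this, hy.2 k this]; exact ⟨rfl, (hE0 k this).2⟩) kx ky
    exact hcon ⟨w, w1, fun k hk => (w2 k (fun h => hk (Finset.mem_of_mem_erase h))).trans (hx.2 k hk), w3⟩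
  have rnd : ∀ w, Fc w → ∃ y, Fc y ∧ (∀ i, w i = 0 ∨ w i = 1 → y i = w i) ∧
      (KK F q 1 y ∨ KK F q 0 y) ∧ ∃ i ∈ D, y i = 0 ∨ y i = 1 := by
    intro w hw
    obtain ⟨y, y1, y2, G, hG, y3⟩ := round v b w hw.1
    refine ⟨y, ⟨y1, fun i hi => ?_⟩, y2, cover F q hN G (by omega) y y (fun i hi => ⟨rfl, y3 i hi⟩), ?_⟩
    · rw [y2 i (by rw [hw.2 i hi]; exact (hE0 i hi).2), hw.2 i hi]
    · obtain ⟨i, hi, hi'⟩ := Finset.exists_mem_notMem_of_card_lt_card (s := G) (t := D) (by omega)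
      exact ⟨i, hi, y3 i hi'⟩
  obtain ⟨x, hx, rx, -, ix, hix, eix⟩ := rnd x0 ⟨hx0, fun _ _ => rfl⟩
  obtain ⟨y, hy, ry, -, iy, hiy, eiy⟩ := rnd y0 ⟨hy0, fun i hi => (hE0 i hi).1.symm⟩
  have kx := kx0.mono F q (Or.inr rfl) rx
  have ky := ky0.mono F q (Or.inl rfl) ry
  let u : ι → ℝ := fun i => (x i + y i) / 2
  have hu : ∀ i ∈ D, 0 < u i ∧ u i < 1 := by
    intro i hi
    have a := hx.1.1 i
    have c := hy.1.1 i
    constructor
    · by_contra h
      simp only [u, not_lt] at h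
      exact key x y hx hy kx ky i hi (by linarith [a.1, c.1]) (Or.inl (by linarith [a.1, c.1]))
    · by_contra h
      simp only [u, not_lt] at h
      exact key x y hx hy kx ky i hi (by linarith [a.2, c.2]) (Or.inr (by linarith [a.2, c.2]))
  have hub : ∀ j, ∑ i, u i * v i j = b j := by
    intro j
    have : ∀ i, u i * v i j = (x i * v i j + y i * v i j) / 2 := fun i => by simp only [u]; ring
    simp only [this, ← Finset.sum_div, Finset.sum_add_distrib, hx.1.2 j, hy.1.2 j]; ring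
  let ψ : (D → ℝ) →ₗ[ℝ] (Fin m → ℝ) := Fintype.linearCombination ℝ (fun i : D => v i.1)
  have hψ : ∀ g j, ψ g j = ∑ i : D, g i * v i.1 j := by
    intro g j; simp [ψ, Fintype.linearCombination_apply, Finset.sum_apply]
  have hrk : 1 < Module.rank ℝ (LinearMap.ker ψ) := by
    have h1 := LinearMap.finrank_range_add_finrank_ker ψ
    have h2 := Submodule.finrank_le (LinearMap.range ψ)
    simp only [Module.finrank_fin_fun, Module.finrank_fintype_fun_eq_card, Fintype.card_coe,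
      Fintype.card_fin] at h1 h2
    rw [← Module.finrank_eq_rank]
    exact_mod_cast (by omega : 1 < Module.finrank ℝ (LinearMap.ker ψ))
  have hconn := (isConnected_compl_singleton_of_one_lt_rank hrk 0).isPreconnected
  let val : Bool → ℝ := fun c => if c = true then 1 else 0
  let s : D × Bool → LinearMap.ker ψ → ℝ := fun l g => g.1 l.1 / (val l.2 - u l.1.1)
  have hsc : ∀ l, Continuous (s l) := fun l =>
    ((continuous_apply l.1).comp continuous_subtype_val).div_const _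
  let act : D × Bool → Set (LinearMap.ker ψ) := fun l => {g | ∀ l', s l' g ≤ s l g}
  have hact : ∀ l, IsClosed (act l) := fun l => by
    simp only [act, Set.ofPred_forall]
    exact isClosed_iInter fun l' => isClosed_le (hsc l') (hsc l)
  let T : ℝ → D × Bool → Prop := fun β l => ∃ w, Fc w ∧ w l.1.1 = val l.2 ∧ KK F q β w
  have hval : ∀ c, val c = 0 ∨ val c = 1 := fun c => by cases c <;> simp [val]
  have pt : ∀ g : LinearMap.ker ψ, g ≠ 0 → ∀ l, g ∈ act l →
      ∃ w, Fc w ∧ (KK F q 1 w ∨ KK F q 0 w) ∧ ∀ l', g ∈ act l' → w l'.1.1 = val l'.2 := by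
    intro g hg l hl
    have hpos : 0 < s l g := by
      obtain ⟨i, hi⟩ : ∃ i, g.1 i ≠ 0 := by
        by_contra h
        exact hg (Subtype.ext (funext fun i => not_not.1 fun e => h ⟨i, e⟩))
      have hui := hu i.1 i.2
      rcases lt_or_gt_of_ne hi with h | h
      · refine lt_of_lt_of_le ?_ (hl (i, false))
        exact div_pos_of_neg_of_neg h (by simp [val, hui.1])
      · refine lt_of_lt_of_le ?_ (hl (i, true))
        exact div_pos h (by simp [val, hui.2])
    let p : ι → ℝ := fun i => u i + (if h : i ∈ D then g.1 ⟨i, h⟩ else 0) / s l g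
    have hp : Fc p := by
      refine ⟨⟨fun i => ?_, fun j => ?_⟩, fun i hi => ?_⟩
      · by_cases h : i ∈ D
        · have hui := hu i h
          have a1 : g.1 ⟨i, h⟩ / (0 - u i) ≤ s l g := by simpa [s, val] using hl (⟨i, h⟩, false)
          have a2 : g.1 ⟨i, h⟩ / (1 - u i) ≤ s l g := by simpa [s, val] using hl (⟨i, h⟩, true)
          rw [div_le_iff_of_neg (by linarith)] at a1
          rw [div_le_iff₀ (by linarith)] at a2
          simp only [p, h, dif_pos]
          constructor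
          · have : 0 - u i ≤ g.1 ⟨i, h⟩ / s l g := by rw [le_div_iff₀ hpos]; linarith
            linarith
          · have : g.1 ⟨i, h⟩ / s l g ≤ 1 - u i := by rw [div_le_iff₀ hpos]; linarith
            linarith
        · have a := hx.1.1 i
          have c := hy.1.1 i
          simp only [p, h, dif_neg, not_false_eq_true, zero_div, add_zero, u]
          constructor <;> linarith [a.1, a.2, c.1, c.2]
      · have h0 : ∑ i : D, g.1 i * v i.1 j = 0 := by rw [← hψ, g.2]; rfl
        have h1 : ∑ i, (if h : i ∈ D then g.1 ⟨i, h⟩ else 0) * v i j = 0 := by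
          refine Eq.trans ?_ h0
          rw [← Finset.sum_subset (Finset.subset_univ D) (fun i _ hi => by simp [hi]),
            ← Finset.sum_coe_sort D]
          exact Finset.sum_congr rfl fun i _ => by simp [i.2]
        simp only [p, add_mul, Finset.sum_add_distrib, hub, div_mul_eq_mul_div, ← Finset.sum_div, h1]
        simp
      · simp only [p, hi, dif_neg, not_false_eq_true, zero_div, add_zero, u, hx.2 i hi, hy.2 i hi]
        ring
    obtain ⟨w, w1, w2, w3, -⟩ := rnd p hp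
    refine ⟨w, w1, w3, fun l' hl' => ?_⟩
    have e : s l' g = s l g := le_antisymm (hl l') (hl' l)
    have hne : val l'.2 - u l'.1.1 ≠ 0 := by
      have := hu l'.1.1 l'.1.2
      rcases hval l'.2 with h | h <;> rw [h] <;> intro h' <;> linarith [this.1, this.2]
    have : p l'.1.1 = val l'.2 := by
      have e2 : g.1 l'.1 = s l g * (val l'.2 - u l'.1.1) := by rw [← e]; simp only [s]; field_simp
      simp only [p, l'.1.2, dif_pos, Subtype.coe_eta]
      rw [e2]; field_simp; ring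
    rw [w2 _ (this ▸ hval _), this]
  have start : ∀ β w, Fc w → KK F q β w → (∃ i ∈ D, w i = 0 ∨ w i = 1) →
      (({0}ᶜ : Set (LinearMap.ker ψ)) ∩ ⋃ l, ⋃ _ : T β l, act l).Nonempty := by
    rintro β w hw kw ⟨i, hi, ei⟩
    have hmem : (fun k : D => w k.1 - u k.1) ∈ LinearMap.ker ψ := by
      rw [LinearMap.mem_ker]; funext j
      rw [hψ, Finset.sum_coe_sort D (fun k => (w k - u k) * v k j),
        Finset.sum_subset (Finset.subset_univ D) (fun k _ hk => by
          simp only [u, hx.2 k hk, hy.2 k hk, hw.2 k hk]; ring)]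
      simp only [sub_mul, Finset.sum_sub_distrib, hub, hw.1.2 j, sub_self]; rfl
    have hui := hu i hi
    obtain ⟨c, hc⟩ : ∃ c, w i = val c := by
      rcases ei with h | h
      · exact ⟨false, by simp [val, h]⟩
      · exact ⟨true, by simp [val, h]⟩
    have hne : val c - u i ≠ 0 := by
      rcases hval c with h | h <;> rw [h] <;> intro h' <;> linarith [hui.1, hui.2]
    refine ⟨⟨_, hmem⟩, ?_, Set.mem_iUnion.2 ⟨(⟨i, hi⟩, c), Set.mem_iUnion.2 ⟨⟨w, hw, hc, kw⟩, ?_⟩⟩⟩
    · intro h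
      have := congrFun (congrArg Subtype.val (Set.mem_singleton_iff.1 h)) ⟨i, hi⟩
      exact hne (hc ▸ this)
    · rintro ⟨k, d⟩
      have hk := hu k.1 k.2
      have a := hw.1.1 k.1
      simp only [s, hc, div_self hne]
      cases d
      · simp only [val, Bool.false_eq_true, if_false]
        rw [div_le_iff_of_neg (by linarith [hk.1])]; linarith [a.1]
      · simp only [val, if_true]
        rw [div_le_iff₀ (by linarith [hk.2])]; linarith [a.2]
  have hcl : ∀ β, IsClosed (⋃ l, ⋃ _ : T β l, act l) := fun β =>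
    isClosed_iUnion_of_finite fun l => isClosed_iUnion_of_finite fun _ => hact l
  obtain ⟨g, hg0, g1, g2⟩ := isPreconnected_closed_iff.1 hconn _ _ (hcl 1) (hcl 0) (by
    intro g hg
    obtain ⟨l, -, hl⟩ := Finset.exists_max_image (univ : Finset (D × Bool)) (fun l => s l g)
      ⟨(⟨ix, hix⟩, true), Finset.mem_univ _⟩
    have hl' : g ∈ act l := fun l' => hl l' (Finset.mem_univ _)
    obtain ⟨w, w1, w2, w3⟩ := pt g hg l hl'
    rcases w2 with h | h
    · exact Or.inl (Set.mem_iUnion.2 ⟨l, Set.mem_iUnion.2 ⟨⟨w, w1, w3 l hl', h⟩, hl'⟩⟩)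
    · exact Or.inr (Set.mem_iUnion.2 ⟨l, Set.mem_iUnion.2 ⟨⟨w, w1, w3 l hl', h⟩, hl'⟩⟩))
    (start 1 x hx kx ⟨ix, hix, eix⟩) (start 0 y hy ky ⟨iy, hiy, eiy⟩)
  simp only [Set.mem_iUnion] at g1 g2
  obtain ⟨l1, ⟨w1, f1, e1, k1⟩, a1⟩ := g1
  obtain ⟨l2, ⟨w2, f2, e2, k2⟩, a2⟩ := g2
  obtain ⟨w, f, k, e⟩ := pt g hg0 l1 a1
  rcases k with h | h
  · exact key w w2 f f2 h k2 _ l2.1.2 ((e l2 a2).trans e2.symm) (by rw [e l2 a2]; exact hval _)
  · exact key w1 w f1 f k1 h _ l1.1.2 (e1.trans (e l1 a1).symm) (by rw [e1]; exact hval _)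

end

lemma split2 {ι : Type} [Fintype ι] [DecidableEq ι] (m : ℕ) (v : ι → Fin m → ℝ) (F : Finset ι) :
    ∃ x : ι → ℝ, (∀ i, 0 ≤ x i ∧ x i ≤ 1) ∧ (∀ j, ∑ i ∈ F, x i * v i j = 1 / 2 * ∑ i ∈ F, v i j) ∧
      (univ.filter fun i => x i ≠ 0 ∧ x i ≠ 1).card ≤ m ∧
      (F.card - m) / 2 ≤ (F.filter fun i => x i = 1).card ∧
      (F.card - m) / 2 ≤ (F.filter fun i => x i = 0).card := by
  classical
  let b : Fin m → ℝ := fun j => 1 / 2 * ∑ i ∈ F, v i j
  have hres : ∀ (u w : ι → ℝ), (∀ i, i ∉ F → u i = 0) → ∑ i, u i * w i = ∑ i ∈ F, u i * w i :=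
    fun u w hu => (Finset.sum_subset (Finset.subset_univ F) (fun i _ hi => by simp [hu i hi])).symm
  let x0 : ι → ℝ := fun i => if i ∈ F then 1 / 2 else 0
  have hx0 : Feas v b x0 := by
    refine ⟨fun i => by simp only [x0]; split_ifs <;> norm_num, fun j => ?_⟩
    rw [hres x0 _ (fun i hi => by simp [x0, hi])]
    simp only [b, Finset.mul_sum]
    exact Finset.sum_congr rfl fun i hi => by simp [x0, hi]
  have main : ∃ w, Feas v b w ∧ (∀ i, i ∉ F → w i = 0) ∧ KK F ((F.card - m) / 2) 1 w ∧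
      KK F ((F.card - m) / 2) 0 w := by
    by_cases hN : F.card < m
    · exact ⟨x0, hx0, fun i hi => by simp [x0, hi], by unfold KK; omega, by unfold KK; omega⟩
    have hN' : 2 * ((F.card - m) / 2) + m ≤ F.card := by omega
    obtain ⟨y, y1, y2, G, hG, y3⟩ := round v b x0 hx0
    have hy : ∀ i, i ∉ F → y i = 0 := fun i hi => by
      rw [y2 i (Or.inl (by simp [x0, hi]))]; simp [x0, hi]
    let y' : ι → ℝ := fun i => if i ∈ F then 1 - y i else 0
    have hy' : ∀ i, i ∉ F → y' i = 0 := fun i hi => by simp [y', hi]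
    have f' : Feas v b y' := by
      refine ⟨fun i => ?_, fun j => ?_⟩
      · have := y1.1 i
        simp only [y']; split_ifs
        · constructor <;> linarith [this.1, this.2]
        · norm_num
      · have h := y1.2 j
        rw [hres y _ hy] at h
        rw [hres y' _ hy', Finset.sum_congr rfl (fun i hi => show y' i * v i j = v i j - y i * v i j by
          simp only [y', hi, if_true]; ring), Finset.sum_sub_distrib, h]
        simp only [b]; ring
    rcases cover F _ hN' G (by omega) y y (fun i hi => ⟨rfl, y3 i hi⟩) with h | h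
    · obtain ⟨w, w1, w2, w3⟩ := both v b F _ hN' F y y' y1 f'
        (fun i hi => ⟨by rw [hy i hi, hy' i hi], Or.inl (hy i hi)⟩) h
        (le_trans h (Finset.card_le_card fun i hi => by
          obtain ⟨g1, g2⟩ := Finset.mem_filter.1 hi
          exact Finset.mem_filter.2 ⟨g1, by simp [y', g1, g2]⟩))
      exact ⟨w, w1, fun i hi => (w2 i hi).trans (hy i hi), w3⟩
    · obtain ⟨w, w1, w2, w3⟩ := both v b F _ hN' F y' y f' y1
        (fun i hi => ⟨by rw [hy i hi, hy' i hi], Or.inl (hy' i hi)⟩)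
        (le_trans h (Finset.card_le_card fun i hi => by
          obtain ⟨g1, g2⟩ := Finset.mem_filter.1 hi
          exact Finset.mem_filter.2 ⟨g1, by simp [y', g1, g2]⟩)) h
      exact ⟨w, w1, fun i hi => (w2 i hi).trans (hy' i hi), w3⟩
  obtain ⟨w, w1, w2, w3, w4⟩ := main
  obtain ⟨x, b1, b2, b3, b4, b5⟩ := lp' m v w w1.1
  have hm : ∀ i, w i = 0 ∨ w i = 1 → x i = w i := by
    rintro i (h | h)
    · rw [b2 i h, h]
    · rw [b3 i h, h]
  refine ⟨x, b1, fun j => ?_, b5, w3.mono F _ (Or.inr rfl) hm, w4.mono F _ (Or.inl rfl) hm⟩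
  rw [← hres x _ (fun i hi => b2 i (w2 i hi)), b4, w1.2 j]

lemma arith (N m s a : ℕ) (hs : 1 ≤ s) (h : (N - m) / 2 ≤ a) :
    (N - m * (2 * s - 1)) / (2 * s) ≤ (a - m * (s - 1)) / s := by
  rw [Nat.le_div_iff_mul_le (by omega)]
  have h1 := Nat.div_mul_le_self (N - m * (2 * s - 1)) (2 * s)
  obtain ⟨t, rfl⟩ : ∃ t, s = t + 1 := ⟨s - 1, by omega⟩
  have e1 : m * (2 * (t + 1) - 1) = m + 2 * (m * t) := by
    rw [show 2 * (t + 1) - 1 = 1 + 2 * t by omega]; ring
  rw [e1] at h1 ⊢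
  rw [Nat.add_sub_cancel]
  generalize (N - (m + 2 * (m * t))) / (2 * (t + 1)) = Q at h1 ⊢
  have e2 : Q * (2 * (t + 1)) = 2 * (Q * (t + 1)) := by ring
  rw [e2] at h1
  omega

open Classical in
lemma recur2 {ι κ : Type} [Fintype ι] (m : ℕ) (v : ι → Fin m → ℝ) (e : ℕ) :
    ∀ (C : Finset κ) (_ : C.card = 2 ^ e) (F : Finset ι),
    ∃ y : ι → κ → ℝ, (∀ k c, 0 ≤ y k c) ∧ (∀ k ∈ F, ∑ c ∈ C, y k c = 1) ∧
      (∀ c ∈ C, ∀ j, ∑ k ∈ F, y k c * v k j = (∑ k ∈ F, v k j) / ((2 ^ e : ℕ) : ℝ)) ∧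
      (F.filter fun k => ∀ c ∈ C, y k c ≠ 1).card ≤ m * (2 ^ e - 1) ∧
      ∀ c ∈ C, (F.card - m * (2 ^ e - 1)) / 2 ^ e ≤ (F.filter fun k => y k c = 1).card := by
  induction e with
  | zero =>
    intro C hC F
    obtain ⟨c0, rfl⟩ := Finset.card_eq_one.1 hC
    refine ⟨fun _ _ => 1, fun _ _ => zero_le_one, by simp, by simp, by simp, by simp⟩
  | succ e ih =>
  intro C hC F
  rw [pow_succ'] at hC ⊢
  have hs1 : 1 ≤ 2 ^ e := Nat.one_le_two_pow
  generalize 2 ^ e = s at *
  obtain ⟨C1, hC1, hc1⟩ := Finset.exists_subset_card_eq (s := C) (n := s) (by omega)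
  have hc2 : (C \ C1).card = s := by rw [Finset.card_sdiff_of_subset hC1]; omega
  have hs0 : (0:ℝ) < s := by exact_mod_cast (show 0 < s by omega)
  obtain ⟨x, x1, x2, x3, x4, x5⟩ := split2 m v F
  set F1 := F.filter fun i => x i = 1 with hF1
  set F2 := F.filter fun i => x i = 0 with hF2
  obtain ⟨y1, a0, a1, a2, a3, a4⟩ := ih C1 hc1 F1
  obtain ⟨y2, b0, b1, b2, b3, b4⟩ := ih (C \ C1) hc2 F2
  refine ⟨fun k c => if c ∈ C1 then (if k ∈ F1 then y1 k c else x k / s)
    else (if k ∈ F2 then y2 k c else (1 - x k) / s), ?_, ?_, ?_, ?_, ?_⟩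
  · intro k c
    dsimp only
    split_ifs
    · exact a0 _ _
    · exact div_nonneg (x1 k).1 hs0.le
    · exact b0 _ _
    · exact div_nonneg (by linarith [(x1 k).2]) hs0.le
  · intro k hk
    rw [← Finset.sum_sdiff hC1, Finset.sum_congr rfl (fun c hc => if_neg (Finset.mem_sdiff.1 hc).2),
      Finset.sum_congr rfl (fun c (hc : c ∈ C1) => if_pos hc)]
    have e1 : ∑ c ∈ C1, (if k ∈ F1 then y1 k c else x k / s) = x k := by
      by_cases h : k ∈ F1
      · simp only [h, if_true]; rw [a1 k h, (Finset.mem_filter.1 h).2]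
      · simp only [h, if_false, Finset.sum_const, hc1, nsmul_eq_mul]; field_simp
    have e2 : ∑ c ∈ C \ C1, (if k ∈ F2 then y2 k c else (1 - x k) / s) = 1 - x k := by
      by_cases h : k ∈ F2
      · simp only [h, if_true]; rw [b1 k h, (Finset.mem_filter.1 h).2, sub_zero]
      · simp only [h, if_false, Finset.sum_const, hc2, nsmul_eq_mul]; field_simp
    rw [e1, e2]; ring
  · intro c hc j
    by_cases h : c ∈ C1
    · simp only [h, if_true]
      rw [half F x (fun k => v k j) (fun k => y1 k c) s F1 (Finset.filter_subset _ _)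
        (fun i hi => (Finset.mem_filter.1 hi).2) (a2 c h j), x2]
      push_cast
      field_simp
    · simp only [h, if_false]
      rw [half F (fun k => 1 - x k) (fun k => v k j) (fun k => y2 k c) s F2 (Finset.filter_subset _ _)
        (fun i hi => by rw [(Finset.mem_filter.1 hi).2, sub_zero])
        (b2 c (Finset.mem_sdiff.2 ⟨hc, h⟩) j)]
      simp only [sub_mul, one_mul, Finset.sum_sub_distrib, x2]
      push_cast
      field_simp
      ring
  · refine le_trans (Finset.card_le_card (t := (univ.filter fun i => x i ≠ 0 ∧ x i ≠ 1) ∪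
      ((F1.filter fun k => ∀ c ∈ C1, y1 k c ≠ 1) ∪ (F2.filter fun k => ∀ c ∈ C \ C1, y2 k c ≠ 1))) ?_) ?_
    · intro k hk
      obtain ⟨hkF, hk⟩ := Finset.mem_filter.1 hk
      rw [Finset.mem_union, Finset.mem_union]
      by_cases g1 : x k = 1
      · have g : k ∈ F1 := Finset.mem_filter.2 ⟨hkF, g1⟩
        refine Or.inr (Or.inl (Finset.mem_filter.2 ⟨g, fun c hc => ?_⟩))
        simpa [hc, g] using hk c (hC1 hc)
      · by_cases g0 : x k = 0
        · have g : k ∈ F2 := Finset.mem_filter.2 ⟨hkF, g0⟩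
          refine Or.inr (Or.inr (Finset.mem_filter.2 ⟨g, fun c hc => ?_⟩))
          have hc' := Finset.mem_sdiff.1 hc
          simpa [hc'.2, g] using hk c hc'.1
        · exact Or.inl (Finset.mem_filter.2 ⟨Finset.mem_univ _, g0, g1⟩)
    · refine (Finset.card_union_le _ _).trans ((Nat.add_le_add x3
        ((Finset.card_union_le _ _).trans (Nat.add_le_add a3 b3))).trans (le_of_eq ?_))
      have : 2 * s - 1 = 1 + ((s - 1) + (s - 1)) := by omega
      rw [this]; ring
  · intro c hc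
    by_cases h : c ∈ C1
    · refine (arith _ m s _ hs1 x4).trans ((a4 c h).trans (Finset.card_le_card ?_))
      intro k hk
      obtain ⟨g1, g2⟩ := Finset.mem_filter.1 hk
      exact Finset.mem_filter.2 ⟨(Finset.mem_filter.1 g1).1, by simp [h, g1, g2]⟩
    · refine (arith _ m s _ hs1 x5).trans ((b4 c (Finset.mem_sdiff.2 ⟨hc, h⟩)).trans
        (Finset.card_le_card ?_))
      intro k hk
      obtain ⟨g1, g2⟩ := Finset.mem_filter.1 hk
      exact Finset.mem_filter.2 ⟨(Finset.mem_filter.1 g1).1, by simp [h, g1, g2]⟩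

end Pool.Agent.H61.Ck
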