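import Pool.Agent.H61.CkF
open MeasureTheory Set Finset

namespace Pool.Agent.H61.Ck

open Classical in
def Good {ι : Type} (κ : Type) [Fintype ι] {m : ℕ} (v : ι → Fin m → ℝ) (r : ℕ) (l : ℝ) : Prop :=
  ∀ (C : Finset κ) (_ : C.card = r) (F : Finset ι),
    ∃ y : ι → κ → ℝ, (∀ k c, 0 ≤ y k c) ∧ (∀ k ∈ F, ∑ c ∈ C, y k c = 1) ∧
      (∀ c ∈ C, ∀ j, ∑ k ∈ F, y k c * v k j = (∑ k ∈ F, v k j) / r) ∧
      (F.filter fun k => ∀ c ∈ C, y k c ≠ 1).card ≤ m * (r - 1) ∧
      ∀ c ∈ C, (F.card : ℝ) / r - l * ((m:ℝ) + 1) ≤ (F.filter fun k => y k c = 1).card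

variable {ι κ : Type} [Fintype ι] {m : ℕ} {v : ι → Fin m → ℝ}

lemma Good.mono {r : ℕ} {l l' : ℝ} (h : Good κ v r l) (hl : l ≤ l') : Good κ v r l' := by
  intro C hC F
  obtain ⟨y, h1, h2, h3, h4, h5⟩ := h C hC F
  refine ⟨y, h1, h2, h3, h4, fun c hc => le_trans ?_ (h5 c hc)⟩
  have := mul_le_mul_of_nonneg_right hl (show (0:ℝ) ≤ (m:ℝ) + 1 by positivity)
  linarith

lemma good_pow (e : ℕ) : Good κ v (2 ^ e) (1 - 1 / ((2 ^ e : ℕ) : ℝ)) := by
  intro C hC F
  obtain ⟨y, h1, h2, h3, h4, h5⟩ := recur2 m v e C hC F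
  refine ⟨y, h1, h2, h3, h4, fun c hc => le_trans ?_ (Nat.cast_le.2 (h5 c hc))⟩
  have hs1 : 1 ≤ 2 ^ e := Nat.one_le_two_pow
  generalize 2 ^ e = s at *
  obtain ⟨t, rfl⟩ : ∃ t, s = t + 1 := ⟨s - 1, by omega⟩
  rw [Nat.add_sub_cancel]
  have a := Nat.lt_mul_div_succ (F.card - m * t) (Nat.succ_pos t)
  generalize (F.card - m * t) / (t + 1) = Q at a ⊢
  have a2 : F.card + 1 ≤ m * t + (t + 1) * (Q + 1) := by
    rw [Nat.succ_eq_add_one] at a; omega
  have a3 : (F.card : ℝ) + 1 ≤ m * t + (t + 1) * (Q + 1) := by exact_mod_cast a2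
  have ht : (0:ℝ) < (t:ℝ) + 1 := by positivity
  push_cast
  have e1 : (F.card : ℝ) / (t + 1) - (1 - 1 / ((t:ℝ) + 1)) * ((m:ℝ) + 1)
      = (F.card - t * (m + 1)) / (t + 1) := by field_simp; ring
  rw [e1, div_le_iff₀ ht]
  nlinarith

open Classical in
lemma Good.comb {s t : ℕ} {l1 l2 l : ℝ} (g1 : Good κ v s l1) (g2 : Good κ v t l2) (hs : 1 ≤ s)
    (ht : 1 ≤ t) (q1 : 1 / (s:ℝ) + l1 ≤ l) (q2 : 1 / (t:ℝ) + l2 ≤ l) : Good κ v (s + t) l := by
  intro C hC F
  obtain ⟨r, hr⟩ : ∃ r, r = s + t := ⟨_, rfl⟩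
  rw [← hr] at hC ⊢
  obtain ⟨C1, hC1, hc1⟩ := Finset.exists_subset_card_eq (s := C) (n := s) (by omega)
  have hc2 : (C \ C1).card = t := by rw [Finset.card_sdiff_of_subset hC1]; omega
  have hst : (r:ℝ) = s + t := by exact_mod_cast hr
  have hs0 : (0:ℝ) < s := by exact_mod_cast (show 0 < s by omega)
  have ht0 : (0:ℝ) < t := by exact_mod_cast (show 0 < t by omega)
  have hr0 : (0:ℝ) < r := by linarith
  obtain ⟨x, x1, x2, x3, x4, x5⟩ := split m v F ((s:ℝ) / r) (by positivity)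
    (div_le_one_of_le₀ (by linarith) hr0.le)
  set F1 := F.filter fun i => x i = 1 with hF1
  set F2 := F.filter fun i => x i = 0 with hF2
  obtain ⟨y1, a0, a1, a2, a3, a4⟩ := g1 C1 hc1 F1
  obtain ⟨y2, b0, b1, b2, b3, b4⟩ := g2 (C \ C1) hc2 F2
  have hm : (0:ℝ) ≤ (m:ℝ) + 1 := by positivity
  refine ⟨fun k c => if c ∈ C1 then (if k ∈ F1 then y1 k c else x k / s)
    else (if k ∈ F2 then y2 k c else (1 - x k) / t), ?_, ?_, ?_, ?_, ?_⟩
  · intro k c
    dsimp only
    split_ifs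
    · exact a0 _ _
    · exact div_nonneg (x1 k).1 hs0.le
    · exact b0 _ _
    · exact div_nonneg (by linarith [(x1 k).2]) ht0.le
  · intro k hk
    rw [← Finset.sum_sdiff hC1, Finset.sum_congr rfl (fun c hc => if_neg (Finset.mem_sdiff.1 hc).2),
      Finset.sum_congr rfl (fun c (hc : c ∈ C1) => if_pos hc)]
    have e1 : ∑ c ∈ C1, (if k ∈ F1 then y1 k c else x k / s) = x k := by
      by_cases h : k ∈ F1
      · simp only [h, if_true]; rw [a1 k h, (Finset.mem_filter.1 h).2]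
      · simp only [h, if_false, Finset.sum_const, hc1, nsmul_eq_mul]; field_simp
    have e2 : ∑ c ∈ C \ C1, (if k ∈ F2 then y2 k c else (1 - x k) / t) = 1 - x k := by
      by_cases h : k ∈ F2
      · simp only [h, if_true]; rw [b1 k h, (Finset.mem_filter.1 h).2, sub_zero]
      · simp only [h, if_false, Finset.sum_const, hc2, nsmul_eq_mul]; field_simp
    rw [e1, e2]; ring
  · intro c hc j
    by_cases h : c ∈ C1
    · simp only [h, if_true]
      rw [half F x (fun k => v k j) (fun k => y1 k c) s F1 (Finset.filter_subset _ _)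
        (fun i hi => (Finset.mem_filter.1 hi).2) (a2 c h j), x2]
      field_simp
    · simp only [h, if_false]
      rw [half F (fun k => 1 - x k) (fun k => v k j) (fun k => y2 k c) t F2 (Finset.filter_subset _ _)
        (fun i hi => by rw [(Finset.mem_filter.1 hi).2, sub_zero])
        (b2 c (Finset.mem_sdiff.2 ⟨hc, h⟩) j)]
      simp only [sub_mul, one_mul, Finset.sum_sub_distrib, x2]
      field_simp
      rw [hst]; ring
  · refine le_trans (Finset.card_le_card (t := (univ.filter fun i => x i ≠ 0 ∧ x i ≠ 1) ∪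
      ((F1.filter fun k => ∀ c ∈ C1, y1 k c ≠ 1) ∪ (F2.filter fun k => ∀ c ∈ C \ C1, y2 k c ≠ 1))) ?_) ?_
    · intro k hk
      obtain ⟨hkF, hk⟩ := Finset.mem_filter.1 hk
      rw [Finset.mem_union, Finset.mem_union]
      by_cases g1 : x k = 1
      · have g : k ∈ F1 := Finset.mem_filter.2 ⟨hkF, g1⟩
        refine Or.inr (Or.inl (Finset.mem_filter.2 ⟨g, fun c hc => ?_⟩))
        simpa [hc, g] using hk c (hC1 hc)
      · by_cases g0 : x k = 0
        · have g : k ∈ F2 := Finset.mem_filter.2 ⟨hkF, g0⟩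
          refine Or.inr (Or.inr (Finset.mem_filter.2 ⟨g, fun c hc => ?_⟩))
          have hc' := Finset.mem_sdiff.1 hc
          simpa [hc'.2, g] using hk c hc'.1
        · exact Or.inl (Finset.mem_filter.2 ⟨Finset.mem_univ _, g0, g1⟩)
    · refine (Finset.card_union_le _ _).trans ((Nat.add_le_add x3
        ((Finset.card_union_le _ _).trans (Nat.add_le_add a3 b3))).trans (le_of_eq ?_))
      have : r - 1 = 1 + ((s - 1) + (t - 1)) := by omega
      rw [this]; ring
  · intro c hc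
    by_cases h : c ∈ C1
    · have q := q1
      have q1 := a4 c h
      have q2 : ((F1.filter fun k => y1 k c = 1).card : ℝ) ≤ (F.filter fun k =>
          (if c ∈ C1 then (if k ∈ F1 then y1 k c else x k / s)
            else (if k ∈ F2 then y2 k c else (1 - x k) / t)) = 1).card := by
        norm_cast
        apply Finset.card_le_card
        intro k hk
        obtain ⟨g1, g2⟩ := Finset.mem_filter.1 hk
        exact Finset.mem_filter.2 ⟨(Finset.mem_filter.1 g1).1, by simp [h, g1, g2]⟩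
      have q3 : (F.card : ℝ) / r - 1 / s * ((m:ℝ) + 1) ≤ (F1.card : ℝ) / s := by
        rw [le_div_iff₀ hs0]
        have : ((F.card : ℝ) / r - 1 / s * ((m:ℝ) + 1)) * s = s / r * F.card - (m + 1) := by
          field_simp
        rw [this]; linarith
      have q4 := mul_le_mul_of_nonneg_right q hm
      refine le_trans ?_ q2
      linarith
    · have q := q2
      have q1 := b4 c (Finset.mem_sdiff.2 ⟨hc, h⟩)
      have q2 : ((F2.filter fun k => y2 k c = 1).card : ℝ) ≤ (F.filter fun k =>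
          (if c ∈ C1 then (if k ∈ F1 then y1 k c else x k / s)
            else (if k ∈ F2 then y2 k c else (1 - x k) / t)) = 1).card := by
        norm_cast
        apply Finset.card_le_card
        intro k hk
        obtain ⟨g1, g2⟩ := Finset.mem_filter.1 hk
        exact Finset.mem_filter.2 ⟨(Finset.mem_filter.1 g1).1, by simp [h, g1, g2]⟩
      have q3 : (F.card : ℝ) / r - 1 / t * ((m:ℝ) + 1) ≤ (F2.card : ℝ) / t := by
        rw [le_div_iff₀ ht0]
        have : ((F.card : ℝ) / r - 1 / t * ((m:ℝ) + 1)) * t = (1 - s / r) * F.card - (m + 1) := by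
          field_simp
          rw [hst]; ring
        rw [this]; linarith
      have q4 := mul_le_mul_of_nonneg_right q hm
      refine le_trans ?_ q2
      linarith

lemma good_add (T : ℕ) (hT : 1 ≤ T) (j : ℕ) : ∀ (u t : ℕ) (l : ℝ), u < 2 ^ j → T ≤ t →
    1 - 1 / (T:ℝ) ≤ l → Good κ v t l → Good κ v (t + u) (l + j / (T:ℝ)) := by
  have hT0 : (0:ℝ) < T := by exact_mod_cast hT
  have hT1 : (0:ℝ) < 1 / (T:ℝ) := by positivity
  induction j with
  | zero =>
    intro u t l hu _ _ g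
    have : u = 0 := by omega
    subst this
    simpa using g
  | succ j ih =>
    intro u t l hu ht hl g
    have e : l + ((j + 1 : ℕ) : ℝ) / T = (l + 1 / T) + j / T := by push_cast; ring
    rw [e]
    by_cases h : u < 2 ^ j
    · exact (ih u t l h ht hl g).mono (by linarith)
    · have h2 : 1 / (t:ℝ) ≤ 1 / (T:ℝ) := one_div_le_one_div_of_le hT0 (by exact_mod_cast ht)
      have g' : Good κ v (t + 2 ^ j) (l + 1 / T) :=
        Good.comb g (good_pow j) (by omega) Nat.one_le_two_pow (by linarith) (by linarith)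
      have := ih (u - 2 ^ j) (t + 2 ^ j) (l + 1 / T) (by rw [pow_succ] at hu; omega)
        (le_add_right ht) (by linarith) g'
      rwa [show t + 2 ^ j + (u - 2 ^ j) = t + u by omega] at this

lemma good_all (r : ℕ) (hr : 1 ≤ r) :
    Good κ v r (1 + ((Nat.log 2 r : ℝ) - 1) / 2 ^ Nat.log 2 r) := by
  have h1 : 2 ^ Nat.log 2 r ≤ r := Nat.pow_log_le_self 2 (by omega)
  have h2 : r < 2 ^ (Nat.log 2 r + 1) := Nat.lt_pow_succ_log_self (by norm_num) r
  generalize Nat.log 2 r = k at *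
  have := good_add (κ := κ) (v := v) (2 ^ k) Nat.one_le_two_pow k (r - 2 ^ k) (2 ^ k) _
    (by rw [pow_succ] at h2; omega) le_rfl le_rfl (good_pow k)
  rw [show 2 ^ k + (r - 2 ^ k) = r by omega] at this
  refine this.mono (le_of_eq ?_)
  push_cast
  ring

end Pool.Agent.H61.Ck
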