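import Pool.Agent.H61.CkG
open MeasureTheory Set Finset

namespace Pool.Agent.H61.Ck

variable {ι κ : Type} [Fintype ι] {m : ℕ} {v : ι → Fin m → ℝ}

lemma good_set (T : ℕ) (hT : 1 ≤ T) (l : ℝ) (hl : 1 - 1 / (T:ℝ) ≤ l) (g : Good κ v T l)
    (S : Finset ℕ) : Good κ v (T + ∑ a ∈ S, 2 ^ a) (l + S.card / (T:ℝ)) := by
  have hT0 : (0:ℝ) < T := by exact_mod_cast hT
  induction S using Finset.induction_on with
  | empty => simpa using g
  | insert a S ha ih =>
    rw [Finset.sum_insert ha, Finset.card_insert_of_notMem ha]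
    have h2 : 1 / ((T + ∑ a ∈ S, 2 ^ a : ℕ):ℝ) ≤ 1 / (T:ℝ) :=
      one_div_le_one_div_of_le hT0 (Nat.cast_le.2 (Nat.le_add_right _ _))
    have h3 : (0:ℝ) ≤ S.card / (T:ℝ) := by positivity
    have e : l + ((S.card + 1 : ℕ) : ℝ) / T = (l + S.card / T) + 1 / T := by push_cast; ring
    rw [e, show T + (2 ^ a + ∑ a ∈ S, 2 ^ a) = (T + ∑ a ∈ S, 2 ^ a) + 2 ^ a by ring]
    exact Good.comb ih (good_pow a) (by omega) Nat.one_le_two_pow (by linarith) (by linarith)

lemma good_bits (r : ℕ) (hr : 1 ≤ r) :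
    Good κ v r (1 + ((r.bitIndices.toFinset.card : ℝ) - 2) / 2 ^ Nat.log 2 r) := by
  have h1 : 2 ^ Nat.log 2 r ≤ r := Nat.pow_log_le_self 2 (by omega)
  have h2 : r < 2 ^ (Nat.log 2 r + 1) := Nat.lt_pow_succ_log_self (by norm_num) r
  generalize Nat.log 2 r = k at *
  have hS : ∑ i ∈ r.bitIndices.toFinset, 2 ^ i = r := Finset.twoPowSum_toFinset_bitIndices r
  have hk : k ∈ r.bitIndices.toFinset := by
    by_contra hk
    have : ∑ i ∈ r.bitIndices.toFinset, 2 ^ i < 2 ^ k := by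
      apply Nat.geomSum_lt le_rfl
      intro a ha
      have h3 : 2 ^ a ≤ r := hS ▸ Finset.single_le_sum (f := fun i => 2 ^ i) (fun _ _ => Nat.zero_le _) ha
      have h4 : a < k + 1 := (Nat.pow_lt_pow_iff_right (by norm_num)).1 (lt_of_le_of_lt h3 h2)
      have : a ≠ k := fun e => hk (e ▸ ha)
      omega
    omega
  generalize r.bitIndices.toFinset = S at *
  have := good_set (κ := κ) (v := v) (2 ^ k) Nat.one_le_two_pow _ le_rfl (good_pow k) (S.erase k)
  rw [Finset.add_sum_erase S (fun i => 2 ^ i) hk, hS] at this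
  refine this.mono (le_of_eq ?_)
  rw [← Finset.card_erase_add_one hk]
  push_cast
  ring

end Pool.Agent.H61.Ck
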