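import Pool.Agent.H61.L2

set_option autoImplicit false
open Filter Topology Set

namespace Pool.Agent.H61.ConvCyc

section General
variable {A : Type*} [NormedRing A] [NormedAlgebra ℂ A]

noncomputable def q (a : A) : A :=
  (9 / 10 : ℝ) • a + (1 / 40 : ℝ) • a ^ 3 + (1 / 16 : ℝ) • a ^ 5 + (1 / 80 : ℝ) • a ^ 7

theorem q_eq (u : A) : q (algebraMap ℂ A (2 * Complex.I) + u) =
    algebraMap ℂ A (2 * Complex.I) + ((284 / 80 * Complex.I : ℂ) • u ^ 2 + (362 / 80 : ℂ) • u ^ 3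
      + (-230 / 80 * Complex.I : ℂ) • u ^ 4 + (-79 / 80 : ℂ) • u ^ 5
      + (14 / 80 * Complex.I : ℂ) • u ^ 6 + (1 / 80 : ℂ) • u ^ 7) := by
  open Polynomial in
  have h : C (9 / 10 : ℂ) * (C (2 * Complex.I) + X) + C (1 / 40 : ℂ) * (C (2 * Complex.I) + X) ^ 3
      + C (1 / 16 : ℂ) * (C (2 * Complex.I) + X) ^ 5 + C (1 / 80 : ℂ) * (C (2 * Complex.I) + X) ^ 7
      = C (2 * Complex.I) + (C (284 / 80 * Complex.I : ℂ) * X ^ 2 + C (362 / 80 : ℂ) * X ^ 3
      + C (-230 / 80 * Complex.I : ℂ) * X ^ 4 + C (-79 / 80 : ℂ) * X ^ 5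
      + C (14 / 80 * Complex.I : ℂ) * X ^ 6 + C (1 / 80 : ℂ) * X ^ 7 : ℂ[X]) := by
    apply Polynomial.funext
    intro z
    simp only [eval_add, eval_mul, eval_pow, eval_C, eval_X]
    have hI := Complex.I_mul_I
    have h2 : Complex.I ^ 2 = -1 := Complex.I_sq
    have h3 : Complex.I ^ 3 = -Complex.I := by rw [pow_succ, h2]; ring
    have h4 : Complex.I ^ 4 = 1 := Complex.I_pow_four
    have h5 : Complex.I ^ 5 = Complex.I := by rw [pow_succ, h4]; ring
    have h6 : Complex.I ^ 6 = -1 := by rw [pow_succ, h5, hI]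
    have h7 : Complex.I ^ 7 = -Complex.I := by rw [pow_succ, h6]; ring
    ring_nf
    rw [h2, h3, h4, h5, h6, h7]
    ring
  have h2 := congrArg (Polynomial.aeval u) h
  simp only [map_add, map_mul, map_pow, Polynomial.aeval_C, Polynomial.aeval_X,
    ← Algebra.smul_def] at h2
  simp only [map_mul, ← Algebra.smul_def]
  simp only [smul_mul_assoc, ← Algebra.smul_def, mul_smul] at h2 ⊢
  rw [← h2, q]
  simp only [← Complex.coe_smul]
  push_cast
  rfl

theorem norm_q_le [NormOneClass A] (u : A) (hu : ‖u‖ ≤ 1 / 26) :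
    ‖q (algebraMap ℂ A (2 * Complex.I) + u) - algebraMap ℂ A (2 * Complex.I)‖ ≤ ‖u‖ / 2 := by
  rw [q_eq, add_sub_cancel_left]
  have h0 := norm_nonneg u
  have hp : ∀ k : ℕ, ‖u ^ (k + 2)‖ ≤ ‖u‖ / 26 := by
    intro k
    have h1 : ‖u‖ ^ k ≤ 1 := pow_le_one₀ h0 (by linarith)
    calc ‖u ^ (k + 2)‖ ≤ ‖u‖ ^ (k + 2) := norm_pow_le _ _
      _ = ‖u‖ ^ k * (‖u‖ * ‖u‖) := by ring
      _ ≤ 1 * (‖u‖ * (1 / 26)) := by gcongr
      _ = ‖u‖ / 26 := by ring
  have a2 : ‖(284 / 80 * Complex.I : ℂ) • u ^ 2‖ ≤ 284 / 80 * (‖u‖ / 26) := by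
    rw [norm_smul]; simp only [norm_mul, norm_div, Complex.norm_I, Complex.norm_ofNat, mul_one]
    gcongr; exact hp 0
  have a3 : ‖(362 / 80 : ℂ) • u ^ 3‖ ≤ 362 / 80 * (‖u‖ / 26) := by
    rw [norm_smul]; simp only [norm_div, Complex.norm_ofNat]
    gcongr; exact hp 1
  have a4 : ‖(-230 / 80 * Complex.I : ℂ) • u ^ 4‖ ≤ 230 / 80 * (‖u‖ / 26) := by
    rw [norm_smul]
    simp only [norm_mul, norm_div, norm_neg, Complex.norm_I, Complex.norm_ofNat, mul_one]
    gcongr; exact hp 2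
  have a5 : ‖(-79 / 80 : ℂ) • u ^ 5‖ ≤ 79 / 80 * (‖u‖ / 26) := by
    rw [norm_smul]; simp only [norm_div, norm_neg, Complex.norm_ofNat]
    gcongr; exact hp 3
  have a6 : ‖(14 / 80 * Complex.I : ℂ) • u ^ 6‖ ≤ 14 / 80 * (‖u‖ / 26) := by
    rw [norm_smul]; simp only [norm_mul, norm_div, Complex.norm_I, Complex.norm_ofNat, mul_one]
    gcongr; exact hp 4
  have a7 : ‖(1 / 80 : ℂ) • u ^ 7‖ ≤ 1 / 80 * (‖u‖ / 26) := by
    rw [norm_smul]; simp only [norm_div, norm_one, Complex.norm_ofNat]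
    gcongr; exact hp 5
  have b := norm_add_le ((284 / 80 * Complex.I : ℂ) • u ^ 2 + (362 / 80 : ℂ) • u ^ 3
      + (-230 / 80 * Complex.I : ℂ) • u ^ 4 + (-79 / 80 : ℂ) • u ^ 5
      + (14 / 80 * Complex.I : ℂ) • u ^ 6) ((1 / 80 : ℂ) • u ^ 7)
  have b1 := norm_add_le ((284 / 80 * Complex.I : ℂ) • u ^ 2 + (362 / 80 : ℂ) • u ^ 3
      + (-230 / 80 * Complex.I : ℂ) • u ^ 4 + (-79 / 80 : ℂ) • u ^ 5)
      ((14 / 80 * Complex.I : ℂ) • u ^ 6)
  have b2 := norm_add_le ((284 / 80 * Complex.I : ℂ) • u ^ 2 + (362 / 80 : ℂ) • u ^ 3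
      + (-230 / 80 * Complex.I : ℂ) • u ^ 4) ((-79 / 80 : ℂ) • u ^ 5)
  have b3 := norm_add_le ((284 / 80 * Complex.I : ℂ) • u ^ 2 + (362 / 80 : ℂ) • u ^ 3)
      ((-230 / 80 * Complex.I : ℂ) • u ^ 4)
  have b4 := norm_add_le ((284 / 80 * Complex.I : ℂ) • u ^ 2) ((362 / 80 : ℂ) • u ^ 3)
  linarith

/-- A closed convex multiplicative set containing 1 and an element close to 2i
contains all scalars. -/
theorem scalar_mem [NormOneClass A] (M : Set A) (hc : Convex ℝ M) (hcl : IsClosed M) (h1 : 1 ∈ M)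
    (hmul : ∀ a ∈ M, ∀ b ∈ M, a * b ∈ M) (u : A) (hu : ‖u‖ ≤ 1 / 26)
    (hT : algebraMap ℂ A (2 * Complex.I) + u ∈ M) (c : ℂ) : algebraMap ℂ A c ∈ M := by
  set l := algebraMap ℂ A (2 * Complex.I) with hl
  have hpow : ∀ a ∈ M, ∀ n : ℕ, a ^ n ∈ M := by
    intro a ha n
    induction n with
    | zero => simpa using h1
    | succ n ih => rw [pow_succ]; exact hmul _ ih _ ha
  have hq : ∀ a ∈ M, q a ∈ M := by
    intro a ha
    have e : q a = (37 / 40 : ℝ) • ((36 / 37 : ℝ) • a + (1 / 37 : ℝ) • a ^ 3) +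
        (3 / 40 : ℝ) • ((5 / 6 : ℝ) • a ^ 5 + (1 / 6 : ℝ) • a ^ 7) := by
      rw [q, smul_add, smul_add, smul_smul, smul_smul, smul_smul, smul_smul]
      norm_num
      abel
    rw [e]
    exact hc (hc ha (hpow a ha 3) (by norm_num) (by norm_num) (by norm_num))
      (hc (hpow a ha 5) (hpow a ha 7) (by norm_num) (by norm_num) (by norm_num))
      (by norm_num) (by norm_num) (by norm_num)
  have hit : ∀ n : ℕ, ∃ a ∈ M, ‖a - l‖ ≤ 1 / 26 * (1 / 2) ^ n := by
    intro n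
    induction n with
    | zero => exact ⟨l + u, hT, by simpa using hu⟩
    | succ n ih =>
      obtain ⟨a, ha, hn⟩ := ih
      have h2 : (1 / 2 : ℝ) ^ n ≤ 1 := pow_le_one₀ (by norm_num) (by norm_num)
      have h3 := norm_q_le (a - l) (by linarith)
      rw [← hl, add_sub_cancel] at h3
      refine ⟨q a, hq a ha, ?_⟩
      rw [pow_succ]; linarith
  have hlM : l ∈ M := by
    rw [← hcl.closure_eq, Metric.mem_closure_iff]
    intro ε hε
    obtain ⟨n, hn⟩ := exists_pow_lt_of_lt_one hε (show (1 / 2 : ℝ) < 1 by norm_num)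
    obtain ⟨a, ha, h⟩ := hit n
    refine ⟨a, ha, ?_⟩
    rw [dist_comm, dist_eq_norm]
    have : (0 : ℝ) ≤ (1 / 2) ^ n := by positivity
    linarith
  have hreal : ∀ r : ℝ, algebraMap ℂ A r ∈ M := by
    let N : Set ℝ := {r | algebraMap ℂ A r ∈ M}
    have hN : Convex ℝ N := by
      intro a ha b hb s t hs ht hst
      have := hc ha hb hs ht hst
      change algebraMap ℂ A ((s • a + t • b : ℝ) : ℂ) ∈ M
      convert this using 1
      simp only [smul_eq_mul, Algebra.algebraMap_eq_smul_one, ← Complex.coe_smul, smul_smul,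
        ← add_smul]
      push_cast; rfl
    have h4 : ∀ n : ℕ, ((-4 : ℝ)) ^ n ∈ N := by
      intro n
      have := hpow _ (hpow _ hlM 2) n
      change algebraMap ℂ A ((((-4 : ℝ)) ^ n : ℝ) : ℂ) ∈ M
      convert this using 1
      rw [hl, ← map_pow, ← map_pow]
      congr 1
      push_cast
      congr 1
      rw [mul_pow, Complex.I_sq]; norm_num
    intro r
    obtain ⟨n, hn⟩ := pow_unbounded_of_one_lt |r| (show (1 : ℝ) < 16 by norm_num)
    have e1 : (-4 : ℝ) ^ (2 * n) = 16 ^ n := by rw [pow_mul]; norm_num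
    have e2 : (-4 : ℝ) ^ (2 * n + 1) = -4 * 16 ^ n := by rw [pow_succ, e1]; ring
    have hpos : (0 : ℝ) < 16 ^ n := by positivity
    have := hN.ordConnected.out (h4 (2 * n + 1)) (h4 (2 * n))
    apply this
    rw [e1, e2]
    constructor
    · linarith [neg_abs_le r]
    · linarith [le_abs_self r]
  have := hc (hreal (2 * c.re)) (hmul _ (hreal c.im) _ hlM) (a := 1 / 2) (b := 1 / 2)
    (by norm_num) (by norm_num) (by norm_num)
  convert this using 1
  rw [hl, ← map_mul]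
  simp only [Algebra.algebraMap_eq_smul_one, ← Complex.coe_smul, smul_smul, ← add_smul]
  congr 1
  conv_lhs => rw [← Complex.re_add_im c]
  push_cast; ring

end General

open Pool.Agent.H61.L2

theorem inj1 : Function.Injective (fun n : ℕ => n + 1) := fun _ _ h => by simpa using h

noncomputable def S : H ℕ →L[ℂ] H ℕ := push (fun n : ℕ => n + 1) inj1

theorem norm_S (x : H ℕ) : ‖S x‖ = ‖x‖ := norm_push _ _ x
theorem S_add (x : H ℕ) (n : ℕ) : (S x) (n + 1) = x n := push_apply _ inj1 x n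
theorem S_zero (x : H ℕ) : (S x) 0 = 0 := push_apply_of_not _ inj1 x 0 (by simp)

noncomputable def e (n : ℕ) : H ℕ := lp.single 2 n (1 : ℂ)

theorem S_e (n : ℕ) : S (e n) = e (n + 1) := by
  ext k
  rcases k with _ | k
  · rw [S_zero]; simp [e]
  · rw [S_add]; simp [e, Pi.single_apply]

noncomputable def T : H ℕ →L[ℂ] H ℕ :=
  algebraMap ℂ (H ℕ →L[ℂ] H ℕ) (2 * Complex.I) + (1 / 26 : ℂ) • S

theorem T_apply (x : H ℕ) : T x = (2 * Complex.I) • x + (1 / 26 : ℂ) • S x := by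
  rw [T, Algebra.algebraMap_eq_smul_one]; rfl

theorem mapsTo_T {X : Type*} [NormedAddCommGroup X] [NormedSpace ℂ X] (T : X →L[ℂ] X) (x : X) :
    MapsTo T (closure (convexHull ℝ (range fun n : ℕ => (T ^ n) x)))
      (closure (convexHull ℝ (range fun n : ℕ => (T ^ n) x))) := by
  have h1 : MapsTo T (convexHull ℝ (range fun n : ℕ => (T ^ n) x))
      (convexHull ℝ (range fun n : ℕ => (T ^ n) x)) := by
    apply convexHull_min _ ((convex_convexHull ℝ _).linear_preimage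
      ((T.restrictScalars ℝ : X →L[ℝ] X) : X →ₗ[ℝ] X))
    rintro _ ⟨n, rfl⟩
    apply subset_convexHull
    exact ⟨n + 1, by simp only [pow_succ']; rfl⟩
  exact h1.closure T.continuous

theorem dense_e0 : Dense (convexHull ℝ (range fun n : ℕ => (T ^ n) (e 0))) := by
  set D := closure (convexHull ℝ (range fun n : ℕ => (T ^ n) (e 0))) with hD
  have hDc : Convex ℝ D := (convex_convexHull ℝ _).closure
  have hDcl : IsClosed D := isClosed_closure
  have he0 : e 0 ∈ D := subset_closure (subset_convexHull _ _ ⟨0, rfl⟩)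
  have : Nontrivial (H ℕ) := ⟨⟨e 0, 0, fun h => by
    have := congrArg (fun x : H ℕ => x 0) h
    simp [e] at this⟩⟩
  let M : Set (H ℕ →L[ℂ] H ℕ) := {a | ∀ y ∈ D, a y ∈ D}
  have hsc : ∀ c : ℂ, ∀ y ∈ D, c • y ∈ D := by
    intro c
    have := scalar_mem M (fun a ha b hb s t hs ht hst y hy => hDc (ha y hy) (hb y hy) hs ht hst)
      (by
        have : M = ⋂ y ∈ D, (fun a : H ℕ →L[ℂ] H ℕ => a y) ⁻¹' D := by
          ext a; simp [M]
        rw [this]
        exact isClosed_biInter fun y _ => hDcl.preimage (continuous_eval_const y))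
      (fun y hy => hy) (fun a ha b hb y hy => ha _ (hb y hy)) ((1 / 26 : ℂ) • S)
      (by
        rw [norm_smul]
        have h1 : ‖S‖ ≤ 1 := ContinuousLinearMap.opNorm_le_bound _ zero_le_one fun x => by
          rw [norm_S, one_mul]
        have h2 : ‖(1 / 26 : ℂ)‖ = 1 / 26 := by simp
        rw [h2]; linarith)
      (fun y hy => mapsTo_T T (e 0) hy) c
    intro y hy
    simpa using this y hy
  have hadd : ∀ y ∈ D, ∀ z ∈ D, y + z ∈ D := by
    intro y hy z hz
    have := hDc (hsc 2 y hy) (hsc 2 z hz) (a := 1 / 2) (b := 1 / 2) (by norm_num) (by norm_num)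
      (by norm_num)
    have e1 : ∀ v : H ℕ, (1 / 2 : ℝ) • (2 : ℂ) • v = v := by
      intro v
      rw [← smul_assoc]
      have : (1 / 2 : ℝ) • (2 : ℂ) = 1 := by simp
      rw [this, one_smul]
    rwa [e1, e1] at this
  have hS : ∀ y ∈ D, S y ∈ D := by
    intro y hy
    have h1 := hsc 26 _ (hadd _ (mapsTo_T T (e 0) hy) _ (hsc (-(2 * Complex.I)) y hy))
    convert h1 using 1
    rw [T_apply, neg_smul, add_neg_cancel_comm, smul_smul]; norm_num
  have hen : ∀ n, e n ∈ D := by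
    intro n
    induction n with
    | zero => exact he0
    | succ n ih => rw [← S_e]; exact hS _ ih
  intro x
  change x ∈ D
  have hs := lp.hasSum_single (p := 2) (by norm_num) x
  refine hDcl.mem_of_tendsto hs (Eventually.of_forall fun s => ?_)
  induction s using Finset.induction_on with
  | empty => simpa using hsc 0 _ he0
  | insert a s ha ih =>
    rw [Finset.sum_insert ha]
    refine hadd _ ?_ _ ih
    have := hsc (x a) _ (hen a)
    convert this using 1
    rw [e, ← lp.single_smul]; simp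

theorem not_dense_of_range (w : ℂ) (hw : ‖w‖ < 1 / 2) (y : H ℕ) :
    ¬ Dense (convexHull ℝ (range fun n : ℕ => (T ^ n) (S y - w • y))) := by
  intro hd
  let G : H ℕ →L[ℂ] H ℕ := S - w • ContinuousLinearMap.id ℂ (H ℕ)
  have hG : ∀ z, G z = S z - w • z := fun z => rfl
  have hanti : AntilipschitzWith 2 G := by
    apply AddMonoidHomClass.antilipschitz_of_bound
    intro z
    have h1 := norm_sub_norm_le (S z) (w • z)
    rw [norm_S, norm_smul, ← hG] at h1
    have h2 : ‖w‖ * ‖z‖ ≤ 1 / 2 * ‖z‖ := by gcongr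
    push_cast
    linarith
  have hcl : IsClosed (range G) := hanti.isClosed_range G.uniformContinuous
  have hconv : Convex ℝ (range G) := by
    have := (convex_univ : Convex ℝ (univ : Set (H ℕ))).linear_image
      ((G.restrictScalars ℝ : H ℕ →L[ℝ] H ℕ) : H ℕ →ₗ[ℝ] H ℕ)
    rwa [image_univ] at this
  have hsub : convexHull ℝ (range fun n : ℕ => (T ^ n) (S y - w • y)) ⊆ range G := by
    apply convexHull_min _ hconv
    rintro _ ⟨n, rfl⟩
    induction n with
    | zero => exact ⟨y, rfl⟩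
    | succ n ih =>
      obtain ⟨z, hz⟩ := ih
      refine ⟨T z, ?_⟩
      simp only [pow_succ', mul_apply_eq_comp] at hz ⊢
      rw [← hz, hG, hG]
      rw [map_sub, map_smul, T_apply (S z), T_apply z, map_add, map_smul, map_smul]
  obtain ⟨z, hz⟩ : e 0 ∈ range G := hcl.closure_subset (closure_mono hsub (hd (e 0)))
  have h0 : -(w * z 0) = 1 := by
    have := congrArg (fun x : H ℕ => x 0) hz
    simp only [hG, lp.coeFn_sub, Pi.sub_apply, S_zero, lp.coeFn_smul, Pi.smul_apply, smul_eq_mul,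
      e, lp.single_apply_self] at this
    simpa using this
  have h1 : ∀ n, z n = w * z (n + 1) := by
    intro n
    have := congrArg (fun x : H ℕ => x (n + 1)) hz
    simp only [hG, lp.coeFn_sub, Pi.sub_apply, S_add, lp.coeFn_smul, Pi.smul_apply, smul_eq_mul,
      e] at this
    rw [lp.single_apply_ne _ _ _ (by omega)] at this
    exact sub_eq_zero.1 this
  have h2 : ∀ n, ‖z 0‖ ≤ (1 / 2) ^ n * ‖z n‖ := by
    intro n
    induction n with
    | zero => simp
    | succ n ih =>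
      rw [h1 n, norm_mul] at ih
      calc ‖z 0‖ ≤ (1 / 2) ^ n * (‖w‖ * ‖z (n + 1)‖) := ih
        _ ≤ (1 / 2) ^ n * (1 / 2 * ‖z (n + 1)‖) := by gcongr
        _ = _ := by ring
  have h3 : Tendsto (fun n : ℕ => (1 / 2 : ℝ) ^ n * ‖z‖) atTop (𝓝 (0 * ‖z‖)) :=
    (tendsto_pow_atTop_nhds_zero_of_lt_one (by norm_num) (by norm_num)).mul_const _
  rw [zero_mul] at h3
  have h4 : ‖z 0‖ ≤ 0 := ge_of_tendsto' h3 fun n => (h2 n).trans (by
    gcongr; exact lp.norm_apply_le_norm (by norm_num) z n)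
  rw [norm_le_zero_iff.1 h4] at h0
  simp at h0

theorem nhds_e1 : ∀ᶠ x in 𝓝 (e 1), ∃ (w : ℂ) (y : H ℕ), ‖w‖ < 1 / 2 ∧ x = S y - w • y := by
  let F : ℂ × H ℕ → H ℕ := fun p => S p.2 - p.1 • p.2
  have h1 : HasStrictFDerivAt (fun p : ℂ × H ℕ => S p.2)
      (S.comp (ContinuousLinearMap.snd ℂ ℂ (H ℕ))) (0, e 0) :=
    (S.comp (ContinuousLinearMap.snd ℂ ℂ (H ℕ))).hasStrictFDerivAt
  have h2 := (isBoundedBilinearMap_smul (𝕜 := ℂ) (A := ℂ) (E := H ℕ)).hasStrictFDerivAt (0, e 0)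
  have h3 := h1.sub h2
  have h4 := h3.map_nhds_eq_of_surj (by
    rw [LinearMap.range_eq_top]
    intro x
    have hs : Summable fun n => ‖x (n + 1)‖ ^ 2 := (summable_nat_add_iff 1).2 (summable_sq x)
    refine ⟨(-(x 0), ⟨fun n => x (n + 1), mem_of_summable hs⟩), ?_⟩
    set y : H ℕ := ⟨fun n => x (n + 1), mem_of_summable hs⟩ with hy
    have hy' : ∀ n, y n = x (n + 1) := fun n => rfl
    change S y - ((0 : ℂ) • y + (-(x 0)) • e 0) = x
    rw [zero_smul, zero_add, neg_smul, sub_neg_eq_add]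
    ext k
    rw [lp.coeFn_add, Pi.add_apply, lp.coeFn_smul, Pi.smul_apply]
    rcases k with _ | k
    · rw [S_zero]; simp [e]
    · rw [S_add, hy']; simp [e])
  have h5 : ∀ᶠ p : ℂ × H ℕ in 𝓝 (0, e 0), ‖p.1‖ < 1 / 2 := by
    exact (continuous_fst.norm.tendsto ((0 : ℂ), e 0)).eventually
      (p := fun t : ℝ => t < 1 / 2) (eventually_lt_nhds (by simp))
  have h6 : ((fun p : ℂ × H ℕ => S p.2) - fun p : ℂ × H ℕ => p.1 • p.2) (0, e 0) = e 1 := by
    simp [S_e]
  rw [← h6, ← h4, eventually_map]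
  filter_upwards [h5] with p hp
  exact ⟨p.1, p.2, hp, rfl⟩

theorem main : {x : H ℕ | Dense (convexHull ℝ (range fun n : ℕ => (T ^ n) x))}.Nonempty ∧
    ¬ Dense {x : H ℕ | Dense (convexHull ℝ (range fun n : ℕ => (T ^ n) x))} := by
  refine ⟨⟨e 0, dense_e0⟩, fun hd => ?_⟩
  obtain ⟨x, hx1, w, y, hw, rfl⟩ := hd.inter_nhds_nonempty nhds_e1
  exact not_dense_of_range w hw y hx1

end Pool.Agent.H61.ConvCyc
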