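import Pool.Agent.H61.Boot

/- Components of prescribed size in random subgraphs of the hypercube. -/

set_option autoImplicit false
open Finset Filter Topology Pool.Agent.H61.Boot

namespace Pool.Agent.H61.Cube2

section defs
open Classical

/-- edges of the cube with both ends in `W` -/
def edges {n : ℕ} (W : Finset (Fin n → Bool)) : Finset (Sym2 (Fin n → Bool)) :=
  ((W ×ˢ W).filter fun x => hammingDist x.1 x.2 = 1).image fun x => s(x.1, x.2)

/-- vertex set of the component of `v` in the graph with edge set `A` -/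
noncomputable def comp {n : ℕ} (A : Finset (Sym2 (Fin n → Bool))) (v : Fin n → Bool) :
    Finset (Fin n → Bool) :=
  univ.filter fun w => (SimpleGraph.fromEdgeSet (A : Set (Sym2 (Fin n → Bool)))).Reachable v w

/-- probability of an event of the random cubical graph -/
noncomputable def prob (n : ℕ) (pv pe : ℝ)
    (E : Finset (Fin n → Bool) → Finset (Sym2 (Fin n → Bool)) → Prop) : ℝ :=
  ∑ W : Finset (Fin n → Bool), ∑ A ∈ (edges W).powerset,
    if E W A then pv ^ W.card * (1 - pv) ^ (2 ^ n - W.card) *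
      (pe ^ A.card * (1 - pe) ^ ((edges W).card - A.card)) else 0

noncomputable def mp (p : ℝ) : ℕ := ⌊-1 / Real.logb 2 (1 - p)⌋₊

end defs

section gen
open Classical
variable {α : Type}

noncomputable def P (U : Finset α) (p : ℝ) (E : Finset α → Prop) : ℝ :=
  ∑ A ∈ U.powerset, if E A then p ^ A.card * (1 - p) ^ (U.card - A.card) else 0

lemma cyl (U O C : Finset α) (p : ℝ) (hO : O ⊆ U) (hC : C ⊆ U) (h : Disjoint O C) :
    P U p (fun A => O ⊆ A ∧ Disjoint C A) = p ^ O.card * (1 - p) ^ C.card := by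
  have b1 := Finset.prod_add (fun x => if x ∈ C then 0 else p)
    (fun x => if x ∈ O then 0 else 1 - p) U
  have b2 : ∏ x ∈ U, ((if x ∈ C then 0 else p) + if x ∈ O then 0 else 1 - p) =
      p ^ O.card * (1 - p) ^ C.card := by
    rw [← Finset.prod_subset (union_subset hO hC) fun x _ hx => by
      simp only [mem_union, not_or] at hx; simp [hx.1, hx.2], Finset.prod_union h,
      ← prod_const, ← prod_const]
    congr 1
    · exact Finset.prod_congr rfl fun x hx => by simp [hx, Finset.disjoint_left.1 h hx]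
    · exact Finset.prod_congr rfl fun x hx => by simp [hx, Finset.disjoint_right.1 h hx]
  rw [← b2, b1, P]
  refine Finset.sum_congr rfl fun A hA => ?_
  split_ifs with h
  · rw [← card_sdiff_of_subset (mem_powerset.1 hA), ← prod_const (1 - p), ← prod_const p]
    congr 1
    · exact Finset.prod_congr rfl fun x hx => (if_neg (Finset.disjoint_right.1 h.2 hx)).symm
    · exact Finset.prod_congr rfl fun x hx => (if_neg fun hx' => (mem_sdiff.1 hx).2 (h.1 hx')).symm
  · rcases not_and_or.1 h with h | h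
    · obtain ⟨x, hx, hxA⟩ := not_subset.1 h
      rw [Finset.prod_eq_zero (f := fun x => if x ∈ O then (0 : ℝ) else 1 - p)
        (mem_sdiff.2 ⟨hO hx, hxA⟩) (if_pos hx), mul_zero]
    · obtain ⟨x, hx, hxA⟩ := Finset.not_disjoint_iff.1 h
      rw [Finset.prod_eq_zero (f := fun x => if x ∈ C then (0 : ℝ) else p) hxA (if_pos hx),
        zero_mul]

lemma P_mono {U : Finset α} {p : ℝ} (h0 : 0 ≤ p) (h1 : p ≤ 1) {E F : Finset α → Prop}
    (h : ∀ A ⊆ U, E A → F A) : P U p E ≤ P U p F := by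
  have hq : 0 ≤ 1 - p := by linarith
  refine Finset.sum_le_sum fun A hA => ?_
  by_cases hE : E A
  · rw [if_pos hE, if_pos (h A (mem_powerset.1 hA) hE)]
  · rw [if_neg hE]
    split_ifs
    · positivity
    · exact le_rfl

lemma P_false (U : Finset α) (p : ℝ) : P U p (fun _ => False) = 0 := by simp [P]

lemma P_nonneg {U : Finset α} {p : ℝ} (h0 : 0 ≤ p) (h1 : p ≤ 1) (E : Finset α → Prop) :
    0 ≤ P U p E := P_false U p ▸ P_mono h0 h1 fun _ _ h => h.elim

lemma tot (U : Finset α) (p : ℝ) :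
    ∑ A ∈ U.powerset, p ^ A.card * (1 - p) ^ (U.card - A.card) = 1 := by
  simpa [P] using cyl U ∅ ∅ p (empty_subset _) (empty_subset _) (by simp)

lemma P_compl (U : Finset α) (p : ℝ) (E : Finset α → Prop) :
    P U p E + P U p (fun A => ¬ E A) = 1 := by
  rw [← tot U p, P, P, ← Finset.sum_add_distrib]
  refine Finset.sum_congr rfl fun A _ => ?_
  by_cases h : E A <;> simp [h]

lemma cyl_le (U O C : Finset α) {p : ℝ} (h0 : 0 ≤ p) (h1 : p ≤ 1) (hO : O ⊆ U) (hC : C ⊆ U) :
    P U p (fun A => O ⊆ A ∧ Disjoint C A) ≤ p ^ O.card * (1 - p) ^ C.card := by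
  have hq : 0 ≤ 1 - p := by linarith
  by_cases h : Disjoint O C
  · exact (cyl U O C p hO hC h).le
  · refine (P_mono (F := fun _ => False) h0 h1 fun A _ hA =>
      h (Finset.disjoint_of_subset_left hA.1 hA.2.symm)).trans ?_
    rw [P_false]
    positivity

lemma second {ι : Type} (U : Finset α) {p : ℝ} (h0 : 0 ≤ p) (h1 : p ≤ 1) (I : Finset ι)
    (E : ι → Finset α → Prop) (μ B : ℝ) (hμ : μ = ∑ i ∈ I, P U p (E i))
    (hB : ∑ i ∈ I, ∑ j ∈ I, P U p (fun A => E i A ∧ E j A) ≤ μ ^ 2 + B) :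
    P U p (fun A => ∀ i ∈ I, ¬ E i A) * μ ^ 2 ≤ B := by
  have hq : 0 ≤ 1 - p := by linarith
  set w : Finset α → ℝ := fun A => p ^ A.card * (1 - p) ^ (U.card - A.card) with hw
  set X : Finset α → ℝ := fun A => ∑ i ∈ I, if E i A then 1 else 0 with hX
  have a1 : ∑ A ∈ U.powerset, w A * X A = μ := by
    simp only [hμ, P, hX, Finset.mul_sum]
    rw [Finset.sum_comm]
    exact Finset.sum_congr rfl fun i _ => Finset.sum_congr rfl fun A _ => by
      by_cases h : E i A <;> simp [h, hw]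
  have a2 : ∑ A ∈ U.powerset, w A * X A ^ 2 =
      ∑ i ∈ I, ∑ j ∈ I, P U p (fun A => E i A ∧ E j A) := by
    simp only [P, hX, sq, Finset.sum_mul_sum]
    simp only [Finset.mul_sum]
    rw [Finset.sum_comm]
    refine Finset.sum_congr rfl fun i _ => ?_
    rw [Finset.sum_comm]
    exact Finset.sum_congr rfl fun j _ => Finset.sum_congr rfl fun A _ => by
      by_cases h : E i A <;> by_cases h' : E j A <;> simp [h, h', hw]
  have a3 : ∑ A ∈ U.powerset, w A * (X A - μ) ^ 2 = ∑ A ∈ U.powerset, w A * X A ^ 2 -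
      2 * μ * ∑ A ∈ U.powerset, w A * X A + μ ^ 2 * ∑ A ∈ U.powerset, w A := by
    rw [Finset.mul_sum, Finset.mul_sum, ← Finset.sum_sub_distrib, ← Finset.sum_add_distrib]
    exact Finset.sum_congr rfl fun A _ => by ring
  have a4 : P U p (fun A => ∀ i ∈ I, ¬ E i A) * μ ^ 2 ≤
      ∑ A ∈ U.powerset, w A * (X A - μ) ^ 2 := by
    rw [P, Finset.sum_mul]
    refine Finset.sum_le_sum fun A _ => ?_
    split_ifs with h
    · have : X A = 0 := Finset.sum_eq_zero fun i hi => if_neg (h i hi)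
      rw [this]
      exact le_of_eq (by ring)
    · rw [zero_mul]
      positivity
  rw [a3, a1, a2, tot] at a4
  linarith

end gen

variable {n m : ℕ}

lemma prob_one (p : ℝ) (E : Finset (V n) → Finset (Sym2 (V n)) → Prop) :
    prob n 1 p E = P (edges univ) p (E univ) := by
  have hc : (univ : Finset (V n)).card = 2 ^ n := by simp
  rw [prob, Finset.sum_eq_single univ]
  · simp [P]
  · intro W _ hW
    have := card_lt_card (Finset.ssubset_iff_subset_ne.2 ⟨subset_univ W, hW⟩)
    refine Finset.sum_eq_zero fun A _ => ?_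
    rw [sub_self, zero_pow (by omega), mul_zero, zero_mul, ite_self]
  · simp

lemma mem_edges {x y : V n} : s(x, y) ∈ edges (univ : Finset (V n)) ↔ hammingDist x y = 1 := by
  simp only [edges, mem_image, mem_filter, mem_product, mem_univ, true_and, Prod.exists]
  constructor
  · rintro ⟨a, b, h, e⟩
    rcases Sym2.eq_iff.1 e with ⟨rfl, rfl⟩ | ⟨rfl, rfl⟩
    · exact h
    · rwa [hammingDist_comm]
  · exact fun h => ⟨x, y, h, rfl⟩

def bd (S : Finset (V n)) : Finset (Sym2 (V n)) :=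
  ((S ×ˢ Sᶜ).filter fun x => hammingDist x.1 x.2 = 1).image fun x => s(x.1, x.2)

lemma mem_bd {S : Finset (V n)} {e : Sym2 (V n)} :
    e ∈ bd S ↔ ∃ a ∈ S, ∃ b ∉ S, hammingDist a b = 1 ∧ s(a, b) = e := by
  simp only [bd, mem_image, mem_filter, mem_product, mem_compl, Prod.exists]
  exact ⟨fun ⟨a, b, h, e⟩ => ⟨a, h.1.1, b, h.1.2, h.2, e⟩,
    fun ⟨a, h1, b, h2, h3, e⟩ => ⟨a, b, ⟨⟨h1, h2⟩, h3⟩, e⟩⟩

lemma bd_sub (S : Finset (V n)) : bd S ⊆ edges univ := fun e he => by
  obtain ⟨a, -, b, -, h, rfl⟩ := mem_bd.1 he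
  exact mem_edges.2 h

lemma card_bd (S : Finset (V n)) :
    (bd S).card ≤ S.card * n ∧ S.card * n ≤ (bd S).card + S.card * S.card := by
  have a1 : (bd S).card = ∑ a ∈ S, (Sᶜ.filter fun b => hammingDist a b = 1).card := by
    rw [bd, card_image_of_injOn, card_filter, sum_product]
    · simp only [card_filter]
    · intro x hx y hy e
      simp only [coe_filter, mem_product, mem_compl, Set.mem_ofPred_eq] at hx hy
      rcases Sym2.eq_iff.1 e with ⟨h1, h2⟩ | ⟨h1, h2⟩
      · exact Prod.ext h1 h2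
      · exact absurd (h1 ▸ hx.1.1) hy.1.2
  have a2 : ∀ a : V n, (univ.filter fun b => hammingDist a b = 1).card = n := fun a => by
    simpa only [hammingDist_comm a] using card_nb a
  rw [a1]
  constructor
  · refine (Finset.sum_le_card_nsmul _ _ n fun a _ => ?_).trans (by simp)
    exact (card_le_card (filter_subset_filter _ (subset_univ _))).trans (a2 a).le
  · have : ∀ a ∈ S, n ≤ (Sᶜ.filter fun b => hammingDist a b = 1).card + S.card := fun a _ => by
      refine (a2 a).ge.trans ((card_le_card fun b hb => ?_).trans (card_union_le _ _))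
      by_cases h : b ∈ S
      · exact mem_union_right _ h
      · exact mem_union_left _ (mem_filter.2 ⟨mem_compl.2 h, (mem_filter.1 hb).2⟩)
    have := Finset.sum_le_sum this
    simpa [Finset.sum_add_distrib] using this

abbrev Ix (n m : ℕ) := V n × (Fin m ↪ Fin n)

def pt (i : Ix n m) (t : ℕ) : V n :=
  fun c => xor (i.1 c) (decide (∃ s : Fin m, (s : ℕ) < t ∧ i.2 s = c))

lemma pt_zero (i : Ix n m) : pt i 0 = i.1 := by
  funext c
  simp [pt]

lemma dist_pt (i : Ix n m) {a b : ℕ} (hab : a ≤ b) (hb : b ≤ m) :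
    hammingDist (pt i a) (pt i b) = b - a := by
  have a1 : (univ.filter fun c => pt i a c ≠ pt i b c) =
      (univ.filter fun s : Fin m => a ≤ (s : ℕ) ∧ (s : ℕ) < b).map i.2 := by
    ext c
    simp only [mem_filter, mem_univ, true_and, Finset.mem_map, pt, ne_eq, Bool.xor_right_inj,
      decide_eq_decide]
    constructor
    · intro h
      by_contra h2
      refine h ⟨fun ⟨s, h3, h4⟩ => ⟨s, by omega, h4⟩, fun ⟨s, h3, h4⟩ => ⟨s, ?_, h4⟩⟩
      by_contra h5
      exact h2 ⟨s, ⟨by omega, h3⟩, h4⟩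
    · rintro ⟨s, ⟨h1, h2⟩, rfl⟩ h
      obtain ⟨s', h3, h4⟩ := h.2 ⟨s, h2, rfl⟩
      rw [i.2.injective h4] at h3
      omega
  have a2 : (univ.filter fun s : Fin m => a ≤ (s : ℕ) ∧ (s : ℕ) < b).map Fin.valEmbedding =
      Ico a b := by
    ext t
    simp only [Finset.mem_map, mem_filter, mem_univ, true_and, Fin.valEmbedding_apply, mem_Ico]
    exact ⟨by rintro ⟨s, h, rfl⟩; exact h, fun h => ⟨⟨t, by omega⟩, h, rfl⟩⟩
  rw [hammingDist, a1, card_map, ← card_map Fin.valEmbedding, a2, Nat.card_Ico]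

lemma dist_pt0 (i : Ix n m) {b : ℕ} (hb : b ≤ m) : hammingDist i.1 (pt i b) = b := by
  simpa [pt_zero] using dist_pt i (Nat.zero_le b) hb

lemma pt_inj (i : Ix n m) {a b : ℕ} (ha : a ≤ m) (hb : b ≤ m) (h : pt i a = pt i b) : a = b := by
  rw [← dist_pt0 i ha, ← dist_pt0 i hb, h]

def S (i : Ix n m) : Finset (V n) := (range (m + 1)).image (pt i)
def O (i : Ix n m) : Finset (Sym2 (V n)) := (range m).image fun t => s(pt i t, pt i (t + 1))

lemma pt_mem (i : Ix n m) {t : ℕ} (h : t ≤ m) : pt i t ∈ S i :=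
  mem_image_of_mem _ (mem_range.2 (by omega))

lemma card_S (i : Ix n m) : (S i).card = m + 1 := by
  rw [S, card_image_of_injOn, card_range]
  intro a ha b hb h
  simp only [coe_range, Set.mem_Iio] at ha hb
  exact pt_inj i (by omega) (by omega) h

lemma card_O (i : Ix n m) : (O i).card = m := by
  rw [O, card_image_of_injOn, card_range]
  intro a ha b hb h
  simp only [coe_range, Set.mem_Iio] at ha hb
  rcases Sym2.eq_iff.1 h with ⟨h1, -⟩ | ⟨h1, h2⟩
  · exact pt_inj i (by omega) (by omega) h1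
  · have := pt_inj i (by omega) (by omega) h1
    have := pt_inj i (by omega) (by omega) h2
    omega

lemma O_mem {i : Ix n m} {e : Sym2 (V n)} (he : e ∈ O i) :
    e ∈ edges univ ∧ (∀ x ∈ e, x ∈ S i) := by
  obtain ⟨t, ht, rfl⟩ := mem_image.1 he
  have := mem_range.1 ht
  refine ⟨mem_edges.2 (by rw [dist_pt i (by omega) (by omega)]; omega), fun x hx => ?_⟩
  rcases Sym2.mem_iff.1 hx with rfl | rfl <;> exact pt_mem i (by omega)

def Ev (i : Ix n m) (A : Finset (Sym2 (V n))) : Prop := O i ⊆ A ∧ Disjoint (bd (S i)) A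

lemma comp_eq {i : Ix n m} {A : Finset (Sym2 (V n))} (hA : A ⊆ edges univ) (h : Ev i A)
    {u : V n} (hu : u ∈ S i) : comp A u = S i := by
  set G := SimpleGraph.fromEdgeSet (A : Set (Sym2 (V n)))
  have a1 : ∀ t ≤ m, G.Reachable (pt i 0) (pt i t) := by
    intro t ht
    induction t with
    | zero => rfl
    | succ t ih =>
      refine (ih (by omega)).trans (SimpleGraph.Adj.reachable ?_)
      refine (SimpleGraph.fromEdgeSet_adj _).2 ⟨h.1 (mem_image.2 ⟨t, mem_range.2 ht, rfl⟩),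
        fun e => ?_⟩
      have := pt_inj i (by omega) ht e
      omega
  have a2 : ∀ w ∈ S i, G.Reachable (pt i 0) w := fun w hw => by
    obtain ⟨t, ht, rfl⟩ := mem_image.1 hw
    exact a1 t (Nat.lt_succ_iff.1 (mem_range.1 ht))
  ext w
  simp only [comp, mem_filter, mem_univ, true_and]
  refine ⟨fun hw => ?_, fun hw => (a2 u hu).symm.trans (a2 w hw)⟩
  rw [SimpleGraph.reachable_iff_reflTransGen] at hw
  induction hw with
  | refl => exact hu
  | tail _ hbc ih =>
    by_contra hc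
    have := ((SimpleGraph.fromEdgeSet_adj _).1 hbc).1
    exact Finset.disjoint_left.1 h.2 (mem_bd.2 ⟨_, ih, _, hc, mem_edges.1 (hA this), rfl⟩) this

lemma P_Ev (i : Ix n m) (p : ℝ) :
    P (edges univ) p (Ev i) = p ^ m * (1 - p) ^ (bd (S i)).card := by
  refine (cyl _ _ _ p (fun e he => (O_mem he).1) (bd_sub _)
    (Finset.disjoint_left.2 fun e h1 h2 => ?_)).trans (by rw [card_O])
  obtain ⟨a, -, b, hb, -, rfl⟩ := mem_bd.1 h2
  exact hb ((O_mem h1).2 b (Sym2.mem_mk_right _ _))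

lemma card_same (i : Ix n m) : (univ.filter fun j : Ix n m => S j = S i).card ≤ m + 1 := by
  rw [← card_S i]
  refine card_le_card_of_injOn Prod.fst (fun j hj => ?_) fun j hj l hl e => ?_
  · simp only [coe_filter, mem_univ, true_and, Set.mem_ofPred_eq] at hj
    rw [← hj, ← pt_zero]
    exact pt_mem j (Nat.zero_le _)
  · simp only [coe_filter, mem_univ, true_and, Set.mem_ofPred_eq] at hj hl
    have a1 : ∀ t ≤ m, pt j t = pt l t := fun t ht => by
      have := pt_mem j ht
      rw [hj, ← hl] at this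
      obtain ⟨u, hu, h⟩ := mem_image.1 this
      have hu' := Nat.lt_succ_iff.1 (mem_range.1 hu)
      have b := dist_pt0 j ht
      rw [← h, e, dist_pt0 l hu'] at b
      rw [← h, b]
    have a2 : ∀ t ≤ m, ∀ c, (∃ s : Fin m, (s : ℕ) < t ∧ j.2 s = c) ↔
        ∃ s : Fin m, (s : ℕ) < t ∧ l.2 s = c := fun t ht c => by
      have := congrFun (a1 t ht) c
      simpa only [pt, e, Bool.xor_right_inj, decide_eq_decide] using this
    refine Prod.ext e (Function.Embedding.ext fun s => ?_)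
    obtain ⟨s', h1, h2⟩ := (a2 (s + 1) s.2 (j.2 s)).1 ⟨s, by omega, rfl⟩
    by_cases h3 : (s' : ℕ) < s
    · obtain ⟨s'', h4, h5⟩ := (a2 s s.2.le (j.2 s)).2 ⟨s', h3, h2⟩
      rw [j.2.injective h5] at h4
      omega
    · rw [← h2, show s' = s from Fin.ext (by omega)]

def Near (i j : Ix n m) : Prop := ∃ a ∈ S i, ∃ b ∈ S j, hammingDist b a = 1

open Classical in
lemma card_near (i : Ix n m) : (univ.filter fun j : Ix n m => Near i j).card ≤
    (m + 1) * (n * ((m + 1) * n.descFactorial m)) := by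
  have a1 : (univ.filter fun j : Ix n m => Near i j) ⊆ (S i).biUnion fun a =>
      (univ.filter fun b : V n => hammingDist b a = 1).biUnion fun b =>
        (range (m + 1)).biUnion fun t => univ.filter fun j : Ix n m => pt j t = b := by
    intro j hj
    obtain ⟨a, ha, b, hb, h⟩ := (mem_filter.1 hj).2
    obtain ⟨t, ht, e⟩ := mem_image.1 hb
    simp only [mem_biUnion, mem_filter, mem_univ, true_and]
    exact ⟨a, ha, b, h, t, ht, e⟩
  refine (card_le_card a1).trans ?_
  rw [← card_S i]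
  refine card_biUnion_le_card_mul _ _ _ fun a _ => ?_
  rw [card_S]
  refine le_trans (card_biUnion_le_card_mul _ _ ((m + 1) * n.descFactorial m) fun b _ => ?_)
    (by rw [card_nb])
  refine le_trans (card_biUnion_le_card_mul _ _ (n.descFactorial m) fun t _ => ?_)
    (by rw [card_range])
  refine le_trans (card_le_card_of_injOn (t := univ) Prod.snd (fun _ _ => mem_coe.2 (mem_univ _))
    fun j hj l hl e => ?_) (by simp)
  simp only [coe_filter, mem_univ, true_and, Set.mem_ofPred_eq] at hj hl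
  refine Prod.ext (funext fun c => ?_) e
  have := congrFun (hj.trans hl.symm) c
  simpa only [pt, e, Bool.xor_left_inj] using this

open Classical in
lemma pair {p : ℝ} (h0 : 0 ≤ p) (h1 : p < 1) (i j : Ix n m) :
    P (edges univ) p (fun A => Ev i A ∧ Ev j A) ≤
      P (edges univ) p (Ev i) * P (edges univ) p (Ev j) +
      (if S j = S i then P (edges univ) p (Ev i) else 0) +
      (if Near i j then (p ^ m * (1 - p) ^ ((m + 1) * n)) ^ 2 / (1 - p) ^ (3 * (m + 1) ^ 2)
        else 0) := by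
  have hq : 0 < 1 - p := by linarith
  have n1 := mul_nonneg (P_nonneg (U := edges univ) h0 h1.le (Ev i))
    (P_nonneg (U := edges univ) h0 h1.le (Ev j))
  have n2 : 0 ≤ (if S j = S i then P (edges univ) p (Ev i) else 0) := by
    split_ifs
    · exact P_nonneg h0 h1.le _
    · exact le_rfl
  have n3 : 0 ≤ (if Near i j then (p ^ m * (1 - p) ^ ((m + 1) * n)) ^ 2 /
      (1 - p) ^ (3 * (m + 1) ^ 2) else 0) := by
    split_ifs
    · positivity
    · exact le_rfl
  by_cases hS : S j = S i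
  · have := P_mono (U := edges univ) h0 h1.le (E := fun A => Ev i A ∧ Ev j A) fun _ _ h => h.1
    rw [if_pos hS]
    linarith
  by_cases hd : Disjoint (S i) (S j)
  swap
  · obtain ⟨u, h2, h3⟩ := Finset.not_disjoint_iff.1 hd
    have := P_mono (U := edges univ) h0 h1.le (E := fun A => Ev i A ∧ Ev j A)
      (F := fun _ => False) fun A hA h => hS ((comp_eq hA h.2 h3).symm.trans (comp_eq hA h.1 h2))
    rw [P_false] at this
    linarith
  have a1 := (P_mono (U := edges univ) h0 h1.le (E := fun A => Ev i A ∧ Ev j A)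
    fun A _ h => ⟨union_subset h.1.1 h.2.1, disjoint_union_left.2 ⟨h.1.2, h.2.2⟩⟩).trans
    (cyl_le (edges univ) (O i ∪ O j) (bd (S i) ∪ bd (S j)) h0 h1.le
      (union_subset (fun e he => (O_mem he).1) fun e he => (O_mem he).1)
      (union_subset (bd_sub _) (bd_sub _)))
  rw [card_union_of_disjoint (Finset.disjoint_left.2 fun e h2 h3 => Finset.disjoint_left.1 hd
    ((O_mem h2).2 _ (Sym2.out_fst_mem e)) ((O_mem h3).2 _ (Sym2.out_fst_mem e))), card_O,
    card_O] at a1
  have a2 : ∀ e ∈ bd (S i) ∩ bd (S j), ∃ a ∈ S i, ∃ b ∈ S j, hammingDist a b = 1 ∧ s(a, b) = e := by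
    intro e he
    obtain ⟨a, ha, b, -, h2, rfl⟩ := mem_bd.1 (mem_inter.1 he).1
    obtain ⟨c, hc, d, -, -, h3⟩ := mem_bd.1 (mem_inter.1 he).2
    rcases Sym2.eq_iff.1 h3 with ⟨rfl, -⟩ | ⟨rfl, -⟩
    · exact absurd hc (Finset.disjoint_left.1 hd ha)
    · exact ⟨a, ha, c, hc, h2, rfl⟩
  by_cases hn : Near i j
  · have b1 : (bd (S i) ∩ bd (S j)).card ≤ (m + 1) * (m + 1) := by
      have : bd (S i) ∩ bd (S j) ⊆ (S i ×ˢ S j).image fun x => s(x.1, x.2) := fun e he => by
        obtain ⟨a, ha, b, hb, -, rfl⟩ := a2 e he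
        exact mem_image.2 ⟨(a, b), mem_product.2 ⟨ha, hb⟩, rfl⟩
      refine (card_le_card this).trans (card_image_le.trans ?_)
      rw [card_product, card_S, card_S]
    have b2 := card_union_add_card_inter (bd (S i)) (bd (S j))
    have b3 := (card_bd (S i)).2
    have b4 := (card_bd (S j)).2
    rw [card_S] at b3 b4
    have b5 : (m + 1) * n * 2 ≤ (bd (S i) ∪ bd (S j)).card + 3 * (m + 1) ^ 2 := by
      rw [sq]; omega
    have b6 : p ^ (m + m) * (1 - p) ^ (bd (S i) ∪ bd (S j)).card ≤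
        (p ^ m * (1 - p) ^ ((m + 1) * n)) ^ 2 / (1 - p) ^ (3 * (m + 1) ^ 2) := by
      rw [le_div_iff₀ (by positivity), mul_assoc, ← pow_add, mul_pow, ← pow_mul, ← pow_mul,
        mul_two m]
      exact mul_le_mul_of_nonneg_left (pow_le_pow_of_le_one hq.le (by linarith) b5) (by positivity)
    rw [if_pos hn]
    linarith
  · rw [card_union_of_disjoint (Finset.disjoint_left.2 fun e h2 h3 => by
      obtain ⟨a, ha, b, hb, h4, -⟩ := a2 e (mem_inter.2 ⟨h2, h3⟩)
      exact hn ⟨a, ha, b, hb, by rwa [hammingDist_comm]⟩)] at a1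
    have : P (edges univ) p (Ev i) * P (edges univ) p (Ev j) =
        p ^ (m + m) * (1 - p) ^ ((bd (S i)).card + (bd (S j)).card) := by
      rw [P_Ev, P_Ev]; ring
    linarith

open Classical in
lemma fin_bound {p : ℝ} (h0 : 0 < p) (h1 : p < 1) (hm : m ≤ n) :
    P (edges univ) p (fun A => ¬ ∃ v ∈ (univ : Finset (V n)), (comp A v).card = m + 1) ≤
      (m + 1) / (2 ^ n * n.descFactorial m * (p ^ m * (1 - p) ^ ((m + 1) * n))) +
      (m + 1) ^ 2 * n / (2 ^ n * (1 - p) ^ (3 * (m + 1) ^ 2)) := by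
  have hq : 0 < 1 - p := by linarith
  set u := p ^ m * (1 - p) ^ ((m + 1) * n) with hu
  have u0 : 0 < u := by positivity
  set N : ℝ := (n.descFactorial m : ℝ) with hN
  have N0 : 0 < N := by rw [hN]; exact_mod_cast Nat.descFactorial_pos.2 hm
  have hI : ((univ : Finset (Ix n m)).card : ℝ) = 2 ^ n * N := by simp [hN]
  set μ := ∑ i : Ix n m, P (edges univ) p (Ev i) with hμ
  have a1 : 2 ^ n * N * u ≤ μ := by
    rw [← hI, ← nsmul_eq_mul]
    refine Finset.card_nsmul_le_sum _ _ _ fun i _ => ?_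
    have := (card_bd (S i)).1
    rw [card_S] at this
    rw [P_Ev]
    exact mul_le_mul_of_nonneg_left (pow_le_pow_of_le_one hq.le (by linarith) this) (by positivity)
  have μ0 : 0 < μ := lt_of_lt_of_le (by positivity) a1
  set r := (1 - p) ^ (3 * (m + 1) ^ 2) with hr
  have r0 : 0 < r := by positivity
  have a2 := second (edges univ) h0.le h1.le univ Ev μ
    ((m + 1) * μ + 2 ^ n * N * (((m + 1) * (n * ((m + 1) * N))) * (u ^ 2 / r))) rfl (by
    refine (Finset.sum_le_sum fun i _ => Finset.sum_le_sum fun j _ => pair h0.le h1 i j).trans ?_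
    simp only [Finset.sum_add_distrib]
    rw [add_assoc]
    refine add_le_add (le_of_eq (by rw [sq, Finset.sum_mul_sum])) (add_le_add ?_ ?_)
    · rw [Finset.mul_sum]
      refine Finset.sum_le_sum fun i _ => ?_
      rw [← Finset.sum_filter, sum_const, nsmul_eq_mul]
      exact mul_le_mul_of_nonneg_right (by exact_mod_cast card_same i) (P_nonneg h0.le h1.le _)
    · rw [← hI, ← nsmul_eq_mul]
      refine Finset.sum_le_card_nsmul _ _ _ fun i _ => ?_
      rw [← Finset.sum_filter, sum_const, nsmul_eq_mul]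
      exact mul_le_mul_of_nonneg_right (by rw [hN]; exact_mod_cast card_near i) (by positivity))
  have a3 := P_mono (U := edges univ) h0.le h1.le
    (E := fun A => ¬ ∃ v ∈ (univ : Finset (V n)), (comp A v).card = m + 1)
    (F := fun A => ∀ i ∈ (univ : Finset (Ix n m)), ¬ Ev i A) fun A hA h i _ hi =>
      h ⟨_, mem_univ _, by rw [comp_eq hA hi (pt_mem i (Nat.zero_le _)), card_S]⟩
  refine a3.trans (((le_div_iff₀ (by positivity)).2 a2).trans ?_)
  rw [add_div]
  refine add_le_add ?_ ?_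
  · rw [sq, mul_div_mul_right _ _ μ0.ne']
    exact div_le_div_of_nonneg_left (by positivity) (by positivity) a1
  · refine (div_le_div_of_nonneg_left (by positivity) (by positivity)
      (pow_le_pow_left₀ (by positivity) a1 2)).trans (le_of_eq ?_)
    field_simp

lemma mp_bd {p : ℝ} (h0 : 0 < p) (h1 : p ≤ 1 / 12) :
    1 / 2 ≤ (1 - p) ^ mp p ∧ (mp p : ℝ) * p ≤ 1 ∧ 1 ≤ 4 * (mp p : ℝ) * p ∧
      Real.exp (-(2 * p)) ≤ 1 - p := by
  have hq : 0 < 1 - p := by linarith
  set y := -Real.log (1 - p) with hy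
  have y1 : p ≤ y := by linarith [Real.log_le_sub_one_of_pos hq]
  have y2 : y ≤ 2 * p := by
    have a := Real.log_le_sub_one_of_pos (inv_pos.2 hq)
    rw [Real.log_inv] at a
    have b : (1 - p)⁻¹ ≤ 1 + 2 * p := by
      rw [inv_le_comm₀ hq (by linarith), inv_le_iff_one_le_mul₀ (by linarith)]
      nlinarith
    linarith
  have y0 : 0 < y := by linarith
  have l1 := Real.log_two_gt_d9
  have l2 := Real.log_two_lt_d9
  have e : -1 / Real.logb 2 (1 - p) = Real.log 2 / y := by
    rw [Real.logb, show Real.log (1 - p) = -y by linarith]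
    field_simp
  have a1 : (mp p : ℝ) ≤ Real.log 2 / y := by
    rw [mp, e]; exact Nat.floor_le (by positivity)
  have a2 : Real.log 2 / y < mp p + 1 := by
    rw [mp, e]; exact Nat.lt_floor_add_one _
  rw [le_div_iff₀ y0] at a1
  rw [div_lt_iff₀ y0] at a2
  have m0 : (0 : ℝ) ≤ mp p := Nat.cast_nonneg _
  have e2 : 1 - p = Real.exp (-y) := by rw [hy, neg_neg, Real.exp_log hq]
  refine ⟨?_, ?_, ?_, ?_⟩
  · rw [e2, ← Real.exp_nat_mul, one_div, ← Real.exp_log (by norm_num : (0 : ℝ) < 2),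
      ← Real.exp_neg]
    exact Real.exp_le_exp.2 (by linarith)
  · linarith [mul_le_mul_of_nonneg_left y1 m0]
  · have := mul_le_mul_of_nonneg_left y2 (by linarith : (0 : ℝ) ≤ mp p + 1)
    nlinarith
  · rw [e2]
    exact Real.exp_le_exp.2 (by linarith)

lemma est {p C : ℝ} (h0 : 0 < p) (h1 : p ≤ 1 / 12) (hC : n * p ^ 2 ≤ C) (hn : 24 ≤ n)
    (h2 : 24 ≤ n * p) (h3 : 2 * Real.exp (8 * C + 1) ≤ n * p) :
    12 * (mp p + 1) ≤ n ∧
    P (edges univ) p (fun A => ¬ ∃ v ∈ (univ : Finset (V n)), (comp A v).card = mp p + 1) ≤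
      8 * p + n ^ 3 * (3 / 4) ^ n := by
  obtain ⟨b1, b2, b3, b4⟩ := mp_bd h0 h1
  set m := mp p
  have hq : 0 < 1 - p := by linarith
  have m0 : (0 : ℝ) ≤ m := Nat.cast_nonneg _
  have n0 : (0 : ℝ) ≤ n := Nat.cast_nonneg _
  have a1 : 24 * m ≤ n := by
    have : (24 * m : ℝ) ≤ n := by nlinarith
    exact_mod_cast this
  have a2 : 12 * (m + 1) ≤ n := by omega
  refine ⟨a2, (fin_bound h0 (by linarith) (by omega)).trans (add_le_add ?_ ?_)⟩
  · have c1 : ((n : ℝ) / 2) ^ m ≤ n.descFactorial m := by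
      have d1 : ((n + 1 - m : ℕ) : ℝ) ^ m ≤ n.descFactorial m := by
        exact_mod_cast Nat.pow_sub_le_descFactorial n m
      refine le_trans (pow_le_pow_left₀ (by positivity) ?_ m) d1
      have : n ≤ 2 * (n + 1 - m) := by omega
      have : (n : ℝ) ≤ 2 * ((n + 1 - m : ℕ) : ℝ) := by exact_mod_cast this
      linarith
    have c2 : Real.exp ((8 * C + 1) * m) ≤ ((n : ℝ) / 2) ^ m * p ^ m := by
      rw [← mul_pow, mul_comm, Real.exp_nat_mul]
      exact pow_le_pow_left₀ (Real.exp_pos _).le (by linarith) m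
    have c3 : Real.exp (-(2 * p * n)) ≤ 2 ^ n * (1 - p) ^ ((m + 1) * n) := by
      rw [pow_mul, ← mul_pow, show -(2 * p * n) = n * -(2 * p) by ring, Real.exp_nat_mul]
      refine pow_le_pow_left₀ (Real.exp_pos _).le (b4.trans ?_) n
      rw [pow_succ]
      nlinarith
    have c4 : 2 * p * n ≤ 8 * C * m := by
      have d1 := mul_le_mul_of_nonneg_left b3 (by positivity : 0 ≤ p * n)
      have d2 := mul_le_mul_of_nonneg_left hC m0
      nlinarith
    have c5 : Real.exp m ≤ 2 ^ n * n.descFactorial m * (p ^ m * (1 - p) ^ ((m + 1) * n)) := by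
      calc Real.exp m ≤ Real.exp ((8 * C + 1) * m) * Real.exp (-(2 * p * n)) := by
            rw [← Real.exp_add]; exact Real.exp_le_exp.2 (by linarith)
        _ ≤ (n.descFactorial m * p ^ m) * (2 ^ n * (1 - p) ^ ((m + 1) * n)) :=
            mul_le_mul (c2.trans (mul_le_mul_of_nonneg_right c1 (by positivity))) c3
              (Real.exp_pos _).le (by positivity)
        _ = _ := by ring
    have c6 := Real.quadratic_le_exp_of_nonneg m0
    refine (div_le_div_of_nonneg_left (by positivity) (by positivity) (c6.trans c5)).trans ?_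
    rw [div_le_iff₀ (by positivity)]
    nlinarith
  · have c1 : (1 / 4 : ℝ) ≤ (1 - p) ^ (m + 1) := by
      rw [pow_succ]
      nlinarith
    have c2 : (2 / 3 : ℝ) ^ n ≤ (1 - p) ^ (3 * (m + 1) ^ 2) := by
      calc (2 / 3 : ℝ) ^ n ≤ (2 / 3) ^ (4 * (3 * (m + 1))) :=
            pow_le_pow_of_le_one (by norm_num) (by norm_num) (by omega)
        _ ≤ (1 / 4) ^ (3 * (m + 1)) := by
            rw [pow_mul]
            exact pow_le_pow_left₀ (by positivity) (by norm_num) _
        _ ≤ ((1 - p) ^ (m + 1)) ^ (3 * (m + 1)) := pow_le_pow_left₀ (by norm_num) c1 _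
        _ = _ := by rw [← pow_mul]; congr 1; ring
    have c3 : (m + 1 : ℝ) ≤ n := by
      have : m + 1 ≤ n := by omega
      exact_mod_cast this
    have c4 : (m + 1 : ℝ) ^ 2 * n ≤ n ^ 3 := by
      rw [pow_succ (n : ℝ) 2]
      exact mul_le_mul_of_nonneg_right (pow_le_pow_left₀ (by positivity) c3 2) n0
    refine (div_le_div₀ (by positivity) c4 (by positivity : (0 : ℝ) < 2 ^ n * (2 / 3) ^ n)
      (mul_le_mul_of_nonneg_left c2 (by positivity))).trans (le_of_eq ?_)
    rw [← mul_pow, div_eq_mul_inv, ← inv_pow]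
    norm_num

lemma core (p : ℕ → ℝ) (C : ℝ) (h0 : ∀ n, 0 < p n) (h1 : ∀ n, p n ≤ 1)
    (h2 : Tendsto (fun n : ℕ => p n * n) atTop atTop) (h3 : ∀ n : ℕ, n * p n ^ 2 ≤ C) :
    (∀ᶠ n in atTop, 12 * (mp (p n) + 1) ≤ n) ∧ Tendsto (fun n => P (edges univ) (p n)
      (fun A => ¬ ∃ v ∈ (univ : Finset (V n)), (comp A v).card = mp (p n) + 1)) atTop (𝓝 0) := by
  have a1 : Tendsto p atTop (𝓝 0) := by
    refine squeeze_zero' (Eventually.of_forall fun n => (h0 n).le) ?_
      (tendsto_const_nhds (x := C) |>.div_atTop h2)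
    filter_upwards [h2.eventually_gt_atTop 0] with n hn
    rw [le_div_iff₀ hn]
    linarith [h3 n]
  have a2 : ∀ᶠ n : ℕ in atTop, 12 * (mp (p n) + 1) ≤ n ∧ P (edges univ) (p n)
      (fun A => ¬ ∃ v ∈ (univ : Finset (V n)), (comp A v).card = mp (p n) + 1) ≤
      8 * p n + n ^ 3 * (3 / 4) ^ n := by
    filter_upwards [a1.eventually (ge_mem_nhds (by norm_num : (0 : ℝ) < 1 / 12)),
      eventually_ge_atTop 24, h2.eventually_ge_atTop 24,
      h2.eventually_ge_atTop (2 * Real.exp (8 * C + 1))] with n b1 b2 b3 b4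
    exact est (h0 n) b1 (h3 n) b2 (by linarith) (by linarith)
  refine ⟨a2.mono fun n h => h.1, squeeze_zero' (Eventually.of_forall fun n =>
    P_nonneg (h0 n).le (h1 n) _) (a2.mono fun n h => h.2) ?_⟩
  simpa using (a1.const_mul 8).add (tendsto_pow_const_mul_const_pow_of_abs_lt_one 3
    (by norm_num [abs_of_pos] : |(3 / 4 : ℝ)| < 1))

theorem partA (p : ℕ → ℝ) (C : ℝ) (h0 : ∀ n, 0 < p n ∧ p n ≤ 1)
    (h2 : Tendsto (fun n : ℕ => p n * n) atTop atTop) (h3 : ∀ n : ℕ, n * p n ^ 2 ≤ C) :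
    Tendsto (fun n => prob n 1 (p n) fun W A => ∃ v ∈ W, (comp A v).card = mp (p n) + 1)
      atTop (𝓝 1) := by
  have := (core p C (fun n => (h0 n).1) (fun n => (h0 n).2) h2 h3).2.const_sub 1
  rw [sub_zero] at this
  refine this.congr fun n => ?_
  rw [prob_one]
  linarith [P_compl (edges univ) (p n)
    (fun A => ∃ v ∈ (univ : Finset (V n)), (comp A v).card = mp (p n) + 1)]

theorem partB (p : ℕ → ℝ) (C : ℝ) (h0 : ∀ n, 0 < p n ∧ p n ≤ 1)
    (h2 : Tendsto (fun n : ℕ => p n * n) atTop atTop) (h3 : ∀ n : ℕ, n * p n ^ 2 ≤ C) :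
    Tendsto (fun n => prob n 1 (p n) fun W A => ∃ v ∈ W, W.card ≤ 2 * (comp A v).card ∧
      ∀ w ∈ W, w ∉ comp A v → (comp A w).card ≤ mp (p n)) atTop (𝓝 0) := by
  obtain ⟨a1, a2⟩ := core p C (fun n => (h0 n).1) (fun n => (h0 n).2) h2 h3
  simp only [prob_one]
  refine squeeze_zero' (Eventually.of_forall fun n => P_nonneg (h0 n).1.le (h0 n).2 _) ?_ a2
  filter_upwards [a1] with n hn
  refine P_mono (h0 n).1.le (h0 n).2 fun A _ ⟨v, _, h4, h5⟩ ⟨u, hu, h6⟩ => ?_
  by_cases h : u ∈ comp A v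
  · have e : comp A u = comp A v := by
      have := (mem_filter.1 h).2
      ext w
      simp only [comp, mem_filter, mem_univ, true_and]
      exact ⟨fun h => this.trans h, fun h => this.symm.trans h⟩
    rw [← e, h6, card_univ, Fintype.card_fun, Fintype.card_bool, Fintype.card_fin] at h4
    have := @Nat.lt_two_pow_self n
    omega
  · have := h5 u hu h
    omega

theorem partC : ¬ ∀ pv pe : ℕ → ℝ, (∀ n, 0 < pv n ∧ pv n ≤ 1) → (∀ n, 0 < pe n ∧ pe n ≤ 1) →
    Tendsto (fun n => pv n * pe n) atTop (𝓝 0) →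
    Tendsto (fun n : ℕ => pv n * pe n * n) atTop atTop →
    ∃ ε : ℕ → ℝ, Tendsto ε atTop (𝓝 0) ∧
      Tendsto (fun n => prob n (pv n) (pe n) fun W A => ∃ v ∈ W,
        (1 - ε n) * W.card ≤ (comp A v).card ∧
        (∀ w ∈ W, w ∉ comp A v → (comp A w).card ≤ mp (pv n * pe n)) ∧
        ∃ w ∈ W, w ∉ comp A v ∧ (comp A w).card = mp (pv n * pe n)) atTop (𝓝 1) := by
  intro h
  have s0 : ∀ n : ℕ, 1 ≤ √((n : ℝ) + 1) := fun n =>
    Real.one_le_sqrt.2 (by linarith [Nat.cast_nonneg (α := ℝ) n])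
  have s1 : Tendsto (fun n : ℕ => √((n : ℝ) + 1)) atTop atTop :=
    Real.tendsto_sqrt_atTop.comp (tendsto_atTop_add_const_right _ 1 tendsto_natCast_atTop_atTop)
  have s2 : ∀ n : ℕ, √((n : ℝ) + 1) * √((n : ℝ) + 1) = n + 1 := fun n =>
    Real.mul_self_sqrt (by positivity)
  have h0 : ∀ n : ℕ, 0 < (√((n : ℝ) + 1))⁻¹ ∧ (√((n : ℝ) + 1))⁻¹ ≤ 1 := fun n =>
    ⟨inv_pos.2 (by linarith [s0 n]), inv_le_one_of_one_le₀ (s0 n)⟩
  have h2 : Tendsto (fun n : ℕ => (√((n : ℝ) + 1))⁻¹ * n) atTop atTop := by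
    refine tendsto_atTop_mono (fun n => ?_) (tendsto_atTop_add_const_right _ (-1) s1)
    rw [le_inv_mul_iff₀ (by linarith [s0 n])]
    linarith [s0 n, s2 n]
  obtain ⟨ε, e1, e2⟩ := h (fun _ => 1) (fun n => (√((n : ℝ) + 1))⁻¹) (fun _ => by simp) h0
    (by simp only [one_mul]; exact s1.inv_tendsto_atTop) (by simpa using h2)
  have a1 := partB _ 1 h0 h2 fun n => by
    rw [inv_pow, Real.sq_sqrt (by positivity), mul_inv_le_iff₀ (by positivity)]
    linarith
  simp only [one_mul, prob_one] at e2 a1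
  have := le_of_tendsto_of_tendsto e2 a1 (by
    filter_upwards [e1.eventually (ge_mem_nhds (by norm_num : (0 : ℝ) < 1 / 2))] with n hn
    refine P_mono (h0 n).1.le (h0 n).2 fun A _ ⟨v, hv, h4, h5, _⟩ => ⟨v, hv, ?_, h5⟩
    have b0 : (0 : ℝ) ≤ (univ : Finset (V n)).card := Nat.cast_nonneg _
    have : ((univ : Finset (V n)).card : ℝ) ≤ 2 * (comp A v).card := by nlinarith
    exact_mod_cast this)
  norm_num at this

end Pool.Agent.H61.Cube2
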