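import Mathlib

set_option autoImplicit false
open Filter Topology Polynomial

namespace Pool.Agent.H61.Derrida

/-- One step of the recursion (m = 2) on mass functions. -/
noncomputable def F (q : ℕ → ℝ) (k : ℕ) : ℝ :=
  (∑ x ∈ Finset.HasAntidiagonal.antidiagonal (k + 1), q x.1 * q x.2) + if k = 0 then q 0 ^ 2 else 0

theorem F_eq (q : ℕ → ℝ) (k : ℕ) : F q k =
    (∑ x : Fin 2 → Fin (k + 2), if (∑ i, (x i : ℕ)) = k + 1 then ∏ i, q (x i) else 0)
      + (if k = 0 then q 0 ^ 2 else 0) := by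
  unfold F
  congr 1
  rw [← Finset.sum_filter]
  symm
  refine Finset.sum_bij (fun x _ => ((x 0 : ℕ), (x 1 : ℕ))) ?_ ?_ ?_ ?_
  · intro x hx
    simpa [Fin.sum_univ_two] using hx
  · intro x _ y _ h
    have h1 := (Prod.ext_iff.1 h).1
    have h2 := (Prod.ext_iff.1 h).2
    funext i
    fin_cases i
    · exact Fin.ext h1
    · exact Fin.ext h2
  · rintro ⟨i, j⟩ h
    rw [Finset.HasAntidiagonal.mem_antidiagonal] at h
    simp only at h
    refine ⟨![⟨i, by omega⟩, ⟨j, by omega⟩], ?_, rfl⟩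
    simpa [Fin.sum_univ_two] using h
  · intro x _
    simp [Fin.prod_univ_two]

theorem F_nonneg {q : ℕ → ℝ} (h : ∀ k, 0 ≤ q k) (k : ℕ) : 0 ≤ F q k := by
  unfold F
  refine add_nonneg (Finset.sum_nonneg fun x _ => mul_nonneg (h _) (h _)) ?_
  split_ifs <;> positivity

theorem iter_nonneg {q : ℕ → ℝ} (h : ∀ k, 0 ≤ q k) (n : ℕ) : ∀ k, 0 ≤ F^[n] q k := by
  induction n with
  | zero => exact h
  | succ n ih => rw [Function.iterate_succ_apply']; exact F_nonneg ih

theorem F_mono {a b : ℕ → ℝ} {c : ℝ} (hc : 0 ≤ c) (ha : ∀ k, 0 ≤ a k) (h : ∀ k, c * a k ≤ b k)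
    (k : ℕ) : c ^ 2 * F a k ≤ F b k := by
  have h0 : ∀ k, 0 ≤ c * a k := fun k => mul_nonneg hc (ha k)
  unfold F
  rw [mul_add, Finset.mul_sum]
  refine add_le_add (Finset.sum_le_sum fun x _ => ?_) ?_
  · calc c ^ 2 * (a x.1 * a x.2) = (c * a x.1) * (c * a x.2) := by ring
      _ ≤ b x.1 * b x.2 := mul_le_mul (h _) (h _) (h0 _) ((h0 _).trans (h _))
  · split_ifs
    · rw [← mul_pow]; exact pow_le_pow_left₀ (h0 0) (h 0) 2
    · simp

theorem iter_mono {a b : ℕ → ℝ} {c : ℝ} (hc : 0 ≤ c) (ha : ∀ k, 0 ≤ a k) (h : ∀ k, c * a k ≤ b k)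
    (n : ℕ) : ∀ k, c ^ (2 ^ n) * F^[n] a k ≤ F^[n] b k := by
  induction n with
  | zero => simpa using h
  | succ n ih =>
    intro k
    rw [Function.iterate_succ_apply', Function.iterate_succ_apply', pow_succ, pow_mul]
    exact F_mono (pow_nonneg hc _) (iter_nonneg ha n) ih k

noncomputable def P (Q : ℝ[X]) : ℝ[X] := divX (Q ^ 2) + C (Q.coeff 0 ^ 2)

theorem P_coeff (Q : ℝ[X]) : (P Q).coeff = F Q.coeff := by
  funext k
  rw [P, coeff_add, coeff_divX, sq, coeff_mul, coeff_C, F]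

theorem iter_coeff (Q : ℝ[X]) (n : ℕ) : (P^[n] Q).coeff = F^[n] Q.coeff := by
  induction n with
  | zero => rfl
  | succ n ih => rw [Function.iterate_succ_apply', Function.iterate_succ_apply', P_coeff, ih]

theorem eval_mono {Q : ℝ[X]} (h : ∀ k, 0 ≤ Q.coeff k) {s t : ℝ} (hs : 0 ≤ s) (hst : s ≤ t) :
    Q.eval s ≤ Q.eval t := by
  rw [eval_eq_sum_range, eval_eq_sum_range]
  exact Finset.sum_le_sum fun k _ => mul_le_mul_of_nonneg_left (pow_le_pow_left₀ hs hst k) (h k)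

theorem eval_nn {Q : ℝ[X]} (h : ∀ k, 0 ≤ Q.coeff k) {s : ℝ} (hs : 0 ≤ s) : 0 ≤ Q.eval s := by
  rw [eval_eq_sum_range]
  exact Finset.sum_nonneg fun k _ => mul_nonneg (h k) (pow_nonneg hs k)

theorem der_nn {Q : ℝ[X]} (h : ∀ k, 0 ≤ Q.coeff k) (k : ℕ) : 0 ≤ Q.derivative.coeff k := by
  rw [coeff_derivative]; exact mul_nonneg (h _) (by positivity)

theorem divX_nn {Q : ℝ[X]} (h : ∀ k, 0 ≤ Q.coeff k) (k : ℕ) : 0 ≤ (divX Q).coeff k := by
  rw [coeff_divX]; exact h _

theorem split_eval (Q : ℝ[X]) (s : ℝ) : Q.eval s = s * (divX Q).eval s + Q.coeff 0 := by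
  have h := congrArg (eval s) (X_mul_divX_add Q)
  rw [eval_add, eval_mul, eval_X, eval_C] at h
  exact h.symm

theorem split_der (Q : ℝ[X]) (s : ℝ) :
    Q.derivative.eval s = (divX Q).eval s + s * (divX Q).derivative.eval s := by
  have h := congrArg (fun p => eval s (derivative p)) (X_mul_divX_add Q)
  simp only [derivative_add, derivative_mul, derivative_X, derivative_C, add_zero, one_mul,
    eval_add, eval_mul, eval_X] at h
  exact h.symm

theorem subcrit (Q : ℝ[X]) (h0 : ∀ k, 0 ≤ Q.coeff k) (h1 : Q.eval 1 = 1)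
    (h2 : 0 < Q.eval 2 - 2 * Q.derivative.eval 2) (N : ℕ) :
    ∃ n, N ≤ n ∧ 1 - (P^[n] Q).coeff 0 ≤ 1 / (2 * (n : ℝ) ^ 2) := by
  obtain ⟨s, hs2, hs⟩ : ∃ s : ℝ, 2 < s ∧ 0 < Q.eval s - s * (s - 1) * Q.derivative.eval s := by
    have hc : Continuous fun s : ℝ => Q.eval s - s * (s - 1) * Q.derivative.eval s :=
      Q.continuous.sub ((continuous_id.mul (continuous_id.sub continuous_const)).mul
        Q.derivative.continuous)
    have h3 : ∀ᶠ s in 𝓝 (2 : ℝ), 0 < Q.eval s - s * (s - 1) * Q.derivative.eval s :=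
      hc.continuousAt.eventually (lt_mem_nhds (by norm_num; linarith))
    obtain ⟨s, h4, h5⟩ := ((h3.filter_mono nhdsWithin_le_nhds).and
      (self_mem_nhdsWithin (s := Set.Ioi (2 : ℝ)))).exists
    exact ⟨s, h5, h4⟩
  set R : ℕ → ℝ[X] := fun n => P^[n] Q with hR
  have hRs : ∀ n, R (n + 1) = P (R n) := fun n => Function.iterate_succ_apply' _ _ _
  have hnn : ∀ n k, 0 ≤ (R n).coeff k := fun n k => by
    simp only [hR, iter_coeff]; exact iter_nonneg h0 n k
  have hsq : ∀ n k, 0 ≤ ((R n) ^ 2).coeff k := fun n k => by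
    rw [sq, coeff_mul]; exact Finset.sum_nonneg fun x _ => mul_nonneg (hnn _ _) (hnn _ _)
  have hc0 : ∀ n, ((R n) ^ 2).coeff 0 = (R n).coeff 0 ^ 2 := fun n => by
    rw [sq, mul_coeff_zero, sq]
  have hone : ∀ n, (R n).eval 1 = 1 := by
    intro n
    induction n with
    | zero => exact h1
    | succ n ih =>
      have := split_eval ((R n) ^ 2) 1
      rw [eval_pow, ih, hc0] at this
      rw [hRs, P, eval_add, eval_C]; linarith
  set H : ℕ → ℝ := fun n => (R n).eval s with hH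
  set G : ℕ → ℝ := fun n => (R n).derivative.eval s with hG
  have hs0 : 0 ≤ s := by linarith
  have hH1 : ∀ n, 1 ≤ H n := fun n => by
    have := eval_mono (hnn n) zero_le_one (show (1 : ℝ) ≤ s by linarith)
    rwa [hone] at this
  have hG0 : ∀ n, 0 ≤ G n := fun n => eval_nn (der_nn (hnn n)) hs0
  have hq : ∀ n, 1 - (R n).coeff 0 ≤ G n ∧ H n - s * (s - 1) * G n ≤ 1 := by
    intro n
    have a1 := split_eval (R n) 1
    have a2 := split_eval (R n) s
    have a3 := split_der (R n) s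
    have a4 := eval_mono (divX_nn (hnn n)) zero_le_one (show (1 : ℝ) ≤ s by linarith)
    have a5 := eval_nn (der_nn (divX_nn (hnn n))) hs0
    have a6 := eval_nn (divX_nn (hnn n)) zero_le_one
    rw [hone] at a1
    have a7 : 0 ≤ s * (derivative (R n).divX).eval s := mul_nonneg hs0 a5
    constructor
    · simp only [hG]; linarith
    · simp only [hG, hH]
      rw [a2, a3]
      have b1 : 0 ≤ s * (s - 1) * (s * (derivative (R n).divX).eval s) :=
        mul_nonneg (mul_nonneg hs0 (by linarith)) a7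
      have b2 : 0 ≤ s * (s - 2) * (R n).divX.eval s :=
        mul_nonneg (mul_nonneg hs0 (by linarith)) (by linarith)
      nlinarith
  have hrec : ∀ n, H (n + 1) - s * (s - 1) * G (n + 1) = H n * (H n - 2 * (s - 1) * G n) ∧
      s * G (n + 1) ≤ 2 * H n * G n := by
    intro n
    have a2 := split_eval ((R n) ^ 2) s
    have a3 := split_der ((R n) ^ 2) s
    have a4 := eval_nn (divX_nn (hsq n)) hs0
    rw [eval_pow, hc0] at a2
    rw [derivative_sq, eval_mul, eval_mul, eval_C] at a3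
    have e1 : H (n + 1) = (divX ((R n) ^ 2)).eval s + (R n).coeff 0 ^ 2 := by
      simp only [hH]; rw [hRs, P, eval_add, eval_C]
    have e2 : G (n + 1) = (divX ((R n) ^ 2)).derivative.eval s := by
      simp only [hG]; rw [hRs, P, derivative_add, derivative_C, add_zero]
    rw [e1, e2]
    simp only [hH, hG]
    constructor
    · linear_combination (-1) * a2 + (s - 1) * a3
    · linarith
  have hsum : ∀ n, 0 < H n - s * (s - 1) * G n ∧
      (s - 2) * (s - 1) * ∑ i ∈ Finset.range n, G i ≤ H n - s * (s - 1) * G n := by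
    intro n
    induction n with
    | zero => exact ⟨hs, by rw [Finset.sum_range_zero, mul_zero]; exact hs.le⟩
    | succ n ih =>
      have a1 : 0 ≤ (s - 2) * (s - 1) * G n :=
        mul_nonneg (mul_nonneg (by linarith) (by linarith)) (hG0 n)
      have a2 : H n - 2 * (s - 1) * G n = (H n - s * (s - 1) * G n) + (s - 2) * (s - 1) * G n := by
        ring
      have a3 : H n - 2 * (s - 1) * G n ≤ H n * (H n - 2 * (s - 1) * G n) :=
        le_mul_of_one_le_left (by linarith [ih.1]) (hH1 n)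
      rw [(hrec n).1, Finset.sum_range_succ, mul_add]
      constructor <;> linarith [ih.1, ih.2]
  have hpos : 0 < (s - 2) * (s - 1) := mul_pos (by linarith) (by linarith)
  have hsummable : Summable G := summable_of_sum_range_le (c := 1 / ((s - 2) * (s - 1))) hG0
    fun n => by
      rw [le_div_iff₀ hpos]
      linarith [(hsum n).2, (hq n).2]
  have hG0' : Tendsto G atTop (𝓝 0) := hsummable.tendsto_atTop_zero
  set ρ : ℝ := (s + 2) / (2 * s) with hρ
  have hρ0 : 0 < ρ := by positivity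
  have hρ1 : ρ < 1 := by rw [hρ, div_lt_one (by positivity)]; linarith
  obtain ⟨M, hM⟩ := eventually_atTop.1 (hG0'.eventually
    (gt_mem_nhds (show (0 : ℝ) < (s - 2) / (4 * (s * (s - 1))) by
      apply div_pos (by linarith); nlinarith)))
  have hstep : ∀ n, M ≤ n → G (n + 1) ≤ ρ * G n := by
    intro n hn
    have a1 := hM n hn
    rw [lt_div_iff₀ (by nlinarith)] at a1
    have a2 : H n ≤ (s + 2) / 4 := by linarith [(hq n).2]
    have a3 := (hrec n).2
    have a4 : 2 * H n * G n ≤ 2 * ((s + 2) / 4) * G n := by gcongr; exact hG0 n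
    rw [hρ, div_mul_eq_mul_div, le_div_iff₀ (by positivity)]
    linarith
  have hgeo : ∀ k, G (M + k) ≤ G M * ρ ^ k := by
    intro k
    induction k with
    | zero => simp
    | succ k ih =>
      calc G (M + (k + 1)) ≤ ρ * G (M + k) := hstep (M + k) (by omega)
        _ ≤ ρ * (G M * ρ ^ k) := by gcongr
        _ = G M * ρ ^ (k + 1) := by ring
  have hlim : Tendsto (fun n : ℕ => (G M / ρ ^ M) * ((n : ℝ) ^ 2 * ρ ^ n)) atTop
      (𝓝 ((G M / ρ ^ M) * 0)) :=
    (tendsto_pow_const_mul_const_pow_of_abs_lt_one 2 (by rwa [abs_of_pos hρ0])).const_mul _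
  rw [mul_zero] at hlim
  obtain ⟨n, hn1, hn2⟩ := ((hlim.eventually (gt_mem_nhds (show (0 : ℝ) < 1 / 2 by norm_num))).and
    (eventually_ge_atTop (N + M + 1))).exists
  refine ⟨n, by omega, ?_⟩
  obtain ⟨k, rfl⟩ : ∃ k, n = M + k := ⟨n - M, by omega⟩
  have hn0 : (0 : ℝ) < ((M + k : ℕ) : ℝ) := by exact_mod_cast (show 0 < M + k by omega)
  have e : G M / ρ ^ M * (((M + k : ℕ) : ℝ) ^ 2 * ρ ^ (M + k)) =
      ((M + k : ℕ) : ℝ) ^ 2 * (G M * ρ ^ k) := by
    rw [pow_add]; field_simp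
  rw [e] at hn1
  rw [le_div_iff₀ (by positivity)]
  have a1 := (hq (M + k)).1.trans (hgeo k)
  have a2 : ((M + k : ℕ) : ℝ) ^ 2 * (1 - (R (M + k)).coeff 0) ≤
      ((M + k : ℕ) : ℝ) ^ 2 * (G M * ρ ^ k) := by gcongr
  change (1 - (R (M + k)).coeff 0) * _ ≤ 1
  linarith

noncomputable def eps (j K : ℕ) : ℝ := (1 / 2) ^ (j + 1) / (2 ^ K * ((K : ℝ) - 1) + 1)

open Classical in
noncomputable def Nf (j : ℕ) (Q : ℝ[X]) : ℕ :=
  if h : ∃ n, j + 3 ≤ n ∧ 1 - (P^[n] Q).coeff 0 ≤ 1 / (2 * (n : ℝ) ^ 2) then h.choose else 0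

noncomputable def st : ℕ → ℝ[X] × ℕ
  | 0 => (1, 2)
  | j + 1 => ((st j).1 + C (eps j (max (st j).2 (3 * Nf j (st j).1 + 2))) *
      (X ^ (max (st j).2 (3 * Nf j (st j).1 + 2)) - 1), max (st j).2 (3 * Nf j (st j).1 + 2) + 1)

noncomputable def K (j : ℕ) : ℕ := max (st j).2 (3 * Nf j (st j).1 + 2)

theorem K_two (j : ℕ) : 2 ≤ K j := le_trans (by omega) (le_max_right _ _)

theorem K_mono : StrictMono K := strictMono_nat_of_lt_succ fun j => by
  have : (st (j + 1)).2 = K j + 1 := rfl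
  have h2 : (st (j + 1)).2 ≤ K (j + 1) := le_max_left _ _
  omega

noncomputable def e (j : ℕ) : ℝ := eps j (K j)

theorem st_eq (j : ℕ) : (st j).1 = 1 + ∑ i ∈ Finset.range j, C (e i) * (X ^ K i - 1) := by
  induction j with
  | zero => simp [st]
  | succ j ih => rw [Finset.sum_range_succ, ← add_assoc, ← ih]; rfl

theorem den_ge (j : ℕ) : (2 : ℝ) ^ K j * K j / 2 ≤ 2 ^ K j * ((K j : ℝ) - 1) + 1 := by
  have h1 : (2 : ℝ) ≤ K j := by exact_mod_cast K_two j
  have h2 : (0 : ℝ) < 2 ^ K j := by positivity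
  nlinarith

theorem den_pos (j : ℕ) : (0 : ℝ) < 2 ^ K j * ((K j : ℝ) - 1) + 1 := by
  have h1 : (2 : ℝ) ≤ K j := by exact_mod_cast K_two j
  refine lt_of_lt_of_le ?_ (den_ge j)
  positivity

theorem e_pos (j : ℕ) : 0 < e j := div_pos (by positivity) (den_pos j)

theorem e_mul (j : ℕ) : e j * (2 ^ K j * ((K j : ℝ) - 1) + 1) = (1 / 2) ^ (j + 1) :=
  div_mul_cancel₀ _ (den_pos j).ne'

theorem e_le (j : ℕ) : (K j : ℝ) * e j * 2 ^ K j ≤ (1 / 2) ^ j := by
  have h1 := e_mul j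
  have h2 := mul_le_mul_of_nonneg_left (den_ge j) (e_pos j).le
  rw [pow_succ] at h1
  linarith

theorem e_le' (j : ℕ) : e j * 2 ^ K j ≤ (1 / 2) ^ (j + 1) := by
  have h1 : (2 : ℝ) ≤ K j := by exact_mod_cast K_two j
  have h2 := e_le j
  have h3 : 0 < e j * 2 ^ K j := mul_pos (e_pos j) (by positivity)
  rw [pow_succ]
  nlinarith

theorem e_le'' (j i : ℕ) : e (i + j) ≤ (1 / 2) ^ K j * (1 / 2) ^ (i + 1) := by
  have h1 := e_le' (i + j)
  have h2 : (2 : ℝ) ^ K j ≤ 2 ^ K (i + j) :=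
    pow_le_pow_right₀ (by norm_num) (K_mono.monotone (by omega))
  have h3 : (1 / 2 : ℝ) ^ (i + j + 1) ≤ (1 / 2) ^ (i + 1) :=
    pow_le_pow_of_le_one (by norm_num) (by norm_num) (by omega)
  have h4 : e (i + j) * 2 ^ K j ≤ (1 / 2) ^ (i + 1) :=
    (mul_le_mul_of_nonneg_left h2 (e_pos _).le).trans (h1.trans h3)
  rw [one_div_pow, div_mul_eq_mul_div, le_div_iff₀ (by positivity), one_mul]
  exact h4

theorem hasSum_half : HasSum (fun i : ℕ => (1 / 2 : ℝ) ^ (i + 1)) 1 := by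
  have := hasSum_geometric_two.mul_right (1 / 2)
  simpa [pow_succ] using this

theorem summable_e : Summable e := by
  refine Summable.of_nonneg_of_le (fun j => (e_pos j).le) (fun j => ?_)
    (hasSum_half.summable.mul_left ((1 / 2) ^ K 0))
  simpa using e_le'' 0 j

theorem tail_le (j : ℕ) : ∑' i, e (i + j) ≤ (1 / 2) ^ K j := by
  have := ((summable_nat_add_iff j).2 summable_e).tsum_le_tsum (e_le'' j)
    (hasSum_half.summable.mul_left ((1 / 2) ^ K j))
  rwa [tsum_mul_left, hasSum_half.tsum_eq, mul_one] at this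

theorem tau_le : ∑' i, e i ≤ 1 / 4 := by
  have h1 := tail_le 0
  have h2 : (1 / 2 : ℝ) ^ K 0 ≤ (1 / 2) ^ 2 :=
    pow_le_pow_of_le_one (by norm_num) (by norm_num) (K_two 0)
  simp only [add_zero] at h1
  linarith

noncomputable def r : ℕ → ℝ := Function.extend K e 0

theorem r_K (j : ℕ) : r (K j) = e j := K_mono.injective.extend_apply _ _ _

theorem r_not (k : ℕ) (h : ¬ ∃ j, K j = k) : r k = 0 := by
  rw [r, Function.extend_apply' _ _ _ h]; rfl

theorem r_nonneg (k : ℕ) : 0 ≤ r k := by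
  by_cases h : ∃ j, K j = k
  · obtain ⟨j, rfl⟩ := h; rw [r_K]; exact (e_pos j).le
  · rw [r_not k h]

theorem r_zero : r 0 = 0 := r_not 0 (by rintro ⟨j, h⟩; have := K_two j; omega)

theorem hasSum_r (f : ℕ → ℝ) (a : ℝ) (h : HasSum (fun j => e j * f (K j)) a) :
    HasSum (fun k => r k * f k) a := by
  rw [← K_mono.injective.hasSum_iff]
  · convert h using 1
    funext j; simp [r_K]
  · intro k hk
    rw [r_not k (by simpa using hk), zero_mul]

noncomputable def q (k : ℕ) : ℝ := r k + if k = 0 then 1 - ∑' i, e i else 0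

theorem q_zero : q 0 = 1 - ∑' i, e i := by simp [q, r_zero]

theorem q_nonneg (k : ℕ) : 0 ≤ q k := by
  refine add_nonneg (r_nonneg k) ?_
  split_ifs
  · linarith [tau_le]
  · exact le_rfl

theorem hasSum_q (f : ℕ → ℝ) (a : ℝ) (h : HasSum (fun j => e j * f (K j)) a) :
    HasSum (fun k => q k * f k) (a + (1 - ∑' i, e i) * f 0) := by
  have h1 := (hasSum_r f a h).add (hasSum_ite_eq 0 ((1 - ∑' i, e i) * f 0))
  convert h1 using 1
  funext k
  rw [q, add_mul]
  split_ifs with hk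
  · rw [hk]
  · simp

theorem coeff_st (j k : ℕ) : (st j).1.coeff k =
    (if k = 0 then 1 - ∑ i ∈ Finset.range j, e i else 0) +
      ∑ i ∈ Finset.range j, if K i = k then e i else 0 := by
  rw [st_eq, coeff_add, finsetSum_coeff]
  simp only [coeff_C_mul, coeff_sub, coeff_X_pow, coeff_one]
  split_ifs with hk
  · subst hk
    have h1 : ∀ i, ¬ (0 = K i) := fun i => by have := K_two i; omega
    have h2 : ∀ i, ¬ (K i = 0) := fun i => by have := K_two i; omega
    simp [h1, h2]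
    ring
  · simp only [sub_zero, zero_add]
    refine Finset.sum_congr rfl fun i _ => ?_
    by_cases h : K i = k
    · simp [h]
    · have h' : ¬ k = K i := fun h2 => h h2.symm
      simp [h, h']

theorem part_le (j : ℕ) : ∑ i ∈ Finset.range j, e i ≤ 1 / 4 :=
  (summable_e.sum_le_tsum _ fun i _ => (e_pos i).le).trans tau_le

theorem coeff_st_nonneg (j k : ℕ) : 0 ≤ (st j).1.coeff k := by
  rw [coeff_st]
  refine add_nonneg ?_ (Finset.sum_nonneg fun i _ => ?_)
  · split_ifs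
    · linarith [part_le j]
    · exact le_rfl
  · split_ifs
    · exact (e_pos i).le
    · exact le_rfl

theorem st_one (j : ℕ) : (st j).1.eval 1 = 1 := by
  rw [st_eq]; simp [eval_finsetSum]

theorem st_two (j : ℕ) : (st j).1.eval 2 - 2 * (st j).1.derivative.eval 2 = (1 / 2) ^ j := by
  induction j with
  | zero => simp [st]
  | succ j ih =>
    have h1 : (st (j + 1)).1 = (st j).1 + C (e j) * (X ^ K j - 1) := rfl
    have h2 := e_mul j
    obtain ⟨m, hm⟩ : ∃ m, K j = m + 1 := ⟨K j - 1, by have := K_two j; omega⟩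
    rw [h1]
    rw [hm] at h2 ⊢
    simp only [eval_add, eval_mul, eval_C, eval_sub, eval_pow, eval_X, eval_one, derivative_add,
      derivative_mul, derivative_C, zero_mul, zero_add, derivative_sub, derivative_X_pow,
      derivative_one, sub_zero, Nat.add_sub_cancel]
    push_cast at h2 ⊢
    linear_combination ih - h2

theorem compare (j k : ℕ) : (1 - 2 * (1 / 2) ^ K j) * (st j).1.coeff k ≤ q k := by
  have h0 : (0 : ℝ) ≤ (1 / 2) ^ K j := by positivity
  have hsum : (∑ i ∈ Finset.range j, if K i = k then e i else 0) ≤ r k := by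
    by_cases h : ∃ i, K i = k
    · obtain ⟨i0, rfl⟩ := h
      simp only [K_mono.injective.eq_iff, Finset.sum_ite_eq', r_K]
      split_ifs
      · exact le_rfl
      · exact (e_pos i0).le
    · rw [r_not k h]
      apply le_of_eq
      exact Finset.sum_eq_zero fun i _ => if_neg fun h2 => h ⟨i, h2⟩
  have hs0 : 0 ≤ ∑ i ∈ Finset.range j, if K i = k then e i else 0 :=
    Finset.sum_nonneg fun i _ => by
      split_ifs
      · exact (e_pos i).le
      · exact le_rfl
  rw [coeff_st, q]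
  split_ifs with hk
  · have h1 := summable_e.sum_add_tsum_nat_add j
    have h2 := tail_le j
    have h3 := part_le j
    nlinarith
  · nlinarith

theorem good (j : ℕ) : ∃ n, j + 3 ≤ n ∧ 1 - F^[n] q 0 ≤ 1 / (n : ℝ) ^ 2 := by
  have h := subcrit (st j).1 (coeff_st_nonneg j) (st_one j) (by rw [st_two]; positivity) (j + 3)
  have hN : Nf j (st j).1 = h.choose := dif_pos h
  obtain ⟨h1, h2⟩ := h.choose_spec
  rw [← hN] at h1 h2
  have hK : 3 * Nf j (st j).1 + 2 ≤ K j := le_max_right _ _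
  set n := Nf j (st j).1 with hn
  refine ⟨n, h1, ?_⟩
  have hθ : (1 / 2 : ℝ) ^ K j ≤ (1 / 2) ^ (3 * n + 2) :=
    pow_le_pow_of_le_one (by norm_num) (by norm_num) hK
  have hθ2 : (1 / 2 : ℝ) ^ K j ≤ (1 / 2) ^ 2 :=
    pow_le_pow_of_le_one (by norm_num) (by norm_num) (K_two j)
  have h0 : (0 : ℝ) ≤ (1 / 2) ^ K j := by positivity
  have h3 := iter_mono (c := 1 - 2 * (1 / 2) ^ K j) (by linarith) (coeff_st_nonneg j)
    (compare j) n 0
  rw [iter_coeff] at h2
  have h4 : 1 + ((2 ^ n : ℕ) : ℝ) * (-(2 * (1 / 2) ^ K j)) ≤ (1 + -(2 * (1 / 2) ^ K j)) ^ (2 ^ n) :=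
    one_add_mul_le_pow (by linarith) _
  have hn0 : (0 : ℝ) < n := by exact_mod_cast (show 0 < n by omega)
  have h5 : ((2 ^ n : ℕ) : ℝ) * (2 * (1 / 2) ^ (3 * n + 2)) ≤ 1 / (2 * (n : ℝ) ^ 2) := by
    have a1 : (n : ℝ) ≤ 2 ^ n := by exact_mod_cast (Nat.lt_two_pow_self (n := n)).le
    have a2 : (n : ℝ) ^ 2 ≤ (2 ^ n) ^ 2 := by gcongr
    have a3 : (1 / 2 : ℝ) ^ (3 * n + 2) = 1 / (4 * (2 ^ n) ^ 3) := by
      rw [one_div_pow, pow_add, mul_comm 3 n, pow_mul]; ring
    rw [a3, le_div_iff₀ (by positivity)]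
    push_cast
    have a4 : (0 : ℝ) < 2 ^ n := by positivity
    calc (2 : ℝ) ^ n * (2 * (1 / (4 * (2 ^ n) ^ 3))) * (2 * (n : ℝ) ^ 2)
        = (n : ℝ) ^ 2 / (2 ^ n) ^ 2 := by field_simp; ring
      _ ≤ 1 := by rw [div_le_one (by positivity)]; exact a2
  have h6 : ((2 ^ n : ℕ) : ℝ) * (2 * (1 / 2) ^ K j) ≤ 1 / (2 * (n : ℝ) ^ 2) :=
    le_trans (by gcongr) h5
  have h7 : 0 ≤ F^[n] (st j).1.coeff 0 := iter_nonneg (coeff_st_nonneg j) n 0
  set a := 1 / (2 * (n : ℝ) ^ 2) with ha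
  have ha0 : 0 ≤ a := by positivity
  have ha1 : a ≤ 1 := by
    rw [ha, div_le_one (by positivity)]
    have : (1 : ℝ) ≤ n := by exact_mod_cast (show 1 ≤ n by omega)
    nlinarith
  have h8 : 1 - a ≤ (1 - 2 * (1 / 2) ^ K j) ^ (2 ^ n) := by
    rw [sub_eq_add_neg (1 : ℝ) (2 * _)]; linarith
  have h9 : (1 - a) * (1 - a) ≤ (1 - 2 * (1 / 2) ^ K j) ^ (2 ^ n) * F^[n] (st j).1.coeff 0 :=
    mul_le_mul h8 (by linarith) (by linarith) (by linarith)
  have h10 : 1 / (n : ℝ) ^ 2 = 2 * a := by rw [ha]; field_simp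
  rw [h10]
  nlinarith

theorem s1 : Summable fun j => e j * 2 ^ K j :=
  Summable.of_nonneg_of_le (fun j => (mul_pos (e_pos j) (by positivity)).le) e_le'
    hasSum_half.summable

theorem s2 : Summable fun j => e j * ((K j : ℝ) * 2 ^ K j) :=
  Summable.of_nonneg_of_le (fun j => mul_nonneg (e_pos j).le (by positivity))
    (fun j => by have := e_le j; linarith) summable_geometric_two

theorem sumA : HasSum q 1 := by
  have := hasSum_q (fun _ => 1) _ (by simpa using summable_e.hasSum)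
  simpa using this

theorem sumB : HasSum (fun k => q k * 2 ^ k) (∑' j, e j * 2 ^ K j + (1 - ∑' i, e i)) := by
  have := hasSum_q (fun k => 2 ^ k) _ s1.hasSum
  simpa using this

theorem sumC : HasSum (fun k : ℕ => (k : ℝ) * q k * 2 ^ k) (∑' j, e j * ((K j : ℝ) * 2 ^ K j)) := by
  have := hasSum_q (fun k => (k : ℝ) * 2 ^ k) _ s2.hasSum
  simp only [Nat.cast_zero, zero_mul, mul_zero, add_zero] at this
  convert this using 1
  funext k; ring

theorem crit : ∑' j, e j * ((K j : ℝ) * 2 ^ K j) = ∑' j, e j * 2 ^ K j + (1 - ∑' i, e i) := by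
  have h1 := (s2.hasSum.sub s1.hasSum).add summable_e.hasSum
  have h2 : (fun j => e j * ((K j : ℝ) * 2 ^ K j) - e j * 2 ^ K j + e j) =
      fun j => (1 / 2 : ℝ) ^ (j + 1) := by
    funext j; rw [← e_mul j]; ring
  rw [h2] at h1
  linarith [h1.unique hasSum_half]

theorem not_tendsto : ¬ Tendsto
    (fun n : ℕ => ((∑' k : ℕ, F^[n] q k * (1 / 2 : ℝ) ^ k) - 1) /
      (4 * (2 : ℝ) / (((2 : ℝ) - 1) ^ 2) * ((1 / 2 - 1) / ((2 : ℝ) - 1 / 2)) / ((n : ℝ) ^ 2)))
    atTop (𝓝 1) := by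
  intro h
  obtain ⟨N, hN⟩ := eventually_atTop.1
    (h.eventually (Ioo_mem_nhds (show (1 / 2 : ℝ) < 1 by norm_num) (show (1 : ℝ) < 2 by norm_num)))
  obtain ⟨n, hn1, hn2⟩ := good N
  obtain ⟨h1, h2⟩ := hN n (by omega)
  have hn3 : (3 : ℝ) ≤ n := by exact_mod_cast (show 3 ≤ n by omega)
  have hn0 : (0 : ℝ) < (n : ℝ) ^ 2 := by positivity
  have e1 : ∀ S : ℝ, (S - 1) /
      (4 * (2 : ℝ) / (((2 : ℝ) - 1) ^ 2) * ((1 / 2 - 1) / ((2 : ℝ) - 1 / 2)) / ((n : ℝ) ^ 2)) =
      (1 - S) * (3 / 8 * (n : ℝ) ^ 2) := by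
    intro S; field_simp; ring
  rw [e1] at h1 h2
  by_cases hs : Summable fun k : ℕ => F^[n] q k * (1 / 2 : ℝ) ^ k
  · have h3 := hs.le_tsum 0 fun k _ => mul_nonneg (iter_nonneg q_nonneg n k) (by positivity)
    rw [pow_zero, mul_one] at h3
    rw [le_div_iff₀ hn0] at hn2
    nlinarith
  · rw [tsum_eq_zero_of_not_summable hs] at h2
    nlinarith

end Pool.Agent.H61.Derrida
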