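import Pool.Agent.H61.DimerDefs

set_option autoImplicit false
open MeasureTheory Set

namespace Pool.Agent.H61.Dimer

def h (x : V) : ℤ := x 0 + x 1 + x 2

def e (i : Fin 3) : V := Pi.single i 1

def dz (k : ZMod 3) (c : ℤ) : ZMod 3 := ((c / 2 : ℤ) : ZMod 3) + k

def dir (k : ZMod 3) (c : ℤ) : Fin 3 := dz k c

lemma dir_congr (k : ZMod 3) {c d : ℤ} (h : c / 2 = d / 2) : dir k c = dir k d := by
  unfold dir dz; rw [h]

lemma h_add (x y : V) : h (x + y) = h x + h y := by simp only [h, Pi.add_apply]; ring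

lemma h_sub (x y : V) : h (x - y) = h x - h y := by simp only [h, Pi.sub_apply]; ring

lemma h_e (i : Fin 3) : h (e i) = 1 := by fin_cases i <;> simp [h, e]

def tf (k : ZMod 3) (x : V) : V :=
  if h x % 2 = 0 then x + e (dir k (h x)) else x - e (dir k (h x))

def tc (k : ZMod 3) : Conf := ⟨tf k, fun x => by
  by_cases hx : h x % 2 = 0
  · have a : tf k x = x + e (dir k (h x)) := if_pos hx
    refine ⟨?_, ?_⟩
    · rw [a]; generalize dir k (h x) = i; fin_cases i <;> simp [Adj, e]
    · rw [a, tf, h_add, h_e, if_neg (by omega)]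
      rw [dir_congr k (show (h x + 1) / 2 = h x / 2 by omega), add_sub_cancel_right]
  · have a : tf k x = x - e (dir k (h x)) := if_neg hx
    refine ⟨?_, ?_⟩
    · rw [a]; generalize dir k (h x) = i; fin_cases i <;> simp [Adj, e]
    · rw [a, tf, h_sub, h_e, if_pos (by omega)]
      rw [dir_congr k (show (h x - 1) / 2 = h x / 2 by omega), sub_add_cancel]⟩

lemma adj_cases {x y : V} (a : Adj x y) : ∃ i, y = x + e i ∨ y = x - e i := by
  simp only [Adj] at a
  have b : ∀ i : Fin 3, (∀ j, j ≠ i → x j = y j) → |x i - y i| = 1 →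
      ∃ i, y = x + e i ∨ y = x - e i := by
    intro i h1 h2
    refine ⟨i, ?_⟩
    rcases abs_eq (by norm_num : (0 : ℤ) ≤ 1) |>.1 h2 with h3 | h3
    · refine Or.inr (funext fun j => ?_)
      by_cases hj : j = i
      · subst hj; simp [e]; omega
      · simp [e, hj, h1 j hj]
    · refine Or.inl (funext fun j => ?_)
      by_cases hj : j = i
      · subst hj; simp [e]; omega
      · simp [e, hj, h1 j hj]
  have p0 := abs_nonneg (x 0 - y 0)
  have p1 := abs_nonneg (x 1 - y 1)
  have p2 := abs_nonneg (x 2 - y 2)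
  have q : ∀ j, |x j - y j| = 0 → x j = y j := fun j hj => sub_eq_zero.1 (abs_eq_zero.1 hj)
  by_cases c0 : |x 0 - y 0| = 1
  · refine b 0 (fun j hj => q j ?_) c0
    fin_cases j <;> simp only [Fin.zero_eta, Fin.mk_one, Fin.reduceFinMk] at hj ⊢ <;>
      first | exact absurd rfl hj | omega
  by_cases c1 : |x 1 - y 1| = 1
  · refine b 1 (fun j hj => q j ?_) c1
    fin_cases j <;> simp only [Fin.zero_eta, Fin.mk_one, Fin.reduceFinMk] at hj ⊢ <;>
      first | exact absurd rfl hj | omega
  · refine b 2 (fun j hj => q j ?_) (by omega)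
    fin_cases j <;> simp only [Fin.zero_eta, Fin.mk_one, Fin.reduceFinMk] at hj ⊢ <;>
      first | exact absurd rfl hj | omega

lemma compl_eq (k : ZMod 3) (Λ : Finset V) : Compl Λ (tc k) = {tc k} := by
  classical
  refine Subset.antisymm (fun σ hσ => ?_) (by rintro _ rfl x y _; rfl)
  by_contra hne
  have d1 : ∀ x, σ.1 x ≠ tf k x → x ∈ Λ := fun x hx => by
    by_contra hc
    exact hx ((hσ x _ fun h => hc h.1).2 rfl)
  have d2 : ∀ x, σ.1 x ≠ tf k x → σ.1 (tf k x) ≠ tf k (tf k x) := fun x hx hc => by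
    have a : tf k (tf k x) = x := ((tc k).2 x).2
    rw [a] at hc
    have := congrArg σ.1 hc
    rw [(σ.2 _).2] at this
    exact hx this.symm
  have d3 : ∀ x, σ.1 x ≠ tf k x → σ.1 (σ.1 x) ≠ tf k (σ.1 x) := fun x hx hc => by
    rw [(σ.2 _).2] at hc
    have := congrArg (tf k) hc
    rw [show tf k (tf k (σ.1 x)) = σ.1 x from ((tc k).2 _).2] at this
    exact hx this.symm
  have d4 : ∀ x, h x % 2 ≠ 0 → h (tf k x) % 2 = 0 := fun x hx => by
    rw [tf, if_neg hx, h_sub, h_e]; omega
  have ne : (Λ.filter fun x => σ.1 x ≠ tf k x ∧ h x % 2 = 0).Nonempty := by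
    obtain ⟨x, hx⟩ : ∃ x, σ.1 x ≠ tf k x := by
      by_contra hc
      push Not at hc
      exact hne (Subtype.ext (funext hc))
    by_cases h2 : h x % 2 = 0
    · exact ⟨x, Finset.mem_filter.2 ⟨d1 x hx, hx, h2⟩⟩
    · exact ⟨_, Finset.mem_filter.2 ⟨d1 _ (d2 x hx), d2 x hx, d4 x h2⟩⟩
  obtain ⟨x, hx, hm⟩ := Finset.exists_min_image _
    (fun x => toLex (h (tf k x), tf k x (dir k (h (tf k x))))) ne
  obtain ⟨-, x1, x2⟩ := Finset.mem_filter.1 hx
  have y1 := d2 _ (d3 x x1)
  obtain ⟨i, hi⟩ := adj_cases (σ.2 x).1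
  have y2 : h (σ.1 x) % 2 ≠ 0 := by
    rcases hi with hi | hi <;> rw [hi] <;> simp only [h_add, h_sub, h_e] <;> omega
  have := hm _ (Finset.mem_filter.2 ⟨d1 _ y1, y1, d4 _ y2⟩)
  rw [show tf k (tf k (σ.1 x)) = σ.1 x from ((tc k).2 _).2, Prod.Lex.toLex_le_toLex] at this
  have a : tf k x = x + e (dir k (h x)) := if_pos x2
  rw [a] at this x1
  rcases hi with hi | hi <;> rw [hi] at this x1 <;> simp only [h_add, h_sub, h_e] at this
  · have b : dir k (h x + 1) = dir k (h x) := dir_congr k (by omega)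
    have c : dir k (h x) ≠ i := fun hc => x1 (by rw [hc])
    rw [b] at this
    simp [e, c] at this
  · omega

lemma shift_tc {v : V} (hv : IsEven v) (k : ZMod 3) :
    shift v (tc k) = tc (k - ((h v / 2 : ℤ) : ZMod 3)) := by
  obtain ⟨m, hm⟩ := hv
  have a : h v = 2 * m := by rw [h, hm]; ring
  refine Subtype.ext (funext fun x => ?_)
  show tf k (x - v) + v = tf _ x
  have b : dir k (h x - 2 * m) = dir (k - ((h v / 2 : ℤ) : ZMod 3)) (h x) := by
    show dz _ _ = dz _ _
    simp only [dz, a, show (h x - 2 * m) / 2 = h x / 2 - m by omega,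
      show 2 * m / 2 = m by omega, Int.cast_sub]
    ring
  simp only [tf, h_sub, a, show (h x - 2 * m) % 2 = h x % 2 by omega] at b ⊢
  rw [b]
  split_ifs <;> abel

lemma meas_shift (v : V) : Measurable (shift v) :=
  Measurable.subtype_mk (measurable_pi_lambda _ fun x =>
    (measurable_of_countable fun y : V => y + v).comp
      ((measurable_pi_apply (x - v)).comp measurable_subtype_coe))

noncomputable def nu : Measure Conf := ∑ k : ZMod 3, (1 / 3 : ENNReal) • Measure.dirac (tc k)

lemma three : ∑ _k : ZMod 3, (1 / 3 : ENNReal) = 1 := by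
  rw [Finset.sum_const, Finset.card_univ, ZMod.card, nsmul_eq_mul, one_div]
  exact ENNReal.mul_inv_cancel (by norm_num) (by norm_num)

instance : IsProbabilityMeasure nu := ⟨by simpa [nu] using three⟩

lemma nu_eg : ErgodicGibbs nu := by
  classical
  refine ⟨⟨inferInstance, fun Λ A B hA hB _ => ?_⟩, fun v hv => ?_, fun A hA h => ?_⟩
  · rw [nu, ← lintegral_indicator hB, lintegral_finsetSum_measure, Measure.finsetSum_apply]
    refine Finset.sum_congr rfl fun k _ => ?_
    rw [lintegral_smul_measure, lintegral_dirac, Measure.smul_apply, Measure.dirac_apply]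
    congr 1
    by_cases h1 : tc k ∈ B
    · rw [indicator_of_mem h1, compl_eq]
      by_cases h2 : tc k ∈ A
      · rw [indicator_of_mem (mem_inter h2 h1), inter_eq_right.2 (singleton_subset_iff.2 h2)]; simp
      · rw [indicator_of_notMem fun h => h2 h.1, inter_singleton_eq_empty.2 h2]; simp
    · rw [indicator_of_notMem h1, indicator_of_notMem fun h => h1 h.2]
  · ext A hA
    rw [Measure.map_apply (meas_shift v) hA, nu, Measure.finsetSum_apply, Measure.finsetSum_apply,
      ← Equiv.sum_comp (Equiv.subRight ((h v / 2 : ℤ) : ZMod 3))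
        fun k => ((1 / 3 : ENNReal) • Measure.dirac (tc k)) A]
    refine Finset.sum_congr rfl fun k _ => ?_
    simp only [Measure.smul_apply, Measure.dirac_apply, Equiv.subRight_apply, ← shift_tc hv]
    rfl
  · have a : ∀ k, tc k ∈ A ↔ tc 0 ∈ A := fun k => by
      obtain ⟨m, rfl⟩ := ZMod.intCast_surjective k
      have hv : IsEven ![m, m, 0] := by simp [IsEven]
      have := shift_tc hv m
      rw [show Dimer.h ![m, m, 0] / 2 = m by simp [Dimer.h]; omega, sub_self] at this
      rw [← this, ← mem_preimage (f := shift _), h _ hv]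
    by_cases h0 : tc 0 ∈ A
    · right
      rw [nu, Measure.finsetSum_apply]
      refine Eq.trans (Finset.sum_congr rfl fun k _ => ?_) three
      rw [Measure.smul_apply, Measure.dirac_apply_of_mem ((a k).2 h0), smul_eq_mul, mul_one]
    · left
      rw [nu, Measure.finsetSum_apply]
      refine Finset.sum_eq_zero fun k _ => ?_
      simp [indicator_of_notMem (mt (a k).1 h0)]

lemma nu_cur (i : Fin 3) : current nu i = 1 / 3 := by
  rw [current, nu, integral_finsetSum_measure fun k _ =>
    (integrable_dirac (by simp)).smul_measure (by simp)]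
  simp only [integral_smul_measure, integral_dirac]
  have : ∀ k : ZMod 3, (tc k).1 0 = e k := fun k => by
    show tf k 0 = _
    simp [tf, h, dir, dz]
  simp only [this]
  show ∑ k : Fin 3, _ = _
  rw [Fin.sum_univ_three]
  fin_cases i <;> simp [e]

theorem main : ∃ ν : Measure Conf, ErgodicGibbs ν ∧ (∀ i, current ν i = 1 / 3) ∧
    ∃ E : Set (Conf × Conf), MeasurableSet E ∧ 0 < ν.prod ν E ∧
      ∀ p ∈ E, ∀ x : V, {y | (union p.1 p.2).Reachable x y}.Finite := by
  refine ⟨nu, nu_eg, nu_cur, {tc 0} ×ˢ {tc 0},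
    (measurableSet_singleton _).prod (measurableSet_singleton _), ?_, ?_⟩
  · have : nu {tc 0} ≠ 0 := by
      rw [nu, Measure.finsetSum_apply]
      refine fun h => ?_
      have := Finset.sum_eq_zero_iff.1 h 0 (Finset.mem_univ _)
      simp at this
    rw [Measure.prod_prod]
    exact ENNReal.mul_pos this this
  · rintro ⟨_, _⟩ ⟨rfl, rfl⟩ x
    refine (toFinite {x, (tc 0).1 x}).subset fun y hy => ?_
    rw [mem_ofPred_eq, SimpleGraph.reachable_iff_reflTransGen] at hy
    induction hy with
    | refl => exact Or.inl rfl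
    | tail _ h2 ih =>
      simp only [union, SimpleGraph.fromRel_adj, or_self] at h2
      have t := fun z => ((tc 0).2 z).2
      rcases h2.2 with rfl | rfl <;> rcases ih with h | h
      · rw [h]; exact Or.inr rfl
      · rw [h, t]; exact Or.inl rfl
      · rw [← h, t]; exact Or.inr rfl
      · have := congrArg (tc 0).1 (mem_singleton_iff.1 h)
        rw [t, t] at this
        exact Or.inl this

end Pool.Agent.H61.Dimer
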