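import Mathlib

set_option autoImplicit false
open MeasureTheory

namespace Pool.Agent.H61.Dimer

/-- vertices of the cubic lattice -/
abbrev V := Fin 3 → ℤ

/-- nearest neighbours -/
def Adj (x y : V) : Prop := |x 0 - y 0| + |x 1 - y 1| + |x 2 - y 2| = 1

/-- even vertices -/
def IsEven (x : V) : Prop := Even (x 0 + x 1 + x 2)

/-- dimer configurations: `τ x` is the partner of `x` -/
abbrev Conf := {τ : V → V // ∀ x, Adj x (τ x) ∧ τ (τ x) = x}

/-- the configurations with the same edges not contained in `Λ` as `τ` -/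
def Compl (Λ : Finset V) (τ : Conf) : Set Conf :=
  {σ | ∀ x y, ¬ (x ∈ Λ ∧ y ∈ Λ) → (σ.1 x = y ↔ τ.1 x = y)}

/-- Gibbs measures: given the edges not contained in `Λ`, the configuration is uniform among
the completions -/
def Gibbs (ν : Measure Conf) : Prop :=
  IsProbabilityMeasure ν ∧ ∀ (Λ : Finset V) (A B : Set Conf), MeasurableSet A → MeasurableSet B →
    (∀ τ ∈ B, Compl Λ τ ⊆ B) →
    ν (A ∩ B) = ∫⁻ τ in B, ((A ∩ Compl Λ τ).encard : ENNReal) / ((Compl Λ τ).encard : ENNReal) ∂ν

/-- translation of a configuration by `v` -/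
def shift (v : V) (τ : Conf) : Conf :=
  ⟨fun x => τ.1 (x - v) + v, fun x => ⟨by
    have := (τ.2 (x - v)).1
    unfold Adj at this ⊢
    simpa only [Pi.add_apply, Pi.sub_apply, sub_sub, add_comm (v _)] using this, by simp [(τ.2 (x - v)).2]⟩⟩

/-- ergodic Gibbs measures -/
def ErgodicGibbs (ν : Measure Conf) : Prop :=
  Gibbs ν ∧ (∀ v, IsEven v → ν.map (shift v) = ν) ∧
    ∀ A : Set Conf, MeasurableSet A → (∀ v, IsEven v → shift v ⁻¹' A = A) → ν A = 0 ∨ ν A = 1

/-- the mean current -/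
noncomputable def current (ν : Measure Conf) (i : Fin 3) : ℝ := ∫ τ, (τ.1 0 i : ℝ) ∂ν

/-- the union of two configurations -/
def union (τ σ : Conf) : SimpleGraph V := SimpleGraph.fromRel fun x y => y = τ.1 x ∨ y = σ.1 x

end Pool.Agent.H61.Dimer
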