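import Mathlib

/- A Kraft inequality for exact covers and the count of dyadic tilings. -/

set_option autoImplicit false
open Finset

namespace Pool.Agent.H61.Dyad

def Part {X T : Type} [DecidableEq X] (cov : T → Finset X) (S : Finset T) (R : Finset X) : Prop :=
  S.biUnion cov = R ∧ ∀ s ∈ S, ∀ t ∈ S, s ≠ t → Disjoint (cov s) (cov t)

open Classical in
lemma kraft {X T : Type} [DecidableEq X] [DecidableEq T] (U : Finset T) (cov : T → Finset X)
    (w : T → ℝ) (hw : ∀ t, 0 ≤ w t) (hne : ∀ t ∈ U, (cov t).Nonempty)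
    (hK : ∀ R : Finset X, R.Nonempty →
      ∃ x ∈ R, ∑ t ∈ U.filter (fun t => x ∈ cov t ∧ cov t ⊆ R), w t ≤ 1) (R : Finset X) :
    ∑ S ∈ U.powerset.filter (fun S => Part cov S R), ∏ t ∈ S, w t ≤ 1 := by
  induction R using Finset.strongInduction with
  | H R ih =>
  have hp : ∀ S : Finset T, 0 ≤ ∏ t ∈ S, w t := fun S => Finset.prod_nonneg fun t _ => hw t
  rcases R.eq_empty_or_nonempty with rfl | hR
  · refine le_trans (Finset.sum_le_sum_of_subset_of_nonneg (t := {∅}) (fun S hS => ?_)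
      fun S _ _ => hp S) (by simp)
    simp only [mem_filter, mem_powerset] at hS
    rw [mem_singleton]
    by_contra h
    obtain ⟨t, ht⟩ := Finset.nonempty_iff_ne_empty.2 h
    obtain ⟨x, hx⟩ := hne t (hS.1 ht)
    have : x ∈ S.biUnion cov := mem_biUnion.2 ⟨t, ht, hx⟩
    rw [hS.2.1] at this
    exact absurd this (notMem_empty x)
  obtain ⟨x, hxR, hx⟩ := hK R hR
  set F := U.filter (fun t => x ∈ cov t ∧ cov t ⊆ R) with hF
  have a1 : ∑ S ∈ U.powerset.filter (fun S => Part cov S R), ∏ t ∈ S, w t ≤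
      ∑ t ∈ F, ∑ S ∈ (U.powerset.filter (fun S => Part cov S R)).filter (fun S => t ∈ S),
        ∏ t ∈ S, w t := by
    simp only [Finset.sum_filter (p := fun S => _ ∈ S)]
    rw [Finset.sum_comm]
    refine Finset.sum_le_sum fun S hS => ?_
    simp only [mem_filter, mem_powerset] at hS
    have : x ∈ S.biUnion cov := hS.2.1 ▸ hxR
    obtain ⟨t, ht, hxt⟩ := mem_biUnion.1 this
    have htF : t ∈ F := mem_filter.2 ⟨hS.1 ht, hxt, hS.2.1 ▸ subset_biUnion_of_mem cov ht⟩
    refine le_trans (le_of_eq ?_) (Finset.single_le_sum (f := fun t => if t ∈ S then ∏ t ∈ S, w t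
      else 0) (fun t _ => ?_) htF)
    · simp [ht]
    · split_ifs
      · exact hp S
      · exact le_rfl
  refine a1.trans (le_trans (Finset.sum_le_sum fun t ht => ?_) hx)
  obtain ⟨htU, hxt, htR⟩ := mem_filter.1 ht
  have hlt : R \ cov t ⊂ R := sdiff_ssubset htR ⟨x, hxt⟩
  refine le_trans ?_ (mul_le_of_le_one_right (hw t) (ih _ hlt))
  rw [Finset.mul_sum]
  have a2 : ∑ S ∈ (U.powerset.filter (fun S => Part cov S R)).filter (fun S => t ∈ S),
      ∏ t ∈ S, w t = ∑ S ∈ ((U.powerset.filter (fun S => Part cov S R)).filter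
        (fun S => t ∈ S)).image (fun S => S.erase t), w t * ∏ t ∈ S, w t := by
    rw [Finset.sum_image]
    · refine Finset.sum_congr rfl fun S hS => ?_
      rw [Finset.mul_prod_erase _ _ (mem_filter.1 hS).2]
    · intro S hS S' hS' h
      have h1 := (mem_filter.1 (mem_coe.1 hS)).2
      have h2 := (mem_filter.1 (mem_coe.1 hS')).2
      rw [← insert_erase h1, ← insert_erase h2]
      exact congrArg _ h
  rw [a2]
  refine Finset.sum_le_sum_of_subset_of_nonneg (fun S' hS' => ?_)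
    fun S _ _ => mul_nonneg (hw t) (hp S)
  obtain ⟨S, hS, rfl⟩ := mem_image.1 hS'
  simp only [mem_filter, mem_powerset] at hS ⊢
  obtain ⟨⟨hU, h1, h2⟩, htS⟩ := hS
  refine ⟨(erase_subset _ _).trans hU, ?_, fun a ha b hb hab =>
    h2 a (mem_of_mem_erase ha) b (mem_of_mem_erase hb) hab⟩
  ext y
  simp only [← h1, mem_biUnion, mem_erase, mem_sdiff]
  constructor
  · rintro ⟨s, ⟨hs1, hs2⟩, hy⟩
    exact ⟨⟨s, hs2, hy⟩, fun h => Finset.disjoint_left.1 (h2 s hs2 t htS hs1) hy h⟩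
  · rintro ⟨⟨s, hs, hy⟩, h⟩
    exact ⟨s, ⟨by rintro rfl; exact h hy, hs⟩, hy⟩

lemma rank_sum (P : ℕ → Prop) [DecidablePred P] (N : ℕ) :
    ∑ m ∈ range N, (if P m then (1 / 2 : ℝ) ^ (((Ico (m + 1) N).filter P).card + 1) else 0) ≤ 1 := by
  induction N with
  | zero => simp
  | succ N ih =>
    rw [Finset.sum_range_succ]
    by_cases h : P N
    · have : ∑ m ∈ range N, (if P m then (1 / 2 : ℝ) ^ (((Ico (m + 1) (N + 1)).filter P).card + 1)
          else 0) = (1 / 2) * ∑ m ∈ range N,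
          (if P m then (1 / 2 : ℝ) ^ (((Ico (m + 1) N).filter P).card + 1) else 0) := by
        rw [Finset.mul_sum]
        refine Finset.sum_congr rfl fun m hm => ?_
        have hm' : m + 1 ≤ N := mem_range.1 hm
        rw [Nat.Ico_succ_right_eq_insert_Ico hm', filter_insert, if_pos h,
          card_insert_of_notMem (by simp)]
        split_ifs
        · ring
        · simp
      rw [this, if_pos h]
      simp only [Ico_self, filter_empty, card_empty]
      linarith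
    · rw [if_neg h, add_zero]
      refine le_trans (le_of_eq (Finset.sum_congr rfl fun m hm => ?_)) ih
      have hm' : m + 1 ≤ N := mem_range.1 hm
      rw [Nat.Ico_succ_right_eq_insert_Ico hm', filter_insert, if_neg h]

def rk (n s m a : ℕ) : ℕ :=
  ((Ico (m + 1) (n + 1)).filter fun l => (a * 2 ^ m + s % 2 ^ m) % 2 ^ l = s % 2 ^ l).card

lemma rk_sum (n m a : ℕ) : ∑ s ∈ range (2 ^ n), (rk n s m a : ℝ) ≤ 2 ^ n := by
  have a1 : ∀ l ∈ Ico (m + 1) (n + 1), (((range (2 ^ n)).filter fun s =>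
      (a * 2 ^ m + s % 2 ^ m) % 2 ^ l = s % 2 ^ l).card : ℝ) ≤ 2 ^ n * (1 / 2) ^ (l - m) := by
    intro l hl
    obtain ⟨h1, h2⟩ := mem_Ico.1 hl
    have b1 : ((range (2 ^ n)).filter fun s =>
        (a * 2 ^ m + s % 2 ^ m) % 2 ^ l = s % 2 ^ l).card ≤
        (range (2 ^ m) ×ˢ range (2 ^ (n - l))).card := by
      refine Finset.card_le_card_of_injOn (fun s => (s % 2 ^ m, s / 2 ^ l)) (fun s hs => ?_) ?_
      · simp only [coe_filter, mem_range, Set.mem_ofPred_eq] at hs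
        simp only [coe_product, coe_range, Set.mem_prod, Set.mem_Iio]
        refine ⟨Nat.mod_lt _ (by positivity), Nat.div_lt_of_lt_mul ?_⟩
        rw [← pow_add, Nat.add_sub_cancel' (by omega)]
        exact hs.1
      · intro s hs t ht h
        simp only [coe_filter, mem_range, Set.mem_ofPred_eq] at hs ht
        simp only [Prod.mk.injEq] at h
        rw [← Nat.div_add_mod s (2 ^ l), ← Nat.div_add_mod t (2 ^ l), ← hs.2, ← ht.2, h.1, h.2]
    rw [card_product, card_range, card_range] at b1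
    have b2 : (2 : ℝ) ^ n * (1 / 2) ^ (l - m) = 2 ^ m * 2 ^ (n - l) := by
      obtain ⟨u, rfl⟩ : ∃ u, l = m + u := ⟨l - m, by omega⟩
      obtain ⟨v, rfl⟩ : ∃ v, n = m + u + v := ⟨n - (m + u), by omega⟩
      simp only [Nat.add_sub_cancel_left, pow_add, one_div, inv_pow]
      field_simp
    rw [b2]
    exact_mod_cast b1
  have a2 : ∑ s ∈ range (2 ^ n), (rk n s m a : ℝ) = ∑ l ∈ Ico (m + 1) (n + 1),
      (((range (2 ^ n)).filter fun s =>
      (a * 2 ^ m + s % 2 ^ m) % 2 ^ l = s % 2 ^ l).card : ℝ) := by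
    simp only [rk, card_filter, Nat.cast_sum]
    exact Finset.sum_comm
  rw [a2]
  refine (Finset.sum_le_sum a1).trans ?_
  rw [← Finset.mul_sum, Finset.sum_Ico_eq_sum_range]
  refine mul_le_of_le_one_right (by positivity) ?_
  have a3 : ∀ i, (1 / 2 : ℝ) ^ (m + 1 + i - m) = 1 / 2 * (1 / 2) ^ i := fun i => by
    rw [show m + 1 + i - m = i + 1 by omega]; ring
  simp only [a3, ← Finset.mul_sum]
  have := sum_geometric_two_le (n + 1 - (m + 1))
  linarith

abbrev T (d n : ℕ) := (Fin d → Fin (n + 1)) × (Fin d → Fin (2 ^ n))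
abbrev X (d n : ℕ) := Fin d → Fin (2 ^ n)

variable {d n : ℕ}

def cov (t : T d n) : Finset (X d n) :=
  univ.filter fun c => ∀ k, (c k : ℕ) / 2 ^ (n - t.1 k) = t.2 k

def len (s : ℕ) (t : T d n) : ℕ := ∑ k, (rk n s (n - t.1 k) (t.2 k) + 1)

lemma lt_pow {i a r : ℕ} (hi : i ≤ n) (ha : a < 2 ^ i) (hr : r < 2 ^ (n - i)) :
    a * 2 ^ (n - i) + r < 2 ^ n := by
  have : 2 ^ n = 2 ^ i * 2 ^ (n - i) := by rw [← pow_add, Nat.add_sub_cancel' hi]
  have h2 := Nat.mul_le_mul_right (2 ^ (n - i)) (Nat.succ_le_of_lt ha)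
  rw [Nat.succ_mul] at h2
  omega

lemma cov_ne (t : T d n) (h : ∀ k, (t.2 k : ℕ) < 2 ^ (t.1 k : ℕ)) : (cov t).Nonempty := by
  refine ⟨fun k => ⟨t.2 k * 2 ^ (n - t.1 k) + 0, lt_pow (Nat.lt_succ_iff.1 (t.1 k).2) (h k)
    (by positivity)⟩, mem_filter.2 ⟨mem_univ _, fun k => ?_⟩⟩
  simp

def ag (n s x : ℕ) : ℕ := ((range (n + 1)).filter fun l => x % 2 ^ l = s % 2 ^ l).card

lemma mod_down {x s l m : ℕ} (h : l ≤ m) (e : x % 2 ^ m = s % 2 ^ m) : x % 2 ^ l = s % 2 ^ l := by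
  rw [← Nat.mod_mod_of_dvd x (pow_dvd_pow 2 h), e, Nat.mod_mod_of_dvd s (pow_dvd_pow 2 h)]

lemma ag_lt {s x y m : ℕ} (hm : m ≤ n) (hx : x % 2 ^ m ≠ s % 2 ^ m) (hy : y % 2 ^ m = s % 2 ^ m) :
    ag n s x < ag n s y := by
  refine card_lt_card ⟨fun l hl => ?_, fun h => ?_⟩
  · simp only [mem_filter] at hl ⊢
    refine ⟨hl.1, mod_down ?_ hy⟩
    by_contra h
    exact hx (mod_down (by omega) hl.2)
  · have : m ∈ (range (n + 1)).filter fun l => y % 2 ^ l = s % 2 ^ l :=
      mem_filter.2 ⟨mem_range.2 (by omega), hy⟩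
    exact hx (mem_filter.1 (h this)).2

open Classical in
lemma hK (U : Finset (T d n)) (hU : ∀ t ∈ U, ∀ k, (t.2 k : ℕ) < 2 ^ (t.1 k : ℕ)) (s : ℕ)
    (R : Finset (X d n)) (hR : R.Nonempty) :
    ∃ x ∈ R, ∑ t ∈ U.filter (fun t => x ∈ cov t ∧ cov t ⊆ R), (1 / 2 : ℝ) ^ len s t ≤ 1 := by
  obtain ⟨x, hx, hmax⟩ := R.exists_max_image (fun x => ∑ k, ag n s (x k)) hR
  refine ⟨x, hx, ?_⟩
  have a1 : ∀ t ∈ U.filter (fun t => x ∈ cov t ∧ cov t ⊆ R), ∀ k,
      (x k : ℕ) % 2 ^ (n - t.1 k) = s % 2 ^ (n - t.1 k) := by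
    intro t ht k
    obtain ⟨htU, hxt, htR⟩ := mem_filter.1 ht
    by_contra hne
    have hr : s % 2 ^ (n - t.1 k) < 2 ^ (n - t.1 k) := Nat.mod_lt _ (by positivity)
    let z : Fin (2 ^ n) := ⟨t.2 k * 2 ^ (n - t.1 k) + s % 2 ^ (n - t.1 k),
      lt_pow (Nat.lt_succ_iff.1 (t.1 k).2) (hU t htU k) hr⟩
    have hy : Function.update x k z ∈ cov t := by
      refine mem_filter.2 ⟨mem_univ _, fun j => ?_⟩
      by_cases hj : j = k
      · subst hj
        rw [Function.update_self]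
        show (t.2 j * 2 ^ (n - t.1 j) + s % 2 ^ (n - t.1 j)) / 2 ^ (n - t.1 j) = _
        rw [mul_comm, Nat.mul_add_div (by positivity), Nat.div_eq_of_lt hr, add_zero]
      · rw [Function.update_of_ne hj]
        exact (mem_filter.1 hxt).2 j
    have b1 := hmax _ (htR hy)
    have b2 : ag n s (x k) < ag n s z := ag_lt (Nat.sub_le _ _) hne (by
      show (t.2 k * 2 ^ (n - t.1 k) + s % 2 ^ (n - t.1 k)) % 2 ^ (n - t.1 k) = _
      rw [mul_comm, Nat.mul_add_mod, Nat.mod_mod])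
    have b3 : ∑ j, ag n s (x j) < ∑ j, ag n s (Function.update x k z j) := by
      refine Finset.sum_lt_sum (fun j _ => ?_) ⟨k, mem_univ _, by rwa [Function.update_self]⟩
      by_cases hj : j = k
      · subst hj
        rw [Function.update_self]
        exact b2.le
      · rw [Function.update_of_ne hj]
    exact absurd b1 (not_le.2 b3)
  let g : Fin d → Fin (n + 1) → ℝ := fun k i =>
    if (x k : ℕ) % 2 ^ (n - i) = s % 2 ^ (n - i) then
      (1 / 2 : ℝ) ^ (((Ico (n - i + 1) (n + 1)).filter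
        fun l => (x k : ℕ) % 2 ^ l = s % 2 ^ l).card + 1) else 0
  have g0 : ∀ k i, 0 ≤ g k i := fun k i => by
    simp only [g]
    split_ifs
    · positivity
    · exact le_rfl
  have a2 : ∑ t ∈ U.filter (fun t => x ∈ cov t ∧ cov t ⊆ R), (1 / 2 : ℝ) ^ len s t =
      ∑ i ∈ (U.filter (fun t => x ∈ cov t ∧ cov t ⊆ R)).image Prod.fst, ∏ k, g k (i k) := by
    rw [Finset.sum_image]
    · refine Finset.sum_congr rfl fun t ht => ?_
      rw [len, ← Finset.prod_pow_eq_pow_sum]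
      refine Finset.prod_congr rfl fun k _ => ?_
      simp only [g]
      rw [if_pos (a1 t ht k), rk, ← a1 t ht k, ← (mem_filter.1 (mem_filter.1 ht).2.1).2 k,
        Nat.div_add_mod']
    · intro t ht t' ht' h
      refine Prod.ext h (funext fun k => Fin.ext ?_)
      rw [← (mem_filter.1 (mem_filter.1 (mem_coe.1 ht)).2.1).2 k,
        ← (mem_filter.1 (mem_filter.1 (mem_coe.1 ht')).2.1).2 k, h]
  rw [a2]
  refine le_trans (Finset.sum_le_sum_of_subset_of_nonneg (subset_univ _)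
    fun i _ _ => Finset.prod_nonneg fun k _ => g0 k _) ?_
  rw [← Fintype.piFinset_univ, ← Finset.prod_univ_sum]
  refine Finset.prod_le_one (fun k _ => Finset.sum_nonneg fun i _ => g0 k i) fun k _ => ?_
  refine le_trans (le_of_eq ?_) (rank_sum (fun l => (x k : ℕ) % 2 ^ l = s % 2 ^ l) (n + 1))
  rw [← Finset.sum_range_reflect, Finset.sum_range]
  simp only [g, Nat.add_sub_cancel]

open Classical in
lemma count (U : Finset (T d n)) (hU : ∀ t ∈ U, ∀ k, (t.2 k : ℕ) < 2 ^ (t.1 k : ℕ)) :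
    ∑ S ∈ U.powerset.filter (fun S => Part cov S univ), ((1 / 4 : ℝ) ^ d) ^ S.card ≤ 1 := by
  have a1 := fun s => kraft U cov (fun t => (1 / 2 : ℝ) ^ len s t) (fun t => by positivity)
    (fun t ht => cov_ne t (hU t ht)) (hK U hU s) univ
  have a2 : ∀ S : Finset (T d n), 2 ^ n * ((1 / 4 : ℝ) ^ d) ^ S.card ≤
      ∑ s ∈ range (2 ^ n), ∏ t ∈ S, (1 / 2 : ℝ) ^ len s t := by
    intro S
    have b1 : ∀ F G : ℕ, (1 / 2 : ℝ) ^ G * (1 + G - F) ≤ (1 / 2) ^ F := by
      intro F G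
      rcases le_or_gt F G with h | h
      · obtain ⟨u, rfl⟩ := Nat.exists_eq_add_of_le h
        have c1 : (1 + u : ℝ) ≤ 2 ^ u := by
          have := one_add_mul_le_pow (by norm_num : (-2 : ℝ) ≤ 1) u
          norm_num at this
          exact this
        have c2 : (1 / 2 : ℝ) ^ u * (1 + u) ≤ 1 := by
          rw [one_div, inv_pow, inv_mul_le_iff₀ (by positivity)]
          linarith
        have c3 := mul_le_mul_of_nonneg_left c2 (by positivity : 0 ≤ (1 / 2 : ℝ) ^ F)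
        push_cast
        calc _ = (1 / 2 : ℝ) ^ F * ((1 / 2 : ℝ) ^ u * (1 + u)) := by ring
          _ ≤ _ := by linarith
      · have c1 : (G : ℝ) + 1 ≤ F := by exact_mod_cast h
        exact le_trans (mul_nonpos_of_nonneg_of_nonpos (by positivity) (by linarith))
          (by positivity)
    have b2 : ∑ s ∈ range (2 ^ n), ((∑ t ∈ S, len s t : ℕ) : ℝ) ≤ 2 ^ n * (2 * d * S.card : ℕ) := by
      simp only [len, Nat.cast_sum]
      rw [Finset.sum_comm]
      refine le_trans (Finset.sum_le_card_nsmul _ _ ((2 : ℝ) ^ n * (2 * d)) fun t _ => ?_) ?_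
      swap
      · push_cast
        rw [nsmul_eq_mul]
        exact le_of_eq (by ring)
      rw [Finset.sum_comm]
      refine le_trans (Finset.sum_le_card_nsmul _ _ ((2 : ℝ) ^ n * 2) fun k _ => ?_) ?_
      swap
      · simp only [card_univ, Fintype.card_fin, nsmul_eq_mul]
        exact le_of_eq (by ring)
      push_cast
      rw [Finset.sum_add_distrib]
      have := rk_sum n (n - t.1 k) (t.2 k)
      simp only [sum_const, card_range, nsmul_eq_mul, mul_one]
      push_cast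
      linarith
    simp only [Finset.prod_pow_eq_pow_sum]
    refine le_trans ?_ (Finset.sum_le_sum fun s _ => b1 (∑ t ∈ S, len s t) (2 * d * S.card))
    rw [← Finset.mul_sum, Finset.sum_sub_distrib]
    have b3 : ((1 / 4 : ℝ) ^ d) ^ S.card = (1 / 2) ^ (2 * d * S.card) := by
      rw [pow_mul, pow_mul]; norm_num
    rw [b3, mul_comm]
    refine mul_le_mul_of_nonneg_left ?_ (by positivity)
    simp only [sum_const, card_range, nsmul_eq_mul]
    push_cast at b2 ⊢
    linarith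
  have a3 := (Finset.sum_le_sum fun S
    (_ : S ∈ U.powerset.filter (fun S => Part cov S univ)) => a2 S)
  rw [Finset.sum_comm, ← Finset.mul_sum] at a3
  have a4 := a3.trans (Finset.sum_le_card_nsmul _ _ 1 fun s _ => a1 s)
  simp only [card_range, nsmul_eq_mul, mul_one] at a4
  push_cast at a4
  exact le_of_mul_le_mul_left (by simpa using a4) (by positivity : (0 : ℝ) < 2 ^ n)

open Classical in
lemma union_bound {V : Type} (U : Finset V) (E : Finset V → Prop) {p : ℝ} (h0 : 0 ≤ p)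
    (h1 : p ≤ 1) :
    ∑ A ∈ U.powerset, (if ∃ S ⊆ A, E S then p ^ A.card * (1 - p) ^ (U.card - A.card) else 0) ≤
      ∑ S ∈ U.powerset.filter E, p ^ S.card := by
  have hq : 0 ≤ 1 - p := by linarith
  have a1 : ∀ S ∈ U.powerset.filter E, p ^ S.card = ∑ A ∈ U.powerset,
      (if S ⊆ A then p ^ A.card * (1 - p) ^ (U.card - A.card) else 0) := by
    intro S hS
    have hSU : S ⊆ U := mem_powerset.1 (mem_filter.1 hS).1
    have b1 := Finset.prod_add (fun _ : V => p) (fun x => if x ∈ S then 0 else 1 - p) U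
    have b2 : ∏ x ∈ U, (p + if x ∈ S then 0 else 1 - p) = p ^ S.card := by
      rw [← Finset.prod_const]
      symm
      refine (Finset.prod_congr rfl fun x hx => by simp [hx]).trans
        (Finset.prod_subset hSU fun x _ hx => by simp [hx])
    rw [← b2, b1]
    refine Finset.sum_congr rfl fun A hA => ?_
    split_ifs with h
    · rw [prod_const, ← card_sdiff_of_subset (mem_powerset.1 hA), ← prod_const (1 - p)]
      congr 1
      exact Finset.prod_congr rfl fun x hx => if_neg fun hx' => (mem_sdiff.1 hx).2 (h hx')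
    · obtain ⟨x, hx, hxA⟩ := not_subset.1 h
      rw [Finset.prod_eq_zero (f := fun x => if x ∈ S then (0 : ℝ) else 1 - p)
        (mem_sdiff.2 ⟨hSU hx, hxA⟩) (if_pos hx), mul_zero]
  rw [Finset.sum_congr rfl a1, Finset.sum_comm]
  refine Finset.sum_le_sum fun A hA => ?_
  have hn : ∀ S ∈ U.powerset.filter E,
      0 ≤ (if S ⊆ A then p ^ A.card * (1 - p) ^ (U.card - A.card) else 0) := fun S _ => by
    split_ifs
    · positivity
    · exact le_rfl
  split_ifs with h
  · obtain ⟨S, hS, hE⟩ := h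
    refine le_trans (le_of_eq ?_) (Finset.single_le_sum hn
      (mem_filter.2 ⟨mem_powerset.2 (hS.trans (mem_powerset.1 hA)), hE⟩))
    rw [if_pos hS]
  · exact Finset.sum_nonneg hn

def box (x : T d n) : Set (Fin d → ℝ) :=
  Set.pi Set.univ (fun k => Set.Icc (((x.2 k : ℕ) : ℝ) / 2 ^ (x.1 k : ℕ))
    ((((x.2 k : ℕ) : ℝ) + 1) / 2 ^ (x.1 k : ℕ)))

def Til (S : Finset (T d n)) : Prop :=
  (⋃ x ∈ S, box x) = Set.Icc (0 : Fin d → ℝ) 1 ∧
    ∀ x ∈ S, ∀ y ∈ S, x ≠ y → Disjoint (interior (box x)) (interior (box y))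

lemma mem_int (x : T d n) (y : Fin d → ℝ) : y ∈ interior (box x) ↔ ∀ k,
    ((x.2 k : ℕ) : ℝ) / 2 ^ (x.1 k : ℕ) < y k ∧ y k < (((x.2 k : ℕ) : ℝ) + 1) / 2 ^ (x.1 k : ℕ) := by
  rw [box, interior_pi_set Set.finite_univ]
  simp [interior_Icc]

lemma scale {i : ℕ} (hi : i ≤ n) (a : ℝ) : a / 2 ^ i = a * 2 ^ (n - i) / 2 ^ n := by
  obtain ⟨u, rfl⟩ := Nat.exists_eq_add_of_le hi
  rw [Nat.add_sub_cancel_left, pow_add]
  field_simp

noncomputable def ctr (c : X d n) : Fin d → ℝ := fun k => (((c k : ℕ) : ℝ) + 1 / 2) / 2 ^ n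

lemma part_of_til {S : Finset (T d n)} (h : Til S) : Part cov S univ := by
  have hn : (0 : ℝ) < 2 ^ n := by positivity
  have a1 : ∀ (c : X d n) (x : T d n), c ∈ cov x → ctr c ∈ interior (box x) := by
    intro c x hc
    rw [mem_int]
    intro k
    have e := (mem_filter.1 hc).2 k
    have hi := Nat.lt_succ_iff.1 (x.1 k).2
    rw [scale hi, scale hi (_ + 1), ctr, div_lt_div_iff_of_pos_right hn,
      div_lt_div_iff_of_pos_right hn]
    have b1 := Nat.div_add_mod' (c k) (2 ^ (n - x.1 k))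
    have b2 := Nat.mod_lt (c k) (by positivity : 0 < 2 ^ (n - x.1 k))
    rw [e] at b1
    have b3 : (x.2 k : ℕ) * 2 ^ (n - x.1 k) ≤ c k := by omega
    have b4 : (c k : ℕ) + 1 ≤ (x.2 k : ℕ) * 2 ^ (n - x.1 k) + 2 ^ (n - x.1 k) := by omega
    have b5 : ((x.2 k : ℕ) : ℝ) * 2 ^ (n - x.1 k) ≤ (c k : ℕ) := by exact_mod_cast b3
    have b6 : ((c k : ℕ) : ℝ) + 1 ≤ ((x.2 k : ℕ) : ℝ) * 2 ^ (n - x.1 k) + 2 ^ (n - x.1 k) := by
      exact_mod_cast b4
    constructor <;> linarith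
  refine ⟨eq_univ_of_forall fun c => ?_, fun s hs t ht hst => Finset.disjoint_left.2 fun c h1 h2 =>
    Set.disjoint_left.1 (h.2 s hs t ht hst) (a1 c s h1) (a1 c t h2)⟩
  have b1 : ctr c ∈ Set.Icc (0 : Fin d → ℝ) 1 := by
    refine ⟨fun k => by simp only [ctr, Pi.zero_apply]; positivity, fun k => ?_⟩
    have : ((c k : ℕ) : ℝ) + 1 ≤ 2 ^ n := by exact_mod_cast (c k).2
    simp only [ctr, Pi.one_apply]
    rw [div_le_one hn]
    linarith
  rw [← h.1] at b1
  simp only [Set.mem_iUnion] at b1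
  obtain ⟨x, hx, hc⟩ := b1
  refine mem_biUnion.2 ⟨x, hx, mem_filter.2 ⟨mem_univ _, fun k => ?_⟩⟩
  obtain ⟨e1, e2⟩ := hc k (Set.mem_univ k)
  have hi := Nat.lt_succ_iff.1 (x.1 k).2
  rw [scale hi, ctr, div_le_div_iff_of_pos_right hn] at e1 e2
  have b3 : ((x.2 k : ℕ) : ℝ) * 2 ^ (n - x.1 k) < (c k : ℕ) + 1 := by linarith
  have b4 : ((c k : ℕ) : ℝ) < (((x.2 k : ℕ) : ℝ) + 1) * 2 ^ (n - x.1 k) := by linarith
  have b5 : (x.2 k : ℕ) * 2 ^ (n - x.1 k) < (c k : ℕ) + 1 := by exact_mod_cast b3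
  have b6 : (c k : ℕ) < ((x.2 k : ℕ) + 1) * 2 ^ (n - x.1 k) := by exact_mod_cast b4
  exact Nat.div_eq_of_lt_le (by omega) b6

def U (d n : ℕ) : Finset (T d n) :=
  univ.filter (fun x => ∑ k, (x.1 k : ℕ) = n ∧ ∀ k, (x.2 k : ℕ) < 2 ^ (x.1 k : ℕ))

open Classical in
lemma small {p : ℝ} (h0 : 0 ≤ p) (h1 : p ≤ (1 / 4) ^ d / 2) :
    ∑ A ∈ (U d n).powerset, (if ∃ S ⊆ A, Til S then
      p ^ A.card * (1 - p) ^ ((U d n).card - A.card) else 0) ≤ 1 / 2 := by
  have hq : (1 / 4 : ℝ) ^ d ≤ 1 := pow_le_one₀ (by norm_num) (by norm_num)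
  refine (union_bound _ _ h0 (by linarith)).trans ?_
  have a1 := count (U d n) fun t ht => (mem_filter.1 ht).2.2
  refine le_trans ?_ (mul_le_of_le_one_right (by norm_num : (0 : ℝ) ≤ 1 / 2) a1)
  rw [Finset.mul_sum]
  refine le_trans (Finset.sum_le_sum (g := fun S => 1 / 2 * ((1 / 4 : ℝ) ^ d) ^ S.card)
    fun S hS => ?_) (Finset.sum_le_sum_of_subset_of_nonneg (fun S hS => ?_)
      fun S _ _ => by positivity)
  · have hS' := (mem_filter.1 hS).2
    have b1 : (0 : Fin d → ℝ) ∈ ⋃ x ∈ S, box x := by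
      rw [hS'.1]
      exact ⟨le_rfl, zero_le_one⟩
    simp only [Set.mem_iUnion] at b1
    obtain ⟨x, hx, -⟩ := b1
    have b2 : S.card ≠ 0 := card_ne_zero_of_mem hx
    calc p ^ S.card ≤ (1 / 2 * (1 / 4 : ℝ) ^ d) ^ S.card := pow_le_pow_left₀ h0 (by linarith) _
      _ = (1 / 2) ^ S.card * ((1 / 4 : ℝ) ^ d) ^ S.card := mul_pow _ _ _
      _ ≤ _ := mul_le_mul_of_nonneg_right (pow_le_of_le_one (by norm_num) (by norm_num) b2)
        (by positivity)
  · exact mem_filter.2 ⟨(mem_filter.1 hS).1, part_of_til (mem_filter.1 hS).2⟩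

def slab (k : Fin d) (a : Fin (2 ^ n)) : T d n :=
  (fun j => if j = k then Fin.last n else 0, fun j => if j = k then a else ⟨0, by positivity⟩)

lemma exists_til (k : Fin d) : ∃ S ⊆ U d n, Til S := by
  have hn : (0 : ℝ) < 2 ^ n := by positivity
  refine ⟨univ.image (slab k), fun x hx => ?_, ?_, fun x hx y hy hxy => ?_⟩
  · obtain ⟨a, -, rfl⟩ := mem_image.1 hx
    refine mem_filter.2 ⟨mem_univ _, ?_, fun j => ?_⟩
    · rw [Finset.sum_eq_single k]
      · simp [slab]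
      · intro j _ hj
        simp [slab, hj]
      · simp
    · by_cases hj : j = k <;> simp [slab, hj]
  · ext y
    simp only [Set.mem_iUnion, mem_image, mem_univ, true_and]
    constructor
    · rintro ⟨_, ⟨a, rfl⟩, hy⟩
      have ha : ((a : ℕ) : ℝ) + 1 ≤ 2 ^ n := by exact_mod_cast a.2
      refine ⟨fun j => ?_, fun j => ?_⟩
      · exact le_trans (by positivity) (hy j (Set.mem_univ j)).1
      · refine le_trans (hy j (Set.mem_univ j)).2 ?_
        by_cases hj : j = k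
        · simp only [slab, hj, if_true, Fin.val_last, Pi.one_apply]
          rwa [div_le_one hn]
        · simp [slab, hj]
    · rintro ⟨h0, h1⟩
      have y0 : 0 ≤ y k * 2 ^ n := mul_nonneg (h0 k) hn.le
      have y1 : y k * 2 ^ n ≤ 2 ^ n := mul_le_of_le_one_left hn.le (h1 k)
      have hp : 0 < 2 ^ n := by positivity
      obtain ⟨a, ha, e1, e2⟩ : ∃ a : ℕ, a < 2 ^ n ∧ (a : ℝ) ≤ y k * 2 ^ n ∧
          y k * 2 ^ n ≤ a + 1 := by
        rcases y1.eq_or_lt with h | h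
        · refine ⟨2 ^ n - 1, by omega, ?_, ?_⟩ <;> rw [Nat.cast_sub hp] <;> push_cast <;> linarith
        · refine ⟨⌊y k * 2 ^ n⌋₊, (Nat.floor_lt y0).2 (by exact_mod_cast h), Nat.floor_le y0,
            (Nat.lt_floor_add_one _).le⟩
      refine ⟨_, ⟨⟨a, ha⟩, rfl⟩, fun j _ => ?_⟩
      by_cases hj : j = k
      · simp only [slab, hj, if_true, Fin.val_last, Set.mem_Icc]
        rw [div_le_iff₀ hn, le_div_iff₀ hn]
        exact ⟨e1, e2⟩
      · simpa [slab, hj] using And.intro (h0 j) (h1 j)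
  · obtain ⟨a, -, rfl⟩ := mem_image.1 hx
    obtain ⟨b, -, rfl⟩ := mem_image.1 hy
    refine Set.disjoint_left.2 fun z h1 h2 => hxy ?_
    have e1 := (mem_int _ _).1 h1 k
    have e2 := (mem_int _ _).1 h2 k
    simp only [slab, if_true, Fin.val_last] at e1 e2
    have c1 := e1.1.trans e2.2
    have c2 := e2.1.trans e1.2
    rw [div_lt_div_iff_of_pos_right hn] at c1 c2
    have c3 : (a : ℕ) < b + 1 := by exact_mod_cast c1
    have c4 : (b : ℕ) < a + 1 := by exact_mod_cast c2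
    rw [show a = b from Fin.ext (by omega)]

open Classical in
lemma at_one (k : Fin d) : ∑ A ∈ (U d n).powerset, (if ∃ S ⊆ A, Til S then
      (1 : ℝ) ^ A.card * (1 - 1) ^ ((U d n).card - A.card) else 0) = 1 := by
  rw [Finset.sum_eq_single (U d n)]
  · rw [if_pos (exists_til k)]
    simp
  · intro A hA hne
    have := card_lt_card (Finset.ssubset_iff_subset_ne.2 ⟨mem_powerset.1 hA, hne⟩)
    rw [sub_self, zero_pow (by omega), mul_zero, ite_self]
  · simp

open Classical in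
theorem main (hd : 0 < d) : 0 < sInf {p : ℝ | p ∈ Set.Icc (0 : ℝ) 1 ∧
    Filter.Tendsto (fun n : ℕ => ∑ A ∈ (U d n).powerset, if ∃ S ⊆ A, Til S then
      p ^ A.card * (1 - p) ^ ((U d n).card - A.card) else 0) Filter.atTop (nhds 1)} := by
  refine lt_of_lt_of_le (by positivity : (0 : ℝ) < (1 / 4) ^ d / 2) (le_csInf ⟨1, ⟨zero_le_one,
    le_rfl⟩, ?_⟩ fun p hp => ?_)
  · simp only [at_one ⟨0, hd⟩]
    exact tendsto_const_nhds
  · by_contra h
    have := le_of_tendsto' hp.2 fun n => small hp.1.1 (not_le.1 h).le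
    norm_num at this

end Pool.Agent.H61.Dyad
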