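import Mathlib

set_option autoImplicit false
open scoped Classical
open MeasureTheory ProbabilityTheory

namespace Pool.Agent.H61.EdgeProc

section Perm
variable {α : Type}

noncomputable def wt (w : α → ℝ) (l : List α) : ℝ :=
  ∏ t ∈ Finset.range l.length,
    (if 0 < ((l.drop t).map w).sum
      then (((l.drop t).take 1).map w).sum / ((l.drop t).map w).sum
      else 1 / ((l.drop t).length : ℝ))

theorem wt_cons (w : α → ℝ) (a : α) (r : List α) : wt w (a :: r) =
    wt w r * (if 0 < ((a :: r).map w).sum then w a / ((a :: r).map w).sum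
      else 1 / (((a :: r).length : ℕ) : ℝ)) := by
  unfold wt
  rw [List.length_cons, Finset.prod_range_succ']
  simp

theorem wt_nonneg (w : α → ℝ) (hw : ∀ a, 0 ≤ w a) (l : List α) : 0 ≤ wt w l := by
  induction l with
  | nil => simp [wt]
  | cons a r ih =>
    rw [wt_cons]
    refine mul_nonneg ih ?_
    split_ifs with h
    · exact div_nonneg (hw a) h.le
    · positivity

theorem sum_wt_le (w : α → ℝ) (hw : ∀ a, 0 ≤ w a) (n : ℕ) : ∀ (s : Finset α), s.card = n →
    ∀ P : Finset (List α), (∀ l ∈ P, l.Perm s.toList) → ∑ l ∈ P, wt w l ≤ 1 := by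
  induction n with
  | zero =>
    intro s hs P hP
    rw [Finset.card_eq_zero] at hs
    subst hs
    have : P ⊆ {[]} := fun l hl => by simpa using hP l hl
    calc ∑ l ∈ P, wt w l ≤ ∑ l ∈ ({[]} : Finset (List α)), wt w l :=
          Finset.sum_le_sum_of_subset_of_nonneg this fun l _ _ => wt_nonneg w hw l
      _ = 1 := by simp [wt]
  | succ n ih =>
    intro s hs P hP
    let Q : α → Finset (List α) := fun a => (s.erase a).toList.permutations.toFinset
    have hQ : ∀ a, ∀ r ∈ Q a, r.Perm (s.erase a).toList := fun a r hr => by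
      simpa [Q, List.mem_permutations] using hr
    have hcons : ∀ a ∈ s, s.toList.Perm (a :: (s.erase a).toList) := by
      intro a ha
      have := Finset.toList_insert (Finset.notMem_erase a s)
      rwa [Finset.insert_erase ha] at this
    have hsub : P ⊆ s.biUnion fun a => (Q a).image (List.cons a) := by
      intro l hl
      have h1 := hP l hl
      rcases l with _ | ⟨a, r⟩
      · have := h1.length_eq
        rw [Finset.length_toList, hs] at this
        simp at this
      · have ha : a ∈ s := by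
          rw [← Finset.mem_toList]; exact h1.subset (by simp)
        rw [Finset.mem_biUnion]
        refine ⟨a, ha, Finset.mem_image_of_mem _ ?_⟩
        simp only [Q, List.mem_toFinset, List.mem_permutations]
        exact (h1.trans (hcons a ha)).cons_inv
    set p : α → ℝ := fun a => if 0 < ∑ b ∈ s, w b then w a / ∑ b ∈ s, w b
      else 1 / ((n + 1 : ℕ) : ℝ) with hp
    have hp0 : ∀ a, 0 ≤ p a := by
      intro a
      simp only [hp]
      split_ifs with h
      · exact div_nonneg (hw a) h.le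
      · positivity
    calc ∑ l ∈ P, wt w l ≤ ∑ l ∈ s.biUnion fun a => (Q a).image (List.cons a), wt w l :=
          Finset.sum_le_sum_of_subset_of_nonneg hsub fun l _ _ => wt_nonneg w hw l
      _ = ∑ a ∈ s, ∑ l ∈ (Q a).image (List.cons a), wt w l := by
          apply Finset.sum_biUnion
          intro a _ b _ hab
          rw [Function.onFun, Finset.disjoint_left]
          intro l h1 h2
          obtain ⟨r, -, rfl⟩ := Finset.mem_image.1 h1
          obtain ⟨r', -, h⟩ := Finset.mem_image.1 h2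
          exact hab (List.cons.inj h).1.symm
      _ ≤ ∑ a ∈ s, p a := by
          refine Finset.sum_le_sum fun a ha => ?_
          rw [Finset.sum_image fun r _ r' _ h => (List.cons.inj h).2]
          have h1 : ∀ r ∈ Q a, wt w (a :: r) = wt w r * p a := by
            intro r hr
            have h2 : (a :: r).Perm s.toList := ((hQ a r hr).cons a).trans (hcons a ha).symm
            have h3 : ((a :: r).map w).sum = ∑ b ∈ s, w b := by
              rw [(h2.map w).sum_eq, Finset.sum_map_toList]
            have h4 : (a :: r).length = n + 1 := by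
              rw [h2.length_eq, Finset.length_toList, hs]
            rw [wt_cons, h3, h4]
          rw [Finset.sum_congr rfl h1, ← Finset.sum_mul]
          have h5 := ih (s.erase a) (by rw [Finset.card_erase_of_mem ha, hs]; rfl) (Q a) (hQ a)
          calc (∑ r ∈ Q a, wt w r) * p a ≤ 1 * p a := by gcongr; exact hp0 a
            _ = p a := one_mul _
      _ = 1 := by
          simp only [hp]
          split_ifs with h
          · rw [← Finset.sum_div, div_self h.ne']
          · rw [Finset.sum_const, hs, nsmul_eq_mul]; field_simp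

theorem exists_T (w : α → ℝ) (hw : ∀ a, 0 ≤ w a) (l : List α) (h : wt w l ≠ 0) :
    ∃ T ≤ l.length, (∀ p ∈ l.take T, 0 < w p) ∧ (∀ p ∈ l.drop T, w p = 0) := by
  induction l with
  | nil => exact ⟨0, le_rfl, by simp, by simp⟩
  | cons a r ih =>
    rw [wt_cons] at h
    obtain ⟨T, hT, h1, h2⟩ := ih (left_ne_zero_of_mul h)
    by_cases hs : 0 < ((a :: r).map w).sum
    · have h3 := right_ne_zero_of_mul h
      rw [if_pos hs] at h3
      have h4 : w a ≠ 0 := fun h0 => h3 (by rw [h0, zero_div])
      refine ⟨T + 1, by simpa using hT, ?_, by simpa using h2⟩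
      intro p hp
      rw [List.take_succ_cons, List.mem_cons] at hp
      rcases hp with rfl | hp
      · exact lt_of_le_of_ne (hw _) h4.symm
      · exact h1 p hp
    · refine ⟨0, Nat.zero_le _, by simp, fun p hp => ?_⟩
      have h5 : w p ≤ ((a :: r).map w).sum :=
        List.single_le_sum (fun y hy => by
          obtain ⟨z, -, rfl⟩ := List.mem_map.1 hy; exact hw z) _ (List.mem_map_of_mem hp)
      exact le_antisymm (by linarith) (hw p)

end Perm

/-- The graphon on the natural numbers. -/
noncomputable def W (i j : ℕ) : ℝ := if max i j % 2 = 1 ∨ i = j then 1 else 0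

theorem W_symm (i j : ℕ) : W i j = W j i := by
  unfold W; rw [max_comm]; simp only [eq_comm (a := i)]

theorem W_nonneg (i j : ℕ) : 0 ≤ W i j := by unfold W; split_ifs <;> norm_num
theorem W_le (i j : ℕ) : W i j ≤ 1 := by unfold W; split_ifs <;> norm_num

/-- The good event at scale k. -/
def E (n k : ℕ) : Set (Fin n → ℕ) :=
  {x | (∀ i, x i ≤ 2 * k + 2) ∧ (∃ i j, i ≠ j ∧ x i = 2 * k + 2 ∧ x j = 2 * k + 2) ∧
    (∃ i j, i ≠ j ∧ x i = 2 * k + 1 ∧ x j = 2 * k + 1)}

theorem key (n k : ℕ) (x : Fin n → ℕ) (hx : x ∈ E n k) (l : List (Fin n × Fin n))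
    (hl : l.Perm ((Finset.univ : Finset (Fin n × Fin n)).filter (fun p => p.1 < p.2)).toList)
    (h : wt (fun p : Fin n × Fin n => W (x p.1) (x p.2)) l ≠ 0) :
    sInf {t : ℕ | t ≤ l.length ∧ 1 < n ∧ ∀ S : Finset (Fin n), S.card < 1 →
        ((SimpleGraph.fromRel (fun i j : Fin n => (i, j) ∈ l.take t)).induce
          ((↑S : Set (Fin n))ᶜ)).Connected}
      ≠ sInf {t : ℕ | t ≤ l.length ∧ ∀ v : Fin n,
        1 ≤ (SimpleGraph.fromRel (fun i j : Fin n => (i, j) ∈ l.take t)).degree v} := by
  obtain ⟨T, hT, h1, h2⟩ := exists_T _ (fun p => W_nonneg _ _) l h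
  obtain ⟨hle, ⟨a, a', haa, ha, ha'⟩, ⟨b, b', hbb, hb, hb'⟩⟩ := hx
  have hmem : ∀ u v : Fin n, u < v → (u, v) ∈ l := by
    intro u v huv
    rw [hl.mem_iff, Finset.mem_toList]
    simpa using huv
  have hadj : ∀ u v : Fin n, u ≠ v → W (x u) (x v) = 1 →
      (SimpleGraph.fromRel (fun i j : Fin n => (i, j) ∈ l.take T)).Adj u v := by
    have h3 : ∀ u v : Fin n, u < v → W (x u) (x v) = 1 → (u, v) ∈ l.take T := by
      intro u v huv hW
      have := hmem u v huv
      rw [← List.take_append_drop T l, List.mem_append] at this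
      rcases this with h4 | h4
      · exact h4
      · have := h2 _ h4
        simp only [hW] at this
        norm_num at this
    intro u v huv hW
    rw [SimpleGraph.fromRel_adj]
    refine ⟨huv, ?_⟩
    rcases lt_or_gt_of_ne huv with h4 | h4
    · exact Or.inl (h3 u v h4 hW)
    · exact Or.inr (h3 v u h4 (by rw [W_symm]; exact hW))
  have hdeg : sInf {t : ℕ | t ≤ l.length ∧ ∀ v : Fin n,
        1 ≤ (SimpleGraph.fromRel (fun i j : Fin n => (i, j) ∈ l.take t)).degree v} ≤ T := by
    apply Nat.sInf_le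
    refine ⟨hT, fun v => ?_⟩
    rw [Nat.one_le_iff_ne_zero, ← Nat.pos_iff_ne_zero, SimpleGraph.degree_pos_iff_exists_adj]
    by_cases hv : x v = 2 * k + 2
    · by_cases hva : v = a
      · exact ⟨a', hadj _ _ (hva ▸ haa) (by rw [hv, ha', W, if_pos (Or.inr rfl)])⟩
      · exact ⟨a, hadj _ _ hva (by rw [hv, ha, W, if_pos (Or.inr rfl)])⟩
    · have hv' : max (x v) (2 * k + 1) % 2 = 1 := by
        have := hle v
        rw [max_eq_right (by omega)]; omega
      by_cases hvb : v = b
      · exact ⟨b', hadj _ _ (hvb ▸ hbb) (by rw [hb', W, if_pos (Or.inl hv')])⟩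
      · exact ⟨b, hadj _ _ hvb (by rw [hb, W, if_pos (Or.inl hv')])⟩
  have hn : 1 < n := by
    have := Fin.val_ne_of_ne haa
    have := a.2
    have := a'.2
    omega
  have hne : {t : ℕ | t ≤ l.length ∧ 1 < n ∧ ∀ S : Finset (Fin n), S.card < 1 →
        ((SimpleGraph.fromRel (fun i j : Fin n => (i, j) ∈ l.take t)).induce
          ((↑S : Set (Fin n))ᶜ)).Connected}.Nonempty := by
    refine ⟨l.length, le_rfl, hn, fun S hS => ?_⟩
    have hS0 : S = ∅ := by rw [← Finset.card_eq_zero]; omega
    subst hS0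
    have : Nonempty ((↑(∅ : Finset (Fin n)) : Set (Fin n))ᶜ : Set (Fin n)) := ⟨⟨a, by simp⟩⟩
    refine ⟨fun u v => ?_⟩
    by_cases huv : u = v
    · rw [huv]
    · apply SimpleGraph.Adj.reachable
      have huv' : (u : Fin n) ≠ v := fun h => huv (Subtype.ext h)
      simp only [SimpleGraph.comap_adj, Function.Embedding.subtype_apply,
        SimpleGraph.fromRel_adj, List.take_length]
      refine ⟨huv', ?_⟩
      rcases lt_or_gt_of_ne huv' with h4 | h4
      · exact Or.inl (hmem _ _ h4)
      · exact Or.inr (hmem _ _ h4)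
  obtain ⟨-, -, hc⟩ := Nat.sInf_mem hne
  intro heq
  rw [← heq] at hdeg
  set t := sInf {t : ℕ | t ≤ l.length ∧ 1 < n ∧ ∀ S : Finset (Fin n), S.card < 1 →
        ((SimpleGraph.fromRel (fun i j : Fin n => (i, j) ∈ l.take t)).induce
          ((↑S : Set (Fin n))ᶜ)).Connected} with ht
  have hr := (hc ∅ (by simp)).preconnected ⟨a, by simp⟩ ⟨b, by simp⟩
  rw [SimpleGraph.reachable_iff_reflTransGen] at hr
  have hvis : ∀ u v : Fin n, (u, v) ∈ l.take t → (x u = 2 * k + 2 ↔ x v = 2 * k + 2) := by
    intro u v huv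
    have h3 : (u, v) ∈ l.take T := (List.take_prefix_take_left hdeg).subset huv
    have h4 := h1 _ h3
    simp only [W] at h4
    have hu := hle u
    have hv := hle v
    split_ifs at h4 with h5
    · rcases h5 with h5 | h5
      · constructor
        · intro h6; rw [h6, max_eq_left hv] at h5; omega
        · intro h6; rw [h6, max_eq_right hu] at h5; omega
      · rw [h5]
    · exact absurd h4 (lt_irrefl _)
  have hall : ∀ v : ((↑(∅ : Finset (Fin n)) : Set (Fin n))ᶜ : Set (Fin n)),
      Relation.ReflTransGen ((SimpleGraph.fromRel (fun i j : Fin n => (i, j) ∈ l.take t)).induce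
          ((↑(∅ : Finset (Fin n)) : Set (Fin n))ᶜ)).Adj ⟨a, by simp⟩ v → x v = 2 * k + 2 := by
    intro v hv
    induction hv with
    | refl => exact ha
    | tail _ h2 ih =>
      simp only [SimpleGraph.comap_adj, Function.Embedding.subtype_apply,
        SimpleGraph.fromRel_adj] at h2
      rcases h2.2 with h3 | h3
      · exact (hvis _ _ h3).1 ih
      · exact (hvis _ _ h3).2 ih
  have := hall _ hr
  simp only [hb] at this
  omega

noncomputable def p0 : unitInterval := ⟨255 / 256, by norm_num, by norm_num⟩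

theorem p0_ne : p0 ≠ 0 := fun h => by
  have := congrArg Subtype.val h
  norm_num [p0] at this

noncomputable abbrev μ : Measure ℕ := geometricMeasure p0

theorem μ_single (m : ℕ) : μ.real {m} = (1 / 256) ^ m * (255 / 256) := by
  rw [geometricMeasure_real_singleton p0_ne]
  norm_num [p0]

theorem μ_tail (m : ℕ) : μ.real {j | m ≤ j} = (1 / 256) ^ m := by
  induction m with
  | zero => simp
  | succ m ih =>
    have : {j | m ≤ j} = {m} ∪ {j | m + 1 ≤ j} := by
      ext j; simp only [Set.mem_ofPred_eq, Set.mem_union, Set.mem_singleton_iff]; omega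
    rw [this, measureReal_union (by simp) (MeasurableSet.of_discrete), μ_single] at ih
    rw [pow_succ]; linarith

theorem conn (A : Set ℕ) (h0 : 0 < μ A) (h1 : μ A < 1) :
    0 < ∫ p in A ×ˢ Aᶜ, W p.1 p.2 ∂(μ.prod μ) := by
  have hint : Integrable (fun p : ℕ × ℕ => W p.1 p.2) (μ.prod μ) := by
    refine Integrable.of_bound (Measurable.of_discrete).aestronglyMeasurable 1
      (Filter.Eventually.of_forall fun p => ?_)
    rw [Real.norm_eq_abs, abs_of_nonneg (W_nonneg _ _)]; exact W_le _ _
  rw [setIntegral_pos_iff_support_of_nonneg_ae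
    (Filter.Eventually.of_forall fun p => W_nonneg _ _) hint.integrableOn]
  obtain ⟨i, hi⟩ : A.Nonempty := nonempty_of_measure_ne_zero h0.ne'
  obtain ⟨j, hj⟩ : ∃ j, j ∉ A := by
    by_contra hno
    push Not at hno
    rw [Set.eq_univ_of_forall hno] at h1
    simp at h1
  obtain ⟨u, v, hu, hv, hW⟩ : ∃ u v, u ∈ A ∧ v ∉ A ∧ W u v = 1 := by
    by_cases hm : 2 * (i + j) + 1 ∈ A
    · refine ⟨_, j, hm, hj, ?_⟩
      rw [W, if_pos (Or.inl (by rw [max_eq_left (by omega)]; omega))]
    · refine ⟨i, _, hi, hm, ?_⟩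
      rw [W, if_pos (Or.inl (by rw [max_eq_right (by omega)]; omega))]
  have hpos : ∀ m : ℕ, 0 < μ {m} := by
    intro m
    have := μ_single m
    rw [pos_iff_ne_zero]
    intro h
    rw [measureReal_def, h] at this
    have h2 : (0 : ℝ) < (1 / 256) ^ m * (255 / 256) := by positivity
    simp at this
  refine lt_of_lt_of_le ?_ (measure_mono (s := ({u} : Set ℕ) ×ˢ ({v} : Set ℕ)) ?_)
  · rw [Measure.prod_prod]
    exact ENNReal.mul_pos (hpos u).ne' (hpos v).ne'
  · rintro ⟨c, d⟩ ⟨rfl, rfl⟩
    exact ⟨by simp [Function.mem_support, hW], hu, hv⟩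

theorem avoid (n m : ℕ) (I : Finset (Fin n)) :
    (Measure.pi fun _ : Fin n => μ).real {x | ∀ i ∈ I, x i ≠ m} = (1 - μ.real {m}) ^ I.card := by
  have e : {x : Fin n → ℕ | ∀ i ∈ I, x i ≠ m} =
      Set.pi Set.univ fun i => if i ∈ I then ({m}ᶜ : Set ℕ) else Set.univ := by
    ext x
    simp only [Set.mem_ofPred_eq, Set.mem_pi, Set.mem_univ, true_imp_iff]
    refine forall_congr' fun i => ?_
    split_ifs with h <;> simp [h]
  rw [e, measureReal_def, Measure.pi_pi, ENNReal.toReal_prod]
  have : ∀ i : Fin n, (μ (if i ∈ I then ({m}ᶜ : Set ℕ) else Set.univ)).toReal =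
      if i ∈ I then 1 - μ.real {m} else 1 := by
    intro i
    split_ifs
    · rw [← measureReal_def, measureReal_compl MeasurableSet.of_discrete]; simp
    · simp
  rw [Finset.prod_congr rfl fun i _ => this i, Finset.prod_ite_mem, Finset.univ_inter,
    Finset.prod_const]

theorem pow_le_inv (a : ℝ) (h0 : 0 ≤ a) (h1 : a ≤ 1) (h : ℕ) (hh : 15 ≤ h * a) :
    (1 - a) ^ h ≤ 1 / 16 := by
  have h2 : 1 + h * a ≤ (1 + a) ^ h := one_add_mul_le_pow (by linarith) h
  have h3 : (1 - a) ^ h * (1 + a) ^ h ≤ 1 := by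
    rw [← mul_pow]; exact pow_le_one₀ (by nlinarith) (by nlinarith)
  have h4 : 0 ≤ (1 - a) ^ h := pow_nonneg (by linarith) h
  nlinarith

theorem prob_compl (k : ℕ) :
    (Measure.pi fun _ : Fin (16 * 256 ^ (2 * k + 2) + 16 * 256 ^ (2 * k + 2)) => μ).real
      (E (16 * 256 ^ (2 * k + 2) + 16 * 256 ^ (2 * k + 2)) k)ᶜ ≤ 1 / 2 := by
  set h := 16 * 256 ^ (2 * k + 2) with hh
  set ν := Measure.pi fun _ : Fin (h + h) => μ with hν
  let I1 : Finset (Fin (h + h)) := Finset.univ.map (Fin.castAddEmb h)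
  let I2 : Finset (Fin (h + h)) := Finset.univ.map (Fin.natAddEmb h)
  have c1 : I1.card = h := by simp [I1]
  have c2 : I2.card = h := by simp [I2]
  have hdis : ∀ i ∈ I1, ∀ j ∈ I2, i ≠ j := by
    intro i hi j hj hij
    obtain ⟨a, -, rfl⟩ := Finset.mem_map.1 hi
    obtain ⟨b, -, rfl⟩ := Finset.mem_map.1 hj
    have := congrArg Fin.val hij
    have h2 := a.2
    simp at this
    omega
  let F : Finset (Fin (h + h)) → ℕ → Set (Fin (h + h) → ℕ) := fun I m => {x | ∀ i ∈ I, x i ≠ m}
  have hsub : (E (h + h) k)ᶜ ⊆ (⋃ i, {x : Fin (h + h) → ℕ | 2 * k + 3 ≤ x i}) ∪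
      ((F I1 (2 * k + 2) ∪ F I2 (2 * k + 2)) ∪ (F I1 (2 * k + 1) ∪ F I2 (2 * k + 1))) := by
    intro x hx
    by_contra hno
    simp only [Set.mem_union, Set.mem_iUnion, Set.mem_ofPred_eq, F, not_or, not_exists, not_le,
      not_forall, not_not, exists_prop] at hno
    obtain ⟨h1, ⟨⟨a, ha, ha2⟩, ⟨a', ha', ha2'⟩⟩, ⟨b, hb, hb2⟩, ⟨b', hb', hb2'⟩⟩ := hno
    exact hx ⟨fun i => by have := h1 i; omega, ⟨a, a', hdis a ha a' ha', ha2, ha2'⟩,
      ⟨b, b', hdis b hb b' hb', hb2, hb2'⟩⟩
  have hq : ((h : ℕ) : ℝ) * (1 / 256) ^ (2 * k + 2) = 16 := by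
    rw [hh]; push_cast
    rw [mul_assoc, ← mul_pow]; norm_num
  have hF : ∀ I : Finset (Fin (h + h)), I.card = h → ∀ m ≤ 2 * k + 2, ν.real (F I m) ≤ 1 / 16 := by
    intro I hI m hm
    rw [hν, avoid, hI]
    apply pow_le_inv _ measureReal_nonneg measureReal_le_one
    rw [μ_single]
    have h1 : (1 / 256 : ℝ) ^ (2 * k + 2) ≤ (1 / 256) ^ m :=
      pow_le_pow_of_le_one (by norm_num) (by norm_num) hm
    have h2 : ((h : ℕ) : ℝ) * (1 / 256) ^ (2 * k + 2) ≤ h * (1 / 256) ^ m := by gcongr
    rw [← mul_assoc]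
    linarith
  have hU : ν.real (⋃ i, {x : Fin (h + h) → ℕ | 2 * k + 3 ≤ x i}) ≤ 1 / 8 := by
    refine (measureReal_iUnion_fintype_le _).trans ?_
    have h1 : ∀ i : Fin (h + h), ν.real {x : Fin (h + h) → ℕ | 2 * k + 3 ≤ x i} =
        (1 / 256) ^ (2 * k + 3) := by
      intro i
      rw [← μ_tail]
      have := (measurePreserving_eval (fun _ : Fin (h + h) => μ) i).measure_preimage
        (s := {j | 2 * k + 3 ≤ j}) MeasurableSet.of_discrete.nullMeasurableSet
      rw [measureReal_def, measureReal_def, ← this]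
      rfl
    rw [Finset.sum_congr rfl fun i _ => h1 i, Finset.sum_const, Finset.card_univ,
      Fintype.card_fin, nsmul_eq_mul, pow_succ _ (2 * k + 2)]
    push_cast
    nlinarith
  have a1 := hF I1 c1 (2 * k + 2) le_rfl
  have a2 := hF I2 c2 (2 * k + 2) le_rfl
  have a3 := hF I1 c1 (2 * k + 1) (by omega)
  have a4 := hF I2 c2 (2 * k + 1) (by omega)
  have b0 := measureReal_mono (μ := ν) hsub
  have b1 := measureReal_union_le (μ := ν) (⋃ i, {x : Fin (h + h) → ℕ | 2 * k + 3 ≤ x i})
    ((F I1 (2 * k + 2) ∪ F I2 (2 * k + 2)) ∪ (F I1 (2 * k + 1) ∪ F I2 (2 * k + 1)))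
  have b2 := measureReal_union_le (μ := ν) (F I1 (2 * k + 2) ∪ F I2 (2 * k + 2))
    (F I1 (2 * k + 1) ∪ F I2 (2 * k + 1))
  have b3 := measureReal_union_le (μ := ν) (F I1 (2 * k + 2)) (F I2 (2 * k + 2))
  have b4 := measureReal_union_le (μ := ν) (F I1 (2 * k + 1)) (F I2 (2 * k + 1))
  linarith

theorem integral_le (n k : ℕ) :
    ∫ x : Fin n → ℕ,
        ∑ l ∈ (((Finset.univ : Finset (Fin n × Fin n)).filter (fun p => p.1 < p.2)).toList.permutations.toFinset.filter
          (fun l : List (Fin n × Fin n) =>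
            sInf {t : ℕ | t ≤ l.length ∧ 1 < n ∧ ∀ S : Finset (Fin n), S.card < 1 →
                ((SimpleGraph.fromRel (fun i j : Fin n => (i, j) ∈ l.take t)).induce
                  ((↑S : Set (Fin n))ᶜ)).Connected}
            = sInf {t : ℕ | t ≤ l.length ∧ ∀ v : Fin n,
                1 ≤ (SimpleGraph.fromRel (fun i j : Fin n => (i, j) ∈ l.take t)).degree v})),
          wt (fun p : Fin n × Fin n => W (x p.1) (x p.2)) l
        ∂(Measure.pi (fun _ : Fin n => μ)) ≤
      (Measure.pi fun _ : Fin n => μ).real (E n k)ᶜ := by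
  rw [← integral_indicator_one MeasurableSet.of_discrete]
  apply integral_mono_of_nonneg
  · exact Filter.Eventually.of_forall fun x =>
      Finset.sum_nonneg fun l _ => wt_nonneg _ (fun p => W_nonneg _ _) l
  · exact (integrable_const (1 : ℝ)).indicator MeasurableSet.of_discrete
  · refine Filter.Eventually.of_forall fun x => ?_
    by_cases hx : x ∈ E n k
    · rw [Set.indicator_of_notMem (by simpa using hx)]
      apply le_of_eq
      refine Finset.sum_eq_zero fun l hl => ?_
      rw [Finset.mem_filter, List.mem_toFinset, List.mem_permutations] at hl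
      by_contra h
      exact key n k x hx l hl.1 h hl.2
    · rw [Set.indicator_of_mem (by simpa using hx)]
      refine sum_wt_le _ (fun p => W_nonneg _ _) _
        ((Finset.univ : Finset (Fin n × Fin n)).filter (fun p => p.1 < p.2)) rfl _ fun l hl => ?_
      rw [Finset.mem_filter, List.mem_toFinset, List.mem_permutations] at hl
      exact hl.1

end Pool.Agent.H61.EdgeProc
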