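import Mathlib

/-! Modulated Gaussian laws: general tools (rotation, densities, entropy). -/

open MeasureTheory ProbabilityTheory Set
open scoped ENNReal Real

namespace Pool.Agent.H61.Ent

/-- standard Gaussian -/
noncomputable abbrev γ : Measure ℝ := gaussianReal 0 1

theorem cosint (a b : ℝ) : ∫ r, Real.cos (a + b * r) ∂γ = Real.cos a * Real.exp (-(b ^ 2 / 2)) := by
  have h := charFun_gaussianReal (μ := 0) (v := 1) b
  rw [charFun_apply_real] at h
  have hi : Integrable (fun x : ℝ => Complex.exp (a * Complex.I) *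
      Complex.exp (b * x * Complex.I)) γ := by
    refine Integrable.of_bound (by fun_prop) 1 (Filter.Eventually.of_forall fun x => ?_)
    rw [norm_mul, Complex.norm_exp_ofReal_mul_I, ← Complex.ofReal_mul,
      Complex.norm_exp_ofReal_mul_I, mul_one]
  have h2 := integral_re hi
  rw [integral_const_mul, h] at h2
  have e : ∀ x : ℝ, RCLike.re (Complex.exp (a * Complex.I) * Complex.exp (b * x * Complex.I))
      = Real.cos (a + b * x) := by
    intro x
    rw [← Complex.exp_add, ← add_mul, ← Complex.ofReal_mul, ← Complex.ofReal_add]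
    exact Complex.exp_ofReal_mul_I_re _
  simp_rw [e] at h2
  rw [h2]
  have e2 : (b : ℂ) * ((0 : ℝ) : ℂ) * Complex.I - (((1 : NNReal) : ℝ) : ℂ) * (b : ℂ) ^ 2 / 2
      = ((-(b ^ 2 / 2) : ℝ) : ℂ) := by push_cast; simp
  rw [e2, ← Complex.ofReal_exp, RCLike.re_to_complex, Complex.mul_re, Complex.ofReal_re,
    Complex.ofReal_im, Complex.exp_ofReal_mul_I_re]
  ring

theorem rotm (u v : ℝ) (h : u ^ 2 + v ^ 2 = 1) :
    MeasurePreserving (fun p : ℝ × ℝ => (u * p.1 - v * p.2, v * p.1 + u * p.2))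
      (γ.prod γ) (γ.prod γ) := by
  have hn : ‖(⟨u, -v⟩ : ℂ)‖ = 1 := by
    have : ‖(⟨u, -v⟩ : ℂ)‖ ^ 2 = 1 := by
      rw [← Complex.normSq_eq_norm_sq, Complex.normSq_apply]; simp; linarith
    nlinarith [norm_nonneg (⟨u, -v⟩ : ℂ)]
  have h0 : (⟨u, -v⟩ : ℂ) ≠ 0 := by
    intro h0; rw [h0] at hn; simp at hn
  have hc := Complex.cos_arg h0
  have hs := Complex.sin_arg (⟨u, -v⟩ : ℂ)
  rw [hn, div_one] at hc hs
  have hr := IsGaussian.map_rotation_eq_self (μ := γ) (by simp) (Complex.arg ⟨u, -v⟩)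
  refine ⟨by fun_prop, ?_⟩
  rw [← hr]
  congr 1
  funext p
  rw [ContinuousLinearMap.rotation_apply, hc, hs]
  simp only [smul_eq_mul, neg_neg, Prod.mk.injEq, and_true]
  ring

theorem bdd_int {F : ℝ → ℝ} (hF : Continuous F) (C : ℝ) (h : ∀ x, |F x| ≤ C) :
    Integrable F γ :=
  Integrable.of_bound hF.aestronglyMeasurable C (Filter.Eventually.of_forall h)

theorem sq_int : Integrable (fun x : ℝ => x ^ 2) γ :=
  (memLp_id_gaussianReal (μ := 0) (v := 1) 2).integrable_sq

theorem id_int : Integrable (fun x : ℝ => x) γ :=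
  (memLp_id_gaussianReal (μ := 0) (v := 1) 1).integrable le_rfl

/-- tilted Gaussian -/
noncomputable def tilt (m : ℝ → ℝ) : Measure ℝ := γ.withDensity fun x => ENNReal.ofReal (m x)

instance (m : ℝ → ℝ) : SFinite (tilt m) := by unfold tilt; infer_instance

theorem int_tilt {m : ℝ → ℝ} (hm : Continuous m) (h0 : ∀ x, 0 ≤ m x) (F : ℝ → ℝ) :
    ∫ x, F x ∂tilt m = ∫ x, m x * F x ∂γ := by
  unfold tilt
  rw [integral_withDensity_eq_integral_toReal_smul hm.measurable.ennreal_ofReal (by simp)]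
  simp [ENNReal.toReal_ofReal (h0 _)]

theorem intg_tilt {m : ℝ → ℝ} (hm : Continuous m) (h0 : ∀ x, 0 ≤ m x) (C : ℝ) (hC : ∀ x, m x ≤ C)
    {F : ℝ → ℝ} (hF : Integrable F γ) : Integrable F (tilt m) := by
  unfold tilt
  rw [integrable_withDensity_iff_integrable_smul' hm.measurable.ennreal_ofReal (by simp)]
  simp only [ENNReal.toReal_ofReal (h0 _), smul_eq_mul]
  exact hF.bdd_mul (c := C) hm.aestronglyMeasurable
    (Filter.Eventually.of_forall fun x => by rw [Real.norm_eq_abs, abs_of_nonneg (h0 x)]; exact hC x)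

theorem tilt_eq {m : ℝ → ℝ} (hm : Continuous m) :
    tilt m = volume.withDensity fun x => ENNReal.ofReal (gaussianPDFReal 0 1 x * m x) := by
  unfold tilt γ
  rw [gaussianReal_of_var_ne_zero _ one_ne_zero, ← withDensity_mul _ (measurable_gaussianPDF _ _)
    hm.measurable.ennreal_ofReal]
  congr 1
  funext x
  rw [ENNReal.ofReal_mul (gaussianPDFReal_nonneg _ _ _)]
  rfl

theorem law {m G : ℝ → ℝ} (hm : Continuous m) (h0 : ∀ x, 0 ≤ m x) (C : ℝ) (hC : ∀ x, m x ≤ C)
    (u v : ℝ) (h : u ^ 2 + v ^ 2 = 1)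
    (hG : ∀ s, ∫ r, m (u * s - v * r) * m (v * s + u * r) ∂γ = G s) :
    ((tilt m).prod (tilt m)).map (fun p => u * p.1 + v * p.2) = tilt G := by
  ext A hA
  have hS : Measurable fun p : ℝ × ℝ => u * p.1 + v * p.2 := by fun_prop
  have hM : Measurable fun z : ℝ × ℝ => ENNReal.ofReal (m z.1) * ENNReal.ofReal (m z.2) :=
    (hm.measurable.comp measurable_fst).ennreal_ofReal.mul
      (hm.measurable.comp measurable_snd).ennreal_ofReal
  have hcomp : Measurable fun a : ℝ × ℝ => ((fun p : ℝ × ℝ => u * p.1 + v * p.2) ⁻¹' A).indicator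
      (fun z : ℝ × ℝ => ENNReal.ofReal (m z.1) * ENNReal.ofReal (m z.2))
      (u * a.1 - v * a.2, v * a.1 + u * a.2) :=
    (hM.indicator (hS hA)).comp (rotm u v h).measurable
  rw [Measure.map_apply hS hA]
  unfold tilt
  rw [prod_withDensity hm.measurable.ennreal_ofReal hm.measurable.ennreal_ofReal,
    withDensity_apply _ (hS hA), withDensity_apply _ hA, ← lintegral_indicator (hS hA),
    ← lintegral_indicator hA, ← (rotm u v h).lintegral_comp (hM.indicator (hS hA)),
    lintegral_prod _ hcomp.aemeasurable]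
  refine lintegral_congr fun s => ?_
  have e : ∀ r, u * (u * s - v * r) + v * (v * s + u * r) = s := fun r => by
    linear_combination s * h
  by_cases hs : s ∈ A
  · rw [indicator_of_mem hs, ← hG s, ofReal_integral_eq_lintegral_ofReal]
    · refine lintegral_congr fun r => ?_
      rw [indicator_of_mem (by simp only [mem_preimage, e]; exact hs), ENNReal.ofReal_mul (h0 _)]
    · refine bdd_int (by fun_prop) (C * C) fun r => ?_
      rw [abs_of_nonneg (mul_nonneg (h0 _) (h0 _))]
      exact mul_le_mul (hC _) (hC _) (h0 _) ((h0 0).trans (hC 0))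
    · exact Filter.Eventually.of_forall fun r => mul_nonneg (h0 _) (h0 _)
  · rw [indicator_of_notMem hs]
    refine (lintegral_congr fun r => ?_).trans lintegral_zero
    rw [indicator_of_notMem (by simp only [mem_preimage, e]; exact hs)]

theorem xlog_bdd {G : ℝ → ℝ} (hG : Continuous G) (h1 : ∀ x, 1 / 2 ≤ G x) (h2 : ∀ x, G x ≤ 2) :
    Integrable (fun x => G x * Real.log (G x)) γ := by
  refine bdd_int (Real.continuous_mul_log.comp hG) 2 fun x => ?_
  have hp : 0 < G x := by linarith [h1 x]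
  have a1 := Real.log_le_sub_one_of_pos hp
  have a2 := Real.one_sub_inv_le_log_of_pos hp
  have a3 : G x * (1 - (G x)⁻¹) = G x - 1 := by field_simp
  have a4 := mul_le_mul_of_nonneg_left a2 hp.le
  rw [abs_le]
  constructor <;> nlinarith [h1 x, h2 x]

theorem entropy {G : ℝ → ℝ} (hG : Continuous G) (h1 : ∀ x, 1 / 2 ≤ G x) (h2 : ∀ x, G x ≤ 2) :
    ∫ x, Real.negMulLog (((tilt G).rnDeriv volume x).toReal)
      = Real.log √(2 * π) * ∫ x, G x ∂γ + (∫ x, G x * x ^ 2 ∂γ) / 2
        - ∫ x, G x * Real.log (G x) ∂γ := by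
  have hp : ∀ x, 0 < G x := fun x => by linarith [h1 x]
  have hm : Measurable fun x => ENNReal.ofReal (gaussianPDFReal 0 1 x * G x) :=
    ((measurable_gaussianPDFReal 0 1).mul hG.measurable).ennreal_ofReal
  have hae := Measure.rnDeriv_withDensity volume hm
  rw [← tilt_eq hG] at hae
  have i1 : Integrable G γ := bdd_int hG 2 fun x => by rw [abs_of_pos (hp x)]; exact h2 x
  have i2 : Integrable (fun x => G x * x ^ 2) γ := sq_int.bdd_mul (c := 2) hG.aestronglyMeasurable
    (Filter.Eventually.of_forall fun x => by rw [Real.norm_eq_abs, abs_of_pos (hp x)]; exact h2 x)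
  have i12 : Integrable (fun x => Real.log √(2 * π) * G x + G x * x ^ 2 / 2) γ :=
    (i1.const_mul _).add (i2.div_const 2)
  rw [← integral_const_mul, ← integral_div, ← integral_add (i1.const_mul _) (i2.div_const 2),
    ← integral_sub i12 (xlog_bdd hG h1 h2), integral_gaussianReal_eq_integral_smul one_ne_zero]
  refine integral_congr_ae ?_
  filter_upwards [hae] with x hx
  have hφ := gaussianPDFReal_pos 0 1 x one_ne_zero
  rw [hx, ENNReal.toReal_ofReal (mul_pos hφ (hp x)).le, Real.negMulLog,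
    Real.log_mul hφ.ne' (hp x).ne', smul_eq_mul]
  have hl : Real.log (gaussianPDFReal 0 1 x) = -Real.log √(2 * π) - x ^ 2 / 2 := by
    unfold gaussianPDFReal
    rw [Real.log_mul (by positivity) (Real.exp_pos _).ne', Real.log_exp, Real.log_inv]
    simp; ring
  rw [hl]; ring

theorem moments {m G : ℝ → ℝ} (hm : Continuous m) (h0 : ∀ x, 0 ≤ m x) (C : ℝ) (hC : ∀ x, m x ≤ C)
    (hev : ∀ x, m (-x) = m x) (h1 : ∫ x, m x ∂γ = 1) (hGc : Continuous G) (hG0 : ∀ x, 0 ≤ G x)
    (u v : ℝ) (h : u ^ 2 + v ^ 2 = 1)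
    (hG : ∀ s, ∫ r, m (u * s - v * r) * m (v * s + u * r) ∂γ = G s) :
    ∫ x, G x ∂γ = 1 ∧ ∫ x, G x * x ^ 2 ∂γ = ∫ x, x ^ 2 ∂tilt m := by
  have hl := law hm h0 C hC u v h hG
  have hS : Measurable fun p : ℝ × ℝ => u * p.1 + v * p.2 := by fun_prop
  have j0 : Integrable (fun _ : ℝ => (1 : ℝ)) (tilt m) := intg_tilt hm h0 C hC (integrable_const _)
  have j1 : Integrable (fun x : ℝ => x) (tilt m) := intg_tilt hm h0 C hC id_int
  have j2 : Integrable (fun x : ℝ => x ^ 2) (tilt m) := intg_tilt hm h0 C hC sq_int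
  have k0 : ∫ _ : ℝ, (1 : ℝ) ∂tilt m = 1 := by rw [int_tilt hm h0]; simpa using h1
  have k1 : ∫ x : ℝ, x ∂tilt m = 0 := by
    rw [int_tilt hm h0]
    have hn := gaussianReal_map_neg (μ := 0) (v := 1)
    rw [neg_zero] at hn
    have := integral_map (μ := γ) (φ := fun x : ℝ => -x) (f := fun x => m x * x)
      (by fun_prop) (by fun_prop)
    rw [hn] at this
    simp only [hev, mul_neg, integral_neg] at this
    linarith
  constructor
  · have := int_tilt hGc hG0 (fun _ => 1)
    simp only [mul_one] at this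
    rw [← this, ← hl, integral_map hS.aemeasurable (by fun_prop)]
    have := integral_prod_mul (μ := tilt m) (ν := tilt m) (fun _ : ℝ => (1 : ℝ)) (fun _ => 1)
    rw [k0] at this
    simpa using this
  · rw [← int_tilt hGc hG0 (fun x => x ^ 2), ← hl, integral_map hS.aemeasurable (by fun_prop)]
    have e : ∀ p : ℝ × ℝ, (u * p.1 + v * p.2) ^ 2 = u ^ 2 * (p.1 ^ 2 * 1) + v ^ 2 * (1 * p.2 ^ 2)
        + 2 * u * v * (p.1 * p.2) := fun p => by ring
    simp_rw [e]
    have i1 := (j2.mul_prod j0).const_mul (u ^ 2)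
    have i2 := (j0.mul_prod j2).const_mul (v ^ 2)
    have i3 := (j1.mul_prod j1).const_mul (2 * u * v)
    have i12 : Integrable (fun p : ℝ × ℝ => u ^ 2 * (p.1 ^ 2 * 1) + v ^ 2 * (1 * p.2 ^ 2))
      ((tilt m).prod (tilt m)) := i1.add i2
    rw [integral_add i12 i3, integral_add i1 i2, integral_const_mul (u ^ 2),
      integral_const_mul (v ^ 2), integral_const_mul (2 * u * v), integral_prod_mul (fun x : ℝ => x ^ 2) (fun _ => 1),
      integral_prod_mul (fun _ : ℝ => (1 : ℝ)) (fun x : ℝ => x ^ 2),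
      integral_prod_mul (fun x : ℝ => x) (fun x : ℝ => x), k0, k1]
    linear_combination (∫ x, x ^ 2 ∂tilt m) * h

end Pool.Agent.H61.Ent
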