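import Pool.Agent.H61.EntA

/-! A modulated Gaussian whose equal-weight sum has smaller entropy than the (3/5, 4/5) sum. -/

open MeasureTheory ProbabilityTheory Set
open scoped ENNReal Real

namespace Pool.Agent.H61.Ent

/-- constant term -/
noncomputable def c0 : ℝ := 1 - 1 / 5000 * Real.exp (-(50 ^ 2 / 2))

/-- modulation -/
noncomputable def mm (x : ℝ) : ℝ := c0 + 1 / 5000 * Real.cos (50 * x)

/-- density of the weighted sum relative to the Gaussian -/
noncomputable def Gf (u v s : ℝ) : ℝ :=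
  c0 ^ 2 + c0 / 5000 * (Real.cos (50 * u * s) * Real.exp (-((-(50 * v)) ^ 2 / 2)))
    + c0 / 5000 * (Real.cos (50 * v * s) * Real.exp (-((50 * u) ^ 2 / 2)))
    + 1 / 5000 ^ 2 / 2 * (Real.cos (50 * (u + v) * s) * Real.exp (-((50 * (u - v)) ^ 2 / 2)))
    + 1 / 5000 ^ 2 / 2 * (Real.cos (50 * (u - v) * s) * Real.exp (-((-(50 * (u + v))) ^ 2 / 2)))

theorem esmall (t : ℝ) (ht : 50 ≤ t) : Real.exp (-t) ≤ 1 / 10 ^ 10 := by
  have h1 : Real.exp (-t) ≤ Real.exp (-50) := Real.exp_le_exp.2 (by linarith)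
  refine h1.trans ?_
  have h2 : (2 : ℝ) ≤ Real.exp 1 := by linarith [Real.add_one_le_exp (1 : ℝ)]
  have h3 : (2 : ℝ) ^ 50 ≤ Real.exp 50 := by
    rw [show (50 : ℝ) = ((50 : ℕ) : ℝ) * 1 by norm_num, Real.exp_nat_mul]
    exact pow_le_pow_left₀ (by norm_num) h2 50
  rw [Real.exp_neg, inv_eq_one_div]
  exact one_div_le_one_div_of_le (by norm_num) (le_trans (by norm_num) h3)

theorem c0_bd : 1 - 1 / 10 ^ 13 ≤ c0 ∧ c0 ≤ 1 := by
  have h := esmall (50 ^ 2 / 2) (by norm_num)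
  have h' := Real.exp_pos (-(50 ^ 2 / 2))
  unfold c0
  constructor <;> linarith

theorem mm_cont : Continuous mm := by unfold mm; fun_prop

theorem mm_bd (x : ℝ) : 0.999 ≤ mm x ∧ mm x ≤ 2 := by
  have := c0_bd
  have := Real.neg_one_le_cos (50 * x)
  have := Real.cos_le_one (50 * x)
  unfold mm
  constructor <;> linarith [c0_bd.1, c0_bd.2]

theorem cos_int (a b : ℝ) : Integrable (fun r => Real.cos (a + b * r)) γ :=
  bdd_int (by fun_prop) 1 fun _ => Real.abs_cos_le_one _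

theorem mm_int : ∫ x, mm x ∂γ = 1 := by
  have h := cosint 0 50
  have hi := cos_int 0 50
  simp only [zero_add, Real.cos_zero, one_mul] at h hi
  unfold mm
  rw [integral_add (integrable_const _) (hi.const_mul _), integral_const_mul, h]
  simp [c0]

theorem G_eq (u v s : ℝ) : ∫ r, mm (u * s - v * r) * mm (v * s + u * r) ∂γ = Gf u v s := by
  have e : ∀ r, mm (u * s - v * r) * mm (v * s + u * r) = c0 ^ 2
      + c0 / 5000 * Real.cos (50 * u * s + -(50 * v) * r)
      + c0 / 5000 * Real.cos (50 * v * s + (50 * u) * r)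
      + 1 / 5000 ^ 2 / 2 * Real.cos (50 * (u + v) * s + (50 * (u - v)) * r)
      + 1 / 5000 ^ 2 / 2 * Real.cos (50 * (u - v) * s + -(50 * (u + v)) * r) := by
    intro r
    unfold mm
    rw [show 50 * u * s + -(50 * v) * r = 50 * (u * s - v * r) by ring,
      show 50 * v * s + (50 * u) * r = 50 * (v * s + u * r) by ring,
      show 50 * (u + v) * s + (50 * (u - v)) * r = 50 * (u * s - v * r) + 50 * (v * s + u * r)
        by ring,
      show 50 * (u - v) * s + -(50 * (u + v)) * r = 50 * (u * s - v * r) - 50 * (v * s + u * r)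
        by ring, Real.cos_add, Real.cos_sub]
    ring
  simp_rw [e]
  have i1 := (cos_int (50 * u * s) (-(50 * v))).const_mul (c0 / 5000)
  have i2 := (cos_int (50 * v * s) (50 * u)).const_mul (c0 / 5000)
  have i3 := (cos_int (50 * (u + v) * s) (50 * (u - v))).const_mul (1 / 5000 ^ 2 / 2)
  have i4 := (cos_int (50 * (u - v) * s) (-(50 * (u + v)))).const_mul (1 / 5000 ^ 2 / 2)
  have j1 : Integrable (fun r => c0 ^ 2 + c0 / 5000 * Real.cos (50 * u * s + -(50 * v) * r)) γ :=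
    (integrable_const _).add i1
  have j2 : Integrable (fun r => c0 ^ 2 + c0 / 5000 * Real.cos (50 * u * s + -(50 * v) * r)
    + c0 / 5000 * Real.cos (50 * v * s + (50 * u) * r)) γ := j1.add i2
  have j3 : Integrable (fun r => c0 ^ 2 + c0 / 5000 * Real.cos (50 * u * s + -(50 * v) * r)
    + c0 / 5000 * Real.cos (50 * v * s + (50 * u) * r)
    + 1 / 5000 ^ 2 / 2 * Real.cos (50 * (u + v) * s + (50 * (u - v)) * r)) γ := j2.add i3
  rw [integral_add j3 i4, integral_add j2 i3, integral_add j1 i2,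
    integral_add (integrable_const _) i1]
  simp only [integral_const_mul, cosint]
  simp [Gf]

theorem Gf_cont (u v : ℝ) : Continuous (Gf u v) := by unfold Gf; fun_prop

theorem ce (a t : ℝ) (ht : 50 ≤ t) : |Real.cos a * Real.exp (-t)| ≤ 1 / 10 ^ 10 := by
  rw [abs_mul, abs_of_pos (Real.exp_pos _)]
  calc _ ≤ 1 * (1 / 10 ^ 10) := mul_le_mul (Real.abs_cos_le_one a) (esmall t ht)
        (Real.exp_pos _).le zero_le_one
    _ = _ := one_mul _

theorem comb (p q r : ℝ) (hp : |p| ≤ 1 / 10 ^ 10) (hq : |q| ≤ 1 / 10 ^ 10) (hr : |r| ≤ 1 / 10 ^ 10) :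
    |c0 ^ 2 + c0 / 5000 * p + c0 / 5000 * q + 1 / 5000 ^ 2 / 2 * r - 1| ≤ 1 / 10 ^ 11 := by
  obtain ⟨h1, h2⟩ := c0_bd
  rw [abs_le] at *
  have : 0 ≤ c0 := by linarith
  constructor <;> nlinarith [mul_nonneg this (sub_nonneg.2 hp.1), mul_nonneg this (sub_nonneg.2 hp.2),
    mul_nonneg this (sub_nonneg.2 hq.1), mul_nonneg this (sub_nonneg.2 hq.2)]

theorem Gd_bd (s : ℝ) : |Gf (3 / 5) (4 / 5) s - 1| ≤ 1 / 10 ^ 10 := by
  have h1 := comb _ _ _ (ce (50 * (3 / 5) * s) ((-(50 * (4 / 5))) ^ 2 / 2) (by norm_num))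
    (ce (50 * (4 / 5) * s) ((50 * (3 / 5)) ^ 2 / 2) (by norm_num))
    (ce (50 * (3 / 5 + 4 / 5) * s) ((50 * (3 / 5 - 4 / 5)) ^ 2 / 2) (by norm_num))
  have h2 := ce (50 * (3 / 5 - 4 / 5) * s) ((-(50 * (3 / 5 + 4 / 5))) ^ 2 / 2) (by norm_num)
  unfold Gf
  rw [abs_le] at *
  constructor <;> linarith [h1.1, h1.2, h2.1, h2.2]

theorem Ge_bd (a : ℝ) (ha : a ^ 2 + a ^ 2 = 1) (s : ℝ) :
    |Gf a a s - 1 - 1 / 5000 ^ 2 / 2 * Real.cos (100 * a * s)| ≤ 1 / 10 ^ 10 := by
  have h1 := comb _ _ _ (ce (50 * a * s) ((-(50 * a)) ^ 2 / 2) (by nlinarith))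
    (ce (50 * a * s) ((50 * a) ^ 2 / 2) (by nlinarith))
    (ce (50 * (a - a) * s) ((-(50 * (a + a))) ^ 2 / 2) (by nlinarith))
  unfold Gf
  have e : Real.cos (50 * (a + a) * s) * Real.exp (-((50 * (a - a)) ^ 2 / 2))
      = Real.cos (100 * a * s) := by
    rw [show 50 * (a + a) * s = 100 * a * s by ring]; simp
  rw [e, abs_le] at *
  constructor <;> linarith [h1.1, h1.2]

theorem K_upper {G : ℝ → ℝ} (hG : Continuous G) (h : ∀ s, |G s - 1| ≤ 1 / 10 ^ 10)
    (h1 : ∫ x, G x ∂γ = 1) : ∫ x, G x * Real.log (G x) ∂γ ≤ 1 / 10 ^ 20 := by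
  have b1 : ∀ x, 1 / 2 ≤ G x := fun x => by linarith [(abs_le.1 (h x)).1]
  have b2 : ∀ x, G x ≤ 2 := fun x => by linarith [(abs_le.1 (h x)).2]
  have i1 : Integrable G γ := bdd_int hG 2 fun x => by
    rw [abs_of_pos (by linarith [b1 x])]; exact b2 x
  have : ∫ x, G x * Real.log (G x) ∂γ ≤ ∫ x, (G x + (1 / 10 ^ 20 - 1)) ∂γ := by
    refine integral_mono (xlog_bdd hG b1 b2) (i1.add (integrable_const _)) fun x => ?_
    have hp : 0 < G x := by linarith [b1 x]
    have a1 := mul_le_mul_of_nonneg_left (Real.log_le_sub_one_of_pos hp) hp.le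
    have a2 : (G x - 1) ^ 2 ≤ (1 / 10 ^ 10) ^ 2 := sq_le_sq' (abs_le.1 (h x)).1 (abs_le.1 (h x)).2
    simp only
    nlinarith
  rw [integral_add i1 (integrable_const _), h1] at this
  simpa using this

theorem xlog_ge (x : ℝ) (h1 : 1 / 2 ≤ x) (h2 : x ≤ 2) :
    x - 1 + (x - 1) ^ 2 / 9 ≤ x * Real.log x := by
  have hp : 0 < x := by linarith
  set y := √x with hy
  have hy0 : 0 < y := Real.sqrt_pos.2 hp
  have hxy : x = y ^ 2 := (Real.sq_sqrt hp.le).symm
  have hy2 : y ≤ 2 := by nlinarith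
  have a := Real.one_sub_inv_le_log_of_pos hy0
  rw [hxy, Real.log_pow]
  have a2 := mul_le_mul_of_nonneg_left a (sq_nonneg y)
  have a3 : y ^ 2 * (1 - y⁻¹) = y ^ 2 - y := by field_simp
  have a4 : (y ^ 2 - 1) ^ 2 / 9 ≤ (y - 1) ^ 2 := by
    have : (y + 1) ^ 2 ≤ 9 := by nlinarith
    nlinarith [mul_le_mul_of_nonneg_left this (sq_nonneg (y - 1))]
  push_cast
  nlinarith

theorem K_lower {G : ℝ → ℝ} (hG : Continuous G) (b : ℝ)
    (h : ∀ s, |G s - 1 - 1 / 5000 ^ 2 / 2 * Real.cos (b * s)| ≤ 1 / 10 ^ 10)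
    (h1 : ∫ x, G x ∂γ = 1) : 1 / 10 ^ 18 ≤ ∫ x, G x * Real.log (G x) ∂γ := by
  have b1 : ∀ x, 1 / 2 ≤ G x := fun x => by
    linarith [(abs_le.1 (h x)).1, Real.neg_one_le_cos (b * x)]
  have b2 : ∀ x, G x ≤ 2 := fun x => by
    linarith [(abs_le.1 (h x)).2, Real.cos_le_one (b * x)]
  have i1 : Integrable G γ := bdd_int hG 2 fun x => by
    rw [abs_of_pos (by linarith [b1 x])]; exact b2 x
  have i2 := (cos_int 0 (2 * b)).const_mul (1 / 10 ^ 17)
  have i12 : Integrable (fun x => G x + 1 / 10 ^ 17 * Real.cos (0 + 2 * b * x)) γ := i1.add i2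
  have : ∫ x, (G x + 1 / 10 ^ 17 * Real.cos (0 + 2 * b * x) + (1 / 10 ^ 18 - 1)) ∂γ
      ≤ ∫ x, G x * Real.log (G x) ∂γ := by
    refine integral_mono (i12.add (integrable_const _)) (xlog_bdd hG b1 b2) fun x => ?_
    refine le_trans ?_ (xlog_ge _ (b1 x) (b2 x))
    have a2 := sq_le_sq' (abs_le.1 (h x)).1 (abs_le.1 (h x)).2
    have a3 := Real.cos_sq (b * x)
    rw [show 2 * (b * x) = 0 + 2 * b * x by ring] at a3
    have a4 := sq_nonneg (Real.cos (b * x))
    simp only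
    generalize Real.cos (0 + 2 * b * x) = c2 at *
    generalize Real.cos (b * x) = c at *
    generalize G x = g at *
    nlinarith [sq_nonneg (2 * (g - 1) - 1 / 5000 ^ 2 / 2 * c)]
  rw [integral_add i12 (integrable_const _), integral_add i1 i2, h1, integral_const_mul, cosint]
    at this
  have := Real.exp_pos (-((2 * b) ^ 2 / 2))
  simp only [Real.cos_zero, one_mul, integral_const, probReal_univ, smul_eq_mul] at *
  linarith

theorem main (a : ℝ) (ha : a ^ 2 + a ^ 2 = 1) :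
    ∫ x, Real.negMulLog (((((tilt mm).prod (tilt mm)).map (fun p => a * p.1 + a * p.2)).rnDeriv
      volume x).toReal) <
    ∫ x, Real.negMulLog (((((tilt mm).prod (tilt mm)).map
      (fun p => 3 / 5 * p.1 + 4 / 5 * p.2)).rnDeriv volume x).toReal) := by
  have h0 : ∀ x, 0 ≤ mm x := fun x => by linarith [(mm_bd x).1]
  have hC : ∀ x, mm x ≤ 2 := fun x => (mm_bd x).2
  have hev : ∀ x, mm (-x) = mm x := fun x => by simp [mm]
  have d1 : ∀ x, 1 / 2 ≤ Gf (3 / 5) (4 / 5) x := fun x => by linarith [(abs_le.1 (Gd_bd x)).1]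
  have d2 : ∀ x, Gf (3 / 5) (4 / 5) x ≤ 2 := fun x => by linarith [(abs_le.1 (Gd_bd x)).2]
  have e1 : ∀ x, 1 / 2 ≤ Gf a a x := fun x => by
    linarith [(abs_le.1 (Ge_bd a ha x)).1, Real.neg_one_le_cos (100 * a * x)]
  have e2 : ∀ x, Gf a a x ≤ 2 := fun x => by
    linarith [(abs_le.1 (Ge_bd a ha x)).2, Real.cos_le_one (100 * a * x)]
  obtain ⟨m1, m2⟩ := moments mm_cont h0 2 hC hev mm_int (Gf_cont _ _)
    (fun x => by linarith [d1 x]) (3 / 5) (4 / 5) (by norm_num) (G_eq _ _)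
  obtain ⟨n1, n2⟩ := moments mm_cont h0 2 hC hev mm_int (Gf_cont _ _)
    (fun x => by linarith [e1 x]) a a ha (G_eq _ _)
  rw [law mm_cont h0 2 hC a a ha (G_eq _ _),
    law mm_cont h0 2 hC (3 / 5) (4 / 5) (by norm_num) (G_eq _ _),
    entropy (Gf_cont _ _) d1 d2, entropy (Gf_cont _ _) e1 e2, m1, m2, n1, n2]
  have k1 := K_upper (Gf_cont _ _) Gd_bd m1
  have k2 := K_lower (Gf_cont _ _) (100 * a) (Ge_bd a ha) n1
  linarith

theorem logconc : ConcaveOn ℝ univ fun x : ℝ => -(x ^ 2 / 2) + Real.log (mm x) := by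
  have hp : ∀ x, 0 < mm x := fun x => by linarith [(mm_bd x).1]
  have d0 : ∀ x, HasDerivAt mm (-(1 / 100 * Real.sin (50 * x))) x := by
    intro x
    have := (((hasDerivAt_id x).const_mul 50).cos.const_mul (1 / 5000)).const_add c0
    refine HasDerivAt.congr_deriv this ?_
    simp only [id]; ring
  have d1 : ∀ x, HasDerivAt (fun x : ℝ => -(x ^ 2 / 2) + Real.log (mm x))
      (-x + -(1 / 100 * Real.sin (50 * x)) / mm x) x := by
    intro x
    have := (((hasDerivAt_id x).pow 2).div_const 2).neg.add ((d0 x).log (hp x).ne')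
    refine HasDerivAt.congr_deriv this ?_
    simp
  have d2 : ∀ x, HasDerivAt (fun x : ℝ => -x + -(1 / 100 * Real.sin (50 * x)) / mm x)
      (-1 + (-(1 / 2 * Real.cos (50 * x)) * mm x - (1 / 100 * Real.sin (50 * x)) ^ 2)
        / mm x ^ 2) x := by
    intro x
    have := (hasDerivAt_id x).neg.add
      (((((hasDerivAt_id x).const_mul 50).sin.const_mul (1 / 100)).neg).div (d0 x) (hp x).ne')
    refine HasDerivAt.congr_deriv this ?_
    simp only [id, Pi.neg_apply]; ring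
  have e1 : deriv (fun x : ℝ => -(x ^ 2 / 2) + Real.log (mm x))
      = fun x => -x + -(1 / 100 * Real.sin (50 * x)) / mm x := funext fun x => (d1 x).deriv
  refine concaveOn_univ_of_deriv2_nonpos (fun x => (d1 x).differentiableAt)
    (by rw [e1]; exact fun x => (d2 x).differentiableAt) fun x => ?_
  rw [Function.iterate_succ_apply', Function.iterate_one, e1, (d2 x).deriv]
  have h1 := (mm_bd x).1
  have h2 := Real.neg_one_le_cos (50 * x)
  have : (-(1 / 2 * Real.cos (50 * x)) * mm x - (1 / 100 * Real.sin (50 * x)) ^ 2)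
      / mm x ^ 2 ≤ 1 := by
    rw [div_le_one (pow_pos (hp x) 2)]
    nlinarith [sq_nonneg (1 / 100 * Real.sin (50 * x)), hp x]
  linarith

theorem f_logconc (x y t : ℝ) (h0 : 0 ≤ t) (h1 : t ≤ 1) :
    (gaussianPDFReal 0 1 x * mm x) ^ t * (gaussianPDFReal 0 1 y * mm y) ^ (1 - t)
      ≤ gaussianPDFReal 0 1 (t * x + (1 - t) * y) * mm (t * x + (1 - t) * y) := by
  have hp : ∀ x, 0 < mm x := fun x => by linarith [(mm_bd x).1]
  have e : ∀ z, gaussianPDFReal 0 1 z * mm z
      = Real.exp (-Real.log √(2 * π) + (-(z ^ 2 / 2) + Real.log (mm z))) := by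
    intro z
    rw [Real.exp_add, Real.exp_add, Real.exp_log (hp z), Real.exp_neg,
      Real.exp_log (by positivity), ← mul_assoc]
    unfold gaussianPDFReal
    simp [neg_div]
  have h := logconc.2 (mem_univ x) (mem_univ y) h0 (sub_nonneg.2 h1) (by ring)
  simp only [smul_eq_mul] at h
  rw [e, e, e, ← Real.exp_mul, ← Real.exp_mul, ← Real.exp_add]
  refine Real.exp_le_exp.2 ?_
  linarith

instance : IsProbabilityMeasure (tilt mm) := by
  constructor
  unfold tilt
  rw [withDensity_apply _ MeasurableSet.univ, Measure.restrict_univ,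
    ← ofReal_integral_eq_lintegral_ofReal (bdd_int mm_cont 2 fun x => by
      rw [abs_of_nonneg (by linarith [(mm_bd x).1])]; exact (mm_bd x).2)
      (Filter.Eventually.of_forall fun x => by
        show 0 ≤ mm x
        linarith [(mm_bd x).1]), mm_int]
  simp

theorem map_pi (d : Fin 2 → ℝ) :
    (Measure.pi fun _ : Fin 2 => tilt mm).map (fun ω => ∑ i, d i * ω i)
      = ((tilt mm).prod (tilt mm)).map (fun p => d 0 * p.1 + d 1 * p.2) := by
  rw [← (measurePreserving_finTwoArrow (tilt mm)).map_eq,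
    Measure.map_map (by fun_prop) (MeasurableEquiv.measurable _)]
  congr 1
  funext ω
  simp [Fin.sum_univ_two, MeasurableEquiv.finTwoArrow]

theorem f_int : Integrable fun x => gaussianPDFReal 0 1 x * mm x :=
  (integrable_gaussianPDFReal 0 1).mul_bdd (c := 2) mm_cont.aestronglyMeasurable
    (Filter.Eventually.of_forall fun x => by
      rw [Real.norm_eq_abs, abs_of_nonneg (by linarith [(mm_bd x).1])]; exact (mm_bd x).2)

theorem f_one : ∫ x, gaussianPDFReal 0 1 x * mm x = 1 := by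
  have := mm_int
  rwa [integral_gaussianReal_eq_integral_smul one_ne_zero] at this

end Pool.Agent.H61.Ent
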