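import Mathlib

/- Fractional shortest-path decompositions of quasirandom graphs. -/

set_option autoImplicit false
open Finset

namespace Pool.Agent.H61.Epr
open Classical

variable {V : Type} [Fintype V] [DecidableEq V] (G : SimpleGraph V)

abbrev T (V : Type) := V × V × V

def Ch (t : T V) : Prop :=
  G.Adj t.1 t.2.1 ∧ G.Adj t.2.1 t.2.2 ∧ ¬ G.Adj t.1 t.2.2 ∧ t.1 ≠ t.2.2

def ind (e f : Sym2 V) : ℚ := if f = e then 1 else 0
def io (e : Sym2 V) (t : T V) : ℚ := ind e s(t.1, t.2.1) + ind e s(t.2.1, t.2.2)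
def ro (u v : V) (t : T V) : ℚ := if t.1 = u ∧ t.2.2 = v then 1 else 0
def dl (t : T V) : T V → ℚ := Pi.single t 1
def gam (p z : V × V) : T V → ℚ :=
  dl (p.1, p.2, z.1) - dl (p.1, z.2, z.1) + dl (p.2, p.1, z.2) - dl (p.2, z.1, z.2)
def gab (p z : V × V) : T V → ℚ :=
  dl (p.1, p.2, z.1) + dl (p.1, z.2, z.1) + dl (p.2, p.1, z.2) + dl (p.2, z.1, z.2)

lemma gam_io (p z : V × V) (e : Sym2 V) :
    gam p z ⬝ᵥ io e = 2 * ind e s(p.1, p.2) - 2 * ind e s(z.1, z.2) := by
  simp only [gam, dl, add_dotProduct, sub_dotProduct, single_one_dotProduct, io]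
  rw [Sym2.eq_swap (a := z.2) (b := z.1), Sym2.eq_swap (a := p.2) (b := p.1)]
  ring

lemma gam_ro (p z : V × V) (u v : V) : gam p z ⬝ᵥ ro u v = 0 := by
  simp only [gam, dl, add_dotProduct, sub_dotProduct, single_one_dotProduct, ro]
  ring

def C4 (p z : V × V) : Prop :=
  G.Adj p.1 p.2 ∧ G.Adj p.2 z.1 ∧ G.Adj z.1 z.2 ∧ G.Adj z.2 p.1 ∧ ¬ G.Adj p.1 z.1 ∧
    ¬ G.Adj p.2 z.2 ∧ p.1 ≠ z.1 ∧ p.2 ≠ z.2

omit [Fintype V] in
lemma gam_supp {p z : V × V} (h : C4 G p z) {t : T V} (ht : ¬ Ch G t) : gam p z t = 0 := by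
  obtain ⟨h1, h2, h3, h4, h5, h6, h7, h8⟩ := h
  have : ∀ s, Ch G s → dl s t = 0 := fun s hs =>
    Pi.single_eq_of_ne (by rintro rfl; exact ht hs) _
  simp only [gam, Pi.add_apply, Pi.sub_apply]
  rw [this _ ⟨h1, h2, h5, h7⟩, this _ ⟨h4.symm, h3.symm, h5, h7⟩, this _ ⟨h1.symm, h4.symm, h6, h8⟩,
    this _ ⟨h2, h3, h6, h8⟩]
  norm_num

omit [Fintype V] in
lemma dl_nonneg (s t : T V) : 0 ≤ dl s t := by
  simp only [dl, Pi.single_apply]
  split_ifs <;> norm_num

omit [Fintype V] in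
lemma gam_abs (p z : V × V) (t : T V) : |gam p z t| ≤ gab p z t := by
  simp only [gam, gab, Pi.add_apply, Pi.sub_apply]
  have a := dl_nonneg (p.1, p.2, z.1) t
  have b := dl_nonneg (p.1, z.2, z.1) t
  have c := dl_nonneg (p.2, p.1, z.2) t
  have d := dl_nonneg (p.2, z.1, z.2) t
  rw [abs_le]
  constructor <;> linarith

omit [Fintype V] in
lemma gab_nonneg (p z : V × V) (t : T V) : 0 ≤ gab p z t := (abs_nonneg _).trans (gam_abs p z t)

lemma gab_sum (t : T V) : ∑ p : V × V, ∑ z : V × V, gab p z t = 4 * Fintype.card V := by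
  obtain ⟨a, b, c⟩ := t
  simp only [gab, Pi.add_apply, Finset.sum_add_distrib, dl, Pi.single_apply, Fintype.sum_prod_type,
    Prod.mk.injEq, ite_and]
  simp [apply_ite Finset.card]
  ring

def sw (p q : V × V) : V × V := if p.1 = q.2 ∨ p.2 = q.1 then q.swap else q

noncomputable def D : Finset (V × V) := univ.filter fun p => G.Adj p.1 p.2
noncomputable def Good (p q : V × V) : Finset (V × V) :=
  univ.filter fun z => C4 G p z ∧ C4 G (sw p q) z

lemma sum_ind {e : Sym2 V} (he : e ∈ G.edgeSet) (f : Sym2 V → ℚ) :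
    ∑ p ∈ D G, f s(p.1, p.2) * ind e s(p.1, p.2) = 2 * f e := by
  induction e using Sym2.ind with
  | h a b =>
  have hab : G.Adj a b := he
  rw [← Finset.sum_subset (s₁ := {(a, b), (b, a)}), Finset.sum_pair (by simp [hab.ne])]
  · simp only [ind, Sym2.eq_swap (a := b) (b := a), if_true]
    ring
  · intro p hp
    simp only [mem_insert, mem_singleton] at hp
    rcases hp with rfl | rfl <;> simp [D, hab, hab.symm]
  · intro p _ hp
    rw [ind, if_neg, mul_zero]
    intro h
    apply hp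
    rcases Sym2.eq_iff.1 h with ⟨rfl, rfl⟩ | ⟨rfl, rfl⟩ <;> simp

lemma corr (r : Sym2 V → ℚ) (δ : ℚ) (hn : 0 < Fintype.card V)
    (hr : ∀ p ∈ D G, |r s(p.1, p.2)| ≤ δ) (hs : ∑ p ∈ D G, r s(p.1, p.2) = 0)
    (hD : (Fintype.card V : ℚ) ^ 2 / 8 ≤ (D G).card)
    (hN : ∀ p ∈ D G, ∀ q ∈ D G, (Fintype.card V : ℚ) ^ 2 / 4096 ≤ (Good G p q).card) :
    ∃ Z : T V → ℚ, (∀ t, ¬ Ch G t → Z t = 0) ∧ (∀ t, |Z t| ≤ 98304 * δ / Fintype.card V) ∧
      (∀ u v, Z ⬝ᵥ ro u v = 0) ∧ ∀ e ∈ G.edgeSet, Z ⬝ᵥ io e = r e := by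
  set n : ℚ := (Fintype.card V : ℚ) with hn'
  have n0 : 0 < n := by rw [hn']; exact_mod_cast hn
  have D0 : (0 : ℚ) < (D G).card := lt_of_lt_of_le (by positivity) hD
  have δ0 : 0 ≤ δ := by
    obtain ⟨p, hp⟩ := card_pos.1 (by exact_mod_cast D0 : 0 < (D G).card)
    exact (abs_nonneg _).trans (hr p hp)
  refine ⟨∑ p ∈ D G, ∑ q ∈ D G, ∑ z ∈ Good G p q,
    (r s(p.1, p.2) / (4 * (D G).card * (Good G p q).card)) • (gam p z - gam (sw p q) z),
    fun t ht => ?_, fun t => ?_, fun u v => ?_, fun e he => ?_⟩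
  · simp only [Finset.sum_apply, Pi.smul_apply, Pi.sub_apply]
    refine Finset.sum_eq_zero fun p _ => Finset.sum_eq_zero fun q _ =>
      Finset.sum_eq_zero fun z hz => ?_
    rw [gam_supp G (mem_filter.1 hz).2.1 ht, gam_supp G (mem_filter.1 hz).2.2 ht]
    simp
  · simp only [Finset.sum_apply, Pi.smul_apply, Pi.sub_apply, smul_eq_mul]
    have a1 : ∀ p q z : V × V, 0 ≤ 8192 * δ / n ^ 4 * (gab p z t + gab q z t + gab q.swap z t) :=
      fun p q z => mul_nonneg (by positivity)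
        (add_nonneg (add_nonneg (gab_nonneg _ _ _) (gab_nonneg _ _ _)) (gab_nonneg _ _ _))
    calc _ ≤ ∑ p ∈ D G, ∑ q ∈ D G, ∑ z ∈ Good G p q,
          8192 * δ / n ^ 4 * (gab p z t + gab q z t + gab q.swap z t) := by
          refine (Finset.abs_sum_le_sum_abs _ _).trans (Finset.sum_le_sum fun p hp => ?_)
          refine (Finset.abs_sum_le_sum_abs _ _).trans (Finset.sum_le_sum fun q hq => ?_)
          refine (Finset.abs_sum_le_sum_abs _ _).trans (Finset.sum_le_sum fun z _ => ?_)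
          rw [abs_mul]
          refine mul_le_mul ?_ ?_ (abs_nonneg _) (by positivity)
          · have b1 := hN p hp q hq
            have b2 : (0 : ℚ) < (Good G p q).card := lt_of_lt_of_le (by positivity) b1
            rw [abs_div, abs_of_pos (by positivity : (0 : ℚ) < 4 * (D G).card * (Good G p q).card)]
            calc _ ≤ δ / (4 * (n ^ 2 / 8) * (n ^ 2 / 4096)) :=
                  div_le_div₀ δ0 (hr p hp) (by positivity) (by gcongr)
              _ = _ := by field_simp; ring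
          · refine (abs_sub _ _).trans ?_
            have b1 := gam_abs p z t
            have b2 := gam_abs (sw p q) z t
            have b3 := gab_nonneg q z t
            have b4 := gab_nonneg q.swap z t
            have b5 : gab (sw p q) z t ≤ gab q z t + gab q.swap z t := by
              unfold sw
              split_ifs <;> linarith
            linarith
      _ ≤ ∑ p : V × V, ∑ q : V × V, ∑ z : V × V,
          8192 * δ / n ^ 4 * (gab p z t + gab q z t + gab q.swap z t) := by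
          refine (Finset.sum_le_sum fun p _ => (Finset.sum_le_sum fun q _ =>
            Finset.sum_le_sum_of_subset_of_nonneg (subset_univ _) fun z _ _ => a1 p q z).trans
            (Finset.sum_le_sum_of_subset_of_nonneg (subset_univ _) fun q _ _ =>
              Finset.sum_nonneg fun z _ => a1 p q z)).trans
            (Finset.sum_le_sum_of_subset_of_nonneg (subset_univ _) fun p _ _ =>
              Finset.sum_nonneg fun q _ => Finset.sum_nonneg fun z _ => a1 p q z)
      _ = _ := by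
          have b1 : ∑ q : V × V, ∑ z : V × V, gab q.swap z t = 4 * n :=
            (Equiv.sum_comp (Equiv.prodComm V V) fun q => ∑ z : V × V, gab q z t).trans (gab_sum t)
          have b2 : ∑ p : V × V, ∑ _q : V × V, ∑ z : V × V, gab p z t = n ^ 2 * (4 * n) := by
            rw [Finset.sum_comm, gab_sum]
            simp [hn', sq]
          simp only [← Finset.mul_sum, Finset.sum_add_distrib]
          rw [b2, b1, gab_sum]
          simp only [sum_const, card_univ, Fintype.card_prod, nsmul_eq_mul, Nat.cast_mul, ← hn']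
          field_simp
          ring
  · simp only [sum_dotProduct, smul_dotProduct, sub_dotProduct, gam_ro]
    simp
  · simp only [sum_dotProduct, smul_dotProduct, sub_dotProduct, gam_io, smul_eq_mul]
    have a1 : ∀ p ∈ D G, ∀ q ∈ D G, ∑ z ∈ Good G p q,
        r s(p.1, p.2) / (4 * (D G).card * (Good G p q).card) *
          (2 * ind e s(p.1, p.2) - 2 * ind e s(z.1, z.2) -
            (2 * ind e s((sw p q).1, (sw p q).2) - 2 * ind e s(z.1, z.2))) =
        r s(p.1, p.2) * ind e s(p.1, p.2) / (2 * (D G).card) -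
          r s(p.1, p.2) * (ind e s(q.1, q.2) / (2 * (D G).card)) := by
      intro p hp q hq
      have b2 : (0 : ℚ) < (Good G p q).card := lt_of_lt_of_le (by positivity) (hN p hp q hq)
      have b3 : s((sw p q).1, (sw p q).2) = s(q.1, q.2) := by
        unfold sw
        split_ifs
        · exact Sym2.eq_swap
        · rfl
      simp only [b3, sub_sub_sub_cancel_right, sum_const, nsmul_eq_mul]
      field_simp
      ring
    rw [Finset.sum_congr rfl fun p hp => Finset.sum_congr rfl fun q hq => a1 p hp q hq]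
    simp only [Finset.sum_sub_distrib, ← Finset.mul_sum, ← Finset.sum_mul, hs, zero_mul, sub_zero,
      sum_const, nsmul_eq_mul, ← Finset.sum_div, sum_ind G he]
    field_simp

noncomputable def cod (u v : V) : ℕ := (univ.filter fun w => G.Adj u w ∧ G.Adj w v).card
noncomputable def out (a b : V) : ℕ :=
  (univ.filter fun v => G.Adj b v ∧ ¬ G.Adj a v ∧ a ≠ v).card

lemma dot_ind (y : T V → ℚ) {a b : V} (hab : a ≠ b) :
    ∑ t, y t * ind s(a, b) s(t.1, t.2.1) = ∑ v, y (a, b, v) + ∑ v, y (b, a, v) := by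
  have : ∀ u w : V, ind s(a, b) s(u, w) =
      (if u = a then if w = b then 1 else 0 else 0) +
        (if u = b then if w = a then 1 else 0 else 0) := fun u w => by
    simp only [ind, Sym2.eq_iff, ← ite_and]
    by_cases h1 : u = a ∧ w = b
    · rw [if_pos (Or.inl h1), if_pos h1, if_neg fun h2 => hab (h1.1.symm.trans h2.1), add_zero]
    · simp [h1]
  simp only [this, mul_add, Finset.sum_add_distrib, Fintype.sum_prod_type]
  simp

theorem frac (hn : 0 < Fintype.card V)
    (h1 : ∀ u v, u ≠ v → |(cod G u v : ℚ) - Fintype.card V / 4| ≤ Fintype.card V / 10 ^ 7)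
    (h2 : ∀ u v, u ≠ v → |(out G u v : ℚ) - Fintype.card V / 4| ≤ Fintype.card V / 10 ^ 7)
    (hD : (Fintype.card V : ℚ) ^ 2 / 8 ≤ (D G).card)
    (hN : ∀ p ∈ D G, ∀ q ∈ D G, (Fintype.card V : ℚ) ^ 2 / 4096 ≤ (Good G p q).card) :
    ∃ (y : T V → ℚ) (c : ℚ), (∀ t, 0 ≤ y t) ∧ (∀ t, ¬ Ch G t → y t = 0) ∧
      (∀ u v, u ≠ v → ¬ G.Adj u v → y ⬝ᵥ ro u v = 1) ∧ ∀ e ∈ G.edgeSet, y ⬝ᵥ io e = c := by
  set n : ℚ := (Fintype.card V : ℚ) with hn'
  have n0 : 0 < n := by rw [hn']; exact_mod_cast hn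
  have D0 : (0 : ℚ) < (D G).card := lt_of_lt_of_le (by positivity) hD
  set y : T V → ℚ := fun t => if Ch G t then 1 / cod G t.1 t.2.2 else 0 with hy
  have c0 : ∀ u v, u ≠ v → (0 : ℚ) < cod G u v := fun u v h => by
    linarith [(abs_le.1 (h1 u v h)).1]
  have a1 : ∀ a b, G.Adj a b → 1 - 8 / 10 ^ 7 ≤ ∑ v, y (a, b, v) ∧
      ∑ v, y (a, b, v) ≤ 1 + 9 / 10 ^ 7 := by
    intro a b hab
    have e : ∑ v, y (a, b, v) = ∑ v ∈ univ.filter fun v => G.Adj b v ∧ ¬ G.Adj a v ∧ a ≠ v,
        1 / (cod G a v : ℚ) := by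
      rw [Finset.sum_filter]
      exact Finset.sum_congr rfl fun v _ => by simp [hy, Ch, hab]
    obtain ⟨b1, b2⟩ := abs_le.1 (h2 a b hab.ne)
    rw [e]
    constructor
    · refine le_trans ?_ (Finset.card_nsmul_le_sum _ _ (1 / (n / 4 + n / 10 ^ 7)) fun v hv =>
        one_div_le_one_div_of_le (c0 _ _ (mem_filter.1 hv).2.2.2)
          (by linarith [(abs_le.1 (h1 a v (mem_filter.1 hv).2.2.2)).2]))
      rw [nsmul_eq_mul, mul_one_div, le_div_iff₀ (by positivity)]
      change _ ≤ (out G a b : ℚ)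
      linarith
    · refine le_trans (Finset.sum_le_card_nsmul _ _ (1 / (n / 4 - n / 10 ^ 7)) fun v hv =>
        one_div_le_one_div_of_le (by linarith)
          (by linarith [(abs_le.1 (h1 a v (mem_filter.1 hv).2.2.2)).1])) ?_
      rw [nsmul_eq_mul, mul_one_div, div_le_iff₀ (by linarith)]
      change (out G a b : ℚ) ≤ _
      linarith
  have ys : ∀ a b c, y (a, b, c) = y (c, b, a) := fun a b c => by
    have e1 : Ch G (a, b, c) ↔ Ch G (c, b, a) := by
      simp only [Ch, G.adj_comm a b, G.adj_comm b c, G.adj_comm a c, ne_comm (a := a)]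
      tauto
    have e2 : cod G a c = cod G c a := by
      simp only [cod, G.adj_comm a, G.adj_comm c, and_comm]
    simp only [hy, e1, e2]
  have a2 : ∀ p ∈ D G, 4 * (1 - 8 / 10 ^ 7) ≤ y ⬝ᵥ io s(p.1, p.2) ∧
      y ⬝ᵥ io s(p.1, p.2) ≤ 4 * (1 + 9 / 10 ^ 7) := by
    intro p hp
    have hab := (mem_filter.1 hp).2
    have e : ∑ t, y t * ind s(p.1, p.2) s(t.2.1, t.2.2) =
        ∑ t, y t * ind s(p.1, p.2) s(t.1, t.2.1) := by
      refine Finset.sum_bij' (fun t _ => (t.2.2, t.2.1, t.1)) (fun t _ => (t.2.2, t.2.1, t.1))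
        (by simp) (by simp) (by simp) (by simp) fun t _ => ?_
      rw [← ys, Sym2.eq_swap (a := t.2.2)]
    simp only [dotProduct, io, mul_add, Finset.sum_add_distrib]
    rw [e, dot_ind y hab.ne]
    obtain ⟨b1, b2⟩ := a1 _ _ hab
    obtain ⟨b3, b4⟩ := a1 _ _ hab.symm
    constructor <;> linarith
  set c : ℚ := (∑ p ∈ D G, y ⬝ᵥ io s(p.1, p.2)) / (D G).card with hc
  have c1 : 4 * (1 - 8 / 10 ^ 7) ≤ c := by
    rw [hc, le_div_iff₀ D0, mul_comm, ← nsmul_eq_mul]
    exact Finset.card_nsmul_le_sum _ _ _ fun p hp => (a2 p hp).1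
  have c2 : c ≤ 4 * (1 + 9 / 10 ^ 7) := by
    rw [hc, div_le_iff₀ D0, mul_comm, ← nsmul_eq_mul]
    exact Finset.sum_le_card_nsmul _ _ _ fun p hp => (a2 p hp).2
  obtain ⟨Z, z1, z2, z3, z4⟩ := corr G (fun e => c - y ⬝ᵥ io e) (68 / 10 ^ 7) hn
    (fun p hp => abs_le.2 ⟨by linarith [(a2 p hp).2], by linarith [(a2 p hp).1]⟩)
    (by rw [Finset.sum_sub_distrib, sum_const, nsmul_eq_mul, hc]; field_simp; ring) hD hN
  refine ⟨y + Z, c, fun t => ?_, fun t ht => by simp [hy, ht, z1 t ht], fun u v huv hn => ?_,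
    fun e he => by rw [add_dotProduct, z4 e he]; ring⟩
  · by_cases ht : Ch G t
    · have b1 : 1 / n ≤ y t := by
        simp only [hy, if_pos ht]
        refine one_div_le_one_div_of_le (c0 _ _ ht.2.2.2) ?_
        linarith [(abs_le.1 (h1 _ _ ht.2.2.2)).2]
      have b2 : 98304 * (68 / 10 ^ 7) / n ≤ 1 / n := div_le_div_of_nonneg_right (by norm_num) n0.le
      have := (abs_le.1 (z2 t)).1
      rw [Pi.add_apply]
      linarith
    · simp [hy, ht, z1 t ht]
  · rw [add_dotProduct, z3, add_zero]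
    have e : y ⬝ᵥ ro u v = ∑ w, y (u, w, v) := by
      simp only [dotProduct, ro, Fintype.sum_prod_type, ite_and]
      simp
    have e2 : ∑ w, y (u, w, v) = ∑ w ∈ univ.filter fun w => G.Adj u w ∧ G.Adj w v,
        1 / (cod G u v : ℚ) := by
      rw [Finset.sum_filter]
      exact Finset.sum_congr rfl fun w _ => by simp [hy, Ch, hn, huv]
    rw [e, e2, sum_const, nsmul_eq_mul]
    exact mul_one_div_cancel (c0 u v huv).ne'

end Pool.Agent.H61.Epr
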