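import Pool.Agent.H61.Epr
import Pool.Agent.H61.Cube2

/- From fractional decompositions to path systems, and quasirandomness of the random graph. -/

set_option autoImplicit false
open Finset

namespace Pool.Agent.H61.Epr
open Classical

lemma denom {ι : Type} [Fintype ι] (x : ι → ℚ) (h : ∀ i, 0 ≤ x i) :
    ∃ k : ℕ, 1 ≤ k ∧ ∃ X : ι → ℕ, ∀ i, (X i : ℚ) = k * x i := by
  refine ⟨∏ i, (x i).den, Finset.prod_pos fun i _ => (x i).den_pos, ?_⟩
  have : ∀ i, ∃ m : ℕ, (m : ℚ) = ((∏ i, (x i).den : ℕ) : ℚ) * x i := fun i => by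
    obtain ⟨j, hj⟩ := Finset.dvd_prod_of_mem (fun i => (x i).den) (mem_univ i)
    refine ⟨j * (x i).num.toNat, ?_⟩
    have e : (((x i).num.toNat : ℕ) : ℚ) = (x i).num := by
      exact_mod_cast Int.toNat_of_nonneg (Rat.num_nonneg.2 (h i))
    rw [hj, Nat.cast_mul, Nat.cast_mul, e, ← Rat.den_mul_eq_num]
    ring
  exact ⟨fun i => (this i).choose, fun i => (this i).choose_spec⟩

lemma mids {V : Type} [Fintype V] (X : V → ℕ) (k : ℕ) (h : ∑ w, X w = k) :
    ∃ f : Fin k → V, (∀ t, X (f t) ≠ 0) ∧ ∀ g : V → ℚ, ∑ t, g (f t) = ∑ w, X w * g w := by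
  let e : (Σ w, Fin (X w)) ≃ Fin k := Fintype.equivFinOfCardEq (by simpa using h)
  refine ⟨fun t => (e.symm t).1, fun t => (e.symm t).2.pos.ne', fun g => ?_⟩
  rw [e.symm.sum_comp fun s => g s.1, Fintype.sum_sigma]
  simp

lemma half {n : ℕ} (F : Fin n → Fin n → ℚ) (h : ∀ u, F u u = 0) :
    ∑ u, ∑ v ∈ univ.filter (fun v => u < v), (F u v + F v u) = ∑ u, ∑ v, F u v := by
  simp only [Finset.sum_add_distrib, Finset.sum_filter]
  rw [Finset.sum_comm (f := fun u v => if u < v then F v u else 0), ← Finset.sum_add_distrib]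
  refine Finset.sum_congr rfl fun u _ => ?_
  rw [← Finset.sum_add_distrib]
  refine Finset.sum_congr rfl fun v _ => ?_
  rcases lt_trichotomy u v with h1 | rfl | h1
  · simp [h1, h1.not_gt]
  · simp [h]
  · simp [h1, h1.not_gt]

def EPR {n : ℕ} (G : SimpleGraph (Fin n)) : Prop :=
  ∃ m k : ℕ, 1 ≤ m ∧ 1 ≤ k ∧
    ∃ P : ∀ u v : Fin n, Fin k → G.Walk u v,
      (∀ u v : Fin n, u < v → ∀ t : Fin k,
          (P u v t).IsPath ∧ (P u v t).length = G.dist u v) ∧
      (∀ e ∈ G.edgeSet,
          ∑ u : Fin n, ∑ v ∈ Finset.univ.filter (fun v => u < v), ∑ t : Fin k,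
            (P u v t).edges.count e = m)

theorem epr_of_frac {n : ℕ} (G : SimpleGraph (Fin n)) (y : T (Fin n) → ℚ) (c : ℚ)
    (h0 : ∀ t, 0 ≤ y t) (h1 : ∀ t, ¬ Ch G t → y t = 0)
    (h2 : ∀ u v, u ≠ v → ¬ G.Adj u v → y ⬝ᵥ ro u v = 1)
    (h3 : ∀ e ∈ G.edgeSet, y ⬝ᵥ io e = c) : EPR G := by
  obtain ⟨k, hk, X, hX⟩ := denom (fun t : T (Fin n) => (y t + y (t.2.2, t.2.1, t.1)) / 2)
    fun t => by have := h0 t; have := h0 (t.2.2, t.2.1, t.1); positivity
  have chs : ∀ u w v, Ch G (v, w, u) → Ch G (u, w, v) := fun u w v h =>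
    ⟨h.2.1.symm, h.1.symm, fun a => h.2.2.1 a.symm, h.2.2.2.symm⟩
  have hX0 : ∀ u w v, ¬ Ch G (u, w, v) → X (u, w, v) = 0 := fun u w v h => by
    have := hX (u, w, v)
    rw [h1 _ h, h1 (v, w, u) fun a => h (chs _ _ _ a)] at this
    simpa using this
  have e0 : ∀ u v, y ⬝ᵥ ro u v = ∑ w, y (u, w, v) := fun u v => by
    simp only [dotProduct, ro, Fintype.sum_prod_type, ite_and]
    simp
  have a1 : ∀ u v, ∃ p : Fin k → G.Walk u v, u ≠ v →
      (∀ t, (p t).IsPath ∧ (p t).length = G.dist u v) ∧ ∀ e ∈ G.edgeSet,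
        ((∑ t, (p t).edges.count e : ℕ) : ℚ) =
          k * ind e s(u, v) + ∑ w, X (u, w, v) * io e (u, w, v) := by
    intro u v
    by_cases huv : u = v
    · subst huv
      exact ⟨fun _ => .nil, fun h => absurd rfl h⟩
    by_cases ha : G.Adj u v
    · refine ⟨fun _ => .cons ha .nil, fun _ => ⟨fun _ => ⟨by simp [huv], ?_⟩, fun e _ => ?_⟩⟩
      · simp [SimpleGraph.dist_eq_one_iff_adj.2 ha]
      · rw [Finset.sum_eq_zero (s := univ) (f := fun w => (X (u, w, v) : ℚ) * io e (u, w, v))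
          fun w _ => by rw [hX0 u w v fun h => h.2.2.1 ha]; simp]
        by_cases h : s(u, v) = e <;> simp [ind, h]
    obtain ⟨f, f1, f2⟩ := mids (fun w => X (u, w, v)) k (by
      have b1 := h2 u v huv ha
      have b2 := h2 v u (Ne.symm huv) fun a => ha a.symm
      rw [e0] at b1 b2
      have : ((∑ w, X (u, w, v) : ℕ) : ℚ) = k := by
        simp only [Nat.cast_sum, hX, ← Finset.mul_sum, ← Finset.sum_div, Finset.sum_add_distrib,
          b1, b2]
        norm_num
      exact_mod_cast this)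
    have hc : ∀ t, Ch G (u, f t, v) := fun t => by
      by_contra h
      exact f1 t (hX0 _ _ _ h)
    refine ⟨fun t => .cons (hc t).1 (.cons (hc t).2.1 .nil), fun _ => ⟨fun t => ⟨?_, ?_⟩,
      fun e he => ?_⟩⟩
    · simp [huv, (hc t).1.ne, (hc t).2.1.ne]
    · have b1 := SimpleGraph.dist_le (SimpleGraph.Walk.cons (hc t).1 (.cons (hc t).2.1 .nil))
      have b2 := ((hc t).1.reachable.trans (hc t).2.1.reachable).pos_dist_of_ne huv
      have b3 : G.dist u v ≠ 1 := fun h => ha (SimpleGraph.dist_eq_one_iff_adj.1 h)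
      simp only [SimpleGraph.Walk.length_cons, SimpleGraph.Walk.length_nil] at b1 b2 ⊢
      omega
    · rw [← f2 fun w => io e (u, w, v), ind, if_neg (by rintro rfl; exact ha he), Nat.cast_sum,
        mul_zero, zero_add]
      refine Finset.sum_congr rfl fun t _ => ?_
      by_cases b1 : s(u, f t) = e <;> by_cases b2 : s(f t, v) = e <;>
        simp [io, ind, b1, b2]
      norm_num
  choose P hP using a1
  have a2 : ∀ e ∈ G.edgeSet, ((∑ u : Fin n, ∑ v ∈ Finset.univ.filter (fun v => u < v),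
      ∑ t : Fin k, (P u v t).edges.count e : ℕ) : ℚ) = k + k * c / 2 := by
    intro e he
    have b1 := half (fun u v => ind e s(u, v) + ∑ w, y (u, w, v) * io e (u, w, v)) fun u => by
      rw [Finset.sum_eq_zero fun w _ => by rw [h1 _ fun h => h.2.2.2 rfl, zero_mul], ind,
        if_neg (by rintro rfl; exact G.irrefl he), add_zero]
    have b2 : ∑ u, ∑ v, ind e s(u, v) = 2 := by
      have := sum_ind G he fun _ => 1
      rw [D, Finset.sum_filter, Fintype.sum_prod_type, mul_one] at this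
      rw [← this]
      refine Finset.sum_congr rfl fun u _ => Finset.sum_congr rfl fun v _ => ?_
      split_ifs with h
      · rw [one_mul]
      · rw [ind, if_neg (by rintro rfl; exact h he)]
    have b3 : ∑ u, ∑ v, ∑ w, y (u, w, v) * io e (u, w, v) = c := by
      rw [← h3 e he, dotProduct]
      simp only [Fintype.sum_prod_type]
      exact Finset.sum_congr rfl fun u _ => Finset.sum_comm
    simp only [Finset.sum_add_distrib (s := univ), b2, b3] at b1
    calc _ = ∑ u : Fin n, ∑ v ∈ Finset.univ.filter (fun v => u < v), (k / 2 : ℚ) *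
          ((ind e s(u, v) + ∑ w, y (u, w, v) * io e (u, w, v)) +
            (ind e s(v, u) + ∑ w, y (v, w, u) * io e (v, w, u))) := by
          rw [Nat.cast_sum]
          refine Finset.sum_congr rfl fun u _ => ?_
          rw [Nat.cast_sum]
          refine Finset.sum_congr rfl fun v hv => ?_
          rw [(hP u v (mem_filter.1 hv).2.ne).2 e he, Sym2.eq_swap (a := v) (b := u)]
          have : ∑ w, (X (u, w, v) : ℚ) * io e (u, w, v) = k / 2 *
              (∑ w, y (u, w, v) * io e (u, w, v) + ∑ w, y (v, w, u) * io e (v, w, u)) := by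
            rw [← Finset.sum_add_distrib, Finset.mul_sum]
            refine Finset.sum_congr rfl fun w _ => ?_
            rw [hX]
            simp only [io, Sym2.eq_swap (a := v) (b := w), Sym2.eq_swap (a := w) (b := u)]
            ring
          rw [this]
          ring
      _ = _ := by
          simp only [← Finset.mul_sum]
          rw [b1]
          ring
  by_cases hE : ∃ e, e ∈ G.edgeSet
  · obtain ⟨e, he⟩ := hE
    refine ⟨_, k, ?_, hk, P, fun u v h => (hP u v h.ne).1, fun e' he' =>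
      Nat.cast_injective (R := ℚ) ((a2 e' he').trans (a2 e he).symm)⟩
    have b1 : 0 ≤ c := by
      rw [← h3 e he]
      refine Finset.sum_nonneg fun t _ => mul_nonneg (h0 t) ?_
      simp only [io, ind]
      split_ifs <;> norm_num
    have b2 : (1 : ℚ) ≤ k := by exact_mod_cast hk
    have b3 : (1 : ℚ) ≤ k + k * c / 2 := by nlinarith
    rw [← a2 e he] at b3
    exact_mod_cast b3
  · exact ⟨1, k, le_rfl, hk, P, fun u v h => (hP u v h.ne).1, fun e he => absurd ⟨e, he⟩ hE⟩

section ext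
variable {V : Type} [Fintype V] [DecidableEq V] (G : SimpleGraph V)

noncomputable def ext (S R : Finset V) : Finset V :=
  (S ∪ R)ᶜ.filter fun z => (∀ s ∈ S, G.Adj z s) ∧ ∀ s ∈ R, ¬ G.Adj z s

def Q : Prop := ∀ S R : Finset V, Disjoint S R → S.card + R.card ≤ 5 →
  |((ext G S R).card : ℝ) - Fintype.card V / 2 ^ (S.card + R.card)| ≤ Fintype.card V / 10 ^ 7

variable {G}

lemma mem_ext {S R : Finset V} {z : V} : z ∈ ext G S R ↔
    (∀ s ∈ S, G.Adj z s) ∧ (∀ s ∈ R, ¬ G.Adj z s) ∧ z ∉ R := by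
  simp only [ext, mem_filter, mem_compl, mem_union, not_or]
  exact ⟨fun h => ⟨h.2.1, h.2.2, h.1.2⟩, fun h => ⟨⟨fun a => G.irrefl (h.1 z a), h.2.2⟩, h.1, h.2.1⟩⟩

lemma Q.low (h : Q G) {S R : Finset V} (hd : Disjoint S R) (hc : S.card + R.card ≤ 5) :
    (Fintype.card V : ℚ) / 64 ≤ (ext G S R).card := by
  have a1 := (abs_le.1 (h S R hd hc)).1
  have n0 : (0 : ℝ) ≤ Fintype.card V := Nat.cast_nonneg _
  have a2 : (Fintype.card V : ℝ) / 2 ^ 5 ≤ Fintype.card V / 2 ^ (S.card + R.card) :=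
    div_le_div_of_nonneg_left n0 (by positivity) (pow_le_pow_right₀ (by norm_num) hc)
  have a3 : (Fintype.card V : ℝ) ≤ (ext G S R).card * 64 := by linarith
  rw [div_le_iff₀ (by norm_num)]
  exact_mod_cast a3

lemma Q.two (h : Q G) {S R : Finset V} (hd : Disjoint S R) (hc : S.card + R.card = 2) :
    |((ext G S R).card : ℚ) - Fintype.card V / 4| ≤ Fintype.card V / 10 ^ 7 := by
  have a1 := h S R hd (by omega)
  rw [hc, show (2 : ℝ) ^ 2 = 4 by norm_num] at a1
  refine (Rat.cast_le (K := ℝ)).1 ?_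
  push_cast
  exact a1

theorem Q.frac (h : Q G) (hn : 2 ≤ Fintype.card V) :
    ∃ (y : T V → ℚ) (c : ℚ), (∀ t, 0 ≤ y t) ∧ (∀ t, ¬ Ch G t → y t = 0) ∧
      (∀ u v, u ≠ v → ¬ G.Adj u v → y ⬝ᵥ ro u v = 1) ∧ ∀ e ∈ G.edgeSet, y ⬝ᵥ io e = c := by
  have n0 : (0 : ℚ) ≤ Fintype.card V := Nat.cast_nonneg _
  have h1 : ∀ u v, u ≠ v → |(cod G u v : ℚ) - Fintype.card V / 4| ≤ Fintype.card V / 10 ^ 7 := by
    intro u v huv
    have := h.two (S := {u, v}) (R := ∅) (by simp) (by simp [huv])
    rwa [show ext G {u, v} ∅ = univ.filter fun w => G.Adj u w ∧ G.Adj w v from by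
      ext w; simp [mem_ext, G.adj_comm u]] at this
  refine Epr.frac G (by omega) h1 (fun u v huv => ?_) ?_ fun p hp q hq => ?_
  · have := h.two (S := {v}) (R := {u}) (by simp [huv.symm]) (by simp)
    rwa [show ext G {v} {u} = univ.filter fun w => G.Adj v w ∧ ¬ G.Adj u w ∧ u ≠ w from by
      ext w; simp [mem_ext, G.adj_comm u, G.adj_comm v, eq_comm (a := w)]] at this
  · rw [D, card_filter, Fintype.sum_prod_type, Nat.cast_sum]
    refine le_trans ?_ (Finset.card_nsmul_le_sum _ _ ((Fintype.card V : ℚ) / 8) fun u _ => ?_)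
    · rw [nsmul_eq_mul, card_univ]
      exact le_of_eq (by ring)
    · obtain ⟨v, hv⟩ := Fintype.exists_ne_of_one_lt_card hn u
      have b1 := (abs_le.1 (h1 u v hv.symm)).1
      have b2 : cod G u v ≤ (univ.filter fun w => G.Adj u w).card :=
        card_le_card fun w hw => mem_filter.2 ⟨mem_univ _, (mem_filter.1 hw).2.1⟩
      have b3 : (cod G u v : ℚ) ≤ (univ.filter fun w => G.Adj u w).card := by exact_mod_cast b2
      rw [← card_filter]
      linarith
  · have hab := (mem_filter.1 hp).2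
    have hcd : G.Adj (sw p q).1 (sw p q).2 := by
      unfold sw
      split_ifs
      · exact (mem_filter.1 hq).2.symm
      · exact (mem_filter.1 hq).2
    have hne : p.1 ≠ (sw p q).2 ∧ p.2 ≠ (sw p q).1 := by
      have b1 := hab.ne
      have b2 := (mem_filter.1 hq).2.ne
      unfold sw
      split_ifs with h3
      · rcases h3 with h3 | h3
        · exact ⟨fun a => b2 (a.symm.trans h3), fun a => b1 (h3.trans a.symm)⟩
        · exact ⟨fun a => b1 (a.trans h3.symm), fun a => b2 (h3.symm.trans a)⟩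
      · exact not_or.1 h3
    unfold Good
    generalize sw p q = r at hcd hne
    obtain ⟨a, b⟩ := p
    obtain ⟨c, d⟩ := r
    simp only at hab hcd hne
    have b1 : (ext G {b, d} {a, c}).biUnion (fun x => (ext G {a, c, x} {b, d}).image fun y => (x, y))
        ⊆ univ.filter fun z => C4 G (a, b) z ∧ C4 G (c, d) z := by
      intro z hz
      obtain ⟨x, hx, hz⟩ := mem_biUnion.1 hz
      obtain ⟨y, hy, rfl⟩ := mem_image.1 hz
      simp only [mem_ext, mem_insert, mem_singleton, forall_eq_or_imp, forall_eq, not_or] at hx hy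
      exact mem_filter.2 ⟨mem_univ _, ⟨hab, hx.1.1.symm, hy.1.2.2.symm, hy.1.1,
        fun e => hx.2.1.1 e.symm, fun e => hy.2.1.1 e.symm, Ne.symm hx.2.2.1, Ne.symm hy.2.2.1⟩,
        ⟨hcd, hx.1.2.symm, hy.1.2.2.symm, hy.1.2.1, fun e => hx.2.1.2 e.symm,
          fun e => hy.2.1.2 e.symm, Ne.symm hx.2.2.2, Ne.symm hy.2.2.2⟩⟩
    have b2 := card_le_card b1
    rw [card_biUnion fun x _ x' _ hx => Finset.disjoint_left.2 fun z h1 h2 => by
      obtain ⟨y, -, rfl⟩ := mem_image.1 h1
      obtain ⟨y', -, e⟩ := mem_image.1 h2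
      exact hx (congrArg Prod.fst e).symm] at b2
    have b3 := h.low (S := {b, d}) (R := {a, c})
      (by simp [hab.ne, hcd.ne, hne.1, hne.2.symm]) (by
        have := card_le_two (a := b) (b := d)
        have := card_le_two (a := a) (b := c)
        omega)
    have b4 := Finset.card_nsmul_le_sum (ext G {b, d} {a, c})
      (fun x => (((ext G {a, c, x} {b, d}).image fun y => (x, y)).card : ℚ))
      ((Fintype.card V : ℚ) / 64) fun x hx => by
        rw [card_image_of_injective _ fun y y' e => congrArg Prod.snd e]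
        simp only [mem_ext, mem_insert, mem_singleton, forall_eq_or_imp, forall_eq, not_or] at hx
        refine h.low (by
          simp [hab.ne', hcd.ne', hne.1.symm, hne.2, hx.1.1.ne', hx.1.2.ne']) ?_
        have := card_le_three (a := a) (b := c) (c := x)
        have := card_le_two (a := b) (b := d)
        omega
    rw [nsmul_eq_mul, ← Nat.cast_sum] at b4
    refine le_trans ?_ (b4.trans (by exact_mod_cast b2))
    nlinarith

end ext

section prob
open Pool.Agent.H61.Cube2 Filter Topology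

lemma chern {α ι : Type} (U : Finset α) (W : Finset ι) (O C : ι → Finset α) (s : ℕ)
    (hO : ∀ z ∈ W, O z ⊆ U) (hC : ∀ z ∈ W, C z ⊆ U)
    (h1 : ∀ z ∈ W, ∀ z' ∈ W, Disjoint (O z) (C z'))
    (h2 : ∀ z ∈ W, ∀ z' ∈ W, z ≠ z' → Disjoint (O z) (O z'))
    (h3 : ∀ z ∈ W, ∀ z' ∈ W, z ≠ z' → Disjoint (C z) (C z'))
    (hs : ∀ z ∈ W, (O z).card + (C z).card = s) (l τ : ℝ) (hl : |l| ≤ 1) :
    P U (1 / 2) (fun A => τ ≤ l * (W.filter fun z => O z ⊆ A ∧ Disjoint (C z) A).card) ≤
      Real.exp (-τ + W.card * ((l + l ^ 2) / 2 ^ s)) := by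
  set θ := Real.exp l - 1 with hθ
  set w : Finset α → ℝ := fun A => (1 / 2 : ℝ) ^ A.card * (1 - 1 / 2) ^ (U.card - A.card) with hw
  have w0 : ∀ A, 0 ≤ w A := fun A => by simp only [hw]; positivity
  have a1 : ∑ A ∈ U.powerset, w A * ∏ z ∈ W, (1 + if O z ⊆ A ∧ Disjoint (C z) A then θ else 0) =
      (1 + θ / 2 ^ s) ^ W.card := by
    rw [← prod_const, Finset.prod_one_add]
    simp only [Finset.prod_one_add, Finset.mul_sum]
    rw [Finset.sum_comm]
    refine Finset.sum_congr rfl fun Z hZ => ?_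
    have hZ' := mem_powerset.1 hZ
    have b1 := cyl U (Z.biUnion O) (Z.biUnion C) (1 / 2)
      (biUnion_subset.2 fun z hz => hO z (hZ' hz)) (biUnion_subset.2 fun z hz => hC z (hZ' hz))
      (by simp only [disjoint_biUnion_left, disjoint_biUnion_right]
          exact fun z' hz' z hz => h1 z (hZ' hz) z' (hZ' hz'))
    rw [card_biUnion fun z hz z' hz' => h2 z (hZ' hz) z' (hZ' hz'),
      card_biUnion fun z hz z' hz' => h3 z (hZ' hz) z' (hZ' hz'),
      show (1 : ℝ) - 1 / 2 = 1 / 2 by norm_num, ← pow_add, ← Finset.sum_add_distrib,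
      Finset.sum_congr rfl fun z hz => hs z (hZ' hz), sum_const, smul_eq_mul] at b1
    rw [prod_const, div_pow, ← pow_mul, div_eq_mul_one_div, ← one_div_pow, mul_comm s, ← b1, P,
      Finset.mul_sum]
    refine Finset.sum_congr rfl fun A _ => ?_
    simp only [biUnion_subset, disjoint_biUnion_left]
    split_ifs with h
    · rw [Finset.prod_congr rfl fun z hz => if_pos ⟨h.1 z hz, h.2 z hz⟩, prod_const, mul_comm]
    · rw [mul_zero]
      by_contra h4
      refine h ⟨fun z hz => ?_, fun z hz => ?_⟩ <;> by_contra h5 <;>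
        exact h4 (by rw [Finset.prod_eq_zero hz (if_neg fun a => by tauto), mul_zero])
  have a2 : P U (1 / 2) (fun A => τ ≤ l * (W.filter fun z => O z ⊆ A ∧ Disjoint (C z) A).card) ≤
      Real.exp (-τ) * (1 + θ / 2 ^ s) ^ W.card := by
    rw [← a1, P, Finset.mul_sum]
    refine Finset.sum_le_sum fun A _ => ?_
    have e : ∏ z ∈ W, (1 + if O z ⊆ A ∧ Disjoint (C z) A then θ else 0) =
        Real.exp (l * (W.filter fun z => O z ⊆ A ∧ Disjoint (C z) A).card) := by
      rw [mul_comm, Real.exp_nat_mul, ← prod_const, Finset.prod_filter]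
      exact Finset.prod_congr rfl fun z _ => by split_ifs <;> simp [hθ]
    rw [e, mul_left_comm, ← Real.exp_add]
    split_ifs with h
    · exact le_mul_of_one_le_right (w0 A) (Real.one_le_exp (by linarith))
    · exact mul_nonneg (w0 A) (Real.exp_pos _).le
  refine a2.trans ?_
  rw [Real.exp_add, Real.exp_nat_mul]
  have b1 := (abs_le.1 (Real.abs_exp_sub_one_sub_id_le hl)).2
  have b2 : (1 : ℝ) ≤ 2 ^ s := one_le_pow₀ (by norm_num)
  refine mul_le_mul_of_nonneg_left (pow_le_pow_left₀ ?_ ?_ _) (Real.exp_pos _).le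
  · have : -1 ≤ θ / 2 ^ s := by
      rw [le_div_iff₀ (by positivity)]
      linarith [Real.exp_pos l]
    linarith
  · have : θ / 2 ^ s ≤ (l + l ^ 2) / 2 ^ s := div_le_div_of_nonneg_right (by linarith) (by positivity)
    linarith [Real.add_one_le_exp ((l + l ^ 2) / 2 ^ s)]

lemma P_union {α ι : Type} (U : Finset α) {p : ℝ} (h0 : 0 ≤ p) (h1 : p ≤ 1) (I : Finset ι)
    (E : ι → Finset α → Prop) : P U p (fun A => ∃ i ∈ I, E i A) ≤ ∑ i ∈ I, P U p (E i) := by
  have hq : 0 ≤ 1 - p := by linarith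
  simp only [P]
  rw [Finset.sum_comm]
  refine Finset.sum_le_sum fun A _ => ?_
  have hn : ∀ i ∈ I, 0 ≤ (if E i A then p ^ A.card * (1 - p) ^ (U.card - A.card) else 0) :=
    fun i _ => by
      split_ifs
      · positivity
      · exact le_rfl
  split_ifs with h
  · obtain ⟨i, hi, h⟩ := h
    refine le_trans (le_of_eq ?_) (Finset.single_le_sum hn hi)
    rw [if_pos h]
  · exact Finset.sum_nonneg hn

variable {n : ℕ}

noncomputable def UU (n : ℕ) : Finset (Sym2 (Fin n)) := (⊤ : SimpleGraph (Fin n)).edgeFinset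
def gr (A : Finset (Sym2 (Fin n))) : SimpleGraph (Fin n) := SimpleGraph.fromEdgeSet (A : Set _)

lemma dev (hn : 10 ^ 8 ≤ n) (S R : Finset (Fin n)) (hd : Disjoint S R) (hc : S.card + R.card ≤ 5) :
    P (UU n) (1 / 2) (fun A => ¬ |((ext (gr A) S R).card : ℝ) - n / 2 ^ (S.card + R.card)| ≤
      n / 10 ^ 7) ≤ 2 * Real.exp (-(n / (16 * 10 ^ 14))) := by
  have inj : ∀ z : Fin n, Function.Injective fun s : Fin n => s(z, s) := fun z a b h => by
    simpa using Sym2.congr_right.1 h
  have dj : ∀ X Y : Finset (Fin n), X ⊆ S ∪ R → Y ⊆ S ∪ R → ∀ z ∈ (S ∪ R)ᶜ, ∀ z' ∈ (S ∪ R)ᶜ,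
      (z = z' → Disjoint X Y) → Disjoint (X.image fun s => s(z, s)) (Y.image fun s => s(z', s)) := by
    intro X Y hX hY z hz z' hz' h
    refine Finset.disjoint_left.2 fun e h1 h2 => ?_
    obtain ⟨a, ha, rfl⟩ := mem_image.1 h1
    obtain ⟨b, hb, e⟩ := mem_image.1 h2
    rcases Sym2.eq_iff.1 e with ⟨rfl, rfl⟩ | ⟨rfl, rfl⟩
    · exact Finset.disjoint_left.1 (h rfl) ha hb
    · exact mem_compl.1 hz (hY hb)
  have sub : ∀ X : Finset (Fin n), X ⊆ S ∪ R → ∀ z ∈ (S ∪ R)ᶜ,
      (X.image fun s => s(z, s)) ⊆ UU n := fun X hX z hz e he => by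
    obtain ⟨a, ha, rfl⟩ := mem_image.1 he
    simp only [UU, SimpleGraph.mem_edgeFinset, SimpleGraph.mem_edgeSet, SimpleGraph.top_adj]
    rintro rfl
    exact mem_compl.1 hz (hX ha)
  have key := chern (UU n) (S ∪ R)ᶜ (fun z => S.image fun s => s(z, s))
    (fun z => R.image fun s => s(z, s)) (S.card + R.card) (sub S subset_union_left)
    (sub R subset_union_right)
    (fun z hz z' hz' => dj S R subset_union_left subset_union_right z hz z' hz' fun _ => hd)
    (fun z hz z' hz' h => dj S S subset_union_left subset_union_left z hz z' hz' fun a =>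
      absurd a h)
    (fun z hz z' hz' h => dj R R subset_union_right subset_union_right z hz z' hz' fun a =>
      absurd a h)
    (fun z _ => by rw [card_image_of_injective _ (inj z), card_image_of_injective _ (inj z)])
  have e : ∀ A : Finset (Sym2 (Fin n)), ((S ∪ R)ᶜ.filter fun z =>
      (S.image fun s => s(z, s)) ⊆ A ∧ Disjoint (R.image fun s => s(z, s)) A) =
      ext (gr A) S R := fun A => by
    ext z
    simp only [Epr.ext, mem_filter]
    refine and_congr_right fun hz => ?_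
    have : ∀ s ∈ S ∪ R, (gr A).Adj z s ↔ s(z, s) ∈ A := fun s hs => by
      simp only [gr, SimpleGraph.fromEdgeSet_adj, mem_coe, and_iff_left_iff_imp]
      rintro - rfl
      exact mem_compl.1 hz hs
    simp only [image_subset_iff, Finset.disjoint_left, forall_mem_image]
    exact and_congr (forall₂_congr fun s hs => (this s (mem_union_left _ hs)).symm)
      (forall₂_congr fun s hs => (this s (mem_union_right _ hs)).not.symm)
  replace key : ∀ l τ : ℝ, |l| ≤ 1 → P (UU n) (1 / 2) (fun A => τ ≤ l * (ext (gr A) S R).card) ≤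
      Real.exp (-τ + (S ∪ R)ᶜ.card * ((l + l ^ 2) / 2 ^ (S.card + R.card))) := fun l τ hl => by
    have := key l τ hl
    simp only [← e]
    convert this
  have c1 : ((S ∪ R)ᶜ.card : ℝ) ≤ n ∧ (n : ℝ) ≤ (S ∪ R)ᶜ.card + 5 := by
    have b1 := card_compl_add_card (S ∪ R)
    have b2 := card_union_le S R
    rw [Fintype.card_fin] at b1
    exact ⟨by exact_mod_cast (by omega), by exact_mod_cast (by omega)⟩
  have c2 : (10 ^ 8 : ℝ) ≤ n := by exact_mod_cast hn
  set m : ℝ := ((S ∪ R)ᶜ.card : ℝ)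
  have m0 : 0 ≤ m := Nat.cast_nonneg _
  set u : ℝ := 1 / 2 ^ (S.card + R.card) with hu
  have u0 : 0 < u := by positivity
  have u1 : u ≤ 1 := by
    rw [hu, div_le_one (by positivity)]
    exact one_le_pow₀ (by norm_num)
  have k1 := key (1 / (4 * 10 ^ 7)) (1 / (4 * 10 ^ 7) * (n * u + n / 10 ^ 7))
    (by rw [abs_le]; constructor <;> norm_num)
  have k2 := key (-(1 / (4 * 10 ^ 7))) (-(1 / (4 * 10 ^ 7)) * (n * u - n / 10 ^ 7))
    (by rw [abs_le]; constructor <;> norm_num)
  rw [div_eq_mul_one_div _ (2 ^ _ : ℝ), ← hu] at k1 k2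
  have d1 : m * u ≤ n * u := mul_le_mul_of_nonneg_right c1.1 u0.le
  have d2 : n * u ≤ n := mul_le_of_le_one_right (by linarith) u1
  have d3 : n * u ≤ m * u + 5 := by nlinarith [c1.2]
  have k3 := P_union (UU n) (by norm_num : (0 : ℝ) ≤ 1 / 2) (by norm_num) (univ : Finset Bool)
    fun b A => if b then 1 / (4 * 10 ^ 7) * (n * u + n / 10 ^ 7) ≤
        1 / (4 * 10 ^ 7) * ((ext (gr A) S R).card : ℝ)
      else -(1 / (4 * 10 ^ 7)) * (n * u - n / 10 ^ 7) ≤
        -(1 / (4 * 10 ^ 7)) * ((ext (gr A) S R).card : ℝ)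
  simp only [Fintype.sum_bool, if_true, Bool.false_eq_true, if_false] at k3
  refine (P_mono (by norm_num) (by norm_num) fun A _ h => ?_).trans (k3.trans ?_)
  · rw [div_eq_mul_one_div _ (2 ^ _ : ℝ), ← hu, abs_le, not_and_or] at h
    rcases h with h | h
    · exact ⟨false, mem_univ _, by simp only [Bool.false_eq_true, if_false]; linarith⟩
    · exact ⟨true, mem_univ _, by simp only [if_true]; linarith⟩
  · rw [two_mul]
    exact add_le_add (k1.trans (Real.exp_le_exp.2 (by linarith)))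
      (k2.trans (Real.exp_le_exp.2 (by linarith)))

lemma notQ (hn : 10 ^ 8 ≤ n) : P (UU n) (1 / 2) (fun A => ¬ Q (gr A)) ≤
    72 * (n ^ 10 * Real.exp (-(1 / (16 * 10 ^ 14))) ^ n) := by
  set F : Finset (Finset (Fin n)) := (range 6).biUnion fun k => powersetCard k univ with hF
  have a1 : F.card ≤ 6 * n ^ 5 := by
    refine le_trans (card_biUnion_le_card_mul _ _ (n ^ 5) fun k hk => ?_) (by simp)
    rw [card_powersetCard, card_univ, Fintype.card_fin]
    exact (Nat.choose_le_pow n k).trans (Nat.pow_le_pow_right (by omega)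
      (Nat.lt_succ_iff.1 (mem_range.1 hk)))
  have a2 : ∀ S : Finset (Fin n), S.card ≤ 5 → S ∈ F := fun S h =>
    mem_biUnion.2 ⟨_, mem_range.2 (by omega), mem_powersetCard.2 ⟨subset_univ _, rfl⟩⟩
  have a3 := P_union (UU n) (by norm_num : (0 : ℝ) ≤ 1 / 2) (by norm_num)
    ((F ×ˢ F).filter fun x => Disjoint x.1 x.2 ∧ x.1.card + x.2.card ≤ 5) fun x A =>
      ¬ |((ext (gr A) x.1 x.2).card : ℝ) - n / 2 ^ (x.1.card + x.2.card)| ≤ n / 10 ^ 7
  refine (P_mono (by norm_num) (by norm_num) fun A _ h => ?_).trans (a3.trans ?_)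
  · simp only [Q, not_forall, Fintype.card_fin] at h
    obtain ⟨S, R, h1, h2, h3⟩ := h
    exact ⟨(S, R), mem_filter.2 ⟨mem_product.2 ⟨a2 S (by omega), a2 R (by omega)⟩, h1, h2⟩, h3⟩
  · refine (Finset.sum_le_card_nsmul _ _ _ fun x hx =>
      dev hn x.1 x.2 (mem_filter.1 hx).2.1 (mem_filter.1 hx).2.2).trans ?_
    have b1 : ((F ×ˢ F).filter fun x => Disjoint x.1 x.2 ∧ x.1.card + x.2.card ≤ 5).card ≤
        36 * n ^ 10 := by
      refine (card_filter_le _ _).trans ?_
      rw [card_product]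
      exact (Nat.mul_le_mul a1 a1).trans (le_of_eq (by ring))
    rw [nsmul_eq_mul, ← Real.exp_nat_mul,
      show (n : ℝ) * -(1 / (16 * 10 ^ 14)) = -(n / (16 * 10 ^ 14)) by ring]
    refine (mul_le_mul_of_nonneg_right (Nat.cast_le.2 b1) (by positivity)).trans (le_of_eq ?_)
    push_cast
    ring

lemma card_eq (E : SimpleGraph (Fin n) → Prop) :
    (Nat.card {G : SimpleGraph (Fin n) // E G} : ℝ) / 2 ^ n.choose 2 =
      P (UU n) (1 / 2) fun A => E (gr A) := by
  have hU : (UU n).card = n.choose 2 := by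
    rw [UU, SimpleGraph.card_edgeFinset_top_eq_card_choose_two, Fintype.card_fin]
  have a1 : Nat.card {G : SimpleGraph (Fin n) // E G} =
      ((UU n).powerset.filter fun A => E (gr A)).card := by
    rw [Nat.card_eq_fintype_card, Fintype.card_subtype]
    symm
    refine card_bij (fun A _ => gr A) (fun A hA => mem_filter.2 ⟨mem_univ _, (mem_filter.1 hA).2⟩)
      (fun A hA B hB h => ?_) fun G hG => ⟨G.edgeFinset, mem_filter.2 ⟨mem_powerset.2
        (SimpleGraph.edgeFinset_mono le_top), by simpa [gr] using (mem_filter.1 hG).2⟩, by simp [gr]⟩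
    have b : ∀ A ∈ (UU n).powerset.filter fun A => E (gr A), (gr A).edgeSet = A := fun A hA => by
      rw [gr, SimpleGraph.edgeSet_fromEdgeSet, sdiff_eq_left]
      refine Set.disjoint_left.2 fun e he hd => ?_
      have := mem_powerset.1 (mem_filter.1 hA).1 he
      exact SimpleGraph.not_isDiag_of_mem_edgeSet _ (SimpleGraph.mem_edgeFinset.1 this) hd
    exact coe_injective ((b A hA).symm.trans (h ▸ b B hB))
  rw [a1, P, card_filter, Nat.cast_sum, Finset.sum_div]
  refine Finset.sum_congr rfl fun A hA => ?_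
  split_ifs
  · rw [show (1 : ℝ) - 1 / 2 = 1 / 2 by norm_num, ← pow_add,
      Nat.add_sub_cancel' (card_le_card (mem_powerset.1 hA)), hU]
    simp
  · simp

theorem main : Tendsto (fun n : ℕ => (Nat.card {G : SimpleGraph (Fin n) // EPR G} : ℝ) /
    (2 : ℝ) ^ (n.choose 2)) atTop (𝓝 1) := by
  simp only [card_eq]
  have a1 := ((tendsto_pow_const_mul_const_pow_of_abs_lt_one 10
    (r := Real.exp (-(1 / (16 * 10 ^ 14)))) (by
      rw [abs_of_pos (Real.exp_pos _)]
      exact Real.exp_lt_one_iff.2 (by norm_num))).const_mul 72).const_sub 1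
  rw [mul_zero, sub_zero] at a1
  refine tendsto_of_tendsto_of_tendsto_of_le_of_le' a1 tendsto_const_nhds ?_
    (Eventually.of_forall fun n => ?_)
  · filter_upwards [eventually_ge_atTop (10 ^ 8)] with n hn
    have b1 := P_compl (UU n) (1 / 2) fun A => Q (gr A)
    have b2 := notQ hn
    have b3 := P_mono (U := UU n) (by norm_num : (0 : ℝ) ≤ 1 / 2) (by norm_num)
      (E := fun A => Q (gr A)) (F := fun A => EPR (gr A)) fun A _ h => by
        obtain ⟨y, c, h0, h1, h2, h3⟩ := h.frac (by rw [Fintype.card_fin]; omega)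
        exact epr_of_frac _ y c h0 h1 h2 h3
    linarith
  · have b1 := P_compl (UU n) (1 / 2) fun A => EPR (gr A)
    have b2 := P_nonneg (U := UU n) (by norm_num : (0 : ℝ) ≤ 1 / 2) (by norm_num)
      fun A => ¬ EPR (gr A)
    linarith

end prob

end Pool.Agent.H61.Epr
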