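import Pool.Agent.H61.EsDefs

namespace Pool.Agent.H61.Es

open Filter Topology Finset

noncomputable def u : List Idx → ℕ → ℝ
  | [], _ => 0
  | s :: l, k => term s k * trunc l k

lemma trunc_eq (w : List Idx) (hw : w ≠ []) (N : ℕ) :
    trunc w N = ∑ m ∈ Ico 1 N, u w m := by
  cases w with
  | nil => exact absurd rfl hw
  | cons s l => rfl

lemma term_oplus (s t : Idx) (n : ℕ) : term (oplus s t) n = term s n * term t n := by
  obtain ⟨a, b⟩ := s
  obtain ⟨c, d⟩ := t
  cases b <;> cases d <;> simp [term, oplus, pow_add, div_mul_div_comm, ← mul_pow]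
  all_goals ring

lemma u_merge (s : Idx) (w : List Idx) (k : ℕ) : u (merge s w) k = term s k * u w k := by
  cases w with
  | nil => simp [merge, u]
  | cons t l => simp [merge, u, term_oplus, mul_assoc]

lemma length_merge (s : Idx) (w : List Idx) : (merge s w).length = w.length := by
  cases w <;> simp [merge]

lemma abs_term (s : Idx) (n : ℕ) : |term s n| = 1 / (n : ℝ) ^ s.1 := by
  obtain ⟨a, b⟩ := s
  cases b <;> simp [term, abs_div, abs_pow]

lemma sqrt_sum (k : ℕ) : ∑ m ∈ Ico 1 (k + 1), 1 / Real.sqrt m ≤ 2 * Real.sqrt k := by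
  induction k with
  | zero => simp
  | succ k ih =>
    rw [Finset.sum_Ico_succ_top (by omega)]
    have h1 : 0 < Real.sqrt ((k + 1 : ℕ) : ℝ) := Real.sqrt_pos.2 (by positivity)
    have h2 : Real.sqrt ((k + 1 : ℕ) : ℝ) ^ 2 = k + 1 := by
      rw [Real.sq_sqrt (by positivity)]; push_cast; ring
    have h3 : Real.sqrt (k : ℝ) ^ 2 = k := Real.sq_sqrt (by positivity)
    have h4 : 1 / Real.sqrt ((k + 1 : ℕ) : ℝ) ≤
        2 * Real.sqrt ((k + 1 : ℕ) : ℝ) - 2 * Real.sqrt k := by
      rw [div_le_iff₀ h1]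
      nlinarith [sq_nonneg (Real.sqrt ((k + 1 : ℕ) : ℝ) - Real.sqrt k)]
    linarith

lemma sqrt_sum' (k : ℕ) : ∑ m ∈ Ico 1 k, 1 / Real.sqrt m ≤ 2 * Real.sqrt k := by
  refine le_trans ?_ (sqrt_sum k)
  exact Finset.sum_le_sum_of_subset_of_nonneg (Finset.Ico_subset_Ico le_rfl (by omega))
    (fun _ _ _ => by positivity)

lemma trunc_bound (l : List Idx) (hl : ∀ s ∈ l, 1 ≤ s.1) (k : ℕ) (hk : 1 ≤ k) :
    |trunc l k| ≤ 2 ^ l.length * Real.sqrt k := by
  induction l generalizing k with
  | nil =>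
    simp only [trunc, abs_one, List.length_nil, pow_zero, one_mul]
    exact Real.one_le_sqrt.2 (by exact_mod_cast hk)
  | cons s l ih =>
    have hs : 1 ≤ s.1 := hl s (by simp)
    have hl' : ∀ t ∈ l, 1 ≤ t.1 := fun t ht => hl t (by simp [ht])
    simp only [trunc, List.length_cons]
    refine (Finset.abs_sum_le_sum_abs _ _).trans ?_
    have : ∀ m ∈ Ico 1 k, |term s m * trunc l m| ≤ 2 ^ l.length * (1 / Real.sqrt m) := by
      intro m hm
      have hm1 : 1 ≤ m := (Finset.mem_Ico.1 hm).1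
      have hm' : (1 : ℝ) ≤ m := by exact_mod_cast hm1
      rw [abs_mul, abs_term]
      have h1 : 1 / (m : ℝ) ^ s.1 ≤ 1 / (m : ℝ) :=
        one_div_le_one_div_of_le (by positivity) (le_self_pow₀ hm' (by omega))
      have h2 := ih hl' m hm1
      have h3 : 0 < Real.sqrt (m : ℝ) := Real.sqrt_pos.2 (by positivity)
      have h4 : Real.sqrt (m : ℝ) * Real.sqrt m = m := Real.mul_self_sqrt (by positivity)
      calc 1 / (m : ℝ) ^ s.1 * |trunc l m| ≤ 1 / (m : ℝ) * (2 ^ l.length * Real.sqrt m) := by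
            gcongr
        _ = 2 ^ l.length * (1 / Real.sqrt m) := by
            field_simp
            nlinarith
    refine (Finset.sum_le_sum this).trans ?_
    rw [← Finset.mul_sum, pow_succ, mul_assoc]
    gcongr
    exact sqrt_sum' k

/-- admissible reversed strings -/
def Good (w : List Idx) : Prop := (∀ s ∈ w, 1 ≤ s.1) ∧ ∃ s l, w = s :: l ∧ 2 ≤ s.1

lemma u_zero (w : List Idx) (hw : Good w) : u w 0 = 0 := by
  obtain ⟨_, s, l, rfl, hs⟩ := hw
  have : s.1 ≠ 0 := by omega
  simp [u, term, this]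

lemma summable_u (w : List Idx) (hw : Good w) : Summable (u w) := by
  have h0 := u_zero w hw
  obtain ⟨h1, s, l, rfl, hs⟩ := hw
  have hl' : ∀ t ∈ l, 1 ≤ t.1 := fun t ht => h1 t (by simp [ht])
  have hsum : Summable fun k : ℕ => (2 : ℝ) ^ l.length * (1 / (k : ℝ) ^ (3 / 2 : ℝ)) :=
    (Real.summable_one_div_nat_rpow.2 (by norm_num)).mul_left _
  refine Summable.of_norm_bounded hsum fun k => ?_
  rcases Nat.eq_zero_or_pos k with rfl | hk
  · rw [h0, norm_zero]; positivity
  · have hk' : (1 : ℝ) ≤ k := by exact_mod_cast hk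
    rw [Real.norm_eq_abs, u, abs_mul, abs_term]
    have h1 : 1 / (k : ℝ) ^ s.1 ≤ 1 / (k : ℝ) ^ 2 :=
      one_div_le_one_div_of_le (by positivity) (pow_le_pow_right₀ hk' hs)
    have h2 := trunc_bound l hl' k hk
    have h3 : (k : ℝ) ^ 2 = (k : ℝ) ^ (3 / 2 : ℝ) * Real.sqrt k := by
      rw [Real.sqrt_eq_rpow, ← Real.rpow_add (by positivity)]
      norm_num
    have h4 : 0 < Real.sqrt (k : ℝ) := Real.sqrt_pos.2 (by positivity)
    calc 1 / (k : ℝ) ^ s.1 * |trunc l k| ≤ 1 / (k : ℝ) ^ 2 * (2 ^ l.length * Real.sqrt k) := by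
          gcongr
      _ = _ := by rw [h3]; field_simp

lemma sum_Ico_one (f : ℕ → ℝ) (h : f 0 = 0) (N : ℕ) :
    ∑ m ∈ Ico 1 N, f m = ∑ m ∈ range N, f m := by
  rcases Nat.eq_zero_or_pos N with rfl | hN
  · simp
  · rw [Finset.range_eq_Ico, Finset.sum_eq_sum_Ico_succ_bot hN, h, zero_add]

lemma tendsto_trunc (w : List Idx) (hw : Good w) :
    Tendsto (trunc w) atTop (𝓝 (∑' k, u w k)) := by
  have hne : w ≠ [] := by obtain ⟨_, s, l, rfl, _⟩ := hw; simp
  have := (summable_u w hw).hasSum.tendsto_sum_nat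
  refine this.congr fun N => ?_
  rw [trunc_eq w hne, sum_Ico_one _ (u_zero w hw)]

lemma zeta_eq (w : List Idx) (hw : Good w) : zeta w.reverse = ∑' k, u w k := by
  rw [zeta, List.reverse_reverse]
  exact (tendsto_trunc w hw).limUnder_eq

lemma tendsto_zeta (w : List Idx) (hw : Good w) :
    Tendsto (trunc w) atTop (𝓝 (zeta w.reverse)) := by
  rw [zeta_eq w hw]; exact tendsto_trunc w hw

lemma strs_prop (r : List Idx) (hr : ∀ s ∈ r, 1 ≤ s.1) :
    ∀ w ∈ strs r, (∀ s ∈ w, 1 ≤ s.1) ∧ w ≠ [] := by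
  induction r with
  | nil => simp [strs]
  | cons s r ih =>
    cases r with
    | nil =>
      intro w hw
      simp only [strs, List.mem_singleton] at hw
      subst hw
      exact ⟨hr, by simp⟩
    | cons t l =>
      intro w hw
      simp only [strs, List.mem_flatMap, List.mem_cons, List.not_mem_nil, or_false] at hw
      obtain ⟨v, hv, hw⟩ := hw
      obtain ⟨h1, h2⟩ := ih (fun x hx => hr x (List.mem_cons_of_mem _ hx)) v hv
      have hs : 1 ≤ s.1 := hr s (by simp)
      rcases hw with rfl | rfl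
      · refine ⟨?_, by simp⟩
        intro x hx
        rcases List.mem_cons.1 hx with rfl | hx
        exacts [hs, h1 x hx]
      · cases v with
        | nil => exact absurd rfl h2
        | cons a v =>
          refine ⟨?_, by simp [merge]⟩
          intro x hx
          rcases List.mem_cons.1 hx with rfl | hx
          · simp only [oplus]; omega
          · exact h1 x (List.mem_cons_of_mem _ hx)

lemma strs_good (s : Idx) (r : List Idx) (hs : 2 ≤ s.1) (hr : ∀ x ∈ r, 1 ≤ x.1) :
    ∀ w ∈ strs (s :: r), Good w := by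
  intro w hw
  have h0 := strs_prop (s :: r) (by
    intro x hx
    rcases List.mem_cons.1 hx with rfl | hx
    exacts [by omega, hr x hx]) w hw
  refine ⟨h0.1, ?_⟩
  cases r with
  | nil =>
    simp only [strs, List.mem_singleton] at hw
    exact ⟨s, [], hw, hs⟩
  | cons t l =>
    simp only [strs, List.mem_flatMap, List.mem_cons, List.not_mem_nil, or_false] at hw
    obtain ⟨v, hv, hw⟩ := hw
    rcases hw with rfl | rfl
    · exact ⟨s, v, rfl, hs⟩
    · cases v with
      | nil => exact absurd rfl h0.2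
      | cons a v => exact ⟨_, v, rfl, by simp only [oplus]; omega⟩

noncomputable def uL (L : List (List Idx)) (k : ℕ) : ℝ :=
  (L.map fun w => (2 : ℝ) ^ w.length * u w k).sum

lemma hasSum_uL (L : List (List Idx)) (hL : ∀ w ∈ L, Good w) :
    HasSum (uL L) (L.map fun w => (2 : ℝ) ^ w.length * zeta w.reverse).sum := by
  induction L with
  | nil => exact (hasSum_zero : HasSum (fun _ : ℕ => (0 : ℝ)) 0)
  | cons w L ih =>
    have h1 := ih fun v hv => hL v (List.mem_cons_of_mem _ hv)
    have hw := hL w (by simp)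
    have h2 := ((summable_u w hw).hasSum.mul_left ((2 : ℝ) ^ w.length)).add h1
    rw [← zeta_eq w hw] at h2
    exact h2

lemma uL_step (s : Idx) (L : List (List Idx)) (hL : ∀ w ∈ L, w ≠ []) (k : ℕ) :
    uL (L.flatMap fun w => [s :: w, merge s w]) k
      = term s k * (2 * ∑ m ∈ Ico 1 k, uL L m + uL L k) := by
  induction L with
  | nil => simp [uL]
  | cons w L ih =>
    have h1 := ih fun v hv => hL v (List.mem_cons_of_mem _ hv)
    have hw := hL w (by simp)
    simp only [uL, List.flatMap_cons, List.map_append, List.sum_append, List.map_cons,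
      List.sum_cons, List.map_nil, List.sum_nil, Finset.sum_add_distrib] at h1 ⊢
    rw [h1, u_merge, length_merge, u, trunc_eq w hw, ← Finset.mul_sum, List.length_cons, pow_succ]
    ring

end Pool.Agent.H61.Es
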