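import Pool.Agent.H61.EsA

namespace Pool.Agent.H61.Es

open Filter Topology Finset

noncomputable def c (n k : ℕ) : ℝ := ∏ j ∈ range k, ((n : ℝ) - j) / (n + j + 1)

lemma c_zero (n : ℕ) : c n 0 = 1 := by simp [c]

lemma c_succ (n k : ℕ) : c n (k + 1) = c n k * (((n : ℝ) - k) / (n + k + 1)) := by
  rw [c, Finset.prod_range_succ]; rfl

lemma c_succ' (n k : ℕ) : ((n : ℝ) + k + 1) * c n (k + 1) = ((n : ℝ) - k) * c n k := by
  rw [c_succ]; field_simp

lemma c_big (n k : ℕ) (h : n < k) : c n k = 0 :=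
  Finset.prod_eq_zero (Finset.mem_range.2 h) (by simp)

lemma c_end (n M : ℕ) (h : n ≤ M) : ((n : ℝ) - M) * c n M = 0 := by
  rw [← c_succ', c_big n (M + 1) (by omega), mul_zero]

lemma abs_c (n k : ℕ) : |c n k| ≤ 1 := by
  rw [c, Finset.abs_prod]
  refine Finset.prod_le_one (fun _ _ => abs_nonneg _) fun j _ => ?_
  rw [abs_div, abs_of_pos (by positivity : (0 : ℝ) < n + j + 1), div_le_one (by positivity),
    abs_le]
  constructor <;> nlinarith [Nat.cast_nonneg (α := ℝ) n, Nat.cast_nonneg (α := ℝ) j]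

lemma tendsto_c (k : ℕ) : Tendsto (fun n : ℕ => c n k) atTop (𝓝 1) := by
  induction k with
  | zero => simp [c_zero]
  | succ k ih =>
    simp only [c_succ]
    have h1 : Tendsto (fun n : ℕ => (n : ℝ) + k + 1) atTop atTop :=
      tendsto_atTop_add_const_right _ _ (tendsto_atTop_add_const_right _ _
        tendsto_natCast_atTop_atTop)
    have h2 : Tendsto (fun n : ℕ => 1 - (2 * (k : ℝ) + 1) / ((n : ℝ) + k + 1)) atTop
        (𝓝 (1 - 0)) := tendsto_const_nhds.sub (tendsto_const_nhds.div_atTop h1)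
    have h3 := ih.mul h2
    rw [sub_zero, mul_one] at h3
    refine h3.congr fun n => ?_
    congr 1
    field_simp
    ring

lemma c_step (n k : ℕ) :
    c n k * ((n : ℝ) + 1) ^ 2 = c (n + 1) k * (((n : ℝ) + 1) ^ 2 - (k : ℝ) ^ 2) := by
  induction k with
  | zero => simp [c_zero]
  | succ k ih =>
    rw [c_succ, c_succ]
    have : c n k * (((n : ℝ) - k) / (n + k + 1)) * ((n : ℝ) + 1) ^ 2
        = (c n k * ((n : ℝ) + 1) ^ 2) * (((n : ℝ) - k) / (n + k + 1)) := by ring
    rw [this, ih]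
    push_cast
    field_simp
    ring

lemma c_sum (N k : ℕ) (hk : 1 ≤ k) :
    c N k / (k : ℝ) ^ 2 = ∑ n ∈ Ico 1 (N + 1), c n k / (n : ℝ) ^ 2 := by
  have hk' : (0 : ℝ) < k := by exact_mod_cast hk
  induction N with
  | zero => simp [c_big 0 k hk]
  | succ N ih =>
    rw [Finset.sum_Ico_succ_top (by omega), ← ih]
    have h := c_step N k
    push_cast
    field_simp
    linarith

lemma alt (n m M : ℕ) (h : m ≤ M) :
    2 * (n : ℝ) * ∑ k ∈ Ico (m + 1) (M + 1), (-1 : ℝ) ^ k * c n k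
      = (-1) ^ M * (((n : ℝ) - M) * c n M) - (-1) ^ m * (((n : ℝ) - m) * c n m) := by
  induction M, h using Nat.le_induction with
  | base => simp
  | succ M h ih =>
    rw [Finset.sum_Ico_succ_top (by omega), mul_add, ih, ← c_succ' n M]
    push_cast
    ring

lemma altB (n M : ℕ) :
    (2 * (n : ℝ) - 1) * (2 * ∑ k ∈ Ico 1 (M + 1), (-1 : ℝ) ^ k * k * c n k)
      = (-1) ^ M * (2 * M + 1) * (((n : ℝ) - M) * c n M) - n := by
  induction M with
  | zero => simp [c_zero]
  | succ M ih =>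
    rw [Finset.sum_Ico_succ_top (by omega), mul_add, mul_add, ih, ← c_succ' n M]
    push_cast
    ring

noncomputable def H (n : ℕ) : ℝ := ∑ j ∈ range n, 1 / ((j : ℝ) + 1)

lemma H_succ (n : ℕ) : H (n + 1) = H n + 1 / ((n : ℝ) + 1) := Finset.sum_range_succ _ _

lemma A_eq (M n : ℕ) (h : n ≤ M) :
    2 * ∑ k ∈ Ico 1 (M + 1), (-1 : ℝ) ^ k * c n k / k = -2 * (H (2 * n) - H n) := by
  induction n with
  | zero =>
    rw [Finset.sum_eq_zero]
    · simp
    · intro k hk
      rw [c_big 0 k (Finset.mem_Ico.1 hk).1]; simp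
  | succ n ih =>
    have h1 := ih (by omega)
    have h2 := altB (n + 1) M
    rw [c_end (n + 1) M h, mul_zero, zero_sub] at h2
    have h3 : ∑ k ∈ Ico 1 (M + 1), (-1 : ℝ) ^ k * c (n + 1) k / k
        = ∑ k ∈ Ico 1 (M + 1), (-1 : ℝ) ^ k * c n k / k
          + (∑ k ∈ Ico 1 (M + 1), (-1 : ℝ) ^ k * k * c (n + 1) k) / ((n : ℝ) + 1) ^ 2 := by
      rw [Finset.sum_div, ← Finset.sum_add_distrib]
      refine Finset.sum_congr rfl fun k hk => ?_
      have hk' : (0 : ℝ) < k := by exact_mod_cast (Finset.mem_Ico.1 hk).1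
      have h4 : c n k = c (n + 1) k * (((n : ℝ) + 1) ^ 2 - (k : ℝ) ^ 2) / ((n : ℝ) + 1) ^ 2 := by
        rw [← c_step]; field_simp
      rw [h4]
      field_simp
      ring
    rw [h3, mul_add, h1, show 2 * (n + 1) = 2 * n + 1 + 1 by ring, H_succ, H_succ, H_succ]
    have h5 : (∑ k ∈ Ico 1 (M + 1), (-1 : ℝ) ^ k * k * c (n + 1) k)
        = -((n : ℝ) + 1) / (2 * (2 * n + 1)) := by
      push_cast at h2
      field_simp
      linarith
    rw [h5]
    push_cast
    field_simp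
    ring

lemma swap (F g : ℕ → ℝ) (M : ℕ) :
    ∑ k ∈ Ico 1 M, (2 * ∑ m ∈ Ico 1 k, F m + F k) * g k
      = ∑ m ∈ Ico 1 M, F m * (g m + 2 * ∑ k ∈ Ico (m + 1) M, g k) := by
  induction M with
  | zero => simp
  | succ M ih =>
    rcases Nat.eq_zero_or_pos M with rfl | hM
    · simp
    rw [Finset.sum_Ico_succ_top hM, Finset.sum_Ico_succ_top hM, ih]
    have : ∑ m ∈ Ico 1 M, F m * (g m + 2 * ∑ k ∈ Ico (m + 1) (M + 1), g k)
        = ∑ m ∈ Ico 1 M, F m * (g m + 2 * ∑ k ∈ Ico (m + 1) M, g k)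
          + 2 * (∑ m ∈ Ico 1 M, F m) * g M := by
      rw [mul_assoc, Finset.sum_mul, Finset.mul_sum, ← Finset.sum_add_distrib]
      refine Finset.sum_congr rfl fun m hm => ?_
      rw [Finset.sum_Ico_succ_top (by have := (Finset.mem_Ico.1 hm).2; omega)]
      ring
    rw [this]
    simp
    ring

lemma pair (F : ℕ → ℝ) (n M : ℕ) (hn : 1 ≤ n) (h : n ≤ M) :
    ∑ k ∈ Ico 1 (M + 1), (2 * ∑ m ∈ Ico 1 k, F m + F k) * ((-1 : ℝ) ^ k * c n k)
      = (∑ m ∈ Ico 1 (M + 1), F m * m * ((-1 : ℝ) ^ m * c n m)) / n := by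
  have hn' : (0 : ℝ) < n := by exact_mod_cast hn
  rw [swap, Finset.sum_div]
  refine Finset.sum_congr rfl fun m hm => ?_
  have h1 := alt n m M (by have := (Finset.mem_Ico.1 hm).2; omega)
  rw [c_end n M h, mul_zero, zero_sub] at h1
  have h2 : ∑ k ∈ Ico (m + 1) (M + 1), (-1 : ℝ) ^ k * c n k
      = -((-1) ^ m * (((n : ℝ) - m) * c n m)) / (2 * n) := by
    rw [← h1]; field_simp
  rw [h2]
  field_simp
  ring

/-- the reversed list `1, ..., 1, 2` -/
def ones (r : ℕ) : List Idx := List.replicate r (1, false) ++ [(2, false)]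

lemma ones_ge (r : ℕ) : ∀ x ∈ ones r, 1 ≤ x.1 := by
  intro x hx
  simp only [ones, List.mem_append, List.mem_replicate, List.mem_singleton] at hx
  rcases hx with ⟨_, rfl⟩ | rfl <;> simp

lemma strs_cons (s : Idx) (r : ℕ) :
    strs (s :: ones r) = (strs (ones r)).flatMap fun w => [s :: w, merge s w] := by
  cases r <;> rfl

lemma uL_cons (s : Idx) (r k : ℕ) : uL (strs (s :: ones r)) k
    = term s k * (2 * ∑ m ∈ Ico 1 k, uL (strs (ones r)) m + uL (strs (ones r)) k) := by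
  rw [strs_cons, uL_step _ _ fun w hw => (strs_prop _ (ones_ge r) w hw).2]

lemma P_eq (r n M : ℕ) (hn : 1 ≤ n) (h : n ≤ M) :
    ∑ k ∈ Ico 1 (M + 1), (2 * ∑ m ∈ Ico 1 k, uL (strs (ones r)) m + uL (strs (ones r)) k)
        * ((-1 : ℝ) ^ k * c n k) = -2 * (H (2 * n) - H n) / (n : ℝ) ^ (r + 1) := by
  have hn' : (0 : ℝ) < n := by exact_mod_cast hn
  induction r with
  | zero =>
    rw [pair _ n M hn h, ← A_eq M n h, Finset.mul_sum, zero_add, pow_one]
    congr 1
    refine Finset.sum_congr rfl fun m hm => ?_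
    have hm' : (0 : ℝ) < m := by exact_mod_cast (Finset.mem_Ico.1 hm).1
    simp only [ones, List.replicate_zero, List.nil_append, strs, uL]
    simp [u, trunc, term]
    field_simp
  | succ r ih =>
    rw [pair _ n M hn h, pow_succ, ← div_div, ← ih]
    congr 1
    refine Finset.sum_congr rfl fun m hm => ?_
    have hm' : (0 : ℝ) < m := by exact_mod_cast (Finset.mem_Ico.1 hm).1
    rw [show ones (r + 1) = (1, false) :: ones r from rfl, uL_cons]
    have ht : term (1, false) m = 1 / m := by simp [term]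
    rw [ht]
    field_simp

lemma finite_id (r N : ℕ) :
    ∑ k ∈ Ico 1 (N + 1), uL (strs ((2, true) :: ones r)) k * c N k
      = ∑ n ∈ Ico 1 (N + 1), -2 * (H (2 * n) - H n) / (n : ℝ) ^ (r + 3) := by
  have h1 : ∀ k ∈ Ico 1 (N + 1), uL (strs ((2, true) :: ones r)) k * c N k
      = ∑ n ∈ Ico 1 (N + 1), (2 * ∑ m ∈ Ico 1 k, uL (strs (ones r)) m + uL (strs (ones r)) k)
        * ((-1 : ℝ) ^ k * c n k) / (n : ℝ) ^ 2 := by
    intro k hk
    have h2 := c_sum N k (Finset.mem_Ico.1 hk).1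
    rw [uL_cons]
    simp only [term, if_true, mul_div_assoc, ← Finset.mul_sum]
    rw [← h2]
    ring
  rw [Finset.sum_congr rfl h1, Finset.sum_comm]
  refine Finset.sum_congr rfl fun n hn => ?_
  have hn' := Finset.mem_Ico.1 hn
  rw [← Finset.sum_div, P_eq r n N hn'.1 (by omega), div_div, ← pow_add]

theorem tendsto_sharp (r : ℕ) :
    Tendsto (fun N : ℕ => ∑ n ∈ Ico 1 (N + 1), -2 * (H (2 * n) - H n) / (n : ℝ) ^ (r + 3))
      atTop (𝓝 (sharp ([(2, false)] ++ List.replicate r (1, false) ++ [(2, true)]))) := by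
  have hrev : ([(2, false)] ++ List.replicate r (1, false) ++ [(2, true)] : List Idx).reverse
      = (2, true) :: ones r := by simp [ones]
  have hg := strs_good (2, true) (ones r) le_rfl (ones_ge r)
  have hs := hasSum_uL _ hg
  rw [sharp, hrev, ← hs.tsum_eq]
  set U := uL (strs ((2, true) :: ones r)) with hU
  have hU0 : U 0 = 0 := by rw [hU, uL_cons]; simp [term]
  have h1 : Tendsto (fun N : ℕ => ∑' k, U k * c N k) atTop (𝓝 (∑' k, U k)) := by
    refine tendsto_tsum_of_dominated_convergence (bound := fun k => |U k|) hs.summable.abs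
      (fun k => ?_) (Eventually.of_forall fun N k => ?_)
    · simpa using (tendsto_c k).const_mul (U k)
    · rw [Real.norm_eq_abs, abs_mul]
      exact mul_le_of_le_one_right (abs_nonneg _) (abs_c N k)
  refine h1.congr fun N => ?_
  rw [← finite_id, tsum_eq_sum (s := Ico 1 (N + 1))]
  intro k hk
  rcases Nat.eq_zero_or_pos k with rfl | hk0
  · rw [hU0, zero_mul]
  · rw [c_big N k (by rw [Finset.mem_Ico] at hk; omega), mul_zero]

end Pool.Agent.H61.Es
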