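import Pool.Agent.H61.EsB

namespace Pool.Agent.H61.Es

open Filter Topology Finset

lemma K_eq (x y : ℝ) (d : ℕ) (hd : 1 ≤ d) :
    (x ^ 2 - y ^ 2) * ∑ n ∈ (Icc 2 d).filter Even, y ^ n * x ^ (d + 1 - n)
      = y ^ 2 * x ^ (d + 1) - if Even d then y ^ (d + 2) * x else y ^ (d + 1) * x ^ 2 := by
  rw [Finset.sum_filter]
  induction d, hd using Nat.le_induction with
  | base => simp
  | succ d hd ih =>
    rw [Finset.sum_Icc_succ_top (by omega)]
    have h1 : ∑ n ∈ Icc 2 d, (if Even n then y ^ n * x ^ (d + 1 + 1 - n) else 0)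
        = (∑ n ∈ Icc 2 d, if Even n then y ^ n * x ^ (d + 1 - n) else 0) * x := by
      rw [Finset.sum_mul]
      refine Finset.sum_congr rfl fun n hn => ?_
      have := (Finset.mem_Icc.1 hn).2
      rw [show d + 1 + 1 - n = (d + 1 - n) + 1 by omega]
      split_ifs <;> ring
    rw [h1, mul_add, ← mul_assoc, ih, show d + 1 + 1 - (d + 1) = 1 by omega]
    by_cases h : Even d
    · have h' : ¬ Even (d + 1) := by simpa [Nat.even_add_one] using h
      simp only [h, h', if_true, if_false]; ring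
    · have h' : Even (d + 1) := by simpa [Nat.even_add_one] using h
      simp only [h, h', if_true, if_false]; ring

lemma K_eq' (a b : ℝ) (ha : 0 < a) (hab : a < b) (d : ℕ) (hd : 1 ≤ d) :
    -2 * ∑ n ∈ (Icc 2 d).filter Even, 1 / b ^ n * (1 / a ^ (d + 1 - n))
      = (1 / (b + a) - 1 / (b - a)) / a ^ d
        + (1 / (b - a) + (if Even d then -1 else 1) * (1 / (b + a))) / b ^ d := by
  have hb : 0 < b := ha.trans hab
  have h := K_eq (1 / a) (1 / b) d hd
  simp only [one_div_pow] at h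
  have h1 : 0 < b - a := by linarith
  have h2 : (1 / a ^ 2 - 1 / b ^ 2) ≠ 0 := by
    have : 1 / a ^ 2 - 1 / b ^ 2 = (b - a) * (b + a) / (a ^ 2 * b ^ 2) := by field_simp; ring
    rw [this]; positivity
  have h3 := (eq_div_iff h2).2 ((mul_comm _ _).trans h)
  have h4 : 1 / a ^ 2 - 1 / b ^ 2 = (b - a) * (b + a) / (a ^ 2 * b ^ 2) := by field_simp; ring
  rw [h3, h4]
  split_ifs
  · field_simp; ring
  · field_simp; ring

lemma H_add (b M : ℕ) : ∑ a ∈ Ico 1 (M + 1), 1 / ((b : ℝ) + a) = H (b + M) - H b := by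
  induction M with
  | zero => simp
  | succ M ih =>
    rw [Finset.sum_Ico_succ_top (by omega), ih, ← add_assoc, H_succ]
    push_cast
    ring_nf

lemma H_pred (N a : ℕ) (h : a ≤ N) : H (N + 1 - a) = H (N - a) + 1 / ((N : ℝ) + 1 - a) := by
  rw [show N + 1 - a = N - a + 1 by omega, H_succ, Nat.cast_sub h]
  ring_nf

lemma H_sub (N M : ℕ) (h : M ≤ N) :
    ∑ a ∈ Ico 1 (M + 1), 1 / ((N : ℝ) + 1 - a) = H N - H (N - M) := by
  induction M with
  | zero => simp
  | succ M ih =>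
    rw [Finset.sum_Ico_succ_top (by omega), ih (by omega)]
    have := H_pred N (M + 1) h
    rw [show N + 1 - (M + 1) = N - M by omega] at this
    rw [this]
    ring

noncomputable def E (d N : ℕ) : ℝ := ∑ a ∈ Ico 1 (N + 1), (H (N + a) - H (N - a)) / (a : ℝ) ^ d

lemma E_succ (d N : ℕ) : E d (N + 1) = E d N + H (2 * (N + 1)) / ((N : ℝ) + 1) ^ d
    + ∑ a ∈ Ico 1 (N + 1), (1 / ((N : ℝ) + 1 + a) - 1 / ((N : ℝ) + 1 - a)) / (a : ℝ) ^ d := by
  rw [E, E, Finset.sum_Ico_succ_top (by omega), add_right_comm _ (H (2 * (N + 1)) / _),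
    ← Finset.sum_add_distrib]
  congr 1
  · refine Finset.sum_congr rfl fun a ha => ?_
    have := (Finset.mem_Ico.1 ha).2
    rw [H_pred N a (by omega), show N + 1 + a = N + a + 1 by omega, H_succ]
    push_cast
    ring_nf
  · simp [H, two_mul]

lemma H_le (p q : ℕ) : H (p + q) - H p ≤ q / ((p : ℝ) + 1) := by
  induction q with
  | zero => simp
  | succ q ih =>
    rw [← add_assoc, H_succ]
    have : 1 / (((p + q : ℕ) : ℝ) + 1) ≤ 1 / ((p : ℝ) + 1) := by
      push_cast
      exact one_div_le_one_div_of_le (by positivity) (by linarith [Nat.cast_nonneg (α := ℝ) q])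
    push_cast at this ⊢
    rw [add_div]
    linarith

lemma H_mono (p q : ℕ) : H p ≤ H (p + q) := by
  induction q with
  | zero => simp
  | succ q ih =>
    rw [← add_assoc, H_succ]
    have : 0 ≤ 1 / (((p + q : ℕ) : ℝ) + 1) := by positivity
    linarith

lemma tendsto_E (d : ℕ) (hd : 3 ≤ d) : Tendsto (E d) atTop (𝓝 0) := by
  have hs : Summable fun a : ℕ => 1 / (a : ℝ) ^ 2 := Real.summable_one_div_nat_pow.2 (by norm_num)
  set T := ∑' a : ℕ, 1 / (a : ℝ) ^ 2
  have h1 : Tendsto (fun N : ℕ => 2 * (T + 1) / ((N : ℝ) + 1)) atTop (𝓝 0) :=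
    tendsto_const_nhds.div_atTop (tendsto_atTop_add_const_right _ _ tendsto_natCast_atTop_atTop)
  refine squeeze_zero (fun N => ?_) (fun N => ?_) h1
  · refine Finset.sum_nonneg fun a ha => div_nonneg ?_ (by positivity)
    have := H_mono (N - a) (2 * a)
    have ha' := (Finset.mem_Ico.1 ha).2
    rw [show N - a + 2 * a = N + a by omega] at this
    linarith
  · have h2 : ∀ a ∈ Ico 1 (N + 1), (H (N + a) - H (N - a)) / (a : ℝ) ^ d
        ≤ 2 * (1 / (a : ℝ) ^ 2 + 1 / N) / ((N : ℝ) + 1) := by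
      intro a ha
      obtain ⟨ha1, ha2⟩ := Finset.mem_Ico.1 ha
      obtain ⟨p, rfl⟩ : ∃ p, N = a + p := ⟨N - a, by omega⟩
      have h3 := H_le p (2 * a)
      rw [show a + p + a = p + 2 * a by omega, show a + p - a = p by omega]
      have ha' : (1 : ℝ) ≤ a := by exact_mod_cast ha1
      have hp : (0 : ℝ) ≤ p := Nat.cast_nonneg p
      have h4 : (a : ℝ) ^ 3 ≤ (a : ℝ) ^ d := pow_le_pow_right₀ ha' hd
      calc (H (p + 2 * a) - H p) / (a : ℝ) ^ d
          ≤ ((2 * a : ℕ) : ℝ) / ((p : ℝ) + 1) / (a : ℝ) ^ d := by gcongr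
        _ ≤ ((2 * a : ℕ) : ℝ) / ((p : ℝ) + 1) / (a : ℝ) ^ 3 := by gcongr
        _ ≤ _ := by
          push_cast
          rw [div_add_div _ _ (by positivity) (by positivity), div_div, ← mul_div_assoc, div_div,
            div_le_div_iff₀ (by positivity) (by positivity)]
          have : 0 ≤ (a : ℝ) ^ 3 * (p * (a - 1)) := by
            have : (0 : ℝ) ≤ a - 1 := by linarith
            positivity
          nlinarith
    refine (Finset.sum_le_sum h2).trans ?_
    rw [← Finset.sum_div, ← Finset.mul_sum, Finset.sum_add_distrib]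
    gcongr
    · exact hs.sum_le_tsum _ fun _ _ => by positivity
    · simp only [Finset.sum_const, Nat.card_Ico, nsmul_eq_mul, Nat.add_sub_cancel, mul_one_div]
      exact div_self_le_one _

noncomputable def R (d N : ℕ) : ℝ := 1 / 2 * trunc [(d + 1, false)] N
  - 2 * ∑ n ∈ (Icc 2 d).filter Even, trunc [(n, false), (d + 1 - n, false)] N

lemma tendsto_R (d : ℕ) (hd : 3 ≤ d) : Tendsto (fun N => R d (N + 1)) atTop
    (𝓝 (1 / 2 * zeta [(d + 1, false)]
      - 2 * ∑ n ∈ (Icc 2 d).filter Even, zeta [(d + 1 - n, false), (n, false)])) := by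
  rw [tendsto_add_atTop_iff_nat (f := R d)]
  refine Tendsto.sub (Tendsto.const_mul _ ?_) (Tendsto.const_mul _ (tendsto_finsetSum _ ?_))
  · exact tendsto_zeta [(d + 1, false)] ⟨by simp, _, _, rfl, by simp only; omega⟩
  · intro n hn
    have := Finset.mem_Icc.1 (Finset.mem_filter.1 hn).1
    refine tendsto_zeta [(n, false), (d + 1 - n, false)] ⟨?_, _, _, rfl, this.1⟩
    intro s hs
    simp only [List.mem_cons, List.not_mem_nil, or_false] at hs
    rcases hs with rfl | rfl <;> simp only <;> omega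

lemma R_succ (d N : ℕ) (hd : 1 ≤ d) : R d (N + 1 + 1) = R d (N + 1)
    + 1 / 2 * (1 / ((N : ℝ) + 1) ^ (d + 1))
    + ∑ a ∈ Ico 1 (N + 1), (1 / ((N : ℝ) + 1 + a) - 1 / ((N : ℝ) + 1 - a)) / (a : ℝ) ^ d
    + (H N + (if Even d then -1 else 1) * (H (N + 1 + N) - H (N + 1))) / ((N : ℝ) + 1) ^ d := by
  have h1 : ∀ s l, trunc (s :: l) (N + 1 + 1)
      = trunc (s :: l) (N + 1) + term s (N + 1) * trunc l (N + 1) := fun s l =>
    Finset.sum_Ico_succ_top (by omega) _
  have ht : ∀ m n, term (m, false) n = 1 / (n : ℝ) ^ m := fun m n => by simp [term]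
  have h2 : -2 * ∑ n ∈ (Icc 2 d).filter Even,
      term (n, false) (N + 1) * trunc [(d + 1 - n, false)] (N + 1)
      = ∑ a ∈ Ico 1 (N + 1), -2 * ∑ n ∈ (Icc 2 d).filter Even,
        1 / ((N : ℝ) + 1) ^ n * (1 / (a : ℝ) ^ (d + 1 - n)) := by
    rw [← Finset.mul_sum, Finset.sum_comm]
    congr 1
    refine Finset.sum_congr rfl fun n _ => ?_
    simp only [trunc, ht, mul_one, Finset.mul_sum]
    push_cast
    rfl
  have h3 : ∀ a ∈ Ico 1 (N + 1), -2 * ∑ n ∈ (Icc 2 d).filter Even,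
        1 / ((N : ℝ) + 1) ^ n * (1 / (a : ℝ) ^ (d + 1 - n)) = _ := fun a ha =>
    K_eq' a (N + 1) (by exact_mod_cast (Finset.mem_Ico.1 ha).1)
      (by exact_mod_cast (Finset.mem_Ico.1 ha).2) d hd
  rw [Finset.sum_congr rfl h3, Finset.sum_add_distrib, ← Finset.sum_div _ _ (((N : ℝ) + 1) ^ d),
    Finset.sum_add_distrib, ← Finset.mul_sum, H_sub N N le_rfl] at h2
  have h4 := H_add (N + 1) N
  push_cast at h4
  rw [h4] at h2
  have h5 : H (N - N) = 0 := by simp [H]
  simp only [R, h1, Finset.sum_add_distrib]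
  rw [h5, sub_zero] at h2
  have h6 : term (d + 1, false) (N + 1) * trunc [] (N + 1) = 1 / ((N : ℝ) + 1) ^ (d + 1) := by
    rw [ht]; simp [trunc]
  rw [h6]
  linarith

lemma R_eq (d N : ℕ) (hd : 1 ≤ d) : R d (N + 1) = E d N + ∑ n ∈ Ico 1 (N + 1),
    (if Even d then -2 * (H (2 * n) - H n) else -1 / n) / (n : ℝ) ^ d := by
  induction N with
  | zero => simp [R, E, trunc]
  | succ N ih =>
    rw [R_succ d N hd, ih, E_succ, Finset.sum_Ico_succ_top (a := 1) (b := N + 1) (by omega),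
      show 2 * (N + 1) = N + 1 + N + 1 by ring, H_succ (N + 1 + N), H_succ N]
    push_cast
    split_ifs
    · field_simp; ring
    · field_simp; ring

theorem main (d : ℕ) (hd : 3 ≤ d) :
    sharp ([(2, false)] ++ List.replicate (d - 3) (1, false) ++ [(2, true)])
      = 1 / 2 * zeta [(d + 1, false)]
        - 2 * ∑ n ∈ (Icc 2 d).filter Even, zeta [(d + 1 - n, false), (n, false)] ↔ Even d := by
  have h1 := tendsto_sharp (d - 3)
  rw [show d - 3 + 3 = d by omega] at h1
  have h2 := (tendsto_R d hd).sub (tendsto_E d hd)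
  simp only [R_eq d _ (by omega : 1 ≤ d), add_sub_cancel_left, sub_zero] at h2
  by_cases h : Even d
  · simp only [h, if_true] at h2
    exact ⟨fun _ => h, fun _ => tendsto_nhds_unique h1 h2⟩
  · simp only [h, if_false] at h2
    refine ⟨fun he => ?_, fun h' => absurd h' h⟩
    exfalso
    have h3 := h2.sub h1
    rw [he, sub_self] at h3
    have h4 : ∀ᶠ N : ℕ in atTop, (2 / 3 : ℝ) / 2 ^ d ≤ ∑ n ∈ Ico 1 (N + 1), -1 / (n : ℝ) / (n : ℝ) ^ d
        - ∑ n ∈ Ico 1 (N + 1), -2 * (H (2 * n) - H n) / (n : ℝ) ^ d := by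
      filter_upwards [eventually_ge_atTop 2] with N hN
      rw [← Finset.sum_sub_distrib]
      have h5 : ∀ n ∈ Ico 1 (N + 1),
          0 ≤ -1 / (n : ℝ) / (n : ℝ) ^ d - -2 * (H (2 * n) - H n) / (n : ℝ) ^ d := by
        intro n hn
        obtain ⟨m, rfl⟩ : ∃ m, n = m + 1 := ⟨n - 1, by have := (Finset.mem_Ico.1 hn).1; omega⟩
        rw [← sub_div]
        refine div_nonneg ?_ (by positivity)
        have h6 := H_mono (m + 1) m
        rw [show 2 * (m + 1) = m + 1 + m + 1 by ring, H_succ (m + 1 + m)]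
        have h7 : 2 * (1 / (((m + 1 + m : ℕ) : ℝ) + 1)) = 1 / ((m + 1 : ℕ) : ℝ) := by
          push_cast; field_simp; ring
        rw [neg_div]
        linarith
      refine le_trans (le_of_eq ?_) (Finset.single_le_sum h5 (a := 2) (by simp; omega))
      simp [H, Finset.sum_range_succ]
      field_simp
      norm_num
    have h5 := ge_of_tendsto h3 h4
    have : (0 : ℝ) < (2 / 3 : ℝ) / 2 ^ d := by positivity
    linarith

end Pool.Agent.H61.Es
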