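import Mathlib

/-! Euler sums and Euler sharp-sums. An entry is a pair (absolute value, barred?). -/

namespace Pool.Agent.H61.Es

open Filter

/-- An index entry: absolute value and a flag that is `true` for barred entries. -/
abbrev Idx : Type := ℕ × Bool

/-- The factor `eps(s)^n / n^|s|`. -/
noncomputable def term (s : Idx) (n : ℕ) : ℝ :=
  (if s.2 then (-1 : ℝ) else 1) ^ n / (n : ℝ) ^ s.1

/-- Truncated sum; the list is read backwards, `[s_k, ..., s_1]`, and the sum runs over
`0 < n_1 < ... < n_k < N`. -/
noncomputable def trunc : List Idx → ℕ → ℝ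
  | [], _ => 1
  | s :: l, N => ∑ n ∈ Finset.Ico 1 N, term s n * trunc l n

/-- The Euler sum `zeta(s_1, ..., s_k)` of the list `[s_1, ..., s_k]`. -/
noncomputable def zeta (s : List Idx) : ℝ := limUnder atTop (trunc s.reverse)

/-- Absolute values add and signs multiply. -/
def oplus (s t : Idx) : Idx := (s.1 + t.1, xor s.2 t.2)

/-- Merge `s` into the first entry of a list. -/
def merge (s : Idx) : List Idx → List Idx
  | [] => []
  | t :: l => oplus s t :: l

/-- All `2^(k-1)` strings obtained by putting a comma or `oplus` between neighbours. -/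
def strs : List Idx → List (List Idx)
  | [] => []
  | [s] => [[s]]
  | s :: t :: l => (strs (t :: l)).flatMap fun w => [s :: w, merge s w]

/-- The Euler sharp-sum of `[s_1, ..., s_k]`. -/
noncomputable def sharp (s : List Idx) : ℝ :=
  ((strs s.reverse).map fun w => (2 : ℝ) ^ w.length * zeta w.reverse).sum

end Pool.Agent.H61.Es
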