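import Mathlib

set_option autoImplicit false

namespace Pool.Agent.H61.FbDefs

/-- `p`-convexity with constant one. The Krivine expression `(∑ |x i| ^ p) ^ (1 / p)` is the
supremum (and norm limit) of the finite suprema of `∑ a i • x i`, with `a` in the dual unit ball
of `ℓ_p^n`; so `p`-convexity says that all these finite suprema have norm at most
`(∑ ‖x i‖ ^ p) ^ (1 / p)`. -/
def PConvex (p : ℝ) (Y : Type) [NormedAddCommGroup Y] [Lattice Y] [NormedSpace ℝ Y] : Prop :=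
  ∀ (n : ℕ) (x : Fin n → Y) (A : Finset (Fin n → ℝ)) (hA : A.Nonempty),
    (∀ a ∈ A, ∀ t : Fin n → ℝ, ∑ i, a i * t i ≤ (∑ i, |t i| ^ p) ^ (1 / p)) →
      ‖A.sup' hA fun a => ∑ i, a i • x i‖ ≤ (∑ i, ‖x i‖ ^ p) ^ (1 / p)

/-- A (bounded linear) lattice homomorphism. -/
def LatHom {X Y : Type} [NormedAddCommGroup X] [Lattice X] [NormedSpace ℝ X]
    [NormedAddCommGroup Y] [Lattice Y] [NormedSpace ℝ Y] (S : X →L[ℝ] Y) : Prop :=
  ∀ a b, S (a ⊔ b) = S a ⊔ S b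

/-- `(X, δ)` is the free `p`-convex Banach lattice over `E`. -/
structure IsFree (p : ℝ) {E X : Type} [NormedAddCommGroup E] [NormedSpace ℝ E]
    [NormedAddCommGroup X] [Lattice X] [NormedSpace ℝ X] (δ : E →L[ℝ] X) : Prop where
  conv : PConvex p X
  isom : ∀ x, ‖δ x‖ = ‖x‖
  ext : ∀ (Y : Type) [NormedAddCommGroup Y] [Lattice Y] [NormedSpace ℝ Y] [IsOrderedAddMonoid Y]
    [HasSolidNorm Y] [PosSMulMono ℝ Y] [CompleteSpace Y], PConvex p Y → ∀ T : E →L[ℝ] Y,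
      (∃! S : X →L[ℝ] Y, LatHom S ∧ S.comp δ = T) ∧
        ∀ S : X →L[ℝ] Y, LatHom S → S.comp δ = T → ‖S‖ = ‖T‖

/-- `φ` attains its norm on the closed unit ball. -/
def Attains {Y : Type} [NormedAddCommGroup Y] [NormedSpace ℝ Y] (φ : Y →L[ℝ] ℝ) : Prop :=
  ∃ y, ‖y‖ ≤ 1 ∧ φ y = ‖φ‖

end Pool.Agent.H61.FbDefs
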