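import Mathlib
import Pool.Agent.H61.FbDefs

set_option autoImplicit false

namespace Pool.Agent.H61.Fb

open Filter Topology Set Pool.Agent.H61.FbDefs
open scoped BoundedContinuousFunction ENNReal

lemma real_conv {p : ℝ} {n : ℕ} (t : Fin n → ℝ) (A : Finset (Fin n → ℝ)) (hA : A.Nonempty)
    (h : ∀ a ∈ A, ∀ t : Fin n → ℝ, ∑ i, a i * t i ≤ (∑ i, |t i| ^ p) ^ (1 / p)) :
    |A.sup' hA fun a => ∑ i, a i * t i| ≤ (∑ i, |t i| ^ p) ^ (1 / p) := by
  refine abs_le.2 ⟨?_, Finset.sup'_le _ _ fun a ha => h a ha t⟩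
  obtain ⟨a, ha⟩ := hA
  refine le_trans ?_ (Finset.le_sup' _ ha)
  have := h a ha (-t)
  simp only [Pi.neg_apply, mul_neg, Finset.sum_neg_distrib, abs_neg] at this
  linarith

lemma conv_real (p : ℝ) : PConvex p ℝ := fun _ x A hA h => real_conv x A hA h

instance posB {K : Type} [TopologicalSpace K] : PosSMulMono ℝ (K →ᵇ ℝ) :=
  ⟨fun _ ha _ _ h k => mul_le_mul_of_nonneg_left (h k) ha⟩

lemma conv_bcf {p : ℝ} (hp : 1 ≤ p) (K : Type) [TopologicalSpace K] : PConvex p (K →ᵇ ℝ) := by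
  intro n x A hA h
  refine (BoundedContinuousFunction.norm_le (by positivity)).2 fun k => ?_
  rw [Finset.apply_sup'_eq_sup'_comp hA (fun f : K →ᵇ ℝ => f k) fun _ _ => rfl]
  have := real_conv (fun i => x i k) A hA h
  refine le_trans (le_of_eq ?_) (this.trans ?_)
  · simp
  · gcongr with i
    exact (x i).norm_coe_le_norm k

/-- finite `ℓ_p` as a Banach lattice -/
def LP (p : ℝ≥0∞) (ι : Type) := PiLp p fun _ : ι => ℝ

section
variable (p : ℝ≥0∞) [Fact (1 ≤ p)] (ι : Type) [Fintype ι]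

noncomputable instance : NormedAddCommGroup (LP p ι) :=
  inferInstanceAs (NormedAddCommGroup (PiLp p fun _ : ι => ℝ))
noncomputable instance : NormedSpace ℝ (LP p ι) :=
  inferInstanceAs (NormedSpace ℝ (PiLp p fun _ : ι => ℝ))
instance : CompleteSpace (LP p ι) := inferInstanceAs (CompleteSpace (PiLp p fun _ : ι => ℝ))
noncomputable instance : Lattice (LP p ι) := (WithLp.equiv p (ι → ℝ)).lattice
instance : IsOrderedAddMonoid (LP p ι) := ⟨fun _ _ h _ k => add_le_add (h k) le_rfl,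
  fun _ _ h _ k => add_le_add le_rfl (h k)⟩
instance : PosSMulMono ℝ (LP p ι) := ⟨fun _ ha _ _ h k => mul_le_mul_of_nonneg_left (h k) ha⟩

/-- coordinates -/
noncomputable def co (k : ι) : LP p ι →L[ℝ] ℝ := PiLp.proj p (fun _ : ι => ℝ) k

lemma co_lat (k : ι) : LatHom (co p ι k) := fun _ _ => rfl

lemma norm_LP (hp : 0 < p.toReal) (x : LP p ι) :
    ‖x‖ = (∑ k, |co p ι k x| ^ p.toReal) ^ (1 / p.toReal) := PiLp.norm_eq_sum hp x

lemma solid (hp : 0 < p.toReal) : HasSolidNorm (LP p ι) := ⟨fun x y h => by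
  rw [norm_LP p ι hp, norm_LP p ι hp]
  refine Real.rpow_le_rpow (by positivity) (Finset.sum_le_sum fun k _ => ?_) (by positivity)
  exact Real.rpow_le_rpow (abs_nonneg _) (h k) hp.le⟩

lemma conv_LP (hp : 0 < p.toReal) : PConvex p.toReal (LP p ι) := by
  intro n x A hA h
  rw [norm_LP p ι hp]
  refine Real.rpow_le_rpow (by positivity) ?_ (by positivity)
  have e : ∀ i, ‖x i‖ ^ p.toReal = ∑ k, |co p ι k (x i)| ^ p.toReal := fun i => by
    rw [norm_LP p ι hp, one_div, Real.rpow_inv_rpow (by positivity) hp.ne']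
  simp only [e]
  rw [Finset.sum_comm]
  refine Finset.sum_le_sum fun k _ => ?_
  rw [Finset.apply_sup'_eq_sup'_comp hA (co p ι k) (co_lat p ι k)]
  have := Real.rpow_le_rpow (abs_nonneg _) (real_conv (fun i => co p ι k (x i)) A hA h) hp.le
  rw [one_div, Real.rpow_inv_rpow (by positivity) hp.ne'] at this
  refine le_trans (le_of_eq ?_) this
  simp

end

variable {p : ℝ} {E X : Type} [NormedAddCommGroup E] [NormedSpace ℝ E]
  [NormedAddCommGroup X] [Lattice X] [NormedSpace ℝ X] {δ : E →L[ℝ] X}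

lemma uniq (h : IsFree p δ) {S S' : X →L[ℝ] ℝ} (h1 : LatHom S) (h2 : LatHom S')
    (h3 : S.comp δ = S'.comp δ) : S = S' :=
  (h.ext ℝ (conv_real p) _).1.unique ⟨h1, h3⟩ ⟨h2, rfl⟩

lemma lat_smul {S : X →L[ℝ] ℝ} (h : LatHom S) {c : ℝ} (hc : 0 ≤ c) : LatHom (c • S) :=
  fun a b => by simp only [smul_apply, h a b, smul_eq_mul, mul_max_of_nonneg _ _ hc]

lemma summ (h : IsFree p δ) (hp : 1 ≤ p) {ι : Type} [Fintype ι] (S : ι → X →L[ℝ] ℝ)
    (hS : ∀ i, LatHom (S i)) {c : ℝ} (hc : ∀ x, ‖x‖ ≤ 1 → ∑ i, |S i (δ x)| ^ p ≤ c) {f : X}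
    (hf : ‖f‖ ≤ 1) : ∑ i, |S i f| ^ p ≤ c := by
  have p0 : 0 < p := by linarith
  have c0 : 0 ≤ c := le_trans (by positivity) (hc 0 (by simp))
  have : Fact (1 ≤ ENNReal.ofReal p) := ⟨ENNReal.one_le_ofReal.2 hp⟩
  have e : (ENNReal.ofReal p).toReal = p := ENNReal.toReal_ofReal p0.le
  have := solid (ENNReal.ofReal p) ι (by rwa [e])
  let T : E →L[ℝ] LP (ENNReal.ofReal p) ι :=
    (PiLp.continuousLinearEquiv (ENNReal.ofReal p) ℝ fun _ : ι => ℝ).symm.toContinuousLinearMap.comp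
      (ContinuousLinearMap.pi fun i => (S i).comp δ)
  obtain ⟨⟨R, ⟨r1, r2⟩, -⟩, r3⟩ := h.ext _
    (by simpa only [e] using conv_LP (ENNReal.ofReal p) ι (by rwa [e])) T
  have a : ∀ i, (co _ ι i).comp R = S i := fun i => uniq h
    (fun a b => by simp only [ContinuousLinearMap.comp_apply, r1 a b, co_lat _ ι i _ _]) (hS i)
    (by rw [ContinuousLinearMap.comp_assoc, r2]; rfl)
  have b : ‖T‖ ≤ c ^ (1 / p) := T.opNorm_le_of_unit_norm (by positivity) fun x hx => by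
    rw [norm_LP _ ι (by rwa [e]), e]
    exact Real.rpow_le_rpow (by positivity) (hc x hx.le) (by positivity)
  have d := (R.le_opNorm f).trans ((mul_le_of_le_one_right (norm_nonneg _) hf).trans
    ((r3 R r1 r2).trans_le b))
  rw [norm_LP _ ι (by rwa [e]), e,
    Real.rpow_le_rpow_iff (by positivity) c0 (by positivity)] at d
  simpa only [← a, ContinuousLinearMap.comp_apply] using d

lemma wcont (h : IsFree p δ) (hp : 1 ≤ p) (f : X) {S : X →L[ℝ] ℝ} (hS : LatHom S) {ε : ℝ}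
    (e0 : 0 < ε) : ∃ I : Set E, I.Finite ∧ ∀ S' : X →L[ℝ] ℝ, LatHom S' →
      ‖S'.comp δ‖ ≤ ‖S.comp δ‖ + 1 → (∀ x ∈ I, S' (δ x) = S (δ x)) → |S' f - S f| < ε := by
  let K : Set (E → ℝ) := {y | ∃ w : E →L[ℝ] ℝ, ‖w‖ ≤ ‖S.comp δ‖ + 1 ∧ ⇑w = y}
  have b : ∀ x (y : K), ‖y.1 x‖ ≤ (‖S.comp δ‖ + 1) * ‖x‖ := fun x ⟨_, w, h1, h2⟩ => by
    subst h2
    exact (w.le_opNorm x).trans (mul_le_mul_of_nonneg_right h1 (norm_nonneg _))
  let T0 : E →ₗ[ℝ] K →ᵇ ℝ :=
    { toFun := fun x => .ofNormedAddCommGroup (fun y => y.1 x)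
        ((continuous_apply x).comp continuous_subtype_val) _ (b x)
      map_add' := fun x x' => by ext ⟨_, w, h1, rfl⟩; simp
      map_smul' := fun c x => by ext ⟨_, w, h1, rfl⟩; simp }
  let T : E →L[ℝ] K →ᵇ ℝ := T0.mkContinuous (‖S.comp δ‖ + 1) fun x =>
    (BoundedContinuousFunction.norm_le (by positivity)).2 (b x)
  obtain ⟨⟨R, ⟨r1, r2⟩, -⟩, -⟩ := h.ext _ (conv_bcf hp K) T
  have a : ∀ S' : X →L[ℝ] ℝ, LatHom S' → ∀ n : ‖S'.comp δ‖ ≤ ‖S.comp δ‖ + 1,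
      R f ⟨_, _, n, rfl⟩ = S' f := fun S' s n => congrArg (fun Q : X →L[ℝ] ℝ => Q f)
    (uniq h (S := (BoundedContinuousFunction.evalCLM ℝ (⟨_, _, n, rfl⟩ : K)).comp R)
      (fun a b => by simp only [ContinuousLinearMap.comp_apply, r1 a b]; rfl) s
      (by rw [ContinuousLinearMap.comp_assoc, r2]; rfl))
  have n : ‖S.comp δ‖ ≤ ‖S.comp δ‖ + 1 := by linarith
  have c := Metric.tendsto_nhds.1 ((R f).continuous.tendsto ⟨_, _, n, rfl⟩) ε e0
  rw [nhds_subtype, eventually_comap, nhds_pi] at c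
  obtain ⟨I, i1, t, i2, i3⟩ := Filter.mem_pi.1 c
  refine ⟨I, i1, fun S' s n' hx => ?_⟩
  have := i3 (a := ⇑(S'.comp δ)) (fun x m => by
    rw [ContinuousLinearMap.comp_apply, hx x m]; exact mem_of_mem_nhds (i2 x)) ⟨_, _, n', rfl⟩ rfl
  rwa [a S' s n', a S hS n, Real.dist_eq] at this

end Pool.Agent.H61.Fb
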