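import Mathlib
import Pool.Agent.H61.FbA

set_option autoImplicit false

namespace Pool.Agent.H61.Fb

open Filter Topology Set Pool.Agent.H61.FbDefs
open scoped BoundedContinuousFunction

lemma mean {B : Type} [TopologicalSpace B] (G : Set (B →ᵇ ℝ)) (h0 : 0 ∈ G)
    (h : ∀ g ∈ convexHull ℝ G, ∀ c < 0, ¬∀ x, g x ≤ c) :
    ∃ m : (B →ᵇ ℝ) →L[ℝ] ℝ, m 1 = 1 ∧ (∀ g g' : B →ᵇ ℝ, (∀ x, g x ≤ g' x) → m g ≤ m g') ∧
      ∀ g ∈ G, 0 ≤ m g := by
  let O : Set (B →ᵇ ℝ) := {g | ∃ c < 0, ∀ x, g x ≤ c}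
  have o1 : Convex ℝ O := by
    rintro g ⟨c, c0, hc⟩ g' ⟨c', c0', hc'⟩ a b ha hb hab
    refine ⟨max c c', max_lt c0 c0', fun x => ?_⟩
    have := mul_le_mul_of_nonneg_left ((hc x).trans (le_max_left c c')) ha
    have := mul_le_mul_of_nonneg_left ((hc' x).trans (le_max_right c c')) hb
    have : (a + b) * max c c' = max c c' := by rw [hab, one_mul]
    simp only [BoundedContinuousFunction.add_apply, BoundedContinuousFunction.smul_apply,
      smul_eq_mul]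
    linarith
  have o2 : IsOpen O := Metric.isOpen_iff.2 fun g ⟨c, c0, hc⟩ => ⟨-c / 2, by linarith,
    fun g' hg => ⟨c / 2, by linarith, fun x => by
      have := (BoundedContinuousFunction.dist_coe_le_dist x).trans_lt hg
      rw [Real.dist_eq] at this
      linarith [hc x, (abs_lt.1 this).2]⟩⟩
  obtain ⟨m, u, m1, m2⟩ := geometric_hahn_banach_open o1 o2 (convex_convexHull ℝ G)
    (disjoint_left.2 fun g ⟨c, c0, hc⟩ hg => h g hg c c0 hc)
  have u0 : u ≤ 0 := by simpa using m2 0 (subset_convexHull ℝ G h0)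
  have k : ∀ (g : B →ᵇ ℝ) (ε t : ℝ), (∀ x, 0 ≤ g x) → 0 < ε → 0 ≤ t → -(ε * m 1) - t * m g < u :=
    fun g ε t hg e0 t0 => by
      simpa using m1 (-(ε • 1) - t • g) ⟨-ε, by linarith, fun x => by
        simpa using mul_nonneg t0 (hg x)⟩
  have p1 : 0 < m 1 := by
    have := k 0 1 0 (by simp) one_pos le_rfl
    linarith
  have u1 : 0 ≤ u := by
    by_contra c
    push Not at c
    have := k 0 (-u / m 1) 0 (by simp) (div_pos (by linarith) p1) le_rfl
    rw [div_mul_cancel₀ _ p1.ne'] at this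
    linarith
  refine ⟨(m 1)⁻¹ • m, by simp [p1.ne'], fun g g' hg => ?_, fun g hg => ?_⟩
  · refine mul_le_mul_of_nonneg_left (not_lt.1 fun c : m g' < m g => ?_) (inv_pos.2 p1).le
    have := k (g' - g) 1 (m 1 / (m g - m g')) (fun x => by simpa using hg x) one_pos
      (div_pos p1 (by linarith)).le
    rw [map_sub, ← neg_sub (m g), mul_neg, div_mul_cancel₀ _ (by linarith)] at this
    linarith
  · exact mul_nonneg (inv_pos.2 p1).le (u1.trans (m2 g (subset_convexHull ℝ G hg)))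

lemma mem_range {E F : Type} [NormedAddCommGroup E] [NormedSpace ℝ E] [CompleteSpace E]
    [NormedAddCommGroup F] [NormedSpace ℝ F] (J : E →ₗᵢ[ℝ] F) (ψ : F)
    (h : ∀ ε > 0, ∃ x, ‖ψ - J x‖ < ε) : ∃ x, J x = ψ :=
  J.isometry.isClosedEmbedding.isClosed_range.closure_subset <| Metric.mem_closure_iff.2
    fun ε e0 => (h ε e0).elim fun x hx => ⟨_, ⟨x, rfl⟩, by rwa [dist_eq_norm]⟩

lemma inE {E : Type} [NormedAddCommGroup E] [NormedSpace ℝ E] [CompleteSpace E]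
    (ψ : (E →L[ℝ] ℝ) →L[ℝ] ℝ) (h : ∀ ε > 0, ∃ I : Set E, I.Finite ∧ ∀ w : E →L[ℝ] ℝ, ‖w‖ ≤ 1 →
      (∀ x ∈ I, w x = 0) → |ψ w| ≤ ε) : ∃ x, ∀ w, ψ w = w x := by
  let J := NormedSpace.inclusionInDoubleDualLi ℝ (E := E)
  obtain ⟨x, rfl⟩ := mem_range J ψ fun ε e0 => by
    obtain ⟨I, i1, i2⟩ := h (ε / 2) (by positivity)
    have := i1.fintype
    let L : I → (E →L[ℝ] ℝ) →ₗ[ℝ] ℝ := fun x => J x
    let P := ⨅ x, LinearMap.ker (L x)
    obtain ⟨g, g1, g2⟩ := exists_extension_norm_eq P (ψ.comp P.subtypeL)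
    have g3 : ‖g‖ ≤ ε / 2 := g2 ▸ ContinuousLinearMap.opNorm_le_of_unit_norm (by positivity)
      fun w hw => i2 w.1 hw.le fun x hx => (Submodule.mem_iInf _).1 w.2 ⟨x, hx⟩
    obtain ⟨c, hc⟩ := (Submodule.mem_span_range_iff_exists_fun ℝ).1
      (mem_span_of_iInf_ker_le_ker (L := L) (K := (ψ - g : (E →L[ℝ] ℝ) →L[ℝ] ℝ)) fun w hw =>
        sub_eq_zero.2 (g1 ⟨w, hw⟩).symm)
    refine ⟨∑ i, c i • i.1, ?_⟩
    have : ψ - J (∑ i, c i • i.1) = g := by
      ext w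
      have := congrArg (fun Q : (E →L[ℝ] ℝ) →ₗ[ℝ] ℝ => Q w) hc
      have e : ∀ x, J x w = w x := fun _ => rfl
      simp only [sub_apply, e, map_sum, map_smul]
      simp [L, e] at this
      simp [this]
    exact (congrArg norm this).trans_lt (by linarith)
  exact ⟨x, fun _ => rfl⟩

lemma pt {p a b t : ℝ} (hp : 1 ≤ p) (ha : |a| ≤ 1) (hb : |b| ≤ 1) (t0 : 0 < t) (t1 : p * t ≤ 1 / 2) :
    |a + t * b| ^ p ≤ 1 + p * t * (a * b) + p * t ^ 2 * (1 + 3 * p) := by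
  have ab : |a * b| ≤ 1 := by rw [abs_mul]; exact mul_le_one₀ ha (abs_nonneg _) hb
  have a2 : a ^ 2 ≤ 1 := by rw [← sq_abs]; exact pow_le_one₀ (abs_nonneg _) ha
  have b2 : b ^ 2 ≤ 1 := by rw [← sq_abs]; exact pow_le_one₀ (abs_nonneg _) hb
  have t2 : t ≤ 1 / 2 := by nlinarith
  obtain ⟨u, hu⟩ : ∃ u, u = t * (a * b) + t ^ 2 / 2 := ⟨_, rfl⟩
  have u1 : |u| ≤ 3 / 2 * t := by
    rw [hu, abs_le]
    constructor <;> nlinarith [abs_le.1 ab]
  have e1 : |a + t * b| ≤ Real.exp u := by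
    refine le_trans ?_ (Real.add_one_le_exp u)
    have : |a + t * b| ^ 2 ≤ 1 + 2 * u := by
      rw [sq_abs, hu]; nlinarith [mul_le_mul_of_nonneg_left b2 (sq_nonneg t)]
    nlinarith [sq_nonneg (|a + t * b| - 1)]
  have e2 : |u * p| ≤ 3 / 2 * t * p := by
    rw [abs_mul, abs_of_pos (by linarith : 0 < p)]
    gcongr
  have e3 := Real.abs_exp_sub_one_sub_id_le (e2.trans (by linarith))
  have e4 : (u * p) ^ 2 ≤ (3 / 2 * t * p) ^ 2 := by rw [← sq_abs]; gcongr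
  refine (Real.rpow_le_rpow (abs_nonneg _) e1 (by linarith)).trans ?_
  rw [← Real.exp_mul]
  have e5 : u * p = p * t * (a * b) + p * t ^ 2 / 2 := by rw [hu]; ring
  nlinarith [(abs_le.1 e3).2, mul_pos (by linarith : 0 < p) (pow_pos t0 2), sq_nonneg (t * p)]

variable {p : ℝ} {E X : Type} [NormedAddCommGroup E] [NormedSpace ℝ E]
  [NormedAddCommGroup X] [Lattice X] [NormedSpace ℝ X] {δ : E →L[ℝ] X}

lemma main [CompleteSpace E] (h : IsFree p δ) (hp : 1 ≤ p) {φ : X →L[ℝ] ℝ} (hφ : LatHom φ)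
    (hn : ‖φ.comp δ‖ = 1) {f : X} (f1 : ‖f‖ ≤ 1) (f2 : φ f = 1) : ∃ x, ‖x‖ ≤ 1 ∧ φ (δ x) = 1 := by
  have p0 : 0 < p := by linarith
  choose S s1 s2 using fun y : E →L[ℝ] ℝ => (h.ext ℝ (conv_real p) y).1.exists
  let B := Metric.closedBall (0 : E) 1
  have b : ∀ (w : E →L[ℝ] ℝ) (x : B), |w x| ≤ ‖w‖ := fun w x =>
    w.unit_le_opNorm _ (mem_closedBall_zero_iff.1 x.2)
  let L0 : (E →L[ℝ] ℝ) →ₗ[ℝ] B →ᵇ ℝ :=
    { toFun := fun w => .ofNormedAddCommGroup (fun x => w x) (by fun_prop) _ (b w)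
      map_add' := fun _ _ => rfl
      map_smul' := fun _ _ => rfl }
  let L : (E →L[ℝ] ℝ) →L[ℝ] B →ᵇ ℝ := L0.mkContinuous 1 fun w =>
    (BoundedContinuousFunction.norm_le (by positivity)).2 fun x => (b w x).trans (one_mul _).ge
  let Q : (E →L[ℝ] ℝ) → B →ᵇ ℝ := fun w => .ofNormedAddCommGroup (fun x => |w x| ^ p)
    (Continuous.rpow_const (by fun_prop) fun _ => Or.inr p0.le) (‖w‖ ^ p) fun x => by
      rw [Real.norm_of_nonneg (by positivity)]
      exact Real.rpow_le_rpow (abs_nonneg _) (b w x) p0.le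
  obtain ⟨m, m1, m2, m3⟩ := mean (range fun w => Q w - (|S w f| ^ p) • 1) ⟨0, by
    ext x
    simp [Q, uniq h (s1 0) (S' := 0) (fun _ _ => by simp) (by rw [s2]; rfl)]⟩ (by
    intro g hg c c0 hc
    obtain ⟨ι, _, l, z, l0, -, hz, rfl⟩ := mem_convexHull_iff_exists_fintype.1 hg
    choose w hw using hz
    have e : ∀ i v, |(l i ^ (1 / p) • S (w i)) v| ^ p = l i * |S (w i) v| ^ p := fun i v => by
      have := l0 i
      rw [smul_apply, smul_eq_mul, abs_mul, abs_of_nonneg (by positivity),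
        Real.mul_rpow (by positivity) (abs_nonneg _), one_div, Real.rpow_inv_rpow this p0.ne']
    have := summ h hp (fun i => l i ^ (1 / p) • S (w i))
      (fun i => lat_smul (s1 _) (Real.rpow_nonneg (l0 i) _))
      (c := c + ∑ i, l i * |S (w i) f| ^ p) (fun x hx => by
        have := hc ⟨x, mem_closedBall_zero_iff.2 hx⟩
        have a : ∀ y, S y (δ x) = y x := fun y => congrArg (fun T : E →L[ℝ] ℝ => T x) (s2 y)
        simp only [e, a]
        simpa [← hw, Q, mul_sub, Finset.sum_sub_distrib] using this) f1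
    simp only [e] at this
    linarith)
  replace m3 : ∀ w, |S w f| ^ p ≤ m (Q w) := fun w => by simpa [m1] using m3 _ ⟨w, rfl⟩
  obtain ⟨z, hz⟩ : ∃ z, z = φ.comp δ := ⟨_, rfl⟩
  have sz : S z = φ := uniq h (s1 z) hφ (by rw [s2, hz])
  rw [← hz] at hn
  let ψ : (E →L[ℝ] ℝ) →L[ℝ] ℝ := m.comp ((ContinuousLinearMap.mul ℝ _ (L z)).comp L)
  have q : ∀ w, ψ w = m (L z * L w) := fun _ => rfl
  have q' : ∀ w (x : B), (L z * L w) x = z x * w x := fun _ _ => rfl
  have bz : ∀ x : B, |z x| ≤ 1 := fun x => hn ▸ b z x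
  have k : ∀ ε > 0, ∃ I : Set E, I.Finite ∧ ∀ w : E →L[ℝ] ℝ, ‖w‖ ≤ 1 →
      (∀ x ∈ I, w x = 0) → -ε ≤ ψ w := fun ε e0 => by
    obtain ⟨t, t0, t1, t2⟩ : ∃ t : ℝ, 0 < t ∧ p * t ≤ 1 / 2 ∧ t * (2 + 3 * p) ≤ ε :=
      ⟨min (1 / (2 * p)) (ε / (2 + 3 * p)), by positivity,
        (mul_le_mul_of_nonneg_left (min_le_left _ _) p0.le).trans_eq (by field_simp),
        (le_div_iff₀ (by positivity)).1 (min_le_right _ _)⟩
    obtain ⟨I, i1, i2⟩ := wcont h hp f hφ (pow_pos t0 2)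
    refine ⟨I, i1, fun w w1 w2 => ?_⟩
    have a1 := i2 (S (z + t • w)) (s1 _) (by
      rw [s2, ← hz]
      refine (norm_add_le _ _).trans (add_le_add le_rfl ?_)
      rw [norm_smul, Real.norm_of_nonneg t0.le]
      exact mul_le_one₀ (by nlinarith) (norm_nonneg _) w1) fun x hx => by
        have := congrArg (fun T : E →L[ℝ] ℝ => T x) (s2 (z + t • w))
        simpa [w2 x hx, hz] using this
    have a2 := one_add_mul_self_le_rpow_one_add (s := |S (z + t • w) f| - 1)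
      (by linarith [abs_nonneg (S (z + t • w) f)]) hp
    rw [add_sub_cancel] at a2
    have a3 := m2 (Q (z + t • w)) ((1 + p * t ^ 2 * (1 + 3 * p)) • 1 + (p * t) • (L z * L w))
      fun x => by
        have := pt hp (bz x) ((b w x).trans w1) t0 t1
        simp only [BoundedContinuousFunction.add_apply, BoundedContinuousFunction.smul_apply, q',
          smul_eq_mul, BoundedContinuousFunction.coe_one, Pi.one_apply, mul_one]
        exact this.trans_eq (by ring)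
    rw [map_add, map_smul, map_smul, m1, ← q] at a3
    have a4 := a2.trans ((m3 _).trans a3)
    have a5 : -t ^ 2 ≤ |S (z + t • w) f| - 1 := by
      linarith [le_abs_self (S (z + t • w) f), (abs_lt.1 a1).1]
    simp only [smul_eq_mul, mul_one] at a4
    refine le_of_mul_le_mul_left (a := p * t) ?_ (by positivity)
    nlinarith [mul_le_mul_of_nonneg_left a5 p0.le, mul_le_mul_of_nonneg_left t2 (mul_pos p0 t0).le]
  obtain ⟨x, hx⟩ := inE ψ fun ε e0 => (k ε e0).imp fun I ⟨i1, i2⟩ => ⟨i1, fun w w1 w2 =>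
    abs_le.2 ⟨i2 w w1 w2, by
      have := i2 (-w) (by rwa [norm_neg]) fun x hx => by rw [neg_apply, w2 x hx, neg_zero]
      rw [map_neg] at this
      linarith⟩⟩
  have c : ∀ w, ψ w ≤ ‖w‖ := fun w => by
    rw [q]
    simpa [m1] using m2 (L z * L w) (‖w‖ • 1) fun x => by
      have := (abs_mul _ _).trans_le (mul_le_mul (bz x) (b w x) (abs_nonneg _) zero_le_one)
      simpa [q'] using (le_abs_self _).trans this
  refine ⟨x, NormedSpace.norm_le_dual_bound ℝ x zero_le_one fun w => ?_, ?_⟩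
  · rw [← hx, one_mul]
    have := c (-w)
    rw [map_neg, norm_neg] at this
    exact abs_le.2 ⟨by linarith, c w⟩
  · have a := m3 z
    have d := m2 ((2 : ℝ) • Q z - 1) (L z * L z) fun x => by
      have := Real.rpow_le_self_of_le_one (abs_nonneg _) (bz x) hp
      have e : ((2 : ℝ) • Q z - 1) x = 2 * |z x| ^ p - 1 := rfl
      rw [e, q', ← abs_mul_abs_self]
      nlinarith [sq_nonneg (|z x| - 1)]
    rw [sz, f2, abs_one, Real.one_rpow] at a
    rw [map_sub, map_smul, m1, ← q, smul_eq_mul] at d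
    have e : φ (δ x) = ψ z := by rw [hx, hz]; rfl
    linarith [c z]

end Pool.Agent.H61.Fb
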