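import Mathlib

/-! Random triangles in planar sets: change of variables to shape coordinates. -/

open MeasureTheory Set Complex
open scoped ENNReal Real

namespace Pool.Agent.H61.Hall

theorem map_mul (w : ℂ) (hw : w ≠ 0) :
    Measure.map (fun t : ℂ => w * t) volume = ENNReal.ofReal ((‖w‖ ^ 2)⁻¹) • (volume : Measure ℂ) := by
  have hd : LinearMap.det (LinearMap.mul ℝ ℂ w) = ‖w‖ ^ 2 := by
    have := Algebra.norm_complex_apply w
    rw [Algebra.norm_apply] at this
    rw [← Complex.normSq_eq_norm_sq]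
    exact this
  have hp : 0 < ‖w‖ ^ 2 := by positivity
  have h := Measure.map_linearMap_addHaar_eq_smul_addHaar (volume : Measure ℂ)
    (f := LinearMap.mul ℝ ℂ w) (by rw [hd]; exact hp.ne')
  rw [hd, abs_of_pos (inv_pos.2 hp)] at h
  exact h

theorem scale (w : ℂ) (hw : w ≠ 0) (f : ℂ → ℝ≥0∞) (hf : Measurable f) :
    ∫⁻ z, f z = ENNReal.ofReal (‖w‖ ^ 2) * ∫⁻ t, f (w * t) := by
  have hp : 0 < ‖w‖ ^ 2 := by positivity
  have h := lintegral_map (μ := (volume : Measure ℂ)) hf (g := fun t : ℂ => w * t) (by fun_prop)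
  rw [map_mul w hw, lintegral_smul_measure] at h
  rw [← h, smul_eq_mul, ← mul_assoc, ← ENNReal.ofReal_mul hp.le, mul_inv_cancel₀ hp.ne']
  simp

theorem rot (w : ℂ) (hw : ‖w‖ = 1) : MeasurePreserving (fun t : ℂ => w * t) volume volume := by
  refine ⟨by fun_prop, ?_⟩
  rw [map_mul w (by rintro rfl; simp at hw), hw]
  simp

theorem region (a b : ℝ) (hab : a ≤ b) (g h : ℝ → ℝ)
    (hgh : ∀ x ∈ Icc a b, g x ≤ h x) (P : ℝ → ℝ → ℝ) (hP : ∀ x, Continuous (P x))
    (hP0 : ∀ x ∈ Icc a b, ∀ y ∈ Icc (g x) (h x), 0 ≤ P x y) (Q : ℝ → ℝ) (hQ : Continuous Q)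
    (hQe : ∀ x ∈ Icc a b, ∫ y in g x..h x, P x y = Q x) :
    ∫⁻ x, ∫⁻ y, {p : ℝ × ℝ | p.1 ∈ Icc a b ∧ p.2 ∈ Icc (g p.1) (h p.1)}.indicator
      (fun p => ENNReal.ofReal (P p.1 p.2)) (x, y) = ENNReal.ofReal (∫ x in a..b, Q x) := by
  have h1 : ∀ x, ∫⁻ y, {p : ℝ × ℝ | p.1 ∈ Icc a b ∧ p.2 ∈ Icc (g p.1) (h p.1)}.indicator
      (fun p => ENNReal.ofReal (P p.1 p.2)) (x, y)
      = (Icc a b).indicator (fun x => ENNReal.ofReal (Q x)) x := by
    intro x
    by_cases hx : x ∈ Icc a b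
    · rw [indicator_of_mem hx, ← hQe x hx, intervalIntegral.integral_of_le (hgh x hx),
        ← integral_Icc_eq_integral_Ioc, ofReal_integral_eq_lintegral_ofReal
          ((hP x).continuousOn.integrableOn_Icc)
          ((ae_restrict_iff' measurableSet_Icc).2 (Filter.Eventually.of_forall (hP0 x hx))),
        ← lintegral_indicator measurableSet_Icc]
      refine lintegral_congr fun y => ?_
      by_cases hy : y ∈ Icc (g x) (h x)
      · rw [indicator_of_mem hy, indicator_of_mem (by exact ⟨hx, hy⟩)]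
      · rw [indicator_of_notMem hy, indicator_of_notMem (fun hh => hy hh.2)]
    · rw [indicator_of_notMem hx]
      simp only [mem_ofPred_eq, hx, false_and, not_false_eq_true, indicator_of_notMem,
        lintegral_zero]
  simp_rw [h1]
  rw [lintegral_indicator measurableSet_Icc, intervalIntegral.integral_of_le hab,
    ← integral_Icc_eq_integral_Ioc, ofReal_integral_eq_lintegral_ofReal
      (hQ.continuousOn.integrableOn_Icc)]
  refine (ae_restrict_iff' measurableSet_Icc).2 (Filter.Eventually.of_forall fun x hx => ?_)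
  show 0 ≤ Q x
  rw [← hQe x hx]
  exact intervalIntegral.integral_nonneg (hgh x hx) (hP0 x hx)

/-- weight of triangles of shape `t` with vertices in `S` -/
noncomputable def G (S : Set ℂ) (t : ℂ) : ℝ≥0∞ :=
  ∫⁻ p : ℂ × ℂ, {p : ℂ × ℂ | p.1 ∈ S ∧ p.1 + p.2 ∈ S ∧ p.1 + t * p.2 ∈ S}.indicator
    (fun p => ENNReal.ofReal (‖p.2‖ ^ 2)) p ∂(volume.prod volume)

theorem G_mono {S S' : Set ℂ} {t s : ℂ}
    (h : ∀ X w : ℂ, X ∈ S → X + w ∈ S → X + t * w ∈ S → X ∈ S' ∧ X + w ∈ S' ∧ X + s * w ∈ S') :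
    G S t ≤ G S' s := by
  refine lintegral_mono fun p => ?_
  refine indicator_le_indicator_of_subset ?_ (fun _ => bot_le) p
  rintro q ⟨h1, h2, h3⟩
  exact h _ _ h1 h2 h3

theorem mG {S : Set ℂ} (hS : MeasurableSet S) (t : ℂ) :
    Measurable ({p : ℂ × ℂ | p.1 ∈ S ∧ p.1 + p.2 ∈ S ∧ p.1 + t * p.2 ∈ S}.indicator
    (fun p => ENNReal.ofReal (‖p.2‖ ^ 2))) := by
  refine Measurable.indicator (by fun_prop) ?_
  exact (measurable_fst hS).inter (((measurable_fst.add measurable_snd) hS).inter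
    ((measurable_fst.add (measurable_snd.const_mul t)) hS))

theorem G_inv {S : Set ℂ} (hS : MeasurableSet S) (t s : ℂ) (ht : ‖t‖ = 1) (hts : s * t = 1) :
    G S s = G S t := by
  have hm : MeasurePreserving (Prod.map id (fun z : ℂ => t * z))
      ((volume : Measure ℂ).prod (volume : Measure ℂ)) (volume.prod volume) :=
    (MeasurePreserving.id _).prod (rot t ht)
  unfold G
  rw [← hm.lintegral_comp (mG hS s)]
  refine lintegral_congr fun p => ?_
  have e : s * (t * p.2) = p.2 := by rw [← mul_assoc, hts, one_mul]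
  by_cases hp : p.1 ∈ S ∧ p.1 + p.2 ∈ S ∧ p.1 + t * p.2 ∈ S
  · rw [indicator_of_mem (a := p) (by exact hp), indicator_of_mem]
    · simp [ht]
    · simp only [mem_ofPred_eq, Prod.map_fst, Prod.map_snd, id, e]
      exact ⟨hp.1, hp.2.2, hp.2.1⟩
  · rw [indicator_of_notMem (a := p) (by exact hp), indicator_of_notMem]
    simp only [mem_ofPred_eq, Prod.map_fst, Prod.map_snd, id, e]
    exact fun h => hp ⟨h.1, h.2.2, h.2.1⟩

/-- decomposition of the volume of a similarity invariant set of triangles over shapes -/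
theorem N_eq {S : Set ℂ} (hS : MeasurableSet S) (T : Set (ℂ × ℂ × ℂ)) (hT : MeasurableSet T)
    (A : Set ℂ) (hA : MeasurableSet A)
    (hTA : ∀ X w t : ℂ, w ≠ 0 → ((X, X + w, X + t * w) ∈ T ↔ t ∈ A)) :
    ((volume : Measure ℂ).prod ((volume : Measure ℂ).prod (volume : Measure ℂ)))
      (T ∩ S ×ˢ S ×ˢ S) = ∫⁻ t in A, G S t := by
  set W : Set (ℂ × ℂ × ℂ) := T ∩ S ×ˢ S ×ˢ S with hW
  have hWm : MeasurableSet W := hT.inter (hS.prod (hS.prod hS))
  have hi : Measurable (W.indicator (1 : ℂ × ℂ × ℂ → ℝ≥0∞)) := measurable_one.indicator hWm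
  set h : (ℂ × ℂ) → ℂ → ℝ≥0∞ := fun p t => A.indicator 1 t *
    {p : ℂ × ℂ | p.1 ∈ S ∧ p.1 + p.2 ∈ S ∧ p.1 + t * p.2 ∈ S}.indicator
    (fun p => ENNReal.ofReal (‖p.2‖ ^ 2)) p with hh
  have hhm : Measurable (Function.uncurry h) := by
    have e : Function.uncurry h = fun q : (ℂ × ℂ) × ℂ => A.indicator 1 q.2 *
        {q : (ℂ × ℂ) × ℂ | q.1.1 ∈ S ∧ q.1.1 + q.1.2 ∈ S ∧ q.1.1 + q.2 * q.1.2 ∈ S}.indicator
        (fun q => ENNReal.ofReal (‖q.1.2‖ ^ 2)) q := by
      funext q; rfl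
    rw [e]
    refine Measurable.mul ((measurable_one.indicator hA).comp measurable_snd) ?_
    refine Measurable.indicator (by fun_prop) ?_
    exact (measurable_fst.fst hS).inter (((measurable_fst.fst.add measurable_fst.snd) hS).inter
      ((measurable_fst.fst.add (measurable_snd.mul measurable_fst.snd)) hS))
  have h1 : ∀ X : ℂ, ∫⁻ q : ℂ × ℂ, W.indicator (1 : ℂ × ℂ × ℂ → ℝ≥0∞) (X, q)
      ∂((volume : Measure ℂ).prod (volume : Measure ℂ)) = ∫⁻ w, ∫⁻ t, h (X, w) t := by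
    intro X
    have hi1 : Measurable fun q : ℂ × ℂ => W.indicator (1 : ℂ × ℂ × ℂ → ℝ≥0∞) (X, q) :=
      hi.comp (measurable_const.prodMk measurable_id)
    rw [lintegral_prod _ hi1.aemeasurable, ← lintegral_add_left_eq_self _ X]
    refine lintegral_congr_ae ?_
    have hae : ∀ᵐ w : ℂ, w ≠ 0 := by
      simp [ae_iff]
    filter_upwards [hae] with w hw
    have hi2 : Measurable fun z : ℂ => W.indicator (1 : ℂ × ℂ × ℂ → ℝ≥0∞) (X, X + w, X + z) :=
      hi.comp (by fun_prop : Measurable fun z : ℂ => (X, X + w, X + z))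
    rw [← lintegral_add_left_eq_self _ X, scale w hw _ hi2,
      ← lintegral_const_mul' _ _ ENNReal.ofReal_ne_top]
    refine lintegral_congr fun t => ?_
    simp only [hh, mul_comm w t]
    by_cases ht : t ∈ A
    · by_cases hp : X ∈ S ∧ X + w ∈ S ∧ X + t * w ∈ S
      · rw [indicator_of_mem ht, indicator_of_mem (a := (X, w)) (by exact hp), indicator_of_mem]
        · simp
        · exact ⟨(hTA X w t hw).2 ht, hp.1, hp.2.1, hp.2.2⟩
      · rw [indicator_of_notMem (s := W), indicator_of_notMem (a := (X, w)) (by exact hp)]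
        · simp
        · exact fun h => hp ⟨h.2.1, h.2.2.1, h.2.2.2⟩
    · rw [indicator_of_notMem ht, indicator_of_notMem (s := W)]
      · simp
      · exact fun h => ht ((hTA X w t hw).1 h.1)
  rw [← lintegral_indicator_one hWm, lintegral_prod _ hi.aemeasurable]
  simp_rw [h1]
  rw [← lintegral_prod (fun p : ℂ × ℂ => ∫⁻ t, h p t) hhm.lintegral_prod_right.aemeasurable,
    lintegral_lintegral_swap hhm.aemeasurable, ← lintegral_indicator hA]
  refine lintegral_congr fun t => ?_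
  by_cases ht : t ∈ A
  · simp [hh, ht, G]
  · simp [hh, ht]

end Pool.Agent.H61.Hall
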