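import Pool.Agent.H61.Hall

/-! Equilateral triangles in a disc: upper bound. -/

open MeasureTheory Set Complex
open scoped ENNReal Real

namespace Pool.Agent.H61.Hall

/-- the sixth root of unity -/
noncomputable def om : ℂ := ⟨1 / 2, √3 / 2⟩

theorem s3 : √3 * √3 = 3 := Real.mul_self_sqrt (by norm_num)

theorem om_sq : om * om = om - 1 := by
  apply Complex.ext
  · simp [om]; nlinarith [s3]
  · simp [om]; ring

theorem om_norm : ‖om‖ = 1 := by
  have : ‖om‖ ^ 2 = 1 := by
    rw [← Complex.normSq_eq_norm_sq, Complex.normSq_apply]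
    simp [om]; nlinarith [s3]
  nlinarith [norm_nonneg om]

theorem polar_le (f : ℂ → ℝ≥0∞) (k : ℝ × ℝ → ℝ≥0∞) (hk : Measurable k)
    (h : ∀ r θ : ℝ, 0 < r → -π < θ → θ < π →
      ENNReal.ofReal r * f (r * (Real.cos θ + Real.sin θ * I)) ≤ k (θ, r)) :
    ∫⁻ z, f z ≤ ∫⁻ θ, ∫⁻ r, k (θ, r) := by
  rw [← Complex.lintegral_comp_polarCoord_symm]
  calc _ ≤ ∫⁻ p in polarCoord.target, k p.swap := by
        refine setLIntegral_mono (hk.comp measurable_swap) fun p hp => ?_
        rw [Complex.polarCoord_symm_apply, smul_eq_mul]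
        exact h p.1 p.2 hp.1 hp.2.1 hp.2.2
    _ ≤ ∫⁻ p : ℝ × ℝ, k p.swap := setLIntegral_le_lintegral _ _
    _ = ∫⁻ p : ℝ × ℝ, k p := by
        rw [Measure.volume_eq_prod, lintegral_prod_swap]
    _ = _ := by rw [Measure.volume_eq_prod, lintegral_prod _ hk.aemeasurable]

theorem mreg (a b : ℝ) (g h : ℝ → ℝ) (hg : Continuous g) (hh : Continuous h) (P : ℝ → ℝ → ℝ)
    (hP : Continuous fun p : ℝ × ℝ => P p.1 p.2) :
    Measurable ({p : ℝ × ℝ | p.1 ∈ Icc a b ∧ p.2 ∈ Icc (g p.1) (h p.1)}.indicator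
      (fun p => ENNReal.ofReal (P p.1 p.2))) := by
  refine Measurable.indicator hP.measurable.ennreal_ofReal ?_
  refine (measurable_fst measurableSet_Icc).inter (MeasurableSet.inter ?_ ?_)
  · exact measurableSet_le (hg.measurable.comp measurable_fst) measurable_snd
  · exact measurableSet_le measurable_snd (hh.measurable.comp measurable_fst)

theorem norm_polar (r θ : ℝ) (hr : 0 < r) : ‖(r : ℂ) * (Real.cos θ + Real.sin θ * I)‖ = r := by
  have := Complex.norm_polarCoord_symm (r, θ)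
  rw [Complex.polarCoord_symm_apply] at this
  rw [this, abs_of_pos hr]

theorem disc4 (R : ℝ) (hR : 0 ≤ R) :
    ∫⁻ X : ℂ, {X : ℂ | ‖X‖ ≤ R}.indicator (fun X => ENNReal.ofReal (‖X‖ ^ 4)) X
      ≤ ENNReal.ofReal (π * R ^ 6 / 3) := by
  have h := region (-π) π (by linarith [Real.pi_pos]) (fun _ => 0) (fun _ => R)
    (fun _ _ => hR) (fun _ r => r ^ 5) (fun _ => by fun_prop)
    (fun _ _ y hy => pow_nonneg hy.1 5) (fun _ => R ^ 6 / 6) continuous_const
    (fun _ _ => by simp [integral_pow]; norm_num)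
  have e : ∫ _ in (-π)..π, R ^ 6 / 6 = π * R ^ 6 / 3 := by simp; ring
  rw [e] at h
  rw [← h]
  refine polar_le _ _ (mreg _ _ _ _ continuous_const continuous_const (fun _ r => r ^ 5)
    (by fun_prop)) fun r θ hr h1 h2 => ?_
  by_cases hx : r ≤ R
  · rw [indicator_of_mem (by simpa only [mem_ofPred_eq, norm_polar r θ hr] using hx),
      indicator_of_mem (by exact ⟨⟨h1.le, h2.le⟩, hr.le, hx⟩), norm_polar r θ hr,
      ← ENNReal.ofReal_mul hr.le]
    exact le_of_eq (by congr 1; ring)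
  · rw [indicator_of_notMem (by simpa only [mem_ofPred_eq, norm_polar r θ hr] using hx)]
    simp

theorem cos4 : ∫ x in (π / 6)..(π / 2), 4 * Real.cos x ^ 4 = π / 2 - 9 * √3 / 16 := by
  rw [intervalIntegral.integral_const_mul, integral_cos_pow (n := 2), integral_cos_sq]
  simp only [Real.cos_pi_div_two, Real.sin_pi_div_two, Real.cos_pi_div_six, Real.sin_pi_div_six]
  have : √3 ^ 3 = 3 * √3 := by rw [pow_succ, sq, s3]
  push_cast
  rw [div_pow, this]
  ring

theorem lens : ∫⁻ u : ℂ, {u : ℂ | ‖1 - u‖ ≤ 1 ∧ ‖1 - om * u‖ ≤ 1}.indicator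
    (fun u => ENNReal.ofReal (‖u‖ ^ 2)) u ≤ ENNReal.ofReal (π - 9 * √3 / 8) := by
  have hπ := Real.pi_pos
  have h1 := region (-(π / 2)) (-(π / 6)) (by linarith) (fun _ => 0) (fun θ => 2 * Real.cos θ)
    (fun θ hθ => mul_nonneg (by norm_num)
      (Real.cos_nonneg_of_mem_Icc ⟨hθ.1, by linarith [hθ.2]⟩))
    (fun _ r => r ^ 3) (fun _ => by fun_prop)
    (fun _ _ y hy => pow_nonneg hy.1 3) (fun θ => 4 * Real.cos θ ^ 4) (by fun_prop)
    (fun _ _ => by simp [integral_pow]; ring)
  have h2 := region (-(π / 6)) (π / 6) (by linarith) (fun _ => 0)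
    (fun θ => 2 * Real.cos (θ + π / 3))
    (fun θ hθ => mul_nonneg (by norm_num)
      (Real.cos_nonneg_of_mem_Icc ⟨by linarith [hθ.1], by linarith [hθ.2]⟩))
    (fun _ r => r ^ 3) (fun _ => by fun_prop)
    (fun _ _ y hy => pow_nonneg hy.1 3) (fun θ => 4 * Real.cos (θ + π / 3) ^ 4) (by fun_prop)
    (fun _ _ => by simp [integral_pow]; ring)
  have e1 : ∫ θ in (-(π / 2))..(-(π / 6)), 4 * Real.cos θ ^ 4 = π / 2 - 9 * √3 / 16 := by
    rw [← cos4, ← intervalIntegral.integral_comp_neg (fun x => 4 * Real.cos x ^ 4)]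
    simp
  have e2 : ∫ θ in (-(π / 6))..(π / 6), 4 * Real.cos (θ + π / 3) ^ 4 = π / 2 - 9 * √3 / 16 := by
    rw [← cos4, intervalIntegral.integral_comp_add_right (fun x => 4 * Real.cos x ^ 4)]
    congr 1 <;> ring
  rw [e1] at h1
  rw [e2] at h2
  have hpos : 0 ≤ π / 2 - 9 * √3 / 16 := by
    have := Real.pi_gt_three
    have : √3 < 2 := by
      rw [Real.sqrt_lt' (by norm_num)]; norm_num
    linarith
  have m1 := mreg (-(π / 2)) (-(π / 6)) (fun _ => 0) (fun θ => 2 * Real.cos θ) continuous_const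
    (by fun_prop) (fun _ r => r ^ 3) (by fun_prop)
  have m2 := mreg (-(π / 6)) (π / 6) (fun _ => 0) (fun θ => 2 * Real.cos (θ + π / 3))
    continuous_const (by fun_prop) (fun _ r => r ^ 3) (by fun_prop)
  have e : π - 9 * √3 / 8 = (π / 2 - 9 * √3 / 16) + (π / 2 - 9 * √3 / 16) := by ring
  rw [e, ENNReal.ofReal_add hpos hpos]
  nth_rewrite 1 [← h1]
  rw [← h2, ← lintegral_add_left m1.lintegral_prod_right']
  refine (polar_le _ _ (m1.add m2) fun r θ hr t1 t2 => ?_).trans (le_of_eq ?_)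
  swap
  · refine lintegral_congr fun θ => ?_
    exact lintegral_add_left (m1.comp (measurable_const.prodMk measurable_id)) _
  by_cases hx : (r : ℂ) * (Real.cos θ + Real.sin θ * I) ∈
    {u : ℂ | ‖1 - u‖ ≤ 1 ∧ ‖1 - om * u‖ ≤ 1}
  swap
  · rw [indicator_of_notMem hx]; simp
  rw [indicator_of_mem hx, norm_polar r θ hr, ← ENNReal.ofReal_mul hr.le]
  have hc := Real.sin_sq_add_cos_sq θ
  have a1 : r ≤ 2 * Real.cos θ := by
    have := pow_le_pow_left₀ (norm_nonneg _) hx.1 2
    rw [← Complex.normSq_eq_norm_sq, Complex.normSq_apply] at this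
    simp only [sub_re, one_re, mul_re, ofReal_re, add_re, I_re, mul_zero, ofReal_im, I_im,
      mul_one, sub_self, add_zero, add_im, mul_im, zero_add, zero_mul, sub_zero, sub_im,
      one_im, zero_sub] at this
    have h3 : r * r ≤ r * (2 * Real.cos θ) := by nlinarith
    exact le_of_mul_le_mul_left h3 hr
  have a2 : r ≤ 2 * Real.cos (θ + π / 3) := by
    have := pow_le_pow_left₀ (norm_nonneg _) hx.2 2
    rw [← Complex.normSq_eq_norm_sq, Complex.normSq_apply] at this
    simp only [om, sub_re, one_re, mul_re, ofReal_re, add_re, I_re, mul_zero, ofReal_im, I_im,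
      mul_one, sub_self, add_zero, add_im, mul_im, zero_add, zero_mul, sub_zero, sub_im,
      one_im, zero_sub] at this
    rw [Real.cos_add, Real.cos_pi_div_three, Real.sin_pi_div_three]
    have h4 : (r * Real.cos θ) ^ 2 + (r * Real.sin θ) ^ 2 = r * r := by
      rw [mul_pow, mul_pow, ← mul_add, add_comm, hc]; ring
    have h3 : r * r ≤ r * (2 * (Real.cos θ * (1 / 2) - Real.sin θ * (√3 / 2))) := by
      have := s3
      nlinarith
    exact le_of_mul_le_mul_left h3 hr
  have b1 : -(π / 2) ≤ θ ∧ θ ≤ π / 2 := by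
    constructor
    · by_contra hh
      have := Real.cos_nonpos_of_pi_div_two_le_of_le (x := -θ) (by linarith) (by linarith)
      rw [Real.cos_neg] at this; linarith
    · by_contra hh
      have := Real.cos_nonpos_of_pi_div_two_le_of_le (x := θ) (by linarith) (by linarith)
      linarith
  have b2 : θ ≤ π / 6 := by
    by_contra hh
    have := Real.cos_nonpos_of_pi_div_two_le_of_le (x := θ + π / 3) (by linarith) (by linarith)
    linarith
  have e3 : r * r ^ 2 = r ^ 3 := by ring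
  rw [e3]
  by_cases hθ : θ ≤ -(π / 6)
  · refine le_trans (le_of_eq ?_) le_self_add
    rw [indicator_of_mem (by exact ⟨⟨b1.1, hθ⟩, hr.le, a1⟩)]
  · refine le_trans (le_of_eq ?_) le_add_self
    rw [indicator_of_mem (by exact ⟨⟨by linarith, b2⟩, hr.le, a2⟩)]

theorem G_disc (R : ℝ) (hR : 0 ≤ R) :
    G (Metric.closedBall 0 R) om ≤ ENNReal.ofReal (π * R ^ 6 * (π - 9 * √3 / 8)) := by
  set f : ℂ × ℂ → ℝ≥0∞ := {p : ℂ × ℂ | ‖p.1‖ ≤ R ∧ ‖p.1 + p.2‖ ≤ ‖p.1‖ ∧
    ‖p.1 + om * p.2‖ ≤ ‖p.1‖}.indicator (fun p => ENNReal.ofReal (‖p.2‖ ^ 2)) with hf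
  have hfm : Measurable f := by
    refine Measurable.indicator (by fun_prop) ?_
    have a1 : MeasurableSet {p : ℂ × ℂ | ‖p.1‖ ≤ R} :=
      measurableSet_le (by fun_prop) (by fun_prop)
    have a2 : MeasurableSet {p : ℂ × ℂ | ‖p.1 + p.2‖ ≤ ‖p.1‖} :=
      measurableSet_le (by fun_prop) (by fun_prop)
    have a3 : MeasurableSet {p : ℂ × ℂ | ‖p.1 + om * p.2‖ ≤ ‖p.1‖} :=
      measurableSet_le (by fun_prop) (by fun_prop)
    exact a1.inter (a2.inter a3)
  have hn2 : ‖om * om‖ = 1 := by rw [norm_mul, om_norm, one_mul]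
  set σ : ℂ × ℂ → ℂ × ℂ := fun p => (p.1 + p.2, om * om * p.2) with hσ
  have hσm : MeasurePreserving σ ((volume : Measure ℂ).prod (volume : Measure ℂ))
      (volume.prod volume) :=
    ((MeasurePreserving.id _).prod (rot _ hn2)).comp (measurePreserving_add_prod _ _)
  have hH : ∫⁻ p, f p ∂((volume : Measure ℂ).prod (volume : Measure ℂ))
      ≤ ENNReal.ofReal (π * R ^ 6 / 3) * ENNReal.ofReal (π - 9 * √3 / 8) := by
    rw [lintegral_prod _ hfm.aemeasurable]
    refine le_trans ?_ (mul_le_mul_left (disc4 R hR) _)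
    rw [← lintegral_mul_const' _ _ ENNReal.ofReal_ne_top]
    refine lintegral_mono_ae ?_
    have hae : ∀ᵐ w : ℂ, w ≠ 0 := by simp [ae_iff]
    filter_upwards [hae] with X hX
    have hfX : Measurable fun w : ℂ => f (X, w) := hfm.comp (by fun_prop)
    by_cases hXR : ‖X‖ ≤ R
    swap
    · have : ∀ w, f (X, w) = 0 := fun w => indicator_of_notMem (fun h => hXR h.1) _
      simp [this]
    rw [indicator_of_mem (by exact hXR), scale (-X) (neg_ne_zero.2 hX) _ hfX]
    refine le_trans ?_ (mul_le_mul_right lens _)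
    rw [← lintegral_const_mul' _ _ ENNReal.ofReal_ne_top,
      ← lintegral_const_mul' _ _ ENNReal.ofReal_ne_top]
    refine lintegral_mono fun u => ?_
    have hX0 : 0 < ‖X‖ := norm_pos_iff.2 hX
    by_cases hu : (X, -X * u) ∈ {p : ℂ × ℂ | ‖p.1‖ ≤ R ∧ ‖p.1 + p.2‖ ≤ ‖p.1‖ ∧
      ‖p.1 + om * p.2‖ ≤ ‖p.1‖}
    swap
    · simp only [hf, indicator_of_notMem hu]; simp
    have hu' : u ∈ {u : ℂ | ‖1 - u‖ ≤ 1 ∧ ‖1 - om * u‖ ≤ 1} := by
      obtain ⟨-, u1, u2⟩ := hu
      simp only at u1 u2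
      rw [show X + -X * u = X * (1 - u) by ring, norm_mul] at u1
      rw [show X + om * (-X * u) = X * (1 - om * u) by ring, norm_mul] at u2
      exact ⟨by nlinarith, by nlinarith⟩
    simp only [hf, indicator_of_mem hu, indicator_of_mem hu']
    rw [← ENNReal.ofReal_mul (by positivity), ← ENNReal.ofReal_mul (by positivity)]
    refine le_of_eq ?_
    congr 1
    rw [norm_mul, norm_neg]; ring
  have hle : G (Metric.closedBall 0 R) om ≤ ∫⁻ p, (f p + f (σ p) + f (σ (σ p)))
      ∂((volume : Measure ℂ).prod (volume : Measure ℂ)) := by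
    refine lintegral_mono fun p => ?_
    obtain ⟨X, w⟩ := p
    by_cases hp : (X, w) ∈ {p : ℂ × ℂ | p.1 ∈ Metric.closedBall (0 : ℂ) R ∧
      p.1 + p.2 ∈ Metric.closedBall (0 : ℂ) R ∧ p.1 + om * p.2 ∈ Metric.closedBall (0 : ℂ) R}
    swap
    · rw [indicator_of_notMem hp]; exact bot_le
    rw [indicator_of_mem hp]
    simp only [mem_ofPred_eq, mem_closedBall_zero_iff] at hp
    obtain ⟨p1, p2, p3⟩ := hp
    have o3 : om * om * om = -1 := by rw [om_sq]; linear_combination om_sq
    have c1 : X + w + om * om * w = X + om * w := by rw [om_sq]; ring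
    have c2 : X + w + om * (om * om * w) = X := by linear_combination w * o3
    have c3 : X + om * w + om * om * (om * om * w) = X := by linear_combination (om * w) * o3
    have c4 : X + om * w + om * (om * om * (om * om * w)) = X + w := by
      linear_combination (om * om * w) * o3 - w * om_sq
    have n1 : ‖om * om * w‖ = ‖w‖ := by rw [norm_mul, hn2, one_mul]
    have n2 : ‖om * om * (om * om * w)‖ = ‖w‖ := by rw [norm_mul, hn2, one_mul, n1]
    by_cases k1 : ‖X + w‖ ≤ ‖X‖ ∧ ‖X + om * w‖ ≤ ‖X‖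
    · refine le_trans (le_of_eq ?_) (le_self_add.trans le_self_add)
      simp only [hf]
      rw [indicator_of_mem (by exact ⟨p1, k1.1, k1.2⟩)]
    · by_cases k2 : ‖X + om * w‖ ≤ ‖X + w‖ ∧ ‖X‖ ≤ ‖X + w‖
      · refine le_trans (le_of_eq ?_) (le_add_self.trans le_self_add)
        simp only [hf, hσ]
        rw [indicator_of_mem (by simp only [mem_ofPred_eq, c1, c2]; exact ⟨p2, k2.1, k2.2⟩), n1]
      · refine le_trans (le_of_eq ?_) le_add_self
        simp only [hf, hσ]
        rw [indicator_of_mem, n2]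
        simp only [mem_ofPred_eq, c1, c3, c4]
        refine ⟨p3, ?_, ?_⟩
        · by_contra hh
          push Not at k1 k2 hh
          rcases le_total ‖X + w‖ ‖X‖ with h | h
          · linarith [k1 h]
          · linarith [k2 (by linarith)]
        · by_contra hh
          push Not at k1 k2 hh
          have := k2 hh.le
          linarith [k1 this.le]
  have hfσ : Measurable fun p => f (σ p) := hfm.comp hσm.measurable
  have hf2 : Measurable fun p => f p + f (σ p) := hfm.add hfσ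
  rw [lintegral_add_left hf2, lintegral_add_left hfm, hσm.lintegral_comp hfm,
    hσm.lintegral_comp hfσ, hσm.lintegral_comp hfm] at hle
  refine hle.trans ((add_le_add (add_le_add hH hH) hH).trans (le_of_eq ?_))
  have hp : 0 ≤ π * R ^ 6 / 3 := by positivity
  rw [← add_mul, ← add_mul, ← ENNReal.ofReal_add hp hp, ← ENNReal.ofReal_add (by positivity) hp,
    ← ENNReal.ofReal_mul (by positivity)]
  congr 1; ring

end Pool.Agent.H61.Hall
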