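import Pool.Agent.H61.Hall2

/-! Equilateral triangles in a square: lower bound. -/

open MeasureTheory Set Complex
open scoped ENNReal Real

namespace Pool.Agent.H61.Hall

/-- the square of half side `h` -/
def Sq (h : ℝ) : Set ℂ := {z | |z.re| ≤ h ∧ |z.im| ≤ h}

theorem mSq (h : ℝ) : MeasurableSet (Sq h) := by
  have a1 : MeasurableSet {z : ℂ | |z.re| ≤ h} := measurableSet_le (by fun_prop) (by fun_prop)
  have a2 : MeasurableSet {z : ℂ | |z.im| ≤ h} := measurableSet_le (by fun_prop) (by fun_prop)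
  exact a1.inter a2

theorem vol_rect (a b c d : ℝ) :
    volume {z : ℂ | z.re ∈ Icc a b ∧ z.im ∈ Icc c d}
      = ENNReal.ofReal (b - a) * ENNReal.ofReal (d - c) := by
  have h := Complex.volume_preserving_equiv_real_prod.measure_preimage
    (s := Icc a b ×ˢ Icc c d) (measurableSet_Icc.prod measurableSet_Icc).nullMeasurableSet
  rw [Measure.volume_eq_prod, Measure.prod_prod, Real.volume_Icc, Real.volume_Icc] at h
  rw [← h]
  rfl

/-- horizontal width of the equilateral triangle on `w` -/
noncomputable def mx (w : ℂ) : ℝ := max |w.re| (max |(om * w).re| |(om * om * w).re|)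
/-- vertical width of the equilateral triangle on `w` -/
noncomputable def my (w : ℂ) : ℝ := max |w.im| (max |(om * w).im| |(om * om * w).im|)

/-- lower weight -/
noncomputable def K (a : ℝ) (w : ℂ) : ℝ≥0∞ :=
  ENNReal.ofReal (‖w‖ ^ 2) * (ENNReal.ofReal (a - mx w) * ENNReal.ofReal (a - my w))

theorem width (u v m : ℝ) (h1 : |u| ≤ m) (h2 : |v| ≤ m) (h3 : |v - u| ≤ m) :
    max 0 (max u v) - min 0 (min u v) ≤ m := by
  rw [abs_le] at h1 h2 h3
  have hm : 0 ≤ m := by linarith [h1.1, h1.2]
  rcases le_total u v with h | h <;> rcases le_total 0 u with h' | h' <;>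
    rcases le_total 0 v with h'' | h'' <;>
    simp only [max_def, min_def] <;> split_ifs <;> linarith [h1.1, h1.2, h2.1, h2.2, h3.1, h3.2]

theorem K_le (h : ℝ) : ∫⁻ w, K (2 * h) w ≤ G (Sq h) om := by
  unfold G
  rw [lintegral_prod_symm _ (mG (mSq h) om).aemeasurable]
  refine lintegral_mono fun w => ?_
  have e2 : om * om * w = om * w - w := by rw [om_sq]; ring
  have wx := width w.re (om * w).re (mx w) (le_max_left _ _)
    ((le_max_left _ _).trans (le_max_right _ _))
    (by rw [← sub_re, ← e2]; exact (le_max_right _ _).trans (le_max_right _ _))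
  have wy := width w.im (om * w).im (my w) (le_max_left _ _)
    ((le_max_left _ _).trans (le_max_right _ _))
    (by rw [← sub_im, ← e2]; exact (le_max_right _ _).trans (le_max_right _ _))
  set R : Set ℂ := {z : ℂ | z.re ∈ Icc (-h - min 0 (min w.re (om * w).re))
      (h - max 0 (max w.re (om * w).re)) ∧ z.im ∈ Icc (-h - min 0 (min w.im (om * w).im))
      (h - max 0 (max w.im (om * w).im))} with hR
  have hRm : MeasurableSet R :=
    (Complex.measurable_re measurableSet_Icc).inter (Complex.measurable_im measurableSet_Icc)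
  calc K (2 * h) w ≤ ENNReal.ofReal (‖w‖ ^ 2) * volume R := by
        unfold K
        rw [hR, vol_rect]
        exact mul_le_mul_right (mul_le_mul' (ENNReal.ofReal_le_ofReal (by linarith))
          (ENNReal.ofReal_le_ofReal (by linarith))) _
    _ = ∫⁻ X, R.indicator (fun _ => ENNReal.ofReal (‖w‖ ^ 2)) X := by
        rw [lintegral_indicator_const hRm]
    _ ≤ _ := by
        refine lintegral_mono fun X => ?_
        by_cases hX : X ∈ R
        swap
        · rw [indicator_of_notMem hX]; exact bot_le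
        rw [indicator_of_mem hX, indicator_of_mem]
        obtain ⟨⟨x1, x2⟩, y1, y2⟩ := hX
        have := min_le_left 0 (min w.re (om * w).re)
        have := (min_le_right 0 _).trans (min_le_left w.re (om * w).re)
        have := (min_le_right 0 _).trans (min_le_right w.re (om * w).re)
        have := le_max_left 0 (max w.re (om * w).re)
        have := (le_max_left w.re (om * w).re).trans (le_max_right 0 _)
        have := (le_max_right w.re (om * w).re).trans (le_max_right 0 _)
        have := min_le_left 0 (min w.im (om * w).im)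
        have := (min_le_right 0 _).trans (min_le_left w.im (om * w).im)
        have := (min_le_right 0 _).trans (min_le_right w.im (om * w).im)
        have := le_max_left 0 (max w.im (om * w).im)
        have := (le_max_left w.im (om * w).im).trans (le_max_right 0 _)
        have := (le_max_right w.im (om * w).im).trans (le_max_right 0 _)
        simp only [mem_ofPred_eq, Sq, add_re, add_im, abs_le]
        refine ⟨⟨⟨?_, ?_⟩, ?_, ?_⟩, ⟨⟨?_, ?_⟩, ?_, ?_⟩, ⟨?_, ?_⟩, ?_, ?_⟩ <;> linarith

/-- the twelfth root of unity -/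
noncomputable def ze : ℂ := ⟨√3 / 2, 1 / 2⟩

theorem ze_norm : ‖ze‖ = 1 := by
  have : ‖ze‖ ^ 2 = 1 := by
    rw [← Complex.normSq_eq_norm_sq, Complex.normSq_apply]
    simp [ze]; nlinarith [s3]
  nlinarith [norm_nonneg ze]

theorem om_ze : om * ze = I := by
  apply Complex.ext
  · simp [om, ze]; ring
  · simp [om, ze]; nlinarith [s3]

theorem ze_eq : ze = -I * (om * om) := by
  rw [om_sq]
  apply Complex.ext
  · simp [om, ze]
  · simp [om, ze]; norm_num

theorem K_ze (a : ℝ) (w : ℂ) : K a (ze * w) = K a w := by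
  have e1 : ze * w = -I * (om * om * w) := by rw [ze_eq]; ring
  have e2 : om * (ze * w) = I * w := by rw [← mul_assoc, om_ze]
  have e3 : om * om * (ze * w) = I * (om * w) := by rw [mul_assoc, e2]; ring
  have hx : mx (ze * w) = my w := by
    unfold mx my
    rw [e2, e3, e1]
    generalize om * om * w = p
    generalize om * w = q
    simp only [neg_mul, neg_re, mul_re, I_re, zero_mul, I_im, one_mul, zero_sub, abs_neg]
    rw [max_comm, max_assoc]
  have hy : my (ze * w) = mx w := by
    unfold mx my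
    rw [e2, e3, e1]
    generalize om * om * w = p
    generalize om * w = q
    simp only [neg_mul, neg_im, mul_im, I_re, zero_mul, I_im, one_mul, zero_add, abs_neg]
    rw [max_comm, max_assoc]
  unfold K
  rw [hx, hy, norm_mul, ze_norm, one_mul, mul_comm (ENNReal.ofReal (a - my w))]

theorem K_pow (a : ℝ) (w : ℂ) (k : ℕ) : K a (ze ^ k * w) = K a w := by
  induction k with
  | zero => simp
  | succ k ih => rw [pow_succ', mul_assoc, K_ze, ih]

theorem ze_pow_re (m : ℕ) (h1 : 1 ≤ m) (h2 : m ≤ 11) : (ze ^ m).re ≤ √3 / 2 := by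
  have h0 : (1 : ℝ) ≤ √3 := by nlinarith [s3, Real.sqrt_nonneg 3]
  have z2 : ze ^ 2 = om := by
    apply Complex.ext
    · simp [om, ze, sq]; nlinarith [s3]
    · simp [om, ze, sq]; ring
  have z3 : ze ^ 3 = I := by rw [pow_succ, z2, om_ze]
  have z6 : ze ^ 6 = -1 := by
    rw [show 6 = 3 * 2 from rfl, pow_mul, z3, I_sq]
  have z4 : ze ^ 4 = I * ze := by rw [← z3]; ring
  have z5 : ze ^ 5 = I * om := by rw [← z3, ← z2]; ring
  have z7 : ze ^ 7 = -ze := by rw [show 7 = 6 + 1 from rfl, pow_add, z6]; ring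
  have z8 : ze ^ 8 = -om := by rw [show 8 = 6 + 2 from rfl, pow_add, z6, z2]; ring
  have z9 : ze ^ 9 = -I := by rw [show 9 = 6 + 3 from rfl, pow_add, z6, z3]; ring
  have z10 : ze ^ 10 = -(I * ze) := by rw [show 10 = 6 + 4 from rfl, pow_add, z6, z4]; ring
  have z11 : ze ^ 11 = -(I * om) := by rw [show 11 = 6 + 5 from rfl, pow_add, z6, z5]; ring
  interval_cases m
  · simp [ze]
  · rw [z2]; simp [om]; linarith
  · rw [z3]; simp; positivity
  · rw [z4]; simp [ze]; linarith
  · rw [z5]; simp [om]; linarith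
  · rw [z6]; simp; linarith
  · rw [z7]; simp [ze]; linarith
  · rw [z8]; simp [om]; linarith
  · rw [z9]; simp; positivity
  · rw [z10]; simp [ze]; linarith
  · rw [z11]; simp [om]

/-- polynomial weight on the sector -/
noncomputable def PL (a x y : ℝ) : ℝ := (x ^ 2 + y ^ 2) * ((a - x) * (a - 0.8661 * x - |y| / 2))

/-- the sector weight -/
noncomputable def L (a : ℝ) (w : ℂ) : ℝ≥0∞ :=
  {p : ℝ × ℝ | p.1 ∈ Icc 0 a ∧ p.2 ∈ Icc (-(0.267 * p.1)) (0.267 * p.1)}.indicator
      (fun p => ENNReal.ofReal (PL a p.1 p.2)) (w.re, w.im)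

theorem mL0 (a : ℝ) : Measurable
    ({p : ℝ × ℝ | p.1 ∈ Icc 0 a ∧ p.2 ∈ Icc (-(0.267 * p.1)) (0.267 * p.1)}.indicator
      (fun p => ENNReal.ofReal (PL a p.1 p.2))) :=
  mreg 0 a (fun x => -(0.267 * x)) (fun x => 0.267 * x) (by fun_prop) (by fun_prop) (PL a)
    (by unfold PL; fun_prop)

theorem mL (a : ℝ) : Measurable (L a) :=
  (mL0 a).comp (Complex.measurable_re.prodMk Complex.measurable_im)

theorem s3_lt : √3 < 1.7321 := by
  rw [Real.sqrt_lt' (by norm_num)]; norm_num

theorem L_le (a : ℝ) (w : ℂ) : L a w ≤ K a w := by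
  unfold L
  by_cases hw : (w.re, w.im) ∈
    {p : ℝ × ℝ | p.1 ∈ Icc 0 a ∧ p.2 ∈ Icc (-(0.267 * p.1)) (0.267 * p.1)}
  swap
  · rw [indicator_of_notMem hw]; exact bot_le
  rw [indicator_of_mem hw]
  obtain ⟨⟨x1, x2⟩, y1, y2⟩ := hw
  simp only at x1 x2 y1 y2
  have t0 := Real.sqrt_nonneg 3
  have t1 := s3_lt
  have e2 : om * om * w = om * w - w := by rw [om_sq]; ring
  have r1 : (om * w).re = w.re / 2 - √3 / 2 * w.im := by simp [om]; ring
  have r2 : (om * w).im = w.im / 2 + √3 / 2 * w.re := by simp [om]; ring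
  have ya := le_abs_self w.im
  have yb := neg_abs_le w.im
  have yc : |w.im| ≤ 0.267 * w.re := abs_le.2 ⟨y1, y2⟩
  have hx : mx w ≤ w.re := by
    unfold mx
    rw [e2, sub_re, r1]
    refine max_le (by rw [abs_of_nonneg x1]) (max_le ?_ ?_) <;> rw [abs_le] <;>
      constructor <;> nlinarith
  have hy : my w ≤ 0.8661 * w.re + |w.im| / 2 := by
    unfold my
    rw [e2, sub_im, r2]
    refine max_le (by linarith) (max_le ?_ ?_) <;> rw [abs_le] <;>
      constructor <;> nlinarith
  unfold K PL
  rw [ENNReal.ofReal_mul (by positivity), ENNReal.ofReal_mul (by linarith),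
    ← Complex.normSq_eq_norm_sq, Complex.normSq_apply, ← sq, ← sq]
  exact mul_le_mul_right (mul_le_mul' (ENNReal.ofReal_le_ofReal (by linarith))
    (ENNReal.ofReal_le_ofReal (by linarith))) _

theorem L_uniq (a : ℝ) (u : ℂ) (m : ℕ) (h1 : 1 ≤ m) (h2 : m ≤ 11) (hu : L a u ≠ 0) :
    L a (ze ^ m * u) = 0 := by
  by_contra hv
  set v := ze ^ m * u with hvd
  have key : ∀ w : ℂ, L a w ≠ 0 → 0 < w.re ∧ |w.im| ≤ 0.267 * w.re := by
    intro w hw
    have hm := mem_of_indicator_ne_zero hw
    obtain ⟨⟨x1, x2⟩, y1, y2⟩ := hm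
    simp only at x1 x2 y1 y2
    refine ⟨lt_of_le_of_ne x1 fun h0 => hw ?_, abs_le.2 ⟨y1, y2⟩⟩
    have : w.im = 0 := by rw [← h0] at y1 y2; linarith
    refine le_antisymm ((indicator_le_self _ _ _).trans (le_of_eq ?_)) bot_le
    simp [PL, ← h0, this]
  obtain ⟨u1, u2⟩ := key u hu
  obtain ⟨v1, v2⟩ := key v hv
  have hn : normSq (ze ^ m) = 1 := by
    rw [Complex.normSq_eq_norm_sq, norm_pow, ze_norm]; simp
  have hN : v.re * v.re + v.im * v.im = u.re * u.re + u.im * u.im := by
    rw [← Complex.normSq_apply, ← Complex.normSq_apply, hvd, Complex.normSq_mul, hn, one_mul]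
  have hI : v.re * u.re + v.im * u.im = (ze ^ m).re * (u.re * u.re + u.im * u.im) := by
    rw [hvd, mul_re, mul_im]; ring
  have hz := ze_pow_re m h1 h2
  have t1 := s3_lt
  set N := u.re * u.re + u.im * u.im with hNd
  have hN0 : 0 < N := by nlinarith [mul_self_nonneg u.im, mul_pos u1 u1]
  have b1 : N ≤ 1.071289 * (u.re * u.re) := by
    have := abs_le.1 u2
    nlinarith
  have b2 : N ≤ 1.071289 * (v.re * v.re) := by
    have := abs_le.1 v2
    nlinarith
  have b3 : N ≤ 1.071289 * (v.re * u.re) := by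
    refine (pow_le_pow_iff_left₀ hN0.le (by positivity) two_ne_zero).1 ?_
    calc N ^ 2 = N * N := sq N
      _ ≤ (1.071289 * (u.re * u.re)) * (1.071289 * (v.re * v.re)) := by gcongr
      _ = _ := by ring
  have b4 : -(0.071289 * (v.re * u.re)) ≤ v.im * u.im := by
    have : |v.im * u.im| ≤ (0.267 * v.re) * (0.267 * u.re) := by
      rw [abs_mul]; gcongr
    have := neg_abs_le (v.im * u.im)
    nlinarith
  have b5 : (ze ^ m).re * N ≤ 0.86605 * N := by gcongr; linarith
  nlinarith

theorem sum_L (a : ℝ) (w : ℂ) : ∑ k ∈ Finset.range 12, L a (ze ^ k * w) ≤ K a w := by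
  by_cases h : ∀ k ∈ Finset.range 12, L a (ze ^ k * w) = 0
  · rw [Finset.sum_eq_zero h]; exact bot_le
  push Not at h
  obtain ⟨k, hk, hk0⟩ := h
  rw [Finset.sum_eq_single_of_mem k hk]
  · exact (L_le a _).trans (le_of_eq (K_pow a w k))
  · intro j hj hjk
    rw [Finset.mem_range] at hk hj
    rcases lt_or_gt_of_ne hjk with h | h
    · by_contra hj0
      apply hk0
      have := L_uniq a _ (k - j) (by omega) (by omega) hj0
      rwa [← mul_assoc, ← pow_add, Nat.sub_add_cancel h.le] at this
    · have := L_uniq a _ (j - k) (by omega) (by omega) hk0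
      rwa [← mul_assoc, ← pow_add, Nat.sub_add_cancel h.le] at this

theorem int_L (a : ℝ) (ha : 0 ≤ a) : ENNReal.ofReal (0.01032 * a ^ 6) ≤ ∫⁻ w, L a w := by
  have h := region 0 a ha (fun x => -(0.267 * x)) (fun x => 0.267 * x)
    (fun x hx => by linarith [hx.1]) (PL a) (fun x => by unfold PL; fun_prop)
    (fun x hx y hy => by
      have : |y| ≤ 0.267 * x := abs_le.2 hy
      unfold PL
      have := hx.1
      have := hx.2
      refine mul_nonneg (by positivity) (mul_nonneg (by linarith) (by linarith)))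
    (fun x => 2 * ((a - x) * ((a - 0.8661 * x) * ((0.267 + 0.267 ^ 3 / 3) * x ^ 3)
      - (0.267 ^ 2 / 4 + 0.267 ^ 4 / 8) * x ^ 4))) (by fun_prop)
    (fun x hx => by
      have hc : Continuous (PL a x) := by unfold PL; fun_prop
      have h0 : 0 ≤ 0.267 * x := by linarith [hx.1]
      have e1 : ∫ y in (-(0.267 * x))..0, PL a x y = ∫ y in (0 : ℝ)..(0.267 * x), PL a x y := by
        have := intervalIntegral.integral_comp_neg (a := 0) (b := 0.267 * x) (PL a x)
        rw [neg_zero] at this
        rw [← this]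
        simp [PL]
      have e2 : ∫ y in (0 : ℝ)..(0.267 * x), PL a x y = ∫ y in (0 : ℝ)..(0.267 * x),
          ((a - x) * (a - 0.8661 * x) * x ^ 2 + (-((a - x) * x ^ 2 / 2)) * y ^ 1
            + (a - x) * (a - 0.8661 * x) * y ^ 2 + (-((a - x) / 2)) * y ^ 3) := by
        refine intervalIntegral.integral_congr fun y hy => ?_
        rw [uIcc_of_le h0] at hy
        simp only [PL, abs_of_nonneg hy.1]; ring
      show ∫ y in (-(0.267 * x))..(0.267 * x), PL a x y = _
      rw [← intervalIntegral.integral_add_adjacent_intervals (b := 0)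
        (hc.intervalIntegrable _ _) (hc.intervalIntegrable _ _), e1, e2]
      rw [intervalIntegral.integral_add, intervalIntegral.integral_add,
        intervalIntegral.integral_add]
      · simp only [intervalIntegral.integral_const_mul, integral_pow,
          intervalIntegral.integral_const, smul_eq_mul]
        norm_num; ring
      all_goals exact Continuous.intervalIntegrable (by fun_prop) _ _)
  have e : ∫⁻ w, L a w = ∫⁻ x, ∫⁻ y,
      {p : ℝ × ℝ | p.1 ∈ Icc 0 a ∧ p.2 ∈ Icc (-(0.267 * p.1)) (0.267 * p.1)}.indicator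
      (fun p => ENNReal.ofReal (PL a p.1 p.2)) (x, y) := by
    rw [← lintegral_prod _ (mL0 a).aemeasurable, ← Measure.volume_eq_prod,
      ← Complex.volume_preserving_equiv_real_prod.lintegral_comp (mL0 a)]
    rfl
  rw [e, h]
  refine ENNReal.ofReal_le_ofReal ?_
  set α : ℝ := 0.267 + 0.267 ^ 3 / 3
  set β : ℝ := 0.267 ^ 2 / 4 + 0.267 ^ 4 / 8
  have e3 : ∫ x in (0 : ℝ)..a, 2 * ((a - x) * ((a - 0.8661 * x) * (α * x ^ 3) - β * x ^ 4))
      = ∫ x in (0 : ℝ)..a, ((2 * a ^ 2 * α) * x ^ 3 + (-(2 * a * (1.8661 * α + β))) * x ^ 4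
        + (2 * (0.8661 * α + β)) * x ^ 5) := by
    refine intervalIntegral.integral_congr fun x _ => ?_
    ring
  rw [e3, intervalIntegral.integral_add, intervalIntegral.integral_add]
  · simp only [intervalIntegral.integral_const_mul, integral_pow, α, β]
    have : 0 ≤ a ^ 6 := by positivity
    norm_num
    nlinarith
  all_goals exact Continuous.intervalIntegrable (by fun_prop) _ _

theorem G_sq (h : ℝ) (hh : 0 ≤ h) : ENNReal.ofReal (0.12384 * (2 * h) ^ 6) ≤ G (Sq h) om := by
  refine le_trans ?_ (K_le h)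
  refine le_trans ?_ (lintegral_mono (sum_L (2 * h)))
  rw [lintegral_finsetSum (f := fun k w => L (2 * h) (ze ^ k * w)) _
    (fun k _ => (mL _).comp (measurable_const_mul _))]
  have e : ∀ k ∈ Finset.range 12, ENNReal.ofReal (0.01032 * (2 * h) ^ 6)
      ≤ ∫⁻ w, L (2 * h) (ze ^ k * w) := by
    intro k _
    rw [(rot (ze ^ k) (by rw [norm_pow, ze_norm, one_pow])).lintegral_comp (mL _)]
    exact int_L _ (by linarith)
  refine le_trans (le_of_eq ?_) (Finset.sum_le_sum e)
  rw [← ENNReal.ofReal_sum_of_nonneg (fun _ _ => by positivity)]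
  congr 1
  simp; ring

end Pool.Agent.H61.Hall
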