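import Pool.Agent.H61.Hall3

/-! Nearly equilateral random triangles: the square beats the disc. -/

open MeasureTheory Set Complex InnerProductGeometry
open scoped ENNReal Real EuclideanGeometry

namespace Pool.Agent.H61.Hall

/-- triangles with all angles at most `φ` -/
def T (φ : ℝ) : Set (ℂ × ℂ × ℂ) :=
  {q | ∠ q.1 q.2.1 q.2.2 ≤ φ ∧ ∠ q.2.1 q.2.2 q.1 ≤ φ ∧ ∠ q.2.2 q.1 q.2.1 ≤ φ}

theorem mang {α E : Type*} [MeasurableSpace α] [NormedAddCommGroup E] [InnerProductSpace ℝ E]
    [MeasurableSpace E] [BorelSpace E] [SecondCountableTopology E] {f g h : α → E}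
    (hf : Measurable f) (hg : Measurable g) (hh : Measurable h) :
    Measurable fun a => ∠ (f a) (g a) (h a) := by
  unfold EuclideanGeometry.angle InnerProductGeometry.angle
  simp only [vsub_eq_sub]
  refine Real.continuous_arccos.measurable.comp ?_
  exact ((hf.sub hg).inner (hh.sub hg)).div ((hf.sub hg).norm.mul (hh.sub hg).norm)

theorem mT (φ : ℝ) : MeasurableSet (T φ) :=
  (measurableSet_le (mang measurable_fst measurable_snd.fst measurable_snd.snd)
    measurable_const).inter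
  ((measurableSet_le (mang measurable_snd.fst measurable_snd.snd measurable_fst)
    measurable_const).inter
  (measurableSet_le (mang measurable_snd.snd measurable_fst measurable_snd.fst)
    measurable_const))

/-- shapes -/
def A (φ : ℝ) : Set ℂ :=
  {t | angle (-1) (t - 1) ≤ φ ∧ angle (1 - t) (-t) ≤ φ ∧ angle t 1 ≤ φ}

theorem T_iff (φ : ℝ) (X w t : ℂ) (hw : w ≠ 0) : (X, X + w, X + t * w) ∈ T φ ↔ t ∈ A φ := by
  simp only [T, A, mem_ofPred_eq, EuclideanGeometry.angle, vsub_eq_sub]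
  rw [show X - (X + w) = w * (-1) by ring, show X + t * w - (X + w) = w * (t - 1) by ring,
    show X + w - (X + t * w) = w * (1 - t) by ring, show X - (X + t * w) = w * (-t) by ring,
    show X + t * w - X = w * t by ring, show X + w - X = w * 1 by ring,
    angle_mul_left hw, angle_mul_left hw, angle_mul_left hw]

theorem mA (φ : ℝ) : MeasurableSet (A φ) := by
  have : A φ = (fun t : ℂ => ((0 : ℂ), (0 : ℂ) + 1, 0 + t * 1)) ⁻¹' T φ := by
    ext t; rw [mem_preimage, T_iff φ 0 1 t one_ne_zero]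
  rw [this]
  exact (by fun_prop : Measurable fun t : ℂ => ((0 : ℂ), (0 : ℂ) + 1, 0 + t * 1)) (mT φ)

theorem ang_le (k : ℝ) (hk : 0 ≤ k) (x y : ℂ) (h : k * (‖x‖ * ‖y‖) < inner ℝ x y) :
    angle x y ≤ Real.arccos k := by
  have h1 := real_inner_le_norm x y
  have h0 : 0 ≤ ‖x‖ * ‖y‖ := by positivity
  have hp : 0 < ‖x‖ * ‖y‖ := by nlinarith [mul_nonneg hk h0]
  unfold InnerProductGeometry.angle
  exact Real.arccos_le_arccos ((le_div_iff₀ hp).2 h.le)

theorem of_ang_le (k : ℝ) (hk : 0 < k) (hk1 : k ≤ 1) (x y : ℂ) (h : angle x y ≤ Real.arccos k) :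
    k * (‖x‖ * ‖y‖) ≤ inner ℝ x y ∧ 0 < ‖x‖ ∧ 0 < ‖y‖ := by
  have h1 := Real.cos_le_cos_of_nonneg_of_le_pi (angle_nonneg x y) (Real.arccos_le_pi k) h
  rw [Real.cos_arccos (by linarith) hk1] at h1
  refine ⟨?_, ?_, ?_⟩
  · rw [← cos_angle_mul_norm_mul_norm]; gcongr
  · rw [norm_pos_iff]; rintro rfl
    rw [angle_zero_left, Real.cos_pi_div_two] at h1; linarith
  · rw [norm_pos_iff]; rintro rfl
    rw [angle_zero_right, Real.cos_pi_div_two] at h1; linarith

theorem s3_gt : 1.732 < √3 := by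
  rw [Real.lt_sqrt (by norm_num)]; norm_num

theorem inner_eq (x y : ℂ) : inner ℝ x y = x.re * y.re + x.im * y.im := by
  rw [Complex.inner]; simp [mul_comm]

theorem close (t : ℂ) (ht : t ∈ A (Real.arccos 0.499999)) :
    ‖t - om‖ ≤ 0.0003 ∨ ‖t - (1 - om)‖ ≤ 0.0003 := by
  obtain ⟨h1, h2, h3⟩ := ht
  obtain ⟨i1, -, b0⟩ := of_ang_le _ (by norm_num) (by norm_num) _ _ h1
  obtain ⟨i2, -, -⟩ := of_ang_le _ (by norm_num) (by norm_num) _ _ h2
  obtain ⟨i3, a0, -⟩ := of_ang_le _ (by norm_num) (by norm_num) _ _ h3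
  rw [inner_eq] at i1 i2 i3
  rw [norm_sub_rev, norm_neg] at i2
  simp only [norm_neg, norm_one, one_mul, mul_one, neg_re, one_re, sub_re, neg_im, one_im,
    neg_zero, sub_im, sub_zero, zero_mul, add_zero, zero_sub, mul_zero] at i1 i2 i3
  have ha : ‖t‖ ^ 2 = t.re ^ 2 + t.im ^ 2 := by
    rw [← Complex.normSq_eq_norm_sq, Complex.normSq_apply]; ring
  have hb : ‖t - 1‖ ^ 2 = (t.re - 1) ^ 2 + t.im ^ 2 := by
    rw [← Complex.normSq_eq_norm_sq, Complex.normSq_apply]; simp; ring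
  clear h1 h2 h3
  set a := ‖t‖
  set b := ‖t - 1‖
  set x := t.re with hx
  set y := t.im with hy
  have c1 : 0.499999 * (1 + b) ≤ a := by
    have : a * (0.499999 * (1 + b)) ≤ a * a := by linear_combination i2 + i3 - ha
    exact le_of_mul_le_mul_left this a0
  have c2 : 0.499999 * (1 + a) ≤ b := by
    have : b * (0.499999 * (1 + a)) ≤ b * b := by linear_combination i1 + i2 - hb
    exact le_of_mul_le_mul_left this b0
  have a1 : 0.99999 ≤ a := by linarith
  have b1 : 0.99999 ≤ b := by linarith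
  have a2 : a ≤ 1.00002 := by linarith
  have x1 : 0.49999 ≤ x := by linarith
  have x2 : x ≤ 0.50001 := by linarith
  have q1 : (0.99999 : ℝ) ^ 2 ≤ a ^ 2 := pow_le_pow_left₀ (by norm_num) a1 2
  have q2 : a ^ 2 ≤ (1.00002 : ℝ) ^ 2 := pow_le_pow_left₀ a0.le a2 2
  have q3 : (0.49999 : ℝ) ^ 2 ≤ x ^ 2 := pow_le_pow_left₀ (by norm_num) x1 2
  have q4 : x ^ 2 ≤ (0.50001 : ℝ) ^ 2 := pow_le_pow_left₀ (by linarith) x2 2
  have y1 : (0.8659 : ℝ) ^ 2 ≤ y ^ 2 := by linarith
  have y2 : y ^ 2 ≤ (0.8661 : ℝ) ^ 2 := by linarith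
  have z1 : (0.8659 : ℝ) ≤ |y| := by
    rw [← sq_abs y] at y1
    exact (pow_le_pow_iff_left₀ (by norm_num) (abs_nonneg y) two_ne_zero).1 y1
  have z2 : |y| ≤ 0.8661 := by
    rw [← sq_abs y] at y2
    exact (pow_le_pow_iff_left₀ (abs_nonneg y) (by norm_num) two_ne_zero).1 y2
  have t1 := s3_lt
  have t2 := s3_gt
  rcases le_total 0 y with h | h
  · left
    rw [abs_of_nonneg h] at z1 z2
    refine (Complex.norm_le_abs_re_add_abs_im _).trans ?_
    have e1 : |(t - om).re| ≤ 0.00001 := by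
      simp only [om, sub_re, abs_le]; constructor <;> linarith
    have e2 : |(t - om).im| ≤ 0.0002 := by
      simp only [om, sub_im, abs_le]; constructor <;> linarith
    linarith
  · right
    rw [abs_of_nonpos h] at z1 z2
    refine (Complex.norm_le_abs_re_add_abs_im _).trans ?_
    have e1 : |(t - (1 - om)).re| ≤ 0.00001 := by
      simp only [om, sub_re, one_re, abs_le]; constructor <;> linarith
    have e2 : |(t - (1 - om)).im| ≤ 0.0002 := by
      simp only [om, sub_im, one_im, abs_le]; constructor <;> linarith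
    linarith

theorem A_pos : volume (A (Real.arccos 0.499999)) ≠ 0 := by
  have ho : IsOpen {t : ℂ | 0.499999 * (‖(-1 : ℂ)‖ * ‖t - 1‖) < inner ℝ (-1 : ℂ) (t - 1) ∧
      0.499999 * (‖1 - t‖ * ‖-t‖) < inner ℝ (1 - t) (-t) ∧
      0.499999 * (‖t‖ * ‖(1 : ℂ)‖) < inner ℝ t (1 : ℂ)} := by
    have a1 : IsOpen {t : ℂ | 0.499999 * (‖(-1 : ℂ)‖ * ‖t - 1‖) < inner ℝ (-1 : ℂ) (t - 1)} :=
      isOpen_lt (by fun_prop) (by fun_prop)
    have a2 : IsOpen {t : ℂ | 0.499999 * (‖1 - t‖ * ‖-t‖) < inner ℝ (1 - t) (-t)} :=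
      isOpen_lt (by fun_prop) (by fun_prop)
    have a3 : IsOpen {t : ℂ | 0.499999 * (‖t‖ * ‖(1 : ℂ)‖) < inner ℝ t (1 : ℂ)} :=
      isOpen_lt (by fun_prop) (by fun_prop)
    exact a1.inter (a2.inter a3)
  have n1 : ‖om - 1‖ = 1 := by rw [← om_sq, norm_mul, om_norm, one_mul]
  have hpos := ho.measure_pos volume ⟨om, by
    have := s3
    simp only [mem_ofPred_eq, norm_neg, norm_one, n1, norm_sub_rev 1 om, om_norm, inner_eq]
    simp only [om, neg_re, one_re, sub_re, neg_im, one_im, sub_im]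
    refine ⟨?_, ?_, ?_⟩ <;> nlinarith⟩
  refine (hpos.trans_le (measure_mono ?_)).ne'
  rintro t ⟨h1, h2, h3⟩
  exact ⟨ang_le _ (by norm_num) _ _ h1, ang_le _ (by norm_num) _ _ h2,
    ang_le _ (by norm_num) _ _ h3⟩

theorem A_fin : volume (A (Real.arccos 0.499999)) ≠ ⊤ := by
  refine ((measure_mono (t := Metric.closedBall om 1 ∪ Metric.closedBall (1 - om) 1) ?_).trans_lt
    ((isCompact_closedBall _ _).union (isCompact_closedBall _ _)).measure_lt_top).ne
  intro t ht
  rcases close t ht with h | h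
  · left; rw [mem_closedBall_iff_norm]; linarith
  · right; rw [mem_closedBall_iff_norm]; linarith

theorem om_inv : (1 - om) * om = 1 := by linear_combination -om_sq

theorem disc_near (t s : ℂ) (h : ‖t - s‖ ≤ 0.0003) :
    G (Metric.closedBall 0 1) t ≤ G (Metric.closedBall 0 1.001) s := by
  refine G_mono fun X w h1 h2 h3 => ?_
  simp only [mem_closedBall_zero_iff] at *
  refine ⟨by linarith, by linarith, ?_⟩
  have hw : ‖w‖ ≤ 2 := by
    have := norm_sub_le (X + w) X
    rw [add_sub_cancel_left] at this; linarith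
  have := norm_sub_le (X + t * w) ((t - s) * w)
  rw [show X + t * w - (t - s) * w = X + s * w by ring, norm_mul] at this
  have : ‖t - s‖ * ‖w‖ ≤ 0.0003 * 2 := by gcongr
  linarith

theorem sq_near (t s : ℂ) (h : ‖t - s‖ ≤ 0.0003) : G (Sq 0.998) s ≤ G (Sq 1) t := by
  refine G_mono fun X w h1 h2 h3 => ?_
  obtain ⟨a1, a2⟩ := h1
  obtain ⟨b1, b2⟩ := h2
  obtain ⟨c1, c2⟩ := h3
  refine ⟨⟨by linarith, by linarith⟩, ⟨by linarith, by linarith⟩, ?_⟩
  have hw : ‖w‖ ≤ 4 := by
    refine (Complex.norm_le_abs_re_add_abs_im _).trans ?_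
    rw [add_re] at b1
    rw [add_im] at b2
    rw [abs_le] at a1 a2 b1 b2
    have : |w.re| ≤ 2 := abs_le.2 ⟨by linarith, by linarith⟩
    have : |w.im| ≤ 2 := abs_le.2 ⟨by linarith, by linarith⟩
    linarith
  have hd : ‖(t - s) * w‖ ≤ 0.0003 * 4 := by rw [norm_mul]; gcongr
  have e : X + t * w = (X + s * w) + (t - s) * w := by ring
  have r := Complex.abs_re_le_norm ((t - s) * w)
  have i := Complex.abs_im_le_norm ((t - s) * w)
  rw [e]
  generalize X + s * w = p at *
  generalize (t - s) * w = q at *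
  constructor
  · rw [add_re]; linarith [abs_add_le p.re q.re]
  · rw [add_im]; linarith [abs_add_le p.im q.im]

theorem N_disc : ((volume : Measure ℂ).prod ((volume : Measure ℂ).prod (volume : Measure ℂ)))
      (T (Real.arccos 0.499999) ∩ Metric.closedBall 0 1 ×ˢ Metric.closedBall 0 1 ×ˢ
        Metric.closedBall 0 1)
      ≤ ENNReal.ofReal (0.122 * π ^ 3) * volume (A (Real.arccos 0.499999)) := by
  rw [N_eq measurableSet_closedBall _ (mT _) _ (mA _) (T_iff _), ← setLIntegral_const]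
  refine setLIntegral_mono measurable_const fun t ht => ?_
  have hb : G (Metric.closedBall 0 1.001) om ≤ ENNReal.ofReal (0.122 * π ^ 3) := by
    refine (G_disc _ (by norm_num)).trans (ENNReal.ofReal_le_ofReal ?_)
    have p1 := Real.pi_gt_d4
    have p2 := Real.pi_lt_d4
    have := s3_gt
    have h1 : (1.001 : ℝ) ^ 6 * (π - 9 * √3 / 8) ≤ 0.122 * π ^ 2 := by nlinarith
    nlinarith
  rcases close t ht with h | h
  · exact (disc_near t om h).trans hb
  · refine (disc_near t _ h).trans ?_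
    rwa [G_inv measurableSet_closedBall om (1 - om) om_norm om_inv]

theorem N_sq : ENNReal.ofReal (0.1223 * 4 ^ 3) * volume (A (Real.arccos 0.499999)) ≤
    ((volume : Measure ℂ).prod ((volume : Measure ℂ).prod (volume : Measure ℂ)))
      (T (Real.arccos 0.499999) ∩ Sq 1 ×ˢ Sq 1 ×ˢ Sq 1) := by
  rw [N_eq (mSq 1) _ (mT _) _ (mA _) (T_iff _), ← setLIntegral_const]
  refine setLIntegral_mono' (mA _) fun t ht => ?_
  have hb : ENNReal.ofReal (0.1223 * 4 ^ 3) ≤ G (Sq 0.998) om :=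
    le_trans (ENNReal.ofReal_le_ofReal (by norm_num)) (G_sq _ (by norm_num))
  rcases close t ht with h | h
  · exact hb.trans (sq_near t om h)
  · refine le_trans ?_ (sq_near t _ h)
    rwa [G_inv (mSq _) om (1 - om) om_norm om_inv]

open ProbabilityTheory in
theorem cond3 (S : Set ℂ) (W : Set (ℂ × ℂ × ℂ)) (hW : MeasurableSet W) :
    ((volume[|S]).prod ((volume[|S]).prod (volume[|S]))) W = (volume S)⁻¹ ^ 3 *
      ((volume : Measure ℂ).prod ((volume : Measure ℂ).prod (volume : Measure ℂ)))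
        (W ∩ S ×ˢ S ×ˢ S) := by
  unfold ProbabilityTheory.cond
  rw [Measure.prod_smul_left, Measure.prod_smul_left, Measure.prod_smul_right,
    Measure.prod_smul_right, Measure.prod_smul_right, Measure.prod_restrict, Measure.prod_restrict]
  simp only [Measure.smul_apply, smul_eq_mul, Measure.restrict_apply hW]
  ring

theorem vol_Sq : volume (Sq 1) = ENNReal.ofReal 4 := by
  have : Sq 1 = {z : ℂ | z.re ∈ Icc (-1) 1 ∧ z.im ∈ Icc (-1) 1} := by
    ext z; simp [Sq, abs_le]
  rw [this, vol_rect, ← ENNReal.ofReal_mul (by norm_num)]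
  norm_num

open ProbabilityTheory in
theorem main : ((volume[|Metric.closedBall (0 : ℂ) 1]).prod
      ((volume[|Metric.closedBall (0 : ℂ) 1]).prod (volume[|Metric.closedBall (0 : ℂ) 1])))
      (T (Real.arccos 0.499999)) <
    ((volume[|Sq 1]).prod ((volume[|Sq 1]).prod (volume[|Sq 1]))) (T (Real.arccos 0.499999)) := by
  rw [cond3 _ _ (mT _), cond3 _ _ (mT _), vol_Sq]
  have hπ := Real.pi_pos
  have vb : volume (Metric.closedBall (0 : ℂ) 1) = ENNReal.ofReal π := by
    rw [Complex.volume_closedBall]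
    simp [← NNReal.coe_real_pi]
  rw [vb]
  have k : ∀ c r : ℝ, 0 < r → 0 ≤ c → (ENNReal.ofReal r)⁻¹ ^ 3 * ENNReal.ofReal (c * r ^ 3)
      = ENNReal.ofReal c := by
    intro c r hr hc
    rw [← ENNReal.ofReal_inv_of_pos hr, ← ENNReal.ofReal_pow (by positivity),
      ← ENNReal.ofReal_mul (by positivity)]
    congr 1; field_simp
  calc _ ≤ (ENNReal.ofReal π)⁻¹ ^ 3 *
        (ENNReal.ofReal (0.122 * π ^ 3) * volume (A (Real.arccos 0.499999))) :=
        mul_le_mul_right N_disc _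
    _ = ENNReal.ofReal 0.122 * volume (A (Real.arccos 0.499999)) := by
        rw [← mul_assoc, k _ _ hπ (by norm_num)]
    _ < ENNReal.ofReal 0.1223 * volume (A (Real.arccos 0.499999)) :=
        ENNReal.mul_lt_mul_left A_pos A_fin
          ((ENNReal.ofReal_lt_ofReal_iff (by norm_num)).2 (by norm_num))
    _ = (ENNReal.ofReal 4)⁻¹ ^ 3 *
        (ENNReal.ofReal (0.1223 * 4 ^ 3) * volume (A (Real.arccos 0.499999))) := by
        rw [← mul_assoc, k _ _ (by norm_num) (by norm_num)]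
    _ ≤ _ := mul_le_mul_right N_sq _

end Pool.Agent.H61.Hall
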