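import Mathlib

set_option autoImplicit false

namespace Pool.Agent.H61.Hc

open Filter Topology Set Metric

variable {X : Type} [NormedAddCommGroup X] [NormedSpace ℂ X] {A : X →L[ℂ] X}

lemma trans [Nontrivial X] {x : X} (hx : Dense (range fun n : ℕ => (A ^ n) x)) {U V : Set X}
    (hU : IsOpen U) (nU : U.Nonempty) (hV : IsOpen V) (nV : V.Nonempty) :
    ∃ n : ℕ, ∃ u ∈ U, (A ^ n) u ∈ V := by
  have := Module.punctured_nhds_neBot ℂ X
  obtain ⟨_, h, a, rfl⟩ := hx.inter_open_nonempty U hU nU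
  obtain ⟨_, h1, ⟨b, rfl⟩, h2⟩ := (hx.sdiff_finite
    ((finite_lt_nat a).image fun n : ℕ => (A ^ n) x)).inter_open_nonempty V hV nV
  have : a ≤ b := not_lt.1 fun c => h2 ⟨b, c, rfl⟩
  refine ⟨b - a, _, h, ?_⟩
  rwa [← mul_apply_eq_comp, ← pow_add, Nat.sub_add_cancel this]

lemma step [Nontrivial X] {x : X} (hx : Dense (range fun n : ℕ => (A ^ n) x))
    (hb : Dense {y : X | ∃ M, ∀ n : ℕ, ‖(A ^ n) y‖ ≤ M}) {U V : Set X}
    (hU : IsOpen U) (nU : U.Nonempty) (hV : IsOpen V) (nV : V.Nonempty) (t : X) {r : ℝ}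
    (hr : 0 < r) : ∃ S : X →L[ℂ] X, Commute S A ∧ ∃ u ∈ U, ∃ v ∈ V, ‖S u - t‖ < r ∧ ‖S v‖ < r := by
  obtain ⟨v, h1, M, h2⟩ := hb.inter_open_nonempty V hV nV
  have M0 : 0 ≤ M := (norm_nonneg _).trans (h2 0)
  obtain ⟨ε, hε⟩ : ∃ ε : ℝ, ε = r / (M + 1) := ⟨_, rfl⟩
  have e0 : 0 < ε := by rw [hε]; positivity
  have e1 : (ε : ℂ) ≠ 0 := by exact_mod_cast e0.ne'
  obtain ⟨n, u, h3, h4⟩ := trans hx hU nU (V := {z | ‖(ε : ℂ) • z - t‖ < r})
    (isOpen_lt (by fun_prop) continuous_const) ⟨(ε : ℂ)⁻¹ • t, by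
      rwa [mem_ofPred_eq, smul_inv_smul₀ e1, sub_self, norm_zero]⟩
  refine ⟨(ε : ℂ) • A ^ n, ((Commute.refl A).pow_left n).smul_left _, u, h3, v, h1, h4, ?_⟩
  rw [smul_apply, norm_smul, Complex.norm_real, Real.norm_of_nonneg e0.le]
  refine (mul_le_mul_of_nonneg_left (h2 n) e0.le).trans_lt ?_
  rw [hε, div_mul_eq_mul_div, div_lt_iff₀ (by positivity)]
  nlinarith

lemma filt [Nontrivial X] {x : X} (hx : Dense (range fun n : ℕ => (A ^ n) x))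
    (hb : Dense {y : X | ∃ M, ∀ n : ℕ, ‖(A ^ n) y‖ ≤ M}) {U V : Set X}
    (hU : IsOpen U) (nU : U.Nonempty) (hV : IsOpen V) (nV : V.Nonempty) (a t : X) {r : ℝ}
    (hr : 0 < r) : ∃ U' V' : Set X, IsOpen U' ∧ U'.Nonempty ∧ IsOpen V' ∧ V'.Nonempty ∧
      U' ⊆ U ∧ V' ⊆ V ∧ ∀ n : ℕ, ∀ u ∈ U', (A ^ n) u ∈ V' →
        ∃ h, ‖h‖ < r ∧ ‖(A ^ n) (a + h) - t‖ < r := by
  obtain ⟨S, c1, u1, h1, v1, h2, h3, h4⟩ := step hx hb hU nU hV nV a (half_pos hr)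
  obtain ⟨S', c2, v, ⟨h5, h6⟩, u, ⟨h7, h8⟩, h9, h10⟩ := step hx hb
    (U := V ∩ {z | ‖S z‖ < r / 2}) (V := U ∩ {z | ‖S z - a‖ < r / 2})
    (hV.inter (isOpen_lt (by fun_prop) continuous_const)) ⟨v1, h2, h4⟩
    (hU.inter (isOpen_lt (by fun_prop) continuous_const)) ⟨u1, h1, h3⟩ t (half_pos hr)
  refine ⟨U ∩ {z | ‖(S + S') z - a‖ < r}, V ∩ {z | ‖(S + S') z - t‖ < r},
    hU.inter (isOpen_lt (by fun_prop) continuous_const), ⟨u, h7, ?_⟩,
    hV.inter (isOpen_lt (by fun_prop) continuous_const), ⟨v, h5, ?_⟩, inter_subset_left,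
    inter_subset_left, fun n w hw hn => ⟨_, hw.2, ?_⟩⟩
  · rw [mem_ofPred_eq, add_apply, add_sub_right_comm]
    exact (norm_add_le _ _).trans_lt (by linarith [mem_ofPred_eq ▸ h8])
  · rw [mem_ofPred_eq, add_apply, add_sub_assoc]
    exact (norm_add_le _ _).trans_lt (by linarith [mem_ofPred_eq ▸ h6])
  · rw [add_sub_cancel, ← mul_apply_eq_comp, ← ((c1.add_left c2).pow_right n).eq]
    exact hn.2

lemma multi [Nontrivial X] {x : X} (hx : Dense (range fun n : ℕ => (A ^ n) x))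
    (hb : Dense {y : X | ∃ M, ∀ n : ℕ, ‖(A ^ n) y‖ ≤ M}) (a t : ℕ → X) {r : ℝ} (hr : 0 < r)
    (j : ℕ) : ∃ n : ℕ, ∃ h : ℕ → X, ∀ k < j, ‖h k‖ < r ∧ ‖(A ^ n) (a k + h k) - t k‖ < r := by
  have : ∃ U V : Set X, IsOpen U ∧ U.Nonempty ∧ IsOpen V ∧ V.Nonempty ∧ ∀ n : ℕ, ∀ u ∈ U,
      (A ^ n) u ∈ V → ∀ k < j, ∃ h, ‖h‖ < r ∧ ‖(A ^ n) (a k + h) - t k‖ < r := by
    induction j with
    | zero => exact ⟨univ, univ, isOpen_univ, univ_nonempty, isOpen_univ, univ_nonempty, by simp⟩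
    | succ j ih =>
      obtain ⟨U, V, h1, h2, h3, h4, h5⟩ := ih
      obtain ⟨U', V', g1, g2, g3, g4, g5, g6, g7⟩ := filt hx hb h1 h2 h3 h4 (a j) (t j) hr
      refine ⟨U', V', g1, g2, g3, g4, fun n u hu hn k hk => ?_⟩
      rcases Nat.lt_succ_iff_lt_or_eq.1 hk with c | rfl
      · exact h5 n u (g5 hu) (g6 hn) k c
      · exact g7 n u hu hn
  obtain ⟨U, V, h1, h2, h3, h4, h5⟩ := this
  obtain ⟨n, u, hu, hn⟩ := trans hx h1 h2 h3 h4
  choose! h hh using h5 n u hu hn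
  exact ⟨n, h, hh⟩

lemma sum_le {Y : Type} [NormedAddCommGroup Y] [NormedSpace ℂ Y] {c : ℕ → Y →L[ℂ] ℂ}
    (hc : ∀ k, ‖c k‖ ≤ 1) {h : ℕ → X} {j : ℕ} {r : ℝ} (hh : ∀ k < j, ‖h k‖ < r) :
    ‖∑ k ∈ Finset.range j, (c k).smulRight (h k)‖ ≤ j * r := by
  refine (norm_sum_le_of_le _ (n := fun _ => r) fun k hk => ?_).trans (by simp)
  rw [ContinuousLinearMap.norm_smulRight_apply]
  exact (mul_le_of_le_one_left (norm_nonneg _) (hc k)).trans (hh k (Finset.mem_range.1 hk)).le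

theorem sub [CompleteSpace X] [Nontrivial X] {x : X} (hx : Dense (range fun n : ℕ => (A ^ n) x))
    (hb : Dense {y : X | ∃ M, ∀ n : ℕ, ‖(A ^ n) y‖ ≤ M}) {Y : Type} [NormedAddCommGroup Y]
    [NormedSpace ℂ Y] (E : Y →L[ℂ] X) (hE : ∀ y, ‖y‖ ≤ ‖E y‖) (c : ℕ → Y →L[ℂ] ℂ)
    (hc : ∀ k, ‖c k‖ ≤ 1) (e : ℕ → X) (tail : ∀ y, ∀ ε > 0, ∃ J, ∀ j ≥ J, ∀ n : ℕ,
      ‖(A ^ n) (E y - ∑ k ∈ Finset.range j, c k y • e k)‖ ≤ ε) (sep : ∀ y ≠ 0, ∃ k, c k y ≠ 0) :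
    ∃ Z : Y →L[ℂ] X, (∀ y, ‖y‖ ≤ 2 * ‖Z y‖) ∧
      ∀ y ≠ 0, Dense (range fun n : ℕ => (A ^ n) (Z y)) := by
  let S : Set (Y →L[ℂ] X) := {G | ∃ j, ∃ g : ℕ → X, G = ∑ k ∈ Finset.range j, (c k).smulRight (g k)}
  have : CompleteSpace (closure S) := isClosed_closure.completeSpace_coe
  let F : ℕ × ℕ × ℕ → ℕ → ℕ → (Y →L[ℂ] X) → ℝ := fun q n j G =>
    ‖(A ^ n).comp (∑ k ∈ Finset.range j, (c k).smulRight (e k) + G) -
      (c q.1).smulRight ((A ^ q.2.1) x)‖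
  let O : ℕ × ℕ × ℕ → Set (closure S) := fun q =>
    ⋃ n, ⋃ j ≥ q.2.2, {G | F q n j G.1 < 1 / (q.2.2 + 1 : ℝ)}
  have o1 : ∀ q, IsOpen (O q) := fun q => isOpen_iUnion fun n => isOpen_biUnion fun j _ =>
    isOpen_lt (by simp only [F]; fun_prop) continuous_const
  have o2 : ∀ q, Dense (O q) := fun ⟨i, l, m⟩ => by
    refine Metric.dense_iff.2 fun G ε e0 => ?_
    obtain ⟨_, ⟨j0, g, rfl⟩, h1⟩ := Metric.mem_closure_iff.1 G.2 _ (half_pos e0)
    obtain ⟨j, j1, j2, j3⟩ : ∃ j, j0 ≤ j ∧ m ≤ j ∧ i < j := ⟨j0 + m + i + 1, by omega⟩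
    obtain ⟨r, r0, r1, r2⟩ : ∃ r : ℝ, 0 < r ∧ j * r < ε / 2 ∧ j * r < 1 / (m + 1 : ℝ) := by
      have p : 0 < min (ε / 2) (1 / (m + 1 : ℝ)) := by positivity
      refine ⟨min (ε / 2) (1 / (m + 1 : ℝ)) / (j + 1), by positivity, ?_⟩
      rw [← lt_min_iff, mul_div_assoc', div_lt_iff₀ (by positivity)]
      nlinarith
    let g' : ℕ → X := fun k => if k < j0 then g k else 0
    have s1 : ∑ k ∈ Finset.range j0, (c k).smulRight (g k) =
        ∑ k ∈ Finset.range j, (c k).smulRight (g' k) := by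
      rw [← Finset.sum_subset (Finset.range_subset_range.2 j1)]
      · exact Finset.sum_congr rfl fun k hk => by simp [g', Finset.mem_range.1 hk]
      · intro k _ hk
        ext y
        simp [g', mt Finset.mem_range.2 hk]
    obtain ⟨n, h, hh⟩ := multi hx hb (fun k => e k + g' k)
      (fun k => if k = i then (A ^ l) x else 0) r0 j
    refine ⟨⟨_, subset_closure ⟨j, fun k => g' k + h k, rfl⟩⟩, ?_, ?_⟩
    · rw [mem_ball, Subtype.dist_eq, dist_comm]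
      refine (dist_triangle _ (∑ k ∈ Finset.range j0, (c k).smulRight (g k)) _).trans_lt ?_
      have : dist (∑ k ∈ Finset.range j0, (c k).smulRight (g k))
          (∑ k ∈ Finset.range j, (c k).smulRight (g' k + h k)) ≤ j * r := by
        rw [s1, dist_comm, dist_eq_norm]
        refine le_trans (le_of_eq ?_) (sum_le hc fun k hk => (hh k hk).1)
        congr 1
        ext y
        simp [Finset.sum_add_distrib]
      linarith
    · simp only [O, mem_iUnion]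
      refine ⟨n, j, j2, lt_of_le_of_lt ?_ r2⟩
      refine le_trans (le_of_eq ?_) (sum_le hc fun k hk => (hh k hk).2)
      simp only [F]
      congr 1
      ext y
      generalize A ^ n = B
      generalize A ^ l = B'
      simp [Finset.sum_add_distrib, smul_sub, j3, add_assoc]
  have z : (0 : Y →L[ℂ] X) ∈ closure S := subset_closure ⟨0, 0, by simp⟩
  obtain ⟨G, g1, g2⟩ := (dense_iInter_of_isOpen o1 o2).inter_open_nonempty (ball ⟨0, z⟩ (1 / 2))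
    isOpen_ball (nonempty_ball.2 (by norm_num))
  rw [mem_ball, Subtype.dist_eq, dist_zero_right] at g1
  refine ⟨E + G.1, fun y => ?_, fun y hy => ?_⟩
  · have a := G.1.le_opNorm y
    have b : ‖E y‖ ≤ ‖(E + G.1) y‖ + ‖G.1 y‖ := by
      simpa using norm_sub_le ((E + G.1) y) (G.1 y)
    nlinarith [hE y, norm_nonneg y]
  · obtain ⟨i, hi⟩ := sep y hy
    have d : Dense (range fun l : ℕ => c i y • (A ^ l) x) :=
      (Homeomorph.smulOfNeZero _ hi).surjective.denseRange.comp hx (continuous_const_smul _)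
    refine Dense.of_closure (d.mono ?_)
    rintro _ ⟨l, rfl⟩
    refine Metric.mem_closure_iff.2 fun ε e0 => ?_
    obtain ⟨J, hJ⟩ := tail y (ε / 3) (by positivity)
    obtain ⟨m, m1, m2⟩ := ((tendsto_one_div_add_atTop_nhds_zero_nat.mul_const ‖y‖).eventually
      (gt_mem_nhds (show 0 * ‖y‖ < ε / 3 by simpa using by positivity))).and
      (eventually_ge_atTop J) |>.exists
    have := mem_iInter.1 g2 (i, l, m)
    simp only [O, mem_iUnion] at this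
    obtain ⟨n, j, j1, j2⟩ := this
    refine ⟨_, ⟨n, rfl⟩, ?_⟩
    have a := hJ j (m2.trans j1) n
    have b := (ContinuousLinearMap.le_opNorm _ y).trans
      (mul_le_mul_of_nonneg_right (le_of_lt j2) (norm_nonneg y))
    have := norm_add_le_of_le a b
    rw [dist_comm, dist_eq_norm]
    refine lt_of_eq_of_lt ?_ (this.trans_lt (by linarith))
    congr 1
    dsimp only
    generalize A ^ n = B
    generalize A ^ l = B'
    simp
    abel

end Pool.Agent.H61.Hc
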