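import Mathlib

set_option autoImplicit false

namespace Pool.Agent.H61.HcDefs

open Filter Topology

/-- `G` is an infinite locally finite tree with root `o`, and `p v` is the parent of `v ≠ o`:
the neighbour of `v` that is one step closer to the root. -/
structure IsRootedTree {V : Type} (G : SimpleGraph V) (o : V) (p : V → V) : Prop where
  tree : G.IsTree
  locFin : ∀ v, (G.neighborSet v).Finite
  inf : Infinite V
  parent : ∀ v, v ≠ o → G.Adj v (p v) ∧ G.dist o (p v) + 1 = G.dist o v

/-- `ι` identifies the normed space `X` with the little Lipschitz space of the tree, with its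
norm `max (|f o|, sup over v ≠ o of |f v - f (p v)|)`. -/
structure IsLittleLip {V : Type} (G : SimpleGraph V) (o : V) (p : V → V) {X : Type}
    [NormedAddCommGroup X] [NormedSpace ℂ X] (ι : X →ₗ[ℂ] (V → ℂ)) : Prop where
  inj : Function.Injective ι
  range : ∀ f : V → ℂ, (∃ x, ι x = f) ↔
    Tendsto (fun v => ‖f v - f (p v)‖) (comap (G.dist o) atTop) (𝓝 0)
  norm : ∀ x, ‖x‖ = max ‖ι x o‖ (⨆ v : {v // v ≠ o}, ‖ι x v - ι x (p v)‖)

/-- `x` has dense orbit under `A`. -/
def HypercyclicVec {X : Type} [NormedAddCommGroup X] [NormedSpace ℂ X] (A : X →L[ℂ] X) (x : X) :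
    Prop := Dense (Set.range fun n : ℕ => (A ^ n) x)

end Pool.Agent.H61.HcDefs
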