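import Mathlib
import Pool.Agent.H61.HcDefs

set_option autoImplicit false

namespace Pool.Agent.H61.Hc

open Filter Topology Set Metric Pool.Agent.H61.HcDefs

variable {V : Type} {G : SimpleGraph V} {o : V} {p : V → V} {X : Type} [NormedAddCommGroup X]
  [NormedSpace ℂ X] {ι : X →ₗ[ℂ] (V → ℂ)}

lemma ball_fin (h : IsRootedTree G o p) (n : ℕ) : {v | G.dist o v ≤ n}.Finite := by
  induction n with
  | zero =>
    refine (finite_singleton o).subset fun v hv => by_contra fun c => ?_
    have := (h.parent v c).2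
    rw [mem_ofPred_eq] at hv
    omega
  | succ n ih =>
    refine ((ih.biUnion fun w _ => h.locFin w).insert o).subset fun v hv => ?_
    rw [mem_insert_iff, or_iff_not_imp_left]
    intro c
    have := h.parent v c
    rw [mem_ofPred_eq] at hv
    exact mem_biUnion (x := p v) (show G.dist o (p v) ≤ n by omega) this.1.symm

lemma ev_iff {f : V → ℝ} (h0 : ∀ v, 0 ≤ f v) : Tendsto f (comap (G.dist o) atTop) (𝓝 0) ↔
    ∀ ε > 0, ∃ N, ∀ v, N ≤ G.dist o v → f v < ε := by
  rw [(atTop_basis.comap _).tendsto_iff nhds_basis_ball]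
  simp [abs_of_nonneg (h0 _)]

lemma le_norm (h : IsRootedTree G o p) (hι : IsLittleLip G o p ι) (x : X) {v : V} (hv : v ≠ o) :
    ‖ι x v - ι x (p v)‖ ≤ ‖x‖ := by
  rw [hι.norm]
  refine le_max_of_le_right (le_ciSup (f := fun v : {v // v ≠ o} => ‖ι x v - ι x (p v)‖) ?_ ⟨v, hv⟩)
  obtain ⟨N, hN⟩ := (ev_iff fun _ => norm_nonneg _).1 ((hι.range _).1 ⟨x, rfl⟩) 1 one_pos
  obtain ⟨B, hB⟩ := ((ball_fin h N).image fun v => ‖ι x v - ι x (p v)‖).bddAbove
  refine ⟨max B 1, ?_⟩
  rintro _ ⟨w, rfl⟩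
  rcases le_total N (G.dist o w) with a | a
  · exact le_max_of_le_right (hN _ a).le
  · exact le_max_of_le_left (hB ⟨w, a, rfl⟩)

lemma norm_le (hι : IsLittleLip G o p ι) (x : X) {K : ℝ} (h1 : ‖ι x o‖ ≤ K)
    (h2 : ∀ v ≠ o, ‖ι x v - ι x (p v)‖ ≤ K) : ‖x‖ ≤ K := by
  rw [hι.norm]
  exact max_le h1 (Real.iSup_le (fun v => h2 v v.2) ((norm_nonneg _).trans h1))

lemma eval_le (h : IsRootedTree G o p) (hι : IsLittleLip G o p ι) (x : X) (v : V) :
    ‖ι x v‖ ≤ (G.dist o v + 1) * ‖x‖ := by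
  induction hn : G.dist o v generalizing v with
  | zero =>
    have : v = o := by_contra fun c => by have := (h.parent v c).2; omega
    rw [this, hι.norm]
    simp
  | succ n ih =>
    have c : v ≠ o := fun c => by simp [c] at hn
    have a := ih (p v) (by have := (h.parent v c).2; omega)
    have b := le_norm h hι x c
    have := norm_add_le (ι x v - ι x (p v)) (ι x (p v))
    rw [sub_add_cancel] at this
    push_cast
    linarith

lemma orbit_le (hι : IsLittleLip G o p ι) {φ : V → V} {C : X →L[ℂ] X}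
    (hC : ∀ x, ι (C x) = ι x ∘ φ) {l : ℂ} (hl : ‖l‖ ≤ 1) {B : ℝ} (n : ℕ) (x : X)
    (hx : ∀ v, ‖ι x v‖ ≤ B) : ‖((l • C) ^ n) x‖ ≤ 2 * B := by
  have : ∀ v, ‖ι (((l • C) ^ n) x) v‖ ≤ B := by
    induction n with
    | zero => simpa using hx
    | succ n ih =>
      intro v
      rw [pow_succ', mul_apply_eq_comp, smul_apply, map_smul, hC, Pi.smul_apply, norm_smul]
      exact (mul_le_of_le_one_left (norm_nonneg _) hl).trans (ih _)
  have B0 : 0 ≤ B := (norm_nonneg _).trans (hx o)
  refine norm_le hι _ ((this o).trans (by linarith)) fun v _ => (norm_sub_le _ _).trans ?_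
  linarith [this v, this (p v)]

lemma bdd_dense (h : IsRootedTree G o p) (hι : IsLittleLip G o p ι) :
    Dense {x : X | ∃ B, ∀ v, ‖ι x v‖ ≤ B} := by
  refine Metric.dense_iff.2 fun x ε e0 => ?_
  obtain ⟨N, hN⟩ := (ev_iff fun _ => norm_nonneg _).1 ((hι.range _).1 ⟨x, rfl⟩) (ε / 4)
    (by positivity)
  obtain ⟨R, hR⟩ := ((ball_fin h N).image fun v => ‖ι x v‖).bddAbove
  have R0 : 0 ≤ R := (norm_nonneg _).trans (hR ⟨o, by simp, rfl⟩)
  let θ : ℝ → ℝ := fun t => max (-R) (min R t)
  have t1 : ∀ a b, |θ a - θ b| ≤ |a - b| := fun a b => by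
    simp only [θ, max_comm (-R), min_comm R]
    refine (abs_max_sub_max_le_abs _ _ _).trans ((abs_min_sub_min_le_max _ _ _ _).trans ?_)
    simp
  have t2 : ∀ a, |θ a| ≤ R := fun a => abs_le.2 ⟨le_max_left _ _, max_le (by linarith) (min_le_left _ _)⟩
  have t3 : ∀ a, |a| ≤ R → θ a = a := fun a ha => by
    simp only [θ, min_eq_right (abs_le.1 ha).2, max_eq_right (abs_le.1 ha).1]
  let ρ : ℂ → ℂ := fun z => ⟨θ z.re, θ z.im⟩
  have r1 : ∀ a b, ‖ρ a - ρ b‖ ≤ 2 * ‖a - b‖ := fun a b => by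
    refine (Complex.norm_le_abs_re_add_abs_im _).trans ?_
    have := (t1 a.re b.re).trans (Complex.abs_re_le_norm (a - b))
    have := (t1 a.im b.im).trans (Complex.abs_im_le_norm (a - b))
    simp only [ρ, Complex.sub_re, Complex.sub_im]
    linarith
  have r2 : ∀ v, G.dist o v ≤ N → ρ (ι x v) = ι x v := fun v hv => by
    have := hR ⟨v, hv, rfl⟩
    exact Complex.ext (t3 _ ((Complex.abs_re_le_norm _).trans this))
      (t3 _ ((Complex.abs_im_le_norm _).trans this))
  obtain ⟨y, hy⟩ := (hι.range fun v => ρ (ι x v)).2 (squeeze_zero (fun _ => norm_nonneg _)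
    (fun v => r1 _ _) (by simpa using ((hι.range _).1 ⟨x, rfl⟩).const_mul 2))
  refine ⟨y, ?_, R + R, fun v => ?_⟩
  · rw [mem_ball, dist_eq_norm]
    refine (norm_le hι _ (K := 3 * (ε / 4)) ?_ fun v hv => ?_).trans_lt (by linarith)
    · simp [hy, r2 o (by simp), show 0 ≤ ε / 4 by positivity]
    · simp only [map_sub, hy, Pi.sub_apply]
      rcases le_total N (G.dist o v) with a | a
      · rw [sub_sub_sub_comm]
        linarith [norm_sub_le (ρ (ι x v) - ρ (ι x (p v))) (ι x v - ι x (p v)), r1 (ι x v) (ι x (p v)),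
          hN v a]
      · rw [r2 v a, r2 (p v) (by have := (h.parent v hv).2; omega)]
        simp [show 0 ≤ ε / 4 by positivity]
  · rw [hy]
    exact (Complex.norm_le_abs_re_add_abs_im _).trans (add_le_add (t2 _) (t2 _))

lemma seq (h : IsRootedTree G o p) : ∃ s : ℕ → V, (∀ k, s k ≠ o) ∧ (∀ k, k ≤ G.dist o (s k)) ∧
    Function.Injective s ∧ ∀ k l, p (s k) ≠ s l := by
  have := h.inf
  have u : ∀ n, ∃ v, n < G.dist o v := fun n => by
    obtain ⟨v, hv⟩ := (ball_fin h n).infinite_compl.nonempty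
    exact ⟨v, not_le.1 hv⟩
  choose f hf using u
  let s : ℕ → V := fun k => Nat.rec (f 0) (fun _ w => f (G.dist o w + 1)) k
  have a : ∀ k, G.dist o (s k) + 1 < G.dist o (s (k + 1)) := fun k => hf _
  have b : ∀ k l, k < l → G.dist o (s k) + 1 < G.dist o (s l) := fun k l hl => by
    induction hl with
    | refl => exact a k
    | step _ ih => have := a ‹_›; simp only [Nat.succ_eq_add_one]; omega
  have c : ∀ k, k < G.dist o (s k) := fun k => by
    induction k with
    | zero => exact hf 0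
    | succ k ih => have := a k; omega
  have d : ∀ k, s k ≠ o := fun k e => by simpa [e] using c k
  refine ⟨s, d, fun k => (c k).le, fun k l e => ?_, fun k l e => ?_⟩
  · rcases lt_trichotomy k l with m | m | m
    · have := b _ _ m; rw [e] at this; omega
    · exact m
    · have := b _ _ m; rw [e] at this; omega
  · have := (h.parent _ (d k)).2
    rw [e] at this
    rcases lt_trichotomy k l with m | rfl | m
    · have := b _ _ m; omega
    · omega
    · have := b _ _ m; omega

end Pool.Agent.H61.Hc
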