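import Mathlib

namespace Pool.Agent.H61.Ig

open Finset Complex

noncomputable def e (l t : ℝ) : ℂ := cexp (I * l * t)

lemma norm_e (l t : ℝ) : ‖e l t‖ = 1 := by
  rw [e, show I * l * t = ((l * t : ℝ) : ℂ) * I by push_cast; ring, norm_exp_ofReal_mul_I]

lemma e_add (l t d : ℝ) : e l (t + d) = e l d * e l t := by
  rw [e, e, e, ← Complex.exp_add]; congr 1; push_cast; ring

lemma e_mul_conj (l m t : ℝ) : e l t * (starRingEnd ℂ) (e m t) = e (l - m) t := by
  rw [e, e, e, ← exp_conj, ← Complex.exp_add]; congr 1; simp; ring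

@[fun_prop] lemma continuous_e (l : ℝ) : Continuous (e l) := by unfold e; fun_prop

lemma e_zero (t : ℝ) : e 0 t = 1 := by simp [e]

lemma int_e (θ T : ℝ) : ‖(∫ t in (0 : ℝ)..T, e θ t) - (if θ = 0 then (T : ℂ) else 0)‖ ≤ 2 / |θ| := by
  split_ifs with h
  · simp [h, e_zero]
  · have h' : I * (θ : ℂ) ≠ 0 := mul_ne_zero I_ne_zero (by exact_mod_cast h)
    have := integral_exp_mul_complex (a := 0) (b := T) h'
    simp only [e]
    rw [this, sub_zero, norm_div, norm_mul, norm_I, one_mul, norm_real, Real.norm_eq_abs]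
    gcongr
    have h1 := norm_e θ T
    have h2 := norm_e θ 0
    simp only [e] at h1 h2
    exact (norm_sub_le _ _).trans (by rw [h1, h2]; norm_num)

noncomputable def X (s : Finset ℝ) (c : ℝ → ℂ) (t : ℝ) : ℂ := ∑ l ∈ s, c l * e l t

noncomputable def N (s : Finset ℝ) (c : ℝ → ℂ) : ℝ := ∑ l ∈ s, ‖c l‖ ^ 2

noncomputable def J (x : ℝ → ℂ) (T : ℝ) : ℝ := ∫ t in (0 : ℝ)..T, ‖x t‖ ^ 2

@[fun_prop] lemma continuous_X (s : Finset ℝ) (c : ℝ → ℂ) : Continuous (X s c) := by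
  unfold X; fun_prop

lemma N_nonneg (s : Finset ℝ) (c : ℝ → ℂ) : 0 ≤ N s c := Finset.sum_nonneg fun _ _ => by positivity

lemma J_nonneg (x : ℝ → ℂ) {T : ℝ} (hT : 0 ≤ T) : 0 ≤ J x T :=
  intervalIntegral.integral_nonneg hT fun _ _ => by positivity

lemma gram (s : Finset ℝ) (c : ℝ → ℂ) (T ε : ℝ) (hε : 0 ≤ ε)
    (h : ∑ p ∈ s ×ˢ s, 1 / (p.1 - p.2) ^ 2 ≤ ε ^ 2) : |J (X s c) T - T * N s c| ≤ 2 * ε * N s c := by
  have h1 : ((J (X s c) T : ℝ) : ℂ) = ∑ p ∈ s ×ˢ s, c p.1 * (starRingEnd ℂ) (c p.2)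
      * ∫ t in (0 : ℝ)..T, e (p.1 - p.2) t := by
    rw [J, ← intervalIntegral.integral_ofReal]
    simp_rw [← intervalIntegral.integral_const_mul]
    rw [← intervalIntegral.integral_finsetSum
      (fun p _ => Continuous.intervalIntegrable (by fun_prop) _ _)]
    congr 1
    funext t
    rw [ofReal_pow, ← mul_conj', X, map_sum, Finset.sum_mul_sum, Finset.sum_product]
    refine Finset.sum_congr rfl fun l _ => Finset.sum_congr rfl fun m _ => ?_
    rw [← e_mul_conj, map_mul]; ring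
  have h2 : ((T * N s c : ℝ) : ℂ) = ∑ p ∈ s ×ˢ s, c p.1 * (starRingEnd ℂ) (c p.2)
      * (if p.1 - p.2 = 0 then (T : ℂ) else 0) := by
    rw [Finset.sum_product, N]
    push_cast
    rw [Finset.mul_sum]
    refine Finset.sum_congr rfl fun l hl => ?_
    rw [Finset.sum_eq_single l (fun m _ hm => by simp [sub_eq_zero, hm.symm]) (fun h => absurd hl h)]
    simp [mul_conj', mul_comm]
  have h3 : |J (X s c) T - T * N s c| ≤ ∑ p ∈ s ×ˢ s, (‖c p.1‖ * ‖c p.2‖) * (2 / |p.1 - p.2|) := by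
    rw [← Real.norm_eq_abs, ← norm_real, ofReal_sub, h1, h2, ← Finset.sum_sub_distrib]
    refine (norm_sum_le _ _).trans (Finset.sum_le_sum fun p _ => ?_)
    rw [← mul_sub, norm_mul, norm_mul, RCLike.norm_conj]
    gcongr
    exact int_e _ _
  have hN := N_nonneg s c
  refine h3.trans (le_of_sq_le_sq ?_ (by positivity))
  refine (Finset.sum_mul_sq_le_sq_mul_sq _ _ _).trans ?_
  have h4 : ∑ p ∈ s ×ˢ s, (‖c p.1‖ * ‖c p.2‖) ^ 2 = N s c ^ 2 := by
    rw [sq (N s c), N, Finset.sum_mul_sum, Finset.sum_product]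
    simp only [mul_pow]
  have h5 : ∑ p ∈ s ×ˢ s, (2 / |p.1 - p.2|) ^ 2 = 4 * ∑ p ∈ s ×ˢ s, 1 / (p.1 - p.2) ^ 2 := by
    rw [Finset.mul_sum]
    refine Finset.sum_congr rfl fun p _ => ?_
    rw [div_pow, sq_abs]; ring
  rw [h4, h5]
  nlinarith [sq_nonneg (N s c)]

lemma J_add (x y : ℝ → ℂ) (hx : Continuous x) (hy : Continuous y) {T : ℝ} (hT : 0 ≤ T) :
    J (fun t => x t + y t) T ≤ 2 * J x T + 2 * J y T := by
  simp only [J, ← intervalIntegral.integral_const_mul]
  rw [← intervalIntegral.integral_add (Continuous.intervalIntegrable (by fun_prop) _ _)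
    (Continuous.intervalIntegrable (by fun_prop) _ _)]
  refine intervalIntegral.integral_mono_on hT (Continuous.intervalIntegrable (by fun_prop) _ _)
    (Continuous.intervalIntegrable (by fun_prop) _ _) fun t _ => ?_
  have h := norm_add_le (x t) (y t)
  nlinarith [norm_nonneg (x t + y t), norm_nonneg (x t), norm_nonneg (y t),
    sq_nonneg (‖x t‖ - ‖y t‖)]

lemma J_unit (x z : ℝ → ℂ) (hz : ∀ t, ‖z t‖ = 1) (T : ℝ) : J (fun t => z t * x t) T = J x T := by
  simp [J, hz]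

lemma J_const (b : ℂ) (T : ℝ) : J (fun _ => b) T = T * ‖b‖ ^ 2 := by simp [J]

lemma J_shift (x : ℝ → ℂ) (hx : Continuous x) {T₁ T d : ℝ} (h1 : 0 ≤ T₁) (hd : 0 ≤ d)
    (h : T₁ + d ≤ T) : J (fun t => x (t + d)) T₁ ≤ J x T := by
  rw [J, intervalIntegral.integral_comp_add_right (fun t => ‖x t‖ ^ 2)]
  exact intervalIntegral.integral_mono_interval (by linarith) (by linarith) h
    (Filter.Eventually.of_forall fun _ => by positivity)
    (Continuous.intervalIntegrable (by fun_prop) _ _)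

lemma J_diff (x : ℝ → ℂ) (hx : Continuous x) {T₁ T d : ℝ} (h1 : 0 ≤ T₁) (hd : 0 ≤ d)
    (h : T₁ + d ≤ T) (z : ℂ) (hz : ‖z‖ = 1) :
    J (fun t => x (t + d) + -z * x t) T₁ ≤ 4 * J x T := by
  have h2 := J_add (fun t => x (t + d)) (fun t => -z * x t) (by fun_prop) (by fun_prop) h1
  have h3 := J_shift x hx h1 hd h
  have h4 := J_shift x hx h1 le_rfl (by linarith : T₁ + 0 ≤ T)
  rw [J_unit x (fun _ => -z) (fun _ => by simpa using hz)] at h2
  simp only [add_zero] at h4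
  linarith

lemma norm_e_sub (l w d : ℝ) : ‖e l d - e w d‖ ^ 2 = 2 - 2 * Real.cos ((l - w) * d) := by
  have h : e l d - e w d = e w d * (cexp (I * ((l - w) * d : ℝ)) - 1) := by
    rw [mul_sub, e, e, ← Complex.exp_add, mul_one]; congr 2; push_cast; ring
  rw [h, norm_mul, norm_e, one_mul, norm_exp_I_mul_ofReal_sub_one, Real.norm_eq_abs, sq_abs,
    mul_pow, Real.sin_sq_eq_half_sub, mul_div_cancel₀ _ (two_ne_zero)]
  ring

lemma weight {γ η : ℝ} (hγ : 0 < γ) (hη : 0 < η) : ∃ κ > 0, ∀ θ : ℝ, γ ≤ |θ| →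
    κ ≤ (∫ d in (0 : ℝ)..η, (2 - 2 * Real.cos (θ * d))) + (2 - 2 * Real.cos (θ * η)) := by
  refine ⟨min η (4 / Real.pi ^ 2 * (γ * η) ^ 2), by positivity, fun θ hθ => ?_⟩
  have hθ0 : 0 < |θ| := hγ.trans_le hθ
  by_cases h : |θ * η| ≤ Real.pi
  · have h1 := Real.cos_le_one_sub_mul_cos_sq h
    have h2 : 0 ≤ ∫ d in (0 : ℝ)..η, (2 - 2 * Real.cos (θ * d)) :=
      intervalIntegral.integral_nonneg hη.le fun d _ => by linarith [Real.cos_le_one (θ * d)]
    have h3 : (γ * η) ^ 2 ≤ (θ * η) ^ 2 := by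
      rw [mul_pow, mul_pow, ← sq_abs θ]; gcongr
    have h4 : 4 / Real.pi ^ 2 * (γ * η) ^ 2 ≤ 4 / Real.pi ^ 2 * (θ * η) ^ 2 := by gcongr
    refine (min_le_right _ _).trans ?_
    have h5 : 4 / Real.pi ^ 2 * (θ * η) ^ 2 = 2 * (2 / Real.pi ^ 2 * (θ * η) ^ 2) := by ring
    linarith
  · refine (min_le_left _ _).trans ?_
    have h1 := intervalIntegral.mul_integral_comp_mul_left (f := Real.cos) (a := 0) (b := η) θ
    rw [integral_cos, mul_zero, Real.sin_zero, sub_zero] at h1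
    rw [intervalIntegral.integral_sub (by simp) (Continuous.intervalIntegrable (by fun_prop) _ _),
      intervalIntegral.integral_const_mul]
    set A := ∫ x in (0 : ℝ)..η, Real.cos (θ * x)
    have h2 : |θ| * |A| ≤ 1 := by rw [← abs_mul, h1]; exact Real.abs_sin_le_one _
    rw [abs_mul, abs_of_pos hη, not_le] at h
    have h3 : 2 * |A| ≤ η := by
      have := Real.two_le_pi
      by_contra hc
      nlinarith [not_le.1 hc]
    simp only [intervalIntegral.integral_const, sub_zero, smul_eq_mul]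
    linarith [le_abs_self A, Real.cos_le_one (θ * η)]

def R (Λ : Set ℝ) (T : ℝ) : Prop := ∃ C > 0, ∀ (s : Finset ℝ) (c : ℝ → ℂ), (s : Set ℝ) ⊆ Λ →
  N s c ≤ C * J (X s c) T ∧ J (X s c) T ≤ C * N s c

lemma R_insert {Λ : Set ℝ} {T₁ T w γ : ℝ} (h1 : 0 ≤ T₁) (h : T₁ < T) (hγ : 0 < γ)
    (hs : ∀ l ∈ Λ, l ≠ w → γ ≤ |l - w|) (hR₁ : R Λ T₁) (hR : R Λ T) : R (insert w Λ) T := by
  obtain ⟨C₁, hC₁, hR₁⟩ := hR₁
  obtain ⟨C, hC, hR⟩ := hR
  have hT : 0 < T := by linarith
  obtain ⟨κ, hκ, hw⟩ := weight hγ (sub_pos.2 h)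
  set η := T - T₁ with hη
  have hη0 : 0 < η := sub_pos.2 h
  set D := 4 * C₁ * (η + 1) / κ with hD
  have hD0 : 0 < D := by positivity
  refine ⟨(2 + 2 * C * D) / T + D + 2 * T + 2 * C, by positivity, fun s c hsub => ?_⟩
  classical
  set s' := s.erase w with hs'
  have hsub' : (s' : Set ℝ) ⊆ Λ := fun l hl => by
    have := Finset.mem_erase.1 hl
    exact (hsub this.2).resolve_left this.1
  set b : ℂ := if w ∈ s then c w else 0 with hb
  have hX : X s c = fun t => e w t * b + X s' c t := by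
    funext t
    by_cases hw' : w ∈ s
    · rw [X, ← Finset.add_sum_erase _ _ hw', hb, if_pos hw', mul_comm]; rfl
    · simp [hb, hw', hs']
  have hN : N s c = ‖b‖ ^ 2 + N s' c := by
    by_cases hw' : w ∈ s
    · rw [N, ← Finset.add_sum_erase _ _ hw', hb, if_pos hw']; rfl
    · simp [hb, hw', hs']
  have hJ := J_nonneg (X s c) hT.le
  have hN' := N_nonneg s' c
  have hb0 : 0 ≤ ‖b‖ ^ 2 := by positivity
  have key : ∀ d, 0 ≤ d → d ≤ η →
      ∑ l ∈ s', ‖c l‖ ^ 2 * (2 - 2 * Real.cos ((l - w) * d)) ≤ 4 * C₁ * J (X s c) T := by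
    intro d hd hd'
    have h2 := (hR₁ s' (fun l => c l * (e l d - e w d)) hsub').1
    have h3 := J_diff (X s c) (by fun_prop) h1 hd (by linarith : T₁ + d ≤ T) (e w d) (norm_e _ _)
    have h4 : (fun t => X s c (t + d) + -e w d * X s c t)
        = X s' fun l => c l * (e l d - e w d) := by
      funext t
      rw [hX]
      simp only [X, e_add, mul_add, Finset.mul_sum]
      rw [add_add_add_comm, ← Finset.sum_add_distrib,
        show e w d * e w t * b + -e w d * (e w t * b) = 0 by ring, zero_add]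
      exact Finset.sum_congr rfl fun l _ => by ring
    rw [h4] at h3
    simp only [N, norm_mul, mul_pow, norm_e_sub] at h2
    nlinarith
  have key2 : κ * N s' c ≤ 4 * C₁ * (η + 1) * J (X s c) T := by
    have h2 : ∫ d in (0 : ℝ)..η, ∑ l ∈ s', ‖c l‖ ^ 2 * (2 - 2 * Real.cos ((l - w) * d))
        ≤ ∫ _ in (0 : ℝ)..η, 4 * C₁ * J (X s c) T :=
      intervalIntegral.integral_mono_on hη0.le (Continuous.intervalIntegrable (by fun_prop) _ _)
        (by simp) fun d hd => key d hd.1 hd.2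
    rw [intervalIntegral.integral_finsetSum
      (fun p _ => Continuous.intervalIntegrable (by fun_prop) _ _)] at h2
    simp only [intervalIntegral.integral_const_mul, intervalIntegral.integral_const, sub_zero,
      smul_eq_mul] at h2
    have h3 := key η hη0.le le_rfl
    have h4 : κ * N s' c ≤ ∑ l ∈ s', ‖c l‖ ^ 2 * (∫ d in (0 : ℝ)..η,
        (2 - 2 * Real.cos ((l - w) * d))) +
        ∑ l ∈ s', ‖c l‖ ^ 2 * (2 - 2 * Real.cos ((l - w) * η)) := by
      rw [N, Finset.mul_sum, ← Finset.sum_add_distrib]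
      refine Finset.sum_le_sum fun l hl => ?_
      rw [← mul_add, mul_comm κ]
      gcongr
      exact hw _ (hs l (hsub' hl) (Finset.mem_erase.1 hl).1)
    nlinarith
  have key3 : N s' c ≤ D * J (X s c) T := by
    rw [hD, div_mul_eq_mul_div, le_div_iff₀ hκ]; linarith
  have hup := (hR s' c hsub').2
  have hJb : J (fun t => e w t * b) T = T * ‖b‖ ^ 2 := by
    rw [J_unit (fun _ => b) (e w) (norm_e w), J_const]
  constructor
  · have h2 := J_add (X s c) (fun t => -1 * X s' c t) (by fun_prop) (by fun_prop) hT.le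
    rw [J_unit (X s' c) (fun _ => -1) (by simp)] at h2
    have h3 : (fun t => X s c t + -1 * X s' c t) = fun t => e w t * b := by
      funext t; rw [hX]; ring
    rw [h3, hJb] at h2
    have h4 : ‖b‖ ^ 2 ≤ (2 + 2 * C * D) / T * J (X s c) T := by
      rw [div_mul_eq_mul_div, le_div_iff₀ hT]
      nlinarith [mul_le_mul_of_nonneg_left key3 hC.le]
    rw [hN]
    nlinarith [mul_nonneg hT.le hJ, mul_nonneg hC.le hJ]
  · have h2 := J_add (fun t => e w t * b) (X s' c) (by fun_prop) (by fun_prop) hT.le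
    rw [← hX, hJb] at h2
    rw [hN]
    have h5 : 0 ≤ (2 + 2 * C * D) / T + D := by positivity
    nlinarith [mul_nonneg h5 hb0, mul_nonneg h5 hN', mul_nonneg hT.le hN', mul_nonneg hC.le hb0]

end Pool.Agent.H61.Ig
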