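import Pool.Agent.H61.IgA

namespace Pool.Agent.H61.Ig

open Finset Complex

lemma R_mono {Λ Λ' : Set ℝ} {T : ℝ} (h : Λ' ⊆ Λ) (hR : R Λ T) : R Λ' T := by
  obtain ⟨C, hC, hR⟩ := hR
  exact ⟨C, hC, fun s c hs => hR s c (hs.trans h)⟩

theorem riesz {ι : Type*} (f : ι → ℝ) (hf : Summable fun p : ι × ι => 1 / (f p.1 - f p.2) ^ 2)
    {T : ℝ} (hT : 0 < T) : R (Set.range f) T := by
  classical
  set Λ := Set.range f
  have hne : ∀ l : ℝ, l ∈ Λ → ∃ i, f i = l := fun l hl => hl
  choose g hg using fun l : Λ => hne l l.2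
  set ε := T / 8 with hε
  obtain ⟨B, hB⟩ := summable_iff_vanishing_norm.1 hf (ε ^ 2) (by positivity)
  set F : Finset ℝ := B.image fun p => f p.1 with hF
  set S := ∑' p : ι × ι, 1 / (f p.1 - f p.2) ^ 2
  have hS : 0 ≤ S := tsum_nonneg fun _ => by positivity
  have hsep : ∀ w ∈ Λ, ∀ l ∈ Λ, l ≠ w → 1 / (S + 1) ≤ |l - w| := by
    rintro _ ⟨j, rfl⟩ _ ⟨i, rfl⟩ hne
    have h1 : 1 / (f i - f j) ^ 2 ≤ S := hf.le_tsum (i, j) fun _ _ => by positivity
    have h2 : 0 < |f i - f j| := abs_pos.2 (sub_ne_zero.2 hne)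
    rw [← sq_abs, div_le_iff₀ (by positivity)] at h1
    rw [div_le_iff₀ (by positivity)]
    by_contra hc
    have hc := not_le.1 hc
    nlinarith [mul_nonneg hS h2.le]
  have base : ∀ T', T / 2 < T' → R (Λ \ F) T' := by
    intro T' hT'
    have hT0 : 0 < T' := by linarith
    refine ⟨4 / T + T' + T, by positivity, fun s c hs => ?_⟩
    have hsΛ : ∀ l ∈ s, l ∈ Λ := fun l hl => (hs hl).1
    have h1 : ∑ p ∈ s ×ˢ s, 1 / (p.1 - p.2) ^ 2 ≤ ε ^ 2 := by
      have h2 := hB ((s.attach ×ˢ s.attach).image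
        fun p => (g ⟨p.1.1, hsΛ _ p.1.2⟩, g ⟨p.2.1, hsΛ _ p.2.2⟩)) (by
          rw [Finset.disjoint_left]
          intro q hq hqB
          obtain ⟨p, _, rfl⟩ := Finset.mem_image.1 hq
          refine (hs p.1.2).2 (Finset.mem_coe.2 (Finset.mem_image.2 ⟨_, hqB, ?_⟩))
          exact hg ⟨p.1.1, _⟩)
      rw [Finset.sum_image (by
        intro p _ q _ hpq
        have h3 := congrArg (fun z => f z.1) hpq
        have h4 := congrArg (fun z => f z.2) hpq
        simp only [hg] at h3 h4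
        exact Prod.ext (Subtype.ext h3) (Subtype.ext h4))] at h2
      simp only [hg, Finset.sum_product] at h2
      rw [Finset.sum_product, ← Finset.sum_attach]
      refine le_trans (le_of_eq ?_) ((le_abs_self _).trans h2.le)
      exact Finset.sum_congr rfl fun l _ => (Finset.sum_attach s _).symm
    have h2 := abs_le.1 (gram s c T' ε (by positivity) h1)
    have hN := N_nonneg s c
    have hJ := J_nonneg (X s c) (by linarith : 0 ≤ T')
    have h4 : 0 ≤ 4 / T := by positivity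
    constructor
    · have h3 : N s c ≤ 4 / T * J (X s c) T' := by
        rw [div_mul_eq_mul_div, le_div_iff₀ hT]
        nlinarith [h2.1]
      nlinarith [mul_nonneg hT.le hJ, mul_nonneg (by linarith : 0 ≤ T') hJ]
    · nlinarith [h2.2, mul_nonneg h4 hN, mul_nonneg hT.le hN]
  have step : ∀ G : Finset ℝ, (G : Set ℝ) ⊆ Λ → ∀ T', T / 2 < T' → R ((G : Set ℝ) ∪ Λ \ F) T' := by
    intro G
    induction G using Finset.induction_on with
    | empty => intro _; simpa using base
    | insert w G _ ih =>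
      intro hG T' hT'
      rw [Finset.coe_insert, Set.insert_subset_iff] at hG
      rw [Finset.coe_insert, Set.insert_union]
      refine R_insert (T₁ := (T / 2 + T') / 2) (γ := 1 / (S + 1)) (by linarith) (by linarith)
        (by positivity) (fun l hl => hsep w hG.1 l ?_) (ih hG.2 _ (by linarith)) (ih hG.2 _ hT')
      exact hl.elim (fun h => hG.2 h) fun h => h.1
  refine R_mono (fun l hl => ?_) (step F ?_ T (by linarith))
  · by_cases h : l ∈ F
    exacts [Or.inl h, Or.inr ⟨hl, h⟩]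
  · intro l hl
    obtain ⟨p, _, rfl⟩ := Finset.mem_image.1 hl
    exact ⟨_, rfl⟩

theorem riesz_lin {ι : Type*} (f : ι → ℝ) (hf : Summable fun p : ι × ι => 1 / (f p.1 - f p.2) ^ 2)
    (h0 : (0 : ℝ) ∈ Set.range f) {T : ℝ} (hT : 0 < T) :
    ∃ C > 0, ∀ (s : Finset ℝ) (c : ℝ → ℂ) (b : ℂ), (s : Set ℝ) ⊆ Set.range f →
      ‖b‖ ^ 2 ≤ C * J (fun t => b * t + X s c t) T ∧ N s c ≤ C * J (fun t => b * t + X s c t) T := by
  classical
  obtain ⟨C₁, hC₁, hR₁⟩ := riesz f hf (half_pos hT)
  obtain ⟨C, hC, hR⟩ := riesz f hf hT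
  set D := 4 * C₁ / (T / 2) ^ 2 with hD
  have hD0 : 0 < D := by positivity
  set E := J (fun t => (t : ℂ)) T
  have hE : 0 ≤ E := J_nonneg _ hT.le
  refine ⟨D + C * (2 + 2 * E * D), by positivity, fun s c b hs => ?_⟩
  set x : ℝ → ℂ := fun t => b * t + X s c t with hx
  have hJ := J_nonneg x hT.le
  have h1 : ‖b‖ ^ 2 ≤ D * J x T := by
    set c' : ℝ → ℂ := fun l => if l = 0 then b * (T / 2 : ℝ) else c l * (e l (T / 2) - 1) with hc'
    have h2 := (hR₁ (insert 0 (s.erase 0)) c' (by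
      rw [Finset.coe_insert, Set.insert_subset_iff]
      exact ⟨h0, fun l hl => hs (Finset.mem_erase.1 hl).2⟩)).1
    have h3 := J_diff x (by fun_prop) (half_pos hT).le (half_pos hT).le (by linarith : _ ≤ T) 1
      (by simp)
    have h4 : (fun t => x (t + T / 2) + -1 * x t) = X (insert 0 (s.erase 0)) c' := by
      funext t
      rw [X, Finset.sum_insert (by simp)]
      have h5 : ∑ l ∈ s.erase 0, c' l * e l t = ∑ l ∈ s, c l * (e l (T / 2) - 1) * e l t := by
        rw [← Finset.sum_erase (a := 0) s (by simp [e_zero])]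
        exact Finset.sum_congr rfl fun l hl => by simp [hc', (Finset.mem_erase.1 hl).1]
      rw [h5]
      simp only [hx, hc', X, e_add, if_true, e_zero, mul_sub, sub_mul, Finset.sum_sub_distrib,
        mul_assoc, mul_one]
      push_cast
      ring
    rw [h4] at h3
    have h5 : ‖b‖ ^ 2 * (T / 2) ^ 2 ≤ N (insert 0 (s.erase 0)) c' := by
      rw [N, Finset.sum_insert (by simp)]
      have : ‖c' 0‖ ^ 2 = ‖b‖ ^ 2 * (T / 2) ^ 2 := by
        simp only [hc', if_true, norm_mul, norm_real, Real.norm_eq_abs, mul_pow, sq_abs]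
      rw [this]
      exact le_add_of_nonneg_right (N_nonneg _ _)
    rw [hD, div_mul_eq_mul_div, le_div_iff₀ (by positivity)]
    nlinarith
  have h2 := J_add x (fun t => -b * t) (by fun_prop) (by fun_prop) hT.le
  have h3 : (fun t => x t + -b * t) = X s c := by funext t; simp only [hx]; ring
  have h4 : J (fun t => -b * t) T = ‖b‖ ^ 2 * E := by
    simp only [J, E, norm_mul, norm_neg, mul_pow, intervalIntegral.integral_const_mul]
  rw [h3, h4] at h2
  have h5 := (hR s c hs).1
  have h6 : 0 ≤ C * (2 + 2 * E * D) := by positivity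
  constructor
  · nlinarith [mul_nonneg h6 hJ]
  · have h7 : J (X s c) T ≤ (2 + 2 * E * D) * J x T := by
      nlinarith [mul_le_mul_of_nonneg_left h1 hE]
    nlinarith [mul_le_mul_of_nonneg_left h7 hC.le, mul_nonneg hD0.le hJ]

end Pool.Agent.H61.Ig
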