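import Pool.Agent.H61.IgB

namespace Pool.Agent.H61.Ig

open Finset Complex

/-- frequencies seen along a segment of speed `a` -/
def fr (a : ℝ) (i : Bool × ℤ) : ℝ := (if i.1 then (i.2 : ℝ) ^ 2 else -(i.2 : ℝ) ^ 2) - a * i.2

lemma sq_summable (b : ℝ) : Summable fun n : ℤ => 1 / ((n : ℝ) + b) ^ 2 := by
  have := (Real.summable_one_div_int_add_rpow b 2).2 (by norm_num)
  simpa only [Real.rpow_two, sq_abs] using this

lemma same (b : ℝ) :
    Summable fun p : ℤ × ℤ => 1 / (((p.1 : ℝ) - p.2) * (p.1 + p.2 - b)) ^ 2 := by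
  have h := (sq_summable 0).mul_of_nonneg (sq_summable (-b)) (fun _ => by positivity)
    (fun _ => by positivity)
  have h2 := h.comp_injective (i := fun p : ℤ × ℤ => (p.1 - p.2, p.1 + p.2)) (by
    intro p q hpq
    simp only [Prod.mk.injEq] at hpq
    exact Prod.ext (by omega) (by omega))
  refine h2.congr fun p => ?_
  simp only [Function.comp]
  push_cast
  rw [div_mul_div_comm, mul_pow, add_zero, one_mul, sub_eq_add_neg _ b]

lemma box (b : ℝ) (k : ℤ) (y : ℝ) (h : ((k : ℝ) - b / 2) ^ 2 + y ^ 2 ≤ b ^ 2) :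
    k ∈ Finset.Icc (-⌈2 * |b|⌉) ⌈2 * |b|⌉ := by
  have h1 : |(k : ℝ) - b / 2| ≤ |b| := sq_le_sq.1 (by nlinarith)
  have h2 := Int.le_ceil (2 * |b|)
  have h3 := abs_le.1 h1
  have h4 := le_abs_self b
  have h5 := neg_abs_le b
  rw [Finset.mem_Icc]
  constructor
  · have : -((⌈2 * |b|⌉ : ℤ) : ℝ) ≤ k := by linarith
    exact_mod_cast this
  · have : (k : ℝ) ≤ ((⌈2 * |b|⌉ : ℤ) : ℝ) := by linarith
    exact_mod_cast this

lemma opp (b : ℝ) (hb : ∀ n : ℤ, b ≠ n) :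
    Summable fun p : ℤ × ℤ => 1 / ((p.1 : ℝ) ^ 2 + p.2 ^ 2 - b * (p.1 - p.2)) ^ 2 := by
  have h := (sq_summable (-(b / 2))).mul_of_nonneg (sq_summable (b / 2)) (fun _ => by positivity)
    (fun _ => by positivity)
  refine h.of_norm_bounded_eventually ?_
  refine Set.Finite.subset ((Finset.Icc (-⌈2 * |b|⌉) ⌈2 * |b|⌉) ×ˢ
    (Finset.Icc (-⌈2 * |-b|⌉) ⌈2 * |-b|⌉)).finite_toSet fun p hp => ?_
  by_cases h1 : ((p.1 : ℝ) - b / 2) ^ 2 + (p.2 + b / 2) ^ 2 ≤ b ^ 2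
  · rw [Finset.mem_coe, Finset.mem_product]
    exact ⟨box b _ _ h1, box (-b) _ ((p.1 : ℝ) - b / 2) (by nlinarith)⟩
  · exfalso
    apply hp
    have h2 : (p.1 : ℝ) + -(b / 2) ≠ 0 := fun h => hb (2 * p.1) (by push_cast; linarith)
    have h3 : (p.2 : ℝ) + b / 2 ≠ 0 := fun h => hb (-2 * p.2) (by push_cast; linarith)
    show ‖_‖ ≤ _
    rw [Real.norm_of_nonneg (by positivity), div_mul_div_comm, one_mul]
    refine one_div_le_one_div_of_le (by positivity) ?_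
    have h4 : (p.1 : ℝ) ^ 2 + p.2 ^ 2 - b * (p.1 - p.2)
        = ((p.1 : ℝ) + -(b / 2)) ^ 2 + (p.2 + b / 2) ^ 2 - b ^ 2 / 2 := by ring
    rw [h4]
    rw [sub_eq_add_neg, not_le] at h1
    set x := ((p.1 : ℝ) + -(b / 2)) ^ 2
    set y := ((p.2 : ℝ) + b / 2) ^ 2
    have hx : 0 ≤ x := sq_nonneg _
    have hy : 0 ≤ y := sq_nonneg _
    have h5 : ((x + y) / 2) ^ 2 ≤ (x + y - b ^ 2 / 2) ^ 2 :=
      pow_le_pow_left₀ (by positivity) (by linarith) 2
    nlinarith [sq_nonneg (x - y)]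

lemma fr_summable (a : ℝ) (ha : ∀ n : ℤ, a ≠ n) :
    Summable fun p : (Bool × ℤ) × (Bool × ℤ) => 1 / (fr a p.1 - fr a p.2) ^ 2 := by
  rw [← (Equiv.prodProdProdComm Bool Bool ℤ ℤ).summable_iff,
    summable_prod_of_nonneg (fun _ => by simp only [Function.comp]; positivity)]
  refine ⟨fun σ => ?_, Summable.of_finite⟩
  have ha' : ∀ n : ℤ, -a ≠ n := fun n h => ha (-n) (by push_cast; linarith)
  obtain ⟨σ, τ⟩ := σ
  cases σ <;> cases τ
  · refine (same (-a)).congr fun p => ?_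
    simp [fr]; ring
  · refine (opp (-a) ha').congr fun p => ?_
    simp [fr]; ring
  · refine (opp a ha).congr fun p => ?_
    simp [fr]; ring
  · refine (same a).congr fun p => ?_
    simp [fr]; ring

lemma fr_inj {a : ℝ} (ha : ∀ n : ℤ, a ≠ n) (σ : Bool) {k j : ℤ} (h : fr a (σ, k) = fr a (σ, j)) :
    k = j := by
  by_contra hne
  have h0 : (k : ℝ) - j ≠ 0 := sub_ne_zero.2 (by exact_mod_cast hne)
  cases σ
  · simp only [fr] at h
    refine ha (-(k + j)) (mul_left_cancel₀ h0 ?_)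
    push_cast at h ⊢
    linarith
  · simp only [fr] at h
    refine ha (k + j) (mul_left_cancel₀ h0 ?_)
    push_cast at h ⊢
    linarith

/-- The solution of the beam equation with coefficients supported in `K`. -/
noncomputable def sol (K : Finset ℤ) (cp cm : ℤ → ℂ) (t x : ℝ) : ℂ :=
  cp 0 + cm 0 * t + ∑ k ∈ K.erase 0,
    (cp k * cexp (I * k ^ 2 * t) + cm k * cexp (-(I * k ^ 2 * t))) * cexp (I * k * x)

/-- rotated coefficients -/
noncomputable def dd (cp cm : ℤ → ℂ) (t x : ℝ) (i : Bool × ℤ) : ℂ :=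
  if i.2 = 0 then (if i.1 then cp 0 + cm 0 * t else 0)
  else (if i.1 then cp i.2 * e (i.2 ^ 2) t else cm i.2 * e (-i.2 ^ 2) t) * e i.2 x

lemma norm_dd (cp cm : ℤ → ℂ) (t x : ℝ) (σ : Bool) {k : ℤ} (hk : k ≠ 0) :
    ‖dd cp cm t x (σ, k)‖ = ‖(if σ then cp else cm) k‖ := by
  cases σ <;> simp [dd, hk, norm_e]

open Classical in
noncomputable def cc (a : ℝ) (K : Finset ℤ) (d : Bool × ℤ → ℂ) (l : ℝ) : ℂ :=
  ∑ i ∈ (univ ×ˢ insert 0 (K.erase 0)) with fr a i = l, d i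

open Classical in
lemma sol_eq (a t₀ x₀ : ℝ) (K : Finset ℤ) (cp cm : ℤ → ℂ) :
    (fun t : ℝ => sol K cp cm (t₀ + t) (x₀ - a * t)) = fun t : ℝ => cm 0 * t +
      X ((univ ×ˢ insert 0 (K.erase 0)).image (fr a)) (cc a K (dd cp cm t₀ x₀)) t := by
  funext t
  have h1 : X ((univ ×ˢ insert 0 (K.erase 0)).image (fr a)) (cc a K (dd cp cm t₀ x₀)) t
      = ∑ i ∈ univ ×ˢ insert 0 (K.erase 0), dd cp cm t₀ x₀ i * e (fr a i) t := by
    rw [← Finset.sum_fiberwise_of_maps_to (fun i hi => Finset.mem_image_of_mem (fr a) hi)]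
    refine Finset.sum_congr rfl fun l _ => ?_
    rw [cc, Finset.sum_mul]
    exact Finset.sum_congr rfl fun i hi => by rw [(Finset.mem_filter.1 hi).2]
  rw [h1, Finset.sum_product_right, Finset.sum_insert (by simp), sol]
  have h2 : ∑ k ∈ K.erase 0, (cp k * cexp (I * k ^ 2 * ((t₀ + t : ℝ) : ℂ))
      + cm k * cexp (-(I * k ^ 2 * ((t₀ + t : ℝ) : ℂ)))) * cexp (I * k * ((x₀ - a * t : ℝ) : ℂ))
      = ∑ k ∈ K.erase 0, ∑ σ : Bool, dd cp cm t₀ x₀ (σ, k) * e (fr a (σ, k)) t := by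
    refine Finset.sum_congr rfl fun k hk => ?_
    simp only [Fintype.sum_bool, dd, (Finset.mem_erase.1 hk).1, if_false, if_true, fr, e,
      Bool.false_eq_true, add_mul, mul_assoc (cp k), mul_assoc (cm k), ← Complex.exp_add]
    congr 3 <;> push_cast <;> ring
  rw [h2]
  simp [dd, fr, e_zero]
  ring

end Pool.Agent.H61.Ig
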