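import Pool.Agent.H61.IgC

namespace Pool.Agent.H61.Ig

open Finset Complex

lemma cc_one {a : ℝ} (ha : ∀ n : ℤ, a ≠ n) (K : Finset ℤ) (d : Bool × ℤ → ℂ)
    (hd : ∀ i : Bool × ℤ, i.2 ∉ insert 0 (K.erase 0) → d i = 0) (σ : Bool) (k : ℤ)
    (h : ∀ n, fr a (!σ, n) ≠ fr a (σ, k)) : cc a K d (fr a (σ, k)) = d (σ, k) := by
  rw [cc, Finset.sum_filter, Finset.sum_eq_single (σ, k)]
  · simp
  · rintro ⟨τ, j⟩ _ hne
    rw [if_neg]
    intro he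
    by_cases hτ : τ = σ
    · subst hτ; exact hne (by rw [fr_inj ha _ he])
    · exact h j (by rwa [show (!σ) = τ by cases σ <;> cases τ <;> simp_all])
  · intro hn
    rw [hd (σ, k) (by simpa using hn)]; simp

lemma cc_two {a : ℝ} (ha : ∀ n : ℤ, a ≠ n) (K : Finset ℤ) (d : Bool × ℤ → ℂ)
    (hd : ∀ i : Bool × ℤ, i.2 ∉ insert 0 (K.erase 0) → d i = 0) (σ : Bool) (k n : ℤ)
    (h : fr a (!σ, n) = fr a (σ, k)) : cc a K d (fr a (σ, k)) = d (σ, k) + d (!σ, n) := by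
  rw [cc, Finset.sum_filter, Finset.sum_eq_add (σ, k) (!σ, n) (by simp)]
  · simp [h]
  · rintro ⟨τ, j⟩ _ hne
    rw [if_neg]
    intro he
    by_cases hτ : τ = σ
    · subst hτ; exact hne.1 (by rw [fr_inj ha _ he])
    · obtain rfl : τ = !σ := by cases σ <;> cases τ <;> simp_all
      exact hne.2 (by rw [fr_inj ha _ (he.trans h.symm)])
  · intro hn
    rw [hd (σ, k) (by simpa using hn)]; simp
  · intro hn
    rw [hd (!σ, n) (by simpa using hn)]; simp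

lemma sq_le_two (u v : ℂ) : ‖u‖ ^ 2 ≤ 2 * ‖u + v‖ ^ 2 + 2 * ‖v‖ ^ 2 := by
  have h := norm_sub_le (u + v) v
  rw [add_sub_cancel_right] at h
  nlinarith [norm_nonneg u, norm_nonneg (u + v), norm_nonneg v, sq_nonneg (‖u + v‖ - ‖v‖)]

noncomputable def obs (a t₀ x₀ T : ℝ) (K : Finset ℤ) (cp cm : ℤ → ℂ) : ℝ :=
  J (fun t : ℝ => sol K cp cm (t₀ + t) (x₀ - a * t)) T

lemma seg {a : ℝ} (ha : ∀ n : ℤ, a ≠ n) (t₀ x₀ : ℝ) {T : ℝ} (hT : 0 < T) :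
    ∃ C > 0, ∀ (K : Finset ℤ) (cp cm : ℤ → ℂ), (∀ k ∉ K, cp k = 0 ∧ cm k = 0) →
      (∀ σ : Bool, ‖(if σ then cp else cm) 0‖ ^ 2 ≤ C * obs a t₀ x₀ T K cp cm) ∧
      (∀ (σ : Bool) (L : Finset ℤ), (∀ k ∈ L, k ≠ 0 ∧ ∀ n, fr a (!σ, n) ≠ fr a (σ, k)) →
        ∑ k ∈ L, ‖(if σ then cp else cm) k‖ ^ 2 ≤ C * obs a t₀ x₀ T K cp cm) ∧
      ∀ (σ : Bool) (k n : ℤ), k ≠ 0 → fr a (!σ, n) = fr a (σ, k) →
        ‖(if σ then cp else cm) k‖ ^ 2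
          ≤ C * obs a t₀ x₀ T K cp cm + 2 * ‖(if (!σ) then cp else cm) n‖ ^ 2 := by
  classical
  obtain ⟨C, hC, h⟩ := riesz_lin (fr a) (fr_summable a ha) ⟨(true, 0), by simp [fr]⟩ hT
  refine ⟨(2 + 2 * t₀ ^ 2) * C, by positivity, fun K cp cm hK => ?_⟩
  obtain ⟨h1, h2⟩ := h ((univ ×ˢ insert 0 (K.erase 0)).image (fr a)) (cc a K (dd cp cm t₀ x₀))
    (cm 0) (fun l hl => by
      obtain ⟨i, _, rfl⟩ := Finset.mem_image.1 hl
      exact ⟨i, rfl⟩)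
  rw [← sol_eq] at h1 h2
  change _ ≤ C * obs a t₀ x₀ T K cp cm at h1 h2
  have hO : 0 ≤ C * obs a t₀ x₀ T K cp cm := mul_nonneg hC.le (J_nonneg _ hT.le)
  rw [mul_assoc]
  set O := C * obs a t₀ x₀ T K cp cm
  have hd : ∀ i : Bool × ℤ, i.2 ∉ insert 0 (K.erase 0) → dd cp cm t₀ x₀ i = 0 := by
    intro i hi
    simp only [Finset.mem_insert, Finset.mem_erase, not_or, not_and] at hi
    simp [dd, hi.1, hK _ (hi.2 hi.1)]
  have h3 : ∀ L : Finset ℝ, ∑ l ∈ L, ‖cc a K (dd cp cm t₀ x₀) l‖ ^ 2 ≤ O := by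
    intro L
    rw [← Finset.sum_filter_ne_zero]
    refine le_trans (Finset.sum_le_sum_of_subset_of_nonneg (fun l hl => ?_)
      fun _ _ _ => by positivity) h2
    by_contra hc
    apply (Finset.mem_filter.1 hl).2
    rw [cc, Finset.sum_eq_zero, norm_zero, sq, mul_zero]
    intro i hi
    exact absurd (Finset.mem_image.2 ⟨i, (Finset.mem_filter.1 hi).1, (Finset.mem_filter.1 hi).2⟩) hc
  have h4 : ∀ l, ‖cc a K (dd cp cm t₀ x₀) l‖ ^ 2 ≤ O := fun l => by simpa using h3 {l}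
  have h5 : 0 ≤ t₀ ^ 2 * O := by positivity
  refine ⟨fun σ => ?_, fun σ L hL => ?_, fun σ k n hk hkn => ?_⟩
  · cases σ
    · simp only [Bool.false_eq_true, if_false]; nlinarith
    · have h6 := h4 (fr a (true, 0))
      rw [cc_two ha K _ hd true 0 0 (by simp [fr])] at h6
      have h7 := sq_le_two (cp 0) (cm 0 * t₀)
      simp only [dd, if_true, Bool.not_true, Bool.false_eq_true, if_false, add_zero] at h6
      rw [norm_mul, mul_pow, norm_real, Real.norm_eq_abs, sq_abs] at h7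
      simp only [if_true]
      nlinarith [mul_le_mul_of_nonneg_left h1 (sq_nonneg t₀)]
  · have h6 := h3 (L.image fun k => fr a (σ, k))
    rw [Finset.sum_image (fun k _ j _ h => fr_inj ha σ h)] at h6
    rw [Finset.sum_congr rfl fun k hk => by
      rw [cc_one ha K _ hd σ k (hL k hk).2, norm_dd _ _ _ _ _ (hL k hk).1]] at h6
    nlinarith
  · have h6 := h4 (fr a (σ, k))
    have hn : n ≠ 0 := by
      rintro rfl
      exact hk (fr_inj ha σ (hkn.symm.trans (by cases σ <;> simp [fr])))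
    rw [cc_two ha K _ hd σ k n hkn] at h6
    have h7 := sq_le_two (dd cp cm t₀ x₀ (σ, k)) (dd cp cm t₀ x₀ (!σ, n))
    rw [norm_dd _ _ _ _ _ hk, norm_dd _ _ _ _ _ hn] at h7
    nlinarith

lemma pair_box {a : ℝ} {k n : ℤ} (h : fr a (false, n) = fr a (true, k)) :
    k ∈ Finset.Icc (-⌈2 * |a|⌉) ⌈2 * |a|⌉ ∧ n ∈ Finset.Icc (-⌈2 * |a|⌉) ⌈2 * |a|⌉ := by
  simp only [fr, Bool.false_eq_true, if_false, if_true] at h
  refine ⟨box a k (n + a / 2) (by nlinarith), ?_⟩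
  simpa using box (-a) n (k - a / 2) (by nlinarith)

theorem two_seg {a₁ a₂ : ℝ} (h₁ : ∀ n : ℤ, a₁ ≠ n) (h₂ : ∀ n : ℤ, a₂ ≠ n) (h : 1 / a₂ < 1 / a₁)
    (t₁ x₁ t₂ x₂ : ℝ) {T : ℝ} (hT : 0 < T) :
    ∃ C, ∀ (K : Finset ℤ) (cp cm : ℤ → ℂ), (∀ k ∉ K, cp k = 0 ∧ cm k = 0) →
      ∑ k ∈ K, (‖cp k‖ ^ 2 + ‖cm k‖ ^ 2)
        ≤ C * (obs a₁ t₁ x₁ T K cp cm + obs a₂ t₂ x₂ T K cp cm) := by
  classical
  obtain ⟨C₁, hC₁, H₁⟩ := seg h₁ t₁ x₁ hT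
  obtain ⟨C₂, hC₂, H₂⟩ := seg h₂ t₂ x₂ hT
  have o₁ : ∀ K cp cm, 0 ≤ obs a₁ t₁ x₁ T K cp cm := fun _ _ _ => J_nonneg _ hT.le
  have o₂ : ∀ K cp cm, 0 ≤ obs a₂ t₂ x₂ T K cp cm := fun _ _ _ => J_nonneg _ hT.le
  set Ctl : Bool → ℤ → Prop := fun σ k => ∃ C, ∀ (K : Finset ℤ) (cp cm : ℤ → ℂ),
    (∀ k ∉ K, cp k = 0 ∧ cm k = 0) → ‖(if σ then cp else cm) k‖ ^ 2
      ≤ C * (obs a₁ t₁ x₁ T K cp cm + obs a₂ t₂ x₂ T K cp cm) with hCtl
  have s₁ : ∀ σ k, (k ≠ 0 → ∀ n, fr a₁ (!σ, n) = fr a₁ (σ, k) → Ctl (!σ) n) → Ctl σ k := by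
    intro σ k hk
    by_cases h0 : k = 0
    · subst h0
      exact ⟨C₁, fun K cp cm hK => by
        nlinarith [(H₁ K cp cm hK).1 σ, mul_nonneg hC₁.le (o₂ K cp cm)]⟩
    by_cases hn : ∃ n, fr a₁ (!σ, n) = fr a₁ (σ, k)
    · obtain ⟨n, hn⟩ := hn
      obtain ⟨C, hC⟩ := hk h0 n hn
      exact ⟨C₁ + 2 * C, fun K cp cm hK => by
        nlinarith [(H₁ K cp cm hK).2.2 σ k n h0 hn, hC K cp cm hK, mul_nonneg hC₁.le (o₂ K cp cm)]⟩
    · refine ⟨C₁, fun K cp cm hK => ?_⟩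
      have := (H₁ K cp cm hK).2.1 σ {k} (by simpa [h0] using hn)
      rw [Finset.sum_singleton] at this
      nlinarith [mul_nonneg hC₁.le (o₂ K cp cm)]
  have s₂ : ∀ σ k, (∀ n, fr a₂ (!σ, n) = fr a₂ (σ, k) → Ctl (!σ) n) → Ctl σ k := by
    intro σ k hk
    by_cases h0 : k = 0
    · subst h0
      exact s₁ σ 0 fun h => absurd rfl h
    by_cases hn : ∃ n, fr a₂ (!σ, n) = fr a₂ (σ, k)
    · obtain ⟨n, hn⟩ := hn
      obtain ⟨C, hC⟩ := hk n hn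
      exact ⟨C₂ + 2 * C, fun K cp cm hK => by
        nlinarith [(H₂ K cp cm hK).2.2 σ k n h0 hn, hC K cp cm hK, mul_nonneg hC₂.le (o₁ K cp cm)]⟩
    · refine ⟨C₂, fun K cp cm hK => ?_⟩
      have := (H₂ K cp cm hK).2.1 σ {k} (by simpa [h0] using hn)
      rw [Finset.sum_singleton] at this
      nlinarith [mul_nonneg hC₂.le (o₁ K cp cm)]
  set Φ : ℤ → ℝ := fun k => k - (1 / a₁ + 1 / a₂) / 2 * (k : ℝ) ^ 2 with hΦ
  set B₂ := Finset.Icc (-⌈2 * |a₂|⌉) ⌈2 * |a₂|⌉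
  have ha₁ : a₁ ≠ 0 := by simpa using h₁ 0
  have ha₂ : a₂ ≠ 0 := by simpa using h₂ 0
  have hp : ∀ m, ∀ k, (B₂.filter fun j => Φ j < Φ k).card = m → Ctl true k := by
    intro m
    induction m using Nat.strong_induction_on with
    | _ m ih =>
      intro k hm
      refine s₁ true k fun hk n hn => s₂ false n fun j hj => ih _ ?_ j rfl
      have hj' : fr a₂ (false, n) = fr a₂ (true, j) := hj.symm
      have hlt : Φ j < Φ k := by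
        simp only [fr, Bool.not_true, Bool.false_eq_true, if_false, if_true] at hn hj'
        have e1 : (k : ℝ) - n = (k ^ 2 + n ^ 2) * (1 / a₁) := by field_simp; linarith
        have e2 : (j : ℝ) - n = (j ^ 2 + n ^ 2) * (1 / a₂) := by field_simp; linarith
        have hk' : 0 < (k : ℝ) ^ 2 := by positivity
        simp only [hΦ]
        nlinarith [mul_pos (sub_pos.2 h) hk', mul_nonneg (sub_pos.2 h).le (sq_nonneg (n : ℝ)),
          mul_nonneg (sub_pos.2 h).le (sq_nonneg (j : ℝ))]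
      rw [← hm]
      refine Finset.card_lt_card ⟨fun i hi => ?_, fun hs => ?_⟩
      · rw [Finset.mem_filter] at hi ⊢
        exact ⟨hi.1, hi.2.trans hlt⟩
      · exact lt_irrefl _ (Finset.mem_filter.1 (hs (Finset.mem_filter.2
          ⟨(pair_box hj').1, hlt⟩))).2
  have hall : ∀ σ k, Ctl σ k := by
    intro σ k
    cases σ
    · exact s₂ false k fun n _ => hp _ n rfl
    · exact hp _ k rfl
  choose D hD using hall
  set B₁ := Finset.Icc (-⌈2 * |a₁|⌉) ⌈2 * |a₁|⌉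
  have h0 : (0 : ℤ) ∈ B₁ := by
    have : 0 ≤ ⌈2 * |a₁|⌉ := Int.ceil_nonneg (by positivity)
    exact Finset.mem_Icc.2 ⟨by omega, this⟩
  refine ⟨2 * C₁ + ∑ k ∈ B₁, (D true k + D false k), fun K cp cm hK => ?_⟩
  have e1 := (H₁ K cp cm hK).2.1 true (K \ B₁) fun k hk =>
    ⟨fun h => (Finset.mem_sdiff.1 hk).2 (h ▸ h0),
      fun n hn => (Finset.mem_sdiff.1 hk).2 (pair_box hn).1⟩
  have e2 := (H₁ K cp cm hK).2.1 false (K \ B₁) fun k hk =>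
    ⟨fun h => (Finset.mem_sdiff.1 hk).2 (h ▸ h0),
      fun n hn => (Finset.mem_sdiff.1 hk).2 (pair_box hn.symm).2⟩
  simp only [if_true, Bool.false_eq_true, if_false] at e1 e2
  have e3 : ∑ k ∈ B₁, (‖cp k‖ ^ 2 + ‖cm k‖ ^ 2) ≤ (∑ k ∈ B₁, (D true k + D false k))
      * (obs a₁ t₁ x₁ T K cp cm + obs a₂ t₂ x₂ T K cp cm) := by
    rw [Finset.sum_mul]
    refine Finset.sum_le_sum fun k _ => ?_
    rw [add_mul]
    exact add_le_add (hD true k K cp cm hK) (hD false k K cp cm hK)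
  have e4 : ∑ k ∈ K, (‖cp k‖ ^ 2 + ‖cm k‖ ^ 2) ≤ ∑ k ∈ K \ B₁, (‖cp k‖ ^ 2 + ‖cm k‖ ^ 2)
      + ∑ k ∈ B₁, (‖cp k‖ ^ 2 + ‖cm k‖ ^ 2) := by
    rw [← Finset.sum_union Finset.sdiff_disjoint]
    exact Finset.sum_le_sum_of_subset_of_nonneg (by simp [Finset.subset_iff]; tauto)
      fun _ _ _ => by positivity
  rw [Finset.sum_add_distrib (s := K \ B₁)] at e4
  nlinarith [mul_nonneg hC₁.le (o₂ K cp cm)]

end Pool.Agent.H61.Ig
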