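import Mathlib

set_option autoImplicit false

namespace Pool.Agent.H61.IrA

open Set Filter Topology Complex

noncomputable def a (k : ℕ) (z : ℂ) : ℂ := (1 - 2 ^ k * z)⁻¹

noncomputable def e (k : ℕ) (z : ℂ) : ℝ := 2 ^ k * ‖a k z‖ ^ 2

lemma e_nonneg (k : ℕ) (z : ℂ) : 0 ≤ e k z := by unfold e; positivity

lemma norm_a_le {k j : ℕ} {z : ℂ} (h : 2 * 2 ^ j ≤ 2 ^ k * ‖z‖) :
    (1 - 2 ^ k * z) ≠ 0 ∧ ‖a k z‖ ≤ (1 / 2) ^ j := by
  have h1 : (1 : ℝ) ≤ 2 ^ j := one_le_pow₀ (by norm_num)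
  have h2 : (2 : ℝ) ^ j ≤ ‖1 - 2 ^ k * z‖ := by
    have := norm_sub_norm_le (2 ^ k * z) (2 ^ k * z - 1 : ℂ)
    have h3 : ‖(2 : ℂ) ^ k * z‖ = 2 ^ k * ‖z‖ := by simp
    rw [norm_sub_rev (1 : ℂ)]
    have h4 : ‖(2 : ℂ) ^ k * z - (2 ^ k * z - 1)‖ = 1 := by simp
    linarith
  refine ⟨fun h0 => by rw [h0, norm_zero] at h2; linarith, ?_⟩
  unfold a
  rw [norm_inv, one_div, inv_pow]
  exact inv_anti₀ (by positivity) h2

lemma exists_K {z : ℂ} (hz : z ≠ 0) : ∃ K : ℕ, 4 ≤ 2 ^ K * ‖z‖ := by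
  have hp : 0 < ‖z‖ := norm_pos_iff.2 hz
  obtain ⟨K, hK⟩ := pow_unbounded_of_one_lt (4 / ‖z‖) (by norm_num : (1 : ℝ) < 2)
  exact ⟨K, by rw [div_lt_iff₀ hp] at hK; exact hK.le⟩

lemma tail_le {K : ℕ} {z : ℂ} (h : 2 ≤ 2 ^ K * ‖z‖) (j : ℕ) :
    (1 - 2 ^ (j + K) * z) ≠ 0 ∧ ‖a (j + K) z‖ ≤ (1 / 2) ^ j := by
  apply norm_a_le
  rw [pow_add, mul_assoc, mul_comm (2 : ℝ) (2 ^ j)]
  exact mul_le_mul_of_nonneg_left h (by positivity)

lemma summable_norm_a {z : ℂ} (hz : z ≠ 0) : Summable fun k => ‖a k z‖ := by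
  obtain ⟨K, hK⟩ := exists_K hz
  rw [← summable_nat_add_iff K]
  exact Summable.of_nonneg_of_le (fun _ => norm_nonneg _)
    (fun j => (tail_le (by linarith) j).2) summable_geometric_two

lemma summable_a {z : ℂ} (hz : z ≠ 0) : Summable fun k => a k z :=
  (summable_norm_a hz).of_norm

lemma summable_e {z : ℂ} (hz : z ≠ 0) : Summable fun k => e k z := by
  obtain ⟨K, hK⟩ := exists_K hz
  rw [← summable_nat_add_iff K]
  refine Summable.of_nonneg_of_le (fun _ => e_nonneg _ _) (fun j => ?_)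
    (summable_geometric_two.mul_left (2 ^ K))
  have h := (tail_le (K := K) (z := z) (by linarith) j).2
  unfold e
  have h2 : ‖a (j + K) z‖ ^ 2 ≤ ((1 / 2) ^ j) ^ 2 := pow_le_pow_left₀ (norm_nonneg _) h 2
  have h3 : (2 : ℝ) ^ j * (1 / 2) ^ j = 1 := by rw [← mul_pow]; norm_num
  calc (2 : ℝ) ^ (j + K) * ‖a (j + K) z‖ ^ 2 ≤ 2 ^ (j + K) * ((1 / 2) ^ j) ^ 2 :=
        mul_le_mul_of_nonneg_left h2 (by positivity)
    _ = 2 ^ K * (1 / 2) ^ j * (2 ^ j * (1 / 2) ^ j) := by rw [pow_add]; ring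
    _ = 2 ^ K * (1 / 2) ^ j := by rw [h3, mul_one]

noncomputable def mu : ℝ := 1 - (1 / 4) * ∑' k, e k I

noncomputable def bb : ℝ := -(1 / 4) * (∑' k, a k I).re

noncomputable def phi (z : ℂ) : ℂ := (mu : ℂ) * z + (bb : ℂ) + (1 / 4) * ∑' k, a k z

noncomputable def EE (z : ℂ) : ℝ := mu + (1 / 4) * ∑' k, e k z

lemma norm_a_I (k : ℕ) : ‖a k I‖ ≤ (1 / 2) ^ k := by
  unfold a
  rw [norm_inv, one_div, inv_pow]
  refine inv_anti₀ (by positivity) ?_
  have := Complex.abs_im_le_norm (1 - 2 ^ k * I)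
  have h2 : (1 - 2 ^ k * I : ℂ).im = -2 ^ k := by
    have : ((2 : ℂ) ^ k) = ((2 ^ k : ℝ) : ℂ) := by push_cast; rfl
    rw [this]; simp only [sub_im, one_im, mul_im, ofReal_re, I_im, ofReal_im, I_re]; ring
  rw [h2, abs_neg, abs_of_nonneg (by positivity)] at this
  exact this

lemma mu_ge : 1 / 2 ≤ mu := by
  have h : ∑' k, e k I ≤ ∑' k : ℕ, (1 / 2 : ℝ) ^ k := by
    refine (summable_e I_ne_zero).tsum_le_tsum (fun k => ?_) summable_geometric_two
    unfold e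
    have h2 : ‖a k I‖ ^ 2 ≤ ((1 / 2) ^ k) ^ 2 := pow_le_pow_left₀ (norm_nonneg _) (norm_a_I k) 2
    have h3 : (2 : ℝ) ^ k * (1 / 2) ^ k = 1 := by rw [← mul_pow]; norm_num
    calc (2 : ℝ) ^ k * ‖a k I‖ ^ 2 ≤ 2 ^ k * ((1 / 2) ^ k) ^ 2 :=
          mul_le_mul_of_nonneg_left h2 (by positivity)
      _ = (1 / 2) ^ k * (2 ^ k * (1 / 2) ^ k) := by ring
      _ = (1 / 2) ^ k := by rw [h3, mul_one]
  rw [tsum_geometric_two] at h
  unfold mu; linarith

lemma mu_le : mu ≤ 7 / 8 := by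
  have h : e 0 I ≤ ∑' k, e k I :=
    (summable_e I_ne_zero).le_tsum 0 (fun k _ => e_nonneg _ _)
  have h2 : e 0 I = 1 / 2 := by
    unfold e a
    rw [norm_inv, inv_pow, ← Complex.normSq_eq_norm_sq]
    simp [Complex.normSq_apply]; norm_num
  unfold mu; linarith

lemma re_a (k : ℕ) (z : ℂ) : (a k z).re = (1 - 2 ^ k * z.re) * ‖a k z‖ ^ 2 := by
  unfold a
  rw [Complex.inv_re, norm_inv, inv_pow, ← Complex.normSq_eq_norm_sq, div_eq_mul_inv]
  congr 1
  have : ((2 : ℂ) ^ k) = ((2 ^ k : ℝ) : ℂ) := by push_cast; rfl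
  rw [this]; simp only [sub_re, one_re, mul_re, ofReal_re, ofReal_im]; ring

lemma im_a (k : ℕ) (z : ℂ) : (a k z).im = z.im * e k z := by
  unfold e a
  rw [Complex.inv_im, norm_inv, inv_pow, ← Complex.normSq_eq_norm_sq, div_eq_mul_inv]
  have : ((2 : ℂ) ^ k) = ((2 ^ k : ℝ) : ℂ) := by push_cast; rfl
  rw [this]; simp only [sub_im, one_im, mul_im, ofReal_re, ofReal_im]; ring

lemma bb_le : bb ≤ 0 := by
  unfold bb
  rw [Complex.re_tsum (summable_a I_ne_zero)]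
  have : 0 ≤ ∑' k, (a k I).re := tsum_nonneg fun k => by
    rw [re_a]; simp
  linarith

lemma bb_ge : -(1 / 2) ≤ bb := by
  unfold bb
  have h1 : ‖∑' k, a k I‖ ≤ ∑' k : ℕ, (1 / 2 : ℝ) ^ k :=
    tsum_of_norm_bounded summable_geometric_two.hasSum norm_a_I
  rw [tsum_geometric_two] at h1
  have := Complex.re_le_norm (∑' k, a k I)
  linarith

lemma EE_ge (z : ℂ) : 1 / 2 ≤ EE z := by
  have : 0 ≤ ∑' k, e k z := tsum_nonneg fun k => e_nonneg _ _
  have := mu_ge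
  unfold EE; linarith

lemma re_phi {z : ℂ} (hz : z ≠ 0) :
    (phi z).re = mu * z.re + bb + (1 / 4) * ∑' k, (a k z).re := by
  rw [← Complex.re_tsum (summable_a hz)]
  unfold phi
  have : (1 / 4 : ℂ) = ((1 / 4 : ℝ) : ℂ) := by push_cast; rfl
  rw [this]
  simp only [add_re, mul_re, ofReal_re, ofReal_im]; ring

lemma im_phi {z : ℂ} (hz : z ≠ 0) : (phi z).im = z.im * EE z := by
  have h : (∑' k, a k z).im = z.im * ∑' k, e k z := by
    rw [Complex.im_tsum (summable_a hz), ← tsum_mul_left]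
    exact tsum_congr fun k => im_a k z
  unfold phi EE
  have : (1 / 4 : ℂ) = ((1 / 4 : ℝ) : ℂ) := by push_cast; rfl
  rw [this]
  simp only [add_im, mul_im, ofReal_re, ofReal_im, h]; ring

lemma phi_I : phi I = I := by
  apply Complex.ext
  · unfold phi bb
    have : (1 / 4 : ℂ) = ((1 / 4 : ℝ) : ℂ) := by push_cast; rfl
    rw [this]
    simp only [add_re, mul_re, ofReal_re, ofReal_im, I_re, I_im]; ring
  · rw [im_phi I_ne_zero]; unfold EE mu; simp

/-- regular points -/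
def U (z : ℂ) : Prop := z ≠ 0 ∧ ∀ k : ℕ, (1 - 2 ^ k * z : ℂ) ≠ 0

lemma U_of_im {z : ℂ} (h : 0 < z.im) : U z := by
  refine ⟨fun h0 => by rw [h0] at h; simp at h, fun k h0 => ?_⟩
  have := congrArg Complex.im h0
  have h2 : ((2 : ℂ) ^ k) = ((2 ^ k : ℝ) : ℂ) := by push_cast; rfl
  rw [h2] at this
  simp only [sub_im, one_im, mul_im, ofReal_re, ofReal_im, zero_im] at this
  have : (0 : ℝ) < 2 ^ k * z.im := by positivity
  linarith

lemma U_of_real {x : ℝ} (h : x < 0 ∨ 1 < x) : U (x : ℂ) := by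
  refine ⟨fun h0 => ?_, fun k h0 => ?_⟩
  · have : x = 0 := by exact_mod_cast h0
    rcases h with h | h <;> linarith
  · have h1 : (1 - 2 ^ k * x : ℝ) = 0 := by exact_mod_cast h0
    have h2 : (1 : ℝ) ≤ 2 ^ k := one_le_pow₀ (by norm_num)
    rcases h with h | h <;> nlinarith

lemma julia {z w : ℂ} (hz : U z) (hw : U w) :
    ‖phi z - phi w‖ ^ 2 ≤ ‖z - w‖ ^ 2 * (EE z * EE w) := by
  have hc : ∀ k : ℕ, ‖(2 : ℂ) ^ k * a k z * a k w‖ = 2 ^ k * ‖a k z‖ * ‖a k w‖ := by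
    intro k; simp
  have amgm : ∀ t : ℝ, 0 < t → ∀ k : ℕ,
      ‖(2 : ℂ) ^ k * a k z * a k w‖ ≤ (t / 2) * e k z + (1 / (2 * t)) * e k w := by
    intro t ht k
    rw [hc]; unfold e
    have h1 : (0 : ℝ) < 2 ^ k := by positivity
    have h2 : ‖a k z‖ * ‖a k w‖ ≤ (t / 2) * ‖a k z‖ ^ 2 + (1 / (2 * t)) * ‖a k w‖ ^ 2 := by
      have h3 : (t / 2) * ‖a k z‖ ^ 2 + (1 / (2 * t)) * ‖a k w‖ ^ 2 - ‖a k z‖ * ‖a k w‖
          = (t * ‖a k z‖ - ‖a k w‖) ^ 2 / (2 * t) := by field_simp; ring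
      have h4 : 0 ≤ (t * ‖a k z‖ - ‖a k w‖) ^ 2 / (2 * t) := by positivity
      linarith
    nlinarith [mul_le_mul_of_nonneg_left h2 h1.le]
  have hs : ∀ t : ℝ, HasSum (fun k => (t / 2) * e k z + (1 / (2 * t)) * e k w)
      ((t / 2) * ∑' k, e k z + (1 / (2 * t)) * ∑' k, e k w) := fun t =>
    ((summable_e hz.1).hasSum.mul_left _).add ((summable_e hw.1).hasSum.mul_left _)
  set S : ℂ := ∑' k : ℕ, (2 : ℂ) ^ k * a k z * a k w with hS
  have hd : phi z - phi w = (z - w) * ((mu : ℂ) + (1 / 4) * S) := by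
    have h1 : (∑' k, a k z) - ∑' k, a k w = (z - w) * S := by
      rw [← (summable_a hz.1).tsum_sub (summable_a hw.1), hS, ← tsum_mul_left]
      refine tsum_congr fun k => ?_
      have := hz.2 k; have := hw.2 k
      unfold a; field_simp; ring
    unfold phi
    linear_combination (1 / 4) * h1
  set N := ‖(mu : ℂ) + (1 / 4) * S‖ with hN
  have hmu : 0 ≤ mu := by linarith [mu_ge]
  have hb : ∀ t : ℝ, 0 < t → N ≤ (t / 2) * EE z + (1 / (2 * t)) * EE w := by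
    intro t ht
    have h1 : ‖S‖ ≤ _ := tsum_of_norm_bounded (hs t) (amgm t ht)
    have h2 : N ≤ mu + (1 / 4) * ‖S‖ := by
      refine (norm_add_le _ _).trans ?_
      rw [norm_mul, Complex.norm_real, Real.norm_of_nonneg hmu]; norm_num
    have h3 : 1 ≤ t / 2 + 1 / (2 * t) := by
      have : t / 2 + 1 / (2 * t) - 1 = (t - 1) ^ 2 / (2 * t) := by field_simp; ring
      have h4 : 0 ≤ (t - 1) ^ 2 / (2 * t) := by positivity
      linarith
    unfold EE
    nlinarith [mul_le_mul_of_nonneg_left h3 hmu]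
  have hEz : 0 < EE z := by linarith [EE_ge z]
  have hEw : 0 < EE w := by linarith [EE_ge w]
  have hN2 : N ^ 2 ≤ EE z * EE w := by
    rcases (norm_nonneg ((mu : ℂ) + (1 / 4) * S)).eq_or_lt with h0 | h0
    · rw [hN, ← h0, sq, mul_zero]; positivity
    · have h1 := hb (N / EE z) (div_pos h0 hEz)
      have hN0 : 0 < N := h0
      have h2 : N / EE z / 2 * EE z + 1 / (2 * (N / EE z)) * EE w
          = N / 2 + EE z * EE w / (2 * N) := by field_simp
      rw [h2] at h1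
      have h3 : N / 2 ≤ EE z * EE w / (2 * N) := by linarith
      rw [le_div_iff₀ (by positivity)] at h3
      nlinarith
  rw [hd, norm_mul, mul_pow]
  exact mul_le_mul_of_nonneg_left hN2 (by positivity)

lemma differentiableAt_phi {z : ℂ} (hz : U z) : DifferentiableAt ℂ phi z := by
  obtain ⟨K, hK⟩ := exists_K hz.1
  have hp : 0 < ‖z‖ := norm_pos_iff.2 hz.1
  have hb : ∀ w ∈ Metric.ball z (‖z‖ / 2), 2 ≤ 2 ^ K * ‖w‖ := by
    intro w hw
    rw [mem_ball_iff_norm] at hw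
    have := norm_sub_norm_le z w
    rw [norm_sub_rev] at this
    have h2 : ‖z‖ / 2 ≤ ‖w‖ := by linarith
    have := mul_le_mul_of_nonneg_left h2 (by positivity : (0 : ℝ) ≤ 2 ^ K)
    linarith
  have hmem : Metric.ball z (‖z‖ / 2) ∈ 𝓝 z := Metric.ball_mem_nhds _ (by positivity)
  have ht : DifferentiableOn ℂ (fun w => ∑' j, a (j + K) w) (Metric.ball z (‖z‖ / 2)) := by
    refine differentiableOn_tsum_of_summable_norm summable_geometric_two (fun j w hw => ?_)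
      Metric.isOpen_ball (fun j w hw => (tail_le (hb w hw) j).2)
    refine DifferentiableAt.differentiableWithinAt ?_
    unfold a
    exact DifferentiableAt.inv (by fun_prop) (tail_le (hb w hw) j).1
  have hh : DifferentiableAt ℂ (fun w => ∑ k ∈ Finset.range K, a k w) z := by
    refine DifferentiableAt.fun_sum fun k _ => ?_
    unfold a
    exact DifferentiableAt.inv (by fun_prop) (hz.2 k)
  have hS : DifferentiableAt ℂ (fun w => ∑' k, a k w) z := by
    refine (hh.add (ht.differentiableAt hmem)).congr_of_eventuallyEq ?_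
    filter_upwards [hmem] with w hw
    have hw0 : w ≠ 0 := by
      intro h0; have := hb w hw; rw [h0] at this; simp at this; linarith
    exact ((summable_a hw0).sum_add_tsum_nat_add K).symm
  unfold phi
  fun_prop

lemma far {z : ℂ} (h : 2 ≤ ‖z‖) : ‖phi z - mu * z‖ ≤ 1 := by
  have h1 : ‖∑' k, a k z‖ ≤ ∑' k : ℕ, (1 / 2 : ℝ) ^ k :=
    tsum_of_norm_bounded summable_geometric_two.hasSum fun k => by
      have := (tail_le (K := 0) (z := z) (by simpa using h) k).2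
      simpa using this
  rw [tsum_geometric_two] at h1
  have h2 : phi z - mu * z = (bb : ℂ) + (1 / 4) * ∑' k, a k z := by unfold phi; ring
  rw [h2]
  refine (norm_add_le _ _).trans ?_
  rw [norm_mul, Complex.norm_real, Real.norm_eq_abs, abs_of_nonpos bb_le]
  have := bb_ge
  norm_num; linarith

lemma near {z : ℂ} (hz : z ≠ 0) (hre : z.re ≤ 0) {M : ℕ} (hM : 2 ^ M * ‖z‖ ≤ 1) :
    -‖z‖ - 1 / 2 + M / 16 ≤ (phi z).re := by
  rw [re_phi hz]
  have hpos : ∀ k, 0 ≤ (a k z).re := fun k => by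
    rw [re_a]
    have : (0 : ℝ) ≤ 2 ^ k * -z.re := mul_nonneg (by positivity) (by linarith)
    exact mul_nonneg (by linarith) (by positivity)
  have hq : ∀ k ∈ Finset.range M, (1 / 4 : ℝ) ≤ (a k z).re := by
    intro k hk
    have hk' : (2 : ℝ) ^ k ≤ 2 ^ M := pow_le_pow_right₀ (by norm_num) (Finset.mem_range.1 hk).le
    have h1 : 2 ^ k * ‖z‖ ≤ 1 := (mul_le_mul_of_nonneg_right hk' (norm_nonneg _)).trans hM
    have h2 : ‖(1 - 2 ^ k * z : ℂ)‖ ≤ 2 := by
      refine (norm_sub_le _ _).trans ?_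
      simp only [norm_one, norm_mul, norm_pow, Complex.norm_ofNat]; linarith
    have h3 : (1 : ℝ) ≤ 1 - 2 ^ k * z.re := by
      have : (0 : ℝ) ≤ 2 ^ k * -z.re := mul_nonneg (by positivity) (by linarith)
      linarith
    have h4 : 0 < ‖(1 - 2 ^ k * z : ℂ)‖ := by
      refine lt_of_lt_of_le (by linarith : (0 : ℝ) < 1 - 2 ^ k * z.re) ?_
      refine le_trans (le_of_eq ?_) (Complex.re_le_norm _)
      have : ((2 : ℂ) ^ k) = ((2 ^ k : ℝ) : ℂ) := by push_cast; rfl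
      rw [this]; simp only [sub_re, one_re, mul_re, ofReal_re, ofReal_im]; ring
    have h5 : 1 / 2 ≤ ‖a k z‖ := by
      unfold a; rw [norm_inv, one_div]; exact inv_anti₀ h4 h2
    rw [re_a]
    nlinarith
  have hs : Summable fun k => (a k z).re := (Complex.hasSum_re (summable_a hz).hasSum).summable
  have h6 := hs.sum_le_tsum (Finset.range M) (fun k _ => hpos k)
  have h7 := Finset.card_nsmul_le_sum _ _ _ hq
  rw [Finset.card_range, nsmul_eq_mul] at h7
  have h8 := Complex.abs_re_le_norm z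
  rw [abs_of_nonpos hre] at h8
  have := bb_ge; have := mu_le; have := mu_ge
  nlinarith

lemma right_le {x : ℝ} (hx : 1 < x) : (phi x).re ≤ 7 / 8 * x - 1 / (4 * (x - 1)) := by
  have hz : (x : ℂ) ≠ 0 := (U_of_real (Or.inr hx)).1
  rw [re_phi hz]
  have hs : Summable fun k => (a k x).re := (Complex.hasSum_re (summable_a hz).hasSum).summable
  have hneg : ∀ k, 0 ≤ -(a k x).re := fun k => by
    rw [re_a, ofReal_re]
    have h2 : (1 : ℝ) ≤ 2 ^ k := one_le_pow₀ (by norm_num)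
    have : 1 - 2 ^ k * x ≤ 0 := by nlinarith
    have := mul_nonneg (neg_nonneg.2 this) (sq_nonneg ‖a k x‖)
    linarith
  have h1 := hs.neg.le_tsum 0 (fun k _ => hneg k)
  rw [tsum_neg] at h1
  have h2 : (a 0 x).re = -(1 / (x - 1)) := by
    have : a 0 x = ((-(1 / (x - 1)) : ℝ) : ℂ) := by
      have h3 : ((x : ℂ) - 1) ≠ 0 := by
        have : x - 1 ≠ 0 := by linarith
        exact_mod_cast this
      have h4 : (1 - (x : ℂ)) ≠ 0 := fun h => h3 (by linear_combination -h)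
      unfold a; push_cast; simp only [pow_zero, one_mul]; field_simp; ring
    rw [this, ofReal_re]
  have h3 : 1 / (4 * (x - 1)) = 1 / 4 * (1 / (x - 1)) := by
    have : x - 1 ≠ 0 := by linarith
    field_simp
  have := bb_le; have := mu_le
  rw [h3, ofReal_re]
  nlinarith

lemma EE_far {x : ℝ} (hx : 4 ≤ x) : EE x ≤ 15 / 16 := by
  have hz : (x : ℂ) ≠ 0 := (U_of_real (Or.inr (by linarith))).1
  have h : ∑' k, e k x ≤ ∑' k : ℕ, (1 / 9 : ℝ) * (1 / 2 : ℝ) ^ k := by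
    refine (summable_e hz).tsum_le_tsum (fun k => ?_) (summable_geometric_two.mul_left _)
    have h2 : (1 : ℝ) ≤ 2 ^ k := one_le_pow₀ (by norm_num)
    have h1 : ‖a k x‖ ≤ 1 / 3 * (1 / 2) ^ k := by
      unfold a
      have h3 : (1 - 2 ^ k * (x : ℂ)) = ((1 - 2 ^ k * x : ℝ) : ℂ) := by push_cast; rfl
      rw [norm_inv, h3, Complex.norm_real, Real.norm_eq_abs, abs_of_nonpos (by nlinarith),
        one_div, one_div, inv_pow, ← mul_inv]
      exact inv_anti₀ (by positivity) (by nlinarith)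
    unfold e
    have h4 : ‖a k x‖ ^ 2 ≤ (1 / 3 * (1 / 2) ^ k) ^ 2 := pow_le_pow_left₀ (norm_nonneg _) h1 2
    have h3 : (2 : ℝ) ^ k * (1 / 2) ^ k = 1 := by rw [← mul_pow]; norm_num
    calc (2 : ℝ) ^ k * ‖a k x‖ ^ 2 ≤ 2 ^ k * (1 / 3 * (1 / 2) ^ k) ^ 2 :=
          mul_le_mul_of_nonneg_left h4 (by positivity)
      _ = 1 / 9 * (1 / 2) ^ k * (2 ^ k * (1 / 2) ^ k) := by ring
      _ = 1 / 9 * (1 / 2) ^ k := by rw [h3, mul_one]
  rw [tsum_mul_left, tsum_geometric_two] at h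
  have := mu_le
  unfold EE; linarith

lemma im_phi_axis {y : ℝ} (hy : 0 < y) (hy1 : y ≤ 1) : (phi (y * I)).im ≤ 2 := by
  have hz : ((y : ℂ) * I) ≠ 0 := mul_ne_zero (by exact_mod_cast hy.ne') I_ne_zero
  rw [im_phi hz]
  have him : ((y : ℂ) * I).im = y := by simp
  rw [him]
  have ht : ∀ k : ℕ, y * e k (y * I) ≤
      4 * (2 ^ (k + 1) * y / (1 + 2 ^ (k + 1) * y) - 2 ^ k * y / (1 + 2 ^ k * y)) := by
    intro k
    have h1 : ‖a k (y * I)‖ ^ 2 = (1 + (2 ^ k * y) ^ 2)⁻¹ := by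
      unfold a
      rw [norm_inv, inv_pow, ← Complex.normSq_eq_norm_sq, Complex.normSq_apply]
      have : ((2 : ℂ) ^ k) = ((2 ^ k : ℝ) : ℂ) := by push_cast; rfl
      rw [this]
      simp only [sub_re, one_re, mul_re, ofReal_re, ofReal_im, I_re, I_im, sub_im, one_im, mul_im]
      ring_nf
    unfold e
    rw [h1, pow_succ 2 k]
    set t := (2 : ℝ) ^ k * y with htd
    have ht0 : 0 < t := by positivity
    have e1 : y * (2 ^ k * (1 + t ^ 2)⁻¹) = t / (1 + t ^ 2) := by rw [htd]; field_simp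
    have e2 : (2 : ℝ) ^ k * 2 * y = 2 * t := by rw [htd]; ring
    rw [e1, e2]
    have e3 : 4 * (2 * t / (1 + 2 * t) - t / (1 + t)) = 4 * t / ((1 + t) * (1 + 2 * t)) := by
      field_simp; ring
    rw [e3, div_le_div_iff₀ (by positivity) (by positivity)]
    nlinarith [mul_nonneg ht0.le (sq_nonneg (t - 1)), sq_nonneg t, mul_pos ht0 (mul_pos ht0 ht0)]
  have hsum : ∑' k, y * e k (y * I) ≤ 4 := by
    refine ((summable_e hz).mul_left y).tsum_le_of_sum_range_le fun n => ?_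
    refine (Finset.sum_le_sum fun k _ => ht k).trans ?_
    rw [← Finset.mul_sum, Finset.sum_range_sub (fun k => (2 : ℝ) ^ k * y / (1 + 2 ^ k * y))]
    have h1 : (2 : ℝ) ^ n * y / (1 + 2 ^ n * y) ≤ 1 := by
      rw [div_le_one (by positivity)]; linarith
    have h2 : 0 ≤ (2 : ℝ) ^ 0 * y / (1 + 2 ^ 0 * y) := by positivity
    linarith
  rw [tsum_mul_left] at hsum
  have := mu_le; have := mu_ge
  unfold EE
  nlinarith

end Pool.Agent.H61.IrA
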