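import Pool.Agent.H61.IrA

set_option autoImplicit false

namespace Pool.Agent.H61.IrB

open Set Filter Topology Complex Pool.Agent.H61.IrA

noncomputable def C (z : ℂ) : ℂ := (z - I) / (z + I)

noncomputable def W (n : ℕ) (z : ℂ) : ℝ :=
  ∑ j ∈ Finset.range n, ‖C (phi^[j] z) - C (phi^[j + 1] z)‖

def Q (x h K : ℝ) : Prop :=
  ∃ n : ℕ, ∀ z : ℂ, 0 < z.im → ‖z - x‖ ^ 2 ≤ h * z.im → K ≤ W n z

noncomputable def pr (x : ℝ) : ℝ := (phi x).re

lemma phi_real {x : ℝ} (hx : (x : ℂ) ≠ 0) : phi x = (pr x : ℝ) := by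
  apply Complex.ext
  · rw [ofReal_re]; rfl
  · rw [im_phi hx]; simp

lemma im_phi_pos {z : ℂ} (hz : 0 < z.im) : 0 < (phi z).im := by
  rw [im_phi (U_of_im hz).1]
  exact mul_pos hz (by linarith [EE_ge z])

lemma step {x h h' : ℝ} (hx : x < 0 ∨ 1 < x) (hh : EE x * h' ≤ h) {z : ℂ} (hz : 0 < z.im)
    (hzx : ‖z - x‖ ^ 2 ≤ h' * z.im) : ‖phi z - (pr x : ℝ)‖ ^ 2 ≤ h * (phi z).im := by
  have hU := U_of_real hx
  rw [← phi_real hU.1]
  have h1 := julia (U_of_im hz) hU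
  have hEz : 0 < EE z := by linarith [EE_ge z]
  have hEx : 0 < EE x := by linarith [EE_ge x]
  rw [im_phi (U_of_im hz).1]
  calc _ ≤ ‖z - x‖ ^ 2 * (EE z * EE x) := h1
    _ ≤ (h' * z.im) * (EE z * EE x) := mul_le_mul_of_nonneg_right hzx (by positivity)
    _ = (EE x * h') * (z.im * EE z) := by ring
    _ ≤ h * (z.im * EE z) := mul_le_mul_of_nonneg_right hh (by positivity)

lemma W_succ (n : ℕ) (z : ℂ) : W (n + 1) z = W n (phi z) + ‖C z - C (phi z)‖ := by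
  unfold W
  rw [Finset.sum_range_succ']
  rfl

lemma close {x h : ℝ} {z : ℂ} (hz : 0 < z.im) (hzx : ‖z - x‖ ^ 2 ≤ h * z.im) (hh : 0 ≤ h) :
    ‖z - x‖ ≤ h := by
  have h1 : z.im ≤ ‖z - x‖ := by
    have := Complex.im_le_norm (z - x)
    simpa using this
  have h2 : 0 < ‖z - x‖ := lt_of_lt_of_le hz h1
  have := mul_le_mul_of_nonneg_left h1 hh
  nlinarith

lemma one_le_norm_add_I {z : ℂ} (hz : 0 ≤ z.im) : 1 ≤ ‖z + I‖ := by
  have := Complex.im_le_norm (z + I)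
  simp only [add_im, I_im] at this
  linarith

lemma add_I_ne {z : ℂ} (hz : 0 ≤ z.im) : z + I ≠ 0 := fun h => by
  have := one_le_norm_add_I hz
  rw [h, norm_zero] at this; linarith

lemma C_lip {z w : ℂ} (hz : 0 ≤ z.im) (hw : 0 ≤ w.im) : ‖C z - C w‖ ≤ 2 * ‖z - w‖ := by
  have h1 := add_I_ne hz
  have h2 := add_I_ne hw
  have h : C z - C w = 2 * I * (z - w) / ((z + I) * (w + I)) := by
    unfold C; field_simp; ring
  rw [h, norm_div, norm_mul, norm_mul, norm_mul, Complex.norm_I, Complex.norm_ofNat, mul_one]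
  refine div_le_self (by positivity) ?_
  exact one_le_mul_of_one_le_of_one_le (one_le_norm_add_I hz) (one_le_norm_add_I hw)

lemma pull {x h h' K : ℝ} (hx : x < 0 ∨ 1 < x) (hh : EE x * h' ≤ h) (hQ : Q (pr x) h K) :
    Q x h' K := by
  obtain ⟨n, hn⟩ := hQ
  refine ⟨n + 1, fun z hz hzx => ?_⟩
  rw [W_succ]
  have := hn (phi z) (im_phi_pos hz) (step hx hh hz hzx)
  linarith [norm_nonneg (C z - C (phi z))]

lemma pull' {x h K : ℝ} (hx : x < 0 ∨ 1 < x) (hh : 0 < h) (hQ : Q (pr x) h K) :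
    ∃ h' : ℝ, 0 < h' ∧ Q x h' K := by
  have hEx : 0 < EE x := by linarith [EE_ge x]
  exact ⟨h / EE x, by positivity, pull hx (by field_simp; exact le_rfl) hQ⟩

lemma im_C (x : ℝ) : (C x).im = -2 * x / (x ^ 2 + 1) := by
  unfold C
  rw [Complex.div_im, Complex.normSq_apply]
  simp only [sub_im, ofReal_im, I_im, add_re, ofReal_re, I_re, sub_re, add_im]
  field_simp; ring

lemma gain {x h K : ℝ} (hx : 1 < x) (hx2 : x ≤ 2) (hp : pr x < 0) (hh : 0 < h)
    (hQ : Q (pr x) h K) : ∃ h' : ℝ, 0 < h' ∧ Q x h' (K + 1 / 5) := by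
  have hEx : 0 < EE x := by linarith [EE_ge x]
  obtain ⟨n, hn⟩ := hQ
  refine ⟨min (1 / 20) (min h (1 / 20) / EE x), by positivity, n + 1, fun z hz hzx => ?_⟩
  have hle : EE x * min (1 / 20) (min h (1 / 20) / EE x) ≤ min h (1 / 20) := by
    refine (mul_le_mul_of_nonneg_left (min_le_right _ _) hEx.le).trans (le_of_eq ?_)
    field_simp
  have hpz := im_phi_pos hz
  rw [W_succ]
  have h1 := hn (phi z) hpz (step (Or.inr hx) (hle.trans (min_le_left _ _)) hz hzx)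
  have h2 := close hpz (step (Or.inr hx) (hle.trans (min_le_right _ _)) hz hzx) (by norm_num)
  have h3 := (close hz hzx (by positivity)).trans (min_le_left _ _)
  have h4 := C_lip (z := z) (w := x) hz.le (by simp)
  have h5 := C_lip (z := phi z) (w := (pr x : ℝ)) hpz.le (by simp)
  have h6 : 2 / 5 ≤ ‖C (pr x : ℝ) - C x‖ := by
    refine le_trans ?_ (Complex.im_le_norm _)
    rw [sub_im, im_C, im_C]
    have a1 : 0 ≤ -2 * pr x / (pr x ^ 2 + 1) := div_nonneg (by linarith) (by positivity)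
    have a2 : -2 * x / (x ^ 2 + 1) ≤ -(2 / 5) := by
      rw [div_le_iff₀ (by positivity)]; nlinarith
    linarith
  have h7 : C (pr x : ℝ) - C x = (C z - C x) - (C z - C (phi z)) - (C (phi z) - C (pr x : ℝ)) := by
    ring
  have h8 := norm_sub_le ((C z - C x) - (C z - C (phi z))) (C (phi z) - C (pr x : ℝ))
  have h9 := norm_sub_le (C z - C x) (C z - C (phi z))
  rw [← h7] at h8
  linarith

lemma cont_pr {x : ℝ} (hx : x < 0 ∨ 1 < x) : ContinuousAt pr x :=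
  Complex.continuous_re.continuousAt.comp
    ((differentiableAt_phi (U_of_real hx)).continuousAt.comp' (f := fun y : ℝ => (y : ℂ))
      Complex.continuous_ofReal.continuousAt)

lemma pr_far {x : ℝ} (hx : 2 ≤ |x|) : |pr x - mu * x| ≤ 1 := by
  have h1 := far (z := x) (by simpa using hx)
  refine le_trans (le_of_eq ?_) ((Complex.abs_re_le_norm _).trans h1)
  unfold pr; simp

lemma surj_right (t : ℝ) : ∃ x : ℝ, 1 < x ∧ pr x = t := by
  have ht := abs_nonneg t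
  set ε : ℝ := 1 / (4 * (|t| + 2)) with hε
  have hε0 : 0 < ε := by positivity
  have hε1 : ε ≤ 1 := by rw [hε, div_le_one (by positivity)]; linarith
  have h1 : pr (1 + ε) ≤ t := by
    have := right_le (x := 1 + ε) (by linarith)
    have h2 : 1 / (4 * (1 + ε - 1)) = |t| + 2 := by
      rw [add_sub_cancel_left, hε]; field_simp
    rw [h2] at this
    have := neg_abs_le t
    unfold pr; linarith
  have h2 : t ≤ pr (2 * |t| + 2) := by
    have := pr_far (x := 2 * |t| + 2) (by rw [abs_of_nonneg (by positivity)]; linarith)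
    have h3 := (abs_le.1 this).1
    have := mu_ge
    have := le_abs_self t
    nlinarith
  obtain ⟨x, hx, hxt⟩ := intermediate_value_Icc (by linarith : 1 + ε ≤ 2 * |t| + 2)
    (f := pr) (fun y hy => (cont_pr (Or.inr (by linarith [hy.1]))).continuousWithinAt) ⟨h1, h2⟩
  exact ⟨x, by linarith [hx.1], hxt⟩

lemma surj_left {t : ℝ} (ht : 0 ≤ t) (ht2 : t ≤ 2) : ∃ x : ℝ, x < 0 ∧ pr x = t := by
  have h1 : pr (-2) ≤ t := by
    have := pr_far (x := -2) (by norm_num)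
    have h3 := (abs_le.1 this).2
    have := mu_ge
    linarith
  have h2 : t ≤ pr (-(1 / 2) ^ 64) := by
    have hn : ‖((-(1 / 2) ^ 64 : ℝ) : ℂ)‖ = (1 / 2) ^ 64 := by
      rw [Complex.norm_real, norm_neg, Real.norm_of_nonneg (by positivity)]
    have := near (z := ((-(1 / 2) ^ 64 : ℝ) : ℂ)) (M := 64)
      (U_of_real (Or.inl (by norm_num))).1 (by rw [ofReal_re]; norm_num)
      (by rw [hn]; norm_num)
    rw [hn] at this
    unfold pr
    refine le_trans ?_ this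
    norm_num; linarith
  obtain ⟨x, hx, hxt⟩ := intermediate_value_Icc (by norm_num : (-2 : ℝ) ≤ -(1 / 2) ^ 64)
    (f := pr) (fun y hy => (cont_pr (Or.inl (lt_of_le_of_lt hy.2
      (by norm_num)))).continuousWithinAt) ⟨h1, h2⟩
  exact ⟨x, lt_of_le_of_lt hx.2 (by norm_num), hxt⟩

lemma alt (N : ℕ) : ∃ x h : ℝ, 1 < x ∧ x ≤ 2 ∧ 0 < h ∧ Q x h (N / 5) := by
  induction N with
  | zero => exact ⟨2, 1, by norm_num, le_rfl, by norm_num, 0, fun z _ _ => by simp [W]⟩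
  | succ N ih =>
    obtain ⟨x, h, hx, hx2, hh, hQ⟩ := ih
    obtain ⟨s, hs, hsx⟩ := surj_left (t := x) (by linarith) hx2
    obtain ⟨h1, hh1, hQ1⟩ := pull' (Or.inl hs) hh (hsx ▸ hQ)
    obtain ⟨u, hu, hus⟩ := surj_right s
    have hu2 : u ≤ 2 := by
      by_contra hc
      push Not at hc
      have := pr_far (x := u) (by rw [abs_of_nonneg (by linarith)]; linarith)
      have h3 := (abs_le.1 this).1
      have := mu_ge
      nlinarith
    obtain ⟨h2, hh2, hQ2⟩ := gain hu hu2 (by rw [hus]; exact hs) hh1 (hus ▸ hQ1)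
    refine ⟨u, h2, hu, hu2, hh2, ?_⟩
    have : ((N + 1 : ℕ) : ℝ) / 5 = N / 5 + 1 / 5 := by push_cast; ring
    rw [this]; exact hQ2

lemma back {x : ℝ} (hx : 1 < x) : ∃ u : ℝ, 1 < u ∧ 8 / 7 * x ≤ u ∧ pr u = x := by
  obtain ⟨u, hu, hux⟩ := surj_right x
  refine ⟨u, hu, ?_, hux⟩
  have := right_le hu
  have h2 : 0 < 1 / (4 * (u - 1)) := by
    have : 0 < u - 1 := by linarith
    positivity
  unfold pr at hux
  linarith

lemma out1 {x h K : ℝ} (hx : 1 < x) (hh : 0 < h) (hQ : Q x h K) (m : ℕ) :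
    ∃ u h' : ℝ, 1 < u ∧ (8 / 7) ^ m ≤ u ∧ 0 < h' ∧ Q u h' K := by
  induction m with
  | zero => exact ⟨x, h, hx, by simpa using hx.le, hh, hQ⟩
  | succ m ih =>
    obtain ⟨u, h1, hu, hum, hh1, hQ1⟩ := ih
    obtain ⟨v, hv, hvu, hp⟩ := back hu
    obtain ⟨h2, hh2, hQ2⟩ := pull' (Or.inr hv) hh1 (hp ▸ hQ1)
    exact ⟨v, h2, hv, by rw [pow_succ]; linarith, hh2, hQ2⟩

lemma out2 {x h K : ℝ} (hx : 4 ≤ x) (hh : 0 < h) (hQ : Q x h K) (m : ℕ) :
    ∃ u : ℝ, 4 ≤ u ∧ (16 / 15) ^ m ≤ u ∧ Q u (h * (16 / 15) ^ m) K := by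
  induction m with
  | zero => exact ⟨x, hx, by simp; linarith, by simpa using hQ⟩
  | succ m ih =>
    obtain ⟨u, hu, hum, hQ1⟩ := ih
    obtain ⟨v, hv, hvu, hp⟩ := back (x := u) (by linarith)
    have hv4 : 4 ≤ v := by linarith
    refine ⟨v, hv4, by rw [pow_succ]; linarith, pull (Or.inr hv) ?_ (hp ▸ hQ1)⟩
    have h1 := EE_far hv4
    have h2 : 0 < h * (16 / 15) ^ m := by positivity
    rw [pow_succ]
    nlinarith

lemma out (N : ℕ) (X : ℝ) : ∃ u : ℝ, X ≤ u ∧ ∃ H : ℝ, 2 ≤ H ∧ Q u H (N / 5) := by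
  obtain ⟨x, h, hx, -, hh, hQ⟩ := alt N
  obtain ⟨u, h1, -, hu, hh1, hQ1⟩ := out1 hx hh hQ 11
  obtain ⟨m, hm⟩ := pow_unbounded_of_one_lt (max X (2 / h1)) (by norm_num : (1 : ℝ) < 16 / 15)
  obtain ⟨v, -, hv, hQ2⟩ := out2 (le_trans (by norm_num) hu) hh1 hQ1 m
  refine ⟨v, ((le_max_left _ _).trans hm.le).trans hv, _, ?_, hQ2⟩
  have := (le_max_right _ _).trans hm.le
  rw [div_le_iff₀ hh1] at this
  linarith

lemma axis_ne {y : ℝ} (hy : 0 < y) : 0 < ((y : ℂ) * I).im := by simpa using hy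

lemma axis_big (t : ℝ) : ∃ y0 : ℝ, 0 < y0 ∧ ∀ y : ℝ, 0 < y → y ≤ y0 → t ≤ (phi (y * I)).re := by
  obtain ⟨M, hM⟩ := exists_nat_ge (16 * (t + 2))
  refine ⟨(1 / 2) ^ M, by positivity, fun y hy hyM => ?_⟩
  have hn : ‖(y : ℂ) * I‖ = y := by simp [abs_of_pos hy]
  have h3 : (2 : ℝ) ^ M * (1 / 2) ^ M = 1 := by rw [← mul_pow]; norm_num
  have h4 : (1 / 2 : ℝ) ^ M ≤ 1 := pow_le_one₀ (by norm_num) (by norm_num)
  have := near (z := y * I) (M := M) (U_of_im (axis_ne hy)).1 (by simp) (by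
    rw [hn, ← h3]; exact mul_le_mul_of_nonneg_left hyM (by positivity))
  rw [hn] at this
  linarith

theorem main (N : ℕ) {δ : ℝ} (hδ : 0 < δ) (hδ1 : δ ≤ 1) :
    ∃ y : ℝ, 0 < y ∧ y ≤ δ ∧ ∃ n : ℕ, (N : ℝ) / 5 ≤ W n (phi (y * I)) := by
  obtain ⟨u, hu, H, hH, n, hn⟩ := out N (phi (δ * I)).re
  obtain ⟨y0, hy0, hbig⟩ := axis_big u
  have hc : ContinuousOn (fun y : ℝ => (phi (y * I)).re) (Icc (min y0 δ) δ) := by
    intro y hy
    have hy' : 0 < y := lt_of_lt_of_le (by positivity) hy.1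
    refine ContinuousAt.continuousWithinAt ?_
    exact Complex.continuous_re.continuousAt.comp
      ((differentiableAt_phi (U_of_im (axis_ne hy'))).continuousAt.comp'
        (f := fun y : ℝ => (y : ℂ) * I) (by fun_prop))
  obtain ⟨y, hy, hyu⟩ := intermediate_value_Icc' (min_le_right y0 δ) hc
    ⟨hu, hbig _ (by positivity) (min_le_left _ _)⟩
  have hy' : 0 < y := lt_of_lt_of_le (by positivity) hy.1
  refine ⟨y, hy', hy.2, n, hn _ (im_phi_pos (axis_ne hy')) ?_⟩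
  have h1 := im_phi_axis hy' (hy.2.trans hδ1)
  have h2 := im_phi_pos (axis_ne hy')
  have h3 : ‖phi (y * I) - u‖ ^ 2 = (phi (y * I)).im ^ 2 := by
    rw [← Complex.normSq_eq_norm_sq, Complex.normSq_apply]
    simp only [sub_re, ofReal_re, sub_im, ofReal_im]
    simp only at hyu
    rw [hyu]; ring
  rw [h3]
  nlinarith

end Pool.Agent.H61.IrB
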