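import Pool.Agent.H61.IrB

set_option autoImplicit false

namespace Pool.Agent.H61.IrC

open Set Filter Topology Complex Metric Pool.Agent.H61.IrA Pool.Agent.H61.IrB

noncomputable def Ci (w : ℂ) : ℂ := I * (1 + w) / (1 - w)

noncomputable def f (w : ℂ) : ℂ := C (phi (Ci w))

lemma im_Ci (w : ℂ) : (Ci w).im = (1 - ‖w‖ ^ 2) / normSq (1 - w) := by
  unfold Ci
  rw [Complex.div_im, ← Complex.normSq_eq_norm_sq, Complex.normSq_apply w]
  simp only [mul_im, I_re, I_im, add_im, one_im, add_re, one_re, sub_re, mul_re, sub_im]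
  ring

lemma ne_one {w : ℂ} (hw : w ∈ ball (0 : ℂ) 1) : 1 - w ≠ 0 := fun h => by
  have : w = 1 := by linear_combination -h
  rw [this] at hw; simp at hw

lemma im_Ci_pos {w : ℂ} (hw : w ∈ ball (0 : ℂ) 1) : 0 < (Ci w).im := by
  rw [im_Ci]
  have h1 := mem_ball_zero_iff.1 hw
  exact div_pos (by nlinarith [norm_nonneg w]) (Complex.normSq_pos.2 (ne_one hw))

lemma Ci_C {z : ℂ} (hz : 0 ≤ z.im) : Ci (C z) = z := by
  have h := add_I_ne hz
  unfold Ci C
  have h1 : 1 - (z - I) / (z + I) = 2 * I / (z + I) := by field_simp; ring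
  have h2 : 1 + (z - I) / (z + I) = 2 * z / (z + I) := by field_simp; ring
  rw [h1, h2]
  have := I_ne_zero
  field_simp

lemma C_Ci {w : ℂ} (hw : 1 - w ≠ 0) : C (Ci w) = w := by
  unfold Ci C
  have h1 : I * (1 + w) / (1 - w) - I = 2 * I * w / (1 - w) := by field_simp; ring
  have h2 : I * (1 + w) / (1 - w) + I = 2 * I / (1 - w) := by field_simp; ring
  rw [h1, h2]
  have := I_ne_zero
  field_simp

lemma normSq_sub_add (z : ℂ) : ‖z + I‖ ^ 2 = ‖z - I‖ ^ 2 + 4 * z.im := by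
  rw [← Complex.normSq_eq_norm_sq, ← Complex.normSq_eq_norm_sq, Complex.normSq_apply,
    Complex.normSq_apply]
  simp only [add_re, I_re, add_im, I_im, sub_re, sub_im]; ring

lemma C_mem {z : ℂ} (hz : 0 < z.im) : C z ∈ ball (0 : ℂ) 1 := by
  rw [mem_ball_zero_iff]
  unfold C
  have h1 := one_le_norm_add_I hz.le
  rw [norm_div, div_lt_one (by linarith)]
  have := normSq_sub_add z
  exact lt_of_pow_lt_pow_left₀ 2 (norm_nonneg _) (by linarith)

lemma norm_C_real {z : ℂ} (hz : z.im = 0) : ‖C z‖ = 1 := by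
  unfold C
  have h1 := one_le_norm_add_I hz.ge
  rw [norm_div, div_eq_one_iff_eq (by linarith)]
  have := normSq_sub_add z
  rw [hz] at this
  exact (pow_left_inj₀ (norm_nonneg _) (norm_nonneg _) two_ne_zero).1 (by linarith)

lemma im_iter {z : ℂ} (hz : 0 < z.im) (n : ℕ) : 0 < (phi^[n] z).im := by
  induction n with
  | zero => exact hz
  | succ n ih => rw [Function.iterate_succ_apply']; exact im_phi_pos ih

lemma f_iter {w : ℂ} (hw : w ∈ ball (0 : ℂ) 1) (n : ℕ) : f^[n] w = C (phi^[n] (Ci w)) := by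
  induction n with
  | zero => exact (C_Ci (ne_one hw)).symm
  | succ n ih =>
    rw [Function.iterate_succ_apply', Function.iterate_succ_apply', ih]
    unfold f
    rw [Ci_C (im_iter (im_Ci_pos hw) n).le]

lemma f_zero : f 0 = 0 := by
  have : Ci 0 = I := by simp [Ci]
  unfold f
  rw [this, phi_I]; simp [C]

lemma f_maps : MapsTo f (ball 0 1) (ball 0 1) := fun _ hw => C_mem (im_phi_pos (im_Ci_pos hw))

lemma diffAt_f {w : ℂ} (h1 : 1 - w ≠ 0) (hU : U (Ci w)) (him : 0 ≤ (Ci w).im) :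
    DifferentiableAt ℂ f w := by
  have a1 : DifferentiableAt ℂ Ci w := by
    unfold Ci; exact DifferentiableAt.div (by fun_prop) (by fun_prop) h1
  have a2 : DifferentiableAt ℂ C (phi (Ci w)) := by
    have : phi (Ci w) + I ≠ 0 := add_I_ne (by
      rw [im_phi hU.1]; exact mul_nonneg him (by linarith [EE_ge (Ci w)]))
    unfold C; exact DifferentiableAt.div (by fun_prop) (by fun_prop) this
  exact a2.comp w ((differentiableAt_phi hU).comp w a1)

lemma f_diff : DifferentiableOn ℂ f (ball 0 1) := fun _ hw =>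
  (diffAt_f (ne_one hw) (U_of_im (im_Ci_pos hw)) (im_Ci_pos hw).le).differentiableWithinAt

lemma f_inner : ∀ᵐ θ : ℝ, ∃ L : ℂ, ‖L‖ = 1 ∧
    Tendsto (fun r : ℝ => f (r * exp (θ * I))) (𝓝[<] 1) (𝓝 L) := by
  set B : Set ℂ := {1, C 0} ∪ range (fun k : ℕ => C ((2 ^ k)⁻¹)) with hB
  have hBc : B.Countable := (Set.toFinite _).countable.union (countable_range _)
  have hc : ((fun θ : ℝ => (θ : ℂ) * I) ⁻¹' (exp ⁻¹' B)).Countable := by
    refine (Complex.countable_preimage_exp.2 hBc).preimage_of_injOn ?_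
    intro x _ y _ h
    have := mul_right_cancel₀ I_ne_zero h
    exact_mod_cast this
  filter_upwards [hc.ae_notMem MeasureTheory.volume] with θ hθ
  set ζ := exp (θ * I) with hζ
  have hζB : ζ ∉ B := hθ
  have hn : ‖ζ‖ = 1 := Complex.norm_exp_ofReal_mul_I θ
  have h1 : 1 - ζ ≠ 0 := fun h => hζB (Or.inl (Or.inl (by linear_combination -h)))
  have him : (Ci ζ).im = 0 := by rw [im_Ci, hn]; simp
  have hU : U (Ci ζ) := by
    refine ⟨fun h => hζB (Or.inl (Or.inr ?_)), fun k h => hζB (Or.inr ⟨k, ?_⟩)⟩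
    · rw [← h, C_Ci h1]; rfl
    · have : Ci ζ = (2 ^ k)⁻¹ := by
        have h2 : (2 : ℂ) ^ k ≠ 0 := pow_ne_zero _ two_ne_zero
        field_simp; linear_combination -h
      simp only
      rw [← this, C_Ci h1]
  refine ⟨f ζ, norm_C_real (by rw [im_phi hU.1, him, zero_mul]), ?_⟩
  refine (diffAt_f h1 hU him.ge).continuousAt.tendsto.comp ?_
  refine Tendsto.mono_left ?_ nhdsWithin_le_nhds
  have : Continuous fun r : ℝ => (r : ℂ) * ζ := by fun_prop
  simpa using this.tendsto 1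

lemma Ci_neg {r : ℝ} (hr : 0 < r) : Ci (r * (-1)) = ((1 - r) / (1 + r) : ℝ) * I := by
  have : (1 + r : ℂ) ≠ 0 := by
    have : (1 + r : ℝ) ≠ 0 := by linarith
    exact_mod_cast this
  unfold Ci
  push_cast
  have h2 : (1 - (r : ℂ) * -1) = 1 + r := by ring
  rw [h2]; field_simp; ring

lemma neg_mem {r : ℝ} (hr : 0 < r) (hr1 : r < 1) : (r : ℂ) * (-1) ∈ ball (0 : ℂ) 1 := by
  rw [mem_ball_zero_iff]; simpa [abs_of_pos hr] using hr1

lemma ev_pos : ∀ᶠ r : ℝ in 𝓝[<] 1, 0 < r ∧ r < 1 :=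
  Ioo_mem_nhdsLT (by norm_num : (0 : ℝ) < 1)

lemma tendsto_iter (n : ℕ) :
    Tendsto (fun r : ℝ => ‖phi^[n + 1] (Ci (r * (-1)))‖) (𝓝[<] 1) atTop := by
  induction n with
  | zero =>
    rw [Filter.tendsto_atTop]
    intro t
    obtain ⟨y0, hy0, h⟩ := axis_big t
    filter_upwards [ev_pos, Ioo_mem_nhdsLT (by linarith : 1 - y0 < 1)] with r hr hr2
    rw [Ci_neg hr.1]
    refine (h _ (div_pos (by linarith [hr.2]) (by linarith [hr.1])) ?_).trans (Complex.re_le_norm _)
    rw [div_le_iff₀ (by linarith [hr.1])]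
    nlinarith [hr2.1, hr.1]
  | succ n ih =>
    rw [Filter.tendsto_atTop] at ih ⊢
    intro t
    filter_upwards [ih 2, ih (2 * (t + 1))] with r h2 ht
    rw [Function.iterate_succ_apply']
    set z := phi^[n + 1] (Ci (r * (-1)))
    have h1 := far h2
    have h3 := norm_sub_norm_le ((mu : ℂ) * z) (phi z)
    rw [norm_sub_rev, norm_mul, Complex.norm_real, Real.norm_of_nonneg (by linarith [mu_ge])] at h3
    have := mu_ge
    nlinarith

lemma radial (n : ℕ) : Tendsto (fun r : ℝ => f^[n + 1] (r * (-1))) (𝓝[<] 1) (𝓝 1) := by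
  rw [tendsto_iff_norm_sub_tendsto_zero]
  have h1 : Tendsto (fun r : ℝ => 2 / (‖phi^[n + 1] (Ci (r * (-1)))‖ + (-1))) (𝓝[<] 1) (𝓝 0) :=
    Tendsto.const_div_atTop (tendsto_atTop_add_const_right _ (-1) (tendsto_iter n)) 2
  refine squeeze_zero' (Eventually.of_forall fun _ => norm_nonneg _) ?_ h1
  filter_upwards [ev_pos, (Filter.tendsto_atTop.1 (tendsto_iter n)) 2] with r hr h2
  have hm := neg_mem hr.1 hr.2
  rw [f_iter hm]
  set z := phi^[n + 1] (Ci (r * (-1)))
  have hz : 0 < z.im := im_iter (im_Ci_pos hm) _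
  have h3 := add_I_ne hz.le
  have h4 : C z - 1 = -2 * I / (z + I) := by unfold C; field_simp; ring
  have h5 := norm_sub_norm_le z (z + I)
  have h6 : ‖z - (z + I)‖ = 1 := by simp
  rw [h4, norm_div]
  simp only [neg_mul, norm_neg, norm_mul, Complex.norm_ofNat, Complex.norm_I, mul_one]
  exact div_le_div_of_nonneg_left (by norm_num) (by linarith) (by linarith)

lemma not_rot : ¬ ∃ c : ℂ, ‖c‖ = 1 ∧ ∀ z ∈ ball (0 : ℂ) 1, f z = c * z := by
  rintro ⟨c, -, hc⟩
  have hlim : Tendsto (fun r : ℝ => (r : ℂ) * (-1)) (𝓝[<] 1) (𝓝 (-1)) := by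
    refine Tendsto.mono_left ?_ nhdsWithin_le_nhds
    have : Continuous fun r : ℝ => (r : ℂ) * (-1) := by fun_prop
    simpa using this.tendsto 1
  have h1 : c * (-1) = 1 := by
    refine tendsto_nhds_unique (hlim.const_mul c) ((radial 0).congr' ?_)
    filter_upwards [ev_pos] with r hr
    exact hc _ (neg_mem hr.1 hr.2)
  have h2 : c * (c * (-1)) = 1 := by
    refine tendsto_nhds_unique ((hlim.const_mul c).const_mul c) ((radial 1).congr' ?_)
    filter_upwards [ev_pos] with r hr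
    have hm := neg_mem hr.1 hr.2
    show f (f _) = _
    rw [hc _ (f_maps hm), hc _ hm]
  rw [h1, mul_one] at h2
  rw [h2] at h1
  norm_num at h1

lemma decay {ρ : ℝ} (hρ : ρ < 1) : ∃ q : ℝ, 0 ≤ q ∧ q < 1 ∧
    ∀ n : ℕ, ∀ z ∈ closedBall (0 : ℂ) ρ, ‖f^[n] z‖ ≤ q ^ n := by
  have hmaps : MapsTo f (ball 0 1) (closedBall (f 0) 1) := by
    rw [f_zero]; exact f_maps.mono_right ball_subset_closedBall
  have hlt : ∀ z ∈ ball (0 : ℂ) 1, ‖dslope f 0 z‖ < 1 := by
    intro z hz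
    have h1 := Complex.norm_dslope_le_div_of_mapsTo_ball f_diff hmaps hz
    refine lt_of_le_of_ne (by simpa using h1) fun h => not_rot ⟨dslope f 0 z, h, fun w hw => ?_⟩
    have := Complex.affine_of_mapsTo_ball_of_norm_dslope_eq_div f_diff hmaps hz
      (by simpa using h) hw
    rw [this, f_zero]; simp [mul_comm]
  have hsub : closedBall (0 : ℂ) ρ ⊆ ball 0 1 := closedBall_subset_ball hρ
  have hcont : ContinuousOn (fun z => ‖dslope f 0 z‖) (closedBall (0 : ℂ) ρ) :=
    (((differentiableOn_dslope (ball_mem_nhds 0 one_pos)).2 f_diff).continuousOn.mono hsub).norm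
  rcases (closedBall (0 : ℂ) ρ).eq_empty_or_nonempty with he | hne
  · exact ⟨0, le_rfl, one_pos, fun n z hz => by rw [he] at hz; exact hz.elim⟩
  obtain ⟨z0, hz0, hmax⟩ := (isCompact_closedBall (0 : ℂ) ρ).exists_isMaxOn hne hcont
  set q := ‖dslope f 0 z0‖
  have hq1 : q < 1 := hlt _ (hsub hz0)
  have hq0 : 0 ≤ q := norm_nonneg _
  have hstep : ∀ z ∈ closedBall (0 : ℂ) ρ, ‖f z‖ ≤ q * ‖z‖ := by
    intro z hz
    have h1 := sub_smul_dslope f 0 z
    rw [f_zero, sub_zero, sub_zero] at h1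
    rw [← h1, norm_smul, mul_comm]
    exact mul_le_mul_of_nonneg_right (hmax hz) (norm_nonneg _)
  refine ⟨q, hq0, hq1, fun n z hz => ?_⟩
  have key : ∀ n : ℕ, ‖f^[n] z‖ ≤ q ^ n * ‖z‖ := by
    intro n
    induction n with
    | zero => simp
    | succ n ih =>
      rw [Function.iterate_succ_apply', pow_succ']
      have hm : f^[n] z ∈ closedBall (0 : ℂ) ρ := by
        rw [mem_closedBall_zero_iff] at hz ⊢
        refine ih.trans (le_trans ?_ hz)
        exact mul_le_of_le_one_left (norm_nonneg _) (pow_le_one₀ hq0 hq1.le)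
      refine (hstep _ hm).trans ?_
      rw [mul_assoc]
      exact mul_le_mul_of_nonneg_left ih hq0
  refine (key n).trans (mul_le_of_le_one_right (by positivity) ?_)
  exact (mem_ball_zero_iff.1 (hsub hz)).le

lemma summable_iter {w : ℂ} (hw : w ∈ ball (0 : ℂ) 1) : Summable fun n => ‖f^[n] w‖ := by
  obtain ⟨q, hq0, hq1, h⟩ := decay (mem_ball_zero_iff.1 hw)
  exact Summable.of_nonneg_of_le (fun _ => norm_nonneg _)
    (fun n => h n w (mem_closedBall_zero_iff.2 le_rfl)) (summable_geometric_of_lt_one hq0 hq1)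

lemma loc_unif {a : ℕ → ℂ} {M : ℝ} (ha : ∀ n, ‖a n‖ ≤ M) :
    TendstoLocallyUniformlyOn (fun N z => ∑ n ∈ Finset.range N, a n * f^[n + 1] z)
      (fun z => ∑' n, a n * f^[n + 1] z) atTop (ball 0 1) := by
  rw [tendstoLocallyUniformlyOn_iff_forall_isCompact isOpen_ball]
  intro K hK hKc
  obtain ⟨ρ, hρ, hKρ⟩ := exists_lt_subset_ball hKc.isClosed hK
  obtain ⟨q, hq0, hq1, h⟩ := decay hρ
  refine tendstoUniformlyOn_tsum_nat (u := fun n => M * q ^ (n + 1))
    (((summable_nat_add_iff 1).2 (summable_geometric_of_lt_one hq0 hq1)).mul_left M) ?_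
  intro n z hz
  rw [norm_mul]
  exact mul_le_mul (ha n) (h _ z (ball_subset_closedBall (hKρ hz))) (norm_nonneg _)
    ((norm_nonneg _).trans (ha n))

lemma iter_diff (n : ℕ) : DifferentiableOn ℂ f^[n] (ball 0 1) := by
  induction n with
  | zero => exact differentiableOn_id
  | succ n ih => rw [Function.iterate_succ]; exact ih.comp f_diff f_maps

lemma big (N : ℕ) : ∃ r : ℝ, 0 < r ∧ r < 1 ∧ 1 - 2 / ((N : ℝ) + 1) ≤ r ∧ ∃ n : ℕ,
    (N : ℝ) / 5 ≤ ∑ j ∈ Finset.range n, ‖f^[j + 1] (r * (-1)) - f^[j + 2] (r * (-1))‖ := by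
  have hN : (0 : ℝ) ≤ N := Nat.cast_nonneg N
  obtain ⟨y, hy, hyδ, n, hn⟩ := main N (δ := 1 / ((N : ℝ) + 2)) (by positivity)
    (by rw [div_le_one (by positivity)]; linarith)
  have hy1 : y < 1 := lt_of_le_of_lt hyδ (by rw [div_lt_one (by positivity)]; linarith)
  have hr0 : 0 < (1 - y) / (1 + y) := div_pos (by linarith) (by linarith)
  have hr1 : (1 - y) / (1 + y) < 1 := by rw [div_lt_one (by linarith)]; linarith
  refine ⟨(1 - y) / (1 + y), hr0, hr1, ?_, n, hn.trans (le_of_eq ?_)⟩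
  · have h1 : y ≤ 1 / ((N : ℝ) + 1) :=
      hyδ.trans (one_div_le_one_div_of_le (by positivity) (by linarith))
    have h2 : 2 / ((N : ℝ) + 1) = 2 * (1 / ((N : ℝ) + 1)) := by ring
    rw [h2, le_div_iff₀ (by linarith)]
    nlinarith
  · have hm := neg_mem hr0 hr1
    have hC : Ci (((1 - y) / (1 + y) : ℝ) * (-1)) = y * I := by
      rw [Ci_neg hr0]
      congr 2
      have : 1 + y ≠ 0 := by linarith
      field_simp; ring
    unfold W
    refine Finset.sum_congr rfl fun j _ => ?_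
    rw [f_iter hm, f_iter hm, hC]
    rfl

end Pool.Agent.H61.IrC
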