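import Pool.Agent.H61.IrC

set_option autoImplicit false

namespace Pool.Agent.H61.IrD

open Set Filter Topology Complex Metric Pool.Agent.H61.IrC

abbrev E := ZeroAtInftyContinuousMap ℕ ℂ

lemma E_le (s : E) (n : ℕ) : ‖s n‖ ≤ ‖s‖ := by
  rw [← ZeroAtInftyContinuousMap.norm_toBCF_eq_norm]
  exact s.toBCF.norm_coe_le_norm n

lemma E_tendsto (s : E) : Tendsto s atTop (𝓝 0) := by
  have := s.zero_at_infty'
  rwa [cocompact_eq_cofinite, Nat.cofinite_eq_atTop] at this

lemma summ {d : ℕ → ℂ} (hd : Summable fun j => ‖d j‖) (s : E) :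
    Summable fun j => s j * d j :=
  Summable.of_norm_bounded (hd.mul_left ‖s‖) fun j => by
    rw [norm_mul]; exact mul_le_mul_of_nonneg_right (E_le s j) (norm_nonneg _)

noncomputable def T (d : ℕ → ℂ) (hd : Summable fun j => ‖d j‖) : E →L[ℂ] ℂ :=
  LinearMap.mkContinuous
    { toFun := fun s => ∑' j, s j * d j
      map_add' := fun s t => by
        rw [← (summ hd s).tsum_add (summ hd t)]
        exact tsum_congr fun j => by simp [add_mul]
      map_smul' := fun c s => by
        rw [RingHom.id_apply, smul_eq_mul, ← tsum_mul_left]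
        exact tsum_congr fun j => by simp [mul_assoc] }
    (∑' j, ‖d j‖) fun s => by
      rw [mul_comm, ← tsum_mul_left]
      exact tsum_of_norm_bounded (hd.mul_left ‖s‖).hasSum fun j => by
        rw [norm_mul]; exact mul_le_mul_of_nonneg_right (E_le s j) (norm_nonneg _)

lemma schur (d : ℕ → ℕ → ℂ) (hd : ∀ N, Summable fun j => ‖d N j‖)
    (h : ∀ s : ℕ → ℂ, Tendsto s atTop (𝓝 0) → ∃ C, ∀ N, ‖∑' j, s j * d N j‖ ≤ C) :
    ∃ C, ∀ N n, ∑ j ∈ Finset.range n, ‖d N j‖ ≤ C := by
  obtain ⟨C, hC⟩ := banach_steinhaus (g := fun N => T (d N) (hd N)) fun s => h s (E_tendsto s)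
  refine ⟨C, fun N n => ?_⟩
  classical
  let s0 : ℕ → ℂ := fun j => if j < n then (‖d N j‖ : ℂ) / d N j else 0
  have hs0 : Tendsto s0 (cocompact ℕ) (𝓝 0) := by
    rw [cocompact_eq_cofinite, Nat.cofinite_eq_atTop]
    refine tendsto_const_nhds.congr' ?_
    filter_upwards [eventually_ge_atTop n] with j hj
    simp [s0, not_lt.2 hj]
  let s : E := ⟨⟨s0, continuous_of_discreteTopology⟩, hs0⟩
  have hs1 : ‖s‖ ≤ 1 := by
    rw [← ZeroAtInftyContinuousMap.norm_toBCF_eq_norm]
    refine (BoundedContinuousFunction.norm_le zero_le_one).2 fun j => ?_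
    show ‖s0 j‖ ≤ 1
    simp only [s0]
    split_ifs
    · rw [norm_div, Complex.norm_real, norm_norm]; exact div_self_le_one _
    · simp
  have hT : T (d N) (hd N) s = ((∑ j ∈ Finset.range n, ‖d N j‖ : ℝ) : ℂ) := by
    show ∑' j, s0 j * d N j = _
    rw [tsum_eq_sum (s := Finset.range n) (fun j hj => by
      simp [s0, Finset.mem_range.not.1 hj])]
    push_cast
    refine Finset.sum_congr rfl fun j hj => ?_
    simp only [s0, if_pos (Finset.mem_range.1 hj)]
    by_cases h0 : d N j = 0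
    · simp [h0]
    · field_simp
  have h1 := (T (d N) (hd N)).le_opNorm s
  rw [hT, Complex.norm_real, Real.norm_of_nonneg (Finset.sum_nonneg fun _ _ => norm_nonneg _)] at h1
  have h2 := hC N
  have h3 := norm_nonneg (T (d N) (hd N))
  nlinarith [norm_nonneg s]

/-- backward shift with a zero in front -/
def sh (s : ℕ → ℂ) : ℕ → ℂ
  | 0 => 0
  | n + 1 => s n

lemma tele (s : ℕ → ℂ) (N : ℕ) : ∑ n ∈ Finset.range N, (s n - sh s n) = sh s N := by
  induction N with
  | zero => simp [sh]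
  | succ N ih => rw [Finset.sum_range_succ, ih]; simp [sh]

lemma abel {s b : ℕ → ℂ} {M : ℝ} (hs : ∀ n, ‖s n‖ ≤ M) (hb : Summable fun n => ‖b n‖) :
    ∑' n, (s n - sh s n) * b n = ∑' n, s n * (b n - b (n + 1)) := by
  have h1 : Summable fun n => s n * b n :=
    Summable.of_norm_bounded (hb.mul_left M) fun j => by
      rw [norm_mul]; exact mul_le_mul_of_nonneg_right (hs j) (norm_nonneg _)
  have h2 : Summable fun n => s n * b (n + 1) :=
    Summable.of_norm_bounded (((summable_nat_add_iff 1).2 hb).mul_left M) fun j => by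
      rw [norm_mul]; exact mul_le_mul_of_nonneg_right (hs j) (norm_nonneg _)
  have h3 : Summable fun n => sh s n * b n := (summable_nat_add_iff 1).1 h2
  have h4 : ∑' n, sh s n * b n = ∑' n, s n * b (n + 1) := by
    rw [h3.tsum_eq_zero_add]; simp [sh]
  simp only [sub_mul, mul_sub]
  rw [h1.tsum_sub h3, h1.tsum_sub h2, h4]

theorem exists_bad : ∃ s : ℕ → ℂ, Tendsto s atTop (𝓝 0) ∧ ¬ ∃ l : ℂ,
    Tendsto (fun r : ℝ => ∑' n, (s n - sh s n) * f^[n + 1] (r * (-1))) (𝓝[<] 1) (𝓝 l) := by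
  by_contra hc
  push Not at hc
  choose r hr0 hr1 hrN n hn using big
  have hrt : Tendsto r atTop (𝓝[<] 1) := by
    refine tendsto_nhdsWithin_iff.2 ⟨?_, Eventually.of_forall hr1⟩
    have h1 : Tendsto (fun N : ℕ => 1 - 2 / ((N : ℝ) + 1)) atTop (𝓝 (1 - 0)) :=
      tendsto_const_nhds.sub (Tendsto.const_div_atTop
        (tendsto_atTop_add_const_right _ 1 tendsto_natCast_atTop_atTop) 2)
    rw [sub_zero] at h1
    exact tendsto_of_tendsto_of_tendsto_of_le_of_le h1 tendsto_const_nhds hrN fun N => (hr1 N).le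
  have hsum : ∀ N, Summable fun j => ‖f^[j + 1] (r N * (-1))‖ := fun N =>
    (summable_nat_add_iff (f := fun j => ‖f^[j] (r N * (-1))‖) 1).2
      (summable_iter (neg_mem (hr0 N) (hr1 N)))
  obtain ⟨C, hC⟩ := schur (fun N j => f^[j + 1] (r N * (-1)) - f^[j + 2] (r N * (-1)))
    (fun N => Summable.of_nonneg_of_le (fun _ => norm_nonneg _) (fun j => norm_sub_le _ _)
      ((hsum N).add ((summable_nat_add_iff (f := fun j => ‖f^[j + 1] (r N * (-1))‖) 1).2
        (hsum N)))) (fun s hs => by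
      obtain ⟨l, hl⟩ := hc s hs
      obtain ⟨M, hM⟩ := hs.norm.bddAbove_range
      obtain ⟨C, hC⟩ := (hl.comp hrt).norm.bddAbove_range
      refine ⟨C, fun N => ?_⟩
      rw [← abel (b := fun j => f^[j + 1] (r N * (-1))) (fun n => hM ⟨n, rfl⟩) (hsum N)]
      exact hC ⟨N, rfl⟩)
  obtain ⟨N, hN⟩ := exists_nat_gt (5 * C)
  have := (hn N).trans (hC N (n N))
  linarith

end Pool.Agent.H61.IrD
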