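import Mathlib

set_option autoImplicit false
open Filter Topology Set

namespace Pool.Agent.H61.Krein

/-- Krein theorem for an open convex cone not containing zero. -/
theorem krein {X : Type*} [NormedAddCommGroup X] [NormedSpace ℝ X] (T : X →L[ℝ] X) (O : Set X)
    (hO : IsOpen O) (hc : Convex ℝ O) (hne : O.Nonempty)
    (hs : ∀ t : ℝ, 0 < t → ∀ y ∈ O, t • y ∈ O) (h0 : (0 : X) ∉ O)
    (hT : ∀ y ∈ O, T y ∈ closure O) :
    ∃ (φ : X →L[ℝ] ℝ) (t : ℝ), φ ≠ 0 ∧ ∀ y, φ (T y) = t * φ y := by
  have hadd : ∀ a ∈ closure O, ∀ b ∈ O, a + b ∈ O := by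
    intro a ha b hb
    have h1 : (1 / 2 : ℝ) • a + (1 / 2 : ℝ) • b ∈ interior O :=
      hc.combo_closure_interior_mem_interior ha (by rwa [hO.interior_eq]) (by norm_num)
        (by norm_num) (by norm_num)
    have h2 := hs 2 (by norm_num) _ (interior_subset h1)
    have e : (2 : ℝ) • ((1 / 2 : ℝ) • a + (1 / 2 : ℝ) • b) = a + b := by
      rw [smul_add, smul_smul, smul_smul]; norm_num
    rwa [e] at h2
  have hT' : ∀ y ∈ closure O, T y ∈ closure O := by
    intro y hy
    have : MapsTo T (closure O) (closure (closure O)) :=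
      MapsTo.closure (fun y hy => hT y hy) T.continuous
    simpa using this hy
  have hcl0 : (0 : X) ∈ closure O := by
    obtain ⟨c, hcO⟩ := hne
    have ht : Tendsto (fun t : ℝ => t • c) (𝓝[>] 0) (𝓝 0) := by
      have : Tendsto (fun t : ℝ => t • c) (𝓝 0) (𝓝 ((0 : ℝ) • c)) :=
        (continuous_id.smul continuous_const).tendsto 0
      rw [zero_smul] at this
      exact this.mono_left nhdsWithin_le_nhds
    exact mem_closure_of_tendsto ht (eventually_nhdsWithin_of_forall fun t ht => hs t ht c hcO)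
  set U : Set ℝ := {t | ∃ y ∈ O, t • y - T y ∈ O} with hU
  have hUpos : ∀ t ∈ U, 0 < t := by
    rintro t ⟨y, hy, hty⟩
    by_contra hle
    push Not at hle
    have h1 : (-t) • y ∈ closure O := by
      rcases eq_or_lt_of_le hle with h | h
      · rw [h]; simpa using hcl0
      · exact subset_closure (hs _ (by linarith) y hy)
    have h2 := hadd _ h1 _ (hadd _ (hT y hy) _ hty)
    apply h0
    convert h2 using 1
    rw [neg_smul]; abel
  have hUne : U.Nonempty := by
    obtain ⟨c, hcO⟩ := hne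
    have ht : Tendsto (fun s : ℝ => c - s • T c) (𝓝[>] 0) (𝓝 c) := by
      have : Tendsto (fun s : ℝ => c - s • T c) (𝓝 0) (𝓝 (c - (0 : ℝ) • T c)) :=
        (continuous_const.sub (continuous_id.smul continuous_const)).tendsto 0
      rw [zero_smul, sub_zero] at this
      exact this.mono_left nhdsWithin_le_nhds
    obtain ⟨s, hs1, hs2⟩ := ((ht.eventually (hO.mem_nhds hcO)).and self_mem_nhdsWithin).exists
    have hs2' : 0 < s := hs2
    refine ⟨s⁻¹, c, hcO, ?_⟩
    have := hs s⁻¹ (inv_pos.2 hs2') _ hs1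
    rwa [smul_sub, smul_smul, inv_mul_cancel₀ hs2'.ne', one_smul] at this
  have hUbd : BddBelow U := ⟨0, fun t ht => (hUpos t ht).le⟩
  set μ := sInf U with hμ
  have hμ0 : 0 ≤ μ := le_csInf hUne fun t ht => (hUpos t ht).le
  by_contra hno
  push Not at hno
  have hy : ∃ y, μ • y - T y ∈ O := by
    by_contra hy
    push Not at hy
    let R : Submodule ℝ X := LinearMap.range ((μ • ContinuousLinearMap.id ℝ X - T : X →L[ℝ] X) :
      X →ₗ[ℝ] X)
    have hdis : Disjoint O (R : Set X) := by
      rw [Set.disjoint_left]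
      rintro a ha ⟨y, rfl⟩
      exact hy y (by simpa using ha)
    obtain ⟨f, u, hf1, hf2⟩ := geometric_hahn_banach_open hc hO R.convex hdis
    have hu : u ≤ 0 := by simpa using hf2 0 R.zero_mem
    have hf0 : ∀ b ∈ R, f b = 0 := by
      intro b hb
      by_contra hb0
      have := hf2 (((u - 1) / f b) • b) (R.smul_mem _ hb)
      rw [map_smul, smul_eq_mul, div_mul_cancel₀ _ hb0] at this
      linarith
    obtain ⟨c, hcO⟩ := hne
    have hfne : f ≠ 0 := by
      intro h
      have := hf1 c hcO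
      rw [h] at this
      simp at this
      linarith
    obtain ⟨y, hy⟩ := hno f μ hfne
    apply hy
    have := hf0 (μ • y - T y) ⟨y, by simp⟩
    rw [map_sub, map_smul, smul_eq_mul] at this
    linarith
  obtain ⟨y, hy⟩ := hy
  have hcont : Continuous fun t : ℝ => t • y - T y :=
    (continuous_id.smul continuous_const).sub continuous_const
  obtain ⟨ε, hε, hball⟩ := Metric.mem_nhds_iff.1 (hcont.continuousAt (x := μ) (hO.mem_nhds hy))
  obtain ⟨t, htU, htlt⟩ := exists_lt_of_csInf_lt hUne (show sInf U < μ + ε by linarith)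
  have htge : μ ≤ t := csInf_le hUbd htU
  have htpos := hUpos t htU
  obtain ⟨z, hz, htz⟩ := htU
  have hty : t • y - T y ∈ O := by
    apply hball
    rw [Metric.mem_ball, Real.dist_eq, abs_lt]
    constructor <;> linarith
  set S : Set ℝ := {σ | 0 ≤ σ ∧ y + σ • z ∈ closure O} with hS
  have hSc : IsClosed S :=
    (isClosed_le continuous_const continuous_id).inter
      (isClosed_closure.preimage (continuous_const.add (continuous_id.smul continuous_const)))
  have hSne : S.Nonempty := by
    have ht : Tendsto (fun s : ℝ => s • y + z) (𝓝[>] 0) (𝓝 z) := by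
      have : Tendsto (fun s : ℝ => s • y + z) (𝓝 0) (𝓝 ((0 : ℝ) • y + z)) :=
        ((continuous_id.smul continuous_const).add continuous_const).tendsto 0
      rw [zero_smul, zero_add] at this
      exact this.mono_left nhdsWithin_le_nhds
    obtain ⟨s, hs1, hs2⟩ := ((ht.eventually (hO.mem_nhds hz)).and self_mem_nhdsWithin).exists
    have hs2' : 0 < s := hs2
    refine ⟨s⁻¹, (inv_pos.2 hs2').le, subset_closure ?_⟩
    have := hs s⁻¹ (inv_pos.2 hs2') _ hs1
    rwa [smul_add, smul_smul, inv_mul_cancel₀ hs2'.ne', one_smul] at this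
  have hSbd : BddBelow S := ⟨0, fun σ h => h.1⟩
  have hσ := hSc.csInf_mem hSne hSbd
  have hycl : y ∈ closure O := by
    rcases eq_or_lt_of_le hσ.1 with h | h
    · have := hσ.2
      rwa [← h, zero_smul, add_zero] at this
    · exfalso
      set σ := sInf S with hσdef
      have h1 : t • (y + σ • z) ∈ O := by
        have h2 := hadd _ (hT' _ hσ.2) _ (hadd _ (subset_closure hty) _ (hs σ h _ htz))
        convert h2 using 1
        rw [map_add, map_smul, smul_add, smul_sub, smul_comm t σ z]; abel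
      have h2 : y + σ • z ∈ O := by
        have := hs t⁻¹ (inv_pos.2 htpos) _ h1
        rwa [smul_smul, inv_mul_cancel₀ htpos.ne', one_smul] at this
      have hcont2 : Continuous fun s : ℝ => y + s • z :=
        continuous_const.add (continuous_id.smul continuous_const)
      obtain ⟨η, hη, hball2⟩ :=
        Metric.mem_nhds_iff.1 (hcont2.continuousAt (x := σ) (hO.mem_nhds h2))
      have h3 : σ - min σ (η / 2) ∈ S := by
        refine ⟨by linarith [min_le_left σ (η / 2)], subset_closure (hball2 ?_)⟩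
        rw [Metric.mem_ball, Real.dist_eq, abs_lt]
        have := min_le_right σ (η / 2)
        have := lt_min h (half_pos hη)
        constructor <;> linarith
      have h4 := csInf_le hSbd h3
      have := lt_min h (half_pos hη)
      linarith
  have h1 : μ • y ∈ O := by
    have := hadd _ (hT' y hycl) _ hy
    convert this using 1
    abel
  have hμpos : 0 < μ := by
    rcases eq_or_lt_of_le hμ0 with h | h
    · exfalso; apply h0; rwa [← h, zero_smul] at h1
    · exact h
  have hyO : y ∈ O := by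
    have := hs μ⁻¹ (inv_pos.2 hμpos) _ h1
    rwa [smul_smul, inv_mul_cancel₀ hμpos.ne', one_smul] at this
  have h2 : μ - ε / 2 ∈ U := by
    refine ⟨y, hyO, hball ?_⟩
    rw [Metric.mem_ball, Real.dist_eq, abs_lt]
    constructor <;> linarith
  have := csInf_le hUbd h2
  linarith

/-- Every bounded operator on a nonzero complex Banach space has an approximate eigenvalue. -/
theorem approx_eigen {W : Type*} [NormedAddCommGroup W] [NormedSpace ℂ W] [CompleteSpace W]
    [Nontrivial W] (Φ : W →L[ℂ] W) :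
    ∃ l : ℂ, ∀ ε : ℝ, 0 < ε → ∃ w : W, ‖w‖ = 1 ∧ ‖Φ w - l • w‖ < ε := by
  have hne : (spectrum ℂ Φ).Nonempty := spectrum.nonempty Φ
  have hcomp : IsCompact (spectrum ℂ Φ) := spectrum.isCompact Φ
  have hnu : spectrum ℂ Φ ≠ univ := fun h => by
    rw [h] at hcomp
    exact noncompact_univ ℂ hcomp
  obtain ⟨l, hl⟩ : (frontier (spectrum ℂ Φ)).Nonempty := by
    rw [nonempty_frontier_iff]; exact ⟨hne, hnu⟩
  have hl1 : l ∈ spectrum ℂ Φ := hcomp.isClosed.frontier_subset hl
  have hl2 : l ∈ closure (spectrum ℂ Φ)ᶜ := by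
    rw [frontier_eq_closure_inter_closure] at hl; exact hl.2
  refine ⟨l, fun ε hε => ?_⟩
  by_contra hno
  push Not at hno
  have hlow : ∀ w : W, ε * ‖w‖ ≤ ‖Φ w - l • w‖ := by
    intro w
    by_cases hw : w = 0
    · simp [hw]
    · have hn : 0 < ‖w‖ := norm_pos_iff.2 hw
      have h1 := hno (((‖w‖⁻¹ : ℝ) : ℂ) • w) (by
        rw [norm_smul, Complex.norm_real, Real.norm_eq_abs, abs_of_pos (inv_pos.2 hn),
          inv_mul_cancel₀ hn.ne'])
      rw [map_smul, smul_comm l, ← smul_sub, norm_smul, Complex.norm_real, Real.norm_eq_abs,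
        abs_of_pos (inv_pos.2 hn)] at h1
      calc ε * ‖w‖ ≤ ‖w‖⁻¹ * ‖Φ w - l • w‖ * ‖w‖ := by gcongr
        _ = ‖Φ w - l • w‖ := by field_simp
  obtain ⟨m, hm, hd⟩ := Metric.mem_closure_iff.1 hl2 (ε / 2) (half_pos hε)
  have hu : IsUnit (algebraMap ℂ (W →L[ℂ] W) m - Φ) := by
    simpa [spectrum.mem_iff] using hm
  obtain ⟨u, hu⟩ := hu
  have hinv : ‖(↑u⁻¹ : W →L[ℂ] W)‖ ≤ 2 / ε := by
    refine ContinuousLinearMap.opNorm_le_bound _ (by positivity) fun w => ?_
    set v := (↑u⁻¹ : W →L[ℂ] W) w with hv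
    have e1 : (u : W →L[ℂ] W) v = w := by
      rw [hv, ← mul_apply_eq_comp, Units.mul_inv]; rfl
    have e2 : w = m • v - Φ v := by
      rw [← e1, hu]; simp
    have h1 := hlow v
    have h2 : ‖Φ v - l • v‖ ≤ ‖w‖ + ε / 2 * ‖v‖ := by
      have : Φ v - l • v = -w + (m - l) • v := by rw [e2, sub_smul]; abel
      rw [this]
      refine (norm_add_le _ _).trans ?_
      rw [norm_neg, norm_smul]
      gcongr
      rw [dist_comm, dist_eq_norm] at hd
      exact hd.le
    rw [div_mul_eq_mul_div, le_div_iff₀ hε]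
    linarith
  apply hl1
  have hsmall : ‖(m - l) • (↑u⁻¹ : W →L[ℂ] W)‖ < 1 := by
    rw [norm_smul]
    rw [dist_comm, dist_eq_norm] at hd
    calc ‖m - l‖ * ‖(↑u⁻¹ : W →L[ℂ] W)‖ ≤ ‖m - l‖ * (2 / ε) := by gcongr
      _ < ε / 2 * (2 / ε) := by gcongr
      _ = 1 := by field_simp
  have hunit : IsUnit ((u : W →L[ℂ] W) * (1 - (m - l) • (↑u⁻¹ : W →L[ℂ] W))) :=
    u.isUnit.mul (Units.oneSub _ hsmall).isUnit
  have e : (u : W →L[ℂ] W) * (1 - (m - l) • (↑u⁻¹ : W →L[ℂ] W)) =
      algebraMap ℂ (W →L[ℂ] W) l - Φ := by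
    rw [mul_sub, mul_one, mul_smul_comm, Units.mul_inv, hu, Algebra.algebraMap_eq_smul_one,
      Algebra.algebraMap_eq_smul_one, sub_smul]
    abel
  rw [e] at hunit
  exact hunit

end Pool.Agent.H61.Krein
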