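import Mathlib

/-
Lacunary cosine sums with bounded ratios: near the origin all cosines are close to one.
-/

set_option autoImplicit false
open Filter Topology MeasureTheory Real

namespace Pool.Agent.H61.Lacun

theorem exists_eta : ∃ η : ℝ, 1 < η ∧ Transcendental ℚ η := by
  by_contra h
  push Not at h
  have h1 : Set.Ioi (1 : ℝ) ⊆ {x : ℝ | IsAlgebraic ℚ x} := fun x hx => by
    have := h x hx
    unfold Transcendental at this
    push Not at this
    exact this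
  have h2 : volume {x : ℝ | IsAlgebraic ℚ x} = 0 := (Algebraic.countable ℚ ℝ).measure_zero _
  have h3 := measure_mono_null h1 h2
  simp at h3

theorem ratio {η : ℝ} (h : 1 < η) :
    Tendsto (fun k : ℕ => ((⌈η ^ (k + 1)⌉₊ : ℕ) : ℝ) / ((⌈η ^ k⌉₊ : ℕ) : ℝ)) atTop (𝓝 η) := by
  have h0 : Tendsto (fun k : ℕ => η ^ k) atTop atTop := tendsto_pow_atTop_atTop_of_one_lt h
  have h1 : Tendsto (fun k : ℕ => ((⌈η ^ k⌉₊ : ℕ) : ℝ) / η ^ k) atTop (𝓝 1) :=
    tendsto_nat_ceil_div_atTop.comp h0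
  have h2 := h1.comp (tendsto_add_atTop_nat 1)
  have h3 := (h2.div h1 one_ne_zero).const_mul η
  simp only [div_one, mul_one] at h3
  refine h3.congr fun k => ?_
  have hη : 0 < η := by linarith
  have hp : (0 : ℝ) < ((⌈η ^ k⌉₊ : ℕ) : ℝ) := by
    exact_mod_cast Nat.ceil_pos.2 (by positivity)
  simp only [Function.comp, Pi.div_apply]
  field_simp
  ring

theorem small (E : ℝ) : ∃ l : ℝ, 0 < l ∧
    Real.log (∫ t in (0 : ℝ)..1, Real.exp (l * Real.cos (2 * π * t))) ≤ l - E := by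
  have hT : Tendsto (fun l : ℕ => ∫ t in (0 : ℝ)..1, Real.exp (Real.cos (2 * π * t) - 1) ^ l)
      atTop (𝓝 (∫ _t in (0 : ℝ)..1, (0 : ℝ))) := by
    refine intervalIntegral.tendsto_integral_filter_of_dominated_convergence (fun _ => 1) ?_ ?_ ?_ ?_
    · exact Eventually.of_forall fun l => Continuous.aestronglyMeasurable (by fun_prop)
    · refine Eventually.of_forall fun l => Eventually.of_forall fun t _ => ?_
      rw [Real.norm_eq_abs, abs_of_nonneg (by positivity)]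
      exact pow_le_one₀ (by positivity)
        (Real.exp_le_one_iff.2 (by linarith [Real.cos_le_one (2 * π * t)]))
    · simp
    · have hae : ∀ᵐ t : ℝ, t ≠ 1 := by simp [ae_iff, measure_singleton]
      filter_upwards [hae] with t ht1 ht
      rw [Set.uIoc_of_le zero_le_one] at ht
      refine tendsto_pow_atTop_nhds_zero_of_lt_one (by positivity) (Real.exp_lt_one_iff.2 ?_)
      have hlt : t < 1 := lt_of_le_of_ne ht.2 ht1
      have hne : Real.cos (2 * π * t) ≠ 1 := by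
        intro hc
        have := (Real.cos_eq_one_iff_of_lt_of_lt (x := 2 * π * t)
          (by nlinarith [Real.pi_pos, ht.1]) (by nlinarith [Real.pi_pos])).1 hc
        nlinarith [Real.pi_pos, ht.1]
      have := lt_of_le_of_ne (Real.cos_le_one (2 * π * t)) hne
      linarith
  simp only [intervalIntegral.integral_zero] at hT
  obtain ⟨l, hl, hl1⟩ := ((hT.eventually (gt_mem_nhds (Real.exp_pos (-E)))).and
    (eventually_ge_atTop 1)).exists
  refine ⟨l, by exact_mod_cast hl1, ?_⟩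
  have h1 : ∫ t in (0 : ℝ)..1, Real.exp (l * Real.cos (2 * π * t)) =
      Real.exp l * ∫ t in (0 : ℝ)..1, Real.exp (Real.cos (2 * π * t) - 1) ^ l := by
    rw [← intervalIntegral.integral_const_mul]
    refine intervalIntegral.integral_congr fun t _ => ?_
    rw [← Real.exp_nat_mul, ← Real.exp_add]
    congr 1
    ring
  have h2 : 0 < ∫ t in (0 : ℝ)..1, Real.exp (l * Real.cos (2 * π * t)) :=
    intervalIntegral.intervalIntegral_pos_of_pos
      (Continuous.intervalIntegrable (by fun_prop) _ _) (fun _ => Real.exp_pos _) one_pos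
  rw [Real.log_le_iff_le_exp h2, h1, sub_eq_add_neg (l : ℝ), Real.exp_add]
  exact mul_le_mul_of_nonneg_left hl.le (Real.exp_pos _).le

theorem near {η ε : ℝ} (h : 1 < η) (hε : 0 < ε) (hε1 : ε ≤ 1) {n : ℕ} (hn : 1 ≤ n) :
    Set.Icc (0 : ℝ) (ε / (2 * η ^ n)) ⊆ Set.Icc (0 : ℝ) 1 ∩
      {ω : ℝ | (∑ k ∈ Finset.range n, Real.cos (2 * π * ((⌈η ^ k⌉₊ : ℕ) : ℝ) * ω)) / (n : ℝ)
        ∈ Set.Ici (1 - (2 * π * ε) ^ 2 / 2)} := by
  intro ω hω
  have hp : 1 ≤ η ^ n := one_le_pow₀ h.le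
  have hω2 : ω * (2 * η ^ n) ≤ ε := (le_div_iff₀ (by positivity)).1 hω.2
  refine ⟨⟨hω.1, by nlinarith [hω.1]⟩, ?_⟩
  have hn' : (0 : ℝ) < n := by exact_mod_cast hn
  simp only [Set.mem_ofPred_eq, Set.mem_Ici]
  rw [le_div_iff₀ hn']
  have h1 : ∀ k ∈ Finset.range n,
      1 - (2 * π * ε) ^ 2 / 2 ≤ Real.cos (2 * π * ((⌈η ^ k⌉₊ : ℕ) : ℝ) * ω) := by
    intro k hk
    have e1 : η ^ k ≤ η ^ n := pow_le_pow_right₀ h.le (Finset.mem_range.1 hk).le
    have e2 : ((⌈η ^ k⌉₊ : ℕ) : ℝ) ≤ 2 * η ^ n := by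
      have := (Nat.ceil_lt_add_one (a := η ^ k) (by positivity)).le
      linarith
    have e3 : ((⌈η ^ k⌉₊ : ℕ) : ℝ) * ω ≤ ε := by nlinarith [hω.1]
    have e4 : 0 ≤ ((⌈η ^ k⌉₊ : ℕ) : ℝ) * ω := mul_nonneg (Nat.cast_nonneg _) hω.1
    refine le_trans ?_ Real.one_sub_sq_div_two_le_cos
    have e5 : (2 * π * ((⌈η ^ k⌉₊ : ℕ) : ℝ) * ω) ^ 2 ≤ (2 * π * ε) ^ 2 := by
      rw [mul_assoc (2 * π)]
      have := Real.pi_pos
      gcongr
    linarith
  have := Finset.card_nsmul_le_sum _ _ _ h1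
  rw [Finset.card_range, nsmul_eq_mul] at this
  linarith

theorem main (h : ∀ (a : ℕ → ℕ) (η : ℝ), 1 < η → Transcendental ℚ η → (∀ k, 0 < a k) →
      Tendsto (fun k : ℕ => (a (k + 1) : ℝ) / (a k : ℝ)) atTop (𝓝 η) →
      ∀ F : Set ℝ, IsClosed F →
          limsup (fun n : ℕ => ((((n : ℝ)⁻¹ : ℝ)) : EReal) *
              ENNReal.log (volume (Set.Icc (0 : ℝ) 1 ∩
                {ω : ℝ | (∑ k ∈ Finset.range n, Real.cos (2 * π * (a k : ℝ) * ω)) / (n : ℝ) ∈ F})))
            atTop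
          ≤ - ⨅ x ∈ F, ⨆ l : ℝ,
              (((l * x - Real.log (∫ t in (0 : ℝ)..1, Real.exp (l * Real.cos (2 * π * t)))) : ℝ) : EReal)) :
    False := by
  obtain ⟨η, h1, hT⟩ := exists_eta
  have hη : 0 < η := by linarith
  obtain ⟨l, hl0, hl⟩ := small (Real.log η + 3)
  have hpi := Real.pi_pos
  obtain ⟨ε, hε, hε1, hεl⟩ : ∃ ε : ℝ, 0 < ε ∧ ε ≤ 1 ∧ l * ((2 * π * ε) ^ 2 / 2) ≤ 1 := by
    refine ⟨1 / (1 + l * (2 * π) ^ 2), by positivity, ?_, ?_⟩
    · rw [div_le_one (by positivity)]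
      have : 0 ≤ l * (2 * π) ^ 2 := by positivity
      linarith
    · set A := l * (2 * π) ^ 2 with hA
      have hA0 : 0 ≤ A := by positivity
      have : l * ((2 * π * (1 / (1 + A))) ^ 2 / 2) = A / (2 * (1 + A) ^ 2) := by
        rw [hA]; field_simp
      rw [this, div_le_one (by positivity)]
      nlinarith
  have h2 := h (fun k => ⌈η ^ k⌉₊) η h1 hT (fun k => Nat.ceil_pos.2 (by positivity)) (ratio h1)
    (Set.Ici (1 - (2 * π * ε) ^ 2 / 2)) isClosed_Ici
  have h3 : ((Real.log η + 2 : ℝ) : EReal) ≤ ⨅ x ∈ Set.Ici (1 - (2 * π * ε) ^ 2 / 2), ⨆ l : ℝ,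
      (((l * x - Real.log (∫ t in (0 : ℝ)..1, Real.exp (l * Real.cos (2 * π * t)))) : ℝ) : EReal) := by
    refine le_iInf₂ fun x hx => le_iSup_of_le l ?_
    rw [EReal.coe_le_coe_iff]
    have := mul_le_mul_of_nonneg_left (Set.mem_Ici.1 hx) hl0.le
    linarith
  have h4 := h2.trans (EReal.neg_le_neg_iff.2 h3)
  have h5 : Tendsto (fun n : ℕ => (n : ℝ)⁻¹ * Real.log (ε / 2)) atTop (𝓝 0) := by
    simpa using (tendsto_inv_atTop_nhds_zero_nat (𝕜 := ℝ)).mul_const (Real.log (ε / 2))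
  have h6 := le_trans (Filter.le_limsup_of_frequently_le' (x := ((-(Real.log η + 1) : ℝ) : EReal))
    (Eventually.frequently ?_)) h4
  · rw [← EReal.coe_neg, EReal.coe_le_coe_iff] at h6
    linarith
  filter_upwards [h5.eventually (lt_mem_nhds (by norm_num : (-1 : ℝ) < 0)), eventually_ge_atTop 1]
    with n hn hn1
  have hn' : (0 : ℝ) < n := by exact_mod_cast hn1
  have hd : 0 < ε / (2 * η ^ n) := by positivity
  have e1 := measure_mono (μ := volume) (near h1 hε hε1 hn1)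
  rw [Real.volume_Icc, sub_zero] at e1
  have e2 := ENNReal.log_monotone e1
  rw [ENNReal.log_ofReal_of_pos hd] at e2
  refine le_trans ?_ (mul_le_mul_of_nonneg_left e2 (by exact_mod_cast (inv_pos.2 hn').le))
  rw [← EReal.coe_mul, EReal.coe_le_coe_iff, ← div_div, Real.log_div (by positivity) (by positivity),
    Real.log_pow, mul_sub, ← mul_assoc, inv_mul_cancel₀ hn'.ne', one_mul]
  linarith

end Pool.Agent.H61.Lacun
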