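import Mathlib

set_option autoImplicit false

namespace Pool.Agent.H61.LdDefs

open scoped ZeroAtInfty
open Filter Topology

/-- Toeplitz representations of the correspondence of a dynamical system: the correspondence is
C0 with actions (f F g)(x) = f(σ x) F(x) g(x) and inner product conj(F) G. -/
structure IsToeplitz {Ω : Type} [TopologicalSpace Ω] (σ : CocompactMap Ω Ω) {B : Type}
    [NonUnitalCStarAlgebra B] (π : C₀(Ω, ℂ) →⋆ₙₐ[ℂ] B) (t : C₀(Ω, ℂ) →ₗ[ℂ] B) : Prop where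
  left : ∀ f F : C₀(Ω, ℂ), π f * t F = t (f.comp σ * F)
  right : ∀ F g : C₀(Ω, ℂ), t F * π g = t (F * g)
  inner : ∀ F G : C₀(Ω, ℂ), star (t F) * t G = π (star F * G)

/-- The universal property: every Toeplitz representation factors through a star homomorphism. -/
def IsUniversal {Ω : Type} [TopologicalSpace Ω] (σ : CocompactMap Ω Ω) {B : Type}
    [NonUnitalCStarAlgebra B] (π : C₀(Ω, ℂ) →⋆ₙₐ[ℂ] B) (t : C₀(Ω, ℂ) →ₗ[ℂ] B) : Prop :=
  IsToeplitz σ π t ∧ ∀ (B' : Type) [NonUnitalCStarAlgebra B'] (π' : C₀(Ω, ℂ) →⋆ₙₐ[ℂ] B')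
    (t' : C₀(Ω, ℂ) →ₗ[ℂ] B'), IsToeplitz σ π' t' →
      ∃ ρ : B →⋆ₙₐ[ℂ] B', (∀ f, ρ (π f) = π' f) ∧ ∀ F, ρ (t F) = t' F

/-- The tensor algebra: the norm-closed subalgebra generated by the images of π and t. -/
noncomputable def tensorAlg {Ω : Type} [TopologicalSpace Ω] {B : Type} [NonUnitalCStarAlgebra B]
    (π : C₀(Ω, ℂ) →⋆ₙₐ[ℂ] B) (t : C₀(Ω, ℂ) →ₗ[ℂ] B) : NonUnitalSubalgebra ℂ B :=
  (NonUnitalAlgebra.adjoin ℂ (Set.range π ∪ Set.range t)).topologicalClosure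

/-- Bounded derivations. -/
def IsDer {A : Type} [NonUnitalRing A] [Module ℂ A] [TopologicalSpace A] (d : A →L[ℂ] A) : Prop :=
  ∀ a b : A, d (a * b) = d a * b + a * d b

/-- Approximately local derivations. -/
def ApproxLocal {A : Type} [NonUnitalRing A] [Module ℂ A] [TopologicalSpace A] (δ : A →L[ℂ] A) :
    Prop :=
  ∀ a : A, ∃ d : ℕ → (A →L[ℂ] A), (∀ n, IsDer (d n)) ∧ Tendsto (fun n => d n a) atTop (𝓝 (δ a))

end Pool.Agent.H61.LdDefs
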