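import Mathlib
import Pool.Agent.H61.LdDefs

set_option autoImplicit false

namespace Pool.Agent.H61.Ld

open Filter Topology LdDefs
open scoped Classical

section abs

variable {A : Type} [NonUnitalRing A] [Module ℂ A] [TopologicalSpace A] [IsScalarTower ℂ A A]
  [SMulCommClass ℂ A A]

omit [IsScalarTower ℂ A A] [SMulCommClass ℂ A A] in
lemma kad {M : Type} [Ring M] [Algebra ℂ M] [TopologicalSpace M] [IsTopologicalRing M] [T2Space M]
    (ρ : A →ₗ[ℂ] M) (hc : Continuous ρ) (hm : ∀ a b, ρ (a * b) = ρ a * ρ b) {δ : A →L[ℂ] A}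
    (hδ : ApproxLocal δ) {e f : A} (he : ρ e * ρ e = ρ e) (hf : ρ f * ρ f = ρ f) :
    ρ (δ (e * f)) = ρ (δ e) * ρ f + ρ e * ρ (δ f) := by
  have tr : ∀ (a : A) (p q : M), (∀ d, IsDer d → p * ρ (d a) * q = 0) → p * ρ (δ a) * q = 0 :=
    fun a p q h => by
      obtain ⟨d, d1, d2⟩ := hδ a
      have := (((hc.tendsto _).comp d2).const_mul p).mul_const q
      simp only [Function.comp_def, h _ (d1 _)] at this
      exact tendsto_nhds_unique this tendsto_const_nhds
  have h1 := tr (e * f) (1 - ρ e) (1 - ρ f) fun d hd => by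
    rw [hd, map_add, hm, hm]
    calc _ = (1 - ρ e) * ρ (d e) * (ρ f - ρ f * ρ f) + (ρ e - ρ e * ρ e) * ρ (d f) * (1 - ρ f) := by
          noncomm_ring
      _ = 0 := by simp [he, hf]
  have h2 := tr (e - e * f) (1 - ρ e) (ρ f) fun d hd => by
    rw [map_sub, hd, map_sub, map_add, hm, hm]
    calc _ = (1 - ρ e) * ρ (d e) * (ρ f - ρ f * ρ f) - (ρ e - ρ e * ρ e) * ρ (d f) * ρ f := by
          noncomm_ring
      _ = 0 := by simp [he, hf]
  have h3 := tr (f - e * f) (ρ e) (1 - ρ f) fun d hd => by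
    rw [map_sub, hd, map_sub, map_add, hm, hm]
    calc _ = (ρ e - ρ e * ρ e) * ρ (d f) * (1 - ρ f) - ρ e * ρ (d e) * (ρ f - ρ f * ρ f) := by
          noncomm_ring
      _ = 0 := by simp [he, hf]
  have h4 := tr (e * f - e - f) (ρ e) (ρ f) fun d hd => by
    simp only [map_sub]
    rw [hd, map_add, hm, hm]
    calc _ = - (ρ e * ρ (d e) * (ρ f - ρ f * ρ f)) - (ρ e - ρ e * ρ e) * ρ (d f) * ρ f := by
          noncomm_ring
      _ = 0 := by simp [he, hf]
  simp only [map_sub] at h2 h3 h4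
  rw [← sub_eq_zero]
  calc _ = (1 - ρ e) * ρ (δ (e * f)) * (1 - ρ f) - (1 - ρ e) * (ρ (δ e) - ρ (δ (e * f))) * ρ f
        - ρ e * (ρ (δ f) - ρ (δ (e * f))) * (1 - ρ f)
        + ρ e * (ρ (δ (e * f)) - ρ (δ e) - ρ (δ f)) * ρ f := by noncomm_ring
    _ = 0 := by rw [h1, h2, h3, h4]; simp

omit [TopologicalSpace A] [IsScalarTower ℂ A A] [SMulCommClass ℂ A A] in
lemma span_idem {T : Type} [Fintype T] (ρ : A →ₗ[ℂ] Matrix T T ℂ)
    (hm : ∀ a b, ρ (a * b) = ρ a * ρ b) (p : T → A) (hp : ∀ y, ρ (p y) = Matrix.single y y 1)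
    (a : A) : a ∈ Submodule.span ℂ {e | ρ e * ρ e = ρ e} := by
  have h1 : ∀ y z, ρ (p y * a * p z) = Matrix.single y z (ρ a y z) := fun y z => by
    rw [hm, hm, hp, hp, Matrix.single_mul_mul_single]
    simp
  have h2 : ∀ y z, p y * a * p z ∈ Submodule.span ℂ {e | ρ e * ρ e = ρ e} := fun y z => by
    by_cases h : y = z
    · subst h
      have : p y * a * p y = (p y * a * p y - ρ a y y • p y) + ρ a y y • p y := by abel
      rw [this]
      refine add_mem (Submodule.subset_span ?_) (Submodule.smul_mem _ _ (Submodule.subset_span ?_))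
      · simp [h1, hp]
      · simp [hp]
    · have : p y * a * p z = (p z + p y * a * p z) - p z := by abel
      rw [this]
      refine sub_mem (Submodule.subset_span ?_) (Submodule.subset_span ?_)
      · simp [h1, hp, mul_add, add_mul, Ne.symm h]
      · simp [hp]
  have : a = (a - ∑ y, ∑ z, p y * a * p z) + ∑ y, ∑ z, p y * a * p z := by abel
  rw [this]
  refine add_mem (Submodule.subset_span ?_) (sum_mem fun y _ => sum_mem fun z _ => h2 y z)
  simp only [Set.mem_ofPred_eq, map_sub, map_sum, h1, ← Matrix.matrix_eq_sum_single, sub_self,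
    mul_zero]

lemma mat_der {T : Type} [Fintype T] (ρ : A →ₗ[ℂ] Matrix T T ℂ) (hc : Continuous ρ)
    (hm : ∀ a b, ρ (a * b) = ρ a * ρ b) (p : T → A) (hp : ∀ y, ρ (p y) = Matrix.single y y 1)
    {δ : A →L[ℂ] A} (hδ : ApproxLocal δ) (a b : A) :
    ρ (δ (a * b) - (δ a * b + a * δ b)) = 0 := by
  rw [map_sub, map_add, hm, hm, sub_eq_zero]
  induction span_idem ρ hm p hp a using Submodule.span_induction with
  | zero => simp
  | add x y _ _ h1 h2 => simp only [add_mul, map_add, h1, h2]; abel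
  | smul c x _ h => simp only [smul_mul_assoc, map_smul, h, smul_add]
  | mem e he =>
    induction span_idem ρ hm p hp b using Submodule.span_induction with
    | zero => simp
    | add x y _ _ h1 h2 => simp only [mul_add, map_add, h1, h2]; abel
    | smul c x _ h => simp only [mul_smul_comm, map_smul, h, smul_add]
    | mem f hf => exact kad ρ hc hm hδ he hf

end abs

end Pool.Agent.H61.Ld
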