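import Mathlib
import Pool.Agent.H61.LdDefs

set_option autoImplicit false

namespace Pool.Agent.H61.Ld

open Filter Topology LdDefs
open scoped Classical ZeroAtInfty InnerProductSpace

/-- the sequence space -/
noncomputable abbrev H := lp (fun _ : ℕ => ℂ) 2

/-- basis vectors -/
noncomputable def e (j : ℕ) : H := lp.single 2 j 1

lemma ext_e {f g : H →L[ℂ] H} (h : ∀ j, f (e j) = g (e j)) : f = g :=
  lp.ext_continuousLinearMap (by simp) fun j => ContinuousLinearMap.ext_ring (h j)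

lemma on_e : Orthonormal ℂ e := by
  rw [orthonormal_iff_ite]
  intro i j
  simp [e, lp.inner_single_left, Pi.single_apply]

/-- diagonal operators -/
noncomputable def D (c : ℕ → ℂ) (K : ℝ) (h : ∀ j, ‖c j‖ ≤ K) : H →L[ℂ] H :=
  lp.mapCLM 2 (fun j => c j • ContinuousLinearMap.id ℂ ℂ) ((norm_nonneg _).trans (h 0))
    fun j => by simpa [norm_smul] using h j

lemma D_apply (c : ℕ → ℂ) (K : ℝ) (h : ∀ j, ‖c j‖ ≤ K) (v : H) (j : ℕ) :
    D c K h v j = c j * v j := rfl

lemma D_e (c : ℕ → ℂ) (K : ℝ) (h : ∀ j, ‖c j‖ ≤ K) (j : ℕ) : D c K h (e j) = c j • e j := by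
  ext i
  by_cases hi : i = j <;> simp [D_apply, e, hi]

lemma D_norm (c : ℕ → ℂ) (K : ℝ) (h : ∀ j, ‖c j‖ ≤ K) : ‖D c K h‖ ≤ K := lp.norm_mapCLM_le _ _ _ _

/-- the shift -/
noncomputable def S : H →ₗᵢ[ℂ] H :=
  (on_e.comp Nat.succ Nat.succ_injective).orthogonalFamily.linearIsometry

lemma S_e (j : ℕ) : S (e j) = e (j + 1) := by
  rw [S, e, OrthogonalFamily.linearIsometry_apply_single]
  simp

variable {Ω : Type} [TopologicalSpace Ω] (σ : CocompactMap Ω Ω)

lemma nb (f : C₀(Ω, ℂ)) (x : Ω) : ‖f x‖ ≤ ‖f‖ := f.toBCF.norm_coe_le_norm x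

/-- orbit representation of the functions -/
noncomputable def orbP (x : Ω) : C₀(Ω, ℂ) →⋆ₙₐ[ℂ] (H →L[ℂ] H) where
  toFun f := D (fun j => f (σ^[j] x)) ‖f‖ fun _ => nb f _
  map_smul' c f := ext_e fun j => by simp [D_e, mul_smul]
  map_zero' := ext_e fun j => by simp [D_e]
  map_add' f g := ext_e fun j => by simp [D_e, add_smul]
  map_mul' f g := ext_e fun j => by simp [D_e, smul_smul, mul_comm]
  map_star' f := by
    rw [ContinuousLinearMap.star_eq_adjoint, ContinuousLinearMap.eq_adjoint_iff]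
    intro u v
    simp only [lp.inner_eq_tsum, D_apply]
    refine tsum_congr fun j => ?_
    simp
    ring

lemma orbP_e (x : Ω) (f : C₀(Ω, ℂ)) (j : ℕ) : orbP σ x f (e j) = f (σ^[j] x) • e j :=
  D_e (fun j => f (σ^[j] x)) _ (fun _ => nb f _) _

/-- orbit representation of the correspondence -/
noncomputable def orbT (x : Ω) : C₀(Ω, ℂ) →ₗ[ℂ] (H →L[ℂ] H) where
  toFun f := S.toContinuousLinearMap * orbP σ x f
  map_add' f g := by rw [map_add, mul_add]
  map_smul' c f := by simp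

lemma orbT_e (x : Ω) (f : C₀(Ω, ℂ)) (j : ℕ) : orbT σ x f (e j) = f (σ^[j] x) • e (j + 1) := by
  simp [orbT, orbP_e, S_e]

lemma orb (x : Ω) : IsToeplitz σ (orbP σ x) (orbT σ x) where
  left f F := ext_e fun j => by
    simp [orbT_e, orbP_e, smul_smul, mul_comm, Function.iterate_succ_apply']
  right F g := ext_e fun j => by simp [orbT_e, orbP_e, smul_smul, mul_comm]
  inner F G := by
    have : star S.toContinuousLinearMap * S.toContinuousLinearMap = 1 := by
      ext1 v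
      refine ext_inner_left ℂ fun u => ?_
      simp [ContinuousLinearMap.star_eq_adjoint, ContinuousLinearMap.adjoint_inner_right]
    simp only [orbT, LinearMap.coe_mk, AddHom.coe_mk]
    rw [star_mul, mul_assoc, ← mul_assoc (star S.toContinuousLinearMap), this, one_mul, map_mul,
      map_star]

/-- the geometric vector -/
noncomputable def g : H := ⟨fun j => (1 / 2) ^ j, memℓp_gen (by
  refine (summable_geometric_of_lt_one (r := (1 / 2) ^ 2) (by positivity) (by norm_num)).congr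
    fun j => ?_
  simp [← pow_mul, mul_comm])⟩

/-- coefficient functionals -/
noncomputable def coef (y' y : Ω) : (H →L[ℂ] H) →L[ℂ] ℂ :=
  innerSL ℂ g ∘L D (fun j => if σ^[j] y = y' then 1 else 0) 1 (fun j => by split_ifs <;> simp) ∘L
    ContinuousLinearMap.apply ℂ H (e 0)

lemma coef_eq (y' y : Ω) {a : H →L[ℂ] H} {c : ℂ} {n : ℕ} (h : a (e 0) = c • e n) :
    coef σ y' y a = if σ^[n] y = y' then c * (1 / 2) ^ n else 0 := by
  have : ⟪g, e n⟫_ℂ = (1 / 2) ^ n := by
    rw [e, lp.inner_single_right]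
    simp [g, Complex.conj_ofNat]
  split_ifs with h' <;> simp [coef, h, D_e, h', this]

lemma coef_le (y' y : Ω) (a : H →L[ℂ] H) : ‖coef σ y' y a‖ ≤ ‖g‖ * ‖a‖ := by
  refine (norm_inner_le_norm (𝕜 := ℂ) g _).trans (mul_le_mul_of_nonneg_left ?_ (norm_nonneg g))
  refine ((D _ 1 fun j => by split_ifs <;> simp).le_of_opNorm_le (D_norm _ 1 _) (a (e 0))).trans ?_
  simpa [on_e.1 0] using a.le_opNorm (e 0)

lemma exists_T (y : Ω) (n : ℕ) : ∃ T : Finset Ω, y ∈ T ∧ σ^[n] y ∈ T ∧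
    ∀ u ∈ T, ∀ i j, σ^[i] (σ^[j] u) ∈ T → σ^[j] u ∈ T := by
  have : {u | (∃ i, σ^[i] y = u) ∧ ∃ j, σ^[j] u = σ^[n] y}.Finite := by
    by_cases h : Function.Injective fun i => σ^[i] y
    · refine ((Set.finite_Iic n).image fun i => σ^[i] y).subset ?_
      rintro _ ⟨⟨i, rfl⟩, j, hj⟩
      rw [← Function.iterate_add_apply] at hj
      exact ⟨i, by have := h hj; simp only [Set.mem_Iic]; omega, rfl⟩
    · obtain ⟨i, j, hij, h⟩ : ∃ i j, i < j ∧ σ^[i] y = σ^[j] y := by
        obtain ⟨i, j, h1, h2⟩ := Function.not_injective_iff.1 h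
        rcases lt_or_gt_of_ne h2 with h | h
        exacts [⟨i, j, h, h1⟩, ⟨j, i, h, h1.symm⟩]
      refine ((Set.finite_Iio j).image fun i => σ^[i] y).subset ?_
      rintro _ ⟨⟨m, rfl⟩, -⟩
      induction m using Nat.strong_induction_on with
      | _ m ih =>
        by_cases hm : m < j
        · exact ⟨m, hm, rfl⟩
        · obtain ⟨k, rfl⟩ : ∃ k, m = k + j := ⟨m - j, by omega⟩
          rw [Function.iterate_add_apply, ← h, ← Function.iterate_add_apply]
          exact ih _ (by omega)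
  refine ⟨this.toFinset, this.mem_toFinset.2 ⟨⟨0, rfl⟩, n, rfl⟩,
    this.mem_toFinset.2 ⟨⟨n, rfl⟩, 0, rfl⟩, fun u hu i j h => ?_⟩
  simp only [Set.Finite.mem_toFinset, Set.mem_ofPred_eq] at hu h ⊢
  obtain ⟨⟨a, rfl⟩, -⟩ := hu
  obtain ⟨-, b, hb⟩ := h
  exact ⟨⟨j + a, Function.iterate_add_apply _ _ _ _⟩, b + i, by rw [Function.iterate_add_apply, hb]⟩

lemma bump [LocallyCompactSpace Ω] [T2Space Ω] (T : Finset Ω) (y : Ω) :
    ∃ h : C₀(Ω, ℂ), ∀ u ∈ T, h u = if u = y then 1 else 0 := by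
  obtain ⟨f, f1, f2, f3, -⟩ := exists_continuous_one_zero_of_isCompact (isCompact_singleton (x := y))
    (T.erase y).finite_toSet.isClosed (by simp)
  refine ⟨⟨⟨fun x => f x, by fun_prop⟩, ?_⟩, fun u hu => ?_⟩
  · exact HasCompactSupport.is_zero_at_infty (f3.comp_left (g := Complex.ofReal) rfl)
  · split_ifs with h
    · simp [h, f1 rfl]
    · simp [f2 (show u ∈ (T.erase y : Set Ω) by simp [h, hu])]

end Pool.Agent.H61.Ld
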