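import Mathlib
import Pool.Agent.H61.LdA
import Pool.Agent.H61.LdB

set_option autoImplicit false

namespace Pool.Agent.H61.Ld

open Filter Topology LdDefs MeasureTheory
open scoped Classical ZeroAtInfty

variable {Ω : Type} [TopologicalSpace Ω] {σ : CocompactMap Ω Ω} {B : Type}
  [NonUnitalCStarAlgebra B] {π : C₀(Ω, ℂ) →⋆ₙₐ[ℂ] B} {t : C₀(Ω, ℂ) →ₗ[ℂ] B}

variable (σ π t) in
/-- monomials -/
inductive Mon : ℕ → C₀(Ω, ℂ) → B → Prop
  | zero (F : C₀(Ω, ℂ)) : Mon 0 F (π F)
  | one (F : C₀(Ω, ℂ)) : Mon 1 F (t F)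
  | succ {n : ℕ} {F : C₀(Ω, ℂ)} {a : B} (ξ : C₀(Ω, ℂ)) :
      Mon (n + 1) F a → Mon (n + 2) (F.comp σ * ξ) (a * t ξ)

lemma Mon.inner (h : IsToeplitz σ π t) {n : ℕ} {F G : C₀(Ω, ℂ)} {a b : B} (h1 : Mon σ π t n F a)
    (h2 : Mon σ π t n G b) : star a * b = π (star F * G) := by
  induction h1 generalizing G b with
  | zero F => cases h2; rw [map_mul, map_star]
  | one F => cases h2; exact h.inner _ _
  | succ ξ _ ih =>
    cases h2 with
    | succ η h2 =>
      rw [star_mul, mul_assoc, ← mul_assoc (star _) _ (t η), ih h2, h.left, h.inner]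
      congr 1
      ext x
      simp
      ring

lemma Mon.mul (h : IsToeplitz σ π t) {n m : ℕ} {F G : C₀(Ω, ℂ)} {a b : B} (h1 : Mon σ π t n F a)
    (h2 : Mon σ π t m G b) : ∃ K, Mon σ π t (n + m) K (a * b) := by
  induction h2 with
  | zero G =>
    cases h1 with
    | zero => exact ⟨_, map_mul π _ _ ▸ Mon.zero _⟩
    | one => exact ⟨_, h.right _ _ ▸ Mon.one _⟩
    | succ ξ h1 => exact ⟨_, by rw [mul_assoc, h.right]; exact .succ _ h1⟩
  | one G =>
    cases h1 with
    | zero => exact ⟨_, h.left _ _ ▸ Mon.one _⟩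
    | one => exact ⟨_, .succ _ (.one _)⟩
    | succ ξ h1 => exact ⟨_, .succ _ (.succ _ h1)⟩
  | succ ξ _ ih =>
    obtain ⟨K, hK⟩ := ih
    exact ⟨_, mul_assoc a _ _ ▸ Mon.succ ξ hK⟩

lemma Mon.orb {Φ : B →⋆ₙₐ[ℂ] (H →L[ℂ] H)} {x : Ω} (p1 : ∀ f, Φ (π f) = orbP σ x f)
    (p2 : ∀ f, Φ (t f) = orbT σ x f) {n : ℕ} {F : C₀(Ω, ℂ)} {a : B} (h : Mon σ π t n F a) (j : ℕ) :
    Φ a (e j) = F (σ^[j] x) • e (j + n) := by
  induction h generalizing j with
  | zero F => simp [p1, orbP_e]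
  | one F => simp [p2, orbT_e]
  | succ ξ _ ih =>
    simp [p2, orbT_e, ih, smul_smul, Function.iterate_succ_apply', mul_comm, add_assoc, add_comm 1]

lemma Mon.gauge {γ : B →⋆ₙₐ[ℂ] B} {z : ℂ} (p1 : ∀ f, γ (π f) = π f)
    (p2 : ∀ f, γ (t f) = z • t f) {n : ℕ} {F : C₀(Ω, ℂ)} {a : B} (h : Mon σ π t n F a) :
    γ a = z ^ n • a := by
  induction h with
  | zero F => simp [p1]
  | one F => simp [p2]
  | succ ξ _ ih => simp [p2, ih, smul_mul_assoc, mul_smul_comm, smul_smul, pow_succ, mul_comm]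

lemma mem_cl (h : IsToeplitz σ π t) {a : B} (ha : a ∈ tensorAlg π t) :
    a ∈ closure (Submodule.span ℂ {a | ∃ n F, Mon σ π t n F a} : Set B) := by
  refine closure_mono (fun b hb => ?_) ha
  have : b ∈ (NonUnitalAlgebra.adjoin ℂ (Set.range π ∪ Set.range t)).toSubmodule := hb
  rw [NonUnitalAlgebra.adjoin_eq_span] at this
  refine Submodule.span_mono (fun c hc => ?_) this
  induction hc using Subsemigroup.closure_induction with
  | mem x hx =>
    rcases hx with ⟨F, rfl⟩ | ⟨F, rfl⟩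
    exacts [⟨_, _, .zero F⟩, ⟨_, _, .one F⟩]
  | mul x y _ _ h1 h2 =>
    obtain ⟨n, F, h1⟩ := h1
    obtain ⟨m, G, h2⟩ := h2
    exact ⟨_, h1.mul h h2⟩

lemma dens (h : IsToeplitz σ π t) (p : B → Prop) (hc : IsClosed {a | p a})
    (h1 : ∀ n F a, Mon σ π t n F a → p a) (h0 : p 0) (h2 : ∀ a b, p a → p b → p (a + b))
    (h3 : ∀ (c : ℂ) a, p a → p (c • a)) {a : B} (ha : a ∈ tensorAlg π t) : p a := by
  refine closure_minimal (fun b hb => ?_) hc (mem_cl h ha)
  induction hb using Submodule.span_induction with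
  | mem x hx => obtain ⟨n, F, hx⟩ := hx; exact h1 _ _ _ hx
  | zero => exact h0
  | add x y _ _ a b => exact h2 _ _ a b
  | smul c x _ a => exact h3 _ _ a

lemma gauge_ex (h : IsUniversal σ π t) (z : ℂ) (hz : ‖z‖ = 1) :
    ∃ γ : B →⋆ₙₐ[ℂ] B, (∀ f, γ (π f) = π f) ∧ ∀ f, γ (t f) = z • t f :=
  h.2 B π (z • t) ⟨fun f F => by simp [mul_smul_comm, h.1.left],
    fun f F => by simp [smul_mul_assoc, h.1.right], fun F G => by
    simp [smul_mul_assoc, mul_smul_comm, h.1.inner, smul_smul, Complex.mul_conj,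
      Complex.normSq_eq_norm_sq, hz]⟩

/-- star homomorphisms as bounded maps -/
noncomputable def clm {B' : Type} [NonUnitalCStarAlgebra B'] (γ : B →⋆ₙₐ[ℂ] B') : B →L[ℂ] B' :=
  LinearMap.mkContinuous (γ : B →ₗ[ℂ] B') 1 fun a => by
    simpa using NonUnitalStarAlgHom.norm_apply_le γ a

@[simp] lemma clm_apply {B' : Type} [NonUnitalCStarAlgebra B'] (γ : B →⋆ₙₐ[ℂ] B') (a : B) :
    clm γ a = γ a := rfl

lemma fc_le {u : AddCircle (1 : ℝ) → ℂ} {C : ℝ} (h : ∀ θ, ‖u θ‖ ≤ C) (k : ℤ) :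
    ‖fourierCoeff u k‖ ≤ C := by
  simpa [fourierCoeff] using norm_integral_le_of_norm_le_const (μ := AddCircle.haarAddCircle)
    (f := fun θ => fourier (-k) θ • u θ) (C := C) (.of_forall fun θ => by
      simpa [Circle.norm_coe] using h θ)

lemma sep (h : IsToeplitz σ π t) (γ : AddCircle (1 : ℝ) → B →⋆ₙₐ[ℂ] B)
    (hγ : ∀ θ n F a, Mon σ π t n F a → γ θ a = fourier n θ • a) (ℓ : ℕ → Ω → B →L[ℂ] ℂ)
    (K : ℕ → ℝ) (l1 : ∀ n y a, ‖ℓ n y a‖ ≤ K n * ‖a‖) (K0 : ∀ n, 0 ≤ K n)
    (l2 : ∀ n y F a, Mon σ π t n F a → ℓ n y a = F y)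
    {a : B} (ha : a ∈ tensorAlg π t) (h0 : ∀ n y θ, ℓ n y (γ θ a) = 0) : a = 0 := by
  have c1 : ∀ b ∈ tensorAlg π t, Continuous fun θ => γ θ b := fun b hb => by
    refine dens h (fun b => Continuous fun θ => γ θ b) (isClosed_of_closure_subset fun b hb => ?_)
      (fun n F a h => by simp only [hγ _ _ _ _ h]; fun_prop) (by simpa using continuous_const)
      (fun a b h1 h2 => by simp only [map_add]; exact h1.add h2)
      (fun c a h => by simp only [map_smul]; exact h.const_smul c) hb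
    refine continuous_of_uniform_approx_of_continuous fun u hu => ?_
    obtain ⟨ε, e1, e2⟩ := Metric.mem_uniformity_dist.1 hu
    obtain ⟨c, c1, c2⟩ := Metric.mem_closure_iff.1 hb ε e1
    refine ⟨_, c1, fun θ => e2 ?_⟩
    rw [dist_eq_norm, ← map_sub] at *
    exact (NonUnitalStarAlgHom.norm_apply_le _ _).trans_lt c2
  have c2 : ∀ b ∈ Submodule.span ℂ {a | ∃ n F, Mon σ π t n F a}, Continuous fun θ => γ θ b :=
    fun b hb => by
      induction hb using Submodule.span_induction with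
      | mem x hx => obtain ⟨n, F, hx⟩ := hx; simp only [hγ _ _ _ _ hx]; fun_prop
      | zero => simpa using continuous_const
      | add x y _ _ a b => simp only [map_add]; exact a.add b
      | smul c x _ a => simp only [map_smul]; exact a.const_smul c
  have int : ∀ {u : AddCircle (1 : ℝ) → ℂ}, Continuous u → Integrable u AddCircle.haarAddCircle :=
    fun hu => hu.integrable_of_hasCompactSupport (HasCompactSupport.of_compactSpace _)
  let V : ℤ → Submodule ℂ (C₀(Ω, ℂ) × B) := fun k =>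
    Submodule.span ℂ {p | (k.toNat : ℤ) = k ∧ Mon σ π t k.toNat p.1 p.2}
  have v1 : ∀ k, ∀ p ∈ V k, ∀ y, ℓ k.toNat y p.2 = p.1 y := fun k p hp y => by
    induction hp using Submodule.span_induction with
    | mem x hx => exact l2 _ _ _ _ hx.2
    | zero => simp
    | add x y _ _ a b => simp [a, b]
    | smul c x _ a => simp [a]
  have v2 : ∀ k, ∀ p ∈ V k, ∀ q ∈ V k, star p.2 * q.2 = π (star p.1 * q.1) := fun k p hp q hq => by
    induction hp using Submodule.span_induction with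
    | zero => simp
    | add x y _ _ a b => simp [a, b, add_mul]
    | smul c x _ a => simp [a, smul_mul_assoc]
    | mem x hx =>
      induction hq using Submodule.span_induction with
      | zero => simp
      | add x y _ _ a b => simp [a, b, mul_add]
      | smul c x _ a => simp [a, mul_smul_comm]
      | mem y hy => exact hx.2.inner h hy.2
  have v3 : ∀ k, ∀ p ∈ V k, ‖p.2‖ ≤ ‖p.1‖ := fun k p hp => by
    have := NonUnitalStarAlgHom.norm_apply_le π (star p.1 * p.1)
    rw [← v2 k p hp p hp, CStarRing.norm_star_mul_self] at this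
    exact (mul_self_le_mul_self_iff (norm_nonneg _) (norm_nonneg _)).2
      (this.trans_eq (CStarRing.norm_star_mul_self (x := p.1)))
  have v4 : ∀ k, ∀ b ∈ Submodule.span ℂ {a | ∃ n F, Mon σ π t n F a}, ∃ p ∈ V k,
      ∀ ψ : B →L[ℂ] ℂ, fourierCoeff (fun θ => ψ (γ θ b)) k = ψ p.2 := fun k b hb => by
    induction hb using Submodule.span_induction with
    | zero => exact ⟨0, zero_mem _, fun ψ => by simp [fourierCoeff]⟩
    | add x y hx hy a b =>
      obtain ⟨p, p1, p2⟩ := a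
      obtain ⟨q, q1, q2⟩ := b
      refine ⟨p + q, add_mem p1 q1, fun ψ => ?_⟩
      have := fourierCoeff.add (int (ψ.continuous.comp (c2 x hx))) (int (ψ.continuous.comp (c2 y hy)))
      simp only [map_add, Prod.snd_add, ← p2, ← q2]
      exact congrFun this k
    | smul c x _ a =>
      obtain ⟨p, p1, p2⟩ := a
      refine ⟨c • p, Submodule.smul_mem _ _ p1, fun ψ => ?_⟩
      simp only [map_smul, Prod.smul_snd, ← p2, smul_eq_mul]
      exact fourierCoeff.const_mul _ _ _
    | mem x hx =>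
      obtain ⟨n, F, hx⟩ := hx
      have : ∀ ψ : B →L[ℂ] ℂ, fourierCoeff (fun θ => ψ (γ θ x)) k =
          ψ x * (Pi.single (n : ℤ) 1 : ℤ → ℂ) k := fun ψ => by
        simp only [hγ _ _ _ _ hx, map_smul, smul_eq_mul, mul_comm _ (ψ x)]
        rw [fourierCoeff.const_mul, fourierCoeff_fourier]
      by_cases hk : (n : ℤ) = k
      · subst hk
        exact ⟨(F, x), Submodule.subset_span ⟨by simp, by simpa using hx⟩, fun ψ => by simp [this]⟩
      · exact ⟨0, zero_mem _, fun ψ => by simp [this, Ne.symm hk]⟩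
  have key : ∀ (ψ : B →L[ℂ] ℂ) k, fourierCoeff (fun θ => ψ (γ θ a)) k = 0 := fun ψ k => by
    refine norm_le_zero_iff.1 (le_of_forall_pos_le_add fun ε hε => ?_)
    have hK := K0 k.toNat
    obtain ⟨b, b1, b2⟩ := Metric.mem_closure_iff.1 (mem_cl h ha)
      (ε / (‖ψ‖ * (1 + K k.toNat) + 1)) (by positivity)
    rw [dist_eq_norm, lt_div_iff₀ (by positivity)] at b2
    obtain ⟨p, p1, p2⟩ := v4 k b b1
    have d : ∀ χ : B →L[ℂ] ℂ, fourierCoeff (fun θ => χ (γ θ a)) k =
        fourierCoeff (fun θ => χ (γ θ (a - b))) k + χ p.2 := fun χ => by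
      have := fourierCoeff.add (int (χ.continuous.comp ((c1 a ha).sub (c2 b b1))))
        (int (χ.continuous.comp (c2 b b1)))
      rw [← p2]
      convert congrFun this k using 2
      · ext θ
        simp
      · simp [Function.comp_def]
    have e1 : ‖p.1‖ ≤ K k.toNat * ‖a - b‖ := by
      refine (BoundedContinuousFunction.norm_le (f := p.1.toBCF) (by positivity)).2 fun y => ?_
      have := d (ℓ k.toNat y)
      simp only [h0, v1 k p p1] at this
      rw [show fourierCoeff (fun _ : AddCircle (1 : ℝ) => (0 : ℂ)) k = 0 by simp [fourierCoeff],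
        eq_comm, add_eq_zero_iff_neg_eq] at this
      change ‖p.1 y‖ ≤ _
      rw [← this, norm_neg]
      exact fc_le (fun θ => (l1 _ _ _).trans (by
        gcongr
        exact NonUnitalStarAlgHom.norm_apply_le _ _)) k
    have e2 : ‖fourierCoeff (fun θ => ψ (γ θ (a - b))) k‖ ≤ ‖ψ‖ * ‖a - b‖ :=
      fc_le (fun θ => (ψ.le_opNorm _).trans (by
        gcongr
        exact NonUnitalStarAlgHom.norm_apply_le _ _)) k
    have e3 : ‖ψ p.2‖ ≤ ‖ψ‖ * (K k.toNat * ‖a - b‖) :=
      (ψ.le_opNorm _).trans (by gcongr; exact (v3 k p p1).trans e1)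
    rw [d ψ]
    refine (norm_add_le _ _).trans ?_
    nlinarith [norm_nonneg (a - b)]
  have g0 : γ 0 a = a := dens h (fun a => γ 0 a = a) (isClosed_eq (clm (γ 0)).continuous continuous_id)
    (fun n F a h => by simp [hγ _ _ _ _ h]) (by simp) (fun a b h1 h2 => by simp [h1, h2])
    (fun c a h => by simp [h]) ha
  refine SeparatingDual.eq_zero_of_forall_dual_eq_zero (R := ℂ) fun ψ => ?_
  have k2 : fourierCoeff (⟨fun θ => ψ (γ θ a), ψ.continuous.comp (c1 a ha)⟩ : C(_, ℂ)) = 0 :=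
    funext (key ψ)
  have := has_pointwise_sum_fourier_series_of_summable
    (f := ⟨fun θ => ψ (γ θ a), ψ.continuous.comp (c1 a ha)⟩) (by rw [k2]; exact summable_zero) 0
  rw [k2] at this
  simp only [Pi.zero_apply, zero_smul, ContinuousMap.coe_mk, g0] at this
  exact this.unique hasSum_zero

end Pool.Agent.H61.Ld
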