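import Mathlib

set_option autoImplicit false

namespace Pool.Agent.H61.Lm

open Filter Topology
open scoped Classical

/-- clamp -/
noncomputable def θ (s : ℝ) : ℝ := max 0 (min 1 s)

@[fun_prop] lemma θ_cont : Continuous θ := by unfold θ; fun_prop

lemma orth {K E : Type} [TopologicalSpace K] [CompactSpace K] [NormedAddCommGroup E]
    [NormedSpace ℝ E] (V : C(K, ℝ) →ₗ[ℝ] C(K, ℝ) →ₗ[ℝ] E) (C : ℝ) (hC : 0 ≤ C)
    (hb : ∀ f g, ‖V f g‖ ≤ C * ‖f‖ * ‖g‖) (hz : ∀ f g k, k * f = f → k * g = 0 → V f g = 0)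
    (x : C(K, ℝ)) : V x 1 = V 1 x := by
  have n1 : ‖(1 : C(K, ℝ))‖ ≤ 1 := (ContinuousMap.norm_le _ zero_le_one).2 fun _ => by simp
  have key : ∀ (m : ℕ) (x : C(K, ℝ)), (∀ k, 1 ≤ x k ∧ x k ≤ m) → ‖V x 1 - V 1 x‖ ≤ 8 * (4 * C) := by
    intro m x hx
    let φ : ℕ → C(K, ℝ) := fun i => ⟨fun k => θ (x k - i) - θ (x k - (i + 1 : ℕ)), by fun_prop⟩
    let G : ℕ → C(K, ℝ) := fun r =>
      ⟨fun k => 4 / Real.pi * Real.arcsin (Real.sin (Real.pi / 4 * (x k - r - 1))), by fun_prop⟩
    have p0 : ∀ i k, 0 ≤ φ i k := fun i k => by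
      simp only [φ, θ, ContinuousMap.coe_mk, sub_nonneg]
      gcongr
      simp
    have p1 : ∑ i ∈ Finset.range m, φ i = 1 := by
      ext k
      rw [ContinuousMap.coe_sum, Finset.sum_apply]
      simp only [φ, ContinuousMap.coe_mk]
      rw [Finset.sum_range_sub' (fun i : ℕ => θ (x k - i))]
      have := hx k
      simp only [θ, Nat.cast_zero, sub_zero, min_eq_left this.1, ContinuousMap.one_apply]
      rw [max_eq_left (min_le_of_right_le (sub_nonpos.2 this.2))]
      simp
    have p2 : ∀ (i : ℕ) k, 1 ≤ |x k - i - 1| → φ i k = 0 := fun i k h => by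
      simp only [φ, θ, ContinuousMap.coe_mk, Nat.cast_add, Nat.cast_one]
      rcases le_abs'.1 h with h | h
      · rw [max_eq_left (min_le_of_right_le (by linarith)),
          max_eq_left (min_le_of_right_le (by linarith)), sub_zero]
      · rw [min_eq_left (by linarith), min_eq_left (by linarith), sub_self]
    have g1 : ∀ (i : ℕ) k, |x k - i - 1| ≤ 2 → G (i % 8) k = x k - i - 1 := fun i k h => by
      have e : Real.pi / 4 * (x k - (i % 8 : ℕ) - 1) =
          Real.pi / 4 * (x k - i - 1) + (i / 8 : ℕ) * (2 * Real.pi) := by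
        have : (i : ℝ) = (i % 8 : ℕ) + 8 * (i / 8 : ℕ) := by exact_mod_cast (Nat.mod_add_div i 8).symm
        rw [this]
        simp only [← this]
        linear_combination (Real.pi / 4) * this
      have := abs_le.1 h
      simp only [G, ContinuousMap.coe_mk]
      rw [e, Real.sin_add_nat_mul_two_pi, Real.arcsin_sin (by nlinarith [Real.pi_pos])
        (by nlinarith [Real.pi_pos])]
      field_simp
    have g2 : ∀ r, ‖G r‖ ≤ 2 := fun r => (ContinuousMap.norm_le _ zero_le_two).2 fun k => by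
      simp only [G, ContinuousMap.coe_mk, Real.norm_eq_abs, abs_mul]
      rw [abs_of_pos (by positivity), div_mul_eq_mul_div, div_le_iff₀ Real.pi_pos]
      have := abs_le.2 ⟨Real.neg_pi_div_two_le_arcsin (Real.sin (Real.pi / 4 * (x k - r - 1))),
        Real.arcsin_le_pi_div_two _⟩
      linarith
    have e1 : ∀ i, V (x * φ i) 1 - V (φ i) x = V (G (i % 8) * φ i) 1 - V (φ i) (G (i % 8)) := by
      intro i
      have a1 : x * φ i = G (i % 8) * φ i + ((i : ℝ) + 1) • φ i := by
        ext k
        simp only [ContinuousMap.mul_apply, ContinuousMap.add_apply, ContinuousMap.smul_apply,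
          smul_eq_mul]
        rcases le_total 1 |x k - i - 1| with h | h
        · simp [p2 i k h]
        · rw [g1 i k (by linarith)]
          ring
      have a2 := hz (φ i) (x - ((i : ℝ) + 1) • 1 - G (i % 8))
        ⟨fun k => θ (2 - |x k - i - 1|), by fun_prop⟩ (by
          ext k
          rcases le_total 1 |x k - i - 1| with h | h
          · simp [p2 i k h]
          · simp [θ, min_eq_left (show 1 ≤ 2 - |x k - i - 1| by linarith)]) (by
          ext k
          rcases le_total 2 |x k - i - 1| with h | h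
          · simp [θ, h]
          · simp [g1 i k h, sub_add_eq_sub_sub])
      simp only [map_sub, map_smul] at a2
      rw [a1, map_add, map_smul, LinearMap.add_apply, LinearMap.smul_apply, ← sub_eq_zero, ← neg_eq_zero,
        ← a2]
      abel
    have e2 : V x 1 - V 1 x = ∑ r ∈ Finset.range 8, ∑ i ∈ Finset.range m with i % 8 = r,
        (V (G r * φ i) 1 - V (φ i) (G r)) := by
      calc _ = V (x * ∑ i ∈ Finset.range m, φ i) 1 - V (∑ i ∈ Finset.range m, φ i) x := by
            rw [p1, mul_one]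
        _ = ∑ i ∈ Finset.range m, (V (G (i % 8) * φ i) 1 - V (φ i) (G (i % 8))) := by
            simp only [Finset.mul_sum, map_sum, LinearMap.sum_apply, ← Finset.sum_sub_distrib, e1]
        _ = _ := by
            rw [← Finset.sum_fiberwise_of_maps_to (g := (· % 8)) (t := Finset.range 8)
              fun i _ => Finset.mem_range.2 (Nat.mod_lt _ (by norm_num))]
            refine Finset.sum_congr rfl fun r _ => Finset.sum_congr rfl fun i hi => ?_
            rw [(Finset.mem_filter.1 hi).2]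
    rw [e2]
    refine (norm_sum_le _ _).trans ((Finset.sum_le_card_nsmul _ _ (4 * C) fun r _ => ?_).trans
      (by simp))
    have n2 : ‖∑ i ∈ Finset.range m with i % 8 = r, φ i‖ ≤ 1 :=
      (ContinuousMap.norm_le _ zero_le_one).2 fun k => by
        have := congrArg (· k) p1
        simp only [ContinuousMap.coe_sum, Finset.sum_apply, ContinuousMap.one_apply] at this ⊢
        rw [Real.norm_of_nonneg (Finset.sum_nonneg fun i _ => p0 i k), ← this]
        exact Finset.sum_le_sum_of_subset_of_nonneg (Finset.filter_subset _ _) fun i _ _ => p0 i k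
    rw [Finset.sum_sub_distrib, ← LinearMap.sum_apply, ← LinearMap.sum_apply, ← map_sum, ← map_sum,
      ← Finset.mul_sum]
    have := g2 r
    calc _ ≤ C * (2 * 1) * 1 + C * 1 * 2 := (norm_sub_le _ _).trans (add_le_add
          ((hb _ _).trans (by gcongr; exact (norm_mul_le _ _).trans (by gcongr)))
          ((hb _ _).trans (by gcongr)))
      _ = _ := by ring
  have k2 : ∀ n : ℕ, n * ‖V x 1 - V 1 x‖ ≤ 8 * (4 * C) := fun n => by
    obtain ⟨m, hm⟩ := exists_nat_ge (n * ‖x‖ + 1)
    have := key (2 * m) ((n : ℝ) • x + (m : ℝ) • 1) fun k => by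
      have := abs_le.1 (x.norm_coe_le_norm k)
      simp only [ContinuousMap.add_apply, ContinuousMap.smul_apply, smul_eq_mul,
        ContinuousMap.one_apply, Nat.cast_mul, Nat.cast_ofNat]
      constructor <;> nlinarith [n.cast_nonneg (α := ℝ)]
    simp only [map_add, map_smul, LinearMap.add_apply, LinearMap.smul_apply, add_sub_add_right_eq_sub,
      ← smul_sub, norm_smul, Real.norm_natCast] at this
    exact this
  by_contra h
  have h := norm_pos_iff.2 (sub_ne_zero.2 h)
  obtain ⟨n, hn⟩ := exists_nat_gt (8 * (4 * C) / ‖V x 1 - V 1 x‖)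
  exact absurd (k2 n) (not_le.2 ((div_lt_iff₀ h).1 hn))

variable {B : Type} [CStarAlgebra B]

open scoped ComplexOrder in
lemma pos_of_norm [PartialOrder B] [StarOrderedRing B] [Nontrivial B] (g : B →L[ℂ] ℂ)
    (h : ∀ b, ‖g b‖ ≤ ‖b‖) (h1 : g 1 = 1) (a : B) (ha : 0 ≤ a) : 0 ≤ g a := by
  have him : (g a).im = 0 := by
    have key : ∀ t : ℝ, 2 * (g a).im * t ≤ ‖a‖ ^ 2 := fun t => by
      have e : star (a + (t * Complex.I : ℂ) • 1) * (a + (t * Complex.I : ℂ) • 1) =
          a * a + (t ^ 2 : ℂ) • 1 := by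
        simp only [star_add, ha.star_eq, star_smul, star_one, mul_add, add_mul, smul_mul_assoc,
          mul_smul_comm, one_mul, mul_one, smul_add, smul_smul, star_mul', Complex.star_def, Complex.conj_I,
          Complex.conj_ofReal]
        rw [show (t * Complex.I * (t * -Complex.I) : ℂ) = t ^ 2 by
          linear_combination -(t : ℂ) ^ 2 * Complex.I_sq]
        module
      have e2 : ‖a + (t * Complex.I : ℂ) • 1‖ ^ 2 ≤ ‖a‖ ^ 2 + t ^ 2 := by
        rw [sq, ← CStarRing.norm_star_mul_self, e]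
        refine (norm_add_le _ _).trans (add_le_add ((norm_mul_le _ _).trans_eq (sq _).symm) ?_)
        simp [norm_smul]
      have e3 := pow_le_pow_left₀ (norm_nonneg _) (h (a + (t * Complex.I : ℂ) • 1)) 2
      rw [Complex.sq_norm, Complex.normSq_apply] at e3
      simp [h1] at e3
      nlinarith [mul_self_nonneg (g a).re, mul_self_nonneg (g a).im]
    by_contra hn
    have := key ((‖a‖ ^ 2 + 1) / (2 * (g a).im))
    rw [mul_div_cancel₀ _ (by simpa using hn)] at this
    linarith
  have h2 : ‖algebraMap ℝ B ‖a‖ - a‖ ≤ ‖a‖ := by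
    simpa using CStarAlgebra.norm_le_norm_of_nonneg_of_le
      (sub_nonneg.2 (IsSelfAdjoint.le_algebraMap_norm_self ha.isSelfAdjoint)) (sub_le_self _ ha)
  have h3 := (Complex.re_le_norm _).trans ((h _).trans h2)
  rw [Algebra.algebraMap_eq_smul_one, ← Complex.coe_smul] at h3
  refine ⟨?_, him.symm⟩
  simpa [h1] using h3

lemma exists_char (A : StarSubalgebra ℂ B) (hA : IsClosed (A : Set B)) {p : B} (hp : p ∈ A)
    (h0 : p ≠ 0) (hc : ∀ a ∈ A, ∀ b ∈ A, ∀ c ∈ A, p * c * (a * b - b * a) = 0) :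
    ∃ χ : A →ₐ[ℂ] ℂ, χ ⟨p, hp⟩ ≠ 0 := by
  have cen : ∀ a ∈ A, ∀ b ∈ A, b * (p * a) = p * a * b := fun a ha b hb => by
    set d := b * (p * a) - p * a * b with hd
    have hq := A.mul_mem hp ha
    have hd' : star d ∈ A := star_mem (sub_mem (mul_mem hb hq) (mul_mem hq hb))
    have e1 := hc b hb _ hq _ (mul_mem ha hd')
    have e2 := hc b hb _ hq _ (mul_mem ha (mul_mem hb hd'))
    have e3 : star (star d * d) * (star d * d) = 0 := by
      calc _ = star d * (d * star d * d) := by simp [mul_assoc]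
        _ = star d * (b * (p * (a * star d) * d) - p * (a * (b * star d)) * d) := by
          congr 1
          nth_rewrite 1 [hd]
          noncomm_ring
        _ = 0 := by rw [e1, e2]; simp
    rw [CStarRing.star_mul_self_eq_zero_iff, CStarRing.star_mul_self_eq_zero_iff] at e3
    exact sub_eq_zero.1 e3
  let Z : StarSubalgebra ℂ B := A ⊓ StarSubalgebra.centralizer ℂ A
  have hZ : IsClosed (Z : Set B) := hA.inter (Set.isClosed_centralizer _)
  have mZ : ∀ a ∈ A, p * a ∈ Z := fun a ha => ⟨mul_mem hp ha, (StarSubalgebra.mem_centralizer_iff ℂ).2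
    fun g hg => ⟨cen a ha g hg, cen a ha _ (star_mem hg)⟩⟩
  let _ : CommCStarAlgebra Z := { (inferInstance : CStarAlgebra Z) with
    mul_comm := fun x y => Subtype.ext (((StarSubalgebra.mem_centralizer_iff ℂ).1 y.2.2 x x.2.1).1) }
  obtain ⟨ψ, hψ⟩ : ∃ ψ : WeakDual.characterSpace ℂ Z, ψ ⟨p * 1, mZ 1 (one_mem _)⟩ ≠ 0 := by
    by_contra hn
    push Not at hn
    have := (gelfandTransform_isometry Z).injective (a₁ := ⟨p * 1, mZ 1 (one_mem _)⟩) (a₂ := 0)
      (by ext ψ; simpa using hn ψ)
    exact h0 (by simpa using congrArg Subtype.val this)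
  let f : A →ₗ[ℂ] Z :=
    { toFun a := ⟨p * a, mZ a a.2⟩
      map_add' a b := Subtype.ext (mul_add _ _ _)
      map_smul' c a := Subtype.ext (mul_smul_comm _ _ _) }
  have hf : ∀ a b : A, f a * f b = f 1 * f (a * b) := fun a b => Subtype.ext (by
    change p * a * (p * b) = p * 1 * (p * (a * b))
    have := cen 1 (one_mem _) a a.2
    simp only [mul_one] at this ⊢
    rw [mul_assoc, ← mul_assoc (a : B), this, mul_assoc])
  have h1 : ψ (f 1) ≠ 0 := hψ
  refine ⟨AlgHom.ofLinearMap ((ψ (f 1))⁻¹ • (WeakDual.CharacterSpace.toCLM ψ).toLinearMap ∘ₗ f)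
    (inv_mul_cancel₀ h1) fun a b => ?_, ?_⟩
  · change (ψ (f 1))⁻¹ * ψ (f (a * b)) = (ψ (f 1))⁻¹ * ψ (f a) * ((ψ (f 1))⁻¹ * ψ (f b))
    have := congrArg ψ (hf a b)
    rw [map_mul, map_mul] at this
    field_simp
    linear_combination -this
  · change (ψ (f 1))⁻¹ * ψ (f ⟨p, hp⟩) ≠ 0
    have : f ⟨p, hp⟩ = f 1 * f 1 := Subtype.ext (by
      change p * p = p * 1 * (p * 1)
      simp)
    rw [this, map_mul]
    simpa using h1

end Pool.Agent.H61.Lm
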