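import Mathlib
import Pool.Agent.H61.LmA

set_option autoImplicit false

namespace Pool.Agent.H61.Lm

open Filter Topology MeasureTheory
open scoped Classical

/-- a graded situation inside a unital algebra -/
structure Ctx (B : Type) [CStarAlgebra B] where
  A : StarSubalgebra ℂ B
  hA : IsClosed (A : Set B)
  Y : Submodule ℂ B
  hY : IsClosed (Y : Set B)
  AY : ∀ a ∈ A, ∀ y ∈ Y, a * y ∈ Y
  YA : ∀ y ∈ Y, ∀ a ∈ A, y * a ∈ Y
  YY : ∀ y ∈ Y, ∀ z ∈ Y, star y * z ∈ A
  γ : AddCircle (1 : ℝ) → B →⋆ₐ[ℂ] B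
  γc : ∀ b, Continuous fun θ => γ θ b
  γA : ∀ θ, ∀ a ∈ A, γ θ a = a
  γY : ∀ θ, ∀ y ∈ Y, γ θ y = fourier 1 θ • y

namespace Ctx

variable {B : Type} [CStarAlgebra B] (c : Ctx B)

/-- monomials -/
inductive Mon : ℕ → B → Prop
  | zero {a : B} : a ∈ c.A → Mon 0 a
  | succ {n : ℕ} {u y : B} : Mon n u → y ∈ c.Y → Mon (n + 1) (u * y)

/-- homogeneous elements -/
def Gr (d : ℤ) (b : B) : Prop := ∀ θ, c.γ θ b = fourier d θ • b

/-- closed span of all monomials -/
noncomputable def U : Submodule ℂ B := (Submodule.span ℂ {a | ∃ n, c.Mon n a}).topologicalClosure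

/-- closed span of the monomials of one degree -/
noncomputable def V (n : ℕ) : Submodule ℂ B := (Submodule.span ℂ {a | c.Mon n a}).topologicalClosure

variable {c}

lemma Mon.inner {n : ℕ} {u v : B} (h1 : c.Mon n u) (h2 : c.Mon n v) : star u * v ∈ c.A := by
  induction h1 generalizing v with
  | zero h => cases h2 with
    | zero h' => exact mul_mem (star_mem h) h'
  | succ _ hy ih =>
    cases h2 with
    | succ h2 hz =>
      simpa only [star_mul, mul_assoc] using c.YY _ hy _ (c.AY _ (ih h2) _ hz)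

lemma Mon.mul {n m : ℕ} {u v : B} (h1 : c.Mon n u) (h2 : c.Mon m v) : c.Mon (n + m) (u * v) := by
  induction h2 with
  | zero h =>
    cases h1 with
    | zero h' => exact .zero (mul_mem h' h)
    | succ h1 hy => rw [mul_assoc]; exact Mon.succ h1 (c.YA _ hy _ h)
  | succ _ hy ih => exact mul_assoc u _ _ ▸ Mon.succ ih hy

lemma Mon.one {y : B} (h : y ∈ c.Y) : c.Mon 1 y := by
  simpa using Mon.succ (Mon.zero (one_mem c.A)) h

lemma Gr.mul {d e : ℤ} {u v : B} (h1 : c.Gr d u) (h2 : c.Gr e v) : c.Gr (d + e) (u * v) := fun θ => by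
  rw [map_mul, h1, h2, fourier_add, smul_mul_smul_comm]

lemma Gr.star {d : ℤ} {u : B} (h : c.Gr d u) : c.Gr (-d) (star u) := fun θ => by
  rw [map_star, h, star_smul, fourier_neg, Complex.star_def]

lemma Mon.gr {n : ℕ} {u : B} (h : c.Mon n u) : c.Gr n u := by
  induction h with
  | zero h => exact fun θ => by simp [c.γA θ _ h]
  | succ _ hy ih => exact_mod_cast ih.mul fun θ => c.γY θ _ hy

lemma cl_ind {s : Set B} (p : B → Prop) (hc : IsClosed {a | p a})
    (h1 : ∀ a ∈ s, p a) (h0 : p 0) (h2 : ∀ a b, p a → p b → p (a + b))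
    (h3 : ∀ (c : ℂ) a, p a → p (c • a)) {a : B} (ha : a ∈ (Submodule.span ℂ s).topologicalClosure) :
    p a := by
  refine closure_minimal (fun b hb => ?_) hc ha
  induction hb using Submodule.span_induction with
  | mem x hx => exact h1 _ hx
  | zero => exact h0
  | add x y _ _ a b => exact h2 _ _ a b
  | smul c x _ a => exact h3 _ _ a

lemma cl_le {s : Set B} {W : Submodule ℂ B} (hW : IsClosed (W : Set B)) (f : B →L[ℂ] B)
    (h : ∀ a ∈ s, f a ∈ W) {a : B} (ha : a ∈ (Submodule.span ℂ s).topologicalClosure) : f a ∈ W :=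
  cl_ind (f · ∈ W) (hW.preimage f.continuous) h (by simp)
    (fun a b h1 h2 => by simpa using W.add_mem h1 h2) (fun r a h => by simpa using W.smul_mem r h) ha

lemma cl_eq {s : Set B} {E : Type} [NormedAddCommGroup E] [NormedSpace ℂ E] (f g : B →L[ℂ] E)
    (h : ∀ a ∈ s, f a = g a) {a : B} (ha : a ∈ (Submodule.span ℂ s).topologicalClosure) :
    f a = g a :=
  cl_ind (fun a => f a = g a) (isClosed_eq f.continuous g.continuous) h (by simp)
    (fun a b h1 h2 => by simp [h1, h2]) (fun r a h => by simp [h]) ha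

lemma Mon.U {n : ℕ} {u : B} (h : c.Mon n u) : u ∈ c.U :=
  Submodule.le_topologicalClosure _ (Submodule.subset_span ⟨n, h⟩)

lemma U_mul {u v : B} (hu : u ∈ c.U) (hv : v ∈ c.U) : u * v ∈ c.U :=
  cl_le (Submodule.isClosed_topologicalClosure _) ((ContinuousLinearMap.mul ℂ B).flip v)
    (fun a ha => cl_le (Submodule.isClosed_topologicalClosure _) (ContinuousLinearMap.mul ℂ B a)
      (fun _ hb => (ha.choose_spec.mul hb.choose_spec).U) hv) hu

lemma V_inner {n : ℕ} {u v : B} (hu : u ∈ c.V n) (hv : v ∈ c.V n) : star u * v ∈ c.A := by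
  have h : ∀ a, c.Mon n a → ∀ b ∈ c.V n, star a * b ∈ c.A := fun a ha b hb =>
    cl_le (W := Subalgebra.toSubmodule c.A.toSubalgebra) c.hA (ContinuousLinearMap.mul ℂ B (star a))
      (fun _ hb => ha.inner hb) hb
  exact cl_le (W := Subalgebra.toSubmodule c.A.toSubalgebra) c.hA
    (ContinuousLinearMap.mul ℂ B (star u))
    (fun b hb => by simpa using star_mem (h b hb u hu)) hv

/-- the gauge maps as bounded maps -/
noncomputable def γL (θ : AddCircle (1 : ℝ)) : B →L[ℂ] B :=
  LinearMap.mkContinuous (c.γ θ).toLinearMap 1 fun a => by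
    simpa using NonUnitalStarAlgHom.norm_apply_le (c.γ θ) a

lemma V_gr {n : ℕ} {u : B} (hu : u ∈ c.V n) : c.Gr n u := fun θ =>
  cl_eq (c.γL θ) (fourier n θ • ContinuousLinearMap.id ℂ B)
    (fun _ ha => ha.gr θ) hu

lemma int (b : B) (n : ℤ) :
    Integrable (fun θ => fourier n θ • c.γ θ b) (AddCircle.haarAddCircle (T := 1)) :=
  Continuous.integrable_of_hasCompactSupport (by have := c.γc b; fun_prop)
    (HasCompactSupport.of_compactSpace _)

variable (c) in
/-- spectral projections -/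
noncomputable def P (n : ℤ) : B →L[ℂ] B := LinearMap.mkContinuous
  { toFun b := fourierCoeff (fun θ => c.γ θ b) n
    map_add' a b := by
      simp only [fourierCoeff, map_add, smul_add]
      exact integral_add (int _ _) (int _ _)
    map_smul' r b := by
      simp only [map_smul]
      exact fourierCoeff.const_smul _ _ _ } 1 fun b => by
    simpa [fourierCoeff] using norm_integral_le_of_norm_le_const (μ := AddCircle.haarAddCircle)
      (f := fun θ => fourier (-n) θ • c.γ θ b) (C := ‖b‖) (.of_forall fun θ => by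
        simpa [norm_smul, Circle.norm_coe] using NonUnitalStarAlgHom.norm_apply_le (c.γ θ) b)

lemma P_le (n : ℤ) (b : B) : ‖c.P n b‖ ≤ ‖b‖ := by
  simpa using (c.P n).le_of_opNorm_le (LinearMap.mkContinuous_norm_le _ zero_le_one _) b

lemma P_def (n : ℤ) (b : B) :
    c.P n b = ∫ θ, fourier (-n) θ • c.γ θ b ∂AddCircle.haarAddCircle := rfl

lemma Gr.P {d : ℤ} {b : B} (h : c.Gr d b) (n : ℤ) : c.P n b = if n = d then b else 0 := by
  have := congrFun (fourierCoeff_fourier (T := 1) d) n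
  simp only [fourierCoeff, smul_eq_mul] at this
  simp only [P_def, h _, smul_smul, integral_smul_const, this, Pi.single_apply, ite_smul, one_smul,
    zero_smul]

lemma P_mul (n : ℤ) (b : B) {a : B} (ha : a ∈ c.A) : c.P n (b * a) = c.P n b * a := by
  have := ((ContinuousLinearMap.mul ℂ B).flip a).integral_comp_comm (int (c := c) b (-n))
  simpa [P_def, c.γA _ _ ha] using this

lemma P_mem (n : ℕ) {u : B} (hu : u ∈ c.U) : c.P n u ∈ c.V n :=
  cl_le (Submodule.isClosed_topologicalClosure _) _ (fun a ha => by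
    obtain ⟨m, ha⟩ := ha
    rw [ha.gr.P]
    split_ifs with h
    · obtain rfl : n = m := by exact_mod_cast h
      exact Submodule.le_topologicalClosure _ (Submodule.subset_span ha)
    · exact zero_mem _) hu

lemma U_zero {u : B} (hu : u ∈ c.U) (h : ∀ n : ℕ, c.P n u = 0) : u = 0 := by
  have h1 : ∀ k : ℤ, c.P k u = 0 := fun k => by
    rcases le_or_gt 0 k with hk | hk
    · simpa [Int.toNat_of_nonneg hk] using h k.toNat
    · exact cl_eq (c.P k) 0 (fun a ha => by
        obtain ⟨m, ha⟩ := ha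
        rw [ha.gr.P, if_neg (by omega)]
        rfl) hu
  have g0 : c.γ 0 u = u := cl_eq (c.γL 0)
    (ContinuousLinearMap.id ℂ B) (fun a ha => (ha.choose_spec.gr 0).trans (by simp)) hu
  refine SeparatingDual.eq_zero_of_forall_dual_eq_zero (R := ℂ) fun ψ => ?_
  have k2 : fourierCoeff (⟨fun θ => ψ (c.γ θ u), ψ.continuous.comp (c.γc u)⟩ : C(_, ℂ)) = 0 := by
    funext k
    have := ψ.integral_comp_comm (int (c := c) u (-k))
    rw [← P_def, h1, map_zero] at this
    simpa [fourierCoeff] using this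
  have := has_pointwise_sum_fourier_series_of_summable
    (f := ⟨fun θ => ψ (c.γ θ u), ψ.continuous.comp (c.γc u)⟩) (by rw [k2]; exact summable_zero) 0
  rw [k2] at this
  simp only [Pi.zero_apply, zero_smul, ContinuousMap.coe_mk, g0] at this
  exact this.unique hasSum_zero

lemma sa_ind (p : B → Prop) (h1 : ∀ h ∈ c.A, IsSelfAdjoint h → p h)
    (h2 : ∀ a b, p a → p b → p (a + b)) (h3 : ∀ (r : ℂ) a, p a → p (r • a)) {a : B} (ha : a ∈ c.A) :
    p a := by
  have e : a = (2⁻¹ : ℂ) • (a + star a) + (-Complex.I / 2) • (Complex.I • (a - star a)) := by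
    rw [smul_smul, show -Complex.I / 2 * Complex.I = 2⁻¹ by
      linear_combination (-1 / 2 : ℂ) * Complex.I_sq]
    module
  rw [e]
  refine h2 _ _ (h3 _ _ (h1 _ (add_mem ha (star_mem ha)) (.add_star_self a))) (h3 _ _ (h1 _
    (SMulMemClass.smul_mem _ (sub_mem ha (star_mem ha))) ?_))
  simp [IsSelfAdjoint, sub_eq_neg_add, add_comm]

lemma orth' {h : B} (hh : IsSelfAdjoint h) (hA : h ∈ c.A) (W : B →ₗ[ℂ] B) (C : ℝ) (hC : 0 ≤ C)
    (hb : ∀ a ∈ c.A, ‖W a‖ ≤ C * ‖a‖)
    (hz : ∀ f ∈ c.A, ∀ k ∈ c.A, ∀ g, k * f = f → f * k = f → k * g = 0 → W f * g = 0) :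
    W h = W 1 * h := by
  have m : ∀ f, cfcHom (R := ℝ) hh f ∈ c.A := fun f => by
    have := c.hA
    rw [cfcHom_eq_cfc_extend 0]
    exact cfc_mem (𝕜' := ℂ) _ hA
  have := orth (LinearMap.mk₂ ℝ (fun f g => W (cfcHom (R := ℝ) hh f) * cfcHom (R := ℝ) hh g)
    (fun _ _ _ => by simp [add_mul]) (fun _ _ _ => by simp) (fun _ _ _ => by simp [mul_add])
    (fun _ _ _ => by simp)) C hC (fun f g => (norm_mul_le _ _).trans (by
      rw [← norm_cfcHom h f hh, ← norm_cfcHom h g hh]
      gcongr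
      exact hb _ (m f)))
    (fun f g k h1 h2 => hz _ (m f) _ (m k) _ (by rw [← map_mul, h1]) (by rw [← map_mul, mul_comm, h1])
      (by rw [← map_mul, h2, map_zero])) ((ContinuousMap.id ℝ).restrict _)
  simpa [cfcHom_id] using this

end Ctx

end Pool.Agent.H61.Lm
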