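import Mathlib
import Pool.Agent.H61.LmB

set_option autoImplicit false

namespace Pool.Agent.H61.Lm

open Filter Topology MeasureTheory
open scoped Classical InnerProductSpace ComplexOrder

lemma shift {H : Type} [NormedAddCommGroup H] [NormedSpace ℂ H] [CompleteSpace H]
    (F : Submodule ℂ H) (hF : IsClosed (F : Set H)) (R : H →L[ℂ] H) (h1 : ∀ z ∈ F, ‖R z‖ = ‖z‖)
    (j : ℕ) {x : H} (hx : x ∈ F)
    (h : ∀ l : ℝ, 0 < l → l < 1 → x ∈ (F.map (R - (l : ℂ) • 1 : H →L[ℂ] H).toLinearMap).topologicalClosure) :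
    ∃ z ∈ F, (R ^ j) z = x := by
  have := hF.completeSpace_coe
  have hc : IsClosed (Set.range fun z : F => R z) :=
    (AddMonoidHomClass.isometry_of_norm (R ∘L F.subtypeL)
      fun z : F => h1 z z.2 :).isClosedEmbedding.isClosed_range
  induction j generalizing x with
  | zero => exact ⟨x, hx, rfl⟩
  | succ j ih =>
    have k1 : ∀ l : ℝ, 0 < l → l < 1 →
        (1 - l) * Metric.infDist x (Set.range fun z : F => R z) ≤ l * ‖x‖ := fun l l0 l1 => by
      refine closure_minimal (s := _) (t := {x | (1 - l) * Metric.infDist x _ ≤ l * ‖x‖}) ?_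
        (isClosed_le (continuous_const.mul (Metric.continuous_infDist_pt _)) (by fun_prop)) (h l l0 l1)
      rintro _ ⟨z, hz, rfl⟩
      have e1 := Metric.infDist_le_dist_of_mem (x := R z - (l : ℂ) • z)
        (show R z ∈ Set.range fun z : F => R z from ⟨⟨z, hz⟩, rfl⟩)
      have e2 := norm_sub_norm_le (R z) ((l : ℂ) • z)
      simp only [dist_eq_norm, sub_sub_cancel_left, norm_neg, norm_smul, Complex.norm_real,
        Real.norm_of_nonneg l0.le, h1 z hz] at e1 e2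
      change (1 - l) * Metric.infDist (R z - (l : ℂ) • z) _ ≤ l * ‖R z - (l : ℂ) • z‖
      nlinarith
    have k2 : x ∈ Set.range fun z : F => R z := by
      refine (hc.mem_iff_infDist_zero ⟨_, 0, rfl⟩).2 (le_antisymm ?_ Metric.infDist_nonneg)
      have t1 : Tendsto (fun l : ℝ => l * ‖x‖ - (1 - l) * Metric.infDist x (Set.range fun z : F => R z))
          (𝓝[>] 0) (𝓝 (0 * ‖x‖ - (1 - 0) * Metric.infDist x (Set.range fun z : F => R z))) :=
        (Continuous.tendsto (by fun_prop) _).mono_left nhdsWithin_le_nhds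
      have := ge_of_tendsto t1 (b := 0) (by
        filter_upwards [Ioo_mem_nhdsGT (zero_lt_one' ℝ)] with l hl using sub_nonneg.2 (k1 l hl.1 hl.2))
      linarith
    obtain ⟨⟨z, hz⟩, rfl⟩ := k2
    obtain ⟨w, w1, w2⟩ := ih hz fun l l0 l1 => by
      have e : z = (l : ℂ)⁻¹ • (R z - (R - (l : ℂ) • 1 : H →L[ℂ] H) z) := by
        simp [← Complex.coe_smul, smul_smul, l0.ne']
      rw [e]
      exact Submodule.smul_mem _ _ (sub_mem (h l l0 l1)
        (Submodule.le_topologicalClosure _ ⟨z, hz, rfl⟩))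
    exact ⟨w, w1, by rw [pow_succ', mul_apply_eq_comp, w2]⟩

namespace Ctx

variable {B : Type} [CStarAlgebra B] {c : Ctx B}

lemma A_U {a : B} (h : a ∈ c.A) : a ∈ c.U := (Mon.zero h).U

variable (c) in
/-- local multiplier data -/
structure Loc (T : Submodule ℂ B) (S : B →ₗ[ℂ] B) (C : ℝ) : Prop where
  C0 : 0 ≤ C
  le : ∀ t ∈ T, t ∈ c.U
  mul : ∀ t ∈ T, ∀ u ∈ c.U, t * u ∈ T
  bd : ∀ t ∈ T, ‖S t‖ ≤ C * ‖t‖
  loc : ∀ t ∈ T, S t ∈ closure {w | ∃ x ∈ c.U, w = x * t}

/-- the defect -/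
noncomputable def D (S : B →ₗ[ℂ] B) (t : B) : B →ₗ[ℂ] B := S ∘ₗ LinearMap.mulLeft ℂ t - LinearMap.mulLeft ℂ (S t)

lemma D_def (S : B →ₗ[ℂ] B) (t v : B) : D S t v = S (t * v) - S t * v := rfl

variable {T : Submodule ℂ B} {S : B →ₗ[ℂ] B} {C : ℝ}

lemma Loc.zero (h : c.Loc T S C) {z w : B} (hz : z ∈ T) (e : z * w = 0) : S z * w = 0 :=
  closure_minimal (t := {v | v * w = 0}) (by
    rintro _ ⟨x, -, rfl⟩
    simp [mul_assoc, e]) (isClosed_eq (by fun_prop) continuous_const) (h.loc z hz)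

lemma Loc.SU (h : c.Loc T S C) {z : B} (hz : z ∈ T) : S z ∈ c.U :=
  closure_minimal (by
    rintro _ ⟨x, hx, rfl⟩
    exact U_mul hx (h.le z hz)) (Submodule.isClosed_topologicalClosure _) (h.loc z hz)

lemma Loc.s1 (h : c.Loc T S C) {t a : B} (ht : t ∈ T) (ha : a ∈ c.A) : S (t * a) = S t * a := by
  refine sa_ind (fun a => S (t * a) = S t * a) (fun a ha hs => ?_)
    (fun a b h1 h2 => by simp only [mul_add, map_add, h1, h2])
    (fun r a h => by simp only [mul_smul_comm, map_smul, h]) ha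
  simpa using orth' hs ha (S ∘ₗ LinearMap.mulLeft ℂ t) (C * ‖t‖) (mul_nonneg h.C0 (norm_nonneg _))
    (fun a ha => (h.bd _ (h.mul t ht a (A_U ha))).trans (by
      rw [mul_assoc]
      exact mul_le_mul_of_nonneg_left (norm_mul_le _ _) h.C0))
    fun f hf k hk g _ h2 h3 => h.zero (h.mul t ht f (A_U hf)) (by
      rw [← h2, LinearMap.mulLeft_apply, mul_assoc, mul_assoc, h3, mul_zero, mul_zero])

lemma Loc.Db (h : c.Loc T S C) {t v : B} (ht : t ∈ T) (hv : v ∈ c.U) :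
    ‖D S t v‖ ≤ (C * ‖t‖ + ‖S t‖) * ‖v‖ := by
  rw [add_mul, mul_assoc]
  exact (norm_sub_le _ _).trans (add_le_add ((h.bd _ (h.mul t ht v hv)).trans
    (mul_le_mul_of_nonneg_left (norm_mul_le _ _) h.C0)) (norm_mul_le _ _))

lemma Loc.s3 (h : c.Loc T S C) {t v a : B} (ht : t ∈ T) (hv : v ∈ c.U) (ha : a ∈ c.A) :
    D S t (v * a) = D S t v * a := by
  rw [D_def, D_def, ← mul_assoc, h.s1 (h.mul t ht v hv) ha, sub_mul, mul_assoc (S t)]

lemma Loc.s2 (h : c.Loc T S C) {t v a : B} (ht : t ∈ T) (hv : v ∈ c.U) (ha : a ∈ c.A) :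
    D S t (a * v) = D S t v * a := by
  refine sa_ind (fun a => D S t (a * v) = D S t v * a) (fun a ha hs => ?_)
    (fun a b h1 h2 => by simp only [mul_add, add_mul, map_add, h1, h2])
    (fun r a h => by simp only [mul_smul_comm, smul_mul_assoc, map_smul, h]) ha
  have := h.C0
  simpa using orth' hs ha (D S t ∘ₗ LinearMap.mulRight ℂ v) ((C * ‖t‖ + ‖S t‖) * ‖v‖) (by positivity)
    (fun a ha => (h.Db ht (U_mul (A_U ha) hv)).trans (by
      rw [mul_assoc _ ‖v‖, mul_comm ‖v‖]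
      exact mul_le_mul_of_nonneg_left (norm_mul_le _ _) (by positivity)))
    fun f hf k hk g h1 _ h3 => by
      have hu := h.mul t ht _ (U_mul (A_U hf) hv)
      have hk' : 1 - k ∈ c.A := sub_mem (one_mem _) hk
      have h4 : k * (f * v) = f * v := by rw [← mul_assoc, h1]
      change D S t (f * v) * g = 0
      generalize f * v = u at *
      have := h.zero (w := g - u * g) (add_mem (h.mul t ht k (A_U hk)) (h.mul _ hu _ (A_U hk'))) (by
        calc _ = t * (k * g) - t * (k * u) * g + t * u * (g - k * g) - t * u * (u - k * u) * g := by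
              noncomm_ring
          _ = 0 := by rw [h3, h4]; simp)
      rw [map_add, h.s1 ht hk, h.s1 hu hk'] at this
      rw [← this, D_def]
      calc _ = S t * (k * g) - S t * (k * u) * g + S (t * u) * (g - k * g) -
            S (t * u) * (u - k * u) * g := by rw [h3, h4]; noncomm_ring
        _ = _ := by noncomm_ring

variable (c) in
/-- vector states -/
structure St {H : Type} [NormedAddCommGroup H] [InnerProductSpace ℂ H] (φ : B →L[ℂ] ℂ)
    (ι : B →L[ℂ] H) : Prop where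
  one : φ 1 = 1
  mul : ∀ a ∈ c.A, ∀ b ∈ c.A, φ (a * b) = φ a * φ b
  gr : ∀ d b, d ≠ 0 → c.Gr d b → φ b = 0
  inner : ∀ a b, ⟪ι a, ι b⟫_ℂ = φ (star a * b)

variable {H : Type} [NormedAddCommGroup H] [InnerProductSpace ℂ H] {φ : B →L[ℂ] ℂ} {ι : B →L[ℂ] H}

lemma St.right (h : c.St φ ι) (b : B) {a : B} (ha : a ∈ c.A) : ι (b * a) = φ a • ι b := by
  have hw : a - φ a • 1 ∈ c.A := sub_mem ha (SMulMemClass.smul_mem _ (one_mem _))
  have h1 : ι (a - φ a • 1) = 0 := by
    rw [← inner_self_eq_zero (𝕜 := ℂ), h.inner, h.mul _ (star_mem hw) _ hw]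
    simp [h.one]
  have h2 : ι (b * (a - φ a • 1)) = 0 := by
    rw [← inner_self_eq_zero (𝕜 := ℂ), h.inner, star_mul, mul_assoc, ← h.inner, h1, inner_zero_left]
  simpa [mul_sub, sub_eq_zero] using h2

lemma St.Q [PartialOrder B] [StarOrderedRing B] (h : c.St φ ι) {y : B} (hy : y ∈ c.Y) {ε : ℝ}
    (h0 : 0 < ε) (h1 : ‖ι y‖ ≤ ε) : ∃ e ∈ c.A, φ e = 1 ∧ ‖y * e‖ ≤ ε := by
  have hp : 0 ≤ star y * y := star_mul_self_nonneg y
  have hA := c.YY y hy y hy
  have hr : φ (star y * y) = (‖ι y‖ ^ 2 : ℝ) := by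
    rw [← h.inner, inner_self_eq_norm_sq_to_K]
    simp
  have hr2 : ‖ι y‖ ^ 2 ≤ ε ^ 2 := by gcongr
  have hn : ∀ e, ‖y * e‖ ^ 2 = ‖star e * (star y * y) * e‖ := fun e => by
    rw [sq, ← CStarRing.norm_star_mul_self, star_mul, mul_assoc, mul_assoc, mul_assoc]
  have r0 : 0 ≤ ‖ι y‖ ^ 2 := by positivity
  generalize star y * y = p at *
  generalize ‖ι y‖ ^ 2 = r at *
  have sp : ∀ x ∈ spectrum ℝ p, 0 < ε ^ 2 + x := fun x hx => by
    have := spectrum_nonneg_of_nonneg hp hx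
    positivity
  have ct : ContinuousOn (fun x : ℝ => (ε ^ 2 + r) / (ε ^ 2 + x)) (spectrum ℝ p) :=
    continuousOn_const.div (by fun_prop) fun x hx => (sp x hx).ne'
  have := c.hA
  have he : cfc (fun x : ℝ => (ε ^ 2 + r) / (ε ^ 2 + x)) p ∈ c.A := cfc_mem (𝕜' := ℂ) _ hA
  refine ⟨_, he, ?_, ?_⟩
  · have e1 : (algebraMap ℝ B (ε ^ 2) + p) * cfc (fun x : ℝ => (ε ^ 2 + r) / (ε ^ 2 + x)) p =
        algebraMap ℝ B (ε ^ 2 + r) := by
      nth_rewrite 1 [← cfc_id' ℝ p]
      rw [← cfc_const_add _ _ p, ← cfc_mul _ _ p, ← cfc_const _ p]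
      exact cfc_congr fun x hx => mul_div_cancel₀ _ (sp x hx).ne'
    have e2 := congrArg φ e1
    simp only [Algebra.algebraMap_eq_smul_one, ← Complex.coe_smul] at e2
    rw [h.mul _ (add_mem (SMulMemClass.smul_mem _ (one_mem _)) hA) _ he] at e2
    simp only [map_add, map_smul, h.one, hr, smul_eq_mul, mul_one, ← Complex.ofReal_add] at e2
    exact (mul_eq_left₀ (Complex.ofReal_ne_zero.2 (by positivity))).1 e2
  · refine (pow_le_pow_iff_left₀ (norm_nonneg _) h0.le two_ne_zero).1 ?_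
    rw [hn, (IsSelfAdjoint.cfc (a := p)).star_eq]
    nth_rewrite 2 [← cfc_id' ℝ p]
    rw [← cfc_mul _ _ p, ← cfc_mul _ _ p]
    refine norm_cfc_le (by positivity) fun x hx => ?_
    have x0 := spectrum_nonneg_of_nonneg hp hx
    have := sp x hx
    rw [Real.norm_of_nonneg (by positivity), div_mul_eq_mul_div, div_mul_div_comm,
      div_le_iff₀ (by positivity)]
    have e3 : (ε ^ 2 + r) * (ε ^ 2 + r) ≤ (2 * ε ^ 2) * (2 * ε ^ 2) := by gcongr <;> linarith
    nlinarith [mul_le_mul_of_nonneg_left e3 x0, mul_nonneg (sq_nonneg ε) (sq_nonneg (ε ^ 2 - x))]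

lemma loop [CompleteSpace H] (hL : c.Loc T S C) (h : c.St φ ι) {t y : B} (ht : t ∈ T) (hy : y ∈ c.Y)
    (h1 : ‖ι y‖ = 1) (h2 : ∀ a ∈ c.A, ι (a * y) = φ a • ι y) : ι (D S t y) = 0 := by
  have yU := (Mon.one hy).U
  have i1 : ∀ u ∈ c.U, ∀ v ∈ c.U, ⟪ι (u * y), ι (v * y)⟫_ℂ = ⟪ι u, ι v⟫_ℂ := fun u hu v hv => by
    refine cl_ind (fun u => ⟪ι (u * y), ι (v * y)⟫_ℂ = ⟪ι u, ι v⟫_ℂ)
      (isClosed_eq (by fun_prop) (by fun_prop)) (fun u hu => ?_) (by simp)
      (fun a b h1 h2 => by simp only [add_mul, map_add, inner_add_left, h1, h2])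
      (fun r a h => by simp only [smul_mul_assoc, map_smul, inner_smul_left, h]) hu
    refine cl_ind (fun v => ⟪ι (u * y), ι (v * y)⟫_ℂ = ⟪ι u, ι v⟫_ℂ)
      (isClosed_eq (by fun_prop) (by fun_prop)) (fun v hv => ?_) (by simp)
      (fun a b h1 h2 => by simp only [add_mul, map_add, inner_add_right, h1, h2])
      (fun r a h => by simp only [smul_mul_assoc, map_smul, inner_smul_right, h]) hv
    obtain ⟨n, hu⟩ := hu
    obtain ⟨m, hv⟩ := hv
    by_cases e : n = m
    · subst e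
      rw [h.inner, star_mul, mul_assoc, ← h.inner, ← mul_assoc, h2 _ (hu.inner hv), inner_smul_right,
        inner_self_eq_norm_sq_to_K, h1, h.inner]
      simp
    · rw [h.inner, h.inner, h.gr _ _ (by omega) ((hu.succ hy).gr.star.mul (hv.succ hy).gr),
        h.gr _ _ (by omega) (hu.gr.star.mul hv.gr)]
  have i2 : ∀ u ∈ c.U, ‖ι (u * y)‖ = ‖ι u‖ := fun u hu => by
    rw [@norm_eq_sqrt_re_inner ℂ, i1 u hu u hu, ← norm_eq_sqrt_re_inner]
  let F := (c.U.map ι.toLinearMap).topologicalClosure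
  have hF : ∀ u ∈ c.U, ι u ∈ F := fun u hu => Submodule.le_topologicalClosure _ ⟨u, hu, rfl⟩
  have iF : ∀ p : H → Prop, IsClosed {z | p z} → (∀ u ∈ c.U, p (ι u)) → ∀ z ∈ F, p z :=
    fun p h1 h2 z hz => closure_minimal (by rintro _ ⟨u, hu, rfl⟩; exact h2 u hu) h1 hz
  let e : c.U →ₗ[ℂ] F := (ι.toLinearMap ∘ₗ c.U.subtype).codRestrict F fun u => hF u u.2
  have he : DenseRange e := Subtype.dense_iff.2 (closure_mono (by
    rintro _ ⟨u, hu, rfl⟩
    exact ⟨_, ⟨⟨u, hu⟩, rfl⟩, rfl⟩))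
  let f : c.U →ₗ[ℂ] H := ι.toLinearMap ∘ₗ LinearMap.mulRight ℂ y ∘ₗ c.U.subtype
  let R := f.extendOfNorm e ∘L F.orthogonalProjectionOnto
  have r1 : ∀ u ∈ c.U, R (ι u) = ι (u * y) := fun u hu => by
    have := LinearMap.extendOfNorm_eq (f := f) he ⟨1, fun u => by
      rw [one_mul]
      exact (i2 u u.2).le⟩ ⟨u, hu⟩
    rwa [← Submodule.orthogonalProjectionOnto_mem_subspace_eq_self (e ⟨u, hu⟩)] at this
  have r2 : ∀ j, ∀ u ∈ c.U, (R ^ j) (ι u) = ι (u * y ^ j) := fun j => by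
    induction j with
    | zero => simp
    | succ j ih =>
      intro u hu
      rw [pow_succ, mul_apply_eq_comp, r1 u hu, ih _ (U_mul hu yU), mul_assoc, pow_succ']
  have r3 : ∀ j, c.Mon j (y ^ j) := fun j => by
    induction j with
    | zero => exact .zero (by simp)
    | succ j ih => exact pow_succ y j ▸ ih.succ hy
  have xU : D S t y ∈ c.U := sub_mem (hL.SU (hL.mul t ht y yU)) (U_mul (hL.SU ht) yU)
  have k1 := fun j => shift F (Submodule.isClosed_topologicalClosure _) R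
    (iF _ (isClosed_eq (by fun_prop) (by fun_prop)) fun u hu => by rw [r1 u hu, i2 u hu]) j (hF _ xU)
    fun l _ _ => by
      have g1 : ∀ u ∈ c.U, ι (u * (y - (l : ℂ) • 1)) ∈
          (F.map (R - (l : ℂ) • 1 : H →L[ℂ] H).toLinearMap).topologicalClosure := fun u hu =>
        Submodule.le_topologicalClosure _ ⟨ι u, hF u hu, by simp [r1 u hu, mul_sub]⟩
      have e : D S t y = S (t * (y - (l : ℂ) • 1)) - S t * (y - (l : ℂ) • 1) := by
        simp [D_def, mul_sub]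
      rw [e, map_sub]
      refine sub_mem ?_ (g1 _ (hL.SU ht))
      refine closure_minimal (t := ι ⁻¹' _) ?_
        ((Submodule.isClosed_topologicalClosure _).preimage ι.continuous) (hL.loc _
          (hL.mul t ht _ (sub_mem yU (Submodule.smul_mem _ _ (A_U (one_mem _))))))
      rintro _ ⟨x, hx, rfl⟩
      rw [← mul_assoc]
      exact g1 _ (U_mul hx (hL.le t ht))
  rw [← inner_self_eq_zero (𝕜 := ℂ)]
  have xF := hF _ xU
  generalize ι (D S t y) = x at k1 xF ⊢
  refine iF (fun z => ⟪z, x⟫_ℂ = 0) (isClosed_eq (by fun_prop) continuous_const) (fun w hw => ?_) x xF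
  refine cl_ind (fun w => ⟪ι w, x⟫_ℂ = 0) (isClosed_eq (by fun_prop) continuous_const)
    (fun w hw => ?_) (by simp) (fun a b h1 h2 => by simp [h1, h2])
    (fun r a h => by simp [h]) hw
  obtain ⟨m, hw⟩ := hw
  obtain ⟨z, hz, rfl⟩ := k1 (m + 1)
  refine iF (fun z => ⟪ι w, (R ^ (m + 1)) z⟫_ℂ = 0) (isClosed_eq (by fun_prop) continuous_const)
    (fun u hu => ?_) z hz
  rw [r2 _ u hu]
  refine cl_ind (fun u => ⟪ι w, ι (u * y ^ (m + 1))⟫_ℂ = 0)
    (isClosed_eq (by fun_prop) continuous_const) (fun u hu => ?_) (by simp)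
    (fun a b h1 h2 => by simp only [add_mul, map_add, inner_add_right, h1, h2, add_zero])
    (fun r a h => by simp only [smul_mul_assoc, map_smul, inner_smul_right, h, mul_zero]) hu
  obtain ⟨n, hu⟩ := hu
  rw [h.inner]
  exact h.gr _ _ (by omega) (hw.gr.star.mul (hu.mul (r3 _)).gr)

lemma core [CompleteSpace H] [PartialOrder B] [StarOrderedRing B] (hL : c.Loc T S C)
    (h : c.St φ ι) {t y : B} (ht : t ∈ T) (hy : y ∈ c.Y) : ι (D S t y) = 0 := by
  have YU : ∀ y ∈ c.Y, y ∈ c.U := fun y hy => (Mon.one hy).U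
  let N : Submodule ℂ B := c.Y ⊓ LinearMap.ker (ι.toLinearMap ∘ₗ D S t)
  let K := (N.map ι.toLinearMap).topologicalClosure
  have b1 : ∀ w ∈ c.Y, ι w ∈ K → ι (D S t w) = 0 := fun w hw hK => by
    have := hL.C0
    refine norm_le_zero_iff.1 (le_of_forall_pos_le_add fun ε hε => ?_)
    obtain ⟨_, ⟨n, hn, rfl⟩, h2⟩ := Metric.mem_closure_iff.1 hK
      (ε / (‖ι‖ * (C * ‖t‖ + ‖S t‖) + 1)) (by positivity)
    rw [dist_eq_norm] at h2
    obtain ⟨e, e1, e2, e3⟩ := h.Q (sub_mem hw hn.1) (ε := ε / (‖ι‖ * (C * ‖t‖ + ‖S t‖) + 1))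
      (by positivity) (by simpa using h2.le)
    have e4 := h.right (D S t (w - n)) e1
    have e5 : ι (D S t n) = 0 := hn.2
    rw [← hL.s3 ht (YU _ (sub_mem hw hn.1)) e1, e2, one_smul, map_sub, map_sub, e5, sub_zero] at e4
    rw [← e4, zero_add]
    refine (ι.le_opNorm _).trans ((mul_le_mul_of_nonneg_left
      (hL.Db ht (U_mul (YU _ (sub_mem hw hn.1)) (A_U e1))) (norm_nonneg _)).trans ?_)
    rw [le_div_iff₀ (by positivity)] at e3
    nlinarith [norm_nonneg ((w - n) * e)]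
  have := c.hY.completeSpace_coe
  let f : NormedAddGroupHom c.Y H := (ι ∘L c.Y.subtypeL).toLinearMap.toAddMonoidHom.mkNormedAddGroupHom
    ‖ι‖ fun y => ι.le_opNorm y
  have b2 := controlled_closure_of_complete (f := f) (K := f.range) one_pos one_pos (by
    rintro _ ⟨w, rfl⟩
    by_cases h0 : f w = 0
    · exact ⟨0, by simp [h0], by simp⟩
    · obtain ⟨e, e1, e2, e3⟩ := h.Q w.2 (norm_pos_iff.2 h0) le_rfl
      exact ⟨⟨w * e, c.YA _ w.2 _ e1⟩, (h.right w e1).trans (by rw [e2, one_smul]; rfl),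
        by simpa using e3⟩)
  have := (Submodule.isClosed_topologicalClosure (N.map ι.toLinearMap)).completeSpace_coe
  obtain ⟨k', k1, k, k2, e⟩ := K.exists_add_mem_mem_orthogonal (ι y)
  obtain ⟨y', rfl, -⟩ := b2 k' (closure_mono (by
    rintro _ ⟨n, hn, rfl⟩
    exact ⟨⟨n, hn.1⟩, rfl⟩) k1)
  have hz := sub_mem hy y'.2
  have e1 : ι (y - y') = k := by rw [map_sub, e]; exact add_sub_cancel_left _ _
  have e2 : ι (D S t y) = ι (D S t (y - y')) := by
    rw [map_sub, map_sub, b1 _ y'.2 k1, sub_zero]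
  rw [e2]
  generalize y - y' = z at *
  subst e1
  by_cases h0 : ι z = 0
  · exact b1 z hz (h0 ▸ zero_mem _)
  have e3 : ∀ a ∈ c.A, ι (a * z - φ a • z) ∈ K := fun a ha =>
    Submodule.le_topologicalClosure _ ⟨_, ⟨sub_mem (c.AY a ha z hz) (c.Y.smul_mem _ hz), by
      simp [hL.s2 ht (YU z hz) ha, h.right _ ha]⟩, rfl⟩
  have e4 : ∀ a ∈ c.A, ι (a * z) = φ a • ι z := fun a ha => by
    have hw : a - φ a • 1 ∈ c.A := sub_mem ha (SMulMemClass.smul_mem _ (one_mem _))
    have h1 := (Submodule.mem_orthogonal' _ _).1 k2 _ (e3 _ (mul_mem (star_mem hw) hw))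
    rw [h.mul _ (star_mem hw) _ hw, show φ (a - φ a • 1) = 0 by simp [h.one], mul_zero, zero_smul,
      sub_zero, h.inner, mul_assoc, ← mul_assoc, ← star_mul, ← h.inner, inner_self_eq_zero] at h1
    simpa [sub_mul, sub_eq_zero] using h1
  have h1 := norm_ne_zero_iff.2 h0
  have := loop hL h ht (c.Y.smul_mem (‖ι z‖⁻¹ : ℂ) hz) (by simp [norm_smul, h1])
    fun a ha => by rw [mul_smul_comm, map_smul, map_smul, e4 a ha, smul_comm]
  simpa [h0] using this

theorem Loc.main (hL : c.Loc T S C) {t y : B} (ht : t ∈ T) (hy : y ∈ c.Y) :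
    S (t * y) = S t * y := by
  let _ := CStarAlgebra.spectralOrder B
  have := CStarAlgebra.spectralOrderedRing B
  have yU := (Mon.one hy).U
  rw [← sub_eq_zero, ← D_def]
  have xU : D S t y ∈ c.U := sub_mem (hL.SU (hL.mul t ht y yU)) (U_mul (hL.SU ht) yU)
  refine U_zero xU fun n => ?_
  by_contra h0
  have := nontrivial_of_ne _ _ h0
  have hq := P_mem n xU
  obtain ⟨χ, hχ⟩ := exists_char c.A c.hA (V_inner hq hq)
    (CStarRing.star_mul_self_ne_zero_iff _ |>.2 h0) fun a ha b hb e he => by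
      have hv := U_mul yU (A_U he)
      have e1 : D S t (y * e) * (a * b) = D S t (y * e) * (b * a) := by
        rw [← hL.s2 ht hv (mul_mem ha hb), mul_assoc a, hL.s2 ht (U_mul (A_U hb) hv) ha,
          hL.s2 ht hv hb, mul_assoc]
      rw [mul_assoc, mul_assoc, ← P_mul _ _ (mul_mem he (sub_mem (mul_mem ha hb) (mul_mem hb ha))),
        ← mul_assoc _ e, ← hL.s3 ht yU he, mul_sub, e1, sub_self, map_zero, mul_zero]
  have := c.hA.completeSpace_coe
  let f : Subalgebra.toSubmodule c.A.toSubalgebra →ₗ[ℂ] ℂ :=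
    { toFun x := χ ⟨x, x.2⟩
      map_add' a b := map_add χ ⟨a, a.2⟩ ⟨b, b.2⟩
      map_smul' r a := map_smul χ r ⟨a, a.2⟩ }
  have hf : ∀ x, ‖f x‖ ≤ 1 * ‖x‖ := fun x => by
    have := AlgHom.norm_apply_le_self_mul_norm_one χ ⟨x, x.2⟩
    rw [show ‖(1 : c.A)‖ = 1 from norm_one (α := B), mul_one] at this
    rwa [one_mul]
  obtain ⟨g, g1, g2⟩ := exists_extension_norm_eq _ (f.mkContinuous 1 hf)
  let φ := g ∘L c.P 0
  have p1 : ∀ a (ha : a ∈ c.A), φ a = χ ⟨a, ha⟩ := fun a ha => by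
    have := (Mon.zero ha).gr.P 0
    simp only [Nat.cast_zero, if_true] at this
    simp only [φ, ContinuousLinearMap.comp_apply, this]
    exact g1 ⟨a, ha⟩
  have p2 : φ 1 = 1 := (p1 1 (one_mem _)).trans (map_one χ)
  have p3 : ∀ b, ‖φ b‖ ≤ ‖b‖ := fun b => by
    simpa [φ] using (g.le_of_opNorm_le (g2.trans_le (f.mkContinuous_norm_le zero_le_one hf)) _).trans
      (mul_le_mul_of_nonneg_left (P_le 0 b) zero_le_one)
  let ψ : B →ₚ[ℂ] ℂ := PositiveLinearMap.mk₀ φ.toLinearMap (pos_of_norm φ p3 p2)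
  let ι : B →L[ℂ] ψ.GNS := LinearMap.mkContinuous
    ((UniformSpace.Completion.toComplL (𝕜 := ℂ)).toLinearMap ∘ₗ ψ.toPreGNS.toLinearMap) 1 fun b => by
      simp only [LinearMap.comp_apply, ContinuousLinearMap.coe_coe,
        UniformSpace.Completion.coe_toComplL, UniformSpace.Completion.norm_coe, one_mul,
        PositiveLinearMap.preGNS_norm_def]
      refine Real.sqrt_le_iff.2 ⟨norm_nonneg _, (Complex.re_le_norm _).trans ((p3 _).trans_eq ?_)⟩
      exact CStarRing.norm_star_mul_self.trans (sq _).symm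
  have hS : c.St φ ι := ⟨p2, fun a ha b hb => by
      rw [p1 _ ha, p1 _ hb, p1 _ (mul_mem ha hb), ← map_mul]
      rfl,
    fun d b hd hb => by simp [φ, hb.P, hd.symm],
    fun a b => UniformSpace.Completion.inner_coe _ _⟩
  have e1 := cl_eq (φ ∘L ContinuousLinearMap.mul ℂ B (star (c.P n (D S t y))))
    (φ ∘L ContinuousLinearMap.mul ℂ B (star (c.P n (D S t y))) ∘L c.P n) (fun u hu => by
      obtain ⟨m, hu⟩ := hu
      simp only [ContinuousLinearMap.comp_apply, ContinuousLinearMap.mul_apply', hu.gr.P]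
      split_ifs with h
      · rfl
      · rw [hS.gr _ _ (by omega) ((V_gr hq).star.mul hu.gr), mul_zero, map_zero]) xU
  simp only [ContinuousLinearMap.comp_apply, ContinuousLinearMap.mul_apply'] at e1
  rw [← hS.inner, core hL hS ht hy, inner_zero_right, p1 _ (V_inner hq hq)] at e1
  exact hχ e1.symm

theorem Loc.all (hL : c.Loc T S C) {t u : B} (ht : t ∈ T) (hu : u ∈ c.U) :
    S (t * u) = S t * u := by
  have h1 : ∀ n u, c.Mon n u → ∀ t ∈ T, S (t * u) = S t * u := fun n u hu => by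
    induction hu with
    | zero h => exact fun t ht => hL.s1 ht h
    | succ h hy ih =>
      intro t ht
      rw [← mul_assoc, hL.main (hL.mul t ht _ h.U) hy, ih t ht, mul_assoc]
  have h2 : Submodule.span ℂ {a | ∃ n, c.Mon n a} ≤ LinearMap.ker (D S t) :=
    Submodule.span_le.2 fun a ha => sub_eq_zero.2 (h1 _ _ ha.choose_spec t ht)
  have := hL.C0
  rw [← sub_eq_zero, ← D_def]
  refine norm_le_zero_iff.1 (le_of_forall_pos_le_add fun ε hε => ?_)
  obtain ⟨b, b1, b2⟩ := Metric.mem_closure_iff.1 hu (ε / (C * ‖t‖ + ‖S t‖ + 1)) (by positivity)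
  have h3 := hL.Db ht (sub_mem hu (Submodule.le_topologicalClosure _ b1))
  rw [map_sub, show D S t b = 0 from h2 b1, sub_zero] at h3
  rw [dist_eq_norm, lt_div_iff₀ (by positivity)] at b2
  nlinarith [norm_nonneg (u - b)]

end Ctx

end Pool.Agent.H61.Lm
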