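import Mathlib

set_option autoImplicit false

namespace Pool.Agent.H61.LmDefs

open Filter Topology

/-- A C*-correspondence over A: a right Hilbert A-module X with a star homomorphism (possibly
degenerate) from A to the adjointable operators on X. -/
structure Corr (A X : Type) [NonUnitalCStarAlgebra A] [PartialOrder A] [StarOrderedRing A]
    [NormedAddCommGroup X] [NormedSpace ℂ X] [CompleteSpace X] where
  /-- right action -/
  act : X →ₗ[ℂ] A →ₗ[ℂ] X
  act_mul : ∀ x a b, act x (a * b) = act (act x a) b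
  /-- inner product, linear in the second variable -/
  ip : X → X →ₗ[ℂ] A
  ip_act : ∀ x y a, ip x (act y a) = ip x y * a
  ip_star : ∀ x y, star (ip x y) = ip y x
  ip_nonneg : ∀ x, 0 ≤ ip x x
  norm_sq : ∀ x, ‖x‖ ^ 2 = ‖ip x x‖
  /-- left action -/
  φ : A →ₗ[ℂ] X →L[ℂ] X
  φ_mul : ∀ a b, φ (a * b) = φ a * φ b
  φ_star : ∀ a x y, ip (φ a x) y = ip x (φ (star a) y)

variable {A X : Type} [NonUnitalCStarAlgebra A] [PartialOrder A] [StarOrderedRing A]
  [NormedAddCommGroup X] [NormedSpace ℂ X] [CompleteSpace X]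

/-- Toeplitz representations. -/
def IsToeplitz (c : Corr A X) {B : Type} [NonUnitalCStarAlgebra B] (π : A →⋆ₙₐ[ℂ] B)
    (t : X →ₗ[ℂ] B) : Prop :=
  (∀ a x, π a * t x = t (c.φ a x)) ∧ ∀ x y, star (t x) * t y = π (c.ip x y)

/-- The universal Toeplitz representation, in the C*-algebra it generates. -/
def IsUniversal (c : Corr A X) {B : Type} [NonUnitalCStarAlgebra B] (π : A →⋆ₙₐ[ℂ] B)
    (t : X →ₗ[ℂ] B) : Prop :=
  IsToeplitz c π t ∧
    (NonUnitalStarAlgebra.adjoin ℂ (Set.range π ∪ Set.range t)).topologicalClosure = ⊤ ∧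
    ∀ (B' : Type) [NonUnitalCStarAlgebra B'] (π' : A →⋆ₙₐ[ℂ] B') (t' : X →ₗ[ℂ] B'),
      IsToeplitz c π' t' → ∃ ρ : B →⋆ₙₐ[ℂ] B', (∀ a, ρ (π a) = π' a) ∧ ∀ x, ρ (t x) = t' x

/-- The tensor algebra: the norm-closed subalgebra generated by the images of π and t. -/
noncomputable def tensorAlg {B : Type} [NonUnitalCStarAlgebra B] (π : A →⋆ₙₐ[ℂ] B)
    (t : X →ₗ[ℂ] B) : NonUnitalSubalgebra ℂ B :=
  (NonUnitalAlgebra.adjoin ℂ (Set.range π ∪ Set.range t)).topologicalClosure

/-- Left multipliers. -/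
def LeftMul {T : Type} [Mul T] (S : T → T) : Prop := ∀ a b, S (a * b) = S a * b

/-- Local left multipliers. -/
def LocalMul {T : Type} [Mul T] (S : T → T) : Prop := ∀ a, ∃ x, S a = x * a

/-- Approximately local left multipliers. -/
def ApproxMul {T : Type} [Mul T] [TopologicalSpace T] (S : T → T) : Prop :=
  ∀ a, ∃ x : ℕ → T, Tendsto (fun n => x n * a) atTop (𝓝 (S a))

end Pool.Agent.H61.LmDefs
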