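import Mathlib

set_option autoImplicit false

namespace Pool.Agent.H61.Ma

open Filter Topology
open scoped InnerProductSpace

variable {H : Type} [NormedAddCommGroup H] [InnerProductSpace ℂ H] [CompleteSpace H]

lemma re_star_mul (X : H →L[ℂ] H) (x : H) : (star X * X).reApplyInnerSelf x = ‖X x‖ ^ 2 := by
  rw [ContinuousLinearMap.reApplyInnerSelf_apply, mul_apply_eq_comp,
    ContinuousLinearMap.star_eq_adjoint, ContinuousLinearMap.adjoint_inner_left,
    inner_self_eq_norm_sq_to_K]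
  norm_cast

lemma sq_le_of_le {X Y : H →L[ℂ] H} {c : ℝ} (h : star X * X ≤ c • (star Y * Y)) (x : H) :
    ‖X x‖ ^ 2 ≤ c * ‖Y x‖ ^ 2 := by
  have := ((ContinuousLinearMap.le_def _ _).1 h).2 x
  rw [← re_star_mul, ← re_star_mul]
  simp only [ContinuousLinearMap.reApplyInnerSelf_apply, sub_apply,
    inner_sub_left, map_sub, smul_apply] at this ⊢
  rw [← Complex.coe_smul, inner_smul_left] at this
  simpa using this

omit [CompleteSpace H] in
lemma canL {u X : H →L[ℂ] H} (hi : ∀ x, u x = 0 → x = 0) (h : u * X = 0) : X = 0 := by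
  ext x
  exact hi _ (by simpa using congrArg (fun Y : H →L[ℂ] H => Y x) h)

lemma canR {u X : H →L[ℂ] H} (hu : IsSelfAdjoint u) (hi : ∀ x, u x = 0 → x = 0) (h : X * u = 0) :
    X = 0 := by
  have : u * star X = 0 := by rw [← hu.star_eq, ← star_mul, h, star_zero]
  simpa using canL hi this

lemma dense {u : H →L[ℂ] H} (hu : IsSelfAdjoint u) (hi : ∀ x, u x = 0 → x = 0) :
    DenseRange (u : H →ₗ[ℂ] H) := by
  have : (LinearMap.range (u : H →ₗ[ℂ] H)).topologicalClosure = ⊤ := by
    rw [Submodule.topologicalClosure_eq_top_iff, eq_bot_iff]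
    intro x hx
    refine hi x ?_
    have := (Submodule.mem_orthogonal _ _).1 hx (u (u x)) ⟨u x, rfl⟩
    rw [hu.isSymmetric.apply_clm] at this
    exact inner_self_eq_zero.1 this
  exact Submodule.dense_iff_topologicalClosure_eq_top.2 this

lemma canO {u X : H →L[ℂ] H} (hu : IsSelfAdjoint u) (hi : ∀ x, u x = 0 → x = 0)
    (hX : IsSelfAdjoint X) (h : 0 ≤ u * X * u) : 0 ≤ X := by
  rw [ContinuousLinearMap.nonneg_iff_isPositive] at h ⊢
  refine ⟨hX.isSymmetric, fun x => ?_⟩
  refine (dense hu hi).induction_on x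
    (isClosed_le continuous_const X.reApplyInnerSelf_continuous) fun a => ?_
  have := h.2 a
  simp only [ContinuousLinearMap.reApplyInnerSelf_apply, mul_apply_eq_comp] at this ⊢
  rwa [hu.isSymmetric.apply_clm] at this

lemma douglas {u A : H →L[ℂ] H} (hu : IsSelfAdjoint u) (hi : ∀ x, u x = 0 → x = 0) (c : ℝ)
    (h : ∀ x, ‖A x‖ ≤ c * ‖u x‖) : ∃ G : H →L[ℂ] H, G * u = A := by
  refine ⟨(A : H →ₗ[ℂ] H).extendOfNorm (u : H →ₗ[ℂ] H), ?_⟩
  ext x
  exact LinearMap.extendOfNorm_eq (dense hu hi) ⟨c, h⟩ x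

lemma lower {u y : H →L[ℂ] H} (hi : ∀ x, u x = 0 → x = 0) (hy : 0 ≤ y) {κ : ℝ} (hκ : 0 < κ)
    (h : ∀ x, ‖u x‖ ≤ κ * ‖u (y x)‖) {m : ℝ} (hm : m ∈ spectrum ℝ y) : 1 ≤ κ * m := by
  by_contra hc
  push Not at hc
  have hs : IsSelfAdjoint y := .of_nonneg hy
  obtain ⟨c, c1, c2⟩ := exists_between ((lt_div_iff₀' hκ).2 hc)
  have m0 : 0 ≤ m := spectrum_nonneg_of_nonneg hy hm
  have c0 : 0 ≤ c := by linarith
  let f : ℝ → ℝ := fun t => max (c - t) 0
  have fc : Continuous f := by fun_prop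
  have it : ∀ (n : ℕ) x, ‖u x‖ ≤ κ ^ n * ‖u ((y ^ n) x)‖ := by
    intro n
    induction n with
    | zero => simp
    | succ n ih =>
      intro x
      refine (ih x).trans ?_
      rw [pow_succ, mul_assoc, pow_succ', mul_apply_eq_comp]
      exact mul_le_mul_of_nonneg_left (h _) (by positivity)
  have nb : ∀ n : ℕ, ‖y ^ n * cfc f y‖ ≤ c ^ n * c := fun n => by
    have : y ^ n * cfc f y = cfc (fun t => t ^ n * f t) y := by
      rw [cfc_mul _ _ y, cfc_pow_id y n]
    rw [this]
    refine norm_cfc_le (by positivity) fun t ht => ?_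
    have t0 : 0 ≤ t := spectrum_nonneg_of_nonneg hy ht
    rw [Real.norm_of_nonneg (by positivity)]
    rcases le_total t c with a | a
    · gcongr
      exact max_le (by linarith) c0
    · simp only [f, max_eq_right (sub_nonpos.2 a), mul_zero]
      positivity
  have z : cfc f y = 0 := by
    ext x
    refine hi _ (norm_le_zero_iff.1 ?_)
    have t : Tendsto (fun n : ℕ => (κ * c) ^ n * (‖u‖ * c * ‖x‖)) atTop (𝓝 (0 * (‖u‖ * c * ‖x‖))) :=
      (tendsto_pow_atTop_nhds_zero_of_lt_one (by positivity) ((lt_div_iff₀' hκ).1 c2)).mul_const _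
    rw [zero_mul] at t
    refine ge_of_tendsto' t fun n => (it n _).trans ?_
    have a := (u.le_opNorm _).trans (mul_le_mul_of_nonneg_left
      (((y ^ n * cfc f y).le_opNorm x).trans (mul_le_mul_of_nonneg_right (nb n) (norm_nonneg _)))
      (norm_nonneg u))
    refine (mul_le_mul_of_nonneg_left a (by positivity)).trans_eq (by ring)
  have e0 : Set.EqOn f 0 (spectrum ℝ y) := eqOn_of_cfc_eq_cfc (by rw [z, cfc_zero])
    fc.continuousOn continuousOn_const hs
  have := e0 hm
  simp only [f, Pi.zero_apply] at this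
  have := le_max_left (c - m) 0
  linarith

end Pool.Agent.H61.Ma
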