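import Mathlib
import Pool.Agent.H61.MaA

set_option autoImplicit false

namespace Pool.Agent.H61.Ma

open Filter Topology
open scoped InnerProductSpace

variable {H : Type} [NormedAddCommGroup H] [InnerProductSpace ℂ H] [CompleteSpace H]

lemma iso_le {V : H →L[ℂ] H} (hV : star V * V = 1) : V * star V ≤ 1 := by
  have : 1 - V * star V = star (1 - V * star V) * (1 - V * star V) := by
    simp only [star_sub, star_one, star_mul, star_star, sub_mul, mul_sub, one_mul, mul_one]
    rw [mul_assoc V (star V), ← mul_assoc (star V), hV, one_mul]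
    abel
  rw [← sub_nonneg, this]
  exact star_mul_self_nonneg _

lemma iso_norm {V : H →L[ℂ] H} (hV : star V * V = 1) (x : H) : ‖V x‖ = ‖x‖ := by
  have := re_star_mul V x
  rw [hV, ← star_one (H →L[ℂ] H), ← mul_one (star 1), re_star_mul] at this
  exact (pow_left_inj₀ (norm_nonneg _) (norm_nonneg _) two_ne_zero).1 this.symm

lemma num {m M : ℝ} (m0 : 0 ≤ m) (mM : m ≤ M) (a : M + m * M ^ 2 ≤ 2)
    (b : 1 ≤ (1 + √(M * (2 - m))) / 2 * m) : 1 ≤ m ∧ M ≤ 1 := by
  have M0 : 0 ≤ M := m0.trans mM
  have m2 : 0 ≤ 2 - m := by nlinarith [mul_nonneg m0 (sq_nonneg M)]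
  have h1 : 1 ≤ m := by
    by_contra hc
    push Not at hc
    have s := Real.sq_sqrt (mul_nonneg M0 m2)
    have s0 := Real.sqrt_nonneg (M * (2 - m))
    set r := √(M * (2 - m))
    have c1 : 2 - m ≤ r * m := by linarith
    have c2 : (2 - m) ^ 2 ≤ (r * m) ^ 2 := by gcongr
    have c3 : 2 - m ≤ M * m ^ 2 := by
      rw [mul_pow, s] at c2
      exact le_of_mul_le_mul_left (a := 2 - m) (by nlinarith) (by linarith)
    have c4 : 1 < M * m := by nlinarith [mul_nonneg M0 m0]
    have c5 : 1 < M := by nlinarith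
    nlinarith
  exact ⟨h1, by nlinarith [sq_nonneg M]⟩

lemma core {u V W R : H →L[ℂ] H} (u0 : 0 ≤ u) (hi : ∀ x, u x = 0 → x = 0) (hV : star V * V = 1)
    (hW : star W * W = 1) (R0 : 0 ≤ R) (h1 : u * V * u = W * R)
    (h2 : V * u * u + V * u * u = W * R + R * W) : u * V = V * u := by
  rcases subsingleton_or_nontrivial (H →L[ℂ] H) with hs | hs
  · exact Subsingleton.elim _ _
  have us : IsSelfAdjoint u := .of_nonneg u0
  have su : star u = u := us
  have cV : ∀ X : H →L[ℂ] H, star V * (V * X) = X := fun X => by rw [← mul_assoc, hV, one_mul]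
  have cW : ∀ X : H →L[ℂ] H, star W * (W * X) = X := fun X => by rw [← mul_assoc, hW, one_mul]
  have P0 : 0 ≤ u * u := by simpa [su] using star_mul_self_nonneg u
  obtain ⟨Z, hZ⟩ : ∃ Z, Z = star W * R * W := ⟨_, rfl⟩
  have Z0 : 0 ≤ Z := hZ ▸ star_left_conjugate_nonneg R0 W
  obtain ⟨B, hB⟩ : ∃ B, B = star W * (V * u * u) := ⟨_, rfl⟩
  have b1 : B + B = R + Z := by rw [hB, ← mul_add, h2, mul_add, cW, hZ, mul_assoc]
  have B0 : 0 ≤ B := by
    have : B = (2⁻¹ : ℝ) • (R + Z) := by rw [← b1, ← two_smul ℝ, smul_smul]; simp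
    rw [this]
    exact smul_nonneg (by norm_num) (add_nonneg R0 Z0)
  have b2 : B ≤ u * u := by
    have e : B * B ≤ u * u * (u * u) := by
      have := star_left_conjugate_le_conjugate (iso_le hW) (V * u * u)
      nth_rw 1 [← (IsSelfAdjoint.of_nonneg B0).star_eq]
      simpa [hB, su, mul_assoc, cV] using this
    have := CFC.sqrt_le_sqrt _ _ e
    rwa [CFC.sqrt_mul_self B B0, CFC.sqrt_mul_self _ P0] at this
  have b3 : R + Z ≤ (2 : ℝ) • (u * u) := by
    rw [← b1, two_smul]
    exact add_le_add b2 b2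
  have sA : star (CFC.sqrt R) * CFC.sqrt R = R := by
    rw [(IsSelfAdjoint.of_nonneg (CFC.sqrt_nonneg R)).star_eq, CFC.sqrt_mul_sqrt_self R R0]
  obtain ⟨G, hG⟩ := douglas (A := CFC.sqrt R) us hi 2 fun x => by
    have := sq_le_of_le (X := CFC.sqrt R) (Y := u) (c := 2)
      (by rw [sA, su]; exact (le_add_of_nonneg_right Z0).trans b3) x
    exact abs_le_of_sq_le_sq' (by nlinarith [sq_nonneg ‖u x‖]) (by positivity) |>.2
  obtain ⟨y, hy⟩ : ∃ y, y = star G * G := ⟨_, rfl⟩
  have y0 : 0 ≤ y := hy ▸ star_mul_self_nonneg G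
  have ys : IsSelfAdjoint y := .of_nonneg y0
  have sy : star y = y := ys
  have y1 : u * y * u = R := by rw [← sA, ← hG, hy, star_mul, su]; simp only [mul_assoc]
  have e3 : u * V = W * u * y := by
    rw [← sub_eq_zero]
    refine canR us hi ?_
    rw [sub_mul, h1, ← y1]
    simp only [mul_assoc, sub_self]
  obtain ⟨m, m1, m2⟩ := (spectrum.isCompact (𝕜 := ℝ) y).exists_isLeast
    (ContinuousFunctionalCalculus.spectrum_nonempty y ys)
  obtain ⟨M, M1, M2⟩ := (spectrum.isCompact (𝕜 := ℝ) y).exists_isGreatest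
    (ContinuousFunctionalCalculus.spectrum_nonempty y ys)
  have m0 : 0 ≤ m := spectrum_nonneg_of_nonneg y0 m1
  have M0 : 0 ≤ M := spectrum_nonneg_of_nonneg y0 M1
  have my : algebraMap ℝ _ m ≤ y := (algebraMap_le_iff_le_spectrum ys).2 fun t ht => m2 ht
  have My : y ≤ algebraMap ℝ _ M := (le_algebraMap_iff_spectrum_le ys).2 fun t ht => M2 ht
  have cj : ∀ X : H →L[ℂ] H, m • (star X * X) ≤ star X * y * X := fun X => by
    simpa [Algebra.algebraMap_eq_smul_one] using star_left_conjugate_le_conjugate my X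
  have z1 : star (u * W) * y * (u * W) = Z := by
    rw [hZ, ← y1, star_mul, su]; simp only [mul_assoc]
  have z2 : m • (u * (y * y) * u) ≤ Z := by
    have a := star_left_conjugate_le_conjugate (iso_le hV) (u * W)
    have e : star V * (u * W) = y * u := by
      apply star_injective
      rw [star_mul, star_mul, star_mul, su, sy, star_star, mul_assoc, e3, mul_assoc, cW]
    have e' : star (u * W) * V = u * y := by
      apply star_injective
      rw [star_mul, star_star, e, star_mul, su, sy]
    rw [mul_one, ← mul_assoc _ V, e', mul_assoc _ (star V), e] at a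
    refine le_trans ?_ ((cj _).trans_eq z1)
    refine smul_le_smul_of_nonneg_left ?_ m0
    simpa only [mul_assoc] using a
  have i1 : M + m * M ^ 2 ≤ 2 := by
    have e : cfc (fun t : ℝ => 2 - (t + m * t ^ 2)) y = (2 : ℝ) • 1 - (y + m • (y * y)) := by
      rw [cfc_sub _ _ y, cfc_add y _ _, cfc_const_mul _ _ y, cfc_pow_id y 2, cfc_id' ℝ y,
        cfc_const _ y, Algebra.algebraMap_eq_smul_one, sq]
    have p : 0 ≤ cfc (fun t : ℝ => 2 - (t + m * t ^ 2)) y := by
      refine canO us hi (cfc_predicate _ y) ?_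
      rw [e]
      simp only [mul_sub, sub_mul, mul_add, add_mul, mul_smul_comm, smul_mul_assoc, mul_one, y1,
        sub_nonneg]
      exact (add_le_add le_rfl z2).trans b3
    have := (cfc_nonneg_iff _ y).1 p M M1
    linarith
  have m3 : 0 ≤ 2 - m := by nlinarith [mul_nonneg m0 (sq_nonneg M), m2 M1]
  have yy : y * y ≤ M • y := by
    have : cfc (fun t : ℝ => t ^ 2) y ≤ cfc (fun t : ℝ => M * t) y :=
      cfc_mono fun t ht => by nlinarith [spectrum_nonneg_of_nonneg y0 ht, M2 ht]
    rwa [cfc_pow_id y 2, cfc_const_mul _ _ y, cfc_id' ℝ y, sq] at this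
  have x1 : star (y * u * W) * (y * u * W) ≤ (M * (2 - m)) • (star u * u) := by
    have a := star_left_conjugate_le_conjugate yy (u * W)
    rw [mul_smul_comm, smul_mul_assoc, z1] at a
    have b : Z ≤ (2 - m) • (star u * u) := by
      have := cj u
      rw [su, y1] at this
      rw [su, sub_smul, le_sub_iff_add_le']
      exact (add_le_add this le_rfl).trans b3
    rw [mul_smul]
    refine le_trans ?_ (a.trans (smul_le_smul_of_nonneg_left b M0))
    simp only [star_mul, sy, mul_assoc, le_refl]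
  have i2 : 1 ≤ (1 + √(M * (2 - m))) / 2 * m := by
    refine lower hi y0 (by positivity) (fun x => ?_) m1
    have d : u * (V * u + y * u * W) = V * u * u + V * u * u := by
      rw [h2, ← h1, ← y1]; simp only [mul_add, mul_assoc]
    have n1 : ‖(V * u + y * u * W) x‖ ≤ (1 + √(M * (2 - m))) * ‖u x‖ := by
      refine (norm_add_le _ _).trans ?_
      rw [add_mul, one_mul]
      refine add_le_add (iso_norm hV _).le (abs_le_of_sq_le_sq' ?_ (by positivity)).2
      rw [mul_pow, Real.sq_sqrt (mul_nonneg M0 m3)]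
      exact sq_le_of_le x1 x
    have n2 : (star (V * u + y * u * W) * (W * u * y)).reApplyInnerSelf x = 2 * ‖u x‖ ^ 2 := by
      rw [← e3, ← mul_assoc, ← su, ← star_mul, su, d, ← re_star_mul]
      simp only [star_add, star_mul, su, add_mul, mul_assoc, hV, mul_one,
        ContinuousLinearMap.reApplyInnerSelf_apply, add_apply, inner_add_left, map_add, two_mul]
    have n3 : 2 * ‖u x‖ ^ 2 ≤ ‖u (y x)‖ * ‖(V * u + y * u * W) x‖ := by
      rw [← n2, ContinuousLinearMap.reApplyInnerSelf_apply, mul_apply_eq_comp,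
        ContinuousLinearMap.star_eq_adjoint, ContinuousLinearMap.adjoint_inner_left,
        ← iso_norm hW (u (y x))]
      exact re_inner_le_norm _ _
    rcases (norm_nonneg (u x)).eq_or_lt with a | a
    · rw [← a]; positivity
    · refine le_of_mul_le_mul_left (a := ‖u x‖) ?_ a
      nlinarith [mul_le_mul_of_nonneg_left n1 (norm_nonneg (u (y x)))]
  obtain ⟨f1, f2⟩ := num m0 (m2 M1) i1 i2
  have f3 : m = 1 := le_antisymm ((m2 M1).trans f2) f1
  have f4 : M = 1 := le_antisymm f2 (f1.trans (m2 M1))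
  rw [f3, map_one] at my
  rw [f4, map_one] at My
  have f5 : y = 1 := le_antisymm My my
  rw [f3, f5] at z2
  rw [f5] at y1 e3
  simp only [mul_one, one_smul] at z2 y1 e3
  have f6 : B = u * u := by
    refine le_antisymm b2 ?_
    have : u * u + u * u ≤ B + B := by rw [b1]; exact add_le_add y1.le z2
    by_contra hc
    have a : B + B ≤ B + u * u := add_le_add le_rfl b2
    exact hc (le_of_add_le_add_right (this.trans a))
  have f7 : star W * V = 1 := by
    rw [← sub_eq_zero]
    refine canR us hi (canR us hi ?_)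
    rw [sub_mul, sub_mul, one_mul, ← f6, hB]
    simp only [mul_assoc, sub_self]
  have f8 : W = V := by
    have f : star V * W = 1 := by simpa using congrArg star f7
    rw [← sub_eq_zero, ← CStarRing.star_mul_self_eq_zero_iff]
    simp [sub_mul, mul_sub, hV, hW, f, f7]
  rw [e3, f8]

end Pool.Agent.H61.Ma
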