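import Mathlib

set_option autoImplicit false

namespace Pool.Agent.H61.MaDefs

variable {H : Type} [NormedAddCommGroup H] [InnerProductSpace ℂ H] [CompleteSpace H]

/-- `T = V |T|` is the canonical polar decomposition: `V` is a partly isometric operator with the same
kernel as `T`. Here `CFC.abs T = CFC.sqrt (star T * T)`. -/
def IsPolar (T V : H →L[ℂ] H) : Prop :=
  V * star V * V = V ∧ (∀ x, V x = 0 ↔ T x = 0) ∧ T = V * CFC.abs T

/-- Aluthge transform `|T|^(1/2) V |T|^(1/2)` of `T = V |T|`. -/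
noncomputable def aluthge (T V : H →L[ℂ] H) : H →L[ℂ] H :=
  CFC.sqrt (CFC.abs T) * V * CFC.sqrt (CFC.abs T)

/-- Mean transform `(S + |S| W) / 2` of `S = W |S|`. -/
noncomputable def mean (S W : H →L[ℂ] H) : H →L[ℂ] H :=
  (2⁻¹ : ℂ) • (S + CFC.abs S * W)

end Pool.Agent.H61.MaDefs
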