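import Mathlib
import Pool.Agent.H61.MaB
import Pool.Agent.H61.MaDefs

set_option autoImplicit false

namespace Pool.Agent.H61.Ma

open Filter Topology Pool.Agent.H61.MaDefs
open scoped InnerProductSpace

variable {H : Type} [NormedAddCommGroup H] [InnerProductSpace ℂ H] [CompleteSpace H]

lemma ker_iff {X Y : H →L[ℂ] H} (h : star X * X = star Y * Y) (x : H) : X x = 0 ↔ Y x = 0 := by
  have a := re_star_mul X x
  rw [h, re_star_mul] at a
  rw [← norm_eq_zero, ← norm_eq_zero (a := Y x), ← sq_eq_zero_iff, ← a, sq_eq_zero_iff]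

lemma ker_sq (X : H →L[ℂ] H) (x : H) : (star X * X) x = 0 ↔ X x = 0 := by
  refine ⟨fun h => ?_, fun h => by simp [h]⟩
  have a := re_star_mul X x
  rw [ContinuousLinearMap.reApplyInnerSelf_apply, h] at a
  simpa using a.symm

lemma ker_abs (T : H →L[ℂ] H) (x : H) : CFC.abs T x = 0 ↔ T x = 0 :=
  ker_iff (by rw [(IsSelfAdjoint.of_nonneg (CFC.abs_nonneg T)).star_eq, CFC.abs_mul_abs]) x

lemma ker_sqrt {P : H →L[ℂ] H} (h : 0 ≤ P) (x : H) : CFC.sqrt P x = 0 ↔ P x = 0 := by
  rw [← ker_sq, (IsSelfAdjoint.of_nonneg (CFC.sqrt_nonneg P)).star_eq, CFC.sqrt_mul_sqrt_self P h]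

omit [CompleteSpace H] in
lemma inj_add {u F : H →L[ℂ] H} (hF : F * F = F) (h1 : F * u = 0) (h2 : ∀ x, u x = 0 → F x = x)
    (x : H) (h : (u + F) x = 0) : x = 0 := by
  have a : F x = 0 := by
    have : (F * (u + F)) x = 0 := by rw [mul_apply_eq_comp, h, map_zero]
    rwa [mul_add, h1, hF, zero_add] at this
  rw [add_apply, a, add_zero] at h
  rw [← h2 x h, a]

lemma star_zero_of {u F : H →L[ℂ] H} (hu : 0 ≤ u) (hF : star F = F) (h : u * F = 0) : F * u = 0 := by
  simpa [(IsSelfAdjoint.of_nonneg hu).star_eq, hF] using congrArg star h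

lemma polar_proj {T V : H →L[ℂ] H} (h : IsPolar T V) :
    ∃ F : H →L[ℂ] H, F * F = F ∧ star F = F ∧ star V * V = 1 - F ∧ (∀ x, T x = 0 ↔ F x = x) ∧
      ∀ X : H →L[ℂ] H, (∀ x, T x = 0 → X x = 0) → X * F = 0 := by
  have e : star V * V * (star V * V) = star V * V := by
    rw [mul_assoc, ← mul_assoc V, h.1]
  have k : ∀ x, T x = 0 ↔ (1 - star V * V) x = x := fun x => by
    rw [← h.2.1, ← ker_sq, sub_apply, one_apply_eq_self, sub_eq_self]
  have i : (1 - star V * V) * (1 - star V * V) = 1 - star V * V := by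
    simp [sub_mul, mul_sub, e]
  refine ⟨1 - star V * V, i, by simp, by simp, k, fun X hX => ?_⟩
  ext x
  exact hX _ ((k _).2 (congrArg (fun Y : H →L[ℂ] H => Y x) i))

lemma polar_exists (T : H →L[ℂ] H) : ∃ V, IsPolar T V := by
  let F := (LinearMap.ker (T : H →ₗ[ℂ] H)).starProjection
  have f1 : F * F = F := (isStarProjection_starProjection (U := _)).isIdempotentElem
  have f2 : star F = F := (isStarProjection_starProjection (U := _)).isSelfAdjoint
  have f3 : ∀ x, T x = 0 ↔ F x = x := fun x => by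
    rw [Submodule.starProjection_eq_self_iff]; rfl
  have f4 : ∀ x, T (F x) = 0 := fun x => (f3 _).2 (by rw [← mul_apply_eq_comp, f1])
  have P0 := CFC.abs_nonneg T
  have sP : star (CFC.abs T) = CFC.abs T := IsSelfAdjoint.of_nonneg P0
  have p1 : CFC.abs T * F = 0 := by ext x; exact (ker_abs T _).2 (f4 x)
  have p2 := star_zero_of P0 f2 p1
  have hs : IsSelfAdjoint (CFC.abs T + F) := IsSelfAdjoint.add sP f2
  have hi := inj_add f1 p2 fun x hx => (f3 x).1 ((ker_abs T x).1 hx)
  have q : star (CFC.abs T + F) * (CFC.abs T + F) = star T * T + F := by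
    rw [hs.star_eq]; simp [add_mul, mul_add, p1, p2, f1, CFC.abs_mul_abs]
  obtain ⟨V, hV⟩ := douglas (A := T) hs hi 1 fun x => by
    have := sq_le_of_le (X := T) (Y := CFC.abs T + F) (c := 1) (by
      rw [q, one_smul]
      exact le_add_of_nonneg_right (by simpa [f1, f2] using star_mul_self_nonneg F)) x
    exact abs_le_of_sq_le_sq' (by simpa using this) (by positivity) |>.2
  have v1 : V * F = 0 := by
    have : V * (CFC.abs T + F) * F = 0 := by rw [hV]; ext x; exact f4 x
    rwa [mul_assoc, add_mul, p1, f1, zero_add] at this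
  have v2 : star V * V = 1 - F := by
    rw [← sub_eq_zero]
    refine canL hi (canR hs hi ?_)
    have : star (V * (CFC.abs T + F)) * (V * (CFC.abs T + F)) = star T * T := by rw [hV]
    rw [star_mul, hs.star_eq, mul_assoc, ← mul_assoc (star V), ← mul_assoc] at this
    rw [mul_sub, sub_mul, this]
    simp [add_mul, mul_add, mul_sub, p1, f1, CFC.abs_mul_abs]
  refine ⟨V, by rw [mul_assoc, v2, mul_sub, v1, mul_one, sub_zero], fun x => ?_, ?_⟩
  · rw [← ker_sq, v2, f3, sub_apply, one_apply_eq_self, sub_eq_zero, eq_comm]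
  · rw [mul_add, v1, add_zero] at hV
    exact hV.symm

end Pool.Agent.H61.Ma
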