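import Mathlib

set_option autoImplicit false

namespace Pool.Agent.H61.MbA

open PowerSeries Finset
open scoped ComplexOrder

noncomputable def th (p : ℂ⟦X⟧) : ℂ⟦X⟧ := X * derivative ℂ p

lemma coeff_th (p : ℂ⟦X⟧) (n : ℕ) : coeff n (th p) = n * coeff n p := by
  unfold th
  cases n with
  | zero => simp
  | succ n => rw [coeff_succ_X_mul, coeff_derivative]; push_cast; ring

lemma th_mul (p q : ℂ⟦X⟧) : th (p * q) = p * th q + q * th p := by
  unfold th
  rw [Derivation.leibniz, smul_eq_mul, smul_eq_mul]; ring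

lemma th_one : th 1 = 0 := by unfold th; simp

lemma th_X : th X = X := by unfold th; simp

lemma th_pow {S H : ℂ⟦X⟧} (h : th S = S * H) (s : ℕ) : th (S ^ s) = (s : ℂ⟦X⟧) * (S ^ s * H) := by
  induction s with
  | zero => simp [th_one]
  | succ s ih => rw [pow_succ, th_mul, ih, h]; push_cast; ring

def NN (p : ℂ⟦X⟧) : Prop := ∀ n, 0 ≤ coeff n p
def PP (p : ℂ⟦X⟧) : Prop := ∀ n, 0 < coeff n p
/-- nonnegative with constant term one -/
def N1 (p : ℂ⟦X⟧) : Prop := NN p ∧ coeff 0 p = 1

lemma NN.mul {p q : ℂ⟦X⟧} (hp : NN p) (hq : NN q) : NN (p * q) := fun n => by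
  rw [coeff_mul]; exact sum_nonneg fun x _ => mul_nonneg (hp _) (hq _)

lemma N1.mul {p q : ℂ⟦X⟧} (hp : N1 p) (hq : N1 q) : N1 (p * q) :=
  ⟨hp.1.mul hq.1, by rw [coeff_mul]; simp only [Finset.Nat.antidiagonal_zero, sum_singleton,
    hp.2, hq.2, mul_one]⟩

lemma N1.one : N1 1 := ⟨fun n => by rw [coeff_one]; split_ifs <;> simp, by simp⟩

lemma N1.pow {p : ℂ⟦X⟧} (hp : N1 p) (k : ℕ) : N1 (p ^ k) := by
  induction k with
  | zero => simpa using N1.one
  | succ k ih => rw [pow_succ]; exact ih.mul hp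

lemma N1.mulP {p q : ℂ⟦X⟧} (hp : N1 p) (hq : PP q) : PP (p * q) := fun n => by
  rw [coeff_mul]
  refine sum_pos' (fun x _ => mul_nonneg (hp.1 _) (hq _).le) ⟨(0, n), by simp, ?_⟩
  rw [hp.2, one_mul]; exact hq n

lemma inv_pos {N V : ℂ⟦X⟧} (hN : NN N) (h0 : coeff 0 N = 0) (h1 : 0 < coeff 1 N)
    (hV : V * (1 - N) = 1) : PP V ∧ coeff 0 V = 1 := by
  have hV' : V = 1 + N * V := by linear_combination hV
  have c0 : coeff 0 V = 1 := by
    rw [hV', map_add, coeff_mul]; simp only [Finset.Nat.antidiagonal_zero, sum_singleton, h0]; simp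
  refine ⟨fun n => ?_, c0⟩
  induction n using Nat.strong_induction_on with
  | _ n ih =>
    cases n with
    | zero => rw [c0]; exact zero_lt_one
    | succ n =>
      rw [hV', map_add, coeff_one, if_neg (by omega), zero_add, coeff_mul]
      refine sum_pos' (fun x hx => ?_) ⟨(1, n), by simp [add_comm], mul_pos h1 (ih n (by omega))⟩
      have hx' := Finset.HasAntidiagonal.mem_antidiagonal.1 hx
      rcases Nat.eq_zero_or_pos x.1 with h | h
      · rw [h, h0, zero_mul]
      · exact mul_nonneg (hN _) (ih _ (by omega)).le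

lemma ode_nn {M U : ℂ⟦X⟧} (hM : NN M) (h0 : coeff 0 M = 0) (hU0 : coeff 0 U = 1)
    (hU : th U = M * U) : N1 U := by
  refine ⟨fun n => ?_, hU0⟩
  induction n using Nat.strong_induction_on with
  | _ n ih =>
    cases n with
    | zero => rw [hU0]; exact zero_le_one
    | succ n =>
      have h1 := congrArg (coeff (n + 1)) hU
      rw [coeff_th, coeff_mul] at h1
      have h2 : 0 ≤ ∑ p ∈ antidiagonal (n + 1), coeff p.1 M * coeff p.2 U := by
        refine sum_nonneg fun x hx => ?_
        have hx' := Finset.HasAntidiagonal.mem_antidiagonal.1 hx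
        rcases Nat.eq_zero_or_pos x.1 with h | h
        · rw [h, h0, zero_mul]
        · exact mul_nonneg (hM _) (ih _ (by omega))
      rw [← h1] at h2
      have h3 : (0 : ℂ) < ((n + 1 : ℕ) : ℂ) := by exact_mod_cast Nat.succ_pos n
      have h4 : (0 : ℂ) ≤ (((n + 1 : ℕ) : ℝ)⁻¹ : ℝ) := by
        rw [Complex.zero_le_real]; positivity
      have h5 := mul_nonneg h4 h2
      have h6 := h3.ne'
      rwa [← mul_assoc, Complex.ofReal_inv, Complex.ofReal_natCast, inv_mul_cancel₀ h6,
        one_mul] at h5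

theorem formal {A N M Dl V E K φ : ℂ⟦X⟧} (hA : N1 A) (hN : NN N) (hN0 : coeff 0 N = 0)
    (hN1 : 0 < coeff 1 N) (hM : NN M) (hM0 : coeff 0 M = 0) (hV : V * (1 - N) = 1)
    (hD : th Dl = (1 - M) * Dl) (hD0 : coeff 0 Dl = 0) (hD1 : coeff 1 Dl = 1)
    (hR : 2 * th (1 - N) = (1 - M) * (1 - N) - A ^ 2) (hE : E * K = A ^ 2 * V) (hK : PP K)
    {l m : ℕ} (hm : m ≤ l) (g : ℕ → ℂ)
    (hφ : φ = ∑ r ∈ range (l - m + 1), C (g r) * (E * Dl ^ (l - r) * (1 - N) ^ (2 * r)))
    (hc : ∀ n ≤ l, coeff n φ = if n = m then 1 else 0) : ∀ i ≤ l - m, 0 < g i := by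
  obtain ⟨hVP, hV0⟩ := inv_pos hN hN0 hN1 hV
  have hVN : N1 V := ⟨fun n => (hVP n).le, hV0⟩
  set B := 1 - N with hB
  obtain ⟨D0, hD0'⟩ : X ∣ Dl := X_dvd_iff.2 (by simpa using hD0)
  have hc0 : constantCoeff D0 = 1 := by
    rw [hD0', coeff_succ_X_mul] at hD1; simpa using hD1
  set U := D0⁻¹ with hUd
  have hU : U * D0 = 1 := PowerSeries.inv_mul_cancel D0 (by rw [hc0]; exact one_ne_zero)
  have hU0 : coeff 0 U = 1 := by
    have := congrArg constantCoeff hU
    rw [map_mul, hc0, mul_one, map_one] at this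
    simpa using this
  have thD0 : th D0 = -M * D0 := by
    rw [hD0', th_mul, th_X] at hD
    have : X * th D0 = X * (-M * D0) := by linear_combination hD
    exact mul_left_cancel₀ X_ne_zero this
  have thU : th U = M * U := by
    have h1 := congrArg th hU
    rw [th_mul, th_one, thD0] at h1
    linear_combination U * h1 + (M * U - th U) * hU
  have hUN := ode_nn hM hM0 hU0 thU
  set H := A ^ 2 * V with hH
  have thS : th (U * B ^ 2) = (U * B ^ 2) * (1 - H) := by
    rw [th_mul, thU, pow_two, th_mul]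
    linear_combination U * B * hR + U * B * A ^ 2 * hV
  have res : ∀ s : ℕ, 0 < s → coeff s ((U * B ^ 2) ^ s * H) = 0 := by
    intro s hs
    have h1 := congrArg (coeff s) (th_pow thS s)
    rw [coeff_th, ← map_natCast (C : ℂ →+* ℂ⟦X⟧), coeff_C_mul, mul_sub, mul_one, map_sub] at h1
    have h2 : (s : ℂ) ≠ 0 := by exact_mod_cast hs.ne'
    have h3 : (s : ℂ) * coeff s ((U * B ^ 2) ^ s * H) = 0 := by linear_combination h1
    exact (mul_eq_zero.1 h3).resolve_left h2
  intro i hi
  set W := U ^ (l - i) * V ^ (2 * i) * K with hW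
  have hWP : PP W := ((hUN.pow _).mul (hVN.pow _)).mulP hK
  have lhs : coeff (l - i) (φ * W) = coeff (l - i - m) W := by
    rw [coeff_mul, sum_eq_single (m, l - i - m)]
    · rw [hc m hm, if_pos rfl, one_mul]
    · intro x hx hne
      have hx' := Finset.HasAntidiagonal.mem_antidiagonal.1 hx
      rw [hc x.1 (by omega), if_neg, zero_mul]
      intro h; apply hne; ext
      · exact h
      · simp only; omega
    · intro h; exact absurd (Finset.HasAntidiagonal.mem_antidiagonal.2 (by simp only; omega)) h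
  have rhs : coeff (l - i) (φ * W) = g i := by
    rw [hφ, sum_mul, map_sum, sum_eq_single i]
    · have e : C (g i) * (E * Dl ^ (l - i) * B ^ (2 * i)) * W
          = C (g i) * (X ^ (l - i) * ((U * D0) ^ (l - i) * (V * B) ^ (2 * i) * (E * K))) := by
        rw [hD0', hW]; ring
      rw [e, hU, hV, hE, coeff_C_mul, one_pow, one_pow, one_mul, one_mul, coeff_X_pow_mul',
        if_pos le_rfl, Nat.sub_self, ((hA.pow 2).mul hVN).2, mul_one]
    · intro r hr hne
      have hr' := mem_range.1 hr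
      rcases lt_or_gt_of_ne hne with h | h
      · have e : C (g r) * (E * Dl ^ (l - r) * B ^ (2 * r)) * W
            = C (g r) * (X ^ (l - r) * (D0 ^ (l - r) * E * B ^ (2 * r) * W)) := by
          rw [hD0']; ring
        rw [e, coeff_C_mul, coeff_X_pow_mul', if_neg (by omega), mul_zero]
      · obtain ⟨s, rfl⟩ := Nat.exists_eq_add_of_lt h
        obtain ⟨t, ht⟩ : ∃ t, l = i + s + 1 + t := ⟨l - (i + s + 1), by omega⟩
        have e1 : l - (i + s + 1) = t := by omega
        have e2 : l - i = t + (s + 1) := by omega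
        have e : C (g (i + s + 1)) * (E * Dl ^ (l - (i + s + 1)) * B ^ (2 * (i + s + 1))) * W
            = C (g (i + s + 1)) * (X ^ t * ((U * D0) ^ t * (V * B) ^ (2 * i) *
              ((U * B ^ 2) ^ (s + 1) * (E * K)))) := by
          rw [hD0', hW, e1, e2]; ring
        rw [e, hU, hV, hE, coeff_C_mul, one_pow, one_pow, one_mul, one_mul, e2, coeff_X_pow_mul',
          if_pos (by omega), show t + (s + 1) - t = s + 1 by omega, res _ (by omega), mul_zero]
    · intro h; exact absurd (mem_range.2 (by omega)) h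
  rw [← rhs, lhs]
  exact hWP _

end Pool.Agent.H61.MbA
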