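import Pool.Agent.H61.MbA

set_option autoImplicit false

namespace Pool.Agent.H61.MbB

open UpperHalfPlane ModularForm EisensteinSeries Filter Topology Function Complex Derivative
  Pool.Agent.H61.MbA
open scoped MatrixGroups ComplexOrder Real ArithmeticFunction.sigma

def Good (u : ℍ → ℂ) (p : PowerSeries ℂ) : Prop :=
  AnalyticAt ℂ (cuspFunction 1 u) 0 ∧ qExpansion 1 u = p

lemma Good.mul {u v : ℍ → ℂ} {p q : PowerSeries ℂ} (hu : Good u p) (hv : Good v q) :
    Good (u * v) (p * q) :=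
  ⟨by rw [cuspFunction_mul hu.1.continuousAt hv.1.continuousAt]; exact hu.1.mul hv.1,
    by rw [qExpansion_mul hu.1 hv.1, hu.2, hv.2]⟩

lemma Good.add {u v : ℍ → ℂ} {p q : PowerSeries ℂ} (hu : Good u p) (hv : Good v q) :
    Good (u + v) (p + q) :=
  ⟨by rw [cuspFunction_add hu.1.continuousAt hv.1.continuousAt]; exact hu.1.add hv.1,
    by rw [qExpansion_add hu.1 hv.1, hu.2, hv.2]⟩

lemma Good.smul {u : ℍ → ℂ} {p : PowerSeries ℂ} (hu : Good u p) (c : ℂ) :
    Good (c • u) (PowerSeries.C c * p) :=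
  ⟨by rw [cuspFunction_smul hu.1.continuousAt]; exact hu.1.const_smul,
    by rw [qExpansion_smul hu.1, hu.2, PowerSeries.smul_eq_C_mul]⟩

lemma good_mf {k : ℤ} (f : ModularForm 𝒮ℒ k) : Good f (qExpansion 1 f) :=
  ⟨ModularFormClass.analyticAt_cuspFunction_zero f one_pos one_mem_strictPeriods_SL, rfl⟩

lemma good_one : Good 1 1 :=
  ⟨(good_mf (1 : ModularForm 𝒮ℒ 0)).1, qExpansion_one 1⟩

lemma good_zero : Good 0 0 :=
  ⟨(good_mf (0 : ModularForm 𝒮ℒ 0)).1, qExpansion_zero 1⟩

lemma Good.pow {u : ℍ → ℂ} {p : PowerSeries ℂ} (hu : Good u p) (k : ℕ) : Good (u ^ k) (p ^ k) := by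
  induction k with
  | zero => simpa using good_one
  | succ k ih => rw [pow_succ, pow_succ]; exact ih.mul hu

lemma Good.sum {u : ℕ → ℍ → ℂ} {p : ℕ → PowerSeries ℂ} (h : ∀ i, Good (u i) (p i)) (n : ℕ) :
    Good (∑ i ∈ Finset.range n, u i) (∑ i ∈ Finset.range n, p i) := by
  induction n with
  | zero => simpa using good_zero
  | succ n ih => rw [Finset.sum_range_succ, Finset.sum_range_succ]; exact ih.add (h n)

lemma cusp_eq {u : ℍ → ℂ} {g : ℂ → ℂ} (hg : ContinuousAt g 0)
    (h : ∀ τ : ℍ, u τ = g (Periodic.qParam 1 τ)) : cuspFunction 1 u =ᶠ[𝓝 0] g := by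
  have hne : ∀ q ∈ Metric.ball (0 : ℂ) 1, q ≠ 0 → cuspFunction 1 u q = g q := by
    intro q hq hq0
    have him := Periodic.im_invQParam_pos_of_norm_lt_one one_pos
      (by simpa [dist_zero_right] using hq) hq0
    simp [cuspFunction, Periodic.cuspFunction_eq_of_nonzero 1 _ hq0,
      ofComplex_apply_of_im_pos him, h ⟨_, him⟩, Periodic.qParam_right_inv one_ne_zero hq0]
  have h0 : cuspFunction 1 u 0 = g 0 := by
    have h1 : Tendsto (cuspFunction 1 u) (𝓝[≠] 0) (𝓝 (g 0)) := by
      refine (hg.tendsto.mono_left nhdsWithin_le_nhds).congr' ?_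
      filter_upwards [self_mem_nhdsWithin,
        nhdsWithin_le_nhds (Metric.ball_mem_nhds (0 : ℂ) one_pos)] with q hq0 hq
      exact (hne q hq hq0).symm
    exact (Periodic.cuspFunction_zero_eq_limUnder_nhds_ne 1 _).trans h1.limUnder_eq
  filter_upwards [Metric.ball_mem_nhds (0 : ℂ) one_pos] with q hq
  by_cases hq0 : q = 0
  · rw [hq0, h0]
  · exact hne q hq hq0

lemma hasDerivAt_q (z : ℂ) :
    HasDerivAt (Periodic.qParam 1) (2 * π * Complex.I * Periodic.qParam 1 z) z := by
  have h := (((hasDerivAt_id z).const_mul (2 * π * Complex.I)).div_const ((1 : ℝ) : ℂ)).cexp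
  refine h.congr_deriv ?_
  simp [Periodic.qParam]; ring

lemma D_eq {k : ℤ} (f : ModularForm 𝒮ℒ k) (τ : ℍ) : normalizedDerivOfComplex f τ
    = Periodic.qParam 1 τ * deriv (cuspFunction 1 f) (Periodic.qParam 1 τ) := by
  have h1 : (f ∘ ofComplex) =ᶠ[𝓝 (τ : ℂ)] cuspFunction 1 f ∘ Periodic.qParam 1 := by
    filter_upwards [isOpen_upperHalfPlaneSet.mem_nhds τ.2] with z hz
    have := SlashInvariantFormClass.eq_cuspFunction f ⟨z, hz⟩ one_mem_strictPeriods_SL one_ne_zero
    simp only [comp_apply, ofComplex_apply_of_im_pos hz]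
    exact this.symm
  have h2 := (ModularFormClass.differentiableAt_cuspFunction f one_pos one_mem_strictPeriods_SL
    (Periodic.norm_qParam_lt_one one_pos τ.im_pos)).hasDerivAt.comp (τ : ℂ) (hasDerivAt_q τ)
  unfold normalizedDerivOfComplex
  rw [h1.deriv_eq, h2.deriv]
  have := two_pi_I_ne_zero
  field_simp

lemma good_D {k : ℤ} (f : ModularForm 𝒮ℒ k) :
    Good (normalizedDerivOfComplex f) (th (qExpansion 1 f)) ∧
      IsBoundedAtImInfty (normalizedDerivOfComplex f) := by
  have ha := (good_mf f).1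
  have hg : AnalyticAt ℂ (fun q => q * deriv (cuspFunction 1 f) q) 0 :=
    analyticAt_id.mul ha.deriv
  have he := cusp_eq hg.continuousAt (D_eq f)
  refine ⟨⟨hg.congr he.symm, ?_⟩, ?_⟩
  · ext n
    rw [coeff_th, qExpansion_coeff, qExpansion_coeff, he.iteratedDeriv_eq,
      iteratedDeriv_fun_mul (f := fun q : ℂ => q) contDiffAt_id ha.deriv.contDiffAt]
    cases n with
    | zero => simp
    | succ n =>
      rw [Finset.sum_eq_single 1, iteratedDeriv_succ' (f := cuspFunction 1 f)]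
      · simp [iteratedDeriv_fun_id_zero]; ring
      · intro b _ hb; simp [iteratedDeriv_fun_id_zero, hb]
      · intro h; simp at h
  · have : (normalizedDerivOfComplex f) = fun τ : ℍ => (fun q => q * deriv (cuspFunction 1 f) q)
        (Periodic.qParam 1 τ) := funext (D_eq f)
    rw [this]
    exact (hg.continuousAt.tendsto.comp (qParam_tendsto_atImInfty one_pos)).isBigO_one ℝ

noncomputable def MM : PowerSeries ℂ := PowerSeries.mk fun m => 24 * (σ 1 m : ℂ)

lemma good_E2 : Good E2 (1 - MM) := by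
  have hper : Periodic (E2 ∘ ofComplex) ((1 : ℝ) : ℂ) := by
    intro w
    by_cases hw : 0 < w.im
    · have h1 : 0 < (w + ((1 : ℝ) : ℂ)).im := by simpa using hw
      simp only [comp_apply, ofComplex_apply_of_im_pos h1, ofComplex_apply_of_im_pos hw,
        E2_eq_tsum_cexp]
      have : cexp (2 * π * Complex.I * (w + ((1 : ℝ) : ℂ))) = cexp (2 * π * Complex.I * w) := by
        rw [mul_add, Complex.exp_add]; simp
      simp only [this]
    · push Not at hw
      have h1 : (w + ((1 : ℝ) : ℂ)).im ≤ 0 := by simpa using hw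
      simp only [comp_apply, ofComplex_apply_of_im_nonpos h1, ofComplex_apply_of_im_nonpos hw]
  have ha := analyticAt_cuspFunction_zero one_pos hper E2_mdifferentiable isBoundedAtImInfty_E2
  refine ⟨ha, ?_⟩
  have h1 := (hasFPowerSeriesOnBall_cuspFunction one_pos ha
    (c := fun m : ℕ => if m = 0 then 1 else -24 * (σ 1 m : ℂ)) (fun τ => by
      simpa only [Function.Periodic.qParam, ofReal_one, div_one] using
        hasSum_qExpansion_E2 (z := τ))).hasFPowerSeriesAt
  have h2 := h1.eq_formalMultilinearSeries ha.hasFPowerSeriesAt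
  ext n
  have h3 := congrArg (FormalMultilinearSeries.coeff · n) h2
  simp only [FormalMultilinearSeries.coeff_ofScalars] at h3
  rw [qExpansion_coeff, mul_comm, ← div_eq_mul_inv, ← h3, map_sub, PowerSeries.coeff_one]
  unfold MM
  rw [PowerSeries.coeff_mk]
  split_ifs with h
  · simp [h]
  · ring

noncomputable def Dm : ModularForm 𝒮ℒ 12 := CuspForm.discriminant

lemma Dm_apply (τ : ℍ) : Dm τ = discriminant τ := rfl

lemma D_Dm : normalizedDerivOfComplex Dm = E2 * Dm := by
  funext τ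
  have h1 : (Dm ∘ ofComplex) =ᶠ[𝓝 (τ : ℂ)] fun z => ModularForm.eta z ^ 24 := by
    filter_upwards [isOpen_upperHalfPlaneSet.mem_nhds τ.2] with z hz
    simp only [comp_apply, ofComplex_apply_of_im_pos hz]
    rfl
  have h2 := (differentiableAt_eta_of_mem_upperHalfPlaneSet τ.2).hasDerivAt.pow 24
  have h3 := logDeriv_eta_eq_E2 τ
  have h4 := eta_ne_zero τ.2
  rw [logDeriv_apply, div_eq_iff h4] at h3
  unfold normalizedDerivOfComplex
  rw [h1.deriv_eq]
  erw [h2.deriv]
  rw [h3]
  have h5 : (E2 * Dm) τ = E2 τ * ModularForm.eta τ ^ 24 := rfl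
  rw [h5]
  have := Complex.I_ne_zero
  have : (π : ℂ) ≠ 0 := by exact_mod_cast Real.pi_ne_zero
  field_simp
  push_cast
  ring

lemma th_Dm : th (qExpansion 1 Dm) = (1 - MM) * qExpansion 1 Dm := by
  rw [← (good_D Dm).1.2, D_Dm, (good_E2.mul (good_mf Dm)).2]

lemma serre_eq : serreDerivative 6 E₆
    = normalizedDerivOfComplex E₆ + (-(1 / 2) : ℂ) • (E2 * E₆) := by
  funext τ
  simp only [serreDerivative_apply, Pi.add_apply, Pi.smul_apply, Pi.mul_apply, smul_eq_mul]
  ring

lemma serre_inv (γ : SL(2, ℤ)) : serreDerivative 6 E₆ ∣[(8 : ℤ)] γ = serreDerivative 6 E₆ := by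
  have := serreDerivative_slash_invariant (k := 6) (F := E₆) E₆.holo' (γ := γ)
    (E₆.slash_action_eq' _ ⟨γ, rfl⟩)
  simpa using this

noncomputable def S6 : ModularForm 𝒮ℒ 8 where
  toFun := serreDerivative 6 E₆
  slash_action_eq' A hA := by
    obtain ⟨A, rfl⟩ := hA
    exact serre_inv A
  holo' := serreDerivative_mdifferentiable 6 E₆.holo'
  bdd_at_cusps' hc := by
    rw [Subgroup.IsArithmetic.isCusp_iff_isCusp_SL2Z] at hc
    rw [OnePoint.isBoundedAt_iff_forall_SL2Z hc]
    intro γ _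
    rw [serre_inv, serre_eq]
    have : Fact (IsCusp OnePoint.infty 𝒮ℒ) :=
      ⟨(𝒮ℒ).isCusp_of_mem_strictPeriods one_pos one_mem_strictPeriods_SL⟩
    exact (good_D E₆).2.add
      ((isBoundedAtImInfty_E2.mul (ModularFormClass.bdd_at_infty E₆)).smul _)

lemma ramanujan : 2 * th (qExpansion 1 E₆)
    = (1 - MM) * qExpansion 1 E₆ - qExpansion 1 E₄ ^ 2 := by
  let R : ModularForm 𝒮ℒ 8 := S6 + (1 / 2 : ℂ) • ModularForm.mcast (by decide) (E₄.mul E₄)
  have hR : (R : ℍ → ℂ) = (normalizedDerivOfComplex E₆ + (-(1 / 2) : ℂ) • (E2 * E₆))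
      + (1 / 2 : ℂ) • ((E₄ : ℍ → ℂ) * E₄) := by
    rw [← serre_eq]; rfl
  have hG := ((good_D E₆).1.add ((good_E2.mul (good_mf E₆)).smul (-(1 / 2)))).add
    (((good_mf E₄).mul (good_mf E₄)).smul (1 / 2))
  rw [← hR] at hG
  have h0 : R = 0 := by
    refine sturm_bound_levelOne (k := 8) ?_
    have : PowerSeries.constantCoeff (qExpansion 1 R) = 0 := by
      have e4 := E_qExpansion_coeff_zero (k := 4) (by norm_num) ⟨2, rfl⟩
      have e6 := E_qExpansion_coeff_zero (k := 6) (by norm_num) ⟨3, rfl⟩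
      have em : PowerSeries.constantCoeff MM = 0 := by
        rw [← PowerSeries.coeff_zero_eq_constantCoeff_apply]; simp [MM]
      rw [PowerSeries.coeff_zero_eq_constantCoeff_apply] at e4 e6
      rw [hG.2]
      simp only [map_add, map_mul, map_sub, map_one, PowerSeries.constantCoeff_C, em, th,
        PowerSeries.constantCoeff_X]
      erw [e4, e6]
      ring
    have h1 := PowerSeries.one_le_order_iff_constCoeff_eq_zero.2 this
    exact lt_of_lt_of_le (by norm_num) h1
  have h2 := hG.2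
  rw [h0] at h2
  have h3 : qExpansion 1 (0 : ModularForm 𝒮ℒ 8) = 0 := qExpansion_zero 1
  rw [h3] at h2
  have c1 : (2 : PowerSeries ℂ) * PowerSeries.C (1 / 2 : ℂ) = 1 := by
    rw [← map_ofNat (PowerSeries.C : ℂ →+* PowerSeries ℂ), ← map_mul]; norm_num
  rw [map_neg] at h2
  linear_combination -2 * h2 + ((1 - MM) * qExpansion 1 E₆ - qExpansion 1 E₄ ^ 2) * c1

lemma MM_nn : NN MM := fun n => by
  unfold MM; rw [PowerSeries.coeff_mk]; positivity

lemma MM_zero : PowerSeries.coeff 0 MM = 0 := by simp [MM]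

lemma E4_N1 : N1 (qExpansion 1 E₄) := by
  refine ⟨fun n => ?_, E_qExpansion_coeff_zero _ ⟨2, rfl⟩⟩
  rw [E_qExpansion_coeff _ ⟨2, rfl⟩, show bernoulli 4 = -1 / 30 by decide +kernel]
  split_ifs
  · exact zero_le_one
  · norm_num; positivity

lemma E6_coeff (n : ℕ) : PowerSeries.coeff n (1 - qExpansion 1 E₆) = 504 * (σ 5 n : ℂ) := by
  rw [map_sub, E_qExpansion_coeff _ ⟨3, rfl⟩, show bernoulli 6 = 1 / 42 by decide +kernel,
    PowerSeries.coeff_one]
  split_ifs with h
  · simp [h]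
  · norm_num

end Pool.Agent.H61.MbB
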