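import Pool.Agent.H61.NilDefs

set_option autoImplicit false
open Filter Topology DihedralGroup

namespace Pool.Agent.H61.Nil

lemma ab_le (N : ℕ) [NeZero N] : Nat.card (Abelianization (DihedralGroup N)) ≤ 4 := by
  classical
  set f : DihedralGroup N →* Abelianization (DihedralGroup N) := Abelianization.of
  have h1 : f (sr 1) = f (sr (-1)) := by
    have a : (sr 1 : DihedralGroup N) = sr 0 * r 1 := by simp
    have b : (sr (-1) : DihedralGroup N) = r 1 * sr 0 := by simp
    rw [a, b, map_mul, map_mul, mul_comm]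
  have h2 : f (r 1) ^ 2 = 1 := by
    have a : (r 1 ^ 2 : DihedralGroup N) = sr (-1) * sr 1 := by simp [pow_two]
    rw [← map_pow, a, map_mul, ← h1, ← map_mul]
    simp [← one_def]
  have h3 : ∀ i : ZMod N, ∃ b : Fin 2, f (r i) = f (r 1) ^ (b : ℕ) := fun i => by
    refine ⟨⟨i.val % 2, Nat.mod_lt _ two_pos⟩, ?_⟩
    rw [← pow_eq_pow_mod _ h2, ← map_pow, r_one_pow, ZMod.natCast_zmod_val]
  have h4 : Function.Surjective
      fun z : Fin 2 × Fin 2 => f (sr 0) ^ (z.1 : ℕ) * f (r 1) ^ (z.2 : ℕ) := by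
    intro x
    obtain ⟨g, rfl⟩ : ∃ g, f g = x := QuotientGroup.mk_surjective x
    cases g with
    | r i => obtain ⟨b, hb⟩ := h3 i; exact ⟨(0, b), by simp [hb]⟩
    | sr i =>
      obtain ⟨b, hb⟩ := h3 i
      refine ⟨(1, b), ?_⟩
      simp only [Fin.val_one, pow_one, ← hb, ← map_mul, sr_mul_r, zero_add]
  simpa using Nat.card_le_card_of_surjective _ h4

lemma t0_le {k N : ℕ} (hk : 16 ≤ k) (hN : N ≤ 4) : t0 k N ≤ 4 := by
  have k0 : (16 : ℝ) ≤ k := by exact_mod_cast hk
  refine csInf_le ⟨0, fun t ht => ht.1⟩ ⟨by norm_num, ?_⟩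
  obtain ⟨s, hs⟩ : ∃ s : ℝ, s = 4 / k := ⟨_, rfl⟩
  have s0 : 0 < s := by rw [hs]; positivity
  have s1 : s ≤ 1 / 4 := by rw [hs, div_le_iff₀ (by positivity)]; linarith
  rw [← hs]
  have p0 : ∀ j : ℕ, 0 ≤ Real.exp (-s) * s ^ j / (j.factorial : ℝ) := fun j => by positivity
  have p1 : ∀ j : ℕ, Real.exp (-s) * s ^ j / (j.factorial : ℝ) ≤ ((1 / 2) ^ j) ^ 2 := fun j => by
    rw [← pow_mul, mul_comm j, pow_mul]
    refine (div_le_self (by positivity) (by exact_mod_cast j.factorial_pos)).trans ?_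
    refine (mul_le_of_le_one_left (by positivity) (Real.exp_le_one_iff.2 (by linarith))).trans ?_
    exact pow_le_pow_left₀ s0.le (by linarith) j
  have n0 : ∀ j : ℕ, 0 ≤ Real.negMulLog (Real.exp (-s) * s ^ j / (j.factorial : ℝ)) := fun j =>
    Real.negMulLog_nonneg (p0 j) ((p1 j).trans (pow_le_one₀ (by positivity)
      (pow_le_one₀ (by norm_num) (by norm_num))))
  have sm : Summable fun j : ℕ => Real.negMulLog (Real.exp (-s) * s ^ j / (j.factorial : ℝ)) := by
    refine Summable.of_nonneg_of_le n0 (fun j => ?_) (summable_geometric_two.mul_left 2)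
    have a := Real.sqrt_le_sqrt (p1 j)
    rw [Real.sqrt_sq (by positivity)] at a
    have x0 : 0 < Real.exp (-s) * s ^ j / (j.factorial : ℝ) := by positivity
    generalize Real.exp (-s) * s ^ j / (j.factorial : ℝ) = x at *
    have y0 := Real.sqrt_pos.2 x0
    have y1 := Real.mul_self_sqrt x0.le
    have y2 := Real.one_sub_inv_le_log_of_pos y0
    rw [Real.log_sqrt x0.le] at y2
    have y3 : x * (√x)⁻¹ = √x := by rw [mul_inv_eq_iff_eq_mul₀ y0.ne', y1]
    have y4 := mul_le_mul_of_nonneg_left y2 x0.le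
    rw [Real.negMulLog]
    nlinarith
  refine le_trans ?_ (sm.le_tsum 0 fun j _ => n0 j)
  simp only [pow_zero, mul_one, Nat.factorial_zero, Nat.cast_one, div_one, Real.negMulLog,
    Real.log_exp]
  have a1 : Real.log N ≤ 3 := by
    rcases Nat.eq_zero_or_pos N with rfl | h
    · simp
    have := Real.log_le_sub_one_of_pos (by exact_mod_cast h : (0 : ℝ) < N)
    have : (N : ℝ) ≤ 4 := by exact_mod_cast hN
    linarith
  have a2 := Real.add_one_le_exp (-s)
  have a3 : Real.log N / k ≤ 3 / 4 * s := by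
    rw [hs, div_le_iff₀ (by positivity)]; field_simp; linarith
  nlinarith

def co {N : ℕ} : DihedralGroup N → ZMod N
  | r a => a
  | sr a => a

def vv {N k : ℕ} (Z : Fin k → DihedralGroup N) : Option (Fin k × Bool) → ZMod N
  | none => 0
  | some (i, true) => co (Z i)
  | some (i, false) => -co (Z i)

lemma word {N k : ℕ} (Z : Fin k → DihedralGroup N) (l : List (Fin k)) :
    ∃ s : Multiset (Option (Fin k × Bool)), s.card = l.length ∧
      co (l.map Z).prod = (s.map (vv Z)).sum := by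
  induction l with
  | nil => exact ⟨0, rfl, rfl⟩
  | cons i l ih =>
    obtain ⟨s, h1, h2⟩ := ih
    have : ∃ b, co (Z i * (l.map Z).prod) = vv Z (some (i, b)) + co (l.map Z).prod := by
      cases (l.map Z).prod with
      | r x => refine ⟨true, ?_⟩; rw [vv]; cases Z i <;> simp [co]
      | sr x => refine ⟨false, ?_⟩; rw [vv]; cases Z i <;> simp [co] <;> ring
    obtain ⟨b, hb⟩ := this
    exact ⟨some (i, b) ::ₘ s, by simp [h1], by simp [hb, h2]⟩

lemma reach {N k : ℕ} [NeZero N] (Z : Fin k → DihedralGroup N) (T : ℕ) :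
    ∃ A : Set (DihedralGroup N), Nat.card A ≤ 2 * (2 * k + T).choose T ∧
      ∀ m ≤ T, ∀ w : Fin m → Fin k, (List.ofFn fun j => Z (w j)).prod ∈ A := by
  classical
  let F : Bool × Sym (Option (Fin k × Bool)) T → DihedralGroup N := fun z =>
    if z.1 then r (z.2.1.map (vv Z)).sum else sr (z.2.1.map (vv Z)).sum
  refine ⟨Set.range F, (Finite.card_range_le F).trans (le_of_eq ?_), fun m hm w => ?_⟩
  · rw [Nat.card_eq_fintype_card, Fintype.card_prod, Sym.card_sym_eq_choose]
    simp only [Fintype.card_bool, Fintype.card_option, Fintype.card_prod, Fintype.card_fin]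
    congr 2
    omega
  · obtain ⟨s, h1, h2⟩ := word Z (List.ofFn w)
    rw [List.map_ofFn] at h2
    rw [List.length_ofFn] at h1
    have e : ((s + Multiset.replicate (T - m) none).map (vv Z)).sum = (s.map (vv Z)).sum := by
      simp [vv]
    have c : (s + Multiset.replicate (T - m) none).card = T := by simp [h1, hm]
    change (List.ofFn (Z ∘ w)).prod ∈ _
    revert h2
    cases (List.ofFn (Z ∘ w)).prod with
    | r x => exact fun h2 => ⟨(true, ⟨_, c⟩), by simp only [F, if_true, e, ← h2, co]⟩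
    | sr x => exact fun h2 => ⟨(false, ⟨_, c⟩), by simp [F, -Multiset.map_add, e, ← h2, co]⟩

lemma law_ge {G : Type} [Group G] {k : ℕ} (hk : 0 < k) (Z : Fin k → G) {t : ℝ} (ht : 0 ≤ t)
    {T : ℕ} {A : Set G} (h : ∀ m ≤ T, ∀ w : Fin m → Fin k, (List.ofFn fun j => Z (w j)).prod ∈ A) :
    1 - Real.exp t / 2 ^ T ≤ law Z t A := by
  have k0 : (0 : ℝ) < k := by exact_mod_cast hk
  have e : ∀ x : ℝ, HasSum (fun m : ℕ => x ^ m / (m.factorial : ℝ)) (Real.exp x) := fun x => by
    rw [Real.exp_eq_exp_ℝ]; exact NormedSpace.expSeries_div_hasSum_exp x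
  have h1 := ((e t).sub ((e (2 * t)).div_const (2 ^ T))).mul_left (Real.exp (-t))
  have h2 : Real.exp (-t) * (Real.exp t - Real.exp (2 * t) / 2 ^ T) = 1 - Real.exp t / 2 ^ T := by
    rw [mul_sub, ← mul_div_assoc, ← Real.exp_add, ← Real.exp_add]
    simp only [neg_add_cancel, Real.exp_zero]
    congr 3; ring
  rw [h2] at h1
  have c1 : ∀ m : ℕ, (Nat.card {w : Fin m → Fin k // (List.ofFn fun j => Z (w j)).prod ∈ A} : ℝ) /
      (k : ℝ) ^ m ≤ 1 := fun m => by
    rw [div_le_one (by positivity)]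
    have := Finite.card_subtype_le fun w : Fin m → Fin k => (List.ofFn fun j => Z (w j)).prod ∈ A
    rw [Nat.card_fun, Nat.card_fin, Nat.card_fin] at this
    exact_mod_cast this
  rw [← h1.tsum_eq]
  refine h1.summable.tsum_le_tsum (fun m => ?_) (Summable.of_nonneg_of_le (fun m => by positivity)
    (fun m => ?_) ((e t).summable.mul_left (Real.exp (-t))))
  · by_cases hm : m ≤ T
    · rw [Nat.card_congr (Equiv.subtypeUnivEquiv (h m hm)), Nat.card_fun, Nat.card_eq_fintype_card,
        Nat.card_eq_fintype_card, Fintype.card_fin, Fintype.card_fin, Nat.cast_pow,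
        div_self (by positivity), mul_one, mul_div_assoc]
      exact mul_le_mul_of_nonneg_left (sub_le_self _ (by positivity)) (by positivity)
    · refine le_trans (mul_nonpos_of_nonneg_of_nonpos (by positivity) ?_) (by positivity)
      rw [sub_nonpos, le_div_iff₀ (by positivity), mul_pow, mul_div_assoc, mul_comm]
      exact mul_le_mul_of_nonneg_right (pow_le_pow_right₀ one_le_two (by omega)) (by positivity)
  · rw [mul_div_assoc]
    exact mul_le_of_le_one_right (by positivity) (c1 m)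

lemma tv_ge {k : ℕ} (hk : 10 ≤ k) (Z : Fin k → DihedralGroup (2 ^ k)) {t : ℝ} (ht : 1 ≤ t)
    (h : 400 * t + 100 ≤ k) : 1 / 2 ≤ tv Z t := by
  have k0 : (10 : ℝ) ≤ k := by exact_mod_cast hk
  obtain ⟨T, hT⟩ : ∃ T, T = ⌈4 * t⌉₊ := ⟨_, rfl⟩
  have T1 : 4 * t ≤ T := hT ▸ Nat.le_ceil _
  have T2 : (T : ℝ) ≤ 4 * t + 1 := hT ▸ (Nat.ceil_lt_add_one (by linarith)).le
  obtain ⟨A, a1, a2⟩ := reach Z T
  have a3 := law_ge (by omega) Z (by linarith : 0 ≤ t) a2
  have l2 := Real.log_two_gt_d9
  have pw : ∀ m : ℕ, (2 : ℝ) ^ m = Real.exp (m * Real.log 2) := fun m => by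
    rw [Real.exp_nat_mul, Real.exp_log two_pos]
  have q : Real.exp (-(2 * Real.log 2)) = 1 / 4 := by
    have := pw 2
    rw [Nat.cast_ofNat] at this
    rw [Real.exp_neg, ← this]; norm_num
  have l3 := Real.log_two_lt_d9
  have a4 : Real.exp t / 2 ^ T ≤ 1 / 4 := by
    rw [pw, ← Real.exp_sub, ← q, Real.exp_le_exp]
    nlinarith
  have a5 : (Nat.card A : ℝ) / (Nat.card (DihedralGroup (2 ^ k)) : ℝ) ≤ 1 / 4 := by
    have b1 : (Nat.card A : ℝ) ≤ 2 * ((2 * k + T).choose T : ℝ) := by exact_mod_cast a1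
    have b2 : ((2 * k + T).choose T : ℝ) ≤ ((2 * k + T : ℕ) : ℝ) ^ T / T.factorial :=
      Nat.choose_le_pow_div T _
    have b3 := Real.pow_div_factorial_le_exp (k / 10 : ℝ) (by positivity) T
    have b4 : ((2 * k + T : ℕ) : ℝ) ^ T ≤ (2 ^ T) ^ 5 * (k / 10 : ℝ) ^ T := by
      rw [← pow_mul, mul_comm T, pow_mul, ← mul_pow]
      refine pow_le_pow_left₀ (by positivity) ?_ T
      push_cast; linarith
    have b5 : ((2 * k + T).choose T : ℝ) ≤ (2 ^ T) ^ 5 * Real.exp (k / 10) := by
      refine b2.trans ((div_le_div_of_nonneg_right b4 (by positivity)).trans ?_)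
      rw [mul_div_assoc]; gcongr
    rw [nat_card, div_le_iff₀ (by positivity)]
    push_cast
    have b6 : ((2 : ℝ) ^ T) ^ 5 * Real.exp (k / 10) ≤ 1 / 4 * 2 ^ k := by
      rw [← pow_mul, pw, pw, ← q, ← Real.exp_add, ← Real.exp_add, Real.exp_le_exp]
      push_cast
      nlinarith
    linarith
  refine le_trans ?_ (le_ciSup (f := fun A : Set (DihedralGroup (2 ^ k)) =>
    |law Z t A - (Nat.card A : ℝ) / (Nat.card (DihedralGroup (2 ^ k)) : ℝ)|)
    (Set.finite_range _).bddAbove A)
  exact le_trans (by linarith) (le_abs_self _)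

theorem main : ∃ (G : ℕ → Type) (_ : ∀ n, Group (G n)) (_ : ∀ n, Finite (G n)) (k : ℕ → ℕ),
    (∀ n, Group.IsNilpotent (G n)) ∧ Tendsto (fun n => Nat.card (G n)) atTop atTop ∧
    Tendsto (fun n => Real.log (k n)) atTop atTop ∧
    Tendsto (fun n => Real.log (k n) / Real.log (Nat.card (G n))) atTop (𝓝 0) ∧
    Tendsto (fun n => Real.log (Nat.card (Abelianization (G n))) / k n) atTop (𝓝 0) ∧
    ¬ Cutoff G k fun n => max (t0 (k n) (Nat.card (Abelianization (G n))))
      (Real.log (Nat.card (G n)) / Real.log (k n)) := by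
  have T0 : Tendsto (fun n : ℕ => (n : ℝ)) atTop atTop := tendsto_natCast_atTop_atTop
  have T1 := Real.tendsto_log_atTop.comp T0
  have T2 : Tendsto (fun n : ℕ => Real.log n / n) atTop (𝓝 0) := by
    simpa [Function.comp_def] using
      (Real.tendsto_pow_log_div_mul_add_atTop 1 0 1 one_ne_zero).comp T0
  have l2 := Real.log_two_gt_d9
  have l3 := Real.log_two_lt_d9
  have lc : ∀ n : ℕ, Real.log (Nat.card (DihedralGroup (2 ^ n))) = (n + 1) * Real.log 2 :=
    fun n => by rw [nat_card, ← pow_succ']; simp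
  refine ⟨fun n => DihedralGroup (2 ^ n), inferInstance, inferInstance, id, fun n => ?_, ?_, T1,
    ?_, ?_, fun h => ?_⟩
  · exact (IsPGroup.of_card (p := 2) (n := n + 1) (by rw [nat_card, pow_succ'])).isNilpotent
  · refine tendsto_atTop_mono (fun n => ?_) tendsto_id
    rw [nat_card]
    have := Nat.lt_two_pow_self (n := n)
    simp only [id]; omega
  · refine squeeze_zero' (Eventually.of_forall fun n => ?_) ?_ (by simpa using T2.const_mul 2)
    · rw [lc]; exact div_nonneg (Real.log_natCast_nonneg n) (by positivity)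
    · filter_upwards [T0.eventually_gt_atTop 0] with n hn
      rw [lc, id, ← mul_div_assoc, div_le_div_iff₀ (by positivity) hn]
      have := mul_nonneg (Real.log_natCast_nonneg n)
        (by nlinarith : (0 : ℝ) ≤ 2 * ((n + 1) * Real.log 2) - n)
      linarith
  · refine squeeze_zero (fun n => div_nonneg (Real.log_natCast_nonneg _) (Nat.cast_nonneg _))
      (fun n => div_le_div_of_nonneg_right (?_ : _ ≤ Real.log 4) (Nat.cast_nonneg _))
      (tendsto_const_div_atTop_nhds_zero_nat _)
    exact Real.log_le_log (by exact_mod_cast Nat.card_pos) (by exact_mod_cast ab_le _)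
  · have h1 := (h (1 / 2) (by norm_num) (by norm_num) (1 / 2) (by norm_num)).1
    have h2 := h1.eventually (gt_mem_nhds one_pos)
    refine (h2.and ((eventually_ge_atTop 5000).and (T1.eventually_ge_atTop 4000))).exists.elim
      fun n ⟨c1, c2, c3⟩ => c1.ne ?_
    simp only [Function.comp_apply] at c3
    have n0 : (5000 : ℝ) ≤ n := by exact_mod_cast c2
    have d1 := t0_le (k := n) (by omega) (ab_le (2 ^ n))
    have d2 : (n + 1) * Real.log 2 / Real.log n ≤ n / 2000 := by
      rw [div_le_iff₀ (by linarith)]; nlinarith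
    have d3 : 1 ≤ (n + 1) * Real.log 2 / Real.log n := by
      rw [le_div_iff₀ (by linarith)]
      have := Real.log_le_sub_one_of_pos (by linarith : (0 : ℝ) < n / 2)
      rw [Real.log_div (by linarith) (by norm_num)] at this
      nlinarith
    rw [frac, Nat.card_congr (Equiv.subtypeUnivEquiv fun Z => ?_), div_self]
    · exact_mod_cast Nat.card_pos.ne'
    refine le_trans (tv_ge (by simp only [id]; omega) Z ?_ ?_) (le_abs_self _) <;> simp only [id, lc]
    · linarith [le_max_right (t0 n (Nat.card (Abelianization (DihedralGroup (2 ^ n)))))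
        ((n + 1) * Real.log 2 / Real.log n)]
    · have := max_le (d1.trans (by linarith : (4 : ℝ) ≤ n / 1000))
        (d2.trans (by linarith : (n : ℝ) / 2000 ≤ n / 1000))
      linarith

end Pool.Agent.H61.Nil
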