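import Mathlib

set_option autoImplicit false
open Filter Topology

namespace Pool.Agent.H61.Nil

/-- the probability that the rate-one walk with generators `Z`, started at the identity, lies in
`A` at time `t` -/
noncomputable def law {G : Type} [Group G] {k : ℕ} (Z : Fin k → G) (t : ℝ) (A : Set G) : ℝ :=
  ∑' m : ℕ, Real.exp (-t) * t ^ m / (m.factorial : ℝ) *
    ((Nat.card {w : Fin m → Fin k // (List.ofFn fun j => Z (w j)).prod ∈ A} : ℝ) / (k : ℝ) ^ m)

/-- total variation distance from the uniform distribution -/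
noncomputable def tv {G : Type} [Group G] {k : ℕ} (Z : Fin k → G) (t : ℝ) : ℝ :=
  ⨆ A : Set G, |law Z t A - (Nat.card A : ℝ) / (Nat.card G : ℝ)|

/-- Shannon entropy of the Poisson distribution with mean `s` -/
noncomputable def poiEnt (s : ℝ) : ℝ :=
  ∑' j : ℕ, Real.negMulLog (Real.exp (-s) * s ^ j / (j.factorial : ℝ))

/-- the entropic time -/
noncomputable def t0 (k N : ℕ) : ℝ := sInf {t : ℝ | 0 ≤ t ∧ Real.log N / k ≤ poiEnt (t / k)}

/-- the probability of `E` for `k` independent uniform elements of `G` -/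
noncomputable def frac (G : Type) (k : ℕ) (E : (Fin k → G) → Prop) : ℝ :=
  (Nat.card {Z : Fin k → G // E Z} : ℝ) / (Nat.card (Fin k → G) : ℝ)

/-- cutoff with high probability at time `t` -/
def Cutoff (G : ℕ → Type) [∀ n, Group (G n)] (k : ℕ → ℕ) (t : ℕ → ℝ) : Prop :=
  ∀ ε : ℝ, 0 < ε → ε < 1 → ∀ δ : ℝ, 0 < δ →
    Tendsto (fun n => frac (G n) (k n) fun Z => δ ≤ |tv Z ((1 + ε) * t n)|) atTop (𝓝 0) ∧
    Tendsto (fun n => frac (G n) (k n) fun Z => δ ≤ |tv Z ((1 - ε) * t n) - 1|) atTop (𝓝 0)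

end Pool.Agent.H61.Nil
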