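import Mathlib

set_option autoImplicit false
set_option linter.deprecated false
open MeasureTheory

namespace Pool.Agent.H61.PercA

variable {V : Type} (G : SimpleGraph V) (p : NNReal) (hp : p ≤ 1)

noncomputable abbrev Pm : Measure (G.edgeSet → Bool) :=
  Measure.infinitePi (fun _ : G.edgeSet => (PMF.bernoulli p hp).toMeasure)

/-- All edges of `S` are open. -/
def Op (S : Finset (Sym2 V)) : Set (G.edgeSet → Bool) :=
  {ω | ∀ e ∈ S, ∃ h : e ∈ G.edgeSet, ω ⟨e, h⟩ = true}

open Classical in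
theorem Op_eq (S : Finset (Sym2 V)) (hS : ∀ e ∈ S, e ∈ G.edgeSet) :
    Op G S = Set.pi (S.subtype (· ∈ G.edgeSet) : Set G.edgeSet) (fun _ => {true}) := by
  ext ω
  simp only [Op, Set.mem_ofPred_eq, Set.mem_pi, Finset.mem_coe, Finset.mem_subtype,
    Set.mem_singleton_iff]
  constructor
  · intro h e he
    obtain ⟨_, h2⟩ := h e he
    exact h2
  · intro h e he
    exact ⟨hS e he, h ⟨e, hS e he⟩ he⟩

theorem Op_empty (S : Finset (Sym2 V)) (hS : ¬ ∀ e ∈ S, e ∈ G.edgeSet) : Op G S = ∅ := by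
  ext ω
  simp only [Op, Set.mem_ofPred_eq, Set.mem_empty_iff_false, iff_false]
  intro h
  exact hS fun e he => (h e he).1

theorem meas_Op (S : Finset (Sym2 V)) : MeasurableSet (Op G S) := by
  by_cases hS : ∀ e ∈ S, e ∈ G.edgeSet
  · rw [Op_eq G S hS]
    exact MeasurableSet.pi (Finset.countable_toSet _) fun _ _ => MeasurableSet.of_discrete
  · rw [Op_empty G S hS]; exact MeasurableSet.empty

theorem prob_Op (S : Finset (Sym2 V)) (hS : ∀ e ∈ S, e ∈ G.edgeSet) :
    (Pm G p hp).real (Op G S) = (p : ℝ) ^ S.card := by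
  classical
  rw [Op_eq G S hS, measureReal_def, Measure.infinitePi_pi _ fun _ _ => MeasurableSet.of_discrete]
  simp only [PMF.toMeasure_apply_singleton _ _ MeasurableSet.of_discrete, PMF.bernoulli_apply,
    cond_true, Finset.prod_const, Finset.card_subtype]
  rw [Finset.filter_true_of_mem hS]
  simp

theorem prob_Op_le (S : Finset (Sym2 V)) : (Pm G p hp).real (Op G S) ≤ (p : ℝ) ^ S.card := by
  by_cases hS : ∀ e ∈ S, e ∈ G.edgeSet
  · exact (prob_Op G p hp S hS).le
  · rw [Op_empty G S hS]; simp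

theorem Op_inter [DecidableEq V] (S S' : Finset (Sym2 V)) : Op G S ∩ Op G S' = Op G (S ∪ S') := by
  ext ω
  simp only [Op, Set.mem_inter_iff, Set.mem_ofPred_eq, Finset.mem_union]
  exact ⟨fun h e he => he.elim (h.1 e) (h.2 e), fun h => ⟨fun e he => h e (Or.inl he),
    fun e he => h e (Or.inr he)⟩⟩

theorem second_moment [DecidableEq V] {ι : Type} [Fintype ι] (E : ι → Finset (Sym2 V))
    (hE : ∀ i, ∀ e ∈ E i, e ∈ G.edgeSet) (n : ℕ) (hcard : ∀ i, (E i).card = n) (W : ℝ)
    (hW : ∑ i, ∑ j, (p : ℝ) ^ (E i ∪ E j).card ≤ (Fintype.card ι * (p : ℝ) ^ n) ^ 2 * W)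
    (hpos : 0 < Fintype.card ι * (p : ℝ) ^ n) :
    2 - W ≤ (Pm G p hp).real (⋃ i, Op G (E i)) := by
  set m : ℝ := Fintype.card ι * (p : ℝ) ^ n with hm
  have hU : MeasurableSet (⋃ i, Op G (E i)) := MeasurableSet.iUnion fun i => meas_Op G _
  have hint : ∀ S : Finset (Sym2 V),
      Integrable ((Op G S).indicator (1 : (G.edgeSet → Bool) → ℝ)) (Pm G p hp) :=
    fun S => (integrable_const (1 : ℝ)).indicator (meas_Op G S)
  have h1 : ∫ ω, (2 / m * ∑ i, (Op G (E i)).indicator (1 : (G.edgeSet → Bool) → ℝ) ω -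
      1 / m ^ 2 * ∑ i, ∑ j, (Op G (E i ∪ E j)).indicator (1 : (G.edgeSet → Bool) → ℝ) ω)
      ∂(Pm G p hp) = 2 / m * m - 1 / m ^ 2 * ∑ i, ∑ j, (p : ℝ) ^ (E i ∪ E j).card := by
    rw [integral_sub ((integrable_finsetSum _ fun i _ => hint _).const_mul _)
      ((integrable_finsetSum _ fun i _ => integrable_finsetSum _ fun j _ => hint _).const_mul _),
      integral_const_mul, integral_const_mul, integral_finsetSum _ fun i _ => hint _,
      integral_finsetSum _ fun i _ => integrable_finsetSum _ fun j _ => hint _]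
    congr 2
    · simp only [integral_indicator_one (meas_Op G _), prob_Op G p hp _ (hE _), hcard]
      simp [hm]
    · refine Finset.sum_congr rfl fun i _ => ?_
      rw [integral_finsetSum _ fun j _ => hint _]
      refine Finset.sum_congr rfl fun j _ => ?_
      rw [integral_indicator_one (meas_Op G _), prob_Op G p hp]
      intro e he
      rcases Finset.mem_union.1 he with h | h
      · exact hE _ _ h
      · exact hE _ _ h
  have h2 : ∫ ω, (2 / m * ∑ i, (Op G (E i)).indicator (1 : (G.edgeSet → Bool) → ℝ) ω -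
      1 / m ^ 2 * ∑ i, ∑ j, (Op G (E i ∪ E j)).indicator (1 : (G.edgeSet → Bool) → ℝ) ω)
      ∂(Pm G p hp) ≤ ∫ ω, (⋃ i, Op G (E i)).indicator (1 : (G.edgeSet → Bool) → ℝ) ω
      ∂(Pm G p hp) := by
    refine integral_mono (((integrable_finsetSum _ fun i _ => hint _).const_mul _).sub
      ((integrable_finsetSum _ fun i _ => integrable_finsetSum _ fun j _ => hint _).const_mul _))
      ((integrable_const (1 : ℝ)).indicator hU) fun ω => ?_
    have e1 : ∑ i, ∑ j, (Op G (E i ∪ E j)).indicator (1 : (G.edgeSet → Bool) → ℝ) ω =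
        (∑ i, (Op G (E i)).indicator (1 : (G.edgeSet → Bool) → ℝ) ω) ^ 2 := by
      rw [sq, Finset.sum_mul_sum]
      refine Finset.sum_congr rfl fun i _ => Finset.sum_congr rfl fun j _ => ?_
      rw [← Op_inter, Set.inter_indicator_one]; rfl
    simp only [e1]
    by_cases hω : ω ∈ ⋃ i, Op G (E i)
    · rw [Set.indicator_of_mem hω]
      set Z := ∑ i, (Op G (E i)).indicator (1 : (G.edgeSet → Bool) → ℝ) ω
      have : 2 / m * Z - 1 / m ^ 2 * Z ^ 2 = 1 - (1 - Z / m) ^ 2 := by field_simp; ring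
      rw [this, Pi.one_apply]
      nlinarith [sq_nonneg (1 - Z / m)]
    · rw [Set.indicator_of_notMem hω]
      have : ∑ i, (Op G (E i)).indicator (1 : (G.edgeSet → Bool) → ℝ) ω = 0 :=
        Finset.sum_eq_zero fun i _ => Set.indicator_of_notMem
          (fun h => hω (Set.mem_iUnion.2 ⟨i, h⟩)) _
      rw [this]; simp
  rw [h1, integral_indicator_one hU] at h2
  have h3 : 1 / m ^ 2 * ∑ i, ∑ j, (p : ℝ) ^ (E i ∪ E j).card ≤ W := by
    rw [one_div, inv_mul_le_iff₀ (by positivity)]; exact hW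
  have h4 : 2 / m * m = 2 := by field_simp
  linarith

/-! Return probabilities of the difference walk. -/

noncomputable def ch (n : ℕ) (m : ℤ) : ℝ := if 0 ≤ m then (n.choose m.toNat : ℝ) else 0

theorem ch_succ (n : ℕ) (m : ℤ) : ch (n + 1) m = ch n m + ch n (m - 1) := by
  unfold ch
  rcases lt_trichotomy m 0 with h | h | h
  · rw [if_neg (by omega), if_neg (by omega), if_neg (by omega)]; simp
  · subst h; simp
  · obtain ⟨k, rfl⟩ : ∃ k : ℕ, m = (k : ℤ) + 1 := ⟨(m - 1).toNat, by omega⟩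
    rw [if_pos (by omega), if_pos (by omega), if_pos (by omega)]
    have e1 : ((k : ℤ) + 1).toNat = k + 1 := by omega
    have e2 : ((k : ℤ) + 1 - 1).toNat = k := by omega
    rw [e1, e2, Nat.choose_succ_succ']
    push_cast; ring

noncomputable def b (j : ℕ) (k : ℤ) : ℝ := ch (2 * j) (j + k) / 4 ^ j

theorem b_nonneg (j : ℕ) (k : ℤ) : 0 ≤ b j k := by
  unfold b ch; split_ifs <;> positivity

def bit (e : Bool) : ℤ := if e then 1 else 0

theorem b_succ (j : ℕ) (k : ℤ) : ∑ e : Bool, ∑ e' : Bool, b j (k + bit e - bit e') =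
    4 * b (j + 1) k := by
  simp only [Fintype.sum_bool, bit, if_true, Bool.false_eq_true, if_false, b]
  rw [show 2 * (j + 1) = 2 * j + 1 + 1 by ring, ch_succ, ch_succ, ch_succ]
  push_cast
  rw [show (j : ℤ) + (k + 1 - 1) = j + k by ring, show (j : ℤ) + (k + 1 - 0) = j + 1 + k by ring,
    show (j : ℤ) + (k + 0 - 1) = j + 1 + k - 1 - 1 by ring,
    show (j : ℤ) + (k + 0 - 0) = j + k by ring, show (j : ℤ) + 1 + k - 1 = j + k by ring]
  field_simp
  ring

theorem b_zero_zero : b 0 0 = 1 := by simp [b, ch]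

theorem b_sq (j : ℕ) : b j 0 ^ 2 * (2 * j + 1) ≤ 1 := by
  have e : ∀ j : ℕ, b j 0 = (j.centralBinom : ℝ) / 4 ^ j := by
    intro j; simp [b, ch, Nat.centralBinom]
  induction j with
  | zero => simp [b_zero_zero]
  | succ j ih =>
    have h1 : ((j + 1 : ℕ) : ℝ) * (j + 1).centralBinom = 2 * (2 * j + 1) * j.centralBinom := by
      exact_mod_cast Nat.succ_mul_centralBinom_succ j
    have h2 : b (j + 1) 0 = b j 0 * ((2 * j + 1) / (2 * j + 2)) := by
      rw [e, e, pow_succ]
      push_cast at h1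
      field_simp
      linarith
    rw [h2, mul_pow]
    push_cast
    have h3 : ((2 * (j : ℝ) + 1) / (2 * j + 2)) ^ 2 * (2 * (j + 1) + 1) ≤ 2 * j + 1 := by
      rw [div_pow, div_mul_eq_mul_div, div_le_iff₀ (by positivity)]
      have : (0 : ℝ) ≤ j := by positivity
      nlinarith
    calc b j 0 ^ 2 * ((2 * (j : ℝ) + 1) / (2 * j + 2)) ^ 2 * (2 * (j + 1) + 1)
        = b j 0 ^ 2 * (((2 * (j : ℝ) + 1) / (2 * j + 2)) ^ 2 * (2 * (j + 1) + 1)) := by ring
      _ ≤ b j 0 ^ 2 * (2 * j + 1) := by gcongr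
      _ ≤ 1 := ih

variable {r : ℕ}

noncomputable def a (j : ℕ) (z : Fin r → ℤ) : ℝ := ∏ i, b j (z i)

theorem a_nonneg (j : ℕ) (z : Fin r → ℤ) : 0 ≤ a j z := Finset.prod_nonneg fun _ _ => b_nonneg _ _

theorem a_succ (j : ℕ) (z : Fin r → ℤ) :
    ∑ ε : Fin r → Bool, ∑ ε' : Fin r → Bool, a j (fun i => z i + bit (ε i) - bit (ε' i)) =
      ((2 : ℝ) ^ r) ^ 2 * a (j + 1) z := by
  unfold a
  have h1 : ∀ ε : Fin r → Bool, ∑ ε' : Fin r → Bool, ∏ i, b j (z i + bit (ε i) - bit (ε' i)) =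
      ∏ i, ∑ e' : Bool, b j (z i + bit (ε i) - bit e') := fun ε =>
    (Fintype.prod_sum (fun i (e' : Bool) => b j (z i + bit (ε i) - bit e'))).symm
  simp only [h1]
  rw [← Fintype.prod_sum (fun i (e : Bool) => ∑ e' : Bool, b j (z i + bit e - bit e'))]
  simp only [b_succ, Finset.prod_mul_distrib, Finset.prod_const, Finset.card_univ,
    Fintype.card_fin]
  congr 1
  rw [← pow_mul, mul_comm, pow_mul]; norm_num

noncomputable def g (n : ℕ) (z : Fin r → ℤ) : ℝ := ∑ j ∈ Finset.range n, a j z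

theorem g_nonneg (n : ℕ) (z : Fin r → ℤ) : 0 ≤ g n z := Finset.sum_nonneg fun _ _ => a_nonneg _ _

theorem g_succ (n : ℕ) (z : Fin r → ℤ) :
    ∑ ε : Fin r → Bool, ∑ ε' : Fin r → Bool, g n (fun i => z i + bit (ε i) - bit (ε' i)) =
      ((2 : ℝ) ^ r) ^ 2 * (g (n + 1) z - a 0 z) := by
  unfold g
  rw [Finset.sum_range_succ', add_sub_cancel_right, Finset.mul_sum]
  simp only [← a_succ]
  rw [Finset.sum_comm (s := Finset.range n)]
  refine Finset.sum_congr rfl fun ε _ => ?_
  rw [Finset.sum_comm (s := Finset.range n)]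

theorem a_zero_zero : a 0 (0 : Fin r → ℤ) = 1 := by simp [a, b_zero_zero]

theorem g_le (hr : 4 ≤ r) (n : ℕ) : g n (0 : Fin r → ℤ) ≤ 2 := by
  have key : ∀ n : ℕ, g (n + 1) (0 : Fin r → ℤ) ≤ 2 - 1 / ((n : ℝ) + 1) := by
    intro n
    induction n with
    | zero => simp [g, a_zero_zero]; norm_num
    | succ n ih =>
      rw [g, Finset.sum_range_succ, ← g]
      have h1 := b_sq (n + 1)
      have h0 := b_nonneg (n + 1) 0
      have hn : (0 : ℝ) ≤ n := by positivity
      push_cast at h1 ⊢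
      have h2 : b (n + 1) 0 ^ 2 ≤ 1 / (2 * (n + 1) + 1) := by
        rw [le_div_iff₀ (by positivity)]; exact h1
      have h3 : b (n + 1) 0 ≤ 1 := by
        have : b (n + 1) 0 ^ 2 ≤ 1 := h2.trans (by
          rw [div_le_one (by positivity)]; linarith)
        nlinarith
      have h4 : a (n + 1) (0 : Fin r → ℤ) ≤ (1 / (2 * ((n : ℝ) + 1) + 1)) ^ 2 := by
        calc a (n + 1) (0 : Fin r → ℤ) = b (n + 1) 0 ^ r := by simp [a]
          _ ≤ b (n + 1) 0 ^ 4 := pow_le_pow_of_le_one h0 h3 hr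
          _ = (b (n + 1) 0 ^ 2) ^ 2 := by ring
          _ ≤ _ := by gcongr
      have h5 : (1 / (2 * ((n : ℝ) + 1) + 1)) ^ 2 ≤ 1 / (n + 1) - 1 / (n + 1 + 1) := by
        rw [div_sub_div _ _ (by positivity) (by positivity), div_pow,
          div_le_div_iff₀ (by positivity) (by positivity)]
        nlinarith
      linarith
  rcases n with _ | n
  · simp [g]
  · have := key n
    have : (0 : ℝ) ≤ 1 / ((n : ℝ) + 1) := by positivity
    linarith

end Pool.Agent.H61.PercA
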