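import Pool.Agent.H61.PercA

set_option autoImplicit false
open MeasureTheory

namespace Pool.Agent.H61.PercB
open Pool.Agent.H61.PercA

variable {r : ℕ}

abbrev V (r : ℕ) : Type := Fin (r + 1) → ℤ

def l1 (x y : V r) : ℤ := ∑ i, |x i - y i|

def cone (T s : ℤ) (x : V r) : Prop :=
  T ≤ s * x 0 ∧ ∀ i : Fin r, 0 ≤ x i.succ ∧ x i.succ ≤ s * x 0 - T

def st (s : ℤ) (ε : Fin r → Bool) : V r := Fin.cons s fun i => bit (ε i)

def dv (d : Fin (r + 1) × Bool) : V r := Pi.single d.1 (if d.2 then 1 else -1)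

def G (r : ℕ) (T : ℤ) : SimpleGraph (V r) := SimpleGraph.fromRel fun x y =>
  (∃ d, y = x + dv d) ∨ ∃ s, (s = 1 ∨ s = -1) ∧ cone T s x ∧ ∃ ε, y = x + st s ε

@[simp] theorem st_zero (s : ℤ) (ε : Fin r → Bool) : st s ε 0 = s := rfl
@[simp] theorem st_succ (s : ℤ) (ε : Fin r → Bool) (i : Fin r) : st s ε i.succ = bit (ε i) := rfl

theorem bit_le (e : Bool) : 0 ≤ bit e ∧ bit e ≤ 1 := by cases e <;> simp [bit]

theorem cone_step {T s : ℤ} (hs : s = 1 ∨ s = -1) {x : V r} (h : cone T s x) (ε : Fin r → Bool) :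
    cone T s (x + st s ε) := by
  have h1 : s * (x + st s ε) 0 = s * x 0 + 1 := by
    rcases hs with rfl | rfl <;> simp; ring
  refine ⟨by rw [h1]; linarith [h.1], fun i => ?_⟩
  rw [h1, Pi.add_apply, st_succ]
  have := h.2 i
  have := bit_le (ε i)
  constructor <;> linarith [this.1, this.2, (h.2 i).1, (h.2 i).2]

theorem dv_abs (d : Fin (r + 1) × Bool) (i : Fin (r + 1)) : |dv d i| ≤ 1 := by
  unfold dv
  rw [Pi.single_apply]
  split_ifs <;> simp

theorem st_abs {s : ℤ} (hs : s = 1 ∨ s = -1) (ε : Fin r → Bool) (i : Fin (r + 1)) :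
    |st s ε i| ≤ 1 := by
  refine Fin.cases ?_ (fun i => ?_) i
  · rcases hs with rfl | rfl <;> simp
  · rw [st_succ, abs_of_nonneg (bit_le _).1]; exact (bit_le _).2

theorem adj_abs {T : ℤ} {x y : V r} (h : (G r T).Adj x y) (i : Fin (r + 1)) : |x i - y i| ≤ 1 := by
  have key : ∀ x y : V r, ((∃ d, y = x + dv d) ∨
      ∃ s, (s = 1 ∨ s = -1) ∧ cone T s x ∧ ∃ ε, y = x + st s ε) → |x i - y i| ≤ 1 := by
    rintro x y (⟨d, rfl⟩ | ⟨s, hs, -, ε, rfl⟩)
    · simpa using dv_abs d i
    · simpa using st_abs hs ε i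
  rcases ((SimpleGraph.fromRel_adj _ _ _).1 h).2 with h | h
  · exact key _ _ h
  · rw [abs_sub_comm]; exact key _ _ h

theorem degree_le (T : ℤ) (v : V r) :
    ((G r T).neighborSet v).encard ≤ ((3 ^ (r + 1) : ℕ) : ℕ∞) := by
  have hsub : (G r T).neighborSet v ⊆
      ↑(Fintype.piFinset fun i => Finset.Icc (v i - 1) (v i + 1)) := by
    intro y hy
    rw [Finset.mem_coe, Fintype.mem_piFinset]
    intro i
    have := abs_le.1 (adj_abs hy i)
    rw [Finset.mem_Icc]; constructor <;> linarith [this.1, this.2]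
  refine (Set.encard_le_encard hsub).trans ?_
  rw [Set.encard_coe_eq_coe_finsetCard, Fintype.card_piFinset]
  have : ∀ i, (Finset.Icc (v i - 1) (v i + 1)).card = 3 := fun i => by
    rw [Int.card_Icc]; omega
  simp [this]

theorem dv_ne (x : V r) (d : Fin (r + 1) × Bool) : x ≠ x + dv d := by
  intro h
  have := congrFun h d.1
  simp only [dv, Pi.add_apply, Pi.single_eq_same] at this
  split_ifs at this <;> omega

theorem adj_dv (T : ℤ) (x : V r) (d : Fin (r + 1) × Bool) : (G r T).Adj x (x + dv d) :=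
  (SimpleGraph.fromRel_adj _ _ _).2 ⟨dv_ne x d, Or.inl (Or.inl ⟨d, rfl⟩)⟩

theorem adj_st {T s : ℤ} (hs : s = 1 ∨ s = -1) {x : V r} (h : cone T s x) (ε : Fin r → Bool) :
    (G r T).Adj x (x + st s ε) := by
  refine (SimpleGraph.fromRel_adj _ _ _).2 ⟨fun h2 => ?_, Or.inl (Or.inr ⟨s, hs, h, ε, rfl⟩)⟩
  have := congrFun h2 0
  simp only [Pi.add_apply, st_zero] at this
  omega

theorem exists_walk (T : ℤ) (n : ℕ) : ∀ x y : V r, l1 x y = n →
    ∃ w : (G r T).Walk x y, w.length = n := by
  induction n with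
  | zero =>
    intro x y h
    have : x = y := by
      funext i
      have := (Finset.sum_eq_zero_iff_of_nonneg fun i _ => abs_nonneg (x i - y i)).1 h i
        (Finset.mem_univ i)
      exact sub_eq_zero.1 (abs_eq_zero.1 this)
    subst this
    exact ⟨SimpleGraph.Walk.nil, rfl⟩
  | succ n ih =>
    intro x y h
    obtain ⟨i, hi⟩ : ∃ i, x i ≠ y i := by
      by_contra hno
      push Not at hno
      simp [l1, hno] at h
      omega
    let d : Fin (r + 1) × Bool := (i, decide (x i < y i))
    have h2 : l1 (x + dv d) y = n := by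
      unfold l1 at h ⊢
      rw [← Finset.add_sum_erase _ _ (Finset.mem_univ i)] at h ⊢
      have e1 : ∑ j ∈ Finset.univ.erase i, |(x + dv d) j - y j| =
          ∑ j ∈ Finset.univ.erase i, |x j - y j| := by
        refine Finset.sum_congr rfl fun j hj => ?_
        simp [dv, d, Pi.single_eq_of_ne (Finset.ne_of_mem_erase hj)]
      rw [e1]
      have e2 : |(x + dv d) i - y i| = |x i - y i| - 1 := by
        simp only [dv, d, Pi.add_apply, Pi.single_eq_same, decide_eq_true_eq]
        split_ifs with h3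
        · rw [abs_of_nonpos (by omega), abs_of_nonpos (by omega)]; ring
        · rw [abs_of_nonneg (by omega), abs_of_nonneg (by omega)]; ring
      rw [e2]
      push_cast at h
      linarith
    obtain ⟨w, hw⟩ := ih _ _ h2
    exact ⟨SimpleGraph.Walk.cons (adj_dv T x d) w, by simp [hw]⟩

theorem l1_nonneg (x y : V r) : 0 ≤ l1 x y := Finset.sum_nonneg fun _ _ => abs_nonneg _

theorem connected (T : ℤ) : (G r T).Connected := by
  refine ⟨fun x y => ?_⟩
  obtain ⟨w, -⟩ := exists_walk T (l1 x y).toNat x y (Int.toNat_of_nonneg (l1_nonneg x y)).symm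
  exact ⟨w⟩

theorem dist_le (T : ℤ) (x y : V r) : ((G r T).dist x y : ℤ) ≤ l1 x y := by
  obtain ⟨w, hw⟩ := exists_walk T (l1 x y).toNat x y (Int.toNat_of_nonneg (l1_nonneg x y)).symm
  have := SimpleGraph.dist_le w
  have := l1_nonneg x y
  omega

theorem l1_le_walk (T : ℤ) {x y : V r} (w : (G r T).Walk x y) :
    l1 x y ≤ (r + 1 : ℕ) * (w.length : ℤ) := by
  induction w with
  | nil => simp [l1]
  | @cons u v z h w ih =>
    have h1 : l1 u z ≤ l1 u v + l1 v z := by
      unfold l1
      rw [← Finset.sum_add_distrib]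
      exact Finset.sum_le_sum fun i _ => abs_sub_le _ _ _
    have h2 : l1 u v ≤ (r + 1 : ℕ) := by
      calc l1 u v ≤ ∑ _i : Fin (r + 1), (1 : ℤ) := Finset.sum_le_sum fun i _ => adj_abs h i
        _ = (r + 1 : ℕ) := by simp
    rw [SimpleGraph.Walk.length_cons]
    push_cast at ih h2 ⊢
    linarith

theorem l1_le_dist (T : ℤ) (x y : V r) : l1 x y ≤ (r + 1 : ℕ) * ((G r T).dist x y : ℤ) := by
  obtain ⟨w, hw⟩ := (connected T).exists_walk_length_eq_dist x y
  rw [← hw]; exact l1_le_walk T w

/-! Oriented paths inside a cone. -/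

def E (s : ℤ) : (n : ℕ) → V r → (Fin n → Fin r → Bool) → Finset (Sym2 (V r))
  | 0, _, _ => ∅
  | n + 1, x, l => insert s(x, x + st s (l 0)) (E s n (x + st s (l 0)) (Fin.tail l))

theorem E_level {s : ℤ} (hs : s = 1 ∨ s = -1) (n : ℕ) : ∀ (x : V r) (l : Fin n → Fin r → Bool),
    ∀ e ∈ E s n x l, ∀ y ∈ e, s * x 0 ≤ s * y 0 := by
  induction n with
  | zero => intro x l e he; simp [E] at he
  | succ n ih =>
    intro x l e he y hy
    have h1 : s * (x + st s (l 0)) 0 = s * x 0 + 1 := by
      rcases hs with rfl | rfl <;> simp; ring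
    rcases Finset.mem_insert.1 he with rfl | he
    · rcases Sym2.mem_iff.1 hy with rfl | rfl
      · exact le_rfl
      · omega
    · have := ih _ _ e he y hy
      omega

theorem notMem_E {s : ℤ} (hs : s = 1 ∨ s = -1) (n : ℕ) (x x' y : V r) (h : x 0 = x' 0)
    (ε : Fin r → Bool) (l : Fin n → Fin r → Bool) : s(x, y) ∉ E s n (x' + st s ε) l := by
  intro he
  have := E_level hs n _ _ _ he x (Sym2.mem_mk_left _ _)
  have h1 : s * (x' + st s ε) 0 = s * x' 0 + 1 := by
    rcases hs with rfl | rfl <;> simp; ring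
  rw [h1, h] at this
  omega

theorem E_card {s : ℤ} (hs : s = 1 ∨ s = -1) (n : ℕ) : ∀ (x : V r) (l : Fin n → Fin r → Bool),
    (E s n x l).card = n := by
  induction n with
  | zero => intro x l; rfl
  | succ n ih =>
    intro x l
    rw [E, Finset.card_insert_of_notMem (notMem_E hs n x x _ rfl _ _), ih]

theorem E_edge {T s : ℤ} (hs : s = 1 ∨ s = -1) (n : ℕ) : ∀ (x : V r) (l : Fin n → Fin r → Bool),
    cone T s x → ∀ e ∈ E s n x l, e ∈ (G r T).edgeSet := by
  induction n with
  | zero => intro x l _ e he; simp [E] at he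
  | succ n ih =>
    intro x l hx e he
    rcases Finset.mem_insert.1 he with rfl | he
    · exact adj_st hs hx _
    · exact ih _ _ (cone_step hs hx _) e he

theorem sum_succ {α : Type} [Fintype α] (n : ℕ) (f : (Fin (n + 1) → α) → ℝ) :
    ∑ l, f l = ∑ a : α, ∑ l : Fin n → α, f (Fin.cons a l) := by
  rw [← (Fin.consEquiv fun _ => α).sum_comp, Fintype.sum_prod_type]
  rfl

theorem M_le {s : ℤ} (hs : s = 1 ∨ s = -1) (hr : r = 12) (n : ℕ) : ∀ x x' : V r, x 0 = x' 0 →
    ∑ l, ∑ l', (1 / 52 : ℝ) ^ (E s n x l ∪ E s n x' l').card ≤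
      ((2 ^ r) ^ n * (1 / 52) ^ n) ^ 2 * (1 + 1 / 50 * g n fun i => x i.succ - x' i.succ) := by
  induction n with
  | zero => intro x x' _; simp [E, g]
  | succ n ih =>
    intro x x' h
    set z : Fin r → ℤ := fun i => x i.succ - x' i.succ with hz
    set m : ℝ := ((2 ^ r) ^ n * (1 / 52) ^ n) ^ 2 with hm
    have hm0 : 0 ≤ m := by positivity
    have step : ∀ ε ε' : Fin r → Bool,
        ∑ l : Fin n → Fin r → Bool, ∑ l' : Fin n → Fin r → Bool,
          (1 / 52 : ℝ) ^ (E s (n + 1) x (Fin.cons ε l) ∪ E s (n + 1) x' (Fin.cons ε' l')).card ≤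
        (1 / 52) ^ 2 * m * ((1 + 1 / 50 * g n fun i => z i + bit (ε i) - bit (ε' i)) +
          if ε' = ε then (if x = x' then 51 * (1 + 1 / 50 * 2) else 0) else 0) := by
      intro ε ε'
      have h1 := ih (x + st s ε) (x' + st s ε') (by simp [h])
      have e1 : (fun i : Fin r => (x + st s ε) i.succ - (x' + st s ε') i.succ) =
          fun i => z i + bit (ε i) - bit (ε' i) := by
        funext i; simp only [hz, Pi.add_apply, st_succ]; ring
      rw [e1] at h1
      have hn1 : ∀ l l', s(x, x + st s ε) ∉ E s n (x + st s ε) l ∪ E s n (x' + st s ε') l' :=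
        fun l l' h2 => (Finset.mem_union.1 h2).elim (notMem_E hs n x x _ rfl _ _)
          (notMem_E hs n x x' _ h _ _)
      have hn2 : ∀ l l', s(x', x' + st s ε') ∉ E s n (x + st s ε) l ∪ E s n (x' + st s ε') l' :=
        fun l l' h2 => (Finset.mem_union.1 h2).elim (notMem_E hs n x' x _ h.symm _ _)
          (notMem_E hs n x' x' _ rfl _ _)
      simp only [E, Fin.cons_zero, Fin.tail_cons, Finset.insert_union, Finset.union_insert]
      by_cases he : s(x', x' + st s ε') = s(x, x + st s ε)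
      · have hx : x = x' ∧ ε' = ε := by
          rcases Sym2.eq_iff.1 he with ⟨h2, h3⟩ | ⟨h2, h3⟩
          · refine ⟨h2.symm, ?_⟩
            rw [h2, add_left_cancel_iff] at h3
            funext i
            have := congrFun h3 i.succ
            simp only [st_succ, bit] at this
            cases h4 : ε i <;> cases h5 : ε' i <;> simp_all
          · have := congrFun h2 0
            simp only [Pi.add_apply, st_zero] at this
            omega
        obtain ⟨rfl, rfl⟩ := hx
        simp only [Finset.insert_idem, Finset.card_insert_of_notMem (hn1 _ _), pow_succ,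
          ← Finset.sum_mul, if_true]
        have e2 : (fun i => z i + bit (ε' i) - bit (ε' i)) = 0 := by
          funext i; simp [hz]
        rw [e2] at h1 ⊢
        have h3 := g_le (r := r) (by omega) n
        nlinarith
      · have hc : ∀ l l', (insert s(x', x' + st s ε') (insert s(x, x + st s ε)
            (E s n (x + st s ε) l ∪ E s n (x' + st s ε') l'))).card =
            (E s n (x + st s ε) l ∪ E s n (x' + st s ε') l').card + 2 := by
          intro l l'
          rw [Finset.card_insert_of_notMem, Finset.card_insert_of_notMem (hn1 l l')]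
          rw [Finset.mem_insert, not_or]
          exact ⟨he, hn2 l l'⟩
        simp only [hc, pow_add, ← Finset.sum_mul]
        have h3 : (0 : ℝ) ≤ if ε' = ε then (if x = x' then 51 * (1 + 1 / 50 * 2) else 0) else 0 := by
          split_ifs <;> norm_num
        nlinarith [mul_nonneg hm0 h3]
    rw [sum_succ]
    simp only [sum_succ n (fun l' => (1 / 52 : ℝ) ^ (E s (n + 1) x _ ∪ E s (n + 1) x' l').card)]
    simp only [Finset.sum_comm (γ := Fin n → Fin r → Bool) (α := Fin r → Bool)]
    refine (Finset.sum_le_sum fun ε _ => Finset.sum_le_sum fun ε' _ => step ε ε').trans ?_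
    simp only [← Finset.mul_sum, Finset.sum_add_distrib, Finset.sum_ite_eq', Finset.mem_univ,
      if_true, Finset.sum_const, Finset.card_univ, Fintype.card_fun, Fintype.card_bool,
      Fintype.card_fin, nsmul_eq_mul, g_succ]
    push_cast
    have h4 : ((2 : ℝ) ^ r) * (if x = x' then 51 * (1 + 1 / 50 * 2) else 0) ≤
        1 / 50 * ((2 ^ r) ^ 2 * a 0 z) := by
      split_ifs with h5
      · have : z = 0 := by funext i; simp [hz, h5]
        rw [this, a_zero_zero, hr]; norm_num
      · have := a_nonneg 0 z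
        rw [mul_zero]; positivity
    have h5 : (((2 : ℝ) ^ r) ^ (n + 1) * (1 / 52) ^ (n + 1)) ^ 2 =
        (1 / 52) ^ 2 * m * (2 ^ r) ^ 2 := by rw [hm]; ring
    rw [h5, mul_assoc ((1 / 52) ^ 2 * m)]
    gcongr
    nlinarith

end Pool.Agent.H61.PercB
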