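import Pool.Agent.H61.PercB

set_option autoImplicit false
open MeasureTheory Filter Topology

namespace Pool.Agent.H61.PercC
open Pool.Agent.H61.PercA Pool.Agent.H61.PercB

variable {r : ℕ}

noncomputable def p0 : NNReal := 1 / 52

theorem p0_le : p0 ≤ 1 := by
  rw [p0, div_le_one (by norm_num)]; norm_num

theorem p0_coe : (p0 : ℝ) = 1 / 52 := by simp [p0]

/-- The graph of open edges. -/
abbrev H (T : ℤ) (ω : (G r T).edgeSet → Bool) : SimpleGraph (V r) :=
  SimpleGraph.fromEdgeSet {e : Sym2 (V r) | ∃ h : e ∈ (G r T).edgeSet, ω ⟨e, h⟩ = true}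

def apex (T s : ℤ) : V r := Fin.cons (s * T) fun _ => 0

theorem cone_apex {T s : ℤ} (hs : s = 1 ∨ s = -1) : cone T s (apex T s : V r) := by
  rcases hs with rfl | rfl <;> simp [cone, apex]

def U (r : ℕ) (T s : ℤ) (n : ℕ) : Set ((G r T).edgeSet → Bool) :=
  ⋃ l, Op (G r T) (E s n (apex T s) l)

theorem prob_U {T s : ℤ} (hs : s = 1 ∨ s = -1) (hr : r = 12) (n : ℕ) :
    Pm (G r T) p0 p0_le (U r T s n)ᶜ ≤ ENNReal.ofReal (1 / 25) := by
  have h1 := second_moment (G r T) p0 p0_le (fun l => E s n (apex T s) l)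
    (fun l => E_edge hs n _ l (cone_apex hs)) n (fun l => E_card hs n _ l) (1 + 1 / 50 * 2)
    (by
      have h2 := M_le hs hr n (apex T s) (apex T s) rfl
      have e : (fun i : Fin r => (apex T s : V r) i.succ - (apex T s : V r) i.succ) = 0 := by
        funext i; simp
      rw [e] at h2
      have h3 := g_le (r := r) (by omega) n
      rw [p0_coe]
      refine h2.trans ?_
      simp only [Fintype.card_fun, Fintype.card_bool, Fintype.card_fin]
      push_cast
      gcongr)
    (by rw [p0_coe]; have : 0 < Fintype.card (Fin n → Fin r → Bool) := Fintype.card_pos; positivity)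
  have hm : MeasurableSet (U r T s n) := MeasurableSet.iUnion fun l => meas_Op _ _
  rw [← ENNReal.ofReal_toReal (measure_ne_top _ _), ← measureReal_def, measureReal_compl hm]
  apply ENNReal.ofReal_le_ofReal
  simp only [probReal_univ]
  unfold U
  linarith

theorem E_pred (s : ℤ) (n : ℕ) : ∀ (x : V r) (l : Fin (n + 1) → Fin r → Bool),
    ∃ l' : Fin n → Fin r → Bool, E s n x l' ⊆ E s (n + 1) x l := by
  induction n with
  | zero => intro x l; exact ⟨fun i => i.elim0, by simp [E]⟩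
  | succ n ih =>
    intro x l
    obtain ⟨l', h⟩ := ih (x + st s (l 0)) (Fin.tail l)
    refine ⟨Fin.cons (l 0) l', ?_⟩
    rw [E, E, Fin.cons_zero, Fin.tail_cons]
    exact Finset.insert_subset_insert _ h

theorem prob_U_all {T s : ℤ} (hs : s = 1 ∨ s = -1) (hr : r = 12) :
    Pm (G r T) p0 p0_le (⋃ n, (U r T s n)ᶜ) ≤ ENNReal.ofReal (1 / 25) := by
  have hmono : Monotone fun n => (U r T s n)ᶜ := by
    refine monotone_nat_of_le_succ fun n => Set.compl_subset_compl.2 fun ω hω => ?_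
    obtain ⟨l, hl⟩ := Set.mem_iUnion.1 hω
    obtain ⟨l', h⟩ := E_pred s n _ l
    exact Set.mem_iUnion.2 ⟨l', fun e he => hl e (h he)⟩
  rw [hmono.measure_iUnion]
  exact iSup_le fun n => prob_U hs hr n

theorem reach {T s : ℤ} (hs : s = 1 ∨ s = -1) (ω : (G r T).edgeSet → Bool) (n : ℕ) :
    ∀ (x : V r) (l : Fin n → Fin r → Bool), ω ∈ Op (G r T) (E s n x l) →
      ∃ y, (H T ω).Reachable x y ∧ s * y 0 = s * x 0 + n := by
  induction n with
  | zero => intro x l _; exact ⟨x, SimpleGraph.Reachable.refl _, by simp⟩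
  | succ n ih =>
    intro x l h
    obtain ⟨y, h1, h2⟩ := ih (x + st s (l 0)) (Fin.tail l)
      fun e he => h e (Finset.mem_insert_of_mem he)
    have h3 : s * (x + st s (l 0)) 0 = s * x 0 + 1 := by
      rcases hs with rfl | rfl <;> simp; ring
    have h4 : (H T ω).Adj x (x + st s (l 0)) := by
      rw [SimpleGraph.fromEdgeSet_adj]
      refine ⟨h _ (Finset.mem_insert_self _ _), fun h5 => ?_⟩
      rw [← h5] at h3; omega
    refine ⟨y, h4.reachable.trans h1, ?_⟩
    rw [h2, h3]; push_cast; ring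

theorem infinite_cluster {T s : ℤ} (hs : s = 1 ∨ s = -1) (ω : (G r T).edgeSet → Bool)
    (h : ∀ n, ω ∈ U r T s n) : ((H T ω).connectedComponentMk (apex T s)).supp.Infinite := by
  intro hfin
  obtain ⟨M, hM⟩ := (hfin.image fun y => s * y 0).bddAbove
  obtain ⟨l, hl⟩ := Set.mem_iUnion.1 (h (M - s * (apex T s : V r) 0 + 1).toNat)
  obtain ⟨y, h1, h2⟩ := reach hs ω _ _ l hl
  have h3 : s * y 0 ≤ M := hM ⟨y, by
    rw [SimpleGraph.ConnectedComponent.mem_supp_iff, SimpleGraph.ConnectedComponent.eq]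
    exact h1.symm, rfl⟩
  omega

/-! Nearest neighbour trails crossing the barrier. -/

def E' : (n : ℕ) → V r → (Fin n → Fin (r + 1) × Bool) → Finset (Sym2 (V r))
  | 0, _, _ => ∅
  | n + 1, x, l => insert s(x, x + dv (l 0)) (E' n (x + dv (l 0)) (Fin.tail l))

theorem E'_card (n : ℕ) : ∀ (x : V r) (l : Fin n → Fin (r + 1) × Bool), (E' n x l).card ≤ n := by
  induction n with
  | zero => intro x l; simp [E']
  | succ n ih => intro x l; exact (Finset.card_insert_le _ _).trans (by simpa using ih _ _)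

def Good (n : ℕ) (x : V r) (S : Finset (Sym2 (V r))) : Prop :=
  ∃ l : Fin n → Fin (r + 1) × Bool, E' n x l ⊆ S ∧ (E' n x l).card = n

theorem good_zero (x : V r) (S : Finset (Sym2 (V r))) : Good 0 x S :=
  ⟨fun i => i.elim0, by simp [E'], rfl⟩

theorem good_cons {n : ℕ} {x : V r} {S : Finset (Sym2 (V r))} (d : Fin (r + 1) × Bool)
    (h : Good n (x + dv d) S) (hn : s(x, x + dv d) ∉ S) :
    Good (n + 1) x (insert s(x, x + dv d) S) := by
  obtain ⟨l, h1, h2⟩ := h
  refine ⟨Fin.cons d l, ?_, ?_⟩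
  · rw [E', Fin.cons_zero, Fin.tail_cons]; exact Finset.insert_subset_insert _ h1
  · rw [E', Fin.cons_zero, Fin.tail_cons, Finset.card_insert_of_notMem fun h3 => hn (h1 h3), h2]

theorem E'_pred (n : ℕ) : ∀ (x : V r) (l : Fin (n + 1) → Fin (r + 1) × Bool),
    (E' (n + 1) x l).card = n + 1 →
    ∃ l' : Fin n → Fin (r + 1) × Bool, E' n x l' ⊆ E' (n + 1) x l ∧ (E' n x l').card = n := by
  induction n with
  | zero => intro x l _; exact ⟨fun i => i.elim0, by simp [E'], rfl⟩
  | succ n ih =>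
    intro x l h
    have h1 := E'_card (n + 1) (x + dv (l 0)) (Fin.tail l)
    have h2 : s(x, x + dv (l 0)) ∉ E' (n + 1) (x + dv (l 0)) (Fin.tail l) := by
      intro h3
      rw [E', Finset.insert_eq_of_mem h3] at h
      omega
    rw [E', Finset.card_insert_of_notMem h2] at h
    obtain ⟨l', h3, h4⟩ := ih (x + dv (l 0)) (Fin.tail l) (by omega)
    refine ⟨Fin.cons (l 0) l', ?_, ?_⟩
    · rw [E', E', Fin.cons_zero, Fin.tail_cons]
      exact Finset.insert_subset_insert _ h3
    · rw [E', Fin.cons_zero, Fin.tail_cons, Finset.card_insert_of_notMem fun h5 => h2 (h3 h5), h4]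

theorem good_mono {m n : ℕ} (h : m ≤ n) {x : V r} {S : Finset (Sym2 (V r))} (hg : Good n x S) :
    Good m x S := by
  induction h with
  | refl => exact hg
  | step _ ih =>
    obtain ⟨l, h1, h2⟩ := hg
    obtain ⟨l', h3, h4⟩ := E'_pred _ x l h2
    exact ih ⟨l', h3.trans h1, h4⟩

theorem cross {T : ℤ} (ω : (G r T).edgeSet → Bool) {u v : V r} (w : (H T ω).Walk u v)
    (hw : w.IsTrail) (hv : cone T (-1) v) :
    (∃ x, cone T 1 x ∧ ∃ S, ω ∈ Op (G r T) S ∧ Good (x 0 + T).toNat x S) ∨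
      Good (u 0 + T).toNat u w.edges.toFinset := by
  have h0 : ∀ (u : V r) S, cone T (-1) u → Good (u 0 + T).toNat u S := by
    intro u S hu
    have : (u 0 + T).toNat = 0 := by have := hu.1; omega
    rw [this]; exact good_zero _ _
  induction w with
  | nil => exact Or.inr (h0 _ _ hv)
  | @cons u u' v h w ih =>
    rw [SimpleGraph.Walk.isTrail_cons] at hw
    rcases ih hw.1 hv with h1 | h1
    · exact Or.inl h1
    by_cases h2 : cone T 1 u'
    · refine Or.inl ⟨u', h2, _, fun e he => ?_, h1⟩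
      have := w.edges_subset_edgeSet (List.mem_toFinset.1 he)
      rw [SimpleGraph.edgeSet_fromEdgeSet] at this
      exact this.1
    by_cases h3 : cone T (-1) u
    · exact Or.inr (h0 _ _ h3)
    have hG : (G r T).Adj u u' := ((SimpleGraph.fromEdgeSet_adj _).1 h).1.1
    obtain ⟨d, rfl⟩ : ∃ d, u' = u + dv d := by
      rcases ((SimpleGraph.fromRel_adj _ _ _).1 hG).2 with (h4 | ⟨s, hs, h4, ε, rfl⟩) |
        (⟨d, rfl⟩ | ⟨s, hs, h4, ε, rfl⟩)
      · exact h4
      · rcases hs with rfl | rfl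
        · exact absurd (cone_step (Or.inl rfl) h4 ε) h2
        · exact absurd h4 h3
      · refine ⟨(d.1, !d.2), ?_⟩
        rw [add_assoc, dv, dv, ← Pi.single_add]
        cases d.2 <;> simp
      · rcases hs with rfl | rfl
        · exact absurd h4 h2
        · exact absurd (cone_step (Or.inr rfl) h4 ε) h3
    right
    rw [SimpleGraph.Walk.edges_cons, List.toFinset_cons]
    refine good_mono ?_ (good_cons d h1 (by simpa using hw.2))
    have := abs_le.1 (adj_abs hG 0)
    omega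

def B (r : ℕ) (T : ℕ) : Set ((G r T).edgeSet → Bool) :=
  ⋃ k : ℕ, ⋃ y ∈ Fintype.piFinset (fun _ : Fin r => Finset.Icc (0 : ℤ) k),
    ⋃ l ∈ Finset.univ.filter (fun l : Fin (k + 2 * T) → Fin (r + 1) × Bool =>
      (E' (k + 2 * T) (Fin.cons (T + k) y) l).card = k + 2 * T),
      Op (G r T) (E' (k + 2 * T) (Fin.cons (T + k) y) l)

theorem mem_B {T : ℕ} (ω : (G r T).edgeSet → Bool)
    (h : (H T ω).Reachable (apex T 1) (apex T (-1))) : ω ∈ B r T := by
  obtain ⟨w⟩ := h
  obtain ⟨x, hx, S, hS, hg⟩ : ∃ x, cone T 1 x ∧ ∃ S, ω ∈ Op (G r T) S ∧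
      Good (x 0 + T).toNat x S := by
    rcases cross ω w.bypass w.bypass_isPath.isTrail (cone_apex (Or.inr rfl)) with h1 | h1
    · exact h1
    · refine ⟨_, cone_apex (Or.inl rfl), _, fun e he => ?_, h1⟩
      have := w.bypass.edges_subset_edgeSet (List.mem_toFinset.1 he)
      rw [SimpleGraph.edgeSet_fromEdgeSet] at this
      exact this.1
  obtain ⟨k, hk⟩ : ∃ k : ℕ, x 0 = T + k := ⟨(x 0 - T).toNat, by have := hx.1; omega⟩
  have e1 : (x 0 + T).toNat = k + 2 * T := by omega
  have e2 : x = (Fin.cons ((T : ℤ) + (k : ℤ)) (Fin.tail x) : V r) := by rw [← hk, Fin.cons_self_tail]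
  rw [e1] at hg
  obtain ⟨l, h1, h2⟩ := hg
  simp only [B, Set.mem_iUnion]
  refine ⟨k, Fin.tail x, ?_, l, ?_, ?_⟩
  · rw [Fintype.mem_piFinset]
    intro i
    have := hx.2 i
    rw [Finset.mem_Icc, Fin.tail]
    constructor <;> omega
  · rw [← e2]; simpa using h2
  · rw [← e2]; exact fun e he => hS e (h1 he)

theorem prob_B (hr : r = 12) : ∃ T : ℕ, Pm (G r T) p0 p0_le (B r T) ≤ ENNReal.ofReal (1 / 10) := by
  have hsum : Summable fun k : ℕ => ((k : ℝ) + 1) ^ r * (1 / 2) ^ k := by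
    have h1 := summable_pow_mul_geometric_of_norm_lt_one (R := ℝ) r (r := 1 / 2) (by norm_num)
    have h2 := ((summable_nat_add_iff 1).2 h1).mul_left 2
    refine h2.congr fun k => ?_
    push_cast; ring
  set M := ∑' k : ℕ, ((k : ℝ) + 1) ^ r * (1 / 2) ^ k with hM
  have hlim : Tendsto (fun T : ℕ => M * (1 / 4 : ℝ) ^ T) atTop (𝓝 (M * 0)) :=
    (tendsto_pow_atTop_nhds_zero_of_lt_one (by norm_num) (by norm_num)).const_mul _
  rw [mul_zero] at hlim
  obtain ⟨T, hT⟩ := (hlim.eventually (gt_mem_nhds (show (0 : ℝ) < 1 / 10 by norm_num))).exists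
  refine ⟨T, (measure_iUnion_le _).trans ?_⟩
  have key : ∀ k : ℕ, Pm (G r T) p0 p0_le
      (⋃ y ∈ Fintype.piFinset (fun _ : Fin r => Finset.Icc (0 : ℤ) k),
        ⋃ l ∈ Finset.univ.filter (fun l : Fin (k + 2 * T) → Fin (r + 1) × Bool =>
          (E' (k + 2 * T) (Fin.cons (T + k) y) l).card = k + 2 * T),
          Op (G r T) (E' (k + 2 * T) (Fin.cons (T + k) y) l)) ≤
      ENNReal.ofReal (((k : ℝ) + 1) ^ r * (1 / 2) ^ k * (1 / 4) ^ T) := by
    intro k
    rw [← ENNReal.ofReal_toReal (measure_ne_top _ _), ← measureReal_def]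
    apply ENNReal.ofReal_le_ofReal
    refine (measureReal_biUnion_finset_le _ _).trans ?_
    have h1 : ∀ y : Fin r → ℤ, (Pm (G r T) p0 p0_le).real
        (⋃ l ∈ Finset.univ.filter (fun l : Fin (k + 2 * T) → Fin (r + 1) × Bool =>
          (E' (k + 2 * T) (Fin.cons (T + k) y) l).card = k + 2 * T),
          Op (G r T) (E' (k + 2 * T) (Fin.cons (T + k) y) l)) ≤ (1 / 2) ^ (k + 2 * T) := by
      intro y
      refine (measureReal_biUnion_finset_le _ _).trans ?_
      refine (Finset.sum_le_card_nsmul _ _ ((1 / 52 : ℝ) ^ (k + 2 * T)) fun l hl => ?_).trans ?_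
      · have := prob_Op_le (G r T) p0 p0_le (E' (k + 2 * T) (Fin.cons (T + k) y) l)
        rwa [(Finset.mem_filter.1 hl).2, p0_coe] at this
      · have h2 := Finset.card_filter_le (Finset.univ : Finset (Fin (k + 2 * T) →
          Fin (r + 1) × Bool)) (fun l => (E' (k + 2 * T) (Fin.cons (T + k) y) l).card = k + 2 * T)
        rw [Finset.card_univ, Fintype.card_fun, Fintype.card_prod, Fintype.card_fin,
          Fintype.card_fin, Fintype.card_bool] at h2
        rw [nsmul_eq_mul]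
        calc _ ≤ ((((r + 1) * 2) ^ (k + 2 * T) : ℕ) : ℝ) * (1 / 52) ^ (k + 2 * T) := by
              gcongr
          _ = (1 / 2) ^ (k + 2 * T) := by
              rw [hr]; push_cast; rw [← mul_pow]; norm_num
    refine (Finset.sum_le_card_nsmul _ _ _ fun y _ => h1 y).trans (le_of_eq ?_)
    rw [Fintype.card_piFinset, Finset.prod_const, Int.card_Icc, Finset.card_univ, Fintype.card_fin,
      nsmul_eq_mul, show ((k : ℤ) + 1 - 0).toNat = k + 1 by omega, pow_add, pow_mul]
    push_cast; ring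
  refine (ENNReal.tsum_le_tsum key).trans ?_
  rw [← ENNReal.ofReal_tsum_of_nonneg (fun k => by positivity) (hsum.mul_right _), tsum_mul_right]
  exact ENNReal.ofReal_le_ofReal hT.le

theorem main (hr : r = 12) : ∃ T : ℤ, ¬ ∀ᵐ ω ∂(Pm (G r T) p0 p0_le),
    ∀ c₁ c₂ : (H T ω).ConnectedComponent, c₁.supp.Infinite → c₂.supp.Infinite → c₁ = c₂ := by
  obtain ⟨T, hT⟩ := prob_B hr
  refine ⟨T, fun h => ?_⟩
  rw [ae_iff] at h
  have h1 := prob_U_all (T := T) (Or.inl rfl) hr
  have h2 := prob_U_all (T := T) (Or.inr rfl) hr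
  have hsub : (Set.univ : Set ((G r T).edgeSet → Bool)) ⊆
      {ω | ¬ ∀ c₁ c₂ : (H T ω).ConnectedComponent, c₁.supp.Infinite → c₂.supp.Infinite → c₁ = c₂} ∪
      (((⋃ n, (U r T 1 n)ᶜ) ∪ ⋃ n, (U r T (-1) n)ᶜ) ∪ B r T) := by
    intro ω _
    by_contra hno
    simp only [Set.mem_union, Set.mem_ofPred_eq, Set.mem_iUnion, Set.mem_compl_iff, not_or,
      not_not, not_exists] at hno
    obtain ⟨a1, ⟨a2, a3⟩, a4⟩ := hno
    have := a1 _ _ (infinite_cluster (Or.inl rfl) ω a2) (infinite_cluster (Or.inr rfl) ω a3)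
    exact a4 (mem_B ω (SimpleGraph.ConnectedComponent.exact this))
  have h3 := (measure_mono hsub).trans ((measure_union_le (μ := Pm (G r T) p0 p0_le) _ _).trans
    (add_le_add h.le ((measure_union_le _ _).trans
      (add_le_add ((measure_union_le _ _).trans (add_le_add h1 h2)) hT))))
  rw [measure_univ, zero_add, ← ENNReal.ofReal_add (by norm_num) (by norm_num),
    ← ENNReal.ofReal_add (by norm_num) (by norm_num), ← ENNReal.ofReal_one,
    ENNReal.ofReal_le_ofReal_iff (by norm_num)] at h3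
  norm_num at h3

end Pool.Agent.H61.PercC
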