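import Pool.Agent.H61.PfA

set_option autoImplicit false

namespace Pool.Agent.H61.PfB

open Finset Filter Topology Pool.Agent.H61.PfA
open scoped ContDiff

lemma smooth_fd {f : ℝ → ℝ} (hf : ContDiff ℝ ∞ f) (e : ℝ) (k : ℕ) :
    ContDiff ℝ ∞ ((fwdDiff e)^[k] f) := by
  induction k with
  | zero => exact hf
  | succ k ih =>
    rw [Function.iterate_succ_apply']
    exact (ih.comp (contDiff_id.add contDiff_const)).sub ih

lemma mvt {F : ℝ → ℝ} (hF : Differentiable ℝ F) (x e : ℝ) :
    ∃ ξ, |ξ - x| ≤ |e| ∧ F (x + e) - F x = e * deriv F ξ := by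
  rcases lt_trichotomy e 0 with he | he | he
  · obtain ⟨c, hc, h⟩ := exists_deriv_eq_slope F (by linarith : x + e < x)
      hF.continuous.continuousOn hF.differentiableOn
    refine ⟨c, ?_, ?_⟩
    · rw [abs_of_neg he, abs_le]; constructor <;> linarith [hc.1, hc.2]
    · rw [h]; have : x - (x + e) = -e := by ring
      rw [this]; have := he.ne; field_simp; ring
  · exact ⟨x, by simp, by simp [he]⟩
  · obtain ⟨c, hc, h⟩ := exists_deriv_eq_slope F (by linarith : x < x + e)
      hF.continuous.continuousOn hF.differentiableOn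
    refine ⟨c, ?_, ?_⟩
    · rw [abs_of_pos he, abs_le]; constructor <;> linarith [hc.1, hc.2]
    · rw [h]; have : x + e - x = e := by ring
      rw [this]; have := he.ne'; field_simp

lemma dd {f : ℝ → ℝ} (hf : ContDiff ℝ ∞ f) (e : ℝ) (k : ℕ) : ∀ (p : ℕ) (x : ℝ),
    ∃ ξ, |ξ - x| ≤ k * |e| ∧
      iteratedDeriv p ((fwdDiff e)^[k] f) x = e ^ k * iteratedDeriv (p + k) f ξ := by
  induction k with
  | zero => intro p x; exact ⟨x, by simp, by simp⟩
  | succ k ih =>
    intro p x
    have hF := smooth_fd hf e k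
    set F := (fwdDiff e)^[k] f with hFd
    have h1 : iteratedDeriv p ((fwdDiff e)^[k + 1] f) x
        = iteratedDeriv p F (x + e) - iteratedDeriv p F x := by
      rw [Function.iterate_succ_apply', ← hFd]
      have h2 : fwdDiff e F = fun z => F (z + e) - F z := rfl
      rw [h2, iteratedDeriv_fun_sub (f := fun z => F (z + e)) (g := F)
        (((hF.comp (contDiff_id.add contDiff_const)).of_le (by exact_mod_cast le_top)).contDiffAt)
        ((hF.of_le (by exact_mod_cast le_top)).contDiffAt), iteratedDeriv_comp_add_const]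
    obtain ⟨ξ1, hξ1, h3⟩ := mvt (hF.differentiable_iteratedDeriv p
      (by exact_mod_cast ENat.natCast_lt_top p)) x e
    obtain ⟨ξ2, hξ2, h4⟩ := ih (p + 1) ξ1
    refine ⟨ξ2, ?_, ?_⟩
    · have := abs_sub_le ξ2 ξ1 x
      push_cast; linarith
    · rw [h1, h3, ← iteratedDeriv_succ, h4, show p + 1 + k = p + (k + 1) by ring]; ring

lemma confluent {n : ℕ} {h : ℝ → ℝ} (hh : ContDiff ℝ ∞ h) (z : ℝ)
    (hneg : (Matrix.of fun i j : Fin n => (-1) ^ (j : ℕ) * iteratedDeriv (i + j) h z).det < 0) :
    ∃ ε : ℝ, 0 < ε ∧ (Matrix.of fun i j : Fin n => h (z + i * ε - j * ε)).det < 0 := by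
  let Φ : (Fin n → Fin n → ℝ) → ℝ := fun ξ =>
    (Matrix.of fun i j : Fin n => (-1) ^ (j : ℕ) * iteratedDeriv (i + j) h (ξ i j)).det
  have hΦ : Continuous Φ := by
    refine Continuous.matrix_det (continuous_pi fun i => continuous_pi fun j => ?_)
    exact continuous_const.mul ((hh.continuous_iteratedDeriv (i + j)
      (by exact_mod_cast le_top)).comp (continuous_apply_apply i j))
  have hev : ∀ᶠ ξ in 𝓝 (fun _ _ : Fin n => z), Φ ξ < 0 :=
    hΦ.continuousAt.eventually (gt_mem_nhds hneg)
  obtain ⟨δ, hδ, hb⟩ := Metric.eventually_nhds_iff.1 hev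
  set ε : ℝ := δ / (2 * n + 1) with hε
  have hε0 : 0 < ε := by positivity
  have key : ∀ i j : Fin n, ∃ ξ, |ξ - z| < δ ∧
      (fwdDiff ε)^[i] ((fwdDiff (-ε))^[j] h) z
        = ε ^ (i : ℕ) * (ε ^ (j : ℕ) * ((-1) ^ (j : ℕ) * iteratedDeriv (i + j) h ξ)) := by
    intro i j
    obtain ⟨ξ1, a1, b1⟩ := dd (smooth_fd hh (-ε) j) ε i 0 z
    obtain ⟨ξ2, a2, b2⟩ := dd hh (-ε) j (0 + i) ξ1
    refine ⟨ξ2, ?_, ?_⟩
    · have := abs_sub_le ξ2 ξ1 z
      rw [abs_neg] at a2
      rw [abs_of_pos hε0] at a1 a2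
      have hi : ((i : ℕ) : ℝ) ≤ n := by exact_mod_cast i.2.le
      have hj : ((j : ℕ) : ℝ) ≤ n := by exact_mod_cast j.2.le
      have h3 : (2 * n + 1) * ε = δ := by rw [hε]; field_simp
      nlinarith
    · rw [iteratedDeriv_zero] at b1
      rw [b1, b2, zero_add, neg_pow]; ring
  choose ξ hξ hB using key
  have hΦξ : Φ ξ < 0 := hb ((dist_pi_lt_iff hδ).2 fun i => (dist_pi_lt_iff hδ).2 fun j => hξ i j)
  refine ⟨ε, hε0, ?_⟩
  let P : Matrix (Fin n) (Fin n) ℝ := Matrix.of fun i a => (-1) ^ ((i : ℕ) - a) * (i : ℕ).choose a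
  have hP : P.det = 1 := by
    have hL : P.IsLowerTriangular := fun i j hij => by
      have : (i : ℕ) < j := hij
      simp [P, Nat.choose_eq_zero_of_lt this]
    rw [Matrix.det_of_isLowerTriangular _ hL]
    exact Finset.prod_eq_one fun i _ => by simp [P]
  have hsum : ∀ (e : ℝ) (F : ℝ → ℝ) (i : Fin n) (y : ℝ),
      (fwdDiff e)^[i] F y = ∑ a : Fin n, P i a * F (y + a * e) := by
    intro e F i y
    rw [fwdDiff_iter_eq_sum_shift]
    have := Fin.sum_univ_eq_sum_range
      (fun a : ℕ => ((-1 : ℝ) ^ ((i : ℕ) - a) * ((i : ℕ).choose a : ℝ)) * F (y + a * e)) n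
    simp only [P, Matrix.of_apply]
    rw [this]
    refine (Finset.sum_congr rfl fun a _ => ?_).trans
      (Finset.sum_subset (Finset.range_subset_range.2 (Nat.succ_le_of_lt i.2)) fun a _ ha => ?_)
    · simp
    · have : (i : ℕ) < a := by simpa using ha
      simp [Nat.choose_eq_zero_of_lt this]
  set A : Matrix (Fin n) (Fin n) ℝ := Matrix.of fun i j : Fin n => h (z + i * ε - j * ε) with hA
  have hPA : P * (A * P.transpose) = Matrix.of fun i j : Fin n =>
      ε ^ (i : ℕ) * (Matrix.of fun i j : Fin n => ε ^ (j : ℕ) * (Matrix.of fun i j : Fin n =>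
        (-1) ^ (j : ℕ) * iteratedDeriv (i + j) h (ξ i j)) i j) i j := by
    ext i j
    simp only [Matrix.of_apply]
    rw [← hB i j, hsum, Matrix.mul_apply]
    refine Finset.sum_congr rfl fun a _ => ?_
    rw [hsum, Matrix.mul_apply]
    congr 1
    refine Finset.sum_congr rfl fun b _ => ?_
    rw [Matrix.transpose_apply, mul_comm, hA, Matrix.of_apply]
    congr 2; ring
  have hd := congrArg Matrix.det hPA
  rw [Matrix.det_mul, Matrix.det_mul, Matrix.det_transpose, hP, one_mul, mul_one,
    Matrix.det_mul_column, Matrix.det_mul_row] at hd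
  rw [hd]
  have hp : 0 < ∏ i : Fin n, ε ^ (i : ℕ) := Finset.prod_pos fun i _ => by positivity
  exact mul_neg_of_pos_of_neg hp (mul_neg_of_pos_of_neg hp hΦξ)

noncomputable def sg (z : ℝ) : ℝ := Real.exp z / (1 + Real.exp z)

noncomputable def z0 : ℝ := Real.log (10 / 3)

noncomputable def ell (z : ℝ) : ℝ := Real.log (1 + Real.exp z0) - Real.log (1 + Real.exp z)

lemma pos1 (z : ℝ) : 1 + Real.exp z ≠ 0 := by positivity

lemma sg_smooth : ContDiff ℝ ∞ sg :=
  Real.contDiff_exp.div (contDiff_const.add Real.contDiff_exp) pos1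

lemma ell_smooth : ContDiff ℝ ∞ ell :=
  contDiff_const.sub ((contDiff_const.add Real.contDiff_exp).log pos1)

lemma deriv_sg : deriv sg = fun z => sg z - sg z * sg z := by
  funext z
  have h := (Real.hasDerivAt_exp z).div ((Real.hasDerivAt_exp z).const_add 1) (pos1 z)
  refine h.deriv.trans ?_
  have := pos1 z
  unfold sg; field_simp

lemma deriv_ell : deriv ell = fun z => -sg z := by
  funext z
  have h := (((Real.hasDerivAt_exp z).const_add 1).log (pos1 z)).const_sub
    (Real.log (1 + Real.exp z0))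
  exact h.deriv

lemma cda {f : ℝ → ℝ} (hf : ContDiff ℝ ∞ f) (k : ℕ) (x : ℝ) : ContDiffAt ℝ k f x :=
  (hf.of_le (by exact_mod_cast le_top)).contDiffAt

lemma sg_der : ∀ k ≤ 22, iteratedDeriv k sg z0 = (d k : ℝ) := by
  intro k
  induction k using Nat.strong_induction_on with
  | _ k ih =>
    intro hk
    cases k with
    | zero =>
      have h0 : d 0 = 10 / 13 := by decide +kernel
      rw [iteratedDeriv_zero, h0]
      unfold sg z0
      rw [Real.exp_log (by norm_num)]; norm_num
    | succ k =>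
      rw [iteratedDeriv_succ', deriv_sg, iteratedDeriv_fun_sub (cda sg_smooth k _)
        (cda (sg_smooth.mul sg_smooth) k _),
        iteratedDeriv_fun_mul (cda sg_smooth k _) (cda sg_smooth k _), d_rec k (by omega),
        ih k (by omega) (by omega)]
      push_cast
      congr 1
      refine Finset.sum_congr rfl fun j hj => ?_
      have := Finset.mem_range.1 hj
      rw [ih j (by omega) (by omega), ih (k - j) (by omega) (by omega)]

lemma ell_der : ∀ k ≤ 22, iteratedDeriv k ell z0 = (l k : ℝ) := by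
  intro k hk
  cases k with
  | zero => simp [ell, l]
  | succ k =>
    rw [iteratedDeriv_succ', deriv_ell, iteratedDeriv_fun_neg, sg_der k (by omega)]
    simp [l]

lemma smooth_of {h : ℝ → ℝ} (hd : ∀ z, HasDerivAt h (ell z * h z) z) : ContDiff ℝ ∞ h := by
  rw [contDiff_infty]
  intro k
  induction k with
  | zero => exact contDiff_zero.2 (continuous_iff_continuousAt.2 fun z => (hd z).continuousAt)
  | succ k ih =>
    have hder : deriv h = fun z => ell z * h z := funext fun z => (hd z).deriv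
    push_cast
    refine contDiff_succ_iff_deriv.2 ⟨fun z => (hd z).differentiableAt, by simp, ?_⟩
    rw [hder]
    exact (ell_smooth.of_le (by exact_mod_cast le_top)).mul ih

lemma h_der {h : ℝ → ℝ} (hd : ∀ z, HasDerivAt h (ell z * h z) z) :
    ∀ k ≤ 22, iteratedDeriv k h z0 = (m k : ℝ) * h z0 := by
  have hs := smooth_of hd
  have hder : deriv h = fun z => ell z * h z := funext fun z => (hd z).deriv
  intro k
  induction k using Nat.strong_induction_on with
  | _ k ih =>
    intro hk
    cases k with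
    | zero =>
      have h0 : m 0 = 1 := by decide +kernel
      simp [h0]
    | succ k =>
      rw [iteratedDeriv_succ', hder, iteratedDeriv_fun_mul (cda ell_smooth k _) (cda hs k _),
        m_rec k (by omega)]
      push_cast
      rw [Finset.sum_mul]
      refine Finset.sum_congr rfl fun j hj => ?_
      have := Finset.mem_range.1 hj
      rw [ell_der j (by omega), ih (k - j) (by omega) (by omega)]; ring

theorem main {g : ℝ → ℝ} (hpos : ∀ z, 0 < g z)
    (hg : ∀ z, HasDerivAt g ((1 - Real.log (1 + Real.exp z)) * g z) z) :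
    ∃ x y : Fin 12 → ℝ, StrictMono x ∧ StrictMono y ∧
      (Matrix.of fun i j => g (x i - y j)).det < 0 := by
  set c : ℝ := 1 - Real.log (1 + Real.exp z0) with hc
  let h : ℝ → ℝ := fun z => g z * Real.exp (-c * z)
  have hd : ∀ z, HasDerivAt h (ell z * h z) z := by
    intro z
    have h1 := (hg z).mul (((hasDerivAt_id z).const_mul (-c)).exp)
    refine h1.congr_deriv ?_
    simp only [h, ell, hc, id]; ring
  have hz : 0 < h z0 := mul_pos (hpos _) (Real.exp_pos _)
  have hneg : (Matrix.of fun i j : Fin 12 =>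
      (-1) ^ (j : ℕ) * iteratedDeriv (i + j) h z0).det < 0 := by
    have e1 : (Matrix.of fun i j : Fin 12 => (-1) ^ (j : ℕ) * iteratedDeriv (i + j) h z0)
        = h z0 • (Rat.castHom ℝ).mapMatrix
          (Matrix.of fun i j : Fin 12 => (-1) ^ (j : ℕ) * m (i + j)) := by
      ext i j
      rw [Matrix.of_apply, h_der hd _ (by omega)]
      simp; ring
    rw [e1, Matrix.det_smul, ← RingHom.map_det]
    refine mul_neg_of_pos_of_neg (by positivity) ?_
    have := det_neg
    simp only [eq_ratCast]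
    exact_mod_cast this
  obtain ⟨ε, hε, hdet⟩ := confluent (smooth_of hd) z0 hneg
  refine ⟨fun i => z0 + i * ε, fun j => j * ε, fun i j hij => ?_, fun i j hij => ?_, ?_⟩
  · have : ((i : ℕ) : ℝ) < (j : ℕ) := by exact_mod_cast hij
    simp only; nlinarith
  · have : ((i : ℕ) : ℝ) < (j : ℕ) := by exact_mod_cast hij
    simp only; nlinarith
  · have e2 : (Matrix.of fun i j : Fin 12 => g (z0 + i * ε - j * ε)) = Matrix.of fun i j : Fin 12 =>
        Real.exp (c * (z0 + i * ε)) * (Matrix.of fun i j : Fin 12 => Real.exp (-c * (j * ε)) *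
          (Matrix.of fun i j : Fin 12 => h (z0 + i * ε - j * ε)) i j) i j := by
      ext i j
      simp only [Matrix.of_apply, h]
      have : Real.exp (c * (z0 + i * ε)) * (Real.exp (-c * (j * ε))
          * Real.exp (-c * (z0 + i * ε - j * ε))) = 1 := by
        rw [← Real.exp_add, ← Real.exp_add, ← Real.exp_zero]; congr 1; ring
      linear_combination -g (z0 + i * ε - j * ε) * this
    rw [e2, Matrix.det_mul_column, Matrix.det_mul_row]
    exact mul_neg_of_pos_of_neg (Finset.prod_pos fun _ _ => Real.exp_pos _)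
      (mul_neg_of_pos_of_neg (Finset.prod_pos fun _ _ => Real.exp_pos _) hdet)

end Pool.Agent.H61.PfB
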