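import Pool.Agent.H81.PL

/-! The product of a Cauchy law and a uniform law is a convex measure. -/

open MeasureTheory Set
open scoped ENNReal Real

namespace Pool.Agent.H61.Ren

open Pool.Agent.H81.PL

/-- one-dimensional Borell-Brascamp-Lieb inequality with exponent `-1`, bounded case -/
theorem bbl {t : ℝ} (h0 : 0 < t) (h1 : t < 1) {F G H : ℝ → ℝ≥0∞} (hF : Measurable F)
    (hG : Measurable G) (hH : Measurable H) (fT : ⨆ x, F x ≠ ⊤) (gT : ⨆ x, G x ≠ ⊤)
    (hyp : ∀ x y r s : ℝ, 0 < r → 0 < s → ENNReal.ofReal r < F x → ENNReal.ofReal s < G y →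
      ENNReal.ofReal (1 / (t / r + (1 - t) / s)) < H (t * x + (1 - t) * y)) :
    min (∫⁻ x, F x) (∫⁻ x, G x) ≤ ∫⁻ x, H x := by
  by_cases f0 : ⨆ x, F x = 0
  · have : ∀ x, F x = 0 := fun x => le_antisymm (f0 ▸ le_iSup F x) bot_le
    simp [this]
  by_cases g0 : ⨆ x, G x = 0
  · have : ∀ x, G x = 0 := fun x => le_antisymm (g0 ▸ le_iSup G x) bot_le
    simp [this]
  have ht : 0 < 1 - t := by linarith
  set α := (⨆ x, F x).toReal with hα
  set β := (⨆ x, G x).toReal with hβ
  have α0 : 0 < α := ENNReal.toReal_pos f0 fT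
  have β0 : 0 < β := ENNReal.toReal_pos g0 gT
  have eα : ⨆ x, F x = ENNReal.ofReal α := (ENNReal.ofReal_toReal fT).symm
  have eβ : ⨆ x, G x = ENNReal.ofReal β := (ENNReal.ofReal_toReal gT).symm
  set w := t / α + (1 - t) / β with hw
  have w0 : 0 < w := by positivity
  have le1 : ∀ (a : ℝ) (z : ℝ≥0∞), 0 < a → z ≤ ENNReal.ofReal a → ENNReal.ofReal a⁻¹ * z ≤ 1 := by
    intro a z ha hz
    refine (mul_le_mul_right hz _).trans (le_of_eq ?_)
    rw [← ENNReal.ofReal_mul (by positivity), inv_mul_cancel₀ ha.ne', ENNReal.ofReal_one]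
  have lt1 : ∀ (a r : ℝ) (z : ℝ≥0∞), 0 < a →
      (ENNReal.ofReal r < ENNReal.ofReal a⁻¹ * z ↔ ENNReal.ofReal (a * r) < z) := by
    intro a r z ha
    have a0 : ENNReal.ofReal a ≠ 0 := by simpa using ha
    rw [← ENNReal.mul_lt_mul_iff_right a0 ENNReal.ofReal_ne_top, ← mul_assoc,
      ← ENNReal.ofReal_mul ha.le, ← ENNReal.ofReal_mul ha.le, mul_inv_cancel₀ ha.ne',
      ENNReal.ofReal_one, one_mul]
  have mF : Measurable fun x => ENNReal.ofReal α⁻¹ * F x := hF.const_mul _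
  have mG : Measurable fun x => ENNReal.ofReal β⁻¹ * G x := hG.const_mul _
  have mH : Measurable fun x => ENNReal.ofReal (w⁻¹)⁻¹ * H x := hH.const_mul _
  have key : ENNReal.ofReal t * (∫⁻ x, ENNReal.ofReal α⁻¹ * F x)
      + ENNReal.ofReal (1 - t) * (∫⁻ x, ENNReal.ofReal β⁻¹ * G x)
      ≤ ∫⁻ x, ENNReal.ofReal (w⁻¹)⁻¹ * H x := by
    refine le_trans ?_ (lintegral_mono
      (f := fun x => min (ENNReal.ofReal (w⁻¹)⁻¹ * H x) 1) fun x => min_le_left _ _)
    rw [layer mF (fun x => le1 _ _ α0 (eα ▸ le_iSup F x)),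
      layer mG (fun x => le1 _ _ β0 (eβ ▸ le_iSup G x)),
      layer (mH.min measurable_const) (fun x => min_le_right _ _),
      ← lintegral_const_mul _ meas_level, ← lintegral_const_mul _ meas_level,
      ← lintegral_add_left (meas_level.const_mul _)]
    apply setLIntegral_mono' measurableSet_Ioo
    intro r hr
    have r1 : ENNReal.ofReal r < 1 := by simpa using hr.2
    have hr0 := hr.1
    refine bm_one h0 ht (measurableSet_lt measurable_const mF)
      (measurableSet_lt measurable_const mG) ?_ ?_ ?_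
    · obtain ⟨x, hx⟩ := lt_iSup_iff.1 (show ENNReal.ofReal (α * r) < ⨆ x, F x by
        rw [eα, ENNReal.ofReal_lt_ofReal_iff α0]; nlinarith [hr.2])
      exact ⟨x, (lt1 _ _ _ α0).2 hx⟩
    · obtain ⟨x, hx⟩ := lt_iSup_iff.1 (show ENNReal.ofReal (β * r) < ⨆ x, G x by
        rw [eβ, ENNReal.ofReal_lt_ofReal_iff β0]; nlinarith [hr.2])
      exact ⟨x, (lt1 _ _ _ β0).2 hx⟩
    · intro x hx y hy
      refine lt_min ((lt1 _ _ _ (inv_pos.2 w0)).2 ?_) r1
      have := hyp x y (α * r) (β * r) (by positivity) (by positivity) ((lt1 _ _ _ α0).1 hx)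
        ((lt1 _ _ _ β0).1 hy)
      rwa [show 1 / (t / (α * r) + (1 - t) / (β * r)) = w⁻¹ * r by
        rw [hw]; field_simp] at this
  rw [lintegral_const_mul _ hF, lintegral_const_mul _ hG, lintegral_const_mul _ hH, inv_inv] at key
  have w1 : ENNReal.ofReal w ≠ 0 := by simpa using w0
  rw [← ENNReal.mul_le_mul_iff_right w1 ENNReal.ofReal_ne_top]
  refine le_trans ?_ key
  rw [hw, ENNReal.ofReal_add (by positivity) (by positivity), add_mul, div_eq_mul_inv,
    div_eq_mul_inv, ENNReal.ofReal_mul h0.le, ENNReal.ofReal_mul ht.le, mul_assoc, mul_assoc]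
  gcongr
  · exact min_le_left _ _
  · exact min_le_right _ _

/-- Cauchy density -/
noncomputable def k (u : ℝ) : ℝ := π⁻¹ * (1 + u ^ 2)⁻¹

theorem k_pos (u : ℝ) : 0 < k u := by unfold k; have := Real.pi_pos; positivity

theorem k_le (u : ℝ) : k u ≤ 1 := by
  unfold k
  have h1 : π⁻¹ ≤ 1 := inv_le_one_of_one_le₀ (by linarith [Real.pi_gt_three])
  have h2 : (1 + u ^ 2)⁻¹ ≤ 1 := inv_le_one_of_one_le₀ (by nlinarith [sq_nonneg u])
  have h3 : 0 ≤ (1 + u ^ 2)⁻¹ := by positivity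
  nlinarith

theorem k_meas : Measurable k := by unfold k; fun_prop

theorem k_ineq {t x y a b : ℝ} (h0 : 0 < t) (h1 : t < 1) (ha : 0 < a) (hb : 0 < b) :
    1 / (t / (k x * a) + (1 - t) / (k y * b)) ≤ k (t * x + (1 - t) * y) * (t * a + (1 - t) * b) := by
  have ht : 0 < 1 - t := by linarith
  have hx := k_pos x
  have hy := k_pos y
  have hπ := Real.pi_pos
  rw [div_le_iff₀ (by positivity)]
  have e : k (t * x + (1 - t) * y) * (t * a + (1 - t) * b) * (t / (k x * a) + (1 - t) / (k y * b))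
      = ((t * a + (1 - t) * b) * (t * (1 + x ^ 2) * b + (1 - t) * (1 + y ^ 2) * a))
        / ((1 + (t * x + (1 - t) * y) ^ 2) * (a * b)) := by
    unfold k; field_simp
  rw [e, le_div_iff₀ (by positivity)]
  have := mul_nonneg (mul_pos h0 ht).le (add_nonneg (sq_nonneg (a - b)) (sq_nonneg (a * y - b * x)))
  nlinarith

/-- the Cauchy law -/
noncomputable def κ : Measure ℝ := volume.withDensity fun u => ENNReal.ofReal (k u)

/-- uniform density on `[-L, L]` -/
noncomputable def dV (L : ℝ) : ℝ → ℝ≥0∞ := (Icc (-L) L).indicator fun _ => ENNReal.ofReal (2 * L)⁻¹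

theorem dV_meas (L : ℝ) : Measurable (dV L) := measurable_const.indicator measurableSet_Icc

/-- the uniform law -/
noncomputable def ω (L : ℝ) : Measure ℝ := volume.withDensity (dV L)

instance : SFinite κ := by unfold κ; infer_instance
instance (L : ℝ) : SFinite (ω L) := by unfold ω; infer_instance

theorem ω_apply (L : ℝ) {s : Set ℝ} (hs : MeasurableSet s) :
    ω L s = ENNReal.ofReal (2 * L)⁻¹ * volume (s ∩ Icc (-L) L) := by
  unfold ω dV
  rw [withDensity_apply _ hs, lintegral_indicator_const measurableSet_Icc,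
    Measure.restrict_apply measurableSet_Icc, inter_comm]

theorem μ_apply (L : ℝ) {A : Set (ℝ × ℝ)} (hA : MeasurableSet A) :
    (κ.prod (ω L)) A = ENNReal.ofReal (2 * L)⁻¹ *
      ∫⁻ u, ENNReal.ofReal (k u) * volume (Prod.mk u ⁻¹' (A ∩ univ ×ˢ Icc (-L) L)) := by
  rw [Measure.prod_apply hA]
  unfold κ
  rw [lintegral_withDensity_eq_lintegral_mul _ k_meas.ennreal_ofReal
    (measurable_measure_prodMk_left hA), ← lintegral_const_mul' _ _ ENNReal.ofReal_ne_top]
  refine lintegral_congr fun u => ?_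
  rw [Pi.mul_apply, ω_apply L (measurable_prodMk_left hA), mul_left_comm]
  congr 3
  ext w; simp

theorem convex_meas (L : ℝ) {t : ℝ} (h0 : 0 < t) (h1 : t < 1) {A B C : Set (ℝ × ℝ)}
    (hA : MeasurableSet A) (hB : MeasurableSet B) (hC : MeasurableSet C)
    (h : ∀ a ∈ A, ∀ b ∈ B, t • a + (1 - t) • b ∈ C) :
    min ((κ.prod (ω L)) A) ((κ.prod (ω L)) B) ≤ (κ.prod (ω L)) C := by
  have ht : 0 < 1 - t := by linarith
  have hI : MeasurableSet ((univ : Set ℝ) ×ˢ Icc (-L) L) := MeasurableSet.univ.prod measurableSet_Icc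
  have hm : ∀ {D : Set (ℝ × ℝ)}, MeasurableSet D → Measurable fun u =>
      ENNReal.ofReal (k u) * volume (Prod.mk u ⁻¹' (D ∩ univ ×ˢ Icc (-L) L)) := fun hD =>
    k_meas.ennreal_ofReal.mul (measurable_measure_prodMk_left (hD.inter hI))
  have hfin : ∀ (D : Set (ℝ × ℝ)) u, volume (Prod.mk u ⁻¹' (D ∩ univ ×ˢ Icc (-L) L))
      ≤ volume (Icc (-L) L) := fun D u => measure_mono fun w hw => hw.2.2
  have hI2 : volume (Icc (-L) L) < ⊤ := measure_Icc_lt_top
  have hsup : ∀ D : Set (ℝ × ℝ), ⨆ u,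
      ENNReal.ofReal (k u) * volume (Prod.mk u ⁻¹' (D ∩ univ ×ˢ Icc (-L) L)) ≠ ⊤ := by
    intro D
    refine ne_top_of_le_ne_top hI2.ne (iSup_le fun u => ?_)
    calc _ ≤ 1 * volume (Icc (-L) L) :=
          mul_le_mul' (ENNReal.ofReal_le_one.2 (k_le u)) (hfin D u)
      _ = _ := one_mul _
  rw [μ_apply L hA, μ_apply L hB, μ_apply L hC, ← mul_min]
  refine mul_le_mul_right (bbl h0 h1 (hm hA) (hm hB) (hm hC) (hsup A) (hsup B) ?_) _
  intro x y r s hr hs hx hy
  set SA := Prod.mk x ⁻¹' (A ∩ univ ×ˢ Icc (-L) L) with hSA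
  set SB := Prod.mk y ⁻¹' (B ∩ univ ×ˢ Icc (-L) L) with hSB
  have ea : volume SA = ENNReal.ofReal (volume SA).toReal :=
    (ENNReal.ofReal_toReal ((hfin A x).trans_lt hI2).ne).symm
  have eb : volume SB = ENNReal.ofReal (volume SB).toReal :=
    (ENNReal.ofReal_toReal ((hfin B y).trans_lt hI2).ne).symm
  set a := (volume SA).toReal
  set b := (volume SB).toReal
  rw [ea, ← ENNReal.ofReal_mul (k_pos x).le, ENNReal.ofReal_lt_ofReal_iff'] at hx
  rw [eb, ← ENNReal.ofReal_mul (k_pos y).le, ENNReal.ofReal_lt_ofReal_iff'] at hy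
  have a0 : 0 < a := (mul_pos_iff_of_pos_left (k_pos x)).1 hx.2
  have b0 : 0 < b := (mul_pos_iff_of_pos_left (k_pos y)).1 hy.2
  have nA : SA.Nonempty := nonempty_of_measure_ne_zero (μ := volume) (by rw [ea]; simpa using a0)
  have nB : SB.Nonempty := nonempty_of_measure_ne_zero (μ := volume) (by rw [eb]; simpa using b0)
  have bm := bm_one (C := Prod.mk (t * x + (1 - t) * y) ⁻¹' (C ∩ univ ×ˢ Icc (-L) L)) h0 ht
    (measurable_prodMk_left (hA.inter hI)) (measurable_prodMk_left (hB.inter hI)) nA nB (by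
      intro p hp q hq
      refine ⟨h _ hp.1 _ hq.1, mem_univ _, ?_, ?_⟩
      · have := hp.2.2.1
        have := hq.2.2.1
        simp only at *
        nlinarith
      · have := hp.2.2.2
        have := hq.2.2.2
        simp only at *
        nlinarith)
  rw [ea, eb, ← ENNReal.ofReal_mul h0.le, ← ENNReal.ofReal_mul ht.le,
    ← ENNReal.ofReal_add (by positivity) (by positivity)] at bm
  refine lt_of_lt_of_le ?_ (mul_le_mul_right bm _)
  have kp := k_pos (t * x + (1 - t) * y)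
  rw [← ENNReal.ofReal_mul kp.le, ENNReal.ofReal_lt_ofReal_iff (by positivity)]
  refine lt_of_lt_of_le ?_ (k_ineq h0 h1 a0 b0)
  have kx := k_pos x
  have ky := k_pos y
  refine one_div_lt_one_div_of_lt (by positivity) ?_
  have := hx.1
  have := hy.1
  gcongr

end Pool.Agent.H61.Ren
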