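import Pool.Agent.H61.RenA

/-! Renyi entropy powers of order two for the Cauchy times uniform law. -/

open MeasureTheory Set
open scoped ENNReal Real

namespace Pool.Agent.H61.Ren

theorem k_int : Integrable k := integrable_inv_one_add_sq.const_mul _

theorem κ_apply {s : Set ℝ} (hs : MeasurableSet s) : κ s = ENNReal.ofReal (∫ u in s, k u) := by
  unfold κ
  rw [withDensity_apply _ hs, ofReal_integral_eq_lintegral_ofReal k_int.integrableOn
    (Filter.Eventually.of_forall fun u => (k_pos u).le)]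

instance : IsProbabilityMeasure κ := by
  constructor
  rw [κ_apply MeasurableSet.univ, Measure.restrict_univ]
  unfold k
  rw [integral_const_mul, integral_univ_inv_one_add_sq, inv_mul_cancel₀ Real.pi_pos.ne']
  simp

theorem κ_half : κ (Ioi 0) = 2⁻¹ := by
  rw [κ_apply measurableSet_Ioi]
  unfold k
  rw [integral_const_mul, integral_Ioi_inv_one_add_sq, Real.arctan_zero,
    show π⁻¹ * (π / 2 - 0) = 2⁻¹ by field_simp; ring, ENNReal.ofReal_inv_of_pos two_pos]
  simp

theorem ω_prob {L : ℝ} (hL : 0 < L) : IsProbabilityMeasure (ω L) := by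
  constructor
  rw [ω_apply L MeasurableSet.univ, univ_inter, Real.volume_Icc,
    ← ENNReal.ofReal_mul (by positivity), show L - -L = 2 * L by ring,
    inv_mul_cancel₀ (by positivity), ENNReal.ofReal_one]

theorem neg_inv {d : ℝ → ℝ≥0∞} (h : ∀ x, d (-x) = d x) :
    (volume.withDensity d).map (fun x => -x) = volume.withDensity d := by
  ext s hs
  have hs' : MeasurableSet ((fun x : ℝ => -x) ⁻¹' s) := measurable_neg hs
  rw [Measure.map_apply measurable_neg hs, withDensity_apply _ hs, withDensity_apply _ hs',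
    ← lintegral_indicator hs, ← lintegral_indicator hs', ← lintegral_neg_eq_self]
  refine lintegral_congr fun x => ?_
  by_cases hx : x ∈ s
  · rw [indicator_of_mem hx, indicator_of_mem (by simpa using hx), h]
  · rw [indicator_of_notMem hx, indicator_of_notMem (by simpa using hx)]

theorem μ_neg (L : ℝ) : (κ.prod (ω L)).map (fun x => -x) = κ.prod (ω L) := by
  have h1 : κ.map (fun x => -x) = κ := neg_inv fun x => by simp [k]
  have h2 : (ω L).map (fun x => -x) = ω L := neg_inv fun x => by
    unfold dV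
    by_cases hx : x ∈ Icc (-L) L
    · rw [indicator_of_mem hx, indicator_of_mem (by
        exact ⟨by linarith [hx.2], by linarith [hx.1]⟩)]
    · rw [indicator_of_notMem hx, indicator_of_notMem (fun h => hx
        ⟨by linarith [h.2], by linarith [h.1]⟩)]
  have := Measure.map_prod_map κ (ω L) measurable_neg measurable_neg
  rw [h1, h2] at this
  exact this.symm

/-- window mass -/
noncomputable def T (L x : ℝ) : ℝ≥0∞ := κ (Icc (x - L) (x + L))

theorem mW (L : ℝ) : MeasurableSet {p : ℝ × ℝ | p.1 - L ≤ p.2 ∧ p.2 ≤ p.1 + L} := by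
  have a1 : MeasurableSet {p : ℝ × ℝ | p.1 - L ≤ p.2} := measurableSet_le (by fun_prop) (by fun_prop)
  have a2 : MeasurableSet {p : ℝ × ℝ | p.2 ≤ p.1 + L} := measurableSet_le (by fun_prop) (by fun_prop)
  exact a1.inter a2

theorem T_meas (L : ℝ) : Measurable (T L) := measurable_measure_prodMk_left (ν := κ) (mW L)

theorem T_int (L : ℝ) {A : Set ℝ} (hA : MeasurableSet A) :
    ∫⁻ x in A, T L x = ∫⁻ u, volume (A ∩ Icc (u - L) (u + L)) ∂κ := by
  have h1 := Measure.prod_apply (μ := volume.restrict A) (ν := κ) (mW L)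
  have h2 := Measure.prod_apply_symm (μ := volume.restrict A) (ν := κ) (mW L)
  refine (h1.symm.trans h2).trans (lintegral_congr fun u => ?_)
  rw [Measure.restrict_apply' hA, inter_comm]
  congr 2
  ext x
  simp only [mem_preimage, mem_ofPred_eq, mem_Icc]
  constructor <;> rintro ⟨a, b⟩ <;> constructor <;> linarith

/-- density of the sum -/
noncomputable def dW (L x : ℝ) : ℝ≥0∞ := ENNReal.ofReal (2 * L)⁻¹ * T L x

theorem dW_meas (L : ℝ) : Measurable (dW L) := (T_meas L).const_mul _

theorem map_sum (L : ℝ) :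
    (κ.prod (ω L)).map (fun p => p.1 + p.2) = volume.withDensity (dW L) := by
  ext A hA
  have hS : Measurable fun p : ℝ × ℝ => p.1 + p.2 := by fun_prop
  rw [Measure.map_apply hS hA, withDensity_apply _ hA, Measure.prod_apply (hS hA)]
  unfold dW
  rw [lintegral_const_mul _ (T_meas L), T_int L hA,
    ← lintegral_const_mul' _ _ ENNReal.ofReal_ne_top]
  refine lintegral_congr fun u => ?_
  rw [ω_apply L (measurable_prodMk_left (hS hA)),
    ← measure_preimage_add volume u (A ∩ Icc (u - L) (u + L))]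
  congr 2
  ext w
  simp only [mem_inter_iff, mem_preimage, mem_Icc]
  constructor <;> rintro ⟨a, b, c⟩ <;> refine ⟨a, ?_, ?_⟩ <;> linarith

theorem T_tot {L : ℝ} : ∫⁻ x, T L x = ENNReal.ofReal (2 * L) := by
  have := T_int L MeasurableSet.univ
  rw [Measure.restrict_univ] at this
  rw [this]
  simp only [univ_inter, Real.volume_Icc]
  simp_rw [show ∀ u : ℝ, u + L - (u - L) = 2 * L from fun u => by ring]
  simp

theorem T_tail {L : ℝ} (hL : 1 ≤ L) :
    ENNReal.ofReal (Real.log (2 * L) / 8) ≤ ∫⁻ x in Ioi L, T L x := by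
  rw [T_int L measurableSet_Ioi]
  have h2 : (1 : ℝ) ≤ 2 * L := by linarith
  have hi : IntegrableOn (fun u : ℝ => u⁻¹ / 8) (Icc 1 (2 * L)) :=
    ((continuousOn_inv₀.mono fun u hu => by
      simp only [mem_compl_iff, mem_singleton_iff]; linarith [hu.1]).div_const 8).integrableOn_Icc
  have e : Real.log (2 * L) / 8 = ∫ u in Icc 1 (2 * L), u⁻¹ / 8 := by
    rw [integral_Icc_eq_integral_Ioc, ← intervalIntegral.integral_of_le h2,
      intervalIntegral.integral_div, integral_inv_of_pos one_pos (by linarith), div_one]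
  rw [e, ofReal_integral_eq_lintegral_ofReal hi ((ae_restrict_iff' measurableSet_Icc).2
    (Filter.Eventually.of_forall fun u hu => by
      have : 0 < u := by linarith [hu.1]
      positivity)), ← lintegral_indicator measurableSet_Icc]
  have hm : Measurable fun u : ℝ => volume (Ioi L ∩ Icc (u - L) (u + L)) := by
    have : MeasurableSet {p : ℝ × ℝ | L < p.2 ∧ (p.1 - L ≤ p.2 ∧ p.2 ≤ p.1 + L)} :=
      (measurableSet_lt measurable_const measurable_snd).inter (mW L)
    exact measurable_measure_prodMk_left (ν := volume) this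
  unfold κ
  rw [lintegral_withDensity_eq_lintegral_mul _ k_meas.ennreal_ofReal hm]
  refine lintegral_mono fun u => ?_
  by_cases hu : u ∈ Icc 1 (2 * L)
  swap
  · rw [indicator_of_notMem hu]; exact bot_le
  rw [indicator_of_mem hu, Pi.mul_apply]
  have hu0 : 0 < u := by linarith [hu.1]
  have h3 : ENNReal.ofReal u ≤ volume (Ioi L ∩ Icc (u - L) (u + L)) := by
    rw [show u = u + L - L by ring, ← Real.volume_Ioc]
    refine measure_mono fun x hx => ⟨hx.1, ?_, ?_⟩
    · linarith [hx.1, hu.2]
    · linarith [hx.2]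
  refine le_trans ?_ (mul_le_mul_right h3 _)
  rw [← ENNReal.ofReal_mul (k_pos u).le]
  refine ENNReal.ofReal_le_ofReal ?_
  unfold k
  have hπ := Real.pi_pos
  have hπ4 := Real.pi_le_four
  rw [show π⁻¹ * (1 + u ^ 2)⁻¹ * u = u / (π * (1 + u ^ 2)) by field_simp,
    show u⁻¹ / 8 = 1 / (8 * u) by field_simp, div_le_div_iff₀ (by positivity) (by positivity)]
  have : 1 ≤ u ^ 2 := by nlinarith [hu.1]
  nlinarith

theorem T_sq {L : ℝ} (hL : 1 ≤ L) :
    (∫⁻ x, T L x ^ (2 : ℝ)) + ENNReal.ofReal (Real.log (2 * L) / 16) ≤ ENNReal.ofReal (2 * L) := by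
  have h1 : ENNReal.ofReal (Real.log (2 * L) / 16) ≤ ∫⁻ x, (Ioi L).indicator (fun x => 2⁻¹ * T L x) x := by
    rw [lintegral_indicator measurableSet_Ioi, lintegral_const_mul _ (T_meas L)]
    refine le_trans (le_of_eq ?_) (mul_le_mul_right (T_tail hL) _)
    rw [show Real.log (2 * L) / 16 = 2⁻¹ * (Real.log (2 * L) / 8) by ring,
      ENNReal.ofReal_mul (by norm_num), ENNReal.ofReal_inv_of_pos two_pos]
    simp
  refine (add_le_add_right h1 _).trans ?_
  rw [← lintegral_add_left ((T_meas L).pow_const _), ← T_tot]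
  refine lintegral_mono fun x => ?_
  simp only [ENNReal.rpow_two, sq]
  by_cases hx : x ∈ Ioi L
  · rw [indicator_of_mem hx]
    have : T L x ≤ 2⁻¹ := by
      rw [← κ_half]
      exact measure_mono fun u hu => by
        have := hu.1
        have : L < x := hx
        show 0 < u
        linarith
    calc T L x * T L x + 2⁻¹ * T L x ≤ 2⁻¹ * T L x + 2⁻¹ * T L x := by gcongr
      _ = T L x := by rw [← add_mul, ENNReal.inv_two_add_inv_two, one_mul]
  · rw [indicator_of_notMem hx, add_zero]
    exact mul_le_of_le_one_left' prob_le_one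

/-- the width -/
noncomputable def L0 : ℝ := Real.exp 600

theorem L0_ge : 601 ≤ L0 := by
  have := Real.add_one_le_exp (600 : ℝ)
  unfold L0; linarith

theorem key : (∫⁻ x, ENNReal.ofReal (k x) ^ (2 : ℝ))⁻¹ + (∫⁻ x, dV L0 x ^ (2 : ℝ))⁻¹
    < (∫⁻ x, dW L0 x ^ (2 : ℝ))⁻¹ := by
  have hL := L0_ge
  have h1 : ENNReal.ofReal (1 / 32) ≤ ∫⁻ x, ENNReal.ofReal (k x) ^ (2 : ℝ) := by
    have : ENNReal.ofReal (1 / 32)
        = ∫⁻ x, (Icc (-1 : ℝ) 1).indicator (fun _ => ENNReal.ofReal (1 / 64)) x := by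
      rw [lintegral_indicator_const measurableSet_Icc, Real.volume_Icc,
        ← ENNReal.ofReal_mul (by norm_num)]
      norm_num
    rw [this]
    refine lintegral_mono fun x => ?_
    by_cases hx : x ∈ Icc (-1 : ℝ) 1
    swap
    · rw [indicator_of_notMem hx]; exact bot_le
    rw [indicator_of_mem hx, ENNReal.rpow_two, ← ENNReal.ofReal_pow (k_pos x).le]
    refine ENNReal.ofReal_le_ofReal ?_
    have : 1 / 8 ≤ k x := by
      unfold k
      have hπ := Real.pi_pos
      have hπ4 := Real.pi_le_four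
      rw [← mul_inv, ← one_div]
      have : x ^ 2 ≤ 1 := by nlinarith [hx.1, hx.2]
      exact one_div_le_one_div_of_le (by positivity) (by nlinarith)
    nlinarith
  have h2 : ∫⁻ x, dV L0 x ^ (2 : ℝ) = ENNReal.ofReal (2 * L0)⁻¹ := by
    have : ∀ x, dV L0 x ^ (2 : ℝ)
        = (Icc (-L0) L0).indicator (fun _ => ENNReal.ofReal ((2 * L0)⁻¹ ^ 2)) x := by
      intro x
      unfold dV
      by_cases hx : x ∈ Icc (-L0) L0
      · rw [indicator_of_mem hx, indicator_of_mem hx, ENNReal.rpow_two,
          ENNReal.ofReal_pow (by positivity)]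
      · rw [indicator_of_notMem hx, indicator_of_notMem hx]; simp
    simp_rw [this]
    rw [lintegral_indicator_const measurableSet_Icc, Real.volume_Icc,
      ← ENNReal.ofReal_mul (by positivity)]
    congr 1
    field_simp
    ring
  have h3 : ∫⁻ x, dW L0 x ^ (2 : ℝ) ≤ ENNReal.ofReal ((2 * L0)⁻¹ ^ 2 * (2 * L0 - 33)) := by
    have ht := T_sq (L := L0) (by linarith)
    have hl : (33 : ℝ) ≤ Real.log (2 * L0) / 16 := by
      have : Real.log L0 ≤ Real.log (2 * L0) := Real.log_le_log (by linarith) (by linarith)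
      rw [L0, Real.log_exp] at this
      unfold L0
      linarith
    have ht2 : ∫⁻ x, T L0 x ^ (2 : ℝ) ≤ ENNReal.ofReal (2 * L0 - 33) := by
      rw [ENNReal.ofReal_sub _ (by norm_num)]
      exact ENNReal.le_sub_of_add_le_right ENNReal.ofReal_ne_top
        ((add_le_add_right (ENNReal.ofReal_le_ofReal hl) _).trans ht)
    unfold dW
    simp_rw [ENNReal.mul_rpow_of_nonneg _ _ (zero_le_two (α := ℝ))]
    rw [lintegral_const_mul _ ((T_meas L0).pow_const _), ENNReal.ofReal_mul (by positivity),
      ENNReal.rpow_two, ← ENNReal.ofReal_pow (by positivity)]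
    exact mul_le_mul_right ht2 _
  have hp : 0 < 2 * L0 - 33 := by linarith
  calc _ ≤ (ENNReal.ofReal (1 / 32))⁻¹ + (ENNReal.ofReal (2 * L0)⁻¹)⁻¹ := by
        rw [h2]; gcongr
    _ = ENNReal.ofReal (32 + 2 * L0) := by
        rw [← ENNReal.ofReal_inv_of_pos (by norm_num), ← ENNReal.ofReal_inv_of_pos (by positivity),
          ← ENNReal.ofReal_add (by norm_num) (by positivity)]
        simp
    _ < ENNReal.ofReal ((2 * L0)⁻¹ ^ 2 * (2 * L0 - 33))⁻¹ := by
        rw [ENNReal.ofReal_lt_ofReal_iff (by positivity),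
          show ((2 * L0)⁻¹ ^ 2 * (2 * L0 - 33))⁻¹ = (2 * L0) ^ 2 / (2 * L0 - 33) by field_simp,
          lt_div_iff₀ hp]
        nlinarith
    _ ≤ _ := by
        rw [ENNReal.ofReal_inv_of_pos (by positivity)]
        exact ENNReal.inv_le_inv.2 h3

end Pool.Agent.H61.Ren
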