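import Pool.Agent.H61.RenB

/-! Packaging of the Cauchy times uniform counterexample. -/

open MeasureTheory Set
open scoped ENNReal Real Pointwise

namespace Pool.Agent.H61.Ren

instance : IsProbabilityMeasure (ω L0) := ω_prob (by linarith [L0_ge])

/-- the planar law -/
noncomputable def μ0 : Measure (ℝ × ℝ) := κ.prod (ω L0)

instance : IsProbabilityMeasure μ0 := by unfold μ0; infer_instance

theorem μ0_conv {t : ℝ} (h0 : 0 < t) (h1 : t < 1) {A B : Set (ℝ × ℝ)}
    (hA : MeasurableSet A) (hB : MeasurableSet B) :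
    min (μ0 A) (μ0 B) ≤ μ0 (t • A + (1 - t) • B) := by
  rw [← measure_toMeasurable (t • A + (1 - t) • B)]
  exact convex_meas L0 h0 h1 hA hB (measurableSet_toMeasurable _ _) fun a ha b hb =>
    subset_toMeasurable _ _ (add_mem_add (smul_mem_smul_set ha) (smul_mem_smul_set hb))

theorem μ0_fst : μ0.map Prod.fst = volume.withDensity fun x => ENNReal.ofReal (k x) := by
  unfold μ0; rw [Measure.map_fst_prod]; simp [κ]

theorem μ0_snd : μ0.map Prod.snd = volume.withDensity (dV L0) := by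
  unfold μ0; rw [Measure.map_snd_prod]; simp [ω]

theorem dV_fin (x : ℝ) : dV L0 x ≠ ⊤ :=
  ne_top_of_le_ne_top ENNReal.ofReal_ne_top (indicator_le_self _ _ x)

theorem dW_fin (x : ℝ) : dW L0 x ≠ ⊤ :=
  ENNReal.mul_ne_top ENNReal.ofReal_ne_top (measure_ne_top _ _)

theorem eLp2 (f : ℝ → ℝ) (hf : ∀ x, 0 ≤ f x) :
    eLpNorm f 2 volume ^ (-((1 - (2 : ℝ≥0∞)⁻¹)⁻¹).toReal)
      = (∫⁻ x, ENNReal.ofReal (f x) ^ (2 : ℝ))⁻¹ := by
  rw [ENNReal.one_sub_inv_two, inv_inv,
    eLpNorm_eq_lintegral_rpow_enorm_toReal two_ne_zero ENNReal.ofNat_ne_top, ← ENNReal.rpow_mul]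
  simp only [ENNReal.toReal_ofNat, Real.enorm_eq_ofReal (hf _)]
  rw [show 1 / (2 : ℝ) * -2 = -1 by norm_num, ENNReal.rpow_neg_one]

theorem fiber_le (σ ρ : Measure ℝ) [IsProbabilityMeasure ρ] [SFinite σ]
    (hσ : ∀ s, σ s ≤ volume s) (a b : ℝ) (ha : a ≠ 0) {A : Set ℝ} (hA : MeasurableSet A) :
    (σ.prod ρ) ((fun p : ℝ × ℝ => a * p.1 + b * p.2) ⁻¹' A)
      ≤ ENNReal.ofReal |a⁻¹| * volume A := by
  have hS : Measurable fun p : ℝ × ℝ => a * p.1 + b * p.2 := by fun_prop
  rw [Measure.prod_apply_symm (hS hA)]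
  refine le_trans (lintegral_mono (g := fun _ => ENNReal.ofReal |a⁻¹| * volume A) fun y => ?_)
    (by simp)
  refine (hσ _).trans (le_of_eq ?_)
  rw [← measure_preimage_add_right volume (b * y) A, ← Real.volume_preimage_mul_left ha]
  rfl

theorem wd_le {d : ℝ → ℝ≥0∞} (h : ∀ x, d x ≤ 1) (s : Set ℝ) :
    volume.withDensity d s ≤ volume s := by
  have := withDensity_mono (μ := volume) (f := d) (g := 1) (Filter.Eventually.of_forall h)
  rw [withDensity_one] at this
  exact this s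

theorem proj_le (a b : ℝ) (h : a ≠ 0 ∨ b ≠ 0) : ∃ C : ℝ≥0∞, C ≠ ⊤ ∧ ∀ A, MeasurableSet A →
    μ0.map (fun p : ℝ × ℝ => a * p.1 + b * p.2) A ≤ C * volume A := by
  have hS : Measurable fun p : ℝ × ℝ => a * p.1 + b * p.2 := by fun_prop
  rcases h with h | h
  · refine ⟨ENNReal.ofReal |a⁻¹|, ENNReal.ofReal_ne_top, fun A hA => ?_⟩
    rw [Measure.map_apply hS hA]
    exact fiber_le κ (ω L0) (wd_le fun x => ENNReal.ofReal_le_one.2 (k_le x)) a b h hA
  · refine ⟨ENNReal.ofReal |b⁻¹|, ENNReal.ofReal_ne_top, fun A hA => ?_⟩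
    rw [Measure.map_apply hS hA]
    unfold μ0
    rw [← Measure.prod_swap, Measure.map_apply measurable_swap (hS hA)]
    refine le_trans (le_of_eq ?_) (fiber_le (ω L0) κ (wd_le fun x => (indicator_le_self _ _ x).trans
      (ENNReal.ofReal_le_one.2 (inv_le_one_of_one_le₀ (by linarith [L0_ge])))) b a h hA)
    congr 1
    ext p
    simp [add_comm]

theorem dens (ν : Measure ℝ) [IsProbabilityMeasure ν] (C : ℝ≥0∞) (hC : C ≠ ⊤)
    (h : ∀ A, MeasurableSet A → ν A ≤ C * volume A) :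
    ν = volume.withDensity (ν.rnDeriv volume) ∧ 0 < ∫⁻ x, ν.rnDeriv volume x ^ (2 : ℝ) ∧
      ∫⁻ x, ν.rnDeriv volume x ^ (2 : ℝ) < ⊤ := by
  have hac : ν ≪ volume := Measure.AbsolutelyContinuous.mk fun s hs h0 =>
    le_antisymm (by simpa [h0] using h s hs) bot_le
  have hm := Measure.measurable_rnDeriv ν volume
  have h1 : ∫⁻ x, ν.rnDeriv volume x = 1 := by
    rw [Measure.lintegral_rnDeriv hac, measure_univ]
  have hle : ν.rnDeriv volume ≤ᵐ[volume] fun _ => C :=
    ae_le_of_forall_setLIntegral_le_of_sigmaFinite hm fun s hs _ => by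
      rw [Measure.setLIntegral_rnDeriv hac, setLIntegral_const]
      exact h s hs
  refine ⟨(Measure.withDensity_rnDeriv_eq _ _ hac).symm, ?_, ?_⟩
  · rw [pos_iff_ne_zero]
    intro h0
    rw [lintegral_eq_zero_iff (hm.pow_const _)] at h0
    have : ∫⁻ x, ν.rnDeriv volume x = 0 := by
      rw [lintegral_eq_zero_iff hm]
      filter_upwards [h0] with x hx
      simpa using hx
    rw [h1] at this
    exact one_ne_zero this
  · calc _ ≤ ∫⁻ x, C * ν.rnDeriv volume x := by
          refine lintegral_mono_ae ?_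
          filter_upwards [hle] with x hx
          rw [ENNReal.rpow_two, sq]
          exact mul_le_mul_left hx _
      _ = C := by rw [lintegral_const_mul _ hm, h1, mul_one]
      _ < ⊤ := hC.lt_top

/-- the law on `Fin 2 → ℝ` -/
noncomputable def μ1 : Measure (Fin 2 → ℝ) := μ0.map (MeasurableEquiv.finTwoArrow (α := ℝ)).symm

instance : IsProbabilityMeasure μ1 :=
  Measure.isProbabilityMeasure_map (MeasurableEquiv.measurable _).aemeasurable

theorem μ1_ac : μ1 ≪ volume := by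
  have h : μ0 ≪ volume := by
    unfold μ0 κ ω
    rw [Measure.volume_eq_prod]
    exact (withDensity_absolutelyContinuous _ _).prod (withDensity_absolutelyContinuous _ _)
  have := h.map (MeasurableEquiv.finTwoArrow (α := ℝ)).symm.measurable
  rwa [(volume_preserving_finTwoArrow ℝ).symm.map_eq] at this

theorem μ1_neg : μ1.map (fun x => -x) = μ1 := by
  unfold μ1
  have h : μ0.map (fun x => -x) = μ0 := μ_neg L0
  conv_rhs => rw [← h]
  rw [Measure.map_map measurable_neg (MeasurableEquiv.measurable _),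
    Measure.map_map (MeasurableEquiv.measurable _) measurable_neg]
  congr 1
  funext p
  ext i
  fin_cases i <;> simp [MeasurableEquiv.finTwoArrow]

theorem μ1_conv {A B : Set (Fin 2 → ℝ)} (hA : MeasurableSet A) (hB : MeasurableSet B)
    (nA : A.Nonempty) (nB : B.Nonempty) {t : ℝ} (h0 : 0 ≤ t) (h1 : t ≤ 1) :
    min (μ1 A) (μ1 B) ≤ μ1 (t • A + (1 - t) • B) := by
  rcases h0.eq_or_lt with rfl | h0
  · rw [zero_smul_set nA]; simp
  rcases h1.eq_or_lt with rfl | h1
  · rw [sub_self, zero_smul_set nB]; simp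
  rw [← measure_toMeasurable (t • A + (1 - t) • B)]
  have hC := measurableSet_toMeasurable μ1 (t • A + (1 - t) • B)
  have hsub := subset_toMeasurable μ1 (t • A + (1 - t) • B)
  generalize toMeasurable μ1 (t • A + (1 - t) • B) = C at hC hsub
  unfold μ1
  have he := (MeasurableEquiv.finTwoArrow (α := ℝ)).symm.measurable
  rw [Measure.map_apply he hA, Measure.map_apply he hB, Measure.map_apply he hC]
  refine convex_meas L0 h0 h1 (he hA) (he hB) (he hC) fun a ha b hb => hsub ?_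
  have : (MeasurableEquiv.finTwoArrow (α := ℝ)).symm (t • a + (1 - t) • b)
      = t • (MeasurableEquiv.finTwoArrow (α := ℝ)).symm a
        + (1 - t) • (MeasurableEquiv.finTwoArrow (α := ℝ)).symm b := by
    ext i
    fin_cases i <;> simp [MeasurableEquiv.finTwoArrow]
  rw [this]
  exact add_mem_add (smul_mem_smul_set ha) (smul_mem_smul_set hb)

/-- one-dimensional marginals -/
noncomputable def ν (v : Fin 2 → ℝ) : Measure ℝ := μ1.map fun x => ∑ i, v i * x i

theorem ν_eq (v : Fin 2 → ℝ) : ν v = μ0.map fun p : ℝ × ℝ => v 0 * p.1 + v 1 * p.2 := by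
  unfold ν μ1
  rw [Measure.map_map (by fun_prop) (MeasurableEquiv.measurable _)]
  congr 1
  funext p
  simp [Fin.sum_univ_two, MeasurableEquiv.finTwoArrow]

theorem ν_dens (v : Fin 2 → ℝ) (hv : v ≠ 0) :
    ν v = volume.withDensity ((ν v).rnDeriv volume) ∧ 0 < ∫⁻ x, (ν v).rnDeriv volume x ^ (2 : ℝ) ∧
      ∫⁻ x, (ν v).rnDeriv volume x ^ (2 : ℝ) < ⊤ := by
  have h : v 0 ≠ 0 ∨ v 1 ≠ 0 := by
    by_contra hh
    push Not at hh
    apply hv
    ext i
    fin_cases i
    · exact hh.1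
    · exact hh.2
  obtain ⟨C, hC, hle⟩ := proj_le (v 0) (v 1) h
  rw [← ν_eq] at hle
  have : IsProbabilityMeasure (ν v) := Measure.isProbabilityMeasure_map
    (Measurable.aemeasurable (by fun_prop))
  exact dens _ C hC hle

theorem key1 : (∫⁻ x, (ν ![1, 0]).rnDeriv volume x ^ (2 : ℝ))⁻¹
    + (∫⁻ x, (ν ![0, 1]).rnDeriv volume x ^ (2 : ℝ))⁻¹
    < (∫⁻ x, (ν (![1, 0] + ![0, 1])).rnDeriv volume x ^ (2 : ℝ))⁻¹ := by
  have e : ∀ {d : ℝ → ℝ≥0∞}, Measurable d →
      ∫⁻ x, (volume.withDensity d).rnDeriv volume x ^ (2 : ℝ) = ∫⁻ x, d x ^ (2 : ℝ) := by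
    intro d hd
    refine lintegral_congr_ae ?_
    filter_upwards [Measure.rnDeriv_withDensity volume hd] with x hx
    rw [hx]
  have e1 : ν ![1, 0] = volume.withDensity fun x => ENNReal.ofReal (k x) := by
    rw [ν_eq, ← μ0_fst]; simp
  have e2 : ν ![0, 1] = volume.withDensity (dV L0) := by
    rw [ν_eq, ← μ0_snd]; simp
  have e3 : ν (![1, 0] + ![0, 1]) = volume.withDensity (dW L0) := by
    rw [ν_eq, ← map_sum]; simp [μ0]
  rw [e1, e2, e3, e k_meas.ennreal_ofReal, e (dV_meas _), e (dW_meas _)]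
  exact key

theorem sqrt_N (I : ℝ≥0∞) : Real.sqrt (I ^ (2 / (1 - (2 : ℝ≥0∞).toReal))).toReal = I⁻¹.toReal := by
  rw [ENNReal.toReal_ofNat, show (2 : ℝ) / (1 - 2) = -1 * 2 by norm_num, ENNReal.rpow_mul,
    ENNReal.rpow_neg_one, ENNReal.rpow_two, ENNReal.toReal_pow, Real.sqrt_sq ENNReal.toReal_nonneg]

end Pool.Agent.H61.Ren
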