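import Pool.Agent.H61.Krein

set_option autoImplicit false
open Filter Topology Set BoundedContinuousFunction

namespace Pool.Agent.H61.Rezaei

variable {X : Type} [NormedAddCommGroup X] [NormedSpace ℝ X]

theorem bound_C (T : X →L[ℝ] X) (x : X) (v : X →L[ℝ] ℂ) (K : ℝ)
    (h : ∀ n : ℕ, ‖v ((T ^ n) x)‖ ≤ K) :
    ∀ y ∈ closure (convexHull ℝ (range fun n : ℕ => (T ^ n) x)), ‖v y‖ ≤ K := by
  have hconv : Convex ℝ (v ⁻¹' Metric.closedBall 0 K) :=
    (convex_closedBall (0 : ℂ) K).linear_preimage (v : X →ₗ[ℝ] ℂ)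
  have hcl : IsClosed (v ⁻¹' Metric.closedBall 0 K) := Metric.isClosed_closedBall.preimage v.continuous
  have hsub : closure (convexHull ℝ (range fun n : ℕ => (T ^ n) x)) ⊆
      v ⁻¹' Metric.closedBall 0 K := by
    apply closure_minimal _ hcl
    apply convexHull_min _ hconv
    rintro _ ⟨n, rfl⟩
    simpa using h n
  intro y hy
  simpa using hsub hy

theorem norm_le_of_ball (T : X →L[ℝ] X) (x : X) (r : ℝ) (hr : 0 < r)
    (hb : Metric.ball (0 : X) r ⊆ closure (convexHull ℝ (range fun n : ℕ => (T ^ n) x)))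
    (v : X →L[ℝ] ℂ) (K : ℝ) (h : ∀ n : ℕ, ‖v ((T ^ n) x)‖ ≤ K) : ‖v‖ ≤ 2 * K / r := by
  have hK : 0 ≤ K := (norm_nonneg _).trans (h 0)
  refine ContinuousLinearMap.opNorm_le_bound _ (by positivity) fun y => ?_
  by_cases hy : y = 0
  · simp [hy]
  · have hn : 0 < ‖y‖ := norm_pos_iff.2 hy
    have h1 : (r / (2 * ‖y‖)) • y ∈ Metric.ball (0 : X) r := by
      rw [mem_ball_zero_iff, norm_smul, Real.norm_eq_abs, abs_of_pos (by positivity)]
      have : r / (2 * ‖y‖) * ‖y‖ = r / 2 := by field_simp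
      rw [this]; linarith
    have h2 := bound_C T x v K h _ (hb h1)
    rw [map_smul, norm_smul, Real.norm_eq_abs, abs_of_pos (by positivity)] at h2
    rw [div_mul_eq_mul_div, div_le_iff₀ (by positivity)] at h2
    rw [div_mul_eq_mul_div, le_div_iff₀ hr]
    linarith

/-- pairs (functional, bounded orbit sequence) -/
def W (T : X →L[ℝ] X) (x : X) : Submodule ℂ ((X →L[ℝ] ℂ) × (ℕ →ᵇ ℂ)) where
  carrier := {p | ∀ n : ℕ, p.2 n = p.1 ((T ^ n) x)}
  add_mem' := by
    intro a b ha hb n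
    simp [ha n, hb n]
  zero_mem' := by intro n; simp
  smul_mem' := by
    intro c a ha n
    simp [ha n]

theorem isClosed_W (T : X →L[ℝ] X) (x : X) :
    IsClosed (W T x : Set ((X →L[ℝ] ℂ) × (ℕ →ᵇ ℂ))) := by
  have : (W T x : Set ((X →L[ℝ] ℂ) × (ℕ →ᵇ ℂ))) = ⋂ n : ℕ, {p | p.2 n = p.1 ((T ^ n) x)} := by
    ext p; simp [W]
  rw [this]
  refine isClosed_iInter fun n => isClosed_eq ?_ ?_
  · exact (continuous_eval_const n).comp continuous_snd
  · exact (continuous_eval_const _).comp continuous_fst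

noncomputable def sh (a : ℕ →ᵇ ℂ) : ℕ →ᵇ ℂ :=
  a.compContinuous ⟨fun n => n + 1, continuous_of_discreteTopology⟩

theorem sh_apply (a : ℕ →ᵇ ℂ) (n : ℕ) : sh a n = a (n + 1) := rfl

noncomputable def Φ0 (T : X →L[ℝ] X) (x : X) : W T x →ₗ[ℂ] W T x where
  toFun := fun p => ⟨(p.1.1.comp T, sh p.1.2), fun n => by
    change p.1.2 (n + 1) = p.1.1 (T ((T ^ n) x))
    rw [p.2 (n + 1), pow_succ']; rfl⟩
  map_add' := fun p q => by
    apply Subtype.ext
    apply Prod.ext
    · ext y; simp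
    · ext n; simp [sh_apply]
  map_smul' := fun c p => by
    apply Subtype.ext
    apply Prod.ext
    · ext y; simp
    · ext n; simp [sh_apply]

noncomputable def Φ (T : X →L[ℝ] X) (x : X) : W T x →L[ℂ] W T x :=
  LinearMap.mkContinuous (𝕜 := ℂ) (𝕜₂ := ℂ) (E := W T x) (F := W T x) (σ := RingHom.id ℂ) (Φ0 T x)
    (‖T‖ + 1) (fun (p : W T x) => by
      change ‖((p.1.1.comp T, sh p.1.2) : (X →L[ℝ] ℂ) × (ℕ →ᵇ ℂ))‖ ≤ (‖T‖ + 1) * ‖p.1‖
      rw [Prod.norm_def]
      have h1 : ‖p.1.1‖ ≤ ‖p.1‖ := norm_fst_le _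
      have h2 : ‖p.1.2‖ ≤ ‖p.1‖ := norm_snd_le _
      have h3 : ‖p.1.1.comp T‖ ≤ ‖p.1.1‖ * ‖T‖ := ContinuousLinearMap.opNorm_comp_le _ _
      have h4 : ‖sh p.1.2‖ ≤ ‖p.1.2‖ := norm_compContinuous_le _ _
      have h5 := norm_nonneg T
      have h6 := norm_nonneg p.1
      have h7 := norm_nonneg p.1.1
      apply max_le
      · nlinarith
      · nlinarith)

theorem bounded_case (T : X →L[ℝ] X) (x : X) (r : ℝ) (hr : 0 < r)
    (hb : Metric.ball (0 : X) r ⊆ closure (convexHull ℝ (range fun n : ℕ => (T ^ n) x)))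
    (v₀ : X →L[ℝ] ℂ) (hv₀ : v₀ ≠ 0) (K : ℝ) (hK : ∀ n : ℕ, ‖v₀ ((T ^ n) x)‖ ≤ K) :
    ∃ (v : X →L[ℝ] ℂ) (l : ℂ), v ≠ 0 ∧ ∀ y, v (T y) = l * v y := by
  have : CompleteSpace (W T x) := (isClosed_W T x).completeSpace_coe
  have : Nontrivial (W T x) := by
    refine ⟨⟨⟨(v₀, ofNormedAddCommGroupDiscrete (fun n => v₀ ((T ^ n) x)) K hK), fun n => rfl⟩,
      0, fun h => hv₀ ?_⟩⟩
    exact congrArg (fun p : W T x => p.1.1) h
  obtain ⟨l, hl⟩ := Pool.Agent.H61.Krein.approx_eigen (W := W T x) (Φ T x)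
  set ρ : ℝ := min 1 (r / 2) with hρ
  have hρpos : 0 < ρ := lt_min one_pos (half_pos hr)
  have key : ∀ ε : ℝ, 0 < ε → ∃ v : X →L[ℝ] ℂ, ‖v‖ ≤ 2 / r ∧ ρ / 2 ≤ ‖v x‖ ∧
      ∀ y, ‖v (T y) - l * v y‖ ≤ ε * ‖y‖ := by
    intro ε hε
    obtain ⟨p, hp1, hp2⟩ := hl (ε * r / 2) (by positivity)
    have hp1' : ‖p.1‖ = 1 := hp1
    have ha1 : ‖p.1.2‖ ≤ 1 := hp1' ▸ norm_snd_le _
    have hv : ‖p.1.1‖ ≤ 2 * ‖p.1.2‖ / r := norm_le_of_ball T x r hr hb _ _ fun n => by
      rw [← p.2 n]; exact norm_coe_le_norm _ _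
    have ha2 : ρ ≤ ‖p.1.2‖ := by
      rw [Prod.norm_def] at hp1'
      rcases max_cases ‖p.1.1‖ ‖p.1.2‖ with h | h
      · rw [h.1] at hp1'
        rw [hp1', le_div_iff₀ hr] at hv
        exact (min_le_right _ _).trans (by linarith)
      · rw [h.1] at hp1'
        exact (min_le_left _ _).trans hp1'.ge
    obtain ⟨n, hn⟩ : ∃ n, ρ / 2 ≤ ‖p.1.2 n‖ := by
      by_contra hno
      push Not at hno
      have : ‖p.1.2‖ ≤ ρ / 2 := (norm_le (by positivity)).2 fun n => (hno n).le
      linarith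
    have hd : ∀ k : ℕ, ‖p.1.2 (k + 1) - l * p.1.2 k‖ ≤ ε * r / 2 := by
      intro k
      have h1 : ‖((Φ T x p - l • p : W T x) : (X →L[ℝ] ℂ) × (ℕ →ᵇ ℂ)).2‖ ≤ ε * r / 2 :=
        (norm_snd_le _).trans hp2.le
      exact (norm_coe_le_norm
        (((Φ T x p - l • p : W T x) : (X →L[ℝ] ℂ) × (ℕ →ᵇ ℂ)).2) k).trans h1
    have hpow : ∀ k : ℕ, (T ^ n) ((T ^ k) x) = (T ^ (n + k)) x := by
      intro k; rw [pow_add]; rfl
    refine ⟨p.1.1.comp (T ^ n), ?_, ?_, ?_⟩
    · have := norm_le_of_ball T x r hr hb (p.1.1.comp (T ^ n)) 1 fun k => by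
        rw [ContinuousLinearMap.comp_apply, hpow, ← p.2]
        exact (norm_coe_le_norm _ _).trans ha1
      simpa using this
    · rw [ContinuousLinearMap.comp_apply, ← p.2]; exact hn
    · intro y
      have h1 := norm_le_of_ball T x r hr hb
        ((p.1.1.comp (T ^ n)).comp T - l • p.1.1.comp (T ^ n)) (ε * r / 2) fun k => by
          have e1 : T ((T ^ k) x) = (T ^ (k + 1)) x := by rw [pow_succ']; rfl
          simp only [_root_.sub_apply, ContinuousLinearMap.comp_apply,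
            _root_.smul_apply, smul_eq_mul]
          rw [e1, hpow, hpow, ← p.2, ← p.2]
          exact hd (n + k)
      have h2 : 2 * (ε * r / 2) / r = ε := by field_simp
      rw [h2] at h1
      exact ((p.1.1.comp (T ^ n)).comp T - l • p.1.1.comp (T ^ n)).le_of_opNorm_le h1 y
  have hcomp := ContinuousLinearMap.isCompact_image_coe_closedBall (0 : X →L[ℝ] ℂ) (2 / r)
  set Kc := ((↑) '' Metric.closedBall (0 : X →L[ℝ] ℂ) (2 / r) : Set (X → ℂ)) with hKc
  let F : ℕ → Set (X → ℂ) := fun k => Kc ∩ {φ | ρ / 2 ≤ ‖φ x‖ ∧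
    ∀ y, ‖φ (T y) - l * φ y‖ ≤ (1 / ((k : ℝ) + 1)) * ‖y‖}
  have hFc : ∀ k, IsClosed (F k) := by
    intro k
    refine hcomp.isClosed.inter (IsClosed.inter ?_ ?_)
    · exact isClosed_le continuous_const (continuous_apply x).norm
    · change IsClosed {φ : X → ℂ | ∀ y, ‖φ (T y) - l * φ y‖ ≤ (1 / ((k : ℝ) + 1)) * ‖y‖}
      rw [ofPred_forall]
      exact isClosed_iInter fun y => isClosed_le
        (by fun_prop) continuous_const
  have hFne : ∀ k, (F k).Nonempty := by
    intro k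
    obtain ⟨v, h1, h2, h3⟩ := key (1 / ((k : ℝ) + 1)) (by positivity)
    exact ⟨v, ⟨v, by simpa using h1, rfl⟩, h2, h3⟩
  have hFd : ∀ k, F (k + 1) ⊆ F k := by
    rintro k φ ⟨h1, h2, h3⟩
    refine ⟨h1, h2, fun y => (h3 y).trans ?_⟩
    gcongr
    linarith
  obtain ⟨φ, hφ⟩ := IsCompact.nonempty_iInter_of_sequence_nonempty_isCompact_isClosed F hFd hFne
    (hcomp.of_isClosed_subset (hFc 0) inter_subset_left) hFc
  rw [mem_iInter] at hφ
  obtain ⟨⟨v, -, rfl⟩, h2, -⟩ := hφ 0
  refine ⟨v, l, ?_, fun y => ?_⟩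
  · rintro rfl
    simp at h2
    linarith
  · have h3 : Tendsto (fun k : ℕ => (1 / ((k : ℝ) + 1)) * ‖y‖) atTop (𝓝 (0 * ‖y‖)) :=
      tendsto_one_div_add_atTop_nhds_zero_nat.mul_const _
    rw [zero_mul] at h3
    have h4 := ge_of_tendsto' h3 fun k => (hφ k).2.2 y
    exact sub_eq_zero.1 (norm_le_zero_iff.1 h4)

theorem real_main (T : X →L[ℝ] X) (x : X)
    (hint : (interior (closure (convexHull ℝ (range fun n : ℕ => (T ^ n) x)))).Nonempty)
    (hne : closure (convexHull ℝ (range fun n : ℕ => (T ^ n) x)) ≠ univ) :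
    ∃ (v : X →L[ℝ] ℂ) (l : ℂ), v ≠ 0 ∧ ∀ y, v (T y) = l * v y := by
  set C := closure (convexHull ℝ (range fun n : ℕ => (T ^ n) x)) with hC
  have hconv : Convex ℝ C := (convex_convexHull ℝ _).closure
  have hTC : ∀ y ∈ C, T y ∈ C := by
    have h1 : MapsTo T (convexHull ℝ (range fun n : ℕ => (T ^ n) x))
        (convexHull ℝ (range fun n : ℕ => (T ^ n) x)) := by
      apply convexHull_min _ ((convex_convexHull ℝ _).linear_preimage (T : X →ₗ[ℝ] X))
      rintro _ ⟨n, rfl⟩
      apply subset_convexHull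
      exact ⟨n + 1, by simp only [pow_succ']; rfl⟩
    exact h1.closure T.continuous
  have hTnC : ∀ (n : ℕ), ∀ y ∈ C, (T ^ n) y ∈ C := by
    intro n
    induction n with
    | zero => intro y hy; simpa using hy
    | succ n ih => intro y hy; rw [pow_succ']; exact hTC _ (ih y hy)
  have hxC : ∀ n : ℕ, (T ^ n) x ∈ C := fun n => subset_closure (subset_convexHull _ _ ⟨n, rfl⟩)
  by_cases h0 : (0 : X) ∈ interior C
  · obtain ⟨r, hr, hb⟩ := Metric.mem_nhds_iff.1 (mem_interior_iff_mem_nhds.1 h0)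
    obtain ⟨y, hy⟩ := (ne_univ_iff_exists_notMem _).1 hne
    obtain ⟨f, u, hf1, hf2⟩ := geometric_hahn_banach_point_closed hconv isClosed_closure hy
    have hu : u < 0 := by simpa using hf2 0 (interior_subset h0)
    set ε : ℝ := r / (2 * (‖x‖ + 1)) with hε
    have hεpos : 0 < ε := by positivity
    have hεx : (-ε) • x ∈ C := by
      apply hb
      rw [mem_ball_zero_iff, norm_smul, Real.norm_eq_abs, abs_neg, abs_of_pos hεpos, hε,
        div_mul_eq_mul_div, div_lt_iff₀ (by positivity)]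
      nlinarith [norm_nonneg x]
    refine bounded_case T x r hr hb (Complex.ofRealCLM.comp f) ?_ (max (-u) (-u / ε)) fun n => ?_
    · intro h
      have h1 : f y = 0 := by
        have := congrArg (fun g : X →L[ℝ] ℂ => g y) h
        simpa using this
      linarith
    · have h1 := hf2 _ (hxC n)
      have h2 := hf2 _ (hTnC n _ hεx)
      rw [map_smul, map_smul, smul_eq_mul] at h2
      simp only [ContinuousLinearMap.comp_apply, Complex.ofRealCLM_apply, Complex.norm_real,
        Real.norm_eq_abs]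
      rw [abs_le]
      constructor
      · have := le_max_left (-u) (-u / ε); linarith
      · refine le_trans ?_ (le_max_right _ _)
        rw [le_div_iff₀ hεpos]; linarith
  · let O : Set X := {y | ∃ t : ℝ, 0 < t ∧ t • y ∈ interior C}
    have hO : IsOpen O := by
      have : O = ⋃ t : ℝ, ⋃ (_ : 0 < t), (fun y => t • y) ⁻¹' interior C := by
        ext y; simp [O]
      rw [this]
      exact isOpen_iUnion fun t => isOpen_iUnion fun _ =>
        isOpen_interior.preimage (continuous_const.smul continuous_id)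
    have hs : ∀ t : ℝ, 0 < t → ∀ y ∈ O, t • y ∈ O := by
      rintro t ht y ⟨s, hs, hy⟩
      refine ⟨s / t, by positivity, ?_⟩
      rwa [smul_smul, div_mul_cancel₀ _ ht.ne']
    have hc : Convex ℝ O := by
      rintro y ⟨s, hs, hy⟩ z ⟨t, ht, hz⟩ a b ha hb hab
      have hpos : 0 < a / s + b / t := by
        rcases eq_or_lt_of_le ha with h | h
        · have : b = 1 := by linarith
          rw [← h, this]; positivity
        · positivity
      refine ⟨(a / s + b / t)⁻¹, inv_pos.2 hpos, ?_⟩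
      have := hconv.interior hy hz (a := (a / s + b / t)⁻¹ * (a / s))
        (b := (a / s + b / t)⁻¹ * (b / t)) (by positivity) (by positivity)
        (by rw [← mul_add, inv_mul_cancel₀ hpos.ne'])
      convert this using 1
      rw [smul_add, smul_smul, smul_smul, smul_smul, smul_smul, mul_assoc, mul_assoc,
        div_mul_cancel₀ _ hs.ne', div_mul_cancel₀ _ ht.ne']
    have hsub : interior C ⊆ O := fun y hy => ⟨1, one_pos, by simpa using hy⟩
    have hCO : C ⊆ closure O := by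
      have := hconv.closure_interior_eq_closure_of_nonempty_interior hint
      calc C ⊆ closure C := subset_closure
        _ = closure (interior C) := this.symm
        _ ⊆ closure O := closure_mono hsub
    obtain ⟨φ, t, hφ, ht⟩ := Pool.Agent.H61.Krein.krein T O hO hc (hint.mono hsub) hs
      (by rintro ⟨t, -, h⟩; exact h0 (by simpa using h)) (by
        rintro y ⟨t, ht, hy⟩
        have h1 := hCO (hTC _ (interior_subset hy))
        have h2 : MapsTo (fun z : X => t⁻¹ • z) (closure O) (closure O) :=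
          MapsTo.closure (fun z hz => hs _ (inv_pos.2 ht) z hz) (continuous_const.smul continuous_id)
        have h3 := h2 h1
        simp only [map_smul] at h3
        rwa [smul_smul, inv_mul_cancel₀ ht.ne', one_smul] at h3)
    refine ⟨Complex.ofRealCLM.comp φ, t, fun h => hφ ?_, fun y => ?_⟩
    · ext y
      have := congrArg (fun g : X →L[ℝ] ℂ => g y) h
      simpa using this
    · simp [ht]

end Pool.Agent.H61.Rezaei

namespace Pool.Agent.H61.Rezaei

variable {X : Type} [NormedAddCommGroup X] [NormedSpace ℂ X]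

noncomputable def toC (g : X →L[ℝ] ℂ) (h : ∀ y, g (Complex.I • y) = Complex.I * g y) :
    X →L[ℂ] ℂ where
  toFun := g
  map_add' := g.map_add
  map_smul' := fun c y => by
    have e : c • y = c.re • y + c.im • (Complex.I • y) := by
      conv_lhs => rw [← Complex.re_add_im c]
      rw [add_smul, mul_smul, Complex.coe_smul, Complex.coe_smul]
    rw [e, map_add, map_smul, map_smul, h]
    conv_rhs => rw [← Complex.re_add_im c]
    simp only [RingHom.id_apply, smul_eq_mul, Complex.real_smul]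
    ring
  cont := g.continuous

theorem main (T : X →L[ℂ] X)
    (hT : ∀ (c : ℂ) (φ : X →L[ℂ] ℂ), φ.comp T = c • φ → φ = 0) (x : X)
    (hint : (interior (closure (convexHull ℝ (range fun n : ℕ => (T ^ n) x)))).Nonempty) :
    closure (convexHull ℝ (range fun n : ℕ => (T ^ n) x)) = univ := by
  by_contra hne
  have hpow : ∀ n : ℕ, ((T.restrictScalars ℝ) ^ n) x = (T ^ n) x := by
    intro n
    induction n with
    | zero => rfl
    | succ n ih => rw [pow_succ', pow_succ', mul_apply_eq_comp, mul_apply_eq_comp, ih]; rfl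
  obtain ⟨v, l, hv, hl⟩ := real_main (T.restrictScalars ℝ) x (by simpa only [hpow] using hint)
    (by simpa only [hpow] using hne)
  have hl' : ∀ y, v (T y) = l * v y := hl
  let J : X →L[ℝ] X := (Complex.I • ContinuousLinearMap.id ℂ X).restrictScalars ℝ
  have hJ : ∀ y, J y = Complex.I • y := fun y => rfl
  have hII : ∀ y : X, Complex.I • Complex.I • y = -y := by
    intro y; rw [smul_smul, Complex.I_mul_I, neg_smul, one_smul]
  let g1 : X →L[ℝ] ℂ := v - Complex.I • v.comp J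
  have hg1 : ∀ y, g1 y = v y - Complex.I * v (Complex.I • y) := fun y => rfl
  let g2 : X →L[ℝ] ℂ := (Complex.conjCLE : ℂ →L[ℝ] ℂ).comp (v + Complex.I • v.comp J)
  have hg2 : ∀ y, g2 y = (starRingEnd ℂ) (v y + Complex.I * v (Complex.I • y)) := fun y => rfl
  have h1 : ∀ y, g1 (Complex.I • y) = Complex.I * g1 y := by
    intro y
    rw [hg1, hg1, hII, map_neg]
    linear_combination (v (Complex.I • y)) * Complex.I_mul_I
  have h2 : ∀ y, g2 (Complex.I • y) = Complex.I * g2 y := by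
    intro y
    rw [hg2, hg2, hII, map_neg]
    simp only [map_add, map_mul, map_neg, Complex.conj_I]
    linear_combination ((starRingEnd ℂ) (v (Complex.I • y))) * Complex.I_mul_I
  have e1 := hT l (toC g1 h1) (by
    ext y
    change g1 (T y) = l * g1 y
    rw [hg1, hg1, ← map_smul, hl', hl']; ring)
  have e2 := hT ((starRingEnd ℂ) l) (toC g2 h2) (by
    ext y
    change g2 (T y) = (starRingEnd ℂ) l * g2 y
    rw [hg2, hg2, ← map_smul, hl', hl', ← map_mul]; congr 1; ring)
  apply hv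
  ext y
  have a1 : g1 y = 0 := congrArg (fun g : X →L[ℂ] ℂ => g y) e1
  have a2 : g2 y = 0 := congrArg (fun g : X →L[ℂ] ℂ => g y) e2
  rw [hg1] at a1
  rw [hg2, map_eq_zero] at a2
  change v y = 0
  linear_combination (a1 + a2) / 2

end Pool.Agent.H61.Rezaei
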