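import Mathlib

set_option autoImplicit false

namespace Pool.Agent.H61.Sail

/-- sign with value `-1` at zero -/
noncomputable def sg (x : ℝ) : ℝ := if 0 < x then 1 else -1

lemma sg_pos {x : ℝ} (h : 0 < x) : sg x = 1 := by simp [sg, h]
lemma sg_neg {x : ℝ} (h : x < 0) : sg x = -1 := by simp [sg, not_lt.mpr h.le]

/-- the reciprocity cocycle -/
noncomputable def H (x y : ℝ) : ℝ := 3 * sg (x * y) - x / y - y / x

lemma H_symm (x y : ℝ) : H x y = H y x := by
  unfold H; rw [mul_comm x y]; ring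

lemma H_neg {x y : ℝ} (hx : x ≠ 0) (hy : y ≠ 0) : H x (-y) = - H x y := by
  unfold H
  have hxy : x * y ≠ 0 := mul_ne_zero hx hy
  rcases lt_or_gt_of_ne hxy with h | h
  · rw [sg_neg h, sg_pos (by linarith : 0 < x * -y)]; ring
  · rw [sg_pos h, sg_neg (by linarith : x * -y < 0)]; ring

lemma H_neg_neg (x y : ℝ) : H (-x) (-y) = H x y := by
  unfold H; rw [neg_mul_neg, neg_div_neg_eq, neg_div_neg_eq]

lemma H_scale {c : ℝ} (hc : 0 < c) (x y : ℝ) : H (c * x) (c * y) = H x y := by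
  unfold H
  rw [mul_div_mul_left _ _ hc.ne', mul_div_mul_left _ _ hc.ne']
  have : sg (c * x * (c * y)) = sg (x * y) := by
    unfold sg
    have e : c * x * (c * y) = (c * c) * (x * y) := by ring
    rw [e]
    simp only [mul_pos_iff_of_pos_left (mul_pos hc hc)]
  rw [this]

lemma H_add {x y : ℝ} (hx : x ≠ 0) (hy : y ≠ 0) (hs : x + y ≠ 0) :
    H x y = H x (x + y) + H (x + y) y := by
  unfold H
  have e : x / (x + y) + (x + y) / x + (x + y) / y + y / (x + y) = 3 + x / y + y / x := by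
    field_simp; ring
  have hsg : sg (x * (x + y)) + sg ((x + y) * y) = 1 + sg (x * y) := by
    rcases lt_or_gt_of_ne hx with h1 | h1 <;> rcases lt_or_gt_of_ne hy with h2 | h2 <;>
      rcases lt_or_gt_of_ne hs with h3 | h3
    · rw [sg_pos (mul_pos_of_neg_of_neg h1 h3), sg_pos (mul_pos_of_neg_of_neg h3 h2),
        sg_pos (mul_pos_of_neg_of_neg h1 h2)]
    · linarith
    · rw [sg_pos (mul_pos_of_neg_of_neg h1 h3), sg_neg (mul_neg_of_neg_of_pos h3 h2),
        sg_neg (mul_neg_of_neg_of_pos h1 h2)]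
    · rw [sg_neg (mul_neg_of_neg_of_pos h1 h3), sg_pos (mul_pos h3 h2),
        sg_neg (mul_neg_of_neg_of_pos h1 h2)]; ring
    · rw [sg_neg (mul_neg_of_pos_of_neg h1 h3), sg_pos (mul_pos_of_neg_of_neg h3 h2),
        sg_neg (mul_neg_of_pos_of_neg h1 h2)]; ring
    · rw [sg_pos (mul_pos h1 h3), sg_neg (mul_neg_of_pos_of_neg h3 h2),
        sg_neg (mul_neg_of_pos_of_neg h1 h2)]
    · linarith
    · rw [sg_pos (mul_pos h1 h3), sg_pos (mul_pos h3 h2), sg_pos (mul_pos h1 h2)]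
  linarith

/-- squared length -/
def N2 (v : ℤ × ℤ) : ℕ := (v.1 ^ 2 + v.2 ^ 2).toNat

lemma N2_cast (v : ℤ × ℤ) : (N2 v : ℤ) = v.1 ^ 2 + v.2 ^ 2 := by
  unfold N2; exact Int.toNat_of_nonneg (by positivity)

def d2 (u v : ℤ × ℤ) : ℤ := u.1 * v.2 - u.2 * v.1

noncomputable def T2 (t1 t2 : ℝ) (v : ℤ × ℤ) : ℝ := v.1 * t1 + v.2 * t2

open Classical in
/-- the potential, by recursion on the length -/
noncomputable def pot (t1 t2 : ℝ) (v : ℤ × ℤ) : ℝ :=
  if h : ∃ u : ℤ × ℤ, d2 u v = 1 ∧ N2 u < N2 v then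
    pot t1 t2 (Classical.choose h) + H (T2 t1 t2 (Classical.choose h)) (T2 t1 t2 v)
  else if v.1 = 0 then H t1 t2 else 0
termination_by N2 v
decreasing_by exact (Classical.choose_spec h).2

lemma short_cases {u u' v : ℤ × ℤ} (h : d2 u v = 1) (h' : d2 u' v = 1) (hu : N2 u < N2 v)
    (hu' : N2 u' < N2 v) : u' = u ∨ u' = u + v ∨ u = u' + v := by
  obtain ⟨a, b⟩ := u
  obtain ⟨a', b'⟩ := u'
  obtain ⟨p, q⟩ := v
  have h1 : ((N2 (a, b) : ℕ) : ℤ) < N2 (p, q) := by exact_mod_cast hu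
  have h2 : ((N2 (a', b') : ℕ) : ℤ) < N2 (p, q) := by exact_mod_cast hu'
  rw [N2_cast, N2_cast] at h1 h2
  simp only [d2] at h h' h1 h2
  set k := a * b' - b * a' with hk
  have ea : a' = a + k * p := by
    rw [hk]; linear_combination (-a') * h + a * h'
  have eb : b' = b + k * q := by
    rw [hk]; linear_combination (-b') * h + b * h'
  clear_value k
  have hk2 : k ^ 2 < 4 := by
    have e : k ^ 2 * (p ^ 2 + q ^ 2) = (a' - a) ^ 2 + (b' - b) ^ 2 := by rw [ea, eb]; ring
    have : k ^ 2 * (p ^ 2 + q ^ 2) < 4 * (p ^ 2 + q ^ 2) := by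
      nlinarith [sq_nonneg (a' + a), sq_nonneg (b' + b)]
    exact lt_of_mul_lt_mul_right this (by positivity)
  have hk3 : -2 < k ∧ k < 2 := by constructor <;> nlinarith
  obtain ⟨h3, h4⟩ := hk3
  interval_cases k
  · right; right; ext <;> simp <;> linarith
  · left; ext <;> simp <;> linarith
  · right; left; ext <;> simp <;> linarith

lemma eq_len {u v : ℤ × ℤ} (h : d2 u v = 1) (he : N2 u = N2 v) : N2 v = 1 := by
  obtain ⟨a, b⟩ := u
  obtain ⟨p, q⟩ := v
  have h1 : ((N2 (a, b) : ℕ) : ℤ) = N2 (p, q) := by exact_mod_cast he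
  have : ((N2 (p, q) : ℕ) : ℤ) = 1 := by
    rw [N2_cast, N2_cast] at h1
    rw [N2_cast]
    simp only [d2] at h h1 ⊢
    have e : (p ^ 2 + q ^ 2 - (a * p + b * q)) * (p ^ 2 + q ^ 2 + (a * p + b * q)) = 1 := by
      linear_combination (-(p ^ 2 + q ^ 2)) * h1 + (a * q - b * p + 1) * h
    rcases Int.eq_one_or_neg_one_of_mul_eq_one' e with ⟨h2, h3⟩ | ⟨h2, h3⟩
    · linarith
    · nlinarith [sq_nonneg p, sq_nonneg q]
  exact_mod_cast this

lemma N2_neg (v : ℤ × ℤ) : N2 (-v) = N2 v := by simp [N2]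

lemma N2_pos {u v : ℤ × ℤ} (h : d2 u v = 1) : 1 ≤ N2 u := by
  obtain ⟨a, b⟩ := u
  have : (1 : ℤ) ≤ N2 (a, b) := by
    rw [N2_cast]
    by_contra hc
    have ha : a = 0 := by nlinarith [sq_nonneg a, sq_nonneg b]
    have hb : b = 0 := by nlinarith [sq_nonneg a, sq_nonneg b]
    simp [d2, ha, hb] at h
  exact_mod_cast this

section
variable {t1 t2 : ℝ} (hT : ∀ v : ℤ × ℤ, v ≠ 0 → T2 t1 t2 v ≠ 0)

lemma T2_add (u v : ℤ × ℤ) : T2 t1 t2 (u + v) = T2 t1 t2 u + T2 t1 t2 v := by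
  simp [T2]; ring

lemma T2_neg (u : ℤ × ℤ) : T2 t1 t2 (-u) = - T2 t1 t2 u := by
  simp [T2]; ring

lemma ne_left {u v : ℤ × ℤ} (h : d2 u v = 1) : u ≠ 0 := by
  rintro rfl; simp [d2] at h

lemma ne_right {u v : ℤ × ℤ} (h : d2 u v = 1) : v ≠ 0 := by
  rintro rfl; simp [d2] at h

lemma pot_small {v : ℤ × ℤ} (h : N2 v ≤ 1) :
    pot t1 t2 v = if v.1 = 0 then H t1 t2 else 0 := by
  rw [pot, dif_neg]
  rintro ⟨u, hu, hlt⟩
  have := N2_pos hu
  omega

include hT in
lemma pot_aux (n : ℕ) : (∀ v, N2 v ≤ n → pot t1 t2 (-v) = pot t1 t2 v) ∧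
    ∀ u v, N2 u ≤ n → N2 v ≤ n → d2 u v = 1 →
      H (T2 t1 t2 u) (T2 t1 t2 v) = pot t1 t2 v - pot t1 t2 u := by
  induction n with
  | zero =>
    refine ⟨fun v hv => ?_, fun u v hu _ h => ?_⟩
    · rw [pot_small (by rw [N2_neg]; omega), pot_small (by omega)]; simp
    · have := N2_pos h; omega
  | succ n ih =>
    obtain ⟨ih1, ih2⟩ := ih
    have key : ∀ u v, N2 v ≤ n + 1 → N2 u < N2 v → d2 u v = 1 →
        pot t1 t2 v = pot t1 t2 u + H (T2 t1 t2 u) (T2 t1 t2 v) := by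
      intro u v hv hu h
      have hex : ∃ u : ℤ × ℤ, d2 u v = 1 ∧ N2 u < N2 v := ⟨u, h, hu⟩
      rw [pot, dif_pos hex]
      obtain ⟨h', hu'⟩ := Classical.choose_spec hex
      generalize Classical.choose hex = u' at h' hu'
      have step : ∀ a : ℤ × ℤ, d2 a v = 1 → N2 a ≤ n → N2 (a + v) ≤ n →
          pot t1 t2 (a + v) + H (T2 t1 t2 (a + v)) (T2 t1 t2 v) =
            pot t1 t2 a + H (T2 t1 t2 a) (T2 t1 t2 v) := by
        intro a ha h1 h2
        have hd : d2 a (a + v) = 1 := by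
          simp only [d2, Prod.fst_add, Prod.snd_add] at ha ⊢; linarith
        have e1 := ih2 a (a + v) h1 h2 hd
        have e2 := H_add (hT a (ne_left ha)) (hT v (ne_right ha))
          (by rw [← T2_add]; exact hT _ (ne_right hd))
        rw [← T2_add] at e2
        linarith
      rcases short_cases h h' hu hu' with rfl | rfl | rfl
      · rfl
      · exact step u h (by omega) (by omega)
      · exact (step u' h' (by omega) (by omega)).symm
    have ev : ∀ v, N2 v ≤ n + 1 → pot t1 t2 (-v) = pot t1 t2 v := by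
      intro v hv
      by_cases hex : ∃ u : ℤ × ℤ, d2 u v = 1 ∧ N2 u < N2 v
      · obtain ⟨u, h, hu⟩ := hex
        have hd : d2 (-u) (-v) = 1 := by simpa [d2] using h
        rw [key u v hv hu h, key (-u) (-v) (by rwa [N2_neg]) (by rwa [N2_neg, N2_neg]) hd,
          ih1 u (by omega), T2_neg, T2_neg, H_neg_neg]
      · have hex' : ¬ ∃ u : ℤ × ℤ, d2 u (-v) = 1 ∧ N2 u < N2 (-v) := by
          rintro ⟨u, h, hu⟩
          refine hex ⟨-u, ?_, by rwa [N2_neg] at hu ⊢⟩
          simp only [d2, Prod.fst_neg, Prod.snd_neg] at h ⊢; linarith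
        rw [pot, dif_neg hex', pot, dif_neg hex]; simp
    refine ⟨ev, fun u v hu hv h => ?_⟩
    rcases lt_trichotomy (N2 u) (N2 v) with hlt | heq | hgt
    · rw [key u v hv hlt h]; ring
    · have h1 := eq_len h heq
      rw [pot_small h1.le, pot_small (heq ▸ h1).le]
      have ht1 : t1 ≠ 0 := by simpa [T2] using hT (1, 0) (by simp)
      have ht2 : t2 ≠ 0 := by simpa [T2] using hT (0, 1) (by simp)
      obtain ⟨a, b⟩ := u
      obtain ⟨p, q⟩ := v
      have e1 : ((N2 (a, b) : ℕ) : ℤ) = 1 := by rw [heq, h1]; rfl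
      have e2 : ((N2 (p, q) : ℕ) : ℤ) = 1 := by rw [h1]; rfl
      rw [N2_cast] at e1 e2
      simp only [d2] at h e1 e2
      have ha : -2 < a ∧ a < 2 := by constructor <;> nlinarith [sq_nonneg b]
      have hb : -2 < b ∧ b < 2 := by constructor <;> nlinarith [sq_nonneg a]
      have hp : -2 < p ∧ p < 2 := by constructor <;> nlinarith [sq_nonneg q]
      have hq : -2 < q ∧ q < 2 := by constructor <;> nlinarith [sq_nonneg p]
      obtain ⟨_, _⟩ := ha
      obtain ⟨_, _⟩ := hb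
      obtain ⟨_, _⟩ := hp
      obtain ⟨_, _⟩ := hq
      interval_cases a <;> interval_cases b <;> interval_cases p <;> interval_cases q <;>
        simp at h e1 e2 <;> simp [T2]
      · exact H_neg_neg _ _
      · rw [H_symm, H_neg ht1 ht2]
      · rw [H_neg ht2 ht1, H_symm]
    · have hd : d2 (-v) u = 1 := by
        simp only [d2, Prod.fst_neg, Prod.snd_neg] at h ⊢; linarith
      have e := key (-v) u hu (by rwa [N2_neg]) hd
      rw [ev v hv, T2_neg, H_symm, H_neg (hT u (ne_left h)) (hT v (ne_right h))] at e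
      linarith

include hT in
lemma pot_spec (u v : ℤ × ℤ) (h : d2 u v = 1) :
    H (T2 t1 t2 u) (T2 t1 t2 v) = pot t1 t2 v - pot t1 t2 u :=
  (pot_aux hT (max (N2 u) (N2 v))).2 u v (le_max_left _ _) (le_max_right _ _) h

end

/-- sums of invariant functions over a finite quotient do not see equivariant bijections -/
lemma sum_out {X : Type} (s : Setoid X) [Fintype (Quotient s)] (σ σ' : X → X)
    (h1 : ∀ x y, s.r x y → s.r (σ x) (σ y)) (h2 : ∀ x y, s.r x y → s.r (σ' x) (σ' y))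
    (hinv : ∀ x, σ' (σ x) = x) (F : X → ℝ) (hF : ∀ x y, s.r x y → F x = F y) :
    ∑ q : Quotient s, F (σ q.out) = ∑ q : Quotient s, F q.out := by
  let e : Quotient s → Quotient s := Quotient.map σ (fun x y h => h1 x y h)
  have hinj : Function.Injective e := by
    intro a b
    induction a using Quotient.inductionOn with | _ x => ?_
    induction b using Quotient.inductionOn with | _ y => ?_
    intro h
    have h3 : s.r (σ x) (σ y) := Quotient.exact h
    have h4 := h2 _ _ h3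
    rw [hinv, hinv] at h4
    exact Quotient.sound h4
  have hbij : Function.Bijective e := Finite.injective_iff_bijective.mp hinj
  rw [← hbij.sum_comp (fun q : Quotient s => F q.out)]
  refine Finset.sum_congr rfl fun q _ => hF _ _ ?_
  have : e q = Quotient.mk s (σ q.out) := by
    conv_lhs => rw [← Quotient.out_eq q]
    rfl
  rw [this]
  exact s.symm (Quotient.mk_out _)

end Pool.Agent.H61.Sail
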