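import Pool.Agent.H61.SailA

set_option autoImplicit false

namespace Pool.Agent.H61.Sail

abbrev V := Fin 3 → ℤ

/-- determinant of three integer vectors -/
def D (u v w : V) : ℤ :=
  u 0 * (v 1 * w 2 - v 2 * w 1) - u 1 * (v 0 * w 2 - v 2 * w 0) + u 2 * (v 0 * w 1 - v 1 * w 0)

lemma D_rot (u v w : V) : D v w u = D u v w := by unfold D; ring
lemma D_swap (u v w : V) : D v u w = - D u v w := by unfold D; ring

lemma D_comb (p q u v w : V) (a b c : ℤ) :
    D p q (a • u + b • v + c • w) = a * D p q u + b * D p q v + c * D p q w := by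
  simp only [D, Pi.add_apply, Pi.smul_apply, smul_eq_mul]; ring

lemma D_self1 (u v : V) : D u v u = 0 := by unfold D; ring
lemma D_self2 (u v : V) : D u v v = 0 := by unfold D; ring

lemma cramer (u v w z : V) : D u v w • z = D z v w • u + D u z w • v + D u v z • w := by
  funext i
  fin_cases i <;> simp [D] <;> ring

lemma coords {u v w : V} (h : D u v w = 1) (z : V) : ∃ a b c : ℤ, z = a • u + b • v + c • w :=
  ⟨_, _, _, by rw [← cramer, h, one_smul]⟩

lemma map_comb (f : V →+ ℝ) (u v w : V) (a b c : ℤ) :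
    f (a • u + b • v + c • w) = a * f u + b * f v + c * f w := by
  rw [map_add, map_add, map_zsmul, map_zsmul, map_zsmul]
  simp only [zsmul_eq_mul]

/-- the determinant as a real functional of its last argument -/
def Dn (p q : V) : V →+ ℝ where
  toFun z := (D p q z : ℝ)
  map_zero' := by simp [D]
  map_add' x y := by
    simp only [D, Pi.add_apply]; push_cast; ring

@[simp] lemma Dn_apply (p q z : V) : Dn p q z = (D p q z : ℝ) := rfl

lemma exists_lin {u v w : V} (h : D u v w = 1) (x y t : ℝ) :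
    ∃ f : V →+ ℝ, f u = x ∧ f v = y ∧ f w = t := by
  refine ⟨x • Dn v w + y • Dn w u + t • Dn u v, ?_, ?_, ?_⟩
  · simp [D_rot u v w, h, D_self1, D_self2]
  · simp [D_rot v w u, D_rot u v w, h, D_self1, D_self2]
  · simp [h, D_self1, D_self2]

lemma comb_ne {u v w : V} (h : D u v w = 1) {a b c : ℤ} (hc : a ≠ 0 ∨ b ≠ 0 ∨ c ≠ 0) :
    a • u + b • v + c • w ≠ 0 := by
  intro h0
  have h1 := D_comb v w u v w a b c
  have h2 := D_comb w u u v w a b c
  have h3 := D_comb u v u v w a b c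
  rw [h0] at h1 h2 h3
  rw [D_rot u v w, h, D_self1, D_self2] at h1
  rw [D_rot v w u, D_rot u v w, h, D_self1, D_self2] at h2
  rw [h, D_self1, D_self2] at h3
  simp [D] at h1 h2 h3
  omega

/-- the data extracted from a totally real cubic operator -/
structure Sys where
  L : Fin 3 → V →+ ℝ
  ne : ∀ j z, z ≠ 0 → L j z ≠ 0
  tne : ∀ u v w, D u v w ≠ 0 → L 1 u * L 2 v - L 2 u * L 1 v ≠ 0
  fin : ∀ B : ℝ, {z : V | ∀ j, |L j z| ≤ B}.Finite
  rep : ∀ f : V →+ ℝ, ∃ c : Fin 3 → ℝ, ∀ z, f z = ∑ j, c j * L j z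
  pos : ∃ z, ∀ j, 0 < L j z
  unit : ∀ i, ∃ (g : V ≃+ V) (l : Fin 3 → ℝ), (∀ u v w, D (g u) (g v) (g w) = D u v w) ∧
    (∀ j, 0 < l j) ∧ (∀ j z, L j (g z) = l j * L j z) ∧ ∀ j, j ≠ i → l j < 1

namespace Sys

variable (S : Sys)

def Pos (z : V) : Prop := ∀ j, 0 < S.L j z

def Supp (f : V →+ ℝ) : Prop := ∀ z, S.Pos z → 1 ≤ f z

/-- all faces are at distance one -/
def AllOne : Prop := ∀ f : V →+ ℝ, S.Supp f → ∀ p q r, S.Pos p → S.Pos q → S.Pos r →
  f p = 1 → f q = 1 → f r = 1 → D p q r ≠ 0 → ∀ z, ∃ k : ℤ, f z = k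

variable {S}

lemma L_inj (j : Fin 3) {x y : V} (h : S.L j x = S.L j y) : x = y := by
  by_contra hne
  exact S.ne j (x - y) (sub_ne_zero.mpr hne) (by rw [map_sub, h, sub_self])

lemma supp_coef {f : V →+ ℝ} (hf : S.Supp f) {c : Fin 3 → ℝ}
    (hc : ∀ z, f z = ∑ j, c j * S.L j z) (i : Fin 3) : 0 < c i := by
  by_contra hi
  push Not at hi
  obtain ⟨g, l, -, hl, hg, hl1⟩ := S.unit i
  obtain ⟨u, hu⟩ := S.pos
  have hk : ∀ (k : ℕ) j, S.L j (g^[k] u) = l j ^ k * S.L j u := by
    intro k j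
    induction k with
    | zero => simp
    | succ k ih => rw [Function.iterate_succ_apply', hg, ih]; ring
  have ht : Filter.Tendsto (fun k : ℕ => ∑ j, if j = i then 0 else c j * (l j ^ k * S.L j u))
      Filter.atTop (nhds (∑ _j : Fin 3, (0 : ℝ))) := by
    refine tendsto_finsetSum _ fun j _ => ?_
    by_cases hj : j = i
    · simp [hj]
    · simp only [hj, if_false]
      have := ((tendsto_pow_atTop_nhds_zero_of_lt_one (hl j).le (hl1 j hj)).mul_const
        (S.L j u)).const_mul (c j)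
      simpa using this
  rw [Finset.sum_const_zero] at ht
  obtain ⟨k, hk1⟩ := (ht.eventually (gt_mem_nhds zero_lt_one)).exists
  have h1 := hf (g^[k] u) (fun j => by rw [hk]; exact mul_pos (pow_pos (hl j) k) (hu j))
  rw [hc] at h1
  refine absurd (h1.trans (Finset.sum_le_sum fun j _ => ?_)) (not_le.mpr hk1)
  rw [hk]
  by_cases hj : j = i
  · subst hj
    simp only [if_true]
    exact mul_nonpos_of_nonpos_of_nonneg hi (mul_pos (pow_pos (hl j) k) (hu j)).le
  · simp [hj]

lemma fin_sub {f : V →+ ℝ} (hf : S.Supp f) (B : ℝ) : {z | S.Pos z ∧ f z ≤ B}.Finite := by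
  obtain ⟨c, hc⟩ := S.rep f
  have hp := supp_coef hf hc
  refine (S.fin (∑ j, |B| / c j)).subset ?_
  rintro z ⟨hz, hB⟩ j
  rw [abs_of_pos (hz j)]
  have h1 : c j * S.L j z ≤ f z := by
    rw [hc]
    exact Finset.single_le_sum (f := fun j => c j * S.L j z)
      (fun i _ => (mul_pos (hp i) (hz i)).le) (Finset.mem_univ j)
  have h2 : S.L j z ≤ |B| / c j := by
    rw [le_div_iff₀ (hp j)]; linarith [le_abs_self B]
  exact h2.trans (Finset.single_le_sum (f := fun j => |B| / c j)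
    (fun i _ => div_nonneg (abs_nonneg _) (hp i).le) (Finset.mem_univ j))

lemma bound {f : V →+ ℝ} (hf : S.Supp f) (n : V →+ ℝ) :
    ∃ C : ℝ, 0 < C ∧ ∀ z, S.Pos z → n z ≤ C * f z := by
  obtain ⟨c, hc⟩ := S.rep f
  obtain ⟨d, hd⟩ := S.rep n
  have hp := supp_coef hf hc
  have h0 : 0 ≤ ∑ j, |d j| / c j :=
    Finset.sum_nonneg fun i _ => div_nonneg (abs_nonneg _) (hp i).le
  refine ⟨∑ j, |d j| / c j + 1, by linarith, fun z hz => ?_⟩
  rw [hc, hd, Finset.mul_sum]
  refine Finset.sum_le_sum fun j _ => ?_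
  have h1 : |d j| / c j ≤ ∑ j, |d j| / c j := Finset.single_le_sum (f := fun j => |d j| / c j)
    (fun i _ => div_nonneg (abs_nonneg _) (hp i).le) (Finset.mem_univ j)
  have h2 : d j ≤ (∑ j, |d j| / c j + 1) * c j := by
    rw [div_le_iff₀ (hp j)] at h1
    nlinarith [le_abs_self (d j), hp j]
  rw [← mul_assoc]
  exact mul_le_mul_of_nonneg_right h2 (hz j).le

lemma big {p : V} (hp : S.Pos p) (e : V) : ∃ N : ℤ, S.Pos (N • p + e) := by
  obtain ⟨N, hN⟩ := exists_int_gt (∑ j, |S.L j e| / S.L j p)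
  refine ⟨N, fun j => ?_⟩
  have h1 : |S.L j e| / S.L j p ≤ ∑ j, |S.L j e| / S.L j p :=
    Finset.single_le_sum (f := fun j => |S.L j e| / S.L j p)
      (fun i _ => div_nonneg (abs_nonneg _) (hp i).le) (Finset.mem_univ j)
  have h2 := h1.trans_lt hN
  rw [div_lt_iff₀ (hp j)] at h2
  rw [map_add, map_zsmul, zsmul_eq_mul]
  linarith [neg_abs_le (S.L j e)]

lemma pos_min {A : Set V} (hA : A.Finite) (h : V → ℝ) (hh : ∀ x ∈ A, 0 < h x) :
    ∃ ε, 0 < ε ∧ ∀ x ∈ A, ε ≤ h x := by
  rcases A.eq_empty_or_nonempty with rfl | hne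
  · exact ⟨1, one_pos, by simp⟩
  · obtain ⟨a, ha, hm⟩ := Set.exists_min_image A h hA hne
    exact ⟨h a, hh a ha, hm⟩

/-- rotating a supporting plane until it meets a new point -/
lemma rot {f : V →+ ℝ} (hf : S.Supp f) {p a e : V} (hp : S.Pos p) (he : 0 < D p a e) :
    ∃ (t : ℝ) (f' : V →+ ℝ), 0 ≤ t ∧ S.Supp f' ∧ (∀ z, f' z = f z - t * D p a z) ∧
      ∃ x, S.Pos x ∧ 0 < D p a x ∧ f' x = 1 := by
  obtain ⟨N, hN⟩ := big hp e
  have hx0 : 0 < D p a (N • p + e) := by
    have : D p a (N • p + e) = D p a e := by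
      simp only [D, Pi.add_apply, Pi.smul_apply, smul_eq_mul]; ring
    rwa [this]
  let R : Set ℝ := {r | ∃ x, S.Pos x ∧ 0 < D p a x ∧ r = (f x - 1) / D p a x}
  have hR : R.Nonempty := ⟨_, _, hN, hx0, rfl⟩
  have hlb : ∀ r ∈ R, 0 ≤ r := by
    rintro r ⟨x, hx, hd, rfl⟩
    exact div_nonneg (by linarith [hf x hx]) (by exact_mod_cast hd.le)
  have hbd : BddBelow R := ⟨0, hlb⟩
  have ht : 0 ≤ sInf R := le_csInf hR hlb
  have hs : S.Supp (f - sInf R • Dn p a) := by
    intro x hx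
    simp only [AddMonoidHom.sub_apply, AddMonoidHom.smul_apply, Dn_apply, smul_eq_mul]
    rcases lt_or_ge 0 (D p a x) with hd | hd
    · have h1 : sInf R ≤ (f x - 1) / D p a x := csInf_le hbd ⟨x, hx, hd, rfl⟩
      rw [le_div_iff₀ (by exact_mod_cast hd)] at h1
      linarith
    · have h1 : (D p a x : ℝ) ≤ 0 := by exact_mod_cast hd
      nlinarith [hf x hx]
  refine ⟨sInf R, f - sInf R • Dn p a, ht, hs, fun z => by simp, ?_⟩
  set f' := f - sInf R • Dn p a with hf'
  have hfz : ∀ z, f' z = f z - sInf R * D p a z := fun z => by simp [hf']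
  by_contra hcon
  push Not at hcon
  obtain ⟨C, hC, hb⟩ := bound hs (Dn p a)
  obtain ⟨ε, hε, hm⟩ := pos_min (A := {z | (S.Pos z ∧ f' z ≤ 2) ∧ 0 < D p a z})
    ((fin_sub hs 2).subset fun z hz => hz.1) (fun z => (f' z - 1) / D p a z) (by
      rintro z ⟨⟨hz, -⟩, hd⟩
      exact div_pos (sub_pos.mpr (lt_of_le_of_ne (hs z hz) (hcon z hz hd).symm))
        (by exact_mod_cast hd))
  have hlow : sInf R + min ε (1 / (2 * C)) ≤ sInf R := by
    refine le_csInf hR ?_
    rintro r ⟨x, hx, hd, rfl⟩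
    have hd' : (0 : ℝ) < D p a x := by exact_mod_cast hd
    have h1 : min ε (1 / (2 * C)) ≤ (f' x - 1) / D p a x := by
      rcases le_or_gt (f' x) 2 with h2 | h2
      · exact (min_le_left _ _).trans (hm x ⟨⟨hx, h2⟩, hd⟩)
      · refine (min_le_right _ _).trans ?_
        rw [div_le_div_iff₀ (by positivity) hd']
        have := hb x hx
        rw [Dn_apply] at this
        nlinarith
    rw [le_div_iff₀ hd'] at h1 ⊢
    rw [hfz] at h1
    linarith
  have : 0 < min ε (1 / (2 * C)) := lt_min hε (by positivity)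
  linarith

variable (S)

/-- the height used to triangulate faces -/
def ht (z : V) : ℝ := S.L 0 z ^ 2

/-- triangles of the canonical triangulation -/
def Tri (u v w : V) : Prop :=
  D u v w = 1 ∧ S.Pos u ∧ S.Pos v ∧ S.Pos w ∧ ∀ a b c : ℤ, S.Pos (a • u + b • v + c • w) →
    1 ≤ a + b + c ∧ (a + b + c = 1 → (a = 1 ∧ b = 0) ∨ (b = 1 ∧ c = 0) ∨ (c = 1 ∧ a = 0) ∨
      a * S.ht u + b * S.ht v + c * S.ht w < S.ht (a • u + b • v + c • w))

variable {S}

lemma Tri.rot {u v w : V} (h : S.Tri u v w) : S.Tri v w u := by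
  obtain ⟨hD, hu, hv, hw, h⟩ := h
  refine ⟨by rw [D_rot, hD], hv, hw, hu, fun a b c hp => ?_⟩
  have e : a • v + b • w + c • u = c • u + a • v + b • w := by abel
  rw [e] at hp ⊢
  obtain ⟨h1, h2⟩ := h c a b hp
  refine ⟨by linarith, fun h3 => ?_⟩
  rcases h2 (by linarith) with h4 | h4 | h4 | h4
  · exact Or.inr (Or.inr (Or.inl h4))
  · exact Or.inl h4
  · exact Or.inr (Or.inl h4)
  · exact Or.inr (Or.inr (Or.inr (by linarith)))

lemma Tri.uniq {u v w w' : V} (h : S.Tri u v w) (h' : S.Tri u v w') : w = w' := by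
  obtain ⟨hD, -, -, hw, h⟩ := h
  obtain ⟨hD', -, -, hw', h'⟩ := h'
  obtain ⟨a, b, c, e⟩ := coords hD w'
  have hc : c = 1 := by
    rw [e, D_comb, D_self1, D_self2, hD] at hD'; linarith
  subst hc
  have e' : w = (-a) • u + (-b) • v + (1 : ℤ) • w' := by rw [e]; module
  obtain ⟨h1, h2⟩ := h a b 1 (e ▸ hw')
  obtain ⟨h3, h4⟩ := h' (-a) (-b) 1 (e' ▸ hw)
  rw [← e] at h2
  rw [← e'] at h4
  by_cases ha : a = 0
  · have hb : b = 0 := by omega
    rw [e, ha, hb]; simp
  · rcases h2 (by omega) with h5 | h5 | h5 | h5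
    · omega
    · omega
    · omega
    · rcases h4 (by omega) with h6 | h6 | h6 | h6
      · omega
      · omega
      · omega
      · push_cast at h5 h6; linarith

lemma ext (hA : S.AllOne) {u v w : V} (hD : D u v w = 1) (hu : S.Pos u) (hv : S.Pos v)
    {f m : V →+ ℝ} (hf : S.Supp f) (fu : f u = 1) (fv : f v = 1) (mu : m u = S.ht u)
    (mv : m v = S.ht v)
    (hm : ∀ x, S.Pos x → f x = 1 → m x ≤ S.ht x ∧ (0 < D v u x → m x < S.ht x)) :
    ∃ w', S.Tri v u w' := by
  obtain ⟨t, f', ht, hf', hfz, x1, hx1, hd1, hf1⟩ := rot hf (a := u) (e := -w) hv (by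
    have : D v u (-w) = D u v w := by simp only [D, Pi.neg_apply]; ring
    rw [this, hD]; exact one_pos)
  have fu' : f' u = 1 := by rw [hfz, D_self2, fu]; simp
  have fv' : f' v = 1 := by rw [hfz, D_self1, fv]; simp
  obtain ⟨k0, hk0⟩ := hA f' hf' v u x1 hv hu hx1 fv' fu' hf1 hd1.ne' w
  obtain ⟨e, he, fe⟩ : ∃ e, D v u e = 1 ∧ f' e = 1 := by
    refine ⟨(0 : ℤ) • v + (1 + k0) • u + (-1 : ℤ) • w, ?_, ?_⟩
    · rw [D_comb, D_self1, D_self2, D_swap, hD]; ring
    · rw [map_comb, fu', hk0]; push_cast; ring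
  obtain ⟨w', ⟨⟨hw', fw0⟩, dw'⟩, hmin⟩ := Set.exists_min_image
    {z | (S.Pos z ∧ f' z ≤ 1) ∧ 0 < D v u z} (fun z => (S.ht z - m z) / D v u z)
    ((fin_sub hf' 1).subset fun z hz => hz.1) ⟨x1, ⟨hx1, hf1.le⟩, hd1⟩
  have fw' : f' w' = 1 := le_antisymm fw0 (hf' _ hw')
  set q := (S.ht w' - m w') / D v u w' with hq
  obtain ⟨m', hm'⟩ : ∃ m' : V →+ ℝ, ∀ z, m' z = m z + q * D v u z :=
    ⟨m + q • Dn v u, fun z => by simp⟩
  have mu' : m' u = S.ht u := by rw [hm', D_self2, mu]; simp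
  have mv' : m' v = S.ht v := by rw [hm', D_self1, mv]; simp
  have mw' : m' w' = S.ht w' := by
    have : (D v u w' : ℝ) ≠ 0 := by exact_mod_cast dw'.ne'
    rw [hm', hq]; field_simp; ring
  have hge : ∀ x, S.Pos x → f' x = 1 → 0 < D v u x → m' x ≤ S.ht x := by
    intro x hx h1 h2
    have h3 := hmin x ⟨⟨hx, h1.le⟩, h2⟩
    rw [le_div_iff₀ (by exact_mod_cast h2)] at h3
    rw [hm']; linarith
  have hneg : ∀ x, S.Pos x → f' x = 1 → D v u x < 0 → m' x < S.ht x := by
    intro x hx h1 h2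
    have h2' : (D v u x : ℝ) < 0 := by exact_mod_cast h2
    have ht0 : t = 0 := by
      have := hf x hx
      rw [hfz] at h1
      nlinarith
    have hff : ∀ z, f' z = f z := fun z => by rw [hfz, ht0]; simp
    have hq0 : 0 < q :=
      div_pos (sub_pos.mpr ((hm w' hw' (by rw [← hff, fw'])).2 dw')) (by exact_mod_cast dw')
    have := (hm x hx (by rw [← hff, h1])).1
    rw [hm']; nlinarith
  have huv : S.L 0 v ≠ S.L 0 u := fun h => by
    rw [L_inj 0 h, D_swap] at he; simp [D] at he; ring_nf at he; omega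
  have tie : ∀ x, S.Pos x → f' x = 1 → 0 < D v u x → m' x = S.ht x → D v u x = 1 := by
    intro x hx h1 h2 h3
    obtain ⟨a, b, k, ex⟩ := coords he x
    have hk : D v u x = k := by rw [ex, D_comb, D_self1, D_self2, he]; ring
    have hs : a + b + k = 1 := by
      rw [ex, map_comb, fv', fu', fe] at h1
      have : ((a + b + k : ℤ) : ℝ) = 1 := by push_cast; linarith
      exact_mod_cast this
    rw [hk] at h2 ⊢
    by_contra hk1
    have hk2 : 2 ≤ k := by omega
    have hs0 := Int.emod_nonneg (-a) h2.ne'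
    have hs1 := Int.emod_lt_of_pos (-a) h2
    have hs2 := Int.emod_add_mul_ediv (-a) k
    set s := (-a) % k
    set A := (-a) / k
    have ey : k • ((-A) • v + A • u + (1 : ℤ) • e) = (1 : ℤ) • x + s • v + (k - 1 - s) • u := by
      rw [ex]
      have ea : a = -s - k * A := by linarith
      have eb : b = 1 - k + s + k * A := by linarith
      rw [ea, eb]; module
    set y := (-A) • v + A • u + (1 : ℤ) • e with hy
    have hkr : (0 : ℝ) < k := by exact_mod_cast h2
    have hs0' : (0 : ℝ) ≤ s := by exact_mod_cast hs0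
    have hs1' : (0 : ℝ) ≤ k - 1 - s := by
      have : (0 : ℤ) ≤ k - 1 - s := by omega
      exact_mod_cast this
    have hk2' : (2 : ℝ) ≤ k := by exact_mod_cast hk2
    have hlin : ∀ g : V →+ ℝ, k * g y = g x + s * g v + (k - 1 - s) * g u := by
      intro g
      have := congrArg g ey
      rw [map_zsmul, zsmul_eq_mul, map_comb g x] at this
      push_cast at this; linarith
    have py : S.Pos y := by
      intro j
      have := hlin (S.L j)
      have h4 := hx j
      have h5 := mul_nonneg hs0' (hv j).le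
      have h6 := mul_nonneg hs1' (hu j).le
      exact (mul_pos_iff_of_pos_left hkr).mp (by linarith)
    have fy : f' y = 1 := by rw [hy, map_comb, fv', fu', fe]; push_cast; ring
    have dy : D v u y = 1 := by rw [hy, D_comb, D_self1, D_self2, he]; ring
    have h7 := hge y py fy (by omega)
    have h8 := hlin m'
    have h9 := hlin (S.L 0)
    rw [h3, mv', mu'] at h8
    have hxv : S.L 0 x ≠ S.L 0 v := fun h => by
      rw [L_inj 0 h, D_self1] at hk; omega
    have hxu : S.L 0 x ≠ S.L 0 u := fun h => by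
      rw [L_inj 0 h, D_self2] at hk; omega
    unfold Sys.ht at h7 h8
    set W := S.L 0 x
    set P := S.L 0 v
    set Q := S.L 0 u
    set Y := S.L 0 y
    have e1 : (k : ℝ) * (k * m' y) - (k * Y) ^ 2 =
        s * (W - P) ^ 2 + (k - 1 - s) * (W - Q) ^ 2 + s * (k - 1 - s) * (P - Q) ^ 2 := by
      rw [h8, h9]; ring
    have p1 : 0 < (W - P) ^ 2 := by have := sub_ne_zero.mpr hxv; positivity
    have p2 : 0 < (W - Q) ^ 2 := by have := sub_ne_zero.mpr hxu; positivity
    have p3 : 0 ≤ s * (k - 1 - s) * (P - Q) ^ 2 := by positivity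
    have p4 : 0 < s * (W - P) ^ 2 + (k - 1 - s) * (W - Q) ^ 2 := by
      rcases eq_or_lt_of_le hs0' with h | h
      · rw [← h]; nlinarith
      · nlinarith [mul_nonneg hs1' p2.le, mul_pos h p1]
    have p5 : (k : ℝ) * (k * m' y) ≤ (k * Y) ^ 2 := by
      have := mul_le_mul_of_nonneg_left h7 (mul_pos hkr hkr).le
      nlinarith
    linarith
  have dw1 := tie w' hw' fw' dw' mw'
  refine ⟨w', dw1, hv, hu, hw', fun a b c hp => ?_⟩
  have fx : f' (a • v + b • u + c • w') = ((a + b + c : ℤ) : ℝ) := by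
    rw [map_comb, fv', fu', fw']; push_cast; ring
  have dx : D v u (a • v + b • u + c • w') = c := by rw [D_comb, D_self1, D_self2, dw1]; ring
  have mx : m' (a • v + b • u + c • w') = a * S.ht v + b * S.ht u + c * S.ht w' := by
    rw [map_comb, mv', mu', mw']
  refine ⟨by have := hf' _ hp; rw [fx] at this; exact_mod_cast this, fun hs => ?_⟩
  have fx1 : f' (a • v + b • u + c • w') = 1 := by rw [fx, hs]; simp
  rcases lt_trichotomy c 0 with hc | hc | hc
  · right; right; right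
    rw [← mx]; exact hneg _ hp fx1 (by omega)
  · subst hc
    by_cases ha1 : a = 1
    · left; omega
    by_cases ha0 : a = 0
    · right; left; omega
    right; right; right
    have eb : b = 1 - a := by omega
    subst eb
    unfold Sys.ht
    rw [map_comb]
    have h1 : (0 : ℝ) < a * (a - 1) := by
      have : (0 : ℤ) < a * (a - 1) := by
        rcases lt_or_gt_of_ne ha0 with h | h
        · nlinarith
        · have : 1 < a := by omega
          nlinarith
      exact_mod_cast this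
    have h2 : 0 < (S.L 0 v - S.L 0 u) ^ 2 := by have := sub_ne_zero.mpr huv; positivity
    push_cast
    nlinarith [mul_pos h1 h2]
  · have h1 := hge _ hp fx1 (by omega)
    rcases eq_or_lt_of_le h1 with h2 | h2
    · have h3 := tie _ hp fx1 (by omega) h2
      have hc1 : c = 1 := by omega
      subst hc1
      by_cases ha0 : a = 0
      · right; right; left; omega
      exfalso
      have eb : b = -a := by omega
      subst eb
      rw [mx] at h2
      unfold Sys.ht at h2
      rw [map_comb] at h2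
      have h4 := S.ne 0 _ (comb_ne dw1 (a := a - 1) (b := -a - 1) (c := 2) (by omega))
      rw [map_comb] at h4
      have h5 : (a : ℝ) ≠ 0 := by exact_mod_cast ha0
      refine mul_ne_zero (mul_ne_zero h5 (sub_ne_zero.mpr huv)) h4 ?_
      push_cast at h2 ⊢
      linear_combination (-1 : ℝ) * h2
    · right; right; right
      rwa [← mx]

lemma Tri.lin {u v w : V} (h : S.Tri u v w) :
    ∃ f : V →+ ℝ, S.Supp f ∧ f u = 1 ∧ f v = 1 ∧ f w = 1 ∧ ∀ z, ∃ k : ℤ, f z = k := by
  obtain ⟨f, fu, fv, fw⟩ := exists_lin h.1 1 1 1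
  refine ⟨f, fun z hz => ?_, fu, fv, fw, fun z => ?_⟩
  · obtain ⟨a, b, c, rfl⟩ := coords h.1 z
    have := (h.2.2.2.2 a b c hz).1
    rw [map_comb, fu, fv, fw]
    have h1 : (1 : ℝ) ≤ ((a + b + c : ℤ) : ℝ) := by exact_mod_cast this
    push_cast at h1; linarith
  · obtain ⟨a, b, c, rfl⟩ := coords h.1 z
    exact ⟨a + b + c, by rw [map_comb, fu, fv, fw]; push_cast; ring⟩

lemma Tri.flip (hA : S.AllOne) {u v w : V} (h : S.Tri u v w) : ∃ w', S.Tri v u w' := by
  obtain ⟨f, hf, fu, fv, fw, -⟩ := h.lin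
  obtain ⟨m, mu, mv, mw⟩ := exists_lin h.1 (S.ht u) (S.ht v) (S.ht w)
  refine ext hA h.1 h.2.1 h.2.2.1 hf fu fv mu mv fun x hx fx => ?_
  obtain ⟨a, b, c, rfl⟩ := coords h.1 x
  have hs : a + b + c = 1 := by
    rw [map_comb, fu, fv, fw] at fx
    have : ((a + b + c : ℤ) : ℝ) = 1 := by push_cast; linarith
    exact_mod_cast this
  have dx : D v u (a • u + b • v + c • w) = -c := by
    rw [D_comb, D_self1, D_self2, D_swap, h.1]; ring
  rw [dx, map_comb, mu, mv, mw]
  rcases (h.2.2.2.2 a b c hx).2 hs with h1 | h1 | h1 | h1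
  · obtain ⟨rfl, rfl⟩ := h1
    obtain rfl : c = 0 := by omega
    simp
  · obtain ⟨rfl, rfl⟩ := h1
    obtain rfl : a = 0 := by omega
    simp
  · obtain ⟨rfl, rfl⟩ := h1
    obtain rfl : b = 0 := by omega
    simp
  · exact ⟨h1.le, fun _ => h1⟩

end Sys

end Pool.Agent.H61.Sail
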