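import Pool.Agent.H61.SailB

set_option autoImplicit false

namespace Pool.Agent.H61.Sail

lemma ev_basis (f : V →+ ℝ) (z : V) :
    f z = z 0 * f ![1, 0, 0] + z 1 * f ![0, 1, 0] + z 2 * f ![0, 0, 1] := by
  rw [← map_comb]
  congr 1
  funext i
  fin_cases i <;> simp

lemma exists_D {p : V} (hp : p ≠ 0) : ∃ a e, 0 < D p a e := by
  by_contra hc
  push Not at hc
  have h1 := hc ![0, 1, 0] ![0, 0, 1]
  have h2 := hc ![0, 0, 1] ![0, 1, 0]
  have h3 := hc ![1, 0, 0] ![0, 0, 1]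
  have h4 := hc ![0, 0, 1] ![1, 0, 0]
  have h5 := hc ![1, 0, 0] ![0, 1, 0]
  have h6 := hc ![0, 1, 0] ![1, 0, 0]
  simp [D] at h1 h2 h3 h4 h5 h6
  apply hp
  funext i
  fin_cases i <;> simp <;> omega

namespace Sys

variable {S : Sys}

lemma Pos.ne {p : V} (hp : S.Pos p) : p ≠ 0 := by
  rintro rfl
  simpa using hp 0

lemma exists_face : ∃ (f : V →+ ℝ) (p q r : V), S.Supp f ∧ S.Pos p ∧ S.Pos q ∧ S.Pos r ∧
    f p = 1 ∧ f q = 1 ∧ f r = 1 ∧ D p q r ≠ 0 := by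
  obtain ⟨u, hu⟩ := S.pos
  have hfin : {z | S.Pos z ∧ ∑ j, S.L j z ≤ ∑ j, S.L j u}.Finite := by
    refine (S.fin (∑ j, S.L j u)).subset ?_
    rintro z ⟨hz, h⟩ j
    rw [abs_of_pos (hz j)]
    exact (Finset.single_le_sum (f := fun j => S.L j z) (fun i _ => (hz i).le)
      (Finset.mem_univ j)).trans h
  obtain ⟨p, ⟨hp, hpu⟩, hmin⟩ := Set.exists_min_image _ (fun z => ∑ j, S.L j z) hfin
    ⟨u, hu, le_rfl⟩
  have h0 : 0 < ∑ j, S.L j p := Finset.sum_pos (fun i _ => hp i) Finset.univ_nonempty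
  obtain ⟨f0, hf0⟩ : ∃ f0 : V →+ ℝ, ∀ z, f0 z = (∑ j, S.L j p)⁻¹ * ∑ j, S.L j z :=
    ⟨(∑ j, S.L j p)⁻¹ • ∑ j, S.L j, fun z => by simp⟩
  have s0 : S.Supp f0 := by
    intro z hz
    rw [hf0, inv_mul_eq_div, le_div_iff₀ h0, one_mul]
    rcases le_total (∑ j, S.L j z) (∑ j, S.L j u) with h | h
    · exact hmin z ⟨hz, h⟩
    · exact hpu.trans h
  have f0p : f0 p = 1 := by rw [hf0, inv_mul_cancel₀ h0.ne']
  obtain ⟨a, e, hae⟩ := exists_D hp.ne
  obtain ⟨t, f1, -, s1, hf1, q, hq, dq, f1q⟩ := rot s0 hp hae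
  obtain ⟨t', f2, -, s2, hf2, r, hr, dr, f2r⟩ := rot s1 (a := q) (e := -a) hp (by
    have : D p q (-a) = D p a q := by simp only [D, Pi.neg_apply]; ring
    rwa [this])
  refine ⟨f2, p, q, r, s2, hp, hq, hr, ?_, ?_, f2r, dr.ne'⟩
  · rw [hf2, hf1, f0p, D_self1, D_self1]; simp
  · rw [hf2, f1q, D_self2]; simp

lemma exists_tri (hA : S.AllOne) : ∃ u v w, S.Tri u v w := by
  obtain ⟨f, p, q, r, hf, hp, hq, hr, fp, fq, fr, hd⟩ := exists_face (S := S)
  have hint := hA f hf p q r hp hq hr fp fq fr hd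
  have hpq : p ≠ q := by
    rintro rfl
    apply hd; unfold D; ring
  have hfin := fin_sub hf 1
  obtain ⟨u, ⟨hu, fu0⟩, umin⟩ := Set.exists_min_image _ (S.L 0) hfin ⟨p, hp, fp.le⟩
  obtain ⟨v, ⟨⟨hv, fv0⟩, hvu⟩, vmin⟩ := Set.exists_min_image
    {z | (S.Pos z ∧ f z ≤ 1) ∧ z ≠ u} (S.L 0) (hfin.subset fun z hz => hz.1) (by
      by_cases h : p = u
      · exact ⟨q, ⟨hq, fq.le⟩, fun h' => hpq (h.trans h'.symm)⟩
      · exact ⟨p, ⟨hp, fp.le⟩, h⟩)
  have fu : f u = 1 := le_antisymm fu0 (hf u hu)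
  have fv : f v = 1 := le_antisymm fv0 (hf v hv)
  have huv : S.L 0 u < S.L 0 v :=
    lt_of_le_of_ne (umin v ⟨hv, fv0⟩) fun h => hvu (L_inj 0 h).symm
  obtain ⟨k0, hk0⟩ := hint ![1, 0, 0]
  obtain ⟨k1, hk1⟩ := hint ![0, 1, 0]
  obtain ⟨k2, hk2⟩ := hint ![0, 0, 1]
  have hk : ∀ z : V, f z = 1 → z 0 * k0 + z 1 * k1 + z 2 * k2 = 1 := by
    intro z hz
    rw [ev_basis, hk0, hk1, hk2] at hz
    exact_mod_cast hz
  have ku := hk u fu
  have kv := hk v fv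
  obtain ⟨w, hw⟩ : ∃ w, D u v w = 1 := by
    set c0 := u 1 * v 2 - u 2 * v 1 with hc0
    set c1 := u 2 * v 0 - u 0 * v 2 with hc1
    set c2 := u 0 * v 1 - u 1 * v 0 with hc2
    have b1 := Int.gcd_eq_gcd_ab c0 (Int.gcd c1 c2)
    have b2 := Int.gcd_eq_gcd_ab c1 c2
    obtain ⟨n0, hn0⟩ := Int.gcd_dvd_left c0 (Int.gcd c1 c2)
    obtain ⟨n1, hn1⟩ := (Int.gcd_dvd_right c0 (Int.gcd c1 c2)).trans (Int.gcd_dvd_left c1 c2)
    obtain ⟨n2, hn2⟩ := (Int.gcd_dvd_right c0 (Int.gcd c1 c2)).trans (Int.gcd_dvd_right c1 c2)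
    have g0 : (0 : ℤ) ≤ Int.gcd c0 (Int.gcd c1 c2) := Int.natCast_nonneg _
    generalize Int.gcdA c0 (Int.gcd c1 c2) = x1 at b1
    generalize Int.gcdB c0 (Int.gcd c1 c2) = y1 at b1
    generalize ((Int.gcd c0 (Int.gcd c1 c2) : ℕ) : ℤ) = g at b1 hn0 hn1 hn2 g0
    rw [b2] at b1
    by_cases hg : g = 1
    · refine ⟨![x1, Int.gcdA c1 c2 * y1, Int.gcdB c1 c2 * y1], ?_⟩
      simp only [D, Matrix.cons_val_zero, Matrix.cons_val_one, Matrix.cons_val]
      rw [hg] at b1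
      linear_combination (-1 : ℤ) * b1
    exfalso
    obtain ⟨d, ed⟩ : ∃ d : V, v = u + g • d := by
      refine ⟨![n1 * k2 - n2 * k1, n2 * k0 - n0 * k2, n0 * k1 - n1 * k0], ?_⟩
      funext i
      fin_cases i
      · simp
        linear_combination (u 0) * kv - (v 0) * ku + k2 * hn1 - k1 * hn2
      · simp
        linear_combination (u 1) * kv - (v 1) * ku + k0 * hn2 - k2 * hn0
      · simp
        linear_combination (u 2) * kv - (v 2) * ku + k1 * hn0 - k0 * hn1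
    have hg0 : g ≠ 0 := by
      rintro rfl
      simp at ed
      exact hvu ed
    have hg2 : (2 : ℝ) ≤ g := by
      have : (2 : ℤ) ≤ g := by omega
      exact_mod_cast this
    have hlin : ∀ m : V →+ ℝ, g * m (u + d) = (g - 1) * m u + m v := by
      intro m
      rw [ed, map_add, map_add, map_zsmul, zsmul_eq_mul]; ring
    have py : S.Pos (u + d) := fun j => by
      have := hlin (S.L j)
      have h1 := mul_pos (by linarith : (0 : ℝ) < g - 1) (hu j)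
      exact (mul_pos_iff_of_pos_left (by linarith : (0 : ℝ) < g)).mp (by linarith [hv j])
    have fy : f (u + d) ≤ 1 := by
      have := hlin f
      rw [fu, fv] at this
      nlinarith
    have h0 := hlin (S.L 0)
    have hne : u + d ≠ u := fun h => by
      rw [h] at h0; linarith
    have := vmin (u + d) ⟨⟨py, fy⟩, hne⟩
    nlinarith
  obtain ⟨m, hm⟩ : ∃ m : V →+ ℝ, ∀ z,
      m z = (S.L 0 u + S.L 0 v) * S.L 0 z - S.L 0 u * S.L 0 v * f z :=
    ⟨(S.L 0 u + S.L 0 v) • S.L 0 - (S.L 0 u * S.L 0 v) • f, fun z => by simp⟩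
  obtain ⟨w', h⟩ := ext hA hw hu hv hf fu fv (m := m) (by rw [hm, fu, ht]; ring)
    (by rw [hm, fv, ht]; ring) (fun x hx fx => by
      rw [hm, fx, ht]
      by_cases h1 : x = u
      · rw [h1, D_self2]; exact ⟨by nlinarith, fun h => absurd h (lt_irrefl _)⟩
      by_cases h2 : x = v
      · rw [h2, D_self1]; exact ⟨by nlinarith, fun h => absurd h (lt_irrefl _)⟩
      have h3 : S.L 0 v < S.L 0 x :=
        lt_of_le_of_ne (vmin x ⟨⟨hx, fx.le⟩, h1⟩) fun h => h2 (L_inj 0 h).symm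
      have h4 := mul_pos (sub_pos.mpr h3) (sub_pos.mpr (huv.trans h3))
      exact ⟨by nlinarith, fun _ => by nlinarith⟩)
  exact ⟨_, _, _, h⟩

variable (S) in
/-- totally positive symmetries -/
def Gm (g : V ≃+ V) : Prop := (∀ u v w, D (g u) (g v) (g w) = D u v w) ∧
  ∃ l : Fin 3 → ℝ, (∀ j, 0 < l j) ∧ ∀ j z, S.L j (g z) = l j * S.L j z

lemma Gm.refl : S.Gm (AddEquiv.refl V) :=
  ⟨fun _ _ _ => rfl, fun _ => 1, fun _ => one_pos, fun _ _ => by simp⟩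

lemma Gm.symm {g : V ≃+ V} (h : S.Gm g) : S.Gm g.symm := by
  obtain ⟨h1, l, hl, h2⟩ := h
  refine ⟨fun u v w => by rw [← h1]; simp, fun j => (l j)⁻¹, fun j => inv_pos.mpr (hl j),
    fun j z => ?_⟩
  have := h2 j (g.symm z)
  rw [g.apply_symm_apply] at this
  rw [this, ← mul_assoc, inv_mul_cancel₀ (hl j).ne', one_mul]

lemma Gm.trans {g g' : V ≃+ V} (h : S.Gm g) (h' : S.Gm g') : S.Gm (g.trans g') := by
  obtain ⟨h1, l, hl, h2⟩ := h
  obtain ⟨h1', l', hl', h2'⟩ := h'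
  refine ⟨fun u v w => by simp [h1, h1'], fun j => l' j * l j, fun j => mul_pos (hl' j) (hl j),
    fun j z => ?_⟩
  rw [AddEquiv.trans_apply, h2', h2, mul_assoc]

lemma Gm.pos {g : V ≃+ V} (h : S.Gm g) {z : V} : S.Pos (g z) ↔ S.Pos z := by
  obtain ⟨-, l, hl, h2⟩ := h
  refine forall_congr' fun j => ?_
  rw [h2, mul_pos_iff_of_pos_left (hl j)]

lemma Gm.free {g g' : V ≃+ V} (h : S.Gm g) (h' : S.Gm g') {u : V} (hu : S.Pos u)
    (e : g u = g' u) (z : V) : g z = g' z := by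
  obtain ⟨-, l, hl, h2⟩ := h
  obtain ⟨-, l', hl', h2'⟩ := h'
  apply L_inj (S := S) 0
  have h3 := h2 0 u
  rw [e, h2'] at h3
  rw [h2, h2', mul_right_cancel₀ (hu 0).ne' h3]

lemma Gm.tri {g : V ≃+ V} (h : S.Gm g) {u v w : V} (ht : S.Tri u v w) :
    S.Tri (g u) (g v) (g w) := by
  obtain ⟨hD, hu, hv, hw, h4⟩ := ht
  refine ⟨by rw [h.1, hD], h.pos.mpr hu, h.pos.mpr hv, h.pos.mpr hw, fun a b c hp => ?_⟩
  have e : a • g u + b • g v + c • g w = g (a • u + b • v + c • w) := by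
    rw [map_add, map_add, map_zsmul, map_zsmul, map_zsmul]
  rw [e] at hp ⊢
  obtain ⟨h5, h6⟩ := h4 a b c (h.pos.mp hp)
  refine ⟨h5, fun hs => ?_⟩
  rcases h6 hs with h7 | h7 | h7 | h7
  · exact Or.inl h7
  · exact Or.inr (Or.inl h7)
  · exact Or.inr (Or.inr (Or.inl h7))
  · refine Or.inr (Or.inr (Or.inr ?_))
    obtain ⟨-, l, hl, h2⟩ := h
    unfold Sys.ht at h7 ⊢
    rw [h2, h2, h2, h2]
    have := mul_lt_mul_of_pos_left h7 (pow_pos (hl 0) 2)
    nlinarith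

lemma fin_orbits : ∃ A : Set V, A.Finite ∧ ∀ u v w, S.Tri u v w →
    ∃ g, S.Gm g ∧ g u ∈ A ∧ g v ∈ A ∧ g w ∈ A := by
  obtain ⟨p, hp⟩ := S.pos
  choose g l hg hl hL hl1 using S.unit
  have hbig : ∀ i, ∃ M : ℝ, 0 < M ∧ ∀ j, j ≠ i → l i i * S.L i p ≤ M * ((1 - l i j) * S.L j p) := by
    intro i
    obtain ⟨ε, hε, h⟩ : ∃ ε : ℝ, 0 < ε ∧ ∀ j, j ≠ i → ε ≤ (1 - l i j) * S.L j p := by
      rcases isEmpty_or_nonempty {j : Fin 3 // j ≠ i} with h | h
      · exact ⟨1, one_pos, fun j hj => (h.false ⟨j, hj⟩).elim⟩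
      · obtain ⟨j0, hj0⟩ := Finite.exists_min
          (fun j : {j : Fin 3 // j ≠ i} => (1 - l i j) * S.L j p)
        exact ⟨_, mul_pos (sub_pos.mpr (hl1 i j0 j0.2)) (hp j0), fun j hj => hj0 ⟨j, hj⟩⟩
    refine ⟨l i i * S.L i p / ε, div_pos (mul_pos (hl i i) (hp i)) hε, fun j hj => ?_⟩
    rw [div_mul_eq_mul_div, le_div_iff₀ hε]
    exact mul_le_mul_of_nonneg_left (h j hj) (mul_pos (hl i i) (hp i)).le
  choose M hM hMb using hbig
  set B := ∑ i, (M i + 1) * ∑ j, S.L j p with hB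
  refine ⟨_, S.fin B, fun u v w ht => ?_⟩
  obtain ⟨f, hf, fu, fv, fw, hint⟩ := ht.lin
  choose k hk using hint
  obtain ⟨n, ⟨g0, hg0, hn⟩, hmin⟩ := Int.exists_least_of_bdd
    (P := fun n => ∃ g0, S.Gm g0 ∧ k (g0 p) = n)
    ⟨1, by
      rintro n ⟨g0, hg0, rfl⟩
      have := hf _ (hg0.pos.mpr hp)
      rw [hk] at this
      exact_mod_cast this⟩ ⟨_, _, Gm.refl, rfl⟩
  obtain ⟨f', hf'⟩ : ∃ f' : V →+ ℝ, ∀ z, f' z = f (g0 z) :=
    ⟨f.comp g0.toAddMonoidHom, fun z => rfl⟩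
  have s' : S.Supp f' := fun z hz => by rw [hf']; exact hf _ (hg0.pos.mpr hz)
  obtain ⟨c, hc⟩ := S.rep f'
  have hcp := supp_coef s' hc
  have hcmp : ∀ i j, c j ≤ (M i + 1) * c i := by
    intro i j
    by_cases hj : j = i
    · subst hj; nlinarith [hM j, hcp j]
    have h1 : f' p ≤ f' (g i p) := by
      rw [hf', hf', hk, hk, hn]
      exact_mod_cast hmin _ ⟨(g i).trans g0, Gm.trans ⟨hg i, l i, hl i, hL i⟩ hg0, rfl⟩
    rw [hc, hc] at h1
    simp only [hL] at h1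
    have h2 : ∑ t, c t * ((1 - l i t) * S.L t p) ≤ 0 := by
      have : ∑ t, c t * ((1 - l i t) * S.L t p) =
          ∑ t, c t * S.L t p - ∑ t, c t * (l i t * S.L t p) := by
        rw [← Finset.sum_sub_distrib]; exact Finset.sum_congr rfl fun t _ => by ring
      linarith
    have h3 : c j * ((1 - l i j) * S.L j p) ≤
        ∑ t ∈ Finset.univ.erase i, c t * ((1 - l i t) * S.L t p) :=
      Finset.single_le_sum (f := fun t => c t * ((1 - l i t) * S.L t p))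
        (fun t ht => (mul_pos (hcp t) (mul_pos (sub_pos.mpr (hl1 i t (Finset.ne_of_mem_erase ht)))
          (hp t))).le) (Finset.mem_erase.mpr ⟨hj, Finset.mem_univ _⟩)
    rw [← Finset.add_sum_erase _ _ (Finset.mem_univ i)] at h2
    have h4 := hMb i j hj
    have h5 : 0 < (1 - l i j) * S.L j p := mul_pos (sub_pos.mpr (hl1 i j hj)) (hp j)
    have h6 : c j * ((1 - l i j) * S.L j p) ≤ M i * c i * ((1 - l i j) * S.L j p) := by
      nlinarith [mul_pos (hcp i) (hp i), mul_le_mul_of_nonneg_left h4 (hcp i).le]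
    have h7 := le_of_mul_le_mul_right h6 h5
    nlinarith [hcp i]
  have hlow : ∀ i, 1 ≤ c i * B := by
    intro i
    have h1 := s' p hp
    rw [hc] at h1
    have h2 : ∑ j, c j * S.L j p ≤ c i * ((M i + 1) * ∑ j, S.L j p) := by
      rw [Finset.mul_sum, Finset.mul_sum]
      refine Finset.sum_le_sum fun j _ => ?_
      nlinarith [mul_le_mul_of_nonneg_right (hcmp i j) (hp j).le]
    have h3 : (M i + 1) * ∑ j, S.L j p ≤ B :=
      Finset.single_le_sum (f := fun i => (M i + 1) * ∑ j, S.L j p)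
        (fun t _ => mul_nonneg (by linarith [hM t]) (Finset.sum_nonneg fun j _ => (hp j).le))
        (Finset.mem_univ i)
    nlinarith [mul_le_mul_of_nonneg_left h3 (hcp i).le]
  have key : ∀ x, S.Pos x → f x = 1 → g0.symm x ∈ {z : V | ∀ j, |S.L j z| ≤ B} := by
    intro x hx fx j
    have hy : S.Pos (g0.symm x) := hg0.symm.pos.mpr hx
    rw [abs_of_pos (hy j)]
    have h1 : f' (g0.symm x) = 1 := by rw [hf', g0.apply_symm_apply, fx]
    rw [hc] at h1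
    have h2 : c j * S.L j (g0.symm x) ≤ 1 := by
      rw [← h1]
      exact Finset.single_le_sum (f := fun j => c j * S.L j (g0.symm x))
        (fun i _ => (mul_pos (hcp i) (hy i)).le) (Finset.mem_univ j)
    exact le_of_mul_le_mul_left (h2.trans (hlow j)) (hcp j)
  exact ⟨g0.symm, hg0.symm, key u ht.2.1 fu, key v ht.2.2.1 fv, key w ht.2.2.2.1 fw⟩

end Sys

end Pool.Agent.H61.Sail
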