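import Pool.Agent.H61.SailC

set_option autoImplicit false

namespace Pool.Agent.H61.Sail

lemma sum_inv {X : Type} (Y : Finset X) (σ σ' : X → X) (h1 : ∀ x ∈ Y, σ x ∈ Y)
    (h2 : ∀ x ∈ Y, σ' x ∈ Y) (hl : ∀ x, σ' (σ x) = x) (hr : ∀ x, σ (σ' x) = x) (F : X → ℝ) :
    ∑ x ∈ Y, F (σ x) = ∑ x ∈ Y, F x :=
  Finset.sum_nbij' σ σ' h1 h2 (fun x _ => hl x) (fun x _ => hr x) (fun _ _ => rfl)

lemma sg_sum {r s t a b c : ℝ} (hr : r ≠ 0) (hs : s ≠ 0) (ht : t ≠ 0) (ha : 0 < a) (hb : 0 < b)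
    (hc : 0 < c) (h : r * a + s * b + t * c = 0) :
    sg (t * s) + sg (r * t) + sg (s * r) = -1 := by
  rcases lt_or_gt_of_ne hr with h1 | h1 <;> rcases lt_or_gt_of_ne hs with h2 | h2 <;>
    rcases lt_or_gt_of_ne ht with h3 | h3
  · nlinarith [mul_neg_of_neg_of_pos h1 ha, mul_neg_of_neg_of_pos h2 hb,
      mul_neg_of_neg_of_pos h3 hc]
  · rw [sg_neg (mul_neg_of_pos_of_neg h3 h2), sg_neg (mul_neg_of_neg_of_pos h1 h3),
      sg_pos (mul_pos_of_neg_of_neg h2 h1)]; ring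
  · rw [sg_neg (mul_neg_of_neg_of_pos h3 h2), sg_pos (mul_pos_of_neg_of_neg h1 h3),
      sg_neg (mul_neg_of_pos_of_neg h2 h1)]; ring
  · rw [sg_pos (mul_pos h3 h2), sg_neg (mul_neg_of_neg_of_pos h1 h3),
      sg_neg (mul_neg_of_pos_of_neg h2 h1)]; ring
  · rw [sg_pos (mul_pos_of_neg_of_neg h3 h2), sg_neg (mul_neg_of_pos_of_neg h1 h3),
      sg_neg (mul_neg_of_neg_of_pos h2 h1)]; ring
  · rw [sg_neg (mul_neg_of_pos_of_neg h3 h2), sg_pos (mul_pos h1 h3),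
      sg_neg (mul_neg_of_neg_of_pos h2 h1)]; ring
  · rw [sg_neg (mul_neg_of_neg_of_pos h3 h2), sg_neg (mul_neg_of_pos_of_neg h1 h3),
      sg_pos (mul_pos h2 h1)]; ring
  · nlinarith [mul_pos h1 ha, mul_pos h2 hb, mul_pos h3 hc]

namespace Sys

variable (S : Sys)

def T (u x : V) : ℝ := S.L 1 u * S.L 2 x - S.L 2 u * S.L 1 x

lemma T_swap (u x : V) : S.T x u = - S.T u x := by unfold T; ring

lemma T_comb (p u v w : V) (a b c : ℤ) :
    S.T p (a • u + b • v + c • w) = a * S.T p u + b * S.T p v + c * S.T p w := by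
  unfold T; rw [map_comb, map_comb]; ring

lemma T_self (u : V) : S.T u u = 0 := by unfold T; ring

lemma pot3 (u : V) :
    ∃ g : V → ℝ, ∀ x y, D u x y = 1 → H (S.T u x) (S.T u y) = g y - g x := by
  by_cases h : ∃ v w, D u v w = 1
  swap
  · exact ⟨0, fun x y hxy => absurd ⟨x, y, hxy⟩ h⟩
  obtain ⟨v, w, h⟩ := h
  have hT : ∀ z : ℤ × ℤ, z ≠ 0 → T2 (S.T u v) (S.T u w) z ≠ 0 := by
    rintro ⟨p, q⟩ hz
    have e : T2 (S.T u v) (S.T u w) (p, q) = S.T u ((0 : ℤ) • u + p • v + q • w) := by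
      rw [T_comb]; simp [T2]
    rw [e]
    by_cases hp : p = 0
    · have hq : q ≠ 0 := fun hq => hz (by simp [hp, hq])
      refine S.tne _ _ v ?_
      rw [← D_rot, ← D_rot, D_comb, D_self1, D_self2, D_swap, h]
      omega
    · refine S.tne _ _ w ?_
      rw [← D_rot, ← D_rot, D_comb, D_self1, D_self2, D_rot, D_rot, h]
      omega
  have hco : ∀ x, S.T u x = T2 (S.T u v) (S.T u w) (D u x w, D u v x) := by
    intro x
    have e := cramer u v w x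
    rw [h, one_smul] at e
    conv_lhs => rw [e]
    rw [T_comb, T_self]; simp [T2]
  refine ⟨fun x => pot (S.T u v) (S.T u w) (D u x w, D u v x), fun x y hxy => ?_⟩
  rw [hco x, hco y]
  apply pot_spec hT
  have : d2 (D u x w, D u v x) (D u y w, D u v y) = D u x y * D u v w := by
    simp only [d2, D]; ring
  rw [this, hxy, h, mul_one]

/-- flags of the triangulation -/
abbrev X := {x : V × V × V // S.Tri x.1 x.2.1 x.2.2}

variable {S}

def rho (x : S.X) : S.X := ⟨(x.1.2.1, x.1.2.2, x.1.1), x.2.rot⟩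

noncomputable def tau (hA : S.AllOne) (x : S.X) : S.X :=
  ⟨(x.1.2.1, x.1.1, Classical.choose (x.2.flip hA)), Classical.choose_spec (x.2.flip hA)⟩

lemma rho3 (x : S.X) : rho (rho (rho x)) = x := rfl

lemma tau2 (hA : S.AllOne) (x : S.X) : tau hA (tau hA x) = x := by
  apply Subtype.ext
  have := Tri.uniq (tau hA (tau hA x)).2 x.2
  exact Prod.ext rfl (Prod.ext rfl this)

variable (S) in
def rel : Setoid S.X where
  r x y := ∃ g, S.Gm g ∧ g x.1.1 = y.1.1 ∧ g x.1.2.1 = y.1.2.1 ∧ g x.1.2.2 = y.1.2.2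
  iseqv := ⟨fun _ => ⟨_, Gm.refl, rfl, rfl, rfl⟩,
    fun ⟨g, hg, h1, h2, h3⟩ => ⟨g.symm, hg.symm, by rw [← h1]; simp, by rw [← h2]; simp,
      by rw [← h3]; simp⟩,
    fun ⟨g, hg, h1, h2, h3⟩ ⟨g', hg', h1', h2', h3'⟩ => ⟨g.trans g', hg.trans hg',
      by rw [← h1', ← h1]; rfl, by rw [← h2', ← h2]; rfl, by rw [← h3', ← h3]; rfl⟩⟩

lemma rel_rho (x y : S.X) (h : S.rel.r x y) : S.rel.r (rho x) (rho y) := by
  obtain ⟨g, hg, h1, h2, h3⟩ := h
  exact ⟨g, hg, h2, h3, h1⟩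

lemma rel_tau (hA : S.AllOne) (x y : S.X) (h : S.rel.r x y) :
    S.rel.r (tau hA x) (tau hA y) := by
  obtain ⟨g, hg, h1, h2, h3⟩ := h
  refine ⟨g, hg, h2, h1, ?_⟩
  have h4 : S.Tri (g x.1.2.1) (g x.1.1) (g (tau hA x).1.2.2) := hg.tri (tau hA x).2
  rw [h1, h2] at h4
  exact Tri.uniq h4 (tau hA y).2

lemma fin_quot : Finite (Quotient S.rel) := by
  obtain ⟨A, hA, h⟩ := fin_orbits (S := S)
  have hB : {y : S.X | y.1 ∈ A ×ˢ A ×ˢ A}.Finite :=
    (hA.prod (hA.prod hA)).preimage Subtype.val_injective.injOn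
  refine Set.finite_univ_iff.mp ((hB.image (Quotient.mk S.rel)).subset ?_)
  intro q _
  induction q using Quotient.inductionOn with | _ x => ?_
  obtain ⟨g, hg, h1, h2, h3⟩ := h _ _ _ x.2
  refine ⟨⟨(g x.1.1, g x.1.2.1, g x.1.2.2), hg.tri x.2⟩, ⟨h1, h2, h3⟩, ?_⟩
  exact Quotient.sound (S.rel.symm ⟨g, hg, rfl, rfl, rfl⟩)

lemma Gm.T {g : V ≃+ V} (h : S.Gm g) : ∃ c : ℝ, 0 < c ∧ ∀ u x, S.T (g u) (g x) = c * S.T u x := by
  obtain ⟨-, l, hl, h2⟩ := h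
  refine ⟨l 1 * l 2, mul_pos (hl 1) (hl 2), fun u x => ?_⟩
  unfold Sys.T
  rw [h2, h2, h2, h2]; ring

lemma exists_pot : ∃ G : V → V → ℝ,
    (∀ g u x, S.Gm g → S.Pos u → G (g u) (g x) = G u x) ∧
    ∀ u x y, D u x y = 1 → H (S.T u x) (S.T u y) = G u y - G u x := by
  let s : Setoid V := ⟨fun x y => ∃ g, S.Gm g ∧ g x = y, ⟨fun _ => ⟨_, Gm.refl, rfl⟩,
    fun ⟨g, hg, h1⟩ => ⟨g.symm, hg.symm, by rw [← h1]; simp⟩,
    fun ⟨g, hg, h1⟩ ⟨g', hg', h1'⟩ => ⟨g.trans g', hg.trans hg', by rw [← h1', ← h1]; rfl⟩⟩⟩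
  have h1 : ∀ u, ∃ g, S.Gm g ∧ g u = (Quotient.mk s u).out := fun u =>
    s.symm (Quotient.mk_out u)
  choose γ hγ hγu using h1
  choose gg hgg using S.pot3
  refine ⟨fun u x => gg (γ u u) (γ u x), fun g u x hg hu => ?_, fun u x y hxy => ?_⟩
  · have e : γ (g u) (g u) = γ u u := by
      rw [hγu, hγu]
      congr 1
      exact Quotient.sound (s.symm ⟨g, hg, rfl⟩)
    have e2 : γ (g u) (g x) = γ u x := (hg.trans (hγ (g u))).free (hγ u) hu e x
    simp only [e, e2]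
  · obtain ⟨c, hc, hT⟩ := (hγ u).T
    rw [← hgg _ _ _ (by rw [(hγ u).1, hxy]), hT, hT, H_scale hc]

/-- the basic ratio attached to a flag -/
noncomputable def bb (x : S.X) : ℝ :=
  (S.T x.1.2.1 x.1.2.2 + S.T x.1.2.2 x.1.1) / S.T x.1.1 x.1.2.1

lemma T_ne (x : S.X) : S.T x.1.1 x.1.2.1 ≠ 0 :=
  S.tne _ _ x.1.2.2 (by rw [x.2.1]; exact one_ne_zero)

lemma bb_inv (x y : S.X) (h : S.rel.r x y) : bb x = bb y := by
  obtain ⟨g, hg, h1, h2, h3⟩ := h
  obtain ⟨c, hc, hT⟩ := hg.T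
  unfold bb
  rw [← h1, ← h2, ← h3, hT, hT, hT, ← mul_add, mul_div_mul_left _ _ hc.ne']

lemma flip_coord (hA : S.AllOne) (x : S.X) : ∃ a b : ℤ,
    (tau hA x).1.2.2 = a • x.1.1 + b • x.1.2.1 + (-1 : ℤ) • x.1.2.2 ∧ 2 ≤ a + b ∧
      bb x + bb (tau hA x) = -((a + b : ℤ) : ℝ) := by
  obtain ⟨a, b, c, e⟩ := coords x.2.1 (tau hA x).1.2.2
  have hD : D x.1.2.1 x.1.1 (tau hA x).1.2.2 = 1 := (tau hA x).2.1
  have hc : c = -1 := by
    rw [e, D_comb, D_self1, D_self2, D_swap, x.2.1] at hD; linarith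
  subst hc
  have hp : S.Pos (tau hA x).1.2.2 := (tau hA x).2.2.2.2.1
  rw [e] at hp
  refine ⟨a, b, e, by have := (x.2.2.2.2.2 a b (-1) hp).1; omega, ?_⟩
  have hb : bb (tau hA x) = (S.T x.1.1 (tau hA x).1.2.2 + S.T (tau hA x).1.2.2 x.1.2.1) /
      S.T x.1.2.1 x.1.1 := rfl
  rw [hb, S.T_swap x.1.2.1 (tau hA x).1.2.2, e, T_comb, T_comb, T_self, T_self,
    S.T_swap x.1.1 x.1.2.1]
  unfold bb
  rw [S.T_swap x.1.1 x.1.2.2]
  have := T_ne x
  push_cast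
  field_simp
  ring

theorem not_allOne : ¬ S.AllOne := by
  intro hA
  obtain ⟨u0, v0, w0, h0⟩ := exists_tri hA
  have := fin_quot (S := S)
  have : Fintype (Quotient S.rel) := Fintype.ofFinite _
  have srho : ∀ F : S.X → ℝ, (∀ x y, S.rel.r x y → F x = F y) →
      ∑ q : Quotient S.rel, F (rho q.out) = ∑ q : Quotient S.rel, F q.out := fun F hF =>
    sum_out S.rel rho (fun x => rho (rho x)) rel_rho
      (fun x y h => rel_rho _ _ (rel_rho _ _ h)) rho3 F hF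
  have stau : ∀ F : S.X → ℝ, (∀ x y, S.rel.r x y → F x = F y) →
      ∑ q : Quotient S.rel, F (tau hA q.out) = ∑ q : Quotient S.rel, F q.out := fun F hF =>
    sum_out S.rel (tau hA) (tau hA) (rel_tau hA) (rel_tau hA) (tau2 hA) F hF
  have srho2 : ∀ F : S.X → ℝ, (∀ x y, S.rel.r x y → F x = F y) →
      ∑ q : Quotient S.rel, F (rho (rho q.out)) = ∑ q : Quotient S.rel, F q.out := fun F hF =>
    (srho (fun x => F (rho x)) fun x y h => hF _ _ (rel_rho _ _ h)).trans (srho F hF)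
  obtain ⟨G, hG, hGH⟩ := exists_pot (S := S)
  set G1 : S.X → ℝ := fun x => G x.1.1 x.1.2.1 with hG1
  set HH : S.X → ℝ := fun x => H (S.T x.1.1 x.1.2.1) (S.T x.1.2.2 x.1.1) with hHH
  have G1i : ∀ x y, S.rel.r x y → G1 x = G1 y := by
    rintro x y ⟨g, hg, h1, h2, -⟩
    simp only [hG1]
    rw [← h1, ← h2, hG _ _ _ hg x.2.2.1]
  have HHi : ∀ x y, S.rel.r x y → HH x = HH y := by
    rintro x y ⟨g, hg, h1, h2, h3⟩
    obtain ⟨c, hc, hT⟩ := hg.T
    simp only [hHH]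
    rw [← h1, ← h2, ← h3, hT, hT, H_scale hc]
  have e1 : ∀ x, HH x = G1 x - G1 (tau hA (rho (rho x))) := by
    intro x
    have h1 := hGH _ _ _ x.2.1
    have h2 : G1 (tau hA (rho (rho x))) = G x.1.1 x.1.2.2 := rfl
    have h3 : S.T x.1.2.2 x.1.1 ≠ 0 := T_ne (rho (rho x))
    rw [S.T_swap x.1.2.2 x.1.1, H_neg (T_ne x) h3] at h1
    simp only [hHH, hG1] at h2 ⊢
    linarith
  have s1 : ∑ q : Quotient S.rel, HH q.out = 0 := by
    simp only [e1, Finset.sum_sub_distrib]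
    rw [srho2 (fun x => G1 (tau hA x)) (fun x y h => G1i _ _ (rel_tau hA _ _ h)), stau G1 G1i,
      sub_self]
  have e2 : ∀ x, HH x + HH (rho x) + HH (rho (rho x)) =
      -3 - (bb x + bb (rho x) + bb (rho (rho x))) := by
    intro x
    have ht := T_ne x
    have hr : S.T x.1.2.1 x.1.2.2 ≠ 0 := T_ne (rho x)
    have hs : S.T x.1.2.2 x.1.1 ≠ 0 := T_ne (rho (rho x))
    have h1 := sg_sum hr hs ht (x.2.2.1 1) (x.2.2.2.1 1) (x.2.2.2.2.1 1) (by unfold T; ring)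
    simp only [hHH, bb, rho, H]
    rw [add_div, add_div, add_div]
    linarith
  have s2 : ∑ q : Quotient S.rel, bb q.out = - (Fintype.card (Quotient S.rel) : ℝ) := by
    have h1 := Finset.sum_congr (rfl : (Finset.univ : Finset (Quotient S.rel)) = _)
      fun q _ => e2 q.out
    simp only [Finset.sum_add_distrib, Finset.sum_sub_distrib] at h1
    rw [srho HH HHi, srho2 HH HHi, srho bb bb_inv, srho2 bb bb_inv, s1] at h1
    simp only [Finset.sum_const, Finset.card_univ, nsmul_eq_mul] at h1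
    linarith
  have s3 : ∑ q : Quotient S.rel, (-2 - (bb q.out + bb (tau hA q.out))) = 0 := by
    simp only [Finset.sum_add_distrib, Finset.sum_sub_distrib]
    rw [stau bb bb_inv, s2]
    simp only [Finset.sum_const, Finset.card_univ, nsmul_eq_mul]
    ring
  rw [Finset.sum_eq_zero_iff_of_nonneg (fun q _ => by
    obtain ⟨a, b, -, h1, h2⟩ := flip_coord hA q.out
    have : (2 : ℝ) ≤ ((a + b : ℤ) : ℝ) := by exact_mod_cast h1
    linarith)] at s3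
  have flat : ∀ x, bb x + bb (tau hA x) = -2 := by
    intro x
    have h1 := s3 (Quotient.mk S.rel x) (Finset.mem_univ _)
    have h2 : S.rel.r (Quotient.mk S.rel x).out x := Quotient.mk_out x
    rw [bb_inv _ _ h2, bb_inv _ _ (rel_tau hA _ _ h2)] at h1
    linarith
  obtain ⟨f, hf, fu, fv, fw, -⟩ := h0.lin
  have hA0 := fin_sub hf 1
  have hY : {y : S.X | f y.1.1 = 1 ∧ f y.1.2.1 = 1 ∧ f y.1.2.2 = 1}.Finite := by
    refine ((hA0.prod (hA0.prod hA0)).preimage Subtype.val_injective.injOn).subset ?_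
    rintro y ⟨h1, h2, h3⟩
    exact ⟨⟨y.2.2.1, h1.le⟩, ⟨y.2.2.2.1, h2.le⟩, ⟨y.2.2.2.2.1, h3.le⟩⟩
  have mrho : ∀ x ∈ hY.toFinset, rho x ∈ hY.toFinset := by
    intro x hx
    rw [Set.Finite.mem_toFinset] at hx ⊢
    exact ⟨hx.2.1, hx.2.2, hx.1⟩
  have mtau : ∀ x ∈ hY.toFinset, tau hA x ∈ hY.toFinset := by
    intro x hx
    rw [Set.Finite.mem_toFinset] at hx ⊢
    refine ⟨hx.2.1, hx.1, ?_⟩
    obtain ⟨a, b, e, -, h2⟩ := flip_coord hA x
    rw [flat] at h2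
    rw [e, map_comb, hx.1, hx.2.1, hx.2.2]
    push_cast at h2 ⊢
    linarith
  set om : S.X → ℝ := fun x => (D u0 x.1.1 x.1.2.1 : ℝ) with hom
  have t1 := sum_inv _ (tau hA) (tau hA) mtau mtau (tau2 hA) (tau2 hA) om
  have t2 := sum_inv _ rho (fun x => rho (rho x)) mrho (fun x hx => mrho _ (mrho x hx)) rho3 rho3 om
  have t3 := sum_inv _ (fun x => rho (rho x)) rho (fun x hx => mrho _ (mrho x hx)) mrho rho3 rho3 om
  have t4 : ∑ x ∈ hY.toFinset, om (tau hA x) = - ∑ x ∈ hY.toFinset, om x := by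
    rw [← Finset.sum_neg_distrib]
    refine Finset.sum_congr rfl fun x _ => ?_
    have : D u0 x.1.2.1 x.1.1 = - D u0 x.1.1 x.1.2.1 := by unfold D; ring
    simp only [hom, tau, this, Int.cast_neg]
  have t5 : 0 < ∑ x ∈ hY.toFinset, (om x + om (rho x) + om (rho (rho x))) := by
    refine Finset.sum_pos (fun x hx => ?_) ⟨⟨(u0, v0, w0), h0⟩, ?_⟩
    · rw [Set.Finite.mem_toFinset] at hx
      have e := cramer x.1.1 x.1.2.1 x.1.2.2 u0
      rw [x.2.1, one_smul] at e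
      have h1 := congrArg f e
      rw [map_comb, hx.1, hx.2.1, hx.2.2, fu, ← D_rot x.1.1 u0, D_rot u0 x.1.1] at h1
      simp only [hom, rho]
      linarith
    · rw [Set.Finite.mem_toFinset]; exact ⟨fu, fv, fw⟩
  simp only [Finset.sum_add_distrib] at t5
  linarith

end Sys

end Pool.Agent.H61.Sail
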