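import Pool.Agent.H61.SailD

set_option autoImplicit false

namespace Pool.Agent.H61.Sail

open Matrix Polynomial

lemma irr_det (B : Matrix (Fin 3) (Fin 3) ℤ)
    (hB : Irreducible (B.charpoly.map (Int.castRingHom ℚ))) {z : V} (hz : z ≠ 0) :
    D z (B *ᵥ z) (B *ᵥ (B *ᵥ z)) ≠ 0 := by
  intro hD
  have hdet : (Matrix.of ![z, B *ᵥ z, B *ᵥ (B *ᵥ z)]).det = 0 := by
    rw [Matrix.det_fin_three, ← hD]; simp [D]; ring
  obtain ⟨c, hc, hc0⟩ := Matrix.exists_vecMul_eq_zero_iff.mpr hdet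
  have hrel : c 0 • z + c 1 • (B *ᵥ z) + c 2 • (B *ᵥ (B *ᵥ z)) = 0 := by
    funext k
    have := congrFun hc0 k
    simpa [Matrix.vecMul, dotProduct, Fin.sum_univ_three] using this
  set Bq := B.map (Int.castRingHom ℚ) with hBq
  rw [← Matrix.charpoly_map] at hB
  set p : ℚ[X] := C (c 0 : ℚ) + C (c 1 : ℚ) * X + C (c 2 : ℚ) * X ^ 2 with hp
  have hp0 : p ≠ 0 := by
    intro h0
    apply hc
    have h1 := congrArg (fun q => q.coeff 0) h0
    have h2 := congrArg (fun q => q.coeff 1) h0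
    have h3 := congrArg (fun q => q.coeff 2) h0
    simp only [hp, coeff_add, coeff_C_mul, coeff_X, coeff_C, coeff_X_pow, coeff_zero] at h1 h2 h3
    simp at h1 h2 h3
    funext i
    fin_cases i <;> simpa
  have hdeg : p.natDegree ≤ 2 := by rw [hp]; compute_degree
  have hnd : ¬ Bq.charpoly ∣ p := fun h => by
    have h1 := natDegree_le_of_dvd h hp0
    rw [Matrix.charpoly_natDegree_eq_dim] at h1
    simp at h1; omega
  obtain ⟨a, b, hab⟩ := hB.coprime_iff_not_dvd.mpr hnd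
  have h1 := congrArg (aeval Bq) hab
  rw [map_add, map_mul, map_mul, Matrix.aeval_self_charpoly, mul_zero, zero_add, map_one] at h1
  let zq : Fin 3 → ℚ := fun k => (z k : ℚ)
  have hm : ∀ x : V, Bq *ᵥ (fun k => (x k : ℚ)) = fun k => ((B *ᵥ x) k : ℚ) := by
    intro x; funext k
    simp [hBq, Matrix.mulVec, dotProduct]
  have h2 : aeval Bq p *ᵥ zq = 0 := by
    have e : aeval Bq p = (c 0 : ℚ) • (1 : Matrix (Fin 3) (Fin 3) ℚ) + (c 1 : ℚ) • Bq +
        (c 2 : ℚ) • (Bq * Bq) := by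
      simp only [hp, map_add, map_mul, aeval_C, aeval_X, Algebra.algebraMap_eq_smul_one,
        smul_mul_assoc, one_mul, pow_two]
    rw [e, Matrix.add_mulVec, Matrix.add_mulVec, Matrix.smul_mulVec, Matrix.smul_mulVec,
      Matrix.smul_mulVec, Matrix.one_mulVec, ← Matrix.mulVec_mulVec, hm, hm]
    funext k
    have := congrFun hrel k
    simp only [Pi.add_apply, Pi.smul_apply, smul_eq_mul, Pi.zero_apply, zq] at this ⊢
    exact_mod_cast this
  have h3 : zq = 0 := by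
    rw [← Matrix.one_mulVec zq, ← h1, ← Matrix.mulVec_mulVec, h2, Matrix.mulVec_zero]
  apply hz
  funext k
  have := congrFun h3 k
  simpa [zq] using this

lemma lin_bound (f : V →+ ℝ) : ∃ C : ℝ, 0 < C ∧ ∀ (m : ℝ) (z : V), 0 < m →
    (∀ k, |(z k : ℝ)| ≤ m) → |f z| < C * m := by
  refine ⟨|f ![1, 0, 0]| + |f ![0, 1, 0]| + |f ![0, 0, 1]| + 1, by positivity,
    fun m z hm hz => ?_⟩
  rw [ev_basis f z]
  have h1 := abs_add_three (z 0 * f ![1, 0, 0]) (z 1 * f ![0, 1, 0]) (z 2 * f ![0, 0, 1])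
  rw [abs_mul, abs_mul, abs_mul] at h1
  nlinarith [mul_le_mul_of_nonneg_right (hz 0) (abs_nonneg (f ![1, 0, 0])),
    mul_le_mul_of_nonneg_right (hz 1) (abs_nonneg (f ![0, 1, 0])),
    mul_le_mul_of_nonneg_right (hz 2) (abs_nonneg (f ![0, 0, 1]))]

lemma pigeon (f g h : V →+ ℝ) : ∃ C : ℝ, ∀ ε : ℝ, 0 < ε → ∃ z : V, z ≠ 0 ∧ |g z| < ε ∧
    |h z| < ε ∧ |f z * g z * h z| ≤ C := by
  obtain ⟨Cf, hCf, hf⟩ := lin_bound f
  obtain ⟨Cg, hCg, hg⟩ := lin_bound g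
  obtain ⟨Ch, hCh, hh⟩ := lin_bound h
  refine ⟨Cf * (2 * Cg) * (2 * Ch), fun ε hε => ?_⟩
  obtain ⟨n, hn⟩ := exists_nat_gt ((2 * Cg + 2 * Ch) / ε)
  have hn0 : (0 : ℝ) < n := lt_trans (by positivity) hn
  have hn1 : 0 < n := by exact_mod_cast hn0
  rw [div_lt_iff₀ hε] at hn
  have key : ∀ (u : V →+ ℝ) (C : ℝ), 0 < C → ∀ z : V, |u z| < C * n ^ 2 →
      ⌊u z * n / (2 * C) + n ^ 3 / 2⌋ ∈ Finset.Ico (0 : ℤ) (n ^ 3) := by
    intro u C hC z hz
    rw [abs_lt] at hz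
    have h1 : u z * n / (2 * C) < n ^ 3 / 2 := by
      rw [div_lt_iff₀ (by positivity)]; nlinarith [mul_lt_mul_of_pos_right hz.2 hn0]
    have h2 : -((n : ℝ) ^ 3 / 2) < u z * n / (2 * C) := by
      rw [lt_div_iff₀ (by positivity)]; nlinarith [mul_lt_mul_of_pos_right hz.1 hn0]
    rw [Finset.mem_Ico, Int.floor_nonneg, Int.floor_lt]
    push_cast
    constructor <;> linarith
  have key2 : ∀ (u : V →+ ℝ) (C : ℝ), 0 < C → ∀ z z' : V,
      ⌊u z * n / (2 * C) + n ^ 3 / 2⌋ = ⌊u z' * n / (2 * C) + n ^ 3 / 2⌋ →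
      |u (z - z')| * n < 2 * C := by
    intro u C hC z z' e
    have h1 := Int.abs_sub_lt_one_of_floor_eq_floor e
    have h2 : u z * n / (2 * C) + n ^ 3 / 2 - (u z' * n / (2 * C) + n ^ 3 / 2) =
        u (z - z') * (n / (2 * C)) := by rw [map_sub]; ring
    rw [h2, abs_mul, abs_of_pos (by positivity : 0 < (n : ℝ) / (2 * C)), ← mul_div_assoc,
      div_lt_one (by positivity)] at h1
    exact h1
  have hbox : ∀ z ∈ Fintype.piFinset (fun _ : Fin 3 => Finset.Icc (0 : ℤ) (n ^ 2)),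
      ∀ k, (0 : ℝ) ≤ z k ∧ (z k : ℝ) ≤ n ^ 2 := by
    intro z hz k
    have := Finset.mem_Icc.mp (Fintype.mem_piFinset.mp hz k)
    exact ⟨by exact_mod_cast this.1, by exact_mod_cast this.2⟩
  obtain ⟨x, hx, y, hy, hxy, e⟩ := Finset.exists_ne_map_eq_of_card_lt_of_maps_to
    (s := Fintype.piFinset (fun _ : Fin 3 => Finset.Icc (0 : ℤ) (n ^ 2)))
    (t := Finset.Ico (0 : ℤ) (n ^ 3) ×ˢ Finset.Ico (0 : ℤ) (n ^ 3))
    (f := fun z => (⌊g z * n / (2 * Cg) + n ^ 3 / 2⌋, ⌊h z * n / (2 * Ch) + n ^ 3 / 2⌋)) (by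
      rw [Finset.card_product, Fintype.card_piFinset, Finset.prod_const, Int.card_Ico,
        Int.card_Icc]
      have e1 : ((n : ℤ) ^ 3 - 0).toNat = n ^ 3 := by
        rw [sub_zero]; exact_mod_cast Int.toNat_natCast (n ^ 3)
      have e2 : ((n : ℤ) ^ 2 + 1 - 0).toNat = n ^ 2 + 1 := by
        rw [sub_zero]; exact_mod_cast Int.toNat_natCast (n ^ 2 + 1)
      rw [e1, e2, Finset.card_univ, Fintype.card_fin]
      nlinarith [pow_pos hn1 2, pow_pos hn1 4]) (by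
      intro z hz
      have hz' : ∀ k, |(z k : ℝ)| ≤ n ^ 2 := fun k => by
        rw [abs_of_nonneg (hbox z hz k).1]; exact (hbox z hz k).2
      exact Finset.mem_coe.mpr (Finset.mem_product.mpr
        ⟨key g Cg hCg z (hg _ z (by positivity) hz'), key h Ch hCh z (hh _ z (by positivity) hz')⟩))
  have h1 := key2 g Cg hCg x y (congrArg Prod.fst e)
  have h2 := key2 h Ch hCh x y (congrArg Prod.snd e)
  have h3 : |f (x - y)| < Cf * n ^ 2 := hf _ _ (by positivity) fun k => by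
    rw [Pi.sub_apply, Int.cast_sub, abs_le]
    constructor <;> linarith [hbox x hx k, hbox y hy k]
  refine ⟨x - y, sub_ne_zero.mpr hxy, ?_, ?_, ?_⟩
  · exact lt_of_mul_lt_mul_right (by linarith : |g (x - y)| * n < ε * n) hn0.le
  · exact lt_of_mul_lt_mul_right (by linarith : |h (x - y)| * n < ε * n) hn0.le
  · rw [abs_mul, abs_mul]
    have h4 : |f (x - y)| * |g (x - y)| * |h (x - y)| * n ^ 2 ≤
        Cf * (2 * Cg) * (2 * Ch) * n ^ 2 := by
      calc |f (x - y)| * |g (x - y)| * |h (x - y)| * n ^ 2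
          = |f (x - y)| * ((|g (x - y)| * n) * (|h (x - y)| * n)) := by ring
        _ ≤ (Cf * n ^ 2) * ((2 * Cg) * (2 * Ch)) := by gcongr
        _ = _ := by ring
    exact le_of_mul_le_mul_right h4 (by positivity)

section
variable {A : Matrix (Fin 3) (Fin 3) ℤ} {v : Fin 3 → Fin 3 → ℝ} {μ : Fin 3 → ℝ}
  {L : Fin 3 → V →+ ℝ}
  (hz : ∀ (z : V) k, (z k : ℝ) = L 0 z * v 0 k + L 1 z * v 1 k + L 2 z * v 2 k)
  (hA : ∀ j z, L j (A *ᵥ z) = μ j * L j z)
  (hI : ∀ z : V, z ≠ 0 → D z (A *ᵥ z) (A *ᵥ (A *ᵥ z)) ≠ 0)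

include hz in
lemma D_real : ∃ δ : ℝ, ∀ x y w : V, (D x y w : ℝ) = δ * (L 0 x * (L 1 y * L 2 w - L 2 y * L 1 w)
    - L 1 x * (L 0 y * L 2 w - L 2 y * L 0 w) + L 2 x * (L 0 y * L 1 w - L 1 y * L 0 w)) := by
  refine ⟨v 0 0 * (v 1 1 * v 2 2 - v 1 2 * v 2 1) - v 0 1 * (v 1 0 * v 2 2 - v 1 2 * v 2 0) +
    v 0 2 * (v 1 0 * v 2 1 - v 1 1 * v 2 0), fun x y w => ?_⟩
  unfold D
  push_cast
  rw [hz x 0, hz x 1, hz x 2, hz y 0, hz y 1, hz y 2, hz w 0, hz w 1, hz w 2]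
  ring

include hz hA in
lemma norm_real : ∃ Δ : ℝ, ∀ z : V,
    (D z (A *ᵥ z) (A *ᵥ (A *ᵥ z)) : ℝ) = Δ * (L 0 z * L 1 z * L 2 z) := by
  obtain ⟨δ, h⟩ := D_real hz
  refine ⟨δ * ((μ 1 - μ 0) * (μ 2 - μ 0) * (μ 2 - μ 1)), fun z => ?_⟩
  rw [h]
  simp only [hA]
  ring

include hz hA hI in
lemma L_ne (j : Fin 3) (z : V) (h0 : z ≠ 0) : L j z ≠ 0 := by
  obtain ⟨Δ, h⟩ := norm_real hz hA
  intro hj
  apply hI z h0
  have : (D z (A *ᵥ z) (A *ᵥ (A *ᵥ z)) : ℝ) = 0 := by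
    rw [h]
    fin_cases j <;> simp at hj <;> simp [hj]
  exact_mod_cast this

include hA in
lemma mkU (z y : V) :
    ∃ U : V →+ V, ∀ j x,
      L j (U x) * L j z = L j x * L j (z + D z (A *ᵥ z) (A *ᵥ (A *ᵥ z)) • y) := by
  refine ⟨AddMonoidHom.mk' (fun x => x + (D x (A *ᵥ z) (A *ᵥ (A *ᵥ z)) • y +
    D z x (A *ᵥ (A *ᵥ z)) • (A *ᵥ y) + D z (A *ᵥ z) x • (A *ᵥ (A *ᵥ y)))) (fun a b => ?_),
    fun j x => ?_⟩
  · funext k
    simp only [D, Pi.add_apply, Pi.smul_apply, smul_eq_mul]; ring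
  · have h1 := congrArg (L j) (cramer z (A *ᵥ z) (A *ᵥ (A *ᵥ z)) x)
    rw [map_comb, map_zsmul, zsmul_eq_mul, hA, hA, hA] at h1
    rw [AddMonoidHom.mk'_apply, map_add, map_comb, map_add, map_zsmul, zsmul_eq_mul, hA, hA, hA]
    linear_combination (-L j y) * h1

include hz hA hI in
lemma units (i : Fin 3) : ∃ (g : V ≃+ V) (l : Fin 3 → ℝ),
    (∀ u v w, D (g u) (g v) (g w) = D u v w) ∧
    (∀ j, 0 < l j) ∧ (∀ j z, L j (g z) = l j * L j z) ∧ ∀ j, j ≠ i → l j < 1 := by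
  have hne := L_ne hz hA hI
  obtain ⟨Δ, hΔ⟩ := norm_real hz hA
  obtain ⟨C, hC⟩ : ∃ C : ℝ, ∀ ε : ℝ, 0 < ε → ∃ z : V, z ≠ 0 ∧ (∀ j, j ≠ i → |L j z| < ε) ∧
      |L 0 z * L 1 z * L 2 z| ≤ C := by
    fin_cases i
    · obtain ⟨C, h⟩ := pigeon (L 0) (L 1) (L 2)
      refine ⟨C, fun ε hε => ?_⟩
      obtain ⟨z, h0, h1, h2, h3⟩ := h ε hε
      refine ⟨z, h0, fun j hj => ?_, h3⟩
      fin_cases j
      · exact absurd rfl hj
      · exact h1
      · exact h2
    · obtain ⟨C, h⟩ := pigeon (L 1) (L 0) (L 2)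
      refine ⟨C, fun ε hε => ?_⟩
      obtain ⟨z, h0, h1, h2, h3⟩ := h ε hε
      refine ⟨z, h0, fun j hj => ?_, by rwa [mul_comm (L 0 z)]⟩
      fin_cases j
      · exact h1
      · exact absurd rfl hj
      · exact h2
    · obtain ⟨C, h⟩ := pigeon (L 2) (L 0) (L 1)
      refine ⟨C, fun ε hε => ?_⟩
      obtain ⟨z, h0, h1, h2, h3⟩ := h ε hε
      refine ⟨z, h0, fun j hj => ?_, by rwa [mul_assoc, mul_comm (L 2 z)] at h3⟩
      fin_cases j
      · exact h1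
      · exact h2
      · exact absurd rfl hj
  choose z hz0 hzs hzC using fun n : ℕ => hC (1 / ((n : ℝ) + 1)) (by positivity)
  set N : ℕ → ℤ := fun n => D (z n) (A *ᵥ z n) (A *ᵥ (A *ᵥ z n)) with hN
  have hN0 : ∀ n, N n ≠ 0 := fun n => hI _ (hz0 n)
  obtain ⟨B, hB⟩ := exists_int_gt (|Δ| * C)
  have hNB : ∀ n, |N n| ≤ B := fun n => by
    have h1 : |(N n : ℝ)| ≤ |Δ| * C := by
      simp only [hN]
      rw [hΔ, abs_mul]
      exact mul_le_mul_of_nonneg_left (hzC n) (abs_nonneg _)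
    have h2 : |(N n : ℝ)| ≤ B := by linarith
    exact_mod_cast h2
  have hfin : (Set.Icc (-B) B ×ˢ {x : V | ∀ k, x k ∈ Set.Icc (-B) B}).Finite :=
    (Set.finite_Icc _ _).prod (Set.Finite.pi' fun _ => Set.finite_Icc _ _)
  have := hfin.to_subtype
  obtain ⟨c, hc⟩ := Finite.exists_infinite_fiber (fun n : ℕ =>
    (⟨(N n, fun k => z n k % N n), abs_le.mp (hNB n), fun k =>
      ⟨by linarith [Int.emod_nonneg (z n k) (hN0 n), abs_nonneg (N n), hNB n],
       by linarith [Int.emod_lt_abs (z n k) (hN0 n), hNB n]⟩⟩ :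
      (Set.Icc (-B) B ×ˢ {x : V | ∀ k, x k ∈ Set.Icc (-B) B} : Set (ℤ × V))))
  have hinf := Set.infinite_coe_iff.mp hc
  obtain ⟨a, ha⟩ := hinf.nonempty
  obtain ⟨j0, hj0⟩ := Finite.exists_min (fun j => |L j (z a)|)
  obtain ⟨m, hm⟩ := exists_nat_one_div_lt (abs_pos.mpr (hne j0 _ (hz0 a)))
  obtain ⟨b, hb, hmb⟩ := hinf.exists_gt m
  have hab := congrArg Subtype.val ((Set.mem_singleton_iff.mp ha).trans
    (Set.mem_singleton_iff.mp hb).symm)
  have e1 : N a = N b := congrArg Prod.fst hab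
  have e2 : ∀ k, z a k % N a = z b k % N a := fun k => by
    have := congrFun (congrArg Prod.snd hab) k
    simp only at this
    rw [this, e1]
  choose y hy using fun k => Int.ModEq.dvd (e2 k)
  have ey : z a + N a • y = z b := by
    funext k; simp only [Pi.add_apply, Pi.smul_apply, smul_eq_mul]; linarith [hy k]
  have ey' : z b + N b • (-y) = z a := by rw [← ey, e1]; simp
  obtain ⟨U, hU⟩ := mkU hA (z a) y
  obtain ⟨U', hU'⟩ := mkU hA (z b) (-y)
  have hU1 : ∀ j x, L j (U x) * L j (z a) = L j x * L j (z b) := fun j x => by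
    rw [hU]; congr 2
  have hU2 : ∀ j x, L j (U' x) * L j (z b) = L j x * L j (z a) := fun j x => by
    rw [hU']; congr 2
  have linj : ∀ x x' : V, L 0 x = L 0 x' → x = x' := fun x x' h => by
    by_contra hxx
    exact hne 0 (x - x') (sub_ne_zero.mpr hxx) (by rw [map_sub, h, sub_self])
  let g : V ≃+ V :=
    { toFun := U, invFun := U', map_add' := U.map_add
      left_inv := fun x => linj _ _ (mul_right_cancel₀ (hne 0 _ (hz0 b)) (by rw [hU2, hU1]))
      right_inv := fun x => linj _ _ (mul_right_cancel₀ (hne 0 _ (hz0 a)) (by rw [hU1, hU2])) }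
  set l : Fin 3 → ℝ := fun j => L j (z b) / L j (z a) with hl
  have hg : ∀ j x, L j (g x) = l j * L j x := fun j x => by
    have h1 : L j (g x) * L j (z a) = L j x * L j (z b) := hU1 j x
    simp only [hl]
    rw [div_mul_eq_mul_div, eq_div_iff (hne j _ (hz0 a))]
    linarith
  have hprod : l 0 * l 1 * l 2 = 1 := by
    have h1 := hΔ (z a)
    have h2 := hΔ (z b)
    have h3 : (N a : ℝ) = N b := by rw [e1]
    have h4 : (N a : ℝ) ≠ 0 := by exact_mod_cast hN0 a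
    simp only [hN] at h3 h4
    rw [h1] at h4
    rw [h1, h2] at h3
    have h5 := mul_left_cancel₀ (left_ne_zero_of_mul h4) h3
    simp only [hl]
    rw [div_mul_div_comm, div_mul_div_comm, h5, div_self (h5 ▸ right_ne_zero_of_mul h4)]
  have hD : ∀ u v w, D (g u) (g v) (g w) = D u v w := fun u v w => by
    obtain ⟨δ, h⟩ := D_real hz
    have : (D (g u) (g v) (g w) : ℝ) = D u v w := by
      rw [h, h]
      simp only [hg]
      linear_combination (δ * (L 0 u * (L 1 v * L 2 w - L 2 v * L 1 w)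
        - L 1 u * (L 0 v * L 2 w - L 2 v * L 0 w) +
          L 2 u * (L 0 v * L 1 w - L 1 v * L 0 w))) * hprod
    exact_mod_cast this
  refine ⟨g.trans g, fun j => l j ^ 2, fun u v w => by simp [hD], fun j => ?_, fun j x => ?_,
    fun j hj => ?_⟩
  · have : l j ≠ 0 := div_ne_zero (hne j _ (hz0 b)) (hne j _ (hz0 a))
    positivity
  · rw [AddEquiv.trans_apply, hg, hg]; ring
  · rw [sq_lt_one_iff_abs_lt_one]
    simp only [hl]
    rw [abs_div, div_lt_one (abs_pos.mpr (hne j _ (hz0 a)))]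
    have h1 := hzs b j hj
    have h2 : 1 / ((b : ℝ) + 1) ≤ 1 / ((m : ℝ) + 1) := by
      have : (m : ℝ) ≤ b := by exact_mod_cast hmb.le
      gcongr
    linarith [hj0 j]

end

theorem exists_sys (A : Matrix (Fin 3) (Fin 3) ℤ) (v : Fin 3 → Fin 3 → ℝ) (μ : Fin 3 → ℝ)
    (hirr : Irreducible (A.charpoly.map (Int.castRingHom ℚ))) (hv : LinearIndependent ℝ v)
    (hev : ∀ i, (A.map (fun a : ℤ => (a : ℝ))) *ᵥ v i = μ i • v i) :
    ∃ S : Sys, ∀ z : V, S.Pos z ↔ z ≠ 0 ∧ ∃ t : Fin 3 → ℝ, (∀ i, 0 ≤ t i) ∧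
      (fun j => (z j : ℝ)) = ∑ i, t i • v i := by
  let b := basisOfLinearIndependentOfCardEqFinrank hv (by simp)
  have hb : ∀ i, b i = v i := fun i => by simp [b]
  let L : Fin 3 → V →+ ℝ := fun j => AddMonoidHom.mk' (fun z => b.repr (fun k => (z k : ℝ)) j)
    (fun x y => by
      have : (fun k => ((x + y) k : ℝ)) = (fun k => (x k : ℝ)) + fun k => (y k : ℝ) := by
        funext k; simp
      simp only [this, map_add, Finsupp.add_apply])
  have hL : ∀ j z, L j z = b.repr (fun k => (z k : ℝ)) j := fun _ _ => rfl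
  have hrep : ∀ (t : Fin 3 → ℝ) j, b.repr (∑ i, t i • v i) j = t j := fun t j => by
    simp only [← hb]
    rw [b.repr_sum_self]
  have hsum : ∀ z : V, (fun k => (z k : ℝ)) = ∑ i, L i z • v i := fun z => by
    simp only [← hb, hL]
    exact (b.sum_repr _).symm
  have hz : ∀ (z : V) k, (z k : ℝ) = L 0 z * v 0 k + L 1 z * v 1 k + L 2 z * v 2 k := fun z k => by
    have := congrFun (hsum z) k
    simpa [Fin.sum_univ_three] using this
  have hA : ∀ j z, L j (A *ᵥ z) = μ j * L j z := fun j z => by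
    have e : (fun k => ((A *ᵥ z) k : ℝ)) = ∑ i, (μ i * L i z) • v i := by
      have e1 : (fun k => ((A *ᵥ z) k : ℝ)) =
          (A.map (fun a : ℤ => (a : ℝ))) *ᵥ (fun k => (z k : ℝ)) := by
        funext k; simp [Matrix.mulVec, dotProduct]
      rw [e1, hsum, Matrix.mulVec_sum]
      refine Finset.sum_congr rfl fun i _ => ?_
      rw [Matrix.mulVec_smul, hev, smul_smul, mul_comm]
    rw [hL, e, hrep]
  have hI : ∀ z : V, z ≠ 0 → D z (A *ᵥ z) (A *ᵥ (A *ᵥ z)) ≠ 0 := fun z h => irr_det A hirr h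
  have hne := L_ne hz hA hI
  refine ⟨⟨L, hne, ?_, ?_, ?_, ?_, units hz hA hI⟩, fun z => ⟨fun h => ?_, ?_⟩⟩
  · intro u w x hD hT
    let n : V := ![u 1 * w 2 - u 2 * w 1, u 2 * w 0 - u 0 * w 2, u 0 * w 1 - u 1 * w 0]
    have hn : n ≠ 0 := by
      intro h
      have h0 := congrFun h 0
      have h1 := congrFun h 1
      have h2 := congrFun h 2
      simp [n] at h0 h1 h2
      apply hD
      unfold D
      linear_combination x 0 * h0 + x 1 * h1 + x 2 * h2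
    have h1 := irr_det Aᵀ (by rwa [Matrix.charpoly_transpose]) hn
    have h0 : (n 0 : ℝ) * v 0 0 + n 1 * v 0 1 + n 2 * v 0 2 = 0 := by
      simp only [n, Matrix.cons_val_zero, Matrix.cons_val_one, Matrix.cons_val]
      push_cast
      rw [hz u 0, hz u 1, hz u 2, hz w 0, hz w 1, hz w 2]
      linear_combination (v 0 0 * (v 1 1 * v 2 2 - v 1 2 * v 2 1) -
        v 0 1 * (v 1 0 * v 2 2 - v 1 2 * v 2 0) + v 0 2 * (v 1 0 * v 2 1 - v 1 1 * v 2 0)) * hT
    have step : ∀ y : V, (y 0 : ℝ) * v 0 0 + y 1 * v 0 1 + y 2 * v 0 2 = 0 →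
        ((Aᵀ *ᵥ y) 0 : ℝ) * v 0 0 + (Aᵀ *ᵥ y) 1 * v 0 1 + (Aᵀ *ᵥ y) 2 * v 0 2 = 0 := by
      intro y hy
      have e0 := congrFun (hev 0) 0
      have e1 := congrFun (hev 0) 1
      have e2 := congrFun (hev 0) 2
      simp only [Matrix.mulVec, dotProduct, Fin.sum_univ_three, Matrix.map_apply, Pi.smul_apply,
        smul_eq_mul, Matrix.transpose_apply] at e0 e1 e2 ⊢
      push_cast
      linear_combination y 0 * e0 + y 1 * e1 + y 2 * e2 + μ 0 * hy
    have h2 := step _ h0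
    have h3 := step _ h2
    generalize Aᵀ *ᵥ (Aᵀ *ᵥ n) = n2 at h1 h3
    generalize Aᵀ *ᵥ n = n1 at h1 h2
    have h4 : (D n n1 n2 : ℝ) ≠ 0 := by exact_mod_cast h1
    apply hv.ne_zero 0
    funext k
    apply mul_left_cancel₀ h4
    unfold D
    push_cast
    fin_cases k
    · simp only [Fin.zero_eta, Pi.zero_apply]
      linear_combination (n1 1 * n2 2 - n1 2 * n2 1 : ℝ) * h0 +
        (n2 1 * n 2 - n2 2 * n 1 : ℝ) * h2 + (n 1 * n1 2 - n 2 * n1 1 : ℝ) * h3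
    · simp only [Fin.mk_one, Pi.zero_apply]
      linear_combination (n1 2 * n2 0 - n1 0 * n2 2 : ℝ) * h0 +
        (n2 2 * n 0 - n2 0 * n 2 : ℝ) * h2 + (n 2 * n1 0 - n 0 * n1 2 : ℝ) * h3
    · simp only [Fin.reduceFinMk, Pi.zero_apply]
      linear_combination (n1 0 * n2 1 - n1 1 * n2 0 : ℝ) * h0 +
        (n2 0 * n 1 - n2 1 * n 0 : ℝ) * h2 + (n 0 * n1 1 - n 1 * n1 0 : ℝ) * h3
  · intro B
    choose M hM using fun k => exists_int_gt (B * |v 0 k| + B * |v 1 k| + B * |v 2 k|)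
    refine (Set.Finite.pi' fun k => Set.finite_Icc (-M k) (M k)).subset fun z h k => ?_
    have h1 : |(z k : ℝ)| ≤ M k := by
      rw [hz]
      have h2 := abs_add_three (L 0 z * v 0 k) (L 1 z * v 1 k) (L 2 z * v 2 k)
      rw [abs_mul, abs_mul, abs_mul] at h2
      linarith [mul_le_mul_of_nonneg_right (h 0) (abs_nonneg (v 0 k)),
        mul_le_mul_of_nonneg_right (h 1) (abs_nonneg (v 1 k)),
        mul_le_mul_of_nonneg_right (h 2) (abs_nonneg (v 2 k)), hM k]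
    exact abs_le.mp (by exact_mod_cast h1)
  · intro f
    refine ⟨fun i => v i 0 * f ![1, 0, 0] + v i 1 * f ![0, 1, 0] + v i 2 * f ![0, 0, 1],
      fun z => ?_⟩
    rw [ev_basis f z, hz z 0, hz z 1, hz z 2, Fin.sum_univ_three]
    ring
  · set M : ℝ := ∑ j, ∑ k, |b.repr (Pi.single k 1) j| + 1 with hM
    refine ⟨fun k => ⌈M * ∑ i, v i k⌉, fun j => ?_⟩
    have e : (fun k => ((⌈M * ∑ i, v i k⌉ : ℤ) : ℝ)) = ∑ i, M • v i +
        ∑ k, (⌈M * ∑ i, v i k⌉ - M * ∑ i, v i k) • (Pi.single k 1 : Fin 3 → ℝ) := by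
      funext k
      simp [Finset.sum_apply, Pi.single_apply, Finset.mul_sum]
    rw [hL, e, map_add, Finsupp.add_apply, hrep (fun _ => M), map_sum, Finsupp.finsetSum_apply]
    have h1 : ∑ k, |b.repr (Pi.single k 1) j| ≤ ∑ j, ∑ k, |b.repr (Pi.single k 1) j| :=
      Finset.single_le_sum (f := fun j => ∑ k, |b.repr (Pi.single k 1) j|)
        (fun i _ => Finset.sum_nonneg fun k _ => abs_nonneg _) (Finset.mem_univ j)
    have h2 : -∑ k, |b.repr (Pi.single k 1) j| ≤ ∑ k, (b.repr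
        ((⌈M * ∑ i, v i k⌉ - M * ∑ i, v i k) • (Pi.single k 1 : Fin 3 → ℝ))) j := by
      rw [← Finset.sum_neg_distrib]
      refine Finset.sum_le_sum fun k _ => ?_
      rw [map_smul, Finsupp.smul_apply, smul_eq_mul]
      have h3 := Int.le_ceil (M * ∑ i, v i k)
      have h4 := Int.ceil_lt_add_one (M * ∑ i, v i k)
      have h5 := neg_abs_le (b.repr (Pi.single k 1) j)
      have h6 := abs_nonneg (b.repr (Pi.single k 1) j)
      nlinarith [mul_nonneg (sub_nonneg.mpr h3) (sub_nonneg.mpr h5)]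
    linarith
  · exact ⟨h.ne, fun i => L i z, fun i => (h i).le, hsum z⟩
  · rintro ⟨h0, t, ht, e⟩ j
    refine lt_of_le_of_ne ?_ (hne j z h0).symm
    change 0 ≤ L j z
    rw [hL, e, hrep]
    exact ht j

end Pool.Agent.H61.Sail
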