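import Pool.Agent.H61.SailE

set_option autoImplicit false

namespace Pool.Agent.H61.Sail

def dot (f x : V) : ℤ := f 0 * x 0 + f 1 * x 1 + f 2 * x 2

lemma dot_comb (f u v w : V) (a b c : ℤ) :
    dot f (a • u + b • v + c • w) = a * dot f u + b * dot f v + c * dot f w := by
  simp only [dot, Pi.add_apply, Pi.smul_apply, smul_eq_mul]; ring

lemma dot_eq (f x : V) : dotProduct f x = dot f x := by
  simp [dotProduct, dot, Fin.sum_univ_three]

lemma int_form (l : V →+ ℝ) {p q r : V} (hp : l p = 1) (hq : l q = 1) (hr : l r = 1)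
    (hD : D p q r ≠ 0) : ∃ (f : V) (c : ℤ), 0 < c ∧ (∃ z0, dot f z0 = 1) ∧
      ∀ z, (c : ℝ) * l z = dot f z := by
  obtain ⟨F, hF⟩ : ∃ F : V, ∀ z, D z q r + D p z r + D p q z = dot F z := by
    refine ⟨![D ![1, 0, 0] q r + D p ![1, 0, 0] r + D p q ![1, 0, 0],
      D ![0, 1, 0] q r + D p ![0, 1, 0] r + D p q ![0, 1, 0],
      D ![0, 0, 1] q r + D p ![0, 0, 1] r + D p q ![0, 0, 1]], fun z => ?_⟩
    simp [D, dot]; ring
  have h1 : ∀ z, (D p q r : ℝ) * l z = dot F z := fun z => by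
    have := congrArg l (cramer p q r z)
    rw [map_comb, map_zsmul, zsmul_eq_mul, hp, hq, hr] at this
    rw [← hF]; push_cast; linarith
  have hFp : D p q r = dot F p := by
    have := h1 p
    rw [hp, mul_one] at this
    exact_mod_cast this
  have b1 := Int.gcd_eq_gcd_ab (F 0) (Int.gcd (F 1) (F 2))
  have b2 := Int.gcd_eq_gcd_ab (F 1) (F 2)
  obtain ⟨n0, hn0⟩ := Int.gcd_dvd_left (F 0) (Int.gcd (F 1) (F 2))
  obtain ⟨n1, hn1⟩ := (Int.gcd_dvd_right (F 0) (Int.gcd (F 1) (F 2))).trans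
    (Int.gcd_dvd_left (F 1) (F 2))
  obtain ⟨n2, hn2⟩ := (Int.gcd_dvd_right (F 0) (Int.gcd (F 1) (F 2))).trans
    (Int.gcd_dvd_right (F 1) (F 2))
  generalize Int.gcdA (F 0) (Int.gcd (F 1) (F 2)) = x1 at b1
  generalize Int.gcdB (F 0) (Int.gcd (F 1) (F 2)) = y1 at b1
  generalize ((Int.gcd (F 0) (Int.gcd (F 1) (F 2)) : ℕ) : ℤ) = g at b1 hn0 hn1 hn2
  rw [b2] at b1
  generalize Int.gcdA (F 1) (F 2) = x2 at b1
  generalize Int.gcdB (F 1) (F 2) = y2 at b1
  have hFn : ∀ z, dot F z = g * dot ![n0, n1, n2] z := fun z => by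
    simp only [dot, Matrix.cons_val_zero, Matrix.cons_val_one, Matrix.cons_val]
    rw [hn0, hn1, hn2]; ring
  have hg : g ≠ 0 := by
    rintro rfl
    rw [hFn, zero_mul] at hFp
    exact hD hFp
  have hz0 : dot ![n0, n1, n2] ![x1, x2 * y1, y2 * y1] = 1 := by
    apply mul_left_cancel₀ hg
    simp only [dot, Matrix.cons_val_zero, Matrix.cons_val_one, Matrix.cons_val]
    rw [hn0, hn1, hn2] at b1
    linear_combination (-1 : ℤ) * b1
  have h2 : ∀ z, (dot ![n0, n1, n2] p : ℝ) * l z = dot ![n0, n1, n2] z := fun z => by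
    have h3 := h1 z
    rw [hFp, hFn, hFn] at h3
    push_cast at h3
    have hg' : (g : ℝ) ≠ 0 := by exact_mod_cast hg
    apply mul_left_cancel₀ hg'
    linarith
  have hc : dot ![n0, n1, n2] p ≠ 0 := fun h => by
    rw [hFn, h, mul_zero] at hFp
    exact hD hFp
  rcases lt_or_gt_of_ne hc with h | h
  · have hneg : ∀ z, dot (-![n0, n1, n2]) z = -dot ![n0, n1, n2] z := fun z => by
      simp only [dot, Pi.neg_apply]; ring
    refine ⟨-![n0, n1, n2], -dot ![n0, n1, n2] p, by linarith, ⟨-![x1, x2 * y1, y2 * y1], ?_⟩,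
      fun z => ?_⟩
    · rw [← hz0]; simp only [dot, Pi.neg_apply]; ring
    · rw [hneg]; push_cast; linarith [h2 z]
  · exact ⟨_, _, h, ⟨_, hz0⟩, h2⟩

/-- every periodic sail has a face at integer distance at least two -/
theorem far_face (S : Sys) : ∃ (f : V) (c : ℤ), 2 ≤ c ∧ (∃ z0, dot f z0 = 1) ∧
    (∀ x, S.Pos x → c ≤ dot f x) ∧ ∃ p q r, S.Pos p ∧ S.Pos q ∧ S.Pos r ∧
      dot f p = c ∧ dot f q = c ∧ dot f r = c ∧ D p q r ≠ 0 := by
  by_contra hcon
  apply Sys.not_allOne (S := S)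
  intro l hl p q r hp hq hr lp lq lr hD z
  obtain ⟨f, c, hc, hz0, h⟩ := int_form l lp lq lr hD
  by_cases h1 : c = 1
  · refine ⟨dot f z, ?_⟩
    rw [← h, h1]; simp
  · exfalso
    have e : ∀ x, l x = 1 → dot f x = c := fun x hx => by
      have := h x
      rw [hx, mul_one] at this
      exact_mod_cast this.symm
    refine hcon ⟨f, c, by omega, hz0, fun x hx => ?_, p, q, r, hp, hq, hr, e p lp, e q lq, e r lr,
      hD⟩
    have h2 := h x
    have h3 : (0 : ℝ) < c := by exact_mod_cast hc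
    have h4 : (c : ℝ) ≤ dot f x := by nlinarith [hl x hx]
    exact_mod_cast h4

end Pool.Agent.H61.Sail
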