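import Mathlib

set_option autoImplicit false

namespace Pool.Agent.H61.ScDefs

open Filter Topology

/-- The `n`-th singular value (`n = 0, 1, 2, ...`) of an operator: its distance, in operator norm,
to the operators of rank at most `n`. -/
noncomputable def sv {H : Type} [NormedAddCommGroup H] [InnerProductSpace ℂ H]
    (T : H →L[ℂ] H) (n : ℕ) : ℝ :=
  sInf {t : ℝ | ∃ F : H →L[ℂ] H, LinearMap.rank (F : H →ₗ[ℂ] H) ≤ n ∧ t = ‖T - F‖}

/-- `ι` identifies the normed algebra `A` with the Schatten class `S_p(H)`, with composition as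
product and the Schatten `p`-norm. -/
structure IsSchatten (p : ℝ) {H A : Type} [NormedAddCommGroup H] [InnerProductSpace ℂ H]
    [NonUnitalNormedRing A] [NormedSpace ℂ A] (ι : A →ₙₐ[ℂ] (H →L[ℂ] H)) : Prop where
  inj : Function.Injective ι
  range : ∀ T : H →L[ℂ] H,
    T ∈ Set.range ι ↔ IsCompactOperator T ∧ Summable fun n => sv T n ^ p
  norm : ∀ a, ‖a‖ = (∑' n, sv (ι a) n ^ p) ^ (1 / p)

/-- `l a x = a · x` and `r a x = x · a` make `X` an `A`-bimodule with bounded actions. -/
structure IsBimod {A X : Type} [NonUnitalNormedRing A] [NormedSpace ℂ A]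
    [NormedAddCommGroup X] [NormedSpace ℂ X] (l r : A →L[ℂ] X →L[ℂ] X) : Prop where
  left : ∀ a b x, l (a * b) x = l a (l b x)
  right : ∀ a b x, r (a * b) x = r b (r a x)
  comm : ∀ a b x, l a (r b x) = r b (l a x)

/-- Approximate semi-amenability. On the dual module, `a · φ = φ ∘ r a` and `φ · a = φ ∘ l a`. -/
def ApproxSemiAmenable (A : Type) [NonUnitalNormedRing A] [NormedSpace ℂ A] : Prop :=
  ∀ (X : Type) [NormedAddCommGroup X] [NormedSpace ℂ X] [CompleteSpace X]
    (l r : A →L[ℂ] X →L[ℂ] X), IsBimod l r →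
    ∀ D : A →L[ℂ] StrongDual ℂ X,
      (∀ a b, D (a * b) = (D b).comp (r a) + (D a).comp (l b)) →
      ∃ (I : Type) (_ : Preorder I) (_ : IsDirectedOrder I) (_ : Nonempty I)
        (ξ η : I → StrongDual ℂ X),
        ∀ a, Tendsto (fun i => (ξ i).comp (r a) - (η i).comp (l a)) atTop (𝓝 (D a))

end Pool.Agent.H61.ScDefs
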