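import Mathlib
import Pool.Agent.H61.ScDefs

set_option autoImplicit false

namespace Pool.Agent.H61.ScA

open Pool.Agent.H61.ScDefs Finset
open scoped InnerProductSpace

variable {H : Type} [NormedAddCommGroup H] [InnerProductSpace ℂ H]

/-- rank at most `n` -/
def Rk (F : H →L[ℂ] H) (n : ℕ) : Prop := LinearMap.rank (F : H →ₗ[ℂ] H) ≤ n

lemma Rk.zero (n : ℕ) : Rk (0 : H →L[ℂ] H) n := by
  unfold Rk; simp

lemma Rk.mono {F : H →L[ℂ] H} {m n : ℕ} (h : Rk F m) (hmn : m ≤ n) : Rk F n :=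
  le_trans h (by exact_mod_cast hmn)

lemma Rk.add {F G : H →L[ℂ] H} {m n : ℕ} (h : Rk F m) (h' : Rk G n) : Rk (F + G) (m + n) := by
  unfold Rk at *
  calc LinearMap.rank ((F + G : H →L[ℂ] H) : H →ₗ[ℂ] H)
      = LinearMap.rank ((F : H →ₗ[ℂ] H) + (G : H →ₗ[ℂ] H)) := rfl
    _ ≤ _ := LinearMap.rank_add_le _ _
    _ ≤ (m : Cardinal) + n := add_le_add h h'
    _ = _ := by push_cast; rfl

lemma Rk.mul_left {F : H →L[ℂ] H} {m : ℕ} (h : Rk F m) (B : H →L[ℂ] H) : Rk (B * F) m :=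
  le_trans (LinearMap.rank_comp_le_right (F : H →ₗ[ℂ] H) (B : H →ₗ[ℂ] H)) h

lemma Rk.mul_right {F : H →L[ℂ] H} {m : ℕ} (h : Rk F m) (B : H →L[ℂ] H) : Rk (F * B) m :=
  le_trans (LinearMap.rank_comp_le_left (B : H →ₗ[ℂ] H) (F : H →ₗ[ℂ] H)) h

lemma Rk.neg {F : H →L[ℂ] H} {m : ℕ} (h : Rk F m) : Rk (-F) m := by
  have := h.mul_left (-1)
  simpa using this

lemma Rk.sub {F G : H →L[ℂ] H} {m n : ℕ} (h : Rk F m) (h' : Rk G n) : Rk (F - G) (m + n) := by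
  rw [sub_eq_add_neg]; exact h.add h'.neg

lemma Rk.eq_zero {F : H →L[ℂ] H} (h : Rk F 0) : F = 0 := by
  unfold Rk at h
  have h0 : Module.rank ℂ (LinearMap.range (F : H →ₗ[ℂ] H)) = 0 := by
    simpa using h
  have h1 : LinearMap.range (F : H →ₗ[ℂ] H) = ⊥ := Submodule.rank_eq_zero.1 h0
  rw [LinearMap.range_eq_bot] at h1
  ext x
  exact LinearMap.congr_fun h1 x

lemma Rk.fin {F : H →L[ℂ] H} {m : ℕ} (h : Rk F m) :
    FiniteDimensional ℂ (LinearMap.range (F : H →ₗ[ℂ] H)) :=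
  Module.rank_lt_aleph0_iff.1 (lt_of_le_of_lt h (Cardinal.natCast_lt_aleph0))

lemma Rk.finrank {F : H →L[ℂ] H} {m : ℕ} (h : Rk F m) :
    Module.finrank ℂ (LinearMap.range (F : H →ₗ[ℂ] H)) ≤ m :=
  Module.finrank_le_of_rank_le h

lemma Rk.compact {F : H →L[ℂ] H} {m : ℕ} (h : Rk F m) : IsCompactOperator F := by
  have := h.fin
  have : ProperSpace (LinearMap.range (F : H →ₗ[ℂ] H)) := FiniteDimensional.proper ℂ _
  have h1 := isCompactOperator_of_locallyCompactSpace_dom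
    (F.codRestrict (LinearMap.range (F : H →ₗ[ℂ] H)) (fun x => ⟨x, rfl⟩))
  exact h1.clm_comp (LinearMap.range (F : H →ₗ[ℂ] H)).subtypeL

lemma rk_rankOne (v w : H) : Rk (InnerProductSpace.rankOne ℂ v w) 1 := by
  by_cases hv : v = 0
  · simp [hv, Rk.zero]
  by_cases hw : w = 0
  · simp [hw, Rk.zero]
  unfold Rk
  rw [InnerProductSpace.rank_rankOne hv hw]; simp

lemma rk_sum {ι : Type} (s : Finset ι) (F : ι → H →L[ℂ] H) (h : ∀ i ∈ s, Rk (F i) 1) :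
    Rk (∑ i ∈ s, F i) s.card := by
  classical
  induction s using Finset.induction_on with
  | empty => simpa using Rk.zero 0
  | insert a s ha ih =>
    rw [sum_insert ha, card_insert_of_notMem ha, add_comm s.card]
    exact (h a (mem_insert_self _ _)).add (ih fun i hi => h i (mem_insert_of_mem hi))

lemma sv_bdd (T : H →L[ℂ] H) (n : ℕ) :
    BddBelow {t : ℝ | ∃ F : H →L[ℂ] H, LinearMap.rank (F : H →ₗ[ℂ] H) ≤ n ∧ t = ‖T - F‖} :=
  ⟨0, by rintro t ⟨F, -, rfl⟩; exact norm_nonneg _⟩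

lemma sv_le (T : H →L[ℂ] H) {n : ℕ} {F : H →L[ℂ] H} (h : Rk F n) : sv T n ≤ ‖T - F‖ :=
  csInf_le (sv_bdd T n) ⟨F, h, rfl⟩

lemma sv_nonneg (T : H →L[ℂ] H) (n : ℕ) : 0 ≤ sv T n :=
  Real.sInf_nonneg (by rintro t ⟨F, -, rfl⟩; exact norm_nonneg _)

lemma sv_approx (T : H →L[ℂ] H) (n : ℕ) {δ : ℝ} (hδ : 0 < δ) :
    ∃ F, Rk F n ∧ ‖T - F‖ ≤ sv T n + δ := by
  have hne : {t : ℝ | ∃ F : H →L[ℂ] H,
      LinearMap.rank (F : H →ₗ[ℂ] H) ≤ n ∧ t = ‖T - F‖}.Nonempty := ⟨_, 0, Rk.zero n, rfl⟩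
  obtain ⟨t, ⟨F, hF, rfl⟩, ht⟩ := exists_lt_of_csInf_lt hne (lt_add_of_pos_right _ hδ)
  exact ⟨F, hF, ht.le⟩

lemma le_sv (T : H →L[ℂ] H) (n : ℕ) {c : ℝ} (h : ∀ F, Rk F n → c ≤ ‖T - F‖) : c ≤ sv T n :=
  le_csInf ⟨_, 0, Rk.zero n, rfl⟩ (by rintro t ⟨F, hF, rfl⟩; exact h F hF)

lemma sv_le_norm (T : H →L[ℂ] H) (n : ℕ) : sv T n ≤ ‖T‖ := by
  simpa using sv_le T (Rk.zero n)

lemma sv_zero (T : H →L[ℂ] H) : sv T 0 = ‖T‖ :=
  le_antisymm (sv_le_norm T 0) (le_sv T 0 fun F hF => by simp [hF.eq_zero])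

lemma sv_anti (T : H →L[ℂ] H) {m n : ℕ} (h : m ≤ n) : sv T n ≤ sv T m :=
  le_sv T m fun _ hF => sv_le T (hF.mono h)

lemma sv_of_rk {T : H →L[ℂ] H} {m n : ℕ} (h : Rk T m) (hmn : m ≤ n) : sv T n = 0 :=
  le_antisymm (by simpa using sv_le T (h.mono hmn)) (sv_nonneg _ _)

lemma sv_sub (T : H →L[ℂ] H) {F : H →L[ℂ] H} {m : ℕ} (h : Rk F m) (n : ℕ) :
    sv (T - F) (n + m) ≤ sv T n := by
  refine le_sv T n fun G hG => ?_
  have := sv_le (T - F) (hG.sub h)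
  simpa using this

lemma sv_mul (S T : H →L[ℂ] H) (m n : ℕ) : sv (S * T) (m + n) ≤ sv S m * sv T n := by
  have key : ∀ F G, Rk F m → Rk G n → sv (S * T) (m + n) ≤ ‖S - F‖ * ‖T - G‖ := by
    intro F G hF hG
    have h1 := sv_le (S * T) ((hF.mul_right T).add (hG.mul_left (S - F)))
    have h2 : S * T - (F * T + (S - F) * G) = (S - F) * (T - G) := by noncomm_ring
    rw [h2] at h1
    exact h1.trans (norm_mul_le _ _)
  have h3 : ∀ δ : ℝ, 0 < δ → sv (S * T) (m + n) ≤ (sv S m + δ) * (sv T n + δ) := by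
    intro δ hδ
    obtain ⟨F, hF, hF'⟩ := sv_approx S m hδ
    obtain ⟨G, hG, hG'⟩ := sv_approx T n hδ
    exact (key F G hF hG).trans (mul_le_mul hF' hG' (norm_nonneg _)
      (add_nonneg (sv_nonneg _ _) hδ.le))
  have h4 : Filter.Tendsto (fun δ : ℝ => (sv S m + δ) * (sv T n + δ)) (nhdsWithin 0 (Set.Ioi 0))
      (nhds (sv S m * sv T n)) := by
    have : Continuous fun δ : ℝ => (sv S m + δ) * (sv T n + δ) := by fun_prop
    have h5 := this.tendsto 0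
    simp only [add_zero] at h5
    exact h5.mono_left nhdsWithin_le_nhds
  exact ge_of_tendsto h4 (eventually_nhdsWithin_of_forall fun δ hδ => h3 δ hδ)

lemma sv_mul_left (B T : H →L[ℂ] H) (n : ℕ) : sv (B * T) n ≤ ‖B‖ * sv T n := by
  simpa [sv_zero] using sv_mul B T 0 n

lemma sv_mul_right (B T : H →L[ℂ] H) (n : ℕ) : sv (T * B) n ≤ ‖B‖ * sv T n := by
  simpa [sv_zero, mul_comm] using sv_mul T B n 0

/-- Bessel in the form used below. -/
lemma sum_sq_le {ι : Type} {f : ι → H} (hf : Orthonormal ℂ f) (s : Finset ι) (z : H) :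
    ∑ l ∈ s, ‖⟪f l, z⟫_ℂ‖ ^ 2 ≤ ‖z‖ ^ 2 := hf.sum_inner_products_le z

/-- the compression of a trace -/
noncomputable def tr {ι : Type} (s : Finset ι) (g f : ι → H) : (H →L[ℂ] H) →L[ℂ] ℂ :=
  ∑ l ∈ s, (innerSL ℂ (g l)).comp (ContinuousLinearMap.apply ℂ H (f l))

lemma tr_apply {ι : Type} (s : Finset ι) (g f : ι → H) (T : H →L[ℂ] H) :
    tr s g f T = ∑ l ∈ s, ⟪g l, T (f l)⟫_ℂ := by
  simp [tr]

lemma tr_le_card {ι : Type} {f g : ι → H} (hf : Orthonormal ℂ f) (hg : Orthonormal ℂ g)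
    (s : Finset ι) (T : H →L[ℂ] H) : ‖tr s g f T‖ ≤ s.card * ‖T‖ := by
  rw [tr_apply]
  refine (norm_sum_le _ _).trans ?_
  have : ∀ l ∈ s, ‖⟪g l, T (f l)⟫_ℂ‖ ≤ ‖T‖ := by
    intro l _
    refine (norm_inner_le_norm _ _).trans ?_
    rw [hg.1 l, one_mul]
    simpa [hf.1 l] using T.le_opNorm (f l)
  simpa using sum_le_card_nsmul s _ _ this

lemma tr_rankOne {ι : Type} {f g : ι → H} (hf : Orthonormal ℂ f) (hg : Orthonormal ℂ g)
    (s : Finset ι) (v w : H) : ‖tr s g f (InnerProductSpace.rankOne ℂ v w)‖ ≤ ‖v‖ * ‖w‖ := by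
  rw [tr_apply]
  refine (norm_sum_le _ _).trans ?_
  have h1 : ∀ l ∈ s, ‖⟪g l, InnerProductSpace.rankOne ℂ v w (f l)⟫_ℂ‖
      = ‖⟪g l, v⟫_ℂ‖ * ‖⟪f l, w⟫_ℂ‖ := by
    intro l _
    rw [InnerProductSpace.inner_right_rankOne_apply, norm_mul, norm_inner_symm w]
  rw [sum_congr rfl h1]
  have h2 := Finset.sum_mul_sq_le_sq_mul_sq s (fun l => ‖⟪g l, v⟫_ℂ‖) (fun l => ‖⟪f l, w⟫_ℂ‖)
  have h3 := sum_sq_le hg s v
  have h4 := sum_sq_le hf s w
  have h5 : (∑ l ∈ s, ‖⟪g l, v⟫_ℂ‖ * ‖⟪f l, w⟫_ℂ‖) ^ 2 ≤ (‖v‖ * ‖w‖) ^ 2 := by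
    rw [mul_pow]
    exact h2.trans (mul_le_mul h3 h4 (sum_nonneg fun _ _ => sq_nonneg _) (sq_nonneg _))
  exact (pow_le_pow_iff_left₀ (sum_nonneg fun _ _ => by positivity) (by positivity)
      two_ne_zero).1 h5

variable [CompleteSpace H]

/-- an operator with range in a finite-dimensional subspace as a sum of rank-one operators -/
lemma eq_sum_rankOne (W : Submodule ℂ H) {κ : Type} [Fintype κ] (b : OrthonormalBasis κ ℂ W)
    (G : H →L[ℂ] H) (hG : ∀ z, G z ∈ W) :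
    G = ∑ j, InnerProductSpace.rankOne ℂ (b j : H) (ContinuousLinearMap.adjoint G (b j : H)) := by
  ext z
  have h1 := b.sum_repr' ⟨G z, hG z⟩
  have h2 := congrArg (fun w : W => (w : H)) h1
  simp only [AddSubmonoidClass.coe_finsetSum, SetLike.val_smul] at h2
  rw [_root_.sum_apply, ← h2]
  refine sum_congr rfl fun j _ => ?_
  rw [InnerProductSpace.rankOne_apply, ContinuousLinearMap.adjoint_inner_left]
  rfl

lemma tr_le_rk {ι : Type} {f g : ι → H} (hf : Orthonormal ℂ f) (hg : Orthonormal ℂ g)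
    (s : Finset ι) {G : H →L[ℂ] H} {m : ℕ} (h : Rk G m) : ‖tr s g f G‖ ≤ m * ‖G‖ := by
  have := h.fin
  let W := LinearMap.range (G : H →ₗ[ℂ] H)
  let b := stdOrthonormalBasis ℂ W
  have h1 := eq_sum_rankOne W b G (fun z => ⟨z, rfl⟩)
  have h2 : ‖tr s g f G‖ ≤ ∑ _j : Fin (Module.finrank ℂ W), ‖G‖ := by
    conv_lhs => rw [h1, map_sum]
    refine (norm_sum_le _ _).trans (sum_le_sum fun j _ => ?_)
    refine (tr_rankOne hf hg s _ _).trans ?_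
    have hb : ‖(b j : H)‖ = 1 := b.orthonormal.1 j
    rw [hb, one_mul]
    have := (ContinuousLinearMap.adjoint G).le_opNorm (b j : H)
    rw [hb, mul_one, LinearIsometryEquiv.norm_map] at this
    exact this
  refine h2.trans ?_
  simp only [sum_const, card_univ, Fintype.card_fin, nsmul_eq_mul]
  exact mul_le_mul_of_nonneg_right (by exact_mod_cast h.finrank) (norm_nonneg _)

lemma tr_dyadic_aux {ι : Type} {f g : ι → H} (hf : Orthonormal ℂ f) (hg : Orthonormal ℂ g)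
    (s : Finset ι) (T : H →L[ℂ] H) {δ : ℝ} (hδ : 0 < δ) (k : ℕ) :
    ∀ F, Rk F (2 ^ k - 1) → ‖T - F‖ ≤ sv T (2 ^ k - 1) + δ →
      ‖tr s g f F‖ ≤ 6 * ∑ j ∈ range k, 2 ^ j * (sv T (2 ^ j - 1) + δ) := by
  induction k with
  | zero => intro F hF _; simp [Rk.eq_zero (by simpa using hF)]
  | succ k ih =>
    intro F hF hF'
    obtain ⟨G, hG, hG'⟩ := sv_approx T (2 ^ k - 1) hδ
    have h1 := ih G hG hG'
    have h2 := tr_le_rk hf hg s ((hF.sub hG).mono (n := 3 * 2 ^ k) (by rw [pow_succ]; omega))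
    have h3 : ‖F - G‖ ≤ 2 * (sv T (2 ^ k - 1) + δ) := by
      have : F - G = (T - G) - (T - F) := by abel
      rw [this]
      refine (norm_sub_le _ _).trans ?_
      have := sv_anti T (m := 2 ^ k - 1) (n := 2 ^ (k + 1) - 1) (by rw [pow_succ]; omega)
      linarith
    have h4 : tr s g f F = tr s g f G + tr s g f (F - G) := by rw [map_sub]; ring
    rw [h4, sum_range_succ]
    refine (norm_add_le _ _).trans ?_
    have h5 : ((3 * 2 ^ k : ℕ) : ℝ) * ‖F - G‖ ≤ (3 * 2 ^ k) * (2 * (sv T (2 ^ k - 1) + δ)) := by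
      push_cast
      exact mul_le_mul_of_nonneg_left h3 (by positivity)
    nlinarith

lemma tr_dyadic {ι : Type} {f g : ι → H} (hf : Orthonormal ℂ f) (hg : Orthonormal ℂ g)
    (s : Finset ι) (T : H →L[ℂ] H) (k : ℕ) (hs : s.card ≤ 2 ^ k) :
    ‖tr s g f T‖ ≤ 6 * ∑ j ∈ range (k + 1), 2 ^ j * sv T (2 ^ j - 1) := by
  have key : ∀ δ : ℝ, 0 < δ →
      ‖tr s g f T‖ ≤ 6 * ∑ j ∈ range (k + 1), 2 ^ j * (sv T (2 ^ j - 1) + δ) := by
    intro δ hδ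
    obtain ⟨F, hF, hF'⟩ := sv_approx T (2 ^ k - 1) hδ
    have h1 := tr_dyadic_aux hf hg s T hδ k F hF hF'
    have h2 := tr_le_card hf hg s (T - F)
    have h4 : tr s g f T = tr s g f F + tr s g f (T - F) := by rw [map_sub]; ring
    rw [h4, sum_range_succ]
    refine (norm_add_le _ _).trans ?_
    have h5 : (s.card : ℝ) * ‖T - F‖ ≤ 2 ^ k * (sv T (2 ^ k - 1) + δ) :=
      mul_le_mul (by exact_mod_cast hs) hF' (norm_nonneg _) (by positivity)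
    have h6 : 0 ≤ 2 ^ k * (sv T (2 ^ k - 1) + δ) :=
      mul_nonneg (by positivity) (add_nonneg (sv_nonneg _ _) hδ.le)
    linarith
  have h4 : Filter.Tendsto (fun δ : ℝ => 6 * ∑ j ∈ range (k + 1), 2 ^ j * (sv T (2 ^ j - 1) + δ))
      (nhdsWithin 0 (Set.Ioi 0)) (nhds (6 * ∑ j ∈ range (k + 1), 2 ^ j * sv T (2 ^ j - 1))) := by
    have : Continuous fun δ : ℝ => 6 * ∑ j ∈ range (k + 1), 2 ^ j * (sv T (2 ^ j - 1) + δ) := by
      fun_prop
    have h5 := this.tendsto 0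
    simp only [add_zero] at h5
    exact h5.mono_left nhdsWithin_le_nhds
  exact ge_of_tendsto h4 (eventually_nhdsWithin_of_forall fun δ hδ => key δ hδ)

end Pool.Agent.H61.ScA
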