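import Mathlib
import Pool.Agent.H61.ScA

set_option autoImplicit false

namespace Pool.Agent.H61.ScB

open Pool.Agent.H61.ScDefs Pool.Agent.H61.ScA Finset
open scoped InnerProductSpace

variable {H A : Type} [NormedAddCommGroup H] [InnerProductSpace ℂ H]
  [NonUnitalNormedRing A] [NormedSpace ℂ A] {ι : A →ₙₐ[ℂ] (H →L[ℂ] H)} {p : ℝ}

lemma summ (hS : IsSchatten p ι) (a : A) : Summable fun n => sv (ι a) n ^ p :=
  ((hS.range _).1 ⟨a, rfl⟩).2

lemma norm_pow (hp : 1 ≤ p) (hS : IsSchatten p ι) (a : A) :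
    ‖a‖ ^ p = ∑' n, sv (ι a) n ^ p := by
  rw [hS.norm a, ← Real.rpow_mul (tsum_nonneg fun n => Real.rpow_nonneg (sv_nonneg _ _) _),
    one_div_mul_cancel (by linarith), Real.rpow_one]

lemma mul_sv_le (hp : 1 ≤ p) (hS : IsSchatten p ι) (a : A) (N : ℕ) :
    (N : ℝ) * sv (ι a) (N - 1) ^ p ≤ ‖a‖ ^ p := by
  rw [norm_pow hp hS]
  refine le_trans ?_ ((summ hS a).sum_le_tsum (range N)
    fun n _ => Real.rpow_nonneg (sv_nonneg _ _) _)
  have : ∀ n ∈ range N, sv (ι a) (N - 1) ^ p ≤ sv (ι a) n ^ p := fun n hn =>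
    Real.rpow_le_rpow (sv_nonneg _ _) (sv_anti _ (by have := mem_range.1 hn; omega)) (by linarith)
  simpa using card_nsmul_le_sum (range N) _ _ this

lemma op_le (hp : 1 ≤ p) (hS : IsSchatten p ι) (a : A) : ‖ι a‖ ≤ ‖a‖ := by
  have := mul_sv_le hp hS a 1
  simp only [Nat.cast_one, one_mul, Nat.sub_self, sv_zero] at this
  exact (Real.rpow_le_rpow_iff (norm_nonneg _) (norm_nonneg _) (by linarith)).1 this

lemma sv_pow_le (hp : 1 ≤ p) (hS : IsSchatten p ι) (a : A) (j : ℕ) :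
    sv (ι a) (2 ^ j - 1) ≤ ((2 : ℝ) ^ (-1 / p)) ^ j * ‖a‖ := by
  have h := mul_sv_le hp hS a (2 ^ j)
  have hp0 : 0 < p := by linarith
  refine (Real.rpow_le_rpow_iff (sv_nonneg _ _) (by positivity) hp0).1 ?_
  rw [Real.mul_rpow (by positivity) (norm_nonneg _), ← Real.rpow_natCast,
    ← Real.rpow_mul (by positivity), ← Real.rpow_mul (by positivity)]
  have h2 : -1 / p * (j * p) = -(j : ℝ) := by field_simp
  rw [h2, Real.rpow_neg (by positivity), Real.rpow_natCast, ← div_eq_inv_mul,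
    le_div_iff₀ (by positivity), mul_comm]
  simpa using h

lemma exists_of_rk (hp : 1 ≤ p) (hS : IsSchatten p ι) {F : H →L[ℂ] H} {m : ℕ} (h : Rk F m) :
    ∃ a, ι a = F ∧ ‖a‖ ≤ (m : ℝ) ^ (1 / p) * ‖F‖ := by
  have hp0 : 0 < p := by linarith
  have h0 : ∀ n ∉ range m, sv F n ^ p = 0 := fun n hn => by
    rw [sv_of_rk h (by simpa using hn), Real.zero_rpow hp0.ne']
  obtain ⟨a, ha⟩ := (hS.range F).2 ⟨h.compact, summable_of_ne_finset_zero h0⟩
  refine ⟨a, ha, ?_⟩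
  rw [hS.norm a, ha, tsum_eq_sum h0]
  have h1 : ∑ n ∈ range m, sv F n ^ p ≤ m * ‖F‖ ^ p := by
    have : ∀ n ∈ range m, sv F n ^ p ≤ ‖F‖ ^ p := fun n _ =>
      Real.rpow_le_rpow (sv_nonneg _ _) (sv_le_norm _ _) hp0.le
    simpa using sum_le_card_nsmul (range m) _ _ this
  refine (Real.rpow_le_rpow (sum_nonneg fun n _ => Real.rpow_nonneg (sv_nonneg _ _) _) h1
    (by positivity)).trans_eq ?_
  rw [Real.mul_rpow (by positivity) (by positivity), ← Real.rpow_mul (norm_nonneg _),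
    mul_one_div_cancel hp0.ne', Real.rpow_one]

/-- the inclusion as a continuous linear map -/
noncomputable def incl (hp : 1 ≤ p) (hS : IsSchatten p ι) : A →L[ℂ] (H →L[ℂ] H) :=
  LinearMap.mkContinuous
    { toFun := ι, map_add' := map_add ι, map_smul' := fun c a => map_smul ι c a } 1
    (fun a => by simpa using op_le hp hS a)

lemma incl_apply (hp : 1 ≤ p) (hS : IsSchatten p ι) (a : A) : incl hp hS a = ι a := rfl

lemma norm_one (hS : IsSchatten 1 ι) (a : A) : ‖a‖ = ∑' n, sv (ι a) n := by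
  simpa using hS.norm a

lemma summ_one (hS : IsSchatten 1 ι) (a : A) : Summable fun n => sv (ι a) n := by
  simpa using summ hS a

lemma condense (T : H →L[ℂ] H) (k : ℕ) :
    ∑ j ∈ range (k + 1), 2 ^ j * sv T (2 ^ j - 1) ≤ 2 * ∑ n ∈ range (2 ^ k), sv T n := by
  induction k with
  | zero => simp; linarith [sv_nonneg T 0]
  | succ k ih =>
    rw [sum_range_succ, ← sum_range_add_sum_Ico _ (m := 2 ^ k) (n := 2 ^ (k + 1))
      (by rw [pow_succ]; omega)]
    have : ∀ n ∈ Ico (2 ^ k) (2 ^ (k + 1)), sv T (2 ^ (k + 1) - 1) ≤ sv T n := fun n hn =>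
      sv_anti _ (by have := (mem_Ico.1 hn).2; omega)
    have h2 := card_nsmul_le_sum _ _ _ this
    have h3 : (Ico (2 ^ k) (2 ^ (k + 1))).card = 2 ^ k := by
      rw [Nat.card_Ico, pow_succ]; omega
    rw [h3, nsmul_eq_mul] at h2
    push_cast at h2
    rw [pow_succ (2 : ℝ) k]
    linarith

lemma tr_le_one [CompleteSpace H] (hS : IsSchatten 1 ι) {κ : Type} {f g : κ → H}
    (hf : Orthonormal ℂ f) (hg : Orthonormal ℂ g) (s : Finset κ) (T : H →L[ℂ] H) (a : A) (C : ℝ)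
    (hC : 0 ≤ C) (h : ∀ n, sv T n ≤ C * sv (ι a) n) : ‖tr s g f T‖ ≤ 12 * (C * ‖a‖) := by
  have h1 := tr_dyadic hf hg s T s.card (Nat.lt_two_pow_self).le
  have h2 := condense T s.card
  have h3 : ∑ n ∈ range (2 ^ s.card), sv T n ≤ C * ‖a‖ := by
    refine (sum_le_sum fun n _ => h n).trans ?_
    rw [← mul_sum, norm_one hS]
    exact mul_le_mul_of_nonneg_left
      ((summ_one hS a).sum_le_tsum _ fun n _ => sv_nonneg _ _) hC
  linarith

lemma norm_le_one (hS : IsSchatten 1 ι) (a b : A) (C : ℝ)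
    (h : ∀ n, sv (ι b) n ≤ C * sv (ι a) n) : ‖b‖ ≤ C * ‖a‖ := by
  rw [norm_one hS, norm_one hS, ← tsum_mul_left]
  exact (summ_one hS b).tsum_le_tsum h ((summ_one hS a).mul_left C)

lemma dense_one (hS : IsSchatten 1 ι) (a : A) {ε : ℝ} (hε : 0 < ε) :
    ∃ (F : A) (m : ℕ), Rk (ι F) m ∧ ‖a - F‖ ≤ ε := by
  have hs := summ_one hS a
  have ht := tendsto_sum_nat_add fun n => sv (ι a) n
  obtain ⟨M, hM⟩ := (ht.eventually (gt_mem_nhds (show (0 : ℝ) < ε / 6 by positivity))).exists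
  obtain ⟨F, hF, hF'⟩ := sv_approx (ι a) (2 * M) (show 0 < ε / (6 * (4 * M + 1)) by positivity)
  obtain ⟨b, hb, -⟩ := exists_of_rk le_rfl hS hF
  refine ⟨b, 2 * M, hb ▸ hF, ?_⟩
  have hsM : Summable fun n => sv (ι a) (n + M) := (summable_nat_add_iff M).2 hs
  rw [norm_one hS, ← (summ_one hS (a - b)).sum_add_tsum_nat_add (4 * M), map_sub, hb]
  have h1 : ∑' n, sv (ι a - F) (n + 4 * M) ≤ ∑' n, sv (ι a) (n + M) := by
    refine Summable.tsum_le_tsum (fun n => ?_) ?_ hsM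
    · have := sv_sub (ι a) hF (n + M)
      exact (sv_anti _ (by omega)).trans this
    · have := (summable_nat_add_iff (4 * M)).2 (summ_one hS (a - b))
      simpa [map_sub, hb] using this
  have h2 : ∑ n ∈ range (4 * M), sv (ι a - F) n
      ≤ (4 * M) * (sv (ι a) (2 * M) + ε / (6 * (4 * M + 1))) := by
    have : ∀ n ∈ range (4 * M), sv (ι a - F) n ≤ sv (ι a) (2 * M) + ε / (6 * (4 * M + 1)) :=
      fun n _ => (sv_le_norm _ _).trans hF'
    simpa [mul_add] using sum_le_card_nsmul _ _ _ this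
  have h3 : (M : ℝ) * sv (ι a) (2 * M) ≤ ∑' n, sv (ι a) (n + M) := by
    refine le_trans ?_ (hsM.sum_le_tsum (range M) fun n _ => sv_nonneg _ _)
    have : ∀ n ∈ range M, sv (ι a) (2 * M) ≤ sv (ι a) (n + M) := fun n hn =>
      sv_anti _ (by have := mem_range.1 hn; omega)
    simpa using card_nsmul_le_sum (range M) _ _ this
  have h4 : (4 * M : ℝ) * (ε / (6 * (4 * M + 1))) ≤ ε / 6 := by
    rw [mul_div_assoc', div_le_div_iff₀ (by positivity) (by positivity)]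
    nlinarith
  nlinarith

end Pool.Agent.H61.ScB
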