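import Mathlib
import Pool.Agent.H61.ScB

set_option autoImplicit false

namespace Pool.Agent.H61.ScC

open Pool.Agent.H61.ScDefs Pool.Agent.H61.ScA Pool.Agent.H61.ScB Finset Filter Topology
open scoped InnerProductSpace
open InnerProductSpace (rankOne)
open ContinuousLinearMap (adjoint)

variable {H A : Type} [NormedAddCommGroup H] [InnerProductSpace ℂ H] [CompleteSpace H]
  [NonUnitalNormedRing A] [NormedSpace ℂ A] {ι : A →ₙₐ[ℂ] (H →L[ℂ] H)} {p : ℝ}

omit [CompleteSpace H] in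
lemma exists_theta (hp : 1 ≤ p) (hS : IsSchatten p ι) :
    ∃ θ : H → H → A, ∀ v w, ι (θ v w) = rankOne ℂ v w ∧ ‖θ v w‖ ≤ ‖v‖ * ‖w‖ := by
  have : ∀ v w : H, ∃ a, ι a = rankOne ℂ v w ∧ ‖a‖ ≤ ‖v‖ * ‖w‖ := fun v w => by
    simpa using exists_of_rk hp hS (rk_rankOne v w)
  choose θ hθ using this
  exact ⟨θ, hθ⟩

lemma rk_adjoint {F : H →L[ℂ] H} {m : ℕ} (h : Rk F m) : ∃ m', Rk (adjoint F) m' := by
  have := h.fin
  let W := LinearMap.range (F : H →ₗ[ℂ] H)
  let b := stdOrthonormalBasis ℂ W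
  have h1 := eq_sum_rankOne W b F (fun z => ⟨z, rfl⟩)
  refine ⟨(univ : Finset (Fin (Module.finrank ℂ W))).card, ?_⟩
  rw [h1, map_sum]
  exact rk_sum _ _ fun j _ => by
    rw [InnerProductSpace.adjoint_rankOne]; exact rk_rankOne _ _

lemma tr_comm (W : Submodule ℂ H) {κ : Type} [Fintype κ] (b : OrthonormalBasis κ ℂ W)
    (F B : H →L[ℂ] H) (h1 : ∀ z, F z ∈ W) (h2 : ∀ z, adjoint F z ∈ W) :
    tr univ (fun l => (b l : H)) (fun l => (b l : H)) (F * B)
      = tr univ (fun l => (b l : H)) (fun l => (b l : H)) (B * F) := by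
  have hU : ∀ z ∈ W, ∑ l, ⟪(b l : H), z⟫_ℂ • (b l : H) = z := by
    intro z hz
    have h := congrArg (fun w : W => (w : H)) (b.sum_repr' ⟨z, hz⟩)
    simp only [AddSubmonoidClass.coe_finsetSum, SetLike.val_smul] at h
    exact h
  have key : ∀ v ∈ W, ∀ w ∈ W,
      tr univ (fun l => (b l : H)) (fun l => (b l : H)) (rankOne ℂ v w * B)
      = tr univ (fun l => (b l : H)) (fun l => (b l : H)) (B * rankOne ℂ v w) := by
    intro v hv w hw
    have e1 : tr univ (fun l => (b l : H)) (fun l => (b l : H)) (rankOne ℂ v w * B)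
        = ⟪w, B v⟫_ℂ := by
      conv_rhs => rw [← hU v hv, map_sum, inner_sum]
      rw [tr_apply]
      refine sum_congr rfl fun l _ => ?_
      simp [inner_smul_right, mul_comm]
    have e2 : tr univ (fun l => (b l : H)) (fun l => (b l : H)) (B * rankOne ℂ v w)
        = ⟪w, B v⟫_ℂ := by
      conv_rhs => rw [← hU w hw, sum_inner]
      rw [tr_apply]
      refine sum_congr rfl fun l _ => ?_
      simp [inner_smul_left]
    rw [e1, e2]
  have h3 := eq_sum_rankOne W b F h1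
  conv_lhs => rw [h3, sum_mul, map_sum]
  conv_rhs => rw [h3, mul_sum, map_sum]
  exact sum_congr rfl fun j _ => key _ (b j).2 _ (h2 _)

lemma exists_form {X : Type} [NormedAddCommGroup X] [NormedSpace ℂ X] (hS : IsSchatten p ι)
    {θ : H → H → A} (hθ : ∀ v w, ι (θ v w) = rankOne ℂ v w ∧ ‖θ v w‖ ≤ ‖v‖ * ‖w‖)
    (r : A →L[ℂ] X →L[ℂ] X) (D : A →L[ℂ] StrongDual ℂ X) {e : H} (he : ‖e‖ = 1) (x : X) :
    ∃ B : H →L[ℂ] H, ‖B‖ ≤ ‖D‖ * ‖r‖ * ‖x‖ ∧
      ∀ v w, D (θ e w) (r (θ v e) x) = ⟪w, B v⟫_ℂ := by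
  have a1 : ∀ v v' w, θ (v + v') w = θ v w + θ v' w := fun v v' w =>
    hS.inj (by simp [(hθ _ _).1])
  have a2 : ∀ v w w', θ v (w + w') = θ v w + θ v w' := fun v w w' =>
    hS.inj (by simp [(hθ _ _).1])
  have s1 : ∀ (c : ℂ) v w, θ (c • v) w = c • θ v w := fun c v w =>
    hS.inj (by simp [(hθ _ _).1])
  have s2 : ∀ (c : ℂ) v w, θ v (c • w) = (starRingEnd ℂ c) • θ v w := fun c v w =>
    hS.inj (by simp [(hθ _ _).1])
  have hb : ∀ v w, ‖D (θ e w) (r (θ v e) x)‖ ≤ ‖D‖ * ‖r‖ * ‖x‖ * ‖w‖ * ‖v‖ := by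
    intro v w
    have b1 : ‖θ e w‖ ≤ ‖w‖ := by simpa [he] using (hθ e w).2
    have b2 : ‖θ v e‖ ≤ ‖v‖ := by simpa [he] using (hθ v e).2
    calc _ ≤ ‖D‖ * ‖θ e w‖ * ‖r (θ v e) x‖ := D.le_opNorm₂ _ _
      _ ≤ ‖D‖ * ‖w‖ * (‖r‖ * ‖v‖ * ‖x‖) := by
        have := (r.le_opNorm₂ (θ v e) x).trans
          (show _ ≤ ‖r‖ * ‖v‖ * ‖x‖ by gcongr)
        gcongr
      _ = _ := by ring
  let φ : H →ₗ⋆[ℂ] H →ₗ[ℂ] ℂ := LinearMap.mk₂'ₛₗ (starRingEnd ℂ) (RingHom.id ℂ)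
    (fun w v => D (θ e w) (r (θ v e) x))
    (fun w w' v => by simp [a2]) (fun c w v => by simp [s2])
    (fun w v v' => by simp [a1]) (fun c w v => by simp [s1])
  let ψ : H →L⋆[ℂ] H →L[ℂ] ℂ := φ.mkContinuous₂ (‖D‖ * ‖r‖ * ‖x‖) (fun w v => hb v w)
  let C := InnerProductSpace.continuousLinearMapOfBilin ψ
  have hC : ∀ w v, ⟪C w, v⟫_ℂ = D (θ e w) (r (θ v e) x) := fun w v =>
    InnerProductSpace.continuousLinearMapOfBilin_apply ψ w v
  refine ⟨adjoint C, ?_, fun v w => ?_⟩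
  · rw [LinearIsometryEquiv.norm_map]
    refine C.opNorm_le_bound (by positivity) fun w => ?_
    have h1 := hb (C w) w
    rw [← hC, inner_self_eq_norm_sq_to_K] at h1
    have h2 : ‖C w‖ * ‖C w‖ ≤ ‖D‖ * ‖r‖ * ‖x‖ * ‖w‖ * ‖C w‖ := by simpa [sq] using h1
    rcases (norm_nonneg (C w)).eq_or_lt with h | h
    · rw [← h]; positivity
    · exact le_of_mul_le_mul_right h2 h
  · rw [ContinuousLinearMap.adjoint_inner_right, hC]

lemma yes_fin {X : Type} [NormedAddCommGroup X] [NormedSpace ℂ X] (hS : IsSchatten 1 ι)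
    {l r : A →L[ℂ] X →L[ℂ] X} (hb : IsBimod l r) (D : A →L[ℂ] StrongDual ℂ X)
    (hD : ∀ a b, D (a * b) = (D b).comp (r a) + (D a).comp (l b)) {e : H} (he : ‖e‖ = 1)
    (s : Finset A) {δ : ℝ} (hδ : 0 < δ) :
    ∃ ξ η : StrongDual ℂ X, ∀ a ∈ s,
      ‖D a - (ξ.comp (r a) - η.comp (l a))‖ ≤ (2 * ‖D‖ + 24 * (‖D‖ * ‖r‖)) * δ := by
  classical
  obtain ⟨θ, hθ⟩ := exists_theta le_rfl hS
  choose F m hF hF' using fun a => dense_one hS a hδ
  choose m' hm' using fun a => rk_adjoint (hF a)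
  have fin1 := fun a => (hF a).fin
  have fin2 := fun a => (hm' a).fin
  let W : Submodule ℂ H := s.sup fun a => LinearMap.range (ι (F a) : H →ₗ[ℂ] H) ⊔
    LinearMap.range (adjoint (ι (F a)) : H →ₗ[ℂ] H)
  have hW : FiniteDimensional ℂ W := Submodule.finiteDimensional_finset_sup _ _
  have hW1 : ∀ a ∈ s, ∀ z, ι (F a) z ∈ W := fun a ha z =>
    (le_sup (f := fun a => LinearMap.range (ι (F a) : H →ₗ[ℂ] H) ⊔
      LinearMap.range (adjoint (ι (F a)) : H →ₗ[ℂ] H)) ha) (Submodule.mem_sup_left ⟨z, rfl⟩)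
  have hW2 : ∀ a ∈ s, ∀ z, adjoint (ι (F a)) z ∈ W := fun a ha z =>
    (le_sup (f := fun a => LinearMap.range (ι (F a) : H →ₗ[ℂ] H) ⊔
      LinearMap.range (adjoint (ι (F a)) : H →ₗ[ℂ] H)) ha) (Submodule.mem_sup_right ⟨z, rfl⟩)
  let b := stdOrthonormalBasis ℂ W
  let f : Fin (Module.finrank ℂ W) → H := fun j => (b j : H)
  have hf : Orthonormal ℂ f := W.subtypeₗᵢ.orthonormal_comp_iff.2 b.orthonormal
  let u : A := ∑ j, θ (f j) (f j)
  have hu : ι u = W.starProjection := by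
    rw [map_sum, b.starProjection_eq_sum_rankOne]
    exact sum_congr rfl fun j _ => (hθ _ _).1
  let ζ : StrongDual ℂ X := ∑ j, (D (θ e (f j))).comp (r (θ (f j) e))
  have m1 : ∀ a v w, a * θ v w = θ (ι a v) w := fun a v w => hS.inj (by
    rw [map_mul, (hθ _ _).1, (hθ _ _).1]; exact InnerProductSpace.comp_rankOne _ _ _)
  have m2 : ∀ a v w, θ v w * a = θ v (adjoint (ι a) w) := fun a v w => hS.inj (by
    rw [map_mul, (hθ _ _).1, (hθ _ _).1]; exact InnerProductSpace.rankOne_comp _ _ _)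
  have m3 : ∀ v w, θ v e * θ e w = θ v w := fun v w => by
    rw [m1, (hθ _ _).1]; simp [he]
  refine ⟨ζ, ζ - D u, fun a ha => ?_⟩
  refine ContinuousLinearMap.opNorm_le_bound _ (by positivity) fun x => ?_
  obtain ⟨B, hB, hB'⟩ := exists_form hS hθ r D he x
  have e1 : ζ (r a x) = tr univ f f (B * ι a) := by
    rw [tr_apply, _root_.sum_apply]
    refine sum_congr rfl fun j _ => ?_
    rw [ContinuousLinearMap.comp_apply, ← hb.right, m1, hB']; rfl
  have e2 : ζ (l a x) = tr univ f f (ι a * B) - D a (r u x) := by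
    rw [tr_apply, _root_.sum_apply, map_sum, _root_.sum_apply, map_sum, ← sum_sub_distrib]
    refine sum_congr rfl fun j _ => ?_
    have h1 := congrArg (fun φ : StrongDual ℂ X => φ (r (θ (f j) e) x)) (hD (θ e (f j)) a)
    simp only [_root_.add_apply, ContinuousLinearMap.comp_apply] at h1
    rw [← hb.right, m3, m2, hB', ContinuousLinearMap.adjoint_inner_left] at h1
    rw [ContinuousLinearMap.comp_apply, ← hb.comm, eq_sub_iff_add_eq', ← h1]; rfl
  have e3 : D (u * a) x = D a (r u x) + D u (l a x) := by rw [hD]; rfl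
  have e4 : u * F a = F a := hS.inj (by
    rw [map_mul, hu]; ext z
    exact Submodule.starProjection_eq_self_iff.2 (hW1 a ha z))
  have e5 := tr_comm W b (ι (F a)) B (hW1 a ha) (hW2 a ha)
  have e6 : (D a - (ζ.comp (r a) - (ζ - D u).comp (l a))) x
      = D ((a - F a) - u * (a - F a)) x + (tr univ f f (ι (a - F a) * B)
        - tr univ f f (B * ι (a - F a))) := by
    simp only [_root_.sub_apply, ContinuousLinearMap.comp_apply, mul_sub, sub_mul, map_sub, e1, e2,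
      e3, e4]
    have : tr univ f f (ι (F a) * B) = tr univ f f (B * ι (F a)) := e5
    rw [this]; ring
  rw [e6]
  have n1 : ‖u * (a - F a)‖ ≤ δ := by
    have := norm_le_one hS (a - F a) (u * (a - F a)) ‖ι u‖
      (fun n => by rw [map_mul]; exact sv_mul_left _ _ n)
    have h2 : ‖ι u‖ ≤ 1 := by rw [hu]; exact W.starProjection_norm_le
    calc _ ≤ _ := this
      _ ≤ 1 * δ := mul_le_mul h2 (hF' a) (norm_nonneg _) zero_le_one
      _ = δ := one_mul _
  have n2 : ‖D ((a - F a) - u * (a - F a)) x‖ ≤ ‖D‖ * (2 * δ) * ‖x‖ := by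
    refine (D.le_opNorm₂ _ _).trans ?_
    have : ‖(a - F a) - u * (a - F a)‖ ≤ 2 * δ := (norm_sub_le _ _).trans (by linarith [hF' a])
    gcongr
  have n0 : 12 * (‖B‖ * ‖a - F a‖) ≤ 12 * (‖D‖ * ‖r‖ * ‖x‖ * δ) := by
    have := hF' a
    gcongr
  have n3 := (tr_le_one hS hf hf univ (ι (a - F a) * B) (a - F a) ‖B‖ (norm_nonneg _)
    (fun n => sv_mul_right _ _ n)).trans n0
  have n4 := (tr_le_one hS hf hf univ (B * ι (a - F a)) (a - F a) ‖B‖ (norm_nonneg _)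
    (fun n => sv_mul_left _ _ n)).trans n0
  refine (norm_add_le _ _).trans ?_
  have n5 := norm_sub_le (tr univ f f (ι (a - F a) * B)) (tr univ f f (B * ι (a - F a)))
  nlinarith

theorem yes (hS : IsSchatten 1 ι) {e : H} (he : ‖e‖ = 1) : ApproxSemiAmenable A := by
  classical
  intro X _ _ _ l r hb D hD
  have key : ∀ i : Finset A × ℕ, ∃ ξ η : StrongDual ℂ X, ∀ a ∈ i.1,
      ‖D a - (ξ.comp (r a) - η.comp (l a))‖
        ≤ (2 * ‖D‖ + 24 * (‖D‖ * ‖r‖)) * (1 / ((i.2 : ℝ) + 1)) :=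
    fun i => yes_fin hS hb D hD he i.1 (by positivity)
  choose ξ η h using key
  refine ⟨Finset A × ℕ, inferInstance, inferInstance, inferInstance, ξ, η, fun a => ?_⟩
  rw [tendsto_iff_norm_sub_tendsto_zero]
  have h1 : Tendsto (fun i : Finset A × ℕ =>
      (2 * ‖D‖ + 24 * (‖D‖ * ‖r‖)) * (1 / ((i.2 : ℝ) + 1))) atTop (𝓝 0) := by
    have h2 : Tendsto (fun i : Finset A × ℕ => i.2) atTop atTop := by
      rw [← prod_atTop_atTop_eq]; exact tendsto_snd
    simpa using ((tendsto_one_div_add_atTop_nhds_zero_nat (𝕜 := ℝ)).comp h2).const_mul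
      (2 * ‖D‖ + 24 * (‖D‖ * ‖r‖))
  refine squeeze_zero' (Eventually.of_forall fun _ => norm_nonneg _) ?_ h1
  filter_upwards [eventually_ge_atTop (({a}, 0) : Finset A × ℕ)] with i hi
  rw [norm_sub_rev]
  exact h i a (hi.1 (mem_singleton_self a))

end Pool.Agent.H61.ScC
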