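import Mathlib
import Pool.Agent.H61.ScDefs

set_option autoImplicit false

namespace Pool.Agent.H61.ScD

open Pool.Agent.H61.ScDefs Finset Filter Topology
open ContinuousLinearMap (mul compL)

variable {A : Type} [NonUnitalNormedRing A] [NormedSpace ℂ A] [IsScalarTower ℂ A A]
  [SMulCommClass ℂ A A]

/-- the test module -/
def XX (A : Type) [NonUnitalNormedRing A] [NormedSpace ℂ A] : Type :=
  (A →L[ℂ] ℂ) × (A →L[ℂ] A →L[ℂ] ℂ)

noncomputable instance : NormedAddCommGroup (XX A) :=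
  @Prod.normedAddCommGroup (A →L[ℂ] ℂ) (A →L[ℂ] A →L[ℂ] ℂ) inferInstance inferInstance

noncomputable instance : NormedSpace ℂ (XX A) :=
  Prod.normedSpace (𝕜 := ℂ) (E := A →L[ℂ] ℂ) (F := A →L[ℂ] A →L[ℂ] ℂ)

instance : CompleteSpace (XX A) :=
  @CompleteSpace.prod (A →L[ℂ] ℂ) (A →L[ℂ] A →L[ℂ] ℂ) _ _ inferInstance inferInstance

/-- constructor -/
def mk (ν : A →L[ℂ] ℂ) (γ : A →L[ℂ] A →L[ℂ] ℂ) : XX A := (ν, γ)

omit [IsScalarTower ℂ A A] [SMulCommClass ℂ A A] in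
@[simp] lemma mk_1 (ν : A →L[ℂ] ℂ) (γ : A →L[ℂ] A →L[ℂ] ℂ) : (mk ν γ).1 = ν := rfl
omit [IsScalarTower ℂ A A] [SMulCommClass ℂ A A] in
@[simp] lemma mk_2 (ν : A →L[ℂ] ℂ) (γ : A →L[ℂ] A →L[ℂ] ℂ) : (mk ν γ).2 = γ := rfl
omit [IsScalarTower ℂ A A] [SMulCommClass ℂ A A] in
@[simp] lemma add_1 (x y : XX A) : (x + y).1 = x.1 + y.1 := rfl
omit [IsScalarTower ℂ A A] [SMulCommClass ℂ A A] in
@[simp] lemma add_2 (x y : XX A) : (x + y).2 = x.2 + y.2 := rfl
omit [IsScalarTower ℂ A A] [SMulCommClass ℂ A A] in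
@[simp] lemma smul_1 (t : ℂ) (y : XX A) : (t • y).1 = t • y.1 := rfl
omit [IsScalarTower ℂ A A] [SMulCommClass ℂ A A] in
@[simp] lemma smul_2 (t : ℂ) (y : XX A) : (t • y).2 = t • y.2 := rfl
omit [IsScalarTower ℂ A A] [SMulCommClass ℂ A A] in
@[simp] lemma zero_1 : (0 : XX A).1 = 0 := rfl
omit [IsScalarTower ℂ A A] [SMulCommClass ℂ A A] in
@[simp] lemma zero_2 : (0 : XX A).2 = 0 := rfl
omit [IsScalarTower ℂ A A] [SMulCommClass ℂ A A] in
lemma sum_1 {κ : Type} (s : Finset κ) (x : κ → XX A) : (∑ i ∈ s, x i).1 = ∑ i ∈ s, (x i).1 := by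
  classical
  induction s using Finset.induction_on with
  | empty => rfl
  | insert a s ha ih => rw [sum_insert ha, sum_insert ha, add_1, ih]
omit [IsScalarTower ℂ A A] [SMulCommClass ℂ A A] in
lemma sum_2 {κ : Type} (s : Finset κ) (x : κ → XX A) : (∑ i ∈ s, x i).2 = ∑ i ∈ s, (x i).2 := by
  classical
  induction s using Finset.induction_on with
  | empty => rfl
  | insert a s ha ih => rw [sum_insert ha, sum_insert ha, add_2, ih]

noncomputable def r0 (a : A) (x : XX A) : XX A := (x.2 a, x.2.comp (mul ℂ A a))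

noncomputable def l0 (a : A) (x : XX A) : XX A :=
  (x.1.comp ((mul ℂ A).flip a) - x.2.flip a,
    x.2.bilinearComp (ContinuousLinearMap.id ℂ A) ((mul ℂ A).flip a)
      - (compL ℂ A A ℂ (x.2.flip a)).comp (mul ℂ A))

@[simp] lemma r0_1 (a : A) (x : XX A) (y : A) : (r0 a x).1 y = x.2 a y := rfl
@[simp] lemma r0_2 (a : A) (x : XX A) (c d : A) : (r0 a x).2 c d = x.2 (a * c) d := rfl
@[simp] lemma l0_1 (a : A) (x : XX A) (y : A) : (l0 a x).1 y = x.1 (y * a) - x.2 y a := rfl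
@[simp] lemma l0_2 (a : A) (x : XX A) (c d : A) :
    (l0 a x).2 c d = x.2 c (d * a) - x.2 (c * d) a := rfl

omit [IsScalarTower ℂ A A] [SMulCommClass ℂ A A] in
lemma xx_ext {x y : XX A} (h1 : ∀ a, x.1 a = y.1 a) (h2 : ∀ c d, x.2 c d = y.2 c d) : x = y :=
  Prod.ext (ContinuousLinearMap.ext h1)
    (ContinuousLinearMap.ext fun c => ContinuousLinearMap.ext (h2 c))

omit [IsScalarTower ℂ A A] [SMulCommClass ℂ A A] in
lemma xx_norm {x : XX A} {C : ℝ} (hC : 0 ≤ C) (h1 : ∀ a, ‖x.1 a‖ ≤ C * ‖a‖)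
    (h2 : ∀ c d, ‖x.2 c d‖ ≤ C * ‖c‖ * ‖d‖) : ‖x‖ ≤ C :=
  (max_le (x.1.opNorm_le_bound hC h1) (x.2.opNorm_le_bound₂ hC h2) : max ‖x.1‖ ‖x.2‖ ≤ C)

omit [IsScalarTower ℂ A A] [SMulCommClass ℂ A A] in
lemma b1 (x : XX A) (a : A) : ‖x.1 a‖ ≤ ‖x‖ * ‖a‖ :=
  (x.1.le_opNorm a).trans (mul_le_mul_of_nonneg_right (le_max_left ‖x.1‖ ‖x.2‖) (norm_nonneg _))

omit [IsScalarTower ℂ A A] [SMulCommClass ℂ A A] in
lemma b2 (x : XX A) (c d : A) : ‖x.2 c d‖ ≤ ‖x‖ * ‖c‖ * ‖d‖ :=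
  (x.2.le_opNorm₂ c d).trans (by have : ‖x.2‖ ≤ ‖x‖ := le_max_right ‖x.1‖ ‖x.2‖; gcongr)

noncomputable def rr : A →L[ℂ] XX A →L[ℂ] XX A :=
  (LinearMap.mk₂ ℂ r0
    (fun a b x => xx_ext (fun y => by simp) (fun c d => by simp [add_mul]))
    (fun t a x => xx_ext (fun y => by simp) (fun c d => by simp [smul_mul_assoc]))
    (fun a x x' => xx_ext (fun y => by simp) (fun c d => by simp))
    (fun t a x => xx_ext (fun y => by simp) (fun c d => by simp))).mkContinuous₂ 1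
    (fun a x => by
      refine xx_norm (by positivity) (fun y => ?_) (fun c d => ?_)
      · calc _ ≤ ‖x‖ * ‖a‖ * ‖y‖ := b2 x a y
          _ = _ := by ring
      · calc _ ≤ ‖x‖ * ‖a * c‖ * ‖d‖ := b2 x (a * c) d
          _ ≤ ‖x‖ * (‖a‖ * ‖c‖) * ‖d‖ := by have := norm_mul_le a c; gcongr
          _ = _ := by ring)

noncomputable def ll : A →L[ℂ] XX A →L[ℂ] XX A :=
  (LinearMap.mk₂ ℂ l0
    (fun a b x => xx_ext (fun y => by simp [mul_add]; ring) (fun c d => by simp [mul_add]; ring))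
    (fun t a x => xx_ext (fun y => by simp [mul_sub, mul_smul_comm])
      (fun c d => by simp [mul_sub, mul_smul_comm]))
    (fun a x x' => xx_ext (fun y => by simp; ring) (fun c d => by simp; ring))
    (fun t a x => xx_ext (fun y => by simp [mul_sub])
      (fun c d => by simp [mul_sub]))).mkContinuous₂ 2
    (fun a x => by
      refine xx_norm (by positivity) (fun y => ?_) (fun c d => ?_)
      · calc _ ≤ ‖x.1 (y * a)‖ + ‖x.2 y a‖ := norm_sub_le _ _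
          _ ≤ ‖x‖ * ‖y * a‖ + ‖x‖ * ‖y‖ * ‖a‖ := add_le_add (b1 _ _) (b2 _ _ _)
          _ ≤ ‖x‖ * (‖y‖ * ‖a‖) + ‖x‖ * ‖y‖ * ‖a‖ := by have := norm_mul_le y a; gcongr
          _ = _ := by ring
      · calc _ ≤ ‖x.2 c (d * a)‖ + ‖x.2 (c * d) a‖ := norm_sub_le _ _
          _ ≤ ‖x‖ * ‖c‖ * ‖d * a‖ + ‖x‖ * ‖c * d‖ * ‖a‖ := add_le_add (b2 _ _ _) (b2 _ _ _)
          _ ≤ ‖x‖ * ‖c‖ * (‖d‖ * ‖a‖) + ‖x‖ * (‖c‖ * ‖d‖) * ‖a‖ := by
            have := norm_mul_le d a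
            have := norm_mul_le c d
            gcongr
          _ = _ := by ring)

lemma rr_apply (a : A) (x : XX A) : rr a x = r0 a x := rfl
lemma ll_apply (a : A) (x : XX A) : ll a x = l0 a x := rfl

lemma bimod : IsBimod (ll (A := A)) rr where
  left a b x := xx_ext (fun y => by simp [ll_apply, mul_assoc])
    (fun c d => by simp [ll_apply, mul_assoc])
  right a b x := xx_ext (fun y => by simp [rr_apply]) (fun c d => by simp [rr_apply, mul_assoc])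
  comm a b x := xx_ext (fun y => by simp [rr_apply, ll_apply])
    (fun c d => by simp [rr_apply, ll_apply, mul_assoc])

noncomputable def DD : A →L[ℂ] StrongDual ℂ (XX A) :=
  (LinearMap.mk₂ ℂ (fun (a : A) (x : XX A) => x.1 a)
    (fun a b x => by simp) (fun t a x => by simp)
    (fun a x x' => by simp) (fun t a x => by simp)).mkContinuous₂ 1
    (fun a x => by simpa [mul_comm] using b1 x a)

omit [IsScalarTower ℂ A A] [SMulCommClass ℂ A A] in
lemma DD_apply (a : A) (x : XX A) : DD a x = x.1 a := rfl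

theorem obstruct {κ : Type} [Fintype κ] (a : κ → A) (γ : κ → A →L[ℂ] A →L[ℂ] ℂ) (b : A)
    (ν : A →L[ℂ] ℂ) (h1 : ∀ i c d e, γ i (c * d) e = γ i c (d * e))
    (h2 : ∀ y, ∑ i, γ i (a i) y = 0) (h3 : ∀ y, ∑ i, γ i y (a i) = ν (y * b)) (h4 : ν b ≠ 0) :
    ¬ ApproxSemiAmenable A := by
  intro h
  obtain ⟨I, _, _, _, ξ, η, hl⟩ := h (XX A) ll rr bimod DD (fun a b => by
    refine ContinuousLinearMap.ext fun x => ?_
    simp [DD_apply, rr_apply, ll_apply])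
  have e1 : rr b (mk ν 0) + ∑ i, rr (a i) (mk 0 (γ i)) = 0 := by
    refine xx_ext (fun y => ?_) (fun c d => ?_)
    · simp [rr_apply, sum_1, h2]
    · simp [rr_apply, sum_2, h1, h2]
  have e2 : ll b (mk ν 0) + ∑ i, ll (a i) (mk 0 (γ i)) = 0 := by
    refine xx_ext (fun y => ?_) (fun c d => ?_)
    · simp [ll_apply, sum_1, h3]
    · simp [ll_apply, sum_2, h1]
  have t : ∀ (c : A) (x : XX A), Tendsto (fun j => ξ j (rr c x) - η j (ll c x)) atTop
      (𝓝 (x.1 c)) := fun c x =>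
    ((ContinuousLinearMap.apply ℂ ℂ x).continuous.tendsto _).comp (hl c)
  have t2 := (t b (mk ν 0)).add (tendsto_finsetSum univ fun i _ => t (a i) (mk 0 (γ i)))
  have e3 : ∀ j, ξ j (rr b (mk ν 0)) - η j (ll b (mk ν 0))
      + ∑ i, (ξ j (rr (a i) (mk 0 (γ i))) - η j (ll (a i) (mk 0 (γ i)))) = 0 := by
    intro j
    have f1 := congrArg (ξ j) e1
    have f2 := congrArg (η j) e2
    rw [map_add, map_sum, map_zero] at f1 f2
    rw [sum_sub_distrib]
    linear_combination f1 - f2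
  simp only [e3] at t2
  have := tendsto_nhds_unique t2 tendsto_const_nhds
  simp at this
  exact h4 this

end Pool.Agent.H61.ScD
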