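import Mathlib
import Pool.Agent.H61.ScC
import Pool.Agent.H61.ScD

set_option autoImplicit false

namespace Pool.Agent.H61.ScE

open Pool.Agent.H61.ScDefs Pool.Agent.H61.ScA Pool.Agent.H61.ScB Finset Filter Topology
open scoped InnerProductSpace
open InnerProductSpace (rankOne)

variable {H A : Type} [NormedAddCommGroup H] [InnerProductSpace ℂ H] [CompleteSpace H]
  [NonUnitalNormedRing A] [NormedSpace ℂ A] {ι : A →ₙₐ[ℂ] (H →L[ℂ] H)} {p : ℝ}

/-- level `k` of the binary tree -/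
def L (k : ℕ) : Finset ℕ := Ico (2 ^ k) (2 ^ (k + 1))

lemma card_L (k : ℕ) : (L k).card = 2 ^ k := by
  rw [L, Nat.card_Ico, pow_succ]; omega

lemma L_disj {j k n : ℕ} (hj : n ∈ L j) (hk : n ∈ L k) : j = k := by
  simp only [L, mem_Ico] at hj hk
  have h1 := (Nat.pow_lt_pow_iff_right (by norm_num : 1 < 2)).1 (lt_of_le_of_lt hj.1 hk.2)
  have h2 := (Nat.pow_lt_pow_iff_right (by norm_num : 1 < 2)).1 (lt_of_le_of_lt hk.1 hj.2)
  omega

lemma sum_double (h : ℕ → ℂ) (a b : ℕ) (hab : a ≤ b) :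
    ∑ n ∈ Ico (2 * a) (2 * b), h n = ∑ n ∈ Ico a b, h (2 * n) + ∑ n ∈ Ico a b, h (2 * n + 1) := by
  induction b, hab using Nat.le_induction with
  | base => simp
  | succ b hb ih =>
    rw [show 2 * (b + 1) = 2 * b + 1 + 1 by ring, sum_Ico_succ_top (by omega),
      sum_Ico_succ_top (by omega), ih, sum_Ico_succ_top hb, sum_Ico_succ_top hb]
    ring

lemma sum_L_succ (h : ℕ → ℂ) (k : ℕ) :
    ∑ n ∈ L (k + 1), h n = ∑ n ∈ L k, h (2 * n) + ∑ n ∈ L k, h (2 * n + 1) := by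
  rw [L, L, ← sum_double h _ _ (by rw [pow_succ]; omega)]
  congr 2 <;> ring

omit [CompleteSpace H] in
lemma norm_shift {f g : ℕ → H} (hf : Orthonormal ℂ f) (hg : Orthonormal ℂ g) (s : Finset ℕ) :
    ‖∑ n ∈ s, rankOne ℂ (g n) (f n)‖ ≤ 1 := by
  refine ContinuousLinearMap.opNorm_le_bound _ zero_le_one fun z => ?_
  set w := (∑ n ∈ s, rankOne ℂ (g n) (f n)) z with hw
  have h1 := tr_rankOne hg hf s z w
  have h2 : tr s f g (rankOne ℂ z w) = ⟪w, w⟫_ℂ := by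
    conv_rhs => rw [hw, _root_.sum_apply, inner_sum, ← _root_.sum_apply, ← hw]
    rw [tr_apply]
    refine sum_congr rfl fun n _ => ?_
    simp [inner_smul_right, mul_comm]
  rw [h2, inner_self_eq_norm_sq_to_K] at h1
  have h3 : ‖w‖ * ‖w‖ ≤ ‖z‖ * ‖w‖ := by simpa [sq] using h1
  rcases (norm_nonneg w).eq_or_lt with h | h
  · rw [← h]; positivity
  · simpa using le_of_mul_le_mul_right h3 h

lemma tr_mul_le (hp : 1 ≤ p) (hS : IsSchatten p ι) {f g : ℕ → H} (hf : Orthonormal ℂ f)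
    (hg : Orthonormal ℂ g) (k : ℕ) (c d : A) {t Θ : ℝ} (ht : t = 2 ^ (-1 / p)) (h1 : 1 / 2 ≤ t)
    (h2 : 1 ≤ Θ) (h3 : 2 * t ^ 2 ≤ Θ) :
    ‖tr (L k) g f (ι c * ι d)‖ ≤ 24 * ((k + 1) * Θ ^ k) * (‖c‖ * ‖d‖) := by
  have ht0 : 0 < t := by linarith
  have a1 : ∀ j, sv (ι c * ι d) (2 ^ j - 1) ≤ 4 * (t ^ 2) ^ j * (‖c‖ * ‖d‖) := by
    intro j
    rcases j with _ | i
    · have := (sv_le_norm (ι c * ι d) 0).trans ((norm_mul_le _ _).trans
        (mul_le_mul (op_le hp hS c) (op_le hp hS d) (norm_nonneg _) (norm_nonneg _)))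
      have h0 : 0 ≤ ‖c‖ * ‖d‖ := by positivity
      simp only [pow_zero, Nat.sub_self]
      linarith
    · have b1 := sv_anti (ι c * ι d) (m := (2 ^ i - 1) + (2 ^ i - 1)) (n := 2 ^ (i + 1) - 1)
        (by rw [pow_succ]; omega)
      have b2 := sv_mul (ι c) (ι d) (2 ^ i - 1) (2 ^ i - 1)
      have b3 := mul_le_mul (sv_pow_le hp hS c i) (sv_pow_le hp hS d i) (sv_nonneg _ _)
        (by positivity)
      rw [← ht] at b3
      refine b1.trans (b2.trans (b3.trans ?_))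
      have b4 : 1 ≤ 4 * t ^ 2 := by nlinarith
      calc t ^ i * ‖c‖ * (t ^ i * ‖d‖) = 1 * ((t ^ 2) ^ i * (‖c‖ * ‖d‖)) := by ring
        _ ≤ (4 * t ^ 2) * ((t ^ 2) ^ i * (‖c‖ * ‖d‖)) := by gcongr
        _ = _ := by ring
  refine (tr_dyadic hf hg (L k) _ k (card_L k).le).trans ?_
  have a2 : ∀ j ∈ range (k + 1),
      2 ^ j * sv (ι c * ι d) (2 ^ j - 1) ≤ 4 * Θ ^ k * (‖c‖ * ‖d‖) := by
    intro j hj
    have c1 : (2 * t ^ 2) ^ j ≤ Θ ^ k :=
      (pow_le_pow_left₀ (by positivity) h3 j).trans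
        (pow_le_pow_right₀ h2 (by have := mem_range.1 hj; omega))
    calc _ ≤ 2 ^ j * (4 * (t ^ 2) ^ j * (‖c‖ * ‖d‖)) := by have := a1 j; gcongr
      _ = 4 * (2 * t ^ 2) ^ j * (‖c‖ * ‖d‖) := by ring
      _ ≤ _ := by gcongr
  have a3 := sum_le_card_nsmul _ _ _ a2
  simp only [card_range, nsmul_eq_mul] at a3
  push_cast at a3
  linarith

lemma gadget [CompleteSpace A] (hp : 1 < p) (hS : IsSchatten p ι) {e : ℕ → H}
    (he : Orthonormal ℂ e) {σ : ℕ → ℕ} (hσ : Function.Injective σ) :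
    ∃ (a : A) (γ : A →L[ℂ] A →L[ℂ] ℂ), (∀ c d w, γ (c * d) w = γ c (d * w)) ∧
      (∀ y, HasSum (fun k => (1 / 2 : ℂ) ^ k * ∑ n ∈ L k, ⟪e n, ι y (e n)⟫_ℂ) (γ a y)) ∧
      (∀ y, HasSum (fun k => (1 / 2 : ℂ) ^ k * ∑ n ∈ L k, ⟪e (σ n), ι y (e (σ n))⟫_ℂ)
        (γ y a)) := by
  classical
  have hg : Orthonormal ℂ (e ∘ σ) := he.comp σ hσ
  obtain ⟨t, ht⟩ : ∃ t : ℝ, t = 2 ^ (-1 / p) := ⟨_, rfl⟩
  have hp0 : 0 < p := by linarith
  have t1 : t < 1 := ht ▸ Real.rpow_lt_one_of_one_lt_of_neg (by norm_num)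
    (div_neg_of_neg_of_pos (by norm_num) hp0)
  have t2 : 1 / 2 < t := by
    have : (2 : ℝ) ^ (-1 : ℝ) < 2 ^ (-1 / p) := by
      refine Real.rpow_lt_rpow_of_exponent_lt (by norm_num) ?_
      rw [lt_div_iff₀ hp0]; linarith
    rw [Real.rpow_neg_one] at this
    rw [ht]; linarith
  have t0 : 0 < t := by linarith
  obtain ⟨Θ, hΘ1, hΘ2, hΘ3⟩ : ∃ Θ : ℝ, 1 ≤ Θ ∧ 2 * t ^ 2 ≤ Θ ∧ Θ < 2 * t :=
    ⟨max 1 (2 * t ^ 2), le_max_left _ _, le_max_right _ _, max_lt (by linarith) (by nlinarith)⟩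
  obtain ⟨x, hx1, hx2⟩ : ∃ x : ℝ, Θ / 2 < x ∧ x < t := exists_between (by linarith)
  have x0 : 0 < x := by linarith
  have hq : ∀ k, ∃ q : A, ι q = ∑ n ∈ L k, rankOne ℂ (e (σ n)) (e n) ∧ ‖q‖ ≤ (1 / t) ^ k := by
    intro k
    obtain ⟨q, h1, h2⟩ := exists_of_rk hp.le hS
      (rk_sum (L k) (fun n => rankOne ℂ (e (σ n)) (e n)) fun n _ => rk_rankOne _ _)
    refine ⟨q, h1, h2.trans ?_⟩
    have h3 : ‖∑ n ∈ L k, rankOne ℂ (e (σ n)) (e n)‖ ≤ 1 := norm_shift he hg (L k)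
    have h4 : (((L k).card : ℕ) : ℝ) ^ (1 / p) = (1 / t) ^ k := by
      rw [card_L, ht, one_div ((2 : ℝ) ^ (-1 / p)), ← Real.rpow_neg (by norm_num),
        ← Real.rpow_natCast, ← Real.rpow_mul (by norm_num)]
      push_cast
      rw [← Real.rpow_natCast, ← Real.rpow_mul (by norm_num)]
      congr 1; ring
    rw [h4]
    exact mul_le_of_le_one_right (by positivity) h3
  choose q hq hq' using hq
  have sq : Summable fun k => (x : ℂ) ^ k • q k := by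
    refine Summable.of_norm_bounded (g := fun k => (x / t) ^ k)
      (summable_geometric_of_lt_one (by positivity) ((div_lt_one t0).2 hx2)) fun k => ?_
    rw [norm_smul, _root_.norm_pow, Complex.norm_real, Real.norm_of_nonneg x0.le, div_eq_mul_one_div,
      mul_pow]
    have := hq' k
    gcongr
  let a : A := ∑' k, (x : ℂ) ^ k • q k
  have ha : ∀ (w z : H), HasSum (fun k => (x : ℂ) ^ k *
      ∑ n ∈ L k, ⟪w, e (σ n)⟫_ℂ * ⟪e n, z⟫_ℂ) ⟪w, ι a z⟫_ℂ := by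
    intro w z
    have := sq.hasSum.mapL
      ((innerSL ℂ w).comp ((ContinuousLinearMap.apply ℂ H z).comp (incl hp.le hS)))
    simpa [incl_apply, hq, inner_sum, inner_smul_right, mul_comm] using this
  have ha1 : ∀ k, ∀ n ∈ L k, ∀ w, ⟪w, ι a (e n)⟫_ℂ = (x : ℂ) ^ k * ⟪w, e (σ n)⟫_ℂ := by
    intro k n hn w
    refine (ha w (e n)).unique ?_
    have := hasSum_single (f := fun j => (x : ℂ) ^ j *
      ∑ m ∈ L j, ⟪w, e (σ m)⟫_ℂ * ⟪e m, e n⟫_ℂ) k (fun j hj => by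
        rw [sum_eq_zero, mul_zero]
        intro m hm
        have hmn : m ≠ n := fun h => hj (L_disj hm (h ▸ hn))
        rw [he.2 hmn, mul_zero])
    rw [sum_eq_single_of_mem n hn (fun m _ hm => by rw [he.2 hm, mul_zero])] at this
    simpa [he.1 n] using this
  have ha2 : ∀ k, ∀ n ∈ L k, ∀ z, ⟪e (σ n), ι a z⟫_ℂ = (x : ℂ) ^ k * ⟪e n, z⟫_ℂ := by
    intro k n hn z
    refine (ha (e (σ n)) z).unique ?_
    have := hasSum_single (f := fun j => (x : ℂ) ^ j *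
      ∑ m ∈ L j, ⟪e (σ n), e (σ m)⟫_ℂ * ⟪e m, z⟫_ℂ) k (fun j hj => by
        rw [sum_eq_zero, mul_zero]
        intro m hm
        have hmn : σ n ≠ σ m := fun h => hj (L_disj hm (hσ h ▸ hn))
        rw [he.2 hmn, zero_mul])
    rw [sum_eq_single_of_mem n hn (fun m _ hm => by
      rw [he.2 (fun h => hm (hσ h).symm), zero_mul])] at this
    simpa [he.1 (σ n)] using this
  let G : ℕ → A → A → ℂ := fun k c d =>
    (1 / (2 * x) : ℂ) ^ k * tr (L k) (e ∘ σ) e (ι c * ι d)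
  have su : Summable fun k : ℕ => 24 * (((k : ℝ) + 1) * (Θ / (2 * x)) ^ k) := by
    have hr : ‖Θ / (2 * x)‖ < 1 := by
      rw [Real.norm_of_nonneg (by positivity), div_lt_one (by positivity)]; linarith
    have s1 := summable_pow_mul_geometric_of_norm_lt_one 1 hr
    have s2 := summable_geometric_of_norm_lt_one hr
    simpa [add_mul] using (s1.add s2).mul_left 24
  have hG : ∀ c d k, ‖G k c d‖ ≤ 24 * (((k : ℝ) + 1) * (Θ / (2 * x)) ^ k) * (‖c‖ * ‖d‖) := by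
    intro c d k
    have h1 := tr_mul_le hp.le hS he hg k c d ht t2.le hΘ1 hΘ2
    have h2 : ‖(1 / (2 * x) : ℂ) ^ k‖ = (1 / (2 * x)) ^ k := by
      simp [abs_of_pos x0]
    calc ‖G k c d‖ = (1 / (2 * x)) ^ k * ‖tr (L k) (e ∘ σ) e (ι c * ι d)‖ := by
          rw [← h2, ← norm_mul]
      _ ≤ (1 / (2 * x)) ^ k * (24 * ((k + 1) * Θ ^ k) * (‖c‖ * ‖d‖)) := by gcongr
      _ = _ := by rw [div_eq_mul_one_div Θ, mul_pow]; ring
  have sG : ∀ c d, Summable fun k => G k c d := fun c d =>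
    Summable.of_norm_bounded (su.mul_right _) (hG c d)
  let γ : A →L[ℂ] A →L[ℂ] ℂ := (LinearMap.mk₂ ℂ (fun c d => ∑' k, G k c d)
    (fun c c' d => by
      rw [← (sG _ _).tsum_add (sG _ _)]; simp [G, add_mul, mul_add])
    (fun s c d => by
      rw [smul_eq_mul, ← tsum_mul_left]; simp [G, mul_left_comm])
    (fun c d d' => by
      rw [← (sG _ _).tsum_add (sG _ _)]; simp [G, mul_add])
    (fun s c d => by
      rw [smul_eq_mul, ← tsum_mul_left]; simp [G, mul_left_comm])).mkContinuous₂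
    (∑' k : ℕ, 24 * (((k : ℝ) + 1) * (Θ / (2 * x)) ^ k)) (fun c d => by
      rw [mul_assoc, ← tsum_mul_right]
      exact tsum_of_norm_bounded (su.mul_right _).hasSum (hG c d))
  have hγ : ∀ c d, HasSum (fun k => G k c d) (γ c d) := fun c d => (sG c d).hasSum
  have hx : ∀ k : ℕ, (1 / (2 * x) : ℂ) ^ k * (x : ℂ) ^ k = (1 / 2) ^ k := by
    intro k
    have : (x : ℂ) ≠ 0 := by exact_mod_cast x0.ne'
    rw [← mul_pow]; congr 1; field_simp
  refine ⟨a, γ, fun c d w => ?_, fun y => ?_, fun y => ?_⟩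
  · refine (hγ _ _).unique ?_
    have := hγ c (d * w)
    simpa [G, mul_assoc] using this
  · have h := hγ a y
    have : ∀ k, G k a y = (1 / 2 : ℂ) ^ k * ∑ n ∈ L k, ⟪e n, ι y (e n)⟫_ℂ := by
      intro k
      rw [← hx, mul_assoc, mul_sum]
      simp only [G, tr_apply]
      congr 1
      exact sum_congr rfl fun n hn => ha2 k n hn _
    simpa only [this] using h
  · have h := hγ y a
    have : ∀ k, G k y a = (1 / 2 : ℂ) ^ k * ∑ n ∈ L k, ⟪e (σ n), ι y (e (σ n))⟫_ℂ := by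
      intro k
      rw [← hx, mul_assoc, mul_sum]
      simp only [G, tr_apply]
      congr 1
      refine sum_congr rfl fun n hn => ?_
      have h1 := ha1 k n hn (ContinuousLinearMap.adjoint (ι y) (e (σ n)))
      rw [ContinuousLinearMap.adjoint_inner_left, ContinuousLinearMap.adjoint_inner_left] at h1
      exact h1
    simpa only [this] using h

theorem no [CompleteSpace A] [IsScalarTower ℂ A A] [SMulCommClass ℂ A A] (hp : 1 < p)
    (hS : IsSchatten p ι) {e : ℕ → H} (he : Orthonormal ℂ e) : ¬ ApproxSemiAmenable A := by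
  obtain ⟨a0, γ0, h01, h02, h03⟩ := gadget hp hS he (σ := fun n => 2 * n)
    (fun m n h => by simpa using h)
  obtain ⟨a1, γ1, h11, h12, h13⟩ := gadget hp hS he (σ := fun n => 2 * n + 1)
    (fun m n h => by simpa using h)
  obtain ⟨a2, γ2, h21, h22, h23⟩ := gadget hp hS he (σ := id) Function.injective_id
  obtain ⟨b, hb, -⟩ := exists_of_rk hp.le hS (rk_rankOne (e 1) (e 1))
  let ν : A →L[ℂ] ℂ := (-2 : ℂ) •
    (innerSL ℂ (e 1)).comp ((ContinuousLinearMap.apply ℂ H (e 1)).comp (incl hp.le hS))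
  have hν : ∀ y, ν y = -2 * ⟪e 1, ι y (e 1)⟫_ℂ := fun y => rfl
  refine ScD.obstruct ![a0, a1, a2] ![γ0, γ1, (-2 : ℂ) • γ2] b ν (fun i c d w => ?_)
    (fun y => ?_) (fun y => ?_) ?_
  · fin_cases i
    · exact h01 c d w
    · exact h11 c d w
    · simp [h21]
  · have e1 := (h02 y).unique (h22 y)
    have e2 := (h12 y).unique (h22 y)
    simp [Fin.sum_univ_three, e1, e2]; ring
  · have s1 := (h03 y).add (h13 y)
    have s2 := (hasSum_nat_add_iff' 1).2 ((h23 y).mul_left 2)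
    have s3 : ∀ k, 2 * ((1 / 2 : ℂ) ^ (k + 1) * ∑ n ∈ L (k + 1), ⟪e (id n), ι y (e (id n))⟫_ℂ)
        = (1 / 2 : ℂ) ^ k * ∑ n ∈ L k, ⟪e (2 * n), ι y (e (2 * n))⟫_ℂ
          + (1 / 2 : ℂ) ^ k * ∑ n ∈ L k, ⟪e (2 * n + 1), ι y (e (2 * n + 1))⟫_ℂ := by
      intro k
      rw [sum_L_succ]; simp only [id]; ring
    simp only [s3] at s2
    have s4 := s1.unique s2
    rw [hν, map_mul, hb]
    simp [Fin.sum_univ_three, s4, L, he.1 1]
    ring
  · rw [hν, hb]; simp [he.1 1]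

end Pool.Agent.H61.ScE
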