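import Mathlib

set_option autoImplicit false

namespace Pool.Agent.H61.ScStat

open Filter Topology

section Schatten

variable {H A : Type} [NormedAddCommGroup H] [InnerProductSpace ℂ H]
  [NonUnitalNormedRing A] [NormedSpace ℂ A]

/-- The `n`-th singular value (`n = 0, 1, 2, ...`) of an operator: its distance, in operator norm,
to the operators of rank at most `n`. -/
noncomputable def sv (T : H →L[ℂ] H) (n : ℕ) : ℝ :=
  sInf {t : ℝ | ∃ F : H →L[ℂ] H, LinearMap.rank (F : H →ₗ[ℂ] H) ≤ n ∧ t = ‖T - F‖}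

/-- The operator that `a` stands for. -/
noncomputable def op (ι : A →ₙₐ[ℂ] (H →L[ℂ] H)) (a : A) : H →L[ℂ] H := ι a

/-- `ι` identifies the normed algebra `A` with the Schatten class `S_p(H)`, with composition as
product and the Schatten `p`-norm. -/
structure IsSchatten (p : ℝ) (ι : A →ₙₐ[ℂ] (H →L[ℂ] H)) : Prop where
  inj : Function.Injective (op ι)
  range : ∀ T : H →L[ℂ] H,
    T ∈ Set.range (op ι) ↔ IsCompactOperator T ∧ Summable fun n => sv T n ^ p
  norm : ∀ a, ‖a‖ = (∑' n, sv (op ι a) n ^ p) ^ (1 / p)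

end Schatten

section Modules

variable {A X : Type} [NonUnitalNormedRing A] [NormedSpace ℂ A]
  [NormedAddCommGroup X] [NormedSpace ℂ X]

/-- The action of `a` on `x` given by a bounded bilinear map. -/
noncomputable def act (l : A →L[ℂ] X →L[ℂ] X) (a : A) (x : X) : X := l a x

/-- `act l a x = a · x` and `act r a x = x · a` make `X` an `A`-bimodule. -/
structure IsBimod (l r : A →L[ℂ] X →L[ℂ] X) : Prop where
  left : ∀ a b x, act l (a * b) x = act l a (act l b x)
  right : ∀ a b x, act r (a * b) x = act r b (act r a x)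
  comm : ∀ a b x, act l a (act r b x) = act r b (act l a x)

/-- The dual action: on `X*`, `a · φ = dual r a φ` and `φ · a = dual l a φ`. -/
noncomputable def dual (l : A →L[ℂ] X →L[ℂ] X) (a : A) (φ : StrongDual ℂ X) : StrongDual ℂ X :=
  φ.comp (l a)

/-- `D (a b) = a · D b + D a · b`. -/
def IsDer (l r : A →L[ℂ] X →L[ℂ] X) (D : A → StrongDual ℂ X) : Prop :=
  ∀ a b, D (a * b) = dual r a (D b) + dual l b (D a)

/-- `D a` is the norm limit of `a · ξ i - η i · a` along a net. -/
def SemiInner (l r : A →L[ℂ] X →L[ℂ] X) (D : A → StrongDual ℂ X) : Prop :=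
  ∃ (I : Type) (_ : Preorder I) (_ : IsDirectedOrder I) (_ : Nonempty I)
    (ξ η : I → StrongDual ℂ X),
    ∀ a, Tendsto (fun i => ‖dual r a (ξ i) - dual l a (η i) - D a‖) atTop (𝓝 0)

end Modules

/-- Approximate semi-amenability. -/
def ApproxSemiAmenable (A : Type) [NonUnitalNormedRing A] [NormedSpace ℂ A] : Prop :=
  ∀ (X : Type) [NormedAddCommGroup X] [NormedSpace ℂ X] [CompleteSpace X]
    (l r : A →L[ℂ] X →L[ℂ] X), IsBimod l r →
    ∀ D : A →L[ℂ] StrongDual ℂ X, IsDer l r D → SemiInner l r D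

end Pool.Agent.H61.ScStat
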