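import Pool.Agent.H61.L2

set_option autoImplicit false
open Filter Topology

namespace Pool.Agent.H61.SimIso
open Pool.Agent.H61.L2

theorem inj2 : Function.Injective (fun n : ℕ => n + 2) := fun _ _ h => by simpa using h

noncomputable def S : H ℕ →L[ℂ] H ℕ := push (fun n : ℕ => n + 2) inj2

theorem norm_S (x : H ℕ) : ‖S x‖ = ‖x‖ := norm_push _ _ x

theorem S_add (x : H ℕ) (n : ℕ) : (S x) (n + 2) = x n := push_apply _ inj2 x n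
theorem S_zero (x : H ℕ) : (S x) 0 = 0 := push_apply_of_not _ inj2 x 0 (by simp)
theorem S_one (x : H ℕ) : (S x) 1 = 0 := push_apply_of_not _ inj2 x 1 (by simp)

/-- A diagonal unit from a weight and its inverse. -/
noncomputable def dU (w v : ℕ → ℂ) {K K' : ℝ} (hK : 0 ≤ K) (hK' : 0 ≤ K') (hw : ∀ i, ‖w i‖ ≤ K)
    (hv : ∀ i, ‖v i‖ ≤ K') (h : ∀ i, w i * v i = 1) : (H ℕ →L[ℂ] H ℕ)ˣ where
  val := diag w hK hw
  inv := diag v hK' hv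
  val_inv := by
    ext x i
    simp [← mul_assoc, h]
  inv_val := by
    ext x i
    have h' : v i * w i = 1 := by rw [mul_comm]; exact h i
    simp [← mul_assoc, h']

noncomputable def wL (n : ℕ) : ℂ := if n = 0 then 2 else if n = 1 then 1 / 2 else 1
noncomputable def vL (n : ℕ) : ℂ := if n = 0 then 1 / 2 else if n = 1 then 2 else 1
noncomputable def wM (n : ℕ) : ℂ := if n = 0 then 2 else if n = 1 then 1 else if n % 2 = 0 then 1 else 2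
noncomputable def vM (n : ℕ) : ℂ :=
  if n = 0 then 1 / 2 else if n = 1 then 1 else if n % 2 = 0 then 1 else 1 / 2

theorem wL_le (n : ℕ) : ‖wL n‖ ≤ 2 := by unfold wL; split_ifs <;> norm_num
theorem vL_le (n : ℕ) : ‖vL n‖ ≤ 2 := by unfold vL; split_ifs <;> norm_num
theorem wM_le (n : ℕ) : ‖wM n‖ ≤ 2 := by unfold wM; split_ifs <;> norm_num
theorem vM_le (n : ℕ) : ‖vM n‖ ≤ 1 := by unfold vM; split_ifs <;> norm_num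
theorem wvL (n : ℕ) : wL n * vL n = 1 := by unfold wL vL; split_ifs <;> norm_num
theorem wvM (n : ℕ) : wM n * vM n = 1 := by unfold wM vM; split_ifs <;> norm_num

noncomputable def L : (H ℕ →L[ℂ] H ℕ)ˣ :=
  dU wL vL (by norm_num) (by norm_num) wL_le vL_le wvL
noncomputable def M : (H ℕ →L[ℂ] H ℕ)ˣ :=
  dU wM vM (by norm_num) (by norm_num) wM_le vM_le wvM

theorem L_apply (x : H ℕ) (n : ℕ) : ((L : H ℕ →L[ℂ] H ℕ) x) n = wL n * x n :=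
  diag_apply wL (by norm_num) wL_le _ _
theorem Li_apply (x : H ℕ) (n : ℕ) : ((↑L⁻¹ : H ℕ →L[ℂ] H ℕ) x) n = vL n * x n :=
  diag_apply vL (by norm_num) vL_le _ _
theorem M_apply (x : H ℕ) (n : ℕ) : ((M : H ℕ →L[ℂ] H ℕ) x) n = wM n * x n :=
  diag_apply wM (by norm_num) wM_le _ _
theorem Mi_apply (x : H ℕ) (n : ℕ) : ((↑M⁻¹ : H ℕ →L[ℂ] H ℕ) x) n = vM n * x n :=
  diag_apply vM (by norm_num) vM_le _ _

theorem Li_S : (↑L⁻¹ : H ℕ →L[ℂ] H ℕ) * S = S := by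
  ext x n
  rw [mul_apply_eq_comp, Li_apply]
  rcases n with _ | _ | n
  · rw [S_zero]; simp
  · rw [zero_add, S_one]; simp
  · simp [vL]

theorem L_S : (L : H ℕ →L[ℂ] H ℕ) * S = S := by
  ext x n
  rw [mul_apply_eq_comp, L_apply]
  rcases n with _ | _ | n
  · rw [S_zero]; simp
  · rw [zero_add, S_one]; simp
  · simp [wL]

theorem T_pow (n : ℕ) : ((↑L⁻¹ : H ℕ →L[ℂ] H ℕ) * S * (L : H ℕ →L[ℂ] H ℕ)) ^ (n + 1) =
    S ^ (n + 1) * (L : H ℕ →L[ℂ] H ℕ) := by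
  rw [Li_S]
  induction n with
  | zero => simp
  | succ n ih =>
    rw [pow_succ, ih, pow_succ S (n + 1), mul_assoc, ← mul_assoc (L : H ℕ →L[ℂ] H ℕ), L_S,
      ← mul_assoc]

theorem norm_S_pow (n : ℕ) (x : H ℕ) : ‖(S ^ n) x‖ = ‖x‖ := by
  induction n with
  | zero => simp
  | succ n ih => rw [pow_succ', mul_apply_eq_comp, norm_S, ih]

theorem tendsto_T (x : H ℕ) :
    Tendsto (fun n : ℕ => ‖(((↑L⁻¹ : H ℕ →L[ℂ] H ℕ) * S * (L : H ℕ →L[ℂ] H ℕ)) ^ n) x‖) atTop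
      (𝓝 ‖(↑L : H ℕ →L[ℂ] H ℕ) x‖) := by
  rw [← tendsto_add_atTop_iff_nat 1]
  simp only [T_pow, mul_apply_eq_comp, norm_S_pow]
  exact tendsto_const_nhds

theorem T_eq : (↑L⁻¹ : H ℕ →L[ℂ] H ℕ) * S * (L : H ℕ →L[ℂ] H ℕ) =
    (↑M⁻¹ : H ℕ →L[ℂ] H ℕ) * S * (M : H ℕ →L[ℂ] H ℕ) := by
  rw [Li_S]
  ext x n
  simp only [mul_apply_eq_comp, Mi_apply]
  rcases n with _ | _ | n
  · rw [S_zero, S_zero]; simp
  · rw [zero_add, S_one, S_one]; simp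
  · have e : n + 1 + 1 = n + 2 := rfl
    rw [e, S_add, S_add, L_apply, M_apply, ← mul_assoc]
    congr 1
    unfold wL vM wM
    have h1 : n + 2 ≠ 0 := by omega
    have h2 : n + 2 ≠ 1 := by omega
    have h3 : (n + 2) % 2 = n % 2 := by omega
    rw [if_neg h1, if_neg h2, h3]
    by_cases a : n = 0
    · subst a; norm_num
    · by_cases b : n = 1
      · subst b; norm_num
      · rw [if_neg a, if_neg b, if_neg a, if_neg b]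
        split_ifs <;> norm_num

theorem main : ¬ (‖(↑L : H ℕ →L[ℂ] H ℕ)‖ * ‖(↑L⁻¹ : H ℕ →L[ℂ] H ℕ)‖ =
        sInf {r : ℝ | ∃ (M : (H ℕ →L[ℂ] H ℕ)ˣ) (S' : H ℕ →L[ℂ] H ℕ),
          (∀ x : H ℕ, ‖S' x‖ = ‖x‖) ∧
          (↑L⁻¹ : H ℕ →L[ℂ] H ℕ) * S * (L : H ℕ →L[ℂ] H ℕ) =
            (↑M⁻¹ : H ℕ →L[ℂ] H ℕ) * S' * (↑M : H ℕ →L[ℂ] H ℕ) ∧
          r = ‖(↑M : H ℕ →L[ℂ] H ℕ)‖ * ‖(↑M⁻¹ : H ℕ →L[ℂ] H ℕ)‖}) := by
  intro h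
  have h1 : (2 : ℝ) ≤ ‖(↑L : H ℕ →L[ℂ] H ℕ)‖ := by
    have := le_norm_diag wL (by norm_num) wL_le 0
    have e : ‖wL 0‖ = 2 := by simp [wL]
    rw [e] at this
    exact this
  have h2 : (2 : ℝ) ≤ ‖(↑L⁻¹ : H ℕ →L[ℂ] H ℕ)‖ := by
    have := le_norm_diag vL (by norm_num) vL_le 1
    have e : ‖vL 1‖ = 2 := by simp [vL]
    rw [e] at this
    exact this
  have h3 : ‖(↑M : H ℕ →L[ℂ] H ℕ)‖ ≤ 2 := norm_diag_le wM (by norm_num) wM_le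
  have h4 : ‖(↑M⁻¹ : H ℕ →L[ℂ] H ℕ)‖ ≤ 1 := norm_diag_le vM (by norm_num) vM_le
  have h5 := csInf_le (s := {r : ℝ | ∃ (M : (H ℕ →L[ℂ] H ℕ)ˣ) (S' : H ℕ →L[ℂ] H ℕ),
          (∀ x : H ℕ, ‖S' x‖ = ‖x‖) ∧
          (↑L⁻¹ : H ℕ →L[ℂ] H ℕ) * S * (L : H ℕ →L[ℂ] H ℕ) =
            (↑M⁻¹ : H ℕ →L[ℂ] H ℕ) * S' * (↑M : H ℕ →L[ℂ] H ℕ) ∧
          r = ‖(↑M : H ℕ →L[ℂ] H ℕ)‖ * ‖(↑M⁻¹ : H ℕ →L[ℂ] H ℕ)‖})
    ⟨0, by rintro r ⟨M', S', -, -, rfl⟩; positivity⟩ ⟨M, S, norm_S, T_eq, rfl⟩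
  rw [← h] at h5
  have h6 : ‖(↑M : H ℕ →L[ℂ] H ℕ)‖ * ‖(↑M⁻¹ : H ℕ →L[ℂ] H ℕ)‖ ≤ 2 * 1 :=
    mul_le_mul h3 h4 (norm_nonneg _) (by norm_num)
  have h7 : (2 : ℝ) * 2 ≤ ‖(↑L : H ℕ →L[ℂ] H ℕ)‖ * ‖(↑L⁻¹ : H ℕ →L[ℂ] H ℕ)‖ :=
    mul_le_mul h1 h2 (by norm_num) (norm_nonneg _)
  linarith

end Pool.Agent.H61.SimIso
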