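import Mathlib

namespace Pool.Agent.H61.Su

open Matrix Equiv

variable {ι : Type} [Fintype ι] [DecidableEq ι]

theorem unitary_diag (A : Matrix ι ι ℂ) (hA : A ∈ unitaryGroup ι ℂ) :
    ∃ U ∈ unitaryGroup ι ℂ, ∃ a : ι → ℂ, star U * A * U = diagonal a := by
  have h1 : star A * A = 1 := (mem_unitaryGroup_iff').1 hA
  obtain ⟨z, hz, hz'⟩ : ∃ z : ℂ, ‖z‖ = 1 ∧ ¬ A.charpoly.IsRoot z := by
    have hinf : Set.Infinite (Metric.sphere (0 : ℂ) 1) := by
      refine Set.infinite_of_injective_forall_mem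
        (f := fun n : ℕ => Complex.exp ((1 / ((n : ℝ) + 1) : ℝ) * Complex.I)) ?_ ?_
      · intro m n hmn
        have hb : ∀ k : ℕ, 1 / ((k : ℝ) + 1) ∈ Set.Icc 0 Real.pi := fun k =>
          ⟨by positivity, (Nat.one_div_le_one_div (Nat.zero_le k)).trans
            (by norm_num; linarith [Real.two_le_pi])⟩
        have h2 := congrArg Complex.re hmn
        simp only [Complex.exp_ofReal_mul_I_re] at h2
        have h3 := Real.injOn_cos (hb m) (hb n) h2
        field_simp at h3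
        exact_mod_cast (add_right_cancel h3).symm
      · intro n
        simp only [mem_sphere_iff_norm, sub_zero, Complex.norm_exp_ofReal_mul_I]
    obtain ⟨z, hz, hz'⟩ := hinf.exists_notMem_finite
      (Polynomial.finite_setOfPred_isRoot A.charpoly_monic.ne_zero)
    exact ⟨z, by simpa using hz, hz'⟩
  set B := z • (1 : Matrix ι ι ℂ) - A with hB
  have hdet : IsUnit B.det := by
    rw [isUnit_iff_ne_zero]
    rw [Polynomial.IsRoot, eval_charpoly] at hz'
    rwa [hB, smul_one_eq_diagonal]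
  have hzz : star z * z = 1 := by
    have := Complex.conj_mul' z
    rw [hz] at this; simpa using this
  set K := Complex.I • (star z • A - z • star A) with hK
  have hKh : K.IsHermitian := by
    change star K = K
    simp only [hK, star_smul, star_sub, star_star, Complex.star_def, Complex.conj_I,
      Complex.conj_conj, neg_smul, ← smul_neg, neg_sub]
  have hH : (B⁻¹ᴴ * K * B⁻¹).IsHermitian := isHermitian_conjTranspose_mul_mul _ hKh
  set H := B⁻¹ᴴ * K * B⁻¹ with hHdef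
  have h2 : K = Bᴴ * (Complex.I • (z • 1 + A)) := by
    change K = star B * _
    simp only [hK, hB, star_sub, star_smul, star_one, mul_smul_comm, sub_mul, mul_add,
      smul_mul_assoc, one_mul, mul_one, h1, smul_sub, smul_smul]
    rw [mul_comm z, hzz]
    module
  have h3 : H * B = Complex.I • (z • 1 + A) := by
    rw [hHdef, nonsing_inv_mul_cancel_right _ _ hdet, h2, ← mul_assoc, ← conjTranspose_mul,
      mul_nonsing_inv _ hdet, conjTranspose_one, one_mul]
  set U : Matrix ι ι ℂ := hH.eigenvectorUnitary.1 with hU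
  have hUu : U ∈ unitaryGroup ι ℂ := hH.eigenvectorUnitary.2
  have u1 : star U * U = 1 := (mem_unitaryGroup_iff').1 hUu
  have u2 : U * star U = 1 := (mem_unitaryGroup_iff).1 hUu
  have h4 : star U * H * U = diagonal fun i => (hH.eigenvalues i : ℂ) := by
    have := hH.conjStarAlgAut_star_eigenvectorUnitary
    simp only [Unitary.conjStarAlgAut_apply, Unitary.coe_star, star_star] at this
    exact this
  have h5 : (star U * H * U) * (z • 1 - star U * A * U)
      = Complex.I • (z • 1 + star U * A * U) := by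
    have e1 : z • 1 - star U * A * U = star U * B * U := by
      simp only [hB, mul_sub, sub_mul, mul_smul_comm, smul_mul_assoc, mul_one, u1]
    rw [e1, mul_assoc, ← mul_assoc U, ← mul_assoc U, u2, one_mul, mul_assoc, ← mul_assoc H, h3]
    simp only [mul_smul_comm, smul_mul_assoc, add_mul, mul_add, one_mul, u1, mul_assoc]
  refine ⟨U, hUu, fun i => (star U * A * U) i i, ?_⟩
  rw [h4] at h5
  ext i j
  by_cases hij : i = j
  · subst hij; simp
  · have := congrFun (congrFun h5 i) j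
    simp only [diagonal_mul, Matrix.sub_apply, Matrix.smul_apply, one_apply_ne hij,
      Matrix.add_apply, smul_eq_mul,
      mul_zero, zero_sub, zero_add] at this
    rw [diagonal_apply_ne _ hij]
    have h6 : (hH.eigenvalues i : ℂ) + Complex.I ≠ 0 := fun h => by
      simpa using congrArg Complex.im h
    refine (mul_eq_zero.1 ?_).resolve_left h6
    linear_combination -this

/-- involutions of the special unitary group -/
def Inv (J : Matrix ι ι ℂ) : Prop := J ∈ specialUnitaryGroup ι ℂ ∧ J * J = 1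

lemma Inv.conj {J U : Matrix ι ι ℂ} (hJ : Inv J) (hU : U ∈ unitaryGroup ι ℂ) :
    Inv (U * J * star U) := by
  have u1 : star U * U = 1 := (mem_unitaryGroup_iff').1 hU
  have u2 : U * star U = 1 := (mem_unitaryGroup_iff).1 hU
  obtain ⟨h1, h2⟩ := hJ
  rw [mem_specialUnitaryGroup_iff] at h1
  refine ⟨mem_specialUnitaryGroup_iff.2 ⟨mul_mem (mul_mem hU h1.1) (Unitary.star_mem hU), ?_⟩, ?_⟩
  · rw [det_mul, det_mul, h1.2, mul_one, ← det_mul, u2, det_one]
  · rw [mul_assoc, ← mul_assoc (star U), ← mul_assoc (star U), u1, one_mul, mul_assoc,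
      ← mul_assoc J, h2, one_mul, u2]

lemma inv_one : Inv (1 : Matrix ι ι ℂ) := ⟨one_mem _, one_mul _⟩

def Mn (w : ι → ℂ) (σ : Perm ι) : Matrix ι ι ℂ := of fun i j => if σ i = j then w i else 0

lemma Mn_mul (w v : ι → ℂ) (σ τ : Perm ι) :
    Mn w σ * Mn v τ = Mn (fun i => w i * v (σ i)) (τ * σ) := by
  ext i j
  rw [mul_apply, Finset.sum_eq_single (σ i) (fun k _ hk => by simp [Mn, hk.symm]) (by simp)]
  by_cases h : τ (σ i) = j <;> simp [Mn, h]

omit [Fintype ι] in
lemma Mn_eq (w v : ι → ℂ) (σ : Perm ι) (h : ∀ i, σ i = i) (h' : ∀ i, w i = v i) :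
    Mn w σ = diagonal v := by
  ext i j
  simp [Mn, diagonal_apply, h, h']

lemma det_Mn (w : ι → ℂ) (σ : Perm ι) : (Mn w σ).det = (∏ i, w i) * (Perm.sign σ : ℤ) := by
  have : Mn w σ = diagonal w * σ.permMatrix ℂ := by
    ext i j
    simp [Mn, Perm.permMatrix, PEquiv.toMatrix_apply, Equiv.toPEquiv_apply]
  rw [this, det_mul, det_diagonal, det_permutation]

structure Ok (σ : Perm ι) (ε : ι → ℂ) : Prop where
  inv : ∀ i, σ (σ i) = i
  eq : ∀ i, ε (σ i) = ε i
  sq : ∀ i, ε i * ε i = 1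
  det : (∏ i, ε i) * (Perm.sign σ : ℤ) = 1

lemma Ok.isInv {σ : Perm ι} {ε : ι → ℂ} (h : Ok σ ε) (y : ι → ℂ) (hy : ∀ i, ‖y i‖ = 1) :
    Inv (Mn (fun i => ε i * (y i / y (σ i))) σ) := by
  have hy0 : ∀ i, y i ≠ 0 := fun i h0 => by simpa [h0] using hy i
  have h1 : Mn (fun i => ε i * (y i / y (σ i))) σ * Mn (fun i => ε i * (y i / y (σ i))) σ = 1 := by
    rw [Mn_mul, ← diagonal_one]
    refine Mn_eq _ _ _ h.inv fun i => ?_
    have := hy0 i
    have := hy0 (σ i)
    rw [h.inv, h.eq]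
    field_simp
    linear_combination h.sq i
  have h2 : star (Mn (fun i => ε i * (y i / y (σ i))) σ) = Mn (fun i => ε i * (y i / y (σ i))) σ := by
    ext i j
    simp only [Mn, star_apply, of_apply]
    by_cases hij : σ i = j
    · subst hij
      rw [if_pos (h.inv i), if_pos rfl, h.inv, h.eq]
      have e1 : star (ε i) = ε i := by
        rcases mul_self_eq_one_iff.1 (h.sq i) with e | e <;> simp [e]
      rw [star_mul', star_div₀, e1, Complex.star_def, ← Complex.inv_eq_conj (hy _),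
        ← Complex.inv_eq_conj (hy _), inv_div_inv]
    · rw [if_neg hij, if_neg (fun e => hij (by rw [← e, h.inv])), star_zero]
  refine ⟨mem_specialUnitaryGroup_iff.2 ⟨mem_unitaryGroup_iff.2 (by rw [h2, h1]), ?_⟩, h1⟩
  rw [det_Mn, Finset.prod_mul_distrib, Finset.prod_div_distrib, Equiv.prod_comp σ y,
    div_self (Finset.prod_ne_zero_iff.2 fun i _ => hy0 i), mul_one, h.det]

lemma ok_fix {σ : Perm ι} (h : ∀ i, σ (σ i) = i) {p : ι} (hp : σ p = p) : ∃ ε, Ok σ ε := by
  have hs : ((Perm.sign σ : ℤ) : ℂ) * (Perm.sign σ : ℤ) = 1 := by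
    rcases Int.units_eq_one_or (Perm.sign σ) with e | e <;> simp [e]
  refine ⟨fun i => if i = p then (Perm.sign σ : ℤ) else 1, h, fun i => ?_, fun i => ?_, ?_⟩
  · have : σ i = p ↔ i = p := ⟨fun e => by rw [← h i, e, hp], fun e => by rw [e, hp]⟩
    simp only [this]
  · split_ifs
    exacts [hs, one_mul _]
  · rw [Finset.prod_ite_eq']; simpa using hs

lemma ok_one {σ : Perm ι} (h : ∀ i, σ (σ i) = i) (hs : Perm.sign σ = 1) : Ok σ fun _ => 1 :=
  ⟨h, fun _ => rfl, fun _ => one_mul _, by simp [hs]⟩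

lemma three {ρ : Perm ι} (h : ∀ i, ρ (ρ i) = i) (hc : 3 ≤ Fintype.card ι) (y : ι → ℂ)
    (hy : ∀ i, ‖y i‖ = 1) : ∃ K₁ K₂ K₃ : Matrix ι ι ℂ, Inv K₁ ∧ Inv K₂ ∧ Inv K₃ ∧
      (Fintype.card ι % 4 ≠ 2 → K₃ = 1) ∧ K₁ * K₂ * K₃ = diagonal fun i => y i / y (ρ i) := by
  by_cases hε : ∃ ε, Ok ρ ε
  · obtain ⟨ε, hε⟩ := hε
    refine ⟨_, _, 1, hε.isInv y hy, hε.isInv (fun _ => 1) (by simp), inv_one, fun _ => rfl, ?_⟩
    rw [mul_one, Mn_mul]
    refine Mn_eq _ _ _ h fun i => ?_
    rw [hε.eq]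
    linear_combination (y i / y (ρ i)) * hε.sq i
  have hf : ∀ p, ρ p ≠ p := fun p hp => hε (ok_fix h hp)
  have hs : Perm.sign ρ = -1 := (Int.units_eq_one_or _).resolve_left fun e => hε ⟨_, ok_one h e⟩
  obtain ⟨p⟩ : Nonempty ι := Fintype.card_pos_iff.1 (by omega)
  obtain ⟨q, hq⟩ : ∃ q, q ∉ ({p, ρ p} : Finset ι) := by
    by_contra hn
    push Not at hn
    have := (Finset.card_le_card (fun x _ => hn x : Finset.univ ⊆ _)).trans Finset.card_le_two
    rw [Finset.card_univ] at this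
    omega
  simp only [Finset.mem_insert, Finset.mem_singleton, not_or] at hq
  obtain ⟨p', hp'⟩ : ∃ p', ρ p = p' := ⟨_, rfl⟩
  obtain ⟨q', hq'⟩ : ∃ q', ρ q = q' := ⟨_, rfl⟩
  have e1 : ρ p' = p := by rw [← hp', h]
  have e2 : ρ q' = q := by rw [← hq', h]
  have n1 : p' ≠ p := hp' ▸ hf p
  have n2 : q' ≠ q := hq' ▸ hf q
  have n3 : q ≠ p := hq.1
  have n4 : q ≠ p' := hp' ▸ hq.2
  have n5 : q' ≠ p := fun e => n4 (by rw [← e2, e, hp'])
  have n6 : q' ≠ p' := fun e => n3 (by rw [← e2, e, e1])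
  have cs : ∀ i, i = p ∨ i = p' ∨ i = q ∨ i = q' ∨ ((i ≠ p ∧ i ≠ p' ∧ i ≠ q ∧ i ≠ q') ∧
      ρ i ≠ p ∧ ρ i ≠ p' ∧ ρ i ≠ q ∧ ρ i ≠ q') := by
    intro i
    by_contra hn
    simp only [not_or, not_and_or, not_not] at hn
    obtain ⟨a, b, c, d, e⟩ := hn
    have := h i
    rcases e with e | e | e | e | e
    · tauto
    all_goals rw [e] at this; simp_all
  have o₁ : Ok (swap p p' * swap q q') fun _ => 1 := ok_one (fun i => by
    rcases cs i with rfl | rfl | rfl | rfl | e <;> simp [swap_apply_def, *, Ne.symm])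
    (by simp [n1.symm, n2.symm])
  have o₂ : Ok (ρ * swap p p') fun _ => 1 := ok_one (fun i => by
    rcases cs i with rfl | rfl | rfl | rfl | e <;> simp [swap_apply_def, *, Ne.symm])
    (by simp [n1.symm, hs])
  have o₃ : Ok (ρ * swap q q') fun _ => 1 := ok_one (fun i => by
    rcases cs i with rfl | rfl | rfl | rfl | e <;> simp [swap_apply_def, *, Ne.symm])
    (by simp [n2.symm, hs])
  refine ⟨_, _, _, o₁.isInv y hy,
    o₂.isInv (fun i => if i = q ∨ i = q' then 1 else y i) (fun i => by split_ifs <;> simp [hy]),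
    o₃.isInv (fun _ => 1) (by simp), fun h4 => ?_, ?_⟩
  · exfalso
    have h2 : ρ ^ 2 = 1 := by ext i; simp [sq, h]
    have h5 := Perm.two_dvd_card_support h2
    have h6 : ρ.support = Finset.univ := by ext i; simp [hf]
    have h7 := Perm.sign_of_pow_two_eq_one h2
    have h8 : Fintype.card (Function.fixedPoints ρ) = 0 :=
      Fintype.card_eq_zero_iff.2 ⟨fun x => hf x.1 x.2⟩
    rw [h6, Finset.card_univ] at h5
    rw [h8, hs, Even.neg_one_pow (Nat.even_iff.2 (by omega))] at h7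
    exact absurd h7 (by decide)
  rw [Mn_mul, Mn_mul]
  have hy0 : ∀ i, y i ≠ 0 := fun i h0 => by simpa [h0] using hy i
  refine Mn_eq _ _ _ (fun i => ?_) fun i => ?_
  · rcases cs i with rfl | rfl | rfl | rfl | e <;> simp [swap_apply_def, *, Ne.symm]
  · rcases cs i with rfl | rfl | rfl | rfl | e <;> simp [swap_apply_def, *, Ne.symm]

lemma exists_b {m : ℕ} (a : Fin (m + 1) → ℂ) (ha : ∀ i, ‖a i‖ = 1) (hp : ∏ i, a i = 1) :
    ∃ b : Fin (m + 1) → ℂ, (∀ i, ‖b i‖ = 1) ∧ ∀ i, b i / b (i + 1) = a i := by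
  set a' : ℕ → ℂ := fun j => a (Fin.ofNat (m + 1) j) with ha'
  have h0 : ∀ k, ∏ j ∈ Finset.range k, a' j ≠ 0 := fun k =>
    Finset.prod_ne_zero_iff.2 fun j _ h0 => by
      have := ha (Fin.ofNat (m + 1) j)
      rw [show a (Fin.ofNat (m + 1) j) = 0 from h0] at this
      simp at this
  refine ⟨fun i => (∏ j ∈ Finset.range i, a' j)⁻¹, fun i => by simp [ha', ha], fun i => ?_⟩
  have h1 : a' i = a i := by simp [ha']
  rw [inv_div_inv, div_eq_iff (h0 _), ← h1, mul_comm, ← Finset.prod_range_succ, Fin.val_add_one]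
  split_ifs with h
  · rw [Finset.prod_range_zero, h, Fin.val_last, ← Fin.prod_univ_eq_prod_range a', ← hp]
    exact Finset.prod_congr rfl fun j _ => by simp [ha']
  · rfl

theorem five {m : ℕ} (hm : 3 ≤ m + 1) (A : Matrix (Fin (m + 1)) (Fin (m + 1)) ℂ)
    (hA : A ∈ specialUnitaryGroup (Fin (m + 1)) ℂ) :
    ∃ J₁ J₂ J₃ J₄ J₅ : Matrix (Fin (m + 1)) (Fin (m + 1)) ℂ,
      Inv J₁ ∧ Inv J₂ ∧ Inv J₃ ∧ Inv J₄ ∧ Inv J₅ ∧ ((m + 1) % 4 ≠ 2 → J₄ = 1) ∧
      J₁ * J₂ * J₃ * J₄ * J₅ = A := by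
  rw [mem_specialUnitaryGroup_iff] at hA
  obtain ⟨U, hU, a, ha⟩ := unitary_diag A hA.1
  have u1 : star U * U = 1 := (mem_unitaryGroup_iff').1 hU
  have u2 : U * star U = 1 := (mem_unitaryGroup_iff).1 hU
  have h1 : diagonal a ∈ unitaryGroup (Fin (m + 1)) ℂ :=
    ha ▸ mul_mem (mul_mem (Unitary.star_mem hU) hA.1) hU
  have h2 : ∀ i, ‖a i‖ = 1 := by
    intro i
    have := congrFun (congrFun (mem_unitaryGroup_iff.1 h1) i) i
    simp only [star_eq_conjTranspose, diagonal_conjTranspose, diagonal_mul_diagonal,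
      diagonal_apply_eq, one_apply_eq, Pi.star_apply, Complex.star_def, Complex.mul_conj'] at this
    exact (pow_eq_one_iff_of_nonneg (norm_nonneg _) two_ne_zero).1 (by exact_mod_cast this)
  have h3 : ∏ i, a i = 1 := by
    rw [← det_diagonal, ← ha, det_mul, det_mul, hA.2, mul_one, ← det_mul, u1, det_one]
  obtain ⟨b, hb, hab⟩ := exists_b a h2 h3
  obtain ⟨ε, hε⟩ := ok_fix (σ := Equiv.neg (Fin (m + 1))) (by simp) (p := 0) (by simp)
  obtain ⟨K₁, K₂, K₃, k₁, k₂, k₃, k₄, hK⟩ := three (ρ := Equiv.subLeft (1 : Fin (m + 1))) (by simp)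
    (by simpa using hm) b hb
  refine ⟨_, _, _, _, _, (hε.isInv b hb).conj hU, k₁.conj hU, k₂.conj hU, k₃.conj hU,
    (hε.isInv (fun _ => 1) (by simp)).conj hU,
    fun h => by rw [k₄ (by simpa using h), mul_one, u2], ?_⟩
  have h4 : ∀ X Y : Matrix (Fin (m + 1)) (Fin (m + 1)) ℂ,
      U * X * star U * (U * Y * star U) = U * (X * Y) * star U := by
    intro X Y
    rw [mul_assoc, ← mul_assoc (star U), ← mul_assoc (star U), u1, one_mul]
    simp only [mul_assoc]
  rw [h4, h4, h4, h4, mul_assoc _ K₁, mul_assoc _ (K₁ * K₂), hK,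
    ← Mn_eq _ _ 1 (fun _ => rfl) (fun _ => rfl), Mn_mul, Mn_mul, Mn_eq _ a, ← ha]
  · rw [← mul_assoc, ← mul_assoc, u2, one_mul, mul_assoc, u2, mul_one]
  · simp
  · intro i
    have hb0 : ∀ i, b i ≠ 0 := fun i h0 => by simpa [h0] using hb i
    have e := hε.eq i
    simp only [Equiv.neg_apply, one_mul, Equiv.subLeft_apply, sub_neg_eq_add, div_one,
      mul_one] at e ⊢
    rw [e, ← hab, add_comm 1 i]
    have := hb0 (-i)
    have := hb0 (i + 1)
    field_simp
    linear_combination (b i) * hε.sq i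

end Pool.Agent.H61.Su
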