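import Mathlib

set_option autoImplicit false

namespace Pool.Agent.H61.Sym

variable {V : Type}

/-- symmetric coordinates in general position -/
structure Gen (θ : V → V) (X Y : V → ℝ) : Prop where
  sx : ∀ v, X (θ v) = X v
  sy : ∀ v, Y (θ v) = - Y v
  gx : ∀ u w, X u = X w → w = u ∨ w = θ u
  gy : ∀ u, Y u = 0 → θ u = u

def conc (X Y : V → ℝ) (u w : V) : Prop := 0 < (X u - X w) * (Y u - Y w)

def out (X Y : V → ℝ) (z b c : V) : Prop :=
  0 < (X z - X b) * (X z - X c) ∨ 0 < (Y z - Y b) * (Y z - Y c)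

lemma conc.symm {X Y : V → ℝ} {u w : V} (h : conc X Y u w) : conc X Y w u := by
  unfold conc at *; linarith

lemma Gen.ne {θ : V → V} {X Y : V → ℝ} (h : Gen θ X Y) {u w : V} (huw : u ≠ w) :
    X u ≠ X w ∨ Y u ≠ Y w := by
  by_contra hc
  push Not at hc
  rcases h.gx u w hc.1 with e | e
  · exact huw e.symm
  · have h1 := h.sy u
    rw [← e, ← hc.2] at h1
    exact huw ((h.gy u (by linarith)).symm.trans e.symm)

lemma Gen.fix {θ : V → V} {X Y : V → ℝ} (h : Gen θ X Y) {u : V} (hu : θ u = u) : Y u = 0 := by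
  have := h.sy u
  rw [hu] at this; linarith

/-- `C` refines `A` by `B` lexicographically -/
def Ref (A B C : V → ℝ) : Prop := ∀ u w,
  (A u = A w → ∃ k, 0 < k ∧ C u - C w = k * (B u - B w)) ∧
  (A u ≠ A w → ∃ k, 0 < k ∧ C u - C w = k * (A u - A w))

lemma lex [Finite V] (A B : V → ℝ) : ∃ ε : ℝ, 0 < ε ∧ Ref A B (fun v => A v + ε * B v) := by
  have h : ∀ q : V × V, ∀ᶠ ε in nhdsWithin (0 : ℝ) (Set.Ioi 0), A q.1 ≠ A q.2 →
      0 < 1 + ε * ((B q.1 - B q.2) / (A q.1 - A q.2)) := by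
    intro q
    have hc : Continuous fun ε : ℝ => 1 + ε * ((B q.1 - B q.2) / (A q.1 - A q.2)) := by fun_prop
    have := (hc.tendsto 0).eventually (lt_mem_nhds (by simp : (0 : ℝ) < _))
    exact (this.filter_mono nhdsWithin_le_nhds).mono fun ε h _ => h
  obtain ⟨ε, h1, h2⟩ := ((Filter.eventually_all.mpr h).and self_mem_nhdsWithin).exists
  refine ⟨ε, h2, fun u w => ⟨fun e => ⟨ε, h2, by simp only [e]; ring⟩, fun e => ⟨_, h1 (u, w) e, ?_⟩⟩⟩
  have := sub_ne_zero.mpr e
  field_simp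
  ring

lemma lexGen [Finite V] {θ : V → V} {X Y : V → ℝ} (h : Gen θ X Y) (A B : V → ℝ)
    (hA : ∀ v, A (θ v) = A v) (hB : ∀ v, B (θ v) = - B v) :
    ∃ X' Y', Gen θ X' Y' ∧ Ref A X X' ∧ Ref B Y Y' := by
  obtain ⟨ε, -, h1⟩ := lex A X
  obtain ⟨δ, -, h2⟩ := lex B Y
  refine ⟨_, _, ⟨fun v => by simp only [hA, h.sx], fun v => by simp only [hB, h.sy]; ring,
    fun u w e => ?_, fun u e => ?_⟩, h1, h2⟩
  · by_cases hh : A u = A w
    · obtain ⟨k, hk, e2⟩ := (h1 u w).1 hh
      rw [sub_eq_zero.mpr e] at e2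
      exact h.gx u w (sub_eq_zero.mp ((mul_eq_zero.mp e2.symm).resolve_left hk.ne'))
    · obtain ⟨k, hk, e2⟩ := (h1 u w).2 hh
      rw [sub_eq_zero.mpr e] at e2
      exact absurd (sub_eq_zero.mp ((mul_eq_zero.mp e2.symm).resolve_left hk.ne')) hh
  · have e' : (B u + δ * Y u) - (B (θ u) + δ * Y (θ u)) = 0 := by
      rw [hB, h.sy]; linarith
    by_cases hh : B u = B (θ u)
    · obtain ⟨k, hk, e2⟩ := (h2 u (θ u)).1 hh
      rw [e', h.sy] at e2
      exact h.gy u (by nlinarith)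
    · obtain ⟨k, hk, e2⟩ := (h2 u (θ u)).2 hh
      rw [e'] at e2
      exact absurd (sub_eq_zero.mp ((mul_eq_zero.mp e2.symm).resolve_left hk.ne')) hh

lemma pos_scale {k l a b p q : ℝ} (hk : 0 < k) (hl : 0 < l) (h : 0 < a * b) (hp : p = k * a)
    (hq : q = l * b) : 0 < p * q := by
  rw [hp, hq]; nlinarith [mul_pos (mul_pos hk hl) h]

lemma Ref.eq_eq {A B C A' B' C' : V → ℝ} (h : Ref A B C) (h' : Ref A' B' C') {u w u' w' : V}
    (e : A u = A w) (e' : A' u' = A' w') (hp : 0 < (B u - B w) * (B' u' - B' w')) :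
    0 < (C u - C w) * (C' u' - C' w') := by
  obtain ⟨k, hk, e1⟩ := (h u w).1 e
  obtain ⟨l, hl, e2⟩ := (h' u' w').1 e'
  exact pos_scale hk hl hp e1 e2

lemma Ref.eq_ne {A B C A' B' C' : V → ℝ} (h : Ref A B C) (h' : Ref A' B' C') {u w u' w' : V}
    (e : A u = A w) (hp : 0 < (B u - B w) * (A' u' - A' w')) :
    0 < (C u - C w) * (C' u' - C' w') := by
  obtain ⟨k, hk, e1⟩ := (h u w).1 e
  obtain ⟨l, hl, e2⟩ := (h' u' w').2 (fun e' => by simp [e'] at hp)
  exact pos_scale hk hl hp e1 e2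

lemma Ref.ne_ne {A B C A' B' C' : V → ℝ} (h : Ref A B C) (h' : Ref A' B' C') {u w u' w' : V}
    (hp : 0 < (A u - A w) * (A' u' - A' w')) : 0 < (C u - C w) * (C' u' - C' w') := by
  obtain ⟨k, hk, e1⟩ := (h u w).2 (fun e' => by simp [e'] at hp)
  obtain ⟨l, hl, e2⟩ := (h' u' w').2 (fun e' => by simp [e'] at hp)
  exact pos_scale hk hl hp e1 e2

lemma open_avoid {O : Set ℝ} (hO : IsOpen O) (hne : O.Nonempty) {S : Set ℝ} (hS : S.Finite) :
    ∃ x ∈ O, x ∉ S := by
  obtain ⟨x, hx⟩ := hne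
  exact (infinite_of_mem_nhds x (hO.mem_nhds hx)).exists_notMem_finite hS

lemma place [Finite V] {θ : V → V} (hθ : ∀ v, θ (θ v) = v) {X Y : V → ℝ} (h : Gen θ X Y) {w : V}
    (hw : θ w ≠ w) {O : Set (ℝ × ℝ)} (hO : IsOpen O) (hne : O.Nonempty) :
    ∃ X' Y', Gen θ X' Y' ∧ (X' w, Y' w) ∈ O ∧
      ∀ v, v ≠ w → v ≠ θ w → X' v = X v ∧ Y' v = Y v := by
  classical
  obtain ⟨⟨x0, y0⟩, h0⟩ := hne
  obtain ⟨x, hx, hxS⟩ := open_avoid (O := (fun x => (x, y0)) ⁻¹' O) (hO.preimage (by fun_prop))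
    ⟨x0, h0⟩ (Set.finite_range X)
  obtain ⟨y, hy, hyS⟩ := open_avoid (O := (fun y => (x, y)) ⁻¹' O) (hO.preimage (by fun_prop))
    ⟨y0, hx⟩ (Set.finite_singleton 0)
  have hy0 : y ≠ 0 := hyS
  have hxv : ∀ v, X v ≠ x := fun v e => hxS ⟨v, e⟩
  have t1 : ∀ v, θ v = w ↔ v = θ w := fun v => ⟨fun e => by rw [← e, hθ], fun e => by rw [e, hθ]⟩
  have t2 : ∀ v, θ v = θ w ↔ v = w := fun v =>
    ⟨fun e => by rw [← hθ v, e, hθ], fun e => by rw [e]⟩
  refine ⟨fun v => if v = w ∨ v = θ w then x else X v,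
    fun v => if v = w then y else if v = θ w then -y else Y v, ⟨fun v => ?_, fun v => ?_,
      fun u v e => ?_, fun u e => ?_⟩, by simpa using hy, fun v h1 h2 => by simp [h1, h2]⟩
  · simp only [t1, t2, or_comm, h.sx]
  · by_cases h1 : v = w
    · subst h1; simp [hw]
    · by_cases h2 : v = θ w
      · subst h2; simp [hθ, hw]
      · simp [t1, t2, h1, h2, h.sy]
  · by_cases h1 : u = w ∨ u = θ w <;> by_cases h2 : v = w ∨ v = θ w
    · rcases h1 with rfl | rfl <;> rcases h2 with rfl | rfl <;> simp [hθ]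
    · simp only [h1, h2, if_true, if_false] at e
      exact absurd e.symm (hxv v)
    · simp only [h1, h2, if_true, if_false] at e
      exact absurd e (hxv u)
    · simp only [h1, h2, if_false] at e
      exact h.gx u v e
  · by_cases h1 : u = w
    · simp [h1, hy0] at e
    · by_cases h2 : u = θ w
      · simp [h2, hw, hy0] at e
      · simp only [h1, h2, if_false] at e
        exact h.gy u e

lemma placeFix [Finite V] {θ : V → V} (hθ : ∀ v, θ (θ v) = v) {X Y : V → ℝ} (h : Gen θ X Y)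
    {w : V} (hw : θ w = w) {O : Set ℝ} (hO : IsOpen O) (hne : O.Nonempty) :
    ∃ X', Gen θ X' Y ∧ X' w ∈ O ∧ ∀ v, v ≠ w → X' v = X v := by
  classical
  obtain ⟨x, hx, hxS⟩ := open_avoid hO hne (Set.finite_range X)
  have hxv : ∀ v, X v ≠ x := fun v e => hxS ⟨v, e⟩
  have t1 : ∀ v, θ v = w ↔ v = w := fun v =>
    ⟨fun e => by rw [← hθ v, e, hw], fun e => by rw [e, hw]⟩
  refine ⟨fun v => if v = w then x else X v, ⟨fun v => ?_, h.sy, fun u v e => ?_, h.gy⟩,
    by simpa using hx, fun v h1 => by simp [h1]⟩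
  · simp only [t1, h.sx]
  · by_cases h1 : u = w <;> by_cases h2 : v = w
    · exact Or.inl (h2.trans h1.symm)
    · simp only [h1, h2, if_true, if_false] at e
      exact absurd e.symm (hxv v)
    · simp only [h1, h2, if_true, if_false] at e
      exact absurd e (hxv u)
    · simp only [h1, h2, if_false] at e
      exact h.gx u v e

lemma exists_gen [Finite V] {θ : V → V} (hθ : ∀ v, θ (θ v) = v) : ∃ X Y, Gen θ X Y := by
  obtain ⟨f, hf⟩ := Countable.exists_injective_nat V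
  refine ⟨fun v => max (f v) (f (θ v)), fun v => f v - f (θ v), fun v => by rw [hθ, max_comm],
    fun v => by rw [hθ]; ring, fun u w e => ?_, fun u e => ?_⟩
  · have e' : max (f u) (f (θ u)) = max (f w) (f (θ w)) := by exact_mod_cast e
    rcases max_choice (f u) (f (θ u)) with h1 | h1 <;>
      rcases max_choice (f w) (f (θ w)) with h2 | h2 <;> rw [h1, h2] at e'
    · exact Or.inl (hf e').symm
    · exact Or.inr (by rw [hf e', hθ])
    · exact Or.inr (hf e').symm
    · exact Or.inl (by rw [← hθ w, ← hf e', hθ])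
  · have e' : f u = f (θ u) := by exact_mod_cast sub_eq_zero.mp e
    exact (hf e').symm

lemma P3out {xa ya xb yb xc yc : ℝ} (M : ℝ)
    (h : 0 < (xa - xb) * (xa - xc) ∨ 0 < (ya - yb) * (ya - yc)) :
    ∃ x y, 0 < (x - xa) * (y - ya) ∧ (x - xb) * (y - yb) < 0 ∧ (x - xc) * (y - yc) < 0 ∧
      (M < |x| ∨ M < |y|) := by
  set K := |M| + |xa| + |ya| + |xb| + |yb| + |xc| + |yc| + 1 with hK
  have b0 := le_abs_self M
  have b1 := abs_le.mp (le_refl |xa|)
  have b2 := abs_le.mp (le_refl |ya|)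
  have b3 := abs_le.mp (le_refl |xb|)
  have b4 := abs_le.mp (le_refl |yb|)
  have b5 := abs_le.mp (le_refl |xc|)
  have b6 := abs_le.mp (le_refl |yc|)
  have n0 := abs_nonneg M
  have n1 := abs_nonneg xa
  have n2 := abs_nonneg ya
  have n3 := abs_nonneg xb
  have n4 := abs_nonneg yb
  have n5 := abs_nonneg xc
  have n6 := abs_nonneg yc
  have hM : M < |K| := by rw [abs_of_pos (by linarith)]; linarith
  have hM' : M < |-K| := by rwa [abs_neg]
  rcases h with h | h <;> rcases mul_pos_iff.mp h with ⟨h1, h2⟩ | ⟨h1, h2⟩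
  · have m1 := le_max_left xb xc
    have m2 := le_max_right xb xc
    have m3 : max xb xc < xa := max_lt (by linarith) (by linarith)
    exact ⟨(xa + max xb xc) / 2, -K, mul_pos_of_neg_of_neg (by linarith) (by linarith),
      mul_neg_of_pos_of_neg (by linarith) (by linarith),
      mul_neg_of_pos_of_neg (by linarith) (by linarith), Or.inr hM'⟩
  · have m1 := min_le_left xb xc
    have m2 := min_le_right xb xc
    have m3 : xa < min xb xc := lt_min (by linarith) (by linarith)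
    exact ⟨(xa + min xb xc) / 2, K, mul_pos (by linarith) (by linarith),
      mul_neg_of_neg_of_pos (by linarith) (by linarith),
      mul_neg_of_neg_of_pos (by linarith) (by linarith), Or.inr hM⟩
  · have m1 := le_max_left yb yc
    have m2 := le_max_right yb yc
    have m3 : max yb yc < ya := max_lt (by linarith) (by linarith)
    exact ⟨-K, (ya + max yb yc) / 2, mul_pos_of_neg_of_neg (by linarith) (by linarith),
      mul_neg_of_neg_of_pos (by linarith) (by linarith),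
      mul_neg_of_neg_of_pos (by linarith) (by linarith), Or.inl hM'⟩
  · have m1 := min_le_left yb yc
    have m2 := min_le_right yb yc
    have m3 : ya < min yb yc := lt_min (by linarith) (by linarith)
    exact ⟨K, (ya + min yb yc) / 2, mul_pos (by linarith) (by linarith),
      mul_neg_of_pos_of_neg (by linarith) (by linarith),
      mul_neg_of_pos_of_neg (by linarith) (by linarith), Or.inl hM⟩

lemma P3nw {xa ya xb yb xc yc : ℝ} (h1 : xb < xc) (h2 : yc < yb) (hb : xa ≠ xb ∨ ya ≠ yb)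
    (hc : xa ≠ xc ∨ ya ≠ yc) :
    ∃ x y, 0 < (x - xa) * (y - ya) ∧ (x - xb) * (y - yb) < 0 ∧ (x - xc) * (y - yc) < 0 := by
  by_cases h : 0 < (xa - xb) * (xa - xc) ∨ 0 < (ya - yb) * (ya - yc)
  · obtain ⟨x, y, h3, h4, h5, -⟩ := P3out 0 h
    exact ⟨x, y, h3, h4, h5⟩
  push Not at h
  have k1 : xb ≤ xa := by nlinarith [h.1]
  have k2 : xa ≤ xc := by nlinarith [h.1]
  have k3 : yc ≤ ya := by nlinarith [h.2]
  have k4 : ya ≤ yb := by nlinarith [h.2]
  by_cases h3 : xa < xc ∧ ya < yb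
  · exact ⟨(xa + xc) / 2, (ya + yb) / 2, mul_pos (by linarith) (by linarith),
      mul_neg_of_pos_of_neg (by linarith) (by linarith),
      mul_neg_of_neg_of_pos (by linarith) (by linarith)⟩
  · have h4 : xb < xa ∧ yc < ya := by
      rcases not_and_or.mp h3 with h5 | h5
      · have e : xa = xc := by linarith
        exact ⟨by linarith, lt_of_le_of_ne k3 (hc.resolve_left (not_not.mpr e)).symm⟩
      · have e : ya = yb := by linarith
        exact ⟨lt_of_le_of_ne k1 (hb.resolve_right (not_not.mpr e)).symm, by linarith⟩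
    exact ⟨(xa + xb) / 2, (ya + yc) / 2, mul_pos_of_neg_of_neg (by linarith) (by linarith),
      mul_neg_of_pos_of_neg (by linarith) (by linarith),
      mul_neg_of_neg_of_pos (by linarith) (by linarith)⟩

lemma P3disc {xa ya xb yb xc yc : ℝ} (h : (xb - xc) * (yb - yc) < 0) (hb : xa ≠ xb ∨ ya ≠ yb)
    (hc : xa ≠ xc ∨ ya ≠ yc) :
    ∃ x y, 0 < (x - xa) * (y - ya) ∧ (x - xb) * (y - yb) < 0 ∧ (x - xc) * (y - yc) < 0 := by
  rcases mul_neg_iff.mp h with ⟨h1, h2⟩ | ⟨h1, h2⟩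
  · obtain ⟨x, y, h3, h4, h5⟩ := P3nw (xa := xa) (ya := ya) (xb := xc) (yb := yc) (xc := xb)
      (yc := yb) (by linarith) (by linarith) hc hb
    exact ⟨x, y, h3, h5, h4⟩
  · exact P3nw (by linarith) (by linarith) hb hc

lemma far_out {M x p q : ℝ} (h : M < |x|) (hp : |p| ≤ M) (hq : |q| ≤ M) :
    0 < (x - p) * (x - q) := by
  have h1 := abs_le.mp hp
  have h2 := abs_le.mp hq
  rcases lt_abs.mp h with h3 | h3
  · exact mul_pos (by linarith) (by linarith)
  · exact mul_pos_of_neg_of_neg (by linarith) (by linarith)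

end Pool.Agent.H61.Sym
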