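import Pool.Agent.H61.SymA

set_option autoImplicit false

namespace Pool.Agent.H61.Sym

variable {V : Type}

/-- every edge is a bridge, witnessed by a real function -/
def Forest (F : SimpleGraph V) : Prop := ∀ x y, F.Adj x y → ∃ g : V → ℝ, g x ≠ g y ∧
  ∀ u w, F.Adj u w → s(u, w) ≠ s(x, y) → g u = g w

def Valid (θ : V → V) (F : SimpleGraph V) : Prop := ∀ u w, F.Adj u w → ¬ F.Adj (θ u) (θ w)

def Realz (θ : V → V) (F : SimpleGraph V) : Prop :=
  ∃ X Y, Gen θ X Y ∧ ∀ u w, F.Adj u w → conc X Y u w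

def Conn (F : SimpleGraph V) (H : Set V) : Prop := ∀ g : V → ℝ,
  (∀ u w, F.Adj u w → u ∈ H → w ∈ H → g u = g w) → ∀ u ∈ H, ∀ w ∈ H, g u = g w

lemma Conn.single (F : SimpleGraph V) (x : V) : Conn F {x} := by
  rintro g - u rfl w rfl; rfl

lemma Conn.union {F : SimpleGraph V} {H K : Set V} (h1 : Conn F H) (h2 : Conn F K) {p q : V}
    (hp : p ∈ H) (hq : q ∈ K) (hpq : F.Adj p q ∨ p = q) : Conn F (H ∪ K) := by
  intro g hg
  have a1 := h1 g fun u w h hu hw => hg u w h (Or.inl hu) (Or.inl hw)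
  have a2 := h2 g fun u w h hu hw => hg u w h (Or.inr hu) (Or.inr hw)
  have a3 : g p = g q := hpq.elim (fun h => hg p q h (Or.inl hp) (Or.inr hq)) (fun h => by rw [h])
  have a4 : ∀ u ∈ H ∪ K, g u = g p := by
    rintro u (hu | hu)
    · exact a1 u hu p hp
    · rw [a3]; exact a2 u hu q hq
  intro u hu w hw
  rw [a4 u hu, a4 w hw]

lemma Forest.uniq {F : SimpleGraph V} (hF : Forest F) {H K : Set V} (h1 : Conn F H)
    (h2 : Conn F K) (hd : ∀ v ∈ H, v ∉ K) {u w u' w' : V} (hu : u ∈ H) (hw : w ∈ K)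
    (hu' : u' ∈ H) (hw' : w' ∈ K) (e : F.Adj u w) (e' : F.Adj u' w') : u' = u ∧ w' = w := by
  obtain ⟨g, hg, hg2⟩ := hF u w e
  have a1 := h1 g fun p q h hp hq => hg2 p q h fun he => by
    rcases Sym2.eq_iff.mp he with ⟨-, rfl⟩ | ⟨rfl, -⟩
    exacts [hd _ hq hw, hd _ hp hw]
  have a2 := h2 g fun p q h hp hq => hg2 p q h fun he => by
    rcases Sym2.eq_iff.mp he with ⟨rfl, -⟩ | ⟨-, rfl⟩
    exacts [hd _ hu hp, hd _ hu hq]
  by_cases he : s(u', w') = s(u, w)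
  · rcases Sym2.eq_iff.mp he with h | ⟨rfl, -⟩
    · exact h
    · exact absurd hw (hd _ hu')
  · exact absurd ((a1 u hu u' hu').trans ((hg2 u' w' e' he).trans (a2 w' hw' w hw))) hg

/-- a cluster grown from the blocked edge -/
structure Cl (θ : V → V) (F0 F1 : SimpleGraph V) (b c : V) (H : Set V) (X Y : V → ℝ) : Prop where
  hb : b ∈ H
  hc : c ∈ H
  c1 : Conn F1 H
  c2 : Conn F1 (θ ⁻¹' H)
  dj : (∀ v ∈ H, θ v ∈ H) ∨ (∀ v ∈ H, θ v ∉ H)
  gen : Gen θ X Y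
  e1 : ∀ u w, F0.Adj u w → u ∈ H → w ∈ H → conc X Y u w
  e2 : ∀ u w, F0.Adj u w → θ u ∈ H → θ w ∈ H → conc X Y u w
  o : ∀ z ∈ H, z ≠ b → z ≠ c → out X Y z b c

section
variable [Finite V] {θ : V → V} (hθ : ∀ v, θ (θ v) = v) {F0 F1 : SimpleGraph V} (hle : F0 ≤ F1)
  (hF : Forest F1) (hV : Valid θ F0) {b c : V} {H : Set V} {X Y : V → ℝ}

include hθ hle hF hV in
lemma Cl.ext_free (h : Cl θ F0 F1 b c H X Y) {x h1 h2 : V} (hx : x ∉ H) (hx' : θ x ∉ H)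
    (hh1 : h1 ∈ H) (hh2 : h2 ∈ H) (a1 : F0.Adj x h1) (a2 : F0.Adj (θ x) (θ h2))
    (hfx : θ x ≠ x) : ∃ H' X' Y', Cl θ F0 F1 b c H' X' Y' ∧ H ⊆ H' ∧ x ∈ H' := by
  have h12 : h1 ≠ h2 := fun e => hV _ _ a1 (e ▸ a2)
  set M := |X b| + |X c| + |Y b| + |Y c| with hM
  have n1 := abs_nonneg (X b)
  have n2 := abs_nonneg (X c)
  have n3 := abs_nonneg (Y b)
  have n4 := abs_nonneg (Y c)
  obtain ⟨x0, y0, p1, p2, -, p3⟩ := P3out (xa := X h1) (ya := Y h1) (xb := X h2) (yb := Y h2)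
    (xc := X h2) (yc := Y h2) M ((h.gen.ne h12).imp
      (fun e => mul_self_pos.mpr (sub_ne_zero.mpr e)) (fun e => mul_self_pos.mpr (sub_ne_zero.mpr e)))
  obtain ⟨X', Y', g', ⟨q1, q2, q3⟩, hs⟩ := place hθ h.gen hfx
    (O := {q : ℝ × ℝ | 0 < (q.1 - X h1) * (q.2 - Y h1) ∧ (q.1 - X h2) * (q.2 - Y h2) < 0 ∧
      (M < |q.1| ∨ M < |q.2|)})
    (by
      simp only [Set.ofPred_and, Set.ofPred_or]
      refine IsOpen.inter ?_ (IsOpen.inter ?_ (IsOpen.union ?_ ?_)) <;> apply isOpen_lt <;> fun_prop)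
    ⟨(x0, y0), p1, p2, p3⟩
  simp only at q1 q2 q3
  have sH : ∀ v ∈ H, X' v = X v ∧ Y' v = Y v := fun v hv =>
    hs v (fun e => hx (e ▸ hv)) (fun e => hx' (e ▸ hv))
  have sK : ∀ v, θ v ∈ H → X' v = X v ∧ Y' v = Y v := fun v hv =>
    hs v (fun e => hx' (e ▸ hv)) (fun e => hx (by rw [e, hθ] at hv; exact hv))
  have cA : Conn F1 (H ∪ {x}) := h.c1.union (Conn.single _ _) hh1 rfl (Or.inl (hle a1.symm))
  have cB : Conn F1 (θ ⁻¹' H ∪ {θ x}) :=
    h.c2.union (Conn.single _ _) (p := θ h2) (by simpa [hθ] using hh2) rfl (Or.inl (hle a2.symm))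
  have k1 : ∀ w ∈ H, F0.Adj x w → conc X' Y' x w := fun w hw a => by
    have := (hF.uniq h.c1 (Conn.single _ x) (fun v hv e => hx (e ▸ hv)) hh1 rfl hw rfl
      (hle a1.symm) (hle a.symm)).1
    unfold conc
    rw [this, (sH _ hh1).1, (sH _ hh1).2]; exact q1
  have k2 : ∀ w, θ w ∈ H → F0.Adj (θ x) w → conc X' Y' (θ x) w := fun w hw a => by
    have := (hF.uniq h.c2 (Conn.single _ (θ x))
      (fun v hv e => hx (by rw [Set.mem_preimage, e, hθ] at hv; exact hv))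
      (u := θ h2) (by simpa [hθ] using hh2) rfl hw rfl (hle a2.symm) (hle a.symm)).1
    unfold conc
    rw [this, g'.sx, g'.sy, g'.sx, g'.sy, (sH _ hh2).1, (sH _ hh2).2]; linarith
  have E1 : ∀ u w, F0.Adj u w → u ∈ H ∪ {x} → w ∈ H ∪ {x} → conc X' Y' u w := by
    rintro u w a (hu | rfl) (hw | rfl)
    · unfold conc
      rw [(sH _ hu).1, (sH _ hu).2, (sH _ hw).1, (sH _ hw).2]; exact h.e1 u w a hu hw
    · exact (k1 u hu a.symm).symm
    · exact k1 w hw a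
    · exact absurd a (F0.irrefl)
  have E2 : ∀ u w, F0.Adj u w → θ u ∈ H ∪ {x} → θ w ∈ H ∪ {x} → conc X' Y' u w := by
    rintro u w a (hu | hu) (hw | hw)
    · unfold conc
      rw [(sK _ hu).1, (sK _ hu).2, (sK _ hw).1, (sK _ hw).2]; exact h.e2 u w a hu hw
    · have e : w = θ x := by rw [← hθ w, show θ w = x from hw]
      subst e; exact (k2 u hu a.symm).symm
    · have e : u = θ x := by rw [← hθ u, show θ u = x from hu]
      subst e; exact k2 w hw a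
    · have e : u = w := by rw [← hθ u, ← hθ w, show θ u = x from hu, show θ w = x from hw]
      exact absurd e a.ne
  have O1 : ∀ z, (z ∈ H ∨ z = x ∨ z = θ x) → z ≠ b → z ≠ c → out X' Y' z b c := by
    intro z hz hb hc
    unfold out
    rw [(sH _ h.hb).1, (sH _ h.hb).2, (sH _ h.hc).1, (sH _ h.hc).2]
    rcases hz with hz | rfl | rfl
    · rw [(sH _ hz).1, (sH _ hz).2]; exact h.o z hz hb hc
    · exact q3.imp (fun t => far_out t (by linarith) (by linarith))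
        (fun t => far_out t (by linarith) (by linarith))
    · rw [g'.sx, g'.sy]
      exact q3.imp (fun t => far_out t (by linarith) (by linarith))
        (fun t => far_out (by rwa [abs_neg]) (by linarith) (by linarith))
  rcases h.dj with hs1 | hs1
  · have eq1 : θ ⁻¹' H = H := Set.ext fun v => ⟨fun hv => by simpa [hθ] using hs1 _ hv, hs1 v⟩
    have cC : Conn F1 ((H ∪ {x}) ∪ (θ ⁻¹' H ∪ {θ x})) :=
      cA.union cB (p := b) (q := b) (Or.inl h.hb) (Or.inl (hs1 _ h.hb)) (Or.inr rfl)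
    have hsym : ∀ v ∈ (H ∪ {x}) ∪ (θ ⁻¹' H ∪ {θ x}), θ v ∈ (H ∪ {x}) ∪ (θ ⁻¹' H ∪ {θ x}) := by
      rintro v ((hv | rfl) | (hv | rfl))
      · exact Or.inl (Or.inl (hs1 _ hv))
      · exact Or.inr (Or.inr rfl)
      · exact Or.inl (Or.inl hv)
      · exact Or.inl (Or.inr (hθ x))
    have eq2 : θ ⁻¹' ((H ∪ {x}) ∪ (θ ⁻¹' H ∪ {θ x})) = (H ∪ {x}) ∪ (θ ⁻¹' H ∪ {θ x}) :=
      Set.ext fun v => ⟨fun hv => by simpa only [hθ] using hsym _ hv, hsym v⟩
    have E : ∀ u w, F0.Adj u w → u ∈ (H ∪ {x}) ∪ (θ ⁻¹' H ∪ {θ x}) →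
        w ∈ (H ∪ {x}) ∪ (θ ⁻¹' H ∪ {θ x}) → conc X' Y' u w := by
      rw [eq1]
      rintro u w a (hu | hu | rfl) (hw | hw | rfl)
      · exact E1 u w a hu hw
      · exact E1 u w a hu (Or.inl hw)
      · rcases hu with hu | rfl
        · exact E2 u _ a (Or.inl (hs1 _ hu)) (Or.inr (hθ x))
        · exact absurd (by rw [hθ]; exact a.symm) (hV _ _ a)
      · exact E1 u w a (Or.inl hu) hw
      · exact E1 u w a (Or.inl hu) (Or.inl hw)
      · exact E2 u _ a (Or.inl (hs1 _ hu)) (Or.inr (hθ x))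
      · rcases hw with hw | rfl
        · exact E2 _ w a (Or.inr (hθ x)) (Or.inl (hs1 _ hw))
        · exact absurd (by rw [hθ]; exact a.symm) (hV _ _ a)
      · exact E2 _ w a (Or.inr (hθ x)) (Or.inl (hs1 _ hw))
      · exact absurd a (F0.irrefl)
    refine ⟨_, X', Y', ⟨Or.inl (Or.inl h.hb), Or.inl (Or.inl h.hc), cC, by rw [eq2]; exact cC,
      Or.inl hsym, g', E, fun u w a hu hw => E u w a (by simpa only [hθ] using hsym _ hu)
        (by simpa only [hθ] using hsym _ hw), fun z hz => O1 z ?_⟩,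
      fun v hv => Or.inl (Or.inl hv), Or.inl (Or.inr rfl)⟩
    rw [eq1] at hz
    rcases hz with (hz | hz) | (hz | hz)
    exacts [Or.inl hz, Or.inr (Or.inl hz), Or.inl hz, Or.inr (Or.inr hz)]
  · have eq2 : θ ⁻¹' (H ∪ {x}) = θ ⁻¹' H ∪ {θ x} := Set.ext fun v =>
      or_congr Iff.rfl ⟨fun e => by rw [← hθ v, show θ v = x from e]; rfl,
        fun e => by rw [show v = θ x from e]; exact hθ x⟩
    refine ⟨H ∪ {x}, X', Y', ⟨Or.inl h.hb, Or.inl h.hc, cA, by rw [eq2]; exact cB, Or.inr ?_, g',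
      E1, E2, fun z hz => O1 z (hz.imp id Or.inl)⟩, fun v hv => Or.inl hv, Or.inr rfl⟩
    rintro v (hv | rfl) (hv' | hv')
    · exact hs1 v hv hv'
    · exact hx' (by rw [← show θ v = x from hv', hθ]; exact hv)
    · exact hx' hv'
    · exact hfx hv'

include hθ hle hF hV in
lemma Cl.ext_fix (h : Cl θ F0 F1 b c H X Y) (hs1 : ∀ v ∈ H, θ v ∈ H) {x h1 : V} (hx : x ∉ H)
    (hh1 : h1 ∈ H) (a1 : F0.Adj x h1) (hfx : θ x = x) :
    ∃ H' X' Y', Cl θ F0 F1 b c H' X' Y' ∧ H ⊆ H' ∧ x ∈ H' := by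
  have hy : Y h1 ≠ 0 := fun e => hV _ _ a1 (by rw [hfx, h.gen.gy _ e]; exact a1)
  set M := |X b| + |X c| with hM
  have n1 := abs_nonneg (X b)
  have n2 := abs_nonneg (X c)
  obtain ⟨X', g', ⟨q1, q2⟩, hs⟩ := placeFix hθ h.gen hfx
    (O := {t : ℝ | 0 < (t - X h1) * (0 - Y h1) ∧ M < |t|})
    (by
      simp only [Set.ofPred_and]
      refine IsOpen.inter ?_ ?_ <;> apply isOpen_lt <;> fun_prop) (by
      have n3 := le_abs_self (X h1)
      have n4 := neg_abs_le (X h1)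
      have n5 := abs_nonneg (X h1)
      rcases lt_or_gt_of_ne hy with t | t
      · exact ⟨M + |X h1| + 1, mul_pos (by linarith) (by linarith),
          by rw [abs_of_pos (by linarith)]; linarith⟩
      · exact ⟨-(M + |X h1| + 1), mul_pos_of_neg_of_neg (by linarith) (by linarith),
          by rw [abs_neg, abs_of_pos (by linarith)]; linarith⟩)
  have sH : ∀ v ∈ H, X' v = X v := fun v hv => hs v (fun e => hx (e ▸ hv))
  have cA : Conn F1 (H ∪ {x}) := h.c1.union (Conn.single _ _) hh1 rfl (Or.inl (hle a1.symm))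
  have k1 : ∀ w ∈ H, F0.Adj x w → conc X' Y x w := fun w hw a => by
    have := (hF.uniq h.c1 (Conn.single _ x) (fun v hv e => hx (e ▸ hv)) hh1 rfl hw rfl
      (hle a1.symm) (hle a.symm)).1
    unfold conc
    rw [this, sH _ hh1, h.gen.fix hfx]; exact q1
  have E1 : ∀ u w, F0.Adj u w → u ∈ H ∪ {x} → w ∈ H ∪ {x} → conc X' Y u w := by
    rintro u w a (hu | rfl) (hw | rfl)
    · unfold conc
      rw [sH _ hu, sH _ hw]; exact h.e1 u w a hu hw
    · exact (k1 u hu a.symm).symm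
    · exact k1 w hw a
    · exact absurd a (F0.irrefl)
  have hsym : ∀ v ∈ H ∪ {x}, θ v ∈ H ∪ {x} := by
    rintro v (hv | rfl)
    exacts [Or.inl (hs1 v hv), Or.inr hfx]
  have eq2 : θ ⁻¹' (H ∪ {x}) = H ∪ {x} :=
    Set.ext fun v => ⟨fun hv => by simpa only [hθ] using hsym _ hv, hsym v⟩
  refine ⟨H ∪ {x}, X', Y, ⟨Or.inl h.hb, Or.inl h.hc, cA, by rw [eq2]; exact cA, Or.inl hsym, g',
    E1, fun u w a hu hw => E1 u w a (by simpa only [hθ] using hsym _ hu)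
      (by simpa only [hθ] using hsym _ hw), ?_⟩, fun v hv => Or.inl hv, Or.inr rfl⟩
  rintro z (hz | rfl) hb hc <;> unfold out <;> rw [sH _ h.hb, sH _ h.hc]
  · rw [sH _ hz]; exact h.o z hz hb hc
  · exact Or.inl (far_out q2 (by linarith) (by linarith))

include hθ in
/-- pushing the two mirror halves apart -/
lemma Cl.shift (h : Cl θ F0 F1 b c H X Y) (hs1 : ∀ v ∈ H, θ v ∉ H) {K : Set V}
    (hK : ∀ v, v ∈ K ↔ v ∈ H ∨ θ v ∈ H ∨ v ∈ K ∧ θ v = v) (cK : Conn F1 K) (σ : ℝ) (hσ : σ ≠ 0)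
    (k1 : ∀ u w, F0.Adj u w → u ∈ H → θ w ∈ H → 0 < (X u - X w) * σ)
    (k2 : ∀ u w, F0.Adj u w → u ∈ H → w ∈ K → θ w = w → 0 < (X u - X w) * σ)
    (k3 : ∀ u w, F0.Adj u w → θ u ∈ H → w ∈ K → θ w = w → (X u - X w) * σ < 0)
    (k4 : ∀ u w, F0.Adj u w → θ u = u → θ w ≠ w) :
    ∃ X' Y', Cl θ F0 F1 b c K X' Y' := by
  classical
  set B : V → ℝ := fun v => if v ∈ H then σ else if θ v ∈ H then -σ else 0 with hB
  have B1 : ∀ v ∈ H, B v = σ := fun v hv => by simp [hB, hv]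
  have B2 : ∀ v, θ v ∈ H → B v = -σ := fun v hv => by
    have : v ∉ H := fun h' => hs1 v h' hv
    simp [hB, hv, this]
  have B3 : ∀ v, θ v = v → B v = 0 := fun v hv => by
    have : v ∉ H := fun h' => hs1 v h' (by rw [hv]; exact h')
    simp [hB, hv, this]
  obtain ⟨X', Y', g', r1, r2⟩ := lexGen h.gen (fun _ => 0) B (fun _ => rfl) (fun v => by
    by_cases h1 : v ∈ H
    · rw [B1 v h1, B2 _ (by rwa [hθ])]
    · by_cases h2 : θ v ∈ H
      · rw [B1 _ h2, B2 v h2, neg_neg]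
      · simp [hB, h1, h2, hθ])
  have hsym : ∀ v ∈ K, θ v ∈ K := fun v hv => by
    rcases (hK v).mp hv with t | t | t
    · exact (hK _).mpr (Or.inr (Or.inl (by rwa [hθ])))
    · exact (hK _).mpr (Or.inl t)
    · rw [t.2]; exact hv
  have eq2 : θ ⁻¹' K = K := Set.ext fun v => ⟨fun hv => by simpa only [hθ] using hsym _ hv, hsym v⟩
  have E : ∀ u w, F0.Adj u w → u ∈ K → w ∈ K → conc X' Y' u w := by
    intro u w a hu hw
    rcases (hK u).mp hu with t | t | t <;> rcases (hK w).mp hw with t' | t' | t'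
    · exact r1.eq_eq r2 rfl (by rw [B1 u t, B1 w t']) (h.e1 u w a t t')
    · exact r1.eq_ne r2 rfl (by rw [B1 u t, B2 w t']; linarith [k1 u w a t t'])
    · exact r1.eq_ne r2 rfl (by rw [B1 u t, B3 w t'.2]; linarith [k2 u w a t t'.1 t'.2])
    · exact r1.eq_ne r2 rfl (by rw [B2 u t, B1 w t']; linarith [k1 w u a.symm t' t])
    · exact r1.eq_eq r2 rfl (by rw [B2 u t, B2 w t']) (h.e2 u w a t t')
    · exact r1.eq_ne r2 rfl (by rw [B2 u t, B3 w t'.2]; linarith [k3 u w a t t'.1 t'.2])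
    · exact r1.eq_ne r2 rfl (by rw [B3 u t.2, B1 w t']; linarith [k2 w u a.symm t' t.1 t.2])
    · exact r1.eq_ne r2 rfl (by rw [B3 u t.2, B2 w t']; linarith [k3 w u a.symm t' t.1 t.2])
    · exact absurd t'.2 (k4 u w a t.2)
  refine ⟨X', Y', (hK b).mpr (Or.inl h.hb), (hK c).mpr (Or.inl h.hc), cK, by rw [eq2]; exact cK,
    Or.inl hsym, g', E, fun u w a hu hw => E u w a (by simpa only [hθ] using hsym _ hu)
      (by simpa only [hθ] using hsym _ hw), fun z hz hb hc => ?_⟩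
  have hσ2 : 0 < σ * σ := mul_self_pos.mpr hσ
  rcases (hK z).mp hz with t | t | t
  · exact (h.o z t hb hc).imp (fun p => r1.eq_eq r1 rfl rfl p)
      (fun p => r2.eq_eq r2 (by rw [B1 z t, B1 b h.hb]) (by rw [B1 z t, B1 c h.hc]) p)
  · exact Or.inr (r2.ne_ne r2 (by rw [B2 z t, B1 b h.hb, B1 c h.hc]; linarith))
  · exact Or.inr (r2.ne_ne r2 (by rw [B3 z t.2, B1 b h.hb, B1 c h.hc]; linarith))

include hθ hle hF hV in
lemma Cl.merge (h : Cl θ F0 F1 b c H X Y) (hs1 : ∀ v ∈ H, θ v ∉ H) {h1 h2 : V} (hh1 : h1 ∈ H)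
    (hh2 : θ h2 ∈ H) (a1 : F0.Adj h1 h2) :
    ∃ H' X' Y', Cl θ F0 F1 b c H' X' Y' ∧ H ⊆ H' ∧ h2 ∈ H' := by
  have hσ : X h1 - X h2 ≠ 0 := fun e => by
    rcases h.gen.gx _ _ (sub_eq_zero.mp e) with t | t
    · exact a1.ne t.symm
    · exact hV _ _ a1 (by rw [t, hθ, ← t]; exact a1.symm)
  obtain ⟨X', Y', hc⟩ := h.shift hθ hs1 (K := H ∪ θ ⁻¹' H) (fun v => ⟨fun t => t.imp id Or.inl,
      fun t => t.elim Or.inl fun t => t.elim Or.inr fun t => t.1⟩)
    (h.c1.union h.c2 hh1 hh2 (Or.inl (hle a1))) _ hσ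
    (fun u w a hu hw => by
      obtain ⟨rfl, rfl⟩ := hF.uniq h.c1 h.c2 hs1 hh1 hh2 hu hw (hle a1) (hle a)
      exact mul_self_pos.mpr hσ)
    (fun u w _ _ hw e => absurd (hw.elim id fun t => e ▸ t) fun t => hs1 w t (by rwa [e]))
    (fun u w _ _ hw e => absurd (hw.elim id fun t => e ▸ t) fun t => hs1 w t (by rwa [e]))
    (fun u w a e e' => hV _ _ a (by rwa [e, e']))
  exact ⟨_, X', Y', hc, fun v hv => Or.inl hv, Or.inr hh2⟩

include hθ hle hF hV in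
lemma Cl.ext_mid (h : Cl θ F0 F1 b c H X Y) (hs1 : ∀ v ∈ H, θ v ∉ H) {x h1 h2 : V}
    (hh1 : h1 ∈ H) (hh2 : h2 ∈ H) (a1 : F0.Adj x h1) (a2 : F0.Adj (θ x) (θ h2))
    (hfx : θ x = x) : ∃ H' X' Y', Cl θ F0 F1 b c H' X' Y' ∧ H ⊆ H' ∧ x ∈ H' := by
  have hx : x ∉ H := fun t => hs1 x t (by rwa [hfx])
  have h12 : X h1 ≠ X h2 := fun e => by
    rcases h.gen.gx _ _ e with t | t
    · exact hV _ _ a1 (t ▸ a2)
    · exact hs1 _ hh1 (t ▸ hh2)
  rw [hfx] at a2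
  obtain ⟨X', g', q1, hs⟩ := placeFix hθ h.gen hfx (O := {t : ℝ | (t - X h1) * (t - X h2) < 0})
    (isOpen_lt (by fun_prop) (by fun_prop)) ⟨(X h1 + X h2) / 2, by
      have := mul_self_pos.mpr (sub_ne_zero.mpr h12)
      change _ < (0 : ℝ)
      nlinarith⟩
  have sH : ∀ v ∈ H, X' v = X v := fun v hv => hs v (fun e => hx (e ▸ hv))
  have sK : ∀ v, θ v ∈ H → X' v = X v := fun v hv => hs v (fun e => hx (by rwa [e, hfx] at hv))
  have h' : Cl θ F0 F1 b c H X' Y := ⟨h.hb, h.hc, h.c1, h.c2, h.dj, g',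
    fun u w a hu hw => by unfold conc; rw [sH u hu, sH w hw]; exact h.e1 u w a hu hw,
    fun u w a hu hw => by unfold conc; rw [sK u hu, sK w hw]; exact h.e2 u w a hu hw,
    fun z hz hb hc => by unfold out; rw [sH z hz, sH b h.hb, sH c h.hc]; exact h.o z hz hb hc⟩
  have cA : Conn F1 (H ∪ {x}) := h.c1.union (Conn.single _ _) hh1 rfl (Or.inl (hle a1.symm))
  have m2 : θ h2 ∈ θ ⁻¹' H := by simpa [hθ] using hh2
  have dA : ∀ v ∈ H ∪ {x}, v ∉ θ ⁻¹' H := by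
    rintro v (hv | rfl)
    · exact hs1 v hv
    · exact fun t => hx (by rwa [Set.mem_preimage, hfx] at t)
  have fx : ∀ w, w ∈ H ∪ {x} ∪ θ ⁻¹' H → θ w = w → w = x := by
    rintro w ((t | t) | t) e
    · exact absurd (by rwa [e]) (hs1 w t)
    · exact t
    · exact absurd t (hs1 w (e ▸ t))
  have q2 : (X' x - X h1) * (X' x - X h2) < 0 := q1
  have hσ : X h1 - X' x ≠ 0 := fun e => by rw [← sub_eq_zero.mp e] at q2; simp at q2
  obtain ⟨X'', Y'', hc⟩ := h'.shift hθ hs1 (K := H ∪ {x} ∪ θ ⁻¹' H)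
    (fun v => ⟨fun t => by
      rcases t with (t | t) | t
      exacts [Or.inl t, Or.inr (Or.inr ⟨Or.inl (Or.inr t), by rw [t]; exact hfx⟩), Or.inr (Or.inl t)],
      fun t => t.elim (fun t => Or.inl (Or.inl t)) fun t => t.elim Or.inr fun t => t.1⟩)
    (cA.union h.c2 (Or.inr rfl) m2 (Or.inl (hle a2))) _ hσ
    (fun u w a hu hw => absurd ((hF.uniq cA h.c2 dA (Or.inr rfl) m2 (Or.inl hu) hw (hle a2)
      (hle a)).1 ▸ hu) hx)
    (fun u w a hu hw e => by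
      obtain rfl := fx w hw e
      obtain rfl := (hF.uniq h.c1 (Conn.single _ w) (fun v hv e => hx (e ▸ hv)) hh1 rfl hu rfl
        (hle a1.symm) (hle a)).1
      rw [sH _ hu]
      exact mul_self_pos.mpr hσ)
    (fun u w a hu hw e => by
      obtain rfl := fx w hw e
      obtain rfl := (hF.uniq cA h.c2 dA (Or.inr rfl) m2 (Or.inr rfl) hu (hle a2) (hle a.symm)).2
      rw [g'.sx, sH _ hh2]
      linarith)
    (fun u w a e e' => hV _ _ a (by rwa [e, e']))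
  exact ⟨_, X'', Y'', hc, fun v hv => Or.inl (Or.inl hv), Or.inl (Or.inr rfl)⟩

end

end Pool.Agent.H61.Sym
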