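import Pool.Agent.H61.SymB

set_option autoImplicit false

namespace Pool.Agent.H61.Sym

def IH (n : ℕ) : Prop := ∀ (W : Type) [Finite W] (θ : W → W) (F : SimpleGraph W),
  (∀ v, θ (θ v) = v) → Forest F → Valid θ F → F.edgeSet.ncard ≤ n → Realz θ F

variable {V : Type}

def Goal (θ : V → V) (F0 : SimpleGraph V) (b c : V) : Prop :=
  ∃ X Y, Gen θ X Y ∧ (∀ u w, F0.Adj u w → conc X Y u w) ∧ ∀ a, a ≠ b → a ≠ c → out X Y a b c

section
variable [Finite V] {θ : V → V} (hθ : ∀ v, θ (θ v) = v) {F0 F1 : SimpleGraph V} (hle : F0 ≤ F1)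
  (hF : Forest F1) (hV : Valid θ F0) {b c : V} {H : Set V} {X Y : V → ℝ}

include hθ hle hF hV in
lemma Cl.quot (h : Cl θ F0 F1 b c H X Y) (ih : IH F0.edgeSet.ncard)
    (N1 : ∀ x h1 h2, x ∉ H → θ x ∉ H → h1 ∈ H → h2 ∈ H → F0.Adj x h1 → ¬ F0.Adj (θ x) (θ h2))
    (N2 : ∀ h1 h2, h1 ∈ H → θ h2 ∈ H → h2 ∉ H → ¬ F0.Adj h1 h2) : Goal θ F0 b c := by
  let r : V → V → Prop := fun u w => u = w ∨ (u ∈ H ∧ w ∈ H) ∨ (θ u ∈ H ∧ θ w ∈ H)
  have both : ∀ v, v ∈ H → θ v ∈ H → ∀ u, (u ∈ H ↔ θ u ∈ H) := fun v h1 h2 u => by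
    rcases h.dj with t | t
    · exact ⟨t u, fun e => by simpa [hθ] using t _ e⟩
    · exact absurd h2 (t v h1)
  let S : Setoid V := ⟨r, fun u => Or.inl rfl, fun t => t.imp Eq.symm (Or.imp And.symm And.symm),
    by
      rintro u v w (rfl | t | t) (rfl | t' | t')
      · exact Or.inl rfl
      · exact Or.inr (Or.inl t')
      · exact Or.inr (Or.inr t')
      · exact Or.inr (Or.inl t)
      · exact Or.inr (Or.inl ⟨t.1, t'.2⟩)
      · exact Or.inr (Or.inl ⟨t.1, (both v t.2 t'.1 w).mpr t'.2⟩)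
      · exact Or.inr (Or.inr t)
      · exact Or.inr (Or.inl ⟨(both v t'.1 t.2 u).mpr t.1, t'.2⟩)
      · exact Or.inr (Or.inr ⟨t.1, t'.2⟩)⟩
  have rθ : ∀ u w, r u w → r (θ u) (θ w) := by
    rintro u w (rfl | t | t)
    · exact Or.inl rfl
    · exact Or.inr (Or.inr (by simpa [hθ] using t))
    · exact Or.inr (Or.inl t)
  let π : V → Quotient S := Quotient.mk S
  have πe : ∀ u w, π u = π w ↔ r u w := fun u w => Quotient.eq
  let θW : Quotient S → Quotient S := Quotient.map θ rθ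
  have θπ : ∀ u, θW (π u) = π (θ u) := fun u => rfl
  have θ2 : ∀ P, θW (θW P) = P := fun P => by
    induction P using Quotient.inductionOn with
    | h u => exact congrArg π (hθ u)
  let FW : SimpleGraph (Quotient S) :=
    ⟨fun P Q => P ≠ Q ∧ ∃ u w, π u = P ∧ π w = Q ∧ F0.Adj u w,
      ⟨fun P Q ⟨t, u, w, a, b, e⟩ => ⟨t.symm, w, u, b, a, e.symm⟩⟩, ⟨fun P t => t.1 rfl⟩⟩
  have f1 : Forest FW := by
    rintro P Q ⟨hne, u, w, rfl, rfl, e⟩
    obtain ⟨g, hg, hg2⟩ := hF u w (hle e)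
    have nr : ¬ r u w := fun t => hne ((πe u w).mpr t)
    have a1 := h.c1 g fun p q a hp hq => hg2 p q a fun he => by
      rcases Sym2.eq_iff.mp he with ⟨rfl, rfl⟩ | ⟨rfl, rfl⟩
      exacts [nr (Or.inr (Or.inl ⟨hp, hq⟩)), nr (Or.inr (Or.inl ⟨hq, hp⟩))]
    have a2 := h.c2 g fun p q a hp hq => hg2 p q a fun he => by
      rcases Sym2.eq_iff.mp he with ⟨rfl, rfl⟩ | ⟨rfl, rfl⟩
      exacts [nr (Or.inr (Or.inr ⟨hp, hq⟩)), nr (Or.inr (Or.inr ⟨hq, hp⟩))]
    refine ⟨Quotient.lift g ?_, hg, ?_⟩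
    · rintro p q (rfl | t | t)
      exacts [rfl, a1 p t.1 q t.2, a2 p t.1 q t.2]
    · rintro _ _ ⟨-, p, q, rfl, rfl, a⟩ hs
      refine hg2 p q (hle a) fun he => hs ?_
      rcases Sym2.eq_iff.mp he with ⟨rfl, rfl⟩ | ⟨rfl, rfl⟩
      exacts [rfl, Sym2.eq_swap]
  have key : ∀ u w u' w', F0.Adj u w → F0.Adj (θ u') (θ w') → ¬ r u w → r u u' →
      ((w ∈ H ∧ w' ∈ H) ∨ (θ w ∈ H ∧ θ w' ∈ H)) → False := by
    intro u w u' w' a a' nr ru rw'
    by_cases m : u ∈ H ∨ θ u ∈ H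
    · rcases rw' with t | t <;> rcases m with m | m
      · exact nr (Or.inr (Or.inl ⟨m, t.1⟩))
      · exact N2 w u t.1 m (fun e => nr (Or.inr (Or.inl ⟨e, t.1⟩))) a.symm
      · exact N2 u w m t.1 (fun e => nr (Or.inr (Or.inl ⟨m, e⟩))) a
      · exact nr (Or.inr (Or.inr ⟨m, t.1⟩))
    · push Not at m
      obtain rfl : u = u' := ru.elim id fun t => t.elim (fun t => absurd t.1 m.1)
        (fun t => absurd t.1 m.2)
      rcases rw' with t | t
      · exact N1 u w w' m.1 m.2 t.1 t.2 a a'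
      · exact N1 (θ u) (θ w') (θ w) m.2 (by rw [hθ]; exact m.1) t.2 t.1 a' (by rwa [hθ, hθ])
  have f2 : Valid θW FW := by
    rintro _ _ ⟨hne, u, w, rfl, rfl, a⟩ ⟨-, p, q, e1, e2, a'⟩
    have nr : ¬ r u w := fun t => hne ((πe u w).mpr t)
    have r1 : r u (θ p) := by simpa only [hθ] using rθ _ _ ((πe _ _).mp (e1.trans (θπ u)).symm)
    have r2 : r w (θ q) := by simpa only [hθ] using rθ _ _ ((πe _ _).mp (e2.trans (θπ w)).symm)
    have a2 : F0.Adj (θ (θ p)) (θ (θ q)) := by rwa [hθ, hθ]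
    rcases r2 with rfl | t
    · rcases r1 with rfl | t
      · exact hV _ _ a a2
      · exact key _ _ _ _ a.symm a2.symm (fun t => nr (S.symm t)) (Or.inl rfl) t
    · exact key _ _ _ _ a a2 nr r1 t
  have f3 : FW.edgeSet.ncard ≤ F0.edgeSet.ncard := by
    refine le_trans (Set.ncard_le_ncard (t := Sym2.map π '' F0.edgeSet) ?_) (Set.ncard_image_le)
    intro e he
    induction e using Sym2.ind with
    | h P Q =>
      obtain ⟨-, u, w, rfl, rfl, a⟩ := he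
      exact ⟨s(u, w), a, rfl⟩
  obtain ⟨XW, YW, gW, eW⟩ := ih _ θW FW θ2 f1 f2 f3
  obtain ⟨X', Y', g', r1, r2⟩ := lexGen h.gen (fun v => XW (π v)) (fun v => YW (π v))
    (fun v => gW.sx (π v)) (fun v => gW.sy (π v))
  refine ⟨X', Y', g', fun u w a => ?_, fun a hb hc => ?_⟩
  · by_cases e : π u = π w
    · refine r1.eq_eq r2 (by simp only [e]) (by simp only [e]) ?_
      rcases (πe u w).mp e with t | t | t
      exacts [absurd t a.ne, h.e1 u w a t.1 t.2, h.e2 u w a t.1 t.2]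
    · exact r1.ne_ne r2 (eW _ _ ⟨e, u, w, rfl, rfl, a⟩)
  · have ebc : π c = π b := (πe c b).mpr (Or.inr (Or.inl ⟨h.hc, h.hb⟩))
    by_cases e : π a = π b
    · have ha : a ∈ H := by
        rcases (πe a b).mp e with t | t | t
        exacts [absurd t hb, t.1, (both b h.hb t.2 a).mpr t.1]
      exact (h.o a ha hb hc).imp
        (fun p => r1.eq_eq r1 (by simp only [e]) (by simp only [e, ebc]) p)
        (fun p => r2.eq_eq r2 (by simp only [e]) (by simp only [e, ebc]) p)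
    · exact (gW.ne e).imp
        (fun p => r1.ne_ne r1 (by simp only [ebc]; exact mul_self_pos.mpr (sub_ne_zero.mpr p)))
        (fun p => r2.ne_ne r2 (by simp only [ebc]; exact mul_self_pos.mpr (sub_ne_zero.mpr p)))

include hθ hle hF hV in
lemma Cl.goal (ih : IH F0.edgeSet.ncard) : ∀ (n : ℕ) (H : Set V) (X Y : V → ℝ),
    Cl θ F0 F1 b c H X Y → Hᶜ.ncard = n → Goal θ F0 b c := by
  intro n
  induction n using Nat.strong_induction_on with
  | h n ihn =>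
    intro H X Y h hn
    have step : ∀ x, x ∉ H → (∃ H' X' Y', Cl θ F0 F1 b c H' X' Y' ∧ H ⊆ H' ∧ x ∈ H') →
        Goal θ F0 b c := by
      rintro x hx ⟨H', X', Y', h', s1, s2⟩
      refine ihn _ ?_ H' X' Y' h' rfl
      rw [← hn]
      exact Set.ncard_lt_ncard ⟨Set.compl_subset_compl.mpr s1, fun t => t hx s2⟩
    by_cases N1 : ∀ x h1 h2, x ∉ H → θ x ∉ H → h1 ∈ H → h2 ∈ H → F0.Adj x h1 →
        ¬ F0.Adj (θ x) (θ h2)
    · by_cases N2 : ∀ h1 h2, h1 ∈ H → θ h2 ∈ H → h2 ∉ H → ¬ F0.Adj h1 h2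
      · exact h.quot hθ hle hF hV ih N1 N2
      · push Not at N2
        obtain ⟨h1, h2, m1, m2, m3, a⟩ := N2
        rcases h.dj with t | t
        · exact absurd (by simpa [hθ] using t _ m2) m3
        · exact step h2 m3 (h.merge hθ hle hF hV t m1 m2 a)
    · push Not at N1
      obtain ⟨x, h1, h2, m1, m2, m3, m4, a, a'⟩ := N1
      refine step x m1 ?_
      by_cases hx : θ x = x
      · rcases h.dj with t | t
        · exact h.ext_fix hθ hle hF hV t m1 m3 a hx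
        · exact h.ext_mid hθ hle hF hV t m3 m4 a a' hx
      · exact h.ext_free hθ hle hF hV m1 m2 m3 m4 a a' hx

include hθ hle hF hV in
lemma blocked (ih : IH F0.edgeSet.ncard) (hF0 : Forest F0) (e1 : F1.Adj (θ b) (θ c))
    (e2 : F1.Adj b c) : Goal θ F0 b c := by
  obtain ⟨X, Y, g, e⟩ := ih V θ F0 hθ hF0 hV le_rfl
  have c1 : Conn F1 ({b} ∪ {c}) := (Conn.single _ b).union (Conn.single _ c) rfl rfl (Or.inl e2)
  have c2 : Conn F1 ({θ b} ∪ {θ c}) :=
    (Conn.single _ _).union (Conn.single _ _) rfl rfl (Or.inl e1)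
  have t1 : ∀ v w, θ v = w ↔ v = θ w := fun v w =>
    ⟨fun e => by rw [← e, hθ], fun e => by rw [e, hθ]⟩
  have eq1 : θ ⁻¹' ({b} ∪ {c}) = {θ b} ∪ {θ c} := Set.ext fun v => or_congr (t1 v b) (t1 v c)
  by_cases dj : (∀ v ∈ ({b} ∪ {c} : Set V), θ v ∈ ({b} ∪ {c} : Set V)) ∨
      (∀ v ∈ ({b} ∪ {c} : Set V), θ v ∉ ({b} ∪ {c} : Set V))
  · exact Cl.goal hθ hle hF hV ih _ _ X Y ⟨Or.inl rfl, Or.inr rfl, c1, eq1 ▸ c2, dj, g,
      fun u w a _ _ => e u w a, fun u w a _ _ => e u w a,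
      fun z hz hb hc => (hz.elim hb hc).elim⟩ rfl
  · have hsym : ∀ v ∈ (({b} ∪ {c}) ∪ ({θ b} ∪ {θ c}) : Set V),
        θ v ∈ (({b} ∪ {c}) ∪ ({θ b} ∪ {θ c}) : Set V) := by
      rintro v ((rfl | rfl) | (rfl | rfl))
      exacts [Or.inr (Or.inl rfl), Or.inr (Or.inr rfl), Or.inl (Or.inl (hθ _)),
        Or.inl (Or.inr (hθ _))]
    have eq2 : θ ⁻¹' (({b} ∪ {c}) ∪ ({θ b} ∪ {θ c})) = ({b} ∪ {c}) ∪ ({θ b} ∪ {θ c}) :=
      Set.ext fun v => ⟨fun hv => by simpa only [hθ] using hsym _ hv, hsym v⟩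
    push Not at dj
    obtain ⟨⟨v, hv, hv'⟩, u, hu, hu'⟩ := dj
    have c3 : Conn F1 (({b} ∪ {c}) ∪ ({θ b} ∪ {θ c})) :=
      c1.union c2 (p := θ u) (q := θ u) hu' (by rw [← eq1]; simpa only [Set.mem_preimage, hθ] using hu)
        (Or.inr rfl)
    have hf : θ b = b ∨ θ c = c := by
      rcases hu with rfl | rfl <;> rcases hu' with t | t
      · exact Or.inl t
      · rcases hv with rfl | rfl
        · exact absurd (Or.inr t) hv'
        · exact absurd (Or.inl (((t1 _ _).mp t).symm)) hv'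
      · rcases hv with rfl | rfl
        · exact absurd (Or.inr (((t1 _ _).mp t).symm)) hv'
        · exact absurd (Or.inl t) hv'
      · exact Or.inr t
    refine Cl.goal hθ hle hF hV ih _ _ X Y ⟨Or.inl (Or.inl rfl), Or.inl (Or.inr rfl), c3,
      eq2.symm ▸ c3, Or.inl hsym, g, fun u w a _ _ => e u w a, fun u w a _ _ => e u w a, ?_⟩ rfl
    rintro z (hz | rfl | rfl) hb hc
    · exact (hz.elim hb hc).elim
    · have t : θ c = c := hf.resolve_left hb
      have y : Y b ≠ 0 := fun e => hb (g.gy b e)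
      refine Or.inr ?_
      rw [g.sy, g.fix t]
      nlinarith [mul_self_pos.mpr y]
    · have t : θ b = b := hf.resolve_right hc
      have y : Y c ≠ 0 := fun e => hc (g.gy c e)
      refine Or.inr ?_
      rw [g.sy, g.fix t]
      nlinarith [mul_self_pos.mpr y]

end

end Pool.Agent.H61.Sym
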