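import Pool.Agent.H61.SymC

set_option autoImplicit false

namespace Pool.Agent.H61.Sym

variable {V : Type}

lemma Forest.count [Finite V] {F : SimpleGraph V} (hF : Forest F) {W : Type} [Finite W]
    (π : V → W) (hπ : Function.Surjective π) (ha : ∀ u w, F.Adj u w → π u = π w) :
    F.edgeSet.ncard + Nat.card W ≤ Nat.card V := by
  classical
  have := Fintype.ofFinite V
  have := Fintype.ofFinite W
  have := Fintype.ofFinite F.edgeSet
  let T : (V → ℝ) →ₗ[ℝ] (F.edgeSet → ℝ) :=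
    ⟨⟨fun g e => g e.1.out.1 - g e.1.out.2, fun g h => by ext e; simp only [Pi.add_apply]; ring⟩,
      fun c g => by ext e; simp only [Pi.smul_apply, smul_eq_mul, RingHom.id_apply]; ring⟩
  have ho : ∀ e : F.edgeSet, s(e.1.out.1, e.1.out.2) = e.1 := fun e => e.1.out_eq
  have hadj : ∀ e : F.edgeSet, F.Adj e.1.out.1 e.1.out.2 := fun e => by
    rw [← SimpleGraph.mem_edgeSet, ho]; exact e.2
  have hs : LinearMap.range T = ⊤ := by
    rw [eq_top_iff, ← (Pi.basisFun ℝ F.edgeSet).span_eq, Submodule.span_le]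
    rintro _ ⟨e, rfl⟩
    obtain ⟨g, hg, hg2⟩ := hF _ _ (hadj e)
    refine ⟨(g e.1.out.1 - g e.1.out.2)⁻¹ • g, ?_⟩
    rw [map_smul]
    ext e'
    by_cases he : e' = e
    · subst he
      simp [T, inv_mul_cancel₀ (sub_ne_zero.mpr hg)]
    · have := hg2 _ _ (hadj e') (by rw [ho, ho]; exact fun t => he (Subtype.ext t))
      simp [T, this, he]
  have h1 := T.finrank_range_add_finrank_ker
  have h2 : LinearMap.range (LinearMap.funLeft ℝ ℝ π) ≤ LinearMap.ker T := by
    rintro _ ⟨φ, rfl⟩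
    ext e
    simp [T, ha _ _ (hadj e)]
  have h3 := Submodule.finrank_mono h2
  rw [LinearMap.finrank_range_of_inj (LinearMap.funLeft_injective_of_surjective ℝ ℝ π hπ)] at h3
  rw [hs, finrank_top] at h1
  simp only [Module.finrank_fintype_fun_eq_card] at h1 h3
  rw [← Nat.card_coe_set_eq, Nat.card_eq_fintype_card, Nat.card_eq_fintype_card,
    Nat.card_eq_fintype_card]
  omega

lemma exists_low [Finite V] {θ : V → V} (hθ : ∀ v, θ (θ v) = v) {F : SimpleGraph V}
    (hF : Forest F) {x y : V} (hxy : F.Adj x y) :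
    ∃ w, (F.neighborSet w).ncard ≤ (F.neighborSet (θ w)).ncard ∧
      1 ≤ (F.neighborSet (θ w)).ncard ∧
      (F.neighborSet w).ncard + (F.neighborSet (θ w)).ncard ≤ 3 := by
  classical
  have := Fintype.ofFinite V
  set d : V → ℕ := fun v => (F.neighborSet v).ncard with hd
  have dp : ∀ u w, F.Adj u w → 0 < d u := fun u w a =>
    (Set.ncard_pos (Set.toFinite _)).mpr ⟨w, a⟩
  suffices h : ∃ w, 1 ≤ d w + d (θ w) ∧ d w + d (θ w) ≤ 3 by
    obtain ⟨w, h1, h2⟩ := h
    rcases le_total (d w) (d (θ w)) with t | t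
    · exact ⟨w, t, by change 1 ≤ d (θ w); omega, h2⟩
    · refine ⟨θ w, ?_⟩
      rw [hθ]
      exact ⟨t, by change 1 ≤ d w; omega, by change d (θ w) + d w ≤ 3; omega⟩
  by_contra hc
  push Not at hc
  let π : V → Option {v // d v + d (θ v) = 0} := fun v =>
    if h : d v + d (θ v) = 0 then some ⟨v, h⟩ else none
  have h1 := hF.count π (by
    rintro (_ | ⟨v, hv⟩)
    · exact ⟨x, dif_neg (by have := dp x y hxy; omega)⟩
    · exact ⟨v, dif_pos hv⟩) (fun u w a => by
      have := dp u w a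
      have := dp w u a.symm
      simp only [π]
      rw [dif_neg (by omega), dif_neg (by omega)])
  have h2 : ∑ v, d v = 2 * F.edgeSet.ncard := by
    have := F.sum_degrees_eq_twice_card_edges
    rw [Set.ncard_eq_toFinset_card', ← SimpleGraph.edgeFinset, ← this]
    refine Finset.sum_congr rfl fun v _ => ?_
    simp only [hd, Set.ncard_eq_toFinset_card']
    rfl
  have h3 : ∑ v, d (θ v) = ∑ v, d v :=
    Equiv.sum_comp (Function.Involutive.toPerm θ hθ) d
  have h4 : ∑ v, (if d v + d (θ v) = 0 then 0 else 4) ≤ ∑ v, (d v + d (θ v)) :=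
    Finset.sum_le_sum fun v _ => by
      split_ifs with t
      · omega
      · have := hc v (by omega); omega
  rw [Finset.sum_add_distrib, h3, h2, Finset.sum_ite] at h4
  have h5 := Finset.card_filter_add_card_filter_not (s := Finset.univ)
    (fun v => d v + d (θ v) = 0)
  rw [Nat.card_eq_fintype_card, Nat.card_eq_fintype_card, Fintype.card_option,
    Fintype.card_subtype] at h1
  simp only [Finset.sum_const, smul_eq_mul, Finset.card_univ] at h4 h5
  omega

/-- the graph with all edges at `w` and at its mirror image removed -/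
def cut (θ : V → V) (F : SimpleGraph V) (w : V) : SimpleGraph V :=
  ⟨fun u v => F.Adj u v ∧ (u ≠ w ∧ u ≠ θ w) ∧ v ≠ w ∧ v ≠ θ w,
    ⟨fun _ _ h => ⟨h.1.symm, h.2.2, h.2.1⟩⟩, ⟨fun _ h => h.1.ne rfl⟩⟩

lemma finish [Finite V] {θ : V → V} (hθ : ∀ v, θ (θ v) = v) {F : SimpleGraph V} (hV : Valid θ F)
    {w : V} (hw : θ w ≠ w) {X Y : V → ℝ} (g : Gen θ X Y)
    (e : ∀ u v, (cut θ F w).Adj u v → conc X Y u v) {x y : ℝ}
    (h1 : ∀ a, F.Adj w a → 0 < (x - X a) * (y - Y a))
    (h2 : ∀ a, F.Adj (θ w) (θ a) → (x - X a) * (y - Y a) < 0) : Realz θ F := by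
  obtain ⟨X', Y', g', q, hs⟩ := place hθ g hw
    (O := ⋂ a, {q : ℝ × ℝ | F.Adj w a → 0 < (q.1 - X a) * (q.2 - Y a)} ∩
      {q : ℝ × ℝ | F.Adj (θ w) (θ a) → (q.1 - X a) * (q.2 - Y a) < 0})
    (isOpen_iInter_of_finite fun a => IsOpen.inter (by
      by_cases t : F.Adj w a
      · simp only [t, true_implies]; apply isOpen_lt <;> fun_prop
      · simp [t]) (by
      by_cases t : F.Adj (θ w) (θ a)
      · simp only [t, true_implies]; apply isOpen_lt <;> fun_prop
      · simp [t])) ⟨(x, y), Set.mem_iInter.mpr fun a => ⟨h1 a, h2 a⟩⟩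
  have q' := Set.mem_iInter.mp q
  have nw : ¬ F.Adj w (θ w) := fun t => hV _ _ t (by rw [hθ]; exact t.symm)
  have k1 : ∀ v, F.Adj w v → conc X' Y' w v := fun v a => by
    obtain ⟨s1, s2⟩ := hs v a.ne' (fun t => nw (t ▸ a))
    unfold conc
    rw [s1, s2]; exact (q' v).1 a
  have k2 : ∀ v, F.Adj (θ w) v → conc X' Y' (θ w) v := fun v a => by
    obtain ⟨v, rfl⟩ : ∃ u, v = θ u := ⟨θ v, (hθ v).symm⟩
    obtain ⟨s1, s2⟩ := hs v (fun t => a.ne (by rw [t])) (fun t => nw (by rw [t, hθ] at a; exact a.symm))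
    have := (q' v).2 a
    unfold conc
    rw [g'.sx, g'.sy, g'.sx, g'.sy, s1, s2]
    linarith
  refine ⟨X', Y', g', fun u v a => ?_⟩
  by_cases t1 : u = w
  · exact t1 ▸ k1 v (t1 ▸ a)
  by_cases t2 : u = θ w
  · exact t2 ▸ k2 v (t2 ▸ a)
  by_cases t3 : v = w
  · exact t3 ▸ (k1 u (t3 ▸ a.symm)).symm
  by_cases t4 : v = θ w
  · exact t4 ▸ (k2 u (t4 ▸ a.symm)).symm
  unfold conc
  rw [(hs u t1 t2).1, (hs u t1 t2).2, (hs v t3 t4).1, (hs v t3 t4).2]
  exact e u v ⟨a, ⟨t1, t2⟩, t3, t4⟩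

lemma Forest.mono {F F' : SimpleGraph V} (h : Forest F) (hle : F' ≤ F) : Forest F' :=
  fun x y a => (h x y (hle a)).imp fun _ t => ⟨t.1, fun u w a' => t.2 u w (hle a')⟩

lemma step3 [Finite V] {θ : V → V} (hθ : ∀ v, θ (θ v) = v) {F : SimpleGraph V} (hF : Forest F)
    (hV : Valid θ F) {n : ℕ} (ih : IH n) (hn : F.edgeSet.ncard ≤ n + 1) {w a b c : V}
    (ha : F.Adj w a) (hb : F.Adj (θ w) (θ b)) (hc : F.Adj (θ w) (θ c)) (hbc : b ≠ c) :
    ∃ X Y, Gen θ X Y ∧ (∀ u v, (cut θ F w).Adj u v → conc X Y u v) ∧ ∃ x y,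
      0 < (x - X a) * (y - Y a) ∧ (x - X b) * (y - Y b) < 0 ∧ (x - X c) * (y - Y c) < 0 := by
  have hab : a ≠ b := fun t => hV _ _ ha (t ▸ hb)
  have hac : a ≠ c := fun t => hV _ _ ha (t ▸ hc)
  have hbc' : θ b ≠ θ c := fun t => hbc (by rw [← hθ b, t, hθ])
  have l0 : cut θ F w ≤ F := fun _ _ t => t.1
  have f0 := hF.mono l0
  have v0 : Valid θ (cut θ F w) := fun u v t t' => hV u v t.1 t'.1
  let F1 := cut θ F w ⊔ SimpleGraph.edge (θ b) (θ c)
  have ad : ∀ u v, F1.Adj u v → (cut θ F w).Adj u v ∨ s(u, v) = s(θ b, θ c) := fun u v t =>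
    t.imp id fun t => Sym2.eq_iff.mpr ((SimpleGraph.edge_adj _ _ _ _).mp t).1
  have e1 : F1.Adj (θ b) (θ c) := Or.inr ((SimpleGraph.edge_adj _ _ _ _).mpr ⟨Or.inl ⟨rfl, rfl⟩, hbc'⟩)
  have ne0 : ∀ u v z, (cut θ F w).Adj u v → s(u, v) ≠ s(θ w, z) := fun u v z t e => by
    rcases Sym2.eq_iff.mp e with e | e
    exacts [t.2.1.2 e.1, t.2.2.2 e.2]
  have nbc : s(θ w, θ c) ≠ s(θ w, θ b) := fun e => hbc' (Sym2.congr_right.mp e).symm
  have f1 : Forest F1 := by
    intro x y t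
    rcases ad x y t with t | t
    · obtain ⟨g, g1, g2⟩ := hF x y t.1
      refine ⟨g, g1, fun u v t' hne => ?_⟩
      rcases ad u v t' with t' | t'
      · exact g2 u v t'.1 hne
      · have := (g2 _ _ hb (ne0 x y _ t).symm).symm.trans (g2 _ _ hc (ne0 x y _ t).symm)
        rcases Sym2.eq_iff.mp t' with ⟨rfl, rfl⟩ | ⟨rfl, rfl⟩
        exacts [this, this.symm]
    · obtain ⟨g, g1, g2⟩ := hF _ _ hb
      have := g2 _ _ hc nbc
      refine ⟨g, ?_, fun u v t' hne => ?_⟩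
      · rcases Sym2.eq_iff.mp t with ⟨rfl, rfl⟩ | ⟨rfl, rfl⟩
        exacts [this ▸ g1.symm, this ▸ g1]
      · rcases ad u v t' with t' | t'
        · exact g2 u v t'.1 (ne0 u v _ t')
        · exact absurd (t'.trans t.symm) hne
  have c1 : (insert s(θ w, θ b) (cut θ F w).edgeSet).ncard < F.edgeSet.ncard := by
    refine Set.ncard_lt_ncard ⟨Set.insert_subset hb (SimpleGraph.edgeSet_mono l0), fun t => ?_⟩
    rcases t (show s(θ w, θ c) ∈ F.edgeSet from hc) with t | t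
    exacts [nbc t, ne0 _ _ _ t rfl]
  rw [Set.ncard_insert_of_notMem (show s(θ w, θ b) ∉ (cut θ F w).edgeSet from
    fun t => ne0 _ _ _ t rfl)] at c1
  by_cases e2 : F1.Adj b c
  · obtain ⟨X, Y, g, e, o⟩ := blocked hθ le_sup_left f1 v0
      (fun W _ θ F a b c d => ih W θ F a b c (by omega)) f0 e1 e2
    obtain ⟨x, y, p1, p2, p3, -⟩ := P3out 0 (o a hab hac)
    exact ⟨X, Y, g, e, x, y, p1, p2, p3⟩
  · obtain ⟨X, Y, g, e⟩ := ih V θ F1 hθ f1 (fun u v t t' => by
      rcases ad _ _ t with s | s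
      · rcases ad _ _ t' with s' | s'
        · exact v0 u v s s'
        · rcases Sym2.eq_iff.mp s' with ⟨s1, s2⟩ | ⟨s1, s2⟩
          · rw [← hθ u, ← hθ v, s1, s2, hθ, hθ] at t; exact e2 t
          · rw [← hθ u, ← hθ v, s1, s2, hθ, hθ] at t; exact e2 t.symm
      · rcases Sym2.eq_iff.mp s with ⟨rfl, rfl⟩ | ⟨rfl, rfl⟩ <;> rw [hθ, hθ] at t'
        exacts [e2 t', e2 t'.symm]) (by
      refine le_trans (Set.ncard_le_ncard (t := insert s(θ b, θ c) (cut θ F w).edgeSet) ?_)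
        (le_trans (Set.ncard_insert_le _ _) (by omega))
      intro e he
      induction e using Sym2.ind with
      | h u v => exact (ad u v he).symm)
    have := e _ _ e1
    unfold conc at this
    rw [g.sx, g.sx, g.sy, g.sy] at this
    obtain ⟨x, y, p⟩ := P3disc (xa := X a) (ya := Y a) (xb := X b) (yb := Y b) (xc := X c)
      (yc := Y c) (by linarith) (g.ne hab) (g.ne hac)
    exact ⟨X, Y, g, fun u v t => e u v (Or.inl t), x, y, p⟩

theorem realz (n : ℕ) : IH n := by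
  have base : ∀ (W : Type) [Finite W] (θ : W → W) (F : SimpleGraph W), (∀ v, θ (θ v) = v) →
      (∀ x y, ¬ F.Adj x y) → Realz θ F := fun W _ θ F hθ h =>
    (exists_gen hθ).imp fun X t => t.imp fun Y g => ⟨g, fun u w a => absurd a (h u w)⟩
  induction n with
  | zero =>
    intro V _ θ F hθ _ _ hn
    refine base V θ F hθ fun x y a => ?_
    have := (Set.ncard_pos (Set.toFinite F.edgeSet)).mpr ⟨s(x, y), a⟩
    omega
  | succ n ih =>
    intro V _ θ F hθ hF hV hn
    by_cases he : ∀ x y, ¬ F.Adj x y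
    · exact base V θ F hθ he
    push Not at he
    obtain ⟨x, y, hxy⟩ := he
    obtain ⟨w, d1, d2, d3⟩ := exists_low hθ hF hxy
    obtain ⟨z, hz⟩ := (Set.ncard_pos (Set.toFinite _)).mp d2
    have l0 : cut θ F w ≤ F := fun _ _ t => t.1
    obtain ⟨X, Y, g, e⟩ := ih V θ (cut θ F w) hθ (hF.mono l0) (fun u v t t' => hV u v t.1 t'.1) (by
      have : (cut θ F w).edgeSet.ncard < F.edgeSet.ncard :=
        Set.ncard_lt_ncard ⟨SimpleGraph.edgeSet_mono l0,
          fun t => (t (show s(θ w, z) ∈ F.edgeSet from hz)).2.1.2 rfl⟩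
      omega)
    by_cases h0 : (F.neighborSet w).ncard = 0
    · have hw : θ w ≠ w := fun t => by rw [t] at d2; omega
      rw [Set.ncard_eq_zero] at h0
      obtain ⟨m, hm⟩ := (Set.finite_range X).bddBelow
      obtain ⟨M, hM⟩ := (Set.finite_range Y).bddAbove
      exact finish hθ hV hw g e (x := m - 1) (y := M + 1)
        (fun a t => absurd (show a ∈ F.neighborSet w from t) (by simp [h0]))
        (fun a _ => mul_neg_of_neg_of_pos (by linarith [hm ⟨a, rfl⟩]) (by linarith [hM ⟨a, rfl⟩]))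
    obtain ⟨a, h1⟩ := Set.ncard_eq_one.mp (show (F.neighborSet w).ncard = 1 by omega)
    have na : ∀ v, F.Adj w v ↔ v = a := fun v => by
      rw [← SimpleGraph.mem_neighborSet, h1]; rfl
    have ha := (na a).mpr rfl
    by_cases hw : θ w = w
    · have hy : Y a ≠ 0 := fun t => hV _ _ ha (by rw [hw, g.gy _ t]; exact ha)
      obtain ⟨X', g', q, hs⟩ := placeFix hθ g hw (O := {t : ℝ | 0 < (t - X a) * (0 - Y a)})
        (isOpen_lt (by fun_prop) (by fun_prop)) ⟨X a - Y a, by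
          change (0 : ℝ) < _
          nlinarith [mul_self_pos.mpr hy]⟩
      have k : ∀ v, F.Adj w v → conc X' Y w v := fun v t => by
        unfold conc
        rw [(na v).mp t, hs a ha.ne', g.fix hw]; exact q
      refine ⟨X', Y, g', fun u v t => ?_⟩
      by_cases t1 : u = w
      · exact t1 ▸ k v (t1 ▸ t)
      by_cases t2 : v = w
      · exact t2 ▸ (k u (t2 ▸ t.symm)).symm
      unfold conc
      rw [hs u t1, hs v t2]
      exact e u v ⟨t, ⟨t1, by rwa [hw]⟩, t2, by rwa [hw]⟩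
    by_cases h2 : (F.neighborSet (θ w)).ncard = 1
    · obtain ⟨b, h2⟩ := Set.ncard_eq_one.mp h2
      have nb : ∀ v, F.Adj (θ w) (θ v) ↔ θ v = b := fun v => by
        rw [← SimpleGraph.mem_neighborSet, h2]; rfl
      have hab : a ≠ θ b := fun t => hV _ _ ha ((nb a).mpr (by rw [t, hθ]))
      obtain ⟨x, y, p1, p2, -⟩ := P3out (xa := X a) (ya := Y a) (xb := X (θ b)) (yb := Y (θ b))
        (xc := X (θ b)) (yc := Y (θ b)) 0 ((g.ne hab).imp
          (fun e => mul_self_pos.mpr (sub_ne_zero.mpr e))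
          (fun e => mul_self_pos.mpr (sub_ne_zero.mpr e)))
      exact finish hθ hV hw g e (fun v t => (na v).mp t ▸ p1)
        (fun v t => by rw [← (nb v).mp t, hθ] at p2; exact p2)
    obtain ⟨b, c, hbc, h3⟩ := Set.ncard_eq_two.mp (show (F.neighborSet (θ w)).ncard = 2 by omega)
    have nb : ∀ v, F.Adj (θ w) (θ v) ↔ θ v = b ∨ θ v = c := fun v => by
      rw [← SimpleGraph.mem_neighborSet, h3]; rfl
    obtain ⟨X, Y, g, e, x, y, p1, p2, p3⟩ := step3 hθ hF hV ih hn (b := θ b) (c := θ c) ha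
      ((nb _).mpr (Or.inl (hθ b))) ((nb _).mpr (Or.inr (hθ c)))
      (fun t => hbc (by rw [← hθ b, t, hθ]))
    refine finish hθ hV hw g e (fun v t => (na v).mp t ▸ p1) (fun v t => ?_)
    rcases (nb v).mp t with t | t
    · rw [← t, hθ] at p2; exact p2
    · rw [← t, hθ] at p3; exact p3

end Pool.Agent.H61.Sym
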