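import Pool.Agent.H61.SymD

set_option autoImplicit false

namespace Pool.Agent.H61.Sym

open Module

def RC {ι M : Type} [AddCommGroup M] [Module ℝ M] (x y : ι → M) : Prop :=
  ∀ (I : Set ι) (S : Submodule ℝ M), (∀ i ∈ I, x i ∈ S ∧ y i ∈ S) → I.ncard ≤ finrank ℝ S

lemma rado_step {ι M : Type} [Finite ι] [DecidableEq ι] [AddCommGroup M] [Module ℝ M]
    [FiniteDimensional ℝ M] {x y : ι → M} (h : RC x y) (j : ι) :
    RC x (Function.update y j (x j)) ∨ RC (Function.update x j (y j)) y := by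
  by_contra hc
  simp only [RC, not_or, not_forall, not_le] at hc
  obtain ⟨⟨I1, S1, h1, l1⟩, I2, S2, h2, l2⟩ := hc
  have a1 : ∀ i ∈ I1, i ≠ j → x i ∈ S1 ∧ y i ∈ S1 := fun i hi t => by
    simpa [Function.update_of_ne t] using h1 i hi
  have a2 : ∀ i ∈ I2, i ≠ j → x i ∈ S2 ∧ y i ∈ S2 := fun i hi t => by
    simpa [Function.update_of_ne t] using h2 i hi
  have j1 : j ∈ I1 := by
    by_contra t
    exact absurd (h I1 S1 fun i hi => a1 i hi fun e => t (e ▸ hi)) (not_le.mpr l1)
  have j2 : j ∈ I2 := by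
    by_contra t
    exact absurd (h I2 S2 fun i hi => a2 i hi fun e => t (e ▸ hi)) (not_le.mpr l2)
  have b1 := h (I1 ∪ I2) (S1 ⊔ S2) fun i hi => by
    by_cases t : i = j
    · subst t
      exact ⟨Submodule.mem_sup_left (h1 i j1).1, Submodule.mem_sup_right (h2 i j2).2⟩
    · rcases hi with hi | hi
      · exact (a1 i hi t).imp Submodule.mem_sup_left Submodule.mem_sup_left
      · exact (a2 i hi t).imp Submodule.mem_sup_right Submodule.mem_sup_right
  have b2 := h ((I1 ∩ I2) \ {j}) (S1 ⊓ S2) fun i hi =>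
    ⟨⟨(a1 i hi.1.1 hi.2).1, (a2 i hi.1.2 hi.2).1⟩, (a1 i hi.1.1 hi.2).2, (a2 i hi.1.2 hi.2).2⟩
  have b3 := Submodule.finrank_sup_add_finrank_inf_eq S1 S2
  have b4 := Set.ncard_union_add_ncard_inter I1 I2
  have b5 := Set.ncard_sdiff_singleton_add_one (show j ∈ I1 ∩ I2 from ⟨j1, j2⟩)
  omega

lemma rado {ι M : Type} [Finite ι] [AddCommGroup M] [Module ℝ M] [FiniteDimensional ℝ M]
    {x y : ι → M} (h : RC x y) : ∃ z : ι → M, (∀ i, z i = x i ∨ z i = y i) ∧
      LinearIndependent ℝ z := by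
  classical
  have := Fintype.ofFinite ι
  suffices H : ∀ (T : Finset ι) (x y : ι → M), (∀ i ∉ T, x i = y i) → RC x y →
      ∃ z : ι → M, (∀ i, z i = x i ∨ z i = y i) ∧ LinearIndependent ℝ z from
    H Finset.univ x y (by simp) h
  intro T
  induction T using Finset.induction_on with
  | empty =>
    intro x y e h
    refine ⟨x, fun i => Or.inl rfl, linearIndependent_iff_card_le_finrank_span.mpr ?_⟩
    have := h Set.univ (Submodule.span ℝ (Set.range x)) fun i _ => by
      rw [← e i (by simp), and_self]; exact Submodule.subset_span ⟨i, rfl⟩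
    rwa [Set.ncard_univ, Nat.card_eq_fintype_card] at this
  | insert j T _ ih =>
    intro x y e h
    rcases rado_step h j with t | t
    · obtain ⟨z, z1, z2⟩ := ih _ _ (fun i hi => by
        by_cases s : i = j
        · simp [s]
        · rw [Function.update_of_ne s]; exact e i (by simp [s, hi])) t
      refine ⟨z, fun i => ?_, z2⟩
      by_cases s : i = j
      · subst s; simpa using Or.inl (b := z i = y i) (by simpa using z1 i)
      · simpa [Function.update_of_ne s] using z1 i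
    · obtain ⟨z, z1, z2⟩ := ih _ _ (fun i hi => by
        by_cases s : i = j
        · simp [s]
        · rw [Function.update_of_ne s]; exact e i (by simp [s, hi])) t
      refine ⟨z, fun i => ?_, z2⟩
      by_cases s : i = j
      · subst s; simpa using Or.inr (a := z i = x i) (by simpa using z1 i)
      · simpa [Function.update_of_ne s] using z1 i

variable {V : Type}

def Sparse (G : SimpleGraph V) : Prop := ∀ S : Set V, S.Nonempty →
  {e | e ∈ G.edgeSet ∧ ∀ v ∈ e, v ∈ S}.ncard + 2 ≤ 2 * S.ncard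

lemma Sparse.rank [Finite V] [DecidableEq V] {G : SimpleGraph V} (hs : Sparse G) (A : Set (Sym2 V))
    (hA : A ⊆ G.edgeSet) (S : Submodule ℝ (V → ℝ))
    (h : ∀ e ∈ A, (Pi.single e.out.1 1 - Pi.single e.out.2 1 : V → ℝ) ∈ S) :
    A.ncard ≤ 2 * finrank ℝ S := by
  classical
  have := Fintype.ofFinite V
  let R : Setoid V := ⟨fun u w => (Pi.single u 1 - Pi.single w 1 : V → ℝ) ∈ S,
    fun u => by simp, fun t => by simpa using S.neg_mem t,
    fun t t' => by simpa using S.add_mem t t'⟩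
  let π : V → Quotient R := Quotient.mk R
  have c1 : Fintype.card V ≤ finrank ℝ S + Fintype.card (Quotient R) := by
    let T := Submodule.span ℝ (Set.range fun c : Quotient R => (Pi.single c.out 1 : V → ℝ))
    have t1 : finrank ℝ T ≤ Fintype.card (Quotient R) := finrank_range_le_card _
    have t2 := Submodule.finrank_add_le_finrank_add_finrank S T
    have t3 : S ⊔ T = ⊤ := by
      rw [eq_top_iff, ← (Pi.basisFun ℝ V).span_eq, Submodule.span_le]
      rintro _ ⟨v, rfl⟩
      have e1 : (Pi.single (π v).out 1 - Pi.single v 1 : V → ℝ) ∈ S := Quotient.mk_out (s := R) v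
      have e2 : (Pi.single (π v).out 1 : V → ℝ) ∈ T := Submodule.subset_span ⟨_, rfl⟩
      simpa using (S ⊔ T).sub_mem (Submodule.mem_sup_right e2) (Submodule.mem_sup_left e1)
    rw [t3, finrank_top, finrank_fintype_fun_eq_card] at t2
    omega
  have c2 := Finset.card_eq_sum_card_fiberwise (f := π) (s := Finset.univ) (t := Finset.univ)
    (fun _ _ => by simp)
  have c3 := Finset.card_eq_sum_card_fiberwise (f := fun e : Sym2 V => π e.out.1)
    (s := A.toFinset) (t := Finset.univ) (fun _ _ => by simp)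
  have c4 : ∑ c : Quotient R, ((A.toFinset.filter fun e => π e.out.1 = c).card + 2) ≤
      ∑ c : Quotient R, 2 * (Finset.univ.filter fun v => π v = c).card := by
    refine Finset.sum_le_sum fun c _ => ?_
    have t1 := hs {v | π v = c} ⟨c.out, c.out_eq⟩
    have t2 : {v | π v = c}.ncard = (Finset.univ.filter fun v => π v = c).card := by
      rw [← Set.ncard_coe_finset]; simp
    have t3 : (A.toFinset.filter fun e => π e.out.1 = c).card ≤
        {e | e ∈ G.edgeSet ∧ ∀ v ∈ e, v ∈ {v | π v = c}}.ncard := by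
      rw [← Set.ncard_coe_finset]
      refine Set.ncard_le_ncard fun e he => ?_
      simp only [Finset.coe_filter, Set.mem_toFinset, Set.mem_ofPred_eq] at he
      refine ⟨hA he.1, fun v hv => ?_⟩
      rw [← e.out_eq] at hv
      rcases Sym2.mem_iff.mp hv with rfl | rfl
      · exact he.2
      · exact (Quotient.sound (s := R) (h e he.1)).symm.trans he.2
    omega
  rw [Finset.sum_add_distrib, ← Finset.mul_sum, ← c2, ← c3] at c4
  simp only [Finset.sum_const, Finset.card_univ, smul_eq_mul] at c4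
  rw [Set.ncard_eq_toFinset_card']
  omega

theorem decomp [Finite V] {G : SimpleGraph V} {θ : V → V} (hθ : ∀ v, θ (θ v) = v)
    (hG : ∀ u w, G.Adj u w → G.Adj (θ u) (θ w)) (hfix : ∀ u w, G.Adj u w → s(θ u, θ w) ≠ s(u, w))
    (hs : Sparse G) : ∃ F ≤ G, Forest F ∧ Valid θ F ∧
      ∀ u w, G.Adj u w → F.Adj u w ∨ F.Adj (θ u) (θ w) := by
  classical
  obtain ⟨f, hf⟩ := Countable.exists_injective_nat (Sym2 V)
  let m : Sym2 V → Sym2 V := Sym2.map θ
  have mm : ∀ e, m (m e) = e := fun e => by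
    induction e using Sym2.ind with
    | h u w => simp [m, hθ]
  have mG : ∀ e ∈ G.edgeSet, m e ∈ G.edgeSet := fun e he => by
    induction e using Sym2.ind with
    | h u w => exact hG u w he
  let ι := {e // e ∈ G.edgeSet ∧ f e < f (m e)}
  let d : V → V → V → ℝ := fun u w => Pi.single u 1 - Pi.single w 1
  have ho : ∀ e : Sym2 V, s(e.out.1, e.out.2) = e := fun e => e.out_eq
  obtain ⟨z, z1, z2⟩ := rado (ι := ι) (x := fun i => d i.1.out.1 i.1.out.2)
    (y := fun i => d (θ i.1.out.1) (θ i.1.out.2)) (fun I S h => by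
      have t := hs.rank (Subtype.val '' I ∪ (fun i : ι => m i.1) '' I) (by
        rintro _ (⟨i, -, rfl⟩ | ⟨i, -, rfl⟩)
        exacts [i.2.1, mG _ i.2.1]) S (by
        rintro _ (⟨i, hi, rfl⟩ | ⟨i, hi, rfl⟩)
        · exact (h i hi).1
        · have e : s((m i.1).out.1, (m i.1).out.2) = s(θ i.1.out.1, θ i.1.out.2) := by
            rw [ho]; conv_lhs => rw [← ho i.1]
            rfl
          rcases Sym2.eq_iff.mp e with ⟨e1, e2⟩ | ⟨e1, e2⟩ <;> simp only [e1, e2]
          · exact (h i hi).2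
          · simpa [d] using S.neg_mem (h i hi).2)
      rw [Set.ncard_union_eq, Set.ncard_image_of_injective _ Subtype.val_injective,
        Set.ncard_image_of_injective _ (fun i j e => Subtype.ext (by
          rw [← mm i.1, ← mm j.1]; exact congrArg m e))] at t
      · omega
      · rw [Set.disjoint_left]
        rintro _ ⟨i, -, rfl⟩ ⟨j, -, e⟩
        have t1 := i.2.2
        have t2 := j.2.2
        simp only at e
        rw [← e, mm] at t1
        omega)
  have : ∀ i : ι, ∃ p q, z i = d p q ∧ (s(p, q) = i.1 ∨ s(p, q) = m i.1) := fun i => by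
    rcases z1 i with t | t
    · exact ⟨_, _, t, Or.inl (ho _)⟩
    · refine ⟨_, _, t, Or.inr ?_⟩
      conv_rhs => rw [← ho i.1]
      rfl
  choose p q hz hpq using this
  have pG : ∀ i, s(p i, q i) ∈ G.edgeSet := fun i =>
    (hpq i).elim (fun t => t ▸ i.2.1) (fun t => t ▸ mG _ i.2.1)
  let F := SimpleGraph.fromEdgeSet (Set.range fun i => s(p i, q i))
  have ad : ∀ u w, F.Adj u w ↔ ∃ i, s(p i, q i) = s(u, w) := fun u w => by
    rw [SimpleGraph.fromEdgeSet_adj]
    exact ⟨fun t => t.1, fun ⟨i, t⟩ => ⟨⟨i, t⟩, (show G.Adj u w from (show s(u, w) ∈ G.edgeSet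
      from t ▸ pG i)).ne⟩⟩
  have le : F ≤ G := fun u w t => by
    obtain ⟨i, t⟩ := (ad u w).mp t
    exact (show s(u, w) ∈ G.edgeSet from t ▸ pG i)
  refine ⟨F, le, fun x y t => ?_, fun u w t t' => ?_, fun u w t => ?_⟩
  · obtain ⟨i, t⟩ := (ad x y).mp t
    obtain ⟨φ, p1, p2⟩ := Submodule.exists_dual_map_eq_bot_of_notMem
      (z2.notMem_span_image (s := {i}ᶜ) (x := i) (by simp)) inferInstance
    refine ⟨fun v => φ (Pi.single v 1), ?_, fun u w t' hne => ?_⟩
    · rw [hz, map_sub, sub_ne_zero] at p1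
      rcases Sym2.eq_iff.mp t with ⟨rfl, rfl⟩ | ⟨rfl, rfl⟩
      exacts [p1, p1.symm]
    · obtain ⟨j, t'⟩ := (ad u w).mp t'
      have : φ (z j) = 0 := by
        rw [← Submodule.mem_bot ℝ, ← p2]
        exact Submodule.mem_map_of_mem (Submodule.subset_span
          ⟨j, fun e => hne (by rw [← t, ← t', show j = i from e]), rfl⟩)
      rw [hz, map_sub, sub_eq_zero] at this
      rcases Sym2.eq_iff.mp t' with ⟨rfl, rfl⟩ | ⟨rfl, rfl⟩
      exacts [this, this.symm]
  · obtain ⟨i, a⟩ := (ad _ _).mp t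
    obtain ⟨j, a'⟩ := (ad _ _).mp t'
    have e : s(p j, q j) = m s(p i, q i) := by rw [a, a']; rfl
    have ij : i = j := by
      have t1 := i.2.2
      have t2 := j.2.2
      apply Subtype.ext
      rcases hpq i with b | b <;> rcases hpq j with b' | b' <;> rw [b, b'] at e
      · rw [e, mm] at t2; omega
      · rw [← mm i.1, ← e, mm]
      · rw [e, mm]
      · rw [mm] at e
        rw [← e, mm] at t1; omega
    exact hfix u w (le t) (by rw [← a, ← a', ij])
  · have e0 : m s(u, w) = s(θ u, θ w) := rfl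
    rcases lt_or_gt_of_ne (fun e => hfix u w t (hf e).symm : f s(u, w) ≠ f (m s(u, w))) with l | l
    · exact (hpq ⟨s(u, w), t, l⟩).imp (fun b => (ad _ _).mpr ⟨_, b⟩) (fun b => (ad _ _).mpr ⟨_, b⟩)
    · exact ((hpq ⟨m s(u, w), mG _ t, by rwa [mm]⟩).imp (fun b => (ad _ _).mpr ⟨_, b⟩)
        (fun b => (ad _ _).mpr ⟨_, b.trans (mm s(u, w))⟩)).symm

/-- functions constant along edges are constant -/
def Con (F : SimpleGraph V) : Prop := ∀ g : V → ℝ, (∀ u w, F.Adj u w → g u = g w) →
  ∀ u w, g u = g w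

/-- the combinatorial core: a symmetric two-tree placement -/
theorem core [Finite V] {G : SimpleGraph V} {θ : V → V} (hθ : ∀ v, θ (θ v) = v)
    (hG : ∀ u w, G.Adj u w → G.Adj (θ u) (θ w)) (hfix : ∀ u w, G.Adj u w → s(θ u, θ w) ≠ s(u, w))
    (hs : Sparse G) (ht : G.edgeSet.ncard + 2 = 2 * Nat.card V) :
    ∃ (X Y : V → ℝ) (T1 T2 : SimpleGraph V), (∀ v, X (θ v) = X v) ∧ (∀ v, Y (θ v) = - Y v) ∧
      (∀ u w, u ≠ w → X u ≠ X w ∨ Y u ≠ Y w) ∧ T1 ≤ G ∧ T2 ≤ G ∧ Forest T1 ∧ Forest T2 ∧ Con T1 ∧ Con T2 ∧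
      (∀ u w, G.Adj u w → T1.Adj u w ∨ T2.Adj u w) ∧
      (∀ u w, T1.Adj u w → 0 < (X u - X w) * (Y u - Y w)) ∧
      ∀ u w, T2.Adj u w → (X u - X w) * (Y u - Y w) < 0 := by
  obtain ⟨F, le, f1, f2, f3⟩ := decomp hθ hG hfix hs
  obtain ⟨X, Y, g, e⟩ := realz _ V θ F hθ f1 f2 le_rfl
  have c1 : Con F := by
    intro h hh u w
    by_contra hne
    have t1 := f1.count (fun v => h v = h u) (fun P => by
      by_cases t : P
      · exact ⟨u, by simp [t]⟩
      · exact ⟨w, by simp [t, Ne.symm hne]⟩) (fun a b t => by rw [hh a b t])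
    have t2 : G.edgeSet.ncard ≤ (F.edgeSet ∪ Sym2.map θ '' F.edgeSet).ncard := by
      refine Set.ncard_le_ncard fun e he => ?_
      induction e using Sym2.ind with
      | h a b => exact (f3 a b he).imp id fun t => ⟨s(θ a, θ b), t, by simp [hθ]⟩
    have t3 := Set.ncard_union_le F.edgeSet (Sym2.map θ '' F.edgeSet)
    have t4 : (Sym2.map θ '' F.edgeSet).ncard ≤ _ := Set.ncard_image_le
    rw [Nat.card_eq_fintype_card (α := Prop), Fintype.card_prop] at t1
    omega
  refine ⟨X, Y, F, F.comap θ, g.sx, g.sy, fun _ _ => g.ne, le,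
    fun u w t => by simpa only [hθ] using hG _ _ (le t),
    f1, fun x y t => ?_, c1, fun h hh u w => ?_, f3, e, fun u w t => ?_⟩
  · obtain ⟨h, h1, h2⟩ := f1 _ _ t
    refine ⟨h ∘ θ, h1, fun u w t' hne => h2 _ _ t' fun e => hne ?_⟩
    simpa only [Sym2.map_mk, hθ] using congrArg (Sym2.map θ) e
  · simpa only [Function.comp, hθ] using c1 (h ∘ θ)
      (fun a b t => hh _ _ (by simpa only [SimpleGraph.comap_adj, hθ] using t)) (θ u) (θ w)
  · have := e _ _ t
    unfold conc at this
    rw [g.sx, g.sx, g.sy, g.sy] at this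
    linarith

end Pool.Agent.H61.Sym
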