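import Mathlib

set_option autoImplicit false

namespace Pool.Agent.H61.TwA

open Set Filter Topology

/-- jets of a solution of the inner equation on `[0, T]` -/
def Sol (k ξ T : ℝ) (y0 y1 y2 y3 : ℝ → ℝ) : Prop :=
  ∀ t ∈ Icc 0 T, HasDerivAt y0 (y1 t) t ∧ HasDerivAt y1 (y2 t) t ∧ HasDerivAt y2 (y3 t) t ∧
    HasDerivAt y3 (-k * y2 t - ξ * y0 t) t

lemma Sol.shift {k ξ T : ℝ} {y0 y1 y2 y3 : ℝ → ℝ} (h : Sol k ξ T y0 y1 y2 y3) :
    Sol k ξ T y1 y2 y3 (fun t => -k * y2 t - ξ * y0 t) := fun t ht =>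
  ⟨(h t ht).2.1, (h t ht).2.2.1, (h t ht).2.2.2,
    ((h t ht).2.2.1.const_mul (-k)).sub ((h t ht).1.const_mul ξ)⟩

lemma Sol.comb {k ξ T : ℝ} {y0 y1 y2 y3 w0 w1 w2 w3 : ℝ → ℝ} (h : Sol k ξ T y0 y1 y2 y3)
    (h' : Sol k ξ T w0 w1 w2 w3) (a b : ℝ) :
    Sol k ξ T (fun t => a * y0 t + b * w0 t) (fun t => a * y1 t + b * w1 t)
      (fun t => a * y2 t + b * w2 t) (fun t => a * y3 t + b * w3 t) := fun t ht =>
  ⟨((h t ht).1.const_mul a).add ((h' t ht).1.const_mul b),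
    ((h t ht).2.1.const_mul a).add ((h' t ht).2.1.const_mul b),
    ((h t ht).2.2.1.const_mul a).add ((h' t ht).2.2.1.const_mul b), 
      (((h t ht).2.2.2.const_mul a).add ((h' t ht).2.2.2.const_mul b)).congr_deriv (by ring)⟩

lemma Sol.energy {k ξ T : ℝ} {y0 y1 y2 y3 : ℝ → ℝ} (h : Sol k ξ T y0 y1 y2 y3) (K : ℝ) :
    ∀ t ∈ Icc 0 T, HasDerivAt
      (fun t => Real.exp (K * t) * (y0 t ^ 2 + y1 t ^ 2 + y2 t ^ 2 + y3 t ^ 2))
      (Real.exp (K * t) * (K * (y0 t ^ 2 + y1 t ^ 2 + y2 t ^ 2 + y3 t ^ 2) +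
        2 * (y0 t * y1 t + y1 t * y2 t + y2 t * y3 t + y3 t * (-k * y2 t - ξ * y0 t)))) t := by
  intro t ht
  obtain ⟨h0, h1, h2, h3⟩ := h t ht
  have e := ((hasDerivAt_id t).const_mul K).exp
  have := e.mul ((((h0.pow 2).add (h1.pow 2)).add (h2.pow 2)).add (h3.pow 2))
  exact this.congr_deriv (by simp; ring)

lemma quad (k ξ a b c d : ℝ) :
    |2 * (a * b + b * c + c * d + d * (-k * c - ξ * a))|
      ≤ (2 + |k| + |ξ|) * (a ^ 2 + b ^ 2 + c ^ 2 + d ^ 2) := by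
  have h1 : |k * (2 * (c * d))| ≤ |k| * (a ^ 2 + b ^ 2 + c ^ 2 + d ^ 2) := by
    rw [abs_mul]
    refine mul_le_mul_of_nonneg_left (abs_le.2 ⟨?_, ?_⟩) (abs_nonneg _) <;>
      nlinarith [sq_nonneg (c + d), sq_nonneg (c - d), sq_nonneg a, sq_nonneg b]
  have h2 : |ξ * (2 * (a * d))| ≤ |ξ| * (a ^ 2 + b ^ 2 + c ^ 2 + d ^ 2) := by
    rw [abs_mul]
    refine mul_le_mul_of_nonneg_left (abs_le.2 ⟨?_, ?_⟩) (abs_nonneg _) <;>
      nlinarith [sq_nonneg (a + d), sq_nonneg (a - d), sq_nonneg c, sq_nonneg b]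
  have h3 := abs_le.1 h1
  have h4 := abs_le.1 h2
  refine abs_le.2 ⟨?_, ?_⟩ <;>
    nlinarith [sq_nonneg (a + b), sq_nonneg (a - b), sq_nonneg (b + c), sq_nonneg (b - c),
      sq_nonneg (c + d), sq_nonneg (c - d), sq_nonneg a, sq_nonneg d]

lemma zero_of {a b c d : ℝ} (h : a ^ 2 + b ^ 2 + c ^ 2 + d ^ 2 ≤ 0) :
    a = 0 ∧ b = 0 ∧ c = 0 ∧ d = 0 := by
  refine ⟨?_, ?_, ?_, ?_⟩ <;> nlinarith [sq_nonneg a, sq_nonneg b, sq_nonneg c, sq_nonneg d]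

lemma Sol.fwd {k ξ T : ℝ} {y0 y1 y2 y3 : ℝ → ℝ} (h : Sol k ξ T y0 y1 y2 y3)
    (z0 : y0 0 = 0) (z1 : y1 0 = 0) (z2 : y2 0 = 0) (z3 : y3 0 = 0) :
    ∀ t ∈ Icc 0 T, y0 t = 0 ∧ y1 t = 0 ∧ y2 t = 0 ∧ y3 t = 0 := by
  intro t ht
  have he := h.energy (-(2 + |k| + |ξ|))
  have hm := antitoneOn_of_hasDerivWithinAt_nonpos (convex_Icc 0 T)
    (fun t ht => (he t ht).continuousAt.continuousWithinAt)
    (fun t ht => (he t (interior_subset ht)).hasDerivWithinAt)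
    (fun t _ => mul_nonpos_of_nonneg_of_nonpos (Real.exp_pos _).le (by
      have := (abs_le.1 (quad k ξ (y0 t) (y1 t) (y2 t) (y3 t))).2
      linarith))
  have := hm (left_mem_Icc.2 (ht.1.trans ht.2)) ht ht.1
  simp only [z0, z1, z2, z3] at this
  refine zero_of (le_of_mul_le_mul_left ?_ (Real.exp_pos (-(2 + |k| + |ξ|) * t)))
  simpa using this

lemma Sol.bwd {k ξ T : ℝ} {y0 y1 y2 y3 : ℝ → ℝ} (h : Sol k ξ T y0 y1 y2 y3)
    (z0 : y0 T = 0) (z1 : y1 T = 0) (z2 : y2 T = 0) (z3 : y3 T = 0) :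
    ∀ t ∈ Icc 0 T, y0 t = 0 ∧ y1 t = 0 ∧ y2 t = 0 ∧ y3 t = 0 := by
  intro t ht
  have he := h.energy (2 + |k| + |ξ|)
  have hm := monotoneOn_of_hasDerivWithinAt_nonneg (convex_Icc 0 T)
    (fun t ht => (he t ht).continuousAt.continuousWithinAt)
    (fun t ht => (he t (interior_subset ht)).hasDerivWithinAt)
    (fun t _ => mul_nonneg (Real.exp_pos _).le (by
      have := (abs_le.1 (quad k ξ (y0 t) (y1 t) (y2 t) (y3 t))).1
      linarith))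
  have := hm ht (right_mem_Icc.2 (ht.1.trans ht.2)) ht.2
  simp only [z0, z1, z2, z3] at this
  refine zero_of (le_of_mul_le_mul_left ?_ (Real.exp_pos ((2 + |k| + |ξ|) * t)))
  simpa using this

/-- Two odd solutions that both match decaying solutions at `T` are linearly dependent. -/
lemma dep {k ξ T σ : ℝ} (hT : 0 ≤ T) (hσ : σ ≠ 0) {a0 a1 a2 a3 b0 b1 b2 b3 : ℝ → ℝ}
    (ha : Sol k ξ T a0 a1 a2 a3) (hb : Sol k ξ T b0 b1 b2 b3)
    (ha0 : a0 0 = 0) (ha2 : a2 0 = 0) (hb0 : b0 0 = 0) (hb2 : b2 0 = 0)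
    (pa : a2 T + 2 * σ * a1 T + a0 T = 0) (qa : a3 T + 2 * σ * a2 T + a1 T = 0)
    (pb : b2 T + 2 * σ * b1 T + b0 T = 0) (qb : b3 T + 2 * σ * b2 T + b1 T = 0) :
    a1 0 * b3 0 - a3 0 * b1 0 = 0 := by
  by_contra hd
  have hT' : T ∈ Icc 0 T := right_mem_Icc.2 hT
  obtain ⟨α, β, h1, h3⟩ : ∃ α β : ℝ, α * a1 0 + β * b1 0 = a3 0 ∧
      α * a3 0 + β * b3 0 = -k * a3 0 - ξ * a1 0 := by
    refine ⟨(a3 0 * b3 0 - (-k * a3 0 - ξ * a1 0) * b1 0) / (a1 0 * b3 0 - a3 0 * b1 0),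
      (a1 0 * (-k * a3 0 - ξ * a1 0) - a3 0 * a3 0) / (a1 0 * b3 0 - a3 0 * b1 0), ?_, ?_⟩ <;>
    · rw [div_mul_eq_mul_div, div_mul_eq_mul_div, ← add_div, div_eq_iff hd]; ring
  have s1 := (ha.comb hb α β).comb ha.shift.shift 1 (-1)
  obtain ⟨e0, e1, e2, e3⟩ := s1.fwd (by simp [ha0, hb0, ha2]) (by simp; linarith)
    (by simp [ha0, ha2, hb2]) (by simp; linarith) T hT'
  have s2 := (ha.shift.shift.comb ha.shift 1 (2 * σ)).comb ha 1 1
  obtain ⟨f0, -, f2, -⟩ := s2.bwd (by simp; linarith) (by simp; linarith)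
    (by linear_combination α * pa + β * pb - e2 - 2 * σ * e1 - e0)
    (by linear_combination α * qa + β * qb - e3 - 2 * σ * e2 - e1)
    0 (left_mem_Icc.2 hT)
  simp only [ha0, ha2] at f0 f2
  have g1 : a1 0 = 0 := by
    have : σ * a1 0 = 0 := by linarith
    exact (mul_eq_zero.1 this).resolve_left hσ
  have g3 : a3 0 = 0 := by
    have : σ * a3 0 = 0 := by linarith
    exact (mul_eq_zero.1 this).resolve_left hσ
  exact hd (by simp [g1, g3])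

lemma abs_lt_of_tendsto_aux : ∀ᶠ x : ℝ in 𝓝 0, x ^ 2 < 1 := by
  have : Continuous fun x : ℝ => x ^ 2 := by fun_prop
  exact this.continuousAt.eventually_lt continuousAt_const (by norm_num)

lemma aux_bound {σ x y v w p q B : ℝ} (hσ : 0 < σ) (hσ1 : σ < 1) (a0 : x ^ 2 < 1) (a1 : y ^ 2 < 1)
    (b1 : v ^ 2 + w ^ 2 ≤ B) (d1 : p = 4 * σ * y - w) (d2 : q - 2 * σ * p = v - 4 * σ * x) :
    p ^ 2 - 2 * σ * (p * q) + q ^ 2 ≤ 100 * (B + 16) := by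
  have hs : σ ^ 2 ≤ 1 := by nlinarith
  have c0 : (4 * σ * x) ^ 2 ≤ 16 := by
    have : σ ^ 2 * x ^ 2 ≤ 1 * 1 := mul_le_mul hs a0.le (sq_nonneg _) zero_le_one
    nlinarith
  have c1 : (4 * σ * y) ^ 2 ≤ 16 := by
    have : σ ^ 2 * y ^ 2 ≤ 1 * 1 := mul_le_mul hs a1.le (sq_nonneg _) zero_le_one
    nlinarith
  have f1 : p ^ 2 ≤ 2 * (B + 16) := by
    rw [d1]; nlinarith [sq_nonneg (4 * σ * y + w), sq_nonneg v]
  have f2 : (q - 2 * σ * p) ^ 2 ≤ 2 * (B + 16) := by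
    rw [d2]; nlinarith [sq_nonneg (4 * σ * x + v), sq_nonneg w]
  have f3 : σ ^ 2 * p ^ 2 ≤ p ^ 2 := by nlinarith [sq_nonneg p]
  nlinarith [sq_nonneg (q - 2 * σ * p - σ * p), sq_nonneg p]

/-- A decaying solution of the outer equation lies in the stable plane. -/
lemma stable {k σ T : ℝ} (hσ : 0 < σ) (hσ1 : σ < 1) (hk : k = 2 - 4 * σ ^ 2)
    {u0 u1 u2 u3 : ℝ → ℝ}
    (h : ∀ t ∈ Ici T, HasDerivAt u0 (u1 t) t ∧ HasDerivAt u1 (u2 t) t ∧ HasDerivAt u2 (u3 t) t ∧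
      HasDerivAt u3 (-k * u2 t - u0 t) t)
    (l0 : Tendsto u0 atTop (𝓝 0)) (l1 : Tendsto u1 atTop (𝓝 0)) :
    u2 T + 2 * σ * u1 T + u0 T = 0 ∧ u3 T + 2 * σ * u2 T + u1 T = 0 := by
  let p : ℝ → ℝ := fun t => u2 t + 2 * σ * u1 t + u0 t
  let q : ℝ → ℝ := fun t => u3 t + 2 * σ * u2 t + u1 t
  have hp : ∀ t ∈ Ici T, HasDerivAt p (q t) t := fun t ht =>
    ((h t ht).2.2.1.add ((h t ht).2.1.const_mul (2 * σ))).add (h t ht).1
  have hq : ∀ t ∈ Ici T, HasDerivAt q (2 * σ * q t - p t) t := fun t ht => by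
    refine (((h t ht).2.2.2.add ((h t ht).2.2.1.const_mul (2 * σ))).add
      (h t ht).2.1).congr_deriv ?_
    simp only [p, q, hk]; ring
  let v : ℝ → ℝ := fun t => 4 * σ * u0 t - (2 * σ * p t - q t)
  let w : ℝ → ℝ := fun t => 4 * σ * u1 t - p t
  have hv : ∀ t ∈ Ici T, HasDerivAt v (w t) t := fun t ht => by
    refine (((h t ht).1.const_mul (4 * σ)).sub
      (((hp t ht).const_mul (2 * σ)).sub (hq t ht))).congr_deriv ?_
    simp only [w]; ring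
  have hw : ∀ t ∈ Ici T, HasDerivAt w (-(2 * σ * w t) - v t) t := fun t ht => by
    refine (((h t ht).2.1.const_mul (4 * σ)).sub (hp t ht)).congr_deriv ?_
    simp only [v, w, p, q]; ring
  have hE : ∀ t ∈ Ici T, HasDerivAt (fun t => v t ^ 2 + w t ^ 2) (-(4 * σ * w t ^ 2)) t :=
    fun t ht => by
      refine (((hv t ht).pow 2).add ((hw t ht).pow 2)).congr_deriv ?_
      simp; ring
  have mE := antitoneOn_of_hasDerivWithinAt_nonpos (convex_Ici T)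
    (fun t ht => (hE t ht).continuousAt.continuousWithinAt)
    (fun t ht => (hE t (interior_subset ht)).hasDerivWithinAt)
    (fun t _ => by have := sq_nonneg (w t); nlinarith)
  have hV : ∀ t ∈ Ici T, HasDerivAt
      (fun t => Real.exp (-(2 * σ) * t) * (p t ^ 2 - 2 * σ * (p t * q t) + q t ^ 2)) 0 t :=
    fun t ht => by
      have e := ((hasDerivAt_id t).const_mul (-(2 * σ))).exp
      refine (e.mul ((((hp t ht).pow 2).sub (((hp t ht).mul (hq t ht)).const_mul (2 * σ))).add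
        ((hq t ht).pow 2))).congr_deriv ?_
      simp; ring
  have mV := monotoneOn_of_hasDerivWithinAt_nonneg (convex_Ici T)
    (fun t ht => (hV t ht).continuousAt.continuousWithinAt)
    (fun t ht => (hV t (interior_subset ht)).hasDerivWithinAt) (fun t _ => le_rfl)
  obtain ⟨B, hB⟩ : ∃ B : ℝ, B = v T ^ 2 + w T ^ 2 := ⟨_, rfl⟩
  have hlim : Tendsto (fun t => Real.exp (-(2 * σ) * t) * (100 * (B + 16))) atTop (𝓝 0) := by
    have h1 : Tendsto (fun t => -(2 * σ) * t) atTop atBot :=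
      tendsto_id.const_mul_atTop_of_neg (by linarith)
    simpa using (Real.tendsto_exp_atBot.comp h1).mul_const (100 * (B + 16))
  have hle : Real.exp (-(2 * σ) * T) * (p T ^ 2 - 2 * σ * (p T * q T) + q T ^ 2) ≤ 0 := by
    refine ge_of_tendsto hlim ?_
    filter_upwards [eventually_ge_atTop T, l0.eventually (abs_lt_of_tendsto_aux),
      l1.eventually (abs_lt_of_tendsto_aux)] with t ht a0 a1
    refine (mV (mem_Ici.2 le_rfl) ht ht).trans ?_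
    refine mul_le_mul_of_nonneg_left ?_ (Real.exp_pos _).le
    have b1 : v t ^ 2 + w t ^ 2 ≤ B := hB ▸ mE (mem_Ici.2 le_rfl) ht ht
    exact aux_bound hσ hσ1 a0 a1 b1 (by simp only [w]; ring) (by simp only [v]; ring)
  have hle' : p T ^ 2 - 2 * σ * (p T * q T) + q T ^ 2 ≤ 0 :=
    le_of_mul_le_mul_left (by simpa using hle) (Real.exp_pos (-(2 * σ) * T))
  have g : (1 - σ ^ 2) * p T ^ 2 ≤ 0 := by nlinarith [sq_nonneg (q T - σ * p T)]
  have g0 : 0 < 1 - σ ^ 2 := by nlinarith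
  have g1 : p T = 0 := by
    have : p T ^ 2 ≤ 0 := le_of_mul_le_mul_left (by simpa using g) g0
    exact pow_eq_zero_iff two_ne_zero |>.1 (le_antisymm this (sq_nonneg _))
  refine ⟨g1, ?_⟩
  rw [g1] at hle'
  exact pow_eq_zero_iff two_ne_zero |>.1 (le_antisymm (by simpa using hle') (sq_nonneg (q T)))

end Pool.Agent.H61.TwA
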