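import Mathlib
import Pool.Agent.H61.TwA

set_option autoImplicit false

namespace Pool.Agent.H61.TwB

open Set Filter Topology Pool.Agent.H61.TwA

lemma deriv_nonneg_right {f : ℝ → ℝ} {f' T : ℝ} (h : HasDerivAt f f' T)
    (hf : ∀ t, T ≤ t → f T ≤ f t) : 0 ≤ f' := by
  have h1 := h.tendsto_slope.mono_left (nhdsGT_le_nhdsNE T)
  refine ge_of_tendsto h1 (eventually_nhdsWithin_of_forall fun t ht => ?_)
  rw [slope_def_field]
  exact div_nonneg (sub_nonneg.2 (hf t (le_of_lt ht))) (sub_nonneg.2 (le_of_lt ht))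

lemma refl {f g : ℝ → ℝ} (h : ∀ t, HasDerivAt f (g t) t) (t : ℝ) :
    HasDerivAt (fun t => f (-t)) (-g (-t)) t := by
  exact ((h (-t)).comp t (hasDerivAt_neg t)).congr_deriv (by ring)

lemma refl' {f g : ℝ → ℝ} (h : ∀ t, HasDerivAt f (g t) t) (t : ℝ) :
    HasDerivAt (fun t => -f (-t)) (g (-t)) t := by
  exact (refl h t).neg.congr_deriv (by ring)

lemma both {k σ T : ℝ} (hσ : 0 < σ) (hσ1 : σ < 1) (hk : k = 2 - 4 * σ ^ 2)
    {z0 z1 z2 z3 z4 : ℝ → ℝ} (h0 : ∀ t, HasDerivAt z0 (z1 t) t) (h1 : ∀ t, HasDerivAt z1 (z2 t) t)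
    (h2 : ∀ t, HasDerivAt z2 (z3 t) t) (h3 : ∀ t, HasDerivAt z3 (z4 t) t)
    (hout : ∀ t, T ≤ t → z4 t = -k * z2 t - z0 t ∧ z4 (-t) = -k * z2 (-t) - z0 (-t))
    (l0 : Tendsto z0 atTop (𝓝 0)) (l1 : Tendsto z1 atTop (𝓝 0))
    (m0 : Tendsto z0 atBot (𝓝 0)) (m1 : Tendsto z1 atBot (𝓝 0)) :
    (z2 T + 2 * σ * z1 T + z0 T = 0 ∧ z3 T + 2 * σ * z2 T + z1 T = 0) ∧
    (z2 (-T) + 2 * σ * (-z1 (-T)) + z0 (-T) = 0 ∧
      -z3 (-T) + 2 * σ * z2 (-T) + -z1 (-T) = 0) :=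
  ⟨stable hσ hσ1 hk (fun t ht => ⟨h0 t, h1 t, h2 t, (hout t ht).1 ▸ h3 t⟩) l0 l1,
    stable (u0 := fun t => z0 (-t)) (u1 := fun t => -z1 (-t)) (u2 := fun t => z2 (-t))
      (u3 := fun t => -z3 (-t)) hσ hσ1 hk
      (fun t ht => ⟨refl h0 t, refl' h1 t, refl h2 t, (hout t ht).2 ▸ refl' h3 t⟩)
      (m0.comp tendsto_neg_atTop_atBot)
      (by simpa using (m1.comp tendsto_neg_atTop_atBot).neg)⟩

lemma core {k ξ σ T : ℝ} (hσ : 0 < σ) (hσ1 : σ < 1) (hk : k = 2 - 4 * σ ^ 2) (hT : 0 ≤ T)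
    {z0 z1 z2 z3 z4 : ℝ → ℝ} (h0 : ∀ t, HasDerivAt z0 (z1 t) t) (h1 : ∀ t, HasDerivAt z1 (z2 t) t)
    (h2 : ∀ t, HasDerivAt z2 (z3 t) t) (h3 : ∀ t, HasDerivAt z3 (z4 t) t)
    (hin : ∀ t ∈ Icc (-T) T, z4 t = -k * z2 t - ξ * z0 t + (1 - ξ))
    (hout : ∀ t, T ≤ t → z4 t = -k * z2 t - z0 t ∧ z4 (-t) = -k * z2 (-t) - z0 (-t))
    (hge : ∀ t, T ≤ t → -1 ≤ z0 t ∧ -1 ≤ z0 (-t)) (e1 : z0 T = -1) (e2 : z0 (-T) = -1)
    (l0 : Tendsto z0 atTop (𝓝 0)) (l1 : Tendsto z1 atTop (𝓝 0))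
    (m0 : Tendsto z0 atBot (𝓝 0)) (m1 : Tendsto z1 atBot (𝓝 0)) (t : ℝ) : z0 t = z0 (-t) := by
  obtain ⟨⟨P1, Q1⟩, P2, Q2⟩ := both hσ hσ1 hk h0 h1 h2 h3 hout l0 l1 m0 m1
  have i1 : ∀ t ∈ Icc 0 T, t ∈ Icc (-T) T := fun t ht => ⟨by linarith [ht.1], ht.2⟩
  have i2 : ∀ t ∈ Icc 0 T, -t ∈ Icc (-T) T := fun t ht => ⟨by linarith [ht.2], by linarith [ht.1]⟩
  have ha : Sol k ξ T (fun t => z0 t - z0 (-t)) (fun t => z1 t - -z1 (-t))
      (fun t => z2 t - z2 (-t)) (fun t => z3 t - -z3 (-t)) := fun t ht =>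
    ⟨(h0 t).sub (refl h0 t), (h1 t).sub (refl' h1 t), (h2 t).sub (refl h2 t),
      ((h3 t).sub (refl' h3 t)).congr_deriv (by rw [hin t (i1 t ht), hin _ (i2 t ht)]; ring)⟩
  have hb : Sol k ξ T (fun t => z1 t + -z1 (-t)) (fun t => z2 t + z2 (-t))
      (fun t => z3 t + -z3 (-t))
      (fun t => -k * (z2 t + z2 (-t)) - ξ * (z0 t + z0 (-t)) + 2 * (1 - ξ)) := fun t ht =>
    ⟨(h1 t).add (refl' h1 t), (h2 t).add (refl h2 t),
      ((h3 t).add (refl' h3 t)).congr_deriv (by rw [hin t (i1 t ht), hin _ (i2 t ht)]; ring),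
      (((((h2 t).add (refl h2 t)).const_mul (-k)).sub
        (((h0 t).add (refl h0 t)).const_mul ξ)).add_const _)⟩
  have hd := dep hT hσ.ne' ha hb (by simp) (by simp) (by simp) (by simp)
    (by linear_combination P1 - P2) (by linear_combination Q1 - Q2)
    (by linear_combination Q1 + Q2)
    (by rw [hk]; linear_combination 2 * σ * (Q1 + Q2) - (P1 + P2) + (1 - ξ) * (e1 + e2))
  have s1 : 0 ≤ z1 T := deriv_nonneg_right (h0 T) fun t ht => e1 ▸ (hge t ht).1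
  have s2 : 0 ≤ -z1 (-T) := deriv_nonneg_right (refl h0 T) fun t ht => e2 ▸ (hge t ht).2
  have hT' : T ∈ Icc 0 T := right_mem_Icc.2 hT
  have key : z1 T - -z1 (-T) = 0 := by
    by_cases hz : z1 0 - -z1 (-0) = 0 ∧ z3 0 - -z3 (-0) = 0
    · exact (ha.fwd (by simp) hz.1 (by simp) hz.2 T hT').2.1
    · obtain ⟨μ, g1, g3⟩ : ∃ μ : ℝ, z2 0 + z2 (-0) = μ * (z1 0 - -z1 (-0)) ∧
          -k * (z2 0 + z2 (-0)) - ξ * (z0 0 + z0 (-0)) + 2 * (1 - ξ)
            = μ * (z3 0 - -z3 (-0)) := by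
        rcases not_and_or.1 hz with hz | hz
        · refine ⟨(z2 0 + z2 (-0)) / (z1 0 - -z1 (-0)), (div_mul_cancel₀ _ hz).symm, ?_⟩
          rw [div_mul_eq_mul_div, eq_div_iff hz]; linear_combination hd
        · refine ⟨_ / (z3 0 - -z3 (-0)), ?_, (div_mul_cancel₀ _ hz).symm⟩
          rw [div_mul_eq_mul_div, eq_div_iff hz]; linear_combination -hd
      have := ((hb.comb ha 1 (-μ)).fwd (by simp) (by linear_combination g1) (by simp)
        (by linear_combination g3) T hT').1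
      rw [e1, e2] at this
      linarith
  have k0 : z0 T - z0 (-T) = 0 := by rw [e1, e2]; ring
  have k2 : z2 T - z2 (-T) = 0 := by linear_combination P1 - P2 - 2 * σ * key - k0
  have k3 : z3 T - -z3 (-T) = 0 := by linear_combination Q1 - Q2 - 2 * σ * k2 - key
  have main : ∀ t, 0 ≤ t → z0 t - z0 (-t) = 0 := by
    intro t ht
    rcases le_total t T with h | h
    · exact (ha.bwd k0 key k2 k3 t ⟨ht, h⟩).1
    · have hc : Sol k 1 (t - T) (fun s => z0 (T + s) - z0 (-(T + s)))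
          (fun s => z1 (T + s) - -z1 (-(T + s))) (fun s => z2 (T + s) - z2 (-(T + s)))
          (fun s => z3 (T + s) - -z3 (-(T + s))) := fun s hs =>
        ⟨((h0 _).sub (refl h0 _)).comp_const_add T s, ((h1 _).sub (refl' h1 _)).comp_const_add T s,
          ((h2 _).sub (refl h2 _)).comp_const_add T s,
          (((h3 _).sub (refl' h3 _)).comp_const_add T s).congr_deriv (by
            obtain ⟨o1, o2⟩ := hout (T + s) (by linarith [hs.1])
            rw [o1, o2]; ring)⟩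
      have := (hc.fwd (by simpa using k0) (by simpa using key) (by simpa using k2)
        (by simpa using k3) (t - T) ⟨by linarith, le_rfl⟩).1
      simpa using this
  rcases le_total 0 t with h | h
  · linarith [main t h]
  · have := main (-t) (by linarith)
    rw [neg_neg] at this
    linarith

end Pool.Agent.H61.TwB
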