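import Mathlib
import Pool.Agent.H61.SieveG

/-! Few primes of the form n^2 + s^2 when n has many prime factors 3 mod 4. -/

namespace Pool.Agent.H61.TwoSq

open Finset Pool.Agent.H61.Sieve

/-- the nonprincipal character modulo 4 -/
noncomputable def chi (d : ℕ) : ℝ := if d % 4 = 1 then 1 else if d % 4 = 3 then -1 else 0

/-- sieve weights at primes -/
noncomputable def w (p : ℕ) : ℝ := if p = 2 then 1 else if p % 4 = 1 then 2 else 0

/-- the convolution of 1 and chi -/
noncomputable def r (m : ℕ) : ℝ := ∑ d ∈ m.divisors, chi d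

lemma w_nonneg (p : ℕ) : 0 ≤ w p := by
  unfold w
  split_ifs <;> norm_num

lemma chi_mul (a b : ℕ) : chi (a * b) = chi a * chi b := by
  unfold chi
  rw [Nat.mul_mod]
  have ha : a % 4 < 4 := Nat.mod_lt _ (by norm_num)
  have hb : b % 4 < 4 := Nat.mod_lt _ (by norm_num)
  generalize a % 4 = x at *
  generalize b % 4 = y at *
  interval_cases x <;> interval_cases y <;> norm_num

lemma chi_one : chi 1 = 1 := by simp [chi]

lemma chi_pow (a k : ℕ) : chi (a ^ k) = chi a ^ k := by
  induction k with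
  | zero => simp [chi]
  | succ k ih => rw [pow_succ, chi_mul, ih, pow_succ]

/-- chi as an arithmetic function -/
noncomputable def chiA : ArithmeticFunction ℝ := ⟨chi, by simp [chi]⟩

lemma r_mul {a b : ℕ} (h : Nat.Coprime a b) : r (a * b) = r a * r b := by
  have hm : chiA.IsMultiplicative := ⟨chi_one, fun {m n} _ => chi_mul m n⟩
  have hz := (ArithmeticFunction.isMultiplicative_zeta.natCast (R := ℝ)).mul hm
  have e : ∀ m, r m = (((ArithmeticFunction.zeta : ArithmeticFunction ℕ) :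
      ArithmeticFunction ℝ) * chiA) m := by
    intro m
    rw [ArithmeticFunction.coe_zeta_mul_apply]
    rfl
  rw [e, e, e]
  exact hz.map_mul_of_coprime h

lemma r_prime_pow {p : ℕ} (hp : p.Prime) (k : ℕ) :
    r (p ^ k) = ∑ j ∈ range (k + 1), chi p ^ j := by
  unfold r
  rw [Nat.sum_divisors_prime_pow hp]
  simp only [chi_pow]

lemma r_decomp (m : ℕ) : m ≠ 0 → ∃ c b : ℕ, c ^ 2 * b = m ∧ 0 ≤ r m ∧ r m ≤ cm w b := by
  induction m using Nat.recOnPosPrimePosCoprime with
  | zero => intro h; exact absurd rfl h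
  | one => intro _; exact ⟨1, 1, by norm_num, by simp [r, chi], by simp [r, chi, cm_one]⟩
  | prime_pow p k hp hk =>
    intro _
    rw [r_prime_pow hp]
    by_cases h2 : p = 2
    · subst h2
      have hc : chi 2 = 0 := by simp [chi]
      refine ⟨1, 2 ^ k, by simp, ?_, ?_⟩
      · rw [hc]; simp
      · rw [hc, cm_prime_pow w hp]; simp [w]
    · have hodd : p % 2 = 1 := hp.eq_two_or_odd.resolve_left h2
      by_cases h1 : p % 4 = 1
      · have hc : chi p = 1 := by simp [chi, h1]
        refine ⟨1, p ^ k, by simp, ?_, ?_⟩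
        · rw [hc]; positivity
        · rw [hc, cm_prime_pow w hp]
          simp only [one_pow, sum_const, card_range, nsmul_eq_mul, mul_one, w, h2, h1, if_false,
            if_true]
          have : k + 1 ≤ 2 ^ k := Nat.lt_two_pow_self
          exact_mod_cast this
      · have h3 : p % 4 = 3 := by omega
        have hc : chi p = -1 := by simp [chi, h3]
        rw [hc, neg_one_geom_sum]
        rcases Nat.even_or_odd k with ⟨t, ht⟩ | hk'
        · refine ⟨p ^ t, 1, by rw [ht]; ring, ?_, ?_⟩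
          · split_ifs <;> norm_num
          · rw [cm_one]; split_ifs <;> norm_num
        · refine ⟨1, p ^ k, by simp, ?_, ?_⟩
          · split_ifs <;> norm_num
          · rw [if_pos hk'.add_one]
            exact cm_nonneg w w_nonneg _
  | coprime a b ha hb hab iha ihb =>
    intro _
    obtain ⟨c1, b1, e1, h1, h1'⟩ := iha (by omega)
    obtain ⟨c2, b2, e2, h2, h2'⟩ := ihb (by omega)
    have hb1 : b1 ≠ 0 := by rintro rfl; omega
    have hb2 : b2 ≠ 0 := by rintro rfl; omega
    refine ⟨c1 * c2, b1 * b2, by rw [← e1, ← e2]; ring, ?_, ?_⟩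
    · rw [r_mul hab]; positivity
    · rw [r_mul hab, cm_mul w hb1 hb2]
      exact mul_le_mul h1' h2' h2 (h1.trans h1')

lemma sum_r_le (y : ℕ) : ∑ m ∈ Ioc 0 y, r m / m ≤ 2 * ∑ b ∈ Ioc 0 y, cm w b / b := by
  classical
  choose! c b h using r_decomp
  let F : ℕ × ℕ → ℝ := fun x => ((x.1 : ℝ) ^ 2)⁻¹ * (cm w x.2 / x.2)
  have hF0 : ∀ x, 0 ≤ F x := fun x =>
    mul_nonneg (by positivity) (div_nonneg (cm_nonneg w w_nonneg _) (Nat.cast_nonneg _))
  have hinj : Set.InjOn (fun m => (c m, b m)) (Ioc 0 y : Finset ℕ) := by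
    intro m hm n hn e
    simp only [Prod.mk.injEq] at e
    have hm0 : m ≠ 0 := by have := (mem_Ioc.mp hm).1; omega
    have hn0 : n ≠ 0 := by have := (mem_Ioc.mp hn).1; omega
    rw [← (h m hm0).1, ← (h n hn0).1, e.1, e.2]
  have hpos : ∀ m ∈ Ioc 0 y, 0 < c m ∧ 0 < b m := by
    intro m hm
    have hm0 : m ≠ 0 := by have := (mem_Ioc.mp hm).1; omega
    have e := (h m hm0).1
    constructor
    · rcases Nat.eq_zero_or_pos (c m) with h0 | h0
      · rw [h0] at e; omega
      · exact h0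
    · rcases Nat.eq_zero_or_pos (b m) with h0 | h0
      · rw [h0] at e; omega
      · exact h0
  calc ∑ m ∈ Ioc 0 y, r m / m ≤ ∑ m ∈ Ioc 0 y, F (c m, b m) := by
        refine Finset.sum_le_sum fun m hm => ?_
        have hm0 : m ≠ 0 := by have := (mem_Ioc.mp hm).1; omega
        obtain ⟨e, -, h2⟩ := h m hm0
        have hc : (0 : ℝ) < c m := by exact_mod_cast (hpos m hm).1
        have hb : (0 : ℝ) < b m := by exact_mod_cast (hpos m hm).2
        have e' : (m : ℝ) = (c m : ℝ) ^ 2 * b m := by exact_mod_cast e.symm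
        have : F (c m, b m) = cm w (b m) / m := by
          simp only [F]
          rw [e']
          field_simp
        rw [this]
        exact div_le_div_of_nonneg_right h2 (Nat.cast_nonneg _)
    _ = ∑ x ∈ (Ioc 0 y).image (fun m => (c m, b m)), F x := (Finset.sum_image hinj).symm
    _ ≤ ∑ x ∈ Ioc 0 y ×ˢ Ioc 0 y, F x := by
        refine Finset.sum_le_sum_of_subset_of_nonneg ?_ fun x _ _ => hF0 x
        intro x hx
        obtain ⟨m, hm, rfl⟩ := mem_image.mp hx
        have hm0 : m ≠ 0 := by have := (mem_Ioc.mp hm).1; omega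
        have e := (h m hm0).1
        have hmy := (mem_Ioc.mp hm).2
        obtain ⟨hc, hb⟩ := hpos m hm
        simp only [mem_product, mem_Ioc]
        refine ⟨⟨hc, ?_⟩, hb, ?_⟩
        · nlinarith [Nat.mul_le_mul_left (c m ^ 2) hb]
        · nlinarith [Nat.mul_le_mul_right (b m) (Nat.one_le_pow 2 _ hc)]
    _ = (∑ x ∈ Ioc 0 y, ((x : ℝ) ^ 2)⁻¹) * ∑ b ∈ Ioc 0 y, cm w b / b := by
        rw [Finset.sum_mul_sum, Finset.sum_product]
    _ ≤ _ := by
        refine mul_le_mul_of_nonneg_right ?_ (Finset.sum_nonneg fun b _ =>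
          div_nonneg (cm_nonneg w w_nonneg _) (Nat.cast_nonneg _))
        have h1 := sum_Ioo_inv_sq_le (α := ℝ) 0 (y + 1)
        have e : Ioo 0 (y + 1) = Ioc 0 y := by
          ext x; simp only [mem_Ioo, mem_Ioc]; omega
        rw [e] at h1
        simpa using h1

lemma alt_ge (f : ℕ → ℝ) (hf : ∀ d, 1 ≤ d → f (d + 2) ≤ f d) (K : ℕ) :
    f 1 - f 3 ≤ ∑ d ∈ range (4 * K + 4), chi d * f d := by
  induction K with
  | zero => simp [Finset.sum_range_succ, chi]
  | succ K ih =>
    have e : 4 * (K + 1) + 4 = 4 * K + 4 + 1 + 1 + 1 + 1 := by ring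
    rw [e, Finset.sum_range_succ, Finset.sum_range_succ, Finset.sum_range_succ,
      Finset.sum_range_succ]
    have c0 : chi (4 * K + 4) = 0 := by
      unfold chi; rw [if_neg (by omega), if_neg (by omega)]
    have c1 : chi (4 * K + 4 + 1) = 1 := by
      unfold chi; rw [if_pos (by omega)]
    have c2 : chi (4 * K + 4 + 1 + 1) = 0 := by
      unfold chi; rw [if_neg (by omega), if_neg (by omega)]
    have c3 : chi (4 * K + 4 + 1 + 1 + 1) = -1 := by
      unfold chi; rw [if_neg (by omega), if_pos (by omega)]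
    rw [c0, c1, c2, c3]
    have := hf (4 * K + 4 + 1) (by omega)
    linarith

/-- harmonic sums -/
noncomputable def H (y : ℕ) : ℝ := ∑ k ∈ Ioc 0 y, (1 : ℝ) / k

lemma H_nonneg (y : ℕ) : 0 ≤ H y := Finset.sum_nonneg fun k _ => by positivity

lemma H_mono {x y : ℕ} (h : x ≤ y) : H x ≤ H y :=
  Finset.sum_le_sum_of_subset_of_nonneg (Ioc_subset_Ioc_right h) fun k _ _ => by positivity

lemma log_le_H (y : ℕ) : Real.log (y + 1) ≤ H y := by
  have h := log_add_one_le_harmonic y
  rw [harmonic_eq_sum_Icc] at h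
  push_cast at h
  have e : Icc 1 y = Ioc 0 y := by
    ext x; simp only [mem_Icc, mem_Ioc]; omega
  rw [e] at h
  simpa [H] using h

lemma sum_r_ge (y : ℕ) : 2 / 3 * H y ≤ ∑ m ∈ Ioc 0 y, r m / m := by
  let A : ArithmeticFunction ℝ := ⟨fun d => chi d / d, by simp⟩
  let B : ArithmeticFunction ℝ := ⟨fun d => 1 / d, by simp⟩
  have e1 : ∀ m, (A * B) m = r m / m := by
    intro m
    rw [ArithmeticFunction.mul_apply, r, Finset.sum_div,
      ← Nat.sum_divisorsAntidiagonal (fun d e => chi d / (m : ℝ))]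
    refine Finset.sum_congr rfl fun x hx => ?_
    have h := (Nat.mem_divisorsAntidiagonal.mp hx).1
    change chi x.1 / x.1 * (1 / x.2) = chi x.1 / m
    rw [← h]
    push_cast
    rw [div_mul_div_comm, mul_one]
  have e2 := ArithmeticFunction.sum_Ioc_mul_eq_sum_sum A B y
  simp only [e1] at e2
  rw [e2]
  let f : ℕ → ℝ := fun d => H (y / d) / d
  have e3 : ∑ n ∈ Ioc 0 y, A n * ∑ m ∈ Ioc 0 (y / n), B m
      = ∑ d ∈ range (4 * y + 4), chi d * f d := by
    have : ∑ n ∈ Ioc 0 y, A n * ∑ m ∈ Ioc 0 (y / n), B m = ∑ d ∈ Ioc 0 y, chi d * f d := by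
      refine Finset.sum_congr rfl fun d _ => ?_
      change chi d / d * H (y / d) = chi d * (H (y / d) / d)
      ring
    rw [this]
    refine Finset.sum_subset ?_ ?_
    · intro d hd
      have := (mem_Ioc.mp hd).2
      exact mem_range.mpr (by omega)
    · intro d _ hd
      rcases Nat.eq_zero_or_pos d with rfl | h0
      · simp [chi]
      · have : y < d := by
          by_contra h
          exact hd (mem_Ioc.mpr ⟨h0, by omega⟩)
        simp [f, Nat.div_eq_of_lt this, H]
  rw [e3]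
  refine le_trans ?_ (alt_ge f ?_ y)
  · simp only [f, Nat.div_one, Nat.cast_one, div_one]
    have := H_mono (Nat.div_le_self y 3)
    push_cast
    linarith
  · intro d hd
    have h1 : (0 : ℝ) < d := by exact_mod_cast hd
    exact div_le_div₀ (H_nonneg _) (H_mono (Nat.div_le_div_left (by omega) hd)) h1
      (by push_cast; linarith)

lemma T_ge (y : ℕ) : Real.log (y + 1) / 3 ≤ ∑ b ∈ Ioc 0 y, cm w b / b := by
  have := sum_r_le y
  have := sum_r_ge y
  have := log_le_H y
  linarith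

lemma rho_lt (bad : ℕ → ℕ → Prop) [∀ p s, Decidable (bad p s)] (p s : ℕ) (hs : s < p)
    (h : ¬ bad p s) : rho bad p < p := by
  unfold rho
  refine (Finset.card_lt_card (Finset.filter_ssubset.mpr ⟨s, mem_range.mpr hs, h⟩)).trans_eq ?_
  exact card_range p

lemma rho_pos (bad : ℕ → ℕ → Prop) [∀ p s, Decidable (bad p s)] (p s : ℕ) (hs : s < p)
    (h : bad p s) : 0 < rho bad p :=
  Finset.card_pos.mpr ⟨s, mem_filter.mpr ⟨mem_range.mpr hs, h⟩⟩

lemma two_le_rho (n p : ℕ) (hp : p.Prime) (h1 : p % 4 = 1) (hn : ¬ p ∣ n) :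
    2 ≤ rho (fun p s => p ∣ n ^ 2 + s ^ 2) p := by
  have := Fact.mk hp
  obtain ⟨y, hy⟩ := (ZMod.exists_sq_eq_neg_one_iff (p := p)).mpr (by omega)
  have hn' : (n : ZMod p) ≠ 0 := fun h => hn ((ZMod.natCast_eq_zero_iff n p).mp h)
  have hy0 : y ≠ 0 := by
    rintro rfl
    simp at hy
  have h2 : (2 : ZMod p) ≠ 0 := by
    intro h
    have : p ∣ 2 := (ZMod.natCast_eq_zero_iff 2 p).mp (by exact_mod_cast h)
    have := Nat.le_of_dvd (by norm_num) this
    have := hp.two_le
    omega
  have hmem : ∀ x : ZMod p, x ^ 2 = -(n : ZMod p) ^ 2 →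
      x.val ∈ (range p).filter (fun s => p ∣ n ^ 2 + s ^ 2) := by
    intro x hx
    rw [mem_filter, mem_range]
    refine ⟨ZMod.val_lt x, ?_⟩
    rw [← ZMod.natCast_eq_zero_iff]
    push_cast
    rw [ZMod.natCast_zmod_val, hx]
    ring
  unfold rho
  refine Finset.one_lt_card.mpr ⟨(y * n).val, hmem _ ?_, (-(y * n)).val, hmem _ ?_, ?_⟩
  · linear_combination (-(n : ZMod p) ^ 2) * hy
  · linear_combination (-(n : ZMod p) ^ 2) * hy
  · intro h
    have h3 := ZMod.val_injective p h
    have : 2 * (y * n) = 0 := by linear_combination h3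
    exact mul_ne_zero h2 (mul_ne_zero hy0 hn') this

theorem count_le (A : Finset ℕ) (hA : ∀ q ∈ A, q.Prime ∧ q % 4 = 3) (K : ℝ) (hK0 : 0 < K)
    (hK : K ≤ ∑ q ∈ A, (1 : ℝ) / q) (y i : ℕ) (hy : 2 ≤ y) (hi : 0 < i) (n : ℕ)
    (hn : n = (∏ q ∈ A, q) * 2 ^ i) (hyn : (∏ q ∈ A, q) * y ≤ n) :
    (((Ico 1 n).filter fun s => (n ^ 2 + s ^ 2).Prime).card : ℝ)
      ≤ n / (K * (Real.log (y + 1) / 3)) + 2 * (((∏ q ∈ A, q) * y : ℕ) : ℝ) ^ 4 := by
  classical
  set M := ∏ q ∈ A, q with hM
  have hM0 : 0 < M := Finset.prod_pos fun q hq => (hA q hq).1.pos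
  have hqM : ∀ q ∈ A, q ∣ M := fun q hq => Finset.dvd_prod_of_mem (fun p : ℕ => p) hq
  set z := M * y with hz
  let P := (range (z + 1)).filter fun p => p.Prime ∧ (p = 2 ∨ p % 4 = 1 ∨ p ∈ A)
  let c : ℕ → ℝ := fun p => if p ∈ A then 1 else w p
  let B := (Ioc 0 y).filter fun b => cm w b ≠ 0
  let T := (A ×ˢ B).image fun x => x.1 * x.2
  have hP : ∀ p ∈ P, p.Prime := fun p hp => (mem_filter.mp hp).2.1
  have hdvd : ∀ p, (p = 2 ∨ p ∈ A) → p ∣ n := by
    rintro p (rfl | h)
    · rw [hn]; exact Dvd.dvd.mul_left (dvd_pow_self 2 hi.ne') _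
    · rw [hn]; exact Dvd.dvd.mul_right (hqM p h) _
  have hndvd : ∀ p, p.Prime → p % 4 = 1 → ¬ p ∣ n := by
    intro p hp h1 h
    rw [hn] at h
    rcases (Nat.Prime.dvd_mul hp).mp h with h | h
    · obtain ⟨q, hq, hpq⟩ := (Prime.dvd_finsetProd_iff hp.prime _).mp h
      have := (Nat.prime_dvd_prime_iff_eq hp (hA q hq).1).mp hpq
      have := (hA q hq).2
      omega
    · have := (Nat.prime_dvd_prime_iff_eq hp Nat.prime_two).mp (hp.dvd_of_dvd_pow h)
      omega
  have hBw : ∀ b ∈ B, ∀ p ∈ b.primeFactors, p = 2 ∨ p % 4 = 1 := by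
    intro b hb p hp
    have := cm_ne_zero_imp w (mem_filter.mp hb).2 hp
    by_contra h
    push Not at h
    simp [w, h.1, h.2] at this
  have hBA : ∀ b ∈ B, ∀ p ∈ b.primeFactors, p ∉ A := by
    intro b hb p hp hpA
    have := hBw b hb p hp
    have := (hA p hpA).2
    omega
  have hB0 : ∀ b ∈ B, 0 < b ∧ b ≤ y := fun b hb => mem_Ioc.mp (mem_filter.mp hb).1
  have hrho0 : ∀ p ∈ P, 0 < rho (fun p s => p ∣ n ^ 2 + s ^ 2) p := by
    intro p hp
    rcases (mem_filter.mp hp).2.2 with h | h | h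
    · exact rho_pos _ p 0 (hP p hp).pos (by simpa using Dvd.dvd.pow (hdvd p (Or.inl h)) two_ne_zero)
    · exact lt_of_lt_of_le (by norm_num) (two_le_rho n p (hP p hp) h (hndvd p (hP p hp) h))
    · exact rho_pos _ p 0 (hP p hp).pos (by simpa using Dvd.dvd.pow (hdvd p (Or.inr h)) two_ne_zero)
  have hlog : 0 < Real.log (y + 1) := Real.log_pos (by
    have : (2 : ℝ) ≤ y := by exact_mod_cast hy
    linarith)
  refine selberg' (fun p s => p ∣ n ^ 2 + s ^ 2) P hP ?_ c ?_ ?_ hrho0 ?_ z
    (Nat.mul_pos hM0 (by omega)) T ?_ _ (by positivity) ?_ 0 n _ ?_ ?_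
  · intro p _ s
    have : n ^ 2 + (s + p) ^ 2 = n ^ 2 + s ^ 2 + p * (2 * s + p) := by ring
    simp only [this]
    exact (Nat.dvd_add_iff_left (Dvd.intro _ rfl)).symm
  · intro p
    simp only [c]
    split_ifs
    · norm_num
    · exact w_nonneg p
  · intro p hp
    have h1 : (1 : ℝ) ≤ rho (fun p s => p ∣ n ^ 2 + s ^ 2) p := by exact_mod_cast hrho0 p hp
    simp only [c, w]
    split_ifs with ha hb hc
    · exact h1
    · exact h1
    · exact_mod_cast two_le_rho n p (hP p hp) hc (hndvd p (hP p hp) hc)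
    · linarith
  · intro p hp
    have hpp := hP p hp
    by_cases h : p ∣ n
    · refine rho_lt _ p 1 hpp.one_lt ?_
      intro h'
      have := (Nat.dvd_add_right (Dvd.dvd.pow h two_ne_zero)).mp h'
      simp at this
      exact hpp.one_lt.ne' this
    · refine rho_lt _ p 0 hpp.pos ?_
      intro h'
      simp only [ne_eq, OfNat.ofNat_ne_zero, not_false_eq_true, zero_pow, add_zero] at h'
      exact h (hpp.dvd_of_dvd_pow h')
  · intro m hm
    obtain ⟨⟨q, b⟩, hx, rfl⟩ := mem_image.mp hm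
    obtain ⟨hq, hb⟩ := mem_product.mp hx
    simp only at hq hb ⊢
    have hle : q * b ≤ z := Nat.mul_le_mul (Nat.le_of_dvd hM0 (hqM q hq)) (hB0 b hb).2
    have hpos : 0 < q * b := Nat.mul_pos (hA q hq).1.pos (hB0 b hb).1
    refine ⟨hpos, hle, ?_⟩
    intro p hp
    have hpp := Nat.prime_of_mem_primeFactors hp
    have hpd := Nat.dvd_of_mem_primeFactors hp
    refine mem_filter.mpr ⟨mem_range.mpr ?_, hpp, ?_⟩
    · have := Nat.le_of_dvd hpos hpd
      omega
    · rcases (Nat.Prime.dvd_mul hpp).mp hpd with h | h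
      · rw [(Nat.prime_dvd_prime_iff_eq hpp (hA q hq).1).mp h]
        exact Or.inr (Or.inr hq)
      · rcases hBw b hb p (Nat.mem_primeFactors.mpr ⟨hpp, h, (hB0 b hb).1.ne'⟩) with h | h
        · exact Or.inl h
        · exact Or.inr (Or.inl h)
  · have hinj : Set.InjOn (fun x : ℕ × ℕ => x.1 * x.2) (A ×ˢ B : Finset (ℕ × ℕ)) := by
      rintro ⟨q, b⟩ hx ⟨q', b'⟩ hx' e
      obtain ⟨hq, hb⟩ := mem_product.mp hx
      obtain ⟨hq', hb'⟩ := mem_product.mp hx'
      simp only at hq hb hq' hb' e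
      have hqq : q = q' := by
        have : q ∣ q' * b' := e ▸ Dvd.intro _ rfl
        rcases (Nat.Prime.dvd_mul (hA q hq).1).mp this with h | h
        · exact (Nat.prime_dvd_prime_iff_eq (hA q hq).1 (hA q' hq').1).mp h
        · exact absurd hq (hBA b' hb' q
            (Nat.mem_primeFactors.mpr ⟨(hA q hq).1, h, (hB0 b' hb').1.ne'⟩))
      subst hqq
      rw [Nat.eq_of_mul_eq_mul_left (hA q hq).1.pos e]
    rw [Finset.sum_image hinj, Finset.sum_product]
    have e1 : ∑ q ∈ A, ∑ b ∈ B, cm c ((q, b).1 * (q, b).2) / (((q, b).1 * (q, b).2 : ℕ) : ℝ)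
        = (∑ q ∈ A, (1 : ℝ) / q) * ∑ b ∈ B, cm w b / b := by
      rw [Finset.sum_mul_sum]
      refine Finset.sum_congr rfl fun q hq => Finset.sum_congr rfl fun b hb => ?_
      simp only
      rw [cm_mul c (hA q hq).1.ne_zero (hB0 b hb).1.ne', cm_prime c (hA q hq).1]
      have : cm c b = cm w b := by
        rw [cm_eq, cm_eq]
        refine Finset.prod_congr rfl fun p hp => ?_
        simp only [c, hBA b hb p hp, if_false]
      rw [this]
      simp only [c, hq, if_true]
      push_cast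
      rw [div_mul_div_comm]
    have e2 : ∑ b ∈ B, cm w b / b = ∑ b ∈ Ioc 0 y, cm w b / b := by
      refine Finset.sum_filter_of_ne fun b _ h h' => h ?_
      rw [h', zero_div]
    rw [e1, e2]
    exact mul_le_mul hK (T_ge y) (by positivity) (hK0.le.trans hK)
  · intro s hs
    have := mem_Ico.mp (mem_filter.mp hs).1
    exact mem_Ico.mpr ⟨Nat.zero_le _, by omega⟩
  · intro s hs p hp h
    have h1 := mem_Ico.mp (mem_filter.mp hs).1
    have h2 := (Nat.prime_dvd_prime_iff_eq (hP p hp) (mem_filter.mp hs).2).mp h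
    have h3 := mem_range.mp (mem_filter.mp hp).1
    nlinarith

lemma sq_le_two_pow (j : ℕ) (hj : 4 ≤ j) : j ^ 2 ≤ 2 ^ j := by
  induction j, hj using Nat.le_induction with
  | base => norm_num
  | succ j hj ih => rw [pow_succ 2]; nlinarith

theorem exists_few : ∃ n : ℕ, 1 < n ∧
    5 * ((Ico 1 n).filter fun s => (n ^ 2 + s ^ 2).Prime).card < Nat.primeCounting n := by
  obtain ⟨A, hA, hK⟩ := exists_primes_recip_ge (q := 4) (a := 3) (by decide) 900
  have hA' : ∀ q ∈ A, q.Prime ∧ q % 4 = 3 := by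
    intro q hq
    refine ⟨(hA q hq).1, ?_⟩
    have := (ZMod.natCast_eq_natCast_iff' q 3 4).mp (by exact_mod_cast (hA q hq).2)
    simpa using this
  set M := ∏ q ∈ A, q with hM
  have hM0 : 0 < M := Finset.prod_pos fun q hq => (hA q hq).1.pos
  set j := 600 * M ^ 3 with hj
  have hM3 : M ≤ M ^ 3 := Nat.le_self_pow (by norm_num) M
  have hjM : M ≤ j := by omega
  have hj4 : 600 ≤ j := by omega
  have hj2 : j ^ 2 ≤ 2 ^ j := sq_le_two_pow j (by omega)
  set t := 2 ^ j with ht
  have ht2 : 70 * j ≤ t := by nlinarith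
  set n := M * t ^ 5 with hn
  have htn : t ≤ t ^ 5 := Nat.le_self_pow (by norm_num) t
  have hn2 : t ≤ n := by nlinarith
  have hc := count_le A hA' 900 (by norm_num) hK t (j * 5) (by omega) (by omega) n
    (by rw [pow_mul]) (Nat.mul_le_mul_left M htn)
  rw [← hM] at hc
  refine ⟨n, by omega, ?_⟩
  have hpi := Chebyshev.pi_ge n
  set a := ((Ico 1 n).filter fun s => (n ^ 2 + s ^ 2).Prime).card
  have l1 := Real.log_two_gt_d9
  have l2 := Real.log_two_lt_d9
  have hjR : (600 : ℝ) ≤ j := by exact_mod_cast hj4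
  have hMR : (1 : ℝ) ≤ M := by exact_mod_cast hM0
  have htR : (70 : ℝ) * j ≤ t := by exact_mod_cast ht2
  have hnR : (t : ℝ) ≤ n := by exact_mod_cast hn2
  have hlt : Real.log t = j * Real.log 2 := by
    rw [ht]; push_cast; rw [Real.log_pow]
  have hlM : Real.log M ≤ j * Real.log 2 := by
    rw [← hlt]
    exact Real.log_le_log (by linarith) (by
      have : (M : ℝ) ≤ j := by exact_mod_cast hjM
      linarith)
  have hln : Real.log n ≤ 6 * (j * Real.log 2) := by
    rw [hn]; push_cast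
    rw [Real.log_mul (by linarith) (by positivity), Real.log_pow, hlt]
    push_cast
    linarith
  have hln0 : 0 < Real.log n := Real.log_pos (by linarith)
  have hl1 : j * Real.log 2 ≤ Real.log (t + 1) := by
    rw [← hlt]
    exact Real.log_le_log (by linarith) (by linarith)
  have hl2 : Real.log (n + 1) ≤ Real.log 2 + Real.log n := by
    rw [← Real.log_mul (by norm_num) (by linarith)]
    exact Real.log_le_log (by linarith) (by linarith)
  have hjl : 0 < j * Real.log 2 := by positivity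
  have h1 : (n : ℝ) / (900 * (Real.log (t + 1) / 3)) ≤ n / 50 / Real.log n := by
    rw [div_div]
    exact div_le_div_of_nonneg_left (by positivity) (by positivity) (by linarith)
  have h2 : 2 * ((M * t : ℕ) : ℝ) ^ 4 ≤ n / 50 / Real.log n := by
    rw [le_div_iff₀ hln0]
    have e1 : (j : ℝ) = 600 * M ^ 3 := by rw [hj]; push_cast; ring
    have e2 : (n : ℝ) = M * t ^ 5 := by rw [hn]; push_cast; ring
    have e3 : (j : ℝ) ^ 2 ≤ t := by exact_mod_cast hj2
    have e4 : Real.log n ≤ 6 * j := by nlinarith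
    have e5 : (0 : ℝ) ≤ M * t ^ 4 := by positivity
    calc 2 * ((M * t : ℕ) : ℝ) ^ 4 * Real.log n ≤ 2 * ((M * t : ℕ) : ℝ) ^ 4 * (6 * j) :=
          mul_le_mul_of_nonneg_left e4 (by positivity)
      _ = (M * t ^ 4) * (j ^ 2) / 50 := by
          push_cast
          rw [sq (j : ℝ)]
          nth_rewrite 2 [e1]
          ring
      _ ≤ (M * t ^ 4) * t / 50 := by gcongr
      _ = n / 50 := by rw [e2]; ring
  have h3 : 5 * (n / 50 / Real.log n + n / 50 / Real.log n)
      < (n * Real.log 2 - Real.log (n + 1)) / Real.log n := by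
    rw [← add_div, ← mul_div_assoc]
    refine div_lt_div_of_pos_right ?_ hln0
    nlinarith
  have : (5 : ℝ) * a < Nat.primeCounting n := by linarith
  exact_mod_cast this

end Pool.Agent.H61.TwoSq
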